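import Pool.Agent.Lib_MP_36b788.JMap

set_option linter.unusedVariables false

/-!
# MP_36b788_pr, stationary limit: merged library part M01

Concatenation of smaller files (each in its own section), only to save build time.
-/

/-! ### from `Lib_MP_36b788.NMom` -/

section

/-!
# NMOM: moments of an isotropic bounded noise

`IsNoise h ν`: `ν` probability, invariant under linear isometries, `√h ‖ξ‖ ≤ h^(3/8)` a.e.,
`N(1-h) ≤ ∫‖ξ‖² ≤ N`.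

PROOF. Every integrand is bounded a.e. (`0 < h`), so integrable.
* `int_comp`: `∫ F (L ξ) = ∫ F ξ` from `ν.map L = ν` (`integral_map`, `L` is a homeomorphism so the
   identity `MeasurableEmbedding.integral_map` holds for every `F`).
* mean zero and odd moments: `L = -id`.
* `∫⟪a,ξ⟫² = ‖a‖² v`: by a rotation taking `a/‖a‖` to any other unit vector the value depends only on
  `‖a‖`; sum over an orthonormal basis gives `N v = ∫‖ξ‖²`. Polarisation gives the bilinear form.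
* `proj`: sum over an orthonormal basis of `K`.
* axis symmetry about a unit vector `e`: `L u = 2⟪e,u⟫e - u` (reflection in the line `ℝ e`) is an
  isometry with `⟪e,Lu⟫ = ⟪e,u⟫`, `‖Lu‖ = ‖u‖`; so for `F` a function of `(⟪e,ξ⟫,‖ξ‖)`
  `∫ F • ξ = ∫ F • Lξ`, i.e. `∫ F•(ξ - ⟪e,ξ⟫e) = 0`.
* `axis_sq`: for `a ⟂ e`, `∫ F ⟪a,ξ⟫² = ‖a‖²/(N-1) ∫ F (‖ξ‖² - ⟪e,ξ⟫²)`: isometries fixing `e` act
  transitively on the unit sphere of `e^⊥` (for unit `a, a' ⟂ e` use the reflection in the hyperplane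
  orthogonal to `a-a'`, which fixes `e`), then sum over an orthonormal basis of `e^⊥`.
-/

open MeasureTheory

namespace Dyn

variable {N : ℕ} {h : ℝ} {ν : Measure (E N)}

/-- continuous functions are integrable -/
private theorem NMom_int (hh : 0 < h) (hν : IsNoise h ν) {F : Type*} [NormedAddCommGroup F]
    [SecondCountableTopologyEither (E N) F] {f : E N → F} (hf : Continuous f) :
    Integrable f ν := by
  have := hν.prob
  obtain ⟨C, hC⟩ := (isCompact_closedBall (0 : E N) (h ^ (3 / 8 : ℝ) / Real.sqrt h)).exists_bound_of_continuousOn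
    hf.continuousOn
  refine Integrable.of_bound hf.aestronglyMeasurable C ?_
  filter_upwards [hν.bdd] with ξ hξ
  refine hC ξ ?_
  rw [mem_closedBall_zero_iff, le_div_iff₀ (Real.sqrt_pos.mpr hh), mul_comm]
  exact hξ

theorem noise_int_comp (hν : IsNoise h ν) (L : E N ≃ₗᵢ[ℝ] E N) {F : Type*}
    [NormedAddCommGroup F] [NormedSpace ℝ F] (f : E N → F) :
    ∫ ξ, f (L ξ) ∂ν = ∫ ξ, f ξ ∂ν := by
  have h1 := L.toHomeomorph.measurableEmbedding.integral_map (μ := ν) f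
  have h2 : Measure.map (L.toHomeomorph) ν = ν := hν.iso L
  rw [h2] at h1
  exact h1.symm

private theorem NMom_inner (L : E N ≃ₗᵢ[ℝ] E N) {x y : E N} (hxy : L x = y) (ξ : E N) :
    inner ℝ y (L ξ) = inner ℝ x ξ := by
  rw [← hxy, L.inner_map_map]

theorem noise_mean (hh : 0 < h) (hν : IsNoise h ν) (a : E N) : ∫ ξ, inner ℝ a ξ ∂ν = 0 := by
  have h1 := noise_int_comp hν (LinearIsometryEquiv.neg ℝ) (fun ξ => inner ℝ a ξ)
  simp only [LinearIsometryEquiv.coe_neg, inner_neg_right, integral_neg] at h1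
  linarith

theorem noise_mean_vec (hh : 0 < h) (hν : IsNoise h ν) : ∫ ξ, ξ ∂ν = 0 := by
  have h1 := noise_int_comp hν (LinearIsometryEquiv.neg ℝ) (fun ξ => ξ)
  simp only [LinearIsometryEquiv.coe_neg] at h1
  rw [integral_neg] at h1
  have h2 : (2 : ℝ) • ∫ ξ, ξ ∂ν = (2 : ℝ) • (0 : E N) := by
    rw [smul_zero, two_smul]
    nth_rw 1 [← h1]
    exact neg_add_cancel _
  exact smul_right_injective (E N) (two_ne_zero : (2 : ℝ) ≠ 0) h2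

theorem noise_odd3 (hh : 0 < h) (hν : IsNoise h ν) (a : E N) :
    ∫ ξ, inner ℝ a ξ * ‖ξ‖ ^ 2 ∂ν = 0 := by
  have h1 := noise_int_comp hν (LinearIsometryEquiv.neg ℝ) (fun ξ => inner ℝ a ξ * ‖ξ‖ ^ 2)
  simp only [LinearIsometryEquiv.coe_neg, inner_neg_right, norm_neg, neg_mul, integral_neg] at h1
  linarith

/-- the second moments of two vectors of the same length are equal -/
private theorem NMom_sq_eq (hν : IsNoise h ν) {a b : E N} (hab : ‖a‖ = ‖b‖) :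
    ∫ ξ, (inner ℝ a ξ) ^ 2 ∂ν = ∫ ξ, (inner ℝ b ξ) ^ 2 ∂ν := by
  have h1 := noise_int_comp hν (Submodule.reflection (ℝ ∙ (a - b))ᗮ) (fun ξ => (inner ℝ b ξ) ^ 2)
  rw [← h1]
  have h2 := Submodule.reflection_sub hab
  refine integral_congr_ae (Filter.Eventually.of_forall (fun ξ => ?_))
  show (inner ℝ a ξ) ^ 2 = (inner ℝ b ((Submodule.reflection (ℝ ∙ (a - b))ᗮ) ξ)) ^ 2
  rw [NMom_inner _ h2]

theorem noise_sq (hh : 0 < h) (hN : 1 ≤ N) (hν : IsNoise h ν) (a : E N) :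
    ∫ ξ, (inner ℝ a ξ) ^ 2 ∂ν = ‖a‖ ^ 2 * ((∫ ξ, ‖ξ‖ ^ 2 ∂ν) / N) := by
  have hN0 : (0 : ℝ) < N := by exact_mod_cast hN
  let b := EuclideanSpace.basisFun (Fin N) ℝ
  have h1 : ∀ i, ∫ ξ, (inner ℝ a ξ) ^ 2 ∂ν = ‖a‖ ^ 2 * ∫ ξ, (inner ℝ (b i) ξ) ^ 2 ∂ν := by
    intro i
    have h2 : ‖a‖ = ‖‖a‖ • b i‖ := by
      rw [norm_smul, b.norm_eq_one, mul_one, norm_norm]
    rw [NMom_sq_eq hν h2, ← integral_const_mul]
    refine integral_congr_ae (Filter.Eventually.of_forall (fun ξ => ?_))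
    show (inner ℝ (‖a‖ • b i) ξ) ^ 2 = ‖a‖ ^ 2 * (inner ℝ (b i) ξ) ^ 2
    rw [real_inner_smul_left]
    ring
  have h3 : (N : ℝ) * ∫ ξ, (inner ℝ a ξ) ^ 2 ∂ν = ‖a‖ ^ 2 * ∫ ξ, ‖ξ‖ ^ 2 ∂ν := by
    calc (N : ℝ) * ∫ ξ, (inner ℝ a ξ) ^ 2 ∂ν = ∑ _i : Fin N, ∫ ξ, (inner ℝ a ξ) ^ 2 ∂ν := by
          rw [Finset.sum_const, Finset.card_univ, Fintype.card_fin, nsmul_eq_mul]
      _ = ∑ i : Fin N, ‖a‖ ^ 2 * ∫ ξ, (inner ℝ (b i) ξ) ^ 2 ∂ν :=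
          Finset.sum_congr rfl (fun i _ => h1 i)
      _ = ‖a‖ ^ 2 * ∑ i : Fin N, ∫ ξ, (inner ℝ (b i) ξ) ^ 2 ∂ν := by rw [Finset.mul_sum]
      _ = ‖a‖ ^ 2 * ∫ ξ, ∑ i : Fin N, (inner ℝ (b i) ξ) ^ 2 ∂ν := by
          rw [integral_finsetSum]
          exact fun i _ => NMom_int hh hν (by fun_prop)
      _ = ‖a‖ ^ 2 * ∫ ξ, ‖ξ‖ ^ 2 ∂ν := by
          congr 2
          funext ξ
          exact b.sum_sq_inner_right ξ
  rw [mul_div_assoc', eq_div_iff hN0.ne']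
  linarith

theorem noise_bilin (hh : 0 < h) (hN : 1 ≤ N) (hν : IsNoise h ν) (a b : E N) :
    ∫ ξ, inner ℝ a ξ * inner ℝ b ξ ∂ν = inner ℝ a b * ((∫ ξ, ‖ξ‖ ^ 2 ∂ν) / N) := by
  have h1 := noise_sq hh hN hν (a + b)
  have h2 := noise_sq hh hN hν (a - b)
  have h3 : ∫ ξ, inner ℝ a ξ * inner ℝ b ξ ∂ν =
      (1 / 4) * (∫ ξ, (inner ℝ (a + b) ξ) ^ 2 ∂ν - ∫ ξ, (inner ℝ (a - b) ξ) ^ 2 ∂ν) := by
    rw [← integral_sub (NMom_int hh hν (by fun_prop)) (NMom_int hh hν (by fun_prop)),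
      ← integral_const_mul]
    refine integral_congr_ae (Filter.Eventually.of_forall (fun ξ => ?_))
    show inner ℝ a ξ * inner ℝ b ξ =
      (1 / 4) * ((inner ℝ (a + b) ξ) ^ 2 - (inner ℝ (a - b) ξ) ^ 2)
    rw [inner_add_left, inner_sub_left]
    ring
  have h4 : (inner ℝ a b : ℝ) = (1 / 4) * (‖a + b‖ ^ 2 - ‖a - b‖ ^ 2) := by
    rw [norm_add_sq_real, norm_sub_sq_real]
    ring
  rw [h3, h1, h2, h4]
  ring

private theorem NMom_proj_sum (K : Submodule ℝ (E N)) (ξ : E N) :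
    ∑ i, (inner ℝ ((stdOrthonormalBasis ℝ K i : K) : E N) ξ) ^ 2 = ‖K.starProjection ξ‖ ^ 2 := by
  have h1 := (stdOrthonormalBasis ℝ K).sum_sq_inner_right (K.orthogonalProjectionOnto ξ)
  have h2 : ‖K.orthogonalProjectionOnto ξ‖ = ‖K.starProjection ξ‖ := rfl
  rw [h2] at h1
  rw [← h1]
  refine Finset.sum_congr rfl (fun i _ => ?_)
  rw [Submodule.inner_orthogonalProjectionOnto_eq_of_mem_left]

private theorem NMom_basis_norm (K : Submodule ℝ (E N)) (i : Fin (Module.finrank ℝ K)) :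
    ‖((stdOrthonormalBasis ℝ K i : K) : E N)‖ = 1 :=
  (stdOrthonormalBasis ℝ K).norm_eq_one i

theorem noise_proj (hh : 0 < h) (hN : 1 ≤ N) (hν : IsNoise h ν) (K : Submodule ℝ (E N)) :
    ∫ ξ, ‖K.starProjection ξ‖ ^ 2 ∂ν
      = (Module.finrank ℝ K : ℝ) * ((∫ ξ, ‖ξ‖ ^ 2 ∂ν) / N) := by
  have h1 : ∫ ξ, ‖K.starProjection ξ‖ ^ 2 ∂ν =
      ∫ ξ, ∑ i, (inner ℝ ((stdOrthonormalBasis ℝ K i : K) : E N) ξ) ^ 2 ∂ν :=
    integral_congr_ae (Filter.Eventually.of_forall (fun ξ => (NMom_proj_sum K ξ).symm))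
  rw [h1, integral_finsetSum _ (fun i _ => NMom_int hh hν (by fun_prop))]
  have h2 : ∀ i ∈ (Finset.univ : Finset (Fin (Module.finrank ℝ K))),
      ∫ ξ, (inner ℝ ((stdOrthonormalBasis ℝ K i : K) : E N) ξ) ^ 2 ∂ν =
        (∫ ξ, ‖ξ‖ ^ 2 ∂ν) / N := by
    intro i _
    rw [noise_sq hh hN hν, NMom_basis_norm, one_pow, one_mul]
  rw [Finset.sum_congr rfl h2, Finset.sum_const, Finset.card_univ, Fintype.card_fin,
    nsmul_eq_mul]

/-- axis symmetry, first moment -/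
theorem noise_axis (hh : 0 < h) (hν : IsNoise h ν) (e : E N) (he : ‖e‖ = 1)
    (F : ℝ → ℝ → ℝ) (hF : Integrable (fun ξ : E N => F (inner ℝ e ξ) ‖ξ‖ • ξ) ν) :
    ∫ ξ, F (inner ℝ e ξ) ‖ξ‖ • ξ ∂ν = (∫ ξ, F (inner ℝ e ξ) ‖ξ‖ * inner ℝ e ξ ∂ν) • e := by
  have h1 := noise_int_comp hν (Submodule.reflection (ℝ ∙ e))
    (fun ξ => F (inner ℝ e ξ) ‖ξ‖ • ξ)
  have hLe : Submodule.reflection (ℝ ∙ e) e = e :=
    Submodule.reflection_mem_subspace_eq_self (Submodule.mem_span_singleton_self e)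
  have hLi : ∀ ξ, inner ℝ e (Submodule.reflection (ℝ ∙ e) ξ) = inner ℝ e ξ := by
    intro ξ
    exact NMom_inner _ hLe ξ
  have hL : ∀ ξ, Submodule.reflection (ℝ ∙ e) ξ = (2 * inner ℝ e ξ) • e - ξ := by
    intro ξ
    rw [Submodule.reflection_apply, Submodule.starProjection_unit_singleton ℝ he, two_smul,
      ← add_smul, two_mul]
  have hFe : Integrable (fun ξ : E N => F (inner ℝ e ξ) ‖ξ‖ * inner ℝ e ξ) ν := by
    have h2 := hF.const_inner (𝕜 := ℝ) e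
    refine h2.congr (Filter.Eventually.of_forall (fun ξ => ?_))
    show inner ℝ e (F (inner ℝ e ξ) ‖ξ‖ • ξ) = F (inner ℝ e ξ) ‖ξ‖ * inner ℝ e ξ
    rw [real_inner_smul_right]
  have h3 : ∫ ξ, F (inner ℝ e (Submodule.reflection (ℝ ∙ e) ξ))
      ‖Submodule.reflection (ℝ ∙ e) ξ‖ • (Submodule.reflection (ℝ ∙ e) ξ) ∂ν =
      (2 : ℝ) • ((∫ ξ, F (inner ℝ e ξ) ‖ξ‖ * inner ℝ e ξ ∂ν) • e) -
        ∫ ξ, F (inner ℝ e ξ) ‖ξ‖ • ξ ∂ν := by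
    rw [← integral_smul_const, ← integral_smul, ← integral_sub (by
      exact (hFe.smul_const e).smul (2 : ℝ)) hF]
    refine integral_congr_ae (Filter.Eventually.of_forall (fun ξ => ?_))
    show F (inner ℝ e (Submodule.reflection (ℝ ∙ e) ξ))
      ‖Submodule.reflection (ℝ ∙ e) ξ‖ • (Submodule.reflection (ℝ ∙ e) ξ) =
      (2 : ℝ) • ((F (inner ℝ e ξ) ‖ξ‖ * inner ℝ e ξ) • e) - F (inner ℝ e ξ) ‖ξ‖ • ξ
    rw [hLi, LinearIsometryEquiv.norm_map, hL, smul_sub, smul_smul, smul_smul]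
    congr 2
    ring
  rw [h3] at h1
  have h4 : (2 : ℝ) • ((∫ ξ, F (inner ℝ e ξ) ‖ξ‖ * inner ℝ e ξ ∂ν) • e) =
      (2 : ℝ) • ∫ ξ, F (inner ℝ e ξ) ‖ξ‖ • ξ ∂ν := by
    rw [two_smul ℝ (∫ ξ, F (inner ℝ e ξ) ‖ξ‖ • ξ ∂ν)]
    exact sub_eq_iff_eq_add.mp h1
  exact (smul_right_injective (E N) (two_ne_zero : (2 : ℝ) ≠ 0) h4).symm

/-- functions dominated by `‖ξ‖²` are integrable against `F` -/
private theorem NMom_int2 (e : E N) (F : ℝ → ℝ → ℝ)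
    (hF : Integrable (fun ξ : E N => F (inner ℝ e ξ) ‖ξ‖ * ‖ξ‖ ^ 2) ν) (g : E N → ℝ)
    (hg : Continuous g) (C : ℝ) (hC : ∀ ξ, |g ξ| ≤ C * ‖ξ‖ ^ 2) :
    Integrable (fun ξ : E N => F (inner ℝ e ξ) ‖ξ‖ * g ξ) ν := by
  have hC0 : ∀ ξ : E N, |g ξ / ‖ξ‖ ^ 2| ≤ max C 0 := by
    intro ξ
    rcases eq_or_ne ξ 0 with h0 | h0
    · rw [h0, norm_zero, zero_pow two_ne_zero, div_zero, abs_zero]
      exact le_max_right _ _
    · have h1 : 0 < ‖ξ‖ ^ 2 := by positivity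
      rw [abs_div, abs_of_pos h1, div_le_iff₀ h1]
      exact (hC ξ).trans (mul_le_mul_of_nonneg_right (le_max_left _ _) h1.le)
  have h2 : Integrable (fun ξ : E N => (F (inner ℝ e ξ) ‖ξ‖ * ‖ξ‖ ^ 2) * (g ξ / ‖ξ‖ ^ 2)) ν := by
    refine Integrable.mul_bdd (c := max C 0) hF ?_ ?_
    · exact (hg.measurable.div (by fun_prop)).aestronglyMeasurable
    · refine Filter.Eventually.of_forall (fun ξ => ?_)
      rw [Real.norm_eq_abs]
      exact hC0 ξ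
  refine h2.congr (Filter.Eventually.of_forall (fun ξ => ?_))
  show (F (inner ℝ e ξ) ‖ξ‖ * ‖ξ‖ ^ 2) * (g ξ / ‖ξ‖ ^ 2) = F (inner ℝ e ξ) ‖ξ‖ * g ξ
  rcases eq_or_ne ξ 0 with h0 | h0
  · have h3 : g 0 = 0 := by
      have h4 := hC 0
      rw [norm_zero, zero_pow two_ne_zero, mul_zero] at h4
      exact abs_nonpos_iff.mp h4
    rw [h0, h3, norm_zero]
    ring
  · have h1 : ‖ξ‖ ^ 2 ≠ 0 := by positivity
    field_simp

private theorem NMom_axis_eq (hν : IsNoise h ν) (e : E N) (F : ℝ → ℝ → ℝ) {a b : E N}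
    (hab : ‖a‖ = ‖b‖) (ha : inner ℝ a e = 0) (hb : inner ℝ b e = 0) :
    ∫ ξ, F (inner ℝ e ξ) ‖ξ‖ * (inner ℝ a ξ) ^ 2 ∂ν =
      ∫ ξ, F (inner ℝ e ξ) ‖ξ‖ * (inner ℝ b ξ) ^ 2 ∂ν := by
  have h1 := noise_int_comp hν (Submodule.reflection (ℝ ∙ (a - b))ᗮ)
    (fun ξ => F (inner ℝ e ξ) ‖ξ‖ * (inner ℝ b ξ) ^ 2)
  rw [← h1]
  have h2 := Submodule.reflection_sub hab
  have h3 : Submodule.reflection (ℝ ∙ (a - b))ᗮ e = e := by
    refine Submodule.reflection_mem_subspace_eq_self ?_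
    rw [Submodule.mem_orthogonal_singleton_iff_inner_right, inner_sub_left, ha, hb, sub_zero]
  refine integral_congr_ae (Filter.Eventually.of_forall (fun ξ => ?_))
  show F (inner ℝ e ξ) ‖ξ‖ * (inner ℝ a ξ) ^ 2 =
    F (inner ℝ e ((Submodule.reflection (ℝ ∙ (a - b))ᗮ) ξ))
      ‖(Submodule.reflection (ℝ ∙ (a - b))ᗮ) ξ‖ *
      (inner ℝ b ((Submodule.reflection (ℝ ∙ (a - b))ᗮ) ξ)) ^ 2
  have h4 : inner ℝ e ((Submodule.reflection (ℝ ∙ (a - b))ᗮ) ξ) = inner ℝ e ξ :=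
    NMom_inner _ h3 ξ
  have h5 : inner ℝ b ((Submodule.reflection (ℝ ∙ (a - b))ᗮ) ξ) = inner ℝ a ξ :=
    NMom_inner _ h2 ξ
  rw [h4, h5, LinearIsometryEquiv.norm_map]

/-- axis symmetry, second moment -/
theorem noise_axis_sq (hh : 0 < h) (hN : 2 ≤ N) (hν : IsNoise h ν) (e : E N) (he : ‖e‖ = 1)
    (F : ℝ → ℝ → ℝ) (hF : Integrable (fun ξ : E N => F (inner ℝ e ξ) ‖ξ‖ * ‖ξ‖ ^ 2) ν)
    (a : E N) (hae : inner ℝ a e = 0) :
    ∫ ξ, F (inner ℝ e ξ) ‖ξ‖ * (inner ℝ a ξ) ^ 2 ∂ν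
      = ‖a‖ ^ 2 / (N - 1) * ∫ ξ, F (inner ℝ e ξ) ‖ξ‖ * (‖ξ‖ ^ 2 - (inner ℝ e ξ) ^ 2) ∂ν := by
  have hN0 : (0 : ℝ) < (N : ℝ) - 1 := by
    have : (2 : ℝ) ≤ N := by exact_mod_cast hN
    linarith
  have he0 : e ≠ 0 := by
    rintro rfl
    rw [norm_zero] at he
    exact zero_ne_one he
  have hdim : Module.finrank ℝ ((ℝ ∙ e)ᗮ : Submodule ℝ (E N)) = N - 1 := by
    have : Fact (Module.finrank ℝ (E N) = (N - 1) + 1) := ⟨by
      rw [finrank_euclideanSpace_fin]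
      omega⟩
    exact Submodule.finrank_orthogonal_span_singleton he0
  have hperp : ∀ i, inner ℝ ((stdOrthonormalBasis ℝ ((ℝ ∙ e)ᗮ : Submodule ℝ (E N)) i :
      ((ℝ ∙ e)ᗮ : Submodule ℝ (E N))) : E N) e = 0 := by
    intro i
    have h1 := (stdOrthonormalBasis ℝ ((ℝ ∙ e)ᗮ : Submodule ℝ (E N)) i).2
    rwa [Submodule.mem_orthogonal_singleton_iff_inner_left] at h1
  have h1 : ∀ i : Fin (Module.finrank ℝ ((ℝ ∙ e)ᗮ : Submodule ℝ (E N))),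
      ∫ ξ, F (inner ℝ e ξ) ‖ξ‖ * (inner ℝ a ξ) ^ 2 ∂ν = ‖a‖ ^ 2 *
      ∫ ξ, F (inner ℝ e ξ) ‖ξ‖ * (inner ℝ ((stdOrthonormalBasis ℝ
        ((ℝ ∙ e)ᗮ : Submodule ℝ (E N)) i : ((ℝ ∙ e)ᗮ : Submodule ℝ (E N))) : E N) ξ) ^ 2 ∂ν := by
    intro i
    have h2 : ‖a‖ = ‖‖a‖ • ((stdOrthonormalBasis ℝ ((ℝ ∙ e)ᗮ : Submodule ℝ (E N)) i :
        ((ℝ ∙ e)ᗮ : Submodule ℝ (E N))) : E N)‖ := by
      rw [norm_smul, NMom_basis_norm, mul_one, norm_norm]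
    rw [NMom_axis_eq hν e F h2 hae (by rw [real_inner_smul_left, hperp, mul_zero]),
      ← integral_const_mul]
    refine integral_congr_ae (Filter.Eventually.of_forall (fun ξ => ?_))
    simp only
    rw [real_inner_smul_left]
    ring
  have hint : ∀ b : E N, Integrable (fun ξ : E N => F (inner ℝ e ξ) ‖ξ‖ * (inner ℝ b ξ) ^ 2) ν := by
    intro b
    refine NMom_int2 e F hF (fun ξ => (inner ℝ b ξ) ^ 2) (by fun_prop) (‖b‖ ^ 2) (fun ξ => ?_)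
    rw [abs_of_nonneg (sq_nonneg _), ← mul_pow, ← sq_abs]
    exact pow_le_pow_left₀ (abs_nonneg _) (abs_real_inner_le_norm b ξ) 2
  have h3 : ((N : ℝ) - 1) * ∫ ξ, F (inner ℝ e ξ) ‖ξ‖ * (inner ℝ a ξ) ^ 2 ∂ν =
      ‖a‖ ^ 2 * ∫ ξ, F (inner ℝ e ξ) ‖ξ‖ * (‖ξ‖ ^ 2 - (inner ℝ e ξ) ^ 2) ∂ν := by
    calc ((N : ℝ) - 1) * ∫ ξ, F (inner ℝ e ξ) ‖ξ‖ * (inner ℝ a ξ) ^ 2 ∂ν
        = ∑ _i : Fin (Module.finrank ℝ ((ℝ ∙ e)ᗮ : Submodule ℝ (E N))),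
            ∫ ξ, F (inner ℝ e ξ) ‖ξ‖ * (inner ℝ a ξ) ^ 2 ∂ν := by
          rw [Finset.sum_const, Finset.card_univ, Fintype.card_fin, nsmul_eq_mul, hdim,
            Nat.cast_sub (by omega), Nat.cast_one]
      _ = ∑ i : Fin (Module.finrank ℝ ((ℝ ∙ e)ᗮ : Submodule ℝ (E N))), ‖a‖ ^ 2 *
            ∫ ξ, F (inner ℝ e ξ) ‖ξ‖ * (inner ℝ ((stdOrthonormalBasis ℝ
              ((ℝ ∙ e)ᗮ : Submodule ℝ (E N)) i : ((ℝ ∙ e)ᗮ : Submodule ℝ (E N))) : E N) ξ) ^ 2 ∂ν :=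
          Finset.sum_congr rfl (fun i _ => h1 i)
      _ = ‖a‖ ^ 2 * ∫ ξ, ∑ i : Fin (Module.finrank ℝ ((ℝ ∙ e)ᗮ : Submodule ℝ (E N))),
            F (inner ℝ e ξ) ‖ξ‖ * (inner ℝ ((stdOrthonormalBasis ℝ
              ((ℝ ∙ e)ᗮ : Submodule ℝ (E N)) i : ((ℝ ∙ e)ᗮ : Submodule ℝ (E N))) : E N) ξ) ^ 2 ∂ν := by
          rw [← Finset.mul_sum, integral_finsetSum _ (fun i _ => hint _)]
      _ = ‖a‖ ^ 2 * ∫ ξ, F (inner ℝ e ξ) ‖ξ‖ * (‖ξ‖ ^ 2 - (inner ℝ e ξ) ^ 2) ∂ν := by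
          congr 2
          funext ξ
          rw [← Finset.mul_sum, NMom_proj_sum]
          have h5 := Submodule.norm_sq_eq_add_norm_sq_starProjection ξ (ℝ ∙ e)
          rw [Submodule.starProjection_unit_singleton ℝ he, norm_smul, he, mul_one,
            Real.norm_eq_abs, sq_abs] at h5
          congr 1
          linarith only [h5]
  rw [div_mul_eq_mul_div, eq_div_iff hN0.ne']
  linarith

/-- axis symmetry, mixed second moment -/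
theorem noise_axis_mixed (hh : 0 < h) (hν : IsNoise h ν) (e : E N) (he : ‖e‖ = 1)
    (F : ℝ → ℝ → ℝ) (hF : Integrable (fun ξ : E N => F (inner ℝ e ξ) ‖ξ‖ * ‖ξ‖ ^ 2) ν)
    (a : E N) (hae : inner ℝ a e = 0) :
    ∫ ξ, F (inner ℝ e ξ) ‖ξ‖ * (inner ℝ a ξ * inner ℝ e ξ) ∂ν = 0 := by
  have h1 := noise_int_comp hν (Submodule.reflection (ℝ ∙ a)ᗮ)
    (fun ξ => F (inner ℝ e ξ) ‖ξ‖ * (inner ℝ a ξ * inner ℝ e ξ))
  have h2 : Submodule.reflection (ℝ ∙ a)ᗮ a = -a :=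
    Submodule.reflection_orthogonalComplement_singleton_eq_neg a
  have h3 : Submodule.reflection (ℝ ∙ a)ᗮ e = e := by
    refine Submodule.reflection_mem_subspace_eq_self ?_
    rw [Submodule.mem_orthogonal_singleton_iff_inner_right, hae]
  have h4 : ∀ ξ, inner ℝ e ((Submodule.reflection (ℝ ∙ a)ᗮ) ξ) = inner ℝ e ξ := by
    intro ξ
    exact NMom_inner _ h3 ξ
  have h5 : ∀ ξ, inner ℝ a ((Submodule.reflection (ℝ ∙ a)ᗮ) ξ) = -inner ℝ a ξ := by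
    intro ξ
    have h6 : Submodule.reflection (ℝ ∙ a)ᗮ (-a) = a := by
      rw [map_neg, h2, neg_neg]
    rw [NMom_inner _ h6 ξ, inner_neg_left]
  simp only [h4, h5, LinearIsometryEquiv.norm_map, neg_mul, mul_neg, integral_neg] at h1
  linarith

end Dyn

end

/-! ### from `Lib_MP_36b788.LogZ` -/

section

/-!
# LOGZ: expansions of functions of `ζ = ‖e + √h ξ‖`

PROOF. Put `t = ζ² - 1 = 2√h⟪e,ξ⟫ + h‖ξ‖²`, `ℓ = h^(3/8)`, `|t| ≤ 2ℓ + ℓ² ≤ 3ℓ` a.e., and with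
`v = (∫‖ξ‖²)/N ∈ [1-h,1]` (NMOM): `∫ t = h N v`, `∫ t² = 4hv + h²∫‖ξ‖⁴` (the cross term
`4h^{3/2}∫⟪e,ξ⟫‖ξ‖²` vanishes) and `h²‖ξ‖⁴ ≤ ℓ⁴ ≤ ℓ³ = h^(9/8)`. If `|F t - a t - b t²| ≤ K|t|³` for
`|t| ≤ 1/2` then `|∫F(t) - (aN+4b)h| ≤ (|a| N + 8|b| + 27K) h^(9/8)` for small `h`
(`h² ≤ h^(9/8)`). That is `taylor_t`.
`logz`: apply it to `F t = ½ log(1+t)` (a=½, b=-¼), `(½log(1+t))²` (0,¼), `√(1+t)` (½,-⅛),
`(√(1+t)-1)²` (0,¼), `1/√(1+t)` (-½,⅜). Each cubic remainder bound for `|t| ≤ 1/2` is elementary.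
-/

open MeasureTheory

namespace Dyn

theorem LogZ_ell {h : ℝ} (h0 : 0 < h) (h1 : h < 1 / 1000) :
    0 < h ^ (3 / 8 : ℝ) ∧ h ^ (3 / 8 : ℝ) ≤ 1 / 10 ∧ (h ^ (3 / 8 : ℝ)) ^ 3 = h ^ (9 / 8 : ℝ) ∧
      (h ^ (3 / 8 : ℝ)) ^ 4 = h ^ (3 / 2 : ℝ) ∧ h ^ 2 ≤ (h ^ (3 / 8 : ℝ)) ^ 3 := by
  have e3 : (h ^ (3 / 8 : ℝ)) ^ 3 = h ^ (9 / 8 : ℝ) := by
    rw [← Real.rpow_natCast, ← Real.rpow_mul h0.le]
    norm_num
  have e4 : (h ^ (3 / 8 : ℝ)) ^ 4 = h ^ (3 / 2 : ℝ) := by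
    rw [← Real.rpow_natCast, ← Real.rpow_mul h0.le]
    norm_num
  refine ⟨Real.rpow_pos_of_pos h0 _, ?_, e3, e4, ?_⟩
  · have a1 : h ^ (3 / 8 : ℝ) ≤ (1 / 1000 : ℝ) ^ (3 / 8 : ℝ) :=
      Real.rpow_le_rpow h0.le h1.le (by norm_num)
    have a2 : (1 / 1000 : ℝ) = (1 / 10 : ℝ) ^ (3 : ℝ) := by
      rw [show (3 : ℝ) = ((3 : ℕ) : ℝ) by norm_num, Real.rpow_natCast]
      norm_num
    have a3 : (1 / 1000 : ℝ) ^ (3 / 8 : ℝ) = (1 / 10 : ℝ) ^ (9 / 8 : ℝ) := by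
      rw [a2, ← Real.rpow_mul (by norm_num)]
      norm_num
    have a4 : (1 / 10 : ℝ) ^ (9 / 8 : ℝ) ≤ (1 / 10 : ℝ) ^ (1 : ℝ) :=
      Real.rpow_le_rpow_of_exponent_ge (by norm_num) (by norm_num) (by norm_num)
    rw [Real.rpow_one] at a4
    linarith only [a1, a3, a4]
  · rw [e3]
    have a1 : h ^ (2 : ℝ) ≤ h ^ (9 / 8 : ℝ) :=
      Real.rpow_le_rpow_of_exponent_ge h0 (by linarith) (by norm_num)
    rw [Real.rpow_two] at a1
    exact a1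

theorem LogZ_r1 {t : ℝ} (ht : |t| ≤ 1 / 2) :
    |1 / 2 * Real.log (1 + t) - 1 / 2 * t - -(1 / 4) * t ^ 2| ≤ 1 * |t| ^ 3 := by
  have h1 := Real.abs_log_sub_add_sum_range_le (x := -t) (by rw [abs_neg]; linarith) 2
  simp only [Finset.sum_range_succ, Finset.sum_range_zero, abs_neg, sub_neg_eq_add] at h1
  norm_num at h1
  have h2 : |t| ^ 3 / (1 - |t|) ≤ 2 * |t| ^ 3 := by
    rw [div_le_iff₀ (by linarith)]
    have : 0 ≤ |t| ^ 3 := by positivity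
    nlinarith
  have h3 := h1.trans h2
  rw [abs_le] at h3 ⊢
  constructor
  · nlinarith only [h3, h3.1]
  · nlinarith only [h3, h3.2]

theorem LogZ_r2 {t : ℝ} (ht : |t| ≤ 1 / 2) :
    |(1 / 2 * Real.log (1 + t)) ^ 2 - 0 * t - 1 / 4 * t ^ 2| ≤ 2 * |t| ^ 3 := by
  have h1 := LogZ_r1 ht
  set L : ℝ := 1 / 2 * Real.log (1 + t) with hL
  have e1 : L ^ 2 - 0 * t - 1 / 4 * t ^ 2 = (L - 1 / 2 * t) * (L + 1 / 2 * t) := by ring
  rw [e1, abs_mul]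
  have ht0 : 0 ≤ |t| := abs_nonneg t
  have hsq : t ^ 2 = |t| ^ 2 := (sq_abs t).symm
  have h2 : |L - 1 / 2 * t| ≤ 3 / 4 * |t| ^ 2 := by
    rw [abs_le] at h1 ⊢
    have h3 : |t| ^ 3 ≤ 1 / 2 * |t| ^ 2 := by
      have : |t| ^ 3 = |t| * |t| ^ 2 := by ring
      rw [this]
      exact mul_le_mul_of_nonneg_right ht (by positivity)
    constructor
    · nlinarith only [h1, hsq, h3, h1.1]
    · nlinarith only [h1, h3, h1.2]
  have h3 : |L + 1 / 2 * t| ≤ 2 * |t| := by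
    have e2 : L + 1 / 2 * t = (L - 1 / 2 * t) + t := by ring
    rw [e2]
    refine (abs_add_le _ _).trans ?_
    nlinarith only [ht0, h2, ht]
  have h4 := mul_le_mul h2 h3 (abs_nonneg _) (by positivity)
  have e3 : 3 / 4 * |t| ^ 2 * (2 * |t|) = 3 / 2 * |t| ^ 3 := by ring
  have : 0 ≤ |t| ^ 3 := by positivity
  linarith only [h4, this]

theorem LogZ_sqrt {t : ℝ} (ht : |t| ≤ 1 / 2) : ∃ u : ℝ, Real.sqrt (1 + t) = 1 + u ∧
    t = 2 * u + u ^ 2 ∧ |u| ≤ |t| ∧ |u| ≤ 1 / 2 := by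
  have h0 := abs_le.1 ht
  have hs2 : Real.sqrt (1 + t) ^ 2 = 1 + t := Real.sq_sqrt (by linarith)
  have hs0 : 0 ≤ Real.sqrt (1 + t) := Real.sqrt_nonneg _
  have ht' : t = 2 * (Real.sqrt (1 + t) - 1) + (Real.sqrt (1 + t) - 1) ^ 2 := by nlinarith only [hs2]
  have hu : |Real.sqrt (1 + t) - 1| ≤ |t| := by
    have e1 : t = (Real.sqrt (1 + t) - 1) * (Real.sqrt (1 + t) + 1) := by nlinarith
    have h2 : |t| = |Real.sqrt (1 + t) - 1| * (Real.sqrt (1 + t) + 1) := by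
      conv_lhs => rw [e1]
      rw [abs_mul, abs_of_nonneg (by linarith : 0 ≤ Real.sqrt (1 + t) + 1)]
    rw [h2]
    nlinarith only [hs0, abs_nonneg (Real.sqrt (1 + t) - 1)]
  exact ⟨Real.sqrt (1 + t) - 1, by ring, ht', hu, hu.trans ht⟩

theorem LogZ_cube {u t : ℝ} (h : |u| ≤ |t|) : |u| ^ 3 ≤ |t| ^ 3 :=
  pow_le_pow_left₀ (abs_nonneg _) h 3

theorem LogZ_r3 {t : ℝ} (ht : |t| ≤ 1 / 2) :
    |(Real.sqrt (1 + t) - 1) - 1 / 2 * t - -(1 / 8) * t ^ 2| ≤ 1 * |t| ^ 3 := by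
  obtain ⟨u, hu, htu, h1, h2⟩ := LogZ_sqrt ht
  have e1 : (Real.sqrt (1 + t) - 1) - 1 / 2 * t - -(1 / 8) * t ^ 2 = u ^ 3 * (1 / 2 + u / 8) := by
    rw [hu, htu]
    ring
  rw [e1, abs_mul, abs_pow]
  have h3 := LogZ_cube h1
  have h4 : |1 / 2 + u / 8| ≤ 1 := by
    rw [abs_le] at h2 ⊢
    constructor <;> linarith
  have := mul_le_mul h3 h4 (abs_nonneg _) (by positivity)
  linarith

theorem LogZ_r4 {t : ℝ} (ht : |t| ≤ 1 / 2) :
    |(Real.sqrt (1 + t) - 1) ^ 2 - 0 * t - 1 / 4 * t ^ 2| ≤ 2 * |t| ^ 3 := by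
  obtain ⟨u, hu, htu, h1, h2⟩ := LogZ_sqrt ht
  have e1 : (Real.sqrt (1 + t) - 1) ^ 2 - 0 * t - 1 / 4 * t ^ 2 = u ^ 3 * (-1 - u / 4) := by
    rw [hu, htu]
    ring
  rw [e1, abs_mul, abs_pow]
  have h3 := LogZ_cube h1
  have h4 : |-1 - u / 4| ≤ 2 := by
    rw [abs_le] at h2 ⊢
    constructor <;> linarith
  have := mul_le_mul h3 h4 (abs_nonneg _) (by positivity)
  linarith

theorem LogZ_r5 {t : ℝ} (ht : |t| ≤ 1 / 2) :
    |(1 / Real.sqrt (1 + t) - 1) - -(1 / 2) * t - 3 / 8 * t ^ 2| ≤ 4 * |t| ^ 3 := by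
  obtain ⟨u, hu, htu, h1, h2⟩ := LogZ_sqrt ht
  have h2' := abs_le.1 h2
  have hs : 0 < 1 + u := by linarith
  have e1 : (1 / Real.sqrt (1 + t) - 1) - -(1 / 2) * t - 3 / 8 * t ^ 2 =
      u ^ 3 * (-(1 / (1 + u)) - 3 / 2 - 3 / 8 * u) := by
    rw [hu, htu]
    field_simp
    ring
  rw [e1, abs_mul, abs_pow]
  have h3 := LogZ_cube h1
  have h5 : 1 / (1 + u) ≤ 2 := by
    rw [div_le_iff₀ hs]
    linarith
  have h6 : 0 < 1 / (1 + u) := by positivity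
  have h4 : |-(1 / (1 + u)) - 3 / 2 - 3 / 8 * u| ≤ 4 := by
    rw [abs_le]
    constructor <;> linarith
  have := mul_le_mul h3 h4 (abs_nonneg _) (by positivity)
  linarith only [this]

/-- general second order expansion in `t = ζ² - 1` -/
theorem taylor_t (N : ℕ) (hN : 1 ≤ N) (a b K : ℝ) (hK : 0 ≤ K) :
    ∃ C h0 : ℝ, 0 < C ∧ 0 < h0 ∧ ∀ (h : ℝ) (ν : Measure (E N)), 0 < h → h < h0 → IsNoise h ν →
      ∀ e : E N, ‖e‖ = 1 → ∀ F : ℝ → ℝ, Measurable F →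
        (∀ t : ℝ, |t| ≤ 1 / 2 → |F t - a * t - b * t ^ 2| ≤ K * |t| ^ 3) →
        |∫ ξ, F (‖e + Real.sqrt h • ξ‖ ^ 2 - 1) ∂ν - (a * N + 4 * b) * h| ≤ C * h ^ (9 / 8 : ℝ) := by
  refine ⟨|a| * N + 5 * |b| + 27 * K + 1, 1 / 1000, by positivity, by norm_num, ?_⟩
  intro h ν hh0 hh1 hν e he F hFm hF
  have hprob := hν.prob
  obtain ⟨hl0, hl1, hl3, hl4, hh2⟩ := LogZ_ell hh0 hh1
  set ℓ : ℝ := h ^ (3 / 8 : ℝ) with hℓ
  have hNR : (1 : ℝ) ≤ N := by exact_mod_cast hN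
  set t : E N → ℝ := fun ξ => ‖e + Real.sqrt h • ξ‖ ^ 2 - 1 with ht
  have hteq : ∀ ξ : E N, t ξ = 2 * Real.sqrt h * inner ℝ e ξ + h * ‖ξ‖ ^ 2 := by
    intro ξ
    show ‖e + Real.sqrt h • ξ‖ ^ 2 - 1 = _
    rw [norm_add_sq_real, he, inner_smul_right, norm_smul, mul_pow, Real.norm_eq_abs, sq_abs,
      Real.sq_sqrt hh0.le]
    ring
  have hbdd := hν.bdd
  have hsq : ∀ ξ : E N, |inner ℝ e ξ| ≤ ‖ξ‖ := by
    intro ξ
    have := abs_real_inner_le_norm e ξ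
    rw [he, one_mul] at this
    exact this
  have hs0 : 0 ≤ Real.sqrt h := Real.sqrt_nonneg h
  have htb : ∀ᵐ ξ ∂ν, |t ξ| ≤ 3 * ℓ := by
    filter_upwards [hbdd] with ξ hξ
    rw [hteq]
    have h1 : |2 * Real.sqrt h * inner ℝ e ξ| ≤ 2 * ℓ := by
      rw [abs_mul, abs_mul, abs_two, abs_of_nonneg hs0]
      have := mul_le_mul_of_nonneg_left (hsq ξ) hs0
      nlinarith only [hξ, this]
    have h2 : |h * ‖ξ‖ ^ 2| ≤ ℓ := by
      rw [abs_of_nonneg (by positivity)]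
      have e1 : h * ‖ξ‖ ^ 2 = (Real.sqrt h * ‖ξ‖) ^ 2 := by
        rw [mul_pow, Real.sq_sqrt hh0.le]
      rw [e1]
      have h3 : (Real.sqrt h * ‖ξ‖) ^ 2 ≤ ℓ ^ 2 :=
        pow_le_pow_left₀ (by positivity) hξ 2
      nlinarith only [h3, hh0, hh1, hl0, hl1]
    calc _ ≤ _ := abs_add_le _ _
      _ ≤ 3 * ℓ := by linarith
  have htc : Continuous t := by
    show Continuous fun ξ : E N => ‖e + Real.sqrt h • ξ‖ ^ 2 - 1
    fun_prop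
  have hinner : Continuous fun ξ : E N => inner ℝ e ξ := by fun_prop
  -- bounds for the basic functions
  have hinv : 0 < Real.sqrt h := Real.sqrt_pos.2 hh0
  have hnb : ∀ᵐ ξ ∂ν, ‖ξ‖ ≤ ℓ / Real.sqrt h := by
    filter_upwards [hbdd] with ξ hξ
    rw [le_div_iff₀ hinv]
    linarith
  set R : ℝ := ℓ / Real.sqrt h with hR
  have hR0 : 0 ≤ R := by positivity
  have iI : Integrable (fun ξ : E N => inner ℝ e ξ) ν := by
    refine Integrable.of_bound hinner.aestronglyMeasurable R ?_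
    filter_upwards [hnb] with ξ hξ
    rw [Real.norm_eq_abs]
    exact (hsq ξ).trans hξ
  have iN2 : Integrable (fun ξ : E N => ‖ξ‖ ^ 2) ν := by
    refine Integrable.of_bound (by fun_prop : Continuous fun ξ : E N => ‖ξ‖ ^ 2).aestronglyMeasurable
      (R ^ 2) ?_
    filter_upwards [hnb] with ξ hξ
    rw [Real.norm_eq_abs, abs_of_nonneg (by positivity)]
    exact pow_le_pow_left₀ (norm_nonneg _) hξ 2
  have iI2 : Integrable (fun ξ : E N => (inner ℝ e ξ) ^ 2) ν := by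
    refine Integrable.of_bound (hinner.pow 2).aestronglyMeasurable (R ^ 2) ?_
    filter_upwards [hnb] with ξ hξ
    rw [Real.norm_eq_abs, abs_pow]
    exact pow_le_pow_left₀ (abs_nonneg _) ((hsq ξ).trans hξ) 2
  have iI3 : Integrable (fun ξ : E N => inner ℝ e ξ * ‖ξ‖ ^ 2) ν := by
    refine Integrable.of_bound (hinner.mul (by fun_prop)).aestronglyMeasurable (R * R ^ 2) ?_
    filter_upwards [hnb] with ξ hξ
    rw [Real.norm_eq_abs, abs_mul, abs_of_nonneg (by positivity : 0 ≤ ‖ξ‖ ^ 2)]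
    exact mul_le_mul ((hsq ξ).trans hξ) (pow_le_pow_left₀ (norm_nonneg _) hξ 2) (by positivity) hR0
  have iN4 : Integrable (fun ξ : E N => ‖ξ‖ ^ 4) ν := by
    refine Integrable.of_bound (by fun_prop : Continuous fun ξ : E N => ‖ξ‖ ^ 4).aestronglyMeasurable
      (R ^ 4) ?_
    filter_upwards [hnb] with ξ hξ
    rw [Real.norm_eq_abs, abs_of_nonneg (by positivity)]
    exact pow_le_pow_left₀ (norm_nonneg _) hξ 4
  have it : Integrable t ν := by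
    refine Integrable.of_bound htc.aestronglyMeasurable (3 * ℓ) ?_
    filter_upwards [htb] with ξ hξ
    rw [Real.norm_eq_abs]
    exact hξ
  have it2 : Integrable (fun ξ => t ξ ^ 2) ν := by
    refine Integrable.of_bound (htc.pow 2).aestronglyMeasurable ((3 * ℓ) ^ 2) ?_
    filter_upwards [htb] with ξ hξ
    rw [Real.norm_eq_abs, abs_pow]
    exact pow_le_pow_left₀ (abs_nonneg _) hξ 2
  have hFt : ∀ᵐ ξ ∂ν, |F (t ξ) - a * t ξ - b * t ξ ^ 2| ≤ 27 * K * ℓ ^ 3 := by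
    filter_upwards [htb] with ξ hξ
    refine (hF (t ξ) (by linarith)).trans ?_
    have h3 : |t ξ| ^ 3 ≤ (3 * ℓ) ^ 3 := pow_le_pow_left₀ (abs_nonneg _) hξ 3
    nlinarith only [hK, h3]
  have iD : Integrable (fun ξ => F (t ξ) - a * t ξ - b * t ξ ^ 2) ν := by
    refine Integrable.of_bound ?_ (27 * K * ℓ ^ 3) ?_
    · exact (((hFm.comp htc.measurable).sub (htc.measurable.const_mul a)).sub
        ((htc.measurable.pow_const 2).const_mul b)).aestronglyMeasurable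
    · filter_upwards [hFt] with ξ hξ
      rw [Real.norm_eq_abs]
      exact hξ
  have hI1 : |∫ ξ, (F (t ξ) - a * t ξ - b * t ξ ^ 2) ∂ν| ≤ 27 * K * ℓ ^ 3 := by
    have h1 := norm_integral_le_of_norm_le_const (μ := ν)
      (f := fun ξ => F (t ξ) - a * t ξ - b * t ξ ^ 2) (C := 27 * K * ℓ ^ 3)
      (by filter_upwards [hFt] with ξ hξ; rw [Real.norm_eq_abs]; exact hξ)
    rw [Real.norm_eq_abs, probReal_univ, mul_one] at h1
    exact h1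
  have hsplit : ∫ ξ, F (t ξ) ∂ν = ∫ ξ, (F (t ξ) - a * t ξ - b * t ξ ^ 2) ∂ν +
      a * ∫ ξ, t ξ ∂ν + b * ∫ ξ, t ξ ^ 2 ∂ν := by
    rw [← integral_const_mul, ← integral_const_mul, ← integral_add iD (it.const_mul a),
      ← integral_add (f := fun ξ => F (t ξ) - a * t ξ - b * t ξ ^ 2 + a * t ξ)
        (g := fun ξ => b * t ξ ^ 2) (iD.add (it.const_mul a)) (it2.const_mul b)]
    refine integral_congr_ae (Filter.Eventually.of_forall fun ξ => ?_)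
    show F (t ξ) = F (t ξ) - a * t ξ - b * t ξ ^ 2 + a * t ξ + b * t ξ ^ 2
    ring
  set m2 : ℝ := ∫ ξ, ‖ξ‖ ^ 2 ∂ν with hm2
  have hm2le : m2 ≤ N := hν.mom_le
  have hm2ge : (N : ℝ) * (1 - h) ≤ m2 := hν.le_mom
  have hIt : ∫ ξ, t ξ ∂ν = h * m2 := by
    have e1 : ∫ ξ, t ξ ∂ν = ∫ ξ, (2 * Real.sqrt h * inner ℝ e ξ + h * ‖ξ‖ ^ 2) ∂ν :=
      integral_congr_ae (Filter.Eventually.of_forall fun ξ => hteq ξ)
    rw [e1, integral_add (iI.const_mul _) (iN2.const_mul _), integral_const_mul,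
      integral_const_mul, noise_mean hh0 hν e]
    ring
  set m4 : ℝ := ∫ ξ, ‖ξ‖ ^ 4 ∂ν with hm4
  have hIt2 : ∫ ξ, t ξ ^ 2 ∂ν = 4 * h * (m2 / N) + h ^ 2 * m4 := by
    have e1 : ∫ ξ, t ξ ^ 2 ∂ν = ∫ ξ, (4 * h * (inner ℝ e ξ) ^ 2 +
        4 * h * Real.sqrt h * (inner ℝ e ξ * ‖ξ‖ ^ 2) + h ^ 2 * ‖ξ‖ ^ 4) ∂ν := by
      refine integral_congr_ae (Filter.Eventually.of_forall fun ξ => ?_)
      simp only
      rw [hteq]
      have := Real.sq_sqrt hh0.le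
      linear_combination (4 * (inner ℝ e ξ) ^ 2) * this
    rw [e1, integral_add (f := fun ξ : E N => 4 * h * (inner ℝ e ξ) ^ 2 +
        4 * h * Real.sqrt h * (inner ℝ e ξ * ‖ξ‖ ^ 2)) (g := fun ξ : E N => h ^ 2 * ‖ξ‖ ^ 4)
        ((iI2.const_mul _).add (iI3.const_mul _)) (iN4.const_mul _),
      integral_add (iI2.const_mul _) (iI3.const_mul _), integral_const_mul, integral_const_mul,
      integral_const_mul, noise_odd3 hh0 hν e, noise_sq hh0 hN hν e, he]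
    ring
  have hm4b : |h ^ 2 * m4| ≤ ℓ ^ 4 := by
    rw [hm4, ← integral_const_mul]
    have h1 := norm_integral_le_of_norm_le_const (μ := ν)
      (f := fun ξ : E N => h ^ 2 * ‖ξ‖ ^ 4) (C := ℓ ^ 4)
      (by
        filter_upwards [hbdd] with ξ hξ
        rw [Real.norm_eq_abs, abs_of_nonneg (by positivity)]
        have e1 : h ^ 2 * ‖ξ‖ ^ 4 = (Real.sqrt h * ‖ξ‖) ^ 4 := by
          have := Real.sq_sqrt hh0.le
          calc h ^ 2 * ‖ξ‖ ^ 4 = (Real.sqrt h ^ 2) ^ 2 * ‖ξ‖ ^ 4 := by rw [this]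
            _ = _ := by ring
        rw [e1]
        exact pow_le_pow_left₀ (by positivity) hξ 4)
    rw [Real.norm_eq_abs, probReal_univ, mul_one] at h1
    exact h1
  have hfinal : ∫ ξ, F (t ξ) ∂ν - (a * N + 4 * b) * h =
      ∫ ξ, (F (t ξ) - a * t ξ - b * t ξ ^ 2) ∂ν + a * (h * (m2 - N)) +
        4 * b * (h * (m2 / N - 1)) + b * (h ^ 2 * m4) := by
    rw [hsplit, hIt, hIt2]
    ring
  show |∫ ξ, F (t ξ) ∂ν - (a * N + 4 * b) * h| ≤ _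
  rw [hfinal]
  have b1 : |a * (h * (m2 - N))| ≤ |a| * N * ℓ ^ 3 := by
    rw [abs_mul, mul_assoc]
    refine mul_le_mul_of_nonneg_left ?_ (abs_nonneg a)
    rw [abs_mul, abs_of_pos hh0]
    have : |m2 - N| ≤ N * h := by
      rw [abs_le]
      constructor
      · linarith
      · have : 0 ≤ (N : ℝ) * h := by positivity
        linarith
    calc h * |m2 - N| ≤ h * (N * h) := mul_le_mul_of_nonneg_left this hh0.le
      _ = N * h ^ 2 := by ring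
      _ ≤ N * ℓ ^ 3 := mul_le_mul_of_nonneg_left hh2 (by positivity)
  have b2 : |4 * b * (h * (m2 / N - 1))| ≤ 4 * |b| * ℓ ^ 3 := by
    rw [abs_mul, abs_mul, abs_of_pos (by norm_num : (0 : ℝ) < 4)]
    refine mul_le_mul_of_nonneg_left ?_ (by positivity)
    rw [abs_mul, abs_of_pos hh0]
    have hN0 : (0 : ℝ) < N := by linarith
    have : |m2 / N - 1| ≤ h := by
      rw [abs_le]
      constructor
      · rw [neg_le_sub_iff_le_add, ← sub_le_iff_le_add, le_div_iff₀ hN0]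
        linarith
      · rw [sub_le_iff_le_add, div_le_iff₀ hN0]
        nlinarith only [hm2le, hm2ge]
    calc h * |m2 / N - 1| ≤ h * h := mul_le_mul_of_nonneg_left this hh0.le
      _ = h ^ 2 := by ring
      _ ≤ ℓ ^ 3 := hh2
  have b3 : |b * (h ^ 2 * m4)| ≤ |b| * ℓ ^ 3 := by
    rw [abs_mul]
    refine mul_le_mul_of_nonneg_left (hm4b.trans ?_) (abs_nonneg b)
    have : ℓ ^ 4 = ℓ ^ 3 * ℓ := by ring
    rw [this]
    have h3 : 0 ≤ ℓ ^ 3 := by positivity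
    nlinarith only [hh2, hl1, hh0, hh1]
  have h9 : h ^ (9 / 8 : ℝ) = ℓ ^ 3 := hl3.symm
  rw [h9]
  have c1 := abs_add_le (∫ ξ, (F (t ξ) - a * t ξ - b * t ξ ^ 2) ∂ν + a * (h * (m2 - N)) +
        4 * b * (h * (m2 / N - 1))) (b * (h ^ 2 * m4))
  have c2 := abs_add_le (∫ ξ, (F (t ξ) - a * t ξ - b * t ξ ^ 2) ∂ν + a * (h * (m2 - N)))
        (4 * b * (h * (m2 / N - 1)))
  have c3 := abs_add_le (∫ ξ, (F (t ξ) - a * t ξ - b * t ξ ^ 2) ∂ν) (a * (h * (m2 - N)))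
  have h3 : 0 ≤ ℓ ^ 3 := by positivity
  nlinarith only [hh2, hI1, b1, b2, b3, c1, c2, c3]

theorem zeta_ae (N : ℕ) : ∃ h0 : ℝ, 0 < h0 ∧ h0 ≤ 1 / 1000 ∧
    ∀ (h : ℝ) (ν : Measure (E N)), 0 < h → h < h0 → IsNoise h ν →
      ∀ e : E N, ‖e‖ = 1 → ∀ᵐ ξ ∂ν,
        |‖e + Real.sqrt h • ξ‖ - 1| ≤ h ^ (3 / 8 : ℝ) ∧
        |Real.log ‖e + Real.sqrt h • ξ‖| ≤ 2 * h ^ (3 / 8 : ℝ) ∧ h ^ (3 / 8 : ℝ) ≤ 1 / 10 := by
  refine ⟨1 / 1000, by norm_num, le_refl _, ?_⟩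
  intro h ν hh0 hh1 hν e he
  obtain ⟨hl0, hl1, hl3, hl4, hh2⟩ := LogZ_ell hh0 hh1
  filter_upwards [hν.bdd] with ξ hξ
  have h1 : |‖e + Real.sqrt h • ξ‖ - 1| ≤ h ^ (3 / 8 : ℝ) := by
    have h2 := abs_norm_sub_norm_le (e + Real.sqrt h • ξ) e
    rw [he, add_sub_cancel_left, norm_smul, Real.norm_eq_abs, abs_of_nonneg (Real.sqrt_nonneg h)]
      at h2
    exact h2.trans hξ
  refine ⟨h1, ?_, hl1⟩
  rw [abs_le] at h1
  have hz : 9 / 10 ≤ ‖e + Real.sqrt h • ξ‖ := by linarith [h1.1]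
  have hz0 : 0 < ‖e + Real.sqrt h • ξ‖ := by linarith
  rw [abs_le]
  constructor
  · have h2 := Real.one_sub_inv_le_log_of_pos hz0
    have h3 : 1 - ‖e + Real.sqrt h • ξ‖⁻¹ = (‖e + Real.sqrt h • ξ‖ - 1) / ‖e + Real.sqrt h • ξ‖ := by
      field_simp
    rw [h3] at h2
    refine le_trans ?_ h2
    rw [le_div_iff₀ hz0]
    nlinarith only [h1, hh0, hl0, hh1, hl1, h1.1]
  · have h2 := Real.log_le_sub_one_of_pos hz0
    linarith only [hl0, h1, h2, h1.2]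

theorem logz (N : ℕ) (hN : 1 ≤ N) :
    ∃ C h0 : ℝ, 0 < C ∧ 0 < h0 ∧ ∀ (h : ℝ) (ν : Measure (E N)), 0 < h → h < h0 → IsNoise h ν →
      ∀ e : E N, ‖e‖ = 1 →
        |∫ ξ, Real.log ‖e + Real.sqrt h • ξ‖ ∂ν - 1 / 2 * (N - 2) * h| ≤ C * h ^ (9 / 8 : ℝ) ∧
        |∫ ξ, (Real.log ‖e + Real.sqrt h • ξ‖) ^ 2 ∂ν - h| ≤ C * h ^ (9 / 8 : ℝ) ∧
        |∫ ξ, ‖e + Real.sqrt h • ξ‖ ∂ν - 1 - 1 / 2 * (N - 1) * h| ≤ C * h ^ (9 / 8 : ℝ) ∧
        |∫ ξ, (‖e + Real.sqrt h • ξ‖ - 1) ^ 2 ∂ν - h| ≤ C * h ^ (9 / 8 : ℝ) ∧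
        |∫ ξ, 1 / ‖e + Real.sqrt h • ξ‖ ∂ν - 1 - 1 / 2 * (3 - N) * h| ≤ C * h ^ (9 / 8 : ℝ) := by
  obtain ⟨h00, h00pos, h00le, hz⟩ := zeta_ae N
  obtain ⟨C1, h1, hC1, hh1, H1⟩ := taylor_t N hN (1 / 2) (-(1 / 4)) 1 (by norm_num)
  obtain ⟨C2, h2, hC2, hh2, H2⟩ := taylor_t N hN 0 (1 / 4) 2 (by norm_num)
  obtain ⟨C3, h3, hC3, hh3, H3⟩ := taylor_t N hN (1 / 2) (-(1 / 8)) 1 (by norm_num)
  obtain ⟨C4, h4, hC4, hh4, H4⟩ := taylor_t N hN 0 (1 / 4) 2 (by norm_num)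
  obtain ⟨C5, h5, hC5, hh5, H5⟩ := taylor_t N hN (-(1 / 2)) (3 / 8) 4 (by norm_num)
  refine ⟨C1 + C2 + C3 + C4 + C5, min h00 (min h1 (min h2 (min h3 (min h4 h5)))), by positivity,
    by positivity, ?_⟩
  intro h ν hh0 hlt hν e he
  simp only [lt_min_iff] at hlt
  obtain ⟨l0, l1, l2, l3, l4, l5⟩ := hlt
  have hprob := hν.prob
  have hpow : 0 < h ^ (9 / 8 : ℝ) := Real.rpow_pos_of_pos hh0 _
  have hzz := hz h ν hh0 l0 hν e he
  have G1 := H1 h ν hh0 l1 hν e he (fun t => 1 / 2 * Real.log (1 + t))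
    (by fun_prop) (fun t ht => LogZ_r1 ht)
  have G2 := H2 h ν hh0 l2 hν e he (fun t => (1 / 2 * Real.log (1 + t)) ^ 2)
    (by fun_prop) (fun t ht => LogZ_r2 ht)
  have G3 := H3 h ν hh0 l3 hν e he (fun t => Real.sqrt (1 + t) - 1)
    (by fun_prop) (fun t ht => LogZ_r3 ht)
  have G4 := H4 h ν hh0 l4 hν e he (fun t => (Real.sqrt (1 + t) - 1) ^ 2)
    (by fun_prop) (fun t ht => LogZ_r4 ht)
  have G5 := H5 h ν hh0 l5 hν e he (fun t => 1 / Real.sqrt (1 + t) - 1)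
    (by fun_prop) (fun t ht => LogZ_r5 ht)
  have e1 : ∀ ξ : E N, 1 / 2 * Real.log (1 + (‖e + Real.sqrt h • ξ‖ ^ 2 - 1)) =
      Real.log ‖e + Real.sqrt h • ξ‖ := by
    intro ξ
    rw [add_sub_cancel, Real.log_pow]
    push_cast
    ring
  have e2 : ∀ ξ : E N, Real.sqrt (1 + (‖e + Real.sqrt h • ξ‖ ^ 2 - 1)) =
      ‖e + Real.sqrt h • ξ‖ := by
    intro ξ
    rw [add_sub_cancel, Real.sqrt_sq (norm_nonneg _)]
  simp only [e1, e2] at G1 G2 G3 G4 G5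
  have iz : Integrable (fun ξ : E N => ‖e + Real.sqrt h • ξ‖) ν := by
    refine Integrable.of_bound (by fun_prop : Continuous fun ξ : E N =>
      ‖e + Real.sqrt h • ξ‖).aestronglyMeasurable 2 ?_
    filter_upwards [hzz] with ξ hξ
    rw [Real.norm_eq_abs, abs_of_nonneg (norm_nonneg _)]
    linarith only [h00le, hh0, l0, hξ, (abs_le.1 hξ.1).2, hξ.2.2]
  have iz' : Integrable (fun ξ : E N => 1 / ‖e + Real.sqrt h • ξ‖) ν := by
    refine Integrable.of_bound ?_ 2 ?_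
    · have hm : Measurable fun ξ : E N => ‖e + Real.sqrt h • ξ‖ :=
        (by fun_prop : Continuous fun ξ : E N => ‖e + Real.sqrt h • ξ‖).measurable
      exact (measurable_const.div hm).aestronglyMeasurable
    · filter_upwards [hzz] with ξ hξ
      rw [Real.norm_eq_abs, abs_of_nonneg (by positivity)]
      have : 9 / 10 ≤ ‖e + Real.sqrt h • ξ‖ := by linarith only [hξ, (abs_le.1 hξ.1).1, hξ.2.2]
      rw [div_le_iff₀ (by linarith only [h00le, hh0, l0, this])]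
      linarith only [h00le, hh0, l0, this]
  have i3 : ∫ ξ : E N, (‖e + Real.sqrt h • ξ‖ - 1) ∂ν = ∫ ξ : E N, ‖e + Real.sqrt h • ξ‖ ∂ν - 1 := by
    rw [integral_sub iz (integrable_const _), integral_const, probReal_univ, one_smul]
  have i5 : ∫ ξ : E N, (1 / ‖e + Real.sqrt h • ξ‖ - 1) ∂ν =
      ∫ ξ : E N, 1 / ‖e + Real.sqrt h • ξ‖ ∂ν - 1 := by
    rw [integral_sub iz' (integrable_const _), integral_const, probReal_univ, one_smul]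
  rw [i3] at G3
  rw [i5] at G5
  refine ⟨?_, ?_, ?_, ?_, ?_⟩
  · have e3 : (1 / 2 * (N : ℝ) + 4 * -(1 / 4)) * h = 1 / 2 * (N - 2) * h := by ring
    rw [e3] at G1
    nlinarith only [G1, h00pos, h00le, hC2, hpow, hC3, hC4, hC5]
  · have e3 : (0 * (N : ℝ) + 4 * (1 / 4)) * h = h := by ring
    rw [e3] at G2
    nlinarith only [G2, h00pos, h00le, hC1, hpow, hC3, hC4, hC5]
  · have e3 : (1 / 2 * (N : ℝ) + 4 * -(1 / 8)) * h = 1 / 2 * (N - 1) * h := by ring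
    rw [e3] at G3
    nlinarith only [G3, h00pos, h00le, hC1, hpow, hC2, hC4, hC5]
  · have e3 : (0 * (N : ℝ) + 4 * (1 / 4)) * h = h := by ring
    rw [e3] at G4
    nlinarith only [G4, h00pos, h00le, hC1, hpow, hC2, hC3, hC5]
  · have e3 : (-(1 / 2) * (N : ℝ) + 4 * (3 / 8)) * h = 1 / 2 * (3 - N) * h := by ring
    rw [e3] at G5
    nlinarith only [G5, h00pos, h00le, hC1, hpow, hC2, hC3, hC4]

end Dyn

end

/-! ### from `Lib_MP_36b788.HatB` -/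

section

/-!
# HATB: almost sure bounds for the one-site step of an alive state

PROOF. `ℓ = h^(3/8)`, `r = ‖g‖ ≤ rad β h`, so `r^β ≤ h^(-1/4)`, `h r^β ≤ h^(3/4) = ℓ²`.
`X = g + √h‖g‖ξ`, `‖X-g‖ ≤ ℓ r`, `‖J X - X‖ = h R^(1+β)`, `R = ‖J X‖ ≤ ‖X‖ ≤ (1+ℓ) r`, so
`h R^(1+β) ≤ h (2r)^β (1+ℓ) r ≤ 2^(β+1) ℓ² r ≤ ℓ r /2` for small `h`.
With `g = r e`, `R = ψ(r ζ)`, `R = rζ/(1+hR^β)`: `log R - log r = log ζ - log(1+hR^β)`.
-/

open MeasureTheory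

namespace Dyn

theorem rad_facts {β h r : ℝ} (hβ : 0 < β) (hh : 0 < h) (hh1 : h < 1) (hr0 : 0 ≤ r)
    (hr : r ≤ rad β h) :
    r ≤ h ^ (-(1 / 8) : ℝ) ∧ r ^ β ≤ h ^ (-(1 / 4) : ℝ) ∧ h * r ^ β ≤ h ^ (3 / 4 : ℝ) ∧
      h * r ≤ h ^ (7 / 8 : ℝ) := by
  have h1 : r ≤ h ^ (-(1 / 8) : ℝ) := hr.trans (min_le_left _ _)
  have h2 : r ≤ h ^ (-(1 / (4 * β)) : ℝ) := hr.trans (min_le_right _ _)
  have h3 : r ^ β ≤ h ^ (-(1 / 4) : ℝ) := by
    have h4 := Real.rpow_le_rpow hr0 h2 hβ.le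
    rw [← Real.rpow_mul hh.le] at h4
    have h5 : -(1 / (4 * β)) * β = -(1 / 4) := by field_simp
    rwa [h5] at h4
  refine ⟨h1, h3, ?_, ?_⟩
  · have h4 := mul_le_mul_of_nonneg_left h3 hh.le
    have h5 : h * h ^ (-(1 / 4) : ℝ) = h ^ (3 / 4 : ℝ) := by
      nth_rw 1 [← Real.rpow_one h]
      rw [← Real.rpow_add hh]
      norm_num
    rwa [h5] at h4
  · have h4 := mul_le_mul_of_nonneg_left h1 hh.le
    have h5 : h * h ^ (-(1 / 8) : ℝ) = h ^ (7 / 8 : ℝ) := by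
      nth_rw 1 [← Real.rpow_one h]
      rw [← Real.rpow_add hh]
      norm_num
    rwa [h5] at h4

theorem hat_bounds (N : ℕ) (β : ℝ) (hβ : 0 < β) :
    ∃ h0 : ℝ, 0 < h0 ∧ h0 ≤ 1 / 1000 ∧ ∀ (h : ℝ) (ν : Measure (E N)), 0 < h → h < h0 → IsNoise h ν →
      ∀ g : E N, ‖g‖ ≤ rad β h → ∀ᵐ ξ ∂ν,
        ‖hat β h g ξ - g‖ ≤ 2 * h ^ (3 / 8 : ℝ) * ‖g‖ ∧
        (1 - 2 * h ^ (3 / 8 : ℝ)) * ‖g‖ ≤ ‖hat β h g ξ‖ ∧
        ‖hat β h g ξ‖ ≤ (1 + h ^ (3 / 8 : ℝ)) * ‖g‖ ∧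
        (g ≠ 0 → |Real.log ‖hat β h g ξ‖ - Real.log ‖g‖| ≤ 3 * h ^ (3 / 8 : ℝ)) ∧
        h ^ (3 / 8 : ℝ) ≤ 1 / 10 := by
  have h2β : (0 : ℝ) < 2 ^ β := Real.rpow_pos_of_pos two_pos _
  set c : ℝ := min (1 / 10) (1 / (4 * 2 ^ β)) with hc
  have hc0 : 0 < c := lt_min (by norm_num) (by positivity)
  refine ⟨min (1 / 1000) (c ^ (8 / 3 : ℝ)), lt_min (by norm_num) (Real.rpow_pos_of_pos hc0 _),
    min_le_left _ _, ?_⟩
  intro h ν hh hh0 hν g hg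
  have hh1 : h < 1 := lt_of_lt_of_le hh0 ((min_le_left _ _).trans (by norm_num))
  have hhc : h ≤ c ^ (8 / 3 : ℝ) := hh0.le.trans (min_le_right _ _)
  set l : ℝ := h ^ (3 / 8 : ℝ) with hl
  have hl0 : 0 < l := Real.rpow_pos_of_pos hh _
  have hlc : l ≤ c := by
    have h1 := Real.rpow_le_rpow hh.le hhc (by norm_num : (0 : ℝ) ≤ 3 / 8)
    rw [← Real.rpow_mul hc0.le] at h1
    norm_num at h1
    exact h1
  have hl1 : l ≤ 1 / 10 := hlc.trans (min_le_left _ _)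
  have hl2 : 4 * 2 ^ β * l ≤ 1 := by
    have h1 : l ≤ 1 / (4 * 2 ^ β) := hlc.trans (min_le_right _ _)
    rw [le_div_iff₀ (by positivity)] at h1
    linarith
  have hll : l ^ 2 = h ^ (3 / 4 : ℝ) := by
    rw [hl, ← Real.rpow_natCast, ← Real.rpow_mul hh.le]
    norm_num
  set r : ℝ := ‖g‖ with hr
  have hr0 : 0 ≤ r := norm_nonneg g
  obtain ⟨-, -, hrβ, -⟩ := rad_facts hβ hh hh1 hr0 hg
  filter_upwards [hν.bdd] with ξ hξ
  have hsq : 0 ≤ Real.sqrt h := Real.sqrt_nonneg h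
  set X : E N := g + (Real.sqrt h * ‖g‖) • ξ with hX
  have hXg : ‖X - g‖ ≤ l * r := by
    rw [hX, add_sub_cancel_left, norm_smul, Real.norm_eq_abs,
      abs_of_nonneg (mul_nonneg hsq (norm_nonneg g))]
    calc Real.sqrt h * ‖g‖ * ‖ξ‖ = (Real.sqrt h * ‖ξ‖) * r := by rw [hr]; ring
      _ ≤ l * r := mul_le_mul_of_nonneg_right hξ hr0
  have hXn : ‖X‖ ≤ (1 + l) * r := by
    have h1 : ‖X‖ ≤ ‖X - g‖ + ‖g‖ := by
      have := norm_add_le (X - g) g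
      rwa [sub_add_cancel] at this
    have h2 : (1 + l) * r = l * r + r := by ring
    rw [h2]
    linarith
  have hhat : hat β h g ξ = J β h X := rfl
  rw [hhat]
  set u : E N := J β h X with hu
  have huX : ‖u‖ ≤ ‖X‖ := by
    rw [hu, norm_J hβ hh.le]
    exact psi_le hβ hh.le (norm_nonneg _)
  have hur : ‖u‖ ≤ (1 + l) * r := huX.trans hXn
  have hu2 : ‖u‖ ≤ 2 * r := hur.trans (mul_le_mul_of_nonneg_right (by linarith) hr0)
  have huβ : h * ‖u‖ ^ β ≤ l / 4 := by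
    have h1 : ‖u‖ ^ β ≤ 2 ^ β * r ^ β := by
      rw [← Real.mul_rpow (by norm_num) hr0]
      exact Real.rpow_le_rpow (norm_nonneg _) hu2 hβ.le
    calc h * ‖u‖ ^ β ≤ h * (2 ^ β * r ^ β) := mul_le_mul_of_nonneg_left h1 hh.le
      _ = 2 ^ β * (h * r ^ β) := by ring
      _ ≤ 2 ^ β * l ^ 2 := by
        rw [hll]
        exact mul_le_mul_of_nonneg_left hrβ h2β.le
      _ = (4 * 2 ^ β * l) * (l / 4) := by ring
      _ ≤ 1 * (l / 4) := mul_le_mul_of_nonneg_right hl2 (by positivity)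
      _ = l / 4 := one_mul _
  have hXu : ‖u - X‖ ≤ l * r / 2 := by
    have h1 : u - X = -((h * ‖u‖ ^ β) • u) := by
      have h2 := J_eq hβ hh.le X
      rw [← hu] at h2
      rw [← h2]
      abel
    rw [h1, norm_neg, norm_smul, Real.norm_eq_abs,
      abs_of_nonneg (mul_nonneg hh.le (Real.rpow_nonneg (norm_nonneg _) _))]
    calc h * ‖u‖ ^ β * ‖u‖ ≤ l / 4 * (2 * r) :=
          mul_le_mul huβ hu2 (norm_nonneg _) (by positivity)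
      _ = l * r / 2 := by ring
  have hug : ‖u - g‖ ≤ 2 * l * r := by
    have h1 : ‖u - g‖ ≤ ‖u - X‖ + ‖X - g‖ := by
      have := norm_add_le (u - X) (X - g)
      rwa [sub_add_sub_cancel] at this
    have h2 : 0 ≤ l * r := mul_nonneg hl0.le hr0
    linarith
  have hlow : (1 - 2 * l) * r ≤ ‖u‖ := by
    have h1 : ‖g‖ ≤ ‖u‖ + ‖u - g‖ := by
      have := norm_sub_le u (u - g)
      rwa [sub_sub_cancel] at this
    rw [← hr] at h1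
    linarith
  refine ⟨hug, hlow, hur, ?_, hl1⟩
  intro hg0
  have hrpos : 0 < r := norm_pos_iff.2 hg0
  have h12 : 0 < 1 - 2 * l := by linarith
  have hupos : 0 < ‖u‖ := lt_of_lt_of_le (mul_pos h12 hrpos) hlow
  rw [abs_le]
  constructor
  · have h1 := Real.log_le_log (mul_pos h12 hrpos) hlow
    rw [Real.log_mul h12.ne' hrpos.ne'] at h1
    have h2 := Real.one_sub_inv_le_log_of_pos h12
    have h3 : (1 - 2 * l)⁻¹ ≤ 1 + 3 * l := by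
      rw [inv_le_iff_one_le_mul₀ h12]
      nlinarith only [hh, hh1, hl0, hl1]
    linarith
  · have h1 := Real.log_le_log hupos hur
    have h4 : (0 : ℝ) < 1 + l := by linarith
    rw [Real.log_mul h4.ne' hrpos.ne'] at h1
    have h2 := Real.log_le_sub_one_of_pos h4
    linarith

end Dyn

end
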