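import Pool.Agent.Lib_MP_36b788.BoxNet
import Pool.Agent.Lib_MP_36b788.PathDefs
import Pool.Agent.Lib_MP_36b788_n.M01

set_option linter.unusedVariables false

/-!
# MP_36b788_pr, stationary limit: merged library part M02

Concatenation of smaller files (each in its own section), only to save build time.
-/

/-! ### from `Lib_MP_36b788.DtDef` -/

section

/-!
# Definition of the weighted difference `D̃_x = Σ_z b^{|x-z|}‖D_z‖`
-/

open MeasureTheory

namespace Dyn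

noncomputable section

/-- weighted difference -/
def Dt {N d : ℕ} {ι : Type} [Fintype ι] (net : Net ι d) (b : ℝ) (G G' : ι → E N) (x : ι) : ℝ :=
  ∑ z, b ^ net.dist x z * ‖G z - G' z‖

end

end Dyn

end

/-! ### from `Lib_MP_36b788.LSDefs` -/

section

/-!
# Definitions for the drift of `log S`
`A` large, `r1 = 1/A`, `Cu` the constant `C0 (1+log A)` of CTIL.
Zones of a site of size `r`: low `r < 1/(2A)`, weak `r ≤ 6/A`, strong `6/A < r`.
-/

open MeasureTheory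

namespace Dyn

noncomputable section

variable {N d : ℕ} {ι : Type} [Fintype ι]

/-- lower bound of the radial noise of the corrector -/
def bbf (β δ r : ℝ) : ℝ := δ * (β - 1) * r * (1 + r) ^ (-β)

/-- lower bound for the contribution of the neighbour `w` to the noise of `Y_z` -/
def nz (net : Net ι d) (β δ Cu k A : ℝ) (y : ℝ → ℝ) (G : ι → E N) (z w : ι) : ℝ :=
  if 6 / A < ‖G w‖ then
    1 / 2 * (bbf β δ ‖G w‖ ^ 2 +
      (inner ℝ (uni (Yv net k (1 / A) y G z)) (ctil (1 / A) y (G w))) ^ 2)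
  else - (Cu ^ 2 * ‖G w‖ ^ 2)

/-- size of the noise at `z` -/
def sig (net : Net ι d) (k : ℝ) (G : ι → E N) (z : ι) : ℝ :=
  ‖G z‖ + k * ∑ w ∈ net.nb z, min ‖G w‖ 1

/-- `1` if some neighbour of `z` is not low -/
def act (net : Net ι d) (A : ℝ) (G : ι → E N) (z : ι) : ℝ :=
  open Classical in if ∃ w ∈ net.nb z, 1 / (2 * A) ≤ ‖G w‖ then 1 else 0

/-- the drift part of `2⟪Y,ΔY⟫ + q(ΔY)` at `z` -/
def GG1 (net : Net ι d) (β δ Cu CL k A : ℝ) (y : ℝ → ℝ) (G U : ι → E N) (z : ι) : ℝ :=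
  (N - 2) * ‖G z‖ ^ 2 - 2 * ‖G z‖ ^ β * inner ℝ (Yv net k (1 / A) y G z) (G z)
    - 4 * d * k * inner ℝ (Yv net k (1 / A) y G z) (G z)
    + 2 * k * ∑ w ∈ net.nb z, inner ℝ (Yv net k (1 / A) y G z) (U w)
    - CL * k ^ 2 * ‖Yv net k (1 / A) y G z‖ *
        ∑ w ∈ net.nb z, (if 1 / (2 * A) ≤ ‖G w‖ then ‖coup net G w‖ else 0)
    + k ^ 2 * ∑ w ∈ net.nb z, nz net β δ Cu k A y G z w

end

end Dyn

end

/-! ### from `Lib_MP_36b788.LSHyp` -/

section

/-!
# Hypothesis packages for the deterministic part of the drift of `log S`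
-/

open MeasureTheory

namespace Dyn

/-- facts on one configuration `G` (from MMB, CTIL and smallness of `k`) -/
structure LSB {N d : ℕ} {ι : Type} [Fintype ι] (net : Net ι d)
    (β Cy Cu k A Rc θ : ℝ) (y : ℝ → ℝ) (G : ι → E N) : Prop where
  hN : 3 ≤ N
  hβ : 1 < β
  hCy : 1 ≤ Cy
  hCu : 1 ≤ Cu
  hA : 6 ≤ A
  hRc : 1 ≤ Rc
  hk : 0 ≤ k
  hk1 : k * (4 * d * Cy) ≤ 1 / (16 * A)
  hks : 4 * d * Cy * Real.sqrt k ≤ 1 / 8
  hAk : A * k ≤ 1 / 2
  hθ : 0 ≤ θ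
  hθ3 : θ * 3 ^ d ≤ Real.log 2
  mm_pos : ∀ z, 0 < mm N β (1 / A) Rc ‖G z‖
  mm_le : ∀ z, mm N β (1 / A) Rc ‖G z‖ ≤ 2
  mm_weak : ∀ z, ‖G z‖ ≤ 6 / A → 1 / 10 ≤ mm N β (1 / A) Rc ‖G z‖
  mm_high : ∀ z, 1 / (2 * A) ≤ ‖G z‖ → 1 / (16 * A ^ 2) ≤ mm N β (1 / A) Rc ‖G z‖ * ‖G z‖ ^ 2
  mm_up : ∀ z, mm N β (1 / A) Rc ‖G z‖ * ‖G z‖ ^ 2 ≤ 16 * (32 * N) ^ 4 / A ^ 2
  ct_bdd : ∀ w, ‖ctil (1 / A) y (G w)‖ ≤ 2 * Cy
  ct_lin : ∀ w, ‖ctil (1 / A) y (G w)‖ ≤ Cu * ‖G w‖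
  ct_low : ∀ w, ‖G w‖ ≤ 1 / A → ctil (1 / A) y (G w) = 0

/-- drift data at each site -/
structure LSU {N d : ℕ} {ι : Type} [Fintype ι] (net : Net ι d)
    (β Cu k A r2 Rc cv Cv CM ch CH : ℝ) (G U : ι → E N) (lam eta : ι → ℝ) : Prop where
  U_bd : ∀ w, ‖U w‖ ≤ if ‖G w‖ ≤ 6 / A then Cu * ‖G w‖ else 0
  lam1 : ∀ z, Low A r2 Rc cv Cv ‖G z‖ - (N - 2) + 2 * ‖G z‖ ^ β - CM * k * ‖coup net G z‖ ≤ lam z
  lam2 : ∀ z, ‖G z‖ ≤ 1 → -(CM * ‖G z‖) - CM * k * ‖coup net G z‖ ≤ lam z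
  eta1 : ∀ z, eta z ≤ -(ch * Rb net β G z) + CH

end Dyn

end

/-! ### from `Lib_MP_36b788.Base` -/

section

/-!
# BASE: the package produced by the first half (drift of `log S`)
-/

open MeasureTheory

namespace Dyn

/-- constants of the corrector and of `S`, with the drift inequality of `log S` -/
structure Base (N d : ℕ) (β D0 : ℝ) where
  δ : ℝ
  Cy : ℝ
  hc : ℝ
  C0 : ℝ
  r2 : ℝ
  Rc : ℝ
  A : ℝ
  Ct : ℝ
  cV : ℝ
  CV : ℝ
  CA : ℝ
  k0 : ℝ
  hδ : 0 < δ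
  hCy : 1 ≤ Cy
  hhc : 0 < hc
  hC0 : 1 ≤ C0
  hr2 : 0 < r2
  hr21 : r2 < 1
  hRc : 1 ≤ Rc
  hA : 6 ≤ A
  hAr2 : 6 / A ≤ r2
  hCt : 0 < Ct
  hCV : 0 < CV
  hcV : D0 * CV ≤ cV
  hcV1 : cV ≤ 1
  hCA : 0 < CA
  hk0 : 0 < k0
  hk01 : A * k0 ≤ 1 / 2
  corr : ∀ (h : ℝ) (ν : Measure (E N)), 0 < h → h < hc → IsNoise h ν →
    ∃ y : ℝ → ℝ, IsCorr N β h ν δ Cy y
  lsb : ∀ k, 0 ≤ k → k ≤ k0 → ∀ (ι : Type) [Fintype ι] (net : Net ι d), ∃ h0 : ℝ, 0 < h0 ∧
    ∀ (h : ℝ) (ν : Measure (E N)), 0 < h → h < h0 → IsNoise h ν →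
    ∀ y : ℝ → ℝ, IsCorr N β h ν δ Cy y → ∀ G : ι → E N, (∀ x, ‖G x‖ ≤ 2 * rad β h) →
      LSB net β Cy (C0 * (1 + Real.log A)) k A Rc (Ct * Real.sqrt k) y G
  drift : ∀ k, 0 ≤ k → k ≤ k0 → ∀ (ι : Type) [Fintype ι] (net : Net ι d), ∃ h0 : ℝ, 0 < h0 ∧
    ∀ (h : ℝ) (ν : Measure (E N)), 0 < h → h < h0 → IsNoise h ν →
    ∀ y : ℝ → ℝ, IsCorr N β h ν δ Cy y → ∀ G : ι → E N, (∀ x, ‖G x‖ ≤ rad β h) →
    ∀ x, ((G x ≠ 0) ∨ (0 < k ∧ G ≠ 0)) →
      ∃ L : (ι → E N) → ℝ, Measurable L ∧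
        (∀ᵐ ξ ∂(pim ι ν), |L ξ| ≤ 1 ∧
          0 < SS net β k A Rc (Ct * Real.sqrt k) y (stp net β h k G ξ) x ∧
          L ξ ≤ Real.log (SS net β k A Rc (Ct * Real.sqrt k) y (stp net β h k G ξ) x)
            - Real.log (SS net β k A Rc (Ct * Real.sqrt k) y G x)) ∧
        (h * (if ‖G x‖ ≤ r2 then cV / 2 else -(2 * CV)) ≤ ∫ ξ, L ξ ∂(pim ι ν)) ∧
        ∫ ξ, L ξ ^ 2 ∂(pim ι ν) ≤ CA * h

end Dyn

end

/-! ### from `Lib_MP_36b788.PhiDefs` -/

section

/-!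
# The contraction functional `Φ`
-/

open MeasureTheory

namespace Dyn

noncomputable section

/-- parameters of `Φ` -/
structure PP where
  B : ℝ
  R6 : ℝ
  r5 : ℝ
  p : ℝ
  eta : ℝ
  Cg : ℝ
  m : ℝ
  n : ℕ

variable {N d : ℕ} {β D0 : ℝ} {ι : Type} [Fintype ι]

/-- `φ_x = D̃_x^p exp(p (g(r_x)+g(r'_x)+Cg k (H_x+H'_x)))` -/
def phi (P : PP) (net : Net ι d) (β k : ℝ) (G G' : ι → E N) (x : ι) : ℝ :=
  Dt net (P.B * k) G G' x ^ P.p *
    Real.exp (P.p * (gf P.n P.R6 P.r5 ‖G x‖ + gf P.n P.R6 P.r5 ‖G' x‖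
      + P.Cg * k * (Hh net β G x + Hh net β G' x)))

/-- `V_z` with the constants of a base -/
def Vs (Bs : Base N d β D0) (m : ℝ) (net : Net ι d) (k : ℝ) (y : ℝ → ℝ) (G : ι → E N) (z : ι) : ℝ :=
  VV net β k Bs.A Bs.Rc (Bs.Ct * Real.sqrt k) m y G z

/-- `T_x = φ_x (1 + η Σ_z 2^{-|x-z|}(V_z+V'_z))` -/
def TT (Bs : Base N d β D0) (P : PP) (net : Net ι d) (k : ℝ) (y : ℝ → ℝ) (G G' : ι → E N)
    (x : ι) : ℝ :=
  phi P net β k G G' x *
    (1 + P.eta * ∑ z, (1 / 2 : ℝ) ^ net.dist x z *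
      (Vs Bs P.m net k y G z + Vs Bs P.m net k y G' z))

/-- `Φ_o = Σ_x 2^{-|o-x|} T_x` -/
def PHI (Bs : Base N d β D0) (P : PP) (net : Net ι d) (k : ℝ) (y : ℝ → ℝ) (G G' : ι → E N)
    (o : ι) : ℝ :=
  ∑ x, (1 / 2 : ℝ) ^ net.dist o x * TT Bs P net k y G G' x

/-- admissible configurations: for `k = 0` every site is nonzero, for `k > 0` some site is nonzero -/
def Nz (k : ℝ) (G : ι → E N) : Prop := (∀ z, G z ≠ 0) ∨ (0 < k ∧ G ≠ 0)

/-- dominated sites -/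
def Dom (δ1 b : ℝ) (net : Net ι d) (G G' : ι → E N) (x : ι) : Prop :=
  (1 - δ1) * Dt net b G G' x ≤ ‖G x - G' x‖ ∧ 0 < Dt net b G G' x

end

end Dyn

end

/-! ### from `Lib_MP_36b788.PhMeas` -/

section

/-!
# PHMEAS: measurability of the functionals, continuity of the step

PROOF. `y` monotone so measurable; `ctil`, `mm`, `th`, `gf` are measurable functions of `G w`; finite sums, `exp`, `log`,
real powers. `stp` is continuous: `hat` is (JMap), `coup` is linear.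
-/

open MeasureTheory

namespace Dyn

private theorem mth (s : ℝ) : Measurable (th s) := by
  unfold th
  fun_prop

private theorem mom (r1 : ℝ) : Measurable (om r1) := by
  unfold om
  have h := (Real.smoothTransition.continuous).measurable
  exact h.comp (Real.measurable_log.comp (measurable_id.div_const r1))

private theorem mct {N : ℕ} (r1 : ℝ) (y : ℝ → ℝ) (hy : Measurable y) :
    Measurable (ctil (N := N) r1 y) := by
  unfold ctil
  have h1 : Measurable (fun g : E N => om r1 ‖g‖) := (mom r1).comp measurable_norm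
  have h2 : Measurable (fun g : E N => y ‖g‖) := hy.comp measurable_norm
  exact ((h1.mul h2).div measurable_norm).smul measurable_id

private theorem mtt : Measurable tt := by
  unfold tt
  fun_prop

private theorem mmm (N : ℕ) (β r1 Rc : ℝ) : Measurable (mm N β r1 Rc) := by
  unfold mm
  have h1 : Measurable (MM N β r1 Rc) := by
    unfold MM
    have ha : Measurable (fun r : ℝ => tt (r / r1)) := mtt.comp (measurable_id.div_const r1)
    have hb : Measurable (fun r : ℝ => th (β - 1) (r / Rc)) := (mth _).comp (measurable_id.div_const Rc)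
    have hc : Measurable (fun r : ℝ => Real.exp (-r)) := by fun_prop
    have hd : Measurable (fun r : ℝ => Real.sqrt r) := by fun_prop
    exact hc.add (hd.mul ((ha.const_mul _).add hb))
  exact h1.pow_const _

private theorem mgf (n : ℕ) (R6 r5 : ℝ) : Measurable (gf n R6 r5) := by
  unfold gf
  fun_prop

section

variable {N d : ℕ} {ι : Type} [Fintype ι]

private theorem mHh (net : Net ι d) (β : ℝ) (z : ι) :
    Measurable (fun G : ι → E N => Hh net β G z) := by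
  unfold Hh
  refine Finset.measurable_sum _ (fun w _ => ?_)
  exact ((mth _).comp ((measurable_pi_apply w).norm)).const_mul _

private theorem mYv (net : Net ι d) (k r1 : ℝ) (y : ℝ → ℝ) (hy : Measurable y) (z : ι) :
    Measurable (fun G : ι → E N => Yv net k r1 y G z) := by
  unfold Yv
  refine (measurable_pi_apply z).add (Measurable.const_smul ?_ k)
  exact Finset.measurable_sum _ (fun w _ => (mct r1 y hy).comp (measurable_pi_apply w))

private theorem mVV (net : Net ι d) (β k A Rc θ m : ℝ) (y : ℝ → ℝ) (hy : Measurable y) (z : ι) :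
    Measurable (fun G : ι → E N => VV net β k A Rc θ m y G z) := by
  have hW : ∀ x, Measurable (fun G : ι → E N => WW net β (A * k) A Rc θ G z x) := by
    intro x
    unfold WW
    have h1 : Measurable (fun G : ι → E N => mm N β (1 / A) Rc ‖G x‖) :=
      (mmm N β (1 / A) Rc).comp ((measurable_pi_apply x).norm)
    have h2 : Measurable (fun G : ι → E N => Real.exp (-(θ * Hh net β G x))) :=
      Real.measurable_exp.comp (((mHh net β x).const_mul θ).neg)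
    exact (h1.const_mul _).mul h2
  have hS : Measurable (fun G : ι → E N => SS net β k A Rc θ y G z) := by
    unfold SS
    exact Finset.measurable_sum _ (fun x _ => (hW x).mul (((mYv net k (1 / A) y hy x).norm).pow_const 2))
  unfold VV
  exact Real.measurable_exp.comp (((Real.measurable_log.comp hS).add_const _).const_mul _)

end

/-- measurability of the functionals in the configuration -/
theorem vs_meas {N d : ℕ} {β D0 : ℝ} (Bs : Base N d β D0) (m k : ℝ) {ι : Type} [Fintype ι]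
    (net : Net ι d) (y : ℝ → ℝ) (hy : Monotone y) (z : ι) :
    Measurable (fun G : ι → E N => Vs Bs m net k y G z) := by
  unfold Vs
  exact mVV net β k _ _ _ m y hy.measurable z

theorem PHI_meas {N d : ℕ} {β D0 : ℝ} (Bs : Base N d β D0) (P : PP) (k : ℝ) {ι : Type} [Fintype ι]
    (net : Net ι d) (y : ℝ → ℝ) (hy : Monotone y) (o : ι) :
    Measurable (fun q : (ι → E N) × (ι → E N) => PHI Bs P net k y q.1 q.2 o) := by
  have hphi : ∀ x, Measurable (fun q : (ι → E N) × (ι → E N) => phi P net β k q.1 q.2 x) := by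
    intro x
    unfold phi
    have h1 : Measurable (fun q : (ι → E N) × (ι → E N) => Dt net (P.B * k) q.1 q.2 x) := by
      unfold Dt
      refine Finset.measurable_sum _ (fun w _ => Measurable.const_mul ?_ _)
      exact (((measurable_pi_apply w).comp measurable_fst).sub ((measurable_pi_apply w).comp measurable_snd)).norm
    have h2 : Measurable (fun q : (ι → E N) × (ι → E N) => gf P.n P.R6 P.r5 ‖q.1 x‖) :=
      (mgf _ _ _).comp (((measurable_pi_apply x).comp measurable_fst).norm)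
    have h3 : Measurable (fun q : (ι → E N) × (ι → E N) => gf P.n P.R6 P.r5 ‖q.2 x‖) :=
      (mgf _ _ _).comp (((measurable_pi_apply x).comp measurable_snd).norm)
    have h4 : Measurable (fun q : (ι → E N) × (ι → E N) => Hh net β q.1 x + Hh net β q.2 x) :=
      ((mHh net β x).comp measurable_fst).add ((mHh net β x).comp measurable_snd)
    exact (h1.pow_const _).mul (Real.measurable_exp.comp (((h2.add h3).add (h4.const_mul _)).const_mul _))
  unfold PHI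
  refine Finset.measurable_sum _ (fun x _ => Measurable.const_mul ?_ _)
  unfold TT
  refine (hphi x).mul (Measurable.const_add (Measurable.const_mul ?_ _) _)
  refine Finset.measurable_sum _ (fun z _ => Measurable.const_mul ?_ _)
  exact ((vs_meas Bs P.m k net y hy z).comp measurable_fst).add ((vs_meas Bs P.m k net y hy z).comp measurable_snd)

private theorem t2 {N : ℕ} {β h : ℝ} (hβ : 0 < β) (hh : 0 ≤ h) {X : Type} [TopologicalSpace X] (f : X → E N × E N)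
    (hf : Continuous f) : Continuous (fun q => hat β h (f q).1 (f q).2) := by
  have := (hat_continuous (N := N) hβ hh)
  exact this.comp hf

private theorem t3 {N d : ℕ} {ι : Type} [Fintype ι] (net : Net ι d) (x : ι) :
    Continuous (fun G : ι → E N => coup net G x) := by
  unfold coup
  have h3 : Continuous (fun q : ι → E N => ∑ w ∈ net.nb x, q w) :=
    continuous_finsetSum _ (fun w _ => continuous_apply w)
  exact h3.sub ((continuous_apply x).const_smul ((2 * d : ℕ) : ℝ))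

theorem stp_continuous {N d : ℕ} {β h : ℝ} (hβ : 0 < β) (hh : 0 ≤ h) (k : ℝ) {ι : Type} [Fintype ι]
    (net : Net ι d) :
    Continuous (fun q : (ι → E N) × (ι → E N) => stp net β h k q.1 q.2) := by
  refine continuous_pi (fun x => ?_)
  have h0 : Continuous (fun q : (ι → E N) × (ι → E N) => (q.1 x, q.2 x)) :=
    ((continuous_apply x).comp continuous_fst).prodMk ((continuous_apply x).comp continuous_snd)
  have h1 := t2 (N := N) hβ hh (fun q : (ι → E N) × (ι → E N) => (q.1 x, q.2 x)) h0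
  have h2 : Continuous (fun q : (ι → E N) × (ι → E N) => coup net q.1 x) :=
    (t3 net x).comp continuous_fst
  have h3 := h1.add (h2.const_smul (k * h))
  simp only [stp]
  simpa only [Pi.add_def, Pi.smul_def] using h3

end Dyn

end

/-! ### from `Lib_MP_36b788.PathM` -/

section

/-!
# PATHM: measurability and bounds of path functionals, connection with `chainLaw`

PROOF. Induction on the list / on `n`. `stp` is continuous in `(G,ξ)` (`stp_continuous`), so for measurable bounded `F`,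
`G ↦ ∫ F (stp G ξ)` is measurable (`StronglyMeasurable.integral_prod_right'`). `chainLaw`: `integral_map`,
`integral_prod`; induction on `n` for all initial laws, or by the identity
`∫ F d chainLaw (n+1) = ∫ (∫ F(stp G ξ)) d chainLaw n`.
-/

open MeasureTheory ProbabilityTheory

namespace Dyn

variable {N d : ℕ} {ι : Type} [Fintype ι] {net : Net ι d} {β h k : ℝ} {ν : Measure (E N)}

private theorem PathM_prob [IsProbabilityMeasure ν] : IsProbabilityMeasure (pim ι ν) := by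
  unfold pim
  infer_instance

private theorem PathM_norm_le [IsProbabilityMeasure ν] {F : (ι → E N) → ℂ}
    (hF : ∀ ξ, ‖F ξ‖ ≤ 1) : ‖∫ ξ, F ξ ∂(pim ι ν)‖ ≤ 1 := by
  have := PathM_prob (ι := ι) (ν := ν)
  have h1 := norm_integral_le_of_norm_le_const (μ := pim ι ν) (f := F) (C := 1)
    (Filter.Eventually.of_forall hF)
  simpa using h1

private theorem PathM_meas_C (hβ : 0 < β) (hh : 0 ≤ h) [IsProbabilityMeasure ν]
    {F : (ι → E N) → ℂ} (hF : Measurable F) :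
    Measurable (fun G => ∫ ξ, F (stp net β h k G ξ) ∂(pim ι ν)) := by
  have := PathM_prob (ι := ι) (ν := ν)
  have h1 : Measurable (fun q : (ι → E N) × (ι → E N) => F (stp net β h k q.1 q.2)) :=
    hF.comp (stp_continuous hβ hh k net).measurable
  exact (StronglyMeasurable.integral_prod_right' (ν := pim ι ν) h1.stronglyMeasurable).measurable

private theorem PathM_meas_R (hβ : 0 < β) (hh : 0 ≤ h) [IsProbabilityMeasure ν]
    {F : (ι → E N) → ℝ} (hF : Measurable F) :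
    Measurable (fun G => ∫ ξ, F (stp net β h k G ξ) ∂(pim ι ν)) := by
  have := PathM_prob (ι := ι) (ν := ν)
  have h1 : Measurable (fun q : (ι → E N) × (ι → E N) => F (stp net β h k q.1 q.2)) :=
    hF.comp (stp_continuous hβ hh k net).measurable
  exact (StronglyMeasurable.integral_prod_right' (ν := pim ι ν) h1.stronglyMeasurable).measurable

theorem pathE_facts (hβ : 0 < β) (hh : 0 ≤ h) [IsProbabilityMeasure ν]
    (fs : List ((ι → E N) → ℂ)) (hm : ∀ f ∈ fs, Measurable f) (hb : ∀ f ∈ fs, ∀ G, ‖f G‖ ≤ 1) :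
    Measurable (pathE net β h k ν fs) ∧ ∀ G, ‖pathE net β h k ν fs G‖ ≤ 1 := by
  induction fs with
  | nil =>
    refine ⟨?_, fun G => ?_⟩
    · show Measurable (fun _ : ι → E N => (1 : ℂ))
      exact measurable_const
    · show ‖(1 : ℂ)‖ ≤ 1
      simp
  | cons f fs ih =>
    obtain ⟨h1, h2⟩ := ih (fun g hg => hm g (List.mem_cons_of_mem _ hg))
      (fun g hg => hb g (List.mem_cons_of_mem _ hg))
    refine ⟨?_, fun G => ?_⟩
    · show Measurable (fun G => f G * ∫ ξ, pathE net β h k ν fs (stp net β h k G ξ) ∂(pim ι ν))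
      exact (hm f (by simp)).mul (PathM_meas_C hβ hh h1)
    · show ‖f G * ∫ ξ, pathE net β h k ν fs (stp net β h k G ξ) ∂(pim ι ν)‖ ≤ 1
      rw [norm_mul]
      exact mul_le_one₀ (hb f (by simp) G) (norm_nonneg _) (PathM_norm_le fun ξ => h2 _)

theorem exitE_facts (hβ : 0 < β) (hh : 0 ≤ h) [IsProbabilityMeasure ν] (n : ℕ) :
    Measurable (exitE net β h k ν n) ∧ ∀ G, 0 ≤ exitE net β h k ν n G ∧ exitE net β h k ν n G ≤ 1 := by
  classical
  have := PathM_prob (ι := ι) (ν := ν)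
  induction n with
  | zero =>
    refine ⟨?_, fun G => ?_⟩
    · show Measurable (fun _ : ι → E N => (0 : ℝ))
      exact measurable_const
    · show (0 : ℝ) ≤ 0 ∧ (0 : ℝ) ≤ 1
      exact ⟨le_rfl, zero_le_one⟩
  | succ n ih =>
    obtain ⟨h1, h2⟩ := ih
    have hi : ∀ G, Integrable (fun ξ => exitE net β h k ν n (stp net β h k G ξ)) (pim ι ν) := by
      intro G
      refine Integrable.of_bound (C := 1) ?_ (Filter.Eventually.of_forall fun ξ => ?_)
      · exact (h1.comp ((stp_continuous hβ hh k net).measurable.comp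
          (measurable_const.prodMk measurable_id))).aestronglyMeasurable
      · rw [Real.norm_of_nonneg (h2 _).1]
        exact (h2 _).2
    refine ⟨?_, fun G => ?_⟩
    · show Measurable (fun G : ι → E N => if ∀ x, ‖G x‖ ≤ rad β h then
        ∫ ξ, exitE net β h k ν n (stp net β h k G ξ) ∂(pim ι ν) else 1)
      refine Measurable.ite ?_ (PathM_meas_R hβ hh h1) measurable_const
      have : {G : ι → E N | ∀ x, ‖G x‖ ≤ rad β h} = ⋂ x, {G | ‖G x‖ ≤ rad β h} := by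
        ext G; simp
      rw [this]
      exact MeasurableSet.iInter fun x =>
        measurableSet_le (measurable_pi_apply x).norm measurable_const
    · show 0 ≤ (if ∀ x, ‖G x‖ ≤ rad β h then
        ∫ ξ, exitE net β h k ν n (stp net β h k G ξ) ∂(pim ι ν) else 1) ∧
        (if ∀ x, ‖G x‖ ≤ rad β h then
        ∫ ξ, exitE net β h k ν n (stp net β h k G ξ) ∂(pim ι ν) else 1) ≤ 1
      split_ifs with hG
      · refine ⟨integral_nonneg fun ξ => (h2 _).1, ?_⟩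
        have h3 := integral_mono (hi G) (integrable_const (1 : ℝ)) fun ξ => (h2 _).2
        simpa using h3
      · exact ⟨zero_le_one, le_rfl⟩

theorem chainLaw_prob (hβ : 0 < β) (hh : 0 ≤ h) [IsProbabilityMeasure ν]
    (m0 : Measure (ι → E N)) [IsProbabilityMeasure m0] (n : ℕ) :
    IsProbabilityMeasure (chainLaw net β h k ν m0 n) := by
  have := PathM_prob (ι := ι) (ν := ν)
  induction n with
  | zero => show IsProbabilityMeasure m0; infer_instance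
  | succ n ih =>
    have := ih
    have hst := (stp_continuous (N := N) hβ hh k net).measurable
    rw [chainLaw]
    exact Measure.isProbabilityMeasure_map hst.aemeasurable

private theorem PathM_append [IsProbabilityMeasure ν] (f : (ι → E N) → ℂ)
    (l : List ((ι → E N) → ℂ)) (G : ι → E N) :
    pathE net β h k ν (l ++ [fun G => ∫ ξ, f (stp net β h k G ξ) ∂(pim ι ν)]) G =
      pathE net β h k ν (l ++ [fun _ => 1, f]) G := by
  have := PathM_prob (ι := ι) (ν := ν)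
  induction l generalizing G with
  | nil =>
    show (∫ ξ, f (stp net β h k G ξ) ∂(pim ι ν)) * ∫ _ξ, (1 : ℂ) ∂(pim ι ν) =
      1 * ∫ ξ, (f (stp net β h k G ξ) * ∫ _ξ', (1 : ℂ) ∂(pim ι ν)) ∂(pim ι ν)
    simp
  | cons g l ih =>
    show g G * ∫ ξ, pathE net β h k ν (l ++ [fun G => ∫ ξ, f (stp net β h k G ξ) ∂(pim ι ν)])
        (stp net β h k G ξ) ∂(pim ι ν) =
      g G * ∫ ξ, pathE net β h k ν (l ++ [fun _ => 1, f]) (stp net β h k G ξ) ∂(pim ι ν)
    simp only [ih]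

theorem chainLaw_integral (hβ : 0 < β) (hh : 0 ≤ h) [IsProbabilityMeasure ν]
    (m0 : Measure (ι → E N)) [IsProbabilityMeasure m0] (n : ℕ) (f : (ι → E N) → ℂ)
    (hm : Measurable f) (hb : ∀ G, ‖f G‖ ≤ 1) :
    ∫ G, f G ∂(chainLaw net β h k ν m0 n) =
      ∫ G, pathE net β h k ν (List.replicate n (fun _ => 1) ++ [f]) G ∂m0 := by
  have := PathM_prob (ι := ι) (ν := ν)
  induction n generalizing f with
  | zero =>
    show ∫ G, f G ∂m0 = ∫ G, f G * ∫ _ξ, (1 : ℂ) ∂(pim ι ν) ∂m0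
    simp
  | succ n ih =>
    have := chainLaw_prob (net := net) (k := k) (ν := ν) hβ hh m0 n
    have hst := (stp_continuous (N := N) hβ hh k net).measurable
    have e1 : ∫ G, f G ∂(chainLaw net β h k ν m0 (n + 1)) =
        ∫ q, f (stp net β h k q.1 q.2) ∂((chainLaw net β h k ν m0 n).prod (pim ι ν)) := by
      show ∫ G, f G ∂(((chainLaw net β h k ν m0 n).prod (pim ι ν)).map
        (fun q => stp net β h k q.1 q.2)) = _
      rw [integral_map hst.aemeasurable hm.aestronglyMeasurable]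
    have hi : Integrable (fun q : (ι → E N) × (ι → E N) => f (stp net β h k q.1 q.2))
        ((chainLaw net β h k ν m0 n).prod (pim ι ν)) := by
      refine Integrable.of_bound (C := 1) ?_ (Filter.Eventually.of_forall fun q => hb _)
      exact (hm.comp hst).aestronglyMeasurable
    rw [e1, integral_prod _ hi]
    have e2 := ih (fun G => ∫ ξ, f (stp net β h k G ξ) ∂(pim ι ν)) (PathM_meas_C hβ hh hm)
      (fun G => PathM_norm_le fun ξ => hb _)
    refine e2.trans ?_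
    have e3 : (List.replicate (n + 1) (fun _ : ι → E N => (1 : ℂ)) ++ [f]) =
        List.replicate n (fun _ => 1) ++ [fun _ => 1, f] := by
      rw [List.replicate_succ', List.append_assoc]
      rfl
    rw [e3]
    refine integral_congr_ae (Filter.Eventually.of_forall fun G => ?_)
    exact PathM_append f _ G

end Dyn

end

/-! ### from `Lib_MP_36b788.Trunc` -/

section

/-!
# TRUNC: standard Gaussian and its truncation

PROOF. `γ = stdGaussian (E N)`, `φ(ξ) = ξ 1_{‖ξ‖ ≤ h^{-1/8}}`, `nuT = γ.map φ`. All moments of `γ` are finite (Gaussian, Fernique or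
`IsGaussian.memLp_id`). `γ.map L = γ` for linear isometries (`stdGaussian_map`), `φ` commutes with isometries: `iso`.
`bdd`: `√h h^{-1/8} = h^{3/8}`. `mom_le`: `∫‖φ‖² ≤ ∫‖ξ‖² = N`. `le_mom`:
`∫‖ξ‖²1_{‖ξ‖>h^{-1/8}} ≤ h^{2}∫‖ξ‖^{18} ≤ N h` for small `h`. Tail: `≤ h²∫‖ξ‖^{16}` (Markov).
`pathE_trunc`: induction on the list. One step: `pim ι (nuT) = (pim ι γ).map (φ on each coordinate)`, so
`|∫F(stp G ξ)d pim γ - ∫F(stp G ξ) d pim nuT| ≤ 2 γ^ι{∃x, ‖ξ_x‖ > h^{-1/8}} ≤ 2 card ι · tailG` for `‖F‖ ≤ 1`.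
-/

open MeasureTheory ProbabilityTheory

namespace Dyn

section

variable {N : ℕ}

private theorem Trunc_pow (N n : ℕ) :
    Integrable (fun ξ : E N => ‖ξ‖ ^ n) (stdGaussian (E N)) := by
  have h := (IsGaussian.memLp_id (stdGaussian (E N)) (n : ENNReal) (by simp)).integrable_norm_pow'
  exact h

private theorem Trunc_coord (i : Fin N) :
    ∫ ξ : E N, (ξ i) ^ 2 ∂(stdGaussian (E N)) = 1 := by
  have h1 := variance_dual_stdGaussian (E := E N) (EuclideanSpace.proj i : StrongDual ℝ (E N))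
  have h2 := integral_strongDual_stdGaussian (E := E N) (EuclideanSpace.proj i : StrongDual ℝ (E N))
  rw [variance_of_integral_eq_zero (by fun_prop) h2] at h1
  have h3 : (EuclideanSpace.proj i : StrongDual ℝ (E N)) =
      innerSL ℝ (EuclideanSpace.single i (1:ℝ) : E N) := by
    ext ξ
    rw [innerSL_apply_apply, EuclideanSpace.inner_single_left]
    simp
  have h4 : ‖(EuclideanSpace.proj i : StrongDual ℝ (E N))‖ = 1 := by
    rw [h3, innerSL_apply_norm]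
    simp
  rw [h4, one_pow] at h1
  exact h1

private theorem Trunc_two : ∫ ξ : E N, ‖ξ‖ ^ 2 ∂(stdGaussian (E N)) = N := by
  have h1 : ∀ ξ : E N, ‖ξ‖ ^ 2 = ∑ i, (ξ i) ^ 2 := fun ξ => EuclideanSpace.real_norm_sq_eq ξ
  simp only [h1]
  rw [integral_finsetSum]
  · simp only [Trunc_coord]
    simp
  · intro i _
    refine (Trunc_pow N 2).mono' (by fun_prop) (Filter.Eventually.of_forall fun ξ => ?_)
    rw [Real.norm_eq_abs, abs_of_nonneg (sq_nonneg _), h1]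
    exact Finset.single_le_sum (f := fun i => (ξ i) ^ 2) (fun i _ => sq_nonneg _) (Finset.mem_univ i)

/-- the truncation -/
private noncomputable def tru (N : ℕ) (h : ℝ) : E N → E N :=
  open Classical in fun ξ => if ‖ξ‖ ≤ h ^ (-(1 / 8) : ℝ) then ξ else 0

private theorem tru_def (h : ℝ) : nuT N h = (stdGaussian (E N)).map (tru N h) := rfl

private theorem tru_pos {h : ℝ} {ξ : E N} (hx : ‖ξ‖ ≤ h ^ (-(1 / 8) : ℝ)) : tru N h ξ = ξ := if_pos hx

private theorem tru_neg {h : ℝ} {ξ : E N} (hx : ¬ ‖ξ‖ ≤ h ^ (-(1 / 8) : ℝ)) : tru N h ξ = 0 := if_neg hx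

private theorem tru_meas (N : ℕ) (h : ℝ) : Measurable (tru N h) :=
  Measurable.ite (measurableSet_le measurable_norm measurable_const) measurable_id measurable_const

private theorem tru_norm_le (h : ℝ) (ξ : E N) : ‖tru N h ξ‖ ≤ ‖ξ‖ := by
  by_cases hx : ‖ξ‖ ≤ h ^ (-(1 / 8) : ℝ)
  · rw [tru_pos hx]
  · rw [tru_neg hx, norm_zero]
    exact norm_nonneg _

private theorem tru_prob (N : ℕ) (h : ℝ) : IsProbabilityMeasure (nuT N h) := by
  rw [tru_def]
  exact Measure.isProbabilityMeasure_map (tru_meas N h).aemeasurable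

private theorem Trunc_pw {h : ℝ} (hh : 0 < h) {r : ℝ} (hr : h ^ (-(1 / 8) : ℝ) < r) :
    1 ≤ h ^ 2 * r ^ 16 := by
  have h1 : 0 < h ^ (-(1 / 8) : ℝ) := Real.rpow_pos_of_pos hh _
  have h2 : (h ^ (-(1 / 8) : ℝ)) ^ 16 ≤ r ^ 16 := pow_le_pow_left₀ h1.le hr.le 16
  have h3 : (h ^ (-(1 / 8) : ℝ)) ^ 16 = (h ^ 2)⁻¹ := by
    rw [← Real.rpow_natCast, ← Real.rpow_mul hh.le, ← Real.rpow_natCast h 2, ← Real.rpow_neg hh.le]
    norm_num
  rw [h3] at h2
  have h4 : 0 < h ^ 2 := by positivity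
  calc 1 = h ^ 2 * (h ^ 2)⁻¹ := (mul_inv_cancel₀ h4.ne').symm
    _ ≤ h ^ 2 * r ^ 16 := mul_le_mul_of_nonneg_left h2 h4.le

end

theorem nuT_noise (N : ℕ) (hN : 1 ≤ N) : ∃ h0 : ℝ, 0 < h0 ∧ ∀ h, 0 < h → h < h0 →
    IsNoise h (nuT N h) := by
  have hN0 : (0:ℝ) < N := by exact_mod_cast hN
  set M := ∫ ξ : E N, ‖ξ‖ ^ 18 ∂(stdGaussian (E N)) with hM
  have hM0 : 0 ≤ M := integral_nonneg fun ξ => by positivity
  refine ⟨N / (M + 1), by positivity, fun h hh hlt => ?_⟩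
  have hp := tru_prob N h
  have hint : ∀ g : E N → ℝ, Continuous g → ∫ ξ, g ξ ∂(nuT N h) =
      ∫ ξ, g (tru N h ξ) ∂(stdGaussian (E N)) := by
    intro g hg
    rw [tru_def, integral_map (tru_meas N h).aemeasurable hg.aestronglyMeasurable]
  have i2 : Integrable (fun ξ : E N => ‖tru N h ξ‖ ^ 2) (stdGaussian (E N)) := by
    refine (Trunc_pow N 2).mono' (((tru_meas N h).norm.pow_const 2).aestronglyMeasurable)
      (Filter.Eventually.of_forall fun ξ => ?_)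
    rw [Real.norm_eq_abs, abs_of_nonneg (sq_nonneg _)]
    exact pow_le_pow_left₀ (norm_nonneg _) (tru_norm_le h ξ) 2
  refine ⟨hp, fun L => ?_, ?_, ?_, ?_⟩
  · rw [tru_def, Measure.map_map L.continuous.measurable (tru_meas N h)]
    have h1 : (⇑L ∘ tru N h) = tru N h ∘ ⇑L := by
      funext ξ
      show L (tru N h ξ) = tru N h (L ξ)
      by_cases hx : ‖ξ‖ ≤ h ^ (-(1 / 8) : ℝ)
      · have hx' : ‖L ξ‖ ≤ h ^ (-(1 / 8) : ℝ) := by rwa [L.norm_map]
        rw [tru_pos hx, tru_pos hx']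
      · have hx' : ¬ ‖L ξ‖ ≤ h ^ (-(1 / 8) : ℝ) := by rwa [L.norm_map]
        rw [tru_neg hx, tru_neg hx', map_zero]
    rw [h1, ← Measure.map_map (tru_meas N h) L.continuous.measurable, stdGaussian_map L]
  · rw [tru_def, ae_map_iff (tru_meas N h).aemeasurable]
    · refine Filter.Eventually.of_forall fun ξ => ?_
      have h1 : ‖tru N h ξ‖ ≤ h ^ (-(1 / 8) : ℝ) := by
        by_cases hx : ‖ξ‖ ≤ h ^ (-(1 / 8) : ℝ)
        · rwa [tru_pos hx]
        · rw [tru_neg hx, norm_zero]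
          exact Real.rpow_nonneg hh.le _
      calc Real.sqrt h * ‖tru N h ξ‖ ≤ Real.sqrt h * h ^ (-(1 / 8) : ℝ) :=
            mul_le_mul_of_nonneg_left h1 (Real.sqrt_nonneg h)
        _ = h ^ (3 / 8 : ℝ) := by
            rw [Real.sqrt_eq_rpow, ← Real.rpow_add hh]
            norm_num
    · exact measurableSet_le (by fun_prop) measurable_const
  · rw [hint _ (by fun_prop), ← Trunc_two (N := N)]
    exact integral_mono i2 (Trunc_pow N 2) fun ξ =>
      pow_le_pow_left₀ (norm_nonneg _) (tru_norm_le h ξ) 2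
  · rw [hint _ (by fun_prop)]
    have h1 : ∫ ξ : E N, (‖ξ‖ ^ 2 - h ^ 2 * ‖ξ‖ ^ 18) ∂(stdGaussian (E N)) ≤
        ∫ ξ, ‖tru N h ξ‖ ^ 2 ∂(stdGaussian (E N)) := by
      refine integral_mono ((Trunc_pow N 2).sub ((Trunc_pow N 18).const_mul _)) i2 fun ξ => ?_
      show ‖ξ‖ ^ 2 - h ^ 2 * ‖ξ‖ ^ 18 ≤ ‖tru N h ξ‖ ^ 2
      by_cases hx : ‖ξ‖ ≤ h ^ (-(1 / 8) : ℝ)
      · rw [tru_pos hx]
        have : 0 ≤ h ^ 2 * ‖ξ‖ ^ 18 := by positivity
        linarith
      · rw [tru_neg hx, norm_zero]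
        have h2 := Trunc_pw hh (not_le.1 hx)
        have h3 : h ^ 2 * ‖ξ‖ ^ 18 = (h ^ 2 * ‖ξ‖ ^ 16) * ‖ξ‖ ^ 2 := by ring
        have h4 : 0 ≤ ‖ξ‖ ^ 2 := by positivity
        rw [h3]
        nlinarith only [h2]
    rw [integral_sub (Trunc_pow N 2) ((Trunc_pow N 18).const_mul _), integral_const_mul,
      Trunc_two, ← hM] at h1
    refine le_trans ?_ h1
    have h2 : h * (M + 1) ≤ N := by
      have := (lt_div_iff₀ (by positivity : 0 < M + 1)).1 hlt
      linarith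
    have h3 : h ^ 2 * M ≤ h * N := by
      have : h * M ≤ N := by nlinarith
      calc h ^ 2 * M = h * (h * M) := by ring
        _ ≤ h * N := mul_le_mul_of_nonneg_left this hh.le
    linarith

theorem gauss_noise2 (N : ℕ) : Noise2 (stdGaussian (E N)) where
  prob := inferInstance
  int := Trunc_pow N 2
  mean := integral_id_stdGaussian
  mom := Trunc_two.le

theorem isNoise_noise2 {N : ℕ} {h : ℝ} (hh : 0 < h) {ν : Measure (E N)} (hν : IsNoise h ν) :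
    Noise2 ν := by
  have := hν.prob
  refine ⟨hν.prob, ?_, noise_mean_vec hh hν, hν.mom_le⟩
  refine Integrable.of_bound (by fun_prop) ((h ^ (3 / 8 : ℝ) / Real.sqrt h) ^ 2) ?_
  filter_upwards [hν.bdd] with ξ hx
  rw [Real.norm_eq_abs, abs_of_nonneg (by positivity)]
  refine pow_le_pow_left₀ (norm_nonneg _) ?_ 2
  rw [le_div_iff₀ (Real.sqrt_pos.2 hh)]
  linarith

theorem tailG_le (N : ℕ) : ∃ C : ℝ, 0 < C ∧ ∀ h, 0 < h → h < 1 → 0 ≤ tailG N h ∧
    tailG N h ≤ C * h ^ 2 := by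
  set M := ∫ ξ : E N, ‖ξ‖ ^ 16 ∂(stdGaussian (E N)) with hM
  have hM0 : 0 ≤ M := integral_nonneg fun ξ => by positivity
  refine ⟨M + 1, by positivity, fun h hh _ => ⟨measureReal_nonneg, ?_⟩⟩
  have hs : MeasurableSet {ξ : E N | h ^ (-(1 / 8) : ℝ) < ‖ξ‖} :=
    measurableSet_lt measurable_const measurable_norm
  have h1 : tailG N h = ∫ ξ : E N, {ξ : E N | h ^ (-(1 / 8) : ℝ) < ‖ξ‖}.indicator (fun _ => (1:ℝ)) ξ
      ∂(stdGaussian (E N)) := by
    rw [integral_indicator_const _ hs]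
    simp [tailG]
  have h2 : tailG N h ≤ ∫ ξ : E N, h ^ 2 * ‖ξ‖ ^ 16 ∂(stdGaussian (E N)) := by
    rw [h1]
    refine integral_mono ((integrable_const _).indicator hs) ((Trunc_pow N 16).const_mul _)
      fun ξ => ?_
    show {ξ : E N | h ^ (-(1 / 8) : ℝ) < ‖ξ‖}.indicator (fun _ => (1:ℝ)) ξ ≤ h ^ 2 * ‖ξ‖ ^ 16
    by_cases hx : h ^ (-(1 / 8) : ℝ) < ‖ξ‖
    · rw [Set.indicator_of_mem (show ξ ∈ {ξ : E N | h ^ (-(1 / 8) : ℝ) < ‖ξ‖} from hx)]
      exact Trunc_pw hh hx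
    · rw [Set.indicator_of_notMem (show ξ ∉ {ξ : E N | h ^ (-(1 / 8) : ℝ) < ‖ξ‖} from hx)]
      positivity
  rw [integral_const_mul, ← hM] at h2
  have h3 : 0 ≤ h ^ 2 := by positivity
  nlinarith

section

variable {N d : ℕ} {ι : Type} [Fintype ι] {net : Net ι d} {β h k : ℝ}

private theorem Trunc_pim (h : ℝ) :
    pim ι (nuT N h) = (pim ι (stdGaussian (E N))).map (fun ξ x => tru N h (ξ x)) := by
  have hp := tru_prob N h
  unfold pim
  rw [tru_def] at hp ⊢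
  exact (Measure.pi_map_pi (fun _ => (tru_meas N h).aemeasurable)).symm

private theorem Trunc_step (h : ℝ) (F : (ι → E N) → ℂ) (hF : Measurable F) (hb : ∀ ξ, ‖F ξ‖ ≤ 1) :
    ‖(∫ ξ, F ξ ∂(pim ι (stdGaussian (E N)))) - ∫ ξ, F ξ ∂(pim ι (nuT N h))‖ ≤
      2 * Fintype.card ι * tailG N h := by
  have hpi : IsProbabilityMeasure (pim ι (stdGaussian (E N))) := by
    unfold pim
    infer_instance
  have hm : Measurable (fun (ξ : ι → E N) x => tru N h (ξ x)) :=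
    measurable_pi_lambda _ fun x => (tru_meas N h).comp (measurable_pi_apply x)
  rw [Trunc_pim, integral_map hm.aemeasurable hF.aestronglyMeasurable]
  have i1 : Integrable F (pim ι (stdGaussian (E N))) :=
    Integrable.of_bound hF.aestronglyMeasurable 1 (Filter.Eventually.of_forall hb)
  have i2 : Integrable (fun ξ : ι → E N => F (fun x => tru N h (ξ x))) (pim ι (stdGaussian (E N))) :=
    Integrable.of_bound (hF.comp hm).aestronglyMeasurable 1 (Filter.Eventually.of_forall fun ξ => hb _)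
  rw [← integral_sub i1 i2]
  have hs : MeasurableSet {ξ : E N | h ^ (-(1 / 8) : ℝ) < ‖ξ‖} :=
    measurableSet_lt measurable_const measurable_norm
  set T : Set (E N) := {ξ : E N | h ^ (-(1 / 8) : ℝ) < ‖ξ‖} with hT
  have i3 : ∀ x : ι, Integrable (fun ξ : ι → E N => T.indicator (fun _ => (1:ℝ)) (ξ x))
      (pim ι (stdGaussian (E N))) := by
    intro x
    refine Integrable.of_bound
      (((measurable_const.indicator hs).comp (measurable_pi_apply x)).aestronglyMeasurable) 1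
      (Filter.Eventually.of_forall fun ξ => ?_)
    by_cases hx : ξ x ∈ T
    · rw [Set.indicator_of_mem hx]; simp
    · rw [Set.indicator_of_notMem hx]; simp
  have h1 : ∀ ξ : ι → E N, ‖F ξ - F (fun x => tru N h (ξ x))‖ ≤
      2 * ∑ x, T.indicator (fun _ => (1:ℝ)) (ξ x) := by
    intro ξ
    have hn : ∀ x, 0 ≤ T.indicator (fun _ => (1:ℝ)) (ξ x) := fun x =>
      Set.indicator_nonneg (fun _ _ => zero_le_one) _
    by_cases hx : ∃ x, ξ x ∈ T
    · obtain ⟨x, hx⟩ := hx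
      have h2 : ‖F ξ - F (fun x => tru N h (ξ x))‖ ≤ 2 := by
        refine (norm_sub_le _ _).trans ?_
        have := hb ξ
        have := hb (fun x => tru N h (ξ x))
        linarith
      have h3 : (1:ℝ) ≤ ∑ x, T.indicator (fun _ => (1:ℝ)) (ξ x) := by
        have h6 : T.indicator (fun _ => (1:ℝ)) (ξ x) ≤ ∑ x, T.indicator (fun _ => (1:ℝ)) (ξ x) :=
          Finset.single_le_sum (f := fun x => T.indicator (fun _ => (1:ℝ)) (ξ x))
            (fun x _ => hn x) (Finset.mem_univ x)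
        rwa [Set.indicator_of_mem hx] at h6
      linarith
    · push Not at hx
      have h2 : (fun x => tru N h (ξ x)) = ξ := by
        funext x
        exact tru_pos (not_lt.1 (hx x))
      rw [h2, sub_self, norm_zero]
      exact mul_nonneg zero_le_two (Finset.sum_nonneg fun x _ => hn x)
  refine (norm_integral_le_integral_norm _).trans ?_
  refine (integral_mono (i1.sub i2).norm ((integrable_finsetSum _ fun x _ => i3 x).const_mul 2)
    h1).trans ?_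
  rw [integral_const_mul, integral_finsetSum _ fun x _ => i3 x]
  have h4 : ∀ x : ι, ∫ ξ : ι → E N, T.indicator (fun _ => (1:ℝ)) (ξ x)
      ∂(pim ι (stdGaussian (E N))) = tailG N h := by
    intro x
    have hmp := measurePreserving_eval (fun _ : ι => stdGaussian (E N)) x
    have h5 : ∫ ξ : ι → E N, T.indicator (fun _ => (1:ℝ)) (ξ x) ∂(pim ι (stdGaussian (E N))) =
        ∫ y, T.indicator (fun _ => (1:ℝ)) y
          ∂((Measure.pi (fun _ : ι => stdGaussian (E N))).map (Function.eval x)) :=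
      (integral_map hmp.measurable.aemeasurable
        (measurable_const.indicator hs).aestronglyMeasurable).symm
    rw [h5, hmp.map_eq, integral_indicator_const _ hs]
    simp [tailG, hT]
  simp only [h4]
  rw [Finset.sum_const, Finset.card_univ, nsmul_eq_mul]
  exact le_of_eq (by ring)

end

theorem pathE_trunc {N d : ℕ} {ι : Type} [Fintype ι] {net : Net ι d} {β h k : ℝ} (hβ : 0 < β)
    (hh : 0 < h) (fs : List ((ι → E N) → ℂ)) (hm : ∀ f ∈ fs, Measurable f)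
    (hb : ∀ f ∈ fs, ∀ G, ‖f G‖ ≤ 1) (G : ι → E N) :
    ‖pathE net β h k (stdGaussian (E N)) fs G - pathE net β h k (nuT N h) fs G‖ ≤
      2 * fs.length * Fintype.card ι * tailG N h := by
  have hp := tru_prob N h
  have hpi : IsProbabilityMeasure (pim ι (stdGaussian (E N))) := by
    unfold pim
    infer_instance
  have ht : 0 ≤ tailG N h := measureReal_nonneg
  induction fs generalizing G with
  | nil => simp [pathE]
  | cons f fs ih =>
    have hm' : ∀ f ∈ fs, Measurable f := fun g hg => hm g (List.mem_cons_of_mem _ hg)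
    have hb' : ∀ f ∈ fs, ∀ G, ‖f G‖ ≤ 1 := fun g hg => hb g (List.mem_cons_of_mem _ hg)
    have ih' := ih hm' hb'
    obtain ⟨m1, b1⟩ := pathE_facts (net := net) (k := k) (ν := stdGaussian (E N)) hβ hh.le fs hm' hb'
    obtain ⟨m2, b2⟩ := pathE_facts (net := net) (k := k) (ν := nuT N h) hβ hh.le fs hm' hb'
    have hst : Measurable (fun ξ : ι → E N => stp net β h k G ξ) :=
      (((stp_continuous hβ hh.le k net).comp (Continuous.prodMk continuous_const continuous_id))).measurable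
    have hfG := hb f List.mem_cons_self G
    have e1 : pathE net β h k (stdGaussian (E N)) (f :: fs) G - pathE net β h k (nuT N h) (f :: fs) G =
        f G * (((∫ ξ, pathE net β h k (stdGaussian (E N)) fs (stp net β h k G ξ) ∂(pim ι (stdGaussian (E N)))) -
          ∫ ξ, pathE net β h k (nuT N h) fs (stp net β h k G ξ) ∂(pim ι (stdGaussian (E N)))) +
          ((∫ ξ, pathE net β h k (nuT N h) fs (stp net β h k G ξ) ∂(pim ι (stdGaussian (E N)))) -
          ∫ ξ, pathE net β h k (nuT N h) fs (stp net β h k G ξ) ∂(pim ι (nuT N h)))) := by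
      simp only [pathE]
      ring
    have e2 := Trunc_step (ι := ι) h (fun ξ => pathE net β h k (nuT N h) fs (stp net β h k G ξ))
      (m2.comp hst) (fun ξ => b2 _)
    have i1 : Integrable (fun ξ => pathE net β h k (stdGaussian (E N)) fs (stp net β h k G ξ))
        (pim ι (stdGaussian (E N))) :=
      Integrable.of_bound (m1.comp hst).aestronglyMeasurable 1 (Filter.Eventually.of_forall fun ξ => b1 _)
    have i2 : Integrable (fun ξ => pathE net β h k (nuT N h) fs (stp net β h k G ξ))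
        (pim ι (stdGaussian (E N))) :=
      Integrable.of_bound (m2.comp hst).aestronglyMeasurable 1 (Filter.Eventually.of_forall fun ξ => b2 _)
    have e3 : ‖(∫ ξ, pathE net β h k (stdGaussian (E N)) fs (stp net β h k G ξ) ∂(pim ι (stdGaussian (E N)))) -
          ∫ ξ, pathE net β h k (nuT N h) fs (stp net β h k G ξ) ∂(pim ι (stdGaussian (E N)))‖ ≤
        2 * fs.length * Fintype.card ι * tailG N h := by
      rw [← integral_sub i1 i2]
      have := norm_integral_le_of_norm_le_const (μ := pim ι (stdGaussian (E N)))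
        (Filter.Eventually.of_forall fun ξ => ih' (stp net β h k G ξ))
      simpa using this
    rw [e1, norm_mul]
    refine (mul_le_of_le_one_left (norm_nonneg _) hfG).trans ((norm_add_le _ _).trans ?_)
    refine (add_le_add e3 e2).trans (le_of_eq ?_)
    rw [List.length_cons]
    push_cast
    ring

end Dyn

end

/-! ### from `Lib_MP_36b788s.Defs` -/

section

/-!
# Chapter S (small cases of the cell dynamo): definitions

* `ev f μ φ n x`: expectation of `φ` after `n` steps of the chain `x ↦ f x ξ`, started at `x` (lower integrals, `φ ≥ 0`).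
* `law f μ m0 n`: law after `n` steps; `chainLaw` is the special case `f = stp`.
* `rotQ e e'`: isometry which takes the unit vector `e` to the unit vector `e'` (product of two reflections: the
  rotation in the plane of `e, e'`; for `e' = -e` the reflection `v ↦ v - 2⟪e,v⟫e`).
* `stp2`, `hat2`: rotated pair step on a net and on one site.
* `CMix`: the statement `ChainMix` for a family of noises (`ChainMix N d β k` is `CMix N d β k (fun _ => stdGaussian _)`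
  by `Iff.rfl`).
-/

open MeasureTheory ProbabilityTheory Dyn
open scoped ENNReal

namespace DynS

noncomputable section

section

variable {X Ξ : Type} [MeasurableSpace X] [MeasurableSpace Ξ]

/-- expectation of `φ` after `n` steps of the chain `x ↦ f x ξ` -/
def ev (f : X → Ξ → X) (μ : Measure Ξ) (φ : X → ℝ≥0∞) : ℕ → X → ℝ≥0∞
  | 0, x => φ x
  | n + 1, x => ∫⁻ ξ, ev f μ φ n (f x ξ) ∂μ

/-- law after `n` steps, initial law `m0` -/
def law (f : X → Ξ → X) (μ : Measure Ξ) (m0 : Measure X) : ℕ → Measure X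
  | 0 => m0
  | n + 1 => ((law f μ m0 n).prod μ).map (fun q => f q.1 q.2)

end

variable {N d : ℕ} {ι : Type} [Fintype ι]

/-- reflection in the hyperplane orthogonal to `a` (identity for `a = 0`) -/
def rfl1 (a : E N) : E N ≃ₗᵢ[ℝ] E N := Submodule.reflection (ℝ ∙ a)ᗮ

/-- isometry which takes the unit vector `e` to the unit vector `e'` -/
def rotQ (e e' : E N) : E N ≃ₗᵢ[ℝ] E N := (rfl1 e).trans (rfl1 (e + e'))

/-- rotated noise on a net -/
def rotN (G G' ξ : ι → E N) : ι → E N := fun x => rotQ (uni (G x)) (uni (G' x)) (ξ x)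

/-- rotated pair step on a net -/
def stp2 (net : Net ι d) (β h k : ℝ) (p : (ι → E N) × (ι → E N)) (ξ : ι → E N) :
    (ι → E N) × (ι → E N) :=
  (stp net β h k p.1 ξ, stp net β h k p.2 (rotN p.1 p.2 ξ))

/-- rotated pair step on one site -/
def hat2 (β h : ℝ) (q : E N × E N) (ξ : E N) : E N × E N :=
  (hat β h q.1 ξ, hat β h q.2 (rotQ (uni q.1) (uni q.2) ξ))

/-- the statement `ChainMix` for the noises `νf h` -/
def CMix (N d : ℕ) (β k : ℝ) (νf : ℝ → Measure (E N)) : Prop :=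
    ∀ (ρ1 ρ2 : Measure (E N)) [IsProbabilityMeasure ρ1] [IsProbabilityMeasure ρ2],
      ρ1 {0} = 0 → ρ2 {0} = 0 → Integrable (fun x : E N => ‖x‖ ^ 2) ρ1 →
      Integrable (fun x : E N => ‖x‖ ^ 2) ρ2 →
    ∀ (R J : ℕ) (CF δ : ℝ), 0 ≤ CF → 0 < δ →
    ∃ (T0 : ℝ) (L0 : ℕ), 0 ≤ T0 ∧ R ≤ L0 ∧ (k = 0 → L0 = R) ∧
    ∀ L : ℕ, (k = 0 → L = R) → L0 ≤ L →
    ∀ Sm : ℝ, 0 ≤ Sm → ∃ h0 : ℝ, 0 < h0 ∧ ∀ h, 0 < h → h < h0 →
    ∀ n1 n2 M : ℕ, n1 * h ≤ Sm → n2 * h ≤ Sm → M * h ≤ Sm →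
    ∀ (F : ℕ → (boxS d L → E N) → ℂ) (I : Finset ℕ), I.card ≤ J →
      (∀ i, Measurable (F i)) → (∀ i G, ‖F i G‖ ≤ 1) → (∀ i, i ∉ I → F i = fun _ => 1) →
      (∀ i ∈ I, T0 ≤ i * h ∧ ∀ G G' : boxS d L → E N, ‖F i G - F i G'‖ ≤
        CF * ∑ x : boxS d L, (if l1 (x : Fin d → ℤ) 0 ≤ R then min 1 ‖G x - G' x‖ else 0)) →
      ∫ G, ∫ G', ‖pathE (boxNet d L) β h k (νf h) ((List.range M).map F) G
          - pathE (boxNet d L) β h k (νf h) ((List.range M).map F) G'‖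
        ∂(chainLaw (boxNet d L) β h k (νf h) (Measure.pi (fun _ => ρ2)) n2)
        ∂(chainLaw (boxNet d L) β h k (νf h) (Measure.pi (fun _ => ρ1)) n1) ≤ δ

end

end DynS

end

/-! ### from `Lib_MP_36b788s.Mk` -/

section

/-!
# Abstract Markov chains `x ↦ f x ξ`, `ξ ~ μ` i.i.d.

PROOF. Everything by induction on `n` (for all `x`), `f` jointly measurable, `μ` a probability measure.
* `ev_meas`: `Measurable.lintegral_prod_right'` (composition with `q ↦ f q.1 q.2`).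
* `ev_mono`, `ev_add`, `ev_cmul`, `ev_const`, `ev_time`: `ev (n+1) x = ∫⁻ ev n (f x ξ)`.
* `ev_mono_on`: if `A` is invariant for a.e. `ξ` and `φ ≤ ψ` on `A` then `ev φ n ≤ ev ψ n` on `A`.
* `ev_drift`: claim `ev φ n x ≤ ρ^n φ x` if `∫⁻ φ(f x ξ) ≤ ρ φ x` on the invariant set `A`:
  `ev φ (n+1) x = ∫⁻ ev φ n (f x ξ) ≤ ρ^n ∫⁻ φ(f x ξ) ≤ ρ^{n+1} φ x`.
* `ev_drift_add`: `∫⁻ φ(f x ξ) ≤ (1-a) φ x + aK` (`0 ≤ a ≤ 1`) gives `ev φ n x ≤ (1-a)^n φ x + (1-(1-a)^n) K ≤ φ x + K`: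
  `(1-a)^n((1-a)φ+aK) + (1-(1-a)^n)K = (1-a)^{n+1}φ + (1-(1-a)^{n+1})K`.
* `ev_pair_fst`: if `g : Y → X` intertwines the chains in law (`∫⁻ φ(g (F y ξ)) = ∫⁻ φ(f (g y) ξ)` for all measurable `φ`)
  then `ev F μ' (φ ∘ g) n y = ev f μ φ n (g y)`.
* `law_prob`, `law_ev`: `∫⁻ φ d law n = ∫⁻ ev φ n dm0`: induction on `n` for all `φ`:
  `∫⁻ φ d law (n+1) = ∫⁻∫⁻ φ(f x ξ) dμ d law n = ∫⁻ ev (ev φ 1) n dm0 = ∫⁻ ev φ (n+1) dm0` (`lintegral_map`, Tonelli, `ev_time`).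
* `law_time`: `∫⁻ ev φ i d law n = ∫⁻ φ d law (n+i)`.
-/

open MeasureTheory ProbabilityTheory Dyn
open scoped ENNReal

namespace DynS

variable {X Ξ : Type} [MeasurableSpace X] [MeasurableSpace Ξ] {f : X → Ξ → X} {μ : Measure Ξ}
  [IsProbabilityMeasure μ]

theorem ev_meas (hf : Measurable (fun q : X × Ξ => f q.1 q.2)) {φ : X → ℝ≥0∞} (hφ : Measurable φ)
    (n : ℕ) : Measurable (ev f μ φ n) := by
  induction n with
  | zero => exact hφ
  | succ n ih =>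
    have h1 : Measurable (fun q : X × Ξ => ev f μ φ n (f q.1 q.2)) := ih.comp hf
    exact h1.lintegral_prod_right'

private theorem Mk_meas_sec {X Ξ Y : Type} [MeasurableSpace X] [MeasurableSpace Ξ]
    [MeasurableSpace Y] {f : X → Ξ → X} (hf : Measurable (fun q : X × Ξ => f q.1 q.2)) {φ : X → Y}
    (hφ : Measurable φ) (x : X) : Measurable (fun ξ => φ (f x ξ)) :=
  hφ.comp (hf.comp (measurable_const.prodMk measurable_id))

theorem ev_mono_on (A : Set X) (hA : ∀ x ∈ A, ∀ᵐ ξ ∂μ, f x ξ ∈ A) {φ ψ : X → ℝ≥0∞}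
    (h : ∀ x ∈ A, φ x ≤ ψ x) (n : ℕ) : ∀ x ∈ A, ev f μ φ n x ≤ ev f μ ψ n x := by
  induction n with
  | zero => exact h
  | succ n ih =>
    intro x hx
    exact lintegral_mono_ae ((hA x hx).mono fun ξ hξ => ih _ hξ)

theorem ev_mono {φ ψ : X → ℝ≥0∞} (h : ∀ x, φ x ≤ ψ x) (n : ℕ) (x : X) :
    ev f μ φ n x ≤ ev f μ ψ n x := by
  exact ev_mono_on Set.univ (fun _ _ => Filter.Eventually.of_forall fun _ => Set.mem_univ _)
    (fun x _ => h x) n x (Set.mem_univ x)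

theorem ev_const (c : ℝ≥0∞) (n : ℕ) (x : X) : ev f μ (fun _ => c) n x = c := by
  induction n generalizing x with
  | zero => rfl
  | succ n ih =>
    change ∫⁻ ξ, ev f μ (fun _ => c) n (f x ξ) ∂μ = c
    rw [lintegral_congr (fun ξ => ih (f x ξ)), lintegral_const, measure_univ, mul_one]

theorem ev_add (hf : Measurable (fun q : X × Ξ => f q.1 q.2)) {φ ψ : X → ℝ≥0∞} (hφ : Measurable φ)
    (hψ : Measurable ψ) (n : ℕ) (x : X) :
    ev f μ (fun y => φ y + ψ y) n x = ev f μ φ n x + ev f μ ψ n x := by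
  induction n generalizing x with
  | zero => rfl
  | succ n ih =>
    change ∫⁻ ξ, ev f μ (fun y => φ y + ψ y) n (f x ξ) ∂μ =
      ∫⁻ ξ, ev f μ φ n (f x ξ) ∂μ + ∫⁻ ξ, ev f μ ψ n (f x ξ) ∂μ
    rw [lintegral_congr (fun ξ => ih (f x ξ)),
      lintegral_add_left (Mk_meas_sec hf (ev_meas hf hφ n) x)]

theorem ev_cmul (hf : Measurable (fun q : X × Ξ => f q.1 q.2)) {φ : X → ℝ≥0∞} (hφ : Measurable φ)
    (c : ℝ≥0∞) (n : ℕ) (x : X) : ev f μ (fun y => c * φ y) n x = c * ev f μ φ n x := by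
  induction n generalizing x with
  | zero => rfl
  | succ n ih =>
    change ∫⁻ ξ, ev f μ (fun y => c * φ y) n (f x ξ) ∂μ = c * ∫⁻ ξ, ev f μ φ n (f x ξ) ∂μ
    rw [lintegral_congr (fun ξ => ih (f x ξ)),
      lintegral_const_mul c (Mk_meas_sec hf (ev_meas hf hφ n) x)]

theorem ev_sum (hf : Measurable (fun q : X × Ξ => f q.1 q.2)) {J : Type} (s : Finset J)
    {φ : J → X → ℝ≥0∞} (hφ : ∀ j, Measurable (φ j)) (n : ℕ) (x : X) :
    ev f μ (fun y => ∑ j ∈ s, φ j y) n x = ∑ j ∈ s, ev f μ (φ j) n x := by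
  classical
  induction s using Finset.induction_on with
  | empty =>
    simp only [Finset.sum_empty]
    exact ev_const 0 n x
  | insert j s hj ih =>
    simp only [Finset.sum_insert hj]
    rw [ev_add hf (hφ j) (Finset.measurable_sum s fun i _ => hφ i) n x, ih]

theorem ev_time (φ : X → ℝ≥0∞) (n m : ℕ) (x : X) :
    ev f μ (ev f μ φ m) n x = ev f μ φ (n + m) x := by
  induction n generalizing x with
  | zero =>
    rw [Nat.zero_add]
    rfl
  | succ n ih =>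
    have h1 : n + 1 + m = (n + m) + 1 := by omega
    rw [h1]
    exact lintegral_congr fun ξ => ih (f x ξ)

theorem ev_drift (hf : Measurable (fun q : X × Ξ => f q.1 q.2)) (A : Set X)
    (hA : ∀ x ∈ A, ∀ᵐ ξ ∂μ, f x ξ ∈ A) {φ : X → ℝ≥0∞} (hφ : Measurable φ) (ρ : ℝ≥0∞)
    (h : ∀ x ∈ A, ∫⁻ ξ, φ (f x ξ) ∂μ ≤ ρ * φ x) (n : ℕ) :
    ∀ x ∈ A, ev f μ φ n x ≤ ρ ^ n * φ x := by
  induction n with
  | zero =>
    intro x _
    rw [pow_zero, one_mul]
    exact le_rfl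
  | succ n ih =>
    intro x hx
    calc ev f μ φ (n + 1) x = ∫⁻ ξ, ev f μ φ n (f x ξ) ∂μ := rfl
      _ ≤ ∫⁻ ξ, ρ ^ n * φ (f x ξ) ∂μ :=
        lintegral_mono_ae ((hA x hx).mono fun ξ hξ => ih _ hξ)
      _ = ρ ^ n * ∫⁻ ξ, φ (f x ξ) ∂μ := lintegral_const_mul _ (Mk_meas_sec hf hφ x)
      _ ≤ ρ ^ n * (ρ * φ x) := mul_le_mul' le_rfl (h x hx)
      _ = ρ ^ (n + 1) * φ x := by rw [pow_succ, mul_assoc]

theorem ev_drift_add (hf : Measurable (fun q : X × Ξ => f q.1 q.2)) (A : Set X)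
    (hA : ∀ x ∈ A, ∀ᵐ ξ ∂μ, f x ξ ∈ A) {φ : X → ℝ≥0∞} (hφ : Measurable φ) (a K : ℝ) (ha : 0 ≤ a)
    (ha1 : a ≤ 1) (hK : 0 ≤ K)
    (h : ∀ x ∈ A, ∫⁻ ξ, φ (f x ξ) ∂μ ≤ ENNReal.ofReal (1 - a) * φ x + ENNReal.ofReal (a * K))
    (n : ℕ) : ∀ x ∈ A, ev f μ φ n x ≤ ENNReal.ofReal ((1 - a) ^ n) * φ x + ENNReal.ofReal K := by
  have h1a : 0 ≤ 1 - a := by linarith
  have key : ∀ n : ℕ, ∀ x ∈ A, ev f μ φ n x ≤ ENNReal.ofReal ((1 - a) ^ n) * φ x +
      ENNReal.ofReal ((1 - (1 - a) ^ n) * K) := by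
    intro n
    induction n with
    | zero =>
      intro x _
      rw [pow_zero, ENNReal.ofReal_one, one_mul, sub_self, zero_mul, ENNReal.ofReal_zero, add_zero]
      exact le_rfl
    | succ n ih =>
      intro x hx
      have hp : 0 ≤ (1 - a) ^ n := pow_nonneg h1a n
      have hp1 : (1 - a) ^ n ≤ 1 := pow_le_one₀ h1a (by linarith)
      calc ev f μ φ (n + 1) x = ∫⁻ ξ, ev f μ φ n (f x ξ) ∂μ := rfl
        _ ≤ ∫⁻ ξ, (ENNReal.ofReal ((1 - a) ^ n) * φ (f x ξ) +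
              ENNReal.ofReal ((1 - (1 - a) ^ n) * K)) ∂μ :=
          lintegral_mono_ae ((hA x hx).mono fun ξ hξ => ih _ hξ)
        _ = ENNReal.ofReal ((1 - a) ^ n) * ∫⁻ ξ, φ (f x ξ) ∂μ +
              ENNReal.ofReal ((1 - (1 - a) ^ n) * K) := by
          rw [lintegral_add_right _ measurable_const,
            lintegral_const_mul _ (Mk_meas_sec hf hφ x), lintegral_const, measure_univ, mul_one]
        _ ≤ ENNReal.ofReal ((1 - a) ^ n) *
              (ENNReal.ofReal (1 - a) * φ x + ENNReal.ofReal (a * K)) +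
              ENNReal.ofReal ((1 - (1 - a) ^ n) * K) :=
          add_le_add (mul_le_mul' le_rfl (h x hx)) le_rfl
        _ = ENNReal.ofReal ((1 - a) ^ (n + 1)) * φ x +
              ENNReal.ofReal ((1 - (1 - a) ^ (n + 1)) * K) := by
          rw [mul_add, ← mul_assoc, ← ENNReal.ofReal_mul hp, ← ENNReal.ofReal_mul hp, add_assoc,
            ← ENNReal.ofReal_add (mul_nonneg hp (mul_nonneg ha hK))
              (mul_nonneg (by linarith) hK), ← pow_succ]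
          congr 2
          ring
  intro x hx
  refine (key n x hx).trans (add_le_add le_rfl (ENNReal.ofReal_le_ofReal ?_))
  have hp : 0 ≤ (1 - a) ^ n := pow_nonneg h1a n
  nlinarith

/-- intertwined chains -/
theorem ev_twine {Y Ξ' : Type} [MeasurableSpace Y] [MeasurableSpace Ξ'] {F : Y → Ξ' → Y}
    {μ' : Measure Ξ'} (g : Y → X) (hf : Measurable (fun q : X × Ξ => f q.1 q.2))
    (h : ∀ (φ : X → ℝ≥0∞), Measurable φ → ∀ y,
      ∫⁻ ξ, φ (g (F y ξ)) ∂μ' = ∫⁻ ξ, φ (f (g y) ξ) ∂μ)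
    {φ : X → ℝ≥0∞} (hφ : Measurable φ) (n : ℕ) (y : Y) :
    ev F μ' (fun y => φ (g y)) n y = ev f μ φ n (g y) := by
  induction n generalizing y with
  | zero => rfl
  | succ n ih =>
    change ∫⁻ ξ, ev F μ' (fun y => φ (g y)) n (F y ξ) ∂μ' = ∫⁻ ξ, ev f μ φ n (f (g y) ξ) ∂μ
    rw [lintegral_congr (fun ξ => ih (F y ξ))]
    exact h (ev f μ φ n) (ev_meas hf hφ n) y

theorem law_prob (hf : Measurable (fun q : X × Ξ => f q.1 q.2)) (m0 : Measure X)
    [IsProbabilityMeasure m0] (n : ℕ) : IsProbabilityMeasure (law f μ m0 n) := by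
  induction n with
  | zero => exact inferInstanceAs (IsProbabilityMeasure m0)
  | succ n ih =>
    change IsProbabilityMeasure (((law f μ m0 n).prod μ).map (fun q => f q.1 q.2))
    exact Measure.isProbabilityMeasure_map hf.aemeasurable

theorem law_ev (hf : Measurable (fun q : X × Ξ => f q.1 q.2)) (m0 : Measure X)
    [IsProbabilityMeasure m0] {φ : X → ℝ≥0∞} (hφ : Measurable φ) (n : ℕ) :
    ∫⁻ x, φ x ∂(law f μ m0 n) = ∫⁻ x, ev f μ φ n x ∂m0 := by
  induction n generalizing φ with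
  | zero => rfl
  | succ n ih =>
    have hp := law_prob (μ := μ) hf m0 n
    change ∫⁻ x, φ x ∂(((law f μ m0 n).prod μ).map (fun q => f q.1 q.2)) =
      ∫⁻ x, ev f μ φ (n + 1) x ∂m0
    have hm : Measurable (fun q : X × Ξ => φ (f q.1 q.2)) := hφ.comp hf
    rw [lintegral_map hφ hf, lintegral_prod _ hm.aemeasurable]
    have h1 := ih (ev_meas (μ := μ) hf hφ 1)
    refine Eq.trans ?_ (h1.trans ?_)
    · rfl
    · exact lintegral_congr fun x => ev_time φ n 1 x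

theorem law_time (hf : Measurable (fun q : X × Ξ => f q.1 q.2)) (m0 : Measure X)
    [IsProbabilityMeasure m0] {φ : X → ℝ≥0∞} (hφ : Measurable φ) (n i : ℕ) :
    ∫⁻ x, ev f μ φ i x ∂(law f μ m0 n) = ∫⁻ x, φ x ∂(law f μ m0 (n + i)) := by
  rw [law_ev hf m0 (ev_meas hf hφ i) n, law_ev hf m0 hφ (n + i)]
  exact lintegral_congr fun x => ev_time φ n i x

end DynS

end

/-! ### from `Lib_MP_36b788s.Rot2` -/

section

/-!
# Rotated pair steps

`rotQ e e' = rfl1 (e+e') ∘ rfl1 e` takes the unit vector `e` to the unit vector `e'`.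

PROOF.
* `rfl1_apply`: `Submodule.reflection_orthogonal_apply`, `Submodule.reflection_singleton_apply`.
* `rotQ_map`: `rfl1 e e = -e`; `rfl1 (e+e') (-e) = -e + (2⟪e+e',e⟫/‖e+e'‖²)(e+e') = e'` as `‖e+e'‖² = 2⟪e+e',e⟫` (both `2+2c`);
  if `e+e' = 0` then `rfl1 0 = id` and the value is `-e = e'`.
* measurability: `(a,v) ↦ rfl1 a v` is measurable by the formula `rfl1_apply`.
* `rotN_preserving`: `MeasureTheory.measurePreserving_pi` for `ν` and `L = rotQ (uni (G x)) (uni (G' x))` (`ν.map L = ν`).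
* `rotQ_cos`: with `c = ⟪e,e'⟫`: for `e+e' ≠ 0`, `rotQ e e' v = v - 2⟪e,v⟫e - (2⟪e+e',v-2⟪e,v⟫e⟫/‖e+e'‖²)(e+e')`, `‖e+e'‖² = 2(1+c)`,
  `⟪e+e', v-2⟪e,v⟫e⟫ = ⟪e',v⟫ - (1+2c)⟪e,v⟫`. So `⟪v,Qv⟫ = ‖v‖² - 2⟪e,v⟫² - (⟪e',v⟫-(1+2c)⟪e,v⟫)(⟪e,v⟫+⟪e',v⟫)/(1+c)`, multiply by `1+c`:
  `(1+c)(‖v‖²-⟪v,Qv⟫) = 2(1+c)a² + (b-(1+2c)a)(a+b) = a² - 2cab + b²`, `a = ⟪e,v⟫`, `b = ⟪e',v⟫`.
* `rotQ_cos_opp`: `e' = -e`: `Qv = v - 2⟪e,v⟫e`.
* `rotQ_cos_le2`: `N ≥ 2`: if `e' ≠ ±e` then `e' = c e + s f`, `f` unit, `f ⊥ e`, `c²+s² = 1`; `b = ca + s⟪f,v⟫`, so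
  `a²-2cab+b² = s²(a²+⟪f,v⟫²) = (1-c)(1+c)(a²+⟪f,v⟫²)` and `1+c > 0`: equality. If `e' = e`: any unit `f ⊥ e`, `Q = id` by `rotQ_cos` (`2(‖v‖²-⟪v,Qv⟫)
  = 0`). If `e' = -e`: any unit `f ⊥ e`: `2a² ≤ 2(a²+⟪f,v⟫²)`.
* `rotQ_cos_le`: `≤ (1-c)‖v‖²`: `a²-2cab+b² ≤ (1-c²)‖v‖²` is the Gram determinant inequality of `e, e', v` (or from the plane form above for `N ≥ 2`;
  direct: `w = v - ae`, `⟪e',w⟫ = b-ca`, `e'-ce ⊥ e` has square norm `1-c²`, `⟪e'-ce,w⟫ = b-ca` so `(b-ca)² ≤ (1-c²)‖w‖² = (1-c²)(‖v‖²-a²)`,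
  and `a²-2cab+b² = (b-ca)²+(1-c²)a²`). For `e+e' = 0`: `2a² ≤ 2‖v‖²`.
* `hat_rot`: `hat_polar`/`hat_isometry`: with `g = ‖g‖e`, `g' = ‖g'‖e'`, `Q e = e'`: `hat β h g' (Qξ) = Q (hat β h (‖g'‖e) ξ)`.
* `hat2_dist`: `J_nonexp`: `‖hat g ξ - hat g'(Qξ)‖ ≤ ‖r v - r' Q v‖`, `v = e+√hξ`, `r = ‖g‖`, `r' = ‖g'‖`;
  `‖rv-r'Qv‖² = (r-r')²‖v‖²+2rr'(‖v‖²-⟪v,Qv⟫) ≤ ((r-r')²+2rr'(1-c))‖v‖² = ‖g-g'‖²‖v‖²`.
* `hat2_dist_all`: if one of them is `0`: `hat β h 0 ξ = 0`, `‖hat β h g ξ‖ ≤ ‖g‖‖uni g+√hξ‖ ≤ ‖g‖(1+√h‖ξ‖)` (`J_nonexp` with `J_zero`), `Q` isometry.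
-/

open MeasureTheory ProbabilityTheory Dyn
open scoped ENNReal

namespace DynS

variable {N d : ℕ} {ι : Type} [Fintype ι]

theorem rfl1_apply (a v : E N) : rfl1 a v = v - (2 * inner ℝ a v / ‖a‖ ^ 2) • a := by
  unfold rfl1
  rw [Submodule.reflection_orthogonal_apply, Submodule.reflection_singleton_apply, neg_sub]
  congr 1
  rw [← smul_assoc]
  congr 1
  rw [nsmul_eq_mul]
  push_cast
  simp only [RCLike.ofReal_real_eq_id, id_eq]
  ring

private theorem Rot2_ns {e e' : E N} (he : ‖e‖ = 1) (he' : ‖e'‖ = 1) :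
    ‖e + e'‖ ^ 2 = 2 * (1 + inner ℝ e e') := by
  rw [norm_add_sq_real, he, he']
  ring

private theorem Rot2_apply (e e' v : E N) :
    rotQ e e' v = rfl1 (e + e') (rfl1 e v) := rfl

private theorem Rot2_self {e : E N} (he : ‖e‖ = 1) (v : E N) :
    rfl1 e v = v - (2 * inner ℝ e v) • e := by
  rw [rfl1_apply, he]
  simp

theorem rotQ_map {e e' : E N} (he : ‖e‖ = 1) (he' : ‖e'‖ = 1) : rotQ e e' e = e' := by
  rw [Rot2_apply, Rot2_self he, rfl1_apply]
  have h1 : e - (2 * inner ℝ e e) • e = -e := by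
    rw [real_inner_self_eq_norm_sq, he]
    norm_num
    rw [two_smul]
    abel
  rw [h1]
  by_cases h : e + e' = 0
  · rw [h, smul_zero, sub_zero]
    exact (eq_neg_of_add_eq_zero_right h).symm
  · have h2 : ‖e + e'‖ ^ 2 ≠ 0 := by
      have := norm_ne_zero_iff.2 h
      positivity
    have h3 : 2 * inner ℝ (e + e') (-e) / ‖e + e'‖ ^ 2 = (-1 : ℝ) := by
      rw [div_eq_iff h2, Rot2_ns he he', inner_neg_right, inner_add_left,
        real_inner_self_eq_norm_sq, he, real_inner_comm e' e]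
      ring
    rw [h3]
    rw [neg_one_smul]
    abel

private theorem Rot2_rfl_meas :
    Measurable (fun q : E N × E N => rfl1 q.1 q.2) := by
  have h1 : (fun q : E N × E N => rfl1 q.1 q.2) =
      fun q => q.2 - (2 * inner ℝ q.1 q.2 / ‖q.1‖ ^ 2) • q.1 := by
    funext q
    exact rfl1_apply q.1 q.2
  rw [h1]
  exact measurable_snd.sub ((((measurable_fst.inner measurable_snd).const_mul _).div
    (measurable_fst.norm.pow_const 2)).smul measurable_fst)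

theorem measurable_rotQ : Measurable (fun q : (E N × E N) × E N => rotQ q.1.1 q.1.2 q.2) := by
  have ha : Measurable fun q : (E N × E N) × E N => q.1.1 := measurable_fst.comp measurable_fst
  have hb : Measurable fun q : (E N × E N) × E N => q.1.2 := measurable_snd.comp measurable_fst
  have h0 : Measurable fun q : (E N × E N) × E N => (q.1.1, q.2) := ha.prodMk measurable_snd
  have h2 := Rot2_rfl_meas.comp h0
  have h3 := Rot2_rfl_meas.comp ((ha.add hb).prodMk h2)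
  exact h3

theorem measurable_uni : Measurable (uni : E N → E N) := by
  unfold uni
  exact (measurable_const.div measurable_norm).smul measurable_id

theorem uni_norm {g : E N} (hg : g ≠ 0) : ‖uni g‖ = 1 := by
  have h1 : 0 < ‖g‖ := norm_pos_iff.2 hg
  unfold uni
  rw [norm_smul, Real.norm_of_nonneg (by positivity)]
  field_simp

theorem measurable_rotN : Measurable (fun q : ((ι → E N) × (ι → E N)) × (ι → E N) =>
    rotN q.1.1 q.1.2 q.2) := by
  refine measurable_pi_lambda _ fun x => ?_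
  have ha : Measurable fun q : ((ι → E N) × (ι → E N)) × (ι → E N) => q.1.1 x :=
    (measurable_pi_apply x).comp (measurable_fst.comp measurable_fst)
  have hb : Measurable fun q : ((ι → E N) × (ι → E N)) × (ι → E N) => q.1.2 x :=
    (measurable_pi_apply x).comp (measurable_snd.comp measurable_fst)
  have hc : Measurable fun q : ((ι → E N) × (ι → E N)) × (ι → E N) => q.2 x :=
    (measurable_pi_apply x).comp measurable_snd
  have ha' := measurable_uni.comp ha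
  have hb' := measurable_uni.comp hb
  have h1 := measurable_rotQ.comp ((ha'.prodMk hb').prodMk hc)
  exact h1

theorem measurable_stp2 (net : Net ι d) {β h : ℝ} (hβ : 0 < β) (hh : 0 ≤ h) (k : ℝ) :
    Measurable (fun q : ((ι → E N) × (ι → E N)) × (ι → E N) => stp2 net β h k q.1 q.2) := by
  have hs := (stp_continuous (N := N) hβ hh k net).measurable
  have ha : Measurable fun q : ((ι → E N) × (ι → E N)) × (ι → E N) => (q.1.1, q.2) :=
    (measurable_fst.comp measurable_fst).prodMk measurable_snd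
  have hb : Measurable fun q : ((ι → E N) × (ι → E N)) × (ι → E N) => q.1.2 :=
    measurable_snd.comp measurable_fst
  have hb' := hb.prodMk (measurable_rotN (N := N) (ι := ι))
  have h1 := hs.comp ha
  have h2 := hs.comp hb'
  have h3 := h1.prodMk h2
  exact h3

theorem measurable_hat2 {β h : ℝ} (hβ : 0 < β) (hh : 0 ≤ h) :
    Measurable (fun q : (E N × E N) × E N => hat2 β h q.1 q.2) := by
  have hs := (hat_continuous (N := N) hβ hh).measurable
  have ha : Measurable fun q : (E N × E N) × E N => q.1.1 := measurable_fst.comp measurable_fst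
  have hb : Measurable fun q : (E N × E N) × E N => q.1.2 := measurable_snd.comp measurable_fst
  have hc : Measurable fun q : (E N × E N) × E N => q.2 := measurable_snd
  have ha' := measurable_uni.comp ha
  have hb' := measurable_uni.comp hb
  have hr := measurable_rotQ.comp ((ha'.prodMk hb').prodMk hc)
  have h1 := hs.comp (ha.prodMk hc)
  have h2 := hs.comp (hb.prodMk hr)
  have h3 := h1.prodMk h2
  exact h3

theorem rotQ_preserving {ν : Measure (E N)} (hiso : ∀ L : E N ≃ₗᵢ[ℝ] E N, ν.map L = ν)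
    (e e' : E N) : MeasurePreserving (rotQ e e') ν ν :=
  ⟨(rotQ e e').continuous.measurable, hiso _⟩

theorem rotN_preserving {ν : Measure (E N)} [IsProbabilityMeasure ν]
    (hiso : ∀ L : E N ≃ₗᵢ[ℝ] E N, ν.map L = ν) (G G' : ι → E N) :
    MeasurePreserving (rotN G G') (pim ι ν) (pim ι ν) := by
  unfold rotN pim
  exact measurePreserving_pi _ _ fun x => rotQ_preserving hiso (uni (G x)) (uni (G' x))

/-- the second component of the rotated pair step has the law of an ordinary step -/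
theorem stp2_snd (net : Net ι d) {β h : ℝ} (hβ : 0 < β) (hh : 0 ≤ h) (k : ℝ) {ν : Measure (E N)}
    [IsProbabilityMeasure ν] (hiso : ∀ L : E N ≃ₗᵢ[ℝ] E N, ν.map L = ν)
    (p : (ι → E N) × (ι → E N)) {φ : (ι → E N) → ℝ≥0∞} (hφ : Measurable φ) :
    ∫⁻ ξ, φ (stp2 net β h k p ξ).2 ∂(pim ι ν) = ∫⁻ ξ, φ (stp net β h k p.2 ξ) ∂(pim ι ν) := by
  have hs := (stp_continuous (N := N) hβ hh k net).measurable
  have h0 : Measurable fun ξ : ι → E N => (p.2, ξ) := measurable_const.prodMk measurable_id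
  have h1 := hφ.comp (hs.comp h0)
  have h2 := (rotN_preserving hiso p.1 p.2).lintegral_comp h1
  exact h2

theorem hat2_snd {β h : ℝ} (hβ : 0 < β) (hh : 0 ≤ h) {ν : Measure (E N)}
    (hiso : ∀ L : E N ≃ₗᵢ[ℝ] E N, ν.map L = ν)
    (q : E N × E N) {φ : E N → ℝ≥0∞} (hφ : Measurable φ) :
    ∫⁻ ξ, φ (hat2 β h q ξ).2 ∂ν = ∫⁻ ξ, φ (hat β h q.2 ξ) ∂ν := by
  have hs := (hat_continuous (N := N) hβ hh).measurable
  have h0 : Measurable fun ξ : E N => (q.2, ξ) := measurable_const.prodMk measurable_id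
  have h1 := hφ.comp (hs.comp h0)
  have h2 := (rotQ_preserving hiso (uni q.1) (uni q.2)).lintegral_comp h1
  exact h2

theorem rotQ_cos {e e' : E N} (he : ‖e‖ = 1) (he' : ‖e'‖ = 1) (hne : e + e' ≠ 0) (v : E N) :
    (1 + inner ℝ e e') * (‖v‖ ^ 2 - inner ℝ v (rotQ e e' v)) =
      (inner ℝ e v) ^ 2 - 2 * inner ℝ e e' * inner ℝ e v * inner ℝ e' v + (inner ℝ e' v) ^ 2 := by
  have h2 : ‖e + e'‖ ^ 2 ≠ 0 := by
    have := norm_ne_zero_iff.2 hne
    positivity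
  have hns := Rot2_ns he he'
  have hc : 1 + inner ℝ e e' ≠ 0 := by
    intro h0
    rw [h0, mul_zero] at hns
    exact h2 hns
  rw [Rot2_apply, Rot2_self he, rfl1_apply, hns]
  have h3 : inner ℝ (e + e') (v - (2 * inner ℝ e v) • e) =
      inner ℝ e' v - (1 + 2 * inner ℝ e e') * inner ℝ e v := by
    rw [inner_add_left, inner_sub_right, inner_sub_right, real_inner_smul_right,
      real_inner_smul_right, real_inner_self_eq_norm_sq, he, real_inner_comm e' e]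
    ring
  rw [h3, inner_sub_right, inner_sub_right, real_inner_smul_right, real_inner_smul_right,
    real_inner_self_eq_norm_sq, inner_add_right, real_inner_comm v e, real_inner_comm v e']
  field_simp
  ring

theorem rotQ_cos_opp {e : E N} (he : ‖e‖ = 1) (v : E N) :
    ‖v‖ ^ 2 - inner ℝ v (rotQ e (-e) v) = 2 * (inner ℝ e v) ^ 2 := by
  have h1 : rotQ e (-e) v = v - (2 * inner ℝ e v) • e := by
    rw [Rot2_apply, Rot2_self he, rfl1_apply, add_neg_cancel]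
    simp
  rw [h1, inner_sub_right, real_inner_smul_right, real_inner_self_eq_norm_sq,
    real_inner_comm v e]
  ring

theorem rotQ_cos_nonneg (e e' v : E N) : 0 ≤ ‖v‖ ^ 2 - inner ℝ v (rotQ e e' v) := by
  have h1 := real_inner_le_norm v (rotQ e e' v)
  rw [LinearIsometryEquiv.norm_map] at h1
  nlinarith

/-- the Gram determinant inequality -/
private theorem Rot2_gram {e e' : E N} (he : ‖e‖ = 1) (he' : ‖e'‖ = 1) (v : E N) :
    (inner ℝ e v) ^ 2 - 2 * inner ℝ e e' * inner ℝ e v * inner ℝ e' v + (inner ℝ e' v) ^ 2 ≤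
      (1 - (inner ℝ e e') ^ 2) * ‖v‖ ^ 2 := by
  set c : ℝ := inner ℝ e e' with hc
  set a : ℝ := inner ℝ e v with ha
  set b : ℝ := inner ℝ e' v with hb
  have h1 : inner ℝ (e' - c • e) (v - a • e) = b - c * a := by
    rw [inner_sub_left, inner_sub_right, inner_sub_right, real_inner_smul_left,
      real_inner_smul_left, real_inner_smul_right, real_inner_smul_right,
      real_inner_self_eq_norm_sq, he, real_inner_comm e e', ← hc, ← ha, ← hb]
    ring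
  have h2 : ‖e' - c • e‖ ^ 2 = 1 - c ^ 2 := by
    rw [norm_sub_sq_real, he', real_inner_smul_right, norm_smul, he, real_inner_comm e e', ← hc,
      mul_one, Real.norm_eq_abs, sq_abs]
    ring
  have h3 : ‖v - a • e‖ ^ 2 = ‖v‖ ^ 2 - a ^ 2 := by
    rw [norm_sub_sq_real, real_inner_smul_right, norm_smul, he, real_inner_comm e v, ← ha,
      mul_one, Real.norm_eq_abs, sq_abs]
    ring
  have h4 := abs_real_inner_le_norm (e' - c • e) (v - a • e)
  rw [h1] at h4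
  have h5 : (b - c * a) ^ 2 ≤ (1 - c ^ 2) * (‖v‖ ^ 2 - a ^ 2) := by
    rw [← h2, ← h3, ← mul_pow, ← sq_abs (b - c * a)]
    exact pow_le_pow_left₀ (abs_nonneg _) h4 2
  nlinarith only [h5]

theorem rotQ_cos_le {e e' : E N} (he : ‖e‖ = 1) (he' : ‖e'‖ = 1) (v : E N) :
    ‖v‖ ^ 2 - inner ℝ v (rotQ e e' v) ≤ (1 - inner ℝ e e') * ‖v‖ ^ 2 := by
  by_cases hne : e + e' = 0
  · have h1 : e' = -e := (eq_neg_of_add_eq_zero_right hne)
    rw [h1, rotQ_cos_opp he, inner_neg_right, real_inner_self_eq_norm_sq, he]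
    have h2 := abs_real_inner_le_norm e v
    rw [he, one_mul] at h2
    have h3 : (inner ℝ e v : ℝ) ^ 2 ≤ ‖v‖ ^ 2 := by
      rw [← sq_abs (inner ℝ e v : ℝ)]
      exact pow_le_pow_left₀ (abs_nonneg _) h2 2
    linarith
  · have h1 := rotQ_cos he he' hne v
    have h2 := Rot2_gram he he' v
    have hns := Rot2_ns he he'
    have hp : 0 < 1 + inner ℝ e e' := by
      have h3 : 0 < ‖e + e'‖ ^ 2 := by
        have := norm_pos_iff.2 hne
        positivity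
      rw [hns] at h3
      linarith
    have h3 : (1 + inner ℝ e e') * (‖v‖ ^ 2 - inner ℝ v (rotQ e e' v)) ≤
        (1 + inner ℝ e e') * ((1 - inner ℝ e e') * ‖v‖ ^ 2) := by
      rw [h1]
      refine h2.trans (le_of_eq ?_)
      ring
    exact le_of_mul_le_mul_left h3 hp

/-- a unit vector orthogonal to `e` -/
private theorem Rot2_orth (hN : 2 ≤ N) (e : E N) : ∃ f : E N, ‖f‖ = 1 ∧ inner ℝ e f = 0 := by
  have h1 : (ℝ ∙ e)ᗮ ≠ ⊥ := by
    intro h0
    have h2 := Submodule.finrank_add_finrank_orthogonal (ℝ ∙ e)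
    rw [h0, finrank_bot, add_zero, finrank_euclideanSpace, Fintype.card_fin] at h2
    have h3 := finrank_span_le_card (R := ℝ) ({e} : Set (E N))
    simp only [Set.toFinset_singleton, Finset.card_singleton] at h3
    omega
  obtain ⟨w, hw, hw0⟩ := Submodule.exists_mem_ne_zero_of_ne_bot h1
  have h2 : 0 < ‖w‖ := norm_pos_iff.2 hw0
  refine ⟨(1 / ‖w‖) • w, ?_, ?_⟩
  · rw [norm_smul, Real.norm_of_nonneg (by positivity)]
    field_simp
  · rw [real_inner_smul_right, Submodule.mem_orthogonal_singleton_iff_inner_right.1 hw, mul_zero]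

theorem rotQ_cos_le2 (hN : 2 ≤ N) {e e' : E N} (he : ‖e‖ = 1) (he' : ‖e'‖ = 1) :
    ∃ f : E N, ‖f‖ = 1 ∧ inner ℝ e f = 0 ∧ ∀ v : E N,
      ‖v‖ ^ 2 - inner ℝ v (rotQ e e' v) ≤
        (1 - inner ℝ e e') * ((inner ℝ e v) ^ 2 + (inner ℝ f v) ^ 2) := by
  by_cases hne : e + e' = 0
  · have h1 : e' = -e := (eq_neg_of_add_eq_zero_right hne)
    obtain ⟨f, hf, hef⟩ := Rot2_orth hN e
    refine ⟨f, hf, hef, fun v => ?_⟩
    rw [h1, rotQ_cos_opp he, inner_neg_right, real_inner_self_eq_norm_sq, he]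
    have := sq_nonneg (inner ℝ f v : ℝ)
    linarith
  · set c : ℝ := inner ℝ e e' with hc
    have hns := Rot2_ns he he'
    have hp : 0 < 1 + c := by
      have h3 : 0 < ‖e + e'‖ ^ 2 := by
        have := norm_pos_iff.2 hne
        positivity
      rw [hns] at h3
      linarith
    have h2 : ‖e' - c • e‖ ^ 2 = 1 - c ^ 2 := by
      rw [norm_sub_sq_real, he', real_inner_smul_right, norm_smul, he, real_inner_comm e e', ← hc,
        mul_one, Real.norm_eq_abs, sq_abs]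
      ring
    by_cases h0 : e' - c • e = 0
    · obtain ⟨f, hf, hef⟩ := Rot2_orth hN e
      refine ⟨f, hf, hef, fun v => ?_⟩
      rw [h0] at h2
      have h3 : (1 - c) * (1 + c) = 0 := by
        have : ‖(0 : E N)‖ ^ 2 = 0 := by simp
        rw [this] at h2
        linarith
      have h4 : 1 - c = 0 := by
        rcases mul_eq_zero.1 h3 with h | h
        · exact h
        · exact absurd h hp.ne'
      have h5 : e' = e := by
        have h6 : c = 1 := by linarith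
        rw [h6, one_smul] at h0
        exact sub_eq_zero.1 h0
      have h6 := rotQ_cos he he' hne v
      rw [h4, zero_mul]
      rw [← hc] at h6
      have h7 : c = 1 := by linarith
      rw [h7] at h6
      have h8 : (inner ℝ e' v : ℝ) = inner ℝ e v := by rw [h5]
      rw [h8] at h6
      nlinarith only [h6]
    · have hs : 0 < ‖e' - c • e‖ := norm_pos_iff.2 h0
      set s : ℝ := ‖e' - c • e‖ with hsd
      refine ⟨(1 / s) • (e' - c • e), ?_, ?_, fun v => ?_⟩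
      · rw [norm_smul, Real.norm_of_nonneg (by positivity), ← hsd]
        field_simp
      · rw [real_inner_smul_right, inner_sub_right, real_inner_smul_right,
          real_inner_self_eq_norm_sq, he, ← hc]
        ring
      · have h6 := rotQ_cos he he' hne v
        have h7 : inner ℝ ((1 / s) • (e' - c • e)) v = (1 / s) * (inner ℝ e' v - c * inner ℝ e v) := by
          rw [real_inner_smul_left, inner_sub_left, real_inner_smul_left]
        rw [h7, mul_pow, div_pow, one_pow, h2]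
        have hc1 : 0 < 1 - c := by
          have h8 : 0 < s ^ 2 := by positivity
          rw [h2] at h8
          nlinarith only [hns, h8]
        rw [← hc] at h6
        have h8 : ‖v‖ ^ 2 - inner ℝ v (rotQ e e' v) = ((inner ℝ e v) ^ 2 -
            2 * c * inner ℝ e v * inner ℝ e' v + (inner ℝ e' v) ^ 2) / (1 + c) := by
          rw [eq_div_iff hp.ne', ← h6]
          ring
        rw [h8, div_le_iff₀ hp]
        have h9 : 1 - c ^ 2 = (1 - c) * (1 + c) := by ring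
        rw [h9]
        apply le_of_eq
        field_simp
        ring

private theorem Rot2_uni (g : E N) : ‖g‖ • uni g = g := by
  by_cases hg : g = 0
  · rw [hg]
    simp
  · unfold uni
    have : ‖g‖ ≠ 0 := norm_ne_zero_iff.2 hg
    rw [smul_smul, mul_one_div_cancel this, one_smul]

/-- in polar form both components are images of the same vector `e + √h ξ` -/
theorem hat_rot {β h : ℝ} {g g' : E N} (hg : g ≠ 0) (hg' : g' ≠ 0) (ξ : E N) :
    hat β h g' (rotQ (uni g) (uni g') ξ) =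
      rotQ (uni g) (uni g') (hat β h (‖g'‖ • uni g) ξ) := by
  rw [← hat_isometry, map_smul, rotQ_map (uni_norm hg) (uni_norm hg'), Rot2_uni]

private theorem Rot2_J {β h : ℝ} {r : ℝ} (hr : 0 ≤ r) {e : E N} (he : ‖e‖ = 1) (ξ : E N) :
    hat β h (r • e) ξ = J β h (r • (e + Real.sqrt h • ξ)) := by
  unfold hat
  rw [norm_smul, he, mul_one, Real.norm_of_nonneg hr, smul_add, smul_smul, mul_comm r]

theorem hat2_dist {β h : ℝ} (hβ : 0 < β) (hh : 0 ≤ h) {g g' : E N} (hg : g ≠ 0) (hg' : g' ≠ 0)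
    (ξ : E N) : ‖hat β h g ξ - hat β h g' (rotQ (uni g) (uni g') ξ)‖ ≤
      ‖uni g + Real.sqrt h • ξ‖ * ‖g - g'‖ := by
  have he := uni_norm hg
  have he' := uni_norm hg'
  set e := uni g with hed
  set e' := uni g' with hed'
  set v := e + Real.sqrt h • ξ with hv
  have h1 : hat β h g ξ = J β h (‖g‖ • v) := by
    have h2 := Rot2_J (β := β) (h := h) (norm_nonneg g) he ξ
    rwa [hed, Rot2_uni, ← hed] at h2
  have h2 : hat β h g' (rotQ e e' ξ) = J β h (‖g'‖ • rotQ e e' v) := by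
    rw [hed, hed', hat_rot hg hg', ← hed, ← hed', Rot2_J (norm_nonneg g') he, ← J_isometry,
      map_smul]
  rw [h1, h2]
  refine (J_nonexp hβ hh _ _).trans ?_
  have h3 : ‖‖g‖ • v - ‖g'‖ • rotQ e e' v‖ ^ 2 ≤ (‖v‖ * ‖g - g'‖) ^ 2 := by
    have h4 := rotQ_cos_le he he' v
    have h5 : inner ℝ g g' = ‖g‖ * ‖g'‖ * inner ℝ e e' := by
      conv_lhs => rw [← Rot2_uni g, ← Rot2_uni g']
      rw [real_inner_smul_left, real_inner_smul_right, ← hed, ← hed']
      ring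
    rw [norm_sub_sq_real, mul_pow, norm_sub_sq_real g g', h5, norm_smul, norm_smul,
      LinearIsometryEquiv.norm_map, real_inner_smul_left, real_inner_smul_right, norm_norm,
      norm_norm]
    have h6 : 0 ≤ ‖g‖ * ‖g'‖ := by positivity
    have h7 := mul_le_mul_of_nonneg_left h4 h6
    nlinarith only [h7]
  exact le_of_sq_le_sq h3 (by positivity)

theorem hat2_dist_all {β h : ℝ} (hβ : 0 < β) (hh : 0 ≤ h) (g g' ξ : E N) :
    ‖hat β h g ξ - hat β h g' (rotQ (uni g) (uni g') ξ)‖ ≤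
      (1 + Real.sqrt h * ‖ξ‖) * ‖g - g'‖ := by
  have hb : ∀ a η : E N, ‖hat β h a η‖ ≤ (1 + Real.sqrt h * ‖η‖) * ‖a‖ := by
    intro a η
    have h1 := J_nonexp hβ hh (a + (Real.sqrt h * ‖a‖) • η) 0
    rw [J_zero, sub_zero, sub_zero] at h1
    unfold hat
    refine h1.trans ((norm_add_le _ _).trans ?_)
    rw [norm_smul, Real.norm_of_nonneg (by positivity)]
    linarith
  by_cases hg : g = 0
  · rw [hg, hat_zero, zero_sub, norm_neg, zero_sub, norm_neg]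
    have h1 := hb g' (rotQ (uni 0) (uni g') ξ)
    rwa [LinearIsometryEquiv.norm_map] at h1
  · by_cases hg' : g' = 0
    · rw [hg', hat_zero, sub_zero, sub_zero]
      exact hb g ξ
    · refine (hat2_dist hβ hh hg hg' ξ).trans ?_
      refine mul_le_mul_of_nonneg_right ?_ (norm_nonneg _)
      refine (norm_add_le _ _).trans ?_
      rw [uni_norm hg, norm_smul, Real.norm_of_nonneg (Real.sqrt_nonneg h)]

end DynS

end

/-! ### from `Lib_MP_36b788s.Pth` -/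

section

/-!
# Path functionals: comparison with constants and with a coupled copy

PROOF.
* `chainLaw_law`: induction on `n`, `rfl` after rewriting.
* `pathE_tele`: induction on `M` for all `F, c, G`. `List.range_succ_eq_map`, so `pathE (F 0 :: map (F ∘ succ) (range M)) G = F 0 G * A`,
  `A = ∫ P(stp G ξ)`, and `Finset.prod_range_succ'`: `∏_{i<M+1} c i = c 0 * B`. `F 0 G * A - c 0 * B = (F 0 G - c 0)B + F 0 G (A-B)`, `‖B‖,‖F 0 G‖ ≤ 1`,
  `‖A-B‖ₑ ≤ ∫⁻‖P(stp G ξ)-B‖ₑ` (`enorm_integral_le_lintegral_enorm`, `integral_sub` with the constant `B`, `P` bounded measurable: `pathE_facts`)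
  `≤ ∫⁻ Σ_{i<M} ev … i (stp G ξ) = Σ_{i<M} ev … (i+1) G` (`lintegral_finset_sum`, `ev_meas`).
* `pathE_pair`: the same with `A' = ∫ P(stp G' ξ) = ∫ P(stp G' (rotN G G' ξ))` (`rotN_preserving`), `F 0 G A - F 0 G' A' = (F 0 G - F 0 G')A + F 0 G'(A-A')`.
-/

open MeasureTheory ProbabilityTheory Dyn
open scoped ENNReal

namespace DynS

variable {N d : ℕ} {ι : Type} [Fintype ι]

theorem chainLaw_law (net : Net ι d) (β h k : ℝ) (ν : Measure (E N)) (m0 : Measure (ι → E N))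
    (n : ℕ) : chainLaw net β h k ν m0 n = law (stp net β h k) (pim ι ν) m0 n := by
  induction n with
  | zero => rfl
  | succ n ih =>
    change ((chainLaw net β h k ν m0 n).prod (pim ι ν)).map (fun q => stp net β h k q.1 q.2) =
      ((law (stp net β h k) (pim ι ν) m0 n).prod (pim ι ν)).map (fun q => stp net β h k q.1 q.2)
    rw [ih]

private theorem Pth_prob {ν : Measure (E N)} [IsProbabilityMeasure ν] :
    IsProbabilityMeasure (pim ι ν) := by
  unfold pim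
  infer_instance

private theorem Pth_sec (net : Net ι d) {β h k : ℝ} (hβ : 0 < β) (hh : 0 ≤ h) (G : ι → E N) :
    Measurable (fun ξ : ι → E N => stp net β h k G ξ) := by
  have hs := (stp_continuous (N := N) hβ hh k net).measurable
  have h0 : Measurable fun ξ : ι → E N => (G, ξ) := measurable_const.prodMk measurable_id
  have h1 := hs.comp h0
  exact h1

private theorem Pth_le_one {z : ℂ} (hz : ‖z‖ ≤ 1) : ‖z‖ₑ ≤ 1 := by
  rw [← ofReal_norm, ← ENNReal.ofReal_one]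
  exact ENNReal.ofReal_le_ofReal hz

omit [Fintype ι] in
private theorem Pth_list (F : ℕ → (ι → E N) → ℂ) (M : ℕ) :
    (List.range (M + 1)).map F = F 0 :: (List.range M).map (fun i => F (i + 1)) := by
  rw [List.range_succ_eq_map, List.map_cons, List.map_map]
  rfl

private theorem Pth_split (a b A B : ℂ) (hb : ‖b‖ ≤ 1) (hA : ‖A‖ ≤ 1) :
    ‖a * A - b * B‖ₑ ≤ ‖a - b‖ₑ + ‖A - B‖ₑ := by
  have h1 : a * A - b * B = (a - b) * A + b * (A - B) := by ring
  rw [h1]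
  refine (enorm_add_le _ _).trans (add_le_add ?_ ?_)
  · rw [enorm_mul]
    exact mul_le_of_le_one_right' (Pth_le_one hA)
  · rw [enorm_mul]
    exact mul_le_of_le_one_left' (Pth_le_one hb)

private theorem Pth_int {ν : Measure (E N)} [IsProbabilityMeasure ν] {g : (ι → E N) → ℂ}
    (hg : Measurable g) (hb : ∀ ξ, ‖g ξ‖ ≤ 1) : Integrable g (pim ι ν) ∧ ‖∫ ξ, g ξ ∂(pim ι ν)‖ ≤ 1 := by
  have := Pth_prob (ι := ι) (ν := ν)
  refine ⟨Integrable.of_bound (C := 1) hg.aestronglyMeasurable (Filter.Eventually.of_forall hb), ?_⟩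
  have h1 := norm_integral_le_of_norm_le_const (μ := pim ι ν) (f := g) (C := 1)
    (Filter.Eventually.of_forall hb)
  simpa using h1

theorem pathE_tele (net : Net ι d) {β h k : ℝ} (hβ : 0 < β) (hh : 0 ≤ h) {ν : Measure (E N)}
    [IsProbabilityMeasure ν] (M : ℕ) (F : ℕ → (ι → E N) → ℂ) (c : ℕ → ℂ)
    (hm : ∀ i, Measurable (F i)) (hb : ∀ i G, ‖F i G‖ ≤ 1) (hc : ∀ i, ‖c i‖ ≤ 1) (G : ι → E N) :
    ‖pathE net β h k ν ((List.range M).map F) G - ∏ i ∈ Finset.range M, c i‖ₑ ≤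
      ∑ i ∈ Finset.range M, ev (stp net β h k) (pim ι ν) (fun G => ‖F i G - c i‖ₑ) i G := by
  have := Pth_prob (ι := ι) (ν := ν)
  have hs := (stp_continuous (N := N) hβ hh k net).measurable
  induction M generalizing F c G with
  | zero =>
    change ‖(1 : ℂ) - ∏ i ∈ Finset.range 0, c i‖ₑ ≤ _
    simp
  | succ M ih =>
    set F' : ℕ → (ι → E N) → ℂ := fun i => F (i + 1) with hF'
    set c' : ℕ → ℂ := fun i => c (i + 1) with hc'
    have hfacts := pathE_facts (net := net) (k := k) (ν := ν) hβ hh ((List.range M).map F')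
      (by
        intro f hf
        obtain ⟨i, _, rfl⟩ := List.mem_map.1 hf
        exact hm _)
      (by
        intro f hf
        obtain ⟨i, _, rfl⟩ := List.mem_map.1 hf
        exact hb _)
    set P : (ι → E N) → ℂ := pathE net β h k ν ((List.range M).map F') with hP
    have hsec := Pth_sec (N := N) (k := k) net hβ hh G
    have hPm : Measurable (fun ξ => P (stp net β h k G ξ)) := hfacts.1.comp hsec
    obtain ⟨hPi, hPn⟩ := Pth_int (ν := ν) hPm (fun ξ => hfacts.2 _)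
    have h1 : pathE net β h k ν ((List.range (M + 1)).map F) G =
        F 0 G * ∫ ξ, P (stp net β h k G ξ) ∂(pim ι ν) := by
      rw [Pth_list]
      rfl
    set B : ℂ := ∏ i ∈ Finset.range M, c' i with hB
    have h2 : ∏ i ∈ Finset.range (M + 1), c i = c 0 * B := by
      rw [Finset.prod_range_succ', mul_comm]
    have h3 : ‖(∫ ξ, P (stp net β h k G ξ) ∂(pim ι ν)) - B‖ₑ ≤
        ∑ i ∈ Finset.range M,
          ev (stp net β h k) (pim ι ν) (fun G => ‖F (i + 1) G - c (i + 1)‖ₑ) (i + 1) G := by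
      have h4 : (∫ ξ, P (stp net β h k G ξ) ∂(pim ι ν)) - B =
          ∫ ξ, (P (stp net β h k G ξ) - B) ∂(pim ι ν) := by
        rw [integral_sub hPi (integrable_const B)]
        simp
      rw [h4]
      refine (enorm_integral_le_lintegral_enorm _).trans ?_
      have h5 : ∀ ξ, ‖P (stp net β h k G ξ) - B‖ₑ ≤ ∑ i ∈ Finset.range M,
          ev (stp net β h k) (pim ι ν) (fun G => ‖F' i G - c' i‖ₑ) i (stp net β h k G ξ) :=
        fun ξ => ih F' c' (fun i => hm _) (fun i => hb _) (fun i => hc _) _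
      refine (lintegral_mono h5).trans (le_of_eq ?_)
      rw [lintegral_finsetSum]
      · rfl
      · intro i _
        exact (ev_meas hs (((hm (i + 1)).sub measurable_const).enorm) i).comp hsec
    rw [h1, h2, Finset.sum_range_succ', add_comm]
    refine (Pth_split (F 0 G) (c 0) _ B (hc 0) hPn).trans ?_
    exact add_le_add le_rfl h3

theorem pathE_pair (net : Net ι d) {β h k : ℝ} (hβ : 0 < β) (hh : 0 ≤ h) {ν : Measure (E N)}
    [IsProbabilityMeasure ν] (hiso : ∀ L : E N ≃ₗᵢ[ℝ] E N, ν.map L = ν) (M : ℕ)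
    (F : ℕ → (ι → E N) → ℂ) (hm : ∀ i, Measurable (F i)) (hb : ∀ i G, ‖F i G‖ ≤ 1)
    (G G' : ι → E N) :
    ‖pathE net β h k ν ((List.range M).map F) G -
        pathE net β h k ν ((List.range M).map F) G'‖ₑ ≤
      ∑ i ∈ Finset.range M,
        ev (stp2 net β h k) (pim ι ν) (fun p => ‖F i p.1 - F i p.2‖ₑ) i (G, G') := by
  have := Pth_prob (ι := ι) (ν := ν)
  have hs := (stp_continuous (N := N) hβ hh k net).measurable
  have hs2 := measurable_stp2 (N := N) net hβ hh k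
  induction M generalizing F G G' with
  | zero =>
    change ‖(1 : ℂ) - 1‖ₑ ≤ _
    simp
  | succ M ih =>
    set F' : ℕ → (ι → E N) → ℂ := fun i => F (i + 1) with hF'
    have hfacts := pathE_facts (net := net) (k := k) (ν := ν) hβ hh ((List.range M).map F')
      (by
        intro f hf
        obtain ⟨i, _, rfl⟩ := List.mem_map.1 hf
        exact hm _)
      (by
        intro f hf
        obtain ⟨i, _, rfl⟩ := List.mem_map.1 hf
        exact hb _)
    set P : (ι → E N) → ℂ := pathE net β h k ν ((List.range M).map F') with hP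
    have hsec := Pth_sec (N := N) (k := k) net hβ hh G
    have hsec' := Pth_sec (N := N) (k := k) net hβ hh G'
    have hrot := rotN_preserving (N := N) (ι := ι) hiso G G'
    have hPm : Measurable (fun ξ => P (stp net β h k G ξ)) := hfacts.1.comp hsec
    have hPm' : Measurable (fun ξ => P (stp net β h k G' ξ)) := hfacts.1.comp hsec'
    have hPr : Measurable (fun ξ => P (stp net β h k G' (rotN G G' ξ))) :=
      hPm'.comp hrot.measurable
    obtain ⟨hPi, hPn⟩ := Pth_int (ν := ν) hPm (fun ξ => hfacts.2 _)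
    obtain ⟨hPi', _⟩ := Pth_int (ν := ν) hPr (fun ξ => hfacts.2 _)
    have hA' : ∫ ξ, P (stp net β h k G' ξ) ∂(pim ι ν) =
        ∫ ξ, P (stp net β h k G' (rotN G G' ξ)) ∂(pim ι ν) := by
      conv_lhs => rw [← hrot.map_eq]
      exact integral_map hrot.measurable.aemeasurable
        (by rw [hrot.map_eq]; exact hPm'.aestronglyMeasurable)
    have h1 : ∀ H : ι → E N, pathE net β h k ν ((List.range (M + 1)).map F) H =
        F 0 H * ∫ ξ, P (stp net β h k H ξ) ∂(pim ι ν) := by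
      intro H
      rw [Pth_list]
      rfl
    have h3 : ‖(∫ ξ, P (stp net β h k G ξ) ∂(pim ι ν)) -
        ∫ ξ, P (stp net β h k G' ξ) ∂(pim ι ν)‖ₑ ≤
        ∑ i ∈ Finset.range M,
          ev (stp2 net β h k) (pim ι ν) (fun p => ‖F (i + 1) p.1 - F (i + 1) p.2‖ₑ) (i + 1)
            (G, G') := by
      rw [hA', ← integral_sub hPi hPi']
      refine (enorm_integral_le_lintegral_enorm _).trans ?_
      have h5 : ∀ ξ, ‖P (stp net β h k G ξ) - P (stp net β h k G' (rotN G G' ξ))‖ₑ ≤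
          ∑ i ∈ Finset.range M,
            ev (stp2 net β h k) (pim ι ν) (fun p => ‖F' i p.1 - F' i p.2‖ₑ) i
              (stp net β h k G ξ, stp net β h k G' (rotN G G' ξ)) :=
        fun ξ => ih F' (fun i => hm _) (fun i => hb _) _ _
      refine (lintegral_mono h5).trans (le_of_eq ?_)
      rw [lintegral_finsetSum]
      · rfl
      · intro i _
        have h6 : Measurable (fun p : (ι → E N) × (ι → E N) => ‖F' i p.1 - F' i p.2‖ₑ) :=
          (((hm (i + 1)).comp measurable_fst).sub ((hm (i + 1)).comp measurable_snd)).enorm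
        exact (ev_meas hs2 h6 i).comp (hsec.prodMk (hsec'.comp hrot.measurable))
    rw [h1 G, h1 G', Finset.sum_range_succ', add_comm]
    refine (Pth_split (F 0 G) (F 0 G') _ _ (hb 0 G') hPn).trans ?_
    exact add_le_add le_rfl h3

end DynS

end

/-! ### from `Lib_MP_36b788s.Van` -/

section

/-!
# VAN: mixing if the field vanishes

PROOF. Given `ρ1, ρ2, R, J, CF, δ`. `B = card (boxS d R)` bounds the number of `x ∈ boxS d L` with `l1 x 0 ≤ R` (each `|x_i| ≤ l1 x 0 ≤ R`, injection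
`x ↦ x` into `boxS d R`). `ε = δ/(2·J·CF·B+1)`, `T0 = max` of the two times of the hypothesis for `ρ1, ρ2` with `ε`, `L0 = R`. For `L ≥ R`, `Sm`: use the
hypothesis with horizon `2Sm`, `h0` = minimum of the two and of `nuT_noise`. Fix `h, n1, n2, M, F, I`. `c i = F i 0` (`0` the zero configuration).
`ψ_i G = ‖F i G - c i‖ₑ`, zero for `i ∉ I`, else `≤ Σ_{x, l1 x 0 ≤ R} ofReal CF * ofReal (min 1 ‖G x‖)`.
For `a = 1,2`: `∫⁻‖Φ-∏c‖ₑ dchainLaw_a na ≤ Σ_{i<M}∫⁻ev … ψ_i i dlaw_a na` (`pathE_tele`, `chainLaw_law`) `= Σ_{i<M}∫⁻ψ_i dlaw_a(na+i)` (`law_time`)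
`≤ Σ_{i∈I, i<M}Σ_x CF ε ≤ ofReal (J·CF·B·ε)`; here `(na+i)h ≤ 2Sm` and `(na+i)h ≥ ih ≥ T0`.
Then `∫∫‖Φ G-Φ G'‖ ≤ ∫‖Φ-∏c‖dlaw1+∫‖Φ-∏c‖dlaw2 ≤ 2·J·CF·B·ε ≤ δ` (triangle inequality, all functions bounded by `2`, measurable: `pathE_facts`; probability:
`chainLaw_prob`).
-/

open MeasureTheory ProbabilityTheory Dyn
open scoped ENNReal

namespace DynS

private theorem Van_card (d L R : ℕ) :
    ((Finset.univ : Finset (boxS d L)).filter (fun x : boxS d L => l1 (x : Fin d → ℤ) 0 ≤ R)).card ≤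
      (boxS d R).card := by
  classical
  refine Finset.card_le_card_of_injOn (fun x : boxS d L => (x : Fin d → ℤ)) ?_ ?_
  · intro x hx
    simp only [Finset.coe_filter, Finset.mem_univ, true_and, Set.mem_ofPred_eq] at hx
    have h1 : ∀ i, (((x : Fin d → ℤ) i - (0 : Fin d → ℤ) i).natAbs) ≤ R := by
      intro i
      refine le_trans ?_ hx
      unfold l1
      exact Finset.single_le_sum (f := fun i => ((x : Fin d → ℤ) i - (0 : Fin d → ℤ) i).natAbs)
        (fun _ _ => Nat.zero_le _) (Finset.mem_univ i)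
    have h2 : (x : Fin d → ℤ) ∈ boxS d R := by
      unfold boxS
      rw [Finset.mem_Icc]
      constructor
      · intro i
        have := h1 i
        simp only [Pi.zero_apply, sub_zero] at this
        show -(R : ℤ) ≤ (x : Fin d → ℤ) i
        omega
      · intro i
        have := h1 i
        simp only [Pi.zero_apply, sub_zero] at this
        show (x : Fin d → ℤ) i ≤ (R : ℤ)
        omega
    exact h2
  · intro x _ y _ hxy
    exact Subtype.ext hxy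

/-- one side -/
private theorem Van_side {N d : ℕ} {β k h : ℝ} (hβ : 0 < β) (hh : 0 < h) {L R J : ℕ} {CF ε T0 Sm : ℝ}
    (hCF : 0 ≤ CF) (hε : 0 < ε) {ν : Measure (E N)} [IsProbabilityMeasure ν]
    (ρ : Measure (E N)) [IsProbabilityMeasure ρ]
    (H : ∀ n : ℕ, T0 ≤ n * h → n * h ≤ 2 * Sm → ∀ x : boxS d L,
      ∫⁻ G, ENNReal.ofReal (min 1 ‖G x‖)
        ∂(chainLaw (boxNet d L) β h k ν (Measure.pi (fun _ => ρ)) n) ≤ ENNReal.ofReal ε)
    (n M : ℕ) (hn : n * h ≤ Sm) (hM : M * h ≤ Sm)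
    (F : ℕ → (boxS d L → E N) → ℂ) (I : Finset ℕ) (hI : I.card ≤ J)
    (hm : ∀ i, Measurable (F i)) (hb : ∀ i G, ‖F i G‖ ≤ 1) (hout : ∀ i, i ∉ I → F i = fun _ => 1)
    (hin : ∀ i ∈ I, T0 ≤ i * h ∧ ∀ G G' : boxS d L → E N, ‖F i G - F i G'‖ ≤
        CF * ∑ x : boxS d L, (if l1 (x : Fin d → ℤ) 0 ≤ R then min 1 ‖G x - G' x‖ else 0)) :
    ∫ G, ‖pathE (boxNet d L) β h k ν ((List.range M).map F) G - ∏ i ∈ Finset.range M, F i 0‖
      ∂(chainLaw (boxNet d L) β h k ν (Measure.pi (fun _ => ρ)) n) ≤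
      J * (CF * ((boxS d R).card * ε)) := by
  classical
  set net := boxNet d L with hnet
  set m0 : Measure (boxS d L → E N) := Measure.pi (fun _ => ρ) with hm0
  set P : ℂ := ∏ i ∈ Finset.range M, F i 0 with hP
  have hprob := chainLaw_prob (net := net) (k := k) hβ hh.le (ν := ν) m0 n
  have hfacts := pathE_facts (net := net) (k := k) hβ hh.le (ν := ν) ((List.range M).map F)
    (fun f hf => by
      obtain ⟨i, _, rfl⟩ := List.mem_map.1 hf
      exact hm i)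
    (fun f hf => by
      obtain ⟨i, _, rfl⟩ := List.mem_map.1 hf
      exact hb i)
  have hpim : IsProbabilityMeasure (pim (boxS d L) ν) := by
    unfold pim; infer_instance
  have hstp : Measurable (fun q : (boxS d L → E N) × (boxS d L → E N) =>
      stp net β h k q.1 q.2) := (stp_continuous hβ hh.le k net).measurable
  have hψm : ∀ i, Measurable (fun G : boxS d L → E N => ‖F i G - F i 0‖ₑ) := fun i =>
    ((hm i).sub_const _).enorm
  have hmain : ∫⁻ G, ‖pathE net β h k ν ((List.range M).map F) G - P‖ₑ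
      ∂(chainLaw net β h k ν m0 n) ≤ ENNReal.ofReal (J * (CF * ((boxS d R).card * ε))) := by
    have e1 : ∫⁻ G, ‖pathE net β h k ν ((List.range M).map F) G - P‖ₑ
        ∂(chainLaw net β h k ν m0 n) ≤
        ∫⁻ G, ∑ i ∈ Finset.range M, ev (stp net β h k) (pim (boxS d L) ν)
          (fun G => ‖F i G - F i 0‖ₑ) i G ∂(chainLaw net β h k ν m0 n) :=
      lintegral_mono fun G => pathE_tele net hβ hh.le M F (fun i => F i 0) hm hb
        (fun i => hb i 0) G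
    have e2 : ∫⁻ G, ∑ i ∈ Finset.range M, ev (stp net β h k) (pim (boxS d L) ν)
          (fun G => ‖F i G - F i 0‖ₑ) i G ∂(chainLaw net β h k ν m0 n) =
        ∑ i ∈ Finset.range M, ∫⁻ G, ‖F i G - F i 0‖ₑ ∂(chainLaw net β h k ν m0 (n + i)) := by
      rw [lintegral_finsetSum _ (fun i _ => ev_meas hstp (hψm i) i)]
      refine Finset.sum_congr rfl fun i _ => ?_
      rw [chainLaw_law, chainLaw_law]
      exact law_time hstp m0 (hψm i) n i
    have e3 : ∀ i ∈ Finset.range M, ∫⁻ G, ‖F i G - F i 0‖ₑ ∂(chainLaw net β h k ν m0 (n + i)) ≤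
        if i ∈ I then ENNReal.ofReal (CF * ((boxS d R).card * ε)) else 0 := by
      intro i hi
      have hi' := Finset.mem_range.1 hi
      by_cases hiI : i ∈ I
      · rw [if_pos hiI]
        obtain ⟨hT, hLip⟩ := hin i hiI
        have b1 : T0 ≤ ((n + i : ℕ) : ℝ) * h := by
          push_cast
          nlinarith only [hT, hh, mul_nonneg (Nat.cast_nonneg n : (0 : ℝ) ≤ n) hh.le]
        have b2 : ((n + i : ℕ) : ℝ) * h ≤ 2 * Sm := by
          push_cast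
          have : (i : ℝ) * h ≤ M * h := by
            have : (i : ℝ) ≤ M := by exact_mod_cast hi'.le
            exact mul_le_mul_of_nonneg_right this hh.le
          nlinarith only [hn, hM, this]
        have b3 := H (n + i) b1 b2
        calc ∫⁻ G, ‖F i G - F i 0‖ₑ ∂(chainLaw net β h k ν m0 (n + i))
            ≤ ∫⁻ G, ENNReal.ofReal CF * ∑ x : boxS d L, (if l1 (x : Fin d → ℤ) 0 ≤ R then
                ENNReal.ofReal (min 1 ‖G x‖) else 0) ∂(chainLaw net β h k ν m0 (n + i)) := by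
              refine lintegral_mono fun G => ?_
              have := hLip G 0
              rw [← ofReal_norm]
              refine le_trans (ENNReal.ofReal_le_ofReal this) ?_
              rw [ENNReal.ofReal_mul hCF, ENNReal.ofReal_sum_of_nonneg]
              · refine mul_le_mul_right (Finset.sum_le_sum fun x _ => ?_) _
                split_ifs
                · simp
                · simp
              · intro x _
                split_ifs
                · positivity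
                · exact le_rfl
          _ = ENNReal.ofReal CF * ∑ x : boxS d L, ∫⁻ G, (if l1 (x : Fin d → ℤ) 0 ≤ R then
                ENNReal.ofReal (min 1 ‖G x‖) else 0) ∂(chainLaw net β h k ν m0 (n + i)) := by
              have hmx : ∀ x : boxS d L, Measurable (fun G : boxS d L → E N =>
                  (if l1 (x : Fin d → ℤ) 0 ≤ R then ENNReal.ofReal (min 1 ‖G x‖) else 0)) := by
                intro x
                split_ifs
                · exact (measurable_const.min (measurable_pi_apply x).norm).ennreal_ofReal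
                · exact measurable_const
              rw [lintegral_const_mul _ (Finset.measurable_sum _ fun x _ => hmx x),
                lintegral_finsetSum _ (fun x _ => hmx x)]
          _ ≤ ENNReal.ofReal CF * ∑ x : boxS d L, (if l1 (x : Fin d → ℤ) 0 ≤ R then
                ENNReal.ofReal ε else 0) := by
              refine mul_le_mul_right (Finset.sum_le_sum fun x _ => ?_) _
              split_ifs
              · exact b3 x
              · simp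
          _ ≤ ENNReal.ofReal (CF * ((boxS d R).card * ε)) := by
              rw [ENNReal.ofReal_mul hCF]
              refine mul_le_mul_right ?_ _
              rw [← Finset.sum_filter, Finset.sum_const, nsmul_eq_mul,
                ENNReal.ofReal_mul (Nat.cast_nonneg _), ENNReal.ofReal_natCast]
              refine mul_le_mul_left ?_ _
              exact_mod_cast Van_card d L R
      · rw [if_neg hiI, hout i hiI]
        simp
    have e4 : ∑ i ∈ Finset.range M, (if i ∈ I then ENNReal.ofReal (CF * ((boxS d R).card * ε))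
        else 0) ≤ ENNReal.ofReal (J * (CF * ((boxS d R).card * ε))) := by
      rw [← Finset.sum_filter, Finset.sum_const, nsmul_eq_mul,
        ENNReal.ofReal_mul (Nat.cast_nonneg _), ENNReal.ofReal_natCast]
      refine mul_le_mul_left ?_ _
      have h1 : ((Finset.range M).filter (fun i => i ∈ I)).card ≤ J :=
        le_trans (Finset.card_le_card fun i hi => (Finset.mem_filter.1 hi).2) hI
      exact_mod_cast h1
    exact (e1.trans_eq e2).trans ((Finset.sum_le_sum e3).trans e4)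
  rw [integral_norm_eq_lintegral_enorm (hfacts.1.sub_const _).aestronglyMeasurable]
  exact ENNReal.toReal_le_of_le_ofReal (by positivity) hmain

theorem cmix_of_vanish (N d : ℕ) (β k : ℝ) (hN : 1 ≤ N) (hβ : 0 < β)
    (H : ∀ (ρ : Measure (E N)) [IsProbabilityMeasure ρ], ρ {0} = 0 →
      Integrable (fun x : E N => ‖x‖ ^ 2) ρ → ∀ ε : ℝ, 0 < ε → ∃ T0 : ℝ, 0 ≤ T0 ∧ ∀ (L : ℕ) (Sm : ℝ),
        0 ≤ Sm → ∃ h0 : ℝ, 0 < h0 ∧ ∀ h, 0 < h → h < h0 → ∀ n : ℕ, T0 ≤ n * h → n * h ≤ Sm →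
          ∀ x : boxS d L, ∫⁻ G, ENNReal.ofReal (min 1 ‖G x‖)
            ∂(chainLaw (boxNet d L) β h k (nuT N h) (Measure.pi (fun _ => ρ)) n) ≤
              ENNReal.ofReal ε) :
    CMix N d β k (fun h => nuT N h) := by
  intro ρ1 ρ2 _ _ h10 h20 h12 h22 R J CF δ hCF hδ
  set B : ℝ := ((boxS d R).card : ℝ) with hB
  have hB0 : 0 ≤ B := Nat.cast_nonneg _
  have hJ0 : (0 : ℝ) ≤ J := Nat.cast_nonneg _
  have hD : 0 < 2 * (J * (CF * B)) + 1 := by positivity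
  set ε : ℝ := δ / (2 * (J * (CF * B)) + 1) with hεd
  have hε : 0 < ε := div_pos hδ hD
  obtain ⟨T1, hT1, H1⟩ := H ρ1 h10 h12 ε hε
  obtain ⟨T2, hT2, H2⟩ := H ρ2 h20 h22 ε hε
  refine ⟨max T1 T2, R, le_trans hT1 (le_max_left _ _), le_rfl, fun _ => rfl, ?_⟩
  intro L _ _ Sm hSm
  obtain ⟨a1, ha1, H1⟩ := H1 L (2 * Sm) (by positivity)
  obtain ⟨a2, ha2, H2⟩ := H2 L (2 * Sm) (by positivity)
  obtain ⟨a3, ha3, H3⟩ := nuT_noise N hN
  refine ⟨min a1 (min a2 a3), lt_min ha1 (lt_min ha2 ha3), ?_⟩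
  intro h hh hlt n1 n2 M hn1 hn2 hM F I hI hm hb hout hin
  have hl1 : h < a1 := lt_of_lt_of_le hlt (min_le_left _ _)
  have hl2 : h < a2 := lt_of_lt_of_le hlt (le_trans (min_le_right _ _) (min_le_left _ _))
  have hl3 : h < a3 := lt_of_lt_of_le hlt (le_trans (min_le_right _ _) (min_le_right _ _))
  have hν : IsProbabilityMeasure (nuT N h) := (H3 h hh hl3).prob
  have S1 := Van_side (k := k) hβ hh (T0 := max T1 T2) (Sm := Sm) hCF hε (ν := nuT N h) ρ1
    (fun n hn hn' x => H1 h hh hl1 n (le_trans (le_max_left _ _) hn) hn' x)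
    n1 M hn1 hM F I hI hm hb hout hin
  have S2 := Van_side (k := k) hβ hh (T0 := max T1 T2) (Sm := Sm) hCF hε (ν := nuT N h) ρ2
    (fun n hn hn' x => H2 h hh hl2 n (le_trans (le_max_right _ _) hn) hn' x)
    n2 M hn2 hM F I hI hm hb hout hin
  have hp1 := chainLaw_prob (net := boxNet d L) (k := k) hβ hh.le (ν := nuT N h)
    (Measure.pi (fun _ : boxS d L => ρ1)) n1
  have hp2 := chainLaw_prob (net := boxNet d L) (k := k) hβ hh.le (ν := nuT N h)
    (Measure.pi (fun _ : boxS d L => ρ2)) n2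
  obtain ⟨f1, f2⟩ := pathE_facts (net := boxNet d L) (k := k) hβ hh.le (ν := nuT N h)
    ((List.range M).map F)
    (fun f hf => by
      obtain ⟨i, _, rfl⟩ := List.mem_map.1 hf
      exact hm i)
    (fun f hf => by
      obtain ⟨i, _, rfl⟩ := List.mem_map.1 hf
      exact hb i)
  show ∫ G, ∫ G', ‖pathE (boxNet d L) β h k (nuT N h) ((List.range M).map F) G
          - pathE (boxNet d L) β h k (nuT N h) ((List.range M).map F) G'‖
        ∂(chainLaw (boxNet d L) β h k (nuT N h) (Measure.pi (fun _ => ρ2)) n2)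
        ∂(chainLaw (boxNet d L) β h k (nuT N h) (Measure.pi (fun _ => ρ1)) n1) ≤ δ
  set Φ := pathE (boxNet d L) β h k (nuT N h) ((List.range M).map F) with hΦ
  set μ1 := chainLaw (boxNet d L) β h k (nuT N h) (Measure.pi (fun _ => ρ1)) n1 with hμ1
  set μ2 := chainLaw (boxNet d L) β h k (nuT N h) (Measure.pi (fun _ => ρ2)) n2 with hμ2
  set P : ℂ := ∏ i ∈ Finset.range M, F i 0 with hP
  have hPn : ‖P‖ ≤ 1 := by
    rw [hP, norm_prod]
    exact Finset.prod_le_one (fun _ _ => norm_nonneg _) (fun i _ => hb i 0)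
  have i1 : Integrable (fun G => ‖Φ G - P‖) μ1 :=
    Integrable.of_bound ((f1.sub_const _).norm).aestronglyMeasurable 2
      (Filter.Eventually.of_forall fun G => by
        rw [Real.norm_eq_abs, abs_of_nonneg (norm_nonneg _)]
        have := norm_sub_le (Φ G) P
        linarith [f2 G])
  have i2 : Integrable (fun G => ‖Φ G - P‖) μ2 :=
    Integrable.of_bound ((f1.sub_const _).norm).aestronglyMeasurable 2
      (Filter.Eventually.of_forall fun G => by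
        rw [Real.norm_eq_abs, abs_of_nonneg (norm_nonneg _)]
        have := norm_sub_le (Φ G) P
        linarith [f2 G])
  have inner : ∀ G, ∫ G', ‖Φ G - Φ G'‖ ∂μ2 ≤ ‖Φ G - P‖ + ∫ G', ‖Φ G' - P‖ ∂μ2 := by
    intro G
    have e : ∫ G', (‖Φ G - P‖ + ‖Φ G' - P‖) ∂μ2 = ‖Φ G - P‖ + ∫ G', ‖Φ G' - P‖ ∂μ2 := by
      rw [integral_add (integrable_const _) i2]
      simp
    rw [← e]
    refine integral_mono_of_nonneg (Filter.Eventually.of_forall fun G' => norm_nonneg _)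
      ((integrable_const _).add i2) (Filter.Eventually.of_forall fun G' => ?_)
    show ‖Φ G - Φ G'‖ ≤ ‖Φ G - P‖ + ‖Φ G' - P‖
    calc ‖Φ G - Φ G'‖ = ‖(Φ G - P) - (Φ G' - P)‖ := by congr 1; ring
      _ ≤ _ := norm_sub_le _ _
  have e1 : ∫ G, ∫ G', ‖Φ G - Φ G'‖ ∂μ2 ∂μ1 ≤
      ∫ G, (‖Φ G - P‖ + ∫ G', ‖Φ G' - P‖ ∂μ2) ∂μ1 := by
    refine integral_mono_of_nonneg
      (Filter.Eventually.of_forall fun G => integral_nonneg fun G' => norm_nonneg _)
      (i1.add (integrable_const _)) (Filter.Eventually.of_forall inner)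
  have e2 : ∫ G, (‖Φ G - P‖ + ∫ G', ‖Φ G' - P‖ ∂μ2) ∂μ1 =
      ∫ G, ‖Φ G - P‖ ∂μ1 + ∫ G', ‖Φ G' - P‖ ∂μ2 := by
    rw [integral_add i1 (integrable_const _)]
    simp
  rw [e2] at e1
  have e3 : (J : ℝ) * (CF * (B * ε)) + J * (CF * (B * ε)) ≤ δ := by
    have h1 : (J : ℝ) * (CF * (B * ε)) + J * (CF * (B * ε)) = (2 * (J * (CF * B))) * ε := by ring
    rw [h1, hεd, mul_div_assoc', div_le_iff₀ hD]
    nlinarith only [hδ, mul_nonneg hJ0 (mul_nonneg hCF hB0)]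
  linarith

end DynS

end

/-! ### from `Lib_MP_36b788s.Site` -/

section

/-!
# SITE: for `k = 0` the sites are independent

PROOF. `stp net β h 0 G ξ x = hat β h (G x) (ξ x)` (`0 * h = 0`, `zero_smul`).
* `site_ev`: `ev_twine` with `g = fun G => G x`: `∫⁻φ(hat (G x)(ξ x))dpim = ∫⁻φ(hat (G x) ξ)dν` (`measurePreserving_eval`).
* `site_marg`: `chainLaw_law`, `law_ev`, `site_ev`, marginal of `Measure.pi`, `law_ev` back.
* `site_pair`: `ev_twine` with `g = fun p => (p.1 x, p.2 x)`, `rotN G G' ξ x = rotQ (uni (G x)) (uni (G' x)) (ξ x)`.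
* `hat2_ev_fst`: `ev_twine` with `g = Prod.fst` (`rfl`), `hat2_ev_snd`: `g = Prod.snd`, `hat2_snd`.
-/

open MeasureTheory ProbabilityTheory Dyn
open scoped ENNReal

namespace DynS

variable {N d : ℕ} {ι : Type} [Fintype ι]

theorem measurable_hat {β h : ℝ} (hβ : 0 < β) (hh : 0 ≤ h) :
    Measurable (fun q : E N × E N => hat β h q.1 q.2) :=
  (hat_continuous hβ hh).measurable

private theorem Site_coord (net : Net ι d) (β h : ℝ) (G ξ : ι → E N) (x : ι) :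
    stp net β h 0 G ξ x = hat β h (G x) (ξ x) := by
  simp [stp]

private theorem Site_pim {ν : Measure (E N)} [IsProbabilityMeasure ν] :
    IsProbabilityMeasure (pim ι ν) := by
  unfold pim
  infer_instance

private theorem Site_eval {ν : Measure (E N)} [IsProbabilityMeasure ν] {φ : E N → ℝ≥0∞}
    (hφ : Measurable φ) (x : ι) : ∫⁻ ξ, φ (ξ x) ∂(pim ι ν) = ∫⁻ ξ, φ ξ ∂ν := by
  unfold pim
  exact (measurePreserving_eval (fun _ : ι => ν) x).lintegral_comp hφ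

omit [Fintype ι] in
private theorem Site_app (x : ι) : Measurable (fun G : ι → E N => G x) := measurable_pi_apply x

private theorem Site_stp (net : Net ι d) {β h : ℝ} (hβ : 0 < β) (hh : 0 ≤ h) (k : ℝ) :
    Measurable (fun q : (ι → E N) × (ι → E N) => stp net β h k q.1 q.2) := by
  apply measurable_pi_iff.mpr
  intro x
  have m1 : Measurable (fun q : (ι → E N) × (ι → E N) => q.1 x) := (Site_app x).comp measurable_fst
  have m2 : Measurable (fun q : (ι → E N) × (ι → E N) => q.2 x) := (Site_app x).comp measurable_snd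
  have m3 : Measurable (fun q : (ι → E N) × (ι → E N) => (q.1 x, q.2 x)) := m1.prodMk m2
  have h1 : Measurable (fun q : (ι → E N) × (ι → E N) => hat β h (q.1 x) (q.2 x)) :=
    Measurable.comp (g := fun q : E N × E N => hat β h q.1 q.2)
      (f := fun q : (ι → E N) × (ι → E N) => (q.1 x, q.2 x)) (measurable_hat hβ hh) m3
  have h2 : Measurable (fun q : (ι → E N) × (ι → E N) => (k * h) • coup net q.1 x) := by
    have h3 : Continuous (fun q : (ι → E N) × (ι → E N) => (k * h) • coup net q.1 x) := by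
      unfold coup
      fun_prop
    exact h3.measurable
  exact h1.add h2

private theorem Site_one (net : Net ι d) {β h : ℝ} (hβ : 0 < β) (hh : 0 ≤ h) {ν : Measure (E N)}
    [IsProbabilityMeasure ν] (x : ι) (ψ : E N → ℝ≥0∞) (hψ : Measurable ψ) (y : ι → E N) :
    ∫⁻ ξ, ψ (stp net β h 0 y ξ x) ∂(pim ι ν) = ∫⁻ ξ, ψ (hat β h (y x) ξ) ∂ν := by
  have h1 : ∀ ξ : ι → E N, ψ (stp net β h 0 y ξ x) = ψ (hat β h (y x) (ξ x)) := by
    intro ξ
    rw [Site_coord]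
  rw [lintegral_congr h1]
  have h2 : Measurable (fun v : E N => hat β h (y x) v) :=
    Measurable.comp (g := fun q : E N × E N => hat β h q.1 q.2) (f := fun v : E N => (y x, v))
      (measurable_hat hβ hh) (measurable_const.prodMk measurable_id)
  exact Site_eval (φ := fun v => ψ (hat β h (y x) v)) (hψ.comp h2) x

theorem site_ev (net : Net ι d) {β h : ℝ} (hβ : 0 < β) (hh : 0 ≤ h) {ν : Measure (E N)}
    [IsProbabilityMeasure ν] {φ : E N → ℝ≥0∞} (hφ : Measurable φ) (x : ι) (n : ℕ) (G : ι → E N) :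
    ev (stp net β h 0) (pim ι ν) (fun G => φ (G x)) n G = ev (hat β h) ν φ n (G x) := by
  have key := ev_twine (X := E N) (Ξ := E N) (Y := ι → E N) (Ξ' := ι → E N) (F := stp net β h 0)
    (μ' := pim ι ν) (f := hat β h) (μ := ν) (fun G : ι → E N => G x) (measurable_hat hβ hh)
    (fun ψ hψ y => Site_one net hβ hh x ψ hψ y) (φ := φ) hφ n G
  exact key

theorem site_marg (net : Net ι d) {β h : ℝ} (hβ : 0 < β) (hh : 0 ≤ h) {ν : Measure (E N)}
    [IsProbabilityMeasure ν] (ρ : Measure (E N)) [IsProbabilityMeasure ρ] {φ : E N → ℝ≥0∞}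
    (hφ : Measurable φ) (x : ι) (n : ℕ) :
    ∫⁻ G, φ (G x) ∂(chainLaw net β h 0 ν (Measure.pi (fun _ => ρ)) n) =
      ∫⁻ g, φ g ∂(law (hat β h) ν ρ n) := by
  have hp : IsProbabilityMeasure (pim ι ν) := Site_pim
  have h1 : ∫⁻ G, φ (G x) ∂(law (stp net β h 0) (pim ι ν) (Measure.pi (fun _ : ι => ρ)) n) =
      ∫⁻ G, ev (stp net β h 0) (pim ι ν) (fun G => φ (G x)) n G ∂(Measure.pi (fun _ : ι => ρ)) :=
    law_ev (f := stp net β h 0) (μ := pim ι ν) (Site_stp net hβ hh 0) (Measure.pi (fun _ : ι => ρ))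
      (φ := fun G : ι → E N => φ (G x)) (hφ.comp (Site_app x)) n
  have h2 : ∫⁻ g, φ g ∂(law (hat β h) ν ρ n) = ∫⁻ g, ev (hat β h) ν φ n g ∂ρ :=
    law_ev (f := hat β h) (μ := ν) (measurable_hat hβ hh) ρ hφ n
  have h3 : ∫⁻ G, ev (stp net β h 0) (pim ι ν) (fun G => φ (G x)) n G ∂(Measure.pi (fun _ : ι => ρ)) =
      ∫⁻ G, ev (hat β h) ν φ n (G x) ∂(Measure.pi (fun _ : ι => ρ)) :=
    lintegral_congr (fun G => site_ev net hβ hh hφ x n G)
  have h4 : ∫⁻ G, ev (hat β h) ν φ n (G x) ∂(pim ι ρ) = ∫⁻ g, ev (hat β h) ν φ n g ∂ρ :=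
    Site_eval (φ := ev (hat β h) ν φ n) (ev_meas (measurable_hat hβ hh) hφ n) x
  rw [chainLaw_law, h1, h3, h2]
  exact h4

private theorem Site_two (net : Net ι d) {β h : ℝ} (hβ : 0 < β) (hh : 0 ≤ h) {ν : Measure (E N)}
    [IsProbabilityMeasure ν] (x : ι) (ψ : E N × E N → ℝ≥0∞) (hψ : Measurable ψ)
    (y : (ι → E N) × (ι → E N)) :
    ∫⁻ ξ, ψ ((stp2 net β h 0 y ξ).1 x, (stp2 net β h 0 y ξ).2 x) ∂(pim ι ν) =
      ∫⁻ ξ, ψ (hat2 β h (y.1 x, y.2 x) ξ) ∂ν := by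
  have h1 : ∀ ξ : ι → E N, ψ ((stp2 net β h 0 y ξ).1 x, (stp2 net β h 0 y ξ).2 x) =
      ψ (hat2 β h (y.1 x, y.2 x) (ξ x)) := by
    intro ξ
    have a1 : (stp2 net β h 0 y ξ).1 x = hat β h (y.1 x) (ξ x) := Site_coord net β h y.1 ξ x
    have a2 : (stp2 net β h 0 y ξ).2 x =
        hat β h (y.2 x) (rotQ (uni (y.1 x)) (uni (y.2 x)) (ξ x)) :=
      Site_coord net β h y.2 (rotN y.1 y.2 ξ) x
    rw [a1, a2]
    rfl
  rw [lintegral_congr h1]
  have h2 : Measurable (fun v : E N => hat2 β h (y.1 x, y.2 x) v) :=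
    Measurable.comp (g := fun q : (E N × E N) × E N => hat2 β h q.1 q.2)
      (f := fun v : E N => ((y.1 x, y.2 x), v))
      (measurable_hat2 hβ hh) (measurable_const.prodMk measurable_id)
  exact Site_eval (φ := fun v => ψ (hat2 β h (y.1 x, y.2 x) v)) (hψ.comp h2) x

theorem site_pair (net : Net ι d) {β h : ℝ} (hβ : 0 < β) (hh : 0 ≤ h) {ν : Measure (E N)}
    [IsProbabilityMeasure ν] {φ : E N × E N → ℝ≥0∞} (hφ : Measurable φ) (x : ι) (n : ℕ)
    (G G' : ι → E N) :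
    ev (stp2 net β h 0) (pim ι ν) (fun p => φ (p.1 x, p.2 x)) n (G, G') =
      ev (hat2 β h) ν φ n (G x, G' x) := by
  have key := ev_twine (X := E N × E N) (Ξ := E N) (Y := (ι → E N) × (ι → E N)) (Ξ' := ι → E N)
    (F := stp2 net β h 0) (μ' := pim ι ν) (f := hat2 β h) (μ := ν)
    (fun p : (ι → E N) × (ι → E N) => (p.1 x, p.2 x)) (measurable_hat2 hβ hh)
    (fun ψ hψ y => Site_two net hβ hh x ψ hψ y) (φ := φ) hφ n (G, G')
  exact key

theorem hat2_ev_fst {β h : ℝ} (hβ : 0 < β) (hh : 0 ≤ h) {ν : Measure (E N)}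
    [IsProbabilityMeasure ν] {φ : E N → ℝ≥0∞} (hφ : Measurable φ) (n : ℕ) (q : E N × E N) :
    ev (hat2 β h) ν (fun q => φ q.1) n q = ev (hat β h) ν φ n q.1 := by
  have key := ev_twine (X := E N) (Ξ := E N) (Y := E N × E N) (Ξ' := E N) (F := hat2 β h) (μ' := ν)
    (f := hat β h) (μ := ν) (fun q : E N × E N => q.1) (measurable_hat hβ hh)
    (fun _ _ _ => rfl) (φ := φ) hφ n q
  exact key

theorem hat2_ev_snd {β h : ℝ} (hβ : 0 < β) (hh : 0 ≤ h) {ν : Measure (E N)}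
    [IsProbabilityMeasure ν] (hiso : ∀ L : E N ≃ₗᵢ[ℝ] E N, ν.map L = ν)
    {φ : E N → ℝ≥0∞} (hφ : Measurable φ) (n : ℕ) (q : E N × E N) :
    ev (hat2 β h) ν (fun q => φ q.2) n q = ev (hat β h) ν φ n q.2 := by
  have key := ev_twine (X := E N) (Ξ := E N) (Y := E N × E N) (Ξ' := E N) (F := hat2 β h) (μ' := ν)
    (f := hat β h) (μ := ν) (fun q : E N × E N => q.2) (measurable_hat hβ hh)
    (fun _ hψ y => hat2_snd hβ hh hiso y hψ) (φ := φ) hφ n q
  exact key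

end DynS

end

/-! ### from `Lib_MP_36b788s.Zpow` -/

section

/-!
# ZPOW: power moments of `ζ = ‖e + √h ξ‖`, elementary facts on one step of a site

PROOF.
* `noise_ae`: `IsNoise.bdd` and `h^{3/8} ≤ 1/10` (`LogZ_ell`); triangle inequality, for all unit `e` at once.
* `zeta_pow`: `taylor_t` with `F t = (1+t)^{q/2}-1` (on `t ≤ -1` any value), `a = q/2`, `b = q(q-2)/8`: `aN+4b = (q/2)(N+q-2)`; `ζ^q = (ζ²)^{q/2}`.
  Remainder: `|F t - at - bt²| ≤ K|t|³` for `|t| ≤ 1/2`, `K = |(q/2)(q/2-1)(q/2-2)|2^{|q/2-3|}` (Taylor with third derivative `(q/2)(q/2-1)(q/2-2)(1+t)^{q/2-3}`,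
  `(1+t)^s ≤ 2^{|s|}` for `1/2 ≤ 1+t ≤ 3/2`; three times `F - at - bt²` has vanishing derivatives at `0` of order `0,1,2`: integrate/mean value theorem three
  times).
* `zeta_pow_int`: bounded a.e. and measurable.
* `zeta_iso`: isotropy: `L = rotQ e e'`, `‖e'+√hLξ‖ = ‖L(e+√hξ)‖ = ‖e+√hξ‖`, `ν.map L = ν`.
* `hat_step`: `norm_hat` (`hat β h g ξ` with `g = ‖g‖ uni g`), `psi_eq`, `psi_pos`: `t(1+ht^β) = v`.
* `hat_uni`: `hat g ξ = J(‖g‖v) = (psi(‖g‖‖v‖)/(‖g‖‖v‖))‖g‖v`, positive multiple of `v = uni g+√hξ`.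
* `hat_inv`: if `ht^β > 1` (`t = ‖hat‖`) then `2t < t(1+ht^β) = ‖g‖ζ ≤ 1.1‖g‖`, `t < ‖g‖`, `ht^β ≤ h‖g‖^β ≤ 1`, contradiction.
* `hat_half`: `t(1+ht^β) ≤ 2t`.
-/

open MeasureTheory ProbabilityTheory Dyn
open scoped ENNReal

namespace DynS

variable {N : ℕ}

theorem noise_ae {h : ℝ} (hh : 0 < h) (hh1 : h < 1 / 1000) {ν : Measure (E N)}
    (hν : IsNoise h ν) : ∀ᵐ ξ ∂ν, Real.sqrt h * ‖ξ‖ ≤ 1 / 10 ∧ ∀ e : E N, ‖e‖ = 1 →
      9 / 10 ≤ ‖e + Real.sqrt h • ξ‖ ∧ ‖e + Real.sqrt h • ξ‖ ≤ 11 / 10 := by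
  obtain ⟨-, hl1, -, -, -⟩ := LogZ_ell hh hh1
  filter_upwards [hν.bdd] with ξ hξ
  refine ⟨hξ.trans hl1, fun e he => ?_⟩
  have h2 := abs_norm_sub_norm_le (e + Real.sqrt h • ξ) e
  rw [he, add_sub_cancel_left, norm_smul, Real.norm_eq_abs, abs_of_nonneg (Real.sqrt_nonneg h)]
    at h2
  have h3 := abs_le.1 (h2.trans (hξ.trans hl1))
  constructor
  · linarith [h3.1]
  · linarith [h3.2]

/-- powers of numbers between `1/2` and `3/2` -/
private theorem Zpow_rpow_le {u : ℝ} (h1 : 1 / 2 ≤ u) (h2 : u ≤ 3 / 2) (r : ℝ) :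
    u ^ r ≤ 2 ^ |r| := by
  have hu : 0 < u := by linarith
  have hlog : |Real.log u| ≤ Real.log 2 := by
    rw [abs_le]
    constructor
    · have := Real.log_le_log (by norm_num : (0 : ℝ) < 1 / 2) h1
      rw [one_div, Real.log_inv] at this
      exact this
    · exact Real.log_le_log hu (by linarith)
  rw [Real.rpow_def_of_pos hu, Real.rpow_def_of_pos (by norm_num : (0 : ℝ) < 2)]
  apply Real.exp_le_exp.2
  calc Real.log u * r ≤ |Real.log u * r| := le_abs_self _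
    _ = |Real.log u| * |r| := abs_mul _ _
    _ ≤ Real.log 2 * |r| := mul_le_mul_of_nonneg_right hlog (abs_nonneg r)

/-- one step of the Taylor estimate -/
private theorem Zpow_mv {g g' : ℝ → ℝ} {K : ℝ} {n : ℕ} (hK : 0 ≤ K) (h0 : g 0 = 0)
    (hd : ∀ x : ℝ, |x| ≤ 1 / 2 → HasDerivAt g (g' x) x)
    (hb : ∀ x : ℝ, |x| ≤ 1 / 2 → |g' x| ≤ K * |x| ^ n) :
    ∀ x : ℝ, |x| ≤ 1 / 2 → |g x| ≤ K * |x| ^ (n + 1) := by
  intro x hx
  have key := Convex.norm_image_sub_le_of_norm_hasDerivWithin_le (f := g) (f' := g')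
    (s := Set.Icc (-|x|) |x|) (C := K * |x| ^ n) (x := 0) (y := x)
    (fun y hy => (hd y ((abs_le.2 hy).trans hx)).hasDerivWithinAt)
    (fun y hy => by
      rw [Real.norm_eq_abs]
      refine (hb y ((abs_le.2 hy).trans hx)).trans ?_
      exact mul_le_mul_of_nonneg_left (pow_le_pow_left₀ (abs_nonneg y) (abs_le.2 hy) n) hK)
    (convex_Icc _ _) ⟨by linarith [abs_nonneg x], abs_nonneg x⟩
    ⟨neg_abs_le x, le_abs_self x⟩
  rw [h0, sub_zero, sub_zero, Real.norm_eq_abs, Real.norm_eq_abs] at key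
  rw [pow_succ, ← mul_assoc]
  exact key

/-- second order expansion of a power -/
private theorem Zpow_taylor (s : ℝ) : ∃ K : ℝ, 0 ≤ K ∧ ∀ t : ℝ, |t| ≤ 1 / 2 →
    |(1 + t) ^ s - 1 - s * t - s * (s - 1) / 2 * t ^ 2| ≤ K * |t| ^ 3 := by
  refine ⟨|s * (s - 1) * (s - 2)| * 2 ^ |s - 3|, by positivity, ?_⟩
  set K : ℝ := |s * (s - 1) * (s - 2)| * 2 ^ |s - 3| with hKdef
  have hK : 0 ≤ K := by positivity
  have hder : ∀ (r : ℝ) (x : ℝ), |x| ≤ 1 / 2 →
      HasDerivAt (fun t : ℝ => (1 + t) ^ r) (r * (1 + x) ^ (r - 1)) x := by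
    intro r x hx
    have hx1 := (abs_le.1 hx).1
    have h1 : HasDerivAt (fun t : ℝ => 1 + t) 1 x := (hasDerivAt_id x).const_add 1
    have h2 := h1.rpow_const (p := r) (Or.inl (by linarith : (1 + x : ℝ) ≠ 0) )
    refine h2.congr_deriv ?_
    ring
  have s3 : ∀ x : ℝ, |x| ≤ 1 / 2 → |s * (s - 1) * ((s - 2) * (1 + x) ^ (s - 2 - 1))| ≤
      K * |x| ^ 0 := by
    intro x hx
    have hx1 := abs_le.1 hx
    have hp : 0 < 1 + x := by linarith [hx1.1]
    have e1 : s * (s - 1) * ((s - 2) * (1 + x) ^ (s - 2 - 1)) =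
        (s * (s - 1) * (s - 2)) * (1 + x) ^ (s - 3) := by
      rw [show s - 2 - 1 = s - 3 by ring]
      ring
    rw [e1, abs_mul, abs_of_pos (Real.rpow_pos_of_pos hp _), pow_zero, mul_one, hKdef]
    exact mul_le_mul_of_nonneg_left (Zpow_rpow_le (by linarith [hx1.1]) (by linarith [hx1.2]) _)
      (abs_nonneg _)
  have s2 : ∀ x : ℝ, |x| ≤ 1 / 2 → |s * (s - 1) * ((1 + x) ^ (s - 2) - 1)| ≤ K * |x| ^ 1 := by
    refine Zpow_mv (g := fun x => s * (s - 1) * ((1 + x) ^ (s - 2) - 1)) hK ?_ ?_ s3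
    · simp
    · intro x hx
      exact ((hder (s - 2) x hx).sub_const 1).const_mul (s * (s - 1))
  have s1 : ∀ x : ℝ, |x| ≤ 1 / 2 →
      |s * ((1 + x) ^ (s - 1) - 1 - (s - 1) * x)| ≤ K * |x| ^ 2 := by
    refine Zpow_mv (g := fun x => s * ((1 + x) ^ (s - 1) - 1 - (s - 1) * x)) hK ?_ ?_ s2
    · simp
    · intro x hx
      have h1 := (((hder (s - 1) x hx).sub_const 1).sub
        ((hasDerivAt_id x).const_mul (s - 1))).const_mul s
      refine h1.congr_deriv ?_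
      rw [show s - 1 - 1 = s - 2 by ring]
      ring
  refine Zpow_mv (g := fun t => (1 + t) ^ s - 1 - s * t - s * (s - 1) / 2 * t ^ 2) hK ?_ ?_ s1
  · simp
  · intro x hx
    have h1 := ((((hder s x hx).sub_const 1).sub ((hasDerivAt_id x).const_mul s))).sub
      (((hasDerivAt_id x).pow 2).const_mul (s * (s - 1) / 2))
    refine h1.congr_deriv ?_
    simp only [id]
    ring

private theorem Zpow_int {h : ℝ} (hh : 0 < h) (hh1 : h < 1 / 1000) {ν : Measure (E N)}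
    (hν : IsNoise h ν) (q : ℝ) {e : E N} (he : ‖e‖ = 1) :
    Integrable (fun ξ => ‖e + Real.sqrt h • ξ‖ ^ q) ν := by
  have := hν.prob
  have hc : Continuous fun ξ : E N => ‖e + Real.sqrt h • ξ‖ := by fun_prop
  refine Integrable.of_bound (hc.measurable.pow_const q).aestronglyMeasurable (2 ^ |q|) ?_
  filter_upwards [noise_ae hh hh1 hν] with ξ hξ
  obtain ⟨h1, h2⟩ := hξ.2 e he
  rw [Real.norm_eq_abs, abs_of_nonneg (Real.rpow_nonneg (norm_nonneg _) _)]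
  exact Zpow_rpow_le (by linarith) (by linarith) q

theorem zeta_pow (N : ℕ) (hN : 1 ≤ N) (q : ℝ) :
    ∃ C h0 : ℝ, 0 < C ∧ 0 < h0 ∧ ∀ (h : ℝ) (ν : Measure (E N)), 0 < h → h < h0 → IsNoise h ν →
      ∀ e : E N, ‖e‖ = 1 →
        |∫ ξ, ‖e + Real.sqrt h • ξ‖ ^ q ∂ν - 1 - q / 2 * (N + q - 2) * h| ≤
          C * h ^ (9 / 8 : ℝ) := by
  obtain ⟨K, hK, hT⟩ := Zpow_taylor (q / 2)
  obtain ⟨C, h0, hC, hh0, key⟩ := taylor_t N hN (q / 2) (q / 2 * (q / 2 - 1) / 2) K hK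
  refine ⟨C, min h0 (1 / 1000), hC, lt_min hh0 (by norm_num), ?_⟩
  intro h ν hh hhlt hν e he
  have hp := hν.prob
  have hm : Measurable fun t : ℝ => (1 + t) ^ (q / 2) - 1 :=
    ((measurable_const.add measurable_id).pow_const _).sub measurable_const
  have h1 := key h ν hh (hhlt.trans_le (min_le_left _ _)) hν e he
    (fun t => (1 + t) ^ (q / 2) - 1) hm (fun t ht => hT t ht)
  have e1 : ∫ ξ, (fun t : ℝ => (1 + t) ^ (q / 2) - 1) (‖e + Real.sqrt h • ξ‖ ^ 2 - 1) ∂ν =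
      ∫ ξ, ‖e + Real.sqrt h • ξ‖ ^ q ∂ν - 1 := by
    have e2 : ∀ ξ : E N, (fun t : ℝ => (1 + t) ^ (q / 2) - 1) (‖e + Real.sqrt h • ξ‖ ^ 2 - 1) =
        ‖e + Real.sqrt h • ξ‖ ^ q - 1 := by
      intro ξ
      simp only
      have hz : (0 : ℝ) ≤ ‖e + Real.sqrt h • ξ‖ := norm_nonneg _
      rw [show (1 : ℝ) + (‖e + Real.sqrt h • ξ‖ ^ 2 - 1) = ‖e + Real.sqrt h • ξ‖ ^ (2 : ℝ) by
        rw [Real.rpow_two]; ring, ← Real.rpow_mul hz]
      congr 2
      ring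
    rw [integral_congr_ae (Filter.Eventually.of_forall e2),
      integral_sub (Zpow_int hh (hhlt.trans_le (min_le_right _ _)) hν q he)
        (integrable_const _), integral_const, probReal_univ, one_smul]
  rw [e1] at h1
  refine le_trans (le_of_eq ?_) h1
  congr 1
  ring

theorem zeta_pow_int {h : ℝ} (hh : 0 < h) (hh1 : h < 1 / 1000) {ν : Measure (E N)}
    (hν : IsNoise h ν) (q : ℝ) {e : E N} (he : ‖e‖ = 1) :
    Integrable (fun ξ => ‖e + Real.sqrt h • ξ‖ ^ q) ν :=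
  Zpow_int hh hh1 hν q he

theorem zeta_iso {h : ℝ} {ν : Measure (E N)} (hν : IsNoise h ν) {e e' : E N} (he : ‖e‖ = 1)
    (he' : ‖e'‖ = 1) {φ : ℝ → ℝ≥0∞} (hφ : Measurable φ) :
    ∫⁻ ξ, φ ‖e' + Real.sqrt h • ξ‖ ∂ν = ∫⁻ ξ, φ ‖e + Real.sqrt h • ξ‖ ∂ν := by
  have hc : Continuous fun ξ : E N => ‖e' + Real.sqrt h • ξ‖ := by fun_prop
  have hm : Measurable fun ξ : E N => φ ‖e' + Real.sqrt h • ξ‖ := hφ.comp hc.measurable
  conv_lhs => rw [← hν.iso (rotQ e e')]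
  rw [lintegral_map hm (rotQ e e').continuous.measurable]
  refine lintegral_congr fun ξ => ?_
  have h1 : e' + Real.sqrt h • rotQ e e' ξ = rotQ e e' (e + Real.sqrt h • ξ) := by
    rw [map_add, map_smul, rotQ_map he he']
  rw [h1, LinearIsometryEquiv.norm_map]

private theorem Zpow_polar {g : E N} (hg : g ≠ 0) : ‖g‖ • uni g = g := by
  have hg0 : ‖g‖ ≠ 0 := norm_ne_zero_iff.2 hg
  unfold uni
  rw [smul_smul, mul_one_div, div_self hg0, one_smul]

theorem hat_step {β h : ℝ} (hβ : 0 < β) (hh : 0 ≤ h) {g : E N} (hg : g ≠ 0) {ξ : E N}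
    (hζ : 0 < ‖uni g + Real.sqrt h • ξ‖) : hat β h g ξ ≠ 0 ∧
      ‖hat β h g ξ‖ * (1 + h * ‖hat β h g ξ‖ ^ β) = ‖g‖ * ‖uni g + Real.sqrt h • ξ‖ := by
  have hg0 : 0 < ‖g‖ := norm_pos_iff.2 hg
  have hv : 0 < ‖g‖ * ‖uni g + Real.sqrt h • ξ‖ := mul_pos hg0 hζ
  have h1 : ‖hat β h g ξ‖ = psi β h (‖g‖ * ‖uni g + Real.sqrt h • ξ‖) := by
    have := norm_hat (N := N) hβ hh (norm_nonneg g) (uni_norm hg) ξ
    rwa [Zpow_polar hg] at this
  have h2 := psi_pos hβ hh hv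
  have h3 := psi_eq hβ hh hv.le
  rw [← h1] at h2 h3
  refine ⟨norm_pos_iff.1 h2, ?_⟩
  rw [Real.rpow_add h2, Real.rpow_one] at h3
  linear_combination h3

theorem hat_uni {β h : ℝ} (hβ : 0 < β) (hh : 0 ≤ h) {g : E N} (hg : g ≠ 0) {ξ : E N}
    (hζ : 0 < ‖uni g + Real.sqrt h • ξ‖) :
    uni (hat β h g ξ) = uni (uni g + Real.sqrt h • ξ) := by
  have hg0 : 0 < ‖g‖ := norm_pos_iff.2 hg
  have hv : 0 < ‖g‖ * ‖uni g + Real.sqrt h • ξ‖ := mul_pos hg0 hζ
  have h1 := hat_polar (N := N) hβ hh (norm_nonneg g) (uni_norm hg) ξ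
  rw [Zpow_polar hg] at h1
  have hc : 0 < psi β h (‖g‖ * ‖uni g + Real.sqrt h • ξ‖) / ‖uni g + Real.sqrt h • ξ‖ :=
    div_pos (psi_pos hβ hh hv) hζ
  rw [h1]
  generalize psi β h (‖g‖ * ‖uni g + Real.sqrt h • ξ‖) / ‖uni g + Real.sqrt h • ξ‖ = c at hc
  unfold uni at hζ ⊢
  generalize (1 / ‖g‖) • g + Real.sqrt h • ξ = w at hζ ⊢
  rw [norm_smul, Real.norm_eq_abs, abs_of_pos hc, smul_smul]
  congr 1
  field_simp

theorem hat_inv {β h : ℝ} (hβ : 0 < β) (hh : 0 < h) {g : E N} (hg : g ≠ 0) {ξ : E N}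
    (hζ : 0 < ‖uni g + Real.sqrt h • ξ‖) (hζ1 : ‖uni g + Real.sqrt h • ξ‖ ≤ 11 / 10)
    (hs : h * ‖g‖ ^ β ≤ 1) : h * ‖hat β h g ξ‖ ^ β ≤ 1 := by
  obtain ⟨-, h2⟩ := hat_step hβ hh.le hg hζ
  by_contra hcon
  rw [not_le] at hcon
  have ht : 0 ≤ ‖hat β h g ξ‖ := norm_nonneg _
  have hg0 : 0 < ‖g‖ := norm_pos_iff.2 hg
  have h3 : 2 * ‖hat β h g ξ‖ ≤ ‖g‖ * ‖uni g + Real.sqrt h • ξ‖ := by
    rw [← h2]
    nlinarith
  have h4 : ‖g‖ * ‖uni g + Real.sqrt h • ξ‖ ≤ ‖g‖ * (11 / 10) :=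
    mul_le_mul_of_nonneg_left hζ1 hg0.le
  have h5 : ‖hat β h g ξ‖ ≤ ‖g‖ := by linarith
  have h6 : h * ‖hat β h g ξ‖ ^ β ≤ h * ‖g‖ ^ β :=
    mul_le_mul_of_nonneg_left (Real.rpow_le_rpow ht h5 hβ.le) hh.le
  linarith

theorem hat_half {β h : ℝ} (hβ : 0 < β) (hh : 0 < h) {g : E N} (hg : g ≠ 0) {ξ : E N}
    (hζ : 0 < ‖uni g + Real.sqrt h • ξ‖) (hζ1 : ‖uni g + Real.sqrt h • ξ‖ ≤ 11 / 10)
    (hs : h * ‖g‖ ^ β ≤ 1) :
    ‖g‖ * ‖uni g + Real.sqrt h • ξ‖ / 2 ≤ ‖hat β h g ξ‖ ∧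
      ‖hat β h g ξ‖ ≤ ‖g‖ * ‖uni g + Real.sqrt h • ξ‖ := by
  obtain ⟨-, h2⟩ := hat_step hβ hh.le hg hζ
  have h3 := hat_inv hβ hh hg hζ hζ1 hs
  have ht : 0 ≤ ‖hat β h g ξ‖ := norm_nonneg _
  have h4 : 0 ≤ h * ‖hat β h g ξ‖ ^ β := mul_nonneg hh.le (Real.rpow_nonneg ht _)
  constructor
  · rw [← h2]
    nlinarith
  · rw [← h2]
    nlinarith

end DynS

end

/-! ### from `Lib_MP_36b788s.MomA` -/

section

/-!
# MOM, part A: second moment of a site, uniformly in time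

PROOF. `K0 > 0` with `K0^β = N+1`. For `y = psi β h v ≥ 0` (`v ≥ 0`, `y+hy^{1+β} = v`), `h(N+1) ≤ 1/2`: `y² ≤ (1-hK0^β)v²+hK0^{β+2}`.
If `y ≤ K0`: `y² = (1-hK0^β)y²+hK0^βy² ≤ (1-hK0^β)v²+hK0^{β+2}`. If `y > K0`: `v = y(1+hy^β) ≥ y(1+x)`, `x = hK0^β ≤ 1/2`, `y² ≤ v²/(1+x)² ≤ (1-x)v²` as
`(1+x)²(1-x) = 1+x-x²-x³ ≥ 1`.
`v = ‖g+√h‖g‖ξ‖`, `E v² = ‖g‖²(1+hE‖ξ‖²) ≤ ‖g‖²(1+Nh)` (`noise_mean`; `IsNoise.mom_le`). `(1-h(N+1))(1+Nh) ≤ 1-h`. So
`E‖hat g ξ‖² ≤ (1-h)‖g‖²+hK`, `K = K0^{β+2}`. (`g = 0`: both zero.)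
`mom_ev`: `ev_drift_add` with `φ = ofReal‖·‖²`, `a = h`.
-/

open MeasureTheory ProbabilityTheory Dyn
open scoped ENNReal

namespace DynS

private theorem MomA_scalar {β h c K0 v : ℝ} (hβ : 0 < β) (hh : 0 < h) (hc : 0 < c)
    (hK0 : 0 < K0) (hKc : K0 ^ β = c) (hx : h * c ≤ 1 / 2) (hv : 0 ≤ v) :
    psi β h v ^ 2 ≤ (1 - h * c) * v ^ 2 + h * (c * K0 ^ 2) := by
  have hy := psi_nonneg β h v
  have hyv := psi_le hβ hh.le hv
  have heq := psi_eq hβ hh.le hv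
  set y := psi β h v with hydef
  have hx0 : 0 < h * c := mul_pos hh hc
  rcases le_or_gt y K0 with h1 | h1
  · have h2 : y ^ 2 ≤ v ^ 2 := by gcongr
    have h3 : y ^ 2 ≤ K0 ^ 2 := by gcongr
    have h4 : (1 - h * c) * y ^ 2 ≤ (1 - h * c) * v ^ 2 :=
      mul_le_mul_of_nonneg_left h2 (by linarith)
    have h5 : h * c * y ^ 2 ≤ h * c * K0 ^ 2 := mul_le_mul_of_nonneg_left h3 hx0.le
    nlinarith only [h4, h5]
  · have hy0 : 0 < y := hK0.trans h1
    have h2 : c ≤ y ^ β := by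
      rw [← hKc]
      exact Real.rpow_le_rpow hK0.le h1.le hβ.le
    have h3 : y ^ (1 + β) = y * y ^ β := by rw [Real.rpow_add hy0, Real.rpow_one]
    have h4 : y * (1 + h * c) ≤ v := by
      rw [← heq, h3]
      have := mul_le_mul_of_nonneg_left h2 (mul_nonneg hh.le hy0.le)
      nlinarith only [this]
    have h5 : (y * (1 + h * c)) ^ 2 ≤ v ^ 2 := by
      have : 0 ≤ y * (1 + h * c) := by positivity
      gcongr
    have h6 : (1 - h * c) * (y * (1 + h * c)) ^ 2 ≤ (1 - h * c) * v ^ 2 :=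
      mul_le_mul_of_nonneg_left h5 (by linarith)
    have h7 : y ^ 2 ≤ (1 - h * c) * (y * (1 + h * c)) ^ 2 := by
      have h8 : (1 : ℝ) ≤ (1 - h * c) * (1 + h * c) ^ 2 := by
        nlinarith only [hx0, hx, mul_pos hx0 hx0, mul_nonneg hx0.le (sub_nonneg.2 hx)]
      calc y ^ 2 = 1 * y ^ 2 := by ring
        _ ≤ ((1 - h * c) * (1 + h * c) ^ 2) * y ^ 2 :=
          mul_le_mul_of_nonneg_right h8 (sq_nonneg y)
        _ = (1 - h * c) * (y * (1 + h * c)) ^ 2 := by ring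
    have h9 : 0 ≤ h * (c * K0 ^ 2) := by positivity
    linarith

private theorem MomA_int {N : ℕ} {h : ℝ} {ν : Measure (E N)} (hh : 0 < h) (hν : IsNoise h ν)
    {f : E N → ℝ} (hf : Continuous f) : Integrable f ν := by
  have := hν.prob
  obtain ⟨C, hC⟩ := (isCompact_closedBall (0 : E N)
    (h ^ (3 / 8 : ℝ) / Real.sqrt h)).exists_bound_of_continuousOn hf.continuousOn
  refine Integrable.of_bound hf.aestronglyMeasurable C ?_
  filter_upwards [hν.bdd] with ξ hξ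
  refine hC ξ ?_
  rw [mem_closedBall_zero_iff, le_div_iff₀ (Real.sqrt_pos.mpr hh), mul_comm]
  exact hξ

theorem mom_step {N : ℕ} (hN : 1 ≤ N) {β : ℝ} (hβ : 0 < β) : ∃ K h0 : ℝ, 0 < K ∧ 0 < h0 ∧
    h0 ≤ 1 / 1000 ∧ ∀ (h : ℝ) (ν : Measure (E N)), 0 < h → h < h0 → IsNoise h ν → ∀ g : E N,
      ∫⁻ ξ, ENNReal.ofReal (‖hat β h g ξ‖ ^ 2) ∂ν ≤
        ENNReal.ofReal (1 - h) * ENNReal.ofReal (‖g‖ ^ 2) + ENNReal.ofReal (h * K) := by
  have hc : (0 : ℝ) < (N : ℝ) + 1 := by positivity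
  set c : ℝ := (N : ℝ) + 1 with hcdef
  set K0 : ℝ := c ^ (1 / β) with hK0def
  have hK0 : 0 < K0 := Real.rpow_pos_of_pos hc _
  have hKc : K0 ^ β = c := by
    rw [hK0def, ← Real.rpow_mul hc.le, one_div_mul_cancel hβ.ne', Real.rpow_one]
  refine ⟨c * K0 ^ 2, min (1 / 1000) (1 / (2 * c)), by positivity, by positivity,
    min_le_left _ _, ?_⟩
  intro h ν hh hlt hν g
  have hpr := hν.prob
  have hx : h * c ≤ 1 / 2 := by
    have h1 : h < 1 / (2 * c) := hlt.trans_le (min_le_right _ _)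
    rw [lt_div_iff₀ (by positivity)] at h1
    linarith
  -- the square of the input
  have hsq : ∀ ξ : E N, ‖g + (Real.sqrt h * ‖g‖) • ξ‖ ^ 2 =
      ‖g‖ ^ 2 + 2 * (Real.sqrt h * ‖g‖) * inner ℝ g ξ + h * ‖g‖ ^ 2 * ‖ξ‖ ^ 2 := by
    intro ξ
    rw [norm_add_sq_real, inner_smul_right, norm_smul, Real.norm_eq_abs, mul_pow, sq_abs, mul_pow,
      Real.sq_sqrt hh.le]
    ring
  have hpt : ∀ ξ : E N, ‖hat β h g ξ‖ ^ 2 ≤
      (1 - h * c) * (‖g‖ ^ 2 + 2 * (Real.sqrt h * ‖g‖) * inner ℝ g ξ + h * ‖g‖ ^ 2 * ‖ξ‖ ^ 2)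
        + h * (c * K0 ^ 2) := by
    intro ξ
    rw [hat, norm_J hβ hh.le, ← hsq ξ]
    exact MomA_scalar hβ hh hc hK0 hKc hx (norm_nonneg _)
  have hcont : Continuous (fun ξ : E N => (1 - h * c) * (‖g‖ ^ 2 +
      2 * (Real.sqrt h * ‖g‖) * inner ℝ g ξ + h * ‖g‖ ^ 2 * ‖ξ‖ ^ 2) + h * (c * K0 ^ 2)) := by
    fun_prop
  have hint := MomA_int hh hν hcont
  have hI1 : Integrable (fun ξ : E N => (inner ℝ g ξ : ℝ)) ν :=
    MomA_int hh hν (by fun_prop)
  have hI2 : Integrable (fun ξ : E N => ‖ξ‖ ^ 2) ν := MomA_int hh hν (by fun_prop)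
  have hval : ∫ ξ, ((1 - h * c) * (‖g‖ ^ 2 +
      2 * (Real.sqrt h * ‖g‖) * inner ℝ g ξ + h * ‖g‖ ^ 2 * ‖ξ‖ ^ 2) + h * (c * K0 ^ 2)) ∂ν =
      (1 - h * c) * (‖g‖ ^ 2 + h * ‖g‖ ^ 2 * ∫ ξ, ‖ξ‖ ^ 2 ∂ν) + h * (c * K0 ^ 2) := by
    have e1 : Integrable (fun ξ : E N => ‖g‖ ^ 2 + 2 * (Real.sqrt h * ‖g‖) * inner ℝ g ξ) ν :=
      (integrable_const _).add (hI1.const_mul _)
    have e2 : Integrable (fun ξ : E N => h * ‖g‖ ^ 2 * ‖ξ‖ ^ 2) ν := hI2.const_mul _
    have e3 : Integrable (fun ξ : E N => (1 - h * c) * (‖g‖ ^ 2 +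
      2 * (Real.sqrt h * ‖g‖) * inner ℝ g ξ + h * ‖g‖ ^ 2 * ‖ξ‖ ^ 2)) ν :=
      MomA_int hh hν (by fun_prop)
    rw [integral_add e3 (integrable_const _), integral_const_mul,
      integral_add e1 e2, integral_add (integrable_const _) (hI1.const_mul _),
      integral_const_mul, integral_const_mul, noise_mean hh hν g]
    simp
  have hnn : 0 ≤ ‖g‖ ^ 2 := sq_nonneg _
  have hfin : ∫ ξ, ((1 - h * c) * (‖g‖ ^ 2 +
      2 * (Real.sqrt h * ‖g‖) * inner ℝ g ξ + h * ‖g‖ ^ 2 * ‖ξ‖ ^ 2) + h * (c * K0 ^ 2)) ∂ν ≤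
      (1 - h) * ‖g‖ ^ 2 + h * (c * K0 ^ 2) := by
    rw [hval]
    have h1 := hν.mom_le
    have h2 : h * ‖g‖ ^ 2 * ∫ ξ, ‖ξ‖ ^ 2 ∂ν ≤ h * ‖g‖ ^ 2 * N :=
      mul_le_mul_of_nonneg_left h1 (mul_nonneg hh.le hnn)
    have h3 : (1 - h * c) * (‖g‖ ^ 2 + h * ‖g‖ ^ 2 * ∫ ξ, ‖ξ‖ ^ 2 ∂ν) ≤
        (1 - h * c) * (‖g‖ ^ 2 + h * ‖g‖ ^ 2 * N) :=
      mul_le_mul_of_nonneg_left (by linarith) (by linarith)
    have h4 : (1 - h * c) * (‖g‖ ^ 2 + h * ‖g‖ ^ 2 * N) =
        (1 - h) * ‖g‖ ^ 2 - h * h * (c * N) * ‖g‖ ^ 2 := by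
      rw [hcdef]; ring
    have h5 : 0 ≤ h * h * (c * N) * ‖g‖ ^ 2 := by positivity
    linarith
  have hpos : 0 ≤ᵐ[ν] fun ξ : E N => (1 - h * c) * (‖g‖ ^ 2 +
      2 * (Real.sqrt h * ‖g‖) * inner ℝ g ξ + h * ‖g‖ ^ 2 * ‖ξ‖ ^ 2) + h * (c * K0 ^ 2) :=
    Filter.Eventually.of_forall (fun ξ => (sq_nonneg _).trans (hpt ξ))
  have hh1 : h ≤ 1 := by
    have h1 : h < 1 / 1000 := hlt.trans_le (min_le_left _ _)
    linarith
  calc ∫⁻ ξ, ENNReal.ofReal (‖hat β h g ξ‖ ^ 2) ∂ν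
      ≤ ∫⁻ ξ, ENNReal.ofReal ((1 - h * c) * (‖g‖ ^ 2 +
        2 * (Real.sqrt h * ‖g‖) * inner ℝ g ξ + h * ‖g‖ ^ 2 * ‖ξ‖ ^ 2) + h * (c * K0 ^ 2)) ∂ν :=
        lintegral_mono (fun ξ => ENNReal.ofReal_le_ofReal (hpt ξ))
    _ = ENNReal.ofReal (∫ ξ, ((1 - h * c) * (‖g‖ ^ 2 +
        2 * (Real.sqrt h * ‖g‖) * inner ℝ g ξ + h * ‖g‖ ^ 2 * ‖ξ‖ ^ 2) + h * (c * K0 ^ 2)) ∂ν) :=
        (ofReal_integral_eq_lintegral_ofReal hint hpos).symm
    _ ≤ ENNReal.ofReal ((1 - h) * ‖g‖ ^ 2 + h * (c * K0 ^ 2)) := ENNReal.ofReal_le_ofReal hfin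
    _ = ENNReal.ofReal (1 - h) * ENNReal.ofReal (‖g‖ ^ 2) + ENNReal.ofReal (h * (c * K0 ^ 2)) := by
        rw [ENNReal.ofReal_add (mul_nonneg (by linarith) hnn) (by positivity),
          ENNReal.ofReal_mul (by linarith)]

theorem mom_ev {N : ℕ} (hN : 1 ≤ N) {β : ℝ} (hβ : 0 < β) : ∃ K h0 : ℝ, 0 < K ∧ 0 < h0 ∧
    h0 ≤ 1 / 1000 ∧ ∀ (h : ℝ) (ν : Measure (E N)), 0 < h → h < h0 → IsNoise h ν →
      ∀ (n : ℕ) (g : E N), ev (hat β h) ν (fun g => ENNReal.ofReal (‖g‖ ^ 2)) n g ≤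
        ENNReal.ofReal (‖g‖ ^ 2 + K) := by
  obtain ⟨K, h0, hK, hh0, hle, H⟩ := mom_step hN hβ
  refine ⟨K, h0, hK, hh0, hle, ?_⟩
  intro h ν hh hlt hν n g
  have hpr := hν.prob
  have hh1 : h ≤ 1 := by linarith
  have h1 := ev_drift_add (f := hat β h) (μ := ν) (measurable_hat hβ hh.le) Set.univ
    (fun x _ => Filter.Eventually.of_forall (fun _ => Set.mem_univ _))
    (φ := fun g : E N => ENNReal.ofReal (‖g‖ ^ 2)) (by fun_prop) h K hh.le hh1 hK.le
    (fun x _ => H h ν hh hlt hν x) n g (Set.mem_univ _)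
  refine h1.trans ?_
  rw [ENNReal.ofReal_add (sq_nonneg _) hK.le]
  gcongr
  have h2 : ENNReal.ofReal ((1 - h) ^ n) ≤ 1 := by
    rw [ENNReal.ofReal_le_one]
    exact pow_le_one₀ (by linarith) (by linarith)
  calc ENNReal.ofReal ((1 - h) ^ n) * ENNReal.ofReal (‖g‖ ^ 2)
      ≤ 1 * ENNReal.ofReal (‖g‖ ^ 2) := by gcongr
    _ = ENNReal.ofReal (‖g‖ ^ 2) := one_mul _

end DynS

end

/-! ### from `Lib_MP_36b788s.MomB` -/

section

/-!
# MOM, part B: a site does not come close to zero, `N ≥ 3`, uniformly in time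

PROOF. `γ = min(1/2, 1/(2β))`, `Z = u^{-β}`, `W = (1+Z)^γ`. `a = ζ^{-β}`, `ζ = ‖uni g+√hξ‖`.
* `Z⁺ ≤ aZ+βh` on `hu^β ≤ 1`: `Z⁺-aZ = (h/s)(1-(1+s)^{-β})`, `s = h(u⁺)^β` (`hat_step`, as in `two_step`), `1-(1+s)^{-β} ≤ βs` (Bernoulli
  `(1+s)^{-β} ≥ 1-βs`; `Real.one_add_mul_self_le_rpow_one_add` type inequality or the mean value theorem).
* `W⁺ ≤ (1+aZ+βh)^γ ≤ (1+aZ)^γ+γβh` (`1+aZ ≥ 1`, `γ ≤ 1`).
* `θ = Z/(1+Z) ∈ (0,1)`: `(1+aZ)^γ = (1+Z)^γ(1+θ(a-1))^γ` and, by concavity of `x ↦ x^γ` at `x = a`,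
  `(1+θ(a-1))^γ = (a+(1-θ)(1-a))^γ ≤ a^γ+γ(1-θ)(1-a)a^{γ-1} = a^γ+γ(1-θ)(a^{γ-1}-a^γ)`.
  Expectations (`zeta_pow`): `E a^γ = E ζ^{-βγ} = 1-(βγ/2)(N-2-βγ)h+O(h^{9/8})`, `βγ ≤ 1/2`, `N ≥ 3`: `1-C₁h ≤ E a^γ ≤ 1-c'h`, `c' = βγ/8`; `E a^{γ-1} = E ζ^{β(1-γ)} ≤ 1+C₂h`.
  So `E(1+θ(a-1))^γ ≤ 1-c'h+(1-θ)γ(C₁+C₂)h` and `(1-θ)W = (1+Z)^{γ-1} ≤ 1`: `E W⁺ ≤ (1-c'h)W+Ch`.
* `w_ev`: `ev_drift_add` on `A = {g ≠ 0, h‖g‖^β ≤ 1}` (invariant: `hat_step`, `hat_inv`, `noise_ae`) with `a = c'h`, `K = C/c'`.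
-/

open MeasureTheory ProbabilityTheory Dyn
open scoped ENNReal

namespace DynS

private theorem momb_bern {s β : ℝ} (hs : 0 ≤ s) (hβ : 0 < β) : 1 - β * s ≤ (1 + s) ^ (-β) := by
  have h1 : 0 < 1 + s := by linarith
  rw [Real.rpow_def_of_pos h1]
  have h2 : Real.log (1 + s) ≤ s := by
    have := Real.log_le_sub_one_of_pos h1
    linarith
  have h3 := Real.add_one_le_exp (Real.log (1 + s) * -β)
  nlinarith

/-- `(x+y)^γ ≤ x^γ + γ y` -/
private theorem momb_add {x y γ : ℝ} (hx : 1 ≤ x) (hy : 0 ≤ y) (hγ : 0 ≤ γ) (hγ1 : γ ≤ 1) :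
    (x + y) ^ γ ≤ x ^ γ + γ * y := by
  have hx0 : 0 < x := by linarith
  have h1 : x + y = x * (1 + y / x) := by field_simp
  have h2 : 0 ≤ y / x := by positivity
  have h3 : (1 + y / x) ^ γ ≤ 1 + γ * (y / x) :=
    rpow_one_add_le_one_add_mul_self (by linarith) hγ hγ1
  have h4 : x ^ γ ≤ x := by
    calc x ^ γ ≤ x ^ (1 : ℝ) := Real.rpow_le_rpow_of_exponent_le hx hγ1
      _ = x := Real.rpow_one x
  have h5 : 0 ≤ x ^ γ := by positivity
  rw [h1, Real.mul_rpow hx0.le (by positivity)]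
  calc x ^ γ * (1 + y / x) ^ γ ≤ x ^ γ * (1 + γ * (y / x)) := mul_le_mul_of_nonneg_left h3 h5
    _ = x ^ γ + γ * y * (x ^ γ / x) := by ring
    _ ≤ x ^ γ + γ * y * 1 := by
        have h6 : x ^ γ / x ≤ 1 := by rw [div_le_one hx0]; exact h4
        have h7 : 0 ≤ γ * y := by positivity
        have := mul_le_mul_of_nonneg_left h6 h7
        linarith
    _ = x ^ γ + γ * y := by ring

/-- `(1+aZ)^γ ≤ (1+Z)^γ a^γ + γ (1+Z)^(γ-1) (a^(γ-1) - a^γ)` -/
private theorem momb_conc {a Z γ : ℝ} (ha : 0 < a) (hZ : 0 < Z) (hγ : 0 ≤ γ) (hγ1 : γ ≤ 1) :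
    (1 + a * Z) ^ γ ≤
      (1 + Z) ^ γ * a ^ γ + γ * (1 + Z) ^ (γ - 1) * (a ^ (γ - 1) - a ^ γ) := by
  have hZ1 : 0 < 1 + Z := by linarith
  set s : ℝ := (1 - a) / ((1 + Z) * a) with hs
  have h1 : 1 + a * Z = (1 + Z) * a * (1 + s) := by
    rw [hs]; field_simp; ring
  have h1' : 0 < 1 + s := by
    have h0 : 0 < 1 + a * Z := by positivity
    rw [h1] at h0
    exact (pos_iff_pos_of_mul_pos h0).1 (by positivity)
  have h3 : (1 + s) ^ γ ≤ 1 + γ * s := rpow_one_add_le_one_add_mul_self (by linarith) hγ hγ1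
  have h4 : (1 + Z) ^ (γ - 1) = (1 + Z) ^ γ / (1 + Z) := Real.rpow_sub_one hZ1.ne' γ
  have h5 : a ^ (γ - 1) = a ^ γ / a := Real.rpow_sub_one ha.ne' γ
  rw [h1, Real.mul_rpow (by positivity) h1'.le, Real.mul_rpow hZ1.le ha.le]
  calc (1 + Z) ^ γ * a ^ γ * (1 + s) ^ γ ≤ (1 + Z) ^ γ * a ^ γ * (1 + γ * s) :=
        mul_le_mul_of_nonneg_left h3 (by positivity)
    _ = (1 + Z) ^ γ * a ^ γ + γ * (1 + Z) ^ (γ - 1) * (a ^ (γ - 1) - a ^ γ) := by
        rw [h4, h5, hs]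
        field_simp

/-- one step of `‖g‖^(-β)` -/
private theorem momb_one {N : ℕ} {β h : ℝ} (hβ : 0 < β) (hh : 0 < h) {g : E N} (hg : g ≠ 0)
    {ξ : E N} (hζ : 0 < ‖uni g + Real.sqrt h • ξ‖) :
    ‖hat β h g ξ‖ ^ (-β) ≤ ‖uni g + Real.sqrt h • ξ‖ ^ (-β) * ‖g‖ ^ (-β) + β * h := by
  obtain ⟨h1, h2⟩ := hat_step hβ hh.le hg hζ
  set t := ‖hat β h g ξ‖ with ht
  set z := ‖uni g + Real.sqrt h • ξ‖ with hz
  have ht0 : 0 < t := norm_pos_iff.2 h1
  have hg0 : 0 < ‖g‖ := norm_pos_iff.2 hg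
  have hs0 : 0 ≤ h * t ^ β := by positivity
  have h3 : z ^ (-β) * ‖g‖ ^ (-β) = t ^ (-β) * (1 + h * t ^ β) ^ (-β) := by
    rw [← Real.mul_rpow hζ.le hg0.le, ← Real.mul_rpow ht0.le (by positivity), h2, mul_comm]
  rw [h3]
  have h4 := momb_bern hs0 hβ
  have h5 : t ^ (-β) * t ^ β = 1 := by
    rw [← Real.rpow_add ht0]; simp
  have h6 : 0 ≤ t ^ (-β) := by positivity
  have h7 := mul_le_mul_of_nonneg_left h4 h6
  have h8 : t ^ (-β) * (1 - β * (h * t ^ β)) = t ^ (-β) - β * h := by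
    calc t ^ (-β) * (1 - β * (h * t ^ β)) = t ^ (-β) - β * h * (t ^ (-β) * t ^ β) := by ring
      _ = t ^ (-β) - β * h := by rw [h5, mul_one]
  linarith

/-- one step of the weight -/
private theorem momb_two {N : ℕ} {β h γ : ℝ} (hβ : 0 < β) (hh : 0 < h) (hγ : 0 < γ) (hγ1 : γ ≤ 1)
    {g : E N} (hg : g ≠ 0) {ξ : E N} (hζ : 0 < ‖uni g + Real.sqrt h • ξ‖) :
    (1 + ‖hat β h g ξ‖ ^ (-β)) ^ γ ≤
      (1 + ‖g‖ ^ (-β)) ^ γ * ‖uni g + Real.sqrt h • ξ‖ ^ (-(β * γ)) +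
        γ * (1 + ‖g‖ ^ (-β)) ^ (γ - 1) *
          (‖uni g + Real.sqrt h • ξ‖ ^ (β * (1 - γ)) - ‖uni g + Real.sqrt h • ξ‖ ^ (-(β * γ))) +
        γ * (β * h) := by
  have h1 := momb_one hβ hh hg hζ
  set z := ‖uni g + Real.sqrt h • ξ‖ with hz
  have hg0 : 0 < ‖g‖ := norm_pos_iff.2 hg
  have hZ : 0 < ‖g‖ ^ (-β) := by positivity
  have ha : 0 < z ^ (-β) := by positivity
  have h2 : (z ^ (-β)) ^ γ = z ^ (-(β * γ)) := by
    rw [← Real.rpow_mul hζ.le]; congr 1; ring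
  have h3 : (z ^ (-β)) ^ (γ - 1) = z ^ (β * (1 - γ)) := by
    rw [← Real.rpow_mul hζ.le]; congr 1; ring
  have h4 : 0 ≤ ‖hat β h g ξ‖ ^ (-β) := by positivity
  calc (1 + ‖hat β h g ξ‖ ^ (-β)) ^ γ ≤ (1 + z ^ (-β) * ‖g‖ ^ (-β) + β * h) ^ γ :=
        Real.rpow_le_rpow (by positivity) (by linarith) hγ.le
    _ ≤ (1 + z ^ (-β) * ‖g‖ ^ (-β)) ^ γ + γ * (β * h) :=
        momb_add (by nlinarith only [ha, hZ, mul_pos ha hZ]) (by positivity) hγ.le hγ1
    _ ≤ _ := by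
        have := momb_conc ha hZ hγ.le hγ1
        rw [h2, h3] at this
        linarith

theorem w_step {N : ℕ} (hN : 3 ≤ N) {β : ℝ} (hβ : 0 < β) : ∃ γ c C h0 : ℝ, 0 < γ ∧ γ ≤ 1 / 2 ∧
    0 < c ∧ 0 < C ∧ 0 < h0 ∧ h0 ≤ 1 / 1000 ∧ c * h0 ≤ 1 ∧
    ∀ (h : ℝ) (ν : Measure (E N)), 0 < h → h < h0 → IsNoise h ν → ∀ g : E N, g ≠ 0 →
      h * ‖g‖ ^ β ≤ 1 →
      ∫⁻ ξ, ENNReal.ofReal ((1 + ‖hat β h g ξ‖ ^ (-β)) ^ γ) ∂ν ≤
        ENNReal.ofReal (1 - c * h) * ENNReal.ofReal ((1 + ‖g‖ ^ (-β)) ^ γ) +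
          ENNReal.ofReal (C * h) := by
  obtain ⟨γ, hγ0, hγ2, hβγ⟩ : ∃ γ : ℝ, 0 < γ ∧ γ ≤ 1 / 2 ∧ β * γ ≤ 1 / 2 := by
    refine ⟨min (1 / 2) (1 / (2 * β)), by positivity, min_le_left _ _, ?_⟩
    calc β * min (1 / 2) (1 / (2 * β)) ≤ β * (1 / (2 * β)) :=
          mul_le_mul_of_nonneg_left (min_le_right _ _) hβ.le
      _ = 1 / 2 := by field_simp
  have hN1 : 1 ≤ N := by omega
  have hN3 : (3 : ℝ) ≤ N := by exact_mod_cast hN
  have hβγ0 : 0 < β * γ := by positivity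
  obtain ⟨C1, h1, hC1, hh1, H1⟩ := zeta_pow N hN1 (-(β * γ))
  obtain ⟨C2, h2, hC2, hh2, H2⟩ := zeta_pow N hN1 (β * (1 - γ))
  set b1 : ℝ := β * γ / 2 * (N - 2 - β * γ) with hb1
  set b2 : ℝ := β * (1 - γ) / 2 * (N + β * (1 - γ) - 2) with hb2
  have hb1' : β * γ / 4 ≤ b1 := by
    rw [hb1]
    have : (1 : ℝ) / 2 ≤ N - 2 - β * γ := by linarith
    nlinarith only [hγ0, hγ2, hβγ, hβγ0, hN3]
  have hb1'' : 0 ≤ b1 := by linarith
  set x0 : ℝ := (β * γ / (8 * C1)) ^ 8 with hx0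
  have hx0p : 0 < x0 := by positivity
  refine ⟨γ, β * γ / 8, |b2| + C2 + b1 + C1 + β, min (min h1 h2) (min (1 / 1000) x0), hγ0, hγ2,
    by positivity, by positivity, by positivity, ?_, ?_, ?_⟩
  · exact (min_le_right _ _).trans (min_le_left _ _)
  · have h3 : min (min h1 h2) (min (1 / 1000) x0) ≤ 1 / 1000 :=
      (min_le_right _ _).trans (min_le_left _ _)
    have h4 : 0 < min (min h1 h2) (min (1 / 1000) x0) := by positivity
    nlinarith only [hγ2, h3, hγ0, h4, hβγ]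
  · intro h ν hh hh0 hν g hg _
    have hhh1 : h < h1 := hh0.trans_le ((min_le_left _ _).trans (min_le_left _ _))
    have hhh2 : h < h2 := hh0.trans_le ((min_le_left _ _).trans (min_le_right _ _))
    have hh3 : h < 1 / 1000 := hh0.trans_le ((min_le_right _ _).trans (min_le_left _ _))
    have hh4 : h < x0 := hh0.trans_le ((min_le_right _ _).trans (min_le_right _ _))
    have hprob := hν.prob
    have hg0 : 0 < ‖g‖ := norm_pos_iff.2 hg
    have hu : ‖uni g‖ = 1 := by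
      unfold uni
      rw [norm_smul, norm_div, norm_one, norm_norm]
      field_simp
    have hE1 := H1 h ν hh hhh1 hν (uni g) hu
    have hE2 := H2 h ν hh hhh2 hν (uni g) hu
    have hI1 := zeta_pow_int hh hh3 hν (-(β * γ)) hu
    have hI2 := zeta_pow_int hh hh3 hν (β * (1 - γ)) hu
    set e1 := ∫ ξ, ‖uni g + Real.sqrt h • ξ‖ ^ (-(β * γ)) ∂ν with he1
    set e2 := ∫ ξ, ‖uni g + Real.sqrt h • ξ‖ ^ (β * (1 - γ)) ∂ν with he2
    -- powers of `h`
    have hp1 : h ^ (9 / 8 : ℝ) = h * h ^ (1 / 8 : ℝ) := by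
      rw [show (9 / 8 : ℝ) = 1 + 1 / 8 by norm_num, Real.rpow_add hh, Real.rpow_one]
    have hp2 : h ^ (1 / 8 : ℝ) ≤ 1 := Real.rpow_le_one hh.le (by linarith) (by norm_num)
    have hp3 : C1 * h ^ (1 / 8 : ℝ) ≤ β * γ / 8 := by
      have h5 : h ^ (1 / 8 : ℝ) ≤ x0 ^ (1 / 8 : ℝ) := Real.rpow_le_rpow hh.le hh4.le (by norm_num)
      have h6 : x0 ^ (1 / 8 : ℝ) = β * γ / (8 * C1) := by
        rw [hx0, ← Real.rpow_natCast, ← Real.rpow_mul (by positivity)]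
        norm_num
      rw [h6] at h5
      calc C1 * h ^ (1 / 8 : ℝ) ≤ C1 * (β * γ / (8 * C1)) := mul_le_mul_of_nonneg_left h5 hC1.le
        _ = β * γ / 8 := by field_simp
    have hp4 : 0 ≤ h ^ (1 / 8 : ℝ) := by positivity
    rw [abs_le] at hE1 hE2
    have hq1 : -(β * γ) / 2 * (N + -(β * γ) - 2) = -b1 := by rw [hb1]; ring
    rw [hq1, hp1] at hE1
    rw [hp1] at hE2
    have hE1u : e1 ≤ 1 - β * γ / 8 * h := by
      have h5 : C1 * (h * h ^ (1 / 8 : ℝ)) ≤ β * γ / 8 * h := by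
        calc C1 * (h * h ^ (1 / 8 : ℝ)) = (C1 * h ^ (1 / 8 : ℝ)) * h := by ring
          _ ≤ β * γ / 8 * h := mul_le_mul_of_nonneg_right hp3 hh.le
      have h6 : β * γ / 4 * h ≤ b1 * h := mul_le_mul_of_nonneg_right hb1' hh.le
      linarith only [hE1, h5, h6, hE1.2]
    have hE1l : 1 - (b1 + C1) * h ≤ e1 := by
      have h5 : C1 * (h * h ^ (1 / 8 : ℝ)) ≤ C1 * h := by
        have : h * h ^ (1 / 8 : ℝ) ≤ h * 1 := mul_le_mul_of_nonneg_left hp2 hh.le
        have := mul_le_mul_of_nonneg_left this hC1.le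
        linarith only [this]
      linarith only [hE1, h5, hE1.1]
    have hE2u : e2 ≤ 1 + (|b2| + C2) * h := by
      have h5 : C2 * (h * h ^ (1 / 8 : ℝ)) ≤ C2 * h := by
        have : h * h ^ (1 / 8 : ℝ) ≤ h * 1 := mul_le_mul_of_nonneg_left hp2 hh.le
        have := mul_le_mul_of_nonneg_left this hC2.le
        linarith only [this]
      have h6 : b2 * h ≤ |b2| * h := mul_le_mul_of_nonneg_right (le_abs_self _) hh.le
      linarith only [hE2, h5, h6, hE2.2]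
    set W := (1 + ‖g‖ ^ (-β)) ^ γ with hW
    set κ := (1 + ‖g‖ ^ (-β)) ^ (γ - 1) with hκ
    have hZ : 0 < ‖g‖ ^ (-β) := by positivity
    have hW0 : 0 ≤ W := by positivity
    have hκ0 : 0 ≤ κ := by positivity
    have hκ1 : κ ≤ 1 := Real.rpow_le_one_of_one_le_of_nonpos (by linarith only [hZ]) (by linarith only [hγ2, hh, hh3])
    set F : E N → ℝ := fun ξ => W * ‖uni g + Real.sqrt h • ξ‖ ^ (-(β * γ)) +
        γ * κ * (‖uni g + Real.sqrt h • ξ‖ ^ (β * (1 - γ)) -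
          ‖uni g + Real.sqrt h • ξ‖ ^ (-(β * γ))) + γ * (β * h) with hF
    have hpt : ∀ᵐ ξ ∂ν, (1 + ‖hat β h g ξ‖ ^ (-β)) ^ γ ≤ F ξ := by
      filter_upwards [noise_ae hh hh3 hν] with ξ hξ
      have h5 := (hξ.2 (uni g) hu).1
      exact momb_two hβ hh hγ0 (by linarith only [hγ2, hh, hh3]) hg (by linarith only [hh, hh3, h5])
    have hFint : Integrable F ν := by
      rw [hF]
      exact ((hI1.const_mul W).add ((hI2.sub hI1).const_mul (γ * κ))).add (integrable_const _)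
    have hFnn : 0 ≤ᵐ[ν] F := by
      filter_upwards [hpt] with ξ hξ
      exact le_trans (by positivity) hξ
    have hFval : ∫ ξ, F ξ ∂ν = W * e1 + γ * κ * (e2 - e1) + γ * (β * h) := by
      have i1 : Integrable (fun ξ => W * ‖uni g + Real.sqrt h • ξ‖ ^ (-(β * γ))) ν := hI1.const_mul W
      have i2 : Integrable (fun ξ => γ * κ * (‖uni g + Real.sqrt h • ξ‖ ^ (β * (1 - γ)) -
          ‖uni g + Real.sqrt h • ξ‖ ^ (-(β * γ)))) ν := (hI2.sub hI1).const_mul (γ * κ)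
      have i3 : Integrable (fun ξ => W * ‖uni g + Real.sqrt h • ξ‖ ^ (-(β * γ)) + γ * κ *
          (‖uni g + Real.sqrt h • ξ‖ ^ (β * (1 - γ)) -
          ‖uni g + Real.sqrt h • ξ‖ ^ (-(β * γ)))) ν := i1.add i2
      have j1 := integral_add i3 (integrable_const (γ * (β * h)) (μ := ν))
      have j2 := integral_add i1 i2
      have j3 := integral_sub hI2 hI1
      rw [j2, integral_const_mul, integral_const_mul, j3] at j1
      simpa [hF] using j1
    have hbd : W * e1 + γ * κ * (e2 - e1) + γ * (β * h) ≤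
        (1 - β * γ / 8 * h) * W + (|b2| + C2 + b1 + C1 + β) * h := by
      have h5 : W * e1 ≤ W * (1 - β * γ / 8 * h) := mul_le_mul_of_nonneg_left hE1u hW0
      have h6 : e2 - e1 ≤ (|b2| + C2 + b1 + C1) * h := by linarith only [hE1l, hE2u]
      have h7 : 0 ≤ (|b2| + C2 + b1 + C1) * h := by positivity
      have h8 : γ * κ * (e2 - e1) ≤ γ * κ * ((|b2| + C2 + b1 + C1) * h) :=
        mul_le_mul_of_nonneg_left h6 (by positivity)
      have h9 : γ * κ ≤ 1 := by nlinarith only [hγ2, hγ0, hh, hh3, hκ1]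
      have h10 : γ * κ * ((|b2| + C2 + b1 + C1) * h) ≤ 1 * ((|b2| + C2 + b1 + C1) * h) :=
        mul_le_mul_of_nonneg_right h9 h7
      have h11 : γ * (β * h) ≤ 1 * (β * h) :=
        mul_le_mul_of_nonneg_right (by linarith only [hγ2, hh, hh3]) (by positivity)
      linarith only [h5, h8, h10, h11]
    have hc1 : 0 ≤ 1 - β * γ / 8 * h := by nlinarith only [hγ2, hh3, hγ0, hh, hβγ]
    calc ∫⁻ ξ, ENNReal.ofReal ((1 + ‖hat β h g ξ‖ ^ (-β)) ^ γ) ∂ν
        ≤ ∫⁻ ξ, ENNReal.ofReal (F ξ) ∂ν := by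
          refine lintegral_mono_ae ?_
          filter_upwards [hpt] with ξ hξ
          exact ENNReal.ofReal_le_ofReal hξ
      _ = ENNReal.ofReal (∫ ξ, F ξ ∂ν) := (ofReal_integral_eq_lintegral_ofReal hFint hFnn).symm
      _ ≤ ENNReal.ofReal ((1 - β * γ / 8 * h) * W + (|b2| + C2 + b1 + C1 + β) * h) := by
          rw [hFval]
          exact ENNReal.ofReal_le_ofReal hbd
      _ ≤ ENNReal.ofReal ((1 - β * γ / 8 * h) * W) +
            ENNReal.ofReal ((|b2| + C2 + b1 + C1 + β) * h) := ENNReal.ofReal_add_le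
      _ = _ := by rw [ENNReal.ofReal_mul hc1]

theorem w_ev {N : ℕ} (hN : 3 ≤ N) {β : ℝ} (hβ : 0 < β) : ∃ γ K h0 : ℝ, 0 < γ ∧ 0 < K ∧
    0 < h0 ∧ h0 ≤ 1 / 1000 ∧
    ∀ (h : ℝ) (ν : Measure (E N)), 0 < h → h < h0 → IsNoise h ν → ∀ (n : ℕ) (g : E N), g ≠ 0 →
      h * ‖g‖ ^ β ≤ 1 →
      ev (hat β h) ν (fun g => ENNReal.ofReal ((1 + ‖g‖ ^ (-β)) ^ γ)) n g ≤
        ENNReal.ofReal ((1 + ‖g‖ ^ (-β)) ^ γ + K) := by
  obtain ⟨γ, c, C, h0, hγ, _, hc, hC, hh0, hh1, hch, H⟩ := w_step hN hβ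
  refine ⟨γ, C / c, h0, hγ, by positivity, hh0, hh1, fun h ν hh hlt hν n g hg hs => ?_⟩
  have hprob := hν.prob
  have hh3 : h < 1 / 1000 := hlt.trans_le hh1
  have hch1 : c * h ≤ 1 := (mul_le_mul_of_nonneg_left hlt.le hc.le).trans hch
  have hch0 : 0 ≤ c * h := by positivity
  have hmeas : Measurable fun g : E N => ENNReal.ofReal ((1 + ‖g‖ ^ (-β)) ^ γ) := by
    fun_prop
  have hA : ∀ x ∈ {g : E N | g ≠ 0 ∧ h * ‖g‖ ^ β ≤ 1}, ∀ᵐ ξ ∂ν,
      hat β h x ξ ∈ {g : E N | g ≠ 0 ∧ h * ‖g‖ ^ β ≤ 1} := by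
    intro x hx
    have hx0 : 0 < ‖x‖ := norm_pos_iff.2 hx.1
    have hu : ‖uni x‖ = 1 := by
      unfold uni
      rw [norm_smul, norm_div, norm_one, norm_norm]
      field_simp
    filter_upwards [noise_ae hh hh3 hν] with ξ hξ
    have h5 := hξ.2 (uni x) hu
    have h6 : 0 < ‖uni x + Real.sqrt h • ξ‖ := by linarith [h5.1]
    exact ⟨(hat_step hβ hh.le hx.1 h6).1, hat_inv hβ hh hx.1 h6 h5.2 hx.2⟩
  have h7 := ev_drift_add (f := hat β h) (μ := ν) (measurable_hat hβ hh.le)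
    {g : E N | g ≠ 0 ∧ h * ‖g‖ ^ β ≤ 1} hA hmeas (c * h) (C / c) hch0 hch1 (by positivity)
    (fun x hx => by
      have h8 := H h ν hh hlt hν x hx.1 hx.2
      have h9 : c * h * (C / c) = C * h := by field_simp
      rw [h9]
      exact h8) n g ⟨hg, hs⟩
  refine h7.trans ?_
  rw [ENNReal.ofReal_add (by positivity) (by positivity)]
  gcongr
  calc ENNReal.ofReal ((1 - c * h) ^ n) * ENNReal.ofReal ((1 + ‖g‖ ^ (-β)) ^ γ)
      ≤ 1 * ENNReal.ofReal ((1 + ‖g‖ ^ (-β)) ^ γ) := by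
        gcongr
        rw [ENNReal.ofReal_le_one]
        exact pow_le_one₀ (by linarith) (by linarith)
    _ = _ := one_mul _

end DynS

end

/-! ### from `Lib_MP_36b788s.Ang` -/

section

/-!
# ANG: the angle of the rotated pair contracts for `N ≥ 3`

PROOF. `q.1, q.2 ≠ 0`, `e = uni q.1`, `e' = uni q.2`, `Q = rotQ e e'`, `v = e+√hξ`, `‖v‖ ≥ 9/10` a.e. `Q e = e'`, so `e'+√hQξ = Qv`. `hat_uni` (twice):
`uni (hat2).1 = v/‖v‖`, `uni (hat2).2 = Qv/‖v‖`, `sA(hat2 q ξ) = (‖v‖²-⟪v,Qv⟫)/‖v‖² ≤ (1-c₀)(⟪e,v⟫²+⟪f,v⟫²)/‖v‖²`, `c₀ = ⟪e,e'⟫`, `f` of `rotQ_cos_le2`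
`= (1-c₀)(1-(‖v‖²-⟪e,v⟫²-⟪f,v⟫²)/‖v‖²)`. Now `‖v‖²-⟪e,v⟫²-⟪f,v⟫² = h(‖ξ‖²-⟪e,ξ⟫²-⟪f,ξ⟫²) ≥ 0` (Bessel for the orthonormal pair `e, f`; the component orthogonal to
`e, f` of `v` is `√h` times that of `ξ`) and `‖v‖² ≤ 121/100`, so `≤ (1-c₀)(1-(100/121)h(‖ξ‖²-⟪e,ξ⟫²-⟪f,ξ⟫²))`. Expectation: `noise_sq`: `E⟪e,ξ⟫² = E‖ξ‖²/N`,
`E(‖ξ‖²-⟪e,ξ⟫²-⟪f,ξ⟫²) = (1-2/N)E‖ξ‖² ≥ (N-2)(1-h) ≥ 1-h`, `(100/121)(1-h) ≥ 1/2`.
* `sA_inv`: both components stay nonzero a.e. (`noise_ae`, `hat_step`; for the second one `‖e'+√hQξ‖ = ‖Qv‖ = ‖v‖`).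
-/

open MeasureTheory ProbabilityTheory Dyn
open scoped ENNReal

namespace DynS

noncomputable section

variable {N : ℕ}

def sA (q : E N × E N) : ℝ := 1 - inner ℝ (uni q.1) (uni q.2)

theorem measurable_sA : Measurable (sA (N := N)) := by
  unfold sA
  exact measurable_const.sub ((measurable_uni.comp measurable_fst).inner (measurable_uni.comp measurable_snd))

private theorem Ang_uni_le (g : E N) : ‖uni g‖ ≤ 1 := by
  by_cases hg : g = 0
  · subst hg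
    unfold uni
    simp
  · exact (uni_norm hg).le

private theorem Ang_uni_smul {g : E N} (hg : g ≠ 0) : ‖g‖ • uni g = g := by
  unfold uni
  rw [smul_smul, mul_one_div, div_self (norm_ne_zero_iff.2 hg), one_smul]

theorem sA_nonneg (q : E N × E N) : 0 ≤ sA q ∧ sA q ≤ 2 := by
  have h1 : |inner ℝ (uni q.1) (uni q.2)| ≤ 1 := by
    refine (abs_real_inner_le_norm _ _).trans ?_
    exact mul_le_one₀ (Ang_uni_le _) (norm_nonneg _) (Ang_uni_le _)
  have h2 := abs_le.1 h1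
  unfold sA
  constructor <;> linarith

/-- the same `ζ` for both components -/
theorem zeta_pair {h : ℝ} {g g' : E N} (hg : g ≠ 0) (hg' : g' ≠ 0) (ξ : E N) :
    ‖uni g' + Real.sqrt h • rotQ (uni g) (uni g') ξ‖ = ‖uni g + Real.sqrt h • ξ‖ := by
  have h1 : uni g' + Real.sqrt h • rotQ (uni g) (uni g') ξ = rotQ (uni g) (uni g') (uni g + Real.sqrt h • ξ) := by
    rw [map_add, map_smul, rotQ_map (uni_norm hg) (uni_norm hg')]
  rw [h1, LinearIsometryEquiv.norm_map]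

theorem hat2_ne {β h : ℝ} (hβ : 0 < β) (hh : 0 < h) (hh1 : h < 1 / 1000) {ν : Measure (E N)}
    (hν : IsNoise h ν) {q : E N × E N} (h1 : q.1 ≠ 0) (h2 : q.2 ≠ 0) :
    ∀ᵐ ξ ∂ν, (hat2 β h q ξ).1 ≠ 0 ∧ (hat2 β h q ξ).2 ≠ 0 := by
  filter_upwards [noise_ae hh hh1 hν] with ξ hξ
  have hpos : 0 < ‖uni q.1 + Real.sqrt h • ξ‖ := by
    have := (hξ.2 (uni q.1) (uni_norm h1)).1
    linarith
  refine ⟨(hat_step hβ hh.le h1 hpos).1, ?_⟩
  refine (hat_step hβ hh.le h2 ?_).1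
  rw [zeta_pair h1 h2]
  exact hpos

/-- continuous functions are integrable -/
private theorem Ang_int {h : ℝ} {ν : Measure (E N)} (hh : 0 < h) (hν : IsNoise h ν)
    {f : E N → ℝ} (hf : Continuous f) : Integrable f ν := by
  have := hν.prob
  obtain ⟨C, hC⟩ := (isCompact_closedBall (0 : E N) (h ^ (3 / 8 : ℝ) / Real.sqrt h)).exists_bound_of_continuousOn
    hf.continuousOn
  refine Integrable.of_bound hf.aestronglyMeasurable C ?_
  filter_upwards [hν.bdd] with ξ hξ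
  refine hC ξ ?_
  rw [mem_closedBall_zero_iff, le_div_iff₀ (Real.sqrt_pos.mpr hh), mul_comm]
  exact hξ

/-- Bessel inequality for two vectors -/
private theorem Ang_bessel {e f : E N} (he : ‖e‖ = 1) (hf : ‖f‖ = 1) (hef : inner ℝ e f = 0) (ξ : E N) :
    0 ≤ ‖ξ‖ ^ 2 - (inner ℝ e ξ) ^ 2 - (inner ℝ f ξ) ^ 2 := by
  have h1 : ‖(ξ - (inner ℝ e ξ : ℝ) • e) - (inner ℝ f ξ : ℝ) • f‖ ^ 2 =
      ‖ξ‖ ^ 2 - (inner ℝ e ξ) ^ 2 - (inner ℝ f ξ) ^ 2 := by
    rw [norm_sub_sq_real, norm_sub_sq_real, inner_sub_left, real_inner_smul_right, real_inner_smul_right,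
      real_inner_smul_right, real_inner_smul_left, norm_smul, norm_smul, he, hf, hef, real_inner_comm e ξ,
      real_inner_comm f ξ, mul_one, mul_one, Real.norm_eq_abs, Real.norm_eq_abs, sq_abs, sq_abs]
    ring
  rw [← h1]
  exact sq_nonneg _

/-- the plane part of `e + √h ξ` -/
private theorem Ang_plane {h : ℝ} (hh : 0 < h) {e f : E N} (he : ‖e‖ = 1) (hef : inner ℝ e f = 0) (ξ : E N) :
    (inner ℝ e (e + Real.sqrt h • ξ)) ^ 2 + (inner ℝ f (e + Real.sqrt h • ξ)) ^ 2 =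
      ‖e + Real.sqrt h • ξ‖ ^ 2 - h * (‖ξ‖ ^ 2 - (inner ℝ e ξ) ^ 2 - (inner ℝ f ξ) ^ 2) := by
  have hs : Real.sqrt h ^ 2 = h := Real.sq_sqrt hh.le
  rw [norm_add_sq_real, inner_add_right, inner_add_right, real_inner_smul_right, real_inner_smul_right,
    real_inner_self_eq_norm_sq, norm_smul, he, real_inner_comm e f, hef,
    Real.norm_eq_abs, abs_of_nonneg (Real.sqrt_nonneg h)]
  have e1 : (Real.sqrt h * ‖ξ‖) ^ 2 = h * ‖ξ‖ ^ 2 := by rw [mul_pow, hs]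
  rw [e1]
  linear_combination ((inner ℝ e ξ) ^ 2 + (inner ℝ f ξ) ^ 2) * hs

/-- pointwise bound -/
private theorem Ang_pt {β h : ℝ} (hβ : 0 < β) (hh : 0 < h) {q : E N × E N} (h1 : q.1 ≠ 0) (h2 : q.2 ≠ 0)
    {f : E N} (hf : ‖f‖ = 1) (hef : inner ℝ (uni q.1) f = 0)
    (hcos : ∀ v : E N, ‖v‖ ^ 2 - inner ℝ v (rotQ (uni q.1) (uni q.2) v) ≤
        (1 - inner ℝ (uni q.1) (uni q.2)) * ((inner ℝ (uni q.1) v) ^ 2 + (inner ℝ f v) ^ 2))
    {ξ : E N} (hlo : 9 / 10 ≤ ‖uni q.1 + Real.sqrt h • ξ‖) (hhi : ‖uni q.1 + Real.sqrt h • ξ‖ ≤ 11 / 10) :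
    sA (hat2 β h q ξ) ≤ sA q * (1 - 100 / 121 * (h * (‖ξ‖ ^ 2 - (inner ℝ (uni q.1) ξ) ^ 2 - (inner ℝ f ξ) ^ 2))) ∧
      0 ≤ 1 - 100 / 121 * (h * (‖ξ‖ ^ 2 - (inner ℝ (uni q.1) ξ) ^ 2 - (inner ℝ f ξ) ^ 2)) := by
  set e := uni q.1 with he'
  set e' := uni q.2 with he2'
  have he : ‖e‖ = 1 := uni_norm h1
  have he2 : ‖e'‖ = 1 := uni_norm h2
  set v := e + Real.sqrt h • ξ with hv
  have hvpos : 0 < ‖v‖ := by linarith
  have hv0 : v ≠ 0 := norm_pos_iff.1 hvpos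
  have hQ : e' + Real.sqrt h • rotQ e e' ξ = rotQ e e' v := by
    rw [hv, map_add, map_smul, rotQ_map he he2]
  have hu1 : uni (hat2 β h q ξ).1 = uni v := hat_uni hβ hh.le h1 hvpos
  have hz : 0 < ‖e' + Real.sqrt h • rotQ e e' ξ‖ := by
    rw [hQ, LinearIsometryEquiv.norm_map]; exact hvpos
  have hu2 : uni (hat2 β h q ξ).2 = uni (rotQ e e' v) := by
    have := hat_uni hβ hh.le h2 (ξ := rotQ e e' ξ) hz
    rw [← he2', hQ] at this
    exact this
  have hpl := Ang_plane hh he hef ξ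
  have hbe := Ang_bessel he hf hef ξ
  rw [← hv] at hpl
  set B := ‖ξ‖ ^ 2 - (inner ℝ e ξ) ^ 2 - (inner ℝ f ξ) ^ 2 with hB
  have hvv : 0 < ‖v‖ ^ 2 := by positivity
  have hv2 : ‖v‖ ^ 2 ≤ 121 / 100 := by nlinarith only [hhi, hlo]
  have hhB : 0 ≤ h * B := mul_nonneg hh.le hbe
  have hhBv : h * B ≤ ‖v‖ ^ 2 := by
    have : 0 ≤ (inner ℝ e v) ^ 2 + (inner ℝ f v) ^ 2 := by positivity
    linarith
  have hsA : sA (hat2 β h q ξ) = (‖v‖ ^ 2 - inner ℝ v (rotQ e e' v)) / ‖v‖ ^ 2 := by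
    unfold sA
    rw [hu1, hu2]
    unfold uni
    rw [real_inner_smul_left, real_inner_smul_right, LinearIsometryEquiv.norm_map]
    field_simp
  have hc0 : 0 ≤ sA q := (sA_nonneg q).1
  have hc : sA q = 1 - inner ℝ e e' := rfl
  constructor
  · rw [hsA, div_le_iff₀ hvv]
    refine (hcos v).trans ?_
    rw [← hc, hpl, mul_assoc]
    refine mul_le_mul_of_nonneg_left ?_ hc0
    have : 100 / 121 * (h * B) * ‖v‖ ^ 2 ≤ h * B := by
      have : 100 / 121 * ‖v‖ ^ 2 ≤ 1 := by linarith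
      nlinarith only [hv2, hhB]
    nlinarith only [this]
  · linarith

theorem ang_drift {β h : ℝ} (hN : 3 ≤ N) (hβ : 0 < β) (hh : 0 < h) (hh1 : h < 1 / 1000)
    {ν : Measure (E N)} (hν : IsNoise h ν) {q : E N × E N} (h1 : q.1 ≠ 0) (h2 : q.2 ≠ 0) :
    ∫⁻ ξ, ENNReal.ofReal (sA (hat2 β h q ξ)) ∂ν ≤
      ENNReal.ofReal (1 - h / 2) * ENNReal.ofReal (sA q) := by
  have hprob := hν.prob
  obtain ⟨f, hf, hef, hcos⟩ := rotQ_cos_le2 (by omega) (uni_norm h1) (uni_norm h2)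
  set e := uni q.1 with he'
  have he : ‖e‖ = 1 := uni_norm h1
  have hc0 : 0 ≤ sA q := (sA_nonneg q).1
  set G : E N → ℝ := fun ξ => sA q * (1 - 100 / 121 * (h * (‖ξ‖ ^ 2 - (inner ℝ e ξ) ^ 2 - (inner ℝ f ξ) ^ 2))) with hG
  have hpt : ∀ᵐ ξ ∂ν, sA (hat2 β h q ξ) ≤ G ξ ∧ 0 ≤ G ξ := by
    filter_upwards [noise_ae hh hh1 hν] with ξ hξ
    have hb := hξ.2 e he
    have := Ang_pt hβ hh h1 h2 hf hef hcos hb.1 hb.2
    exact ⟨this.1, mul_nonneg hc0 this.2⟩
  have i1 : Integrable (fun ξ : E N => ‖ξ‖ ^ 2) ν := Ang_int hh hν (by fun_prop)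
  have i2 : Integrable (fun ξ : E N => (inner ℝ e ξ : ℝ) ^ 2) ν := Ang_int hh hν (by fun_prop)
  have i3 : Integrable (fun ξ : E N => (inner ℝ f ξ : ℝ) ^ 2) ν := Ang_int hh hν (by fun_prop)
  have hGc : Continuous G := by
    simp only [hG]
    fun_prop
  have iG : Integrable G ν := Ang_int hh hν hGc
  have hstep1 : ∫⁻ ξ, ENNReal.ofReal (sA (hat2 β h q ξ)) ∂ν ≤ ∫⁻ ξ, ENNReal.ofReal (G ξ) ∂ν := by
    refine lintegral_mono_ae ?_
    filter_upwards [hpt] with ξ hξ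
    exact ENNReal.ofReal_le_ofReal hξ.1
  refine hstep1.trans ?_
  rw [← ofReal_integral_eq_lintegral_ofReal iG (by filter_upwards [hpt] with ξ hξ using hξ.2),
    ← ENNReal.ofReal_mul (by linarith)]
  refine ENNReal.ofReal_le_ofReal ?_
  have hN1 : 1 ≤ N := by omega
  have hN0 : (0 : ℝ) < N := by exact_mod_cast (by omega : 0 < N)
  have hN3 : (3 : ℝ) ≤ N := by exact_mod_cast hN
  have m2 := noise_sq hh hN1 hν e
  have m3 := noise_sq hh hN1 hν f
  have hint : ∫ ξ, G ξ ∂ν = sA q * (1 - 100 / 121 * (h * ((∫ ξ, ‖ξ‖ ^ 2 ∂ν) - (∫ ξ, (inner ℝ e ξ) ^ 2 ∂ν) -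
      (∫ ξ, (inner ℝ f ξ) ^ 2 ∂ν)))) := by
    have iB : Integrable (fun ξ : E N => ‖ξ‖ ^ 2 - (inner ℝ e ξ) ^ 2 - (inner ℝ f ξ) ^ 2) ν := (i1.sub i2).sub i3
    simp only [hG]
    rw [integral_const_mul, integral_sub (integrable_const _) ((iB.const_mul h).const_mul _),
      integral_const_mul, integral_const_mul]
    have : ∫ ξ, (‖ξ‖ ^ 2 - (inner ℝ e ξ) ^ 2 - (inner ℝ f ξ) ^ 2) ∂ν =
        (∫ ξ, ‖ξ‖ ^ 2 ∂ν) - (∫ ξ, (inner ℝ e ξ) ^ 2 ∂ν) - (∫ ξ, (inner ℝ f ξ) ^ 2 ∂ν) := by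
      have i12 : Integrable (fun ξ : E N => ‖ξ‖ ^ 2 - (inner ℝ e ξ) ^ 2) ν := i1.sub i2
      rw [integral_sub i12 i3, integral_sub i1 i2]
    rw [this]
    simp
  rw [hint, m2, m3, he, hf, mul_comm (1 - h / 2)]
  refine mul_le_mul_of_nonneg_left ?_ hc0
  set M := ∫ ξ, ‖ξ‖ ^ 2 ∂ν with hM
  have hM1 : (N : ℝ) * (1 - h) ≤ M := hν.le_mom
  have hMN : 1 - h ≤ M / N := by
    rw [le_div_iff₀ hN0]; linarith
  have hkey : 1 - h ≤ M - 1 ^ 2 * (M / N) - 1 ^ 2 * (M / N) := by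
    have e1 : M = N * (M / N) := by field_simp
    have e2 : M - 1 ^ 2 * (M / N) - 1 ^ 2 * (M / N) = (N - 2) * (M / N) := by
      rw [one_pow, one_mul]
      linear_combination e1
    rw [e2]
    have : (1 : ℝ) - h ≤ 1 * (M / N) := by linarith
    refine this.trans ?_
    refine mul_le_mul_of_nonneg_right (by linarith) ?_
    linarith
  have : h * (1 - h) ≤ h * (M - 1 ^ 2 * (M / N) - 1 ^ 2 * (M / N)) := mul_le_mul_of_nonneg_left hkey hh.le
  nlinarith only [this, hh, hh1]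

end

end DynS

end

/-! ### from `Lib_MP_36b788s.DLA` -/

section

/-!
# DL, part A: deterministic contraction of `dL = |log‖q.1‖ - log‖q.2‖|` along the rotated pair step

PROOF. `u = ‖q.1‖, u' = ‖q.2‖ > 0`, `ζ = ‖uni q.1+√hξ‖`, the same for both (`zeta_pair`), `u⁺, u'⁺` the new norms, `u⁺(1+h(u⁺)^β) = uζ`,
`u'⁺(1+h(u'⁺)^β) = u'ζ` (`hat_step`).
* `dl_log`: `θ(a) = log(1+he^{βa})` is monotone with `θ' = βx/(1+x)`, `x = he^{βa}`, `θ'` increasing. With `a = log u⁺ ≥ a' = log u'⁺` (other case symmetric):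
  `log u-log u' = (a-a')+(θ(a)-θ(a')) ≥ (a-a')(1+βx/(1+x))`, `x = h min(u⁺,u'⁺)^β` (mean value theorem). So `dL⁺ ≤ dL·(1+x)/(1+(1+β)x) = (1-βx/(1+(1+β)x))dL`,
  and `x ≤ 1` gives `dL⁺ ≤ (1-(β/(2+β))x)dL` (`1+(1+β)x ≤ 2+β`).
* `dl_det`: on the set `dlA`: `dL⁺ ≤ dL ≤ D0`, so `min(u⁺,u'⁺) ≥ u⁺e^{-D0}`, `u⁺ ≥ uζ/2 ≥ u/4` (`hat_half`, `ζ ≥ 9/10`), `x ≥ h(e^{-D0}u/4)^β = he^{-βD0}4^{-β}u^β`.
* `dl_inv`: invariance of `dlA`: `hat2_ne`, `hat_inv` for both, `dL⁺ ≤ dL`.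
-/

open MeasureTheory ProbabilityTheory Dyn
open scoped ENNReal

namespace DynS

noncomputable section

variable {N : ℕ}

def dL (q : E N × E N) : ℝ := |Real.log ‖q.1‖ - Real.log ‖q.2‖|

/-- the invariant set -/
def dlA (N : ℕ) (β h D0 : ℝ) : Set (E N × E N) :=
  {q | q.1 ≠ 0 ∧ q.2 ≠ 0 ∧ h * ‖q.1‖ ^ β ≤ 1 ∧ h * ‖q.2‖ ^ β ≤ 1 ∧ dL q ≤ D0}

theorem measurable_dL : Measurable (dL (N := N)) := by
  have h1 : Measurable (fun q : E N × E N => Real.log ‖q.1‖ - Real.log ‖q.2‖) :=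
    (Real.measurable_log.comp measurable_fst.norm).sub (Real.measurable_log.comp measurable_snd.norm)
  exact h1.norm

private theorem DLA_exp {x t : ℝ} (hx : 0 ≤ x) :
    x / (1 + x) * t ≤ Real.log (1 + x * Real.exp t) - Real.log (1 + x) := by
  have h0 : (0 : ℝ) < 1 + x := by linarith
  have h1 : 0 < 1 + x * Real.exp t := by positivity
  rw [← Real.log_div h1.ne' h0.ne', Real.le_log_iff_exp_le (div_pos h1 h0)]
  have hl : 0 ≤ x / (1 + x) := div_nonneg hx h0.le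
  have hl' : 0 ≤ 1 / (1 + x) := by positivity
  have hs : x / (1 + x) + 1 / (1 + x) = 1 := by
    field_simp
    ring
  have h2 := convexOn_exp.2 (Set.mem_univ t) (Set.mem_univ (0 : ℝ)) hl hl' hs
  simp only [smul_eq_mul, mul_zero, add_zero, Real.exp_zero, mul_one] at h2
  refine h2.trans (le_of_eq ?_)
  field_simp
  ring

private theorem DLA_core {β h a b u u' z : ℝ} (hβ : 0 < β) (hh : 0 < h) (hb : 0 < b) (hab : b ≤ a)
    (hu : 0 < u) (hu' : 0 < u') (hz : 0 < z) (e1 : a * (1 + h * a ^ β) = u * z)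
    (e2 : b * (1 + h * b ^ β) = u' * z) (hx1 : h * b ^ β ≤ 1) :
    0 ≤ Real.log a - Real.log b ∧
    Real.log a - Real.log b ≤ (1 - β / (2 + β) * (h * b ^ β)) * (Real.log u - Real.log u') ∧
      Real.log a - Real.log b ≤ Real.log u - Real.log u' := by
  have ha : 0 < a := hb.trans_le hab
  have hD : 0 ≤ Real.log a - Real.log b := sub_nonneg.mpr (Real.log_le_log hb hab)
  have hx0 : 0 ≤ h * b ^ β := by positivity
  set x : ℝ := h * b ^ β with hx
  set D : ℝ := Real.log a - Real.log b with hDd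
  have hax : h * a ^ β = x * Real.exp (β * D) := by
    rw [hx, Real.rpow_def_of_pos ha, Real.rpow_def_of_pos hb, mul_assoc, ← Real.exp_add]
    congr 2
    rw [hDd]
    ring
  have l1 : Real.log a + Real.log (1 + h * a ^ β) = Real.log u + Real.log z := by
    rw [← Real.log_mul ha.ne' (by positivity), ← Real.log_mul hu.ne' hz.ne', e1]
  have l2 : Real.log b + Real.log (1 + x) = Real.log u' + Real.log z := by
    rw [← Real.log_mul hb.ne' (by positivity), ← Real.log_mul hu'.ne' hz.ne', e2]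
  have h3 := DLA_exp (t := β * D) hx0
  rw [hax] at l1
  have hU : Real.log u - Real.log u' = D + (Real.log (1 + x * Real.exp (β * D)) - Real.log (1 + x)) := by
    rw [hDd]
    linarith
  have hge : D * (1 + β * x / (1 + x)) ≤ Real.log u - Real.log u' := by
    rw [hU]
    have : D * (1 + β * x / (1 + x)) = D + x / (1 + x) * (β * D) := by ring
    rw [this]
    linarith
  have hpos : 0 ≤ β * x / (1 + x) := by positivity
  refine ⟨hD, ?_, ?_⟩
  · have hc1 : β / (2 + β) * x ≤ 1 := by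
      have : β / (2 + β) ≤ 1 := by
        rw [div_le_one (by linarith)]
        linarith
      calc β / (2 + β) * x ≤ 1 * 1 := mul_le_mul this hx1 hx0 (by norm_num)
        _ = 1 := by norm_num
    have hstep : D ≤ (1 - β / (2 + β) * x) * (D * (1 + β * x / (1 + x))) := by
      have hkey : 1 ≤ (1 - β / (2 + β) * x) * (1 + β * x / (1 + x)) := by
        have h2 : (0 : ℝ) < 2 + β := by linarith
        have h4 : (0 : ℝ) < 1 + x := by linarith
        have : (1 - β / (2 + β) * x) * (1 + β * x / (1 + x)) - 1 =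
            β * x * (1 + β) * (1 - x) / ((2 + β) * (1 + x)) := by
          field_simp
          ring
        have h5 : 0 ≤ β * x * (1 + β) * (1 - x) / ((2 + β) * (1 + x)) := by
          apply div_nonneg _ (by positivity)
          apply mul_nonneg (by positivity)
          linarith
        linarith
      calc D = D * 1 := (mul_one D).symm
        _ ≤ D * ((1 - β / (2 + β) * x) * (1 + β * x / (1 + x))) := mul_le_mul_of_nonneg_left hkey hD
        _ = _ := by ring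
    exact hstep.trans (mul_le_mul_of_nonneg_left hge (by linarith))
  · refine le_trans ?_ hge
    calc D = D * 1 := (mul_one D).symm
      _ ≤ D * (1 + β * x / (1 + x)) := mul_le_mul_of_nonneg_left (by linarith) hD

/-- the equations of one pair step -/
private theorem DLA_eqs {β h : ℝ} (hβ : 0 < β) (hh : 0 < h) {q : E N × E N} (h1 : q.1 ≠ 0) (h2 : q.2 ≠ 0)
    {ξ : E N} (hζ : 0 < ‖uni q.1 + Real.sqrt h • ξ‖)
    (hζ1 : ‖uni q.1 + Real.sqrt h • ξ‖ ≤ 11 / 10) (hs1 : h * ‖q.1‖ ^ β ≤ 1)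
    (hs2 : h * ‖q.2‖ ^ β ≤ 1) :
    (hat2 β h q ξ).1 ≠ 0 ∧ (hat2 β h q ξ).2 ≠ 0 ∧
      ‖(hat2 β h q ξ).1‖ * (1 + h * ‖(hat2 β h q ξ).1‖ ^ β) = ‖q.1‖ * ‖uni q.1 + Real.sqrt h • ξ‖ ∧
      ‖(hat2 β h q ξ).2‖ * (1 + h * ‖(hat2 β h q ξ).2‖ ^ β) = ‖q.2‖ * ‖uni q.1 + Real.sqrt h • ξ‖ ∧
      h * ‖(hat2 β h q ξ).1‖ ^ β ≤ 1 ∧ h * ‖(hat2 β h q ξ).2‖ ^ β ≤ 1 := by
  have hz : ‖uni q.2 + Real.sqrt h • rotQ (uni q.1) (uni q.2) ξ‖ = ‖uni q.1 + Real.sqrt h • ξ‖ :=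
    zeta_pair h1 h2 ξ
  have hζ' : 0 < ‖uni q.2 + Real.sqrt h • rotQ (uni q.1) (uni q.2) ξ‖ := by rw [hz]; exact hζ
  have hζ1' : ‖uni q.2 + Real.sqrt h • rotQ (uni q.1) (uni q.2) ξ‖ ≤ 11 / 10 := by rw [hz]; exact hζ1
  have a1 := hat_step hβ hh.le h1 hζ
  have a2 := hat_step hβ hh.le h2 hζ'
  rw [hz] at a2
  exact ⟨a1.1, a2.1, a1.2, a2.2, hat_inv hβ hh h1 hζ hζ1 hs1, hat_inv hβ hh h2 hζ' hζ1' hs2⟩

theorem dl_log {β h : ℝ} (hβ : 0 < β) (hh : 0 < h) {q : E N × E N} (h1 : q.1 ≠ 0) (h2 : q.2 ≠ 0)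
    {ξ : E N} (hζ : 0 < ‖uni q.1 + Real.sqrt h • ξ‖)
    (hζ1 : ‖uni q.1 + Real.sqrt h • ξ‖ ≤ 11 / 10) (hs1 : h * ‖q.1‖ ^ β ≤ 1)
    (hs2 : h * ‖q.2‖ ^ β ≤ 1) :
    dL (hat2 β h q ξ) ≤ (1 - β / (2 + β) *
      (h * (min ‖(hat2 β h q ξ).1‖ ‖(hat2 β h q ξ).2‖) ^ β)) * dL q ∧
      dL (hat2 β h q ξ) ≤ dL q := by
  obtain ⟨n1, n2, e1, e2, i1, i2⟩ := DLA_eqs hβ hh h1 h2 hζ hζ1 hs1 hs2
  set a : ℝ := ‖(hat2 β h q ξ).1‖ with ha
  set b : ℝ := ‖(hat2 β h q ξ).2‖ with hb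
  have ha0 : 0 < a := norm_pos_iff.mpr n1
  have hb0 : 0 < b := norm_pos_iff.mpr n2
  have hu : 0 < ‖q.1‖ := norm_pos_iff.mpr h1
  have hu' : 0 < ‖q.2‖ := norm_pos_iff.mpr h2
  unfold dL
  rw [← ha, ← hb]
  rcases le_total b a with hab | hab
  · obtain ⟨c0, c1, c2⟩ := DLA_core hβ hh hb0 hab hu hu' hζ e1 e2 i2
    rw [min_eq_right hab, abs_of_nonneg c0, abs_of_nonneg (c0.trans c2)]
    exact ⟨c1, c2⟩
  · obtain ⟨c0, c1, c2⟩ := DLA_core hβ hh ha0 hab hu' hu hζ e2 e1 i1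
    rw [min_eq_left hab, abs_sub_comm, abs_of_nonneg c0, abs_sub_comm (Real.log ‖q.1‖),
      abs_of_nonneg (c0.trans c2)]
    exact ⟨c1, c2⟩

theorem dl_det {β h D0 : ℝ} (hβ : 0 < β) (hh : 0 < h) {q : E N × E N} (hq : q ∈ dlA N β h D0)
    {ξ : E N} (hζ : 9 / 10 ≤ ‖uni q.1 + Real.sqrt h • ξ‖)
    (hζ1 : ‖uni q.1 + Real.sqrt h • ξ‖ ≤ 11 / 10) :
    dL (hat2 β h q ξ) ≤
      (1 - β / (2 + β) * (Real.exp (-(β * D0)) * (4 : ℝ) ^ (-β)) * (h * ‖q.1‖ ^ β)) * dL q := by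
  obtain ⟨h1, h2, hs1, hs2, hD⟩ := hq
  have hζ0 : 0 < ‖uni q.1 + Real.sqrt h • ξ‖ := by linarith
  obtain ⟨n1, n2, e1, e2, i1, i2⟩ := DLA_eqs hβ hh h1 h2 hζ0 hζ1 hs1 hs2
  obtain ⟨d1, d2⟩ := dl_log hβ hh h1 h2 hζ0 hζ1 hs1 hs2
  have dq0 : 0 ≤ dL q := abs_nonneg _
  have hhalf := (hat_half hβ hh h1 hζ0 hζ1 hs1).1
  refine d1.trans (mul_le_mul_of_nonneg_right ?_ dq0)
  have hu : 0 < ‖q.1‖ := norm_pos_iff.mpr h1
  have hab : ‖(hat2 β h q ξ).1‖ = ‖hat β h q.1 ξ‖ := rfl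
  set a : ℝ := ‖(hat2 β h q ξ).1‖ with ha
  set b : ℝ := ‖(hat2 β h q ξ).2‖ with hb
  have ha0 : 0 < a := norm_pos_iff.mpr n1
  have hb0 : 0 < b := norm_pos_iff.mpr n2
  have hDp : |Real.log a - Real.log b| ≤ D0 := d2.trans hD
  have hD0 : 0 ≤ D0 := (abs_nonneg _).trans hDp
  have ha4 : ‖q.1‖ / 4 ≤ a := by
    rw [hab]
    have : ‖q.1‖ / 4 ≤ ‖q.1‖ * ‖uni q.1 + Real.sqrt h • ξ‖ / 2 := by nlinarith only [hu, hζ]
    exact this.trans hhalf
  have hmin : ‖q.1‖ * Real.exp (-D0) / 4 ≤ min a b := by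
    have hexp : Real.exp (-D0) ≤ 1 := Real.exp_le_one_iff.mpr (by linarith)
    have hexp0 := Real.exp_pos (-D0)
    apply le_min
    · nlinarith only [ha4, hu, hexp]
    · have hlog : Real.log a - D0 ≤ Real.log b := by
        have := (abs_le.mp hDp).2
        linarith
      have hb' : a * Real.exp (-D0) ≤ b := by
        have h3 := Real.exp_le_exp.mpr hlog
        rw [Real.exp_log hb0, sub_eq_add_neg, Real.exp_add, Real.exp_log ha0] at h3
        exact h3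
      have h4 : ‖q.1‖ * Real.exp (-D0) / 4 ≤ a * Real.exp (-D0) := by
        have := mul_le_mul_of_nonneg_right ha4 hexp0.le
        linarith
      exact h4.trans hb'
  have hpow : (‖q.1‖ * Real.exp (-D0) / 4) ^ β = ‖q.1‖ ^ β * (Real.exp (-(β * D0)) * (4 : ℝ) ^ (-β)) := by
    rw [div_eq_mul_inv, Real.mul_rpow (by positivity) (by positivity),
      Real.mul_rpow hu.le (Real.exp_pos _).le, Real.rpow_neg (by norm_num), Real.inv_rpow (by norm_num),
      ← Real.exp_mul]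
    have : -D0 * β = -(β * D0) := by ring
    rw [this]
    ring
  have hle : ‖q.1‖ ^ β * (Real.exp (-(β * D0)) * (4 : ℝ) ^ (-β)) ≤ (min a b) ^ β := by
    rw [← hpow]
    exact Real.rpow_le_rpow (by positivity) hmin hβ.le
  have hc : 0 ≤ β / (2 + β) := by positivity
  have h5 : β / (2 + β) * (Real.exp (-(β * D0)) * (4 : ℝ) ^ (-β)) * (h * ‖q.1‖ ^ β) ≤
      β / (2 + β) * (h * (min a b) ^ β) := by
    have : β / (2 + β) * (Real.exp (-(β * D0)) * (4 : ℝ) ^ (-β)) * (h * ‖q.1‖ ^ β) =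
        β / (2 + β) * (h * (‖q.1‖ ^ β * (Real.exp (-(β * D0)) * (4 : ℝ) ^ (-β)))) := by ring
    rw [this]
    exact mul_le_mul_of_nonneg_left (mul_le_mul_of_nonneg_left hle hh.le) hc
  linarith

theorem dl_inv {β h D0 : ℝ} (hβ : 0 < β) (hh : 0 < h) (hh1 : h < 1 / 1000) {ν : Measure (E N)}
    (hν : IsNoise h ν) : ∀ q ∈ dlA N β h D0, ∀ᵐ ξ ∂ν, hat2 β h q ξ ∈ dlA N β h D0 := by
  rintro q ⟨h1, h2, hs1, hs2, hD⟩
  filter_upwards [noise_ae hh hh1 hν] with ξ hξ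
  obtain ⟨z1, z2⟩ := hξ.2 (uni q.1) (uni_norm h1)
  have z0 : 0 < ‖uni q.1 + Real.sqrt h • ξ‖ := by linarith
  obtain ⟨n1, n2, e1, e2, i1, i2⟩ := DLA_eqs hβ hh h1 h2 z0 z2 hs1 hs2
  exact ⟨n1, n2, i1, i2, (dl_log hβ hh h1 h2 z0 z2 hs1 hs2).2.trans hD⟩

end

end DynS

end

/-! ### from `Lib_MP_36b788s.DLB` -/

section

/-!
# DL, part B: the potential `dL·(1+B‖q.1‖^{-1/2})` contracts for `N ≥ 3`

PROOF. `u = ‖q.1‖`, `c1 = β/(2+β)`, `c2 = e^{-βD0}4^{-β}`, `u⁺ = ‖(hat2).1‖`. `zeta_pow N (-1/2)`: `E ζ^{-1/2} ≤ 1-(1/4)(N-5/2)h+Ch^{9/8} ≤ 1-h/9` for `h < h0`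
(`N ≥ 3`, `Ch^{1/8} ≤ 1/72`). `u⁺(1+h(u⁺)^β) = uζ`, `u⁺ ≤ uζ ≤ 2u`: `(u⁺)^{-1/2} = (uζ)^{-1/2}(1+h(u⁺)^β)^{1/2} ≤ u^{-1/2}ζ^{-1/2}(1+2^{β-1}hu^β)`, so
`E(u⁺)^{-1/2} ≤ u^{-1/2}(1-h/9)(1+2^{β-1}hu^β)`. `dl_det`: `dL⁺ ≤ (1-c1c2hu^β)dL` (a.e.).
Constants: `r > 0` with `r^β = 2^{-β}/36` (`r = (2^{-β}/36)^{1/β}`), `b0 = c1c2/2^β`, `B = b0 r^{1/2}`.
Case `u ≤ r`: `2^{β-1}hu^β ≤ h/72`, `(1-h/9)(1+h/72) ≤ 1-h/12`, `E V⁺ ≤ dL(1+Bu^{-1/2}(1-h/12)) = V - (h/12)dL Bu^{-1/2} ≤ (1-(h/12)b0/(1+b0))V` because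
`Bu^{-1/2} ≥ Br^{-1/2} = b0`.
Case `u > r`: `Bu^{-1/2} ≤ b0`, so `Bu^{-1/2}2^{β-1}hu^β ≤ (c1c2/2)hu^β` and `E V⁺ ≤ dL[(1-c1c2hu^β)(1+Bu^{-1/2})+(c1c2/2)hu^β] ≤ (1-(c1c2/2)hu^β)V ≤ (1-(c1c2/2)r^βh)V`
(`(1-c1c2hu^β)(1+b(1+y)) ≤ (1-c1c2hu^β)(1+b)+by`, `1-c1c2hu^β ∈ [0,1]`).
`c = min((1/12)b0/(1+b0), (c1c2/2)r^β)`. For `D0 < 0` the set is empty. `h0 ≤ 1/1000` and `c h0 ≤ 1`.
-/

open MeasureTheory ProbabilityTheory Dyn
open scoped ENNReal

namespace DynS

private theorem DLB_case1 {α b y h c b0 : ℝ} (hα0 : 0 ≤ α) (hb : b0 ≤ b)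
    (hb0 : 0 < b0) (hy : 0 ≤ y) (hy1 : y ≤ h / 72) (hh : 0 ≤ h) (hh1 : h ≤ 1)
    (hc : c ≤ 1 / 12 * (b0 / (1 + b0))) :
    (1 - α) * (1 + b * (1 + y) * (1 - h / 9)) ≤ (1 - c * h) * (1 + b) := by
  have hbp : 0 < b := lt_of_lt_of_le hb0 hb
  have h1 : (1 + y) * (1 - h / 9) ≤ 1 - h / 12 := by nlinarith
  have h2 : 0 ≤ (1 + y) * (1 - h / 9) := mul_nonneg (by linarith) (by linarith)
  have h4 : b0 / (1 + b0) * (1 + b) ≤ b := by
    rw [div_mul_eq_mul_div, div_le_iff₀ (by positivity)]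
    nlinarith
  have h3 : c * (1 + b) ≤ b / 12 := by
    have h5 : c * (1 + b) ≤ 1 / 12 * (b0 / (1 + b0)) * (1 + b) :=
      mul_le_mul_of_nonneg_right hc (by linarith)
    nlinarith only [h4, h5]
  have h6 : b * ((1 + y) * (1 - h / 9)) ≤ b * (1 - h / 12) :=
    mul_le_mul_of_nonneg_left h1 hbp.le
  have h7 : 0 ≤ b * ((1 + y) * (1 - h / 9)) := mul_nonneg hbp.le h2
  have h8 : (1 - α) * (1 + b * ((1 + y) * (1 - h / 9))) ≤
      1 * (1 + b * ((1 + y) * (1 - h / 9))) :=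
    mul_le_mul_of_nonneg_right (by linarith) (by linarith)
  have h9 : h * (c * (1 + b)) ≤ h * (b / 12) := mul_le_mul_of_nonneg_left h3 hh
  calc (1 - α) * (1 + b * (1 + y) * (1 - h / 9))
      = (1 - α) * (1 + b * ((1 + y) * (1 - h / 9))) := by ring
    _ ≤ 1 * (1 + b * ((1 + y) * (1 - h / 9))) := h8
    _ ≤ (1 - c * h) * (1 + b) := by nlinarith only [h6, h9]

private theorem DLB_case2 {α b y h c : ℝ} (hα0 : 0 ≤ α) (hα1 : α ≤ 1) (hb : 0 ≤ b)
    (hy : 0 ≤ y) (hby : b * y ≤ α / 2) (hh : 0 ≤ h) (hc : c * h ≤ α / 2) :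
    (1 - α) * (1 + b * (1 + y) * (1 - h / 9)) ≤ (1 - c * h) * (1 + b) := by
  have h2 : b * (1 + y) * (1 - h / 9) ≤ b * (1 + y) * 1 :=
    mul_le_mul_of_nonneg_left (by linarith) (mul_nonneg hb (by linarith))
  have h3 : (1 - α) * (1 + b * (1 + y) * (1 - h / 9)) ≤ (1 - α) * (1 + b * (1 + y) * 1) :=
    mul_le_mul_of_nonneg_left (by linarith) (by linarith)
  have h4 : (1 - α) * (b * y) ≤ 1 * (b * y) :=
    mul_le_mul_of_nonneg_right (by linarith) (mul_nonneg hb hy)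
  have h5 : c * h * (1 + b) ≤ α / 2 * (1 + b) := mul_le_mul_of_nonneg_right hc (by linarith)
  nlinarith only [hby, h3, h4, h5, hα0, hb, mul_nonneg hα0 hb]

private theorem DLB_pow {u Z p x : ℝ} (hu : 0 < u) (hZ : 0 < Z) (hp : 0 < p) (hx : 0 ≤ x)
    (he : p * (1 + x) = u * Z) :
    p ^ (-(1 / 2) : ℝ) ≤ u ^ (-(1 / 2) : ℝ) * Z ^ (-(1 / 2) : ℝ) * (1 + x / 2) := by
  have h1 : (p * (1 + x)) ^ (-(1 / 2) : ℝ) = p ^ (-(1 / 2) : ℝ) * (1 + x) ^ (-(1 / 2) : ℝ) :=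
    Real.mul_rpow hp.le (by linarith)
  have h2 : (u * Z) ^ (-(1 / 2) : ℝ) = u ^ (-(1 / 2) : ℝ) * Z ^ (-(1 / 2) : ℝ) :=
    Real.mul_rpow hu.le hZ.le
  have h3 : (1 + x) ^ (-(1 / 2) : ℝ) * (1 + x) ^ ((1 / 2) : ℝ) = 1 := by
    rw [← Real.rpow_add (by linarith)]
    norm_num
  have h4 : (1 + x) ^ ((1 / 2) : ℝ) ≤ 1 + 1 / 2 * x :=
    _root_.rpow_one_add_le_one_add_mul_self (by linarith) (by norm_num) (by norm_num)
  have h5 : p ^ (-(1 / 2) : ℝ) =
      u ^ (-(1 / 2) : ℝ) * Z ^ (-(1 / 2) : ℝ) * (1 + x) ^ ((1 / 2) : ℝ) := by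
    rw [← h2, ← he, h1, mul_assoc, h3, mul_one]
  rw [h5]
  refine mul_le_mul_of_nonneg_left (by linarith) ?_
  rw [← h2]
  exact Real.rpow_nonneg (mul_pos hu hZ).le _

private theorem DLB_neg {N : ℕ} {β D0 h : ℝ} (hD : D0 < 0) (q : E N × E N)
    (hq : q ∈ dlA N β h D0) : False := by
  have h1 : dL q ≤ D0 := hq.2.2.2.2
  have h2 : 0 ≤ dL q := abs_nonneg _
  linarith

/-- pointwise bound of the potential after one step -/
private theorem DLB_pt {N : ℕ} {β D0 h B : ℝ} (hβ : 0 < β) (hB : 0 ≤ B) (hh : 0 < h)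
    {q : E N × E N} (hq : q ∈ dlA N β h D0) {ξ : E N}
    (hζ : 9 / 10 ≤ ‖uni q.1 + Real.sqrt h • ξ‖)
    (hζ1 : ‖uni q.1 + Real.sqrt h • ξ‖ ≤ 11 / 10) :
    dL (hat2 β h q ξ) * (1 + B * ‖(hat2 β h q ξ).1‖ ^ (-(1 / 2) : ℝ)) ≤
      ((1 - β / (2 + β) * (Real.exp (-(β * D0)) * (4 : ℝ) ^ (-β)) * (h * ‖q.1‖ ^ β)) * dL q) *
      (1 + B * ‖q.1‖ ^ (-(1 / 2) : ℝ) * (1 + (2 : ℝ) ^ β / 2 * (h * ‖q.1‖ ^ β)) *
        ‖uni q.1 + Real.sqrt h • ξ‖ ^ (-(1 / 2) : ℝ)) := by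
  have hu : 0 < ‖q.1‖ := norm_pos_iff.2 hq.1
  have hZ : 0 < ‖uni q.1 + Real.sqrt h • ξ‖ := by linarith
  have h1 := dl_det hβ hh hq hζ hζ1
  have h2 := hat_step hβ hh.le hq.1 hZ
  have h3 := hat_half hβ hh hq.1 hZ hζ1 hq.2.2.1
  have hpe : (hat2 β h q ξ).1 = hat β h q.1 ξ := rfl
  rw [hpe]
  have hp : 0 < ‖hat β h q.1 ξ‖ := norm_pos_iff.2 h2.1
  have hx : 0 ≤ h * ‖hat β h q.1 ξ‖ ^ β := mul_nonneg hh.le (Real.rpow_nonneg hp.le _)
  have h4 := DLB_pow hu hZ hp hx h2.2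
  have h5 : ‖hat β h q.1 ξ‖ ≤ 2 * ‖q.1‖ := by nlinarith only [hu, h3, hζ1, h3.2]
  have h6 : ‖hat β h q.1 ξ‖ ^ β ≤ (2 : ℝ) ^ β * ‖q.1‖ ^ β := by
    rw [← Real.mul_rpow (by norm_num) hu.le]
    exact Real.rpow_le_rpow hp.le h5 hβ.le
  have h7 : h * ‖hat β h q.1 ξ‖ ^ β / 2 ≤ (2 : ℝ) ^ β / 2 * (h * ‖q.1‖ ^ β) := by
    nlinarith only [h6, hh, mul_le_mul_of_nonneg_left h6 hh.le]
  have hU : 0 < ‖q.1‖ ^ (-(1 / 2) : ℝ) := Real.rpow_pos_of_pos hu _
  have hZZ : 0 < ‖uni q.1 + Real.sqrt h • ξ‖ ^ (-(1 / 2) : ℝ) := Real.rpow_pos_of_pos hZ _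
  have h8 : ‖hat β h q.1 ξ‖ ^ (-(1 / 2) : ℝ) ≤ ‖q.1‖ ^ (-(1 / 2) : ℝ) *
      ‖uni q.1 + Real.sqrt h • ξ‖ ^ (-(1 / 2) : ℝ) *
      (1 + (2 : ℝ) ^ β / 2 * (h * ‖q.1‖ ^ β)) :=
    h4.trans (mul_le_mul_of_nonneg_left (by linarith) (mul_pos hU hZZ).le)
  have h9 : 1 + B * ‖hat β h q.1 ξ‖ ^ (-(1 / 2) : ℝ) ≤
      1 + B * ‖q.1‖ ^ (-(1 / 2) : ℝ) * (1 + (2 : ℝ) ^ β / 2 * (h * ‖q.1‖ ^ β)) *
        ‖uni q.1 + Real.sqrt h • ξ‖ ^ (-(1 / 2) : ℝ) := by
    have := mul_le_mul_of_nonneg_left h8 hB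
    nlinarith only [this]
  have h10 : 0 ≤ dL (hat2 β h q ξ) := abs_nonneg _
  have h11 : 0 ≤ 1 + B * ‖hat β h q.1 ξ‖ ^ (-(1 / 2) : ℝ) := by
    have := mul_nonneg hB (Real.rpow_nonneg hp.le (-(1 / 2) : ℝ))
    linarith only [this]
  exact mul_le_mul h1 h9 h11 (h10.trans h1)

theorem dl_drift {N : ℕ} (hN : 3 ≤ N) {β : ℝ} (hβ : 0 < β) (D0 : ℝ) : ∃ c B h0 : ℝ, 0 < c ∧
    0 < B ∧ 0 < h0 ∧ h0 ≤ 1 / 1000 ∧ c * h0 ≤ 1 ∧
    ∀ (h : ℝ) (ν : Measure (E N)), 0 < h → h < h0 → IsNoise h ν → ∀ q ∈ dlA N β h D0,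
      ∫⁻ ξ, ENNReal.ofReal (dL (hat2 β h q ξ) *
          (1 + B * ‖(hat2 β h q ξ).1‖ ^ (-(1 / 2) : ℝ))) ∂ν ≤
        ENNReal.ofReal (1 - c * h) *
          ENNReal.ofReal (dL q * (1 + B * ‖q.1‖ ^ (-(1 / 2) : ℝ))) := by
  rcases lt_or_ge D0 0 with hD | hD
  · exact ⟨1 / 12, 1, 1 / 1000, by norm_num, by norm_num, by norm_num, le_rfl, by norm_num,
      fun h ν _ _ _ q hq => (DLB_neg hD q hq).elim⟩
  obtain ⟨C, h1, hC, hh1, hz⟩ := zeta_pow N (by omega) (-(1 / 2) : ℝ)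
  -- constants
  set cc : ℝ := β / (2 + β) * (Real.exp (-(β * D0)) * (4 : ℝ) ^ (-β)) with hcc
  have h2b : 0 < (2 : ℝ) ^ β := Real.rpow_pos_of_pos (by norm_num) _
  have hcc0 : 0 < cc := by
    have : 0 < (4 : ℝ) ^ (-β) := Real.rpow_pos_of_pos (by norm_num) _
    rw [hcc]
    positivity
  have hcc1 : cc ≤ 1 := by
    have e1 : β / (2 + β) ≤ 1 := by
      rw [div_le_one (by linarith)]
      linarith
    have e2 : Real.exp (-(β * D0)) ≤ 1 := Real.exp_le_one_iff.2 (by nlinarith)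
    have e3 : (4 : ℝ) ^ (-β) ≤ 1 :=
      Real.rpow_le_one_of_one_le_of_nonpos (by norm_num) (by linarith)
    have e4 : 0 < (4 : ℝ) ^ (-β) := Real.rpow_pos_of_pos (by norm_num) _
    have e5 : Real.exp (-(β * D0)) * (4 : ℝ) ^ (-β) ≤ 1 * 1 :=
      mul_le_mul e2 e3 e4.le (by norm_num)
    have e6 : cc ≤ 1 * 1 := by
      rw [hcc]
      exact mul_le_mul e1 (by linarith) (by positivity) (by norm_num)
    linarith
  set rb : ℝ := ((2 : ℝ) ^ β)⁻¹ / 36 with hrb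
  have hrb0 : 0 < rb := by
    rw [hrb]
    positivity
  set r : ℝ := rb ^ (1 / β) with hr
  have hr0 : 0 < r := Real.rpow_pos_of_pos hrb0 _
  have hrβ : r ^ β = rb := by
    rw [hr, ← Real.rpow_mul hrb0.le, one_div, inv_mul_cancel₀ hβ.ne', Real.rpow_one]
  set b0 : ℝ := cc / (2 : ℝ) ^ β with hb0d
  have hb0 : 0 < b0 := div_pos hcc0 h2b
  set B : ℝ := b0 * r ^ (1 / 2 : ℝ) with hBd
  have hB : 0 < B := mul_pos hb0 (Real.rpow_pos_of_pos hr0 _)
  have hBr : B * r ^ (-(1 / 2) : ℝ) = b0 := by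
    rw [hBd, mul_assoc, ← Real.rpow_add hr0]
    norm_num
  set c : ℝ := min (1 / 12 * (b0 / (1 + b0))) (cc / 2 * rb) with hcd
  have hc0 : 0 < c := lt_min (by positivity) (by positivity)
  have hc1 : c ≤ 1 / 12 * (b0 / (1 + b0)) := min_le_left _ _
  have hc2 : c ≤ cc / 2 * rb := min_le_right _ _
  have hc12 : c ≤ 1 / 12 := by
    have : b0 / (1 + b0) ≤ 1 := by
      rw [div_le_one (by linarith)]
      linarith
    linarith
  set h2 : ℝ := (1 / (72 * C)) ^ (8 : ℝ) with hh2d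
  have hh2 : 0 < h2 := Real.rpow_pos_of_pos (by positivity) _
  refine ⟨c, B, min (1 / 1000) (min h1 h2), hc0, hB, lt_min (by norm_num) (lt_min hh1 hh2),
    min_le_left _ _, ?_, ?_⟩
  · have : min (1 / 1000) (min h1 h2) ≤ 1 / 1000 := min_le_left _ _
    have h0 : 0 < min (1 / 1000 : ℝ) (min h1 h2) := lt_min (by norm_num) (lt_min hh1 hh2)
    nlinarith only [hc12, hc0, this]
  intro h ν hh hhlt hν q hq
  have hlt1 : h < 1 / 1000 := hhlt.trans_le (min_le_left _ _)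
  have hlt2 : h < h1 := hhlt.trans_le ((min_le_right _ _).trans (min_le_left _ _))
  have hlt3 : h < h2 := hhlt.trans_le ((min_le_right _ _).trans (min_le_right _ _))
  have hu : 0 < ‖q.1‖ := norm_pos_iff.2 hq.1
  have hun : ‖uni q.1‖ = 1 := uni_norm hq.1
  have := hν.prob
  -- moment bound
  set Em : ℝ := ∫ ξ, ‖uni q.1 + Real.sqrt h • ξ‖ ^ (-(1 / 2) : ℝ) ∂ν with hEm
  have hEm1 : Em ≤ 1 - h / 9 := by
    have e1 := hz h ν hh hlt2 hν (uni q.1) hun
    have e2 : C * h ^ (9 / 8 : ℝ) ≤ h / 72 := by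
      have e3 : h ^ (9 / 8 : ℝ) = h * h ^ (1 / 8 : ℝ) := by
        rw [show (9 / 8 : ℝ) = 1 + 1 / 8 by norm_num, Real.rpow_add hh, Real.rpow_one]
      have e4 : h ^ (1 / 8 : ℝ) ≤ 1 / (72 * C) := by
        have e5 : h ^ (1 / 8 : ℝ) ≤ h2 ^ (1 / 8 : ℝ) :=
          Real.rpow_le_rpow hh.le hlt3.le (by norm_num)
        have e6 : h2 ^ (1 / 8 : ℝ) = 1 / (72 * C) := by
          rw [hh2d, ← Real.rpow_mul (by positivity)]
          norm_num
        rw [← e6]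
        exact e5
      rw [e3]
      have e7 : C * h ^ (1 / 8 : ℝ) ≤ 1 / 72 := by
        have e8 := mul_le_mul_of_nonneg_left e4 hC.le
        have e9 : C * (1 / (72 * C)) = 1 / 72 := by
          field_simp
        linarith only [e8, e9]
      have e10 := mul_le_mul_of_nonneg_left e7 hh.le
      linarith only [e10]
    have e11 := (abs_le.1 e1).2
    have e12 : (3 : ℝ) ≤ N := by exact_mod_cast hN
    have e13 : (-(1 / 2) : ℝ) / 2 * (N + -(1 / 2) - 2) * h ≤ -(1 / 8) * h := by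
      refine mul_le_mul_of_nonneg_right ?_ hh.le
      linarith only [e12]
    linarith only [e2, e11, e13]
  -- notation
  set s : ℝ := h * ‖q.1‖ ^ β with hs
  have hs0 : 0 ≤ s := mul_nonneg hh.le (Real.rpow_nonneg hu.le _)
  have hs1 : s ≤ 1 := hq.2.2.1
  set b : ℝ := B * ‖q.1‖ ^ (-(1 / 2) : ℝ) with hb
  have hbp : 0 < b := mul_pos hB (Real.rpow_pos_of_pos hu _)
  set y : ℝ := (2 : ℝ) ^ β / 2 * s with hy
  have hy0 : 0 ≤ y := by positivity
  have hα0 : 0 ≤ cc * s := mul_nonneg hcc0.le hs0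
  have hα1 : cc * s ≤ 1 := by nlinarith only [hcc1, hcc0, hs1]
  -- core inequality
  have hcore : (1 - cc * s) * (1 + b * (1 + y) * (1 - h / 9)) ≤ (1 - c * h) * (1 + b) := by
    rcases le_or_gt ‖q.1‖ r with hur | hur
    · have e1 : ‖q.1‖ ^ β ≤ rb := by
        rw [← hrβ]
        exact Real.rpow_le_rpow hu.le hur hβ.le
      have e2 : y ≤ h / 72 := by
        have e3 : s ≤ h * rb := mul_le_mul_of_nonneg_left e1 hh.le
        have e4 : y ≤ (2 : ℝ) ^ β / 2 * (h * rb) :=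
          mul_le_mul_of_nonneg_left e3 (by positivity)
        have e5 : (2 : ℝ) ^ β / 2 * (h * rb) = h / 72 := by
          rw [hrb]
          field_simp
          norm_num
        linarith only [e4, e5]
      have e6 : b0 ≤ b := by
        rw [← hBr, hb]
        exact mul_le_mul_of_nonneg_left
          (Real.rpow_le_rpow_of_nonpos hu hur (by norm_num)) hB.le
      exact DLB_case1 hα0 e6 hb0 hy0 e2 hh.le (by linarith) hc1
    · have e1 : rb ≤ ‖q.1‖ ^ β := by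
        rw [← hrβ]
        exact Real.rpow_le_rpow hr0.le hur.le hβ.le
      have e2 : b ≤ b0 := by
        rw [← hBr, hb]
        exact mul_le_mul_of_nonneg_left
          (Real.rpow_le_rpow_of_nonpos hr0 hur.le (by norm_num)) hB.le
      have e3 : b * y ≤ cc * s / 2 := by
        have e4 : b * y ≤ b0 * y := mul_le_mul_of_nonneg_right e2 hy0
        have e5 : b0 * y = cc * s / 2 := by
          rw [hb0d, hy]
          field_simp
        linarith only [e4, e5]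
      have e6 : c * h ≤ cc * s / 2 := by
        have e7 : h * rb ≤ s := mul_le_mul_of_nonneg_left e1 hh.le
        have e8 := mul_le_mul_of_nonneg_right hc2 hh.le
        have e9 := mul_le_mul_of_nonneg_left e7 (half_pos hcc0).le
        nlinarith only [e8, e9]
      exact DLB_case2 hα0 hα1 hbp.le hy0 e3 hh.le e6
  -- integrate
  have hdL0 : 0 ≤ dL q := abs_nonneg _
  have hint := zeta_pow_int hh hlt1 hν (-(1 / 2) : ℝ) hun
  have hint2 : Integrable (fun ξ => ((1 - cc * s) * dL q) *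
      (1 + b * (1 + y) * ‖uni q.1 + Real.sqrt h • ξ‖ ^ (-(1 / 2) : ℝ))) ν :=
    ((integrable_const (1 : ℝ)).add (hint.const_mul (b * (1 + y)))).const_mul _
  have hval : ∫ ξ, ((1 - cc * s) * dL q) *
      (1 + b * (1 + y) * ‖uni q.1 + Real.sqrt h • ξ‖ ^ (-(1 / 2) : ℝ)) ∂ν =
      ((1 - cc * s) * dL q) * (1 + b * (1 + y) * Em) := by
    rw [integral_const_mul, integral_add (integrable_const _) (hint.const_mul _),
      integral_const_mul, integral_const]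
    simp [hEm]
  have hpt : ∀ᵐ ξ ∂ν, ENNReal.ofReal (dL (hat2 β h q ξ) *
      (1 + B * ‖(hat2 β h q ξ).1‖ ^ (-(1 / 2) : ℝ))) ≤
      ENNReal.ofReal (((1 - cc * s) * dL q) *
      (1 + b * (1 + y) * ‖uni q.1 + Real.sqrt h • ξ‖ ^ (-(1 / 2) : ℝ))) := by
    filter_upwards [noise_ae hh hlt1 hν] with ξ hξ
    obtain ⟨z1, z2⟩ := hξ.2 (uni q.1) hun
    exact ENNReal.ofReal_le_ofReal (DLB_pt hβ hB.le hh hq z1 z2)
  have hnn : 0 ≤ᵐ[ν] fun ξ => ((1 - cc * s) * dL q) *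
      (1 + b * (1 + y) * ‖uni q.1 + Real.sqrt h • ξ‖ ^ (-(1 / 2) : ℝ)) := by
    refine Filter.Eventually.of_forall fun ξ => ?_
    have e1 : 0 ≤ ‖uni q.1 + Real.sqrt h • ξ‖ ^ (-(1 / 2) : ℝ) :=
      Real.rpow_nonneg (norm_nonneg _) _
    have e2 : 0 ≤ b * (1 + y) := mul_nonneg hbp.le (by linarith only [hh, hlt1, hy0])
    have e3 : 0 ≤ 1 - cc * s := by linarith only [hα1]
    exact mul_nonneg (mul_nonneg e3 hdL0) (by nlinarith only [hh, hlt1, e2, e1, mul_nonneg e2 e1])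
  calc ∫⁻ ξ, ENNReal.ofReal (dL (hat2 β h q ξ) *
          (1 + B * ‖(hat2 β h q ξ).1‖ ^ (-(1 / 2) : ℝ))) ∂ν
      ≤ ∫⁻ ξ, ENNReal.ofReal (((1 - cc * s) * dL q) *
      (1 + b * (1 + y) * ‖uni q.1 + Real.sqrt h • ξ‖ ^ (-(1 / 2) : ℝ))) ∂ν :=
        lintegral_mono_ae hpt
    _ = ENNReal.ofReal (((1 - cc * s) * dL q) * (1 + b * (1 + y) * Em)) := by
        rw [← ofReal_integral_eq_lintegral_ofReal hint2 hnn, hval]
    _ ≤ ENNReal.ofReal ((1 - c * h) * (dL q * (1 + b))) := by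
        refine ENNReal.ofReal_le_ofReal ?_
        have e2 : 0 ≤ b * (1 + y) := mul_nonneg hbp.le (by linarith only [hh, hlt1, hy0])
        have e3 : 0 ≤ 1 - cc * s := by linarith only [hα1]
        have e4 : 1 + b * (1 + y) * Em ≤ 1 + b * (1 + y) * (1 - h / 9) := by
          have := mul_le_mul_of_nonneg_left hEm1 e2
          linarith only [this]
        have e5 : (1 - cc * s) * (1 + b * (1 + y) * Em) ≤ (1 - c * h) * (1 + b) :=
          (mul_le_mul_of_nonneg_left e4 e3).trans hcore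
        have e6 := mul_le_mul_of_nonneg_left e5 hdL0
        calc (1 - cc * s) * dL q * (1 + b * (1 + y) * Em)
            = dL q * ((1 - cc * s) * (1 + b * (1 + y) * Em)) := by ring
          _ ≤ dL q * ((1 - c * h) * (1 + b)) := e6
          _ = (1 - c * h) * (dL q * (1 + b)) := by ring
    _ = ENNReal.ofReal (1 - c * h) * ENNReal.ofReal (dL q * (1 + b)) := by
        refine ENNReal.ofReal_mul ?_
        nlinarith only [hc12, hc0, hlt1]

end DynS

end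

/-! ### from `Lib_MP_36b788s.OneA` -/

section

/-!
# ONE, part A: deterministic estimates for `N = 1`

`S1 x = Σ_y κ^{|x-y|}‖G y‖`, `Ph1 = Σ_x 2^{-|x0-x|}√(S1 x)`.

PROOF.
* `one_coup` (any `N`): `‖coup G y‖ ≤ Σ_{z∈nb y}‖G z‖ + 2d‖G y‖`. `Σ_yκ^{|x-y|}kΣ_{z∈nb y}‖G z‖ = Σ_z‖G z‖Σ_{y∈nb z}kκ^{|x-y|}` (`nb_symm`), and
  `kκ^{|x-y|} = κ^{|x-y|+1}/A ≤ κ^{|x-z|}/A` (`κ ≤ 1`, `|x-z| ≤ |x-y|+1`), at most `2d` neighbours: `≤ (2d/A)S1 x`. Second part: `k = κ/A ≤ 1/A`: `≤ (2d/A)S1 x`.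
* `one_det`: `‖stp y‖ ≤ ‖hat (G y)(ξ y)‖ + kh‖coup G y‖`, `‖hat g ξ‖ ≤ ‖g+√h‖g‖ξ‖ = ‖g‖‖e+√hξ‖` (`e = uni g`, `g ≠ 0`), and for `N = 1`, `ξ = ⟪e,ξ⟫e`:
  `‖e+√hξ‖ = |1+√h⟪e,ξ⟫| = 1+√h⟪e,ξ⟫`. For `g = 0` both sides are zero. Then `one_coup`.
* `one_sqrt`: square; `1/4-2a-at+a²t² ≥ 0` for `a = 9/80`, `|t| ≤ 1/5`: `1/40 ≥ (9/80)(1/5)`.
* `one_bad`: if `‖G x‖ < S_x/2` then `S_x ≤ 2Σ_{y≠x}κ^{|x-y|}‖G y‖ ≤ 2Σ_{y≠x}κ^{|x-y|}S_y`, so `√S_x ≤ √2Σ_{y≠x}(√κ)^{|x-y|}√S_y` (`√(Σa_i) ≤ Σ√a_i`).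
  `2^{-|x0-x|} ≤ 2^{-|x0-y|}2^{|x-y|}`. Hence the sum over bad `x` is `≤ √2Σ_y2^{-|x0-y|}√S_yΣ_{x≠y}(2√κ)^{|x-y|}` and, for `n ≥ 1`,
  `(2√κ)^n = (4√κ)^n2^{-n} ≤ 4√κ2^{-n}` (`4√κ ≤ 1`), `Σ_x2^{-|x-y|} ≤ 3^d`: total `≤ 4√2√κ3^d Ph1 ≤ Ph1/2` since `128·9^dκ ≤ 1`.
-/

open MeasureTheory ProbabilityTheory Dyn
open scoped ENNReal

namespace DynS

noncomputable section

variable {N d : ℕ} {ι : Type} [Fintype ι]

def S1 (net : Net ι d) (κ : ℝ) (G : ι → E N) (x : ι) : ℝ := ∑ y, κ ^ net.dist x y * ‖G y‖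

def Ph1 (net : Net ι d) (κ : ℝ) (x0 : ι) (G : ι → E N) : ℝ :=
  ∑ x, (1 / 2 : ℝ) ^ net.dist x0 x * Real.sqrt (S1 net κ G x)

private theorem OneA_coup (net : Net ι d) (G : ι → E N) (y : ι) :
    ‖coup net G y‖ ≤ ∑ z ∈ net.nb y, ‖G z‖ + 2 * d * ‖G y‖ := by
  unfold coup
  refine (norm_sub_le _ _).trans (add_le_add (norm_sum_le _ _) (le_of_eq ?_))
  rw [norm_smul, Real.norm_of_nonneg (Nat.cast_nonneg _)]
  push_cast
  ring

theorem one_coup (net : Net ι d) {κ k A : ℝ} (hA : 0 < A) (hk : 0 ≤ k) (hκ : κ = A * k)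
    (hκ1 : κ ≤ 1) (G : ι → E N) (x : ι) :
    ∑ y, κ ^ net.dist x y * (k * ‖coup net G y‖) ≤ 4 * d / A * S1 net κ G x := by
  have hκ0 : 0 ≤ κ := by rw [hκ]; positivity
  have hkA : k = κ / A := by rw [hκ]; field_simp
  have h1 : ∑ y, κ ^ net.dist x y * (k * ‖coup net G y‖) ≤
      ∑ y, ∑ z ∈ net.nb y, κ ^ net.dist x y * k * ‖G z‖ +
      ∑ y, κ ^ net.dist x y * k * (2 * d * ‖G y‖) := by
    rw [← Finset.sum_add_distrib]
    refine Finset.sum_le_sum fun y _ => ?_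
    rw [← Finset.mul_sum, ← mul_add, ← mul_assoc]
    exact mul_le_mul_of_nonneg_left (OneA_coup net G y) (by positivity)
  have h2 : ∑ y, ∑ z ∈ net.nb y, κ ^ net.dist x y * k * ‖G z‖ =
      ∑ z, ∑ y ∈ net.nb z, κ ^ net.dist x y * k * ‖G z‖ := by
    refine Finset.sum_comm' fun a b => ?_
    simp only [Finset.mem_univ, true_and, and_true]
    exact ⟨fun h => net.nb_symm _ _ h, fun h => net.nb_symm _ _ h⟩
  have h3 : ∑ z, ∑ y ∈ net.nb z, κ ^ net.dist x y * k * ‖G z‖ ≤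
      ∑ z, 2 * d / A * (κ ^ net.dist x z * ‖G z‖) := by
    refine Finset.sum_le_sum fun z _ => ?_
    have h4 : ∑ y ∈ net.nb z, κ ^ net.dist x y * k * ‖G z‖ ≤
        ∑ _y ∈ net.nb z, κ ^ net.dist x z / A * ‖G z‖ := by
      refine Finset.sum_le_sum fun y hy => ?_
      refine mul_le_mul_of_nonneg_right ?_ (norm_nonneg _)
      have h5 : net.dist x z ≤ net.dist x y + 1 := by
        have h6 := net.dist_tri x y z
        have h7 := net.dist_nb y z (net.nb_symm _ _ hy)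
        omega
      have h8 : κ ^ net.dist x y * k = κ ^ (net.dist x y + 1) / A := by
        rw [hkA, pow_succ]
        ring
      rw [h8]
      exact div_le_div_of_nonneg_right (pow_le_pow_of_le_one hκ0 hκ1 h5) hA.le
    refine h4.trans ?_
    rw [Finset.sum_const, nsmul_eq_mul]
    have h9 : ((net.nb z).card : ℝ) ≤ 2 * d := by exact_mod_cast net.nb_card z
    have h10 : 0 ≤ κ ^ net.dist x z / A * ‖G z‖ := by positivity
    calc ((net.nb z).card : ℝ) * (κ ^ net.dist x z / A * ‖G z‖)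
        ≤ 2 * d * (κ ^ net.dist x z / A * ‖G z‖) := mul_le_mul_of_nonneg_right h9 h10
      _ = 2 * d / A * (κ ^ net.dist x z * ‖G z‖) := by ring
  have h4 : ∑ y, κ ^ net.dist x y * k * (2 * d * ‖G y‖) ≤
      ∑ y, 2 * d / A * (κ ^ net.dist x y * ‖G y‖) := by
    refine Finset.sum_le_sum fun y _ => ?_
    have h5 : k ≤ 1 / A := by
      rw [hkA]
      exact div_le_div_of_nonneg_right hκ1 hA.le
    calc κ ^ net.dist x y * k * (2 * d * ‖G y‖)
        = k * (κ ^ net.dist x y * (2 * d * ‖G y‖)) := by ring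
      _ ≤ 1 / A * (κ ^ net.dist x y * (2 * d * ‖G y‖)) :=
        mul_le_mul_of_nonneg_right h5 (by positivity)
      _ = 2 * d / A * (κ ^ net.dist x y * ‖G y‖) := by ring
  rw [← Finset.mul_sum] at h3 h4
  have h5 : ∑ y, κ ^ net.dist x y * ‖G y‖ = S1 net κ G x := rfl
  rw [h5] at h3 h4
  rw [h2] at h1
  calc ∑ y, κ ^ net.dist x y * (k * ‖coup net G y‖)
      ≤ 2 * d / A * S1 net κ G x + 2 * d / A * S1 net κ G x := h1.trans (add_le_add h3 h4)
    _ = 4 * d / A * S1 net κ G x := by ring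

private theorem OneA_vec {h : ℝ} (g ξ : E 1) (hg : g ≠ 0) :
    g + (Real.sqrt h * ‖g‖) • ξ = (1 + Real.sqrt h * inner ℝ (uni g) ξ) • g := by
  have hn : 0 < ‖g‖ := norm_pos_iff.2 hg
  have h1 : ‖g‖ ^ 2 = g 0 ^ 2 := by
    rw [EuclideanSpace.norm_sq_eq]
    simp
  have h2 : inner ℝ (uni g) ξ = 1 / ‖g‖ * (g 0 * ξ 0) := by
    unfold uni
    rw [real_inner_smul_left, PiLp.inner_apply]
    simp [mul_comm]
  rw [h2]
  ext i
  have hi : i = 0 := Subsingleton.elim _ _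
  subst hi
  simp only [PiLp.add_apply, PiLp.smul_apply, smul_eq_mul]
  have h3 : (1 + Real.sqrt h * (1 / ‖g‖ * (g 0 * ξ 0))) * g 0 =
      g 0 + Real.sqrt h * (1 / ‖g‖ * (g 0 ^ 2 * ξ 0)) := by ring
  rw [h3, ← h1]
  field_simp

private theorem OneA_hat {β h : ℝ} (hβ : 0 < β) (hh : 0 < h) (g ξ : E 1)
    (hξ : Real.sqrt h * ‖ξ‖ ≤ 1 / 10) :
    ‖hat β h g ξ‖ ≤ ‖g‖ + Real.sqrt h * (‖g‖ * inner ℝ (uni g) ξ) := by
  rcases eq_or_ne g 0 with hg | hg
  · rw [hg, hat_zero]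
    simp
  · have h1 : ‖hat β h g ξ‖ ≤ ‖g + (Real.sqrt h * ‖g‖) • ξ‖ := by
      unfold hat
      rw [norm_J hβ hh.le]
      exact psi_le hβ hh.le (norm_nonneg _)
    refine h1.trans (le_of_eq ?_)
    have hu : ‖uni g‖ = 1 := by
      unfold uni
      rw [norm_smul, Real.norm_of_nonneg (by positivity)]
      have : ‖g‖ ≠ 0 := norm_ne_zero_iff.2 hg
      field_simp
    have h2 : |Real.sqrt h * inner ℝ (uni g) ξ| ≤ 1 / 10 := by
      rw [abs_mul, abs_of_nonneg (Real.sqrt_nonneg h)]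
      refine le_trans (mul_le_mul_of_nonneg_left ?_ (Real.sqrt_nonneg h)) hξ
      have := abs_real_inner_le_norm (uni g) ξ
      rwa [hu, one_mul] at this
    have h3 : 0 ≤ 1 + Real.sqrt h * inner ℝ (uni g) ξ := by
      have := (abs_le.1 h2).1
      linarith
    rw [OneA_vec g ξ hg, norm_smul, Real.norm_of_nonneg h3]
    ring

theorem one_det (net : Net ι d) {β h κ k A : ℝ} (hβ : 0 < β) (hh : 0 < h) (hA : 0 < A)
    (hk : 0 ≤ k) (hκ : κ = A * k) (hκ1 : κ ≤ 1) (G ξ : ι → E 1)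
    (hξ : ∀ y, Real.sqrt h * ‖ξ y‖ ≤ 1 / 10) (x : ι) :
    S1 net κ (stp net β h k G ξ) x ≤ S1 net κ G x +
      Real.sqrt h * ∑ y, κ ^ net.dist x y * ‖G y‖ * inner ℝ (uni (G y)) (ξ y) +
      h * (4 * d / A * S1 net κ G x) := by
  have hκ0 : 0 ≤ κ := by rw [hκ]; positivity
  have h1 : ∀ y, ‖stp net β h k G ξ y‖ ≤ ‖G y‖ +
      Real.sqrt h * (‖G y‖ * inner ℝ (uni (G y)) (ξ y)) + h * (k * ‖coup net G y‖) := by
    intro y
    unfold stp
    refine (norm_add_le _ _).trans (add_le_add (OneA_hat hβ hh (G y) (ξ y) (hξ y)) ?_)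
    rw [norm_smul, Real.norm_of_nonneg (mul_nonneg hk hh.le)]
    exact le_of_eq (by ring)
  have h2 := one_coup net hA hk hκ hκ1 G x
  calc S1 net κ (stp net β h k G ξ) x
      ≤ ∑ y, κ ^ net.dist x y * (‖G y‖ + Real.sqrt h * (‖G y‖ * inner ℝ (uni (G y)) (ξ y)) +
          h * (k * ‖coup net G y‖)) := by
        unfold S1
        exact Finset.sum_le_sum fun y _ =>
          mul_le_mul_of_nonneg_left (h1 y) (pow_nonneg hκ0 _)
    _ = S1 net κ G x + Real.sqrt h * ∑ y, κ ^ net.dist x y * ‖G y‖ *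
          inner ℝ (uni (G y)) (ξ y) + h * ∑ y, κ ^ net.dist x y * (k * ‖coup net G y‖) := by
        unfold S1
        rw [Finset.mul_sum, Finset.mul_sum, ← Finset.sum_add_distrib, ← Finset.sum_add_distrib]
        exact Finset.sum_congr rfl fun y _ => by ring
    _ ≤ _ := by
        have := mul_le_mul_of_nonneg_left h2 hh.le
        linarith

theorem one_sqrt {t : ℝ} (ht : |t| ≤ 1 / 5) : Real.sqrt (1 + t) ≤ 1 + t / 2 - 9 / 80 * t ^ 2 := by
  obtain ⟨h1, h2⟩ := abs_le.1 ht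
  have h3 : 0 ≤ 1 + t / 2 - 9 / 80 * t ^ 2 := by nlinarith
  refine Real.sqrt_le_iff.2 ⟨h3, ?_⟩
  have h4 : (1 + t / 2 - 9 / 80 * t ^ 2) ^ 2 =
      1 + t + t ^ 2 * (1 / 40 - 9 / 80 * t + (9 / 80 * t) ^ 2) := by ring
  rw [h4]
  have h5 : 0 ≤ 1 / 40 - 9 / 80 * t + (9 / 80 * t) ^ 2 := by nlinarith only [h2, sq_nonneg (9 / 80 * t)]
  nlinarith only [h5, mul_nonneg (sq_nonneg t) h5]

private theorem OneA_sqrt_sum {α : Type} (s : Finset α) (f : α → ℝ) (hf : ∀ i ∈ s, 0 ≤ f i) :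
    Real.sqrt (∑ i ∈ s, f i) ≤ ∑ i ∈ s, Real.sqrt (f i) := by
  classical
  induction s using Finset.induction_on with
  | empty => simp
  | insert a s ha ih =>
    rw [Finset.sum_insert ha, Finset.sum_insert ha]
    have h1 := ih fun i hi => hf i (Finset.mem_insert_of_mem hi)
    have h2 := hf a (Finset.mem_insert_self a s)
    have h3 : 0 ≤ ∑ i ∈ s, f i := Finset.sum_nonneg fun i hi => hf i (Finset.mem_insert_of_mem hi)
    refine le_trans ?_ (add_le_add le_rfl h1)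
    refine Real.sqrt_le_iff.2 ⟨by positivity, ?_⟩
    have h4 := Real.sq_sqrt h2
    have h5 := Real.sq_sqrt h3
    have h6 : 0 ≤ Real.sqrt (f a) * Real.sqrt (∑ i ∈ s, f i) := by positivity
    nlinarith

private theorem OneA_pow {κ : ℝ} (hκ : 0 ≤ κ) (h4 : 4 * Real.sqrt κ ≤ 1) {n : ℕ} (hn : 1 ≤ n) :
    (2 : ℝ) ^ n * Real.sqrt (κ ^ n) ≤ 4 * Real.sqrt κ * (1 / 2) ^ n := by
  have h1 : Real.sqrt (κ ^ n) = Real.sqrt κ ^ n := Real.sqrt_eq_iff_mul_self_eq (by positivity)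
    (by positivity) |>.2 (by rw [← mul_pow, Real.mul_self_sqrt hκ])
  have h2 : (2 : ℝ) ^ n * Real.sqrt κ ^ n = (4 * Real.sqrt κ) ^ n * (1 / 2) ^ n := by
    rw [← mul_pow, ← mul_pow]
    congr 1
    ring
  rw [h1, h2]
  refine mul_le_mul_of_nonneg_right ?_ (by positivity)
  calc (4 * Real.sqrt κ) ^ n ≤ (4 * Real.sqrt κ) ^ 1 :=
        pow_le_pow_of_le_one (by positivity) h4 hn
    _ = 4 * Real.sqrt κ := pow_one _

private theorem OneA_S1_nonneg (net : Net ι d) {κ : ℝ} (hκ : 0 ≤ κ) (G : ι → E N) (x : ι) :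
    0 ≤ S1 net κ G x := Finset.sum_nonneg fun y _ => by positivity

private theorem OneA_le_S1 (net : Net ι d) {κ : ℝ} (hκ : 0 ≤ κ) (G : ι → E N) (x : ι) :
    ‖G x‖ ≤ S1 net κ G x := by
  unfold S1
  have h1 : κ ^ net.dist x x * ‖G x‖ = ‖G x‖ := by rw [net.dist_self, pow_zero, one_mul]
  rw [← h1]
  exact Finset.single_le_sum (f := fun y => κ ^ net.dist x y * ‖G y‖)
    (fun y _ => by positivity) (Finset.mem_univ x)

open Classical in
private theorem OneA_badx (net : Net ι d) {κ : ℝ} (hκ : 0 ≤ κ) (G : ι → E N) (x : ι)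
    (hb : ‖G x‖ < S1 net κ G x / 2) :
    Real.sqrt (S1 net κ G x) ≤ Real.sqrt 2 * ∑ y ∈ Finset.univ.erase x,
      Real.sqrt (κ ^ net.dist x y) * Real.sqrt (S1 net κ G y) := by
  have h1 : S1 net κ G x = ‖G x‖ + ∑ y ∈ Finset.univ.erase x, κ ^ net.dist x y * ‖G y‖ := by
    unfold S1
    rw [← Finset.add_sum_erase _ _ (Finset.mem_univ x), net.dist_self, pow_zero, one_mul]
  have h2 : S1 net κ G x ≤ 2 * ∑ y ∈ Finset.univ.erase x, κ ^ net.dist x y * S1 net κ G y := by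
    have h3 : ∑ y ∈ Finset.univ.erase x, κ ^ net.dist x y * ‖G y‖ ≤
        ∑ y ∈ Finset.univ.erase x, κ ^ net.dist x y * S1 net κ G y :=
      Finset.sum_le_sum fun y _ =>
        mul_le_mul_of_nonneg_left (OneA_le_S1 net hκ G y) (by positivity)
    linarith
  refine (Real.sqrt_le_sqrt h2).trans ?_
  rw [Real.sqrt_mul (by norm_num)]
  refine mul_le_mul_of_nonneg_left ?_ (Real.sqrt_nonneg 2)
  refine (OneA_sqrt_sum _ _ fun y _ => ?_).trans (le_of_eq ?_)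
  · have := OneA_S1_nonneg net hκ G y
    positivity
  · exact Finset.sum_congr rfl fun y _ => Real.sqrt_mul (pow_nonneg hκ _) _

open Classical in
theorem one_bad (net : Net ι d) {κ : ℝ} (hκ : 0 ≤ κ) (hκ1 : 128 * 9 ^ d * κ ≤ 1) (x0 : ι)
    (G : ι → E N) :
    ∑ x, (if ‖G x‖ < S1 net κ G x / 2 then
      (1 / 2 : ℝ) ^ net.dist x0 x * Real.sqrt (S1 net κ G x) else 0) ≤
      1 / 2 * Ph1 net κ x0 G := by
  have h9 : (1 : ℝ) ≤ 9 ^ d := one_le_pow₀ (by norm_num)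
  have hκs : κ ≤ 1 / 16 := by nlinarith
  have h4 : 4 * Real.sqrt κ ≤ 1 := by
    have : Real.sqrt κ ≤ 1 / 4 := Real.sqrt_le_iff.2 ⟨by norm_num, by linarith⟩
    linarith
  have hS := fun y => OneA_S1_nonneg net hκ G y
  -- pointwise
  have h5 : ∀ x, (if ‖G x‖ < S1 net κ G x / 2 then
      (1 / 2 : ℝ) ^ net.dist x0 x * Real.sqrt (S1 net κ G x) else 0) ≤
      ∑ y, Real.sqrt 2 * (4 * Real.sqrt κ) * ((1 / 2) ^ net.dist y x *
        ((1 / 2) ^ net.dist x0 y * Real.sqrt (S1 net κ G y))) := by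
    intro x
    split_ifs with hb
    · have h6 := OneA_badx net hκ G x hb
      calc (1 / 2 : ℝ) ^ net.dist x0 x * Real.sqrt (S1 net κ G x)
          ≤ (1 / 2 : ℝ) ^ net.dist x0 x * (Real.sqrt 2 * ∑ y ∈ Finset.univ.erase x,
            Real.sqrt (κ ^ net.dist x y) * Real.sqrt (S1 net κ G y)) :=
            mul_le_mul_of_nonneg_left h6 (by positivity)
        _ = ∑ y ∈ Finset.univ.erase x, Real.sqrt 2 * ((1 / 2 : ℝ) ^ net.dist x0 x *
            Real.sqrt (κ ^ net.dist x y)) * Real.sqrt (S1 net κ G y) := by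
            rw [Finset.mul_sum, Finset.mul_sum]
            exact Finset.sum_congr rfl fun y _ => by ring
        _ ≤ ∑ y ∈ Finset.univ.erase x, Real.sqrt 2 * (4 * Real.sqrt κ) *
            ((1 / 2) ^ net.dist y x * ((1 / 2) ^ net.dist x0 y * Real.sqrt (S1 net κ G y))) := by
            refine Finset.sum_le_sum fun y hy => ?_
            have hyx : y ≠ x := Finset.ne_of_mem_erase hy
            have h7 : (1 / 2 : ℝ) ^ net.dist x0 x ≤ (1 / 2) ^ net.dist x0 y * 2 ^ net.dist x y := by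
              have h8 : net.dist x0 y ≤ net.dist x0 x + net.dist x y := net.dist_tri _ _ _
              have h10 : (1 / 2 : ℝ) ^ (net.dist x0 x + net.dist x y) ≤
                  (1 / 2) ^ net.dist x0 y :=
                pow_le_pow_of_le_one (by norm_num) (by norm_num) h8
              have h11 : (1 / 2 : ℝ) ^ net.dist x0 x =
                  (1 / 2) ^ (net.dist x0 x + net.dist x y) * 2 ^ net.dist x y := by
                rw [pow_add, mul_assoc, ← mul_pow]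
                norm_num
              rw [h11]
              exact mul_le_mul_of_nonneg_right h10 (by positivity)
            have h12 : 1 ≤ net.dist x y := net.dist_pos x y hyx.symm
            have h13 := OneA_pow hκ h4 h12
            have h14 : (1 / 2 : ℝ) ^ net.dist x0 x * Real.sqrt (κ ^ net.dist x y) ≤
                (1 / 2) ^ net.dist x0 y * (4 * Real.sqrt κ * (1 / 2) ^ net.dist x y) := by
              calc (1 / 2 : ℝ) ^ net.dist x0 x * Real.sqrt (κ ^ net.dist x y)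
                  ≤ ((1 / 2) ^ net.dist x0 y * 2 ^ net.dist x y) *
                    Real.sqrt (κ ^ net.dist x y) :=
                    mul_le_mul_of_nonneg_right h7 (Real.sqrt_nonneg _)
                _ = (1 / 2) ^ net.dist x0 y * (2 ^ net.dist x y *
                    Real.sqrt (κ ^ net.dist x y)) := by ring
                _ ≤ _ := mul_le_mul_of_nonneg_left h13 (by positivity)
            rw [net.dist_comm y x]
            calc Real.sqrt 2 * ((1 / 2 : ℝ) ^ net.dist x0 x * Real.sqrt (κ ^ net.dist x y)) *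
                  Real.sqrt (S1 net κ G y)
                ≤ Real.sqrt 2 * ((1 / 2) ^ net.dist x0 y *
                  (4 * Real.sqrt κ * (1 / 2) ^ net.dist x y)) * Real.sqrt (S1 net κ G y) := by
                  refine mul_le_mul_of_nonneg_right ?_ (Real.sqrt_nonneg _)
                  exact mul_le_mul_of_nonneg_left h14 (Real.sqrt_nonneg _)
              _ = _ := by ring
        _ ≤ _ := by
            refine Finset.sum_le_sum_of_subset_of_nonneg (Finset.erase_subset _ _) fun y _ _ => ?_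
            positivity
    · exact Finset.sum_nonneg fun y _ => by positivity
  have h6 : ∑ x, ∑ y, Real.sqrt 2 * (4 * Real.sqrt κ) * ((1 / 2) ^ net.dist y x *
        ((1 / 2) ^ net.dist x0 y * Real.sqrt (S1 net κ G y))) ≤
      Real.sqrt 2 * (4 * Real.sqrt κ) * 3 ^ d * Ph1 net κ x0 G := by
    rw [Finset.sum_comm]
    unfold Ph1
    rw [Finset.mul_sum]
    refine Finset.sum_le_sum fun y _ => ?_
    rw [← Finset.mul_sum, ← Finset.sum_mul]
    have h7 := net.sum_half y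
    have h8 : 0 ≤ (1 / 2 : ℝ) ^ net.dist x0 y * Real.sqrt (S1 net κ G y) := by positivity
    calc Real.sqrt 2 * (4 * Real.sqrt κ) * ((∑ x, (1 / 2 : ℝ) ^ net.dist y x) *
          ((1 / 2) ^ net.dist x0 y * Real.sqrt (S1 net κ G y)))
        ≤ Real.sqrt 2 * (4 * Real.sqrt κ) * (3 ^ d *
          ((1 / 2) ^ net.dist x0 y * Real.sqrt (S1 net κ G y))) := by
          refine mul_le_mul_of_nonneg_left ?_ (by positivity)
          exact mul_le_mul_of_nonneg_right h7 h8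
      _ = _ := by ring
  have h7 : Real.sqrt 2 * (4 * Real.sqrt κ) * 3 ^ d ≤ 1 / 2 := by
    refine abs_le_of_sq_le_sq' ?_ (by norm_num) |>.2
    have h8 : (Real.sqrt 2 * (4 * Real.sqrt κ) * 3 ^ d) ^ 2 =
        Real.sqrt 2 ^ 2 * (16 * Real.sqrt κ ^ 2) * (3 ^ 2) ^ d := by
      rw [mul_pow, mul_pow, mul_pow, ← pow_mul, ← pow_mul, mul_comm d 2]
      norm_num
    rw [h8, Real.sq_sqrt (by norm_num : (0 : ℝ) ≤ 2), Real.sq_sqrt hκ]
    norm_num
    linarith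
  have h8 : 0 ≤ Ph1 net κ x0 G := by
    unfold Ph1
    exact Finset.sum_nonneg fun x _ => by positivity
  calc _ ≤ _ := Finset.sum_le_sum fun x _ => h5 x
    _ ≤ _ := h6
    _ ≤ _ := mul_le_mul_of_nonneg_right h7 h8

end

end DynS

end
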