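import Mathlib

set_option linter.unusedVariables false

/-!
# MP_36b788_pr, stationary limit: merged library part M03

Concatenation of smaller files (each in its own section), only to save build time.
-/

/-! ### from `Lib_MP_36b788c.PSDefs` -/

section

/-!
# Path space: definitions

`PI μ` is the law of an i.i.d. sequence with one-step law `μ`. `glue n a b` plays the first `n`
entries of `a` and then the sequence `b`. `traj f s ω` is the state sequence driven by `ω`.
-/

open MeasureTheory ProbabilityTheory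
open scoped ENNReal

namespace DynC

noncomputable section

variable {X : Type} [MeasurableSpace X]

/-- law of an i.i.d. sequence -/
def PI (μ : Measure X) [IsProbabilityMeasure μ] : Measure (ℕ → X) :=
  Measure.infinitePi (fun _ : ℕ => μ)

/-- first `n` entries of `a`, then `b` -/
def glue {X : Type} (n : ℕ) (a b : ℕ → X) : ℕ → X := fun i => if i < n then a i else b (i - n)

/-- state sequence: `traj f s ω (n+1) = f (traj f s ω n) (ω n)` -/
def traj {St X : Type} (f : St → X → St) (s : St) (ω : ℕ → X) : ℕ → St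
  | 0 => s
  | n + 1 => f (traj f s ω n) (ω n)

/-- `F` depends only on the first `n` entries -/
def Dep {X A : Type} (n : ℕ) (F : (ℕ → X) → A) : Prop :=
  ∀ a b : ℕ → X, (∀ i, i < n → a i = b i) → F a = F b

/-- Cameron-Martin identity for one variable -/
def CMart {V : Type} [NormedAddCommGroup V] [InnerProductSpace ℝ V] [MeasurableSpace V]
    (γ : Measure V) : Prop :=
  ∀ (a : V) (Φ : V → ℝ≥0∞), Measurable Φ →
    ∫⁻ ξ, Φ (ξ + a) * ENNReal.ofReal (Real.exp (-(inner ℝ a ξ) - ‖a‖ ^ 2 / 2)) ∂γ = ∫⁻ ξ, Φ ξ ∂γ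

/-- log density of the adapted shift `v` (first `n` times) -/
def logZ {ι V : Type} [Fintype ι] [NormedAddCommGroup V] [InnerProductSpace ℝ V] (n : ℕ)
    (v : ℕ → (ℕ → ι → V) → ι → V) (ω : ℕ → ι → V) : ℝ :=
  ∑ j ∈ Finset.range n, ∑ x, (-(inner ℝ (v j ω x) (ω j x)) - ‖v j ω x‖ ^ 2 / 2)

/-- shifted noise -/
def shft {ι V : Type} [AddCommGroup V] (v : ℕ → (ℕ → ι → V) → ι → V) (ω : ℕ → ι → V) :
    ℕ → ι → V := fun j x => ω j x + v j ω x

end

end DynC

end

/-! ### from `Lib_MP_36b788c.PS` -/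

section

/-!
# Path space: basic facts

PROOF.
* `PI_prob`, `map_coord`: `Measure.infinitePi` is a probability measure; coordinate marginals by
  `infinitePi_map_restrict`/`infinitePi_map_eval` (Mathlib.Probability.ProductMeasure).
* `map_glue`: use `Measure.eq_infinitePi`: for a finite set `s` and measurable `t i`, the preimage under
  `(a,b) ↦ glue n a b` of the box `s.pi t` is the product of the box `{a | ∀ i∈s, i<n → a i ∈ t i}` and
  `{b | ∀ i∈s, n≤i → b (i-n) ∈ t i}`, whose measures are finite products (`infinitePi_pi`).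
* `traj_glue_*`: induction on the time.
* `lintegral_glue` from `map_glue` and Tonelli.
* `PI_map`: image of an i.i.d. sequence under a coordinatewise map.
-/

open MeasureTheory ProbabilityTheory
open scoped ENNReal

namespace DynC

variable {X : Type} [MeasurableSpace X] {μ : Measure X} [IsProbabilityMeasure μ]

instance PI_prob : IsProbabilityMeasure (PI μ) := by
  unfold PI; infer_instance

theorem measurable_glue (n : ℕ) :
    Measurable (fun p : (ℕ → X) × (ℕ → X) => glue n p.1 p.2) := by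
  rw [measurable_pi_iff]
  intro i
  unfold glue
  by_cases h : i < n
  · simp only [h, if_true]
    exact (measurable_pi_apply i).comp measurable_fst
  · simp only [h, if_false]
    exact (measurable_pi_apply (i - n)).comp measurable_snd

theorem map_glue (n : ℕ) : ((PI μ).prod (PI μ)).map (fun p => glue n p.1 p.2) = PI μ := by
  classical
  conv_rhs => unfold PI
  refine Measure.eq_infinitePi _ ?_
  intro s t ht
  rw [Measure.map_apply (measurable_glue n)
    (MeasurableSet.pi s.countable_toSet (fun i _ => ht i))]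
  have hpre : (fun p : (ℕ → X) × (ℕ → X) => glue n p.1 p.2) ⁻¹' ((s : Set ℕ).pi t)
      = ((((s.filter (fun i => i < n)) : Finset ℕ) : Set ℕ).pi t) ×ˢ
        (((((s.filter (fun i => ¬ i < n)).image (fun i => i - n)) : Finset ℕ) : Set ℕ).pi
          (fun j => t (j + n))) := by
    ext p
    simp only [Set.mem_preimage, Set.mem_pi, Finset.mem_coe, Set.mem_prod, Finset.mem_filter,
      Finset.mem_image, glue]
    constructor
    · intro h
      refine ⟨?_, ?_⟩
      · intro i hi
        have := h i hi.1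
        rwa [if_pos hi.2] at this
      · rintro j ⟨i, hi, rfl⟩
        have := h i hi.1
        rw [if_neg hi.2] at this
        have e : i - n + n = i := by omega
        rwa [e]
    · intro h i hi
      by_cases hin : i < n
      · rw [if_pos hin]
        exact h.1 i ⟨hi, hin⟩
      · rw [if_neg hin]
        have := h.2 (i - n) ⟨i, ⟨hi, hin⟩, rfl⟩
        have e : i - n + n = i := by omega
        rwa [e] at this
  rw [hpre, Measure.prod_prod]
  have h1 : (PI μ) ((((s.filter (fun i => i < n)) : Finset ℕ) : Set ℕ).pi t)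
      = ∏ i ∈ s.filter (fun i => i < n), μ (t i) := by
    unfold PI
    exact Measure.infinitePi_pi _ (fun i _ => ht i)
  have h2 : (PI μ) (((((s.filter (fun i => ¬ i < n)).image (fun i => i - n)) : Finset ℕ) :
      Set ℕ).pi (fun j => t (j + n)))
      = ∏ j ∈ (s.filter (fun i => ¬ i < n)).image (fun i => i - n), μ (t (j + n)) := by
    unfold PI
    exact Measure.infinitePi_pi _ (fun i _ => ht (i + n))
  rw [h1, h2, Finset.prod_image, ← Finset.prod_filter_mul_prod_filter_not s (fun i => i < n)]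
  · congr 1
    refine Finset.prod_congr rfl ?_
    intro i hi
    rw [Finset.mem_filter] at hi
    have e : i - n + n = i := by omega
    rw [e]
  · intro i hi j hj hij
    rw [Finset.mem_coe, Finset.mem_filter] at hi hj
    simp only at hij
    omega

theorem map_coord (i : ℕ) : (PI μ).map (fun ω => ω i) = μ := by
  unfold PI
  exact Measure.infinitePi_map_eval (fun _ : ℕ => μ) i

theorem lintegral_glue (n : ℕ) (F : (ℕ → X) → ℝ≥0∞) (hF : Measurable F) :
    ∫⁻ ω, F ω ∂(PI μ) = ∫⁻ a, ∫⁻ b, F (glue n a b) ∂(PI μ) ∂(PI μ) := by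
  conv_lhs => rw [← map_glue (μ := μ) n]
  rw [lintegral_map hF (measurable_glue n), lintegral_prod]
  exact (hF.comp (measurable_glue n)).aemeasurable

private theorem PS_glue_one (a b : ℕ → X) :
    glue 1 a b = (fun i => Nat.casesOn i (a 0) b) := by
  funext i
  cases i with
  | zero => rfl
  | succ i => simp [glue]

private theorem PS_meas_cons :
    Measurable (fun p : X × (ℕ → X) => (fun i : ℕ => (Nat.casesOn i p.1 p.2 : X))) := by
  rw [measurable_pi_iff]
  intro i
  cases i with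
  | zero => exact measurable_fst
  | succ i => exact (measurable_pi_apply i).comp measurable_snd

/-- first coordinate and the rest -/
theorem lintegral_cons (F : (ℕ → X) → ℝ≥0∞) (hF : Measurable F) :
    ∫⁻ ω, F ω ∂(PI μ) = ∫⁻ a, ∫⁻ ω, F (fun i => Nat.casesOn i a ω) ∂(PI μ) ∂μ := by
  rw [lintegral_glue 1 F hF]
  have hG : Measurable (fun x : X => ∫⁻ ω, F (fun i => Nat.casesOn i x ω) ∂(PI μ)) :=
    Measurable.lintegral_prod_right' (f := fun p : X × (ℕ → X) => F (fun i => Nat.casesOn i p.1 p.2))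
      (hF.comp PS_meas_cons)
  have key : ∫⁻ a, (fun x : X => ∫⁻ ω, F (fun i => Nat.casesOn i x ω) ∂(PI μ)) (a 0) ∂(PI μ)
      = ∫⁻ x, (fun x : X => ∫⁻ ω, F (fun i => Nat.casesOn i x ω) ∂(PI μ)) x ∂μ := by
    have h := lintegral_map (μ := PI μ) hG (measurable_pi_apply (0 : ℕ))
    rw [map_coord] at h
    exact h.symm
  refine Eq.trans ?_ key
  refine lintegral_congr ?_
  intro a
  refine lintegral_congr ?_
  intro b
  rw [PS_glue_one]

theorem integral_glue (n : ℕ) (F : (ℕ → X) → ℂ) (hF : Measurable F) (C : ℝ)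
    (hC : ∀ ω, ‖F ω‖ ≤ C) :
    ∫ ω, F ω ∂(PI μ) = ∫ a, ∫ b, F (glue n a b) ∂(PI μ) ∂(PI μ) := by
  conv_lhs => rw [← map_glue (μ := μ) n]
  rw [integral_map (measurable_glue n).aemeasurable hF.aestronglyMeasurable, integral_prod]
  refine Integrable.of_bound (hF.comp (measurable_glue n)).aestronglyMeasurable C ?_
  exact Filter.Eventually.of_forall (fun p => hC _)

theorem integral_cons (F : (ℕ → X) → ℂ) (hF : Measurable F) (C : ℝ) (hC : ∀ ω, ‖F ω‖ ≤ C) :
    ∫ ω, F ω ∂(PI μ) = ∫ a, ∫ ω, F (fun i => Nat.casesOn i a ω) ∂(PI μ) ∂μ := by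
  rw [integral_glue 1 F hF C hC]
  have hG : StronglyMeasurable (fun x : X => ∫ ω, F (fun i => Nat.casesOn i x ω) ∂(PI μ)) := by
    have h0 : StronglyMeasurable
        (F ∘ (fun p : X × (ℕ → X) => (fun i : ℕ => (Nat.casesOn i p.1 p.2 : X)))) :=
      (hF.comp PS_meas_cons).stronglyMeasurable
    exact h0.integral_prod_right'
  have key : ∫ a, (fun x : X => ∫ ω, F (fun i => Nat.casesOn i x ω) ∂(PI μ)) (a 0) ∂(PI μ)
      = ∫ x, (fun x : X => ∫ ω, F (fun i => Nat.casesOn i x ω) ∂(PI μ)) x ∂μ := by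
    have h := integral_map (μ := PI μ) (φ := fun a : ℕ → X => a 0)
      (measurable_pi_apply (0 : ℕ)).aemeasurable
      (f := fun x : X => ∫ ω, F (fun i => Nat.casesOn i x ω) ∂(PI μ)) hG.aestronglyMeasurable
    rw [map_coord] at h
    exact h.symm
  refine Eq.trans ?_ key
  refine integral_congr_ae (Filter.Eventually.of_forall ?_)
  intro a
  refine integral_congr_ae (Filter.Eventually.of_forall ?_)
  intro b
  simp only [PS_glue_one]

theorem traj_glue_le {St : Type} (f : St → X → St) (s : St) (n : ℕ) (a b : ℕ → X) (j : ℕ)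
    (hj : j ≤ n) : traj f s (glue n a b) j = traj f s a j := by
  induction j with
  | zero => rfl
  | succ j ih =>
    have h1 : glue n a b j = a j := by
      unfold glue
      rw [if_pos (by omega)]
    show f (traj f s (glue n a b) j) (glue n a b j) = f (traj f s a j) (a j)
    rw [ih (by omega), h1]

theorem traj_glue_add {St : Type} (f : St → X → St) (s : St) (n : ℕ) (a b : ℕ → X) (m : ℕ) :
    traj f s (glue n a b) (n + m) = traj f (traj f s a n) b m := by
  induction m with
  | zero => exact traj_glue_le f s n a b n le_rfl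
  | succ m ih =>
    have h1 : glue n a b (n + m) = b m := by
      unfold glue
      rw [if_neg (by omega)]
      congr 1
      omega
    show f (traj f s (glue n a b) (n + m)) (glue n a b (n + m)) = f (traj f (traj f s a n) b m) (b m)
    rw [ih, h1]

theorem dep_traj {St : Type} (f : St → X → St) (s : St) (n : ℕ) :
    Dep n (fun ω : ℕ → X => traj f s ω n) := by
  intro a b
  induction n with
  | zero => intro _; rfl
  | succ n ih =>
    intro h
    show f (traj f s a n) (a n) = f (traj f s b n) (b n)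
    have h1 : traj f s a n = traj f s b n := ih (fun i hi => h i (by omega))
    rw [h1, h n (by omega)]

theorem measurable_traj {St : Type} [MeasurableSpace St] (f : St → X → St)
    (hf : Measurable (fun p : St × X => f p.1 p.2)) (n : ℕ) :
    Measurable (fun p : St × (ℕ → X) => traj f p.1 p.2 n) := by
  induction n with
  | zero => exact measurable_fst
  | succ n ih =>
    show Measurable (fun p : St × (ℕ → X) => f (traj f p.1 p.2 n) (p.2 n))
    exact hf.comp (ih.prodMk ((measurable_pi_apply n).comp measurable_snd))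

/-- coordinatewise image of an i.i.d. sequence -/
theorem PI_map {Y : Type} [MeasurableSpace Y] (φ : X → Y) (hφ : Measurable φ)
    [IsProbabilityMeasure (μ.map φ)] : (PI μ).map (fun ω i => φ (ω i)) = PI (μ.map φ) := by
  unfold PI
  exact Measure.infinitePi_map_pi (fun _ : ℕ => μ) (fun _ => hφ)

private theorem PS_meas_blk (m i : ℕ) :
    Measurable (fun ω : ℕ → X => (fun j => ω (m * i + j))) := by
  rw [measurable_pi_iff]
  intro j
  exact measurable_pi_apply _

private theorem PS_block_prod {Y : Type} [MeasurableSpace Y] (m : ℕ) (φ : (ℕ → X) → Y)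
    (hφ : Measurable φ) (hd : Dep m φ) (N : ℕ) :
    ∀ t : ℕ → Set Y, (∀ i, MeasurableSet (t i)) →
      (PI μ) {ω | ∀ i, i < N → φ (fun j => ω (m * i + j)) ∈ t i}
        = ∏ i ∈ Finset.range N, (PI μ) (φ ⁻¹' (t i)) := by
  induction N with
  | zero =>
    intro t _
    simp
  | succ N ih =>
    intro t ht
    have hms : MeasurableSet {ω : ℕ → X | ∀ i, i < N + 1 → φ (fun j => ω (m * i + j)) ∈ t i} := by
      have : {ω : ℕ → X | ∀ i, i < N + 1 → φ (fun j => ω (m * i + j)) ∈ t i}
          = ⋂ i ∈ Finset.range (N + 1), (fun ω : ℕ → X => φ (fun j => ω (m * i + j))) ⁻¹' (t i) := by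
        ext ω
        simp
      rw [this]
      refine Finset.measurableSet_biInter _ ?_
      intro i _
      exact (hφ.comp (PS_meas_blk m i)) (ht i)
    conv_lhs => rw [← map_glue (μ := μ) m]
    rw [Measure.map_apply (measurable_glue m) hms]
    have hpre : (fun p : (ℕ → X) × (ℕ → X) => glue m p.1 p.2) ⁻¹'
        {ω : ℕ → X | ∀ i, i < N + 1 → φ (fun j => ω (m * i + j)) ∈ t i}
        = (φ ⁻¹' (t 0)) ×ˢ {ω : ℕ → X | ∀ i, i < N → φ (fun j => ω (m * i + j)) ∈ t (i + 1)} := by
      have hz : ∀ a b : ℕ → X, φ (fun j => glue m a b (m * 0 + j)) = φ a := by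
        intro a b
        refine hd _ _ ?_
        intro i hi
        unfold glue
        rw [if_pos (by omega)]
        congr 1
        omega
      have hs : ∀ (a b : ℕ → X) (i : ℕ),
          (fun j => glue m a b (m * (i + 1) + j)) = (fun j => b (m * i + j)) := by
        intro a b i
        funext j
        unfold glue
        have e1 : m * (i + 1) = m * i + m := by ring
        rw [if_neg (by rw [e1]; omega)]
        congr 1
        rw [e1]
        omega
      ext p
      simp only [Set.mem_preimage, Set.mem_ofPred_eq, Set.mem_prod]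
      constructor
      · intro h
        refine ⟨?_, ?_⟩
        · have := h 0 (by omega)
          rwa [hz] at this
        · intro i hi
          have := h (i + 1) (by omega)
          rwa [hs] at this
      · rintro ⟨h0, h1⟩ i hi
        cases i with
        | zero => rw [hz]; exact h0
        | succ i => rw [hs]; exact h1 i (by omega)
    rw [hpre, Measure.prod_prod, ih (fun i => t (i + 1)) (fun i => ht (i + 1)),
      Finset.prod_range_succ', mul_comm]

/-- blocks of length `m` of an i.i.d. sequence are i.i.d.: `φ` is applied to the block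
`ω (m i), …, ω (m i + m - 1)`, seen as a sequence of which `φ` uses the first `m` entries only -/
theorem PI_block {Y : Type} [MeasurableSpace Y] (m : ℕ) (hm : 0 < m) (φ : (ℕ → X) → Y)
    (hφ : Measurable φ) (hd : Dep m φ) [IsProbabilityMeasure ((PI μ).map φ)] :
    (PI μ).map (fun ω i => φ (fun j => ω (m * i + j))) = PI ((PI μ).map φ) := by
  classical
  show (PI μ).map (fun ω i => φ (fun j => ω (m * i + j)))
    = Measure.infinitePi (fun _ : ℕ => (PI μ).map φ)
  refine Measure.eq_infinitePi _ ?_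
  intro s t ht
  have hmeas : Measurable (fun (ω : ℕ → X) (i : ℕ) => φ (fun j => ω (m * i + j))) := by
    rw [measurable_pi_iff]
    intro i
    exact hφ.comp (PS_meas_blk m i)
  rw [Measure.map_apply hmeas (MeasurableSet.pi s.countable_toSet (fun i _ => ht i))]
  have hN : ∃ N, ∀ i ∈ s, i < N := ⟨s.sup id + 1, fun i hi => Nat.lt_succ_of_le (Finset.le_sup (f := id) hi)⟩
  obtain ⟨N, hN⟩ := hN
  have hpre : (fun (ω : ℕ → X) (i : ℕ) => φ (fun j => ω (m * i + j))) ⁻¹' ((s : Set ℕ).pi t)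
      = {ω | ∀ i, i < N → φ (fun j => ω (m * i + j)) ∈ (if i ∈ s then t i else Set.univ)} := by
    ext ω
    simp only [Set.mem_preimage, Set.mem_pi, Finset.mem_coe, Set.mem_ofPred_eq]
    constructor
    · intro h i _
      by_cases his : i ∈ s
      · rw [if_pos his]; exact h i his
      · rw [if_neg his]; exact Set.mem_univ _
    · intro h i hi
      have := h i (hN i hi)
      rwa [if_pos hi] at this
  rw [hpre, PS_block_prod m φ hφ hd N (fun i => if i ∈ s then t i else Set.univ) ?_]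
  · have hsub : s ⊆ Finset.range N := fun i hi => Finset.mem_range.2 (hN i hi)
    rw [← Finset.prod_subset hsub]
    · refine Finset.prod_congr rfl ?_
      intro i hi
      rw [if_pos hi, Measure.map_apply hφ (ht i)]
    · intro i _ hi
      rw [if_neg hi]
      simp
  · intro i
    split_ifs
    · exact ht i
    · exact MeasurableSet.univ

end DynC

end

/-! ### from `Lib_MP_36b788c.PSShift` -/

section

/-!
# Adapted shifts of Gaussian noise

PROOF. `cmart_real`, `cmart_std`: the density of `N(0,1)` (`gaussianReal`), translation of Lebesgue measure;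
for `stdGaussian (E m)` transfer through the description as image of `Measure.pi (gaussianReal 0 1)` and Tonelli.
`cmart_pi`: product measures, coordinate by coordinate (`ι → V` with the sum of the inner products): by
induction on a finset of shifted coordinates or through `Measure.pi` Tonelli (measurePreserving of
`MeasurableEquiv.piFinSuccAbove`, or induction over `Fintype` with `Option`).
`shift_lintegral`: induction on `n`. For `n = 0` the shift is zero (`hv0`). For `n+1`: split with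
`lintegral_glue n` and `lintegral_cons`: `ω = glue n a (c :: b)`. The shift at times `< n` and the vector
`v n` depend on `a` only; for fixed `a` (and fixed `b`) the identity `cmart_pi` for the coordinate `c` removes the
last shift; then the induction hypothesis for the process shifted at the times `< n`.
`abs_tail`: `Σ⟪v,ω⟫` for an adapted `v` with `Σ‖v‖² ≤ V`: `E exp(±Σ⟪v,ω⟫ - V/2) ≤ 1` from `shift_lintegral`
with `Φ = 1` (and `-v`), then Markov.
-/

open MeasureTheory ProbabilityTheory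
open scoped ENNReal

namespace DynC

theorem cmart_real : CMart (gaussianReal 0 1) := by
  intro a Φ hΦ
  rw [gaussianReal_of_var_ne_zero _ one_ne_zero]
  have hw : Measurable fun ξ : ℝ => ENNReal.ofReal (Real.exp (-(inner ℝ a ξ) - ‖a‖ ^ 2 / 2)) := by
    apply ENNReal.measurable_ofReal.comp
    apply Real.measurable_exp.comp
    apply Measurable.sub_const
    apply Measurable.neg
    exact (measurable_const.inner measurable_id)
  have h0 := lintegral_withDensity_eq_lintegral_mul volume (measurable_gaussianPDF 0 1)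
    (g := fun ξ => Φ (ξ + a) * ENNReal.ofReal (Real.exp (-(inner ℝ a ξ) - ‖a‖ ^ 2 / 2)))
    ((hΦ.comp (measurable_add_const a)).mul hw)
  rw [h0, lintegral_withDensity_eq_lintegral_mul _ (measurable_gaussianPDF 0 1) hΦ]
  rw [← lintegral_add_right_eq_self (fun x => (gaussianPDF 0 1 * Φ) x) a]
  apply lintegral_congr
  intro x
  simp only [Pi.mul_apply]
  have key : gaussianPDF 0 1 x * ENNReal.ofReal (Real.exp (-(inner ℝ a x) - ‖a‖ ^ 2 / 2))
      = gaussianPDF 0 1 (x + a) := by
    unfold gaussianPDF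
    rw [← ENNReal.ofReal_mul (gaussianPDFReal_nonneg 0 1 x)]
    congr 1
    unfold gaussianPDFReal
    rw [mul_assoc, ← Real.exp_add]
    congr 2
    simp only [RCLike.inner_apply, conj_trivial, NNReal.coe_one, Real.norm_eq_abs, sq_abs]
    ring
  calc gaussianPDF 0 1 x * (Φ (x + a) *
        ENNReal.ofReal (Real.exp (-(inner ℝ a x) - ‖a‖ ^ 2 / 2)))
      = (gaussianPDF 0 1 x * ENNReal.ofReal (Real.exp (-(inner ℝ a x) - ‖a‖ ^ 2 / 2)))
          * Φ (x + a) := by ring
    _ = gaussianPDF 0 1 (x + a) * Φ (x + a) := by rw [key]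

section

variable {ι V : Type} [Fintype ι] [NormedAddCommGroup V] [InnerProductSpace ℝ V]
  [MeasurableSpace V] [BorelSpace V] [SecondCountableTopology V] {γ : Measure V}
  [IsProbabilityMeasure γ]

private theorem PSShift_meas_w (a : V) :
    Measurable fun ξ : V => ENNReal.ofReal (Real.exp (-(inner ℝ a ξ) - ‖a‖ ^ 2 / 2)) := by
  apply ENNReal.measurable_ofReal.comp
  apply Real.measurable_exp.comp
  apply Measurable.sub_const
  apply Measurable.neg
  exact (measurable_const.inner measurable_id)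

private theorem PSShift_ofReal_sum (f : ι → ℝ) :
    ENNReal.ofReal (Real.exp (∑ x, f x)) = ∏ x, ENNReal.ofReal (Real.exp (f x)) := by
  rw [Real.exp_sum, ENNReal.ofReal_prod_of_nonneg (fun i _ => (Real.exp_pos _).le)]

private theorem PSShift_lint_prod (f : ι → V → ℝ≥0∞) (hf : ∀ x, Measurable (f x)) :
    ∫⁻ ξ, ∏ x, f x (ξ x) ∂(Measure.pi fun _ : ι => γ) = ∏ x, ∫⁻ v, f x v ∂γ := by
  have h1 : iIndepFun (fun (x : ι) (ξ : ι → V) => f x (ξ x)) (Measure.pi fun _ : ι => γ) :=
    iIndepFun_pi (X := f) (fun x => (hf x).aemeasurable)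
  rw [lintegral_prod_eq_prod_lintegral_of_indepFun Finset.univ _ h1
    (fun x => (hf x).comp (measurable_pi_apply x))]
  apply Finset.prod_congr rfl
  intro x _
  exact (measurePreserving_eval (fun _ : ι => γ) x).lintegral_comp (hf x)

theorem cmart_pi (hγ : CMart γ) (a : ι → V) (Φ : (ι → V) → ℝ≥0∞) (hΦ : Measurable Φ) :
    ∫⁻ ξ, Φ (fun x => ξ x + a x) *
        ENNReal.ofReal (Real.exp (∑ x, (-(inner ℝ (a x) (ξ x)) - ‖a x‖ ^ 2 / 2)))
        ∂(Measure.pi fun _ => γ) = ∫⁻ ξ, Φ ξ ∂(Measure.pi fun _ => γ) := by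
  classical
  set P : Measure (ι → V) := Measure.pi fun _ => γ with hP
  let W : (ι → V) → ℝ≥0∞ := fun ξ =>
    ∏ x, ENNReal.ofReal (Real.exp (-(inner ℝ (a x) (ξ x)) - ‖a x‖ ^ 2 / 2))
  have hW : Measurable W :=
    Finset.measurable_fun_prod _ (fun x _ => (PSShift_meas_w (a x)).comp (measurable_pi_apply x))
  have hT : Measurable fun ξ : ι → V => fun x => ξ x + a x :=
    measurable_pi_lambda _ (fun x => (measurable_add_const (a x)).comp (measurable_pi_apply x))
  have key : (P.withDensity W).map (fun ξ : ι → V => fun x => ξ x + a x) = P := by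
    symm
    rw [hP]
    apply Measure.pi_eq
    intro s hs
    rw [Measure.map_apply hT (MeasurableSet.univ_pi hs),
      withDensity_apply _ (hT (MeasurableSet.univ_pi hs)),
      ← lintegral_indicator (hT (MeasurableSet.univ_pi hs))]
    have e1 : ∀ ξ : ι → V, (((fun ξ : ι → V => fun x => ξ x + a x) ⁻¹' Set.univ.pi s).indicator
        (fun ξ => W ξ)) ξ = ∏ x, ((s x).indicator (fun _ => (1:ℝ≥0∞)) (ξ x + a x) *
          ENNReal.ofReal (Real.exp (-(inner ℝ (a x) (ξ x)) - ‖a x‖ ^ 2 / 2))) := by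
      intro ξ
      rw [Finset.prod_mul_distrib]
      by_cases h : (fun x => ξ x + a x) ∈ Set.univ.pi s
      · rw [Set.indicator_of_mem (by exact h)]
        rw [Finset.prod_eq_one, one_mul]
        intro x _
        rw [Set.indicator_of_mem (h x (Set.mem_univ x))]
      · rw [Set.indicator_of_notMem (by exact h)]
        simp only [Set.mem_pi, Set.mem_univ, forall_true_left, not_forall] at h
        obtain ⟨x, hx⟩ := h
        rw [Finset.prod_eq_zero (Finset.mem_univ x), zero_mul]
        rw [Set.indicator_of_notMem hx]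
    rw [lintegral_congr e1, PSShift_lint_prod (γ := γ) (fun x v =>
      (s x).indicator (fun _ => (1:ℝ≥0∞)) (v + a x) *
          ENNReal.ofReal (Real.exp (-(inner ℝ (a x) v) - ‖a x‖ ^ 2 / 2)))]
    · apply Finset.prod_congr rfl
      intro x _
      rw [hγ (a x) ((s x).indicator (fun _ => (1:ℝ≥0∞))) (measurable_const.indicator (hs x))]
      rw [lintegral_indicator (hs x)]
      simp
    · intro x
      exact ((measurable_const.indicator (hs x)).comp (measurable_add_const (a x))).mul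
        (PSShift_meas_w (a x))
  have h2 : ∀ ξ : ι → V, Φ (fun x => ξ x + a x) *
        ENNReal.ofReal (Real.exp (∑ x, (-(inner ℝ (a x) (ξ x)) - ‖a x‖ ^ 2 / 2)))
      = (W * fun η : ι → V => Φ (fun x => η x + a x)) ξ := by
    intro ξ
    rw [PSShift_ofReal_sum, Pi.mul_apply, mul_comm]
  have h3 := lintegral_withDensity_eq_lintegral_mul P hW
    (g := fun η : ι → V => Φ (fun x => η x + a x)) (hΦ.comp hT)
  rw [lintegral_congr h2, ← h3]
  conv_rhs => rw [← key]
  rw [lintegral_map hΦ hT]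

end

theorem cmart_std (m : ℕ) : CMart (stdGaussian (EuclideanSpace ℝ (Fin m))) := by
  intro a Φ hΦ
  rw [← map_pi_eq_stdGaussian]
  have hm : Measurable (WithLp.toLp 2 : (Fin m → ℝ) → EuclideanSpace ℝ (Fin m)) := by fun_prop
  rw [lintegral_map _ hm, lintegral_map hΦ hm]
  · rw [← cmart_pi (ι := Fin m) cmart_real (fun i => a i) (fun ξ => Φ (WithLp.toLp 2 ξ))
      (hΦ.comp hm)]
    apply lintegral_congr
    intro ξ
    congr 2
    congr 1
    rw [Finset.sum_sub_distrib, EuclideanSpace.norm_sq_eq, ← Finset.sum_div, Finset.sum_neg_distrib]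
    simp only [PiLp.inner_apply]
  · exact (hΦ.comp (measurable_add_const a)).mul (PSShift_meas_w a)


section

variable {ι V : Type} [Fintype ι] [NormedAddCommGroup V] [InnerProductSpace ℝ V]
  [MeasurableSpace V] [BorelSpace V] [SecondCountableTopology V] {γ : Measure V}
  [IsProbabilityMeasure γ]

private def PSShift_cut (n : ℕ) (v : ℕ → (ℕ → ι → V) → ι → V) : ℕ → (ℕ → ι → V) → ι → V :=
  fun j ω => if j < n then v j ω else 0

private theorem PSShift_meas_shft (v : ℕ → (ℕ → ι → V) → ι → V) (hv : ∀ j, Measurable (v j)) :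
    Measurable (shft v) := by
  refine measurable_pi_lambda _ fun j => measurable_pi_lambda _ fun x => ?_
  have h1 : Measurable fun ω : ℕ → ι → V => ω j x :=
    (measurable_pi_apply x).comp (measurable_pi_apply j)
  have h2 : Measurable fun ω : ℕ → ι → V => v j ω x := (measurable_pi_apply x).comp (hv j)
  exact h1.add h2

private theorem PSShift_meas_logZ (n : ℕ) (v : ℕ → (ℕ → ι → V) → ι → V)
    (hv : ∀ j, Measurable (v j)) : Measurable (logZ n v) := by
  unfold logZ
  refine Finset.measurable_fun_sum _ fun j _ => Finset.measurable_fun_sum _ fun x _ => ?_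
  have h1 : Measurable fun ω : ℕ → ι → V => ω j x :=
    (measurable_pi_apply x).comp (measurable_pi_apply j)
  have h2 : Measurable fun ω : ℕ → ι → V => v j ω x := (measurable_pi_apply x).comp (hv j)
  exact (h2.inner h1).neg.sub ((h2.norm.pow_const 2).div_const 2)

private theorem PSShift_meas_F (n : ℕ) (v : ℕ → (ℕ → ι → V) → ι → V)
    (hv : ∀ j, Measurable (v j)) (Φ : (ℕ → ι → V) → ℝ≥0∞) (hΦ : Measurable Φ) :
    Measurable fun ω => Φ (shft v ω) * ENNReal.ofReal (Real.exp (logZ n v ω)) :=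
  (hΦ.comp (PSShift_meas_shft v hv)).mul
    (ENNReal.measurable_ofReal.comp (Real.measurable_exp.comp (PSShift_meas_logZ n v hv)))

/-- `a` for the first `n` entries, then `c`, then `b` -/
private def PSShift_g {X : Type} (n : ℕ) (a : ℕ → X) (c : X) (b : ℕ → X) : ℕ → X :=
  glue n a (fun i => Nat.casesOn i c b)

private theorem PSShift_g_lt {X : Type} (n : ℕ) (a : ℕ → X) (c : X) (b : ℕ → X) (j : ℕ)
    (hj : j < n) : PSShift_g n a c b j = a j := by
  unfold PSShift_g glue
  rw [if_pos hj]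

private theorem PSShift_g_eq {X : Type} (n : ℕ) (a : ℕ → X) (c : X) (b : ℕ → X) :
    PSShift_g n a c b n = c := by
  unfold PSShift_g glue
  rw [if_neg (lt_irrefl n), Nat.sub_self]
  rfl

private theorem PSShift_g_gt {X : Type} (n : ℕ) (a : ℕ → X) (c : X) (b : ℕ → X) (j : ℕ) :
    PSShift_g n a c b (n + 1 + j) = b j := by
  unfold PSShift_g glue
  rw [if_neg (by omega), show n + 1 + j - n = j + 1 by omega]

private theorem PSShift_meas_g {X : Type} [MeasurableSpace X] (n : ℕ) (a : ℕ → X) :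
    Measurable fun p : X × (ℕ → X) => PSShift_g n a p.1 p.2 := by
  refine measurable_pi_lambda _ fun j => ?_
  rcases lt_trichotomy j n with h | h | h
  · simp only [PSShift_g_lt n a _ _ j h]
    exact measurable_const
  · subst h
    simp only [PSShift_g_eq]
    exact measurable_fst
  · obtain ⟨k, rfl⟩ : ∃ k, j = n + 1 + k := ⟨j - (n + 1), by omega⟩
    simp only [PSShift_g_gt]
    exact (measurable_pi_apply k).comp measurable_snd

private theorem PSShift_step (hγ : CMart γ) (n : ℕ) (v : ℕ → (ℕ → ι → V) → ι → V)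
    (hv : ∀ j, Measurable (v j)) (hd : ∀ j, Dep j (v j)) (hv0 : ∀ j, n + 1 ≤ j → ∀ ω, v j ω = 0)
    (Φ : (ℕ → ι → V) → ℝ≥0∞) (hΦ : Measurable Φ) :
    ∫⁻ ω, Φ (shft v ω) * ENNReal.ofReal (Real.exp (logZ (n + 1) v ω))
        ∂(PI (Measure.pi fun _ : ι => γ))
      = ∫⁻ ω, Φ (shft (PSShift_cut n v) ω) *
          ENNReal.ofReal (Real.exp (logZ n (PSShift_cut n v) ω))
          ∂(PI (Measure.pi fun _ : ι => γ)) := by
  have hvc : ∀ j, Measurable (PSShift_cut n v j) := by
    intro j
    unfold PSShift_cut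
    by_cases h : j < n
    · simp only [if_pos h]; exact hv j
    · simp only [if_neg h]; exact measurable_const
  rw [lintegral_glue n _ (PSShift_meas_F (n + 1) v hv Φ hΦ),
    lintegral_glue n _ (PSShift_meas_F n (PSShift_cut n v) hvc Φ hΦ)]
  apply lintegral_congr
  intro a
  have hga : Measurable fun b : ℕ → ι → V => glue n a b :=
    (measurable_glue n).comp (measurable_const.prodMk measurable_id)
  rw [lintegral_cons (fun b => Φ (shft v (glue n a b)) *
      ENNReal.ofReal (Real.exp (logZ (n + 1) v (glue n a b))))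
      ((PSShift_meas_F (n + 1) v hv Φ hΦ).comp hga),
    lintegral_cons (fun b => Φ (shft (PSShift_cut n v) (glue n a b)) *
      ENNReal.ofReal (Real.exp (logZ n (PSShift_cut n v) (glue n a b))))
      ((PSShift_meas_F n (PSShift_cut n v) hvc Φ hΦ).comp hga)]
  -- the shift depends on `a` only
  have hva : ∀ (c : ι → V) (b : ℕ → ι → V) (j : ℕ), j ≤ n → v j (PSShift_g n a c b) = v j a := by
    intro c b j hj
    exact hd j _ _ (fun i hi => PSShift_g_lt n a c b i (lt_of_lt_of_le hi hj))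
  set u : ι → V := v n a with hu
  set K : ℝ≥0∞ := ENNReal.ofReal (Real.exp (logZ n v a)) with hK
  have hZ1 : ∀ (c : ι → V) (b : ℕ → ι → V), logZ (n + 1) v (PSShift_g n a c b)
      = logZ n v a + ∑ x, (-(inner ℝ (u x) (c x)) - ‖u x‖ ^ 2 / 2) := by
    intro c b
    unfold logZ
    rw [Finset.sum_range_succ]
    congr 1
    · apply Finset.sum_congr rfl
      intro j hj
      have hj' := Finset.mem_range.mp hj
      rw [hva c b j hj'.le, PSShift_g_lt n a c b j hj']
    · rw [hva c b n le_rfl, PSShift_g_eq]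
  have hZ2 : ∀ (c : ι → V) (b : ℕ → ι → V), logZ n (PSShift_cut n v) (PSShift_g n a c b)
      = logZ n v a := by
    intro c b
    unfold logZ
    apply Finset.sum_congr rfl
    intro j hj
    have hj' := Finset.mem_range.mp hj
    have e : PSShift_cut n v j (PSShift_g n a c b) = v j a := by
      unfold PSShift_cut
      rw [if_pos hj', hva c b j hj'.le]
    rw [e, PSShift_g_lt n a c b j hj']
  have hS : ∀ (c : ι → V) (b : ℕ → ι → V), shft v (PSShift_g n a c b)
      = shft (PSShift_cut n v) (PSShift_g n a (fun x => c x + u x) b) := by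
    intro c b
    funext j x
    unfold shft PSShift_cut
    rcases lt_trichotomy j n with h | h | h
    · rw [if_pos h, hva c b j h.le, hva _ b j h.le, PSShift_g_lt n a _ _ j h,
        PSShift_g_lt n a _ _ j h]
    · subst h
      rw [if_neg (lt_irrefl _), hva c b _ le_rfl, PSShift_g_eq, PSShift_g_eq]
      simp [hu]
    · obtain ⟨k, rfl⟩ : ∃ k, j = n + 1 + k := ⟨j - (n + 1), by omega⟩
      rw [if_neg (by omega), hv0 _ (by omega), PSShift_g_gt, PSShift_g_gt]
  set H : (ι → V) → ℝ≥0∞ := fun c => ∫⁻ b, Φ (shft (PSShift_cut n v) (PSShift_g n a c b))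
    ∂(PI (Measure.pi fun _ : ι => γ)) with hH
  have hHm : Measurable H := by
    have h1 : Measurable fun p : (ι → V) × (ℕ → ι → V) =>
        Φ (shft (PSShift_cut n v) (PSShift_g n a p.1 p.2)) :=
      hΦ.comp ((PSShift_meas_shft _ hvc).comp (PSShift_meas_g n a))
    exact h1.lintegral_prod_right'
  have hL : ∀ c : ι → V, (∫⁻ b, Φ (shft v (PSShift_g n a c b)) *
      ENNReal.ofReal (Real.exp (logZ (n + 1) v (PSShift_g n a c b)))
      ∂(PI (Measure.pi fun _ : ι => γ)))
      = (H (fun x => c x + u x) *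
        ENNReal.ofReal (Real.exp (∑ x, (-(inner ℝ (u x) (c x)) - ‖u x‖ ^ 2 / 2)))) * K := by
    intro c
    have e : ∀ b : ℕ → ι → V, Φ (shft v (PSShift_g n a c b)) *
        ENNReal.ofReal (Real.exp (logZ (n + 1) v (PSShift_g n a c b)))
        = Φ (shft (PSShift_cut n v) (PSShift_g n a (fun x => c x + u x) b)) *
          (ENNReal.ofReal (Real.exp (∑ x, (-(inner ℝ (u x) (c x)) - ‖u x‖ ^ 2 / 2))) * K) := by
      intro b
      rw [hS c b, hZ1 c b, Real.exp_add, ENNReal.ofReal_mul (Real.exp_pos _).le, mul_comm (K)]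
    rw [lintegral_congr e, lintegral_mul_const' _ _ (by
      exact ENNReal.mul_ne_top ENNReal.ofReal_ne_top ENNReal.ofReal_ne_top), hH]
    ring
  have hR : ∀ c : ι → V, (∫⁻ b, Φ (shft (PSShift_cut n v) (PSShift_g n a c b)) *
      ENNReal.ofReal (Real.exp (logZ n (PSShift_cut n v) (PSShift_g n a c b)))
      ∂(PI (Measure.pi fun _ : ι => γ))) = H c * K := by
    intro c
    have e : ∀ b : ℕ → ι → V, Φ (shft (PSShift_cut n v) (PSShift_g n a c b)) *
        ENNReal.ofReal (Real.exp (logZ n (PSShift_cut n v) (PSShift_g n a c b)))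
        = Φ (shft (PSShift_cut n v) (PSShift_g n a c b)) * K := by
      intro b
      rw [hZ2 c b]
    rw [lintegral_congr e, lintegral_mul_const' _ _ ENNReal.ofReal_ne_top]
  refine (lintegral_congr hL).trans (Eq.trans ?_ (lintegral_congr hR).symm)
  rw [lintegral_mul_const' _ _ ENNReal.ofReal_ne_top, lintegral_mul_const' _ _ ENNReal.ofReal_ne_top,
    cmart_pi hγ u H hHm]

/-- adapted shift identity -/
theorem shift_lintegral (hγ : CMart γ) (n : ℕ) (v : ℕ → (ℕ → ι → V) → ι → V)
    (hv : ∀ j, Measurable (v j)) (hd : ∀ j, Dep j (v j)) (hv0 : ∀ j, n ≤ j → ∀ ω, v j ω = 0)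
    (Φ : (ℕ → ι → V) → ℝ≥0∞) (hΦ : Measurable Φ) :
    ∫⁻ ω, Φ (shft v ω) * ENNReal.ofReal (Real.exp (logZ n v ω)) ∂(PI (Measure.pi fun _ : ι => γ))
      = ∫⁻ ω, Φ ω ∂(PI (Measure.pi fun _ : ι => γ)) := by
  induction n generalizing v with
  | zero =>
    apply lintegral_congr
    intro ω
    have h1 : shft v ω = ω := by
      funext j x
      unfold shft
      rw [hv0 j (Nat.zero_le j) ω]
      simp
    rw [h1]
    simp [logZ]
  | succ n ih =>
    rw [PSShift_step hγ n v hv hd hv0 Φ hΦ]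
    apply ih (PSShift_cut n v)
    · intro j
      unfold PSShift_cut
      by_cases h : j < n
      · simp only [if_pos h]; exact hv j
      · simp only [if_neg h]; exact measurable_const
    · intro j a b hab
      unfold PSShift_cut
      by_cases h : j < n
      · rw [if_pos h, if_pos h]; exact hd j a b hab
      · rw [if_neg h, if_neg h]
    · intro j hj ω
      unfold PSShift_cut
      rw [if_neg (by omega)]

private theorem PSShift_tail1 (hγ : CMart γ) (n : ℕ) (v : ℕ → (ℕ → ι → V) → ι → V)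
    (hv : ∀ j, Measurable (v j)) (hd : ∀ j, Dep j (v j)) (hv0 : ∀ j, n ≤ j → ∀ ω, v j ω = 0)
    (Q : ℝ) (hQ : 0 < Q) (hQv : ∀ ω, ∑ j ∈ Finset.range n, ∑ x, ‖v j ω x‖ ^ 2 ≤ Q) (r : ℝ)
    (hr : 0 ≤ r) :
    PI (Measure.pi fun _ : ι => γ)
        {ω | r < ∑ j ∈ Finset.range n, ∑ x, inner ℝ (v j ω x) (ω j x)}
      ≤ ENNReal.ofReal (Real.exp (-(r ^ 2) / (2 * Q))) := by
  set μ := PI (Measure.pi fun _ : ι => γ) with hμ
  set l : ℝ := r / Q with hl
  have hl0 : 0 ≤ l := div_nonneg hr hQ.le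
  let w : ℕ → (ℕ → ι → V) → ι → V := fun j ω x => (-l) • v j ω x
  have hw : ∀ j, Measurable (w j) := by
    intro j
    refine measurable_pi_lambda _ fun x => ?_
    exact ((measurable_pi_apply x).comp (hv j)).const_smul (-l)
  have hwd : ∀ j, Dep j (w j) := by
    intro j a b hab
    funext x
    simp only [w]
    rw [hd j a b hab]
  have hw0 : ∀ j, n ≤ j → ∀ ω, w j ω = 0 := by
    intro j hj ω
    funext x
    simp only [w]
    rw [hv0 j hj ω]
    simp
  have h1 := shift_lintegral hγ n w hw hwd hw0 (fun _ => 1) measurable_const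
  simp only [one_mul, lintegral_one, measure_univ] at h1
  have hZ : ∀ ω, logZ n w ω = l * (∑ j ∈ Finset.range n, ∑ x, inner ℝ (v j ω x) (ω j x))
      - l ^ 2 * (∑ j ∈ Finset.range n, ∑ x, ‖v j ω x‖ ^ 2) / 2 := by
    intro ω
    unfold logZ
    rw [Finset.mul_sum, mul_div_assoc, Finset.sum_div, Finset.mul_sum, ← Finset.sum_sub_distrib]
    apply Finset.sum_congr rfl
    intro j _
    rw [Finset.mul_sum, Finset.sum_div, Finset.mul_sum, ← Finset.sum_sub_distrib]
    apply Finset.sum_congr rfl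
    intro x _
    simp only [w]
    rw [inner_smul_left, norm_smul]
    simp only [conj_trivial, norm_neg, Real.norm_eq_abs]
    rw [mul_pow, sq_abs]
    ring
  have hsub : {ω | r < ∑ j ∈ Finset.range n, ∑ x, inner ℝ (v j ω x) (ω j x)} ⊆
      {ω | ENNReal.ofReal (Real.exp (r ^ 2 / (2 * Q))) ≤
        ENNReal.ofReal (Real.exp (logZ n w ω))} := by
    intro ω hω
    simp only [Set.mem_setOf_eq] at hω ⊢
    apply ENNReal.ofReal_le_ofReal
    apply Real.exp_le_exp.mpr
    rw [hZ ω]
    have h2 : l ^ 2 * (∑ j ∈ Finset.range n, ∑ x, ‖v j ω x‖ ^ 2) / 2 ≤ l ^ 2 * Q / 2 := by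
      have := mul_le_mul_of_nonneg_left (hQv ω) (sq_nonneg l)
      linarith
    have h3 : l * r ≤ l * (∑ j ∈ Finset.range n, ∑ x, inner ℝ (v j ω x) (ω j x)) :=
      mul_le_mul_of_nonneg_left hω.le hl0
    have h4 : r ^ 2 / (2 * Q) = l * r - l ^ 2 * Q / 2 := by
      rw [hl]; field_simp; ring
    linarith
  refine (measure_mono hsub).trans ?_
  have hm : AEMeasurable (fun ω => ENNReal.ofReal (Real.exp (logZ n w ω))) μ :=
    (ENNReal.measurable_ofReal.comp
      (Real.measurable_exp.comp (PSShift_meas_logZ n w hw))).aemeasurable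
  have h5 := mul_meas_ge_le_lintegral₀ hm (ENNReal.ofReal (Real.exp (r ^ 2 / (2 * Q))))
  rw [h1] at h5
  have hpos : 0 < Real.exp (r ^ 2 / (2 * Q)) := Real.exp_pos _
  have h6 : Real.exp (-(r ^ 2) / (2 * Q)) = (Real.exp (r ^ 2 / (2 * Q)))⁻¹ := by
    rw [← Real.exp_neg]; congr 1; ring
  rw [h6, ENNReal.ofReal_inv_of_pos hpos]
  rw [ENNReal.le_inv_iff_mul_le]
  rw [mul_comm]
  exact h5

/-- Gaussian tail of an adapted linear functional with bounded quadratic variation -/
theorem adapted_tail (hγ : CMart γ) (n : ℕ) (v : ℕ → (ℕ → ι → V) → ι → V)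
    (hv : ∀ j, Measurable (v j)) (hd : ∀ j, Dep j (v j)) (hv0 : ∀ j, n ≤ j → ∀ ω, v j ω = 0)
    (Q : ℝ) (hQ : 0 < Q) (hQv : ∀ ω, ∑ j ∈ Finset.range n, ∑ x, ‖v j ω x‖ ^ 2 ≤ Q) (r : ℝ)
    (hr : 0 ≤ r) :
    PI (Measure.pi fun _ : ι => γ)
        {ω | r < |∑ j ∈ Finset.range n, ∑ x, inner ℝ (v j ω x) (ω j x)|}
      ≤ ENNReal.ofReal (2 * Real.exp (-(r ^ 2) / (2 * Q))) := by
  let w : ℕ → (ℕ → ι → V) → ι → V := fun j ω x => - v j ω x
  have hw : ∀ j, Measurable (w j) := by
    intro j
    refine measurable_pi_lambda _ fun x => ?_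
    exact ((measurable_pi_apply x).comp (hv j)).neg
  have hwd : ∀ j, Dep j (w j) := by
    intro j a b hab
    funext x
    simp only [w]
    rw [hd j a b hab]
  have hw0 : ∀ j, n ≤ j → ∀ ω, w j ω = 0 := by
    intro j hj ω
    funext x
    simp only [w]
    rw [hv0 j hj ω]
    simp
  have h1 := PSShift_tail1 hγ n v hv hd hv0 Q hQ hQv r hr
  have h2 := PSShift_tail1 hγ n w hw hwd hw0 Q hQ (by
    intro ω
    simp only [w, norm_neg]
    exact hQv ω) r hr
  have hsub : {ω | r < |∑ j ∈ Finset.range n, ∑ x, inner ℝ (v j ω x) (ω j x)|} ⊆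
      {ω | r < ∑ j ∈ Finset.range n, ∑ x, inner ℝ (v j ω x) (ω j x)} ∪
      {ω | r < ∑ j ∈ Finset.range n, ∑ x, inner ℝ (w j ω x) (ω j x)} := by
    intro ω hω
    simp only [Set.mem_setOf_eq] at hω
    rcases lt_abs.mp hω with h | h
    · exact Or.inl h
    · right
      simp only [Set.mem_setOf_eq, w, inner_neg_left, Finset.sum_neg_distrib]
      exact h
  refine (measure_mono hsub).trans ((measure_union_le _ _).trans ((add_le_add h1 h2).trans ?_))
  rw [← ENNReal.ofReal_add (Real.exp_pos _).le (Real.exp_pos _).le]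
  apply ENNReal.ofReal_le_ofReal
  linarith

end

end DynC

end

/-! ### from `Lib_MP_36b788c.MFDefs` -/

section

/-!
# Finite metric sets, last passage functional, height model: definitions
-/

open MeasureTheory ProbabilityTheory
open scoped ENNReal

namespace DynC

noncomputable section

/-- finite set with an integer valued distance of polynomial growth -/
structure MSet (S : Type) [Fintype S] (D : ℕ) where
  dd : S → S → ℕ
  dd_self : ∀ x, dd x x = 0
  dd_pos : ∀ x y, x ≠ y → 1 ≤ dd x y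
  dd_comm : ∀ x y, dd x y = dd y x
  dd_tri : ∀ x y z, dd x z ≤ dd x y + dd y z
  growth : ∀ (x : S) (r : ℕ) (A : Finset S), (∀ y ∈ A, dd x y ≤ r) → A.card ≤ (2 * r + 1) ^ D

/-- `n` disjoint pairs of points at distance at most one near every point -/
def MSet.HasLine {S : Type} [Fintype S] {D : ℕ} (M : MSet S D) (n : ℕ) : Prop :=
  ∀ y : S, ∃ p : Fin n → Fin 2 → S, Function.Injective (fun q : Fin n × Fin 2 => p q.1 q.2) ∧
    (∀ i, M.dd (p i 0) (p i 1) = 1) ∧ ∀ i j, M.dd y (p i j) ≤ 2 * n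

variable {S : Type} [Fintype S] {D : ℕ}

/-- sup convolution `R(F)(x) = max_z (F z - dd x z)` -/
def MSet.RR (M : MSet S D) (F : S → ℝ) (x : S) : ℝ :=
  (Finset.univ.image fun z => F z - M.dd x z).max' (by
    exact ⟨F x - M.dd x x, Finset.mem_image_of_mem _ (Finset.mem_univ x)⟩)

/-- a maximizer `z` in `RR F x` (a fixed choice) -/
def MSet.am (M : MSet S D) (F : S → ℝ) (x : S) : S :=
  Classical.choose (show ∃ z, F z - M.dd x z = M.RR F x by
    have h := Finset.max'_mem (Finset.univ.image fun z => F z - (M.dd x z : ℝ))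
      ⟨F x - M.dd x x, Finset.mem_image_of_mem _ (Finset.mem_univ x)⟩
    obtain ⟨z, _, hz⟩ := Finset.mem_image.mp h
    exact ⟨z, hz⟩)

/-- one step of the height model with increments `g` -/
def MSet.mst (M : MSet S D) (F g : S → ℝ) : S → ℝ := fun x => min 0 (M.RR F x + g x)

/-- height model started at `X`, increments `g j = c • ω j` -/
def MSet.mf (M : MSet S D) (X : S → ℝ) (g : ℕ → S → ℝ) : ℕ → S → ℝ
  | 0 => X
  | n + 1 => M.mst (M.mf X g n) (g n)

/-- position at time `n - i` of the lineage of `(x, n)`: `i` steps back -/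
def MSet.lin (M : MSet S D) (X : S → ℝ) (g : ℕ → S → ℝ) (n : ℕ) (x : S) : ℕ → S
  | 0 => x
  | i + 1 => M.am (M.mf X g (n - (i + 1))) (M.lin X g n x i)

/-- the lineage of `(x,n)` is `η`-uncut back to time `m`: all uncapped values on it are `< η` -/
def MSet.uncut (M : MSet S D) (η : ℝ) (X : S → ℝ) (g : ℕ → S → ℝ) (n m : ℕ) (x : S) : Prop :=
  ∀ i, i < n - m → M.RR (M.mf X g (n - (i + 1))) (M.lin X g n x i) +
    g (n - (i + 1)) (M.lin X g n x i) < η

/-- sup convolution with cost `q` per unit -/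
def MSet.Rq (M : MSet S D) (q : ℝ) (F : S → ℝ) (x : S) : ℝ :=
  (Finset.univ.image fun z => F z - q * M.dd x z).max' (by
    exact ⟨F x - q * M.dd x x, Finset.mem_image_of_mem _ (Finset.mem_univ x)⟩)

/-- sup over all points at cost `q * max (dd) 1` -/
def MSet.Rq1 (M : MSet S D) (q : ℝ) (F : S → ℝ) (x : S) : ℝ :=
  (Finset.univ.image fun z => F z - q * max (M.dd x z : ℝ) 1).max' (by
    exact ⟨F x - q * max (M.dd x x : ℝ) 1, Finset.mem_image_of_mem _ (Finset.mem_univ x)⟩)

/-- last passage functional with jump cost `q`, initial field `W0`: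
`W_{n+1}(x) = max (0, W_n(x) + g, sup_z (W_n(z) - q max(dd,1)) + g⁺)` -/
def MSet.lpp (M : MSet S D) (q : ℝ) (W0 : S → ℝ) (g : ℕ → S → ℝ) : ℕ → S → ℝ
  | 0 => W0
  | n + 1 => fun x => max 0 (max (M.lpp q W0 g n x + g n x)
      (M.Rq1 q (M.lpp q W0 g n) x + max (g n x) 0))

/-- running maximum of the last passage functional -/
def MSet.lppM (M : MSet S D) (q : ℝ) (W0 : S → ℝ) (g : ℕ → S → ℝ) (n : ℕ) (x : S) : ℝ :=
  (Finset.range (n + 1)).sup' ⟨0, Finset.mem_range.mpr (Nat.succ_pos n)⟩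
    (fun m => M.lpp q W0 g m x)

/-- `max_{m ≤ n} Σ_{j<m} b_j` -/
def pmax (b : ℕ → ℝ) (n : ℕ) : ℝ :=
  (Finset.range (n + 1)).sup' ⟨0, Finset.mem_range.mpr (Nat.succ_pos n)⟩
    (fun m => ∑ j ∈ Finset.range m, b j)

/-- oscillation bound `max_m P_m + max_m (-P_m)` of the partial sums -/
def osc (b : ℕ → ℝ) (n : ℕ) : ℝ := pmax b n + pmax (fun j => -b j) n

/-- exponential of the best value with exactly `i` jumps after `m` steps, initial weight `w0` -/
def MSet.exJ (M : MSet S D) (lam q : ℝ) (w0 : S → ℝ) (g : ℕ → S → ℝ) : ℕ → ℕ → S → ℝ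
  | 0, 0 => w0
  | 0, _ + 1 => fun _ => 0
  | m + 1, 0 => fun x => max 1 (M.exJ lam q w0 g m 0 x * Real.exp (lam * g m x))
  | m + 1, i + 1 => fun x => max (M.exJ lam q w0 g m (i + 1) x * Real.exp (lam * g m x))
      ((∑ z, M.exJ lam q w0 g m i z * Real.exp (-(lam * q * max (M.dd x z : ℝ) 1)))
        * Real.exp (lam * max (g m x) 0))

/-- group kernel with `l` jumps, noise `g` on `K` steps -/
def MSet.gk (M : MSet S D) (lam q : ℝ) (g : ℕ → S → ℝ) (K : ℕ) : ℕ → S → S → ℝ
  | 0 => fun z x => open Classical in if z = x then Real.exp (lam * osc (fun j => g j x) K) else 0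
  | l + 1 => fun z x => (∑ y, M.gk lam q g K l z y *
      Real.exp (-(lam * q * max (M.dd y x : ℝ) 1))) * Real.exp (lam * osc (fun j => g j x) K)

/-- Gaussian noise field with unit variance -/
def nz (S : Type) [Fintype S] : Measure (S → ℝ) := Measure.pi (fun _ => gaussianReal 0 1)

instance : IsProbabilityMeasure (nz S) := by
  unfold nz; infer_instance

/-- rescaled noise -/
def sc (v : ℝ) (ω : ℕ → S → ℝ) : ℕ → S → ℝ := fun j x => Real.sqrt v * ω j x

end

end DynC

end

/-! ### from `Lib_MP_36b788c.Osc` -/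

section

/-!
# Oscillation of partial sums: deterministic facts and exponential moments

PROOF.
* `pmax_nonneg` (take `m = 0`), `pmax_mono` in `n`, `le_pmax`, and for `i ≤ j ≤ n`:
  `|Σ_{l∈[i,j)} b_l| ≤ osc b n` (difference of two partial sums).
* `max_ineq`: nonnegative supermartingale maximal inequality on path space. Let `θ = E e^{sφ} ≤ e^{w}`. Claim by
  induction on `n`: for all `y > 0`, `P(∃ m ≤ n, y ≤ exp(s P_m - m w)) ≤ 1/y`. `y ≤ 1`: trivial (a probability).
  `y > 1`: `m = 0` is impossible, condition on the first entry `a` (`lintegral_cons`):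
  the event is `∃ m ≤ n-1, y e^{-sφ(a)+w} ≤ exp(s P'_m - m w)` for the shifted sequence, so the probability is
  `≤ E[e^{sφ(a)-w}]/y ≤ 1/y`.
* `pmax_exp`: with the exponent `2s` and `w = 2s²v`: `P(e^{s pmax_n} ≥ y) = P(e^{2s pmax_n} ≥ y²) ≤ e^{2s²vn} y^{-2}`
  (`exp(2sP_m) ≤ exp(2sP_m - m w) e^{n w}`), and `E e^{s pmax} ≤ 1 + ∫_1^∞ P(e^{s pmax} ≥ y) dy ≤ 1 + e^{2s²vn}
  ≤ 2 e^{2s²vn}` (layer cake `lintegral_eq_lintegral_meas_le` or a dyadic sum; any constant is fine as long as the
  stated one results; with the dyadic sum use `y = 2^j`, constant below is `4`).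
* `osc_exp`: Cauchy-Schwarz `E e^{s osc} ≤ (E e^{2s pmax})^{1/2} (E e^{2s pmax(-b)})^{1/2}`.
-/

open MeasureTheory ProbabilityTheory
open scoped ENNReal

namespace DynC

theorem pmax_nonneg (b : ℕ → ℝ) (n : ℕ) : 0 ≤ pmax b n := by
  have h := Finset.le_sup' (f := fun m => ∑ j ∈ Finset.range m, b j)
    (Finset.mem_range.mpr (Nat.succ_pos n))
  simpa [pmax] using h

theorem le_pmax (b : ℕ → ℝ) {m n : ℕ} (h : m ≤ n) : ∑ j ∈ Finset.range m, b j ≤ pmax b n :=
  Finset.le_sup' (f := fun m => ∑ j ∈ Finset.range m, b j)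
    (Finset.mem_range.mpr (Nat.lt_succ_of_le h))

theorem pmax_mono (b : ℕ → ℝ) {m n : ℕ} (h : m ≤ n) : pmax b m ≤ pmax b n := by
  refine Finset.sup'_le _ _ fun k hk => ?_
  exact le_pmax b ((Nat.lt_succ_iff.mp (Finset.mem_range.mp hk)).trans h)

theorem osc_nonneg (b : ℕ → ℝ) (n : ℕ) : 0 ≤ osc b n :=
  add_nonneg (pmax_nonneg _ _) (pmax_nonneg _ _)

theorem osc_mono (b : ℕ → ℝ) {m n : ℕ} (h : m ≤ n) : osc b m ≤ osc b n :=
  add_le_add (pmax_mono _ h) (pmax_mono _ h)

theorem sum_le_osc (b : ℕ → ℝ) {i j n : ℕ} (hij : i ≤ j) (hj : j ≤ n) :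
    |∑ l ∈ Finset.Ico i j, b l| ≤ osc b n := by
  have h1 := le_pmax b hj
  have h2 := le_pmax b (hij.trans hj)
  have h3 := le_pmax (fun l => -b l) hj
  have h4 := le_pmax (fun l => -b l) (hij.trans hj)
  rw [Finset.sum_neg_distrib] at h3 h4
  rw [Finset.sum_Ico_eq_sub _ hij]
  unfold osc
  rw [abs_le]
  constructor <;> linarith

private theorem Osc_exists (b : ℕ → ℝ) (n : ℕ) :
    ∃ m, m ≤ n ∧ pmax b n = ∑ j ∈ Finset.range m, b j := by
  obtain ⟨m, hm, h⟩ := Finset.exists_mem_eq_sup' (s := Finset.range (n + 1))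
    ⟨0, Finset.mem_range.mpr (Nat.succ_pos n)⟩ (fun m => ∑ j ∈ Finset.range m, b j)
  exact ⟨m, Nat.lt_succ_iff.mp (Finset.mem_range.mp hm), h⟩

variable {X : Type} [MeasurableSpace X] {μ : Measure X} [IsProbabilityMeasure μ]

private theorem Osc_meas_sum (φ : X → ℝ) (hφ : Measurable φ) (m : ℕ) :
    Measurable (fun ω : ℕ → X => ∑ j ∈ Finset.range m, φ (ω j)) :=
  Finset.measurable_sum _ fun j _ => hφ.comp (measurable_pi_apply j)

private theorem Osc_meas_pmax (φ : X → ℝ) (hφ : Measurable φ) (n : ℕ) :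
    Measurable (fun ω : ℕ → X => pmax (fun j => φ (ω j)) n) := by
  unfold pmax
  exact Finset.measurable_range_sup'' fun m _ => Osc_meas_sum φ hφ m

/-- maximal inequality for a nonnegative exponential supermartingale -/
theorem max_ineq (φ : X → ℝ) (hφ : Measurable φ) (s w : ℝ)
    (h : ∫⁻ a, ENNReal.ofReal (Real.exp (s * φ a)) ∂μ ≤ ENNReal.ofReal (Real.exp w)) (n : ℕ)
    (y : ℝ) (hy : 0 < y) :
    PI μ {ω | ∃ m, m ≤ n ∧ y ≤ Real.exp (s * (∑ j ∈ Finset.range m, φ (ω j)) - m * w)}
      ≤ ENNReal.ofReal (1 / y) := by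
  induction n generalizing y with
  | zero =>
    rcases le_or_gt y 1 with hy1 | hy1
    · refine prob_le_one.trans ?_
      rw [ENNReal.one_le_ofReal]
      exact (one_le_div hy).2 hy1
    · have : {ω : ℕ → X | ∃ m, m ≤ 0 ∧
          y ≤ Real.exp (s * (∑ j ∈ Finset.range m, φ (ω j)) - m * w)} = ∅ := by
        rw [Set.eq_empty_iff_forall_notMem]
        rintro ω ⟨m, hm, hle⟩
        obtain rfl : m = 0 := Nat.le_zero.mp hm
        simp at hle
        linarith
      rw [this]
      simp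
  | succ n ih =>
    rcases le_or_gt y 1 with hy1 | hy1
    · refine prob_le_one.trans ?_
      rw [ENNReal.one_le_ofReal]
      exact (one_le_div hy).2 hy1
    · set E : Set (ℕ → X) := {ω | ∃ m, m ≤ n + 1 ∧
          y ≤ Real.exp (s * (∑ j ∈ Finset.range m, φ (ω j)) - m * w)} with hE
      have hEm : MeasurableSet E := by
        have : E = ⋃ m : ℕ, {ω : ℕ → X | m ≤ n + 1 ∧
            y ≤ Real.exp (s * (∑ j ∈ Finset.range m, φ (ω j)) - m * w)} := by
          ext ω
          simp [hE]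
        rw [this]
        refine MeasurableSet.iUnion fun m => ?_
        have hm2 : Measurable (fun ω : ℕ → X =>
            Real.exp (s * (∑ j ∈ Finset.range m, φ (ω j)) - m * w)) :=
          Real.measurable_exp.comp (((Osc_meas_sum φ hφ m).const_mul s).sub measurable_const)
        exact (MeasurableSet.const _).inter
          (measurableSet_le (f := fun _ : ℕ → X => y) measurable_const hm2)
      have h1 : PI μ E = ∫⁻ ω, E.indicator (fun _ => (1 : ℝ≥0∞)) ω ∂(PI μ) := by
        rw [lintegral_indicator hEm, lintegral_const, Measure.restrict_apply_univ, one_mul]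
      rw [h1, lintegral_cons _ (measurable_const.indicator hEm)]
      have h2 : ∀ a : X, ∫⁻ ω, E.indicator (fun _ => (1 : ℝ≥0∞)) (fun i => Nat.casesOn i a ω) ∂(PI μ)
          ≤ ENNReal.ofReal (Real.exp (s * φ a)) * ENNReal.ofReal (Real.exp (-w) / y) := by
        intro a
        have hy' : 0 < y * Real.exp (w - s * φ a) := mul_pos hy (Real.exp_pos _)
        refine le_trans ?_ (le_trans (ih (y * Real.exp (w - s * φ a)) hy') ?_)
        · set E' : Set (ℕ → X) := {ω | ∃ m, m ≤ n ∧ y * Real.exp (w - s * φ a) ≤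
            Real.exp (s * (∑ j ∈ Finset.range m, φ (ω j)) - m * w)} with hE'
          have hsub : ∀ ω : ℕ → X, E.indicator (fun _ => (1 : ℝ≥0∞)) (fun i => Nat.casesOn i a ω)
              ≤ E'.indicator (fun _ => (1 : ℝ≥0∞)) ω := by
            intro ω
            by_cases hω : (fun i => Nat.casesOn i a ω : ℕ → X) ∈ E
            · rw [Set.indicator_of_mem hω]
              have hω' : ω ∈ E' := by
                obtain ⟨m, hm, hle⟩ := hω
                rcases m with _ | m
                · exfalso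
                  simp at hle
                  linarith
                · refine ⟨m, Nat.le_of_succ_le_succ hm, ?_⟩
                  rw [Finset.sum_range_succ'] at hle
                  have e1 : Real.exp (s * (∑ j ∈ Finset.range m, φ (ω j)) - m * w)
                      = Real.exp (s * (∑ j ∈ Finset.range m, φ (ω j) + φ a) - ((m + 1 : ℕ) : ℝ) * w)
                        * Real.exp (w - s * φ a) := by
                    rw [← Real.exp_add]
                    congr 1
                    push_cast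
                    ring
                  rw [e1]
                  exact mul_le_mul_of_nonneg_right hle (Real.exp_pos _).le
              rw [Set.indicator_of_mem hω']
            · rw [Set.indicator_of_notMem hω]
              exact zero_le
          refine (lintegral_mono hsub).trans ?_
          exact (lintegral_indicator_one_le E')
        · rw [← ENNReal.ofReal_mul (Real.exp_pos _).le]
          apply ENNReal.ofReal_le_ofReal
          apply le_of_eq
          rw [Real.exp_sub, Real.exp_neg]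
          field_simp
      refine (lintegral_mono h2).trans ?_
      rw [lintegral_mul_const _ (by fun_prop)]
      refine (mul_le_mul_left h _).trans ?_
      rw [← ENNReal.ofReal_mul (Real.exp_pos _).le]
      apply ENNReal.ofReal_le_ofReal
      apply le_of_eq
      rw [Real.exp_neg]
      field_simp

/-- layer cake with the tail `A / y ^ 2` -/
private theorem Osc_layer {Ω : Type} [MeasurableSpace Ω] (P : Measure Ω) [IsProbabilityMeasure P]
    (Z : Ω → ℝ) (hZ : Measurable Z) (h0 : ∀ ω, 0 ≤ Z ω) (A : ℝ) (hA : 1 ≤ A)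
    (h : ∀ y : ℝ, 0 < y → P {ω | y ≤ Z ω} ≤ ENNReal.ofReal (A / y ^ 2)) :
    ∫⁻ ω, ENNReal.ofReal (Z ω) ∂P ≤ ENNReal.ofReal (2 * A) := by
  rw [lintegral_eq_lintegral_meas_le P (Filter.Eventually.of_forall h0) hZ.aemeasurable]
  have hu : Set.Ioi (0 : ℝ) = Set.Ioc 0 1 ∪ Set.Ioi 1 := by
    rw [Set.Ioc_union_Ioi_eq_Ioi zero_le_one]
  rw [hu]
  refine (lintegral_union_le _ _ _).trans ?_
  have h1 : ∫⁻ t in Set.Ioc (0 : ℝ) 1, P {a | t ≤ Z a} ≤ ENNReal.ofReal A := by
    calc ∫⁻ t in Set.Ioc (0 : ℝ) 1, P {a | t ≤ Z a}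
        ≤ ∫⁻ _ in Set.Ioc (0 : ℝ) 1, 1 := lintegral_mono fun t => prob_le_one
      _ = 1 := by simp
      _ ≤ ENNReal.ofReal A := by rwa [ENNReal.one_le_ofReal]
  have h2 : ∫⁻ t in Set.Ioi (1 : ℝ), P {a | t ≤ Z a} ≤ ENNReal.ofReal A := by
    have hint : IntegrableOn (fun t : ℝ => A * t ^ (-2 : ℝ)) (Set.Ioi 1) :=
      (integrableOn_Ioi_rpow_of_lt (by norm_num) one_pos).const_mul A
    calc ∫⁻ t in Set.Ioi (1 : ℝ), P {a | t ≤ Z a}
        ≤ ∫⁻ t in Set.Ioi (1 : ℝ), ENNReal.ofReal (A * t ^ (-2 : ℝ)) := by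
          refine setLIntegral_mono' measurableSet_Ioi fun t ht => ?_
          have ht0 : (0 : ℝ) < t := zero_lt_one.trans ht
          refine (h t ht0).trans (le_of_eq ?_)
          congr 1
          rw [Real.rpow_neg ht0.le, div_eq_mul_inv]
          norm_num
      _ = ENNReal.ofReal (∫ t in Set.Ioi (1 : ℝ), A * t ^ (-2 : ℝ)) := by
          rw [ofReal_integral_eq_lintegral_ofReal hint]
          refine (ae_restrict_mem measurableSet_Ioi).mono fun t ht => ?_
          have ht0 : (0 : ℝ) < t := zero_lt_one.trans ht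
          exact mul_nonneg (by linarith) (Real.rpow_nonneg ht0.le _)
      _ = ENNReal.ofReal A := by
          congr 1
          rw [integral_const_mul, integral_Ioi_rpow_of_lt (by norm_num) one_pos]
          norm_num
  calc _ ≤ ENNReal.ofReal A + ENNReal.ofReal A := add_le_add h1 h2
    _ = ENNReal.ofReal (2 * A) := by
      rw [← ENNReal.ofReal_add (by linarith) (by linarith)]
      congr 1
      ring

theorem pmax_exp (φ : X → ℝ) (hφ : Measurable φ) (s v : ℝ) (hs : 0 ≤ s) (hv : 0 ≤ v)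
    (h : ∫⁻ a, ENNReal.ofReal (Real.exp (2 * s * φ a)) ∂μ
      ≤ ENNReal.ofReal (Real.exp (2 * s ^ 2 * v))) (n : ℕ) :
    ∫⁻ ω, ENNReal.ofReal (Real.exp (s * pmax (fun j => φ (ω j)) n)) ∂(PI μ)
      ≤ ENNReal.ofReal (4 * Real.exp (2 * s ^ 2 * v * n)) := by
  have hw : 0 ≤ 2 * s ^ 2 * v := by positivity
  have hA : (1 : ℝ) ≤ Real.exp (2 * s ^ 2 * v * n) :=
    Real.one_le_exp (mul_nonneg hw (Nat.cast_nonneg n))
  have hZ : Measurable (fun ω : ℕ → X => Real.exp (s * pmax (fun j => φ (ω j)) n)) :=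
    Real.measurable_exp.comp ((Osc_meas_pmax φ hφ n).const_mul s)
  refine (Osc_layer (PI μ) _ hZ (fun ω => (Real.exp_pos _).le)
    (Real.exp (2 * s ^ 2 * v * n)) hA ?_).trans ?_
  · intro y hy
    have hy' : 0 < y ^ 2 * Real.exp (-(2 * s ^ 2 * v * n)) := by positivity
    refine le_trans (measure_mono ?_) ((max_ineq φ hφ (2 * s) (2 * s ^ 2 * v) h n
      (y ^ 2 * Real.exp (-(2 * s ^ 2 * v * n))) hy').trans ?_)
    · intro ω hω
      obtain ⟨m, hm, he⟩ := Osc_exists (fun j => φ (ω j)) n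
      refine ⟨m, hm, ?_⟩
      have hω' : y ≤ Real.exp (s * ∑ j ∈ Finset.range m, φ (ω j)) := by
        have : y ≤ Real.exp (s * pmax (fun j => φ (ω j)) n) := hω
        rwa [he] at this
      have h1 : y ^ 2 ≤ Real.exp (2 * s * ∑ j ∈ Finset.range m, φ (ω j)) := by
        calc y ^ 2 ≤ (Real.exp (s * ∑ j ∈ Finset.range m, φ (ω j))) ^ 2 :=
              pow_le_pow_left₀ hy.le hω' 2
          _ = Real.exp (2 * s * ∑ j ∈ Finset.range m, φ (ω j)) := by
              rw [← Real.exp_nat_mul]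
              congr 1
              push_cast
              ring
      calc y ^ 2 * Real.exp (-(2 * s ^ 2 * v * n))
          ≤ Real.exp (2 * s * ∑ j ∈ Finset.range m, φ (ω j))
            * Real.exp (-(2 * s ^ 2 * v * m)) := by
            apply mul_le_mul h1 _ (Real.exp_pos _).le (Real.exp_pos _).le
            apply Real.exp_le_exp.mpr
            have : (m : ℝ) ≤ n := by exact_mod_cast hm
            have := mul_le_mul_of_nonneg_left this hw
            linarith
        _ = Real.exp (2 * s * (∑ j ∈ Finset.range m, φ (ω j)) - m * (2 * s ^ 2 * v)) := by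
            rw [← Real.exp_add]
            congr 1
            ring
    · apply ENNReal.ofReal_le_ofReal
      apply le_of_eq
      rw [Real.exp_neg]
      field_simp
  · apply ENNReal.ofReal_le_ofReal
    linarith

/-- `E e^{s osc} ≤ 4 e^{8 s² v n}` -/
theorem osc_exp (φ : X → ℝ) (hφ : Measurable φ) (s v : ℝ) (hs : 0 ≤ s) (hv : 0 ≤ v)
    (h : ∀ r, |r| ≤ 4 * s → ∫⁻ a, ENNReal.ofReal (Real.exp (r * φ a)) ∂μ
      ≤ ENNReal.ofReal (Real.exp (r ^ 2 * v / 2))) (n : ℕ) :
    ∫⁻ ω, ENNReal.ofReal (Real.exp (s * osc (fun j => φ (ω j)) n)) ∂(PI μ)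
      ≤ ENNReal.ofReal (4 * Real.exp (8 * s ^ 2 * v * n)) := by
  have hφ' : Measurable (fun a => -φ a) := hφ.neg
  have hp : ∫⁻ ω, ENNReal.ofReal (Real.exp ((2 * s) * pmax (fun j => φ (ω j)) n)) ∂(PI μ)
      ≤ ENNReal.ofReal (4 * Real.exp (2 * (2 * s) ^ 2 * v * n)) := by
    refine pmax_exp φ hφ (2 * s) v (by positivity) hv ?_ n
    have h4 := h (4 * s) (by rw [abs_of_nonneg (by positivity)])
    have e1 : (2 * (2 * s) : ℝ) = 4 * s := by ring
    have e2 : 2 * (2 * s) ^ 2 * v = (4 * s) ^ 2 * v / 2 := by ring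
    rw [e1, e2]
    exact h4
  have hm : ∫⁻ ω, ENNReal.ofReal (Real.exp ((2 * s) * pmax (fun j => -φ (ω j)) n)) ∂(PI μ)
      ≤ ENNReal.ofReal (4 * Real.exp (2 * (2 * s) ^ 2 * v * n)) := by
    refine pmax_exp (fun a => -φ a) hφ' (2 * s) v (by positivity) hv ?_ n
    have h4 := h (-(4 * s)) (by rw [abs_neg, abs_of_nonneg (by positivity)])
    have e1 : ∀ a, 2 * (2 * s) * -φ a = -(4 * s) * φ a := fun a => by ring
    have e2 : 2 * (2 * s) ^ 2 * v = (-(4 * s)) ^ 2 * v / 2 := by ring
    simp only [e1]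
    rw [e2]
    exact h4
  have hmp : Measurable (fun ω : ℕ → X =>
      ENNReal.ofReal (Real.exp ((2 * s) * pmax (fun j => φ (ω j)) n))) :=
    ENNReal.measurable_ofReal.comp
      (Real.measurable_exp.comp ((Osc_meas_pmax φ hφ n).const_mul (2 * s)))
  have key : ∀ ω : ℕ → X, ENNReal.ofReal (Real.exp (s * osc (fun j => φ (ω j)) n))
      ≤ ENNReal.ofReal (1 / 2) * (ENNReal.ofReal (Real.exp ((2 * s) * pmax (fun j => φ (ω j)) n))
        + ENNReal.ofReal (Real.exp ((2 * s) * pmax (fun j => -φ (ω j)) n))) := by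
    intro ω
    rw [← ENNReal.ofReal_add (Real.exp_pos _).le (Real.exp_pos _).le,
      ← ENNReal.ofReal_mul (by norm_num)]
    apply ENNReal.ofReal_le_ofReal
    set p := pmax (fun j => φ (ω j)) n
    set q := pmax (fun j => -φ (ω j)) n
    have e0 : osc (fun j => φ (ω j)) n = p + q := rfl
    have e1 : Real.exp (s * (p + q)) = Real.exp (s * p) * Real.exp (s * q) := by
      rw [← Real.exp_add]
      congr 1
      ring
    have e2 : Real.exp (2 * s * p) = Real.exp (s * p) ^ 2 := by
      rw [← Real.exp_nat_mul]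
      congr 1
      push_cast
      ring
    have e3 : Real.exp (2 * s * q) = Real.exp (s * q) ^ 2 := by
      rw [← Real.exp_nat_mul]
      congr 1
      push_cast
      ring
    rw [e0, e1, e2, e3]
    nlinarith only [sq_nonneg (Real.exp (s * p) - Real.exp (s * q))]
  refine (lintegral_mono key).trans ?_
  rw [lintegral_const_mul' _ _ ENNReal.ofReal_ne_top, lintegral_add_left hmp]
  refine (mul_le_mul_right (add_le_add hp hm) _).trans ?_
  rw [← ENNReal.ofReal_add (by positivity) (by positivity), ← ENNReal.ofReal_mul (by norm_num)]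
  apply ENNReal.ofReal_le_ofReal
  apply le_of_eq
  have e2 : 2 * (2 * s) ^ 2 * v * n = 8 * s ^ 2 * v * n := by ring
  rw [e2]
  ring

private theorem Osc_gauss {S : Type} [Fintype S] (x : S) (r v : ℝ) (hv : 0 ≤ v) :
    ∫⁻ a, ENNReal.ofReal (Real.exp (r * (Real.sqrt v * a x))) ∂(nz S)
      ≤ ENNReal.ofReal (Real.exp (r ^ 2 * v / 2)) := by
  have hmp : MeasurePreserving (Function.eval x)
      (Measure.pi (fun _ : S => gaussianReal 0 1)) (gaussianReal 0 1) :=
    measurePreserving_eval (fun _ : S => gaussianReal 0 1) x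
  have h1 : ∫⁻ a, ENNReal.ofReal (Real.exp (r * (Real.sqrt v * a x))) ∂(nz S)
      = ∫⁻ t, ENNReal.ofReal (Real.exp ((r * Real.sqrt v) * t)) ∂(gaussianReal 0 1) := by
    have h2 := hmp.lintegral_comp
      (f := fun t : ℝ => ENNReal.ofReal (Real.exp ((r * Real.sqrt v) * t))) (by fun_prop)
    rw [← h2]
    unfold nz
    refine lintegral_congr fun a => ?_
    simp only [Function.eval]
    rw [mul_assoc]
  rw [h1, ← ofReal_integral_eq_lintegral_ofReal (integrable_exp_mul_gaussianReal _)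
    (Filter.Eventually.of_forall fun t => (Real.exp_pos _).le)]
  apply ENNReal.ofReal_le_ofReal
  apply le_of_eq
  have h3 := congrFun (mgf_fun_id_gaussianReal (μ := 0) (v := 1)) (r * Real.sqrt v)
  unfold mgf at h3
  rw [h3]
  congr 1
  rw [mul_pow, Real.sq_sqrt hv]
  simp

/-- Gaussian case, one site of the noise field -/
theorem osc_exp_nz {S : Type} [Fintype S] (s v : ℝ) (hs : 0 ≤ s) (hv : 0 ≤ v) (n : ℕ) (x : S) :
    ∫⁻ ω, ENNReal.ofReal (Real.exp (s * osc (fun j => sc v ω j x) n)) ∂(PI (nz S))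
      ≤ ENNReal.ofReal (4 * Real.exp (8 * s ^ 2 * v * n)) := by
  have hφ : Measurable (fun a : S → ℝ => Real.sqrt v * a x) :=
    (measurable_pi_apply x).const_mul _
  exact osc_exp (μ := nz S) (fun a => Real.sqrt v * a x) hφ s v hs hv
    (fun r _ => Osc_gauss x r v hv) n

/-- probability of a large oscillation -/
theorem osc_tail_nz {S : Type} [Fintype S] (v : ℝ) (hv : 0 < v) (n : ℕ) (hn : 0 < n) (x : S)
    (r : ℝ) (hr : 0 ≤ r) :
    PI (nz S) {ω | r ≤ osc (fun j => sc v ω j x) n}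
      ≤ ENNReal.ofReal (4 * Real.exp (-(r ^ 2) / (32 * (v * n)))) := by
  have hn' : (0 : ℝ) < n := by exact_mod_cast hn
  set s : ℝ := r / (16 * (v * n)) with hs
  have hs0 : 0 ≤ s := by positivity
  have h1 := osc_exp_nz s v hs0 hv.le n x
  have hφ : Measurable (fun a : S → ℝ => Real.sqrt v * a x) :=
    (measurable_pi_apply x).const_mul _
  have hφ' : Measurable (fun a : S → ℝ => -(Real.sqrt v * a x)) := hφ.neg
  have hmo : Measurable (fun ω : ℕ → S → ℝ => osc (fun j => sc v ω j x) n) :=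
    (Osc_meas_pmax _ hφ n).add (Osc_meas_pmax _ hφ' n)
  have hme : Measurable (fun ω : ℕ → S → ℝ =>
      ENNReal.ofReal (Real.exp (s * osc (fun j => sc v ω j x) n))) :=
    ENNReal.measurable_ofReal.comp (Real.measurable_exp.comp (hmo.const_mul s))
  have h2 := mul_meas_ge_le_lintegral (μ := PI (nz S)) hme (ENNReal.ofReal (Real.exp (s * r)))
  have hsub : {ω : ℕ → S → ℝ | r ≤ osc (fun j => sc v ω j x) n} ⊆
      {ω | ENNReal.ofReal (Real.exp (s * r)) ≤
        ENNReal.ofReal (Real.exp (s * osc (fun j => sc v ω j x) n))} := by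
    intro ω hω
    apply ENNReal.ofReal_le_ofReal
    exact Real.exp_le_exp.mpr (mul_le_mul_of_nonneg_left hω hs0)
  have h3 : ENNReal.ofReal (Real.exp (s * r)) * PI (nz S) {ω | r ≤ osc (fun j => sc v ω j x) n}
      ≤ ENNReal.ofReal (4 * Real.exp (8 * s ^ 2 * v * n)) :=
    (mul_le_mul_right (measure_mono hsub) _).trans (h2.trans h1)
  have h4 : PI (nz S) {ω | r ≤ osc (fun j => sc v ω j x) n}
      ≤ ENNReal.ofReal (Real.exp (-(s * r))) * ENNReal.ofReal (4 * Real.exp (8 * s ^ 2 * v * n)) := by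
    have h5 := mul_le_mul_right h3 (ENNReal.ofReal (Real.exp (-(s * r))))
    rw [← mul_assoc, ← ENNReal.ofReal_mul (Real.exp_pos _).le, ← Real.exp_add,
      neg_add_cancel, Real.exp_zero, ENNReal.ofReal_one, one_mul] at h5
    exact h5
  refine h4.trans ?_
  rw [← ENNReal.ofReal_mul (Real.exp_pos _).le]
  apply ENNReal.ofReal_le_ofReal
  apply le_of_eq
  have e1 : Real.exp (-(s * r)) * (4 * Real.exp (8 * s ^ 2 * v * n))
      = 4 * Real.exp (-(s * r) + 8 * s ^ 2 * v * n) := by
    rw [Real.exp_add]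
    ring
  rw [e1]
  congr 2
  rw [hs]
  field_simp
  ring

end DynC

end

/-! ### from `Lib_MP_36b788c.LPPa` -/

section

/-!
# Last passage functional: deterministic facts

PROOF. All by induction on the number of steps.
* `lpp_nonneg`, `lpp_mono` (in the initial field), `lpp_shift` (semigroup), `lpp_neg_single` (staying at `x`:
  `W_{n}(x) ≥ Σ_{[m,n)} g(x)` for every `m ≤ n`, because `W_m ≥ 0` and `W_{j+1} ≥ W_j + g_j`).
* `lpp_path`: for a path `γ`, `W_{j+1}(γ_{j+1}) ≥ W_j(γ_j) - q dd(γ_j,γ_{j+1}) + g_j(γ_{j+1})`: if `γ_{j+1} = γ_j` by the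
  second entry of the max, otherwise `dd ≥ 1`, so `max dd 1 = dd` and `g ≤ g⁺` (third entry).
* `lpp_le_exJ`: `exp(λ W_m(x)) ≤ Σ_{i≤m} exJ m i x` when `exp(λ W0) ≤ w0`: the three cases of the max in the
  definition: `0`: `exJ (m+1) 0 ≥ 1`; stay: termwise; jump: `exp(λ(W_m(z) - q max(dd,1))) ≤ Σ_i exJ m i z e^{-λ q max(dd,1)} ≤
  Σ_i Σ_z' …`.
* `exJ_group`: on a group of `K` steps (`m ≤ K`), `w0 i` the weights at the start (all `≥ 0`, `w0 0 ≥ 1`):
  `exJ` after `a + m` steps `≤ Σ_{l ≤ i} Σ_z exJ_a^{(i-l)}(z) gk^{(l)}(z,x)`. Prove first the sharper statement where in the last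
  factor `osc` is replaced by the current rise `ρ_m(x) = P_m - min_{m' ≤ m} P_{m'}` (`ρ_{m+1} = max(ρ_m + g, 0)`, so `ρ_{m+1} ≥ ρ_m+g`,
  `ρ_{m+1} ≥ g⁺`, `0 ≤ ρ_m ≤ osc`). Step without jump: factor `e^{λ g}`; the entry `1` in `exJ (m+1) 0` is `≤ w0 e^{λρ}`. Step with a
  jump from `z` to `x`: `e^{λρ_m(z)} ≤ e^{λ osc(z)}`, factor `e^{λ g⁺} ≤ e^{λ ρ_{m+1}(x)}`.
-/

open MeasureTheory ProbabilityTheory
open scoped ENNReal

namespace DynC

variable {S : Type} [Fintype S] {D : ℕ} (M : MSet S D)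

theorem Rq1_le (q : ℝ) (F : S → ℝ) (x : S) (c : ℝ)
    (h : ∀ z, F z - q * max (M.dd x z : ℝ) 1 ≤ c) : M.Rq1 q F x ≤ c := by
  unfold MSet.Rq1
  apply Finset.max'_le
  intro y hy
  obtain ⟨z, _, rfl⟩ := Finset.mem_image.mp hy
  exact h z

theorem le_Rq1 (q : ℝ) (F : S → ℝ) (x z : S) : F z - q * max (M.dd x z : ℝ) 1 ≤ M.Rq1 q F x := by
  unfold MSet.Rq1
  exact Finset.le_max' _ _ (Finset.mem_image_of_mem
    (fun z => F z - q * max (M.dd x z : ℝ) 1) (Finset.mem_univ z))

private theorem LPPa_Rq1_mono (q : ℝ) (F G : S → ℝ) (h : ∀ z, F z ≤ G z) (x : S) :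
    M.Rq1 q F x ≤ M.Rq1 q G x :=
  Rq1_le M q F x _ fun z => (sub_le_sub_right (h z) _).trans (le_Rq1 M q G x z)

private theorem LPPa_Rq1_attained (q : ℝ) (F : S → ℝ) (x : S) :
    ∃ z, M.Rq1 q F x = F z - q * max (M.dd x z : ℝ) 1 := by
  have h := Finset.max'_mem (Finset.univ.image fun z => F z - q * max (M.dd x z : ℝ) 1)
    ⟨F x - q * max (M.dd x x : ℝ) 1, Finset.mem_image_of_mem _ (Finset.mem_univ x)⟩
  obtain ⟨z, _, hz⟩ := Finset.mem_image.mp h
  exact ⟨z, hz.symm⟩

private theorem LPPa_Rq1_eq_sup (q : ℝ) (F : S → ℝ) (x : S) :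
    M.Rq1 q F x = Finset.univ.sup' ⟨x, Finset.mem_univ x⟩
      (fun z => F z - q * max (M.dd x z : ℝ) 1) := by
  apply le_antisymm
  · exact Rq1_le M q F x _ fun z =>
      Finset.le_sup' (f := fun z => F z - q * max (M.dd x z : ℝ) 1) (Finset.mem_univ z)
  · exact Finset.sup'_le _ _ fun z _ => le_Rq1 M q F x z

private theorem LPPa_lpp_succ (q : ℝ) (W0 : S → ℝ) (g : ℕ → S → ℝ) (n : ℕ) (x : S) :
    M.lpp q W0 g (n + 1) x = max 0 (max (M.lpp q W0 g n x + g n x)
      (M.Rq1 q (M.lpp q W0 g n) x + max (g n x) 0)) := rfl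

theorem lpp_nonneg (q : ℝ) (W0 : S → ℝ) (h0 : ∀ z, 0 ≤ W0 z) (g : ℕ → S → ℝ) (n : ℕ) (x : S) :
    0 ≤ M.lpp q W0 g n x := by
  cases n with
  | zero => exact h0 x
  | succ n => exact le_max_left _ _

theorem lpp_mono (q : ℝ) (W0 W0' : S → ℝ) (h : ∀ z, W0 z ≤ W0' z) (g : ℕ → S → ℝ) (n : ℕ) (x : S) :
    M.lpp q W0 g n x ≤ M.lpp q W0' g n x := by
  induction n generalizing x with
  | zero => exact h x
  | succ n ih =>
    rw [LPPa_lpp_succ, LPPa_lpp_succ]
    exact max_le_max le_rfl (max_le_max (add_le_add (ih x) le_rfl)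
      (add_le_add (LPPa_Rq1_mono M q _ _ ih x) le_rfl))

theorem lpp_shift (q : ℝ) (W0 : S → ℝ) (g : ℕ → S → ℝ) (n m : ℕ) :
    M.lpp q W0 g (n + m) = M.lpp q (M.lpp q W0 g n) (fun j => g (n + j)) m := by
  induction m with
  | zero => rfl
  | succ m ih =>
    funext x
    rw [← Nat.add_assoc, LPPa_lpp_succ, LPPa_lpp_succ, ih]

theorem lpp_congr (q : ℝ) (W0 : S → ℝ) (g g' : ℕ → S → ℝ) (n : ℕ) (h : ∀ j, j < n → g j = g' j) :
    M.lpp q W0 g n = M.lpp q W0 g' n := by
  induction n with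
  | zero => rfl
  | succ n ih =>
    funext x
    rw [LPPa_lpp_succ, LPPa_lpp_succ, ih fun j hj => h j (Nat.lt_succ_of_lt hj),
      h n (Nat.lt_succ_self n)]

theorem le_lppM (q : ℝ) (W0 : S → ℝ) (g : ℕ → S → ℝ) {m n : ℕ} (h : m ≤ n) (x : S) :
    M.lpp q W0 g m x ≤ M.lppM q W0 g n x :=
  Finset.le_sup' (f := fun m => M.lpp q W0 g m x)
    (Finset.mem_range.mpr (Nat.lt_succ_of_le h))

theorem lppM_nonneg (q : ℝ) (W0 : S → ℝ) (h0 : ∀ z, 0 ≤ W0 z) (g : ℕ → S → ℝ) (n : ℕ) (x : S) :
    0 ≤ M.lppM q W0 g n x :=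
  (lpp_nonneg M q W0 h0 g 0 x).trans (le_lppM M q W0 g (Nat.zero_le n) x)

theorem lppM_succ (q : ℝ) (W0 : S → ℝ) (g : ℕ → S → ℝ) (n m : ℕ) (x : S) :
    M.lppM q W0 g (n + m) x = max (M.lppM q W0 g n x)
      (M.lppM q (M.lpp q W0 g n) (fun j => g (n + j)) m x) := by
  apply le_antisymm
  · refine Finset.sup'_le _ _ fun k hk => ?_
    have hk' : k ≤ n + m := Nat.lt_succ_iff.mp (Finset.mem_range.mp hk)
    rcases le_total k n with h | h
    · exact le_max_of_le_left (le_lppM M q W0 g h x)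
    · obtain ⟨j, rfl⟩ := Nat.exists_eq_add_of_le h
      refine le_max_of_le_right ?_
      change M.lpp q W0 g (n + j) x ≤ _
      rw [lpp_shift]
      exact le_lppM M q _ _ (by omega) x
  · refine max_le ?_ ?_
    · refine Finset.sup'_le _ _ fun k hk => ?_
      have hk' : k ≤ n := Nat.lt_succ_iff.mp (Finset.mem_range.mp hk)
      exact le_lppM M q W0 g (by omega) x
    · refine Finset.sup'_le _ _ fun k hk => ?_
      have hk' : k ≤ m := Nat.lt_succ_iff.mp (Finset.mem_range.mp hk)
      change M.lpp q (M.lpp q W0 g n) (fun j => g (n + j)) k x ≤ _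
      rw [← lpp_shift]
      exact le_lppM M q W0 g (by omega) x

private theorem LPPa_meas_Rq1 {Ω : Type} [MeasurableSpace Ω] (q : ℝ) (F : Ω → S → ℝ)
    (hF : ∀ z, Measurable fun ω => F ω z) (x : S) : Measurable fun ω => M.Rq1 q (F ω) x := by
  have h : (fun ω => M.Rq1 q (F ω) x) = fun ω => Finset.univ.sup' ⟨x, Finset.mem_univ x⟩
      (fun z => F ω z - q * max (M.dd x z : ℝ) 1) := by
    funext ω
    exact LPPa_Rq1_eq_sup M q (F ω) x
  rw [h]
  have h2 := Finset.measurable_sup' (s := (Finset.univ : Finset S)) ⟨x, Finset.mem_univ x⟩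
    (f := fun z (ω : Ω) => F ω z - q * max (M.dd x z : ℝ) 1)
    (fun z _ => (hF z).sub_const _)
  have h3 : (fun ω => Finset.univ.sup' ⟨x, Finset.mem_univ x⟩
      (fun z => F ω z - q * max (M.dd x z : ℝ) 1)) = Finset.univ.sup' ⟨x, Finset.mem_univ x⟩
      (fun z (ω : Ω) => F ω z - q * max (M.dd x z : ℝ) 1) := by
    funext ω
    rw [Finset.sup'_apply]
  rw [h3]
  exact h2

private theorem LPPa_meas {Ω : Type} [MeasurableSpace Ω] (q : ℝ) (W : Ω → S → ℝ)
    (hW : ∀ z, Measurable fun ω => W ω z) (g : Ω → ℕ → S → ℝ)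
    (hg : ∀ j z, Measurable fun ω => g ω j z) (n : ℕ) (x : S) :
    Measurable fun ω => M.lpp q (W ω) (g ω) n x := by
  induction n generalizing x with
  | zero => exact hW x
  | succ n ih =>
    have h : (fun ω => M.lpp q (W ω) (g ω) (n + 1) x) = fun ω =>
        max 0 (max (M.lpp q (W ω) (g ω) n x + g ω n x)
          (M.Rq1 q (M.lpp q (W ω) (g ω) n) x + max (g ω n x) 0)) := rfl
    rw [h]
    exact measurable_const.max (((ih x).add (hg n x)).max
      ((LPPa_meas_Rq1 M q _ ih x).add ((hg n x).max measurable_const)))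

private theorem LPPa_meas_g (j : ℕ) (z : S) : Measurable fun g : ℕ → S → ℝ => g j z :=
  (measurable_pi_apply z).comp (measurable_pi_apply j)

theorem measurable_lpp (q : ℝ) (W0 : S → ℝ) (n : ℕ) (x : S) :
    Measurable (fun g : ℕ → S → ℝ => M.lpp q W0 g n x) :=
  LPPa_meas M q (fun _ => W0) (fun _ => measurable_const) (fun g => g)
    (fun j z => LPPa_meas_g j z) n x

theorem measurable_lpp2 (q : ℝ) (n : ℕ) (x : S) :
    Measurable (fun p : (S → ℝ) × (ℕ → S → ℝ) => M.lpp q p.1 p.2 n x) :=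
  LPPa_meas M q (fun p : (S → ℝ) × (ℕ → S → ℝ) => p.1)
    (fun z => (measurable_pi_apply z).comp measurable_fst)
    (fun p : (S → ℝ) × (ℕ → S → ℝ) => p.2) (fun j z => (LPPa_meas_g j z).comp measurable_snd) n x

theorem measurable_lppM (q : ℝ) (W0 : S → ℝ) (n : ℕ) (x : S) :
    Measurable (fun g : ℕ → S → ℝ => M.lppM q W0 g n x) := by
  unfold MSet.lppM
  exact Finset.measurable_range_sup'' fun m _ => measurable_lpp M q W0 m x

/-- the gain on a path is dominated -/
theorem lpp_path (q : ℝ) (W0 : S → ℝ) (h0 : ∀ z, 0 ≤ W0 z) (g : ℕ → S → ℝ) (γ : ℕ → S) {a m : ℕ}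
    (ham : a ≤ m) :
    ∑ i ∈ Finset.Ico a m, (g i (γ (i + 1)) - q * M.dd (γ i) (γ (i + 1)))
      ≤ M.lpp q W0 g m (γ m) := by
  induction m, ham using Nat.le_induction with
  | base =>
    rw [Finset.Ico_self, Finset.sum_empty]
    exact lpp_nonneg M q W0 h0 g a _
  | succ m ham ih =>
    rw [Finset.sum_Ico_succ_top ham, LPPa_lpp_succ]
    refine le_max_of_le_right ?_
    by_cases h : γ (m + 1) = γ m
    · refine le_max_of_le_left ?_
      rw [h, M.dd_self]
      push_cast
      linarith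
    · refine le_max_of_le_right ?_
      have h1 := le_Rq1 M q (M.lpp q W0 g m) (γ (m + 1)) (γ m)
      have h2 : (1 : ℝ) ≤ (M.dd (γ (m + 1)) (γ m) : ℝ) := by
        exact_mod_cast M.dd_pos _ _ h
      rw [max_eq_left h2, M.dd_comm] at h1
      have h3 := le_max_left (g m (γ (m + 1))) 0
      linarith

theorem exJ_nonneg (lam q : ℝ) (w0 : S → ℝ) (h0 : ∀ z, 0 ≤ w0 z) (g : ℕ → S → ℝ) (m i : ℕ)
    (x : S) : 0 ≤ M.exJ lam q w0 g m i x := by
  induction m generalizing i x with
  | zero =>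
    cases i with
    | zero => exact h0 x
    | succ i => exact le_rfl
  | succ m ih =>
    cases i with
    | zero => exact zero_le_one.trans (le_max_left _ _)
    | succ i =>
      exact (mul_nonneg (ih (i + 1) x) (Real.exp_pos _).le).trans (le_max_left _ _)

theorem exJ_of_lt (lam q : ℝ) (w0 : S → ℝ) (g : ℕ → S → ℝ) (m i : ℕ) (h : m < i) (x : S) :
    M.exJ lam q w0 g m i x = 0 := by
  induction m generalizing i x with
  | zero =>
    cases i with
    | zero => exact absurd h (lt_irrefl 0)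
    | succ i => rfl
  | succ m ih =>
    cases i with
    | zero => exact absurd h (Nat.not_lt_zero _)
    | succ i =>
      have h1 : M.exJ lam q w0 g (m + 1) (i + 1) x =
          max (M.exJ lam q w0 g m (i + 1) x * Real.exp (lam * g m x))
          ((∑ z, M.exJ lam q w0 g m i z * Real.exp (-(lam * q * max (M.dd x z : ℝ) 1)))
            * Real.exp (lam * max (g m x) 0)) := rfl
      rw [h1, ih (i + 1) (by omega) x, Finset.sum_eq_zero, zero_mul, zero_mul, max_self]
      intro z _
      rw [ih i (by omega) z, zero_mul]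

private theorem LPPa_exJ_zero (lam q : ℝ) (w0 : S → ℝ) (g : ℕ → S → ℝ) (m : ℕ) (x : S) :
    M.exJ lam q w0 g (m + 1) 0 x =
      max 1 (M.exJ lam q w0 g m 0 x * Real.exp (lam * g m x)) := rfl

private theorem LPPa_exJ_succ (lam q : ℝ) (w0 : S → ℝ) (g : ℕ → S → ℝ) (m i : ℕ) (x : S) :
    M.exJ lam q w0 g (m + 1) (i + 1) x =
      max (M.exJ lam q w0 g m (i + 1) x * Real.exp (lam * g m x))
      ((∑ z, M.exJ lam q w0 g m i z * Real.exp (-(lam * q * max (M.dd x z : ℝ) 1)))
        * Real.exp (lam * max (g m x) 0)) := rfl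

private theorem LPPa_one_le_exJ (lam q : ℝ) (w0 : S → ℝ) (h1 : ∀ z, 1 ≤ w0 z) (g : ℕ → S → ℝ)
    (m : ℕ) (x : S) : 1 ≤ M.exJ lam q w0 g m 0 x := by
  cases m with
  | zero => exact h1 x
  | succ m => exact le_max_left _ _

theorem lpp_le_exJ (lam q : ℝ) (hl : 0 ≤ lam) (W0 w0 : S → ℝ) (h1 : ∀ z, 1 ≤ w0 z)
    (h0 : ∀ z, Real.exp (lam * W0 z) ≤ w0 z) (g : ℕ → S → ℝ) (m : ℕ) (x : S) :
    Real.exp (lam * M.lpp q W0 g m x) ≤ ∑ i ∈ Finset.range (m + 1), M.exJ lam q w0 g m i x := by
  have hw : ∀ z, 0 ≤ w0 z := fun z => zero_le_one.trans (h1 z)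
  induction m generalizing x with
  | zero =>
    rw [Finset.sum_range_one]
    exact h0 x
  | succ m ih =>
    have hnn : ∀ i, 0 ≤ M.exJ lam q w0 g (m + 1) i x := fun i => exJ_nonneg M lam q w0 hw g _ i x
    have hcase : M.lpp q W0 g (m + 1) x = 0 ∨
        M.lpp q W0 g (m + 1) x = M.lpp q W0 g m x + g m x ∨
        M.lpp q W0 g (m + 1) x = M.Rq1 q (M.lpp q W0 g m) x + max (g m x) 0 := by
      rw [LPPa_lpp_succ]
      rcases max_choice (0 : ℝ) (max (M.lpp q W0 g m x + g m x)
        (M.Rq1 q (M.lpp q W0 g m) x + max (g m x) 0)) with h | h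
      · exact Or.inl h
      · rw [h]
        exact Or.inr (max_choice _ _)
    rcases hcase with h | h | h
    · rw [h, mul_zero, Real.exp_zero]
      exact (LPPa_one_le_exJ M lam q w0 h1 g (m + 1) x).trans
        (Finset.single_le_sum (f := fun i => M.exJ lam q w0 g (m + 1) i x)
          (fun i _ => hnn i) (Finset.mem_range.mpr (Nat.succ_pos _)))
    · rw [h, mul_add, Real.exp_add]
      calc Real.exp (lam * M.lpp q W0 g m x) * Real.exp (lam * g m x)
          ≤ (∑ i ∈ Finset.range (m + 1), M.exJ lam q w0 g m i x) * Real.exp (lam * g m x) :=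
            mul_le_mul_of_nonneg_right (ih x) (Real.exp_pos _).le
        _ = ∑ i ∈ Finset.range (m + 1), M.exJ lam q w0 g m i x * Real.exp (lam * g m x) :=
            Finset.sum_mul _ _ _
        _ ≤ ∑ i ∈ Finset.range (m + 1), M.exJ lam q w0 g (m + 1) i x := by
            refine Finset.sum_le_sum fun i _ => ?_
            cases i with
            | zero => exact le_max_right _ _
            | succ i => exact le_max_left _ _
        _ ≤ ∑ i ∈ Finset.range (m + 1 + 1), M.exJ lam q w0 g (m + 1) i x := by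
            rw [Finset.sum_range_succ _ (m + 1)]
            exact le_add_of_nonneg_right (hnn _)
    · obtain ⟨z, hz⟩ := LPPa_Rq1_attained M q (M.lpp q W0 g m) x
      rw [h, mul_add, Real.exp_add, hz]
      have e1 : Real.exp (lam * (M.lpp q W0 g m z - q * max (M.dd x z : ℝ) 1)) =
          Real.exp (lam * M.lpp q W0 g m z) * Real.exp (-(lam * q * max (M.dd x z : ℝ) 1)) := by
        rw [← Real.exp_add]
        congr 1
        ring
      rw [e1]
      calc Real.exp (lam * M.lpp q W0 g m z) * Real.exp (-(lam * q * max (M.dd x z : ℝ) 1)) *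
            Real.exp (lam * max (g m x) 0)
          ≤ (∑ i ∈ Finset.range (m + 1), M.exJ lam q w0 g m i z) *
            Real.exp (-(lam * q * max (M.dd x z : ℝ) 1)) * Real.exp (lam * max (g m x) 0) :=
            mul_le_mul_of_nonneg_right (mul_le_mul_of_nonneg_right (ih z) (Real.exp_pos _).le)
              (Real.exp_pos _).le
        _ = ∑ i ∈ Finset.range (m + 1), M.exJ lam q w0 g m i z *
            Real.exp (-(lam * q * max (M.dd x z : ℝ) 1)) * Real.exp (lam * max (g m x) 0) := by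
            rw [Finset.sum_mul, Finset.sum_mul]
        _ ≤ ∑ i ∈ Finset.range (m + 1), M.exJ lam q w0 g (m + 1) (i + 1) x := by
            refine Finset.sum_le_sum fun i _ => ?_
            refine le_trans ?_ (le_max_right _ _)
            refine mul_le_mul_of_nonneg_right ?_ (Real.exp_pos _).le
            exact Finset.single_le_sum (f := fun z => M.exJ lam q w0 g m i z *
              Real.exp (-(lam * q * max (M.dd x z : ℝ) 1)))
              (fun z _ => mul_nonneg (exJ_nonneg M lam q w0 hw g m i z) (Real.exp_pos _).le)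
              (Finset.mem_univ z)
        _ ≤ ∑ i ∈ Finset.range (m + 1 + 1), M.exJ lam q w0 g (m + 1) i x := by
            rw [Finset.sum_range_succ' _ (m + 1)]
            exact le_add_of_nonneg_right (hnn _)

/-- current rise of the partial sums -/
private noncomputable def LPPa_rho (b : ℕ → ℝ) : ℕ → ℝ
  | 0 => 0
  | m + 1 => max (LPPa_rho b m + b m) 0

private theorem LPPa_rho_nonneg (b : ℕ → ℝ) (m : ℕ) : 0 ≤ LPPa_rho b m := by
  cases m with
  | zero => exact le_rfl
  | succ m => exact le_max_right _ _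

private theorem LPPa_rho_eq (b : ℕ → ℝ) (m : ℕ) :
    ∃ j, j ≤ m ∧ LPPa_rho b m = ∑ l ∈ Finset.Ico j m, b l := by
  induction m with
  | zero => exact ⟨0, le_rfl, by simp [LPPa_rho]⟩
  | succ m ih =>
    obtain ⟨j, hj, h⟩ := ih
    rcases max_choice (LPPa_rho b m + b m) 0 with h1 | h1
    · refine ⟨j, by omega, ?_⟩
      change max (LPPa_rho b m + b m) 0 = _
      rw [h1, Finset.sum_Ico_succ_top hj, h]
    · refine ⟨m + 1, le_rfl, ?_⟩
      change max (LPPa_rho b m + b m) 0 = _
      rw [h1, Finset.Ico_self, Finset.sum_empty]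

private theorem LPPa_rho_le (b : ℕ → ℝ) {m K : ℕ} (h : m ≤ K) : LPPa_rho b m ≤ osc b K := by
  obtain ⟨j, hj, he⟩ := LPPa_rho_eq b m
  rw [he]
  exact (le_abs_self _).trans (sum_le_osc b hj h)

/-- the group kernel without its last factor -/
private noncomputable def LPPa_c (lam q : ℝ) (g : ℕ → S → ℝ) (K : ℕ) : ℕ → S → S → ℝ
  | 0 => fun z x => open Classical in if z = x then 1 else 0
  | l + 1 => fun z x => ∑ y, M.gk lam q g K l z y * Real.exp (-(lam * q * max (M.dd y x : ℝ) 1))

private theorem LPPa_gk_eq (lam q : ℝ) (g : ℕ → S → ℝ) (K l : ℕ) (z x : S) :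
    M.gk lam q g K l z x = LPPa_c M lam q g K l z x *
      Real.exp (lam * osc (fun j => g j x) K) := by
  cases l with
  | zero =>
    simp only [MSet.gk, LPPa_c]
    split_ifs <;> simp
  | succ l => rfl

private theorem LPPa_gk_nonneg (lam q : ℝ) (g : ℕ → S → ℝ) (K l : ℕ) (z x : S) :
    0 ≤ M.gk lam q g K l z x := by
  induction l generalizing x with
  | zero =>
    simp only [MSet.gk]
    split_ifs
    · exact (Real.exp_pos _).le
    · exact le_rfl
  | succ l ih =>
    exact mul_nonneg (Finset.sum_nonneg fun y _ => mul_nonneg (ih y) (Real.exp_pos _).le)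
      (Real.exp_pos _).le

private theorem LPPa_c_nonneg (lam q : ℝ) (g : ℕ → S → ℝ) (K l : ℕ) (z x : S) :
    0 ≤ LPPa_c M lam q g K l z x := by
  cases l with
  | zero =>
    simp only [LPPa_c]
    split_ifs
    · exact zero_le_one
    · exact le_rfl
  | succ l =>
    exact Finset.sum_nonneg fun y _ => mul_nonneg (LPPa_gk_nonneg M lam q g K l z y)
      (Real.exp_pos _).le

/-- the sum `C_i(x)` -/
private noncomputable def LPPa_C (lam q : ℝ) (w0 : S → ℝ) (g : ℕ → S → ℝ) (a K i : ℕ) (x : S) :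
    ℝ :=
  ∑ l ∈ Finset.range (i + 1), ∑ z, M.exJ lam q w0 g a (i - l) z *
    LPPa_c M lam q (fun j => g (a + j)) K l z x

private theorem LPPa_C_mul (lam q : ℝ) (w0 : S → ℝ) (g : ℕ → S → ℝ) (a K i : ℕ) (x : S) :
    LPPa_C M lam q w0 g a K i x * Real.exp (lam * osc (fun j => g (a + j) x) K) =
      ∑ l ∈ Finset.range (i + 1), ∑ z,
        M.exJ lam q w0 g a (i - l) z * M.gk lam q (fun j => g (a + j)) K l z x := by
  unfold LPPa_C
  rw [Finset.sum_mul]
  refine Finset.sum_congr rfl fun l _ => ?_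
  rw [Finset.sum_mul]
  refine Finset.sum_congr rfl fun z _ => ?_
  rw [LPPa_gk_eq, mul_assoc]

private theorem LPPa_exJ_le_C (lam q : ℝ) (w0 : S → ℝ) (hw : ∀ z, 0 ≤ w0 z) (g : ℕ → S → ℝ)
    (a K i : ℕ) (x : S) : M.exJ lam q w0 g a i x ≤ LPPa_C M lam q w0 g a K i x := by
  classical
  have h1 : M.exJ lam q w0 g a i x = ∑ z, M.exJ lam q w0 g a (i - 0) z *
      LPPa_c M lam q (fun j => g (a + j)) K 0 z x := by
    rw [Nat.sub_zero, Finset.sum_eq_single x]
    · simp [LPPa_c]
    · intro z _ hz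
      simp [LPPa_c, hz]
    · intro h
      exact absurd (Finset.mem_univ x) h
  rw [h1]
  exact Finset.single_le_sum (f := fun l => ∑ z, M.exJ lam q w0 g a (i - l) z *
    LPPa_c M lam q (fun j => g (a + j)) K l z x)
    (fun l _ => Finset.sum_nonneg fun z _ => mul_nonneg (exJ_nonneg M lam q w0 hw g a _ z)
      (LPPa_c_nonneg M lam q _ K l z x)) (Finset.mem_range.mpr (Nat.succ_pos i))

private theorem LPPa_C_nonneg (lam q : ℝ) (w0 : S → ℝ) (hw : ∀ z, 0 ≤ w0 z) (g : ℕ → S → ℝ)
    (a K i : ℕ) (x : S) : 0 ≤ LPPa_C M lam q w0 g a K i x :=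
  (exJ_nonneg M lam q w0 hw g a i x).trans (LPPa_exJ_le_C M lam q w0 hw g a K i x)

private theorem LPPa_C_jump (lam q : ℝ) (w0 : S → ℝ) (hw : ∀ z, 0 ≤ w0 z) (g : ℕ → S → ℝ)
    (a K i : ℕ) (x : S) :
    ∑ z, (LPPa_C M lam q w0 g a K i z * Real.exp (lam * osc (fun j => g (a + j) z) K)) *
      Real.exp (-(lam * q * max (M.dd x z : ℝ) 1)) ≤ LPPa_C M lam q w0 g a K (i + 1) x := by
  have h1 : ∑ z, (LPPa_C M lam q w0 g a K i z * Real.exp (lam * osc (fun j => g (a + j) z) K)) *
      Real.exp (-(lam * q * max (M.dd x z : ℝ) 1)) =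
      ∑ l ∈ Finset.range (i + 1), ∑ y, M.exJ lam q w0 g a (i + 1 - (l + 1)) y *
        LPPa_c M lam q (fun j => g (a + j)) K (l + 1) y x := by
    have h2 : ∀ z, (LPPa_C M lam q w0 g a K i z *
        Real.exp (lam * osc (fun j => g (a + j) z) K)) *
        Real.exp (-(lam * q * max (M.dd x z : ℝ) 1)) =
        ∑ l ∈ Finset.range (i + 1), ∑ y, M.exJ lam q w0 g a (i - l) y *
          (M.gk lam q (fun j => g (a + j)) K l y z *
            Real.exp (-(lam * q * max (M.dd z x : ℝ) 1))) := by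
      intro z
      rw [LPPa_C_mul, Finset.sum_mul]
      refine Finset.sum_congr rfl fun l _ => ?_
      rw [Finset.sum_mul]
      refine Finset.sum_congr rfl fun y _ => ?_
      rw [mul_assoc, M.dd_comm x z]
    rw [Finset.sum_congr rfl fun z _ => h2 z, Finset.sum_comm]
    refine Finset.sum_congr rfl fun l _ => ?_
    rw [Finset.sum_comm]
    refine Finset.sum_congr rfl fun y _ => ?_
    rw [← Finset.mul_sum, Nat.add_sub_add_right]
    rfl
  rw [h1]
  unfold LPPa_C
  rw [Finset.sum_range_succ' _ (i + 1)]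
  refine le_add_of_nonneg_right ?_
  exact Finset.sum_nonneg fun z _ => mul_nonneg (exJ_nonneg M lam q w0 hw g a _ z)
    (LPPa_c_nonneg M lam q _ K _ z x)

private theorem LPPa_group (lam q : ℝ) (hl : 0 ≤ lam) (w0 : S → ℝ) (h1 : ∀ z, 1 ≤ w0 z)
    (g : ℕ → S → ℝ) (a K m : ℕ) (hm : m ≤ K) (i : ℕ) (x : S) :
    M.exJ lam q w0 g (a + m) i x ≤ LPPa_C M lam q w0 g a K i x *
      Real.exp (lam * LPPa_rho (fun j => g (a + j) x) m) := by
  have hw : ∀ z, 0 ≤ w0 z := fun z => zero_le_one.trans (h1 z)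
  induction m generalizing i x with
  | zero =>
    have h2 : LPPa_rho (fun j => g (a + j) x) 0 = 0 := rfl
    rw [h2, mul_zero, Real.exp_zero, mul_one]
    exact LPPa_exJ_le_C M lam q w0 hw g a K i x
  | succ m ih =>
    have ih' := ih (by omega)
    have hrho : LPPa_rho (fun j => g (a + j) x) (m + 1) =
      max (LPPa_rho (fun j => g (a + j) x) m + g (a + m) x) 0 := rfl
    have hC := LPPa_C_nonneg M lam q w0 hw g a K
    -- a step without jump
    have hstay : ∀ i, M.exJ lam q w0 g (a + m) i x * Real.exp (lam * g (a + m) x) ≤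
        LPPa_C M lam q w0 g a K i x *
          Real.exp (lam * LPPa_rho (fun j => g (a + j) x) (m + 1)) := by
      intro i
      calc M.exJ lam q w0 g (a + m) i x * Real.exp (lam * g (a + m) x)
          ≤ LPPa_C M lam q w0 g a K i x *
            Real.exp (lam * LPPa_rho (fun j => g (a + j) x) m) * Real.exp (lam * g (a + m) x) :=
            mul_le_mul_of_nonneg_right (ih' i x) (Real.exp_pos _).le
        _ = LPPa_C M lam q w0 g a K i x *
            Real.exp (lam * (LPPa_rho (fun j => g (a + j) x) m + g (a + m) x)) := by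
            rw [mul_assoc, ← Real.exp_add, mul_add]
        _ ≤ _ := by
            refine mul_le_mul_of_nonneg_left (Real.exp_le_exp.mpr ?_) (hC i x)
            rw [hrho]
            exact mul_le_mul_of_nonneg_left (le_max_left _ _) hl
    have hidx : a + (m + 1) = (a + m) + 1 := rfl
    rw [hidx]
    cases i with
    | zero =>
      rw [LPPa_exJ_zero]
      refine max_le ?_ (hstay 0)
      have h3 : 1 ≤ LPPa_C M lam q w0 g a K 0 x :=
        (LPPa_one_le_exJ M lam q w0 h1 g a x).trans (LPPa_exJ_le_C M lam q w0 hw g a K 0 x)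
      have h4 : 1 ≤ Real.exp (lam * LPPa_rho (fun j => g (a + j) x) (m + 1)) :=
        Real.one_le_exp (mul_nonneg hl (LPPa_rho_nonneg _ _))
      nlinarith
    | succ i =>
      rw [LPPa_exJ_succ]
      refine max_le (hstay (i + 1)) ?_
      have h5 : ∑ z, M.exJ lam q w0 g (a + m) i z *
          Real.exp (-(lam * q * max (M.dd x z : ℝ) 1)) ≤ LPPa_C M lam q w0 g a K (i + 1) x := by
        refine le_trans (Finset.sum_le_sum fun z _ => ?_)
          (LPPa_C_jump M lam q w0 hw g a K i x)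
        refine mul_le_mul_of_nonneg_right ((ih' i z).trans ?_) (Real.exp_pos _).le
        refine mul_le_mul_of_nonneg_left (Real.exp_le_exp.mpr ?_) (hC i z)
        exact mul_le_mul_of_nonneg_left (LPPa_rho_le _ (by omega)) hl
      refine mul_le_mul h5 (Real.exp_le_exp.mpr ?_) (Real.exp_pos _).le (hC (i + 1) x)
      refine mul_le_mul_of_nonneg_left ?_ hl
      rw [hrho]
      refine max_le_max ?_ le_rfl
      have := LPPa_rho_nonneg (fun j => g (a + j) x) m
      linarith

theorem exJ_group (lam q : ℝ) (hl : 0 ≤ lam) (w0 : S → ℝ) (h1 : ∀ z, 1 ≤ w0 z) (g : ℕ → S → ℝ)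
    (a K m : ℕ) (hm : m ≤ K) (i : ℕ) (x : S) :
    M.exJ lam q w0 g (a + m) i x ≤ ∑ l ∈ Finset.range (i + 1), ∑ z,
      M.exJ lam q w0 g a (i - l) z * M.gk lam q (fun j => g (a + j)) K l z x := by
  have hw : ∀ z, 0 ≤ w0 z := fun z => zero_le_one.trans (h1 z)
  rw [← LPPa_C_mul]
  refine (LPPa_group M lam q hl w0 h1 g a K m hm i x).trans ?_
  refine mul_le_mul_of_nonneg_left (Real.exp_le_exp.mpr ?_)
    (LPPa_C_nonneg M lam q w0 hw g a K i x)
  exact mul_le_mul_of_nonneg_left (LPPa_rho_le _ hm) hl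

end DynC

end

/-! ### from `Lib_MP_36b788c.LPPb` -/

section

/-!
# Last passage functional: expectation of the group kernels

PROOF. `prod_osc`: for a list `L` of `p` sites `E Π_{y∈L} e^{s osc(y)} ≤ 4 e^{8 (p s)² v K}`: generalized Hölder
`E Π_{i<p} Z_i ≤ Π (E Z_i^p)^{1/p}` (`ENNReal.lintegral_prod_norm_pow_le` or by AM-GM: `Π e^{s osc(y_i)} ≤ (1/p) Σ_i e^{p s osc(y_i)}`,
which gives the bound at once), and `osc_exp_nz` with the exponent `p s`. For `p = 0` the left side is `1`.
`gk_exp`: by induction on `l`, for every list `L`: `E[Π_{y∈L} e^{λ osc(y)} Σ_z gk l z x] ≤ e^l · 4 exp(8((|L|+l+1) λ)² v K)`: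
`l = 0`: `Σ_z gk 0 z x = e^{λ osc(x)}`, list `x :: L`. `l+1`: `Σ_z gk (l+1) z x = Σ_y e^{-λ q max(dd y x,1)} (Σ_z gk l z y) e^{λ osc(x)}`, use the
induction hypothesis for the list `x :: L` and sum over `y` with `he`.
-/

open MeasureTheory ProbabilityTheory
open scoped ENNReal

namespace DynC

variable {S : Type} [Fintype S] {D : ℕ} (M : MSet S D)

private theorem LPPb_measurable_pmax (n : ℕ) : Measurable (fun b : ℕ → ℝ => pmax b n) := by
  unfold pmax
  refine Finset.measurable_range_sup'' (fun k _ => ?_)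
  exact Finset.measurable_sum _ (fun j _ => measurable_pi_apply j)

private theorem LPPb_measurable_osc (n : ℕ) : Measurable (fun b : ℕ → ℝ => osc b n) := by
  unfold osc
  refine (LPPb_measurable_pmax n).add ?_
  refine (LPPb_measurable_pmax n).comp ?_
  exact measurable_pi_lambda _ (fun j => (measurable_pi_apply j).neg)

private theorem LPPb_measurable_osc_site (n : ℕ) (x : S) :
    Measurable (fun g : ℕ → S → ℝ => osc (fun j => g j x) n) := by
  refine (LPPb_measurable_osc n).comp ?_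
  exact measurable_pi_lambda _
    (fun j => (measurable_pi_apply x).comp (measurable_pi_apply (X := fun _ => S → ℝ) j))

private theorem LPPb_measurable_sc (v : ℝ) : Measurable (fun ω : ℕ → S → ℝ => sc v ω) := by
  unfold sc
  refine measurable_pi_lambda _ (fun j => measurable_pi_lambda _ (fun x => ?_))
  exact ((measurable_pi_apply x).comp
    (measurable_pi_apply (X := fun _ => S → ℝ) j)).const_mul _

private theorem LPPb_pmax_congr (b b' : ℕ → ℝ) (n : ℕ) (h : ∀ j, j < n → b j = b' j) :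
    pmax b n = pmax b' n := by
  unfold pmax
  refine Finset.sup'_congr _ rfl (fun m hm => ?_)
  refine Finset.sum_congr rfl (fun j hj => h j ?_)
  have h1 := Finset.mem_range.mp hm
  have h2 := Finset.mem_range.mp hj
  omega

private theorem LPPb_osc_congr (b b' : ℕ → ℝ) (n : ℕ) (h : ∀ j, j < n → b j = b' j) :
    osc b n = osc b' n := by
  unfold osc
  rw [LPPb_pmax_congr b b' n h,
    LPPb_pmax_congr (fun j => -b j) (fun j => -b' j) n (fun j hj => by rw [h j hj])]

private theorem LPPb_amgm (p : ℕ) (hp : 0 < p) (f : Fin p → ℝ) :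
    Real.exp (∑ i, f i) ≤ ∑ i, (1 / (p : ℝ)) * Real.exp (p * f i) := by
  have hp' : (0 : ℝ) < p := by exact_mod_cast hp
  have h := convexOn_exp.map_sum_le (t := Finset.univ) (w := fun _ : Fin p => (1 / (p : ℝ)))
    (p := fun i => (p : ℝ) * f i) (fun i _ => by positivity)
    (by
      rw [Finset.sum_const, Finset.card_univ, Fintype.card_fin, nsmul_eq_mul]
      field_simp)
    (fun i _ => Set.mem_univ _)
  simp only [smul_eq_mul] at h
  have h2 : ∑ i, (1 / (p : ℝ)) * ((p : ℝ) * f i) = ∑ i, f i := by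
    refine Finset.sum_congr rfl (fun i _ => ?_)
    field_simp
  rw [h2] at h
  exact h

theorem prod_osc (s v : ℝ) (hs : 0 ≤ s) (hv : 0 ≤ v) (K : ℕ) (L : List S) :
    ∫⁻ ω, ENNReal.ofReal ((L.map fun y => Real.exp (s * osc (fun j => sc v ω j y) K)).prod)
        ∂(PI (nz S))
      ≤ ENNReal.ofReal (4 * Real.exp (8 * (L.length * s) ^ 2 * v * K)) := by
  rcases Nat.eq_zero_or_pos L.length with h0 | hp
  · have hL : L = [] := List.length_eq_zero_iff.mp h0
    subst hL
    simp only [List.map_nil, List.prod_nil, List.length_nil, ENNReal.ofReal_one]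
    rw [lintegral_const, measure_univ, mul_one]
    have : (1 : ℝ≥0∞) = ENNReal.ofReal 1 := ENNReal.ofReal_one.symm
    rw [this]
    refine ENNReal.ofReal_le_ofReal ?_
    simp
  · have hp' : (0 : ℝ) < L.length := by exact_mod_cast hp
    have hpt : ∀ ω : ℕ → S → ℝ,
        ENNReal.ofReal ((L.map fun y => Real.exp (s * osc (fun j => sc v ω j y) K)).prod)
        ≤ ∑ i : Fin L.length, ENNReal.ofReal (1 / (L.length : ℝ)) * ENNReal.ofReal
            (Real.exp ((L.length * s) * osc (fun j => sc v ω j (L.get i)) K)) := by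
      intro ω
      have e1 : (L.map fun y => Real.exp (s * osc (fun j => sc v ω j y) K)).prod
          = Real.exp (∑ i : Fin L.length, s * osc (fun j => sc v ω j (L.get i)) K) := by
        rw [Real.exp_sum]
        rw [← Fin.prod_univ_fun_getElem]
        rfl
      rw [e1]
      have e2 := LPPb_amgm L.length hp (fun i => s * osc (fun j => sc v ω j (L.get i)) K)
      refine (ENNReal.ofReal_le_ofReal e2).trans ?_
      rw [ENNReal.ofReal_sum_of_nonneg (fun i _ => by positivity)]
      refine Finset.sum_le_sum (fun i _ => ?_)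
      rw [ENNReal.ofReal_mul (by positivity)]
      refine le_of_eq ?_
      congr 3
      ring
    refine (lintegral_mono hpt).trans ?_
    have hmeas : ∀ i : Fin L.length, Measurable (fun ω : ℕ → S → ℝ => ENNReal.ofReal
            (Real.exp ((L.length * s) * osc (fun j => sc v ω j (L.get i)) K))) := by
      intro i
      have h1 : Measurable (fun ω : ℕ → S → ℝ => osc (fun j => sc v ω j (L.get i)) K) :=
        (LPPb_measurable_osc_site K (L.get i)).comp (LPPb_measurable_sc v)
      exact (Real.measurable_exp.comp (h1.const_mul _)).ennreal_ofReal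
    rw [lintegral_finset_sum _ (fun i _ => (hmeas i).const_mul _)]
    have hb : ∀ i : Fin L.length,
        ∫⁻ ω, ENNReal.ofReal (1 / (L.length : ℝ)) * ENNReal.ofReal
            (Real.exp ((L.length * s) * osc (fun j => sc v ω j (L.get i)) K)) ∂(PI (nz S))
        ≤ ENNReal.ofReal (1 / (L.length : ℝ)) *
          ENNReal.ofReal (4 * Real.exp (8 * (L.length * s) ^ 2 * v * K)) := by
      intro i
      rw [lintegral_const_mul _ (hmeas i)]
      exact mul_le_mul' le_rfl (osc_exp_nz _ v (by positivity) hv K (L.get i))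
    refine (Finset.sum_le_sum (fun i _ => hb i)).trans ?_
    rw [Finset.sum_const, Finset.card_univ, Fintype.card_fin, nsmul_eq_mul, ← mul_assoc]
    refine le_of_eq ?_
    have e3 : (L.length : ℝ≥0∞) * ENNReal.ofReal (1 / (L.length : ℝ)) = 1 := by
      rw [← ENNReal.ofReal_natCast, ← ENNReal.ofReal_mul (by positivity)]
      rw [mul_one_div_cancel hp'.ne', ENNReal.ofReal_one]
    rw [e3, one_mul]

theorem gk_nonneg (lam q : ℝ) (g : ℕ → S → ℝ) (K l : ℕ) (z x : S) : 0 ≤ M.gk lam q g K l z x := by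
  induction l generalizing x with
  | zero =>
    unfold MSet.gk
    split_ifs
    · positivity
    · exact le_rfl
  | succ l ih =>
    unfold MSet.gk
    exact mul_nonneg (Finset.sum_nonneg fun y _ => mul_nonneg (ih y) (Real.exp_nonneg _))
      (Real.exp_nonneg _)

theorem measurable_gk (lam q : ℝ) (K l : ℕ) (z x : S) :
    Measurable (fun g : ℕ → S → ℝ => M.gk lam q g K l z x) := by
  induction l generalizing x with
  | zero =>
    unfold MSet.gk
    by_cases h : z = x
    · simp only [h, if_true]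
      exact Real.measurable_exp.comp ((LPPb_measurable_osc_site K x).const_mul _)
    · simp only [h, if_false]
      exact measurable_const
  | succ l ih =>
    unfold MSet.gk
    refine Measurable.mul ?_ (Real.measurable_exp.comp ((LPPb_measurable_osc_site K x).const_mul _))
    exact Finset.measurable_sum _ (fun y _ => (ih y).mul_const _)

theorem gk_congr (lam q : ℝ) (g g' : ℕ → S → ℝ) (K l : ℕ) (z x : S)
    (h : ∀ j, j < K → g j = g' j) : M.gk lam q g K l z x = M.gk lam q g' K l z x := by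
  have ho : ∀ y, osc (fun j => g j y) K = osc (fun j => g' j y) K := fun y =>
    LPPb_osc_congr _ _ K (fun j hj => by rw [h j hj])
  induction l generalizing x with
  | zero =>
    unfold MSet.gk
    rw [ho x]
  | succ l ih =>
    unfold MSet.gk
    rw [ho x]
    congr 1
    exact Finset.sum_congr rfl (fun y _ => by rw [ih y])

private theorem LPPb_gk_exp (lam q v e : ℝ) (hl : 0 ≤ lam) (hv : 0 ≤ v)
    (he : ∀ x, ∑ y, Real.exp (-(lam * q * max (M.dd y x : ℝ) 1)) ≤ e) (K l : ℕ) :
    ∀ (L : List S) (x : S),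
    ∫⁻ ω, ENNReal.ofReal ((L.map fun y => Real.exp (lam * osc (fun j => sc v ω j y) K)).prod *
        ∑ z, M.gk lam q (sc v ω) K l z x) ∂(PI (nz S))
      ≤ ENNReal.ofReal (e ^ l * (4 * Real.exp (8 * ((L.length + l + 1) * lam) ^ 2 * v * K))) := by
  induction l with
  | zero =>
    intro L x
    have h := prod_osc (S := S) lam v hl hv K (x :: L)
    have e0 : ∀ ω : ℕ → S → ℝ, ∑ z, M.gk lam q (sc v ω) K 0 z x
        = Real.exp (lam * osc (fun j => sc v ω j x) K) := by
      intro ω
      classical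
      simp only [MSet.gk]
      rw [Finset.sum_eq_single x]
      · simp
      · intro b _ hb
        simp [hb]
      · intro hx
        exact absurd (Finset.mem_univ x) hx
    have e1 : ∀ ω : ℕ → S → ℝ,
        (L.map fun y => Real.exp (lam * osc (fun j => sc v ω j y) K)).prod *
        ∑ z, M.gk lam q (sc v ω) K 0 z x
        = ((x :: L).map fun y => Real.exp (lam * osc (fun j => sc v ω j y) K)).prod := by
      intro ω
      rw [e0, List.map_cons, List.prod_cons, mul_comm]
    simp only [e1]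
    refine h.trans (le_of_eq ?_)
    rw [List.length_cons, pow_zero, one_mul]
    push_cast
    rw [add_zero]
  | succ l ih =>
    intro L x
    have he0 : 0 ≤ e := le_trans (Finset.sum_nonneg fun y _ => Real.exp_nonneg _) (he x)
    have e1 : ∀ ω : ℕ → S → ℝ,
        ENNReal.ofReal ((L.map fun y => Real.exp (lam * osc (fun j => sc v ω j y) K)).prod *
        ∑ z, M.gk lam q (sc v ω) K (l + 1) z x)
        = ∑ y, ENNReal.ofReal (Real.exp (-(lam * q * max (M.dd y x : ℝ) 1))) *
          ENNReal.ofReal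
          (((x :: L).map fun y => Real.exp (lam * osc (fun j => sc v ω j y) K)).prod *
            ∑ z, M.gk lam q (sc v ω) K l z y) := by
      intro ω
      have hP : 0 ≤ ((x :: L).map fun y => Real.exp (lam * osc (fun j => sc v ω j y) K)).prod := by
        refine List.prod_nonneg (fun a ha => ?_)
        obtain ⟨y, _, rfl⟩ := List.mem_map.mp ha
        positivity
      have e2 : (L.map fun y => Real.exp (lam * osc (fun j => sc v ω j y) K)).prod *
        ∑ z, M.gk lam q (sc v ω) K (l + 1) z x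
          = ∑ y, Real.exp (-(lam * q * max (M.dd y x : ℝ) 1)) *
          (((x :: L).map fun y => Real.exp (lam * osc (fun j => sc v ω j y) K)).prod *
            ∑ z, M.gk lam q (sc v ω) K l z y) := by
        have e3 : ∑ z, M.gk lam q (sc v ω) K (l + 1) z x
            = (∑ y, Real.exp (-(lam * q * max (M.dd y x : ℝ) 1)) *
              ∑ z, M.gk lam q (sc v ω) K l z y) * Real.exp (lam * osc (fun j => sc v ω j x) K) := by
          simp only [MSet.gk]
          rw [← Finset.sum_mul]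
          congr 1
          rw [Finset.sum_comm]
          refine Finset.sum_congr rfl (fun y _ => ?_)
          rw [Finset.mul_sum]
          exact Finset.sum_congr rfl (fun z _ => mul_comm _ _)
        rw [e3, List.map_cons, List.prod_cons, Finset.sum_mul, Finset.mul_sum]
        refine Finset.sum_congr rfl (fun y _ => ?_)
        ring
      rw [e2, ENNReal.ofReal_sum_of_nonneg]
      · refine Finset.sum_congr rfl (fun y _ => ?_)
        rw [ENNReal.ofReal_mul (Real.exp_nonneg _)]
      · intro y _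
        exact mul_nonneg (Real.exp_nonneg _)
          (mul_nonneg hP (Finset.sum_nonneg fun z _ => gk_nonneg M _ _ _ _ _ _ _))
    simp only [e1]
    have hm : ∀ y : S, Measurable (fun ω : ℕ → S → ℝ => ENNReal.ofReal
          (((x :: L).map fun y => Real.exp (lam * osc (fun j => sc v ω j y) K)).prod *
            ∑ z, M.gk lam q (sc v ω) K l z y)) := by
      intro y
      refine Measurable.ennreal_ofReal ?_
      refine Measurable.mul ?_ ?_
      · have e4 : (fun ω : ℕ → S → ℝ =>
            ((x :: L).map fun y => Real.exp (lam * osc (fun j => sc v ω j y) K)).prod)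
            = fun ω => ∏ i : Fin (x :: L).length,
              Real.exp (lam * osc (fun j => sc v ω j (x :: L)[i.1]) K) := by
          funext ω
          exact (Fin.prod_univ_fun_getElem (x :: L)
            (fun y => Real.exp (lam * osc (fun j => sc v ω j y) K))).symm
        rw [e4]
        refine Finset.measurable_prod _ (fun i _ => ?_)
        have h1 : Measurable (fun ω : ℕ → S → ℝ => osc (fun j => sc v ω j (x :: L)[i.1]) K) :=
          (LPPb_measurable_osc_site K _).comp (LPPb_measurable_sc v)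
        exact Real.measurable_exp.comp (h1.const_mul _)
      · refine Finset.measurable_sum _ (fun z _ => ?_)
        exact (measurable_gk M lam q K l z y).comp (LPPb_measurable_sc v)
    rw [lintegral_finset_sum _ (fun y _ => (hm y).const_mul _)]
    have hb : ∀ y : S, ∫⁻ ω, ENNReal.ofReal (Real.exp (-(lam * q * max (M.dd y x : ℝ) 1))) *
          ENNReal.ofReal
          (((x :: L).map fun y => Real.exp (lam * osc (fun j => sc v ω j y) K)).prod *
            ∑ z, M.gk lam q (sc v ω) K l z y) ∂(PI (nz S))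
        ≤ ENNReal.ofReal (Real.exp (-(lam * q * max (M.dd y x : ℝ) 1)) * (e ^ l *
          (4 * Real.exp (8 * (((x :: L).length + l + 1) * lam) ^ 2 * v * K)))) := by
      intro y
      rw [lintegral_const_mul _ (hm y), ENNReal.ofReal_mul (Real.exp_nonneg _)]
      exact mul_le_mul' le_rfl (ih (x :: L) y)
    refine (Finset.sum_le_sum (fun y _ => hb y)).trans ?_
    rw [← ENNReal.ofReal_sum_of_nonneg (fun y _ => by positivity), ← Finset.sum_mul]
    refine ENNReal.ofReal_le_ofReal ?_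
    have e5 : ((((x :: L).length : ℕ) : ℝ) + l + 1) = (L.length + ((l + 1 : ℕ) : ℝ) + 1) := by
      rw [List.length_cons]; push_cast; ring
    rw [e5, pow_succ e l, mul_comm (e ^ l) e, mul_assoc e]
    exact mul_le_mul_of_nonneg_right (he x) (by positivity)

theorem gk_exp (lam q v e : ℝ) (hl : 0 ≤ lam) (hv : 0 ≤ v)
    (he : ∀ x, ∑ y, Real.exp (-(lam * q * max (M.dd y x : ℝ) 1)) ≤ e) (K l : ℕ) (x : S) :
    ∫⁻ ω, ENNReal.ofReal (∑ z, M.gk lam q (sc v ω) K l z x) ∂(PI (nz S))
      ≤ ENNReal.ofReal (e ^ l * (4 * Real.exp (8 * ((l + 1) * lam) ^ 2 * v * K))) := by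
  have h := LPPb_gk_exp M lam q v e hl hv he K l [] x
  simp only [List.map_nil, List.prod_nil, one_mul, List.length_nil, Nat.cast_zero,
    zero_add] at h
  exact h

private theorem LPPb_summable (D : ℕ) (r : ℝ) (hr : 0 < r) :
    Summable (fun n : ℕ => ((2 * n + 1 : ℕ) : ℝ) ^ D * Real.exp (-(r * n))) := by
  have h1 := (Real.summable_pow_mul_exp_neg_nat_mul D hr).mul_left ((3 : ℝ) ^ D)
  have h2 := Real.summable_pow_mul_exp_neg_nat_mul 0 hr
  refine Summable.of_nonneg_of_le (fun n => by positivity) (fun n => ?_) (h1.add h2)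
  have e1 : Real.exp (-(r * n)) = Real.exp (-r * n) := by ring_nf
  rw [e1]
  have h3 : ((2 * n + 1 : ℕ) : ℝ) ^ D ≤ (3 : ℝ) ^ D * (n : ℝ) ^ D + 1 := by
    rcases Nat.eq_zero_or_pos n with h0 | hn
    · subst h0
      simp only [Nat.mul_zero, Nat.zero_add, Nat.cast_one, one_pow]
      have : 0 ≤ (3 : ℝ) ^ D * ((0 : ℕ) : ℝ) ^ D := by positivity
      linarith
    · have h4 : ((2 * n + 1 : ℕ) : ℝ) ≤ 3 * n := by
        have : 2 * n + 1 ≤ 3 * n := by omega
        exact_mod_cast this
      have h5 : ((2 * n + 1 : ℕ) : ℝ) ^ D ≤ (3 * (n : ℝ)) ^ D :=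
        pow_le_pow_left₀ (by positivity) h4 D
      rw [mul_pow] at h5
      linarith
  calc ((2 * n + 1 : ℕ) : ℝ) ^ D * Real.exp (-r * n)
      ≤ ((3 : ℝ) ^ D * (n : ℝ) ^ D + 1) * Real.exp (-r * n) :=
        mul_le_mul_of_nonneg_right h3 (Real.exp_nonneg _)
    _ = _ := by ring

/-- summability on a metric set -/
private theorem LPPb_sum_exp_dd (D : ℕ) (r : ℝ) (hr : 0 < r) : ∃ C : ℝ, 1 ≤ C ∧
    ∀ (S : Type) [Fintype S] (M : MSet S D) (x : S),
      ∑ y, Real.exp (-(r * (M.dd x y : ℝ))) ≤ C := by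
  have hs := LPPb_summable D r hr
  refine ⟨max 1 (∑' n : ℕ, ((2 * n + 1 : ℕ) : ℝ) ^ D * Real.exp (-(r * n))), le_max_left _ _,
    fun S _ M x => ?_⟩
  refine le_trans ?_ (le_max_right _ _)
  classical
  have h1 : ∑ y, Real.exp (-(r * (M.dd x y : ℝ)))
      = ∑ n ∈ Finset.univ.image (fun y => M.dd x y),
        ∑ y ∈ Finset.univ.filter (fun y => M.dd x y = n), Real.exp (-(r * (M.dd x y : ℝ))) := by
    rw [Finset.sum_fiberwise_of_maps_to (fun y _ => Finset.mem_image_of_mem _ (Finset.mem_univ y))]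
  rw [h1]
  refine le_trans (Finset.sum_le_sum (fun n _ => ?_))
    (hs.sum_le_tsum (Finset.univ.image (fun y => M.dd x y)) (fun n _ => by positivity))
  have h2 : ∑ y ∈ Finset.univ.filter (fun y => M.dd x y = n), Real.exp (-(r * (M.dd x y : ℝ)))
      = ∑ y ∈ Finset.univ.filter (fun y => M.dd x y = n), Real.exp (-(r * (n : ℝ))) := by
    refine Finset.sum_congr rfl (fun y hy => ?_)
    rw [(Finset.mem_filter.mp hy).2]
  rw [h2, Finset.sum_const, nsmul_eq_mul]
  refine mul_le_mul_of_nonneg_right ?_ (Real.exp_nonneg _)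
  have h3 := M.growth x n (Finset.univ.filter (fun y => M.dd x y = n))
    (fun y hy => ((Finset.mem_filter.mp hy).2).le)
  exact_mod_cast h3

/-- `ε_λ → 0` -/
theorem eps_small (D : ℕ) (q : ℝ) (hq : 0 < q) (e : ℝ) (he : 0 < e) :
    ∃ L0 : ℝ, 0 < L0 ∧ ∀ lam, L0 ≤ lam → ∀ (S : Type) [Fintype S] (M : MSet S D) (x : S),
      ∑ y, Real.exp (-(lam * q * max (M.dd y x : ℝ) 1)) ≤ e := by
  obtain ⟨C, hC1, hC⟩ := LPPb_sum_exp_dd D q hq
  have hC0 : 0 < C := lt_of_lt_of_le one_pos hC1
  refine ⟨1 + |Real.log (C / e)| / q, by positivity, fun lam hlam S _ M x => ?_⟩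
  have hlam1 : 1 ≤ lam := by
    have : 0 ≤ |Real.log (C / e)| / q := by positivity
    linarith
  have hlog : Real.log (C / e) ≤ (lam - 1) * q := by
    have h1 : |Real.log (C / e)| / q ≤ lam - 1 := by linarith
    have h2 : |Real.log (C / e)| ≤ (lam - 1) * q := (div_le_iff₀ hq).mp h1
    exact (le_abs_self _).trans h2
  have hexp : C * Real.exp (-((lam - 1) * q)) ≤ e := by
    rw [Real.exp_neg, ← div_eq_mul_inv, div_le_iff₀ (Real.exp_pos _)]
    have h3 : C / e ≤ Real.exp ((lam - 1) * q) := by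
      rw [← Real.log_le_iff_le_exp (by positivity)]
      exact hlog
    rw [div_le_iff₀ he] at h3
    linarith
  refine le_trans ?_ hexp
  calc ∑ y, Real.exp (-(lam * q * max (M.dd y x : ℝ) 1))
      ≤ ∑ y, Real.exp (-(q * (M.dd x y : ℝ))) * Real.exp (-((lam - 1) * q)) := by
        refine Finset.sum_le_sum (fun y _ => ?_)
        rw [← Real.exp_add, M.dd_comm y x]
        refine Real.exp_le_exp.mpr ?_
        have h4 : (M.dd x y : ℝ) ≤ max (M.dd x y : ℝ) 1 := le_max_left _ _
        have h5 : (1 : ℝ) ≤ max (M.dd x y : ℝ) 1 := le_max_right _ _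
        have h6 : q * (M.dd x y : ℝ) ≤ q * max (M.dd x y : ℝ) 1 :=
          mul_le_mul_of_nonneg_left h4 hq.le
        have h7 : (lam - 1) * q * 1 ≤ (lam - 1) * q * max (M.dd x y : ℝ) 1 :=
          mul_le_mul_of_nonneg_left h5 (mul_nonneg (by linarith) hq.le)
        nlinarith
    _ = (∑ y, Real.exp (-(q * (M.dd x y : ℝ)))) * Real.exp (-((lam - 1) * q)) := by
        rw [Finset.sum_mul]
    _ ≤ C * Real.exp (-((lam - 1) * q)) :=
        mul_le_mul_of_nonneg_right (hC S M x) (Real.exp_nonneg _)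

/-- summability on a metric set -/
theorem sum_exp_dd (D : ℕ) (r : ℝ) (hr : 0 < r) : ∃ C : ℝ, 1 ≤ C ∧
    ∀ (S : Type) [Fintype S] (M : MSet S D) (x : S),
      ∑ y, Real.exp (-(r * (M.dd x y : ℝ))) ≤ C :=
  LPPb_sum_exp_dd D r hr

end DynC

end

/-! ### from `Lib_MP_36b788c.LPPc` -/

section

/-!
# Last passage functional: one cell

PROOF of `cell_jumps`. `1 ≤ i ≤ K`. Groups: boundaries `a_g = ⌊g K / i⌋`, `g = 0..i`, lengths `K_g = a_{g+1} - a_g ≤ K/i + 1 ≤ 2K/i`, so
`v K_g λ² ≤ 2/i`. Put `E_{g}(l)(z,x) = E gk^{(l)}(z,x)` for a group with `K_g` steps (`ENNReal` or real), with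
`Σ_z E_g(l)(z,x) ≤ e^l 4 exp(16 (l+1)²/i)` (`gk_exp`). Deterministic kernels `k_g^{(j)}(z,x)`, `k_0^{(0)} = 1_{z=x}`, `k_0^{(j)} = 0` for `j>0`,
`k_{g+1}^{(j)}(z,x) = Σ_{l≤j} Σ_y k_g^{(j-l)}(z,y) E_g(l)(y,x)`.
Claim by induction on `g`: the running maximum `A_g^{(j)}(x) := sup_{m ≤ a_g} exJ_m^{(j)}(x)` is at most a random variable `Q_g^{(j)}(x)`
depending on the first `a_g` steps, where `Q_0^{(0)} = w0`, `Q_0^{(j)}=0`, `Q_{g+1}^{(j)}(x) = Σ_{l≤j} Σ_y Q_g^{(j-l)}(y) gk^{(l)}(y,x)` (exJ_group; for `m ≤ a_g` use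
that the term `l = 0`, `y = x` is `Q_g^{(j)}(x) e^{λ osc} ≥ Q_g^{(j)}(x)`), and by independence of the groups (`lintegral_glue`)
`E Q_g^{(j)}(x) ≤ Σ_z w0(z) k_g^{(j)}(z,x)`. Column sums: by induction `Σ_z k_g^{(j)}(z,x) ≤ 2^{j+g} 4^g e^j exp(16 (j² + 2j + g)/i)`
(`Σ_{l≤j} 2^{j-l+g-1}·… ≤ 2^{j+g}`; exponent: `(j-l)² + 2(j-l) + (g-1) + (l+1)² ≤ j² + 2j + g`). With `j = g = i`:
`≤ 16^i e^i exp(16(i+3))`.
`cell_zero`: `sup_{m≤K} exJ_m^{(0)}(x) ≤ w0(x) e^{λ osc(x)}` (exJ_group with `a = 0`, `i = 0`), expectation `≤ 4 e^{8} w0(x)`.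
`cell_all`: sum over `i ≤ K` (for `m ≤ K` only `i ≤ K` occur), `e ≤ e^{-16}/64`: `Σ_z k(z,x) ≤ 4e^8 + e^{48} Σ_{i≥1} 4^{-i} ≤ 4e^8 + e^{48}`.
-/

open MeasureTheory ProbabilityTheory
open scoped ENNReal

namespace DynC

variable {S : Type} [Fintype S] {D : ℕ} (M : MSet S D)


/-- random upper bound for the running maximum over the first groups -/
private noncomputable def LPPc_Q (lam q : ℝ) (w0 : S → ℝ) (a : ℕ → ℕ) (h : ℕ → S → ℝ) :
    ℕ → ℕ → S → ℝ
  | 0 => fun j x => if j = 0 then w0 x else 0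
  | g + 1 => fun j x => ∑ l ∈ Finset.range (j + 1), ∑ y, LPPc_Q lam q w0 a h g (j - l) y *
      M.gk lam q (fun t => h (a g + t)) (a (g + 1) - a g) l y x

/-- deterministic kernels -/
private noncomputable def LPPc_k (E : ℕ → ℕ → S → S → ℝ) : ℕ → ℕ → S → S → ℝ
  | 0 => fun j z x => if j = 0 then (open Classical in if z = x then 1 else 0) else 0
  | g + 1 => fun j z x => ∑ l ∈ Finset.range (j + 1), ∑ y, LPPc_k E g (j - l) z y * E g l y x

private theorem LPPc_Q_nonneg (lam q : ℝ) (w0 : S → ℝ) (h0 : ∀ z, 0 ≤ w0 z) (a : ℕ → ℕ)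
    (h : ℕ → S → ℝ) (g : ℕ) : ∀ (j : ℕ) (x : S), 0 ≤ LPPc_Q M lam q w0 a h g j x := by
  induction g with
  | zero =>
    intro j x
    simp only [LPPc_Q]
    split_ifs
    · exact h0 x
    · exact le_refl 0
  | succ g ih =>
    intro j x
    simp only [LPPc_Q]
    exact Finset.sum_nonneg fun l _ => Finset.sum_nonneg fun y _ =>
      mul_nonneg (ih _ _) (gk_nonneg M _ _ _ _ _ _ _)

private theorem LPPc_k_nonneg (E : ℕ → ℕ → S → S → ℝ) (hE : ∀ g l y x, 0 ≤ E g l y x) (g : ℕ) :
    ∀ (j : ℕ) (z x : S), 0 ≤ LPPc_k E g j z x := by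
  induction g with
  | zero =>
    intro j z x
    simp only [LPPc_k]
    split_ifs
    · exact zero_le_one
    · exact le_refl 0
    · exact le_refl 0
  | succ g ih =>
    intro j z x
    simp only [LPPc_k]
    exact Finset.sum_nonneg fun l _ => Finset.sum_nonneg fun y _ => mul_nonneg (ih _ _ _) (hE _ _ _ _)

private theorem LPPc_Q_le_succ (lam q : ℝ) (hl : 0 ≤ lam) (w0 : S → ℝ) (h0 : ∀ z, 0 ≤ w0 z)
    (a : ℕ → ℕ) (h : ℕ → S → ℝ) (g j : ℕ) (x : S) :
    LPPc_Q M lam q w0 a h g j x ≤ LPPc_Q M lam q w0 a h (g + 1) j x := by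
  simp only [LPPc_Q]
  have h1 : LPPc_Q M lam q w0 a h g (j - 0) x *
      M.gk lam q (fun t => h (a g + t)) (a (g + 1) - a g) 0 x x ≤
      ∑ y, LPPc_Q M lam q w0 a h g (j - 0) y *
      M.gk lam q (fun t => h (a g + t)) (a (g + 1) - a g) 0 y x :=
    Finset.single_le_sum (f := fun y => LPPc_Q M lam q w0 a h g (j - 0) y *
      M.gk lam q (fun t => h (a g + t)) (a (g + 1) - a g) 0 y x)
      (fun y _ => mul_nonneg (LPPc_Q_nonneg M lam q w0 h0 a h g _ _) (gk_nonneg M _ _ _ _ _ _ _))
      (Finset.mem_univ x)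
  have h2 : (∑ y, LPPc_Q M lam q w0 a h g (j - 0) y *
      M.gk lam q (fun t => h (a g + t)) (a (g + 1) - a g) 0 y x) ≤
      ∑ l ∈ Finset.range (j + 1), ∑ y, LPPc_Q M lam q w0 a h g (j - l) y *
      M.gk lam q (fun t => h (a g + t)) (a (g + 1) - a g) l y x :=
    Finset.single_le_sum (f := fun l => ∑ y, LPPc_Q M lam q w0 a h g (j - l) y *
      M.gk lam q (fun t => h (a g + t)) (a (g + 1) - a g) l y x)
      (fun l _ => Finset.sum_nonneg fun y _ =>
        mul_nonneg (LPPc_Q_nonneg M lam q w0 h0 a h g _ _) (gk_nonneg M _ _ _ _ _ _ _))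
      (Finset.mem_range.2 (Nat.succ_pos j))
  refine le_trans ?_ (h1.trans h2)
  rw [Nat.sub_zero]
  have h3 : (1 : ℝ) ≤ M.gk lam q (fun t => h (a g + t)) (a (g + 1) - a g) 0 x x := by
    simp only [MSet.gk, if_true]
    exact Real.one_le_exp (mul_nonneg hl (osc_nonneg _ _))
  exact le_mul_of_one_le_right (LPPc_Q_nonneg M lam q w0 h0 a h g _ _) h3

private theorem LPPc_exJ_le_Q (lam q : ℝ) (hl : 0 ≤ lam) (w0 : S → ℝ) (h1 : ∀ z, 1 ≤ w0 z)
    (a : ℕ → ℕ) (ha0 : a 0 = 0) (h : ℕ → S → ℝ) (g : ℕ) :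
    ∀ (j m : ℕ) (x : S), m ≤ a g → M.exJ lam q w0 h m j x ≤ LPPc_Q M lam q w0 a h g j x := by
  have h0 : ∀ z, 0 ≤ w0 z := fun z => le_trans zero_le_one (h1 z)
  induction g with
  | zero =>
    intro j m x hm
    rw [ha0] at hm
    have hm0 : m = 0 := by omega
    subst hm0
    rcases j with _ | j
    · simp [MSet.exJ, LPPc_Q]
    · simp [MSet.exJ, LPPc_Q]
  | succ g ih =>
    intro j m x hm
    rcases le_total m (a g) with hmg | hmg
    · exact (ih j m x hmg).trans (LPPc_Q_le_succ M lam q hl w0 h0 a h g j x)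
    · have h2 := exJ_group M lam q hl w0 h1 h (a g) (a (g + 1) - a g) (m - a g) (by omega) j x
      rw [Nat.add_sub_cancel' hmg] at h2
      refine h2.trans ?_
      simp only [LPPc_Q]
      refine Finset.sum_le_sum fun l _ => Finset.sum_le_sum fun z _ => ?_
      exact mul_le_mul_of_nonneg_right (ih (j - l) (a g) z (le_refl _)) (gk_nonneg M _ _ _ _ _ _ _)

private theorem LPPc_Q_congr (lam q : ℝ) (w0 : S → ℝ) (a : ℕ → ℕ) (ha : Monotone a)
    (h h' : ℕ → S → ℝ) (g : ℕ) :
    ∀ (j : ℕ) (x : S), (∀ t, t < a g → h t = h' t) →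
      LPPc_Q M lam q w0 a h g j x = LPPc_Q M lam q w0 a h' g j x := by
  induction g with
  | zero =>
    intro j x _
    simp only [LPPc_Q]
  | succ g ih =>
    intro j x hh
    have hag : a g ≤ a (g + 1) := ha (Nat.le_succ g)
    simp only [LPPc_Q]
    refine Finset.sum_congr rfl fun l _ => Finset.sum_congr rfl fun y _ => ?_
    rw [ih (j - l) y (fun t ht => hh t (lt_of_lt_of_le ht hag)),
      gk_congr M lam q (fun t => h (a g + t)) (fun t => h' (a g + t)) (a (g + 1) - a g) l y x
        (fun t ht => hh (a g + t) (by omega))]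

private theorem LPPc_measurable_sc (v : ℝ) : Measurable (fun ω : ℕ → S → ℝ => sc v ω) := by
  unfold sc
  fun_prop

private theorem LPPc_measurable_gk_shift (lam q v : ℝ) (n K l : ℕ) (y x : S) :
    Measurable (fun ω : ℕ → S → ℝ => M.gk lam q (fun t => sc v ω (n + t)) K l y x) := by
  have h1 : Measurable (fun ω : ℕ → S → ℝ => fun t => sc v ω (n + t)) := by
    unfold sc
    fun_prop
  exact (measurable_gk M lam q K l y x).comp h1

private theorem LPPc_measurable_Q (lam q v : ℝ) (w0 : S → ℝ) (a : ℕ → ℕ) (g : ℕ) :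
    ∀ (j : ℕ) (x : S), Measurable (fun ω : ℕ → S → ℝ => LPPc_Q M lam q w0 a (sc v ω) g j x) := by
  induction g with
  | zero =>
    intro j x
    simp only [LPPc_Q]
    exact measurable_const
  | succ g ih =>
    intro j x
    simp only [LPPc_Q]
    exact Finset.measurable_sum _ fun l _ => Finset.measurable_sum _ fun y _ =>
      (ih (j - l) y).mul (LPPc_measurable_gk_shift M lam q v (a g) (a (g + 1) - a g) l y x)

private theorem LPPc_sc_glue (v : ℝ) (n : ℕ) (a b : ℕ → S → ℝ) :
    (∀ j, j < n → sc v (glue n a b) j = sc v a j) ∧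
      (fun j => sc v (glue n a b) (n + j)) = sc v b := by
  constructor
  · intro j hj
    funext x
    simp [sc, glue, hj]
  · funext j x
    simp [sc, glue]

private theorem LPPc_Q_lint (lam q v : ℝ) (w0 : S → ℝ) (h0 : ∀ z, 0 ≤ w0 z) (a : ℕ → ℕ)
    (ha : Monotone a) (E : ℕ → ℕ → S → S → ℝ) (hE0 : ∀ g l y x, 0 ≤ E g l y x)
    (hE : ∀ g l y x, ∫⁻ ω, ENNReal.ofReal (M.gk lam q (sc v ω) (a (g + 1) - a g) l y x)
      ∂(PI (nz S)) ≤ ENNReal.ofReal (E g l y x)) (g : ℕ) :
    ∀ (j : ℕ) (x : S), ∫⁻ ω, ENNReal.ofReal (LPPc_Q M lam q w0 a (sc v ω) g j x) ∂(PI (nz S))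
      ≤ ENNReal.ofReal (∑ z, w0 z * LPPc_k E g j z x) := by
  induction g with
  | zero =>
    intro j x
    simp only [LPPc_Q, LPPc_k]
    rw [lintegral_const, measure_univ, mul_one]
    apply ENNReal.ofReal_le_ofReal
    rcases j with _ | j
    · classical
      simp
    · simp
  | succ g ih =>
    intro j x
    have hQ0 : ∀ (a' : ℕ → S → ℝ) (j : ℕ) (y : S), 0 ≤ LPPc_Q M lam q w0 a (sc v a') g j y :=
      fun a' j y => LPPc_Q_nonneg M lam q w0 h0 a _ g j y
    rw [lintegral_glue (a g) _ (LPPc_measurable_Q M lam q v w0 a (g + 1) j x).ennreal_ofReal]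
    have h1 : ∀ a' b : ℕ → S → ℝ,
        ENNReal.ofReal (LPPc_Q M lam q w0 a (sc v (glue (a g) a' b)) (g + 1) j x) =
        ∑ l ∈ Finset.range (j + 1), ∑ y, ENNReal.ofReal (LPPc_Q M lam q w0 a (sc v a') g (j - l) y) *
          ENNReal.ofReal (M.gk lam q (sc v b) (a (g + 1) - a g) l y x) := by
      intro a' b
      simp only [LPPc_Q]
      rw [(LPPc_sc_glue v (a g) a' b).2]
      have h2 : ∀ (j : ℕ) (y : S), LPPc_Q M lam q w0 a (sc v (glue (a g) a' b)) g j y =
          LPPc_Q M lam q w0 a (sc v a') g j y := fun j y =>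
        LPPc_Q_congr M lam q w0 a ha _ _ g j y (LPPc_sc_glue v (a g) a' b).1
      simp only [h2]
      rw [ENNReal.ofReal_sum_of_nonneg (fun l _ => Finset.sum_nonneg fun y _ =>
        mul_nonneg (hQ0 _ _ _) (gk_nonneg M _ _ _ _ _ _ _))]
      refine Finset.sum_congr rfl fun l _ => ?_
      rw [ENNReal.ofReal_sum_of_nonneg (fun y _ =>
        mul_nonneg (hQ0 _ _ _) (gk_nonneg M _ _ _ _ _ _ _))]
      refine Finset.sum_congr rfl fun y _ => ?_
      rw [ENNReal.ofReal_mul (hQ0 _ _ _)]
    simp only [h1]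
    have hgm : ∀ l y, Measurable (fun b : ℕ → S → ℝ =>
        ENNReal.ofReal (M.gk lam q (sc v b) (a (g + 1) - a g) l y x)) := fun l y =>
      ((measurable_gk M lam q (a (g + 1) - a g) l y x).comp (LPPc_measurable_sc v)).ennreal_ofReal
    have h3 : ∀ a' : ℕ → S → ℝ, ∫⁻ b, ∑ l ∈ Finset.range (j + 1), ∑ y,
          ENNReal.ofReal (LPPc_Q M lam q w0 a (sc v a') g (j - l) y) *
          ENNReal.ofReal (M.gk lam q (sc v b) (a (g + 1) - a g) l y x) ∂(PI (nz S)) ≤
        ∑ l ∈ Finset.range (j + 1), ∑ y,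
          ENNReal.ofReal (LPPc_Q M lam q w0 a (sc v a') g (j - l) y) *
          ENNReal.ofReal (E g l y x) := by
      intro a'
      rw [lintegral_finsetSum _ (fun l _ => Finset.measurable_sum _ fun y _ =>
        (hgm l y).const_mul _)]
      refine Finset.sum_le_sum fun l _ => ?_
      rw [lintegral_finsetSum _ (fun y _ => (hgm l y).const_mul _)]
      refine Finset.sum_le_sum fun y _ => ?_
      rw [lintegral_const_mul _ (hgm l y)]
      exact mul_le_mul_right (hE g l y x) _
    refine (lintegral_mono h3).trans ?_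
    have hQm : ∀ j y, Measurable (fun a' : ℕ → S → ℝ =>
        ENNReal.ofReal (LPPc_Q M lam q w0 a (sc v a') g j y)) := fun j y =>
      (LPPc_measurable_Q M lam q v w0 a g j y).ennreal_ofReal
    rw [lintegral_finsetSum _ (fun l _ => Finset.measurable_sum _ fun y _ =>
        (hQm (j - l) y).mul_const _)]
    have h4 : ∀ l ∈ Finset.range (j + 1), ∫⁻ a', ∑ y,
          ENNReal.ofReal (LPPc_Q M lam q w0 a (sc v a') g (j - l) y) *
          ENNReal.ofReal (E g l y x) ∂(PI (nz S)) ≤
        ∑ y, ENNReal.ofReal ((∑ z, w0 z * LPPc_k E g (j - l) z y) * E g l y x) := by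
      intro l _
      rw [lintegral_finsetSum _ (fun y _ => (hQm (j - l) y).mul_const _)]
      refine Finset.sum_le_sum fun y _ => ?_
      rw [lintegral_mul_const _ (hQm (j - l) y), ENNReal.ofReal_mul
        (Finset.sum_nonneg fun z _ => mul_nonneg (h0 z) (LPPc_k_nonneg E hE0 g _ _ _))]
      exact mul_le_mul_left (ih (j - l) y) _
    refine (Finset.sum_le_sum h4).trans (le_of_eq ?_)
    have hk0 : ∀ (j : ℕ) (y : S), 0 ≤ ∑ z, w0 z * LPPc_k E g j z y := fun j y =>
      Finset.sum_nonneg fun z _ => mul_nonneg (h0 z) (LPPc_k_nonneg E hE0 g _ _ _)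
    have h5 : ∀ l ∈ Finset.range (j + 1),
        ∑ y, ENNReal.ofReal ((∑ z, w0 z * LPPc_k E g (j - l) z y) * E g l y x) =
        ENNReal.ofReal (∑ y, (∑ z, w0 z * LPPc_k E g (j - l) z y) * E g l y x) := by
      intro l _
      rw [ENNReal.ofReal_sum_of_nonneg (fun y _ => mul_nonneg (hk0 _ _) (hE0 _ _ _ _))]
    rw [Finset.sum_congr rfl h5, ← ENNReal.ofReal_sum_of_nonneg (fun l _ =>
      Finset.sum_nonneg fun y _ => mul_nonneg (hk0 _ _) (hE0 _ _ _ _))]
    congr 1
    simp only [LPPc_k, Finset.mul_sum, Finset.sum_mul]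
    rw [Finset.sum_comm (s := (Finset.univ : Finset S)) (t := Finset.range (j + 1))]
    refine Finset.sum_congr rfl fun l _ => ?_
    rw [Finset.sum_comm]
    refine Finset.sum_congr rfl fun z _ => Finset.sum_congr rfl fun y _ => ?_
    ring

/-- column sums of the deterministic kernels -/
private theorem LPPc_colsum (e : ℝ) (he0 : 0 ≤ e) (t : ℝ) (ht : 0 ≤ t) (E : ℕ → ℕ → S → S → ℝ)
    (hE0 : ∀ g l y x, 0 ≤ E g l y x)
    (hE : ∀ g l x, ∑ y, E g l y x ≤ e ^ l * (4 * Real.exp (t * ((l : ℝ) + 1) ^ 2))) (g : ℕ) :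
    ∀ (j : ℕ) (x : S), ∑ z, LPPc_k E g j z x ≤
      2 ^ (j + g) * 4 ^ g * e ^ j * Real.exp (t * ((j : ℝ) ^ 2 + 2 * j + g)) := by
  induction g with
  | zero =>
    intro j x
    simp only [LPPc_k]
    rcases j with _ | j
    · classical
      simp
    · simp only [Nat.succ_ne_zero, if_false, Finset.sum_const_zero]
      positivity
  | succ g ih =>
    intro j x
    have h1 : ∑ z, LPPc_k E (g + 1) j z x =
        ∑ l ∈ Finset.range (j + 1), ∑ y, (∑ z, LPPc_k E g (j - l) z y) * E g l y x := by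
      simp only [LPPc_k, Finset.sum_mul]
      rw [Finset.sum_comm]
      refine Finset.sum_congr rfl fun l _ => ?_
      rw [Finset.sum_comm]
    rw [h1]
    have h2 : ∀ l ∈ Finset.range (j + 1),
        ∑ y, (∑ z, LPPc_k E g (j - l) z y) * E g l y x ≤
        2 ^ (j - l) * (2 ^ g * 4 ^ (g + 1) * e ^ j *
          Real.exp (t * ((j : ℝ) ^ 2 + 2 * j + (g + 1 : ℕ)))) := by
      intro l hl
      have hlj : l ≤ j := by
        have := Finset.mem_range.1 hl
        omega
      have h3 : ∑ y, (∑ z, LPPc_k E g (j - l) z y) * E g l y x ≤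
          ∑ y, (2 ^ ((j - l) + g) * 4 ^ g * e ^ (j - l) *
            Real.exp (t * (((j - l : ℕ) : ℝ) ^ 2 + 2 * ((j - l : ℕ) : ℝ) + g))) * E g l y x :=
        Finset.sum_le_sum fun y _ => mul_le_mul_of_nonneg_right (ih (j - l) y) (hE0 _ _ _ _)
      refine h3.trans ?_
      rw [← Finset.mul_sum]
      have h4 : (0 : ℝ) ≤ 2 ^ ((j - l) + g) * 4 ^ g * e ^ (j - l) *
            Real.exp (t * (((j - l : ℕ) : ℝ) ^ 2 + 2 * ((j - l : ℕ) : ℝ) + g)) := by positivity
      refine (mul_le_mul_of_nonneg_left (hE g l x) h4).trans ?_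
      have h5 : (2 ^ ((j - l) + g) * 4 ^ g * e ^ (j - l) *
            Real.exp (t * (((j - l : ℕ) : ℝ) ^ 2 + 2 * ((j - l : ℕ) : ℝ) + g))) *
            (e ^ l * (4 * Real.exp (t * ((l : ℝ) + 1) ^ 2))) =
          2 ^ (j - l) * (2 ^ g * 4 ^ (g + 1) * (e ^ (j - l) * e ^ l) *
            (Real.exp (t * (((j - l : ℕ) : ℝ) ^ 2 + 2 * ((j - l : ℕ) : ℝ) + g)) *
              Real.exp (t * ((l : ℝ) + 1) ^ 2))) := by
        ring
      rw [h5, ← pow_add, Nat.sub_add_cancel hlj, ← Real.exp_add]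
      refine mul_le_mul_of_nonneg_left ?_ (by positivity)
      refine mul_le_mul_of_nonneg_left ?_ (by positivity)
      apply Real.exp_le_exp.2
      rw [← mul_add]
      apply mul_le_mul_of_nonneg_left _ ht
      rw [Nat.cast_sub hlj]
      push_cast
      have hl0 : (0 : ℝ) ≤ l := Nat.cast_nonneg l
      have hjl : (l : ℝ) ≤ j := by exact_mod_cast hlj
      nlinarith only [hl0, hjl, mul_nonneg hl0 (sub_nonneg.2 hjl)]
    refine (Finset.sum_le_sum h2).trans ?_
    rw [← Finset.sum_mul]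
    have h6 : ∑ l ∈ Finset.range (j + 1), (2 : ℝ) ^ (j - l) ≤ 2 ^ (j + 1) := by
      have h8 := Finset.sum_range_reflect (fun l => (2 : ℝ) ^ l) (j + 1)
      simp only [Nat.add_sub_cancel] at h8
      rw [h8, geom_sum_eq (by norm_num)]
      have h9 : (0 : ℝ) < 2 ^ (j + 1) := by positivity
      norm_num
    have h7 : (0 : ℝ) ≤ 2 ^ g * 4 ^ (g + 1) * e ^ j *
          Real.exp (t * ((j : ℝ) ^ 2 + 2 * j + (g + 1 : ℕ))) := by positivity
    refine (mul_le_mul_of_nonneg_right h6 h7).trans (le_of_eq ?_)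
    ring

/-- bound for the expectation of one group kernel -/
private theorem LPPc_exists_E (lam q v e : ℝ) (hl : 0 < lam) (hv : 0 < v) (he0 : 0 ≤ e)
    (he : ∀ x, ∑ y, Real.exp (-(lam * q * max (M.dd y x : ℝ) 1)) ≤ e) (t : ℝ) (a : ℕ → ℕ)
    (hat : ∀ g, 8 * (lam ^ 2 * v * ((a (g + 1) - a g : ℕ) : ℝ)) ≤ t) :
    ∃ E : ℕ → ℕ → S → S → ℝ, (∀ g l y x, 0 ≤ E g l y x) ∧
      (∀ g l y x, ∫⁻ ω, ENNReal.ofReal (M.gk lam q (sc v ω) (a (g + 1) - a g) l y x)
        ∂(PI (nz S)) ≤ ENNReal.ofReal (E g l y x)) ∧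
      (∀ g l x, ∑ y, E g l y x ≤ e ^ l * (4 * Real.exp (t * ((l : ℝ) + 1) ^ 2))) := by
  have hgm : ∀ g l y x, Measurable (fun b : ℕ → S → ℝ =>
      ENNReal.ofReal (M.gk lam q (sc v b) (a (g + 1) - a g) l y x)) := fun g l y x =>
    ((measurable_gk M lam q (a (g + 1) - a g) l y x).comp (LPPc_measurable_sc v)).ennreal_ofReal
  have hsum : ∀ g l x, ∑ y, ∫⁻ ω, ENNReal.ofReal (M.gk lam q (sc v ω) (a (g + 1) - a g) l y x)
      ∂(PI (nz S)) ≤ ENNReal.ofReal (e ^ l * (4 * Real.exp (t * ((l : ℝ) + 1) ^ 2))) := by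
    intro g l x
    rw [← lintegral_finsetSum _ (fun y _ => hgm g l y x)]
    have h1 : ∀ ω : ℕ → S → ℝ, ∑ y, ENNReal.ofReal (M.gk lam q (sc v ω) (a (g + 1) - a g) l y x) =
        ENNReal.ofReal (∑ y, M.gk lam q (sc v ω) (a (g + 1) - a g) l y x) := by
      intro ω
      rw [ENNReal.ofReal_sum_of_nonneg (fun y _ => gk_nonneg M _ _ _ _ _ _ _)]
    simp only [h1]
    refine (gk_exp M lam q v e hl.le hv.le he (a (g + 1) - a g) l x).trans ?_
    apply ENNReal.ofReal_le_ofReal
    apply mul_le_mul_of_nonneg_left _ (pow_nonneg he0 l)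
    apply mul_le_mul_of_nonneg_left _ (by norm_num)
    apply Real.exp_le_exp.2
    have h2 := mul_le_mul_of_nonneg_right (hat g) (sq_nonneg ((l : ℝ) + 1))
    nlinarith [h2]
  have hfin : ∀ g l y x, ∫⁻ ω, ENNReal.ofReal (M.gk lam q (sc v ω) (a (g + 1) - a g) l y x)
      ∂(PI (nz S)) ≠ ∞ := by
    intro g l y x
    refine ne_top_of_le_ne_top ENNReal.ofReal_ne_top (le_trans ?_ (hsum g l x))
    exact Finset.single_le_sum (f := fun y => ∫⁻ ω, ENNReal.ofReal
      (M.gk lam q (sc v ω) (a (g + 1) - a g) l y x) ∂(PI (nz S))) (fun _ _ => zero_le)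
      (Finset.mem_univ y)
  refine ⟨fun g l y x => (∫⁻ ω, ENNReal.ofReal (M.gk lam q (sc v ω) (a (g + 1) - a g) l y x)
      ∂(PI (nz S))).toReal, fun g l y x => ENNReal.toReal_nonneg, fun g l y x => ?_,
      fun g l x => ?_⟩
  · rw [ENNReal.ofReal_toReal (hfin g l y x)]
  · rw [← ENNReal.toReal_sum (fun y _ => hfin g l y x)]
    exact ENNReal.toReal_le_of_le_ofReal (by positivity) (hsum g l x)

/-- the part with exactly `i` jumps, running maximum over one cell -/
theorem cell_jumps (lam q v e : ℝ) (hl : 0 < lam) (hv : 0 < v)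
    (he0 : 0 ≤ e) (he : ∀ x, ∑ y, Real.exp (-(lam * q * max (M.dd y x : ℝ) 1)) ≤ e) (K i : ℕ)
    (hK : lam ^ 2 * v * K ≤ 1) (hi : 1 ≤ i) (hiK : i ≤ K) :
    ∃ k : S → S → ℝ, (∀ z x, 0 ≤ k z x) ∧
      (∀ x, ∑ z, k z x ≤ Real.exp 48 * (16 * Real.exp 16 * e) ^ i) ∧
      ∀ w0 : S → ℝ, (∀ z, 1 ≤ w0 z) → ∀ x,
        ∫⁻ ω, (Finset.range (K + 1)).sup (fun m => ENNReal.ofReal
            (M.exJ lam q w0 (sc v ω) m i x)) ∂(PI (nz S))
          ≤ ENNReal.ofReal (∑ z, w0 z * k z x) := by
  have hi0 : (0 : ℝ) < i := by exact_mod_cast hi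
  set a : ℕ → ℕ := fun g => g * K / i with ha_def
  have ha : Monotone a := fun g g' hg => Nat.div_le_div_right (Nat.mul_le_mul_right K hg)
  have ha0 : a 0 = 0 := by simp [ha_def]
  have hai : a i = K := by
    simp only [ha_def]
    exact Nat.mul_div_cancel_left K hi
  have hat : ∀ g, 8 * (lam ^ 2 * v * ((a (g + 1) - a g : ℕ) : ℝ)) ≤ 16 / i := by
    intro g
    have h1 : (a (g + 1) - a g) * i ≤ 2 * K := by
      have h2 : a (g + 1) * i ≤ (g + 1) * K := Nat.div_mul_le_self _ _
      have h3 : g * K < a g * i + i := by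
        have := Nat.lt_div_mul_add (a := g * K) (b := i) hi
        simpa [ha_def] using this
      rw [Nat.sub_mul]
      have h4 : (g + 1) * K = g * K + K := by ring
      omega
    have h5 : ((a (g + 1) - a g : ℕ) : ℝ) * i ≤ 2 * K := by exact_mod_cast h1
    rw [le_div_iff₀ hi0]
    have h6 : 0 ≤ lam ^ 2 * v := by positivity
    have h7 := mul_le_mul_of_nonneg_left h5 h6
    nlinarith only [hK, h7, h7, hK]
  obtain ⟨E, hE0, hE1, hE2⟩ := LPPc_exists_E M lam q v e hl hv he0 he (16 / i) a hat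
  refine ⟨fun z x => LPPc_k E i i z x, fun z x => LPPc_k_nonneg E hE0 i i z x, fun x => ?_,
    fun w0 h1 x => ?_⟩
  · refine (LPPc_colsum e he0 (16 / i) (by positivity) E hE0 hE2 i i x).trans (le_of_eq ?_)
    have h1 : (16 / (i : ℝ)) * ((i : ℝ) ^ 2 + 2 * i + i) = 48 + i * 16 := by
      field_simp
      ring
    rw [h1, Real.exp_add, Real.exp_nat_mul, mul_pow, mul_pow, ← two_mul, pow_mul]
    have h2 : (16 : ℝ) ^ i = (2 ^ 2) ^ i * 4 ^ i := by
      rw [← mul_pow]
      norm_num
    rw [h2]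
    ring
  · have h0 : ∀ z, 0 ≤ w0 z := fun z => le_trans zero_le_one (h1 z)
    refine le_trans (lintegral_mono fun ω => ?_)
      (LPPc_Q_lint M lam q v w0 h0 a ha E hE0 hE1 i i x)
    apply Finset.sup_le
    intro m hm
    apply ENNReal.ofReal_le_ofReal
    apply LPPc_exJ_le_Q M lam q hl.le w0 h1 a ha0 (sc v ω) i i m x
    rw [hai]
    have := Finset.mem_range.1 hm
    omega

theorem cell_zero (lam q v : ℝ) (hl : 0 < lam) (hv : 0 < v) (K : ℕ)
    (hK : lam ^ 2 * v * K ≤ 1) (w0 : S → ℝ) (h0 : ∀ z, 1 ≤ w0 z) (x : S) :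
    ∫⁻ ω, (Finset.range (K + 1)).sup (fun m => ENNReal.ofReal
        (M.exJ lam q w0 (sc v ω) m 0 x)) ∂(PI (nz S))
      ≤ ENNReal.ofReal (4 * Real.exp 8 * w0 x) := by
  classical
  have hw : 0 ≤ w0 x := le_trans zero_le_one (h0 x)
  have h1 : ∀ ω : ℕ → S → ℝ, (Finset.range (K + 1)).sup (fun m => ENNReal.ofReal
        (M.exJ lam q w0 (sc v ω) m 0 x)) ≤
      ENNReal.ofReal (w0 x) * ENNReal.ofReal (Real.exp (lam * osc (fun j => sc v ω j x) K)) := by
    intro ω
    apply Finset.sup_le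
    intro m hm
    have hmK : m ≤ K := by
      have := Finset.mem_range.1 hm
      omega
    rw [← ENNReal.ofReal_mul hw]
    apply ENNReal.ofReal_le_ofReal
    have h2 := exJ_group M lam q hl.le w0 h0 (sc v ω) 0 K m hmK 0 x
    simp only [Nat.zero_add] at h2
    refine h2.trans (le_of_eq ?_)
    simp [MSet.gk, MSet.exJ]
  refine (lintegral_mono h1).trans ?_
  rw [lintegral_const_mul' _ _ ENNReal.ofReal_ne_top]
  refine (mul_le_mul_right (osc_exp_nz lam v hl.le hv.le K x) _).trans ?_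
  rw [← ENNReal.ofReal_mul hw]
  apply ENNReal.ofReal_le_ofReal
  rw [mul_comm (w0 x)]
  apply mul_le_mul_of_nonneg_right _ hw
  apply mul_le_mul_of_nonneg_left _ (by norm_num)
  apply Real.exp_le_exp.2
  nlinarith [hK]

private theorem LPPc_measurable_exJ (lam q v : ℝ) (w0 : S → ℝ) (m : ℕ) :
    ∀ (i : ℕ) (x : S), Measurable (fun ω : ℕ → S → ℝ => M.exJ lam q w0 (sc v ω) m i x) := by
  have hg : ∀ (m : ℕ) (x : S), Measurable (fun ω : ℕ → S → ℝ => sc v ω m x) := by
    intro m x
    unfold sc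
    fun_prop
  induction m with
  | zero =>
    intro i x
    rcases i with _ | i
    · simp only [MSet.exJ]
      exact measurable_const
    · simp only [MSet.exJ]
      exact measurable_const
  | succ m ih =>
    intro i x
    rcases i with _ | i
    · simp only [MSet.exJ]
      exact measurable_const.max ((ih 0 x).mul ((hg m x).const_mul lam).exp)
    · simp only [MSet.exJ]
      refine ((ih (i + 1) x).mul ((hg m x).const_mul lam).exp).max (Measurable.mul ?_ ?_)
      · exact Finset.measurable_sum _ fun z _ => (ih i z).mul_const _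
      · exact (((hg m x).max measurable_const).const_mul lam).exp

private theorem LPPc_measurable_sup (lam q v : ℝ) (w0 : S → ℝ) (K i : ℕ) (x : S) :
    Measurable (fun ω : ℕ → S → ℝ => (Finset.range (K + 1)).sup (fun m => ENNReal.ofReal
        (M.exJ lam q w0 (sc v ω) m i x))) := by
  have h := Finset.measurable_range_sup'' (n := K)
    (f := fun m (ω : ℕ → S → ℝ) => ENNReal.ofReal (M.exJ lam q w0 (sc v ω) m i x))
    (fun m _ => (LPPc_measurable_exJ M lam q v w0 m i x).ennreal_ofReal)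
  simpa only [Finset.sup'_eq_sup] using h

/-- one cell: the running maximum of `e^{λ W}` -/
theorem cell_all (lam q v e : ℝ) (hl : 0 < lam) (hv : 0 < v)
    (he0 : 0 ≤ e) (he : ∀ x, ∑ y, Real.exp (-(lam * q * max (M.dd y x : ℝ) 1)) ≤ e)
    (he1 : e ≤ Real.exp (-16) / 64) (K : ℕ) (hK : lam ^ 2 * v * K ≤ 1) :
    ∃ k : S → S → ℝ, (∀ z x, 0 ≤ k z x) ∧ (∀ x, ∑ z, k z x ≤ 4 * Real.exp 8 + Real.exp 48) ∧
      ∀ W0 : S → ℝ, (∀ z, 0 ≤ W0 z) → ∀ x,
        ∫⁻ ω, ENNReal.ofReal (Real.exp (lam * M.lppM q W0 (sc v ω) K x)) ∂(PI (nz S))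
          ≤ ENNReal.ofReal (∑ z, Real.exp (lam * W0 z) * k z x) := by
  classical
  have hq : ∀ i : ℕ, ∃ k : S → S → ℝ, (i < K → ((∀ z x, 0 ≤ k z x) ∧
      (∀ x, ∑ z, k z x ≤ Real.exp 48 * (16 * Real.exp 16 * e) ^ (i + 1)) ∧
      ∀ w0 : S → ℝ, (∀ z, 1 ≤ w0 z) → ∀ x,
        ∫⁻ ω, (Finset.range (K + 1)).sup (fun m => ENNReal.ofReal
            (M.exJ lam q w0 (sc v ω) m (i + 1) x)) ∂(PI (nz S))
          ≤ ENNReal.ofReal (∑ z, w0 z * k z x))) := by
    intro i
    by_cases hiK : i < K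
    · obtain ⟨k, hk⟩ := cell_jumps M lam q v e hl hv he0 he K (i + 1) hK (by omega) (by omega)
      exact ⟨k, fun _ => hk⟩
    · exact ⟨fun _ _ => 0, fun h => absurd h hiK⟩
  choose k hk using hq
  have hk0 : ∀ i ∈ Finset.range K, ∀ z x, 0 ≤ k i z x := fun i hi =>
    (hk i (Finset.mem_range.1 hi)).1
  refine ⟨fun z x => (if z = x then 4 * Real.exp 8 else 0) + ∑ i ∈ Finset.range K, k i z x,
    fun z x => ?_, fun x => ?_, fun W0 hW0 x => ?_⟩
  · refine add_nonneg ?_ (Finset.sum_nonneg fun i hi => hk0 i hi z x)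
    split_ifs
    · positivity
    · exact le_refl 0
  · rw [Finset.sum_add_distrib]
    have h1 : ∑ z, (if z = x then 4 * Real.exp 8 else 0) = 4 * Real.exp 8 := by simp
    rw [h1, Finset.sum_comm]
    refine add_le_add (le_refl _) ?_
    have h2 : 16 * Real.exp 16 * e ≤ 1 / 4 := by
      have h3 := mul_le_mul_of_nonneg_left he1 (by positivity : (0 : ℝ) ≤ 16 * Real.exp 16)
      refine h3.trans (le_of_eq ?_)
      rw [Real.exp_neg]
      field_simp
      norm_num
    have h4 : ∀ i ∈ Finset.range K, ∑ z, k i z x ≤ Real.exp 48 * (1 / 4 : ℝ) ^ (i + 1) := by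
      intro i hi
      refine ((hk i (Finset.mem_range.1 hi)).2.1 x).trans ?_
      apply mul_le_mul_of_nonneg_left _ (Real.exp_pos _).le
      exact pow_le_pow_left₀ (by positivity) h2 _
    refine (Finset.sum_le_sum h4).trans ?_
    rw [← Finset.mul_sum]
    have h5 : ∑ i ∈ Finset.range K, (1 / 4 : ℝ) ^ (i + 1) ≤ 1 := by
      have h6 : ∀ n : ℕ, ∑ i ∈ Finset.range n, (1 / 4 : ℝ) ^ (i + 1) ≤ 1 - (1 / 4) ^ n := by
        intro n
        induction n with
        | zero => simp
        | succ n ihn =>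
          rw [Finset.sum_range_succ]
          have h7 : (0 : ℝ) ≤ (1 / 4) ^ n := by positivity
          rw [pow_succ]
          linarith
      have h8 : (0 : ℝ) ≤ (1 / 4) ^ K := by positivity
      linarith [h6 K]
    calc Real.exp 48 * ∑ i ∈ Finset.range K, (1 / 4 : ℝ) ^ (i + 1) ≤ Real.exp 48 * 1 :=
          mul_le_mul_of_nonneg_left h5 (Real.exp_pos _).le
      _ = Real.exp 48 := mul_one _
  · set w0 : S → ℝ := fun z => Real.exp (lam * W0 z) with hw0
    have hw1 : ∀ z, 1 ≤ w0 z := fun z => Real.one_le_exp (mul_nonneg hl.le (hW0 z))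
    have hw00 : ∀ z, 0 ≤ w0 z := fun z => (Real.exp_pos _).le
    have h1 : ∀ ω : ℕ → S → ℝ, ENNReal.ofReal (Real.exp (lam * M.lppM q W0 (sc v ω) K x)) ≤
        (Finset.range (K + 1)).sup (fun m => ENNReal.ofReal
            (M.exJ lam q w0 (sc v ω) m 0 x)) +
        ∑ i ∈ Finset.range K, (Finset.range (K + 1)).sup (fun m => ENNReal.ofReal
            (M.exJ lam q w0 (sc v ω) m (i + 1) x)) := by
      intro ω
      obtain ⟨m, hm, hmx⟩ := Finset.exists_mem_eq_sup' (s := Finset.range (K + 1))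
        ⟨0, Finset.mem_range.mpr (Nat.succ_pos K)⟩ (fun m => M.lpp q W0 (sc v ω) m x)
      have hmx' : M.lppM q W0 (sc v ω) K x = M.lpp q W0 (sc v ω) m x := hmx
      rw [hmx']
      have hmK : m ≤ K := by
        have := Finset.mem_range.1 hm
        omega
      have h2 := lpp_le_exJ M lam q hl.le W0 w0 hw1 (fun z => le_refl _) (sc v ω) m x
      have hn : ∀ i, 0 ≤ M.exJ lam q w0 (sc v ω) m i x := fun i =>
        exJ_nonneg M lam q w0 hw00 (sc v ω) m i x
      have h3 : ∑ i ∈ Finset.range (m + 1), M.exJ lam q w0 (sc v ω) m i x ≤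
          ∑ i ∈ Finset.range (K + 1), M.exJ lam q w0 (sc v ω) m i x :=
        Finset.sum_le_sum_of_subset_of_nonneg
          (Finset.range_subset_range.2 (by omega)) (fun i _ _ => hn i)
      refine (ENNReal.ofReal_le_ofReal (h2.trans h3)).trans ?_
      rw [Finset.sum_range_succ', add_comm, ENNReal.ofReal_add (hn 0)
        (Finset.sum_nonneg fun i _ => hn _), ENNReal.ofReal_sum_of_nonneg (fun i _ => hn _)]
      refine add_le_add ?_ (Finset.sum_le_sum fun i _ => ?_)
      · exact Finset.le_sup (f := fun m => ENNReal.ofReal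
            (M.exJ lam q w0 (sc v ω) m 0 x)) hm
      · exact Finset.le_sup (f := fun m => ENNReal.ofReal
            (M.exJ lam q w0 (sc v ω) m (i + 1) x)) hm
    refine (lintegral_mono h1).trans ?_
    rw [lintegral_add_left (LPPc_measurable_sup M lam q v w0 K 0 x),
      lintegral_finsetSum _ (fun i _ => LPPc_measurable_sup M lam q v w0 K (i + 1) x)]
    have h4 : ∀ i ∈ Finset.range K, ∫⁻ ω, (Finset.range (K + 1)).sup (fun m => ENNReal.ofReal
            (M.exJ lam q w0 (sc v ω) m (i + 1) x)) ∂(PI (nz S)) ≤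
        ENNReal.ofReal (∑ z, w0 z * k i z x) := fun i hi =>
      (hk i (Finset.mem_range.1 hi)).2.2 w0 hw1 x
    refine (add_le_add (cell_zero M lam q v hl hv K hK w0 hw1 x) (Finset.sum_le_sum h4)).trans ?_
    rw [← ENNReal.ofReal_sum_of_nonneg (fun i hi => Finset.sum_nonneg fun z _ =>
        mul_nonneg (hw00 z) (hk0 i hi z x)), ← ENNReal.ofReal_add
      (mul_nonneg (by positivity) (hw00 x)) (Finset.sum_nonneg fun i hi =>
        Finset.sum_nonneg fun z _ => mul_nonneg (hw00 z) (hk0 i hi z x))]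
    apply ENNReal.ofReal_le_ofReal
    apply le_of_eq
    simp only [mul_add, Finset.sum_add_distrib, Finset.mul_sum]
    rw [Finset.sum_comm (s := Finset.range K)]
    congr 1
    rw [Finset.sum_eq_single x (fun z _ hz => by simp [hz]) (fun h => absurd (Finset.mem_univ x) h)]
    simp only [if_true]
    ring

end DynC

end

/-! ### from `Lib_MP_36b788c.LPPd` -/

section

/-!
# Last passage functional: exponential moments for all times

PROOF. `λ0` from `eps_small` with `e = e^{-16}/64`. `K = ⌊1/(λ0² v)⌋ ≥ 1` (as `v ≤ 1/λ0²`), `K ≥ 1/(2 λ0² v)`. `a_c = sup_x E exp(λ0 lppM_{cK}(x))`, `a_0 = 1`.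
`lppM_succ` and `exp(λ max(A,B)) ≤ e^{λA} + e^{λB}`; the second part is estimated by `cell_all` after Tonelli (`lintegral_glue (cK)`,
the initial field of the cell is `lpp_{cK}`, which depends on the first `cK` steps, `lpp ≤ lppM`), so
`a_{c+1} ≤ a_c + (4e^8+e^48) a_c`. Hence `a_c ≤ (1+4e^8+e^{48})^c` and `n ≤ cK` with `c = ⌈n/K⌉ ≤ 2λ0² v n + 1`.
`lpp_exp_small`: Jensen (`x ↦ x^{t}` concave for `t = λ/λ0 ≤ 1`; `ENNReal.lintegral_rpow_le` type inequality on a probability space).
`lpp_tail`: Markov.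
-/

open MeasureTheory ProbabilityTheory
open scoped ENNReal

namespace DynC

private theorem LPPd_measurable_sc {S : Type} [Fintype S] (v : ℝ) :
    Measurable (fun ω : ℕ → S → ℝ => sc v ω) := by
  unfold sc
  fun_prop

private theorem LPPd_measurable_glue_part {S : Type} [Fintype S] {D : ℕ} (M : MSet S D)
    (q v : ℝ) (n K : ℕ) (x : S) :
    Measurable (fun ω : ℕ → S → ℝ => M.lppM q (M.lpp q (fun _ => 0) (sc v ω) n)
      (fun j => sc v ω (n + j)) K x) := by
  have h : (fun ω : ℕ → S → ℝ => M.lppM q (M.lpp q (fun _ => 0) (sc v ω) n)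
      (fun j => sc v ω (n + j)) K x) = fun ω => (Finset.range (K + 1)).sup'
        ⟨0, Finset.mem_range.mpr (Nat.succ_pos K)⟩
        (fun m => M.lpp q (fun _ => 0) (sc v ω) (n + m) x) := by
    funext ω
    unfold MSet.lppM
    congr 1
    funext m
    rw [lpp_shift]
  rw [h]
  have h2 := Finset.measurable_sup' (s := Finset.range (K + 1))
    ⟨0, Finset.mem_range.mpr (Nat.succ_pos K)⟩
    (f := fun m (ω : ℕ → S → ℝ) => M.lpp q (fun _ => 0) (sc v ω) (n + m) x)
    (fun m _ => (measurable_lpp M q (fun _ => 0) (n + m) x).comp (LPPd_measurable_sc v))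
  have h3 : (fun ω : ℕ → S → ℝ => (Finset.range (K + 1)).sup'
        ⟨0, Finset.mem_range.mpr (Nat.succ_pos K)⟩
        (fun m => M.lpp q (fun _ => 0) (sc v ω) (n + m) x)) =
      (Finset.range (K + 1)).sup' ⟨0, Finset.mem_range.mpr (Nat.succ_pos K)⟩
        (fun m (ω : ℕ → S → ℝ) => M.lpp q (fun _ => 0) (sc v ω) (n + m) x) := by
    funext ω
    rw [Finset.sup'_apply]
  rw [h3]
  exact h2

private theorem LPPd_sc_glue {S : Type} [Fintype S] (v : ℝ) (n : ℕ) (a b : ℕ → S → ℝ) :
    (∀ j, j < n → sc v (glue n a b) j = sc v a j) ∧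
      (fun j => sc v (glue n a b) (n + j)) = sc v b := by
  constructor
  · intro j hj
    funext x
    simp [sc, glue, hj]
  · funext j x
    simp [sc, glue]

private theorem LPPd_core {S : Type} [Fintype S] {D : ℕ} (M : MSet S D) (lam q v e : ℝ)
    (hl : 0 < lam) (hv : 0 < v) (he0 : 0 ≤ e)
    (he : ∀ x, ∑ y, Real.exp (-(lam * q * max (M.dd y x : ℝ) 1)) ≤ e)
    (he1 : e ≤ Real.exp (-16) / 64) (K : ℕ) (hK : lam ^ 2 * v * K ≤ 1) (c : ℕ) :
    ∀ x : S, ∫⁻ ω, ENNReal.ofReal (Real.exp (lam * M.lppM q (fun _ => 0) (sc v ω) (c * K) x))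
      ∂(PI (nz S)) ≤ ENNReal.ofReal ((1 + (4 * Real.exp 8 + Real.exp 48)) ^ c) := by
  induction c with
  | zero =>
    intro x
    simp [MSet.lppM, MSet.lpp]
  | succ c ih =>
    intro x
    obtain ⟨k, hk0, hk1, hk2⟩ := cell_all M lam q v e hl hv he0 he he1 K hK
    set B : ℝ := 4 * Real.exp 8 + Real.exp 48 with hB
    have hBpos : 0 < B := by positivity
    have hmA : Measurable (fun ω : ℕ → S → ℝ => ENNReal.ofReal
        (Real.exp (lam * M.lppM q (fun _ => 0) (sc v ω) (c * K) x))) :=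
      (((measurable_lppM M q (fun _ => 0) (c * K) x).comp
        (LPPd_measurable_sc v)).const_mul lam).exp.ennreal_ofReal
    have hmB : Measurable (fun ω : ℕ → S → ℝ => ENNReal.ofReal
        (Real.exp (lam * M.lppM q (M.lpp q (fun _ => 0) (sc v ω) (c * K))
          (fun j => sc v ω (c * K + j)) K x))) :=
      ((LPPd_measurable_glue_part M q v (c * K) K x).const_mul lam).exp.ennreal_ofReal
    have h1 : ∫⁻ ω, ENNReal.ofReal (Real.exp (lam * M.lppM q (fun _ => 0) (sc v ω)
          ((c + 1) * K) x)) ∂(PI (nz S)) ≤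
        ∫⁻ ω, (ENNReal.ofReal (Real.exp (lam * M.lppM q (fun _ => 0) (sc v ω) (c * K) x)) +
          ENNReal.ofReal (Real.exp (lam * M.lppM q (M.lpp q (fun _ => 0) (sc v ω) (c * K))
            (fun j => sc v ω (c * K + j)) K x))) ∂(PI (nz S)) := by
      apply lintegral_mono
      intro ω
      dsimp only
      rw [show (c + 1) * K = c * K + K by ring, lppM_succ]
      rcases le_total (M.lppM q (fun _ => 0) (sc v ω) (c * K) x)
        (M.lppM q (M.lpp q (fun _ => 0) (sc v ω) (c * K)) (fun j => sc v ω (c * K + j)) K x)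
        with h | h
      · rw [max_eq_right h]
        exact le_add_self
      · rw [max_eq_left h]
        exact le_self_add
    have h2 : ∫⁻ ω, ENNReal.ofReal (Real.exp (lam * M.lppM q (M.lpp q (fun _ => 0) (sc v ω)
          (c * K)) (fun j => sc v ω (c * K + j)) K x)) ∂(PI (nz S)) ≤
        ENNReal.ofReal (B * (1 + B) ^ c) := by
      rw [lintegral_glue (c * K) _ hmB]
      have h3 : ∀ a : ℕ → S → ℝ, ∫⁻ b, ENNReal.ofReal (Real.exp (lam * M.lppM q
          (M.lpp q (fun _ => 0) (sc v (glue (c * K) a b)) (c * K))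
          (fun j => sc v (glue (c * K) a b) (c * K + j)) K x)) ∂(PI (nz S)) ≤
          ENNReal.ofReal (∑ z, Real.exp (lam * M.lpp q (fun _ => 0) (sc v a) (c * K) z)
            * k z x) := by
        intro a
        have h4 : ∀ b : ℕ → S → ℝ, M.lppM q
          (M.lpp q (fun _ => 0) (sc v (glue (c * K) a b)) (c * K))
          (fun j => sc v (glue (c * K) a b) (c * K + j)) K x =
            M.lppM q (M.lpp q (fun _ => 0) (sc v a) (c * K)) (sc v b) K x := by
          intro b
          rw [(LPPd_sc_glue v (c * K) a b).2, lpp_congr M q (fun _ => 0) _ _ (c * K)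
            (LPPd_sc_glue v (c * K) a b).1]
        simp_rw [h4]
        exact hk2 _ (fun z => lpp_nonneg M q _ (fun _ => le_refl 0) _ _ z) x
      refine (lintegral_mono h3).trans ?_
      have h5 : ∀ a : ℕ → S → ℝ, ENNReal.ofReal (∑ z, Real.exp (lam *
          M.lpp q (fun _ => 0) (sc v a) (c * K) z) * k z x) =
          ∑ z, ENNReal.ofReal (k z x) * ENNReal.ofReal (Real.exp (lam *
          M.lpp q (fun _ => 0) (sc v a) (c * K) z)) := by
        intro a
        rw [ENNReal.ofReal_sum_of_nonneg (fun z _ => mul_nonneg (Real.exp_pos _).le (hk0 z x))]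
        refine Finset.sum_congr rfl fun z _ => ?_
        rw [mul_comm, ENNReal.ofReal_mul (hk0 z x)]
      simp_rw [h5]
      rw [lintegral_finsetSum]
      · have h6 : ∀ z ∈ (Finset.univ : Finset S), ∫⁻ a, ENNReal.ofReal (k z x) *
            ENNReal.ofReal (Real.exp (lam * M.lpp q (fun _ => 0) (sc v a) (c * K) z))
            ∂(PI (nz S)) ≤ ENNReal.ofReal (k z x) * ENNReal.ofReal ((1 + B) ^ c) := by
          intro z _
          rw [lintegral_const_mul]
          · gcongr
            refine le_trans (lintegral_mono fun a => ?_) (ih z)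
            apply ENNReal.ofReal_le_ofReal
            apply Real.exp_le_exp.2
            apply mul_le_mul_of_nonneg_left _ hl.le
            exact le_lppM M q _ _ (le_refl _) z
          · exact (((measurable_lpp M q (fun _ => 0) (c * K) z).comp
              (LPPd_measurable_sc v)).const_mul lam).exp.ennreal_ofReal
        refine (Finset.sum_le_sum h6).trans ?_
        rw [← Finset.sum_mul, ← ENNReal.ofReal_sum_of_nonneg (fun z _ => hk0 z x),
          ← ENNReal.ofReal_mul (Finset.sum_nonneg fun z _ => hk0 z x)]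
        apply ENNReal.ofReal_le_ofReal
        gcongr
        exact hk1 x
      · intro z _
        exact Measurable.const_mul (((measurable_lpp M q (fun _ => 0) (c * K) z).comp
              (LPPd_measurable_sc v)).const_mul lam).exp.ennreal_ofReal _
    refine h1.trans ?_
    rw [lintegral_add_left hmA]
    refine (add_le_add (ih x) h2).trans ?_
    rw [← ENNReal.ofReal_add (by positivity) (by positivity)]
    apply ENNReal.ofReal_le_ofReal
    apply le_of_eq
    ring

private theorem LPPd_lppM_mono {S : Type} [Fintype S] {D : ℕ} (M : MSet S D) (q : ℝ)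
    (W0 : S → ℝ) (g : ℕ → S → ℝ) {m n : ℕ} (h : m ≤ n) (x : S) :
    M.lppM q W0 g m x ≤ M.lppM q W0 g n x := by
  unfold MSet.lppM
  apply Finset.sup'_le
  intro i hi
  exact Finset.le_sup' (fun m => M.lpp q W0 g m x)
    (Finset.mem_range.mpr (lt_of_lt_of_le (Finset.mem_range.mp hi) (Nat.succ_le_succ h)))

/-- Jensen for a power `t ∈ (0,1]` on a probability space. -/
private theorem LPPd_jensen {Ω : Type*} [MeasurableSpace Ω] (μ : Measure Ω)
    [IsProbabilityMeasure μ] (X : Ω → ℝ) (hX : Measurable X) (t : ℝ) (h0 : 0 < t) (h1 : t ≤ 1) :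
    ∫⁻ ω, ENNReal.ofReal (Real.exp (t * X ω)) ∂μ ≤
      (∫⁻ ω, ENNReal.ofReal (Real.exp (X ω)) ∂μ) ^ t := by
  have h := eLpNorm'_le_eLpNorm'_of_exponent_le h0 h1 μ
    (f := fun ω => Real.exp (X ω)) hX.exp.aestronglyMeasurable
  unfold eLpNorm' at h
  have e1 : ∀ ω, ‖Real.exp (X ω)‖ₑ ^ t = ENNReal.ofReal (Real.exp (t * X ω)) := by
    intro ω
    rw [Real.enorm_eq_ofReal (Real.exp_pos _).le,
      ENNReal.ofReal_rpow_of_nonneg (Real.exp_pos _).le h0.le, ← Real.exp_mul, mul_comm]
  have e2 : ∀ ω, ‖Real.exp (X ω)‖ₑ ^ (1 : ℝ) = ENNReal.ofReal (Real.exp (X ω)) := by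
    intro ω
    rw [Real.enorm_eq_ofReal (Real.exp_pos _).le, ENNReal.rpow_one]
  simp_rw [e1, e2] at h
  rw [div_one, ENNReal.rpow_one] at h
  have h3 := ENNReal.rpow_le_rpow h h0.le
  rwa [← ENNReal.rpow_mul, one_div, inv_mul_cancel₀ h0.ne', ENNReal.rpow_one] at h3

theorem lpp_exp (D : ℕ) (q : ℝ) (hq : 0 < q) : ∃ lam0 C : ℝ, 0 < lam0 ∧ 0 < C ∧
    ∀ (S : Type) [Fintype S] (M : MSet S D) (v : ℝ), 0 < v → v ≤ 1 / lam0 ^ 2 →
      ∀ (n : ℕ) (x : S) (lam : ℝ), 0 ≤ lam → lam ≤ lam0 →
        ∫⁻ ω, ENNReal.ofReal (Real.exp (lam * M.lppM q (fun _ => 0) (sc v ω) n x)) ∂(PI (nz S))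
          ≤ ENNReal.ofReal (Real.exp (C * (n * v + 1) * lam)) := by
  obtain ⟨L0, hL0, hL⟩ := eps_small D q hq (Real.exp (-16) / 64) (by positivity)
  set B : ℝ := 1 + (4 * Real.exp 8 + Real.exp 48) with hB
  have hB1 : 1 < B := by
    have := Real.exp_pos 8
    have := Real.exp_pos 48
    linarith
  have hlogB : 0 < Real.log B := Real.log_pos hB1
  refine ⟨L0, (2 * L0 ^ 2 + 1) * Real.log B / L0, hL0, by positivity, ?_⟩
  intro S _ M v hv hvL n x lam hl0 hl1
  rcases hl0.eq_or_lt with rfl | hlpos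
  · simp
  -- number of steps of a cell
  set y : ℝ := 1 / (L0 ^ 2 * v) with hy
  have hL2v : 0 < L0 ^ 2 * v := by positivity
  have hy1 : 1 ≤ y := by
    rw [hy, le_div_iff₀ hL2v, one_mul]
    rw [le_div_iff₀ (by positivity)] at hvL
    linarith
  set K : ℕ := ⌊y⌋₊ with hKdef
  have hK1 : 1 ≤ K := Nat.one_le_floor_iff y |>.2 hy1
  have hKy : (K : ℝ) ≤ y := Nat.floor_le (by linarith)
  have hKpos : (0 : ℝ) < K := by exact_mod_cast hK1
  have hK : L0 ^ 2 * v * K ≤ 1 := by
    calc L0 ^ 2 * v * K ≤ L0 ^ 2 * v * y := by gcongr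
      _ = 1 := by rw [hy]; field_simp
  have hK2 : y ≤ 2 * K := by
    have h1 : y < K + 1 := Nat.lt_floor_add_one y
    have h2 : (1 : ℝ) ≤ K := by exact_mod_cast hK1
    linarith
  set c : ℕ := ⌈(n : ℝ) / K⌉₊ with hc
  have hcK : n ≤ c * K := by
    have h1 : (n : ℝ) / K ≤ c := Nat.le_ceil _
    rw [div_le_iff₀ hKpos] at h1
    exact_mod_cast h1
  have hc1 : (c : ℝ) ≤ 2 * L0 ^ 2 * v * n + 1 := by
    have h1 : (c : ℝ) < (n : ℝ) / K + 1 := Nat.ceil_lt_add_one (by positivity)
    have h2 : (n : ℝ) / K ≤ 2 * L0 ^ 2 * v * n := by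
      rw [div_le_iff₀ hKpos]
      have h3 : 1 ≤ 2 * L0 ^ 2 * v * K := by
        have h4 : L0 ^ 2 * v * y = 1 := by rw [hy]; field_simp
        have h5 : L0 ^ 2 * v * y ≤ L0 ^ 2 * v * (2 * K) := by gcongr
        linarith
      have h4 : (0 : ℝ) ≤ n := Nat.cast_nonneg n
      calc (n : ℝ) = n * 1 := by ring
        _ ≤ n * (2 * L0 ^ 2 * v * K) := by gcongr
        _ = 2 * L0 ^ 2 * v * n * K := by ring
    linarith
  have hcore := LPPd_core M L0 q v (Real.exp (-16) / 64) hL0 hv (by positivity)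
    (fun z => hL L0 (le_refl _) S M z) (le_refl _) K hK c x
  have hX : Measurable (fun ω : ℕ → S → ℝ => L0 * M.lppM q (fun _ => 0) (sc v ω) n x) :=
    ((measurable_lppM M q (fun _ => 0) n x).comp (LPPd_measurable_sc v)).const_mul L0
  have hj := LPPd_jensen (PI (nz S)) _ hX (lam / L0) (by positivity)
    ((div_le_one hL0).2 hl1)
  have e1 : ∀ ω : ℕ → S → ℝ, lam / L0 * (L0 * M.lppM q (fun _ => 0) (sc v ω) n x) =
      lam * M.lppM q (fun _ => 0) (sc v ω) n x := by
    intro ω
    field_simp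
  simp_rw [e1] at hj
  refine hj.trans ?_
  have h2 : ∫⁻ ω, ENNReal.ofReal (Real.exp (L0 * M.lppM q (fun _ => 0) (sc v ω) n x))
      ∂(PI (nz S)) ≤ ENNReal.ofReal (B ^ c) := by
    refine le_trans (lintegral_mono fun ω => ?_) hcore
    apply ENNReal.ofReal_le_ofReal
    apply Real.exp_le_exp.2
    apply mul_le_mul_of_nonneg_left _ hL0.le
    exact LPPd_lppM_mono M q _ _ hcK x
  have h3 : ENNReal.ofReal (B ^ c) ≤
      ENNReal.ofReal (Real.exp ((2 * L0 ^ 2 * v * n + 1) * Real.log B)) := by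
    apply ENNReal.ofReal_le_ofReal
    have h4 : B ^ c = Real.exp (c * Real.log B) := by
      rw [mul_comm, Real.exp_mul, Real.exp_log (by linarith), Real.rpow_natCast]
    rw [h4]
    apply Real.exp_le_exp.2
    gcongr
  refine (ENNReal.rpow_le_rpow (h2.trans h3) (by positivity)).trans ?_
  rw [ENNReal.ofReal_rpow_of_nonneg (Real.exp_pos _).le (by positivity), ← Real.exp_mul]
  apply ENNReal.ofReal_le_ofReal
  apply Real.exp_le_exp.2
  have h5 : (0 : ℝ) ≤ n := Nat.cast_nonneg n
  have h6 : 2 * L0 ^ 2 * v * n + 1 ≤ (2 * L0 ^ 2 + 1) * (n * v + 1) := by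
    have h7 : 0 ≤ (n : ℝ) * v := by positivity
    have h8 : 0 ≤ L0 ^ 2 := by positivity
    nlinarith only [h7]
  calc (2 * L0 ^ 2 * v * n + 1) * Real.log B * (lam / L0)
      ≤ (2 * L0 ^ 2 + 1) * (n * v + 1) * Real.log B * (lam / L0) := by gcongr
    _ = (2 * L0 ^ 2 + 1) * Real.log B / L0 * (n * v + 1) * lam := by ring

theorem lpp_tail (D : ℕ) (q : ℝ) (hq : 0 < q) : ∃ lam0 C : ℝ, 0 < lam0 ∧ 0 < C ∧
    ∀ (S : Type) [Fintype S] (M : MSet S D) (v : ℝ), 0 < v → v ≤ 1 / lam0 ^ 2 →
      ∀ (n : ℕ) (x : S) (r : ℝ),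
        PI (nz S) {ω | r ≤ M.lppM q (fun _ => 0) (sc v ω) n x}
          ≤ ENNReal.ofReal (Real.exp (C * (n * v + 1) - lam0 * r)) := by
  obtain ⟨lam0, C, h0, hC, h⟩ := lpp_exp D q hq
  refine ⟨lam0, C * lam0, h0, by positivity, ?_⟩
  intro S _ M v hv hv1 n x r
  have h1 := h S M v hv hv1 n x lam0 h0.le (le_refl _)
  have hm : Measurable (fun ω : ℕ → S → ℝ => ENNReal.ofReal
      (Real.exp (lam0 * M.lppM q (fun _ => 0) (sc v ω) n x))) :=
    (((measurable_lppM M q (fun _ => 0) n x).comp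
      (LPPd_measurable_sc v)).const_mul lam0).exp.ennreal_ofReal
  have h2 := mul_meas_ge_le_lintegral (μ := PI (nz S)) hm (ENNReal.ofReal (Real.exp (lam0 * r)))
  have h3 : {ω : ℕ → S → ℝ | r ≤ M.lppM q (fun _ => 0) (sc v ω) n x} ⊆
      {ω | ENNReal.ofReal (Real.exp (lam0 * r)) ≤ ENNReal.ofReal
        (Real.exp (lam0 * M.lppM q (fun _ => 0) (sc v ω) n x))} := by
    intro ω hω
    apply ENNReal.ofReal_le_ofReal
    apply Real.exp_le_exp.2
    exact mul_le_mul_of_nonneg_left hω h0.le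
  have h4 : ENNReal.ofReal (Real.exp (lam0 * r)) *
      PI (nz S) {ω | r ≤ M.lppM q (fun _ => 0) (sc v ω) n x} ≤
      ENNReal.ofReal (Real.exp (C * (n * v + 1) * lam0)) :=
    (mul_le_mul' le_rfl (measure_mono h3)).trans (h2.trans h1)
  have hpos : ENNReal.ofReal (Real.exp (lam0 * r)) ≠ 0 := by
    rw [Ne, ENNReal.ofReal_eq_zero, not_le]
    exact Real.exp_pos _
  rw [mul_comm, ← ENNReal.le_div_iff_mul_le (Or.inl hpos) (Or.inl ENNReal.ofReal_ne_top)] at h4
  refine h4.trans (le_of_eq ?_)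
  rw [← ENNReal.ofReal_div_of_pos (Real.exp_pos _), ← Real.exp_sub]
  congr 2
  ring

private theorem LPPd_neg_nz (S : Type) [Fintype S] :
    (nz S).map (fun g : S → ℝ => -g) = nz S := by
  unfold nz
  have h : (fun g : S → ℝ => -g) = fun g i => (fun y : ℝ => -y) (g i) := by
    funext g i
    rfl
  rw [h, Measure.pi_map_pi (f := fun _ y => -y) (fun _ => measurable_neg.aemeasurable)]
  congr 1
  funext i
  rw [gaussianReal_map_neg, neg_zero]

/-- the same for the reflected noise `-ω` -/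
theorem lpp_tail_neg (D : ℕ) (q : ℝ) (hq : 0 < q) : ∃ lam0 C : ℝ, 0 < lam0 ∧ 0 < C ∧
    ∀ (S : Type) [Fintype S] (M : MSet S D) (v : ℝ), 0 < v → v ≤ 1 / lam0 ^ 2 →
      ∀ (n : ℕ) (x : S) (r : ℝ),
        PI (nz S) {ω | r ≤ M.lppM q (fun _ => 0) (sc v (-ω)) n x}
          ≤ ENNReal.ofReal (Real.exp (C * (n * v + 1) - lam0 * r)) := by
  obtain ⟨lam0, C, h0, hC, h⟩ := lpp_tail D q hq
  refine ⟨lam0, C, h0, hC, ?_⟩
  intro S _ M v hv hv1 n x r
  have h1 := h S M v hv hv1 n x r
  have hmeas : Measurable (fun g : S → ℝ => -g) := measurable_neg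
  have : IsProbabilityMeasure ((nz S).map (fun g : S → ℝ => -g)) := by
    rw [LPPd_neg_nz]
    infer_instance
  have hmap := PI_map (μ := nz S) (fun g : S → ℝ => -g) hmeas
  have hset : MeasurableSet {ω : ℕ → S → ℝ | r ≤ M.lppM q (fun _ => 0) (sc v ω) n x} :=
    measurableSet_le measurable_const
      ((measurable_lppM M q (fun _ => 0) n x).comp (LPPd_measurable_sc v))
  have hneg : Measurable (fun (ω : ℕ → S → ℝ) i => -(ω i)) := by fun_prop
  have h2 : (PI (nz S)).map (fun (ω : ℕ → S → ℝ) i => -(ω i)) = PI (nz S) := by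
    rw [hmap]
    unfold PI
    congr 1
    funext i
    exact LPPd_neg_nz S
  have h3 : PI (nz S) {ω : ℕ → S → ℝ | r ≤ M.lppM q (fun _ => 0) (sc v ω) n x} =
      PI (nz S) {ω : ℕ → S → ℝ | r ≤ M.lppM q (fun _ => 0) (sc v (-ω)) n x} := by
    conv_lhs => rw [← h2]
    rw [Measure.map_apply hneg hset]
    rfl
  rw [← h3]
  exact h1

end DynC

end

/-! ### from `Lib_MP_36b788c.ME2a` -/

section

/-!
# Random walk estimates for the main estimate, `N = 2`

Walk with steps `√v ω_j`, `m` steps, `v m ∈ [T0/2, 2 T0]`, `T0 = c n²`, `c = 1/2^{20}`.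

PROOF.
* `indep_sites`: for finitely many distinct sites the path noises at the sites are independent with law `PI (gaussianReal 0 1)`. (Both sides are product measures; π-system of cylinders, or: `PI (Measure.pi μ)` is the image of `Measure.pi (fun x => PI μ)` under the transposition `(x ↦ (j ↦ ω)) ↦ (j ↦ (x ↦ ω))`: uniqueness `Measure.eq_infinitePi`, then `Measure.pi_pi`.)
* `walk_up`: `E = {Σ_{j<m} √v ω_j ≥ 2n, Σ_{[j,m)} √v ω ≥ -n/16 for all j ≤ m}`. Shift every step by `b = 4n/(m √v)` (`shift_lintegral` with one site): `P(E) = E[1_E(ω + b) exp(-b Σω_j - m b²/2)]`. On `A = {|Σ_{[i,j)} √v ω| ≤ n/16 for all i ≤ j ≤ m}`, `ω + b ∈ E` (`4n - n/16 ≥ 2n`), `b Σω_j ≤ (4n/(m v)) n/16 ≤ 1/(2c)`, `m b² = 16 n²/(m v) ≤ 32/c`. `P(A^c) ≤ P(osc > n/16) ≤ 4·e^{…} ≤ 1/2` by `osc_exp` with `s = 64/n`: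
  `4 exp(8 s² v m·… - 4) ≤ 1/2` since `s² v m ≤ 64² · 2c` is tiny. (`osc_exp` has its own constants: `c = 2^{-20}` is more than enough.)
* `walk_mom`: `t² ≤ 2 n² e^{t/n}` for `t ≥ 0`, so `E[(osc+1)² e^{2a(osc+1)}] ≤ 2n² E e^{(2a+1/n)(osc+1)}`, `a ≤ 1/n`, `osc_exp` with `s = 2a + 1/n ≤ 3/n`, `s² v m ≤ 18c`.
-/

open MeasureTheory ProbabilityTheory
open scoped ENNReal

namespace DynC

private theorem ME2a_transp {S : Type} [Fintype S] (γ : Measure ℝ) [IsProbabilityMeasure γ] :
    (Measure.infinitePi fun _ : ℕ => Measure.pi fun _ : S => γ).map (fun ω w j => ω j w) =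
      Measure.pi fun _ : S => Measure.infinitePi fun _ : ℕ => γ := by
  have e1 : (fun _ : ℕ => Measure.pi fun _ : S => γ) =
      fun _ : ℕ => Measure.infinitePi fun _ : S => γ := by
    funext i
    rw [Measure.infinitePi_eq_pi]
  have hT : Measurable (fun (ω : ℕ → S → ℝ) (w : S) (j : ℕ) => ω j w) :=
    measurable_pi_lambda _ fun w => measurable_pi_lambda _ fun j =>
      (measurable_pi_apply w).comp (measurable_pi_apply j)
  have c1 := Measure.infinitePi_map_curry (ι := ℕ) (κ := S) (X := ℝ) (fun _ _ => γ)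
  have c2 := Measure.infinitePi_map_curry (ι := S) (κ := ℕ) (X := ℝ) (fun _ _ => γ)
  have c3 := Measure.infinitePi_map_piCongrLeft (fun _ : S × ℕ => γ) (Equiv.prodComm ℕ S)
  rw [e1, ← c1, ← Measure.infinitePi_eq_pi, ← c2, ← c3, Measure.map_map hT (MeasurableEquiv.measurable _),
    Measure.map_map (MeasurableEquiv.measurable _) (MeasurableEquiv.measurable _)]
  congr 1

theorem indep_sites {S : Type} [Fintype S] (A : Finset S) (E : S → Set (ℕ → ℝ))
    (hE : ∀ w, MeasurableSet (E w)) :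
    PI (nz S) {ω | ∀ w ∈ A, (fun j => ω j w) ∈ E w} =
      ∏ w ∈ A, PI (gaussianReal 0 1) (E w) := by
  classical
  have hT : Measurable (fun (ω : ℕ → S → ℝ) (w : S) (j : ℕ) => ω j w) :=
    measurable_pi_lambda _ fun w => measurable_pi_lambda _ fun j =>
      (measurable_pi_apply w).comp (measurable_pi_apply j)
  set B : S → Set (ℕ → ℝ) := fun w => if w ∈ A then E w else Set.univ with hB
  have hBm : ∀ w, MeasurableSet (B w) := by
    intro w
    rw [hB]
    dsimp only
    split_ifs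
    · exact hE w
    · exact MeasurableSet.univ
  have h1 : {ω : ℕ → S → ℝ | ∀ w ∈ A, (fun j => ω j w) ∈ E w} =
      (fun (ω : ℕ → S → ℝ) (w : S) (j : ℕ) => ω j w) ⁻¹' (Set.univ.pi B) := by
    ext ω
    simp only [Set.mem_ofPred_eq, Set.mem_preimage, Set.mem_pi, Set.mem_univ, forall_true_left, hB]
    constructor
    · intro h w
      split_ifs with hw
      · exact h w hw
      · trivial
    · intro h w hw
      have := h w
      rwa [if_pos hw] at this
  rw [h1, ← Measure.map_apply hT (MeasurableSet.univ_pi hBm)]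
  have h2 := ME2a_transp (S := S) (gaussianReal 0 1)
  unfold PI nz
  rw [h2, Measure.pi_pi]
  have h3 : ∀ w : S, (Measure.infinitePi fun _ : ℕ => gaussianReal 0 1) (B w) =
      if w ∈ A then (Measure.infinitePi fun _ : ℕ => gaussianReal 0 1) (E w) else 1 := by
    intro w
    rw [hB]
    dsimp only
    split_ifs
    · rfl
    · exact measure_univ
  rw [Finset.prod_congr rfl fun w _ => h3 w, Finset.prod_ite_mem, Finset.univ_inter]

private theorem ME2a_unit : (PI (nz Unit)).map (fun (ω : ℕ → Unit → ℝ) (j : ℕ) => ω j ()) =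
    PI (gaussianReal 0 1) := by
  have h1 : (nz Unit).map (fun a : Unit → ℝ => a ()) = gaussianReal 0 1 :=
    (measurePreserving_eval (fun _ : Unit => gaussianReal 0 1) ()).map_eq
  have h2 := Measure.infinitePi_map_pi (fun _ : ℕ => nz Unit)
    (f := fun _ (a : Unit → ℝ) => a ()) (fun _ => measurable_pi_apply ())
  unfold PI
  rw [h2]
  congr 1
  funext i
  exact h1

private theorem ME2a_meas : Measurable (fun (ω : ℕ → Unit → ℝ) (j : ℕ) => ω j ()) :=
  measurable_pi_lambda _ fun j => (measurable_pi_apply ()).comp (measurable_pi_apply j)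

theorem walk_up : ∃ p1 : ℝ, 0 < p1 ∧ p1 < 1 ∧ ∀ (n : ℕ), 1 ≤ n → ∀ (v : ℝ) (m : ℕ), 0 < v →
    (n : ℝ) ^ 2 / 2 ^ 21 ≤ v * m → v * m ≤ (n : ℝ) ^ 2 / 2 ^ 19 →
    ENNReal.ofReal p1 ≤ PI (gaussianReal 0 1) {ω | 2 * n ≤ ∑ j ∈ Finset.range m, Real.sqrt v * ω j ∧
      ∀ j, j ≤ m → -(n / 16 : ℝ) ≤ ∑ l ∈ Finset.Ico j m, Real.sqrt v * ω l} := by
  refine ⟨Real.exp (-(2 ^ 19 + 2 ^ 24)) / 2, by positivity, ?_, ?_⟩
  · have h1 : Real.exp (-(2 ^ 19 + 2 ^ 24)) < Real.exp 0 := Real.exp_lt_exp.2 (by norm_num)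
    rw [Real.exp_zero] at h1
    exact (half_lt_self (Real.exp_pos _)).trans h1
  intro n hn v m hv hlo hhi
  have hn' : (1 : ℝ) ≤ n := by exact_mod_cast hn
  have hn0 : (0 : ℝ) < n := by linarith
  have hvm : 0 < v * m := lt_of_lt_of_le (by positivity) hlo
  have hm0 : (0 : ℝ) < m := by
    rcases (Nat.cast_nonneg (α := ℝ) m).lt_or_eq with h | h
    · exact h
    · rw [← h, mul_zero] at hvm
      exact absurd hvm (lt_irrefl _)
  have hm : 0 < m := by exact_mod_cast hm0
  set E : Set (ℕ → ℝ) := {ω | 2 * n ≤ ∑ j ∈ Finset.range m, Real.sqrt v * ω j ∧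
      ∀ j, j ≤ m → -(n / 16 : ℝ) ≤ ∑ l ∈ Finset.Ico j m, Real.sqrt v * ω l} with hE
  have hEm : MeasurableSet E := by
    have h1 : E = {ω | (2 * n : ℝ) ≤ ∑ j ∈ Finset.range m, Real.sqrt v * ω j} ∩
        ⋂ j : ℕ, {ω | j ≤ m → -(n / 16 : ℝ) ≤ ∑ l ∈ Finset.Ico j m, Real.sqrt v * ω l} := by
      ext ω
      simp [hE]
    rw [h1]
    refine (measurableSet_le measurable_const (by fun_prop)).inter (MeasurableSet.iInter fun j => ?_)
    by_cases hj : j ≤ m
    · simp only [hj, forall_true_left]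
      exact measurableSet_le measurable_const (by fun_prop)
    · simp [hj]
  rw [← ME2a_unit, Measure.map_apply ME2a_meas hEm]
  set E' : Set (ℕ → Unit → ℝ) := (fun (ω : ℕ → Unit → ℝ) (j : ℕ) => ω j ()) ⁻¹' E with hE'
  have hEm' : MeasurableSet E' := ME2a_meas hEm
  -- the shift
  have hsv : 0 < Real.sqrt v := Real.sqrt_pos.2 hv
  have hsv2 : Real.sqrt v * Real.sqrt v = v := Real.mul_self_sqrt hv.le
  set b : ℝ := 4 * n / (m * Real.sqrt v) with hb
  have hb0 : 0 < b := by positivity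
  let w : ℕ → (ℕ → Unit → ℝ) → Unit → ℝ := fun j _ _ => if j < m then b else 0
  have hsh := shift_lintegral (ι := Unit) (γ := gaussianReal 0 1) cmart_real m w
    (fun j => measurable_const) (fun j a a' _ => rfl)
    (fun j hj ω => by
      funext x
      simp only [w, if_neg (not_lt.2 hj)]
      rfl)
    (E'.indicator fun _ => 1) (measurable_const.indicator hEm')
  have hPE : ∫⁻ ω, E'.indicator (fun _ => (1 : ℝ≥0∞)) ω ∂(PI (Measure.pi fun _ : Unit => gaussianReal 0 1)) =
      PI (nz Unit) E' := by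
    rw [lintegral_indicator hEm', lintegral_const, Measure.restrict_apply_univ, one_mul]
    rfl
  rw [hPE] at hsh
  rw [← hsh]
  -- the good event
  set A : Set (ℕ → Unit → ℝ) := {ω | (n : ℝ) / 16 ≤ osc (fun j => sc v ω j ()) m}ᶜ with hA
  have hAt := osc_tail_nz (S := Unit) v hv m hm () (n / 16) (by positivity)
  have hAt2 : PI (nz Unit) {ω | (n : ℝ) / 16 ≤ osc (fun j => sc v ω j ()) m} ≤
      ENNReal.ofReal (1 / 2) := by
    refine hAt.trans (ENNReal.ofReal_le_ofReal ?_)
    have h1 : -((n : ℝ) / 16) ^ 2 / (32 * (v * m)) ≤ -64 := by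
      rw [div_le_iff₀ (by positivity)]
      have : 64 * (32 * (v * m)) ≤ 64 * (32 * ((n : ℝ) ^ 2 / 2 ^ 19)) := by
        refine mul_le_mul_of_nonneg_left (mul_le_mul_of_nonneg_left hhi (by norm_num)) (by norm_num)
      have e : 64 * (32 * ((n : ℝ) ^ 2 / 2 ^ 19)) = ((n : ℝ) / 16) ^ 2 := by ring
      linarith
    have h2 : Real.exp (-((n : ℝ) / 16) ^ 2 / (32 * (v * m))) ≤ Real.exp (-64) :=
      Real.exp_le_exp.2 h1
    have h3 : Real.exp (-64) ≤ 1 / 8 := by
      rw [Real.exp_neg, ← one_div]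
      refine one_div_le_one_div_of_le (by norm_num) ?_
      have := Real.add_one_le_exp (64 : ℝ)
      linarith
    linarith
  have hmA : MeasurableSet {ω : ℕ → Unit → ℝ | (n : ℝ) / 16 ≤ osc (fun j => sc v ω j ()) m} := by
    have h1 : Measurable fun ω : ℕ → Unit → ℝ => osc (fun j => sc v ω j ()) m := by
      unfold osc pmax sc
      refine Measurable.add ?_ ?_
      · refine Finset.measurable_range_sup'' fun k _ => ?_
        refine Finset.measurable_fun_sum _ fun j _ => ?_
        have hj : Measurable fun ω : ℕ → Unit → ℝ => ω j () :=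
          (measurable_pi_apply ()).comp (measurable_pi_apply j)
        exact hj.const_mul _
      · refine Finset.measurable_range_sup'' fun k _ => ?_
        refine Finset.measurable_fun_sum _ fun j _ => ?_
        have hj : Measurable fun ω : ℕ → Unit → ℝ => ω j () :=
          (measurable_pi_apply ()).comp (measurable_pi_apply j)
        exact (hj.const_mul _).neg
    exact measurableSet_le measurable_const h1
  have hPA : ENNReal.ofReal (1 / 2) ≤ PI (nz Unit) A := by
    rw [hA, prob_compl_eq_one_sub hmA]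
    have h1 : (1 : ℝ≥0∞) - ENNReal.ofReal (1 / 2) = ENNReal.ofReal (1 / 2) := by
      rw [← ENNReal.ofReal_one, ← ENNReal.ofReal_sub _ (by norm_num)]
      norm_num
    rw [← h1]
    refine (tsub_le_tsub_left hAt2 _).trans' ?_
    rw [h1]
  have hptw : ∀ ω ∈ A, ENNReal.ofReal (Real.exp (-(2 ^ 19 + 2 ^ 24))) ≤
      E'.indicator (fun _ => (1 : ℝ≥0∞)) (shft w ω) * ENNReal.ofReal (Real.exp (logZ m w ω)) := by
    intro ω hω
    have hosc : osc (fun j => sc v ω j ()) m < n / 16 := not_le.1 hω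
    have hsum : ∀ i j, i ≤ j → j ≤ m → |∑ l ∈ Finset.Ico i j, Real.sqrt v * ω l ()| < n / 16 := by
      intro i j hij hj
      exact (sum_le_osc (fun j => sc v ω j ()) hij hj).trans_lt hosc
    have htot : |∑ l ∈ Finset.range m, Real.sqrt v * ω l ()| < n / 16 := by
      have := hsum 0 m (Nat.zero_le m) le_rfl
      rwa [← Finset.range_eq_Ico] at this
    have hbm : (m : ℝ) * (Real.sqrt v * b) = 4 * n := by
      rw [hb]
      field_simp
    have hmem : shft w ω ∈ E' := by
      rw [hE', Set.mem_preimage, hE, Set.mem_ofPred_eq]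
      constructor
      · have e : ∑ j ∈ Finset.range m, Real.sqrt v * shft w ω j () =
            ∑ j ∈ Finset.range m, Real.sqrt v * ω j () + 4 * n := by
          rw [← hbm]
          have : ∀ j ∈ Finset.range m, Real.sqrt v * shft w ω j () =
              Real.sqrt v * ω j () + Real.sqrt v * b := by
            intro j hj
            simp only [shft, w, if_pos (Finset.mem_range.1 hj)]
            ring
          rw [Finset.sum_congr rfl this, Finset.sum_add_distrib, Finset.sum_const,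
            Finset.card_range, nsmul_eq_mul]
        rw [e]
        have := (abs_lt.1 htot).1
        linarith
      · intro j hj
        have h1 : ∑ l ∈ Finset.Ico j m, Real.sqrt v * ω l () ≤
            ∑ l ∈ Finset.Ico j m, Real.sqrt v * shft w ω l () := by
          refine Finset.sum_le_sum fun l hl => ?_
          refine mul_le_mul_of_nonneg_left ?_ hsv.le
          simp only [shft, w, if_pos (Finset.mem_Ico.1 hl).2]
          linarith
        have h2 := (abs_lt.1 (hsum j m hj le_rfl)).1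
        linarith
    rw [Set.indicator_of_mem hmem, one_mul]
    refine ENNReal.ofReal_le_ofReal (Real.exp_le_exp.2 ?_)
    have e1 : logZ m w ω = -(b * ∑ j ∈ Finset.range m, ω j ()) - m * (b ^ 2 / 2) := by
      unfold logZ
      have : ∀ j ∈ Finset.range m, ∑ x : Unit, (-(inner ℝ (w j ω x) (ω j x)) - ‖w j ω x‖ ^ 2 / 2) =
          -(b * ω j ()) - b ^ 2 / 2 := by
        intro j hj
        simp only [Finset.univ_unique, Finset.sum_singleton, w, if_pos (Finset.mem_range.1 hj)]
        simp [mul_comm]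
      rw [Finset.sum_congr rfl this, Finset.sum_sub_distrib, Finset.sum_neg_distrib,
        Finset.mul_sum, Finset.sum_const, Finset.card_range, nsmul_eq_mul]
    have e2 : b * ∑ j ∈ Finset.range m, ω j () =
        4 * n / (v * m) * ∑ j ∈ Finset.range m, Real.sqrt v * ω j () := by
      have hb' : b = 4 * n / (v * m) * Real.sqrt v := by
        rw [hb]
        nth_rewrite 2 [← hsv2]
        field_simp
      rw [← Finset.mul_sum, hb']
      ring
    have e3 : (m : ℝ) * (b ^ 2 / 2) = 8 * n ^ 2 / (v * m) := by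
      have hb2 : b ^ 2 = 16 * n ^ 2 / (m ^ 2 * v) := by
        rw [hb, div_pow, mul_pow, mul_pow, Real.sq_sqrt hv.le]
        norm_num
      rw [hb2]
      field_simp
      ring
    have h4 : 4 * (n : ℝ) / (v * m) * ∑ j ∈ Finset.range m, Real.sqrt v * ω j () ≤
        4 * n / (v * m) * (n / 16) :=
      mul_le_mul_of_nonneg_left (abs_lt.1 htot).2.le (by positivity)
    have h5 : (n : ℝ) ^ 2 / (v * m) ≤ 2 ^ 21 := by
      rw [div_le_iff₀ hvm]
      have := (div_le_iff₀ (by norm_num : (0 : ℝ) < 2 ^ 21)).1 hlo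
      linarith
    have h6 : 4 * (n : ℝ) / (v * m) * (n / 16) = (n ^ 2 / (v * m)) / 4 := by ring
    have h7 : 8 * (n : ℝ) ^ 2 / (v * m) = 8 * (n ^ 2 / (v * m)) := by ring
    rw [e1, e2, e3, h7]
    rw [h6] at h4
    linarith only [h4, h5]
  calc ENNReal.ofReal (Real.exp (-(2 ^ 19 + 2 ^ 24)) / 2)
      = ENNReal.ofReal (Real.exp (-(2 ^ 19 + 2 ^ 24))) * ENNReal.ofReal (1 / 2) := by
        rw [← ENNReal.ofReal_mul (Real.exp_pos _).le]
        congr 1
        ring
    _ ≤ ENNReal.ofReal (Real.exp (-(2 ^ 19 + 2 ^ 24))) * PI (nz Unit) A := by gcongr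
    _ = ∫⁻ ω in A, ENNReal.ofReal (Real.exp (-(2 ^ 19 + 2 ^ 24))) ∂(PI (nz Unit)) := by
        rw [setLIntegral_const]
    _ ≤ ∫⁻ ω in A, E'.indicator (fun _ => (1 : ℝ≥0∞)) (shft w ω) *
          ENNReal.ofReal (Real.exp (logZ m w ω)) ∂(PI (nz Unit)) :=
        setLIntegral_mono' hmA.compl hptw
    _ ≤ ∫⁻ ω, E'.indicator (fun _ => (1 : ℝ≥0∞)) (shft w ω) *
          ENNReal.ofReal (Real.exp (logZ m w ω)) ∂(PI (nz Unit)) := setLIntegral_le_lintegral _ _
    _ = _ := rfl

theorem walk_mom : ∃ C : ℝ, 1 ≤ C ∧ ∀ (n : ℕ), 1 ≤ n → ∀ (v : ℝ) (m : ℕ), 0 < v →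
    v * m ≤ (n : ℝ) ^ 2 / 2 ^ 19 → ∀ a : ℝ, 0 < a → a ≤ 1 / n →
    ∫⁻ ω, ENNReal.ofReal ((osc (fun j => Real.sqrt v * ω j) m + 1) ^ 2 *
        Real.exp (2 * a * (osc (fun j => Real.sqrt v * ω j) m + 1))) ∂(PI (gaussianReal 0 1)) ≤
      ENNReal.ofReal (C * n ^ 2) := by
  refine ⟨8 * Real.exp 4, ?_, ?_⟩
  · have := Real.one_le_exp (by norm_num : (0 : ℝ) ≤ 4)
    linarith
  intro n hn v m hv hvm a ha han
  have hn' : (1 : ℝ) ≤ n := by exact_mod_cast hn
  have hn0 : (0 : ℝ) < n := by linarith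
  have hmo : Measurable fun ω : ℕ → ℝ => osc (fun j => Real.sqrt v * ω j) m := by
    unfold osc pmax
    refine Measurable.add ?_ ?_
    · refine Finset.measurable_range_sup'' fun k _ => ?_
      exact Finset.measurable_fun_sum _ fun j _ => (measurable_pi_apply j).const_mul _
    · refine Finset.measurable_range_sup'' fun k _ => ?_
      exact Finset.measurable_fun_sum _ fun j _ => ((measurable_pi_apply j).const_mul _).neg
  have hmF : Measurable fun ω : ℕ → ℝ => ENNReal.ofReal ((osc (fun j => Real.sqrt v * ω j) m + 1) ^ 2 *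
        Real.exp (2 * a * (osc (fun j => Real.sqrt v * ω j) m + 1))) :=
    ENNReal.measurable_ofReal.comp (((hmo.add_const 1).pow_const 2).mul
      (Real.measurable_exp.comp ((hmo.add_const 1).const_mul (2 * a))))
  rw [← ME2a_unit, lintegral_map hmF ME2a_meas]
  set s : ℝ := 2 * a + 1 / n with hs
  have hs0 : 0 ≤ s := by positivity
  have hsn : s * n ≤ 3 := by
    have h1 : a * n ≤ 1 := by
      have := mul_le_mul_of_nonneg_right han hn0.le
      rwa [one_div_mul_cancel hn0.ne'] at this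
    have h2 : s * n = 2 * (a * n) + 1 := by
      rw [hs]
      field_simp
    linarith
  have hs3 : s ≤ 3 := by nlinarith
  have h1 := osc_exp_nz (S := Unit) s v hs0 hv.le m ()
  have hptw : ∀ ω : ℕ → Unit → ℝ, ENNReal.ofReal ((osc (fun j => Real.sqrt v * ω j ()) m + 1) ^ 2 *
        Real.exp (2 * a * (osc (fun j => Real.sqrt v * ω j ()) m + 1))) ≤
      ENNReal.ofReal (2 * n ^ 2 * Real.exp 3) *
        ENNReal.ofReal (Real.exp (s * osc (fun j => sc v ω j ()) m)) := by
    intro ω
    rw [← ENNReal.ofReal_mul (by positivity)]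
    refine ENNReal.ofReal_le_ofReal ?_
    have ho : 0 ≤ osc (fun j => Real.sqrt v * ω j ()) m := osc_nonneg _ _
    have hsc : osc (fun j => sc v ω j ()) m = osc (fun j => Real.sqrt v * ω j ()) m := rfl
    rw [hsc]
    set t : ℝ := osc (fun j => Real.sqrt v * ω j ()) m with ht
    have h2 : (t + 1) ^ 2 ≤ 2 * n ^ 2 * Real.exp ((t + 1) / n) := by
      have h3 := Real.quadratic_le_exp_of_nonneg (x := (t + 1) / n) (by positivity)
      have h4 : ((t + 1) / n) ^ 2 / 2 ≤ Real.exp ((t + 1) / n) := by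
        have : 0 ≤ (t + 1) / n := by positivity
        linarith
      have h5 : (t + 1) ^ 2 = 2 * n ^ 2 * (((t + 1) / n) ^ 2 / 2) := by
        field_simp
      rw [h5]
      exact mul_le_mul_of_nonneg_left h4 (by positivity)
    calc (t + 1) ^ 2 * Real.exp (2 * a * (t + 1))
        ≤ 2 * n ^ 2 * Real.exp ((t + 1) / n) * Real.exp (2 * a * (t + 1)) :=
          mul_le_mul_of_nonneg_right h2 (Real.exp_pos _).le
      _ = 2 * n ^ 2 * (Real.exp s * Real.exp (s * t)) := by
          rw [mul_assoc, ← Real.exp_add, ← Real.exp_add]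
          congr 2
          rw [hs]
          ring
      _ ≤ 2 * n ^ 2 * (Real.exp 3 * Real.exp (s * t)) := by
          have := Real.exp_le_exp.2 hs3
          gcongr
      _ = 2 * n ^ 2 * Real.exp 3 * Real.exp (s * t) := by ring
  refine (lintegral_mono hptw).trans ?_
  rw [lintegral_const_mul' _ _ ENNReal.ofReal_ne_top]
  refine (mul_le_mul_right h1 _).trans ?_
  rw [← ENNReal.ofReal_mul (by positivity)]
  refine ENNReal.ofReal_le_ofReal ?_
  have h8 : 8 * s ^ 2 * v * m ≤ 1 := by
    have e1 : 8 * s ^ 2 * v * m = 8 * s ^ 2 * (v * m) := by ring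
    rw [e1]
    calc 8 * s ^ 2 * (v * m) ≤ 8 * s ^ 2 * ((n : ℝ) ^ 2 / 2 ^ 19) :=
          mul_le_mul_of_nonneg_left hvm (by positivity)
      _ = 8 * (s * n) ^ 2 / 2 ^ 19 := by ring
      _ ≤ 8 * 3 ^ 2 / 2 ^ 19 := by
          have : 0 ≤ s * n := by positivity
          gcongr
      _ ≤ 1 := by norm_num
  have h9 : Real.exp (8 * s ^ 2 * v * m) ≤ Real.exp 1 := Real.exp_le_exp.2 h8
  calc 2 * (n : ℝ) ^ 2 * Real.exp 3 * (4 * Real.exp (8 * s ^ 2 * v * m))
      ≤ 2 * (n : ℝ) ^ 2 * Real.exp 3 * (4 * Real.exp 1) := by gcongr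
    _ = 8 * (Real.exp 3 * Real.exp 1) * n ^ 2 := by ring
    _ = 8 * Real.exp 4 * n ^ 2 := by
        rw [← Real.exp_add]
        norm_num

end DynC

end

/-! ### from `Lib_MP_36b788c.MFa` -/

section

/-!
# Height model: deterministic facts

`F_{j+1}(x) = min (0, RR F_j x + g_j x)`, `RR F x = max_z (F z - dd x z)`.

PROOF. Everything is elementary.
* `RR`: `le_RR`, `RR_le`, monotone, commutes with constants, `RR F x ≤ RR F y + dd x y` (triangle inequality),
  `RR (RR F) = RR F`; `am_spec` is `Classical.choose_spec`. `am_eq_self`: if `-1 < F x` and `F ≤ 0` then `am F x = x`: for `z ≠ x`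
  `F z - dd x z ≤ -1 < F x = F x - dd x x`.
* `mf`: `mf_nonpos` (for `n ≥ 1` always; for `n = 0` if `X ≤ 0`), monotone in `X`, sup contraction, semigroup `mf_shift`,
  locality `mf_congr`, `mf_RR` (the start enters only through `RR X`).
* `mf_stay`: if `-c ≤ Σ_{l ∈ [i,n)} g_l(y)` for all `i ≤ n` (`c ≥ 0`) and `n ≥ 1` then `min 0 (RR X y) - c ≤ mf X g n y`: prove by induction on `n` the
  identity type bound `mf_n(y) ≥ min( RR X y + Σ_{[0,n)} g, min_{1≤i≤n} Σ_{[i,n)} g )` (with `Σ_∅ = 0`) from `mf_{n+1} ≥ min(0, mf_n + g_n)`.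
* `mf_le_lin`: along the lineage `F_n(x) ≤ F_{n-i}(γ) + Σ (g - dd)` (equality in `RR`, drop the cap).
* `lin_shift`: the lineage of `(x, n+m)` after `m` steps back continues as the lineage of `(γ, n)`.
-/

open MeasureTheory ProbabilityTheory
open scoped ENNReal

namespace DynC

variable {S : Type} [Fintype S] {D : ℕ} (M : MSet S D)

theorem le_RR (F : S → ℝ) (x z : S) : F z - M.dd x z ≤ M.RR F x := by
  unfold MSet.RR
  exact Finset.le_max' _ _ (Finset.mem_image_of_mem (fun z => F z - (M.dd x z : ℝ)) (Finset.mem_univ z))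

theorem self_le_RR (F : S → ℝ) (x : S) : F x ≤ M.RR F x := by
  have h := le_RR M F x x
  rw [M.dd_self] at h
  simpa using h

theorem RR_le (F : S → ℝ) (x : S) (c : ℝ) (h : ∀ z, F z - M.dd x z ≤ c) : M.RR F x ≤ c := by
  unfold MSet.RR
  refine Finset.max'_le _ _ _ ?_
  intro y hy
  obtain ⟨z, _, rfl⟩ := Finset.mem_image.mp hy
  exact h z

theorem RR_mono (F F' : S → ℝ) (h : ∀ z, F z ≤ F' z) (x : S) : M.RR F x ≤ M.RR F' x := by
  refine RR_le M F x _ (fun z => ?_)
  have h1 := le_RR M F' x z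
  have h2 := h z
  linarith

theorem RR_add (F F' : S → ℝ) (c : ℝ) (h : ∀ z, F z ≤ F' z + c) (x : S) :
    M.RR F x ≤ M.RR F' x + c := by
  refine RR_le M F x _ (fun z => ?_)
  have h1 := le_RR M F' x z
  have h2 := h z
  linarith

theorem RR_lip (F : S → ℝ) (x y : S) : M.RR F x ≤ M.RR F y + M.dd x y := by
  refine RR_le M F x _ (fun z => ?_)
  have h1 := le_RR M F y z
  have h2 : (M.dd y z : ℝ) ≤ M.dd y x + M.dd x z := by exact_mod_cast M.dd_tri y x z
  have h3 : (M.dd y x : ℝ) = M.dd x y := by rw [M.dd_comm]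
  linarith

theorem RR_RR (F : S → ℝ) : M.RR (M.RR F) = M.RR F := by
  funext x
  refine le_antisymm ?_ (self_le_RR M (M.RR F) x)
  refine RR_le M (M.RR F) x _ (fun z => ?_)
  have h1 := RR_lip M F z x
  have h3 : (M.dd z x : ℝ) = M.dd x z := by rw [M.dd_comm]
  linarith

theorem am_spec (F : S → ℝ) (x : S) : F (M.am F x) - M.dd x (M.am F x) = M.RR F x := by
  unfold MSet.am
  exact Classical.choose_spec (p := fun z => F z - (M.dd x z : ℝ) = M.RR F x) _

theorem am_eq_self (F : S → ℝ) (hF : ∀ z, F z ≤ 0) (x : S) (hx : -1 < F x) : M.am F x = x := by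
  by_contra hne
  have h1 := am_spec M F x
  have h2 := self_le_RR M F x
  have h3 := hF (M.am F x)
  have h4 : (1 : ℝ) ≤ M.dd x (M.am F x) := by
    exact_mod_cast M.dd_pos x _ (fun h => hne h.symm)
  linarith

theorem measurable_RR (x : S) : Measurable (fun F : S → ℝ => M.RR F x) := by
  refine measurable_of_Iic (fun c => ?_)
  have : (fun F : S → ℝ => M.RR F x) ⁻¹' Set.Iic c =
      ⋂ z : S, {F : S → ℝ | F z - (M.dd x z : ℝ) ≤ c} := by
    ext F
    simp only [Set.mem_preimage, Set.mem_Iic, Set.mem_iInter, Set.mem_ofPred_eq]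
    exact ⟨fun h z => (le_RR M F x z).trans h, fun h => RR_le M F x c h⟩
  rw [this]
  refine MeasurableSet.iInter (fun z => ?_)
  exact measurableSet_le ((measurable_pi_apply z).sub_const _) measurable_const

/-- the sets `{F | am F x = z}` are measurable (for the fixed choice this needs care: replace the
choice by comparison of finitely many values; `am` is a function of the finite set of maximizers) -/
theorem measurableSet_am (x z : S) : MeasurableSet {F : S → ℝ | M.am F x = z} := by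
  classical
  let cho : (S → Prop) → S := fun p => if h : ∃ z, p z then Classical.choose h else x
  have hcho : ∀ F : S → ℝ, M.am F x = cho (fun z => F z - (M.dd x z : ℝ) = M.RR F x) := by
    intro F
    have hex : ∃ z, F z - (M.dd x z : ℝ) = M.RR F x := ⟨M.am F x, am_spec M F x⟩
    have h2 : cho (fun z => F z - (M.dd x z : ℝ) = M.RR F x) = Classical.choose hex := dif_pos hex
    rw [h2]
    rfl
  have hm : Measurable (fun F : S → ℝ => (fun z => F z - (M.dd x z : ℝ) = M.RR F x : S → Prop)) := by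
    refine measurable_pi_lambda _ (fun z => ?_)
    refine measurableSet_setOfPred.mp ?_
    exact measurableSet_eq_fun ((measurable_pi_apply z).sub_const _) (measurable_RR M x)
  have heq : {F : S → ℝ | M.am F x = z} =
      (fun F : S → ℝ => (fun z => F z - (M.dd x z : ℝ) = M.RR F x : S → Prop)) ⁻¹'
        {p | cho p = z} := by
    ext F
    simp only [Set.mem_ofPred_eq, Set.mem_preimage]
    rw [hcho F]
  rw [heq]
  exact hm (Set.toFinite _).measurableSet

theorem mf_nonpos (X : S → ℝ) (hX : ∀ z, X z ≤ 0) (g : ℕ → S → ℝ) (n : ℕ) (x : S) :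
    M.mf X g n x ≤ 0 := by
  cases n with
  | zero => exact hX x
  | succ n => exact min_le_left _ _

theorem mf_succ_nonpos (X : S → ℝ) (g : ℕ → S → ℝ) (n : ℕ) (x : S) : M.mf X g (n + 1) x ≤ 0 := by
  exact min_le_left _ _

theorem mf_mono (X X' : S → ℝ) (h : ∀ z, X z ≤ X' z) (g : ℕ → S → ℝ) (n : ℕ) (x : S) :
    M.mf X g n x ≤ M.mf X' g n x := by
  induction n generalizing x with
  | zero => exact h x
  | succ n ih =>
    change min 0 (M.RR (M.mf X g n) x + g n x) ≤ min 0 (M.RR (M.mf X' g n) x + g n x)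
    refine min_le_min le_rfl ?_
    have := RR_mono M _ _ ih x
    linarith

theorem mf_contr (X X' : S → ℝ) (c : ℝ) (hc : 0 ≤ c) (h : ∀ z, X z ≤ X' z + c) (g : ℕ → S → ℝ)
    (n : ℕ) (x : S) : M.mf X g n x ≤ M.mf X' g n x + c := by
  induction n generalizing x with
  | zero => exact h x
  | succ n ih =>
    change min 0 (M.RR (M.mf X g n) x + g n x) ≤ min 0 (M.RR (M.mf X' g n) x + g n x) + c
    have h1 := RR_add M _ _ c ih x
    rw [← min_add_add_right]
    refine le_min ?_ ?_
    · exact (min_le_left _ _).trans (by linarith)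
    · exact (min_le_right _ _).trans (by linarith)

theorem mf_shift (X : S → ℝ) (g : ℕ → S → ℝ) (n m : ℕ) :
    M.mf X g (n + m) = M.mf (M.mf X g n) (fun j => g (n + j)) m := by
  induction m with
  | zero => rfl
  | succ m ih =>
    change M.mst (M.mf X g (n + m)) (g (n + m)) = M.mst _ (g (n + m))
    rw [ih]

theorem mf_congr (X : S → ℝ) (g g' : ℕ → S → ℝ) (n : ℕ) (h : ∀ j, j < n → g j = g' j) :
    M.mf X g n = M.mf X g' n := by
  induction n with
  | zero => rfl
  | succ n ih =>
    change M.mst (M.mf X g n) (g n) = M.mst (M.mf X g' n) (g' n)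
    rw [ih (fun j hj => h j (by omega)), h n (by omega)]

theorem mf_RR (X : S → ℝ) (g : ℕ → S → ℝ) (n : ℕ) : M.mf (M.RR X) g (n + 1) = M.mf X g (n + 1) := by
  induction n with
  | zero =>
    change M.mst (M.RR X) (g 0) = M.mst X (g 0)
    unfold MSet.mst
    rw [RR_RR]
  | succ n ih =>
    change M.mst (M.mf (M.RR X) g (n + 1)) (g (n + 1)) = M.mst (M.mf X g (n + 1)) (g (n + 1))
    rw [ih]

theorem measurable_mf (n : ℕ) (x : S) :
    Measurable (fun p : (S → ℝ) × (ℕ → S → ℝ) => M.mf p.1 p.2 n x) := by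
  induction n generalizing x with
  | zero => exact (measurable_pi_apply x).comp measurable_fst
  | succ n ih =>
    change Measurable (fun p : (S → ℝ) × (ℕ → S → ℝ) =>
      min 0 (M.RR (M.mf p.1 p.2 n) x + p.2 n x))
    have h1 : Measurable (fun p : (S → ℝ) × (ℕ → S → ℝ) => M.mf p.1 p.2 n) :=
      measurable_pi_lambda _ ih
    have h2 : Measurable (fun p : (S → ℝ) × (ℕ → S → ℝ) => p.2 n x) :=
      (measurable_pi_apply x).comp ((measurable_pi_apply (X := fun _ : ℕ => S → ℝ) n).comp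
        measurable_snd)
    exact measurable_const.min (((measurable_RR M x).comp h1).add h2)

theorem mf_stay (X : S → ℝ) (g : ℕ → S → ℝ) (n : ℕ) (hn : 1 ≤ n) (y : S) (c : ℝ) (hc : 0 ≤ c)
    (h : ∀ i, i ≤ n → -c ≤ ∑ l ∈ Finset.Ico i n, g l y) :
    min 0 (M.RR X y) - c ≤ M.mf X g n y := by
  have key : ∀ n : ℕ, 1 ≤ n → ∀ t : ℝ, t ≤ M.RR X y + ∑ l ∈ Finset.Ico 0 n, g l y →
      (∀ i, 1 ≤ i → i ≤ n → t ≤ ∑ l ∈ Finset.Ico i n, g l y) → t ≤ M.mf X g n y := by
    intro n hn
    induction n, hn using Nat.le_induction with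
    | base =>
      intro t h1 h2
      have h3 := h2 1 le_rfl le_rfl
      simp only [Finset.Ico_self, Finset.sum_empty] at h3
      simp only [Nat.Ico_zero_eq_range, Finset.sum_range_one] at h1
      exact le_min h3 h1
    | succ n hn ih =>
      intro t h1 h2
      have h3 := h2 (n + 1) (by omega) le_rfl
      simp only [Finset.Ico_self, Finset.sum_empty] at h3
      refine le_min h3 ?_
      have h4 : t - g n y ≤ M.mf X g n y := by
        refine ih _ ?_ ?_
        · rw [Finset.sum_Ico_succ_top (Nat.zero_le n)] at h1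
          linarith
        · intro i hi hin
          have h5 := h2 i hi (by omega)
          rw [Finset.sum_Ico_succ_top hin] at h5
          linarith
      have h6 := self_le_RR M (M.mf X g n) y
      linarith
  refine key n hn _ ?_ ?_
  · have h1 := h 0 (Nat.zero_le n)
    have h2 := min_le_right (0 : ℝ) (M.RR X y)
    linarith
  · intro i _ hi
    have h1 := h i hi
    have h2 := min_le_left (0 : ℝ) (M.RR X y)
    linarith

theorem lin_shift (X : S → ℝ) (g : ℕ → S → ℝ) (n m : ℕ) (x : S) (i : ℕ) (hi : i ≤ n) :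
    M.lin X g (n + m) x (m + i) = M.lin X g n (M.lin X g (n + m) x m) i := by
  induction i with
  | zero => rfl
  | succ i ih =>
    have hk : n + m - (m + i + 1) = n - (i + 1) := by omega
    change M.am (M.mf X g (n + m - (m + i + 1))) (M.lin X g (n + m) x (m + i)) =
      M.am (M.mf X g (n - (i + 1))) (M.lin X g n (M.lin X g (n + m) x m) i)
    rw [hk, ih (by omega)]

/-- the last `m` steps of the lineage depend on the past only through `mf X g n` -/
theorem lin_shift' (X : S → ℝ) (g : ℕ → S → ℝ) (n m : ℕ) (x : S) (i : ℕ) (hi : i ≤ m) :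
    M.lin X g (n + m) x i = M.lin (M.mf X g n) (fun j => g (n + j)) m x i := by
  induction i with
  | zero => rfl
  | succ i ih =>
    have hk : n + m - (i + 1) = n + (m - (i + 1)) := by omega
    change M.am (M.mf X g (n + m - (i + 1))) (M.lin X g (n + m) x i) =
      M.am (M.mf (M.mf X g n) (fun j => g (n + j)) (m - (i + 1)))
        (M.lin (M.mf X g n) (fun j => g (n + j)) m x i)
    rw [hk, ih (by omega), mf_shift]

theorem lin_congr (X : S → ℝ) (g g' : ℕ → S → ℝ) (n : ℕ) (h : ∀ j, j + 1 < n → g j = g' j) (x : S)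
    (i : ℕ) (hi : i ≤ n) : M.lin X g n x i = M.lin X g' n x i := by
  induction i with
  | zero => rfl
  | succ i ih =>
    change M.am (M.mf X g (n - (i + 1))) (M.lin X g n x i) =
      M.am (M.mf X g' (n - (i + 1))) (M.lin X g' n x i)
    rw [ih (by omega), mf_congr M X g g' (n - (i + 1)) (fun j hj => h j (by omega))]

theorem measurableSet_lin (n : ℕ) (x : S) (i : ℕ) (z : S) :
    MeasurableSet {p : (S → ℝ) × (ℕ → S → ℝ) | M.lin p.1 p.2 n x i = z} := by
  induction i generalizing z with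
  | zero =>
    change MeasurableSet {p : (S → ℝ) × (ℕ → S → ℝ) | x = z}
    exact MeasurableSet.const _
  | succ i ih =>
    have heq : {p : (S → ℝ) × (ℕ → S → ℝ) | M.lin p.1 p.2 n x (i + 1) = z} =
        ⋃ w : S, {p : (S → ℝ) × (ℕ → S → ℝ) | M.lin p.1 p.2 n x i = w} ∩
          ((fun p : (S → ℝ) × (ℕ → S → ℝ) => M.mf p.1 p.2 (n - (i + 1))) ⁻¹'
            {F : S → ℝ | M.am F w = z}) := by
      ext p
      simp only [Set.mem_ofPred_eq, Set.mem_iUnion, Set.mem_inter_iff, Set.mem_preimage]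
      constructor
      · intro hp
        exact ⟨M.lin p.1 p.2 n x i, rfl, hp⟩
      · rintro ⟨w, hw, hp⟩
        change M.am (M.mf p.1 p.2 (n - (i + 1))) (M.lin p.1 p.2 n x i) = z
        rw [hw]
        exact hp
    rw [heq]
    refine MeasurableSet.iUnion (fun w => (ih w).inter ?_)
    have h1 : Measurable (fun p : (S → ℝ) × (ℕ → S → ℝ) => M.mf p.1 p.2 (n - (i + 1))) :=
      measurable_pi_lambda _ (fun y => measurable_mf M (n - (i + 1)) y)
    exact h1 (measurableSet_am M w z)

/-- value along the lineage: `γ_j = lin (n - j)` is the position at time `j` -/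
theorem mf_le_lin (X : S → ℝ) (g : ℕ → S → ℝ) (n : ℕ) (x : S) (i : ℕ) (hi : i ≤ n) :
    M.mf X g n x ≤ M.mf X g (n - i) (M.lin X g n x i) +
      ∑ l ∈ Finset.range i, (g (n - (l + 1)) (M.lin X g n x l) -
        M.dd (M.lin X g n x l) (M.lin X g n x (l + 1))) := by
  induction i with
  | zero => simp [MSet.lin]
  | succ i ih =>
    have h1 := ih (by omega)
    rw [Finset.sum_range_succ]
    have hk : n - i = n - (i + 1) + 1 := by omega
    have h2 : M.mf X g (n - i) (M.lin X g n x i) ≤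
        M.mf X g (n - (i + 1)) (M.lin X g n x (i + 1)) +
          (g (n - (i + 1)) (M.lin X g n x i) -
            M.dd (M.lin X g n x i) (M.lin X g n x (i + 1))) := by
      rw [hk]
      have h3 := am_spec M (M.mf X g (n - (i + 1))) (M.lin X g n x i)
      change min 0 (M.RR (M.mf X g (n - (i + 1))) (M.lin X g n x i) +
        g (n - (i + 1)) (M.lin X g n x i)) ≤ _
      refine (min_le_right _ _).trans ?_
      rw [← h3]
      change _ ≤ M.mf X g (n - (i + 1)) (M.am (M.mf X g (n - (i + 1))) (M.lin X g n x i)) +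
        (g (n - (i + 1)) (M.lin X g n x i) -
            M.dd (M.lin X g n x i) (M.am (M.mf X g (n - (i + 1))) (M.lin X g n x i)))
      linarith
    linarith

theorem dd_lin (X : S → ℝ) (g : ℕ → S → ℝ) (n : ℕ) (x : S) (i : ℕ) :
    (M.dd x (M.lin X g n x i) : ℝ) ≤
      ∑ l ∈ Finset.range i, (M.dd (M.lin X g n x l) (M.lin X g n x (l + 1)) : ℝ) := by
  induction i with
  | zero => simp [MSet.lin, M.dd_self]
  | succ i ih =>
    rw [Finset.sum_range_succ]
    have h1 : (M.dd x (M.lin X g n x (i + 1)) : ℝ) ≤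
        M.dd x (M.lin X g n x i) + M.dd (M.lin X g n x i) (M.lin X g n x (i + 1)) := by
      exact_mod_cast M.dd_tri x (M.lin X g n x i) (M.lin X g n x (i + 1))
    linarith

/-- gain on the lineage against the last passage functional with `q = 1/8` -/
theorem gain_lin (X : S → ℝ) (g : ℕ → S → ℝ) (n : ℕ) (x : S) (i : ℕ) (hi : i ≤ n) :
    ∑ l ∈ Finset.range i, g (n - (l + 1)) (M.lin X g n x l) ≤
      1 / 8 * ∑ l ∈ Finset.range i, (M.dd (M.lin X g n x l) (M.lin X g n x (l + 1)) : ℝ) +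
        M.lppM (1 / 8) (fun _ => 0) g n x := by
  have h1 := lpp_path M (1 / 8) (fun _ => 0) (fun _ => le_rfl) g
    (fun j => M.lin X g n x (n - j)) (a := n - i) (m := n) (Nat.sub_le n i)
  simp only [Nat.sub_self] at h1
  have h2 := le_lppM M (1 / 8) (fun _ => 0) g (le_refl n) x
  have h3 : ∑ l ∈ Finset.range i, (g (n - (l + 1)) (M.lin X g n x l) -
        1 / 8 * (M.dd (M.lin X g n x l) (M.lin X g n x (l + 1)) : ℝ)) =
      ∑ j ∈ Finset.Ico (n - i) n, (g j (M.lin X g n x (n - (j + 1))) -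
        1 / 8 * (M.dd (M.lin X g n x (n - j)) (M.lin X g n x (n - (j + 1))) : ℝ)) := by
    refine Finset.sum_bij' (fun l _ => n - (l + 1)) (fun j _ => n - (j + 1)) ?_ ?_ ?_ ?_ ?_
    · intro l hl
      rw [Finset.mem_range] at hl
      rw [Finset.mem_Ico]
      omega
    · intro j hj
      rw [Finset.mem_Ico] at hj
      rw [Finset.mem_range]
      omega
    · intro l hl
      rw [Finset.mem_range] at hl
      omega
    · intro j hj
      rw [Finset.mem_Ico] at hj
      omega
    · intro l hl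
      rw [Finset.mem_range] at hl
      have e1 : n - (n - (l + 1) + 1) = l := by omega
      have e2 : n - (n - (l + 1)) = l + 1 := by omega
      rw [e1, e2, M.dd_comm (M.lin X g n x (l + 1)) (M.lin X g n x l)]
  rw [Finset.sum_sub_distrib, ← Finset.mul_sum] at h3
  have h4 : M.lpp (1 / 8) (fun _ => 0) g n (M.lin X g n x 0) = M.lpp (1 / 8) (fun _ => 0) g n x := rfl
  rw [h4] at h1
  linarith

/-- total length of the lineage (`n ≥ 1`) -/
theorem len_lin (X : S → ℝ) (hX : ∀ z, X z ≤ 0) (g : ℕ → S → ℝ) (n : ℕ) (x : S) (Ke : ℝ)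
    (hKe : 0 ≤ Ke) (hx : -Ke ≤ X x) :
    7 / 8 * ∑ l ∈ Finset.range n, (M.dd (M.lin X g n x l) (M.lin X g n x (l + 1)) : ℝ) ≤
      Ke + M.lppM (1 / 8) (fun _ => 0) g n x + M.lppM (1 / 8) (fun _ => 0) (-g) n x := by
  have hz : ∀ z : S, (0 : ℝ) ≤ (fun _ : S => (0 : ℝ)) z := fun _ => le_rfl
  have hP := lppM_nonneg M (1 / 8) (fun _ => 0) hz g n x
  have hN := lppM_nonneg M (1 / 8) (fun _ => 0) hz (-g) n x
  rcases Nat.eq_zero_or_pos n with hn | hn
  · subst hn
    simp only [Finset.range_zero, Finset.sum_empty, mul_zero]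
    linarith
  · have h1 := mf_le_lin M X g n x n le_rfl
    rw [Nat.sub_self, Finset.sum_sub_distrib] at h1
    have h2 : M.mf X g 0 (M.lin X g n x n) ≤ 0 := hX _
    have h3 := gain_lin M X g n x n le_rfl
    have h4 : min 0 (M.RR X x) - M.lppM (1 / 8) (fun _ => 0) (-g) n x ≤ M.mf X g n x := by
      refine mf_stay M X g n hn x _ hN (fun i hi => ?_)
      have h5 := lpp_path M (1 / 8) (fun _ => 0) hz (-g) (fun _ => x) hi
      have h6 := le_lppM M (1 / 8) (fun _ => 0) (-g) (le_refl n) x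
      have h7 : ∑ l ∈ Finset.Ico i n, ((-g) l x - 1 / 8 * (M.dd x x : ℝ)) =
          - ∑ l ∈ Finset.Ico i n, g l x := by
        rw [← Finset.sum_neg_distrib]
        refine Finset.sum_congr rfl (fun l _ => ?_)
        rw [M.dd_self]
        simp
      rw [h7] at h5
      linarith
    have h8 : -Ke ≤ min 0 (M.RR X x) :=
      le_min (by linarith) (hx.trans (self_le_RR M X x))
    linarith

end DynC

end
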