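import Pool.Agent.Lib_MP_36b788_n.M04

set_option linter.unusedVariables false

/-!
# MP_36b788_pr, stationary limit: merged library part M05

Concatenation of smaller files (each in its own section), only to save build time.
-/

/-! ### from `Lib_MP_36b788b.CMix` -/

section

/-!
# The chain forgets its initial law: definition
-/

open MeasureTheory ProbabilityTheory Filter
open scoped NNReal ENNReal Topology

namespace DynB

open Dyn

/-- the chain forgets its initial law, uniformly in the box and in the time step -/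
def ChainMix (N d : ℕ) (β k : ℝ) : Prop :=
    ∀ (ρ1 ρ2 : Measure (E N)) [IsProbabilityMeasure ρ1] [IsProbabilityMeasure ρ2],
      ρ1 {0} = 0 → ρ2 {0} = 0 → Integrable (fun x : E N => ‖x‖ ^ 2) ρ1 →
      Integrable (fun x : E N => ‖x‖ ^ 2) ρ2 →
    ∀ (R J : ℕ) (CF δ : ℝ), 0 ≤ CF → 0 < δ →
    ∃ (T0 : ℝ) (L0 : ℕ), 0 ≤ T0 ∧ R ≤ L0 ∧ (k = 0 → L0 = R) ∧
    ∀ L : ℕ, (k = 0 → L = R) → L0 ≤ L →
    ∀ Sm : ℝ, 0 ≤ Sm → ∃ h0 : ℝ, 0 < h0 ∧ ∀ h, 0 < h → h < h0 →
    ∀ n1 n2 M : ℕ, n1 * h ≤ Sm → n2 * h ≤ Sm → M * h ≤ Sm →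
    ∀ (F : ℕ → (boxS d L → E N) → ℂ) (I : Finset ℕ), I.card ≤ J →
      (∀ i, Measurable (F i)) → (∀ i G, ‖F i G‖ ≤ 1) → (∀ i, i ∉ I → F i = fun _ => 1) →
      (∀ i ∈ I, T0 ≤ i * h ∧ ∀ G G' : boxS d L → E N, ‖F i G - F i G'‖ ≤
        CF * ∑ x : boxS d L, (if l1 (x : Fin d → ℤ) 0 ≤ R then min 1 ‖G x - G' x‖ else 0)) →
      ∫ G, ∫ G', ‖pathE (boxNet d L) β h k (stdGaussian (E N)) ((List.range M).map F) G
          - pathE (boxNet d L) β h k (stdGaussian (E N)) ((List.range M).map F) G'‖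
        ∂(chainLaw (boxNet d L) β h k (stdGaussian (E N)) (Measure.pi (fun _ => ρ2)) n2)
        ∂(chainLaw (boxNet d L) β h k (stdGaussian (E N)) (Measure.pi (fun _ => ρ1)) n1) ≤ δ

end DynB

end

/-! ### from `Lib_MP_36b788c.BFam` -/

section

/-!
# The two families of chains and the links to `ChainMix`

* `Fam1 N d β k`: the Gaussian chain `stp` with values in `E N`.
* `Fam2 d β k`: values in `ℂ`, `G⁺ = J(e^{√h η} G) + k h coup G`, `η` complex Gaussian with independent standard normal real and imaginary parts.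
* `PS2`: pair system for `Fam2` (same noise). `b = √h Re η`.

PROOF.
* `link1`: `F.pathE = pathE`, `F.law = chainLaw` by induction on the list / on `n` (`coupV = coup`, `JV = J` by definition), for `k > 0` the clause `k = 0 → …` is empty.
* `BNoise` for `PS2`: `Re η ~ N(0,1)`: `∫ e^{r √h Re η} = e^{r² h/2}` and the part outside `gd` is `≤ h²` (Gaussian tail `P(|η| > h^{-1/8}) ≤ 2e^{-h^{-1/4}/4}`, Cauchy-Schwarz).
* `PS2` facts: `‖JV v‖ = psi ‖v‖` (`norm_J`), `JV` nonexpansive (as `J_nonexp`; its proof uses only the inner product), `‖e^{√h η} G‖ = e^{b} ‖G‖`.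
* `link2`: (1) the chain `stp` for `N = 2` has the same transition kernel as `G⁺ = J(G (1+√h ζ)) + k h coup` on `ℂ` (identification `ℂ ≃ₗᵢ E 2`; `‖G‖ξ` and `G ζ` have the same law by isotropy). (2) Same noise `ζ = η` for this chain (values `G'`) and `Fam2` (values `G`) started
  at the same configuration: `D = G' - G`, `r = e^{√h η} - 1 - √h η`: `E r = 0`, `E[conj(1+√h η) r] = 0` (`E conj(η) η^j = 0` for `j ≥ 2`), `E|r|² ≤ C h²`, so `E|D(1+√hη) - G r|² = |D|²(1+2h) + |G|² E|r|²`, and with `(a+b)² ≤ (1+h)a² + (1+1/h)b²` for the coupling term: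
  `E Σ_x|D⁺|² ≤ (1+Ch) Σ|D|² + C h² Σ|G|²`; `E Σ|G_n|² ≤ e^{C n h} E Σ|G_0|²`. So `E Σ_x|D_n(x)|² ≤ C h` for `n h ≤ 2 Sm`. (3) In `ChainMix` replace both trajectories (times `n1 + i`, `n2 + i`) by those of `Fam2`: product of at most `J` Lipschitz functions:
  error `≤ 2 J CF Σ_x E min(1,|D|) ≤ C √h`. Then `Mix` with `δ/2`.
-/

open MeasureTheory ProbabilityTheory
open scoped ENNReal

namespace DynC

open Dyn

noncomputable section

/-- standard complex Gaussian (independent standard normal parts) -/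
def gC : Measure ℂ :=
  ((gaussianReal 0 1).prod (gaussianReal 0 1)).map (fun p : ℝ × ℝ => (⟨p.1, p.2⟩ : ℂ))

theorem measurable_mkC : Measurable (fun p : ℝ × ℝ => (⟨p.1, p.2⟩ : ℂ)) := by
  have h1 : (fun p : ℝ × ℝ => (⟨p.1, p.2⟩ : ℂ)) = Complex.equivRealProdCLM.symm := by
    funext p
    rfl
  rw [h1]
  exact Complex.equivRealProdCLM.symm.continuous.measurable

instance : IsProbabilityMeasure gC := by
  unfold gC
  exact Measure.isProbabilityMeasure_map measurable_mkC.aemeasurable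

/-- step of the complex chain -/
def st2 (d : ℕ) (β k h : ℝ) (L : ℕ) (G : boxS d L → ℂ) (η : boxS d L → ℂ) : boxS d L → ℂ :=
  fun x => JV β h (Complex.exp (((Real.sqrt h : ℝ) : ℂ) * η x) * G x) +
    (k * h) • coupV (boxNet d L) G x

private theorem BFam_psi_meas (β h : ℝ) : Measurable (psi β h) := by
  refine measurable_of_Ioi fun c => ?_
  rcases lt_or_ge c 0 with hc | hc
  · have h1 : psi β h ⁻¹' Set.Ioi c = Set.univ := by
      ext v
      simp only [Set.mem_preimage, Set.mem_Ioi, Set.mem_univ, iff_true]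
      exact hc.trans_le (psi_nonneg β h v)
    rw [h1]
    exact MeasurableSet.univ
  · have h1 : psi β h ⁻¹' Set.Ioi c =
        {v : ℝ | BddAbove {t : ℝ | 0 ≤ t ∧ t + h * t ^ (1 + β) ≤ v}} ∩
        {v : ℝ | ∃ t : ℝ, c < t ∧ 0 ≤ t ∧ t + h * t ^ (1 + β) ≤ v} := by
      ext v
      constructor
      · intro hv
        have hv' : c < sSup {t : ℝ | 0 ≤ t ∧ t + h * t ^ (1 + β) ≤ v} := hv
        have hb : BddAbove {t : ℝ | 0 ≤ t ∧ t + h * t ^ (1 + β) ≤ v} := by
          by_contra hb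
          rw [Real.sSup_of_not_bddAbove hb] at hv'
          linarith
        have hne : {t : ℝ | 0 ≤ t ∧ t + h * t ^ (1 + β) ≤ v}.Nonempty := by
          by_contra hne
          rw [Set.not_nonempty_iff_eq_empty] at hne
          rw [hne, Real.sSup_empty] at hv'
          linarith
        obtain ⟨t, ht, hct⟩ := (lt_csSup_iff hb hne).1 hv'
        exact ⟨hb, t, hct, ht.1, ht.2⟩
      · rintro ⟨hb, t, hct, ht⟩
        exact hct.trans_le (le_csSup hb ht)
    rw [h1]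
    refine MeasurableSet.inter ?_ ?_
    · refine (IsLowerSet.ordConnected ?_).measurableSet
      intro v w hwv hv
      have h2 : {t : ℝ | 0 ≤ t ∧ t + h * t ^ (1 + β) ≤ w} ⊆
          {t : ℝ | 0 ≤ t ∧ t + h * t ^ (1 + β) ≤ v} := fun t ht => ⟨ht.1, ht.2.trans hwv⟩
      exact BddAbove.mono h2 hv
    · refine (IsUpperSet.ordConnected ?_).measurableSet
      rintro v w hvw ⟨t, hct, ht0, ht⟩
      exact ⟨t, hct, ht0, ht.trans hvw⟩

private theorem BFam_JV_meas {V : Type} [NormedAddCommGroup V] [InnerProductSpace ℝ V]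
    [MeasurableSpace V] [BorelSpace V] [SecondCountableTopology V] (β h : ℝ) :
    Measurable (JV β h : V → V) := by
  unfold JV
  exact (((BFam_psi_meas β h).comp measurable_norm).div measurable_norm).smul measurable_id

private theorem BFam_coup_meas {V : Type} [NormedAddCommGroup V] [InnerProductSpace ℝ V]
    [MeasurableSpace V] [BorelSpace V] [SecondCountableTopology V] {ι : Type} [Fintype ι]
    {d : ℕ} (net : Net ι d) (x : ι) : Measurable fun G : ι → V => coupV net G x := by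
  unfold coupV
  refine Measurable.sub ?_ ?_
  · exact Finset.measurable_fun_sum _ fun y _ => measurable_pi_apply y
  · exact (measurable_pi_apply x).const_smul _

theorem measurable_st2 (d : ℕ) (β k h : ℝ) (L : ℕ) :
    Measurable fun p : (boxS d L → ℂ) × (boxS d L → ℂ) => st2 d β k h L p.1 p.2 := by
  refine measurable_pi_lambda _ fun x => ?_
  unfold st2
  refine Measurable.add ?_ ?_
  · refine (BFam_JV_meas β h).comp ?_
    refine Measurable.mul ?_ ((measurable_pi_apply x).comp measurable_fst)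
    exact Complex.measurable_exp.comp
      (((measurable_pi_apply x).comp measurable_snd).const_mul _)
  · exact ((BFam_coup_meas (boxNet d L) x).comp measurable_fst).const_smul (k * h)

theorem measurable_stp (N d : ℕ) (β k h : ℝ) (L : ℕ) :
    Measurable fun p : (boxS d L → E N) × (boxS d L → E N) =>
      stp (boxNet d L) β h k p.1 p.2 := by
  refine measurable_pi_lambda _ fun x => ?_
  have hg : Measurable fun p : (boxS d L → E N) × (boxS d L → E N) => p.1 x :=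
    (measurable_pi_apply x).comp measurable_fst
  have hξ : Measurable fun p : (boxS d L → E N) × (boxS d L → E N) => p.2 x :=
    (measurable_pi_apply x).comp measurable_snd
  have h1 : Measurable fun p : (boxS d L → E N) × (boxS d L → E N) =>
      JV β h (p.1 x + (Real.sqrt h * ‖p.1 x‖) • p.2 x) :=
    (BFam_JV_meas β h).comp (hg.add ((hg.norm.const_mul _).smul hξ))
  have h2 : Measurable fun p : (boxS d L → E N) × (boxS d L → E N) =>
      (k * h) • coupV (boxNet d L) p.1 x :=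
    ((BFam_coup_meas (boxNet d L) x).comp measurable_fst).const_smul (k * h)
  exact h1.add h2

/-- the complex chain, `N = 2` -/
def Fam2 (d : ℕ) (β k : ℝ) : Fam d where
  V := ℂ
  Ω0 := ℂ
  ν := gC
  st := fun h L => st2 d β k h L
  mst := fun h L => measurable_st2 d β k h L

/-- the Gaussian chain -/
def Fam1 (N d : ℕ) (β k : ℝ) : Fam d where
  V := E N
  Ω0 := E N
  ν := stdGaussian (E N)
  st := fun h L => stp (boxNet d L) β h k
  mst := fun h L => measurable_stp N d β k h L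

/-- scalar noise of the complex chain -/
def bC (h : ℝ) (η : ℂ) : ℝ := Real.sqrt h * η.re

/-- good noise of the complex chain -/
def gdC (h : ℝ) : Set ℂ := {η | Real.sqrt h * ‖η‖ ≤ h ^ (3 / 8 : ℝ)}

theorem norm_JV {V : Type} [NormedAddCommGroup V] [InnerProductSpace ℝ V] {β h : ℝ} (hβ : 0 < β)
    (hh : 0 ≤ h) (v : V) : ‖JV β h v‖ = psi β h ‖v‖ := by
  unfold JV
  rw [norm_smul, Real.norm_eq_abs, abs_of_nonneg (div_nonneg (psi_nonneg _ _ _) (norm_nonneg _))]
  by_cases hv : ‖v‖ = 0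
  · rw [hv, psi_zero hβ hh]; simp
  · field_simp

theorem JV_eq {V : Type} [NormedAddCommGroup V] [InnerProductSpace ℝ V] {β h : ℝ} (hβ : 0 < β)
    (hh : 0 ≤ h) (v : V) : JV β h v + (h * ‖JV β h v‖ ^ β) • JV β h v = v := by
  rcases eq_or_ne v 0 with rfl | hv
  · simp [JV]
  · have hn : 0 < ‖v‖ := norm_pos_iff.mpr hv
    have hp := psi_pos hβ hh hn
    have he := psi_eq hβ hh hn.le
    rw [norm_JV hβ hh, JV, smul_smul, ← add_smul]
    rw [Real.rpow_add hp, Real.rpow_one] at he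
    have : psi β h ‖v‖ / ‖v‖ + h * psi β h ‖v‖ ^ β * (psi β h ‖v‖ / ‖v‖) = 1 := by
      field_simp
      linarith
    rw [this, one_smul]

private theorem BFam_inner {V : Type} [NormedAddCommGroup V] [InnerProductSpace ℝ V] (β : ℝ)
    (u u' : V) :
    inner ℝ (‖u‖ ^ β • u - ‖u'‖ ^ β • u') (u - u')
      = 1 / 2 * (‖u‖ ^ β + ‖u'‖ ^ β) * ‖u - u'‖ ^ 2
        + 1 / 2 * (‖u‖ ^ β - ‖u'‖ ^ β) * (‖u‖ ^ 2 - ‖u'‖ ^ 2) := by
  rw [norm_sub_sq_real, inner_sub_left, inner_sub_right, inner_sub_right, real_inner_smul_left,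
    real_inner_smul_left, real_inner_smul_left, real_inner_smul_left,
    real_inner_self_eq_norm_sq, real_inner_self_eq_norm_sq, real_inner_comm u u']
  ring

private theorem BFam_mono {β a b : ℝ} (hβ : 0 < β) (ha : 0 ≤ a) (hb : 0 ≤ b) :
    0 ≤ (a ^ β - b ^ β) * (a ^ 2 - b ^ 2) := by
  rcases le_total a b with hle | hle
  · have h1 := Real.rpow_le_rpow ha hle hβ.le
    have h2 := pow_le_pow_left₀ ha hle 2
    nlinarith
  · have h1 := Real.rpow_le_rpow hb hle hβ.le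
    have h2 := pow_le_pow_left₀ hb hle 2
    nlinarith

private theorem BFam_sub {V : Type} [NormedAddCommGroup V] [InnerProductSpace ℝ V] {β h : ℝ}
    (hβ : 0 < β) (hh : 0 ≤ h) (v w : V) :
    v - w = (JV β h v - JV β h w) +
      h • (‖JV β h v‖ ^ β • JV β h v - ‖JV β h w‖ ^ β • JV β h w) := by
  have h1 := JV_eq hβ hh v
  have h2 := JV_eq hβ hh w
  conv_lhs => rw [← h1, ← h2]
  rw [smul_sub, smul_smul, smul_smul]
  abel

private theorem BFam_real {β r s : ℝ} (hβ : 0 < β) (hs : 0 ≤ s) (hsr : s ≤ r) :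
    (r ^ β - s ^ β) * s ≤ β * r ^ β * (r - s) := by
  rcases hs.eq_or_lt with h0 | h0
  · rw [← h0]
    have : 0 ≤ r := hs.trans hsr
    have h1 : 0 ≤ β * r ^ β * (r - 0) := by
      have := Real.rpow_nonneg this β
      rw [sub_zero]
      positivity
    rw [mul_zero, ← h0] at *
    exact h1
  · have hr : 0 < r := h0.trans_le hsr
    have hrb : 0 < r ^ β := Real.rpow_pos_of_pos hr β
    have hq : 0 < s / r := div_pos h0 hr
    have h1 : s ^ β = r ^ β * (s / r) ^ β := by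
      rw [Real.div_rpow h0.le hr.le]
      field_simp
    have h2 : Real.log (r / s) ≤ r / s - 1 := Real.log_le_sub_one_of_pos (div_pos hr h0)
    have h3 : 1 - β * Real.log (r / s) ≤ (s / r) ^ β := by
      rw [Real.rpow_def_of_pos hq]
      have h4 := Real.add_one_le_exp (Real.log (s / r) * β)
      have h5 : Real.log (s / r) = - Real.log (r / s) := by
        rw [← Real.log_inv, inv_div]
      rw [h5] at h4 ⊢
      linarith
    have h6 : 1 - (s / r) ^ β ≤ β * (r / s - 1) := by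
      have := mul_le_mul_of_nonneg_left h2 hβ.le
      linarith
    have h7 : (r ^ β - s ^ β) * s = (r ^ β * s) * (1 - (s / r) ^ β) := by
      rw [h1]; ring
    rw [h7]
    have h8 : (r ^ β * s) * (1 - (s / r) ^ β) ≤ (r ^ β * s) * (β * (r / s - 1)) :=
      mul_le_mul_of_nonneg_left h6 (by positivity)
    refine h8.trans (le_of_eq ?_)
    field_simp

private theorem BFam_bdiff {V : Type} [NormedAddCommGroup V] [InnerProductSpace ℝ V] {β : ℝ}
    (hβ : 0 < β) (u u' : V) (hle : ‖u'‖ ≤ ‖u‖) :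
    ‖‖u‖ ^ β • u - ‖u'‖ ^ β • u'‖ ≤ (1 + β) * ‖u‖ ^ β * ‖u - u'‖ := by
  have h1 : ‖u‖ ^ β • u - ‖u'‖ ^ β • u' = ‖u‖ ^ β • (u - u') + (‖u‖ ^ β - ‖u'‖ ^ β) • u' := by
    rw [smul_sub, sub_smul]
    abel
  have h2 : 0 ≤ ‖u‖ ^ β := Real.rpow_nonneg (norm_nonneg _) _
  have h3 : ‖u'‖ ^ β ≤ ‖u‖ ^ β := Real.rpow_le_rpow (norm_nonneg _) hle hβ.le
  rw [h1]
  refine (norm_add_le _ _).trans ?_
  rw [norm_smul, norm_smul, Real.norm_of_nonneg h2, Real.norm_of_nonneg (sub_nonneg.2 h3)]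
  have h4 := BFam_real hβ (norm_nonneg u') hle
  have h5 : ‖u‖ - ‖u'‖ ≤ ‖u - u'‖ := norm_sub_norm_le u u'
  have h6 : β * ‖u‖ ^ β * (‖u‖ - ‖u'‖) ≤ β * ‖u‖ ^ β * ‖u - u'‖ :=
    mul_le_mul_of_nonneg_left h5 (by positivity)
  have h7 : (1 + β) * ‖u‖ ^ β * ‖u - u'‖ = ‖u‖ ^ β * ‖u - u'‖ + β * ‖u‖ ^ β * ‖u - u'‖ := by ring
  rw [h7]
  linarith

theorem JV_nonexp {V : Type} [NormedAddCommGroup V] [InnerProductSpace ℝ V] {β h : ℝ}
    (hβ : 0 < β) (hh : 0 ≤ h) (v w : V) : ‖JV β h v - JV β h w‖ ≤ ‖v - w‖ := by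
  rcases eq_or_lt_of_le (norm_nonneg (JV β h v - JV β h w)) with h0 | h0
  · rw [← h0]; positivity
  · have h3 := BFam_sub hβ hh v w
    have h4 := real_inner_le_norm (v - w) (JV β h v - JV β h w)
    have h5 : inner ℝ (v - w) (JV β h v - JV β h w) = ‖JV β h v - JV β h w‖ ^ 2 +
        h * (1 / 2 * (‖JV β h v‖ ^ β + ‖JV β h w‖ ^ β) * ‖JV β h v - JV β h w‖ ^ 2
        + 1 / 2 * (‖JV β h v‖ ^ β - ‖JV β h w‖ ^ β) * (‖JV β h v‖ ^ 2 - ‖JV β h w‖ ^ 2)) := by
      rw [← BFam_inner]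
      conv_lhs => rw [h3]
      rw [inner_add_left, real_inner_smul_left, real_inner_self_eq_norm_sq]
    have h6 := BFam_mono hβ (norm_nonneg (JV β h v)) (norm_nonneg (JV β h w))
    have h7 : 0 ≤ ‖JV β h v‖ ^ β := by positivity
    have h8 : 0 ≤ ‖JV β h w‖ ^ β := by positivity
    have h9 : 0 ≤ 1 / 2 * (‖JV β h v‖ ^ β + ‖JV β h w‖ ^ β) * ‖JV β h v - JV β h w‖ ^ 2 := by
      positivity
    have h10 : 0 ≤ h * (1 / 2 * (‖JV β h v‖ ^ β + ‖JV β h w‖ ^ β) *
        ‖JV β h v - JV β h w‖ ^ 2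
        + 1 / 2 * (‖JV β h v‖ ^ β - ‖JV β h w‖ ^ β) * (‖JV β h v‖ ^ 2 - ‖JV β h w‖ ^ 2)) :=
      mul_nonneg hh (by linarith)
    have h11 : ‖JV β h v - JV β h w‖ * ‖JV β h v - JV β h w‖ ≤
        ‖v - w‖ * ‖JV β h v - JV β h w‖ := by
      rw [h5] at h4
      nlinarith only [h4, h10]
    exact le_of_mul_le_mul_right h11 h0

/-- `J` is the identity up to a Lipschitz error of order `h` -/
theorem JV_lip {V : Type} [NormedAddCommGroup V] [InnerProductSpace ℝ V] {β h : ℝ}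
    (hβ : 0 < β) (hh : 0 ≤ h) (v w : V) :
    ‖(JV β h v - JV β h w) - (v - w)‖ ≤ h * (1 + β) * (max ‖v‖ ‖w‖) ^ β * ‖v - w‖ := by
  have key : ∀ v w : V, ‖JV β h w‖ ≤ ‖JV β h v‖ →
      ‖(JV β h v - JV β h w) - (v - w)‖ ≤ h * (1 + β) * ‖v‖ ^ β * ‖v - w‖ := by
    intro v w hle
    have h1 : (JV β h v - JV β h w) - (v - w) =
        -(h • (‖JV β h v‖ ^ β • JV β h v - ‖JV β h w‖ ^ β • JV β h w)) := by
      conv_lhs => rw [BFam_sub hβ hh v w]
      abel
    rw [h1, norm_neg, norm_smul, Real.norm_of_nonneg hh]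
    have h2 := BFam_bdiff hβ (JV β h v) (JV β h w) hle
    have h3 : ‖JV β h v‖ ≤ ‖v‖ := by
      rw [norm_JV hβ hh]
      exact psi_le hβ hh (norm_nonneg v)
    have h4 : ‖JV β h v‖ ^ β ≤ ‖v‖ ^ β := Real.rpow_le_rpow (norm_nonneg _) h3 hβ.le
    have h5 := JV_nonexp hβ hh v w
    have h6 : (1 + β) * ‖JV β h v‖ ^ β * ‖JV β h v - JV β h w‖ ≤
        (1 + β) * ‖v‖ ^ β * ‖v - w‖ := by
      have := Real.rpow_nonneg (norm_nonneg (JV β h v)) β
      gcongr
    calc h * ‖‖JV β h v‖ ^ β • JV β h v - ‖JV β h w‖ ^ β • JV β h w‖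
        ≤ h * ((1 + β) * ‖v‖ ^ β * ‖v - w‖) := mul_le_mul_of_nonneg_left (h2.trans h6) hh
      _ = h * (1 + β) * ‖v‖ ^ β * ‖v - w‖ := by ring
  have hm : ∀ x : ℝ, 0 ≤ x → x ≤ max ‖v‖ ‖w‖ →
      h * (1 + β) * x ^ β * ‖v - w‖ ≤ h * (1 + β) * (max ‖v‖ ‖w‖) ^ β * ‖v - w‖ := by
    intro x hx hxm
    have := Real.rpow_le_rpow hx hxm hβ.le
    gcongr
  rcases le_total ‖JV β h w‖ ‖JV β h v‖ with hle | hle
  · exact (key v w hle).trans (hm _ (norm_nonneg v) (le_max_left _ _))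
  · have h1 := key w v hle
    have h2 : ‖(JV β h v - JV β h w) - (v - w)‖ = ‖(JV β h w - JV β h v) - (w - v)‖ := by
      rw [← norm_neg]
      congr 1
      abel
    rw [h2]
    refine h1.trans ?_
    rw [norm_sub_rev w v]
    exact hm _ (norm_nonneg w) (le_max_right _ _)

private theorem BFam_coup_norm {V : Type} [NormedAddCommGroup V] [InnerProductSpace ℝ V]
    {ι : Type} [Fintype ι] {d : ℕ} (net : Net ι d) (G : ι → V) (x : ι) :
    ‖coupV net G x‖ ≤ cpl net (nrm G) x := by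
  unfold coupV cpl nrm
  refine (norm_sub_le _ _).trans ?_
  refine add_le_add (norm_sum_le _ _) ?_
  rw [norm_smul, Real.norm_of_nonneg (Nat.cast_nonneg _)]

private theorem BFam_coup_sub {V : Type} [NormedAddCommGroup V] [InnerProductSpace ℝ V]
    {ι : Type} [Fintype ι] {d : ℕ} (net : Net ι d) (G G' : ι → V) (x : ι) :
    coupV net G x - coupV net G' x = coupV net (fun y => G y - G' y) x := by
  unfold coupV
  rw [Finset.sum_sub_distrib, smul_sub]
  abel

private theorem BFam_exp (h : ℝ) (η g : ℂ) :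
    ‖Complex.exp (((Real.sqrt h : ℝ) : ℂ) * η) * g‖ = Real.exp (bC h η) * ‖g‖ := by
  rw [norm_mul, Complex.norm_exp]
  congr 2
  unfold bC
  simp

private theorem BFam_q (d : ℕ) {β k h : ℝ} (hβ : 0 < β) (hk : 0 ≤ k) (hh : 0 < h) (L : ℕ)
    (G η : boxS d L → ℂ) :
    QStep (boxNet d L) β h k (fun x => bC h (η x)) (nrm G) (nrm (st2 d β k h L G η)) := by
  have hc : ∀ x, ‖(k * h) • coupV (boxNet d L) G x‖ ≤ k * h * cpl (boxNet d L) (nrm G) x := by
    intro x
    rw [norm_smul, Real.norm_of_nonneg (mul_nonneg hk hh.le)]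
    exact mul_le_mul_of_nonneg_left (BFam_coup_norm _ _ _) (mul_nonneg hk hh.le)
  have hJ : ∀ x, ‖JV β h (Complex.exp (((Real.sqrt h : ℝ) : ℂ) * η x) * G x)‖ =
      psi β h (Real.exp (bC h (η x)) * nrm G x) := by
    intro x
    rw [norm_JV hβ hh.le, BFam_exp]
    rfl
  refine ⟨fun x => norm_nonneg _, fun x => norm_nonneg _, fun x => ?_, fun x => ?_⟩
  · change ‖JV β h (Complex.exp (((Real.sqrt h : ℝ) : ℂ) * η x) * G x) +
      (k * h) • coupV (boxNet d L) G x‖ ≤ _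
    refine (norm_add_le _ _).trans ?_
    rw [hJ]
    exact add_le_add le_rfl (hc x)
  · change _ ≤ ‖JV β h (Complex.exp (((Real.sqrt h : ℝ) : ℂ) * η x) * G x) +
      (k * h) • coupV (boxNet d L) G x‖
    have h1 := norm_sub_le (JV β h (Complex.exp (((Real.sqrt h : ℝ) : ℂ) * η x) * G x) +
      (k * h) • coupV (boxNet d L) G x) ((k * h) • coupV (boxNet d L) G x)
    rw [add_sub_cancel_right, hJ] at h1
    have h2 := hc x
    linarith

private theorem BFam_u (d : ℕ) {β k h : ℝ} (hβ : 0 < β) (hk : 0 ≤ k) (hh : 0 < h) (L : ℕ)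
    (G η : boxS d L → ℂ) (x : boxS d L) :
    nrm (st2 d β k h L G η) x ≤ Real.exp (bC h (η x)) * nrm G x +
      k * h * cpl (boxNet d L) (nrm G) x := by
  refine ((BFam_q d hβ hk hh L G η).up x).trans (add_le_add ?_ le_rfl)
  exact psi_le hβ hh.le (mul_nonneg (Real.exp_pos _).le (norm_nonneg _))

private theorem BFam_d (d : ℕ) {β k h : ℝ} (hβ : 0 < β) (hk : 0 ≤ k) (hh : 0 < h) (L : ℕ)
    (G G' η : boxS d L → ℂ) :
    DStep (boxNet d L) h k (fun x => bC h (η x)) (dif G G')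
      (dif (st2 d β k h L G η) (st2 d β k h L G' η)) := by
  refine ⟨fun x => norm_nonneg _, fun x => norm_nonneg _, fun x => ?_⟩
  change ‖(JV β h (Complex.exp (((Real.sqrt h : ℝ) : ℂ) * η x) * G x) +
      (k * h) • coupV (boxNet d L) G x) -
    (JV β h (Complex.exp (((Real.sqrt h : ℝ) : ℂ) * η x) * G' x) +
      (k * h) • coupV (boxNet d L) G' x)‖ ≤ _
  have h1 : (JV β h (Complex.exp (((Real.sqrt h : ℝ) : ℂ) * η x) * G x) +
      (k * h) • coupV (boxNet d L) G x) -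
    (JV β h (Complex.exp (((Real.sqrt h : ℝ) : ℂ) * η x) * G' x) +
      (k * h) • coupV (boxNet d L) G' x) =
      (JV β h (Complex.exp (((Real.sqrt h : ℝ) : ℂ) * η x) * G x) -
        JV β h (Complex.exp (((Real.sqrt h : ℝ) : ℂ) * η x) * G' x)) +
      (k * h) • coupV (boxNet d L) (fun y => G y - G' y) x := by
    rw [← BFam_coup_sub, smul_sub]
    abel
  rw [h1]
  refine (norm_add_le _ _).trans (add_le_add ?_ ?_)
  · refine (JV_nonexp hβ hh.le _ _).trans (le_of_eq ?_)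
    rw [← mul_sub, BFam_exp]
    rfl
  · rw [norm_smul, Real.norm_of_nonneg (mul_nonneg hk hh.le)]
    exact mul_le_mul_of_nonneg_left (BFam_coup_norm _ _ _) (mul_nonneg hk hh.le)

private theorem BFam_m1 (d : ℕ) (β k h : ℝ) (L : ℕ) :
    Measurable fun p : ((boxS d L → ℂ) × (boxS d L → ℂ)) × (boxS d L → ℂ) =>
      st2 d β k h L p.1.1 p.2 := by
  have h3 : Measurable fun p : ((boxS d L → ℂ) × (boxS d L → ℂ)) × (boxS d L → ℂ) =>
      (p.1.1, p.2) := (measurable_fst.comp measurable_fst).prodMk measurable_snd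
  have h4 := (measurable_st2 d β k h L).comp h3
  exact h4

private theorem BFam_m2 (d : ℕ) (β k h : ℝ) (L : ℕ) :
    Measurable fun p : ((boxS d L → ℂ) × (boxS d L → ℂ)) × (boxS d L → ℂ) =>
      st2 d β k h L p.1.2 p.2 := by
  have h3 : Measurable fun p : ((boxS d L → ℂ) × (boxS d L → ℂ)) × (boxS d L → ℂ) =>
      (p.1.2, p.2) := (measurable_snd.comp measurable_fst).prodMk measurable_snd
  have h4 := (measurable_st2 d β k h L).comp h3
  exact h4

private theorem BFam_mst (d : ℕ) (β k h : ℝ) (L : ℕ) :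
    Measurable fun p : ((boxS d L → ℂ) × (boxS d L → ℂ)) × (boxS d L → ℂ) =>
      (st2 d β k h L p.1.1 p.2, st2 d β k h L p.1.2 p.2) :=
  (BFam_m1 d β k h L).prodMk (BFam_m2 d β k h L)

private theorem BFam_mb (h : ℝ) : Measurable (bC h) :=
  Complex.measurable_re.const_mul _

private theorem BFam_mgd (h : ℝ) : MeasurableSet (gdC h) :=
  measurableSet_le (measurable_norm.const_mul _) measurable_const

/-- pair system of the complex chain: same noise -/
def PS2 (d : ℕ) (β k : ℝ) (hβ : 0 < β) (hk : 0 ≤ k) : PSys (Fam2 d β k) β k where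
  Ωp := ℂ
  ν := gC
  b := bC
  gd := gdC
  st := fun h L G η => (st2 d β k h L G.1 η, st2 d β k h L G.2 η)
  mst := fun h L => BFam_mst d β k h L
  mb := BFam_mb
  mgd := BFam_mgd
  marg1 := fun _ _ _ => rfl
  marg2 := fun _ _ _ => rfl
  q1 := fun _ L G ω hh _ => BFam_q d hβ hk hh L G.1 ω
  q2 := fun _ L G ω hh _ => BFam_q d hβ hk hh L G.2 ω
  u1 := fun _ L G ω hh x => BFam_u d hβ hk hh L G.1 ω x
  u2 := fun _ L G ω hh x => BFam_u d hβ hk hh L G.2 ω x
  dd := fun _ L G ω hh => BFam_d d hβ hk hh L G.1 G.2 ω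

end

end DynC

end

/-! ### from `Lib_MP_36b788c.MNz` -/

section

/-!
# Matrix noise

`MN V H`: site noise `ω : H` acting by a random linear map `A h ω` on `V`, with a Cameron-Martin direction `e0`.
`stM` is the chain `G⁺(x) = J(A(ω_x) G(x)) + k h coup G (x)`.

PROOF.
* `MN2`: `V = H = ℂ`, `A h η v = e^{√h η} v`, `gd = gdC`, `e0 = 1`. `E e^{√h η} = e^{h/2} e^{-h/2} = 1`, `E|e^{√h η} - 1|² = e^{2h} - 1`. `cm`: `CMart gC` from `cmart_real` on both real coordinates (product measure, as `cmart_pi`). `near`: `|e^w - 1| ≤ 2|w|` for `|w| ≤ 1`. `sh`: `|e^{√h c} - 1 - √h c| ≤ h c²`, `|e^{√h η}| ≤ 3`.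
  `sh2`: `|e^{√h c} - 1| ≤ 2 √h |c|`. `st2 = stM` by `rfl` or `funext`.
* `MN3 N`: `H = EuclideanSpace ℝ (Fin (N*N))` (matrices `B` by `finProdFinEquiv`), `γ` standard Gaussian (`cmart_std`), `A h B v = v + √h B v`, `gd = {√h ‖B‖ ≤ h^{3/8}}`, `e0` = identity matrix (`‖e0‖² = N`), `‖B v‖ ≤ ‖B‖ ‖v‖`. `sh`: `A(B + c I) v - (1+√h c) A(B) v = -√h c √h B v`. `E‖√h B v‖² = h N ‖v‖²`. Tail: Gaussian norm tail.
* `law3`: for fixed `G` the vector `(B_x G_x)_x` has the law of `(‖G_x‖ ξ_x)_x` (independent over `x`; for fixed `v`, `B v ~ N(0, ‖v‖² I)`: characteristic functions), so one step has the same law as `stp`.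
* `traj_law`: induction on `n` with `lintegral_cons`: `traj f s (a :: ω) = s :: traj f (f s a) ω`, `Φ (s :: ·)` is `Dep (n-1)`; `Ψ(s') = ∫⁻ Φ (s :: traj f2 s' ω)` is measurable and `∫⁻ Ψ (f1 s a) dμ1 = ∫⁻ Ψ (f2 s a) dμ2`.
-/

open MeasureTheory ProbabilityTheory
open scoped ENNReal

namespace DynC

open Dyn

/-- matrix noise -/
structure MN (V H : Type) [NormedAddCommGroup V] [InnerProductSpace ℝ V] [MeasurableSpace V]
    [NormedAddCommGroup H] [InnerProductSpace ℝ H] [MeasurableSpace H] where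
  γ : Measure H
  [pγ : IsProbabilityMeasure γ]
  A : ℝ → H → V →ₗ[ℝ] V
  gd : ℝ → Set H
  e0 : H
  C : ℝ
  cm : CMart γ
  mA : ∀ h, Measurable fun p : H × V => A h p.1 p.2
  mgd : ∀ h, MeasurableSet (gd h)
  C1 : 1 ≤ C
  e0n : ‖e0‖ ≤ C
  int : ∀ h v, 0 < h → h < 1 → Integrable (fun ω => A h ω v) γ
  mean : ∀ h v, 0 < h → h < 1 → ∫ ω, A h ω v ∂γ = v
  var : ∀ h v, 0 < h → h < 1 →
    ∫⁻ ω, ENNReal.ofReal (‖A h ω v - v‖ ^ 2) ∂γ ≤ ENNReal.ofReal (C * h * ‖v‖ ^ 2)
  tail : ∃ h0 : ℝ, 0 < h0 ∧ ∀ h, 0 < h → h < h0 → γ (gd h)ᶜ ≤ ENNReal.ofReal (h ^ 3)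
  near : ∀ h ω v, 0 < h → h < 1 → ω ∈ gd h → ‖A h ω v - v‖ ≤ C * h ^ (3 / 8 : ℝ) * ‖v‖
  sh : ∀ h ω (c : ℝ) v, 0 < h → h < 1 → |c| ≤ 1 → ω ∈ gd h →
    ‖A h (ω + c • e0) v - (1 + Real.sqrt h * c) • A h ω v‖ ≤
      C * h ^ (7 / 8 : ℝ) * |c| * ‖v‖
  sh2 : ∀ h ω (c : ℝ) v, 0 < h → h < 1 → |c| ≤ 1 →
    ‖A h (ω + c • e0) v - A h ω v‖ ≤ C * Real.sqrt h * |c| * (‖v‖ + ‖A h ω v‖)

attribute [instance] MN.pγ

section

variable {V H : Type} [NormedAddCommGroup V] [InnerProductSpace ℝ V] [MeasurableSpace V]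
  [NormedAddCommGroup H] [InnerProductSpace ℝ H] [MeasurableSpace H]

/-- product site noise -/
noncomputable def MN.mu (M : MN V H) (d L : ℕ) : Measure (boxS d L → H) := Measure.pi fun _ => M.γ

instance (M : MN V H) (d L : ℕ) : IsProbabilityMeasure (M.mu d L) := by
  unfold MN.mu; infer_instance

/-- step of the matrix chain -/
noncomputable def MN.st (M : MN V H) {d : ℕ} (β k h : ℝ) (L : ℕ) (G : boxS d L → V)
    (ω : boxS d L → H) : boxS d L → V :=
  fun x => JV β h (M.A h (ω x) (G x)) + (k * h) • coupV (boxNet d L) G x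

private theorem MNz_psi_meas (β h : ℝ) : Measurable (psi β h) := by
  refine measurable_of_Ioi fun c => ?_
  rcases lt_or_ge c 0 with hc | hc
  · have h1 : psi β h ⁻¹' Set.Ioi c = Set.univ := by
      ext v
      simp only [Set.mem_preimage, Set.mem_Ioi, Set.mem_univ, iff_true]
      exact hc.trans_le (psi_nonneg β h v)
    rw [h1]
    exact MeasurableSet.univ
  · have h1 : psi β h ⁻¹' Set.Ioi c =
        {v : ℝ | BddAbove {t : ℝ | 0 ≤ t ∧ t + h * t ^ (1 + β) ≤ v}} ∩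
        {v : ℝ | ∃ t : ℝ, c < t ∧ 0 ≤ t ∧ t + h * t ^ (1 + β) ≤ v} := by
      ext v
      constructor
      · intro hv
        have hv' : c < sSup {t : ℝ | 0 ≤ t ∧ t + h * t ^ (1 + β) ≤ v} := hv
        have hb : BddAbove {t : ℝ | 0 ≤ t ∧ t + h * t ^ (1 + β) ≤ v} := by
          by_contra hb
          rw [Real.sSup_of_not_bddAbove hb] at hv'
          linarith
        have hne : {t : ℝ | 0 ≤ t ∧ t + h * t ^ (1 + β) ≤ v}.Nonempty := by
          by_contra hne
          rw [Set.not_nonempty_iff_eq_empty] at hne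
          rw [hne, Real.sSup_empty] at hv'
          linarith
        obtain ⟨t, ht, hct⟩ := (lt_csSup_iff hb hne).1 hv'
        exact ⟨hb, t, hct, ht.1, ht.2⟩
      · rintro ⟨hb, t, hct, ht⟩
        exact hct.trans_le (le_csSup hb ht)
    rw [h1]
    refine MeasurableSet.inter ?_ ?_
    · refine (IsLowerSet.ordConnected ?_).measurableSet
      intro v w hwv hv
      have h2 : {t : ℝ | 0 ≤ t ∧ t + h * t ^ (1 + β) ≤ w} ⊆
          {t : ℝ | 0 ≤ t ∧ t + h * t ^ (1 + β) ≤ v} := fun t ht => ⟨ht.1, ht.2.trans hwv⟩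
      exact BddAbove.mono h2 hv
    · refine (IsUpperSet.ordConnected ?_).measurableSet
      rintro v w hvw ⟨t, hct, ht0, ht⟩
      exact ⟨t, hct, ht0, ht.trans hvw⟩

private theorem MNz_JV_meas {V : Type} [NormedAddCommGroup V] [InnerProductSpace ℝ V]
    [MeasurableSpace V] [BorelSpace V] [SecondCountableTopology V] (β h : ℝ) :
    Measurable (JV β h : V → V) := by
  unfold JV
  exact (((MNz_psi_meas β h).comp measurable_norm).div measurable_norm).smul measurable_id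

private theorem MNz_coup_meas {V : Type} [NormedAddCommGroup V] [InnerProductSpace ℝ V]
    [MeasurableSpace V] [BorelSpace V] [SecondCountableTopology V] {ι : Type} [Fintype ι]
    {d : ℕ} (net : Net ι d) (x : ι) : Measurable fun G : ι → V => coupV net G x := by
  unfold coupV
  refine Measurable.sub ?_ ?_
  · exact Finset.measurable_fun_sum _ fun y _ => measurable_pi_apply y
  · exact (measurable_pi_apply x).const_smul _

theorem MN.measurable_st [BorelSpace V] [SecondCountableTopology V] (M : MN V H) {d : ℕ}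
    (β k h : ℝ) (L : ℕ) :
    Measurable fun p : (boxS d L → V) × (boxS d L → H) => M.st β k h L p.1 p.2 := by
  refine measurable_pi_lambda _ fun x => ?_
  have h1 : Measurable fun p : (boxS d L → V) × (boxS d L → H) => M.A h (p.2 x) (p.1 x) := by
    have h3 : Measurable fun p : (boxS d L → V) × (boxS d L → H) => (p.2 x, p.1 x) :=
      ((measurable_pi_apply x).comp measurable_snd).prodMk
        ((measurable_pi_apply x).comp measurable_fst)
    exact (M.mA h).comp h3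
  exact ((MNz_JV_meas β h).comp h1).add
    (((MNz_coup_meas (boxNet d L) x).comp measurable_fst).const_smul (k * h))

end

private theorem MNz_meas_w {V : Type} [NormedAddCommGroup V] [InnerProductSpace ℝ V]
    [MeasurableSpace V] [BorelSpace V] [SecondCountableTopology V] (a : V) :
    Measurable fun ξ : V => ENNReal.ofReal (Real.exp (-(inner ℝ a ξ) - ‖a‖ ^ 2 / 2)) := by
  apply ENNReal.measurable_ofReal.comp
  apply Real.measurable_exp.comp
  apply Measurable.sub_const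
  apply Measurable.neg
  exact (measurable_const.inner measurable_id)

theorem cmart_gC : CMart gC := by
  intro a Φ hΦ
  have hL : Measurable fun ξ : ℂ => Φ (ξ + a) *
      ENNReal.ofReal (Real.exp (-(inner ℝ a ξ) - ‖a‖ ^ 2 / 2)) :=
    (hΦ.comp (measurable_add_const a)).mul (MNz_meas_w a)
  have hL2 : Measurable fun p : ℝ × ℝ => Φ ((⟨p.1, p.2⟩ : ℂ) + a) *
      ENNReal.ofReal (Real.exp (-(inner ℝ a (⟨p.1, p.2⟩ : ℂ)) - ‖a‖ ^ 2 / 2)) :=
    hL.comp measurable_mkC
  have hΦ2 : Measurable fun p : ℝ × ℝ => Φ (⟨p.1, p.2⟩ : ℂ) := hΦ.comp measurable_mkC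
  unfold gC
  rw [lintegral_map hL measurable_mkC, lintegral_map hΦ measurable_mkC,
    lintegral_prod _ hL2.aemeasurable, lintegral_prod _ hΦ2.aemeasurable]
  have e : ∀ x y : ℝ, Φ ((⟨x, y⟩ : ℂ) + a) *
      ENNReal.ofReal (Real.exp (-(inner ℝ a (⟨x, y⟩ : ℂ)) - ‖a‖ ^ 2 / 2)) =
      (Φ (⟨x + a.re, y + a.im⟩ : ℂ) *
        ENNReal.ofReal (Real.exp (-(inner ℝ a.im y) - ‖a.im‖ ^ 2 / 2))) *
        ENNReal.ofReal (Real.exp (-(inner ℝ a.re x) - ‖a.re‖ ^ 2 / 2)) := by
    intro x y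
    have e1 : (⟨x, y⟩ : ℂ) + a = ⟨x + a.re, y + a.im⟩ := by
      apply Complex.ext <;> simp
    rw [e1, mul_assoc, ← ENNReal.ofReal_mul (Real.exp_pos _).le, ← Real.exp_add]
    congr 3
    have e2 : ‖a‖ ^ 2 = a.re ^ 2 + a.im ^ 2 := by
      rw [← Complex.normSq_eq_norm_sq, Complex.normSq_apply]
      ring
    rw [e2, Complex.inner]
    simp only [Complex.mul_re, Complex.conj_re, Complex.conj_im, RCLike.inner_apply, conj_trivial,
      Real.norm_eq_abs, sq_abs]
    ring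
  have h1 : ∀ x : ℝ, ∫⁻ y, Φ ((⟨x, y⟩ : ℂ) + a) *
      ENNReal.ofReal (Real.exp (-(inner ℝ a (⟨x, y⟩ : ℂ)) - ‖a‖ ^ 2 / 2)) ∂(gaussianReal 0 1) =
      (∫⁻ y, Φ (⟨x + a.re, y⟩ : ℂ) ∂(gaussianReal 0 1)) *
        ENNReal.ofReal (Real.exp (-(inner ℝ a.re x) - ‖a.re‖ ^ 2 / 2)) := by
    intro x
    have hm : Measurable fun y : ℝ => Φ (⟨x + a.re, y⟩ : ℂ) :=
      hΦ.comp (measurable_mkC.comp (measurable_const.prodMk measurable_id))
    have hc := cmart_real a.im (fun y : ℝ => Φ (⟨x + a.re, y⟩ : ℂ)) hm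
    have hm' : Measurable fun y : ℝ => Φ (⟨x + a.re, y + a.im⟩ : ℂ) *
        ENNReal.ofReal (Real.exp (-(inner ℝ a.im y) - ‖a.im‖ ^ 2 / 2)) :=
      (hm.comp (measurable_add_const a.im)).mul (MNz_meas_w a.im)
    rw [← hc, ← lintegral_mul_const _ hm']
    exact lintegral_congr fun y => e x y
  have hm2 : Measurable fun x : ℝ => ∫⁻ y, Φ (⟨x, y⟩ : ℂ) ∂(gaussianReal 0 1) :=
    Measurable.lintegral_prod_right' (f := fun p : ℝ × ℝ => Φ (⟨p.1, p.2⟩ : ℂ))
      (hΦ.comp measurable_mkC)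
  have hc2 := cmart_real a.re (fun x : ℝ => ∫⁻ y, Φ (⟨x, y⟩ : ℂ) ∂(gaussianReal 0 1)) hm2
  rw [← hc2]
  exact lintegral_congr fun x => h1 x

private theorem MNz_cexp_int (c : ℂ) :
    Integrable (fun x : ℝ => Complex.exp (c * x)) (gaussianReal 0 1) := by
  refine (integrable_exp_mul_gaussianReal (μ := 0) (v := 1) c.re).mono' ?_
    (Filter.Eventually.of_forall fun x => ?_)
  · exact (Complex.continuous_exp.comp
      (continuous_const.mul Complex.continuous_ofReal)).aestronglyMeasurable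
  · rw [Complex.norm_exp]
    simp

private theorem MNz_cexp_val (c : ℂ) :
    ∫ x : ℝ, Complex.exp (c * x) ∂(gaussianReal 0 1) = Complex.exp (c ^ 2 / 2) := by
  have h := complexMGF_id_gaussianReal (μ := 0) (v := 1) c
  unfold complexMGF at h
  simpa using h

private theorem MNz_split (c : ℂ) (p : ℝ × ℝ) : Complex.exp (c * (⟨p.1, p.2⟩ : ℂ)) =
    Complex.exp (c * p.1) * Complex.exp ((c * Complex.I) * p.2) := by
  rw [← Complex.exp_add]
  congr 1
  have h : (⟨p.1, p.2⟩ : ℂ) = p.1 + p.2 * Complex.I := by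
    apply Complex.ext <;> simp
  rw [h]
  ring

private theorem MNz_meas_exp (c : ℂ) : Measurable fun η : ℂ => Complex.exp (c * η) :=
  Complex.measurable_exp.comp (measurable_id.const_mul c)

private theorem MNz_g_int (c : ℂ) : Integrable (fun η : ℂ => Complex.exp (c * η)) gC := by
  unfold gC
  rw [integrable_map_measure (MNz_meas_exp c).aestronglyMeasurable measurable_mkC.aemeasurable]
  have h := (MNz_cexp_int c).mul_prod (MNz_cexp_int (c * Complex.I))
  refine h.congr (Filter.Eventually.of_forall fun p => ?_)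
  exact (MNz_split c p).symm

private theorem MNz_g_val (c : ℂ) : ∫ η : ℂ, Complex.exp (c * η) ∂gC = 1 := by
  unfold gC
  rw [integral_map measurable_mkC.aemeasurable (MNz_meas_exp c).aestronglyMeasurable]
  have h1 : ∀ p : ℝ × ℝ, Complex.exp (c * (⟨p.1, p.2⟩ : ℂ)) =
    Complex.exp (c * p.1) * Complex.exp ((c * Complex.I) * p.2) := MNz_split c
  rw [integral_congr_ae (Filter.Eventually.of_forall h1),
    integral_prod_mul (fun x : ℝ => Complex.exp (c * x))
      (fun y : ℝ => Complex.exp ((c * Complex.I) * y)), MNz_cexp_val, MNz_cexp_val,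
    ← Complex.exp_add]
  rw [mul_pow, Complex.I_sq]
  have : c ^ 2 / 2 + c ^ 2 * -1 / 2 = 0 := by ring
  rw [this, Complex.exp_zero]

private theorem MNz_norm_exp (h : ℝ) (η : ℂ) :
    ‖Complex.exp (((Real.sqrt h : ℝ) : ℂ) * η)‖ ^ 2 = Real.exp (2 * Real.sqrt h * η.re) := by
  rw [Complex.norm_exp, ← Real.exp_nat_mul]
  congr 1
  simp
  ring

private theorem MNz_re_int (t : ℝ) : Integrable (fun η : ℂ => Real.exp (t * η.re)) gC := by
  unfold gC
  have hm : Measurable fun η : ℂ => Real.exp (t * η.re) :=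
    Real.measurable_exp.comp (Complex.measurable_re.const_mul t)
  rw [integrable_map_measure hm.aestronglyMeasurable measurable_mkC.aemeasurable]
  exact (integrable_exp_mul_gaussianReal (μ := 0) (v := 1) t).comp_fst _

private theorem MNz_re_val (t : ℝ) : ∫ η : ℂ, Real.exp (t * η.re) ∂gC = Real.exp (t ^ 2 / 2) := by
  unfold gC
  have hm : Measurable fun η : ℂ => Real.exp (t * η.re) :=
    Real.measurable_exp.comp (Complex.measurable_re.const_mul t)
  rw [integral_map measurable_mkC.aemeasurable hm.aestronglyMeasurable]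
  have h1 := integral_fun_fst (μ := gaussianReal 0 1) (ν := gaussianReal 0 1)
    (f := fun x : ℝ => Real.exp (t * x))
  rw [h1]
  have h2 := mgf_gaussianReal (p := gaussianReal 0 1) (X := id) (μ := 0) (v := 1) (by simp) t
  unfold mgf at h2
  simpa using h2

/-- `E ‖e^{√h η} - 1‖² = e^{2h} - 1` -/
private theorem MNz_var (h : ℝ) (hh : 0 ≤ h) :
    Integrable (fun η : ℂ => ‖Complex.exp (((Real.sqrt h : ℝ) : ℂ) * η) - 1‖ ^ 2) gC ∧
    ∫ η : ℂ, ‖Complex.exp (((Real.sqrt h : ℝ) : ℂ) * η) - 1‖ ^ 2 ∂gC = Real.exp (2 * h) - 1 := by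
  have e : ∀ η : ℂ, ‖Complex.exp (((Real.sqrt h : ℝ) : ℂ) * η) - 1‖ ^ 2 =
      Real.exp (2 * Real.sqrt h * η.re) -
        2 * (Complex.exp (((Real.sqrt h : ℝ) : ℂ) * η)).re + 1 := by
    intro η
    rw [← MNz_norm_exp, ← Complex.normSq_eq_norm_sq, ← Complex.normSq_eq_norm_sq,
      Complex.normSq_apply, Complex.normSq_apply]
    simp
    ring
  have i1 := MNz_re_int (2 * Real.sqrt h)
  have i2 : Integrable (fun η : ℂ => (Complex.exp (((Real.sqrt h : ℝ) : ℂ) * η)).re) gC :=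
    (MNz_g_int ((Real.sqrt h : ℝ) : ℂ)).re
  have hs : Integrable (fun η : ℂ => Real.exp (2 * Real.sqrt h * η.re) -
        2 * (Complex.exp (((Real.sqrt h : ℝ) : ℂ) * η)).re + 1) gC :=
    (i1.sub (i2.const_mul 2)).add (integrable_const 1)
  refine ⟨hs.congr (Filter.Eventually.of_forall fun η => (e η).symm), ?_⟩
  rw [integral_congr_ae (Filter.Eventually.of_forall e)]
  have h1 := integral_add (i1.sub (i2.const_mul 2)) (integrable_const (μ := gC) (1 : ℝ))
  have h2 := integral_sub i1 (i2.const_mul 2)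
  simp only [Pi.sub_apply] at h1
  rw [h1, h2, integral_const_mul, MNz_re_val, integral_const]
  have h3 : ∫ η : ℂ, (Complex.exp (((Real.sqrt h : ℝ) : ℂ) * η)).re ∂gC = 1 := by
    have h4 := integral_re (MNz_g_int ((Real.sqrt h : ℝ) : ℂ))
    rw [MNz_g_val] at h4
    simpa using h4
  rw [h3, probReal_univ]
  have h5 : (2 * Real.sqrt h) ^ 2 / 2 = 2 * h := by
    rw [mul_pow, Real.sq_sqrt hh]
    ring
  rw [h5]
  simp only [smul_eq_mul]
  ring

private theorem MNz_exp2 (h : ℝ) (h0 : 0 < h) (h1 : h < 1) : Real.exp (2 * h) - 1 ≤ 8 * h := by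
  have h2 := convexOn_exp.2 (Set.mem_univ (0:ℝ)) (Set.mem_univ (2:ℝ)) (by linarith : 0 ≤ 1 - h) h0.le
    (by ring)
  simp only [smul_eq_mul, mul_zero, zero_add, Real.exp_zero, mul_one] at h2
  have h3 : Real.exp 2 ≤ 9 := by
    have h4 := Real.exp_one_lt_d9
    have h5 : Real.exp 2 = Real.exp 1 ^ 2 := by
      rw [← Real.exp_nat_mul]
      norm_num
    rw [h5]
    have h6 : Real.exp 1 ≤ 3 := by linarith
    have h7 := Real.exp_pos 1
    nlinarith
  have h8 : h * 2 = 2 * h := by ring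
  rw [h8] at h2
  have h9 : h * Real.exp 2 ≤ h * 9 := mul_le_mul_of_nonneg_left h3 h0.le
  linarith

private theorem MNz_tail {H : Type} [NormedAddCommGroup H] [InnerProductSpace ℝ H]
    [CompleteSpace H] [MeasurableSpace H] [BorelSpace H] [SecondCountableTopology H]
    (γ : Measure H) [IsGaussian γ] :
    ∃ h0 : ℝ, 0 < h0 ∧ ∀ h, 0 < h → h < h0 →
      γ {x : H | Real.sqrt h * ‖x‖ ≤ h ^ (3 / 8 : ℝ)}ᶜ ≤ ENNReal.ofReal (h ^ 3) := by
  have hi : Integrable (fun x : H => ‖x‖ ^ 32) γ :=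
    (IsGaussian.memLp_id γ (32 : ℕ) (by simp)).integrable_norm_pow'
  set M := ∫ x : H, ‖x‖ ^ 32 ∂γ with hM
  have hM0 : 0 ≤ M := integral_nonneg fun x => by positivity
  refine ⟨1 / (M + 1), by positivity, fun h hh hlt => ?_⟩
  have h2 : h * M ≤ 1 := by
    have := (lt_div_iff₀ (by positivity : 0 < M + 1)).1 hlt
    nlinarith
  have hpt : ∀ x : H, ({x : H | Real.sqrt h * ‖x‖ ≤ h ^ (3 / 8 : ℝ)}ᶜ).indicator
      (fun _ => (1 : ℝ≥0∞)) x ≤ ENNReal.ofReal (h ^ 4 * ‖x‖ ^ 32) := by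
    intro x
    by_cases hx : x ∈ {x : H | Real.sqrt h * ‖x‖ ≤ h ^ (3 / 8 : ℝ)}ᶜ
    · rw [Set.indicator_of_mem hx]
      have hx' : h ^ (3 / 8 : ℝ) < Real.sqrt h * ‖x‖ := not_le.1 hx
      have h3 : 0 < h ^ (3 / 8 : ℝ) := Real.rpow_pos_of_pos hh _
      have h4 : (h ^ (3 / 8 : ℝ)) ^ 32 ≤ (Real.sqrt h * ‖x‖) ^ 32 := pow_le_pow_left₀ h3.le hx'.le 32
      have h5 : (h ^ (3 / 8 : ℝ)) ^ 32 = h ^ 12 := by
        rw [← Real.rpow_natCast, ← Real.rpow_mul hh.le, ← Real.rpow_natCast h 12]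
        norm_num
      have h6 : (Real.sqrt h * ‖x‖) ^ 32 = h ^ 16 * ‖x‖ ^ 32 := by
        rw [mul_pow, show (32 : ℕ) = 2 * 16 by norm_num, pow_mul (Real.sqrt h), Real.sq_sqrt hh.le]
      rw [h5, h6] at h4
      have h7 : 0 < h ^ 12 := by positivity
      have h8 : 1 ≤ h ^ 4 * ‖x‖ ^ 32 := by
        have h9 : h ^ 12 * 1 ≤ h ^ 12 * (h ^ 4 * ‖x‖ ^ 32) := by
          calc h ^ 12 * 1 = h ^ 12 := mul_one _
            _ ≤ h ^ 16 * ‖x‖ ^ 32 := h4
            _ = h ^ 12 * (h ^ 4 * ‖x‖ ^ 32) := by ring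
        exact le_of_mul_le_mul_left h9 h7
      rw [← ENNReal.ofReal_one]
      exact ENNReal.ofReal_le_ofReal h8
    · rw [Set.indicator_of_notMem hx]
      exact bot_le
  have hms : MeasurableSet {x : H | Real.sqrt h * ‖x‖ ≤ h ^ (3 / 8 : ℝ)}ᶜ :=
    (measurableSet_le (measurable_norm.const_mul _) measurable_const).compl
  calc γ {x : H | Real.sqrt h * ‖x‖ ≤ h ^ (3 / 8 : ℝ)}ᶜ
      = ∫⁻ x, ({x : H | Real.sqrt h * ‖x‖ ≤ h ^ (3 / 8 : ℝ)}ᶜ).indicator
          (fun _ => (1 : ℝ≥0∞)) x ∂γ := by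
        rw [lintegral_indicator_const hms, one_mul]
    _ ≤ ∫⁻ x, ENNReal.ofReal (h ^ 4 * ‖x‖ ^ 32) ∂γ := lintegral_mono hpt
    _ = ENNReal.ofReal (∫ x, h ^ 4 * ‖x‖ ^ 32 ∂γ) := by
        rw [ofReal_integral_eq_lintegral_ofReal (hi.const_mul _)
          (Filter.Eventually.of_forall fun x => by positivity)]
    _ ≤ ENNReal.ofReal (h ^ 3) := by
        refine ENNReal.ofReal_le_ofReal ?_
        rw [integral_const_mul, ← hM]
        have h10 : h ^ 4 * M = h ^ 3 * (h * M) := by ring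
        rw [h10]
        have h11 : 0 ≤ h ^ 3 := by positivity
        nlinarith

private theorem MNz_gauss_gC : IsGaussian gC := by
  unfold gC
  have h1 : (fun p : ℝ × ℝ => (⟨p.1, p.2⟩ : ℂ)) = Complex.equivRealProdCLM.symm := by
    funext p
    rfl
  rw [h1]
  infer_instance

private theorem MNz_A2 (h : ℝ) (η v : ℂ) :
    (LinearMap.mulLeft ℝ (Complex.exp (((Real.sqrt h : ℝ) : ℂ) * η))) v =
      Complex.exp (((Real.sqrt h : ℝ) : ℂ) * η) * v := rfl

private theorem MNz_small (h : ℝ) (η : ℂ) (h0 : 0 < h) (h1 : h < 1) (hη : η ∈ gdC h) :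
    ‖((Real.sqrt h : ℝ) : ℂ) * η‖ ≤ h ^ (3 / 8 : ℝ) ∧ ‖((Real.sqrt h : ℝ) : ℂ) * η‖ ≤ 1 := by
  have h2 : ‖((Real.sqrt h : ℝ) : ℂ) * η‖ = Real.sqrt h * ‖η‖ := by
    rw [norm_mul, Complex.norm_real, Real.norm_of_nonneg (Real.sqrt_nonneg h)]
  have h3 : h ^ (3 / 8 : ℝ) ≤ 1 := Real.rpow_le_one h0.le h1.le (by norm_num)
  rw [h2]
  exact ⟨hη, le_trans hη h3⟩

/-- complex noise, `N = 2` -/
noncomputable def MN2 : MN ℂ ℂ where
  γ := gC
  A := fun h η => (LinearMap.mulLeft ℝ (Complex.exp (((Real.sqrt h : ℝ) : ℂ) * η)))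
  gd := gdC
  e0 := 1
  C := 8
  cm := cmart_gC
  mA := by
    intro h
    have h1 : Measurable fun p : ℂ × ℂ => Complex.exp (((Real.sqrt h : ℝ) : ℂ) * p.1) * p.2 :=
      ((MNz_meas_exp _).comp measurable_fst).mul measurable_snd
    exact h1
  mgd := by
    intro h
    exact measurableSet_le (measurable_norm.const_mul _) measurable_const
  C1 := by norm_num
  e0n := by
    rw [norm_one]
    norm_num
  int := by
    intro h v _ _
    exact (MNz_g_int _).mul_const v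
  mean := by
    intro h v _ _
    have h1 : ∫ ω : ℂ, Complex.exp (((Real.sqrt h : ℝ) : ℂ) * ω) * v ∂gC = v := by
      rw [integral_mul_const, MNz_g_val, one_mul]
    exact h1
  var := by
    intro h v h0 h1
    obtain ⟨i1, i2⟩ := MNz_var h h0.le
    have e : ∀ ω : ℂ, ‖Complex.exp (((Real.sqrt h : ℝ) : ℂ) * ω) * v - v‖ ^ 2 =
        ‖Complex.exp (((Real.sqrt h : ℝ) : ℂ) * ω) - 1‖ ^ 2 * ‖v‖ ^ 2 := by
      intro ω
      rw [← mul_pow, ← norm_mul]
      congr 2
      ring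
    have h2 : ∫⁻ ω : ℂ, ENNReal.ofReal (‖Complex.exp (((Real.sqrt h : ℝ) : ℂ) * ω) * v - v‖ ^ 2) ∂gC
        ≤ ENNReal.ofReal (8 * h * ‖v‖ ^ 2) := by
      rw [lintegral_congr fun ω => by rw [e ω],
        ← ofReal_integral_eq_lintegral_ofReal (i1.mul_const _)
          (Filter.Eventually.of_forall fun x => by positivity), integral_mul_const, i2]
      refine ENNReal.ofReal_le_ofReal ?_
      exact mul_le_mul_of_nonneg_right (MNz_exp2 h h0 h1) (by positivity)
    exact h2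
  tail := by
    have := MNz_gauss_gC
    exact MNz_tail gC
  near := by
    intro h ω v h0 h1 hω
    obtain ⟨h2, h3⟩ := MNz_small h ω h0 h1 hω
    have h4 := Complex.norm_exp_sub_one_le h3
    rw [MNz_A2]
    have e : Complex.exp (((Real.sqrt h : ℝ) : ℂ) * ω) * v - v =
        (Complex.exp (((Real.sqrt h : ℝ) : ℂ) * ω) - 1) * v := by ring
    rw [e, norm_mul]
    refine mul_le_mul_of_nonneg_right ?_ (norm_nonneg v)
    have h5 : 0 < h ^ (3 / 8 : ℝ) := Real.rpow_pos_of_pos h0 _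
    linarith
  sh := by
    intro h ω c v h0 h1 hc hω
    obtain ⟨h2, h3⟩ := MNz_small h ω h0 h1 hω
    rw [MNz_A2, MNz_A2]
    have hs0 := Real.sqrt_nonneg h
    have hs1 : Real.sqrt h ≤ 1 := Real.sqrt_le_one.2 h1.le
    have hsq : Real.sqrt h * Real.sqrt h = h := Real.mul_self_sqrt h0.le
    have hn : ‖(((Real.sqrt h * c : ℝ)) : ℂ)‖ = Real.sqrt h * |c| := by
      rw [Complex.norm_real, Real.norm_eq_abs, abs_mul, abs_of_nonneg hs0]
    have hn1 : ‖(((Real.sqrt h * c : ℝ)) : ℂ)‖ ≤ 1 := by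
      rw [hn]
      exact mul_le_one₀ hs1 (abs_nonneg c) hc
    have h4 := Complex.norm_exp_sub_one_sub_id_le hn1
    have e : Complex.exp (((Real.sqrt h : ℝ) : ℂ) * (ω + c • (1 : ℂ))) * v -
        (1 + Real.sqrt h * c) • (Complex.exp (((Real.sqrt h : ℝ) : ℂ) * ω) * v) =
        Complex.exp (((Real.sqrt h : ℝ) : ℂ) * ω) *
          (Complex.exp ((Real.sqrt h * c : ℝ) : ℂ) - 1 - ((Real.sqrt h * c : ℝ) : ℂ)) * v := by
      have e1 : ((Real.sqrt h : ℝ) : ℂ) * (ω + c • (1 : ℂ)) =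
          ((Real.sqrt h : ℝ) : ℂ) * ω + ((Real.sqrt h * c : ℝ) : ℂ) := by
        rw [Complex.real_smul]
        push_cast
        ring
      rw [e1, Complex.exp_add, Complex.real_smul]
      push_cast
      ring
    rw [e, norm_mul, norm_mul]
    have h5 : ‖Complex.exp (((Real.sqrt h : ℝ) : ℂ) * ω)‖ ≤ 3 := by
      rw [Complex.norm_exp]
      have h6 := (Complex.abs_re_le_norm (((Real.sqrt h : ℝ) : ℂ) * ω)).trans h3
      have h7 := (abs_le.1 h6).2
      have h8 := Real.exp_le_exp.2 h7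
      have h9 := Real.exp_one_lt_d9
      linarith
    have h10 : ‖Complex.exp ((Real.sqrt h * c : ℝ) : ℂ) - 1 - ((Real.sqrt h * c : ℝ) : ℂ)‖ ≤
        h ^ (7 / 8 : ℝ) * |c| := by
      refine h4.trans ?_
      rw [hn]
      have h11 : h ≤ h ^ (7 / 8 : ℝ) := by
        have := Real.rpow_le_rpow_of_exponent_ge h0 h1.le (by norm_num : (7 / 8 : ℝ) ≤ 1)
        rwa [Real.rpow_one] at this
      have h12 : (Real.sqrt h * |c|) ^ 2 = h * (|c| * |c|) := by
        rw [mul_pow, Real.sq_sqrt h0.le]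
        ring
      rw [h12]
      have h13 : |c| * |c| ≤ 1 * |c| := mul_le_mul_of_nonneg_right hc (abs_nonneg c)
      rw [one_mul] at h13
      exact mul_le_mul h11 h13 (mul_nonneg (abs_nonneg c) (abs_nonneg c)) (by positivity)
    have h14 : 0 ≤ h ^ (7 / 8 : ℝ) * |c| := by positivity
    have h15 : ‖Complex.exp (((Real.sqrt h : ℝ) : ℂ) * ω)‖ *
        ‖Complex.exp ((Real.sqrt h * c : ℝ) : ℂ) - 1 - ((Real.sqrt h * c : ℝ) : ℂ)‖ ≤
        8 * h ^ (7 / 8 : ℝ) * |c| := by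
      have h16 := mul_le_mul h5 h10 (norm_nonneg _) (by norm_num : (0:ℝ) ≤ 3)
      linarith
    exact mul_le_mul_of_nonneg_right h15 (norm_nonneg v)
  sh2 := by
    intro h ω c v h0 h1 hc
    rw [MNz_A2, MNz_A2]
    have hs0 := Real.sqrt_nonneg h
    have hs1 : Real.sqrt h ≤ 1 := Real.sqrt_le_one.2 h1.le
    have hn : ‖(((Real.sqrt h * c : ℝ)) : ℂ)‖ = Real.sqrt h * |c| := by
      rw [Complex.norm_real, Real.norm_eq_abs, abs_mul, abs_of_nonneg hs0]
    have hn1 : ‖(((Real.sqrt h * c : ℝ)) : ℂ)‖ ≤ 1 := by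
      rw [hn]
      exact mul_le_one₀ hs1 (abs_nonneg c) hc
    have h4 := Complex.norm_exp_sub_one_le hn1
    rw [hn] at h4
    have e : Complex.exp (((Real.sqrt h : ℝ) : ℂ) * (ω + c • (1 : ℂ))) * v -
        Complex.exp (((Real.sqrt h : ℝ) : ℂ) * ω) * v =
        (Complex.exp ((Real.sqrt h * c : ℝ) : ℂ) - 1) *
          (Complex.exp (((Real.sqrt h : ℝ) : ℂ) * ω) * v) := by
      have e1 : ((Real.sqrt h : ℝ) : ℂ) * (ω + c • (1 : ℂ)) =
          ((Real.sqrt h : ℝ) : ℂ) * ω + ((Real.sqrt h * c : ℝ) : ℂ) := by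
        rw [Complex.real_smul]
        push_cast
        ring
      rw [e1, Complex.exp_add]
      ring
    rw [e, norm_mul]
    have h5 : 0 ≤ Real.sqrt h * |c| := mul_nonneg hs0 (abs_nonneg c)
    have h6 := norm_nonneg (Complex.exp (((Real.sqrt h : ℝ) : ℂ) * ω) * v)
    have h7 := mul_le_mul_of_nonneg_right h4 h6
    have h8 : 0 ≤ Real.sqrt h * |c| * ‖v‖ := mul_nonneg h5 (norm_nonneg v)
    have h9 : 0 ≤ Real.sqrt h * |c| * ‖Complex.exp (((Real.sqrt h : ℝ) : ℂ) * ω) * v‖ :=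
      mul_nonneg h5 h6
    nlinarith

theorem st2_eq (d : ℕ) (β k h : ℝ) (L : ℕ) : st2 d β k h L = MN2.st (d := d) β k h L := by
  rfl

/-- the matrix with entries `ω (i,j)` acting on `v` -/
noncomputable def actM {N : ℕ} (B : EuclideanSpace ℝ (Fin (N * N))) : E N →ₗ[ℝ] E N where
  toFun := fun v => WithLp.toLp 2 fun i => ∑ j, B (finProdFinEquiv (i, j)) * v j
  map_add' := by
    intro v w
    ext i
    simp only [PiLp.add_apply]
    rw [← Finset.sum_add_distrib]
    exact Finset.sum_congr rfl fun j _ => by ring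
  map_smul' := by
    intro c v
    ext i
    simp only [PiLp.smul_apply, smul_eq_mul, RingHom.id_apply]
    rw [Finset.mul_sum]
    exact Finset.sum_congr rfl fun j _ => by ring

private theorem MNz_act {N : ℕ} (B : EuclideanSpace ℝ (Fin (N * N))) (v : E N) (i : Fin N) :
    actM B v i = ∑ j, B (finProdFinEquiv (i, j)) * v j := rfl

private theorem MNz_nsq {N : ℕ} (B : EuclideanSpace ℝ (Fin (N * N))) :
    ‖B‖ ^ 2 = ∑ i, ∑ j, B (finProdFinEquiv (i, j)) ^ 2 := by
  rw [EuclideanSpace.real_norm_sq_eq, ← finProdFinEquiv.sum_comp, Fintype.sum_prod_type]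

private theorem MNz_act_le {N : ℕ} (B : EuclideanSpace ℝ (Fin (N * N))) (v : E N) :
    ‖actM B v‖ ≤ ‖B‖ * ‖v‖ := by
  refine (sq_le_sq₀ (norm_nonneg _) (by positivity)).1 ?_
  rw [mul_pow, MNz_nsq, EuclideanSpace.real_norm_sq_eq, EuclideanSpace.real_norm_sq_eq,
    Finset.sum_mul]
  refine Finset.sum_le_sum fun i _ => ?_
  rw [MNz_act]
  exact Finset.sum_mul_sq_le_sq_mul_sq _ _ _

/-- the tensor `t ⊗ v` -/
private noncomputable def MNz_tau {N : ℕ} (t v : E N) : EuclideanSpace ℝ (Fin (N * N)) :=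
  WithLp.toLp 2 fun p => t (finProdFinEquiv.symm p).1 * v (finProdFinEquiv.symm p).2

private theorem MNz_tau_ap {N : ℕ} (t v : E N) (i j : Fin N) :
    MNz_tau t v (finProdFinEquiv (i, j)) = t i * v j := by
  unfold MNz_tau
  simp

private theorem MNz_tau_norm {N : ℕ} (t v : E N) : ‖MNz_tau t v‖ ^ 2 = ‖t‖ ^ 2 * ‖v‖ ^ 2 := by
  rw [MNz_nsq, EuclideanSpace.real_norm_sq_eq t, EuclideanSpace.real_norm_sq_eq v,
    Finset.sum_mul_sum]
  refine Finset.sum_congr rfl fun i _ => Finset.sum_congr rfl fun j _ => ?_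
  rw [MNz_tau_ap]
  ring

private theorem MNz_inner {N : ℕ} (B : EuclideanSpace ℝ (Fin (N * N))) (t v : E N) :
    inner ℝ (actM B v) t = inner ℝ B (MNz_tau t v) := by
  rw [PiLp.inner_apply, PiLp.inner_apply, ← finProdFinEquiv.sum_comp, Fintype.sum_prod_type]
  refine Finset.sum_congr rfl fun i _ => ?_
  rw [MNz_act]
  simp only [RCLike.inner_apply, conj_trivial, MNz_tau_ap]
  rw [Finset.mul_sum]
  exact Finset.sum_congr rfl fun j _ => by ring

private theorem MNz_act_meas {N : ℕ} (v : E N) :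
    Measurable fun B : EuclideanSpace ℝ (Fin (N * N)) => actM B v := by
  have h : Measurable fun B : EuclideanSpace ℝ (Fin (N * N)) =>
      (WithLp.toLp 2 fun i => ∑ j, B (finProdFinEquiv (i, j)) * v j : E N) := by
    fun_prop
  exact h

private theorem MNz_act_meas2 {N : ℕ} :
    Measurable fun p : EuclideanSpace ℝ (Fin (N * N)) × E N => actM p.1 p.2 := by
  have h : Measurable fun p : EuclideanSpace ℝ (Fin (N * N)) × E N =>
      (WithLp.toLp 2 fun i => ∑ j, p.1 (finProdFinEquiv (i, j)) * p.2 j : E N) := by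
    fun_prop
  exact h

/-- law of `B v` -/
private theorem MNz_law {N : ℕ} (v : E N) :
    (stdGaussian (EuclideanSpace ℝ (Fin (N * N)))).map (fun B => actM B v) =
      (stdGaussian (E N)).map (fun ξ => ‖v‖ • ξ) := by
  have m2 : Measurable fun ξ : E N => ‖v‖ • ξ := by fun_prop
  have p1 : IsProbabilityMeasure
      ((stdGaussian (EuclideanSpace ℝ (Fin (N * N)))).map (fun B => actM B v)) :=
    Measure.isProbabilityMeasure_map (MNz_act_meas v).aemeasurable
  have p2 : IsProbabilityMeasure ((stdGaussian (E N)).map (fun ξ => ‖v‖ • ξ)) :=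
    Measure.isProbabilityMeasure_map m2.aemeasurable
  refine Measure.ext_of_charFun ?_
  ext t
  rw [charFun_apply, charFun_apply, integral_map (MNz_act_meas v).aemeasurable (by fun_prop),
    integral_map m2.aemeasurable (by fun_prop)]
  have e1 : ∫ B : EuclideanSpace ℝ (Fin (N * N)),
      Complex.exp ((inner ℝ (actM B v) t : ℝ) * Complex.I)
        ∂(stdGaussian (EuclideanSpace ℝ (Fin (N * N)))) =
      charFun (stdGaussian (EuclideanSpace ℝ (Fin (N * N)))) (MNz_tau t v) := by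
    rw [charFun_apply]
    refine integral_congr_ae (Filter.Eventually.of_forall fun B => ?_)
    simp only
    rw [MNz_inner]
  have e2 : ∫ ξ : E N, Complex.exp ((inner ℝ (‖v‖ • ξ) t : ℝ) * Complex.I) ∂(stdGaussian (E N)) =
      charFun (stdGaussian (E N)) (‖v‖ • t) := by
    rw [charFun_apply]
    refine integral_congr_ae (Filter.Eventually.of_forall fun B => ?_)
    simp only
    rw [real_inner_smul_left, real_inner_smul_right]
  rw [e1, e2, charFun_stdGaussian, charFun_stdGaussian]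
  congr 2
  have e3 : ‖MNz_tau t v‖ ^ 2 = ‖‖v‖ • t‖ ^ 2 := by
    rw [MNz_tau_norm, norm_smul, norm_norm]
    ring
  have e4 : ((‖MNz_tau t v‖ : ℝ) : ℂ) ^ 2 = ((‖‖v‖ • t‖ : ℝ) : ℂ) ^ 2 := by
    exact_mod_cast e3
  rw [e4]

/-- the identity matrix -/
private noncomputable def MNz_id (N : ℕ) : EuclideanSpace ℝ (Fin (N * N)) :=
  WithLp.toLp 2 fun p => if (finProdFinEquiv.symm p).1 = (finProdFinEquiv.symm p).2 then 1 else 0

private theorem MNz_id_ap {N : ℕ} (i j : Fin N) :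
    MNz_id N (finProdFinEquiv (i, j)) = if i = j then 1 else 0 := by
  unfold MNz_id
  simp

private theorem MNz_id_act {N : ℕ} (v : E N) : actM (MNz_id N) v = v := by
  ext i
  rw [MNz_act]
  simp only [MNz_id_ap, ite_mul, one_mul, zero_mul]
  simp

private theorem MNz_id_norm (N : ℕ) (hN : 1 ≤ N) : ‖MNz_id N‖ ≤ 8 * N := by
  have hN' : (1 : ℝ) ≤ N := by exact_mod_cast hN
  refine (sq_le_sq₀ (norm_nonneg _) (by positivity)).1 ?_
  rw [MNz_nsq]
  simp only [MNz_id_ap]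
  have h1 : ∑ i : Fin N, ∑ j : Fin N, (if i = j then (1 : ℝ) else 0) ^ 2 = N := by
    simp
  rw [h1]
  nlinarith

private theorem MNz_act_add {N : ℕ} (B B' : EuclideanSpace ℝ (Fin (N * N))) (v : E N) :
    actM (B + B') v = actM B v + actM B' v := by
  ext i
  simp only [MNz_act, PiLp.add_apply]
  rw [← Finset.sum_add_distrib]
  exact Finset.sum_congr rfl fun j _ => by ring

private theorem MNz_act_smul {N : ℕ} (c : ℝ) (B : EuclideanSpace ℝ (Fin (N * N))) (v : E N) :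
    actM (c • B) v = c • actM B v := by
  ext i
  simp only [MNz_act, PiLp.smul_apply, smul_eq_mul]
  rw [Finset.mul_sum]
  exact Finset.sum_congr rfl fun j _ => by ring

private theorem MNz_A3 {N : ℕ} (h : ℝ) (B : EuclideanSpace ℝ (Fin (N * N))) (v : E N) :
    ((LinearMap.id + Real.sqrt h • actM B : E N →ₗ[ℝ] E N)) v = v + Real.sqrt h • actM B v := rfl

private theorem MNz_act_int {N : ℕ} (v : E N) :
    Integrable (fun B : EuclideanSpace ℝ (Fin (N * N)) => actM B v)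
      (stdGaussian (EuclideanSpace ℝ (Fin (N * N)))) := by
  have h1 : Integrable (fun B : EuclideanSpace ℝ (Fin (N * N)) => B)
      (stdGaussian (EuclideanSpace ℝ (Fin (N * N)))) := IsGaussian.integrable_id
  refine (h1.norm.mul_const ‖v‖).mono' (MNz_act_meas v).aestronglyMeasurable
    (Filter.Eventually.of_forall fun B => MNz_act_le B v)

private theorem MNz_act_mean {N : ℕ} (v : E N) :
    ∫ B : EuclideanSpace ℝ (Fin (N * N)), actM B v
      ∂(stdGaussian (EuclideanSpace ℝ (Fin (N * N)))) = 0 := by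
  have m2 : Measurable fun ξ : E N => ‖v‖ • ξ := by fun_prop
  have h1 : ∫ B : EuclideanSpace ℝ (Fin (N * N)), actM B v
      ∂(stdGaussian (EuclideanSpace ℝ (Fin (N * N)))) =
      ∫ x, x ∂((stdGaussian (EuclideanSpace ℝ (Fin (N * N)))).map (fun B => actM B v)) :=
    (integral_map (MNz_act_meas v).aemeasurable measurable_id.aestronglyMeasurable).symm
  rw [h1, MNz_law, integral_map (f := fun x : E N => x) m2.aemeasurable
    measurable_id.aestronglyMeasurable, integral_smul,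
    integral_id_stdGaussian, smul_zero]

/-- expectations of functions of `B v` -/
private theorem MNz_act_lint {N : ℕ} (v : E N) (Φ : E N → ℝ≥0∞) (hΦ : Measurable Φ) :
    ∫⁻ B : EuclideanSpace ℝ (Fin (N * N)), Φ (actM B v)
      ∂(stdGaussian (EuclideanSpace ℝ (Fin (N * N)))) =
      ∫⁻ ξ, Φ (‖v‖ • ξ) ∂(stdGaussian (E N)) := by
  have m2 : Measurable fun ξ : E N => ‖v‖ • ξ := by fun_prop
  rw [← lintegral_map hΦ (MNz_act_meas v), MNz_law, lintegral_map hΦ m2]

private theorem MNz_pow (N n : ℕ) :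
    Integrable (fun ξ : E N => ‖ξ‖ ^ n) (stdGaussian (E N)) := by
  have h := (IsGaussian.memLp_id (stdGaussian (E N)) (n : ENNReal) (by simp)).integrable_norm_pow'
  exact h

private theorem MNz_coord {N : ℕ} (i : Fin N) :
    ∫ ξ : E N, (ξ i) ^ 2 ∂(stdGaussian (E N)) = 1 := by
  have h1 := variance_dual_stdGaussian (E := E N) (EuclideanSpace.proj i : StrongDual ℝ (E N))
  have h2 := integral_strongDual_stdGaussian (E := E N) (EuclideanSpace.proj i : StrongDual ℝ (E N))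
  rw [variance_of_integral_eq_zero (by fun_prop) h2] at h1
  have h3 : (EuclideanSpace.proj i : StrongDual ℝ (E N)) =
      innerSL ℝ (EuclideanSpace.single i (1:ℝ) : E N) := by
    ext ξ
    rw [innerSL_apply_apply, EuclideanSpace.inner_single_left]
    simp
  have h4 : ‖(EuclideanSpace.proj i : StrongDual ℝ (E N))‖ = 1 := by
    rw [h3, innerSL_apply_norm]
    simp
  rw [h4, one_pow] at h1
  exact h1

private theorem MNz_two {N : ℕ} : ∫ ξ : E N, ‖ξ‖ ^ 2 ∂(stdGaussian (E N)) = N := by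
  have h1 : ∀ ξ : E N, ‖ξ‖ ^ 2 = ∑ i, (ξ i) ^ 2 := fun ξ => EuclideanSpace.real_norm_sq_eq ξ
  simp only [h1]
  rw [integral_finsetSum]
  · simp only [MNz_coord]
    simp
  · intro i _
    refine (MNz_pow N 2).mono' (by fun_prop) (Filter.Eventually.of_forall fun ξ => ?_)
    rw [Real.norm_eq_abs, abs_of_nonneg (sq_nonneg _), h1]
    exact Finset.single_le_sum (f := fun i => (ξ i) ^ 2) (fun i _ => sq_nonneg _) (Finset.mem_univ i)

/-- Gaussian matrix noise in dimension `N` -/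
noncomputable def MN3 (N : ℕ) (hN : 1 ≤ N) : MN (E N) (EuclideanSpace ℝ (Fin (N * N))) where
  γ := stdGaussian (EuclideanSpace ℝ (Fin (N * N)))
  A := fun h B => LinearMap.id + Real.sqrt h • actM B
  gd := fun h => {B | Real.sqrt h * ‖B‖ ≤ h ^ (3 / 8 : ℝ)}
  e0 := WithLp.toLp 2 fun p => if (finProdFinEquiv.symm p).1 = (finProdFinEquiv.symm p).2 then 1 else 0
  C := 8 * N
  cm := cmart_std (N * N)
  mA := by
    intro h
    have h1 : Measurable fun p : EuclideanSpace ℝ (Fin (N * N)) × E N =>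
        p.2 + Real.sqrt h • actM p.1 p.2 :=
      measurable_snd.add (MNz_act_meas2.const_smul (Real.sqrt h))
    exact h1
  mgd := by
    intro h
    exact measurableSet_le (measurable_norm.const_mul _) measurable_const
  C1 := by
    have hN' : (1 : ℝ) ≤ N := by exact_mod_cast hN
    linarith
  e0n := by
    exact MNz_id_norm N hN
  int := by
    intro h v _ _
    exact (integrable_const v).add ((MNz_act_int v).smul (Real.sqrt h))
  mean := by
    intro h v _ _
    have h1 : ∫ B : EuclideanSpace ℝ (Fin (N * N)), (v + Real.sqrt h • actM B v)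
        ∂(stdGaussian (EuclideanSpace ℝ (Fin (N * N)))) = v := by
      have hi : Integrable (fun B : EuclideanSpace ℝ (Fin (N * N)) => Real.sqrt h • actM B v)
          (stdGaussian (EuclideanSpace ℝ (Fin (N * N)))) := (MNz_act_int v).smul (Real.sqrt h)
      rw [integral_add (integrable_const v) hi, integral_smul,
        MNz_act_mean, smul_zero, add_zero, integral_const, probReal_univ, one_smul]
    exact h1
  var := by
    intro h v h0 h1
    have e : ∀ B : EuclideanSpace ℝ (Fin (N * N)),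
        ENNReal.ofReal (‖(v + Real.sqrt h • actM B v) - v‖ ^ 2) =
        ENNReal.ofReal (h * ‖actM B v‖ ^ 2) := by
      intro B
      rw [add_sub_cancel_left, norm_smul, mul_pow, Real.norm_of_nonneg (Real.sqrt_nonneg h),
        Real.sq_sqrt h0.le]
    have h2 : ∫⁻ B : EuclideanSpace ℝ (Fin (N * N)),
        ENNReal.ofReal (‖(v + Real.sqrt h • actM B v) - v‖ ^ 2)
        ∂(stdGaussian (EuclideanSpace ℝ (Fin (N * N)))) ≤
        ENNReal.ofReal (8 * N * h * ‖v‖ ^ 2) := by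
      rw [lintegral_congr e, MNz_act_lint v (fun x => ENNReal.ofReal (h * ‖x‖ ^ 2)) (by fun_prop)]
      have e2 : ∀ ξ : E N, ENNReal.ofReal (h * ‖‖v‖ • ξ‖ ^ 2) =
          ENNReal.ofReal (h * ‖v‖ ^ 2 * ‖ξ‖ ^ 2) := by
        intro ξ
        rw [norm_smul, norm_norm]
        congr 1
        ring
      rw [lintegral_congr e2, ← ofReal_integral_eq_lintegral_ofReal ((MNz_pow N 2).const_mul _)
        (Filter.Eventually.of_forall fun x => by positivity), integral_const_mul]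
      refine ENNReal.ofReal_le_ofReal ?_
      have h3 := mul_le_mul_of_nonneg_left (MNz_two (N := N)).le (by positivity : 0 ≤ h * ‖v‖ ^ 2)
      refine h3.trans ?_
      have h4 : 0 ≤ h * ‖v‖ ^ 2 * N := by positivity
      nlinarith
    exact h2
  tail := by
    exact MNz_tail _
  near := by
    intro h B v h0 h1 hB
    rw [MNz_A3, add_sub_cancel_left, norm_smul, Real.norm_of_nonneg (Real.sqrt_nonneg h)]
    have hN' : (1 : ℝ) ≤ N := by exact_mod_cast hN
    have h2 : Real.sqrt h * ‖B‖ ≤ h ^ (3 / 8 : ℝ) := hB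
    have h3 := mul_le_mul_of_nonneg_left (MNz_act_le B v) (Real.sqrt_nonneg h)
    have h4 := mul_le_mul_of_nonneg_right h2 (norm_nonneg v)
    have h5 : 0 ≤ h ^ (3 / 8 : ℝ) * ‖v‖ := by positivity
    have h6 : h ^ (3 / 8 : ℝ) * ‖v‖ * 1 ≤ h ^ (3 / 8 : ℝ) * ‖v‖ * (8 * N) :=
      mul_le_mul_of_nonneg_left (by linarith) h5
    linarith
  sh := by
    intro h B c v h0 h1 hc hB
    have hid : (WithLp.toLp 2 fun p => if (finProdFinEquiv.symm p).1 =
        (finProdFinEquiv.symm p).2 then 1 else 0 : EuclideanSpace ℝ (Fin (N * N))) = MNz_id N := rfl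
    rw [MNz_A3, MNz_A3, hid, MNz_act_add, MNz_act_smul, MNz_id_act]
    have hN' : (1 : ℝ) ≤ N := by exact_mod_cast hN
    have e : v + Real.sqrt h • (actM B v + c • v) -
        (1 + Real.sqrt h * c) • (v + Real.sqrt h • actM B v) =
        -((Real.sqrt h * c) • (Real.sqrt h • actM B v)) := by
      module
    rw [e, norm_neg, norm_smul, norm_smul, Real.norm_of_nonneg (Real.sqrt_nonneg h), Real.norm_eq_abs,
      abs_mul, abs_of_nonneg (Real.sqrt_nonneg h)]
    have h2 : Real.sqrt h * ‖B‖ ≤ h ^ (3 / 8 : ℝ) := hB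
    have h3 := mul_le_mul_of_nonneg_left (MNz_act_le B v) (Real.sqrt_nonneg h)
    have h4 := mul_le_mul_of_nonneg_right h2 (norm_nonneg v)
    have h5 : Real.sqrt h * ‖actM B v‖ ≤ h ^ (3 / 8 : ℝ) * ‖v‖ := by linarith
    have h6 : Real.sqrt h * h ^ (3 / 8 : ℝ) = h ^ (7 / 8 : ℝ) := by
      rw [Real.sqrt_eq_rpow, ← Real.rpow_add h0]
      norm_num
    have h7 : 0 ≤ Real.sqrt h * |c| := mul_nonneg (Real.sqrt_nonneg h) (abs_nonneg c)
    have h8 := mul_le_mul_of_nonneg_left h5 h7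
    have h9 : Real.sqrt h * |c| * (h ^ (3 / 8 : ℝ) * ‖v‖) = h ^ (7 / 8 : ℝ) * |c| * ‖v‖ := by
      rw [← h6]
      ring
    have h10 : 0 ≤ h ^ (7 / 8 : ℝ) * |c| * ‖v‖ := by positivity
    have h11 : h ^ (7 / 8 : ℝ) * |c| * ‖v‖ * 1 ≤ h ^ (7 / 8 : ℝ) * |c| * ‖v‖ * (8 * N) :=
      mul_le_mul_of_nonneg_left (by linarith) h10
    linarith
  sh2 := by
    intro h B c v h0 h1 hc
    have hid : (WithLp.toLp 2 fun p => if (finProdFinEquiv.symm p).1 =
        (finProdFinEquiv.symm p).2 then 1 else 0 : EuclideanSpace ℝ (Fin (N * N))) = MNz_id N := rfl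
    rw [MNz_A3, MNz_A3, hid, MNz_act_add, MNz_act_smul, MNz_id_act]
    have hN' : (1 : ℝ) ≤ N := by exact_mod_cast hN
    have e : v + Real.sqrt h • (actM B v + c • v) - (v + Real.sqrt h • actM B v) =
        (Real.sqrt h * c) • v := by
      module
    rw [e, norm_smul, Real.norm_eq_abs, abs_mul, abs_of_nonneg (Real.sqrt_nonneg h)]
    have h7 : 0 ≤ Real.sqrt h * |c| := mul_nonneg (Real.sqrt_nonneg h) (abs_nonneg c)
    have h8 : 0 ≤ Real.sqrt h * |c| * (‖v‖ + ‖v + Real.sqrt h • actM B v‖) :=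
      mul_nonneg h7 (add_nonneg (norm_nonneg _) (norm_nonneg _))
    have h9 : Real.sqrt h * |c| * ‖v‖ ≤ Real.sqrt h * |c| * (‖v‖ + ‖v + Real.sqrt h • actM B v‖) :=
      mul_le_mul_of_nonneg_left (by linarith [norm_nonneg (v + Real.sqrt h • actM B v)]) h7
    have h10 : Real.sqrt h * |c| * (‖v‖ + ‖v + Real.sqrt h • actM B v‖) * 1 ≤
        Real.sqrt h * |c| * (‖v‖ + ‖v + Real.sqrt h • actM B v‖) * (8 * N) :=
      mul_le_mul_of_nonneg_left (by linarith) h8
    linarith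

/-- one step of the matrix chain has the law of one step of the Gaussian chain -/
theorem law3 (N : ℕ) (hN : 1 ≤ N) (d : ℕ) (β k h : ℝ) (L : ℕ) (G : boxS d L → E N) :
    ((MN3 N hN).mu d L).map (fun ω => (MN3 N hN).st β k h L G ω) =
      ((Fam1 N d β k).mu L).map (fun ξ => (Fam1 N d β k).st h L G ξ) := by
  have m1 : ∀ g : E N, Measurable fun w : E N => g + Real.sqrt h • w := by
    intro g
    fun_prop
  have hu : ∀ x : boxS d L, (stdGaussian (EuclideanSpace ℝ (Fin (N * N)))).map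
      (fun B => G x + Real.sqrt h • actM B (G x)) =
      (stdGaussian (E N)).map (fun ξ => G x + (Real.sqrt h * ‖G x‖) • ξ) := by
    intro x
    have m2 : Measurable fun ξ : E N => ‖G x‖ • ξ := by fun_prop
    have e1 : (fun B : EuclideanSpace ℝ (Fin (N * N)) => G x + Real.sqrt h • actM B (G x)) =
        (fun w : E N => G x + Real.sqrt h • w) ∘ (fun B => actM B (G x)) := rfl
    have e2 : (fun ξ : E N => G x + (Real.sqrt h * ‖G x‖) • ξ) =
        (fun w : E N => G x + Real.sqrt h • w) ∘ (fun ξ => ‖G x‖ • ξ) := by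
      funext ξ
      simp only [Function.comp_apply, smul_smul]
    rw [e1, e2, ← Measure.map_map (m1 _) (MNz_act_meas _), MNz_law, Measure.map_map (m1 _) m2]
  have mR : Measurable fun (w : boxS d L → E N) (x : boxS d L) =>
      JV β h (w x) + (k * h) • coupV (boxNet d L) G x :=
    measurable_pi_lambda _ fun x =>
      ((MNz_JV_meas β h).comp (measurable_pi_apply x)).add measurable_const
  have mA : Measurable fun (ω : boxS d L → EuclideanSpace ℝ (Fin (N * N))) (x : boxS d L) =>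
      G x + Real.sqrt h • actM (ω x) (G x) :=
    measurable_pi_lambda _ fun x =>
      ((m1 (G x)).comp (MNz_act_meas (G x))).comp (measurable_pi_apply x)
  have mB : Measurable fun (ξ : boxS d L → E N) (x : boxS d L) =>
      G x + (Real.sqrt h * ‖G x‖) • ξ x := by
    refine measurable_pi_lambda _ fun x => ?_
    exact measurable_const.add ((measurable_pi_apply x).const_smul (Real.sqrt h * ‖G x‖))
  have hl : ((MN3 N hN).mu d L).map (fun ω => (MN3 N hN).st β k h L G ω) =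
      (((MN3 N hN).mu d L).map (fun ω x => G x + Real.sqrt h • actM (ω x) (G x))).map
        (fun w x => JV β h (w x) + (k * h) • coupV (boxNet d L) G x) := by
    rw [Measure.map_map mR mA]
    rfl
  have hr : ((Fam1 N d β k).mu L).map (fun ξ => (Fam1 N d β k).st h L G ξ) =
      (((Fam1 N d β k).mu L).map (fun (ξ : boxS d L → E N) x =>
        G x + (Real.sqrt h * ‖G x‖) • ξ x)).map
        (fun w x => JV β h (w x) + (k * h) • coupV (boxNet d L) G x) := by
    exact (Measure.map_map mR mB).symm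
  rw [hl, hr]
  congr 1
  have e3 : ((MN3 N hN).mu d L).map (fun ω x => G x + Real.sqrt h • actM (ω x) (G x)) =
      Measure.pi fun x : boxS d L => (stdGaussian (EuclideanSpace ℝ (Fin (N * N)))).map
        (fun B => G x + Real.sqrt h • actM B (G x)) :=
    have i1 : ∀ x : boxS d L, SigmaFinite ((stdGaussian (EuclideanSpace ℝ (Fin (N * N)))).map
        (fun B => G x + Real.sqrt h • actM B (G x))) := fun x => by
      have := Measure.isProbabilityMeasure_map
        (μ := stdGaussian (EuclideanSpace ℝ (Fin (N * N))))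
        ((m1 (G x)).comp (MNz_act_meas (G x))).aemeasurable
      exact inferInstanceAs (SigmaFinite ((stdGaussian (EuclideanSpace ℝ (Fin (N * N)))).map
        ((fun w : E N => G x + Real.sqrt h • w) ∘ fun B => actM B (G x))))
    Measure.pi_map_pi (f := fun (x : boxS d L) (B : EuclideanSpace ℝ (Fin (N * N))) =>
      G x + Real.sqrt h • actM B (G x))
      (fun x => ((m1 (G x)).comp (MNz_act_meas (G x))).aemeasurable)
  have e4 : ((Fam1 N d β k).mu L).map (fun (ξ : boxS d L → E N) x =>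
        G x + (Real.sqrt h * ‖G x‖) • ξ x) =
      Measure.pi fun x : boxS d L => (stdGaussian (E N)).map
        (fun ξ => G x + (Real.sqrt h * ‖G x‖) • ξ) := by
    have m5 : ∀ x : boxS d L, Measurable fun ξ : E N => G x + (Real.sqrt h * ‖G x‖) • ξ :=
      fun x => measurable_const.add (measurable_id.const_smul (Real.sqrt h * ‖G x‖))
    have i1 : ∀ x : boxS d L, SigmaFinite ((stdGaussian (E N)).map
        (fun ξ => G x + (Real.sqrt h * ‖G x‖) • ξ)) := fun x => by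
      have := Measure.isProbabilityMeasure_map (μ := stdGaussian (E N)) (m5 x).aemeasurable
      infer_instance
    exact Measure.pi_map_pi (μ := fun _ : boxS d L => stdGaussian (E N))
      (f := fun (x : boxS d L) (ξ : E N) =>
      G x + (Real.sqrt h * ‖G x‖) • ξ) (fun x => (m5 x).aemeasurable)
  rw [e3, e4]
  congr 1
  funext x
  exact hu x

private theorem MNz_pw (p : ℝ) (hp : 0 < p) : ∃ K u0 : ℝ, 0 < K ∧ 0 < u0 ∧ u0 ≤ 1 / 2 ∧ ∀ u : ℝ, |u| ≤ u0 →
    (1 + u) ^ (-p) ≤ 1 - p * u + p * (p + 1) / 2 * u ^ 2 + K * |u| ^ 3 := by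
  refine ⟨2 * p + 3 * p ^ 2 + 8 * p ^ 3, 1 / (4 * (p + 1)), by positivity, by positivity, ?_,
    fun u hu => ?_⟩
  · rw [div_le_div_iff₀ (by positivity) (by norm_num)]
    linarith
  have h0 := abs_nonneg u
  have hu1 : |u| * (4 * (p + 1)) ≤ 1 := by
    rwa [le_div_iff₀ (by positivity)] at hu
  have hu2 : |u| ≤ 1 / 4 := by nlinarith
  have hu3 : p * |u| ≤ 1 / 4 := by nlinarith
  have hpos : 0 < 1 + u := by
    have := neg_abs_le u
    linarith
  rw [Real.rpow_def_of_pos hpos]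
  have hl := Real.abs_log_sub_add_sum_range_le (x := -u) (by rw [abs_neg]; linarith) 2
  rw [abs_neg, sub_neg_eq_add] at hl
  simp only [Finset.sum_range_succ, Finset.sum_range_zero, zero_add] at hl
  norm_num at hl
  have hden : |u| ^ 3 / (1 - |u|) ≤ 2 * |u| ^ 3 := by
    rw [div_le_iff₀ (by linarith)]
    have : 0 ≤ |u| ^ 3 := by positivity
    nlinarith
  have hl2 := hl.trans hden
  set ρ : ℝ := -u + u ^ 2 / 2 + Real.log (1 + u) with hρ
  have hlog : Real.log (1 + u) = u - u ^ 2 / 2 + ρ := by rw [hρ]; ring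
  set w : ℝ := Real.log (1 + u) * -p with hw
  set s : ℝ := p * u ^ 2 / 2 - p * ρ with hs
  have hws : w = -(p * u) + s := by rw [hw, hs, hlog]; ring
  have hu2' : u ^ 2 = |u| ^ 2 := (sq_abs u).symm
  have hρb := abs_le.1 hl2
  have hsb : |s| ≤ p * |u| ^ 2 := by
    have h1 : |s| ≤ p * u ^ 2 / 2 + p * |ρ| := by
      rw [hs]
      refine (abs_sub _ _).trans ?_
      rw [abs_of_nonneg (by positivity : 0 ≤ p * u ^ 2 / 2), abs_mul, abs_of_pos hp]
    have h2 : p * |ρ| ≤ p * (2 * |u| ^ 3) := mul_le_mul_of_nonneg_left hl2 hp.le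
    have h3 : p * (2 * |u| ^ 3) ≤ p * (1 / 2 * |u| ^ 2) := by
      refine mul_le_mul_of_nonneg_left ?_ hp.le
      have : 0 ≤ |u| ^ 2 := by positivity
      nlinarith only [hu2]
    rw [hu2'] at h1
    linarith
  have hwb : |w| ≤ 2 * (p * |u|) := by
    rw [hws]
    refine (abs_add_le _ _).trans ?_
    rw [abs_neg, abs_mul, abs_of_pos hp]
    have : p * |u| ^ 2 ≤ p * |u| := by
      refine mul_le_mul_of_nonneg_left ?_ hp.le
      nlinarith only [hp, h0, hu1]
    linarith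
  have hw1 : |w| ≤ 1 := by linarith
  have he := Real.exp_bound hw1 (n := 3) (by norm_num)
  simp only [Finset.sum_range_succ, Finset.sum_range_zero, zero_add] at he
  norm_num [Nat.factorial] at he
  have he2 := (abs_le.1 he).2
  have hw3 : |w| ^ 3 ≤ (2 * (p * |u|)) ^ 3 := pow_le_pow_left₀ (abs_nonneg w) hwb 3
  have hwsq : w ^ 2 ≤ p ^ 2 * u ^ 2 + 2 * (p * |u|) * |s| + |s| ^ 2 := by
    rw [hws]
    have h1 : -(p * u) * s ≤ p * |u| * |s| := by
      have := neg_abs_le (u * s)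
      rw [abs_mul] at this
      nlinarith only [hp, this]
    have h2 : s ^ 2 = |s| ^ 2 := (sq_abs s).symm
    nlinarith only [h1, h2]
  have hs1 : 2 * (p * |u|) * |s| ≤ 2 * p ^ 2 * |u| ^ 3 := by
    have := mul_le_mul_of_nonneg_left hsb (by positivity : 0 ≤ 2 * (p * |u|))
    calc 2 * (p * |u|) * |s| ≤ 2 * (p * |u|) * (p * |u| ^ 2) := this
      _ = 2 * p ^ 2 * |u| ^ 3 := by ring
  have hs2 : |s| ^ 2 ≤ p ^ 2 * |u| ^ 3 := by
    have := pow_le_pow_left₀ (abs_nonneg s) hsb 2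
    refine this.trans ?_
    have h3 : (p * |u| ^ 2) ^ 2 = p ^ 2 * |u| ^ 3 * |u| := by ring
    rw [h3]
    have h4 : 0 ≤ p ^ 2 * |u| ^ 3 := by positivity
    nlinarith only [h4, hu2, h0]
  have hw_le : w ≤ -(p * u) + p * u ^ 2 / 2 + 2 * p * |u| ^ 3 := by
    rw [hws, hs]
    have := mul_le_mul_of_nonneg_left hρb.1 hp.le
    nlinarith only [this]
  have h8 : 0 ≤ p ^ 3 * |u| ^ 3 := by positivity
  have h9 : (2 * (p * |u|)) ^ 3 = 8 * (p ^ 3 * |u| ^ 3) := by ring
  rw [h9] at hw3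
  nlinarith only [he2, hw3, hwsq, hs1, hs2, hw_le, h8]

private theorem MNz_powB (N n : ℕ) :
    Integrable (fun B : EuclideanSpace ℝ (Fin (N * N)) => ‖B‖ ^ n)
      (stdGaussian (EuclideanSpace ℝ (Fin (N * N)))) := by
  have h := (IsGaussian.memLp_id (stdGaussian (EuclideanSpace ℝ (Fin (N * N)))) (n : ENNReal)
    (by simp)).integrable_norm_pow'
  exact h

/-- `E ⟪v, B v⟫² = ‖v‖⁴` -/
private theorem MNz_a2 {N : ℕ} (v : E N) :
    ∫ B : EuclideanSpace ℝ (Fin (N * N)), (inner ℝ v (actM B v)) ^ 2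
      ∂(stdGaussian (EuclideanSpace ℝ (Fin (N * N)))) = ‖v‖ ^ 4 := by
  have m2 : Measurable fun ξ : E N => ‖v‖ • ξ := by fun_prop
  have h0 : ∫ B : EuclideanSpace ℝ (Fin (N * N)), (inner ℝ v (actM B v)) ^ 2
      ∂(stdGaussian (EuclideanSpace ℝ (Fin (N * N)))) =
      ∫ x, (inner ℝ v x) ^ 2
        ∂((stdGaussian (EuclideanSpace ℝ (Fin (N * N)))).map (fun B => actM B v)) :=
    (integral_map (f := fun x : E N => (inner ℝ v x) ^ 2) (MNz_act_meas v).aemeasurable
      (by fun_prop)).symm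
  have h1 := variance_dual_stdGaussian (E := E N) (innerSL ℝ v)
  have h2 := integral_strongDual_stdGaussian (E := E N) (innerSL ℝ v)
  rw [variance_of_integral_eq_zero (by fun_prop) h2, innerSL_apply_norm] at h1
  have h3 : ∫ ξ : E N, (inner ℝ v ξ) ^ 2 ∂(stdGaussian (E N)) = ‖v‖ ^ 2 := h1
  rw [h0, MNz_law, integral_map (f := fun x : E N => (inner ℝ v x) ^ 2) m2.aemeasurable
    (by fun_prop)]
  have h4 : ∀ ξ : E N, (inner ℝ v (‖v‖ • ξ)) ^ 2 = ‖v‖ ^ 2 * (inner ℝ v ξ) ^ 2 := by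
    intro ξ
    rw [real_inner_smul_right, mul_pow]
  rw [integral_congr_ae (Filter.Eventually.of_forall h4), integral_const_mul, h3]
  ring

/-- `E ‖B v‖² = N ‖v‖²` -/
private theorem MNz_b2 {N : ℕ} (v : E N) :
    ∫ B : EuclideanSpace ℝ (Fin (N * N)), ‖actM B v‖ ^ 2
      ∂(stdGaussian (EuclideanSpace ℝ (Fin (N * N)))) = N * ‖v‖ ^ 2 := by
  have m2 : Measurable fun ξ : E N => ‖v‖ • ξ := by fun_prop
  have h0 : ∫ B : EuclideanSpace ℝ (Fin (N * N)), ‖actM B v‖ ^ 2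
      ∂(stdGaussian (EuclideanSpace ℝ (Fin (N * N)))) =
      ∫ x, ‖x‖ ^ 2
        ∂((stdGaussian (EuclideanSpace ℝ (Fin (N * N)))).map (fun B => actM B v)) :=
    (integral_map (f := fun x : E N => ‖x‖ ^ 2) (MNz_act_meas v).aemeasurable
      (by fun_prop)).symm
  rw [h0, MNz_law, integral_map (f := fun x : E N => ‖x‖ ^ 2) m2.aemeasurable (by fun_prop)]
  have h4 : ∀ ξ : E N, ‖‖v‖ • ξ‖ ^ 2 = ‖v‖ ^ 2 * ‖ξ‖ ^ 2 := by
    intro ξ
    rw [norm_smul, norm_norm, mul_pow]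
  rw [integral_congr_ae (Filter.Eventually.of_forall h4), integral_const_mul, MNz_two]
  ring

private theorem MNz_a1 {N : ℕ} (v : E N) :
    ∫ B : EuclideanSpace ℝ (Fin (N * N)), inner ℝ v (actM B v)
      ∂(stdGaussian (EuclideanSpace ℝ (Fin (N * N)))) = 0 := by
  rw [integral_inner (MNz_act_int v), MNz_act_mean, inner_zero_right]

private theorem MNz_ia1 {N : ℕ} (v : E N) :
    Integrable (fun B : EuclideanSpace ℝ (Fin (N * N)) => inner ℝ v (actM B v))
      (stdGaussian (EuclideanSpace ℝ (Fin (N * N)))) :=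
  (MNz_act_int v).const_inner v

private theorem MNz_ib2 {N : ℕ} (v : E N) :
    Integrable (fun B : EuclideanSpace ℝ (Fin (N * N)) => ‖actM B v‖ ^ 2)
      (stdGaussian (EuclideanSpace ℝ (Fin (N * N)))) := by
  refine ((MNz_powB N 2).mul_const (‖v‖ ^ 2)).mono'
    ((MNz_act_meas v).norm.pow_const 2).aestronglyMeasurable
    (Filter.Eventually.of_forall fun B => ?_)
  rw [Real.norm_of_nonneg (by positivity), ← mul_pow]
  exact pow_le_pow_left₀ (norm_nonneg _) (MNz_act_le B v) 2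

private theorem MNz_ia2 {N : ℕ} (v : E N) :
    Integrable (fun B : EuclideanSpace ℝ (Fin (N * N)) => (inner ℝ v (actM B v)) ^ 2)
      (stdGaussian (EuclideanSpace ℝ (Fin (N * N)))) := by
  refine ((MNz_ib2 v).const_mul (‖v‖ ^ 2)).mono'
    ((measurable_const.inner (MNz_act_meas v)).pow_const 2).aestronglyMeasurable
    (Filter.Eventually.of_forall fun B => ?_)
  rw [Real.norm_of_nonneg (by positivity), ← mul_pow, ← sq_abs]
  exact pow_le_pow_left₀ (abs_nonneg _) (abs_real_inner_le_norm _ _) 2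

/-- the comparison function -/
private noncomputable def MNz_Q {N : ℕ} (p K η : ℝ) (v : E N)
    (B : EuclideanSpace ℝ (Fin (N * N))) : ℝ :=
  1 - p * (2 * η ^ 4 * (inner ℝ v (actM B v) / ‖v‖ ^ 2) + η ^ 8 * (‖actM B v‖ ^ 2 / ‖v‖ ^ 2)) +
    p * (p + 1) / 2 * (4 * η ^ 8 * ((inner ℝ v (actM B v)) ^ 2 / ‖v‖ ^ 4) +
      η ^ 9 * (4 * ‖B‖ ^ 3 + ‖B‖ ^ 4)) + 27 * K * η ^ 9 +
    p * η ^ 9 * (2 * ‖B‖ ^ 17 + ‖B‖ ^ 18)

private theorem MNz_Q_int {N : ℕ} (p K η : ℝ) (v : E N) :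
    Integrable (MNz_Q p K η v) (stdGaussian (EuclideanSpace ℝ (Fin (N * N)))) := by
  have i1 := ((MNz_ia1 v).div_const (‖v‖ ^ 2)).const_mul (2 * η ^ 4)
  have i2 := ((MNz_ib2 v).div_const (‖v‖ ^ 2)).const_mul (η ^ 8)
  have i3 := ((MNz_ia2 v).div_const (‖v‖ ^ 4)).const_mul (4 * η ^ 8)
  have i4 := (((MNz_powB N 3).const_mul 4).add (MNz_powB N 4)).const_mul (η ^ 9)
  have i5 := (((MNz_powB N 17).const_mul 2).add (MNz_powB N 18)).const_mul (p * η ^ 9)
  exact ((((integrable_const (1 : ℝ)).sub ((i1.add i2).const_mul p)).add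
    ((i3.add i4).const_mul (p * (p + 1) / 2))).add (integrable_const (27 * K * η ^ 9))).add i5

private theorem MNz_Q_val {N : ℕ} (p K η : ℝ) (v : E N) (hv : v ≠ 0) :
    ∫ B, MNz_Q p K η v B ∂(stdGaussian (EuclideanSpace ℝ (Fin (N * N)))) =
      1 - p * η ^ 8 * N + 2 * p * (p + 1) * η ^ 8 + η ^ 9 *
        (p * (p + 1) / 2 * (4 * ∫ B : EuclideanSpace ℝ (Fin (N * N)), ‖B‖ ^ 3
            ∂(stdGaussian (EuclideanSpace ℝ (Fin (N * N)))) +
          ∫ B : EuclideanSpace ℝ (Fin (N * N)), ‖B‖ ^ 4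
            ∂(stdGaussian (EuclideanSpace ℝ (Fin (N * N))))) + 27 * K +
        p * (2 * ∫ B : EuclideanSpace ℝ (Fin (N * N)), ‖B‖ ^ 17
            ∂(stdGaussian (EuclideanSpace ℝ (Fin (N * N)))) +
          ∫ B : EuclideanSpace ℝ (Fin (N * N)), ‖B‖ ^ 18
            ∂(stdGaussian (EuclideanSpace ℝ (Fin (N * N)))))) := by
  have i1 := ((MNz_ia1 v).div_const (‖v‖ ^ 2)).const_mul (2 * η ^ 4)
  have i2 := ((MNz_ib2 v).div_const (‖v‖ ^ 2)).const_mul (η ^ 8)
  have i3 := ((MNz_ia2 v).div_const (‖v‖ ^ 4)).const_mul (4 * η ^ 8)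
  have i4 := (((MNz_powB N 3).const_mul 4).add (MNz_powB N 4)).const_mul (η ^ 9)
  have i5 := (((MNz_powB N 17).const_mul 2).add (MNz_powB N 18)).const_mul (p * η ^ 9)
  have j1 := (integrable_const (μ := stdGaussian (EuclideanSpace ℝ (Fin (N * N)))) (1 : ℝ))
  have j2 := (i1.add i2).const_mul p
  have j3 := (i3.add i4).const_mul (p * (p + 1) / 2)
  have j4 := (integrable_const (μ := stdGaussian (EuclideanSpace ℝ (Fin (N * N))))
    (27 * K * η ^ 9))
  have hn : ‖v‖ ≠ 0 := norm_ne_zero_iff.2 hv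
  unfold MNz_Q
  have e5 := integral_add (((j1.sub j2).add j3).add j4) i5
  have e4 := integral_add ((j1.sub j2).add j3) j4
  have e3 := integral_add (j1.sub j2) j3
  have e2 := integral_sub j1 j2
  have e6 := integral_add i1 i2
  have e7 := integral_add i3 i4
  have e8 := integral_add ((MNz_powB N 3).const_mul 4) (MNz_powB N 4)
  have e9 := integral_add ((MNz_powB N 17).const_mul 2) (MNz_powB N 18)
  simp only [Pi.add_apply, Pi.sub_apply] at e2 e3 e4 e5 e6 e7 e8 e9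
  rw [e5, e4, e3, e2, integral_const_mul, e6, integral_const_mul, integral_const_mul,
    integral_div, integral_div, integral_const_mul (p * (p + 1) / 2), e7,
    integral_const_mul (4 * η ^ 8), integral_div, integral_const_mul (η ^ 9), e8,
    integral_const_mul (p * η ^ 9), e9, integral_const_mul (4 : ℝ), integral_const_mul (2 : ℝ),
    MNz_a1, MNz_a2, MNz_b2, integral_const, integral_const, probReal_univ]
  simp only [smul_eq_mul, one_mul]
  field_simp
  ring

private theorem MNz_Q_le {N : ℕ} (p K u0 η : ℝ) (hp : 0 < p) (hK : 0 < K) (hu0 : u0 ≤ 1 / 2)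
    (hKu : ∀ u : ℝ, |u| ≤ u0 →
      (1 + u) ^ (-p) ≤ 1 - p * u + p * (p + 1) / 2 * u ^ 2 + K * |u| ^ 3)
    (hη : 0 < η) (hη1 : η ≤ 1) (hηu : 3 * η ≤ u0) (v : E N) (hv : v ≠ 0)
    (B : EuclideanSpace ℝ (Fin (N * N))) (hB : η ^ 4 * ‖B‖ ≤ η ^ 3) :
    ‖v + η ^ 4 • actM B v‖ ^ (-(2 * p)) ≤ MNz_Q p K η v B * ‖v‖ ^ (-(2 * p)) := by
  have hn : 0 < ‖v‖ := norm_pos_iff.2 hv
  set a : ℝ := inner ℝ v (actM B v) / ‖v‖ ^ 2 with ha
  set b : ℝ := ‖actM B v‖ / ‖v‖ with hb
  set β : ℝ := ‖B‖ with hβ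
  have hb0 : 0 ≤ b := by positivity
  have hβ0 : 0 ≤ β := norm_nonneg B
  have hbβ : b ≤ β := by
    rw [hb, div_le_iff₀ hn]
    exact MNz_act_le B v
  have hab : |a| ≤ b := by
    rw [ha, hb, abs_div, abs_of_pos (by positivity : 0 < ‖v‖ ^ 2), div_le_div_iff₀ (by positivity) hn]
    have := abs_real_inner_le_norm v (actM B v)
    calc |inner ℝ v (actM B v)| * ‖v‖ ≤ (‖v‖ * ‖actM B v‖) * ‖v‖ :=
          mul_le_mul_of_nonneg_right this hn.le
      _ = ‖actM B v‖ * ‖v‖ ^ 2 := by ring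
  have hη3 : 0 < η ^ 3 := by positivity
  have hβη : η * β ≤ 1 := by
    have : η ^ 3 * (η * β) ≤ η ^ 3 * 1 := by
      calc η ^ 3 * (η * β) = η ^ 4 * β := by ring
        _ ≤ η ^ 3 := hB
        _ = η ^ 3 * 1 := (mul_one _).symm
    exact le_of_mul_le_mul_left this hη3
  set u : ℝ := 2 * η ^ 4 * a + η ^ 8 * b ^ 2 with hu
  have hηb : η * b ≤ 1 := (mul_le_mul_of_nonneg_left hbβ hη.le).trans hβη
  have hηb0 : 0 ≤ η * b := by positivity
  have huabs : |u| ≤ 3 * η ^ 3 := by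
    have h1 : |u| ≤ 2 * η ^ 4 * |a| + η ^ 8 * b ^ 2 := by
      rw [hu]
      refine (abs_add_le _ _).trans ?_
      rw [abs_mul, abs_of_pos (by positivity : 0 < 2 * η ^ 4),
        abs_of_nonneg (by positivity : 0 ≤ η ^ 8 * b ^ 2)]
    have h2 : 2 * η ^ 4 * |a| ≤ 2 * η ^ 3 := by
      calc 2 * η ^ 4 * |a| ≤ 2 * η ^ 4 * b := mul_le_mul_of_nonneg_left hab (by positivity)
        _ = 2 * η ^ 3 * (η * b) := by ring
        _ ≤ 2 * η ^ 3 * 1 := mul_le_mul_of_nonneg_left hηb (by positivity)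
        _ = 2 * η ^ 3 := mul_one _
    have h3 : η ^ 8 * b ^ 2 ≤ η ^ 3 := by
      have h4 : (η * b) ^ 2 ≤ 1 := pow_le_one₀ hηb0 hηb
      have h5 : η ^ 3 ≤ 1 := pow_le_one₀ hη.le hη1
      calc η ^ 8 * b ^ 2 = η ^ 3 * (η ^ 3 * (η * b) ^ 2) := by ring
        _ ≤ η ^ 3 * (1 * 1) := by
            refine mul_le_mul_of_nonneg_left ?_ hη3.le
            exact mul_le_mul h5 h4 (by positivity) zero_le_one
        _ = η ^ 3 := by ring
    linarith
  have hη31 : η ^ 3 ≤ η := by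
    calc η ^ 3 = η * η ^ 2 := by ring
      _ ≤ η * 1 := mul_le_mul_of_nonneg_left (pow_le_one₀ hη.le hη1) hη.le
      _ = η := mul_one _
  have hu1 : |u| ≤ u0 := by linarith
  have hpos : 0 < 1 + u := by
    have := neg_abs_le u
    linarith
  have hsq : ‖v + η ^ 4 • actM B v‖ ^ 2 = ‖v‖ ^ 2 * (1 + u) := by
    rw [norm_add_sq_real, norm_smul, real_inner_smul_right, Real.norm_of_nonneg (by positivity), hu,
      ha, hb]
    field_simp
    ring
  have hrp : ‖v + η ^ 4 • actM B v‖ ^ (-(2 * p)) = ‖v‖ ^ (-(2 * p)) * (1 + u) ^ (-p) := by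
    have e1 : ∀ x : ℝ, 0 ≤ x → x ^ (-(2 * p)) = (x ^ 2) ^ (-p) := by
      intro x hx
      rw [← Real.rpow_natCast x 2, ← Real.rpow_mul hx]
      congr 1
      push_cast
      ring
    rw [e1 _ (norm_nonneg _), hsq, Real.mul_rpow (by positivity) hpos.le, ← e1 _ hn.le]
  rw [hrp, mul_comm]
  refine mul_le_mul_of_nonneg_right ?_ (Real.rpow_nonneg hn.le _)
  refine (hKu u hu1).trans ?_
  have hu3 : |u| ^ 3 ≤ 27 * η ^ 9 := by
    calc |u| ^ 3 ≤ (3 * η ^ 3) ^ 3 := pow_le_pow_left₀ (abs_nonneg u) huabs 3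
      _ = 27 * η ^ 9 := by ring
  have hK3 : K * |u| ^ 3 ≤ 27 * K * η ^ 9 := by
    have := mul_le_mul_of_nonneg_left hu3 hK.le
    linarith
  have hu2 : u ^ 2 ≤ 4 * η ^ 8 * a ^ 2 + η ^ 9 * (4 * β ^ 3 + β ^ 4) := by
    have h1 : u ^ 2 = 4 * η ^ 8 * a ^ 2 + 4 * η ^ 12 * (a * b ^ 2) + η ^ 16 * b ^ 4 := by
      rw [hu]; ring
    have h2 : a * b ^ 2 ≤ β ^ 3 := by
      calc a * b ^ 2 ≤ |a| * b ^ 2 := mul_le_mul_of_nonneg_right (le_abs_self a) (by positivity)
        _ ≤ b * b ^ 2 := mul_le_mul_of_nonneg_right hab (by positivity)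
        _ = b ^ 3 := by ring
        _ ≤ β ^ 3 := pow_le_pow_left₀ hb0 hbβ 3
    have h3 : b ^ 4 ≤ β ^ 4 := pow_le_pow_left₀ hb0 hbβ 4
    have h4 : η ^ 12 ≤ η ^ 9 := pow_le_pow_of_le_one hη.le hη1 (by norm_num)
    have h5 : η ^ 16 ≤ η ^ 9 := pow_le_pow_of_le_one hη.le hη1 (by norm_num)
    have h6 : η ^ 12 * (a * b ^ 2) ≤ η ^ 9 * β ^ 3 := by
      calc η ^ 12 * (a * b ^ 2) ≤ η ^ 12 * β ^ 3 := mul_le_mul_of_nonneg_left h2 (by positivity)
        _ ≤ η ^ 9 * β ^ 3 := mul_le_mul_of_nonneg_right h4 (by positivity)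
    have h7 : η ^ 16 * b ^ 4 ≤ η ^ 9 * β ^ 4 := by
      calc η ^ 16 * b ^ 4 ≤ η ^ 16 * β ^ 4 := mul_le_mul_of_nonneg_left h3 (by positivity)
        _ ≤ η ^ 9 * β ^ 4 := mul_le_mul_of_nonneg_right h5 (by positivity)
    rw [h1]
    linarith
  have hpp : 0 ≤ p * (p + 1) / 2 := by positivity
  have h10 := mul_le_mul_of_nonneg_left hu2 hpp
  have h11 : 0 ≤ p * η ^ 9 * (2 * β ^ 17 + β ^ 18) := by positivity
  have e1 : ‖actM B v‖ ^ 2 / ‖v‖ ^ 2 = b ^ 2 := by rw [hb, div_pow]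
  have e2 : (inner ℝ v (actM B v)) ^ 2 / ‖v‖ ^ 4 = a ^ 2 := by
    rw [ha, div_pow]
    congr 1
    ring
  unfold MNz_Q
  rw [e1, e2, ← ha, ← hβ]
  linarith only [hK3, h10, h11]

private theorem MNz_Q_nonneg {N : ℕ} (p K η : ℝ) (hp : 0 < p) (hK : 0 < K)
    (hη : 0 < η) (hη1 : η ≤ 1) (v : E N) (hv : v ≠ 0)
    (B : EuclideanSpace ℝ (Fin (N * N))) (hB : ¬ η ^ 4 * ‖B‖ ≤ η ^ 3) :
    0 ≤ MNz_Q p K η v B := by
  have hn : 0 < ‖v‖ := norm_pos_iff.2 hv
  set a : ℝ := inner ℝ v (actM B v) / ‖v‖ ^ 2 with ha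
  set b : ℝ := ‖actM B v‖ / ‖v‖ with hb
  set β : ℝ := ‖B‖ with hβ
  have hb0 : 0 ≤ b := by positivity
  have hβ0 : 0 ≤ β := norm_nonneg B
  have hbβ : b ≤ β := by
    rw [hb, div_le_iff₀ hn]
    exact MNz_act_le B v
  have hab : |a| ≤ b := by
    rw [ha, hb, abs_div, abs_of_pos (by positivity : 0 < ‖v‖ ^ 2), div_le_div_iff₀ (by positivity) hn]
    have := abs_real_inner_le_norm v (actM B v)
    calc |inner ℝ v (actM B v)| * ‖v‖ ≤ (‖v‖ * ‖actM B v‖) * ‖v‖ :=
          mul_le_mul_of_nonneg_right this hn.le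
      _ = ‖actM B v‖ * ‖v‖ ^ 2 := by ring
  have hη3 : 0 < η ^ 3 := by positivity
  have hβη : 1 ≤ η * β := by
    have h1 : η ^ 3 * 1 < η ^ 3 * (η * β) := by
      calc η ^ 3 * 1 = η ^ 3 := mul_one _
        _ < η ^ 4 * β := not_le.1 hB
        _ = η ^ 3 * (η * β) := by ring
    exact (lt_of_mul_lt_mul_left h1 hη3.le).le
  have h16 : 1 ≤ η ^ 9 * β ^ 16 := by
    have h1 : 1 ≤ (η * β) ^ 16 := one_le_pow₀ hβη
    have h2 : (η * β) ^ 16 = η ^ 16 * β ^ 16 := by ring
    have h3 : η ^ 16 ≤ η ^ 9 := pow_le_pow_of_le_one hη.le hη1 (by norm_num)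
    have h4 : η ^ 16 * β ^ 16 ≤ η ^ 9 * β ^ 16 := mul_le_mul_of_nonneg_right h3 (by positivity)
    linarith
  have h17 : 2 * β + β ^ 2 ≤ η ^ 9 * (2 * β ^ 17 + β ^ 18) := by
    have h1 : 0 ≤ 2 * β + β ^ 2 := by positivity
    calc 2 * β + β ^ 2 = 1 * (2 * β + β ^ 2) := (one_mul _).symm
      _ ≤ (η ^ 9 * β ^ 16) * (2 * β + β ^ 2) := mul_le_mul_of_nonneg_right h16 h1
      _ = η ^ 9 * (2 * β ^ 17 + β ^ 18) := by ring
  have h4 : η ^ 4 ≤ 1 := pow_le_one₀ hη.le hη1
  have h8 : η ^ 8 ≤ 1 := pow_le_one₀ hη.le hη1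
  have hu : 2 * η ^ 4 * a + η ^ 8 * b ^ 2 ≤ 2 * β + β ^ 2 := by
    have h1 : 2 * η ^ 4 * a ≤ 2 * β := by
      calc 2 * η ^ 4 * a ≤ 2 * η ^ 4 * |a| :=
            mul_le_mul_of_nonneg_left (le_abs_self a) (by positivity)
        _ ≤ 2 * η ^ 4 * β := mul_le_mul_of_nonneg_left (hab.trans hbβ) (by positivity)
        _ ≤ 2 * 1 * β := by
            refine mul_le_mul_of_nonneg_right ?_ hβ0
            linarith
        _ = 2 * β := by ring
    have h2 : η ^ 8 * b ^ 2 ≤ β ^ 2 := by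
      calc η ^ 8 * b ^ 2 ≤ 1 * b ^ 2 := mul_le_mul_of_nonneg_right h8 (by positivity)
        _ = b ^ 2 := one_mul _
        _ ≤ β ^ 2 := pow_le_pow_left₀ hb0 hbβ 2
    linarith
  have e1 : ‖actM B v‖ ^ 2 / ‖v‖ ^ 2 = b ^ 2 := by rw [hb, div_pow]
  have h5 := mul_le_mul_of_nonneg_left (hu.trans h17) hp.le
  have h6 : 0 ≤ p * (p + 1) / 2 * (4 * η ^ 8 * ((inner ℝ v (actM B v)) ^ 2 / ‖v‖ ^ 4) +
      η ^ 9 * (4 * β ^ 3 + β ^ 4)) := by positivity
  have h7 : 0 ≤ 27 * K * η ^ 9 := by positivity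
  unfold MNz_Q
  rw [e1, ← ha, ← hβ]
  linarith

private theorem MNz_neg_aux (N : ℕ) (r ε : ℝ) (hr : 0 < r) (hε : 0 < ε) :
    ∃ h0 : ℝ, 0 < h0 ∧ ∀ h, 0 < h → h < h0 → ∀ v : E N, v ≠ 0 →
      ∫⁻ B in {B : EuclideanSpace ℝ (Fin (N * N)) | Real.sqrt h * ‖B‖ ≤ h ^ (3 / 8 : ℝ)},
        ENNReal.ofReal (‖v + Real.sqrt h • actM B v‖ ^ (-r))
          ∂(stdGaussian (EuclideanSpace ℝ (Fin (N * N)))) ≤
        ENNReal.ofReal ((1 + (-(lamN N * r) + r ^ 2 / 2 + ε) * h) * ‖v‖ ^ (-r)) := by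
  obtain ⟨K, u0, hK, hu0, hu2, hKu⟩ := MNz_pw (r / 2) (by positivity)
  obtain ⟨γ, hγ⟩ : ∃ γ : Measure (EuclideanSpace ℝ (Fin (N * N))),
      γ = stdGaussian (EuclideanSpace ℝ (Fin (N * N))) := ⟨_, rfl⟩
  obtain ⟨K', hK'⟩ : ∃ K' : ℝ, K' = r / 2 * (r / 2 + 1) / 2 *
      (4 * ∫ B : EuclideanSpace ℝ (Fin (N * N)), ‖B‖ ^ 3 ∂γ +
      ∫ B : EuclideanSpace ℝ (Fin (N * N)), ‖B‖ ^ 4 ∂γ) + 27 * K +
    r / 2 * (2 * ∫ B : EuclideanSpace ℝ (Fin (N * N)), ‖B‖ ^ 17 ∂γ +
      ∫ B : EuclideanSpace ℝ (Fin (N * N)), ‖B‖ ^ 18 ∂γ) := ⟨_, rfl⟩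
  have hK'0 : 0 ≤ K' := by
    rw [hK']
    have i3 : 0 ≤ ∫ B : EuclideanSpace ℝ (Fin (N * N)), ‖B‖ ^ 3 ∂γ :=
      integral_nonneg fun B => by positivity
    have i4 : 0 ≤ ∫ B : EuclideanSpace ℝ (Fin (N * N)), ‖B‖ ^ 4 ∂γ :=
      integral_nonneg fun B => by positivity
    have i17 : 0 ≤ ∫ B : EuclideanSpace ℝ (Fin (N * N)), ‖B‖ ^ 17 ∂γ :=
      integral_nonneg fun B => by positivity
    have i18 : 0 ≤ ∫ B : EuclideanSpace ℝ (Fin (N * N)), ‖B‖ ^ 18 ∂γ :=
      integral_nonneg fun B => by positivity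
    positivity
  have hK1 : 0 < K' + 1 := by linarith
  obtain ⟨η0, hη0⟩ : ∃ η0 : ℝ, η0 = min 1 (min (ε / (K' + 1)) (u0 / 3)) := ⟨_, rfl⟩
  have hη0p : 0 < η0 := by
    rw [hη0]
    exact lt_min one_pos (lt_min (div_pos hε hK1) (by positivity))
  refine ⟨η0 ^ 8, by positivity, fun h hh hlt v hv => ?_⟩
  obtain ⟨η, hη⟩ : ∃ η : ℝ, η = h ^ (1 / 8 : ℝ) := ⟨_, rfl⟩
  have hηp : 0 < η := by
    rw [hη]
    exact Real.rpow_pos_of_pos hh _
  have hη8 : η ^ 8 = h := by
    rw [hη, ← Real.rpow_natCast, ← Real.rpow_mul hh.le]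
    norm_num
  have hηlt : η < η0 := by
    rw [← hη8] at hlt
    exact lt_of_pow_lt_pow_left₀ 8 hη0p.le hlt
  rw [hη0] at hηlt
  have hη1 : η ≤ 1 := hηlt.le.trans (min_le_left _ _)
  have hηε : η * K' ≤ ε := by
    have h1 : η ≤ ε / (K' + 1) := hηlt.le.trans ((min_le_right _ _).trans (min_le_left _ _))
    have h2 : η * (K' + 1) ≤ ε := (le_div_iff₀ hK1).1 h1
    nlinarith only [hηp, h2]
  have hηu : 3 * η ≤ u0 := by
    have h1 : η ≤ u0 / 3 := hηlt.le.trans ((min_le_right _ _).trans (min_le_right _ _))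
    linarith
  have hsq : Real.sqrt h = η ^ 4 := by
    rw [← hη8]
    have : η ^ 8 = (η ^ 4) ^ 2 := by ring
    rw [this, Real.sqrt_sq (by positivity)]
  have h38 : h ^ (3 / 8 : ℝ) = η ^ 3 := by
    rw [hη, ← Real.rpow_natCast, ← Real.rpow_mul hh.le]
    norm_num
  have hn : 0 < ‖v‖ := norm_pos_iff.2 hv
  have h2p : -r = -(2 * (r / 2)) := by ring
  have hgd : MeasurableSet {B : EuclideanSpace ℝ (Fin (N * N)) |
      Real.sqrt h * ‖B‖ ≤ h ^ (3 / 8 : ℝ)} :=
    measurableSet_le (measurable_norm.const_mul _) measurable_const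
  have hQ0 : ∀ B, 0 ≤ MNz_Q (r / 2) K η v B := by
    intro B
    by_cases hB : η ^ 4 * ‖B‖ ≤ η ^ 3
    · have h1 := MNz_Q_le (r / 2) K u0 η (by positivity) hK hu2 hKu hηp hη1 hηu v hv B hB
      have h2 : 0 ≤ ‖v + η ^ 4 • actM B v‖ ^ (-(2 * (r / 2))) := Real.rpow_nonneg (norm_nonneg _) _
      have h3 : 0 < ‖v‖ ^ (-(2 * (r / 2))) := Real.rpow_pos_of_pos hn _
      exact nonneg_of_mul_nonneg_left (h2.trans h1) h3
    · exact MNz_Q_nonneg (r / 2) K η (by positivity) hK hηp hη1 v hv B hB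
  have hQi := MNz_Q_int (r / 2) K η v
  rw [← hγ] at hQi ⊢
  calc ∫⁻ B in {B : EuclideanSpace ℝ (Fin (N * N)) | Real.sqrt h * ‖B‖ ≤ h ^ (3 / 8 : ℝ)},
        ENNReal.ofReal (‖v + Real.sqrt h • actM B v‖ ^ (-r)) ∂γ
      ≤ ∫⁻ B in {B : EuclideanSpace ℝ (Fin (N * N)) | Real.sqrt h * ‖B‖ ≤ h ^ (3 / 8 : ℝ)},
        ENNReal.ofReal (MNz_Q (r / 2) K η v B * ‖v‖ ^ (-r)) ∂γ := by
        refine setLIntegral_mono' hgd fun B hB => ENNReal.ofReal_le_ofReal ?_
        have hB' : η ^ 4 * ‖B‖ ≤ η ^ 3 := by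
          have h1 : Real.sqrt h * ‖B‖ ≤ h ^ (3 / 8 : ℝ) := hB
          rwa [hsq, h38] at h1
        have h1 := MNz_Q_le (r / 2) K u0 η (by positivity) hK hu2 hKu hηp hη1 hηu v hv B hB'
        rw [hsq, h2p]
        exact h1
    _ ≤ ∫⁻ ω, ENNReal.ofReal (MNz_Q (r / 2) K η v ω * ‖v‖ ^ (-r)) ∂γ :=
        setLIntegral_le_lintegral _ _
    _ = ENNReal.ofReal (∫ ω, MNz_Q (r / 2) K η v ω * ‖v‖ ^ (-r) ∂γ) := by
        rw [ofReal_integral_eq_lintegral_ofReal (hQi.mul_const _)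
          (Filter.Eventually.of_forall fun B => mul_nonneg (hQ0 B) (Real.rpow_nonneg hn.le _))]
    _ ≤ ENNReal.ofReal ((1 + (-(lamN N * r) + r ^ 2 / 2 + ε) * h) * ‖v‖ ^ (-r)) := by
        refine ENNReal.ofReal_le_ofReal ?_
        rw [integral_mul_const]
        refine mul_le_mul_of_nonneg_right ?_ (Real.rpow_nonneg hn.le _)
        have hval := MNz_Q_val (r / 2) K η v hv
        rw [← hγ, ← hK'] at hval
        rw [hval]
        have h1 : η ^ 9 * K' ≤ η ^ 8 * ε := by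
          calc η ^ 9 * K' = η ^ 8 * (η * K') := by ring
            _ ≤ η ^ 8 * ε := mul_le_mul_of_nonneg_left hηε (by positivity)
        rw [hη8] at h1 ⊢
        unfold lamN
        nlinarith only [h1]

/-- negative moments of the matrix noise -/
theorem mn3_neg (N : ℕ) (hN : 1 ≤ N) (r ε : ℝ) (hr : 0 < r) (hε : 0 < ε) :
    ∃ h0 : ℝ, 0 < h0 ∧ ∀ h, 0 < h → h < h0 → ∀ v : E N, v ≠ 0 →
      ∫⁻ ω in (MN3 N hN).gd h, ENNReal.ofReal (‖(MN3 N hN).A h ω v‖ ^ (-r)) ∂((MN3 N hN).γ) ≤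
        ENNReal.ofReal ((1 + (-(lamN N * r) + r ^ 2 / 2 + ε) * h) * ‖v‖ ^ (-r)) := by
  obtain ⟨h0, hp, h1⟩ := MNz_neg_aux N r ε hr hε
  refine ⟨h0, hp, fun h hh hlt v hv => ?_⟩
  exact h1 h hh hlt v hv

private theorem MNz_meas_traj {St X : Type} [MeasurableSpace St] [MeasurableSpace X]
    (f : St → X → St) (hf : Measurable fun p : St × X => f p.1 p.2) :
    Measurable fun p : St × (ℕ → X) => traj f p.1 p.2 := by
  refine measurable_pi_lambda _ fun n => ?_
  induction n with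
  | zero => exact measurable_fst
  | succ n ih =>
    show Measurable fun p : St × (ℕ → X) => f (traj f p.1 p.2 n) (p.2 n)
    exact hf.comp (ih.prodMk ((measurable_pi_apply n).comp measurable_snd))

private def MNz_cons {X : Type} (a : X) (ω : ℕ → X) : ℕ → X := fun i => Nat.casesOn i a ω

private theorem MNz_meas_cons {X : Type} [MeasurableSpace X] :
    Measurable (fun p : X × (ℕ → X) => MNz_cons p.1 p.2) := by
  rw [measurable_pi_iff]
  intro i
  cases i with
  | zero => exact measurable_fst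
  | succ i => exact (measurable_pi_apply i).comp measurable_snd

private theorem MNz_traj_cons {St X : Type} (f : St → X → St) (s : St) (a : X) (ω : ℕ → X) :
    traj f s (MNz_cons a ω) = MNz_cons s (traj f (f s a) ω) := by
  funext n
  induction n with
  | zero => rfl
  | succ n ih =>
    show f (traj f s (MNz_cons a ω) n) (MNz_cons a ω n) = traj f (f s a) ω n
    rw [ih]
    cases n with
    | zero => rfl
    | succ n => rfl

/-- equal kernels give equal laws of trajectories -/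
theorem traj_law {St X1 X2 : Type} [MeasurableSpace St] [MeasurableSpace X1] [MeasurableSpace X2]
    (μ1 : Measure X1) [IsProbabilityMeasure μ1] (μ2 : Measure X2) [IsProbabilityMeasure μ2]
    (f1 : St → X1 → St) (f2 : St → X2 → St)
    (h1 : Measurable fun p : St × X1 => f1 p.1 p.2) (h2 : Measurable fun p : St × X2 => f2 p.1 p.2)
    (h : ∀ s, μ1.map (f1 s) = μ2.map (f2 s)) (n : ℕ) (Φ : (ℕ → St) → ℝ≥0∞) (hΦ : Measurable Φ)
    (hd : Dep n Φ) (s : St) :
    ∫⁻ ω, Φ (traj f1 s ω) ∂(PI μ1) = ∫⁻ ω, Φ (traj f2 s ω) ∂(PI μ2) := by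
  induction n generalizing Φ s with
  | zero =>
    have h3 : ∀ a b : ℕ → St, Φ a = Φ b := fun a b => hd a b (by intro i hi; omega)
    have e1 : ∀ ω : ℕ → X1, Φ (traj f1 s ω) = Φ fun _ => s := fun ω => h3 _ _
    have e2 : ∀ ω : ℕ → X2, Φ (traj f2 s ω) = Φ fun _ => s := fun ω => h3 _ _
    rw [lintegral_congr e1, lintegral_congr e2, lintegral_const, lintegral_const, measure_univ,
      measure_univ]
  | succ n ih =>
    have m1 : Measurable fun ω : ℕ → X1 => Φ (traj f1 s ω) :=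
      hΦ.comp ((MNz_meas_traj f1 h1).comp (measurable_const.prodMk measurable_id))
    have m2 : Measurable fun ω : ℕ → X2 => Φ (traj f2 s ω) :=
      hΦ.comp ((MNz_meas_traj f2 h2).comp (measurable_const.prodMk measurable_id))
    rw [lintegral_cons _ m1, lintegral_cons _ m2]
    change ∫⁻ a, ∫⁻ ω, Φ (traj f1 s (MNz_cons a ω)) ∂(PI μ1) ∂μ1 =
      ∫⁻ a, ∫⁻ ω, Φ (traj f2 s (MNz_cons a ω)) ∂(PI μ2) ∂μ2
    simp only [MNz_traj_cons]
    have mΦ : Measurable fun τ : ℕ → St => Φ (MNz_cons s τ) :=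
      hΦ.comp (MNz_meas_cons.comp (measurable_const.prodMk measurable_id))
    have dΦ : Dep n fun τ : ℕ → St => Φ (MNz_cons s τ) := by
      intro a b hab
      refine hd _ _ fun i hi => ?_
      cases i with
      | zero => rfl
      | succ i => exact hab i (by omega)
    have key : ∀ s' : St, ∫⁻ ω, Φ (MNz_cons s (traj f1 s' ω)) ∂(PI μ1) =
        ∫⁻ ω, Φ (MNz_cons s (traj f2 s' ω)) ∂(PI μ2) := fun s' =>
      ih (fun τ => Φ (MNz_cons s τ)) mΦ dΦ s'
    have mΨ : Measurable fun s' : St =>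
        ∫⁻ ω, Φ (MNz_cons s (traj f2 s' ω)) ∂(PI μ2) :=
      Measurable.lintegral_prod_right'
        (f := fun p : St × (ℕ → X2) => Φ (MNz_cons s (traj f2 p.1 p.2)))
        (mΦ.comp (MNz_meas_traj f2 h2))
    calc ∫⁻ a, ∫⁻ ω, Φ (MNz_cons s (traj f1 (f1 s a) ω)) ∂(PI μ1) ∂μ1
        = ∫⁻ a, ∫⁻ ω, Φ (MNz_cons s (traj f2 (f1 s a) ω)) ∂(PI μ2) ∂μ1 :=
          lintegral_congr fun a => key (f1 s a)
      _ = ∫⁻ s', ∫⁻ ω, Φ (MNz_cons s (traj f2 s' ω)) ∂(PI μ2) ∂(μ1.map (f1 s)) :=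
          (lintegral_map mΨ (h1.comp (measurable_const.prodMk measurable_id))).symm
      _ = ∫⁻ s', ∫⁻ ω, Φ (MNz_cons s (traj f2 s' ω)) ∂(PI μ2) ∂(μ2.map (f2 s)) := by
          rw [h s]
      _ = ∫⁻ a, ∫⁻ ω, Φ (MNz_cons s (traj f2 (f2 s a) ω)) ∂(PI μ2) ∂μ2 :=
          lintegral_map mΨ (h2.comp (measurable_const.prodMk measurable_id))

end DynC

end

/-! ### from `Lib_MP_36b788c.SBS` -/

section

/-!
# Small ball estimate by shifts; one-site products; first moments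

PROOF.
* `sbs`: `E = {ω ∈ Reg, ‖F ω‖ ≤ ρ}`, `E^φ = {ω : ω + φ v ∈ E}`. Cameron-Martin (`shift_lintegral` with the deterministic shift `φ v`): `P(E) = E[1_{E^φ} Z_φ]`, `Z_φ = exp(-φ Σ⟪v,ω⟫ - φ²‖v‖²/2)`, `E Z_φ² = e^{φ²‖v‖²} ≤ e` (`cm` with `2φv`), so `P(E)² ≤ e P(E^φ)`. Average over `φ ∈ [0,1]` (Tonelli, `(φ,ω) ↦ ω + φ v` is measurable):
  `P(E)² ≤ e ∫ P(E^φ) dφ` and `(∫ P(E^φ) dφ)² ≤ E (∫ 1_{E^φ} dφ)² = ∫∫ P(E^φ ∩ E^{φ'}) ≤ 2η + p2` (`|φ-φ'| < η` has area `≤ 2η`; otherwise both `‖F^φ‖, ‖F^{φ'}‖ ≤ ρ`). So `P(E)⁴ ≤ e² (2η + p2)`.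
* `prod_near`: `pr A i j` = composition `A_{j-1} ⋯ A_i`. For a fixed unit vector `v`: `P(∃ j ≤ m, ‖pr A 0 j v - v‖ ≥ δ) ≤ 4 C m h/δ²`: claim by induction on `n` (`lintegral_cons`), for all `w` with `‖w - v‖ < δ ≤ 1`: `P(∃ j ≤ n, ‖pr A 0 j w - v‖ ≥ δ) ≤ (‖w-v‖² + 4 n C h)/δ²`
  (`E‖A w - v‖² = ‖w-v‖² + E‖A w - w‖² ≤ ‖w-v‖² + 4 C h` by `mean`, `var`; if `‖A w - v‖ ≥ δ` the bound is `≥ 1`). Orthonormal basis `e_1 … e_D` of `V`: with probability `≥ 1 - D·4C m h D²/δ²` (use `δ/D`) all `‖pr A 0 j v - v‖ ≤ δ‖v‖`, `v ∈ V`, `j ≤ m`; then `pr A 0 i` is bijective (finite dimension) with `‖(pr A 0 i)⁻¹ w‖ ≤ 2‖w‖`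
  and `pr A i j w = pr A 0 j v` for `w = pr A 0 i v`, so `‖pr A i j w - w‖ ≤ 2δ‖v‖ ≤ 4δ‖w‖`. Use `δ/4`.
-/

open MeasureTheory ProbabilityTheory
open scoped ENNReal

namespace DynC

open Dyn

private theorem SBS_cs {A : Type} [MeasurableSpace A] (μ : Measure A) (f g : A → ℝ≥0∞)
    (hf : Measurable f) (hg : Measurable g) :
    (∫⁻ a, f a * g a ∂μ) ^ 2 ≤ (∫⁻ a, f a ^ 2 ∂μ) * ∫⁻ a, g a ^ 2 ∂μ := by
  have h1 := ENNReal.lintegral_mul_le_Lp_mul_Lq μ (p := 2) (q := 2)
    (Real.HolderConjugate.two_two) hf.aemeasurable hg.aemeasurable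
  have h2 : ∀ F : A → ℝ≥0∞, ∫⁻ a, F a ^ (2:ℝ) ∂μ = ∫⁻ a, F a ^ 2 ∂μ := by
    intro F
    refine lintegral_congr ?_
    intro a
    exact ENNReal.rpow_two _
  rw [h2, h2] at h1
  have h3 : ∀ x : ℝ≥0∞, (x ^ (1 / (2:ℝ))) ^ 2 = x := by
    intro x
    rw [← ENNReal.rpow_natCast, ← ENNReal.rpow_mul]
    norm_num
  calc (∫⁻ a, f a * g a ∂μ) ^ 2
      ≤ ((∫⁻ a, f a ^ 2 ∂μ) ^ (1 / (2:ℝ)) * (∫⁻ a, g a ^ 2 ∂μ) ^ (1 / (2:ℝ))) ^ 2 :=
        pow_le_pow_left' h1 2
    _ = _ := by rw [mul_pow, h3, h3]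

private theorem SBS_shift {ι H : Type} [Fintype ι]
    [NormedAddCommGroup H] [InnerProductSpace ℝ H] [MeasurableSpace H] [BorelSpace H]
    [SecondCountableTopology H] (γ : Measure H) [IsProbabilityMeasure γ] (cm : CMart γ)
    (n : ℕ) (v : ℕ → ι → H) (hv0 : ∀ j, n ≤ j → v j = 0) (c : ℝ)
    (Φ : (ℕ → ι → H) → ℝ≥0∞) (hΦ : Measurable Φ) :
    ∫⁻ ω, Φ (ω + c • v) * ENNReal.ofReal (Real.exp (logZ n (fun j _ => c • v j) ω))
        ∂(PI (Measure.pi fun _ : ι => γ))
      = ∫⁻ ω, Φ ω ∂(PI (Measure.pi fun _ : ι => γ)) := by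
  have h := shift_lintegral cm n (fun j (_ : ℕ → ι → H) => c • v j) (fun j => measurable_const)
    (fun j a b _ => rfl) (fun j hj ω => by rw [hv0 j hj, smul_zero]) Φ hΦ
  exact h

private theorem SBS_logZ {ι H : Type} [Fintype ι]
    [NormedAddCommGroup H] [InnerProductSpace ℝ H]
    (n : ℕ) (v : ℕ → ι → H) (c : ℝ) (ω : ℕ → ι → H) :
    2 * logZ n (fun j (_ : ℕ → ι → H) => c • v j) ω =
      logZ n (fun j (_ : ℕ → ι → H) => (2 * c) • v j) ω +
        c ^ 2 * ∑ j ∈ Finset.range n, ∑ x, ‖v j x‖ ^ 2 := by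
  unfold logZ
  rw [Finset.mul_sum, Finset.mul_sum, ← Finset.sum_add_distrib]
  refine Finset.sum_congr rfl ?_
  intro j _
  rw [Finset.mul_sum, Finset.mul_sum, ← Finset.sum_add_distrib]
  refine Finset.sum_congr rfl ?_
  intro x _
  simp only [Pi.smul_apply, norm_smul, inner_smul_left, Real.norm_eq_abs, mul_pow, sq_abs, abs_mul,
    conj_trivial]
  norm_num
  ring

private theorem SBS_meas_add {ι H : Type} [Fintype ι]
    [NormedAddCommGroup H] [InnerProductSpace ℝ H] [MeasurableSpace H] [BorelSpace H]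
    [SecondCountableTopology H] (v : ℕ → ι → H) :
    Measurable (fun p : ℝ × (ℕ → ι → H) => p.2 + p.1 • v) := by
  refine measurable_pi_lambda _ fun j => measurable_pi_lambda _ fun x => ?_
  have h1 : Measurable fun p : ℝ × (ℕ → ι → H) => p.2 j x :=
    (measurable_pi_apply x).comp ((measurable_pi_apply j).comp measurable_snd)
  have h2 : Measurable fun p : ℝ × (ℕ → ι → H) => p.1 • v j x :=
    measurable_fst.smul_const _
  exact h1.add h2

theorem sbs {ι V H : Type} [Fintype ι] [NormedAddCommGroup V] [MeasurableSpace V] [BorelSpace V]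
    [SecondCountableTopology V]
    [NormedAddCommGroup H] [InnerProductSpace ℝ H] [MeasurableSpace H] [BorelSpace H]
    [SecondCountableTopology H] (γ : Measure H) [IsProbabilityMeasure γ] (cm : CMart γ)
    (n : ℕ) (v : ℕ → ι → H) (hv0 : ∀ j, n ≤ j → v j = 0)
    (hv : ∑ j ∈ Finset.range n, ∑ x, ‖v j x‖ ^ 2 ≤ 1)
    (F : (ℕ → ι → H) → V) (hF : Measurable F) (Reg : Set (ℕ → ι → H)) (hR : MeasurableSet Reg)
    (ρ η p2 : ℝ) (hρ : 0 ≤ ρ) (hη : 0 ≤ η) (hp : 0 ≤ p2)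
    (h : ∀ φ φ' : ℝ, 0 ≤ φ → φ' ≤ 1 → η ≤ φ' - φ →
      PI (Measure.pi fun _ : ι => γ) {ω | (ω + φ • v) ∈ Reg ∧ (ω + φ' • v) ∈ Reg ∧
        ‖F (ω + φ' • v) - F (ω + φ • v)‖ ≤ 2 * ρ} ≤ ENNReal.ofReal p2) :
    PI (Measure.pi fun _ : ι => γ) {ω | ω ∈ Reg ∧ ‖F ω‖ ≤ ρ} ≤
      ENNReal.ofReal (2 * (2 * η + p2) ^ (1 / 4 : ℝ)) := by
  classical
  set μ := PI (Measure.pi fun _ : ι => γ) with hμ
  set E : Set (ℕ → ι → H) := {ω | ω ∈ Reg ∧ ‖F ω‖ ≤ ρ} with hE
  have hEm : MeasurableSet E := hR.inter (measurableSet_le hF.norm measurable_const)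
  set f : ℝ → (ℕ → ι → H) → ℝ≥0∞ := fun φ ω => E.indicator (fun _ => (1:ℝ≥0∞)) (ω + φ • v)
    with hf
  have hfm : Measurable (Function.uncurry f) :=
    (measurable_const.indicator hEm).comp (SBS_meas_add v)
  have hfm1 : ∀ φ, Measurable (f φ) := fun φ => hfm.comp (measurable_const.prodMk measurable_id)
  have hfm2 : ∀ ω, Measurable (fun φ => f φ ω) := fun ω =>
    hfm.comp (measurable_id.prodMk measurable_const)
  have hff : ∀ φ ω, f φ ω ^ 2 = f φ ω := by
    intro φ ω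
    simp only [hf]
    by_cases hc : ω + φ • v ∈ E
    · rw [Set.indicator_of_mem hc, one_pow]
    · rw [Set.indicator_of_notMem hc]; norm_num
  have hf1 : ∀ φ ω, f φ ω ≤ 1 := by
    intro φ ω
    simp only [hf]
    by_cases hc : ω + φ • v ∈ E
    · rw [Set.indicator_of_mem hc]
    · rw [Set.indicator_of_notMem hc]; norm_num
  -- step 1
  have s1 : ∀ φ ∈ Set.Icc (0:ℝ) 1, μ E ^ 2 ≤ ENNReal.ofReal (Real.exp 1) * ∫⁻ ω, f φ ω ∂μ := by
    intro φ hφ
    have e1 : μ E = ∫⁻ ω, f φ ω * ENNReal.ofReal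
        (Real.exp (logZ n (fun j (_ : ℕ → ι → H) => φ • v j) ω)) ∂μ := by
      rw [← lintegral_indicator_one hEm]
      exact (SBS_shift γ cm n v hv0 φ (E.indicator 1) (measurable_const.indicator hEm)).symm
    have hZm : ∀ c : ℝ, Measurable (fun ω : ℕ → ι → H => ENNReal.ofReal
        (Real.exp (logZ n (fun j (_ : ℕ → ι → H) => c • v j) ω))) := by
      intro c
      refine ENNReal.measurable_ofReal.comp (Real.measurable_exp.comp ?_)
      unfold logZ
      refine Finset.measurable_fun_sum _ fun j _ => Finset.measurable_fun_sum _ fun x _ => ?_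
      have h1 : Measurable fun ω : ℕ → ι → H => ω j x :=
        (measurable_pi_apply x).comp (measurable_pi_apply j)
      exact ((measurable_const.inner h1).neg.sub measurable_const)
    rw [e1]
    refine le_trans (SBS_cs μ _ _ (hfm1 φ) (hZm φ)) ?_
    rw [mul_comm]
    have e2 : ∫⁻ ω, f φ ω ^ 2 ∂μ = ∫⁻ ω, f φ ω ∂μ := lintegral_congr (fun ω => hff φ ω)
    rw [e2]
    refine mul_le_mul_left ?_ _
    have e3 : ∀ ω : ℕ → ι → H, ENNReal.ofReal
        (Real.exp (logZ n (fun j (_ : ℕ → ι → H) => φ • v j) ω)) ^ 2 =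
        ENNReal.ofReal (Real.exp (φ ^ 2 * ∑ j ∈ Finset.range n, ∑ x, ‖v j x‖ ^ 2)) *
        (1 * ENNReal.ofReal (Real.exp (logZ n (fun j (_ : ℕ → ι → H) => (2 * φ) • v j) ω))) := by
      intro ω
      rw [one_mul, ← ENNReal.ofReal_mul (Real.exp_pos _).le, ← Real.exp_add,
        ← ENNReal.ofReal_pow (Real.exp_pos _).le, ← Real.exp_nat_mul]
      congr 2
      push_cast
      rw [SBS_logZ]
      ring
    rw [lintegral_congr e3, lintegral_const_mul]
    · have e4 := SBS_shift γ cm n v hv0 (2 * φ) (fun _ => 1) measurable_const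
      rw [e4, lintegral_one, measure_univ, mul_one]
      refine ENNReal.ofReal_le_ofReal (Real.exp_le_exp.2 ?_)
      have : φ ^ 2 ≤ 1 := by nlinarith [hφ.1, hφ.2]
      calc φ ^ 2 * ∑ j ∈ Finset.range n, ∑ x, ‖v j x‖ ^ 2
          ≤ 1 * 1 := by
            refine mul_le_mul this hv ?_ zero_le_one
            exact Finset.sum_nonneg fun j _ => Finset.sum_nonneg fun x _ => by positivity
        _ = 1 := one_mul 1
    · exact measurable_const.mul (hZm (2 * φ))
  -- step 2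
  set lam : Measure ℝ := volume.restrict (Set.Icc (0:ℝ) 1) with hlam
  have hl1 : lam Set.univ = 1 := by
    rw [hlam, Measure.restrict_apply MeasurableSet.univ, Set.univ_inter, Real.volume_Icc]
    norm_num
  have : IsProbabilityMeasure lam := ⟨hl1⟩
  have s2 : μ E ^ 2 ≤ ENNReal.ofReal (Real.exp 1) * ∫⁻ φ, ∫⁻ ω, f φ ω ∂μ ∂lam := by
    have hm : Measurable (fun φ => ∫⁻ ω, f φ ω ∂μ) := hfm.lintegral_prod_right'
    calc μ E ^ 2 = ∫⁻ _φ, μ E ^ 2 ∂lam := by
          rw [lintegral_const, hl1, mul_one]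
      _ ≤ ∫⁻ φ, ENNReal.ofReal (Real.exp 1) * ∫⁻ ω, f φ ω ∂μ ∂lam := by
          refine setLIntegral_mono' measurableSet_Icc ?_
          intro φ hφ
          exact s1 φ hφ
      _ = _ := lintegral_const_mul _ hm
  -- step 3
  have s3 : (∫⁻ φ, ∫⁻ ω, f φ ω ∂μ ∂lam) ^ 2 ≤
      ∫⁻ φ, ∫⁻ φ', ∫⁻ ω, f φ ω * f φ' ω ∂μ ∂lam ∂lam := by
    have hm : Measurable (fun ω => ∫⁻ φ, f φ ω ∂lam) :=
      (hfm.comp measurable_swap).lintegral_prod_right'
    rw [lintegral_lintegral_swap hfm.aemeasurable]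
    have c1 := SBS_cs μ (fun ω => ∫⁻ φ, f φ ω ∂lam) (fun _ => 1) hm measurable_const
    simp only [mul_one, one_pow, lintegral_one, measure_univ] at c1
    refine le_trans c1 ?_
    have c2 : ∀ ω, (∫⁻ φ, f φ ω ∂lam) ^ 2 = ∫⁻ φ, ∫⁻ φ', f φ ω * f φ' ω ∂lam ∂lam := by
      intro ω
      rw [sq, ← lintegral_mul_const _ (hfm2 ω)]
      refine lintegral_congr ?_
      intro φ
      rw [lintegral_const_mul _ (hfm2 ω)]
    rw [lintegral_congr c2]
    have hm3 : Measurable (fun p : (ℕ → ι → H) × ℝ × ℝ => f p.2.1 p.1 * f p.2.2 p.1) := by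
      have h1 : Measurable (fun p : (ℕ → ι → H) × ℝ × ℝ => f p.2.1 p.1) :=
        hfm.comp ((measurable_fst.comp measurable_snd).prodMk measurable_fst)
      have h2 : Measurable (fun p : (ℕ → ι → H) × ℝ × ℝ => f p.2.2 p.1) :=
        hfm.comp ((measurable_snd.comp measurable_snd).prodMk measurable_fst)
      exact h1.mul h2
    refine le_of_eq ?_
    rw [lintegral_lintegral_swap]
    · refine lintegral_congr ?_
      intro φ
      rw [lintegral_lintegral_swap]
      have : Measurable (Function.uncurry fun (ω : ℕ → ι → H) (φ' : ℝ) => f φ ω * f φ' ω) :=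
        hm3.comp (measurable_fst.prodMk (measurable_const.prodMk measurable_snd))
      exact this.aemeasurable
    · have hm4 : Measurable (fun p : ((ℕ → ι → H) × ℝ) × ℝ => f p.1.2 p.1.1 * f p.2 p.1.1) :=
        hm3.comp ((measurable_fst.comp measurable_fst).prodMk
          ((measurable_snd.comp measurable_fst).prodMk measurable_snd))
      exact (hm4.lintegral_prod_right').aemeasurable
  -- step 4
  have s4 : ∫⁻ φ, ∫⁻ φ', ∫⁻ ω, f φ ω * f φ' ω ∂μ ∂lam ∂lam ≤ ENNReal.ofReal (2 * η + p2) := by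
    have c1 : ∀ φ ∈ Set.Icc (0:ℝ) 1, ∀ φ' ∈ Set.Icc (0:ℝ) 1, η ≤ φ' - φ →
        ∫⁻ ω, f φ ω * f φ' ω ∂μ ≤ ENNReal.ofReal p2 := by
      intro φ hφ φ' hφ' hd
      refine le_trans ?_ (h φ φ' hφ.1 hφ'.2 hd)
      have hle : ∀ ω, f φ ω * f φ' ω ≤ {ω | (ω + φ • v) ∈ Reg ∧ (ω + φ' • v) ∈ Reg ∧
          ‖F (ω + φ' • v) - F (ω + φ • v)‖ ≤ 2 * ρ}.indicator (fun _ => (1:ℝ≥0∞)) ω := by
        intro ω
        by_cases hc : ω + φ • v ∈ E
        · by_cases hc' : ω + φ' • v ∈ E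
          · rw [Set.indicator_of_mem]
            · calc f φ ω * f φ' ω ≤ 1 * 1 := mul_le_mul' (hf1 _ _) (hf1 _ _)
                _ = 1 := one_mul 1
            · refine ⟨hc.1, hc'.1, ?_⟩
              calc ‖F (ω + φ' • v) - F (ω + φ • v)‖
                  ≤ ‖F (ω + φ' • v)‖ + ‖F (ω + φ • v)‖ := norm_sub_le _ _
                _ ≤ ρ + ρ := add_le_add hc'.2 hc.2
                _ = 2 * ρ := by ring
          · have : f φ' ω = 0 := Set.indicator_of_notMem hc' _
            rw [this, mul_zero]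
            exact zero_le
        · have : f φ ω = 0 := Set.indicator_of_notMem hc _
          rw [this, zero_mul]
          exact zero_le
      refine le_trans (lintegral_mono hle) ?_
      refine le_trans (lintegral_indicator_le _ _) ?_
      rw [setLIntegral_one]
    have c2 : ∀ φ ∈ Set.Icc (0:ℝ) 1, ∀ φ' ∈ Set.Icc (0:ℝ) 1,
        ∫⁻ ω, f φ ω * f φ' ω ∂μ ≤ (Metric.ball φ η).indicator (fun _ => (1:ℝ≥0∞)) φ' +
          ENNReal.ofReal p2 := by
      intro φ hφ φ' hφ'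
      by_cases hd : φ' ∈ Metric.ball φ η
      · rw [Set.indicator_of_mem hd]
        refine le_trans ?_ le_self_add
        calc ∫⁻ ω, f φ ω * f φ' ω ∂μ ≤ ∫⁻ _ω, 1 ∂μ := by
              refine lintegral_mono ?_
              intro ω
              calc f φ ω * f φ' ω ≤ 1 * 1 := mul_le_mul' (hf1 _ _) (hf1 _ _)
                _ = 1 := one_mul 1
          _ = 1 := by rw [lintegral_one, measure_univ]
      · rw [Set.indicator_of_notMem hd, zero_add]
        rw [Metric.mem_ball, not_lt, Real.dist_eq] at hd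
        rcases le_total φ φ' with hle | hle
        · rw [abs_of_nonneg (by linarith)] at hd
          exact c1 φ hφ φ' hφ' hd
        · rw [abs_of_nonpos (by linarith)] at hd
          have := c1 φ' hφ' φ hφ (by linarith)
          simpa only [mul_comm] using this
    have c3 : ∀ φ ∈ Set.Icc (0:ℝ) 1, ∫⁻ φ', ∫⁻ ω, f φ ω * f φ' ω ∂μ ∂lam ≤
        ENNReal.ofReal (2 * η + p2) := by
      intro φ hφ
      calc ∫⁻ φ', ∫⁻ ω, f φ ω * f φ' ω ∂μ ∂lam
          ≤ ∫⁻ φ', ((Metric.ball φ η).indicator (fun _ => (1:ℝ≥0∞)) φ' + ENNReal.ofReal p2)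
              ∂lam := by
            refine setLIntegral_mono' measurableSet_Icc ?_
            intro φ' hφ'
            exact c2 φ hφ φ' hφ'
        _ = lam (Metric.ball φ η) + ENNReal.ofReal p2 := by
            rw [lintegral_add_right _ measurable_const, lintegral_const, hl1, mul_one]
            congr 1
            exact lintegral_indicator_one Metric.isOpen_ball.measurableSet
        _ ≤ volume (Metric.ball φ η) + ENNReal.ofReal p2 := by
            refine add_le_add_left ?_ _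
            exact Measure.restrict_le_self _
        _ = ENNReal.ofReal (2 * η + p2) := by
            rw [Real.volume_ball, ← ENNReal.ofReal_add (by positivity) hp]
    calc ∫⁻ φ, ∫⁻ φ', ∫⁻ ω, f φ ω * f φ' ω ∂μ ∂lam ∂lam
        ≤ ∫⁻ _φ, ENNReal.ofReal (2 * η + p2) ∂lam := by
          refine setLIntegral_mono' measurableSet_Icc ?_
          intro φ hφ
          exact c3 φ hφ
      _ = ENNReal.ofReal (2 * η + p2) := by rw [lintegral_const, hl1, mul_one]
  -- conclusion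
  have hfin : μ E ≠ ⊤ := measure_ne_top _ _
  set p : ℝ := (μ E).toReal with hpdef
  have hp0 : 0 ≤ p := ENNReal.toReal_nonneg
  have hpE : μ E = ENNReal.ofReal p := (ENNReal.ofReal_toReal hfin).symm
  have s5 : ENNReal.ofReal (p ^ 4) ≤ ENNReal.ofReal (16 * (2 * η + p2)) := by
    have c1 : μ E ^ 4 ≤ ENNReal.ofReal (Real.exp 1) ^ 2 * ENNReal.ofReal (2 * η + p2) := by
      calc μ E ^ 4 = (μ E ^ 2) ^ 2 := by ring
        _ ≤ (ENNReal.ofReal (Real.exp 1) * ∫⁻ φ, ∫⁻ ω, f φ ω ∂μ ∂lam) ^ 2 :=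
            pow_le_pow_left' s2 2
        _ = ENNReal.ofReal (Real.exp 1) ^ 2 * (∫⁻ φ, ∫⁻ ω, f φ ω ∂μ ∂lam) ^ 2 := mul_pow _ _ _
        _ ≤ _ := mul_le_mul_right (le_trans s3 s4) _
    rw [ENNReal.ofReal_pow hp0, ← hpE]
    refine le_trans c1 ?_
    rw [← ENNReal.ofReal_pow (Real.exp_pos _).le, ← ENNReal.ofReal_mul (by positivity)]
    refine ENNReal.ofReal_le_ofReal ?_
    refine mul_le_mul_of_nonneg_right ?_ (by positivity)
    have : Real.exp 1 ≤ 4 := le_trans Real.exp_one_lt_d9.le (by norm_num)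
    nlinarith [Real.exp_pos 1]
  have s6 : p ^ 4 ≤ 16 * (2 * η + p2) := (ENNReal.ofReal_le_ofReal_iff (by positivity)).1 s5
  rw [hpE]
  refine ENNReal.ofReal_le_ofReal ?_
  have hy : ((2 * η + p2) ^ (1 / 4 : ℝ)) ^ 4 = 2 * η + p2 := by
    rw [← Real.rpow_natCast, ← Real.rpow_mul (by positivity)]
    norm_num
  refine le_of_pow_le_pow_left₀ (n := 4) (by norm_num) (by positivity) ?_
  rw [mul_pow, hy]
  linarith

/-- product `A_{j-1} ⋯ A_i` -/
def pr {V : Type} [AddCommGroup V] [Module ℝ V] (A : ℕ → V →ₗ[ℝ] V) (i j : ℕ) : V → V :=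
  fun v => (List.range (j - i)).foldl (fun w l => A (i + l) w) v

/-- all partial products up to time `m` are close to the identity -/
def PNear {V : Type} [NormedAddCommGroup V] [Module ℝ V] (A : ℕ → V →ₗ[ℝ] V) (m : ℕ) (δ : ℝ) :
    Prop :=
  ∀ i j, i ≤ j → j ≤ m → ∀ w, ‖pr A i j w - w‖ ≤ δ * ‖w‖

theorem pr_self {V : Type} [AddCommGroup V] [Module ℝ V] (A : ℕ → V →ₗ[ℝ] V) (i : ℕ) (v : V) :
    pr A i i v = v := by
  unfold pr
  simp

theorem pr_succ {V : Type} [AddCommGroup V] [Module ℝ V] (A : ℕ → V →ₗ[ℝ] V) {i j : ℕ}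
    (h : i ≤ j) (v : V) : pr A i (j + 1) v = A j (pr A i j v) := by
  unfold pr
  rw [Nat.sub_add_comm h, List.range_succ, List.foldl_concat, Nat.add_sub_cancel' h]

theorem pr_comp {V : Type} [AddCommGroup V] [Module ℝ V] (A : ℕ → V →ₗ[ℝ] V) {i j l : ℕ}
    (h : i ≤ j) (h' : j ≤ l) (v : V) : pr A j l (pr A i j v) = pr A i l v := by
  induction l, h' using Nat.le_induction with
  | base => rw [pr_self]
  | succ l hl ih => rw [pr_succ A hl, pr_succ A (le_trans h hl), ih]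

theorem pr_add {V : Type} [AddCommGroup V] [Module ℝ V] (A : ℕ → V →ₗ[ℝ] V) (i j : ℕ) (v w : V) :
    pr A i j (v + w) = pr A i j v + pr A i j w := by
  rcases le_total i j with hij | hij
  · induction j, hij using Nat.le_induction with
    | base => simp only [pr_self]
    | succ l hl ih => rw [pr_succ A hl, pr_succ A hl, pr_succ A hl, ih, map_add]
  · unfold pr
    rw [Nat.sub_eq_zero_of_le hij]
    simp

theorem pr_smul {V : Type} [AddCommGroup V] [Module ℝ V] (A : ℕ → V →ₗ[ℝ] V) (i j : ℕ) (c : ℝ)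
    (v : V) : pr A i j (c • v) = c • pr A i j v := by
  rcases le_total i j with hij | hij
  · induction j, hij using Nat.le_induction with
    | base => simp only [pr_self]
    | succ l hl ih => rw [pr_succ A hl, pr_succ A hl, ih, map_smul]
  · unfold pr
    rw [Nat.sub_eq_zero_of_le hij]
    simp

private theorem SBS_pr_cons {V : Type} [AddCommGroup V] [Module ℝ V] (A : ℕ → V →ₗ[ℝ] V) (j : ℕ)
    (w : V) : pr A 0 (j + 1) w = pr (fun l => A (l + 1)) 0 j (A 0 w) := by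
  induction j with
  | zero => rw [pr_succ A (le_refl 0), pr_self, pr_self]
  | succ j ih => rw [pr_succ A (Nat.zero_le _), ih, pr_succ _ (Nat.zero_le j)]

private noncomputable def SBS_lin {V : Type} [AddCommGroup V] [Module ℝ V] (A : ℕ → V →ₗ[ℝ] V)
    (i j : ℕ) : V →ₗ[ℝ] V where
  toFun := pr A i j
  map_add' := pr_add A i j
  map_smul' := pr_smul A i j

private theorem SBS_det {V : Type} [NormedAddCommGroup V] [InnerProductSpace ℝ V]
    [FiniteDimensional ℝ V] (A : ℕ → V →ₗ[ℝ] V) (m : ℕ) (δ : ℝ) (hδ : 0 < δ) (hδ1 : δ ≤ 1)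
    (hb : ∀ (i : Fin (Module.finrank ℝ V)) (j : ℕ), j ≤ m →
      ‖pr A 0 j (stdOrthonormalBasis ℝ V i) - stdOrthonormalBasis ℝ V i‖ ≤
        δ / (4 * (Module.finrank ℝ V + 1))) : PNear A m δ := by
  have ha : ∀ (v : V) (j : ℕ), j ≤ m → ‖pr A 0 j v - v‖ ≤ δ / 4 * ‖v‖ := by
    intro v j hj
    have h1 : pr A 0 j v - v = ∑ i, (inner ℝ (stdOrthonormalBasis ℝ V i) v) •
        (pr A 0 j (stdOrthonormalBasis ℝ V i) - stdOrthonormalBasis ℝ V i) := by
      have h2 : SBS_lin A 0 j v - v = ∑ i, (inner ℝ (stdOrthonormalBasis ℝ V i) v) •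
        (SBS_lin A 0 j (stdOrthonormalBasis ℝ V i) - stdOrthonormalBasis ℝ V i) := by
        conv_lhs => rw [← (stdOrthonormalBasis ℝ V).sum_repr' v]
        rw [map_sum, ← Finset.sum_sub_distrib]
        refine Finset.sum_congr rfl ?_
        intro i _
        rw [map_smul, smul_sub]
      exact h2
    rw [h1]
    calc ‖∑ i, (inner ℝ (stdOrthonormalBasis ℝ V i) v) •
          (pr A 0 j (stdOrthonormalBasis ℝ V i) - stdOrthonormalBasis ℝ V i)‖
        ≤ ∑ i, ‖(inner ℝ (stdOrthonormalBasis ℝ V i) v) •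
          (pr A 0 j (stdOrthonormalBasis ℝ V i) - stdOrthonormalBasis ℝ V i)‖ :=
          norm_sum_le _ _
      _ ≤ ∑ _i : Fin (Module.finrank ℝ V), ‖v‖ * (δ / (4 * (Module.finrank ℝ V + 1))) := by
          refine Finset.sum_le_sum ?_
          intro i _
          rw [norm_smul]
          refine mul_le_mul ?_ (hb i j hj) (norm_nonneg _) (norm_nonneg _)
          have := norm_inner_le_norm (𝕜 := ℝ) (stdOrthonormalBasis ℝ V i) v
          rwa [(stdOrthonormalBasis ℝ V).norm_eq_one i, one_mul] at this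
      _ ≤ δ / 4 * ‖v‖ := by
          rw [Finset.sum_const, Finset.card_univ, Fintype.card_fin, nsmul_eq_mul]
          have h3 : ((Module.finrank ℝ V : ℕ) : ℝ) * (δ / (4 * (Module.finrank ℝ V + 1))) ≤
              δ / 4 := by
            rw [mul_div_assoc', div_le_div_iff₀ (by positivity) (by norm_num)]
            nlinarith
          calc ((Module.finrank ℝ V : ℕ) : ℝ) * (‖v‖ * (δ / (4 * (Module.finrank ℝ V + 1))))
              = ((Module.finrank ℝ V : ℕ) : ℝ) * (δ / (4 * (Module.finrank ℝ V + 1))) * ‖v‖ := by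
                ring
            _ ≤ δ / 4 * ‖v‖ := mul_le_mul_of_nonneg_right h3 (norm_nonneg _)
  intro i j hij hj w
  have hinj : Function.Injective (SBS_lin A 0 i) := by
    rw [← LinearMap.ker_eq_bot, LinearMap.ker_eq_bot']
    intro v hv
    have h1 := ha v i (le_trans hij hj)
    have h2 : pr A 0 i v = 0 := hv
    rw [h2, zero_sub, norm_neg] at h1
    have h3 : ‖v‖ = 0 := by
      have := norm_nonneg v
      nlinarith
    exact norm_eq_zero.1 h3
  obtain ⟨v, hv⟩ := (LinearMap.injective_iff_surjective.1 hinj) w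
  have hv' : pr A 0 i v = w := hv
  have h1 := ha v i (le_trans hij hj)
  have h2 := ha v j hj
  have h3 : ‖v‖ ≤ 2 * ‖w‖ := by
    rw [hv'] at h1
    have h4 : ‖v‖ ≤ ‖w‖ + ‖w - v‖ := by
      calc ‖v‖ = ‖w - (w - v)‖ := by congr 1; abel
        _ ≤ ‖w‖ + ‖w - v‖ := norm_sub_le _ _
    have := norm_nonneg v
    nlinarith
  have h5 : pr A i j w = pr A 0 j v := by
    rw [← hv', pr_comp A (Nat.zero_le i) hij]
  rw [h5]
  rw [hv'] at h1
  calc ‖pr A 0 j v - w‖ = ‖(pr A 0 j v - v) - (w - v)‖ := by congr 1; abel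
    _ ≤ ‖pr A 0 j v - v‖ + ‖w - v‖ := norm_sub_le _ _
    _ ≤ δ / 4 * ‖v‖ + δ / 4 * ‖v‖ := add_le_add h2 h1
    _ = δ / 2 * ‖v‖ := by ring
    _ ≤ δ / 2 * (2 * ‖w‖) := by gcongr
    _ = δ * ‖w‖ := by ring

section

variable {V H : Type} [NormedAddCommGroup V] [InnerProductSpace ℝ V] [MeasurableSpace V]
    [BorelSpace V] [FiniteDimensional ℝ V]
    [NormedAddCommGroup H] [InnerProductSpace ℝ H] [MeasurableSpace H]

private theorem SBS_msq (M : MN V H) {h : ℝ} (hh : 0 < h) (hh1 : h < 1) (v w : V)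
    (hw : ‖w‖ ≤ 2) :
    ∫⁻ ω, ENNReal.ofReal (‖M.A h ω w - v‖ ^ 2) ∂M.γ ≤
      ENNReal.ofReal (‖w - v‖ ^ 2 + 4 * M.C * h) := by
  have hC := M.C1
  have hVc : CompleteSpace V := FiniteDimensional.complete ℝ V
  have hm : Measurable (fun ω => M.A h ω w) := (M.mA h).comp (measurable_id.prodMk measurable_const)
  have hmX : Measurable (fun ω => M.A h ω w - w) := hm.sub_const w
  have hX : Integrable (fun ω => M.A h ω w - w) M.γ := (M.int h w hh hh1).sub (integrable_const w)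
  have hX0 : ∫ ω, (M.A h ω w - w) ∂M.γ = 0 := by
    rw [integral_sub (M.int h w hh hh1) (integrable_const w), M.mean h w hh hh1, integral_const]
    simp
  have hvar := M.var h w hh hh1
  have hX2 : Integrable (fun ω => ‖M.A h ω w - w‖ ^ 2) M.γ := by
    refine ⟨(hmX.norm.pow_const 2).aestronglyMeasurable, ?_⟩
    rw [hasFiniteIntegral_iff_ofReal (Filter.Eventually.of_forall fun ω => by positivity)]
    exact lt_of_le_of_lt hvar ENNReal.ofReal_lt_top
  have hX2b : ∫ ω, ‖M.A h ω w - w‖ ^ 2 ∂M.γ ≤ M.C * h * ‖w‖ ^ 2 := by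
    rw [← ofReal_integral_eq_lintegral_ofReal hX2
      (Filter.Eventually.of_forall fun ω => by positivity)] at hvar
    exact (ENNReal.ofReal_le_ofReal_iff (by positivity)).1 hvar
  have hin : Integrable (fun ω => 2 * inner ℝ (w - v) (M.A h ω w - w)) M.γ :=
    (hX.const_inner (w - v)).const_mul 2
  have heq : ∀ ω, ‖M.A h ω w - v‖ ^ 2 = ‖M.A h ω w - w‖ ^ 2 +
      2 * inner ℝ (w - v) (M.A h ω w - w) + ‖w - v‖ ^ 2 := by
    intro ω
    have : M.A h ω w - v = (M.A h ω w - w) + (w - v) := by abel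
    rw [this, norm_add_sq_real, real_inner_comm]
  have hI : Integrable (fun ω => ‖M.A h ω w - v‖ ^ 2) M.γ := by
    simp only [heq]
    exact (hX2.add hin).add (integrable_const _)
  rw [← ofReal_integral_eq_lintegral_ofReal hI
    (Filter.Eventually.of_forall fun ω => by positivity)]
  refine ENNReal.ofReal_le_ofReal ?_
  simp only [heq]
  have hw2 : ‖w‖ ^ 2 ≤ 4 := by
    have := norm_nonneg w
    nlinarith
  have hs1 : Integrable (fun ω => ‖M.A h ω w - w‖ ^ 2 +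
      2 * inner ℝ (w - v) (M.A h ω w - w)) M.γ := hX2.add hin
  rw [integral_add hs1 (integrable_const _), integral_add hX2 hin, integral_const_mul,
    integral_inner hX, hX0, inner_zero_right, mul_zero, add_zero, integral_const]
  simp only [probReal_univ, one_smul]
  have : M.C * h * ‖w‖ ^ 2 ≤ M.C * h * 4 := by gcongr
  linarith

omit [BorelSpace V] [FiniteDimensional ℝ V] in
private theorem SBS_meas_pr (M : MN V H) (h : ℝ) (i j : ℕ) (w : V) : Measurable (fun ω : ℕ → H =>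
    pr (fun j => M.A h (ω j)) i j w) := by
  rcases le_total i j with hij | hij
  · induction j, hij using Nat.le_induction with
    | base => simp only [pr_self]; exact measurable_const
    | succ l hl ih =>
      simp only [pr_succ _ hl]
      exact (M.mA h).comp ((measurable_pi_apply l).prodMk ih)
  · unfold pr
    rw [Nat.sub_eq_zero_of_le hij]
    exact measurable_const

omit [FiniteDimensional ℝ V] in
private theorem SBS_meas_set (M : MN V H) (h : ℝ) (v w : V) (δ : ℝ) (n : ℕ) :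
    MeasurableSet {ω : ℕ → H | ∃ j, j ≤ n ∧ δ ≤ ‖pr (fun l => M.A h (ω l)) 0 j w - v‖} := by
  have h1 : {ω : ℕ → H | ∃ j, j ≤ n ∧ δ ≤ ‖pr (fun l => M.A h (ω l)) 0 j w - v‖} =
      ⋃ j, ⋃ (_ : j ≤ n), {ω : ℕ → H | δ ≤ ‖pr (fun l => M.A h (ω l)) 0 j w - v‖} := by
    ext ω
    simp
  rw [h1]
  refine MeasurableSet.iUnion fun j => MeasurableSet.iUnion fun _ => ?_
  exact measurableSet_le measurable_const ((SBS_meas_pr M h 0 j w).sub_const v).norm

private theorem SBS_max (M : MN V H) {h : ℝ} (hh : 0 < h) (hh1 : h < 1) (v : V) (hv : ‖v‖ ≤ 1)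
    (δ : ℝ) (hδ : 0 < δ) (hδ1 : δ ≤ 1) (n : ℕ) : ∀ w : V,
    PI M.γ {ω : ℕ → H | ∃ j, j ≤ n ∧ δ ≤ ‖pr (fun l => M.A h (ω l)) 0 j w - v‖} ≤
      ENNReal.ofReal ((‖w - v‖ ^ 2 + n * (4 * M.C * h)) / δ ^ 2) := by
  have hC := M.C1
  have htriv : ∀ (w : V) (n : ℕ), δ ≤ ‖w - v‖ →
      PI M.γ {ω : ℕ → H | ∃ j, j ≤ n ∧ δ ≤ ‖pr (fun l => M.A h (ω l)) 0 j w - v‖} ≤
      ENNReal.ofReal ((‖w - v‖ ^ 2 + n * (4 * M.C * h)) / δ ^ 2) := by
    intro w n hw
    refine le_trans prob_le_one ?_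
    rw [← ENNReal.ofReal_one]
    refine ENNReal.ofReal_le_ofReal ?_
    rw [one_le_div (by positivity)]
    have h1 : δ ^ 2 ≤ ‖w - v‖ ^ 2 := by gcongr
    have h2 : 0 ≤ (n:ℝ) * (4 * M.C * h) := by positivity
    linarith
  induction n with
  | zero =>
    intro w
    by_cases hw : δ ≤ ‖w - v‖
    · exact htriv w 0 hw
    · have : {ω : ℕ → H | ∃ j, j ≤ 0 ∧ δ ≤ ‖pr (fun l => M.A h (ω l)) 0 j w - v‖} = ∅ := by
        ext ω
        simp only [Set.mem_ofPred_eq, Set.mem_empty_iff_false, iff_false, not_exists, not_and]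
        intro j hj
        have hj0 : j = 0 := by omega
        subst hj0
        rw [pr_self]
        exact hw
      rw [this, measure_empty]
      exact zero_le
  | succ n ih =>
    intro w
    by_cases hw : δ ≤ ‖w - v‖
    · exact htriv w (n + 1) hw
    · have hw2 : ‖w‖ ≤ 2 := by
        have : ‖w‖ ≤ ‖w - v‖ + ‖v‖ := by
          calc ‖w‖ = ‖(w - v) + v‖ := by congr 1; abel
            _ ≤ _ := norm_add_le _ _
        linarith
      rw [← lintegral_indicator_one (SBS_meas_set M h v w δ (n + 1)),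
        lintegral_cons _ (measurable_one.indicator (SBS_meas_set M h v w δ (n + 1)))]
      have hstep : ∀ a : H, ∫⁻ ω, {ω : ℕ → H | ∃ j, j ≤ n + 1 ∧
          δ ≤ ‖pr (fun l => M.A h (ω l)) 0 j w - v‖}.indicator 1
            (fun i => Nat.casesOn i a ω) ∂(PI M.γ) ≤
          ENNReal.ofReal (1 / δ ^ 2) * (ENNReal.ofReal (‖M.A h a w - v‖ ^ 2) +
            ENNReal.ofReal (n * (4 * M.C * h))) := by
        intro a
        rw [← ENNReal.ofReal_add (by positivity) (by positivity), ← ENNReal.ofReal_mul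
          (by positivity)]
        have e1 : 1 / δ ^ 2 * (‖M.A h a w - v‖ ^ 2 + n * (4 * M.C * h)) =
          (‖M.A h a w - v‖ ^ 2 + n * (4 * M.C * h)) / δ ^ 2 := by ring
        rw [e1]
        refine le_trans ?_ (ih (M.A h a w))
        rw [← lintegral_indicator_one (SBS_meas_set M h v (M.A h a w) δ n)]
        refine lintegral_mono ?_
        intro ω
        show {ω : ℕ → H | ∃ j, j ≤ n + 1 ∧
          δ ≤ ‖pr (fun l => M.A h (ω l)) 0 j w - v‖}.indicator (1 : (ℕ → H) → ℝ≥0∞)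
            (fun i => Nat.casesOn i a ω) ≤ _
        by_cases hω : (fun i => Nat.casesOn i a ω : ℕ → H) ∈ {ω : ℕ → H | ∃ j, j ≤ n + 1 ∧
          δ ≤ ‖pr (fun l => M.A h (ω l)) 0 j w - v‖}
        · rw [Set.indicator_of_mem hω, Set.indicator_of_mem]
          · rfl
          · obtain ⟨j, hj, hjd⟩ := hω
            cases j with
            | zero =>
              rw [pr_self] at hjd
              exact absurd hjd hw
            | succ j =>
              refine ⟨j, by omega, ?_⟩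
              rw [SBS_pr_cons] at hjd
              exact hjd
        · rw [Set.indicator_of_notMem hω]
          exact zero_le
      refine le_trans (lintegral_mono hstep) ?_
      have hmm : Measurable (fun a => ENNReal.ofReal (‖M.A h a w - v‖ ^ 2)) := by
        have hm : Measurable (fun ω => M.A h ω w) :=
          (M.mA h).comp (measurable_id.prodMk measurable_const)
        exact ((hm.sub_const v).norm.pow_const 2).ennreal_ofReal
      have hmm2 : Measurable (fun a => ENNReal.ofReal (‖M.A h a w - v‖ ^ 2) +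
          ENNReal.ofReal (n * (4 * M.C * h))) := hmm.add measurable_const
      rw [lintegral_const_mul _ hmm2, lintegral_add_right _ measurable_const,
        lintegral_const, measure_univ, mul_one]
      calc ENNReal.ofReal (1 / δ ^ 2) * (∫⁻ a, ENNReal.ofReal (‖M.A h a w - v‖ ^ 2) ∂M.γ +
            ENNReal.ofReal (n * (4 * M.C * h)))
          ≤ ENNReal.ofReal (1 / δ ^ 2) * (ENNReal.ofReal (‖w - v‖ ^ 2 + 4 * M.C * h) +
            ENNReal.ofReal (n * (4 * M.C * h))) :=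
            mul_le_mul_right (add_le_add_left (SBS_msq M hh hh1 v w hw2) _) _
        _ = _ := by
            rw [← ENNReal.ofReal_add (by positivity) (by positivity), ← ENNReal.ofReal_mul
              (by positivity)]
            congr 1
            push_cast
            ring

private theorem SBS_meas_near (M : MN V H) (h : ℝ) (m : ℕ) (δ : ℝ) :
    MeasurableSet {ω : ℕ → H | PNear (fun j => M.A h (ω j)) m δ} := by
  have hsc : SecondCountableTopology V := by
    have : ProperSpace V := FiniteDimensional.proper ℝ V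
    infer_instance
  have h1 : {ω : ℕ → H | PNear (fun j => M.A h (ω j)) m δ} =
      ⋂ i, ⋂ j, ⋂ (_ : i ≤ j), ⋂ (_ : j ≤ m), ⋂ (k : ℕ),
        {ω : ℕ → H | ‖pr (fun j => M.A h (ω j)) i j (TopologicalSpace.denseSeq V k) -
          TopologicalSpace.denseSeq V k‖ ≤ δ * ‖TopologicalSpace.denseSeq V k‖} := by
    ext ω
    simp only [Set.mem_iInter, Set.mem_ofPred_eq]
    constructor
    · intro hω i j hij hj k
      exact hω i j hij hj _
    · intro hω i j hij hj w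
      have hcl : IsClosed {w : V | ‖pr (fun j => M.A h (ω j)) i j w - w‖ ≤ δ * ‖w‖} := by
        have hcont : Continuous (SBS_lin (fun j => M.A h (ω j)) i j) :=
          LinearMap.continuous_of_finiteDimensional _
        exact isClosed_le (hcont.sub continuous_id).norm (continuous_const.mul continuous_norm)
      exact (TopologicalSpace.denseRange_denseSeq V).induction_on w hcl (hω i j hij hj)
  rw [h1]
  refine MeasurableSet.iInter fun i => MeasurableSet.iInter fun j => MeasurableSet.iInter fun _ =>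
    MeasurableSet.iInter fun _ => MeasurableSet.iInter fun k => ?_
  exact measurableSet_le ((SBS_meas_pr M h i j _).sub_const _).norm measurable_const

end

theorem prod_near {V H : Type} [NormedAddCommGroup V] [InnerProductSpace ℝ V] [MeasurableSpace V]
    [BorelSpace V] [FiniteDimensional ℝ V]
    [NormedAddCommGroup H] [InnerProductSpace ℝ H] [MeasurableSpace H] (M : MN V H) :
    ∃ C : ℝ, 1 ≤ C ∧ ∀ h, 0 < h → h < 1 → ∀ (m : ℕ) (δ : ℝ), 0 < δ → δ ≤ 1 →
      MeasurableSet {ω : ℕ → H | PNear (fun j => M.A h (ω j)) m δ} ∧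
      PI M.γ {ω | ¬ PNear (fun j => M.A h (ω j)) m δ} ≤ ENNReal.ofReal (C * (m * h) / δ ^ 2) := by
  refine ⟨64 * (Module.finrank ℝ V + 1) ^ 3 * M.C, ?_, ?_⟩
  · have h1 := M.C1
    have h2 : (1:ℝ) ≤ (Module.finrank ℝ V + 1) ^ 3 :=
      one_le_pow₀ (by linarith [Nat.cast_nonneg (α := ℝ) (Module.finrank ℝ V)])
    nlinarith
  intro h hh hh1 m δ hδ hδ1
  refine ⟨SBS_meas_near M h m δ, ?_⟩
  have hC := M.C1
  set δ' : ℝ := δ / (4 * (Module.finrank ℝ V + 1)) with hδ'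
  have hD0 : (0:ℝ) ≤ (Module.finrank ℝ V : ℝ) := Nat.cast_nonneg _
  have hδ'0 : 0 < δ' := by positivity
  have hδ'1 : δ' ≤ 1 := by
    rw [hδ', div_le_one (by positivity)]
    linarith
  have hsub : {ω : ℕ → H | ¬ PNear (fun j => M.A h (ω j)) m δ} ⊆
      ⋃ i : Fin (Module.finrank ℝ V), {ω : ℕ → H | ∃ j, j ≤ m ∧
        δ' ≤ ‖pr (fun l => M.A h (ω l)) 0 j (stdOrthonormalBasis ℝ V i) -
          stdOrthonormalBasis ℝ V i‖} := by
    intro ω hω
    by_contra hcon
    refine hω (SBS_det _ m δ hδ hδ1 ?_)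
    intro i j hj
    simp only [Set.mem_iUnion, Set.mem_ofPred_eq, not_exists, not_and, not_le] at hcon
    exact (hcon i j hj).le
  refine le_trans (measure_mono hsub) (le_trans (measure_iUnion_fintype_le _ _) ?_)
  have hone : ∀ i : Fin (Module.finrank ℝ V), PI M.γ {ω : ℕ → H | ∃ j, j ≤ m ∧
        δ' ≤ ‖pr (fun l => M.A h (ω l)) 0 j (stdOrthonormalBasis ℝ V i) -
          stdOrthonormalBasis ℝ V i‖} ≤ ENNReal.ofReal (m * (4 * M.C * h) / δ' ^ 2) := by
    intro i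
    have h1 := SBS_max M hh hh1 (stdOrthonormalBasis ℝ V i)
      ((stdOrthonormalBasis ℝ V).norm_eq_one i).le δ' hδ'0 hδ'1 m (stdOrthonormalBasis ℝ V i)
    rw [sub_self, norm_zero] at h1
    simpa using h1
  refine le_trans (Finset.sum_le_sum fun i _ => hone i) ?_
  rw [Finset.sum_const, Finset.card_univ, Fintype.card_fin, nsmul_eq_mul, ← ENNReal.ofReal_natCast,
    ← ENNReal.ofReal_mul (by positivity)]
  refine ENNReal.ofReal_le_ofReal ?_
  have h2 : (Module.finrank ℝ V : ℝ) * (m * (4 * M.C * h) / δ' ^ 2) =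
      64 * ((Module.finrank ℝ V : ℝ) * (Module.finrank ℝ V + 1) ^ 2) * M.C * (m * h) / δ ^ 2 := by
    rw [hδ']
    field_simp
    ring
  rw [h2]
  gcongr
  nlinarith

end DynC

end
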