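import Pool.Agent.Lib_MP_36b788_n.M04

set_option linter.unusedVariables false

/-!
# MP_36b788_pr, stationary limit: merged library part M06

Concatenation of smaller files (each in its own section), only to save build time.
-/

/-! ### from `Lib_MP_36b788c.Mom1` -/

section

/-!
# Linear bounds, exit probabilities, iteration of one-step estimates

`S : PSys F β k`, `BNoise N S.ν S.b S.gd`.

PROOF.
* `iter_step`: `Φ ≥ 0` measurable on pairs. If for all pairs `G` with norms `≤ rad β h`: `∫⁻ 1{all ω x ∈ gd, st G ω ≤ rad} Φ(st G ω) ≤ A Φ(G) + B` then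
  `∫⁻_{alv n} Φ(tr n) ≤ A^n Φ(G) + B Σ_{i<n} A^i` for all `n` (induction on `n`, `lintegral_glue n` and `lintegral_cons`: `alv (n+1) ⊆ alv n ∩ {step n good, next state ≤ rad}`; if `G` is not `≤ rad`, `alv` is empty).
* `lin_sum`: `E Σ_x(‖(tr n).1 x‖ + ‖(tr n).2 x‖) ≤ (1+Ch)^n Σ_0` from `u1, u2`, `E e^b ≤ (E e^{2b})^{1/2} ≤ 1 + C h` (`mgf2`), `Σ_x cpl u x ≤ 4d Σ_x u x`.
* `exit_bd`: maximal inequality for the nonnegative supermartingale `(1+Ch)^{-j} Σ_j` (induction as in `max_ineq`): `P(∃ j ≤ n, Σ_j > rad) ≤ (1+Ch)^n Σ_0 / rad ≤ e^{C Sm} Σ_0/rad`; noise: `n |box| h³ ≤ Sm |box| h²`. `rad β h → ∞` as `h → 0`.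
-/

open MeasureTheory ProbabilityTheory
open scoped ENNReal

namespace DynC

open Dyn

variable {d : ℕ} {F : Fam d} {β k : ℝ}

section Mom1_abs

variable {X St : Type} [MeasurableSpace X] [MeasurableSpace St]

omit [MeasurableSpace X] [MeasurableSpace St] in
private theorem Mom1_traj_cons (f : St → X → St) (s : St) (a : X) (b : ℕ → X) (j : ℕ) :
    traj f s (fun i => Nat.casesOn i a b) (j + 1) = traj f (f s a) b j := by
  induction j with
  | zero => rfl
  | succ j ih =>
    show f (traj f s (fun i => Nat.casesOn i a b) (j + 1)) (b j) = f (traj f (f s a) b j) (b j)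
    rw [ih]

/-- one step Markov property without restriction -/
private theorem Mom1_markov1 (μ : Measure X) [IsProbabilityMeasure μ] (f : St → X → St)
    (hf : Measurable (fun p : St × X => f p.1 p.2)) (Φ : St → ℝ≥0∞) (hΦ : Measurable Φ)
    (s : St) (n : ℕ) :
    ∫⁻ ω, Φ (traj f s ω (n + 1)) ∂(PI μ) =
      ∫⁻ ω, (∫⁻ x, Φ (f (traj f s ω n) x) ∂μ) ∂(PI μ) := by
  have hm : Measurable (fun ω : ℕ → X => Φ (traj f s ω (n + 1))) :=
    hΦ.comp ((measurable_traj f hf (n + 1)).comp (measurable_const.prodMk measurable_id))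
  rw [lintegral_glue n _ hm]
  refine lintegral_congr fun a => ?_
  have h1 : ∀ b : ℕ → X, Φ (traj f s (glue n a b) (n + 1)) = Φ (f (traj f s a n) (b 0)) := by
    intro b
    rw [traj_glue_add]
    rfl
  simp_rw [h1]
  have h2 : Measurable (fun x : X => Φ (f (traj f s a n) x)) :=
    hΦ.comp (hf.comp (measurable_const.prodMk measurable_id))
  have h3 := lintegral_map (μ := PI μ) h2 (measurable_pi_apply (0 : ℕ))
  rw [map_coord] at h3
  exact h3.symm

private theorem Mom1_growth (μ : Measure X) [IsProbabilityMeasure μ] (f : St → X → St)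
    (hf : Measurable (fun p : St × X => f p.1 p.2)) (W : St → ℝ≥0∞) (hW : Measurable W)
    (A : ℝ≥0∞) (h : ∀ s, ∫⁻ x, W (f s x) ∂μ ≤ A * W s) (s : St) (n : ℕ) :
    ∫⁻ ω, W (traj f s ω n) ∂(PI μ) ≤ A ^ n * W s := by
  induction n with
  | zero =>
    have : ∀ ω : ℕ → X, W (traj f s ω 0) = W s := fun _ => rfl
    simp_rw [this]
    simp
  | succ n ih =>
    rw [Mom1_markov1 μ f hf W hW s n]
    calc ∫⁻ ω, (∫⁻ x, W (f (traj f s ω n) x) ∂μ) ∂(PI μ)
        ≤ ∫⁻ ω, A * W (traj f s ω n) ∂(PI μ) := lintegral_mono fun ω => h _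
      _ = A * ∫⁻ ω, W (traj f s ω n) ∂(PI μ) := by
          refine lintegral_const_mul _ ?_
          exact hW.comp ((measurable_traj f hf n).comp (measurable_const.prodMk measurable_id))
      _ ≤ A * (A ^ n * W s) := by gcongr
      _ = A ^ (n + 1) * W s := by rw [pow_succ]; ring

private theorem Mom1_meas_max (f : St → X → St)
    (hf : Measurable (fun p : St × X => f p.1 p.2)) (W : St → ℝ≥0∞) (hW : Measurable W)
    (R : ℝ≥0∞) (n : ℕ) :
    MeasurableSet {p : St × (ℕ → X) | ∃ j, j ≤ n ∧ R < W (traj f p.1 p.2 j)} := by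
  have : {p : St × (ℕ → X) | ∃ j, j ≤ n ∧ R < W (traj f p.1 p.2 j)} =
      ⋃ j ∈ Finset.range (n + 1), {p : St × (ℕ → X) | R < W (traj f p.1 p.2 j)} := by
    ext p
    simp [Nat.lt_succ_iff]
  rw [this]
  refine Finset.measurableSet_biUnion _ fun j _ => ?_
  exact measurableSet_lt measurable_const (hW.comp (measurable_traj f hf j))

/-- maximal inequality -/
private theorem Mom1_max (μ : Measure X) [IsProbabilityMeasure μ] (f : St → X → St)
    (hf : Measurable (fun p : St × X => f p.1 p.2)) (W : St → ℝ≥0∞) (hW : Measurable W)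
    (A : ℝ≥0∞) (hA : 1 ≤ A) (h : ∀ s, ∫⁻ x, W (f s x) ∂μ ≤ A * W s) (R : ℝ≥0∞) (n : ℕ) :
    ∀ s : St, R * PI μ {ω | ∃ j, j ≤ n ∧ R < W (traj f s ω j)} ≤ A ^ n * W s := by
  induction n with
  | zero =>
    intro s
    by_cases hs : R < W s
    · calc R * PI μ {ω | ∃ j, j ≤ 0 ∧ R < W (traj f s ω j)} ≤ R * 1 := by
            gcongr; exact prob_le_one
        _ ≤ A ^ 0 * W s := by simpa using hs.le
    · have : {ω : ℕ → X | ∃ j, j ≤ 0 ∧ R < W (traj f s ω j)} = ∅ := by
        ext ω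
        simp only [Set.mem_ofPred_eq, Set.mem_empty_iff_false, iff_false]
        rintro ⟨j, hj, hj2⟩
        have : j = 0 := by omega
        subst this
        exact hs hj2
      rw [this]
      simp
  | succ n ih =>
    intro s
    by_cases hs : R < W s
    · have h1 : 1 ≤ A ^ (n + 1) := one_le_pow₀ hA
      calc R * PI μ {ω | ∃ j, j ≤ n + 1 ∧ R < W (traj f s ω j)} ≤ R * 1 := by
            gcongr; exact prob_le_one
        _ ≤ W s := by simpa using hs.le
        _ = 1 * W s := (one_mul _).symm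
        _ ≤ A ^ (n + 1) * W s := by gcongr
    · have hms : MeasurableSet {ω : ℕ → X | ∃ j, j ≤ n + 1 ∧ R < W (traj f s ω j)} :=
        (Mom1_meas_max f hf W hW R (n + 1)).preimage (measurable_const.prodMk measurable_id :
          Measurable fun ω : ℕ → X => (s, ω))
      have e1 : PI μ {ω | ∃ j, j ≤ n + 1 ∧ R < W (traj f s ω j)} =
          ∫⁻ a, PI μ {ω | ∃ j, j ≤ n ∧ R < W (traj f (f s a) ω j)} ∂μ := by
        rw [← lintegral_indicator_one hms, lintegral_cons _ (measurable_one.indicator hms)]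
        refine lintegral_congr fun a => ?_
        have hms2 : MeasurableSet {ω : ℕ → X | ∃ j, j ≤ n ∧ R < W (traj f (f s a) ω j)} :=
          (Mom1_meas_max f hf W hW R n).preimage (measurable_const.prodMk measurable_id :
            Measurable fun ω : ℕ → X => (f s a, ω))
        rw [← lintegral_indicator_one hms2]
        refine lintegral_congr fun ω => ?_
        have hiff : ((fun i => Nat.casesOn i a ω : ℕ → X) ∈
            {ω : ℕ → X | ∃ j, j ≤ n + 1 ∧ R < W (traj f s ω j)}) ↔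
            (ω ∈ {ω : ℕ → X | ∃ j, j ≤ n ∧ R < W (traj f (f s a) ω j)}) := by
          constructor
          · rintro ⟨j, hj, hj2⟩
            cases j with
            | zero => exact absurd hj2 hs
            | succ j =>
              rw [Mom1_traj_cons] at hj2
              exact ⟨j, by omega, hj2⟩
          · rintro ⟨j, hj, hj2⟩
            refine ⟨j + 1, by omega, ?_⟩
            rw [Mom1_traj_cons]
            exact hj2
        by_cases hm : ω ∈ {ω : ℕ → X | ∃ j, j ≤ n ∧ R < W (traj f (f s a) ω j)}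
        · rw [Set.indicator_of_mem hm, Set.indicator_of_mem (hiff.2 hm)]
          rfl
        · rw [Set.indicator_of_notMem hm, Set.indicator_of_notMem (fun hc => hm (hiff.1 hc))]
      rw [e1]
      have hmm : Measurable fun a : X =>
          PI μ {ω | ∃ j, j ≤ n ∧ R < W (traj f (f s a) ω j)} := by
        have h5 := measurable_measure_prodMk_left (ν := PI μ) (Mom1_meas_max f hf W hW R n)
        exact h5.comp (hf.comp (measurable_const.prodMk measurable_id))
      calc R * ∫⁻ a, PI μ {ω | ∃ j, j ≤ n ∧ R < W (traj f (f s a) ω j)} ∂μ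
          = ∫⁻ a, R * PI μ {ω | ∃ j, j ≤ n ∧ R < W (traj f (f s a) ω j)} ∂μ :=
            (lintegral_const_mul _ hmm).symm
        _ ≤ ∫⁻ a, A ^ n * W (f s a) ∂μ := lintegral_mono fun a => ih _
        _ = A ^ n * ∫⁻ a, W (f s a) ∂μ :=
            lintegral_const_mul _ (hW.comp (hf.comp (measurable_const.prodMk measurable_id)))
        _ ≤ A ^ n * (A * W s) := by gcongr; exact h s
        _ = A ^ (n + 1) * W s := by rw [pow_succ]; ring

end Mom1_abs

/-- the alive set is jointly measurable -/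
private theorem Mom1_alv_joint (S : PSys F β k) (h : ℝ) (L : ℕ) (n : ℕ) :
    MeasurableSet {p : ((boxS d L → F.V) × (boxS d L → F.V)) × (ℕ → boxS d L → S.Ωp) |
      p.2 ∈ S.alv h L p.1 n} := by
  have hm := fun j => measurable_traj (S.st h L) (S.mst h L) j
  have e : {p : ((boxS d L → F.V) × (boxS d L → F.V)) × (ℕ → boxS d L → S.Ωp) |
      p.2 ∈ S.alv h L p.1 n} =
      (⋂ j ∈ Finset.range n, ⋂ x : boxS d L, {p | p.2 j x ∈ S.gd h}) ∩
      (⋂ j ∈ Finset.range (n + 1), ⋂ x : boxS d L,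
        {p | ‖(traj (S.st h L) p.1 p.2 j).1 x‖ ≤ rad β h ∧
          ‖(traj (S.st h L) p.1 p.2 j).2 x‖ ≤ rad β h}) := by
    ext p
    simp only [PSys.alv, PSys.tr, Set.mem_ofPred_eq, Set.mem_inter_iff, Set.mem_iInter,
      Finset.mem_range, Nat.lt_succ_iff]
  rw [e]
  refine MeasurableSet.inter ?_ ?_
  · refine Finset.measurableSet_biInter _ fun j _ => MeasurableSet.iInter fun x => ?_
    exact ((measurable_pi_apply x).comp ((measurable_pi_apply j).comp measurable_snd)) (S.mgd h)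
  · refine Finset.measurableSet_biInter _ fun j _ => MeasurableSet.iInter fun x => ?_
    have h1 : Measurable fun p : ((boxS d L → F.V) × (boxS d L → F.V)) ×
        (ℕ → boxS d L → S.Ωp) => ‖(traj (S.st h L) p.1 p.2 j).1 x‖ :=
      measurable_norm.comp ((measurable_pi_apply x).comp (measurable_fst.comp (hm j)))
    have h2 : Measurable fun p : ((boxS d L → F.V) × (boxS d L → F.V)) ×
        (ℕ → boxS d L → S.Ωp) => ‖(traj (S.st h L) p.1 p.2 j).2 x‖ :=
      measurable_norm.comp ((measurable_pi_apply x).comp (measurable_snd.comp (hm j)))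
    exact (measurableSet_le h1 measurable_const).inter (measurableSet_le h2 measurable_const)

private theorem Mom1_glue_alv (S : PSys F β k) (h : ℝ) (L : ℕ)
    (G : (boxS d L → F.V) × (boxS d L → F.V)) (n m : ℕ) (a b : ℕ → boxS d L → S.Ωp) :
    glue n a b ∈ S.alv h L G (n + m) ↔
      a ∈ S.alv h L G n ∧ b ∈ S.alv h L (S.tr h L G a n) m := by
  simp only [PSys.alv, PSys.tr, Set.mem_ofPred_eq]
  constructor
  · rintro ⟨h1, h2⟩
    refine ⟨⟨fun j hj x => ?_, fun j hj x => ?_⟩, ⟨fun j hj x => ?_, fun j hj x => ?_⟩⟩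
    · have := h1 j (by omega) x
      unfold glue at this
      rwa [if_pos hj] at this
    · have := h2 j (by omega) x
      rwa [traj_glue_le _ _ _ _ _ _ hj] at this
    · have := h1 (n + j) (by omega) x
      unfold glue at this
      rw [if_neg (by omega)] at this
      have e : n + j - n = j := by omega
      rwa [e] at this
    · have := h2 (n + j) (by omega) x
      rwa [traj_glue_add] at this
  · rintro ⟨⟨h1, h2⟩, ⟨h3, h4⟩⟩
    refine ⟨fun j hj x => ?_, fun j hj x => ?_⟩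
    · unfold glue
      by_cases hjn : j < n
      · rw [if_pos hjn]; exact h1 j hjn x
      · rw [if_neg hjn]; exact h3 (j - n) (by omega) x
    · by_cases hjn : j ≤ n
      · rw [traj_glue_le _ _ _ _ _ _ hjn]; exact h2 j hjn x
      · have e : j = n + (j - n) := by omega
        rw [e, traj_glue_add]
        exact h4 (j - n) (by omega) x

theorem measurableSet_alv (S : PSys F β k) (h : ℝ) (L : ℕ)
    (G : (boxS d L → F.V) × (boxS d L → F.V)) (n : ℕ) : MeasurableSet (S.alv h L G n) := by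
  exact (Mom1_alv_joint S h L n).preimage (measurable_const.prodMk measurable_id :
    Measurable fun ω : ℕ → boxS d L → S.Ωp => (G, ω))

theorem measurable_tr (S : PSys F β k) (h : ℝ) (L n : ℕ) :
    Measurable (fun p : ((boxS d L → F.V) × (boxS d L → F.V)) × (ℕ → boxS d L → S.Ωp) =>
      S.tr h L p.1 p.2 n) := by
  exact measurable_traj (S.st h L) (S.mst h L) n

/-- Markov property on the alive event -/
theorem alv_markov (S : PSys F β k) (h : ℝ) (L : ℕ)
    (Φ : (boxS d L → F.V) × (boxS d L → F.V) → ℝ≥0∞) (hΦ : Measurable Φ)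
    (G : (boxS d L → F.V) × (boxS d L → F.V)) (n m : ℕ) :
    ∫⁻ ω in S.alv h L G (n + m), Φ (S.tr h L G ω (n + m)) ∂(PI (S.mu L)) =
      ∫⁻ ω in S.alv h L G n, (∫⁻ ω' in S.alv h L (S.tr h L G ω n) m,
        Φ (S.tr h L (S.tr h L G ω n) ω' m) ∂(PI (S.mu L))) ∂(PI (S.mu L)) := by
  have hmtr : ∀ j, Measurable fun p : ((boxS d L → F.V) × (boxS d L → F.V)) ×
      (ℕ → boxS d L → S.Ωp) => Φ (S.tr h L p.1 p.2 j) := fun j =>
    hΦ.comp (measurable_traj (S.st h L) (S.mst h L) j)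
  have hms := measurableSet_alv S h L G (n + m)
  have hms1 := measurableSet_alv S h L G n
  rw [← lintegral_indicator hms, ← lintegral_indicator hms1]
  have hmeas : Measurable ((S.alv h L G (n + m)).indicator
      fun ω => Φ (S.tr h L G ω (n + m))) :=
    ((hmtr (n + m)).comp (measurable_const.prodMk measurable_id)).indicator hms
  rw [lintegral_glue n _ hmeas]
  refine lintegral_congr fun a => ?_
  by_cases ha : a ∈ S.alv h L G n
  · rw [Set.indicator_of_mem ha, ← lintegral_indicator (measurableSet_alv S h L _ m)]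
    refine lintegral_congr fun b => ?_
    by_cases hb : b ∈ S.alv h L (S.tr h L G a n) m
    · rw [Set.indicator_of_mem hb,
        Set.indicator_of_mem ((Mom1_glue_alv S h L G n m a b).2 ⟨ha, hb⟩)]
      congr 1
      exact traj_glue_add (S.st h L) G n a b m
    · rw [Set.indicator_of_notMem hb, Set.indicator_of_notMem
        (fun hc => hb ((Mom1_glue_alv S h L G n m a b).1 hc).2)]
  · rw [Set.indicator_of_notMem ha]
    have : ∀ b, (S.alv h L G (n + m)).indicator (fun ω => Φ (S.tr h L G ω (n + m)))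
        (glue n a b) = 0 := fun b => Set.indicator_of_notMem
        (fun hc => ha ((Mom1_glue_alv S h L G n m a b).1 hc).1) _
    simp_rw [this]
    simp

/-! ### linear bound -/

/-- `W(G) = Σ_x (‖G.1 x‖ + ‖G.2 x‖)` -/
private noncomputable def Mom1_W {L : ℕ} (G : (boxS d L → F.V) × (boxS d L → F.V)) : ℝ≥0∞ :=
  ENNReal.ofReal (∑ x, (‖G.1 x‖ + ‖G.2 x‖))

private theorem Mom1_W_meas {L : ℕ} :
    Measurable (Mom1_W : (boxS d L → F.V) × (boxS d L → F.V) → ℝ≥0∞) := by
  unfold Mom1_W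
  refine ENNReal.measurable_ofReal.comp ?_
  refine Finset.measurable_sum _ fun x _ => ?_
  exact (measurable_norm.comp ((measurable_pi_apply x).comp measurable_fst)).add
    (measurable_norm.comp ((measurable_pi_apply x).comp measurable_snd))

private theorem Mom1_cpl_sum {ι : Type} [Fintype ι] (net : Net ι d) (u : ι → ℝ)
    (hu : ∀ x, 0 ≤ u x) : ∑ x, cpl net u x ≤ (4 * d : ℕ) * ∑ x, u x := by
  classical
  unfold cpl
  rw [Finset.sum_add_distrib, ← Finset.mul_sum]
  have h1 : ∑ x, ∑ y ∈ net.nb x, u y ≤ (2 * d : ℕ) * ∑ x, u x := by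
    have e1 : ∀ x, ∑ y ∈ net.nb x, u y = ∑ y, if y ∈ net.nb x then u y else 0 := by
      intro x
      rw [← Finset.sum_filter]
      congr 1
      ext y
      simp
    simp_rw [e1]
    rw [Finset.sum_comm, Finset.mul_sum]
    refine Finset.sum_le_sum fun y _ => ?_
    rw [← Finset.sum_filter, Finset.sum_const, nsmul_eq_mul]
    have e2 : (Finset.univ.filter fun x => y ∈ net.nb x) ⊆ net.nb y := by
      intro x hx
      exact net.nb_symm x y (Finset.mem_filter.1 hx).2
    have e3 : (Finset.univ.filter fun x => y ∈ net.nb x).card ≤ 2 * d :=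
      (Finset.card_le_card e2).trans (net.nb_card y)
    have e4 : (((Finset.univ.filter fun x => y ∈ net.nb x).card : ℕ) : ℝ) ≤ ((2 * d : ℕ) : ℝ) :=
      by exact_mod_cast e3
    exact mul_le_mul_of_nonneg_right e4 (hu y)
  push_cast at h1 ⊢
  have h2 : (0 : ℝ) ≤ ∑ x, u x := Finset.sum_nonneg fun x _ => hu x
  nlinarith

private theorem Mom1_cpl_nonneg {ι : Type} [Fintype ι] (net : Net ι d) (u : ι → ℝ)
    (hu : ∀ x, 0 ≤ u x) (x : ι) : 0 ≤ cpl net u x := by
  unfold cpl
  exact add_nonneg (Finset.sum_nonneg fun y _ => hu y) (mul_nonneg (by positivity) (hu x))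

/-- one step bound for one component -/
private theorem Mom1_comp {L : ℕ} (S : PSys F β k) (hk : 0 ≤ k) (C0 h : ℝ) (hh : 0 < h)
    (hC0 : 0 ≤ C0)
    (hE : ∫⁻ a, ENNReal.ofReal (Real.exp (S.b h a)) ∂S.ν ≤ ENNReal.ofReal (1 + C0 * h))
    (u : boxS d L → ℝ) (hu : ∀ x, 0 ≤ u x) (u' : (boxS d L → S.Ωp) → boxS d L → ℝ)
    (hu' : ∀ ω x, u' ω x ≤ Real.exp (S.b h (ω x)) * u x + k * h * cpl (boxNet d L) u x)
    (hu0 : ∀ ω x, 0 ≤ u' ω x) :
    ∫⁻ ω, ENNReal.ofReal (∑ x, u' ω x) ∂(S.mu L) ≤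
      ENNReal.ofReal ((1 + (C0 + 4 * d * k) * h) * ∑ x, u x) := by
  have hmexp : Measurable fun a => ENNReal.ofReal (Real.exp (S.b h a)) :=
    ENNReal.measurable_ofReal.comp (Real.measurable_exp.comp (S.mb h))
  have hmx : ∀ x : boxS d L, Measurable fun ω : boxS d L → S.Ωp =>
      ENNReal.ofReal (Real.exp (S.b h (ω x))) := fun x => hmexp.comp (measurable_pi_apply x)
  have hsite : ∀ x : boxS d L,
      ∫⁻ ω, ENNReal.ofReal (Real.exp (S.b h (ω x)) * u x + k * h * cpl (boxNet d L) u x) ∂(S.mu L) ≤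
      ENNReal.ofReal ((1 + C0 * h) * u x + k * h * cpl (boxNet d L) u x) := by
    intro x
    have hst1 : ∫⁻ ω, ENNReal.ofReal
        (Real.exp (S.b h (ω x)) * u x + k * h * cpl (boxNet d L) u x) ∂(S.mu L) ≤
        ∫⁻ ω, (ENNReal.ofReal (Real.exp (S.b h (ω x))) * ENNReal.ofReal (u x) +
            ENNReal.ofReal (k * h * cpl (boxNet d L) u x)) ∂(S.mu L) := by
      refine lintegral_mono fun ω => ?_
      rw [← ENNReal.ofReal_mul (Real.exp_pos _).le]
      exact ENNReal.ofReal_add_le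
    refine hst1.trans ?_
    rw [lintegral_add_right _ measurable_const, lintegral_mul_const _ (hmx x),
      lintegral_const, measure_univ, mul_one]
    have e : ∫⁻ ω, ENNReal.ofReal (Real.exp (S.b h (ω x))) ∂(S.mu L) =
        ∫⁻ a, ENNReal.ofReal (Real.exp (S.b h a)) ∂S.ν :=
      (measurePreserving_eval (fun _ : boxS d L => S.ν) x).lintegral_comp hmexp
    have e3 : ENNReal.ofReal ((1 + C0 * h) * u x) =
        ENNReal.ofReal (1 + C0 * h) * ENNReal.ofReal (u x) := ENNReal.ofReal_mul (by positivity)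
    rw [e, ENNReal.ofReal_add (mul_nonneg (by positivity) (hu x))
      (mul_nonneg (by positivity) (Mom1_cpl_nonneg _ _ hu x)), e3]
    gcongr
  have hsum : ∀ ω, ENNReal.ofReal (∑ x, u' ω x) = ∑ x, ENNReal.ofReal (u' ω x) := fun ω =>
    ENNReal.ofReal_sum_of_nonneg fun x _ => hu0 ω x
  simp_rw [hsum]
  calc ∫⁻ ω, ∑ x, ENNReal.ofReal (u' ω x) ∂(S.mu L)
      ≤ ∫⁻ ω, ∑ x, ENNReal.ofReal
          (Real.exp (S.b h (ω x)) * u x + k * h * cpl (boxNet d L) u x) ∂(S.mu L) := by
        refine lintegral_mono fun ω => Finset.sum_le_sum fun x _ => ?_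
        exact ENNReal.ofReal_le_ofReal (hu' ω x)
    _ = ∑ x, ∫⁻ ω, ENNReal.ofReal
          (Real.exp (S.b h (ω x)) * u x + k * h * cpl (boxNet d L) u x) ∂(S.mu L) := by
        refine lintegral_finsetSum _ fun x _ => ?_
        refine ENNReal.measurable_ofReal.comp ?_
        exact ((Real.measurable_exp.comp ((S.mb h).comp (measurable_pi_apply x))).mul_const _).add_const _
    _ ≤ ∑ x, ENNReal.ofReal ((1 + C0 * h) * u x + k * h * cpl (boxNet d L) u x) := by
        exact Finset.sum_le_sum fun x _ => hsite x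
    _ = ENNReal.ofReal (∑ x, ((1 + C0 * h) * u x + k * h * cpl (boxNet d L) u x)) := by
        rw [ENNReal.ofReal_sum_of_nonneg]
        intro x _
        exact add_nonneg (mul_nonneg (by positivity) (hu x))
          (mul_nonneg (by positivity) (Mom1_cpl_nonneg _ _ hu x))
    _ ≤ ENNReal.ofReal ((1 + (C0 + 4 * d * k) * h) * ∑ x, u x) := by
        refine ENNReal.ofReal_le_ofReal ?_
        rw [Finset.sum_add_distrib, ← Finset.mul_sum, ← Finset.mul_sum]
        have h1 := Mom1_cpl_sum (boxNet d L) u hu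
        have h2 : k * h * ∑ x, cpl (boxNet d L) u x ≤ k * h * ((4 * d : ℕ) * ∑ x, u x) :=
          mul_le_mul_of_nonneg_left h1 (by positivity)
        push_cast at h2
        nlinarith

private theorem Mom1_step (hk : 0 ≤ k) (S : PSys F β k) (N : ℕ)
    (hB : BNoise N S.ν S.b S.gd) (L : ℕ) :
    ∃ C1 h0 : ℝ, 0 ≤ C1 ∧ 0 < h0 ∧ ∀ h, 0 < h → h < h0 →
      ∀ G : (boxS d L → F.V) × (boxS d L → F.V),
        ∫⁻ ω, Mom1_W (S.st h L G ω) ∂(S.mu L) ≤ ENNReal.ofReal (1 + C1 * h) * Mom1_W G := by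
  obtain ⟨C, h0, hC, hh0, hm⟩ := hB.mgf2
  refine ⟨C / 2 + 4 * d * k, h0, by positivity, hh0, fun h hh hhh G => ?_⟩
  have hE : ∫⁻ a, ENNReal.ofReal (Real.exp (S.b h a)) ∂S.ν ≤ ENNReal.ofReal (1 + C / 2 * h) := by
    have h1 : ∀ a, ENNReal.ofReal (Real.exp (S.b h a)) ≤
        ENNReal.ofReal (1 / 2) + ENNReal.ofReal (1 / 2) * ENNReal.ofReal (Real.exp (2 * S.b h a)) := by
      intro a
      rw [← ENNReal.ofReal_mul (by norm_num), ← ENNReal.ofReal_add (by norm_num) (by positivity)]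
      refine ENNReal.ofReal_le_ofReal ?_
      have h2 : Real.exp (2 * S.b h a) = Real.exp (S.b h a) ^ 2 := by
        rw [← Real.exp_nat_mul]; norm_num
      rw [h2]
      nlinarith [sq_nonneg (Real.exp (S.b h a) - 1)]
    have hme : Measurable fun a => ENNReal.ofReal (Real.exp (2 * S.b h a)) :=
      ENNReal.measurable_ofReal.comp (Real.measurable_exp.comp ((S.mb h).const_mul 2))
    calc ∫⁻ a, ENNReal.ofReal (Real.exp (S.b h a)) ∂S.ν
        ≤ ∫⁻ a, (ENNReal.ofReal (1 / 2) +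
            ENNReal.ofReal (1 / 2) * ENNReal.ofReal (Real.exp (2 * S.b h a))) ∂S.ν :=
          lintegral_mono h1
      _ = ENNReal.ofReal (1 / 2) +
            ENNReal.ofReal (1 / 2) * ∫⁻ a, ENNReal.ofReal (Real.exp (2 * S.b h a)) ∂S.ν := by
          rw [lintegral_add_left measurable_const, lintegral_const, measure_univ, mul_one,
            lintegral_const_mul _ hme]
      _ ≤ ENNReal.ofReal (1 / 2) + ENNReal.ofReal (1 / 2) * ENNReal.ofReal (1 + C * h) := by
          gcongr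
          exact hm h hh hhh
      _ = ENNReal.ofReal (1 + C / 2 * h) := by
          rw [← ENNReal.ofReal_mul (by norm_num), ← ENNReal.ofReal_add (by norm_num) (by positivity)]
          congr 1
          ring
  have hst : Measurable fun ω : boxS d L → S.Ωp => S.st h L G ω :=
    (S.mst h L).comp (measurable_const.prodMk measurable_id)
  have hc1 := Mom1_comp S hk (C / 2) h hh (by positivity) hE (fun x => ‖G.1 x‖)
    (fun x => norm_nonneg _) (fun ω x => ‖(S.st h L G ω).1 x‖)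
    (fun ω x => S.u1 h L G ω hh x) (fun ω x => norm_nonneg _)
  have hc2 := Mom1_comp S hk (C / 2) h hh (by positivity) hE (fun x => ‖G.2 x‖)
    (fun x => norm_nonneg _) (fun ω x => ‖(S.st h L G ω).2 x‖)
    (fun ω x => S.u2 h L G ω hh x) (fun ω x => norm_nonneg _)
  have hs1 : ∀ G : (boxS d L → F.V) × (boxS d L → F.V), Mom1_W G =
      ENNReal.ofReal (∑ x, ‖G.1 x‖) + ENNReal.ofReal (∑ x, ‖G.2 x‖) := by
    intro G
    unfold Mom1_W
    rw [Finset.sum_add_distrib, ENNReal.ofReal_add]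
    · exact Finset.sum_nonneg fun x _ => norm_nonneg _
    · exact Finset.sum_nonneg fun x _ => norm_nonneg _
  simp_rw [hs1]
  rw [lintegral_add_left]
  · rw [mul_add, ← ENNReal.ofReal_mul (by positivity), ← ENNReal.ofReal_mul (by positivity)]
    exact add_le_add hc1 hc2
  · refine ENNReal.measurable_ofReal.comp (Finset.measurable_sum _ fun x _ => ?_)
    exact measurable_norm.comp ((measurable_pi_apply x).comp (measurable_fst.comp hst))

private theorem Mom1_pow (C1 h Sm : ℝ) (hC1 : 0 ≤ C1) (hh : 0 < h) (n : ℕ) (hn : n * h ≤ Sm) :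
    ENNReal.ofReal (1 + C1 * h) ^ n ≤ ENNReal.ofReal (Real.exp (C1 * Sm)) := by
  rw [← ENNReal.ofReal_pow (by positivity)]
  refine ENNReal.ofReal_le_ofReal ?_
  calc (1 + C1 * h) ^ n ≤ (Real.exp (C1 * h)) ^ n := by
        refine pow_le_pow_left₀ (by positivity) ?_ n
        linarith [Real.add_one_le_exp (C1 * h)]
    _ = Real.exp (n * (C1 * h)) := by rw [← Real.exp_nat_mul]
    _ ≤ Real.exp (C1 * Sm) := by
        refine Real.exp_le_exp.2 ?_
        nlinarith

theorem iter_step (S : PSys F β k) (h : ℝ) (L : ℕ)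
    (Φ : (boxS d L → F.V) × (boxS d L → F.V) → ℝ≥0∞) (hΦ : Measurable Φ) (A B : ℝ≥0∞)
    (hstep : ∀ G : (boxS d L → F.V) × (boxS d L → F.V),
      (∀ x, ‖G.1 x‖ ≤ rad β h ∧ ‖G.2 x‖ ≤ rad β h) →
      ∫⁻ ω in {ω | (∀ x, ω x ∈ S.gd h) ∧ ∀ x, ‖(S.st h L G ω).1 x‖ ≤ rad β h ∧
          ‖(S.st h L G ω).2 x‖ ≤ rad β h}, Φ (S.st h L G ω) ∂(S.mu L) ≤ A * Φ G + B)
    (G : (boxS d L → F.V) × (boxS d L → F.V)) (n : ℕ) :
    ∫⁻ ω in S.alv h L G n, Φ (S.tr h L G ω n) ∂(PI (S.mu L)) ≤
      A ^ n * Φ G + B * ∑ i ∈ Finset.range n, A ^ i := by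
  induction n with
  | zero =>
    have h1 : ∀ ω, Φ (S.tr h L G ω 0) = Φ G := fun _ => rfl
    simp_rw [h1]
    rw [setLIntegral_const]
    calc Φ G * PI (S.mu L) (S.alv h L G 0) ≤ Φ G * 1 := by gcongr; exact prob_le_one
      _ ≤ A ^ 0 * Φ G + B * ∑ i ∈ Finset.range 0, A ^ i := by simp
  | succ n ih =>
    rw [alv_markov S h L Φ hΦ G n 1]
    have hin : ∀ ω ∈ S.alv h L G n, (∫⁻ ω' in S.alv h L (S.tr h L G ω n) 1,
        Φ (S.tr h L (S.tr h L G ω n) ω' 1) ∂(PI (S.mu L))) ≤ A * Φ (S.tr h L G ω n) + B := by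
      intro ω hω
      set G' := S.tr h L G ω n with hG'
      have hrad : ∀ x, ‖G'.1 x‖ ≤ rad β h ∧ ‖G'.2 x‖ ≤ rad β h := fun x => hω.2 n le_rfl x
      refine le_trans (le_of_eq ?_) (hstep G' hrad)
      have hset : MeasurableSet {ξ : boxS d L → S.Ωp | (∀ x, ξ x ∈ S.gd h) ∧
          ∀ x, ‖(S.st h L G' ξ).1 x‖ ≤ rad β h ∧ ‖(S.st h L G' ξ).2 x‖ ≤ rad β h} := by
        have hst : Measurable fun ξ : boxS d L → S.Ωp => S.st h L G' ξ :=
          (S.mst h L).comp (measurable_const.prodMk measurable_id)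
        have e : {ξ : boxS d L → S.Ωp | (∀ x, ξ x ∈ S.gd h) ∧
          ∀ x, ‖(S.st h L G' ξ).1 x‖ ≤ rad β h ∧ ‖(S.st h L G' ξ).2 x‖ ≤ rad β h} =
          (⋂ x : boxS d L, {ξ | ξ x ∈ S.gd h}) ∩ (⋂ x : boxS d L,
            {ξ | ‖(S.st h L G' ξ).1 x‖ ≤ rad β h ∧ ‖(S.st h L G' ξ).2 x‖ ≤ rad β h}) := by
          ext ξ
          simp only [Set.mem_ofPred_eq, Set.mem_inter_iff, Set.mem_iInter]
        rw [e]
        refine MeasurableSet.inter (MeasurableSet.iInter fun x => ?_)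
          (MeasurableSet.iInter fun x => ?_)
        · exact (measurable_pi_apply x) (S.mgd h)
        · exact (measurableSet_le (measurable_norm.comp
            ((measurable_pi_apply x).comp (measurable_fst.comp hst))) measurable_const).inter
            (measurableSet_le (measurable_norm.comp
            ((measurable_pi_apply x).comp (measurable_snd.comp hst))) measurable_const)
      have hms := measurableSet_alv S h L G' 1
      rw [← lintegral_indicator hms, ← lintegral_indicator hset]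
      have hmeas : Measurable (({ξ : boxS d L → S.Ωp | (∀ x, ξ x ∈ S.gd h) ∧
          ∀ x, ‖(S.st h L G' ξ).1 x‖ ≤ rad β h ∧ ‖(S.st h L G' ξ).2 x‖ ≤ rad β h}).indicator
          fun ξ => Φ (S.st h L G' ξ)) :=
        (hΦ.comp ((S.mst h L).comp (measurable_const.prodMk measurable_id))).indicator hset
      have h3 := lintegral_map (μ := PI (S.mu L)) hmeas (measurable_pi_apply (0 : ℕ))
      rw [map_coord] at h3
      rw [h3]
      refine lintegral_congr fun ω' => ?_
      have hiff : ω' ∈ S.alv h L G' 1 ↔ ω' 0 ∈ {ξ : boxS d L → S.Ωp | (∀ x, ξ x ∈ S.gd h) ∧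
          ∀ x, ‖(S.st h L G' ξ).1 x‖ ≤ rad β h ∧ ‖(S.st h L G' ξ).2 x‖ ≤ rad β h} := by
        simp only [PSys.alv, Set.mem_ofPred_eq]
        constructor
        · rintro ⟨h4, h5⟩
          exact ⟨h4 0 (by omega), h5 1 le_rfl⟩
        · rintro ⟨h4, h5⟩
          refine ⟨fun j hj => ?_, fun j hj => ?_⟩
          · have : j = 0 := by omega
            subst this
            exact h4
          · rcases Nat.lt_or_ge j 1 with hj1 | hj1
            · have : j = 0 := by omega
              subst this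
              exact hrad
            · have : j = 1 := by omega
              subst this
              exact h5
      by_cases hm : ω' ∈ S.alv h L G' 1
      · rw [Set.indicator_of_mem hm, Set.indicator_of_mem (hiff.1 hm)]
        rfl
      · rw [Set.indicator_of_notMem hm, Set.indicator_of_notMem (fun hc => hm (hiff.2 hc))]
    have hmtr : Measurable fun ω : ℕ → boxS d L → S.Ωp => Φ (S.tr h L G ω n) :=
      hΦ.comp ((measurable_traj (S.st h L) (S.mst h L) n).comp
        (measurable_const.prodMk measurable_id))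
    calc ∫⁻ ω in S.alv h L G n, (∫⁻ ω' in S.alv h L (S.tr h L G ω n) 1,
        Φ (S.tr h L (S.tr h L G ω n) ω' 1) ∂(PI (S.mu L))) ∂(PI (S.mu L))
        ≤ ∫⁻ ω in S.alv h L G n, (A * Φ (S.tr h L G ω n) + B) ∂(PI (S.mu L)) :=
          setLIntegral_mono' (measurableSet_alv S h L G n) hin
      _ = A * ∫⁻ ω in S.alv h L G n, Φ (S.tr h L G ω n) ∂(PI (S.mu L)) +
          B * PI (S.mu L) (S.alv h L G n) := by
          rw [lintegral_add_right _ measurable_const, lintegral_const_mul _ hmtr,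
            setLIntegral_const]
      _ ≤ A * (A ^ n * Φ G + B * ∑ i ∈ Finset.range n, A ^ i) + B * 1 := by
          gcongr
          exact prob_le_one
      _ = A ^ (n + 1) * Φ G + B * ∑ i ∈ Finset.range (n + 1), A ^ i := by
          rw [Finset.sum_range_succ']
          simp_rw [pow_succ]
          rw [← Finset.sum_mul, pow_zero, mul_add, mul_add]
          ring

theorem lin_sum (N : ℕ) (hβ : 0 < β) (hk : 0 ≤ k) (S : PSys F β k)
    (hB : BNoise N S.ν S.b S.gd) (L : ℕ) (Sm : ℝ) (hSm : 0 ≤ Sm) :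
    ∃ C h0 : ℝ, 1 ≤ C ∧ 0 < h0 ∧ ∀ h, 0 < h → h < h0 →
    ∀ (G : (boxS d L → F.V) × (boxS d L → F.V)) (n : ℕ), n * h ≤ Sm →
      ∫⁻ ω, ENNReal.ofReal (∑ x, (‖(S.tr h L G ω n).1 x‖ + ‖(S.tr h L G ω n).2 x‖)) ∂(PI (S.mu L))
        ≤ ENNReal.ofReal (C * ∑ x, (‖G.1 x‖ + ‖G.2 x‖)) := by
  obtain ⟨C1, h0, hC1, hh0, hstep⟩ := Mom1_step hk S N hB L
  refine ⟨Real.exp (C1 * Sm), h0, ?_, hh0, fun h hh hhh G n hn => ?_⟩
  · rw [← Real.exp_zero]
    exact Real.exp_le_exp.2 (by positivity)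
  · have hg := Mom1_growth (S.mu L) (S.st h L) (S.mst h L) Mom1_W Mom1_W_meas
      (ENNReal.ofReal (1 + C1 * h)) (hstep h hh hhh) G n
    refine hg.trans ?_
    rw [ENNReal.ofReal_mul (Real.exp_pos _).le]
    exact mul_le_mul' (Mom1_pow C1 h Sm hC1 hh n hn) le_rfl

theorem exit_bd (N : ℕ) (hβ : 0 < β) (hk : 0 ≤ k) (S : PSys F β k)
    (hB : BNoise N S.ν S.b S.gd) (L : ℕ) (Sm ε0 : ℝ) (hSm : 0 ≤ Sm) (hε : 0 < ε0) :
    ∃ h0 : ℝ, 0 < h0 ∧ ∀ h, 0 < h → h < h0 →
    ∀ (G : (boxS d L → F.V) × (boxS d L → F.V)) (n : ℕ), n * h ≤ Sm →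
      PI (S.mu L) (S.alv h L G n)ᶜ ≤ ENNReal.ofReal (ε0 * (1 + ∑ x, (‖G.1 x‖ + ‖G.2 x‖))) := by
  classical
  obtain ⟨C1, h1, hC1, hh1, hstep⟩ := Mom1_step hk S N hB L
  obtain ⟨h2, hh2, htail⟩ := hB.tail
  set K : ℝ := Real.exp (C1 * Sm) / ε0 with hK
  have hKpos : 0 < K := by positivity
  set cb : ℝ := (Fintype.card (boxS d L) : ℝ) with hcb
  have hev : ∀ᶠ h : ℝ in nhdsWithin 0 (Set.Ioi 0), K ≤ rad β h ∧ Sm * cb * h ≤ ε0 ∧ h < 1 := by
    have t1 := (tendsto_rpow_neg_nhdsGT_zero (by norm_num : (-(1 / 8) : ℝ) < 0)).eventually_ge_atTop K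
    have t2 := (tendsto_rpow_neg_nhdsGT_zero
      (by have := one_div_pos.2 (by linarith : (0 : ℝ) < 4 * β); linarith :
        (-(1 / (4 * β)) : ℝ) < 0)).eventually_ge_atTop K
    have t3 : ∀ᶠ h : ℝ in nhdsWithin 0 (Set.Ioi 0), Sm * cb * h ≤ ε0 := by
      have : Filter.Tendsto (fun h : ℝ => Sm * cb * h) (nhdsWithin 0 (Set.Ioi 0)) (nhds 0) := by
        have h3 : Filter.Tendsto (fun h : ℝ => Sm * cb * h) (nhds 0) (nhds (Sm * cb * 0)) :=
          (continuous_const.mul continuous_id).tendsto 0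
        rw [mul_zero] at h3
        exact h3.mono_left nhdsWithin_le_nhds
      exact (this.eventually (gt_mem_nhds hε)).mono fun h hh => hh.le
    have t4 : ∀ᶠ h : ℝ in nhdsWithin 0 (Set.Ioi 0), h < 1 :=
      nhdsWithin_le_nhds (gt_mem_nhds one_pos)
    filter_upwards [t1, t2, t3, t4] with h a1 a2 a3 a4
    exact ⟨le_min a1 a2, a3, a4⟩
  rw [eventually_nhdsWithin_iff, Metric.eventually_nhds_iff] at hev
  obtain ⟨h3, hh3, hev⟩ := hev
  refine ⟨min h1 (min h2 h3), by positivity, fun h hh hhh G n hn => ?_⟩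
  have hlt1 : h < h1 := lt_of_lt_of_le hhh (min_le_left _ _)
  have hlt2 : h < h2 := lt_of_lt_of_le hhh ((min_le_right _ _).trans (min_le_left _ _))
  have hlt3 : h < h3 := lt_of_lt_of_le hhh ((min_le_right _ _).trans (min_le_right _ _))
  obtain ⟨hrad, hsm, hlt⟩ := hev (by rw [Real.dist_eq, sub_zero, abs_of_pos hh]; exact hlt3) hh
  have hradpos : 0 < rad β h := lt_of_lt_of_le hKpos hrad
  -- the two bad events
  have hsub : (S.alv h L G n)ᶜ ⊆
      (⋃ j ∈ Finset.range n, ⋃ x ∈ (Finset.univ : Finset (boxS d L)),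
        {ω : ℕ → boxS d L → S.Ωp | ω j x ∈ (S.gd h)ᶜ}) ∪
      {ω | ∃ j, j ≤ n ∧ ENNReal.ofReal (rad β h) < Mom1_W (traj (S.st h L) G ω j)} := by
    intro ω hω
    by_cases hc : ∀ j, j < n → ∀ x, ω j x ∈ S.gd h
    · right
      have h4 : ¬ ∀ j, j ≤ n → ∀ x, ‖(S.tr h L G ω j).1 x‖ ≤ rad β h ∧
          ‖(S.tr h L G ω j).2 x‖ ≤ rad β h := fun h5 => hω ⟨hc, h5⟩
      push Not at h4
      obtain ⟨j, hj, x, hx⟩ := h4
      refine ⟨j, hj, ?_⟩
      have h6 : rad β h < ‖(S.tr h L G ω j).1 x‖ + ‖(S.tr h L G ω j).2 x‖ := by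
        by_cases h7 : ‖(S.tr h L G ω j).1 x‖ ≤ rad β h
        · linarith [hx h7, norm_nonneg ((S.tr h L G ω j).1 x)]
        · push Not at h7
          linarith [norm_nonneg ((S.tr h L G ω j).2 x)]
      unfold Mom1_W
      rw [ENNReal.ofReal_lt_ofReal_iff_of_nonneg hradpos.le]
      refine h6.trans_le ?_
      exact Finset.single_le_sum
        (f := fun x => ‖(traj (S.st h L) G ω j).1 x‖ + ‖(traj (S.st h L) G ω j).2 x‖)
        (fun y _ => add_nonneg (norm_nonneg _) (norm_nonneg _)) (Finset.mem_univ x)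
    · left
      push Not at hc
      obtain ⟨j, hj, x, hx⟩ := hc
      simp only [Set.mem_iUnion]
      exact ⟨j, Finset.mem_range.2 hj, x, Finset.mem_univ x, hx⟩
  have hb1 : PI (S.mu L) (⋃ j ∈ Finset.range n, ⋃ x ∈ (Finset.univ : Finset (boxS d L)),
        {ω : ℕ → boxS d L → S.Ωp | ω j x ∈ (S.gd h)ᶜ}) ≤ ENNReal.ofReal ε0 := by
    have hone : ∀ (j : ℕ) (x : boxS d L), PI (S.mu L) {ω : ℕ → boxS d L → S.Ωp |
        ω j x ∈ (S.gd h)ᶜ} ≤ ENNReal.ofReal (h ^ 3) := by
      intro j x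
      have hm1 : MeasurableSet {ξ : boxS d L → S.Ωp | ξ x ∈ (S.gd h)ᶜ} :=
        (measurable_pi_apply x) (S.mgd h).compl
      have e1 : PI (S.mu L) {ω : ℕ → boxS d L → S.Ωp | ω j x ∈ (S.gd h)ᶜ} =
          S.mu L {ξ : boxS d L → S.Ωp | ξ x ∈ (S.gd h)ᶜ} := by
        conv_rhs => rw [← map_coord (μ := S.mu L) j]
        rw [Measure.map_apply (measurable_pi_apply j) hm1]
        rfl
      have e2 : S.mu L {ξ : boxS d L → S.Ωp | ξ x ∈ (S.gd h)ᶜ} = S.ν (S.gd h)ᶜ := by
        have hmp := measurePreserving_eval (fun _ : boxS d L => S.ν) x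
        exact hmp.measure_preimage (S.mgd h).compl.nullMeasurableSet
      rw [e1, e2]
      exact htail h hh hlt2
    calc PI (S.mu L) (⋃ j ∈ Finset.range n, ⋃ x ∈ (Finset.univ : Finset (boxS d L)),
        {ω : ℕ → boxS d L → S.Ωp | ω j x ∈ (S.gd h)ᶜ})
        ≤ ∑ j ∈ Finset.range n, PI (S.mu L) (⋃ x ∈ (Finset.univ : Finset (boxS d L)),
        {ω : ℕ → boxS d L → S.Ωp | ω j x ∈ (S.gd h)ᶜ}) := measure_biUnion_finset_le _ _
      _ ≤ ∑ j ∈ Finset.range n, ∑ x ∈ (Finset.univ : Finset (boxS d L)),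
          PI (S.mu L) {ω : ℕ → boxS d L → S.Ωp | ω j x ∈ (S.gd h)ᶜ} :=
          Finset.sum_le_sum fun j _ => measure_biUnion_finset_le _ _
      _ ≤ ∑ j ∈ Finset.range n, ∑ x ∈ (Finset.univ : Finset (boxS d L)),
          ENNReal.ofReal (h ^ 3) :=
          Finset.sum_le_sum fun j _ => Finset.sum_le_sum fun x _ => hone j x
      _ = ENNReal.ofReal (n * (cb * h ^ 3)) := by
          rw [Finset.sum_const, Finset.sum_const, Finset.card_range, Finset.card_univ,
            nsmul_eq_mul, nsmul_eq_mul, ENNReal.ofReal_mul (by positivity),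
            ENNReal.ofReal_mul (by positivity), ENNReal.ofReal_natCast, hcb,
            ENNReal.ofReal_natCast]
      _ ≤ ENNReal.ofReal ε0 := by
          refine ENNReal.ofReal_le_ofReal ?_
          have hcb0 : 0 ≤ cb := by positivity
          have e1 : n * (cb * h ^ 3) = (n * h) * cb * h * h := by ring
          rw [e1]
          calc (n * h) * cb * h * h ≤ Sm * cb * h * h := by gcongr
            _ ≤ Sm * cb * h * 1 := by
                refine mul_le_mul_of_nonneg_left hlt.le ?_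
                positivity
            _ ≤ ε0 := by rw [mul_one]; exact hsm
  have hb2 : PI (S.mu L) {ω | ∃ j, j ≤ n ∧ ENNReal.ofReal (rad β h) <
      Mom1_W (traj (S.st h L) G ω j)} ≤
      ENNReal.ofReal (ε0 * ∑ x, (‖G.1 x‖ + ‖G.2 x‖)) := by
    have hmx := Mom1_max (S.mu L) (S.st h L) (S.mst h L) Mom1_W Mom1_W_meas
      (ENNReal.ofReal (1 + C1 * h)) (by
        rw [← ENNReal.ofReal_one]
        exact ENNReal.ofReal_le_ofReal (by nlinarith only [hC1, hh])) (hstep h hh hlt1)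
      (ENNReal.ofReal (rad β h)) n G
    have hpw := Mom1_pow C1 h Sm hC1 hh n hn
    have h5 : ENNReal.ofReal (rad β h) * PI (S.mu L) {ω | ∃ j, j ≤ n ∧ ENNReal.ofReal (rad β h) <
        Mom1_W (traj (S.st h L) G ω j)} ≤
        ENNReal.ofReal (Real.exp (C1 * Sm) * ∑ x, (‖G.1 x‖ + ‖G.2 x‖)) := by
      rw [ENNReal.ofReal_mul (Real.exp_pos _).le]
      exact hmx.trans (mul_le_mul' hpw le_rfl)
    have hS0 : 0 ≤ ∑ x, (‖G.1 x‖ + ‖G.2 x‖) :=
      Finset.sum_nonneg fun x _ => add_nonneg (norm_nonneg _) (norm_nonneg _)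
    have h6 : ENNReal.ofReal (Real.exp (C1 * Sm) * ∑ x, (‖G.1 x‖ + ‖G.2 x‖)) ≤
        ENNReal.ofReal (rad β h) * ENNReal.ofReal (ε0 * ∑ x, (‖G.1 x‖ + ‖G.2 x‖)) := by
      rw [← ENNReal.ofReal_mul hradpos.le]
      refine ENNReal.ofReal_le_ofReal ?_
      have h7 : Real.exp (C1 * Sm) ≤ rad β h * ε0 := by
        have h8 : Real.exp (C1 * Sm) = K * ε0 := by rw [hK]; field_simp
        rw [h8]
        exact mul_le_mul_of_nonneg_right hrad hε.le
      calc Real.exp (C1 * Sm) * ∑ x, (‖G.1 x‖ + ‖G.2 x‖)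
          ≤ (rad β h * ε0) * ∑ x, (‖G.1 x‖ + ‖G.2 x‖) := mul_le_mul_of_nonneg_right h7 hS0
        _ = rad β h * (ε0 * ∑ x, (‖G.1 x‖ + ‖G.2 x‖)) := by ring
    have h9 : ENNReal.ofReal (rad β h) ≠ 0 := by
      rw [Ne, ENNReal.ofReal_eq_zero, not_le]; exact hradpos
    exact (ENNReal.mul_le_mul_iff_right h9 ENNReal.ofReal_ne_top).1 (h5.trans h6)
  calc PI (S.mu L) (S.alv h L G n)ᶜ
      ≤ ENNReal.ofReal ε0 + ENNReal.ofReal (ε0 * ∑ x, (‖G.1 x‖ + ‖G.2 x‖)) :=
        (measure_mono hsub).trans ((measure_union_le _ _).trans (add_le_add hb1 hb2))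
    _ = ENNReal.ofReal (ε0 * (1 + ∑ x, (‖G.1 x‖ + ‖G.2 x‖))) := by
        rw [← ENNReal.ofReal_add hε.le (mul_nonneg hε.le
          (Finset.sum_nonneg fun x _ => add_nonneg (norm_nonneg _) (norm_nonneg _)))]
        congr 1
        ring

end DynC

end
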