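import Pool.Agent.Lib_MP_36b788_n.M04

set_option linter.unusedVariables false

/-!
# MP_36b788_pr, stationary limit: merged library part M08

Concatenation of smaller files (each in its own section), only to save build time.
-/

/-! ### from `Lib_MP_36b788c.Sm1` -/

section

/-!
# The potential: deterministic facts

PROOF.
* `gX`: nondecreasing, `gX X ≤ X`, `X - 1/4 ≤ gX X` (on `[-1/8,1/16]`: `X + 3/16 ≤ 1/4`), `gX X ≤ max 0 (X - 1/16)`, one-sided Taylor bound
  `gX X + gX' X (Y-X) - 4 (Y-X)² ≤ gX Y` with `gX' ∈ [0,1]` the left derivative (`1` for `X ≤ -1/4`, `1 - 8(X+1/4)` on `(-1/4,-1/8]`, `0` on `(-1/8,1/16]`, `1` above): `gX` is `C¹` with `g'' = -8` on `[-1/4,-1/8]`, and has a convex kink at `1/16`.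
* `fpot`: monotone, `k^{1/4} v ≤ fpot k v ≤ v`, `fpot k v ≤ max 1 (k^{1/16} v)`, for `0 < v`, `-b`: `log fpot` increments by `gX_taylor`.
* `SSt`: `1 ≤ SSt`, `SSt y ≤ 2^{dist} SSt z` (triangle inequality), `k^{1/16} t z ≤ SSt z`, monotone and subadditive in `t` (`SSt(t+t') ≤ SSt t · SSt t'`, `SSt(2t) ≤ 2 SSt t`).
* `Tz_le`: `fpot(u z) ≤ SSt(t)(z)` if `u ≤ t`, so `Tz ≤ (k^{1/4})^{dist} SSt(z)^{1-q} ≤ SSt(x)^{1-q}` when `k^{1/4} 2^{q-1} ≤ 1`; `V_one`: `Vp ≥ SSt(x)^{(q-1)s} ≥ 1`.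
* `nb_small`: at a maximizer `z` of `Tz … x` and `y ∈ nb z`: `fpot(u y) ≤ k^{-1/4} 2^q fpot(u z)`, hence `k u(y) ≤ k^{1/2} 2^q u(z)`.
-/

open MeasureTheory ProbabilityTheory
open scoped ENNReal

namespace DynC

open Dyn

/-- left derivative of `gX` -/
noncomputable def gX' (X : ℝ) : ℝ :=
  if X ≤ -(1 / 4) then 1
  else if X ≤ -(1 / 8) then 1 - 8 * (X + 1 / 4)
  else if X ≤ 1 / 16 then 0
  else 1

theorem gX_mono : Monotone gX := by

  intro X Y h
  unfold gX
  split_ifs <;> nlinarith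

theorem gX_le (X : ℝ) : gX X ≤ X := by

  unfold gX
  split_ifs <;> nlinarith

theorem gX_ge (X : ℝ) : X - 1 / 4 ≤ gX X := by

  unfold gX
  split_ifs <;> nlinarith

theorem gX_cap (X : ℝ) : gX X ≤ max 0 (X - 1 / 16) := by

  unfold gX
  split_ifs with h1 h2 h3
  · exact le_max_of_le_left (by linarith)
  · exact le_max_of_le_left (by nlinarith)
  · exact le_max_of_le_left (by linarith)
  · exact le_max_of_le_right (by linarith)

theorem gX'_mem (X : ℝ) : 0 ≤ gX' X ∧ gX' X ≤ 1 := by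

  unfold gX'
  split_ifs <;> constructor <;> linarith

theorem gX_taylor (X Y : ℝ) : gX X + gX' X * (Y - X) - 4 * (Y - X) ^ 2 ≤ gX Y := by

  unfold gX gX'
  split_ifs with h1 h2 h3 h4 h5 h6 h7 h8 h9 h10 h11 h12 h13 h14 h15
  all_goals first
    | nlinarith
    | nlinarith [sq_nonneg (Y - X), sq_nonneg (Y + 1 / 4), sq_nonneg (Y + 1 / 8)]

theorem ell_pos {k : ℝ} (hk : 0 < k) (hk1 : k < 1) : 0 < ell k := by

  unfold ell
  apply Real.log_pos
  rw [lt_div_iff₀ hk]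
  linarith

theorem fpot_nonneg (k v : ℝ) : 0 ≤ fpot k v := by

  unfold fpot
  split_ifs
  · exact le_rfl
  · exact (Real.exp_pos _).le

theorem fpot_pos {k v : ℝ} (hv : 0 < v) : 0 < fpot k v := by

  unfold fpot
  rw [if_neg (not_le.mpr hv)]
  exact Real.exp_pos _

theorem fpot_mono {k : ℝ} (hk : 0 < k) (hk1 : k < 1) : Monotone (fpot k) := by

  intro v w hvw
  rcases le_or_gt v 0 with h | h
  · have : fpot k v = 0 := by
      unfold fpot
      rw [if_pos h]
    rw [this]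
    exact fpot_nonneg k w
  · have hw : 0 < w := lt_of_lt_of_le h hvw
    unfold fpot
    rw [if_neg (not_le.mpr h), if_neg (not_le.mpr hw)]
    apply Real.exp_le_exp.mpr
    have hl := ell_pos hk hk1
    apply mul_le_mul_of_nonneg_left _ hl.le
    apply gX_mono
    apply div_le_div_of_nonneg_right _ hl.le
    exact Real.log_le_log h hvw

theorem fpot_le {k v : ℝ} (hk : 0 < k) (hk1 : k < 1) (hv : 0 ≤ v) : fpot k v ≤ v := by

  rcases hv.eq_or_lt with h | h
  · unfold fpot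
    rw [if_pos h.symm.le]
    exact hv
  · unfold fpot
    rw [if_neg (not_le.mpr h)]
    have hl := ell_pos hk hk1
    calc Real.exp (ell k * gX (Real.log v / ell k)) ≤ Real.exp (ell k * (Real.log v / ell k)) :=
          Real.exp_le_exp.mpr (mul_le_mul_of_nonneg_left (gX_le _) hl.le)
      _ = v := by
          rw [mul_div_cancel₀ _ hl.ne', Real.exp_log h]

theorem fpot_ge {k v : ℝ} (hk : 0 < k) (hk1 : k < 1) (hv : 0 ≤ v) :
    k ^ (1 / 4 : ℝ) * v ≤ fpot k v := by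

  rcases hv.eq_or_lt with h | h
  · rw [← h, mul_zero]
    exact fpot_nonneg k 0
  · unfold fpot
    rw [if_neg (not_le.mpr h)]
    have hl := ell_pos hk hk1
    have h1 : k ^ (1 / 4 : ℝ) * v = Real.exp (ell k * (Real.log v / ell k - 1 / 4)) := by
      have e1 : ell k * (Real.log v / ell k - 1 / 4) = Real.log k * (1 / 4) + Real.log v := by
        rw [mul_sub, mul_div_cancel₀ _ hl.ne']
        unfold ell
        rw [one_div k, Real.log_inv]
        ring
      rw [e1, Real.exp_add, Real.exp_log h, ← Real.rpow_def_of_pos hk]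
    rw [h1]
    exact Real.exp_le_exp.mpr (mul_le_mul_of_nonneg_left (gX_ge _) hl.le)

theorem fpot_cap {k v : ℝ} (hk : 0 < k) (hk1 : k < 1) (hv : 0 ≤ v) :
    fpot k v ≤ max 1 (k ^ (1 / 16 : ℝ) * v) := by

  rcases hv.eq_or_lt with h | h
  · have : fpot k v = 0 := by
      unfold fpot
      rw [if_pos h.symm.le]
    rw [this]
    exact le_max_of_le_left zero_le_one
  · unfold fpot
    rw [if_neg (not_le.mpr h)]
    have hl := ell_pos hk hk1
    have h1 : k ^ (1 / 16 : ℝ) * v = Real.exp (ell k * (Real.log v / ell k - 1 / 16)) := by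
      have e1 : ell k * (Real.log v / ell k - 1 / 16) = Real.log k * (1 / 16) + Real.log v := by
        rw [mul_sub, mul_div_cancel₀ _ hl.ne']
        unfold ell
        rw [one_div k, Real.log_inv]
        ring
      rw [e1, Real.exp_add, Real.exp_log h, ← Real.rpow_def_of_pos hk]
    rw [h1]
    rcases le_total (Real.log v / ell k - 1 / 16) 0 with h2 | h2
    · apply le_max_of_le_left
      rw [Real.exp_le_one_iff]
      have h3 := gX_cap (Real.log v / ell k)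
      rw [max_eq_left h2] at h3
      exact mul_nonpos_of_nonneg_of_nonpos hl.le h3
    · apply le_max_of_le_right
      apply Real.exp_le_exp.mpr
      have h3 := gX_cap (Real.log v / ell k)
      rw [max_eq_right h2] at h3
      exact mul_le_mul_of_nonneg_left h3 hl.le

/-- increment of `fpot` when `v` is replaced by `v' ≥ v e^c` -/
theorem fpot_inc {k v v' c : ℝ} (hk : 0 < k) (hk1 : k < 1) (hv : 0 < v)
    (hc : v * Real.exp c ≤ v') :
    fpot k v * Real.exp (gX' (Real.log v / ell k) * c - 4 * c ^ 2 / ell k) ≤ fpot k v' := by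

  have hl := ell_pos hk hk1
  refine le_trans ?_ (fpot_mono hk hk1 hc)
  have hv2 : 0 < v * Real.exp c := mul_pos hv (Real.exp_pos c)
  unfold fpot
  rw [if_neg (not_le.mpr hv), if_neg (not_le.mpr hv2), ← Real.exp_add]
  apply Real.exp_le_exp.mpr
  rw [Real.log_mul hv.ne' (Real.exp_pos c).ne', Real.log_exp, add_div]
  have h1 := gX_taylor (Real.log v / ell k) (Real.log v / ell k + c / ell k)
  rw [add_sub_cancel_left] at h1
  have h2 := mul_le_mul_of_nonneg_left h1 hl.le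
  refine le_trans (le_of_eq ?_) h2
  field_simp
  ring

section

variable {ι : Type} [Fintype ι] {d : ℕ} (net : Net ι d)

theorem SSt_one {k : ℝ} (hk : 0 < k) (t : ι → ℝ) (ht : ∀ x, 0 ≤ t x) (z : ι) :
    1 ≤ SSt net k t z := by
  unfold SSt
  have h1 : 0 ≤ k ^ (1 / 16 : ℝ) * ∑ w, (1 / 2 : ℝ) ^ net.dist z w * t w :=
    mul_nonneg (Real.rpow_nonneg hk.le _)
      (Finset.sum_nonneg fun w _ => mul_nonneg (by positivity) (ht w))
  linarith

theorem SSt_dist {k : ℝ} (hk : 0 < k) (t : ι → ℝ) (ht : ∀ x, 0 ≤ t x) (y z : ι) :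
    SSt net k t y ≤ 2 ^ net.dist y z * SSt net k t z := by
  unfold SSt
  have hκ : 0 ≤ k ^ (1 / 16 : ℝ) := Real.rpow_nonneg hk.le _
  have h1 : (1 : ℝ) ≤ 2 ^ net.dist y z := one_le_pow₀ one_le_two
  have h2 : ∑ w, (1 / 2 : ℝ) ^ net.dist y w * t w ≤
      2 ^ net.dist y z * ∑ w, (1 / 2 : ℝ) ^ net.dist z w * t w := by
    rw [Finset.mul_sum]
    apply Finset.sum_le_sum
    intro w _
    rw [← mul_assoc]
    apply mul_le_mul_of_nonneg_right _ (ht w)
    have h3 : net.dist z w ≤ net.dist y z + net.dist y w := by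
      have := net.dist_tri z y w
      rwa [net.dist_comm z y] at this
    calc (1 / 2 : ℝ) ^ net.dist y w =
          2 ^ net.dist y z * (1 / 2 : ℝ) ^ (net.dist y z + net.dist y w) := by
          rw [pow_add, ← mul_assoc, ← mul_pow]
          norm_num
      _ ≤ 2 ^ net.dist y z * (1 / 2 : ℝ) ^ net.dist z w :=
          mul_le_mul_of_nonneg_left
            (pow_le_pow_of_le_one (by norm_num) (by norm_num) h3) (by positivity)
  have h4 := mul_le_mul_of_nonneg_left h2 hκ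
  calc 1 + k ^ (1 / 16 : ℝ) * ∑ w, (1 / 2 : ℝ) ^ net.dist y w * t w
      ≤ 2 ^ net.dist y z + k ^ (1 / 16 : ℝ) * (2 ^ net.dist y z *
          ∑ w, (1 / 2 : ℝ) ^ net.dist z w * t w) := add_le_add h1 h4
    _ = _ := by ring

theorem le_SSt {k : ℝ} (hk : 0 < k) (t : ι → ℝ) (ht : ∀ x, 0 ≤ t x) (z : ι) :
    k ^ (1 / 16 : ℝ) * t z + 1 ≤ SSt net k t z := by
  unfold SSt
  have h1 : t z ≤ ∑ w, (1 / 2 : ℝ) ^ net.dist z w * t w := by
    have h2 := Finset.single_le_sum (f := fun w => (1 / 2 : ℝ) ^ net.dist z w * t w)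
      (fun w _ => mul_nonneg (by positivity) (ht w)) (Finset.mem_univ z)
    simpa [net.dist_self] using h2
  have h3 := mul_le_mul_of_nonneg_left h1 (Real.rpow_nonneg hk.le (1 / 16 : ℝ))
  linarith

theorem SSt_mono {k : ℝ} (hk : 0 < k) (t t' : ι → ℝ) (h : ∀ x, t x ≤ t' x) (z : ι) :
    SSt net k t z ≤ SSt net k t' z := by
  unfold SSt
  have h1 : ∑ w, (1 / 2 : ℝ) ^ net.dist z w * t w ≤ ∑ w, (1 / 2 : ℝ) ^ net.dist z w * t' w :=
    Finset.sum_le_sum fun w _ => mul_le_mul_of_nonneg_left (h w) (by positivity)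
  have h3 := mul_le_mul_of_nonneg_left h1 (Real.rpow_nonneg hk.le (1 / 16 : ℝ))
  linarith

theorem SSt_two {k : ℝ} (hk : 0 < k) (t : ι → ℝ) (ht : ∀ x, 0 ≤ t x) (z : ι) :
    SSt net k (fun x => 2 * t x) z ≤ 2 * SSt net k t z := by
  unfold SSt
  have h1 : ∑ w, (1 / 2 : ℝ) ^ net.dist z w * (2 * t w) =
      2 * ∑ w, (1 / 2 : ℝ) ^ net.dist z w * t w := by
    rw [Finset.mul_sum]
    exact Finset.sum_congr rfl fun w _ => by ring
  simp only [h1]
  linarith

theorem SSt_add {k : ℝ} (hk : 0 < k) (t t' : ι → ℝ) (ht : ∀ x, 0 ≤ t x) (ht' : ∀ x, 0 ≤ t' x)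
    (z : ι) : SSt net k (fun x => t x + t' x) z ≤ SSt net k t z * SSt net k t' z := by
  unfold SSt
  have h1 : ∑ w, (1 / 2 : ℝ) ^ net.dist z w * (t w + t' w) =
      ∑ w, (1 / 2 : ℝ) ^ net.dist z w * t w + ∑ w, (1 / 2 : ℝ) ^ net.dist z w * t' w := by
    rw [← Finset.sum_add_distrib]
    exact Finset.sum_congr rfl fun w _ => by ring
  simp only [h1]
  have hκ : 0 ≤ k ^ (1 / 16 : ℝ) := Real.rpow_nonneg hk.le _
  have h2 : 0 ≤ ∑ w, (1 / 2 : ℝ) ^ net.dist z w * t w :=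
    Finset.sum_nonneg fun w _ => mul_nonneg (by positivity) (ht w)
  have h3 : 0 ≤ ∑ w, (1 / 2 : ℝ) ^ net.dist z w * t' w :=
    Finset.sum_nonneg fun w _ => mul_nonneg (by positivity) (ht' w)
  nlinarith only [hκ, h2, h3, mul_nonneg (mul_nonneg hκ h2) (mul_nonneg hκ h3)]

theorem Vp_mono {k q s : ℝ} (hk : 0 < k) (hk1 : k < 1) (hq : 0 ≤ q) (hs : 0 < s)
    (u u' t t' : ι → ℝ) (hu : ∀ x, u x ≤ u' x) (ht0 : ∀ x, 0 ≤ t' x) (ht : ∀ x, t' x ≤ t x)
    (x : ι) : Vp net k q s u' t' x ≤ Vp net k q s u t x := by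
  unfold Vp
  rw [ENNReal.rpow_neg, ENNReal.rpow_neg]
  apply ENNReal.inv_le_inv.mpr
  apply ENNReal.rpow_le_rpow _ hs.le
  apply Finset.sup_mono_fun
  intro z _
  apply ENNReal.ofReal_le_ofReal
  unfold Tz
  have hκ : 0 ≤ (k ^ (1 / 4 : ℝ)) ^ net.dist x z := pow_nonneg (Real.rpow_nonneg hk.le _) _
  have ht1 : ∀ y, 0 ≤ t y := fun y => (ht0 y).trans (ht y)
  have hS' : 1 ≤ SSt net k t' z := SSt_one net hk t' ht0 z
  have hS : SSt net k t' z ≤ SSt net k t z := SSt_mono net hk t' t ht z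
  have h1 : SSt net k t z ^ (-q) ≤ SSt net k t' z ^ (-q) :=
    Real.rpow_le_rpow_of_nonpos (by linarith) hS (by linarith)
  have h2 : fpot k (u z) ≤ fpot k (u' z) := fpot_mono hk hk1 (hu z)
  have h3 : (0 : ℝ) ≤ SSt net k t z ^ (-q) := Real.rpow_nonneg (by linarith) _
  apply mul_le_mul (mul_le_mul_of_nonneg_left h2 hκ) h1 h3
  exact mul_nonneg hκ (fpot_nonneg k (u' z))

theorem Vp_two {k q s : ℝ} (hk : 0 < k) (hk1 : k < 1) (hq : 0 ≤ q) (hs : 0 < s)
    (u t : ι → ℝ) (ht0 : ∀ x, 0 ≤ t x) (x : ι) :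
    Vp net k q s u (fun y => 2 * t y) x ≤ ENNReal.ofReal (2 ^ (q * s)) * Vp net k q s u t x := by
  have hsup : ENNReal.ofReal (2 ^ (-q)) *
      (Finset.univ.sup fun z => ENNReal.ofReal (Tz net k q u t x z)) ≤
      Finset.univ.sup fun z => ENNReal.ofReal (Tz net k q u (fun y => 2 * t y) x z) := by
    obtain ⟨z, _, hz⟩ := Finset.exists_mem_eq_sup (Finset.univ : Finset ι) ⟨x, Finset.mem_univ x⟩
      (fun z => ENNReal.ofReal (Tz net k q u t x z))
    rw [hz, ← ENNReal.ofReal_mul (by positivity)]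
    refine le_trans ?_ (Finset.le_sup (f := fun z => ENNReal.ofReal
      (Tz net k q u (fun y => 2 * t y) x z)) (Finset.mem_univ z))
    apply ENNReal.ofReal_le_ofReal
    unfold Tz
    have hκ : 0 ≤ (k ^ (1 / 4 : ℝ)) ^ net.dist x z := pow_nonneg (Real.rpow_nonneg hk.le _) _
    have hS : 1 ≤ SSt net k t z := SSt_one net hk t ht0 z
    have hS2 : 1 ≤ SSt net k (fun y => 2 * t y) z :=
      SSt_one net hk _ (fun y => mul_nonneg zero_le_two (ht0 y)) z
    have h2 : SSt net k (fun y => 2 * t y) z ≤ 2 * SSt net k t z := SSt_two net hk t ht0 z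
    have h3 : 2 ^ (-q) * SSt net k t z ^ (-q) ≤ SSt net k (fun y => 2 * t y) z ^ (-q) := by
      rw [← Real.mul_rpow zero_le_two (by linarith)]
      exact Real.rpow_le_rpow_of_nonpos (by linarith) h2 (by linarith)
    calc 2 ^ (-q) * ((k ^ (1 / 4 : ℝ)) ^ net.dist x z * fpot k (u z) * SSt net k t z ^ (-q))
        = ((k ^ (1 / 4 : ℝ)) ^ net.dist x z * fpot k (u z)) *
          (2 ^ (-q) * SSt net k t z ^ (-q)) := by ring
      _ ≤ _ := mul_le_mul_of_nonneg_left h3 (mul_nonneg hκ (fpot_nonneg k (u z)))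
  unfold Vp
  rw [ENNReal.rpow_neg, ENNReal.rpow_neg]
  set A := Finset.univ.sup fun z => ENNReal.ofReal (Tz net k q u t x z) with hA
  set B := Finset.univ.sup fun z => ENNReal.ofReal (Tz net k q u (fun y => 2 * t y) x z) with hB
  have h4 : (ENNReal.ofReal (2 ^ (-q)) * A) ^ s ≤ B ^ s := ENNReal.rpow_le_rpow hsup hs.le
  rw [ENNReal.mul_rpow_of_nonneg _ _ hs.le, ENNReal.ofReal_rpow_of_pos (by positivity),
    ← Real.rpow_mul zero_le_two] at h4
  have h5 : ENNReal.ofReal (2 ^ (q * s)) = (ENNReal.ofReal (2 ^ (-q * s)))⁻¹ := by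
    rw [← ENNReal.ofReal_inv_of_pos (by positivity), ← Real.rpow_neg zero_le_two]
    congr 2
    ring
  rw [h5, ← ENNReal.mul_inv]
  · exact ENNReal.inv_le_inv.mpr h4
  · left
    exact (ENNReal.ofReal_pos.mpr (by positivity)).ne'
  · left
    exact ENNReal.ofReal_ne_top

theorem V_one {k q s : ℝ} (hk : 0 < k) (hk1 : k < 1) (hq : 1 ≤ q) (hs : 0 < s)
    (hkq : k ^ (1 / 4 : ℝ) * 2 ^ (q - 1) ≤ 1) (u t : ι → ℝ) (hu : ∀ x, 0 ≤ u x)
    (ht : ∀ x, u x ≤ t x) (x : ι) :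
    ENNReal.ofReal (SSt net k t x ^ ((q - 1) * s)) ≤ Vp net k q s u t x := by
  have ht0 : ∀ y, 0 ≤ t y := fun y => (hu y).trans (ht y)
  have hSx : 1 ≤ SSt net k t x := SSt_one net hk t ht0 x
  have hκ0 : 0 ≤ k ^ (1 / 4 : ℝ) := Real.rpow_nonneg hk.le _
  have hT : ∀ z, Tz net k q u t x z ≤ SSt net k t x ^ (1 - q) := by
    intro z
    have hSz : 1 ≤ SSt net k t z := SSt_one net hk t ht0 z
    have hSz0 : 0 < SSt net k t z := by linarith
    have h1 : fpot k (u z) ≤ SSt net k t z := by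
      refine (fpot_cap hk hk1 (hu z)).trans (max_le hSz ?_)
      have h2 := le_SSt net hk t ht0 z
      have h3 := mul_le_mul_of_nonneg_left (ht z) (Real.rpow_nonneg hk.le (1 / 16 : ℝ))
      linarith
    have h2 : fpot k (u z) * SSt net k t z ^ (-q) ≤ SSt net k t z ^ (1 - q) := by
      have h3 : SSt net k t z ^ (1 - q) = SSt net k t z * SSt net k t z ^ (-q) := by
        rw [show (1 - q : ℝ) = 1 + -q by ring, Real.rpow_add hSz0, Real.rpow_one]
      rw [h3]
      exact mul_le_mul_of_nonneg_right h1 (Real.rpow_nonneg hSz0.le _)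
    have h4 : SSt net k t x ≤ 2 ^ net.dist x z * SSt net k t z := SSt_dist net hk t ht0 x z
    have h5 : SSt net k t z ^ (1 - q) ≤
        (2 ^ (q - 1)) ^ net.dist x z * SSt net k t x ^ (1 - q) := by
      have h6 : (2 ^ net.dist x z * SSt net k t z) ^ (1 - q) ≤ SSt net k t x ^ (1 - q) :=
        Real.rpow_le_rpow_of_nonpos (by linarith) h4 (by linarith)
      rw [Real.mul_rpow (by positivity) hSz0.le] at h6
      have h7 : ((2 : ℝ) ^ (q - 1)) ^ net.dist x z * ((2 : ℝ) ^ net.dist x z) ^ (1 - q) = 1 := by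
        rw [← Real.rpow_natCast 2, ← Real.rpow_natCast (2 ^ (q - 1)), ← Real.rpow_mul zero_le_two,
          ← Real.rpow_mul zero_le_two, ← Real.rpow_add zero_lt_two]
        rw [show (q - 1) * (net.dist x z : ℝ) + (net.dist x z : ℝ) * (1 - q) = 0 by ring,
          Real.rpow_zero]
      calc SSt net k t z ^ (1 - q) = (((2 : ℝ) ^ (q - 1)) ^ net.dist x z *
            ((2 : ℝ) ^ net.dist x z) ^ (1 - q)) * SSt net k t z ^ (1 - q) := by
            rw [h7, one_mul]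
        _ = ((2 : ℝ) ^ (q - 1)) ^ net.dist x z *
            (((2 : ℝ) ^ net.dist x z) ^ (1 - q) * SSt net k t z ^ (1 - q)) := by ring
        _ ≤ _ := mul_le_mul_of_nonneg_left h6 (by positivity)
    calc Tz net k q u t x z
        = (k ^ (1 / 4 : ℝ)) ^ net.dist x z * (fpot k (u z) * SSt net k t z ^ (-q)) := by
          unfold Tz
          ring
      _ ≤ (k ^ (1 / 4 : ℝ)) ^ net.dist x z *
          ((2 ^ (q - 1)) ^ net.dist x z * SSt net k t x ^ (1 - q)) :=
          mul_le_mul_of_nonneg_left (h2.trans h5) (pow_nonneg hκ0 _)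
      _ = (k ^ (1 / 4 : ℝ) * 2 ^ (q - 1)) ^ net.dist x z * SSt net k t x ^ (1 - q) := by
          rw [mul_pow]
          ring
      _ ≤ 1 * SSt net k t x ^ (1 - q) :=
          mul_le_mul_of_nonneg_right (pow_le_one₀ (mul_nonneg hκ0 (by positivity)) hkq)
            (Real.rpow_nonneg (by linarith) _)
      _ = _ := one_mul _
  unfold Vp
  rw [ENNReal.rpow_neg]
  have hsup : (Finset.univ.sup fun z => ENNReal.ofReal (Tz net k q u t x z)) ≤
      ENNReal.ofReal (SSt net k t x ^ (1 - q)) :=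
    Finset.sup_le fun z _ => ENNReal.ofReal_le_ofReal (hT z)
  have h8 := ENNReal.rpow_le_rpow hsup hs.le
  have h9 := ENNReal.inv_le_inv.mpr h8
  refine le_trans (le_of_eq ?_) h9
  rw [ENNReal.ofReal_rpow_of_pos (Real.rpow_pos_of_pos (by linarith) _),
    ← ENNReal.ofReal_inv_of_pos (by positivity), ← Real.rpow_mul (by linarith),
    ← Real.rpow_neg (by linarith)]
  congr 2
  ring

/-- a maximizer -/
theorem exists_argmax (k q : ℝ) (u t : ι → ℝ) (x : ι) :
    ∃ z, ∀ y, Tz net k q u t x y ≤ Tz net k q u t x z := by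
  obtain ⟨z, _, hz⟩ := Finset.exists_max_image (Finset.univ : Finset ι)
    (fun z => Tz net k q u t x z) ⟨x, Finset.mem_univ x⟩
  exact ⟨z, fun y => hz y (Finset.mem_univ y)⟩

theorem Vp_argmax (k q s : ℝ) (u t : ι → ℝ) (x z : ι)
    (hz : ∀ y, Tz net k q u t x y ≤ Tz net k q u t x z) :
    Vp net k q s u t x = ENNReal.ofReal (Tz net k q u t x z) ^ (-s) := by
  unfold Vp
  congr 1
  apply le_antisymm
  · exact Finset.sup_le fun y _ => ENNReal.ofReal_le_ofReal (hz y)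
  · exact Finset.le_sup (f := fun z => ENNReal.ofReal (Tz net k q u t x z)) (Finset.mem_univ z)

theorem nb_small {k q : ℝ} (hk : 0 < k) (hk1 : k < 1) (hq : 0 ≤ q) (u t : ι → ℝ)
    (hu : ∀ x, 0 ≤ u x) (ht : ∀ x, 0 ≤ t x) (x z : ι)
    (hz : ∀ y, Tz net k q u t x y ≤ Tz net k q u t x z) (y : ι) (hy : y ∈ net.nb z) :
    k * u y ≤ k ^ (1 / 2 : ℝ) * 2 ^ q * u z := by
  have h1 := hz y
  unfold Tz at h1
  have hκ0 : 0 < k ^ (1 / 4 : ℝ) := Real.rpow_pos_of_pos hk _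
  have hκ1 : k ^ (1 / 4 : ℝ) ≤ 1 := Real.rpow_le_one hk.le hk1.le (by norm_num)
  have hzy : net.dist z y = 1 := net.dist_nb z y hy
  have hyz : net.dist y z = 1 := by rw [net.dist_comm, hzy]
  have hd : net.dist x y ≤ net.dist x z + 1 := by
    have := net.dist_tri x z y
    rwa [hzy] at this
  have hSy : 1 ≤ SSt net k t y := SSt_one net hk t ht y
  have hSz : 1 ≤ SSt net k t z := SSt_one net hk t ht z
  have hS : SSt net k t y ≤ 2 * SSt net k t z := by
    have := SSt_dist net hk t ht y z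
    rwa [hyz, pow_one] at this
  have hSq : 2 ^ (-q) * SSt net k t z ^ (-q) ≤ SSt net k t y ^ (-q) := by
    rw [← Real.mul_rpow zero_le_two (by linarith)]
    exact Real.rpow_le_rpow_of_nonpos (by linarith) hS (by linarith)
  have hSz0 : 0 < SSt net k t z ^ (-q) := Real.rpow_pos_of_pos (by linarith) _
  have hp : (k ^ (1 / 4 : ℝ)) ^ (net.dist x z + 1) ≤ (k ^ (1 / 4 : ℝ)) ^ net.dist x y :=
    pow_le_pow_of_le_one hκ0.le hκ1 hd
  have hfy : k ^ (1 / 4 : ℝ) * u y ≤ fpot k (u y) := fpot_ge hk hk1 (hu y)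
  have hfz : fpot k (u z) ≤ u z := fpot_le hk hk1 (hu z)
  have hpz : 0 < (k ^ (1 / 4 : ℝ)) ^ net.dist x z := pow_pos hκ0 _
  have h2 : ((k ^ (1 / 4 : ℝ)) ^ net.dist x z * SSt net k t z ^ (-q)) *
      (k ^ (1 / 4 : ℝ) * (k ^ (1 / 4 : ℝ) * u y) * 2 ^ (-q)) ≤
      ((k ^ (1 / 4 : ℝ)) ^ net.dist x z * SSt net k t z ^ (-q)) * u z := by
    calc ((k ^ (1 / 4 : ℝ)) ^ net.dist x z * SSt net k t z ^ (-q)) *
        (k ^ (1 / 4 : ℝ) * (k ^ (1 / 4 : ℝ) * u y) * 2 ^ (-q))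
        = ((k ^ (1 / 4 : ℝ)) ^ (net.dist x z + 1) * (k ^ (1 / 4 : ℝ) * u y)) *
          (2 ^ (-q) * SSt net k t z ^ (-q)) := by
          rw [pow_succ]
          ring
      _ ≤ ((k ^ (1 / 4 : ℝ)) ^ net.dist x y * fpot k (u y)) * SSt net k t y ^ (-q) := by
          apply mul_le_mul _ hSq (by positivity)
            (mul_nonneg (pow_nonneg hκ0.le _) (fpot_nonneg k (u y)))
          apply mul_le_mul hp hfy (mul_nonneg hκ0.le (hu y)) (pow_nonneg hκ0.le _)
      _ ≤ (k ^ (1 / 4 : ℝ)) ^ net.dist x z * fpot k (u z) * SSt net k t z ^ (-q) := h1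
      _ ≤ (k ^ (1 / 4 : ℝ)) ^ net.dist x z * u z * SSt net k t z ^ (-q) :=
          mul_le_mul_of_nonneg_right (mul_le_mul_of_nonneg_left hfz hpz.le) hSz0.le
      _ = _ := by ring
  have h3 := le_of_mul_le_mul_left h2 (mul_pos hpz hSz0)
  have h4 : k ^ (1 / 4 : ℝ) * k ^ (1 / 4 : ℝ) = k ^ (1 / 2 : ℝ) := by
    rw [← Real.rpow_add hk]
    norm_num
  have h5 : k ^ (1 / 2 : ℝ) * k ^ (1 / 2 : ℝ) = k := by
    rw [← Real.rpow_add hk]
    norm_num
  have h6 : (2 : ℝ) ^ (-q) * 2 ^ q = 1 := by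
    rw [← Real.rpow_add zero_lt_two]
    simp
  have h7 : k * u y = (k ^ (1 / 2 : ℝ) * 2 ^ q) *
      (k ^ (1 / 4 : ℝ) * (k ^ (1 / 4 : ℝ) * u y) * 2 ^ (-q)) := by
    calc k * u y = (k ^ (1 / 2 : ℝ) * k ^ (1 / 2 : ℝ)) * u y * (2 ^ (-q) * 2 ^ q) := by
          rw [h5, h6, mul_one]
      _ = (k ^ (1 / 2 : ℝ) * (k ^ (1 / 4 : ℝ) * k ^ (1 / 4 : ℝ))) * u y * (2 ^ (-q) * 2 ^ q) := by
          rw [h4]
      _ = _ := by ring
  rw [h7]
  exact mul_le_mul_of_nonneg_left h3 (by positivity)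

end

end DynC

end
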