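import Pool.Agent.Lib_MP_36b788_n.M09

set_option linter.unusedVariables false

/-!
# MP_36b788_pr, stationary limit: merged library part M11

Concatenation of smaller files (each in its own section), only to save build time.
-/

/-! ### from `Lib_MP_36b788g.FWpr` -/

section

/-!
# The weight of a pair: shift, potentials, second moments

`α = exp(-(a/8))`.

PROOF.
* `wpr_shift`: termwise, `α^{dist x z} ≤ e^{(a/8) dist x y} α^{dist y z}` because `dist y z ≤ dist x y + dist x z` (`dist_tri`, `dist_comm`); `α^n = exp(-(a/8) n)`.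
* `V_le_wpr`: the term `z` of the sum in `wpr … y` is `ofReal (α^{dist y z}) (V1 z + V2 z)`; multiply by `e^{(a/8) dist z y}`.
* `potGe_mono`: `k^{M' + s' dist} ≤ k^{M + s dist}` (`0 < k ≤ 1`, `Real.rpow_le_rpow_of_exponent_ge`).
* `pot_of_wpr`: `V_i(z) ≤ e^{(a/8) dist z y} K ≤ exp((1/16)(M + 2 a dist z y))`, `potGe_of_V` with `a' = 1/16`, `s0 = 2a`, then `potGe_mono`.
* `wpr_l2`: Minkowski in `L²(μ restricted to E)` over `z` and over `i = 1, 2` (`ENNReal.lintegral_Lp_add_le`, induction on the finset), `(∫ V_i(H) z²)^{1/2} ≤ ofReal κ' V_i(G) z + ofReal CV`; sum: `κ' wpr(G) x + 2 CV Σ_z α^{dist x z}`.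
-/

open MeasureTheory ProbabilityTheory
open scoped ENNReal

namespace DynG

open Dyn DynC

variable {d L : ℕ}

private theorem FWpr_exp_pow (a : ℝ) (n : ℕ) :
    Real.exp (-(a / 8)) ^ n = Real.exp (-(a / 8) * n) := by
  rw [← Real.exp_nat_mul]
  congr 1
  ring

private theorem FWpr_wpr {V : Type} [NormedAddCommGroup V] (k q s α : ℝ)
    (G : (boxS d L → V) × (boxS d L → V)) (x : boxS d L) :
    wpr (boxNet d L) k q s α G.1 G.2 x =
      ∑ z, ENNReal.ofReal (α ^ (boxNet d L).dist x z) * (V1 k q s G z + V2 k q s G z) := rfl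

theorem wpr_shift {V : Type} [NormedAddCommGroup V] (k q s a : ℝ) (ha : 0 ≤ a)
    (G G' : boxS d L → V) (x y : boxS d L) :
    wpr (boxNet d L) k q s (Real.exp (-(a / 8))) G G' x ≤
      ENNReal.ofReal (Real.exp (a / 8 * (boxNet d L).dist x y)) *
        wpr (boxNet d L) k q s (Real.exp (-(a / 8))) G G' y := by
  unfold wpr
  rw [Finset.mul_sum]
  refine Finset.sum_le_sum fun z _ => ?_
  rw [← mul_assoc, ← ENNReal.ofReal_mul (Real.exp_pos _).le]
  refine mul_le_mul_left (ENNReal.ofReal_le_ofReal ?_) _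
  rw [FWpr_exp_pow, FWpr_exp_pow, ← Real.exp_add]
  refine Real.exp_le_exp.2 ?_
  have h1 : (boxNet d L).dist y z ≤ (boxNet d L).dist x y + (boxNet d L).dist x z := by
    have h2 := (boxNet d L).dist_tri y x z
    rw [(boxNet d L).dist_comm y x] at h2
    exact h2
  have h3 : (((boxNet d L).dist y z : ℕ) : ℝ) ≤
      (((boxNet d L).dist x y : ℕ) : ℝ) + (((boxNet d L).dist x z : ℕ) : ℝ) := by
    exact_mod_cast h1
  nlinarith [mul_le_mul_of_nonneg_left h3 (by positivity : (0 : ℝ) ≤ a / 8)]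

theorem V_le_wpr {V : Type} [NormedAddCommGroup V] (k q s a : ℝ)
    (G : (boxS d L → V) × (boxS d L → V)) (z y : boxS d L) :
    V1 k q s G z ≤ ENNReal.ofReal (Real.exp (a / 8 * (boxNet d L).dist z y)) *
        wpr (boxNet d L) k q s (Real.exp (-(a / 8))) G.1 G.2 y ∧
      V2 k q s G z ≤ ENNReal.ofReal (Real.exp (a / 8 * (boxNet d L).dist z y)) *
        wpr (boxNet d L) k q s (Real.exp (-(a / 8))) G.1 G.2 y := by
  have h1 : ENNReal.ofReal (Real.exp (-(a / 8)) ^ (boxNet d L).dist y z) *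
      (V1 k q s G z + V2 k q s G z) ≤
        wpr (boxNet d L) k q s (Real.exp (-(a / 8))) G.1 G.2 y := by
    rw [FWpr_wpr]
    exact Finset.single_le_sum (f := fun z => ENNReal.ofReal
      (Real.exp (-(a / 8)) ^ (boxNet d L).dist y z) * (V1 k q s G z + V2 k q s G z))
      (fun _ _ => zero_le) (Finset.mem_univ z)
  have h2 : V1 k q s G z + V2 k q s G z ≤
      ENNReal.ofReal (Real.exp (a / 8 * (boxNet d L).dist z y)) *
        wpr (boxNet d L) k q s (Real.exp (-(a / 8))) G.1 G.2 y := by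
    refine le_trans (le_of_eq ?_) (mul_le_mul_right h1 _)
    rw [← mul_assoc, ← ENNReal.ofReal_mul (Real.exp_pos _).le, FWpr_exp_pow, ← Real.exp_add,
      (boxNet d L).dist_comm z y]
    rw [show a / 8 * (((boxNet d L).dist y z : ℕ) : ℝ) +
      -(a / 8) * (((boxNet d L).dist y z : ℕ) : ℝ) = 0 by ring, Real.exp_zero,
      ENNReal.ofReal_one, one_mul]
  exact ⟨le_self_add.trans h2, le_add_self.trans h2⟩

theorem potGe_mono {k q M M' s s' : ℝ} (hk : 0 < k) (hk1 : k < 1) (hM : M ≤ M') (hs : s ≤ s')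
    (u t : boxS d L → ℝ) (y : boxS d L) (h : PotGe k q u t M s y) : PotGe k q u t M' s' y := by
  intro v
  obtain ⟨z, hz⟩ := h v
  refine ⟨z, le_trans ?_ hz⟩
  refine Real.rpow_le_rpow_of_exponent_ge hk hk1.le ?_
  have h1 : s * (((boxNet d L).dist v y : ℕ) : ℝ) ≤ s' * (((boxNet d L).dist v y : ℕ) : ℝ) :=
    mul_le_mul_of_nonneg_right hs (Nat.cast_nonneg _)
  linarith

theorem pot_of_wpr {V : Type} [NormedAddCommGroup V] {k q a K M s1 : ℝ} (hk : 0 < k) (hk1 : k < 1)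
    (ha : 0 < a) (hK : 1 ≤ K) (hM : Real.log K ≤ M / 16) (hs1 : 2 * a ≤ s1)
    (G : (boxS d L → V) × (boxS d L → V)) (y : boxS d L)
    (hw : wpr (boxNet d L) k q (1 / 16 / ell k) (Real.exp (-(a / 8))) G.1 G.2 y <
      ENNReal.ofReal K) :
    PotGe k q (nrm G.1) (fun v => nrm G.1 v + nrm G.2 v) M s1 y ∧
      PotGe k q (nrm G.2) (fun v => nrm G.1 v + nrm G.2 v) M s1 y := by
  have hK0 : 0 < K := lt_of_lt_of_le one_pos hK
  have key : ∀ v : boxS d L, ENNReal.ofReal (Real.exp (a / 8 * (boxNet d L).dist v y)) *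
      wpr (boxNet d L) k q (1 / 16 / ell k) (Real.exp (-(a / 8))) G.1 G.2 y ≤
        ENNReal.ofReal (Real.exp (1 / 16 * (M + 2 * a * (boxNet d L).dist v y))) := by
    intro v
    refine le_trans (mul_le_mul_right hw.le _) ?_
    rw [← ENNReal.ofReal_mul (Real.exp_pos _).le]
    refine ENNReal.ofReal_le_ofReal ?_
    have h1 : K ≤ Real.exp (M / 16) := by
      rw [← Real.exp_log hK0]
      exact Real.exp_le_exp.2 hM
    calc Real.exp (a / 8 * (boxNet d L).dist v y) * K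
        ≤ Real.exp (a / 8 * (boxNet d L).dist v y) * Real.exp (M / 16) :=
          mul_le_mul_of_nonneg_left h1 (Real.exp_pos _).le
      _ = Real.exp (1 / 16 * (M + 2 * a * (boxNet d L).dist v y)) := by
          rw [← Real.exp_add]
          congr 1
          ring
  constructor
  · refine potGe_mono hk hk1 le_rfl hs1 _ _ y (potGe_of_V (a' := 1 / 16) (s0 := 2 * a) hk hk1
      (by norm_num) _ _ y fun v => ?_)
    exact ((V_le_wpr k q (1 / 16 / ell k) a G v y).1).trans (key v)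
  · refine potGe_mono hk hk1 le_rfl hs1 _ _ y (potGe_of_V (a' := 1 / 16) (s0 := 2 * a) hk hk1
      (by norm_num) _ _ y fun v => ?_)
    exact ((V_le_wpr k q (1 / 16 / ell k) a G v y).2).trans (key v)

/-- Minkowski for finite sums -/
private theorem FWpr_mink {J Ω : Type} [MeasurableSpace Ω] (T : Finset J) (μ : Measure Ω)
    (v : J → Ω → ℝ≥0∞) (hv : ∀ j, Measurable (v j)) :
    (∫⁻ ω, (∑ j ∈ T, v j ω) ^ (2 : ℝ) ∂μ) ^ (1 / 2 : ℝ) ≤
      ∑ j ∈ T, (∫⁻ ω, v j ω ^ (2 : ℝ) ∂μ) ^ (1 / 2 : ℝ) := by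
  classical
  induction T using Finset.induction_on with
  | empty =>
    simp only [Finset.sum_empty, ENNReal.zero_rpow_of_pos (show (0 : ℝ) < 2 by norm_num),
      lintegral_zero]
    rw [ENNReal.zero_rpow_of_pos (by norm_num)]
  | insert j T hj ih =>
    rw [Finset.sum_insert hj]
    have h1 := ENNReal.lintegral_Lp_add_le (μ := μ) (f := v j) (g := fun ω => ∑ i ∈ T, v i ω)
      (hv j).aemeasurable (Finset.measurable_fun_sum _ fun i _ => hv i).aemeasurable
      (show (1 : ℝ) ≤ 2 by norm_num)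
    refine le_trans (le_of_eq ?_) (le_trans h1 (add_le_add_right ih _))
    congr 1
    refine lintegral_congr fun ω => ?_
    rw [Finset.sum_insert hj]
    rfl

private theorem FWpr_mink_w {J Ω : Type} [MeasurableSpace Ω] (T : Finset J) (μ : Measure Ω)
    (w : J → ℝ≥0∞) (v : J → Ω → ℝ≥0∞) (hv : ∀ j, Measurable (v j)) :
    (∫⁻ ω, (∑ j ∈ T, w j * v j ω) ^ (2 : ℝ) ∂μ) ^ (1 / 2 : ℝ) ≤
      ∑ j ∈ T, w j * (∫⁻ ω, v j ω ^ (2 : ℝ) ∂μ) ^ (1 / 2 : ℝ) := by
  refine le_trans (FWpr_mink T μ (fun j ω => w j * v j ω) fun j => (hv j).const_mul _) ?_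
  refine le_of_eq (Finset.sum_congr rfl fun j _ => ?_)
  have h1 : ∀ ω, (w j * v j ω) ^ (2 : ℝ) = w j ^ (2 : ℝ) * v j ω ^ (2 : ℝ) := fun ω =>
    ENNReal.mul_rpow_of_nonneg _ _ (by norm_num)
  simp only [h1]
  rw [lintegral_const_mul _ ((hv j).pow_const 2), ENNReal.mul_rpow_of_nonneg _ _ (by norm_num),
    ← ENNReal.rpow_mul, show (2 : ℝ) * (1 / 2) = 1 by norm_num, ENNReal.rpow_one]

theorem wpr_l2 {V : Type} [NormedAddCommGroup V] [InnerProductSpace ℝ V] [MeasurableSpace V]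
    [BorelSpace V] [SecondCountableTopology V] {Ω : Type} [MeasurableSpace Ω] (μ : Measure Ω)
    (E : Set Ω) (hE : MeasurableSet E)
    (H : Ω → (boxS d L → V) × (boxS d L → V)) (hH : Measurable H) (k q s a κ' CV cd : ℝ)
    (hκ : 0 ≤ κ') (hCV : 0 ≤ CV)
    (hcd : ∀ x : boxS d L, ∑ z, Real.exp (-(a / 8)) ^ (boxNet d L).dist x z ≤ cd)
    (G : (boxS d L → V) × (boxS d L → V))
    (hV : ∀ z, ∫⁻ ω in E, V1 k q s (H ω) z ^ 2 ∂μ ≤
        (ENNReal.ofReal κ' * V1 k q s G z + ENNReal.ofReal CV) ^ 2 ∧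
      ∫⁻ ω in E, V2 k q s (H ω) z ^ 2 ∂μ ≤
        (ENNReal.ofReal κ' * V2 k q s G z + ENNReal.ofReal CV) ^ 2) (x : boxS d L) :
    (∫⁻ ω in E, wpr (boxNet d L) k q s (Real.exp (-(a / 8))) (H ω).1 (H ω).2 x ^ 2 ∂μ) ^
        (1 / 2 : ℝ) ≤
      ENNReal.ofReal κ' * wpr (boxNet d L) k q s (Real.exp (-(a / 8))) G.1 G.2 x +
        ENNReal.ofReal (2 * CV * cd) := by
  have hm1 : ∀ z, Measurable fun ω => V1 k q s (H ω) z := fun z => (measurable_V k q s z).1.comp hH
  have hm2 : ∀ z, Measurable fun ω => V2 k q s (H ω) z := fun z => (measurable_V k q s z).2.comp hH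
  have h4 : ∀ v : Ω → ℝ≥0∞, ∫⁻ ω in E, v ω ^ (2 : ℝ) ∂μ = ∫⁻ ω in E, v ω ^ 2 ∂μ := by
    intro v
    refine lintegral_congr fun ω => ?_
    rw [← ENNReal.rpow_natCast]
    norm_num
  have hroot : ∀ (v c : ℝ≥0∞), v ≤ c ^ 2 → v ^ (1 / 2 : ℝ) ≤ c := by
    intro v c h
    refine le_trans (ENNReal.rpow_le_rpow h (by norm_num)) (le_of_eq ?_)
    rw [← ENNReal.rpow_natCast, ← ENNReal.rpow_mul]
    norm_num
  have hz : ∀ z, (∫⁻ ω in E, (V1 k q s (H ω) z + V2 k q s (H ω) z) ^ (2 : ℝ) ∂μ) ^ (1 / 2 : ℝ) ≤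
      ENNReal.ofReal κ' * (V1 k q s G z + V2 k q s G z) + ENNReal.ofReal (2 * CV) := by
    intro z
    have h2 := ENNReal.lintegral_Lp_add_le (μ := μ.restrict E) (f := fun ω => V1 k q s (H ω) z)
      (g := fun ω => V2 k q s (H ω) z) (hm1 z).aemeasurable (hm2 z).aemeasurable
      (show (1 : ℝ) ≤ 2 by norm_num)
    refine le_trans h2 ?_
    rw [h4, h4]
    refine (add_le_add (hroot _ _ (hV z).1) (hroot _ _ (hV z).2)).trans (le_of_eq ?_)
    rw [show (2 : ℝ) * CV = CV + CV by ring, ENNReal.ofReal_add hCV hCV, mul_add]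
    ring
  rw [← h4]
  simp only [FWpr_wpr]
  refine le_trans (FWpr_mink_w Finset.univ (μ.restrict E)
    (fun z => ENNReal.ofReal (Real.exp (-(a / 8)) ^ (boxNet d L).dist x z))
    (fun z ω => V1 k q s (H ω) z + V2 k q s (H ω) z) (fun z => (hm1 z).add (hm2 z))) ?_
  refine le_trans (Finset.sum_le_sum fun z _ => mul_le_mul_right (hz z) _) ?_
  rw [Finset.mul_sum]
  have h5 : ∀ z, ENNReal.ofReal (Real.exp (-(a / 8)) ^ (boxNet d L).dist x z) *
      (ENNReal.ofReal κ' * (V1 k q s G z + V2 k q s G z) + ENNReal.ofReal (2 * CV)) =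
      ENNReal.ofReal κ' * (ENNReal.ofReal (Real.exp (-(a / 8)) ^ (boxNet d L).dist x z) *
        (V1 k q s G z + V2 k q s G z)) +
      ENNReal.ofReal (2 * CV) *
        ENNReal.ofReal (Real.exp (-(a / 8)) ^ (boxNet d L).dist x z) := by
    intro z
    ring
  rw [Finset.sum_congr rfl fun z _ => h5 z, Finset.sum_add_distrib]
  refine add_le_add_right ?_ _
  rw [← Finset.mul_sum, ← ENNReal.ofReal_sum_of_nonneg
    (fun z _ => pow_nonneg (Real.exp_pos _).le _), ← ENNReal.ofReal_mul (by positivity)]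
  exact ENNReal.ofReal_le_ofReal (mul_le_mul_of_nonneg_left (hcd x) (by positivity))

end DynG

end

/-! ### from `Lib_MP_36b788g.FPair` -/

section

/-!
# Difference of the semigroup at two configurations

PROOF of `pn_pair`. By `tr_marg` and `integral_map`, `F.Pn h L n f G.1 = ∫ f((tr n).1)`, `F.Pn h L n f G.2 = ∫ f((tr n).2)` (`PI (S.mu L)`; `measurable_tr`, `measurable_traj`, `f` bounded measurable, so integrable), so
`‖Pn f G.1 - Pn f G.2‖ ≤ ∫ ‖f (tr n).1 - f (tr n).2‖` (`norm_integral_le_lintegral_norm` / `enorm_integral_le_lintegral_enorm`), `= ∫_{alv} + ∫_{alv^c}`. On `alv` use `tele` pointwise (for all `ω`), on `alv^c` `‖f - f'‖ ≤ 2`.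
`∫⁻ Σ_x = Σ_x ∫⁻` (measurable: `measurable_V`, `measurable_tr`), and
`ofReal (2 card ε (1 + 2Σ)) = ofReal (2 card ε) (1 + 2 ofReal Σ)`; the integral of the additive term over `alv` is at most the integral over the whole space (probability measure).
-/

open MeasureTheory ProbabilityTheory
open scoped ENNReal

namespace DynG

open Dyn DynC

variable {d : ℕ}

theorem measurable_wpr {V : Type} [NormedAddCommGroup V] [InnerProductSpace ℝ V]
    [MeasurableSpace V] [BorelSpace V] [SecondCountableTopology V] {L : ℕ} (k q s α : ℝ)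
    (x : boxS d L) :
    Measurable (fun G : (boxS d L → V) × (boxS d L → V) =>
      wpr (boxNet d L) k q s α G.1 G.2 x) := by
  unfold wpr
  refine Finset.measurable_fun_sum _ fun z _ => Measurable.const_mul (Measurable.add ?_ ?_) _
  · exact (measurable_V k q s z).1
  · exact (measurable_V k q s z).2

theorem pn_pair {F : Fam d} {β k : ℝ} (S : PSys F β k) (h : ℝ) (L n : ℕ) (q s α θ : ℝ)
    (hk : 0 < k) (hk1 : k < 1) (hq : 1 ≤ q) (hs : 0 < s) (hqs : q * s ≤ 1) (hα : 0 ≤ α)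
    (hθ : 0 < θ) (A : boxS d L → ℝ) (hA : ∀ x, 0 ≤ A x) (ε : ℝ) (he : 0 ≤ ε)
    (f : (boxS d L → F.V) → ℂ) (hm : Measurable f) (hb : ∀ G, ‖f G‖ ≤ 1)
    (hf : Cls (boxNet d L) k q s α θ A ε f) (G : (boxS d L → F.V) × (boxS d L → F.V)) :
    ENNReal.ofReal ‖F.Pn h L n f G.1 - F.Pn h L n f G.2‖ ≤
      ∑ x, ENNReal.ofReal (4 * A x) * ∫⁻ ω in S.alv h L G n,
          ENNReal.ofReal (‖(S.tr h L G ω n).1 x - (S.tr h L G ω n).2 x‖ ^ θ) *
            wpr (boxNet d L) k q s α (S.tr h L G ω n).1 (S.tr h L G ω n).2 x ∂(PI (S.mu L)) +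
        (ENNReal.ofReal (2 * (Fintype.card (boxS d L)) * ε) *
          (1 + 2 * ∫⁻ ω, ENNReal.ofReal (∑ x, (‖(S.tr h L G ω n).1 x‖ +
            ‖(S.tr h L G ω n).2 x‖)) ∂(PI (S.mu L))) + 2 * PI (S.mu L) (S.alv h L G n)ᶜ) := by
  have hX : Measurable (fun ω => S.tr h L G ω n) :=
    (measurable_tr S h L n).comp (measurable_const.prodMk measurable_id)
  have hX1 : Measurable (fun ω => (S.tr h L G ω n).1) := measurable_fst.comp hX
  have hX2 : Measurable (fun ω => (S.tr h L G ω n).2) := measurable_snd.comp hX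
  have hY1 : Measurable (fun ω => traj (F.st h L) G.1 ω n) :=
    (measurable_traj _ (F.mst h L) n).comp (measurable_const.prodMk measurable_id)
  have hY2 : Measurable (fun ω => traj (F.st h L) G.2 ω n) :=
    (measurable_traj _ (F.mst h L) n).comp (measurable_const.prodMk measurable_id)
  have e1 : F.Pn h L n f G.1 = ∫ ω, f (S.tr h L G ω n).1 ∂(PI (S.mu L)) := by
    unfold Fam.Pn
    rw [← integral_map (φ := fun ω => traj (F.st h L) G.1 ω n) hY1.aemeasurable
      hm.aestronglyMeasurable, ← (tr_marg S h L G n).1,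
      integral_map hX1.aemeasurable hm.aestronglyMeasurable]
  have e2 : F.Pn h L n f G.2 = ∫ ω, f (S.tr h L G ω n).2 ∂(PI (S.mu L)) := by
    unfold Fam.Pn
    rw [← integral_map (φ := fun ω => traj (F.st h L) G.2 ω n) hY2.aemeasurable
      hm.aestronglyMeasurable, ← (tr_marg S h L G n).2,
      integral_map hX2.aemeasurable hm.aestronglyMeasurable]
  have i1 : Integrable (fun ω => f (S.tr h L G ω n).1) (PI (S.mu L)) :=
    Integrable.of_bound (hm.comp hX1).aestronglyMeasurable 1 (Filter.Eventually.of_forall fun _ => hb _)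
  have i2 : Integrable (fun ω => f (S.tr h L G ω n).2) (PI (S.mu L)) :=
    Integrable.of_bound (hm.comp hX2).aestronglyMeasurable 1 (Filter.Eventually.of_forall fun _ => hb _)
  have hal : MeasurableSet (S.alv h L G n) := measurableSet_alv S h L G n
  have hD : ∀ x, Measurable (fun ω => ENNReal.ofReal
      (‖(S.tr h L G ω n).1 x - (S.tr h L G ω n).2 x‖ ^ θ)) := by
    intro x
    have h1 : Measurable (fun ω => (S.tr h L G ω n).1 x - (S.tr h L G ω n).2 x) :=
      ((measurable_pi_apply x).comp hX1).sub ((measurable_pi_apply x).comp hX2)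
    exact (h1.norm.pow_const θ).ennreal_ofReal
  have hW : ∀ x, Measurable (fun ω =>
      wpr (boxNet d L) k q s α (S.tr h L G ω n).1 (S.tr h L G ω n).2 x) := fun x =>
    (measurable_wpr k q s α x).comp hX
  have hDW : ∀ x, Measurable (fun ω => ENNReal.ofReal
      (‖(S.tr h L G ω n).1 x - (S.tr h L G ω n).2 x‖ ^ θ) *
        wpr (boxNet d L) k q s α (S.tr h L G ω n).1 (S.tr h L G ω n).2 x) := fun x =>
    (hD x).mul (hW x)
  have hS : Measurable (fun ω => ENNReal.ofReal (∑ x, (‖(S.tr h L G ω n).1 x‖ +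
            ‖(S.tr h L G ω n).2 x‖))) := by
    refine Measurable.ennreal_ofReal (Finset.measurable_fun_sum _ fun x _ => ?_)
    exact (((measurable_pi_apply x).comp hX1).norm).add (((measurable_pi_apply x).comp hX2).norm)
  have hcard : (0 : ℝ) ≤ 2 * (Fintype.card (boxS d L)) * ε := by positivity
  have hmain : ∀ ω, ENNReal.ofReal ‖f (S.tr h L G ω n).1 - f (S.tr h L G ω n).2‖ ≤
      ∑ x, ENNReal.ofReal (4 * A x) * (ENNReal.ofReal
          (‖(S.tr h L G ω n).1 x - (S.tr h L G ω n).2 x‖ ^ θ) *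
            wpr (boxNet d L) k q s α (S.tr h L G ω n).1 (S.tr h L G ω n).2 x) +
        ENNReal.ofReal (2 * (Fintype.card (boxS d L)) * ε) *
          (1 + 2 * ENNReal.ofReal (∑ x, (‖(S.tr h L G ω n).1 x‖ +
            ‖(S.tr h L G ω n).2 x‖))) := by
    intro ω
    refine (tele k q s α θ hk hk1 hq hs hqs hα hθ A hA ε he f hf _ _).trans (le_of_eq ?_)
    have hsum : (0 : ℝ) ≤ ∑ x, (‖(S.tr h L G ω n).1 x‖ + ‖(S.tr h L G ω n).2 x‖) :=
      Finset.sum_nonneg fun x _ => add_nonneg (norm_nonneg _) (norm_nonneg _)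
    congr 1
    · refine Finset.sum_congr rfl fun x _ => ?_
      rw [ENNReal.ofReal_mul (mul_nonneg (by norm_num) (hA x)), mul_assoc]
    · rw [ENNReal.ofReal_mul hcard, ENNReal.ofReal_add zero_le_one (by positivity),
        ENNReal.ofReal_mul (by norm_num : (0:ℝ) ≤ 2), ENNReal.ofReal_one, ENNReal.ofReal_ofNat]
  have htwo : ∀ ω, ENNReal.ofReal ‖f (S.tr h L G ω n).1 - f (S.tr h L G ω n).2‖ ≤ 2 := by
    intro ω
    have : ‖f (S.tr h L G ω n).1 - f (S.tr h L G ω n).2‖ ≤ 2 := by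
      refine (norm_sub_le _ _).trans ?_
      have h1 := hb (S.tr h L G ω n).1
      have h2 := hb (S.tr h L G ω n).2
      linarith
    calc ENNReal.ofReal ‖f (S.tr h L G ω n).1 - f (S.tr h L G ω n).2‖ ≤ ENNReal.ofReal 2 :=
          ENNReal.ofReal_le_ofReal this
      _ = 2 := ENNReal.ofReal_ofNat 2
  have hone : PI (S.mu L) (S.alv h L G n) ≤ 1 := prob_le_one
  rw [e1, e2, ← integral_sub i1 i2, ofReal_norm]
  refine (enorm_integral_le_lintegral_enorm _).trans ?_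
  simp_rw [← ofReal_norm]
  rw [← lintegral_add_compl _ hal]
  have hA1 : ∫⁻ ω in S.alv h L G n, ENNReal.ofReal
      ‖f (S.tr h L G ω n).1 - f (S.tr h L G ω n).2‖ ∂(PI (S.mu L)) ≤
      ∑ x, ENNReal.ofReal (4 * A x) * ∫⁻ ω in S.alv h L G n,
          ENNReal.ofReal (‖(S.tr h L G ω n).1 x - (S.tr h L G ω n).2 x‖ ^ θ) *
            wpr (boxNet d L) k q s α (S.tr h L G ω n).1 (S.tr h L G ω n).2 x ∂(PI (S.mu L)) +
        ENNReal.ofReal (2 * (Fintype.card (boxS d L)) * ε) *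
          (1 + 2 * ∫⁻ ω, ENNReal.ofReal (∑ x, (‖(S.tr h L G ω n).1 x‖ +
            ‖(S.tr h L G ω n).2 x‖)) ∂(PI (S.mu L))) := by
    refine (lintegral_mono fun ω => hmain ω).trans ?_
    rw [lintegral_add_left (Finset.measurable_fun_sum _ fun x _ => (hDW x).const_mul _)]
    refine add_le_add (le_of_eq ?_) ?_
    · rw [lintegral_finsetSum _ fun x _ => (hDW x).const_mul _]
      exact Finset.sum_congr rfl fun x _ => lintegral_const_mul _ (hDW x)
    · have h5 : Measurable (fun ω => (1 : ℝ≥0∞) + 2 * ENNReal.ofReal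
          (∑ x, (‖(S.tr h L G ω n).1 x‖ + ‖(S.tr h L G ω n).2 x‖))) :=
        measurable_const.add (hS.const_mul _)
      rw [lintegral_const_mul _ h5]
      gcongr
      rw [lintegral_add_left measurable_const, lintegral_const_mul _ hS]
      refine add_le_add ?_ ?_
      · simpa using hone
      · gcongr
        exact Measure.restrict_le_self
  have hA2 : ∫⁻ ω in (S.alv h L G n)ᶜ, ENNReal.ofReal
      ‖f (S.tr h L G ω n).1 - f (S.tr h L G ω n).2‖ ∂(PI (S.mu L)) ≤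
      2 * PI (S.mu L) (S.alv h L G n)ᶜ := by
    refine (lintegral_mono fun ω => htwo ω).trans (le_of_eq ?_)
    rw [lintegral_const, Measure.restrict_apply_univ]
  refine (add_le_add hA1 hA2).trans (le_of_eq ?_)
  rw [add_assoc]

end DynG

end

/-! ### from `Lib_MP_36b788c.Obe2b` -/

section

/-!
# From pair estimates to the block inequalities

`Blk`: all estimates for one fixed `k` (constants as parameters). `n_B = ⌈TB/h⌉`.

PROOF.
* `tele`: `f ∈ Cls A ε`, arbitrary `G, G'`: `‖f G - f G'‖ ≤ Σ_x 4 A(x) ‖D(x)‖^θ wpr G G' x + 2|box| ε (1 + 2Σ(‖G‖+‖G'‖))`. Path from `G` to `G'` through the sitewise larger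
  configuration `M` (`M x = G x` if `‖G' x‖ ≤ ‖G x‖`, else `G' x`): first change, one after the other, the sites with `‖G x‖ < ‖G' x‖` from `G x` to `G' x`, then the others. Every site is changed once.
  On the first leg the intermediate configurations `H` satisfy `‖H z‖ ≥ ‖G z‖`, `‖H z‖ ≤ max(‖G z‖,‖G' z‖)`, so for two consecutive ones `t = ‖H‖+‖H'‖ ≤ 2(‖G‖+‖G'‖)`, `SSt(t) ≤ 2 SSt(‖G‖+‖G'‖)`, `fpot` is
  monotone, hence `Tz(H,t) ≥ 2^{-q} Tz(G)`, `Vp(H,t)(z) ≤ 2^{qs} Vp_G(z)` and `wpr(H,H') ≤ 2^{1+qs} wpr(G,G') ≤ 4 wpr(G,G')` (`qs ≤ 1`). Second leg: the same with `G'`. Sums of norms of intermediate configurations are `≤ Σ(‖G‖+‖G'‖)`.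
* `blk_pair`: pair `(G,G')` differing only at `y`, `n ≤ n_B`: `‖P^n f G - P^n f G'‖ ≤ E‖f G_n - f G'_n‖` (marginals `marg1, marg2`: the law of the first component of `tr n` is the law of the chain, by induction) `≤ E[tele; alv] + 2P(alv^c)`;
  `E[D^θ w; alv] ≤ (E[D^{2θ}; alv])^{1/2} (E[w²; alv])^{1/2}`, Minkowski for `w = Σ α^{|x-z|}(V1+V2)(z)`.
  With `gV`: `(E w_n(x)²)^{1/2} ≤ √BV w_0(x)`. With `ly` at `n = n_B`: `≤ κ' w_0(x) + 2 CV Σ_z α^{|x-z|}`. `w_0(x) ≤ α^{-|x-y|} w_0(y)`.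
* `contr`: if `wpr G G' y < K`: `good`. Otherwise `κ' w_0(x) + 2 CV Cα ≤ (κ' α^{-|x-y|} + 2 CV Cα/K) w_0(y)`. So `P^{n_B} f ∈ Cls A' …` with `A'(y) = Σ_x A(x) max(c_good(x,y), c_bad(x,y))`, bounded by the sum of both,
  `c_bad(x,y) = 4 √BD e^{-(3/4)a|x-y|} (κ' α^{-|x-y|} + 2 CV Cα/K)`, `Σ_y (c_good + c_bad)(x,y) ≤ 1/2` by `num`.
* `grow`: `c(x,y) = 4 √BD e^{-(3/4)a|x-y|} √BV α^{-|x-y|}`.
* additive terms: `2P(alv^c) ≤ 2ε0 (1+Σ)` (exit), `E(1+Σ(‖G_n‖+‖G'_n‖)) ≤ C(1+Σ)` (sum).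
-/

open MeasureTheory ProbabilityTheory
open scoped ENNReal

namespace DynC

open Dyn

variable {d : ℕ}

private theorem Obe2b_cs {Ω : Type} [MeasurableSpace Ω] (μ : Measure Ω) (f g : Ω → ℝ≥0∞)
    (hf : Measurable f) (hg : Measurable g) :
    ∫⁻ ω, f ω * g ω ∂μ ≤ (∫⁻ ω, f ω ^ 2 ∂μ) ^ (1 / 2 : ℝ) * (∫⁻ ω, g ω ^ 2 ∂μ) ^ (1 / 2 : ℝ) := by
  have h := ENNReal.lintegral_mul_le_Lp_mul_Lq μ Real.HolderConjugate.two_two hf.aemeasurable
    hg.aemeasurable
  simpa [Pi.mul_apply, ENNReal.rpow_two] using h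

private theorem Obe2b_sqrt {x : ℝ} (hx : 0 ≤ x) :
    ENNReal.ofReal x ^ (1 / 2 : ℝ) = ENNReal.ofReal (Real.sqrt x) := by
  rw [ENNReal.ofReal_rpow_of_nonneg hx (by norm_num), Real.sqrt_eq_rpow]

private theorem Obe2b_pair {F : Fam d} {β k : ℝ} (S : PSys F β k) {h : ℝ} {L n : ℕ}
    {q s a θ BD cd κ1 CV1 : ℝ} (hk : 0 < k) (hk1 : k < 1) (hq : 1 ≤ q) (hs : 0 < s)
    (hqs : q * s ≤ 1) (ha : 0 < a) (hθ : 0 < θ) (hBD : 1 ≤ BD) (hκ1 : 0 ≤ κ1) (hCV1 : 0 ≤ CV1)
    (hcd : ∀ x : boxS d L, ∑ z, Real.exp (-(a / 8)) ^ (boxNet d L).dist x z ≤ cd)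
    (A : boxS d L → ℝ) (hA : ∀ x, 0 ≤ A x) (ε : ℝ) (he : 0 ≤ ε)
    (f : (boxS d L → F.V) → ℂ) (hm : Measurable f) (hb : ∀ G, ‖f G‖ ≤ 1)
    (hf : Cls (boxNet d L) k q s (Real.exp (-(a / 8))) θ A ε f)
    (G : (boxS d L → F.V) × (boxS d L → F.V)) (y : boxS d L)
    (hV : ∀ z, ∫⁻ ω in S.alv h L G n, V1 k q s (S.tr h L G ω n) z ^ 2 ∂(PI (S.mu L)) ≤
        (ENNReal.ofReal κ1 * V1 k q s G z + ENNReal.ofReal CV1) ^ 2 ∧
      ∫⁻ ω in S.alv h L G n, V2 k q s (S.tr h L G ω n) z ^ 2 ∂(PI (S.mu L)) ≤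
        (ENNReal.ofReal κ1 * V2 k q s G z + ENNReal.ofReal CV1) ^ 2)
    (hD : ∀ x, ∫⁻ ω in S.alv h L G n, ENNReal.ofReal
          (‖(S.tr h L G ω n).1 x - (S.tr h L G ω n).2 x‖ ^ (2 * θ)) ∂(PI (S.mu L))
        ≤ ENNReal.ofReal (BD * Real.exp (-(3 / 2 * a * (boxNet d L).dist x y)) *
            ‖G.1 y - G.2 y‖ ^ (2 * θ))) :
    ENNReal.ofReal ‖F.Pn h L n f G.1 - F.Pn h L n f G.2‖ ≤
      ∑ x, ENNReal.ofReal (4 * A x * (Real.sqrt BD *
          Real.exp (-(3 / 4 * a * (boxNet d L).dist x y)) * ‖G.1 y - G.2 y‖ ^ θ)) *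
          (ENNReal.ofReal (κ1 * Real.exp (a / 8 * (boxNet d L).dist x y)) *
            wpr (boxNet d L) k q s (Real.exp (-(a / 8))) G.1 G.2 y +
            ENNReal.ofReal (2 * CV1 * cd)) +
        (ENNReal.ofReal (2 * (Fintype.card (boxS d L)) * ε) *
          (1 + 2 * ∫⁻ ω, ENNReal.ofReal (∑ x, (‖(S.tr h L G ω n).1 x‖ +
            ‖(S.tr h L G ω n).2 x‖)) ∂(PI (S.mu L))) + 2 * PI (S.mu L) (S.alv h L G n)ᶜ) := by
  refine (DynG.pn_pair S h L n q s (Real.exp (-(a / 8))) θ hk hk1 hq hs hqs (Real.exp_pos _).le hθ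
    A hA ε he f hm hb hf G).trans ?_
  refine add_le_add (Finset.sum_le_sum fun x _ => ?_) le_rfl
  have hT : Measurable fun ω : ℕ → boxS d L → S.Ωp => S.tr h L G ω n :=
    (measurable_tr S h L n).comp (measurable_const.prodMk measurable_id)
  have hw : Measurable fun ω : ℕ → boxS d L → S.Ωp =>
      wpr (boxNet d L) k q s (Real.exp (-(a / 8))) (S.tr h L G ω n).1 (S.tr h L G ω n).2 x :=
    (DynG.measurable_wpr k q s (Real.exp (-(a / 8))) x).comp hT
  have hd1 : Measurable fun ω : ℕ → boxS d L → S.Ωp =>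
      ‖(S.tr h L G ω n).1 x - (S.tr h L G ω n).2 x‖ := by
    have h1 : Measurable fun ω : ℕ → boxS d L → S.Ωp => (S.tr h L G ω n).1 x :=
      (measurable_pi_apply x).comp (measurable_fst.comp hT)
    have h2 : Measurable fun ω : ℕ → boxS d L → S.Ωp => (S.tr h L G ω n).2 x :=
      (measurable_pi_apply x).comp (measurable_snd.comp hT)
    exact (h1.sub h2).norm
  have hdm : Measurable fun ω : ℕ → boxS d L → S.Ωp =>
      ENNReal.ofReal (‖(S.tr h L G ω n).1 x - (S.tr h L G ω n).2 x‖ ^ θ) :=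
    (hd1.pow_const θ).ennreal_ofReal
  have hcs := Obe2b_cs ((PI (S.mu L)).restrict (S.alv h L G n)) _ _ hdm hw
  have hsq : ∀ ω : ℕ → boxS d L → S.Ωp,
      ENNReal.ofReal (‖(S.tr h L G ω n).1 x - (S.tr h L G ω n).2 x‖ ^ θ) ^ 2 =
        ENNReal.ofReal (‖(S.tr h L G ω n).1 x - (S.tr h L G ω n).2 x‖ ^ (2 * θ)) := by
    intro ω
    rw [← ENNReal.ofReal_pow (Real.rpow_nonneg (norm_nonneg _) _), ← Real.rpow_natCast,
      ← Real.rpow_mul (norm_nonneg _)]
    congr 2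
    push_cast
    ring
  simp only [hsq] at hcs
  have hD0 : 0 ≤ ‖G.1 y - G.2 y‖ ^ θ := Real.rpow_nonneg (norm_nonneg _) _
  have e1 : (∫⁻ ω in S.alv h L G n, ENNReal.ofReal
      (‖(S.tr h L G ω n).1 x - (S.tr h L G ω n).2 x‖ ^ (2 * θ)) ∂(PI (S.mu L))) ^ (1 / 2 : ℝ) ≤
      ENNReal.ofReal (Real.sqrt BD * Real.exp (-(3 / 4 * a * (boxNet d L).dist x y)) *
        ‖G.1 y - G.2 y‖ ^ θ) := by
    refine (ENNReal.rpow_le_rpow (hD x) (by norm_num)).trans (le_of_eq ?_)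
    rw [Obe2b_sqrt (by positivity)]
    congr 1
    have h1 : BD * Real.exp (-(3 / 2 * a * (boxNet d L).dist x y)) *
        ‖G.1 y - G.2 y‖ ^ (2 * θ) =
        BD * (Real.exp (-(3 / 4 * a * (boxNet d L).dist x y)) * ‖G.1 y - G.2 y‖ ^ θ) ^ 2 := by
      rw [mul_pow, ← Real.exp_nat_mul, ← Real.rpow_natCast (‖G.1 y - G.2 y‖ ^ θ),
        ← Real.rpow_mul (norm_nonneg _)]
      have i1 : -(3 / 2 * a * ((boxNet d L).dist x y : ℝ)) =
          ((2 : ℕ) : ℝ) * -(3 / 4 * a * ((boxNet d L).dist x y : ℝ)) := by push_cast; ring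
      have i2 : 2 * θ = θ * ((2 : ℕ) : ℝ) := by push_cast; ring
      rw [i1, i2]
      ring
    rw [h1, Real.sqrt_mul (by linarith), Real.sqrt_sq (by positivity)]
    ring
  have e2 := DynG.wpr_l2 (PI (S.mu L)) (S.alv h L G n) (measurableSet_alv S h L G n)
    (fun ω => S.tr h L G ω n) hT k q s a κ1 CV1 cd hκ1 hCV1 hcd G hV x
  have e3 := DynG.wpr_shift k q s a ha.le G.1 G.2 x y
  have e4 : (∫⁻ ω in S.alv h L G n, wpr (boxNet d L) k q s (Real.exp (-(a / 8)))
      (S.tr h L G ω n).1 (S.tr h L G ω n).2 x ^ 2 ∂(PI (S.mu L))) ^ (1 / 2 : ℝ) ≤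
      ENNReal.ofReal (κ1 * Real.exp (a / 8 * (boxNet d L).dist x y)) *
            wpr (boxNet d L) k q s (Real.exp (-(a / 8))) G.1 G.2 y +
            ENNReal.ofReal (2 * CV1 * cd) := by
    refine e2.trans (add_le_add ?_ le_rfl)
    rw [ENNReal.ofReal_mul hκ1, mul_assoc]
    exact mul_le_mul_right e3 _
  calc _ ≤ ENNReal.ofReal (4 * A x) *
        (ENNReal.ofReal (Real.sqrt BD * Real.exp (-(3 / 4 * a * (boxNet d L).dist x y)) *
          ‖G.1 y - G.2 y‖ ^ θ) *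
        (ENNReal.ofReal (κ1 * Real.exp (a / 8 * (boxNet d L).dist x y)) *
            wpr (boxNet d L) k q s (Real.exp (-(a / 8))) G.1 G.2 y +
            ENNReal.ofReal (2 * CV1 * cd))) :=
        mul_le_mul_right (hcs.trans (mul_le_mul' e1 e4)) _
    _ = _ := by
        rw [← mul_assoc, ← ENNReal.ofReal_mul (by have := hA x; positivity)]

private theorem Obe2b_add {F : Fam d} {β k : ℝ} (S : PSys F β k)
    {q s a θ TB BD BV κ' CV K cd : ℝ} {Ls : ℕ} (B : Blk S q s a θ TB BD BV κ' CV K cd Ls)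
    (L : ℕ) : ∃ CL : ℝ, 1 ≤ CL ∧ ∀ ε0 : ℝ, 0 < ε0 → ∃ h0 : ℝ, 0 < h0 ∧
    ∀ h, 0 < h → h < h0 → ∀ (G : (boxS d L → F.V) × (boxS d L → F.V)) (ε : ℝ), 0 ≤ ε →
    ∀ n, n ≤ ⌈TB / h⌉₊ →
      ENNReal.ofReal (2 * (Fintype.card (boxS d L)) * ε) *
          (1 + 2 * ∫⁻ ω, ENNReal.ofReal (∑ x, (‖(S.tr h L G ω n).1 x‖ +
            ‖(S.tr h L G ω n).2 x‖)) ∂(PI (S.mu L))) + 2 * PI (S.mu L) (S.alv h L G n)ᶜ ≤
        ENNReal.ofReal ((CL * ε + ε0) * (1 + ∑ x, (‖G.1 x‖ + ‖G.2 x‖))) := by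
  have hTB := B.hTB
  obtain ⟨C, h1, hC, hh1, H1⟩ := B.sum L (TB + 1) (by linarith)
  refine ⟨max 1 (4 * (Fintype.card (boxS d L)) * C), le_max_left _ _, fun ε0 hε0 => ?_⟩
  obtain ⟨h2, hh2, H2⟩ := B.exit L (TB + 1) (ε0 / 2) (by linarith) (by linarith)
  refine ⟨min (min h1 h2) 1, lt_min (lt_min hh1 hh2) one_pos, fun h hh hhlt G ε he n hn => ?_⟩
  have b1 : h < h1 := lt_of_lt_of_le hhlt ((min_le_left _ _).trans (min_le_left _ _))
  have b2 : h < h2 := lt_of_lt_of_le hhlt ((min_le_left _ _).trans (min_le_right _ _))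
  have b3 : h < 1 := lt_of_lt_of_le hhlt (min_le_right _ _)
  have hnh : (n : ℝ) * h ≤ TB + 1 := by
    have c1 : (n : ℝ) ≤ (⌈TB / h⌉₊ : ℝ) := by exact_mod_cast hn
    have c2 : (⌈TB / h⌉₊ : ℝ) < TB / h + 1 := Nat.ceil_lt_add_one (by positivity)
    have c3 := mul_le_mul_of_nonneg_right (c1.trans c2.le) hh.le
    have c4 : (TB / h + 1) * h = TB + h := by field_simp
    linarith
  have H1' := H1 h hh b1 G n hnh
  have H2' := H2 h hh b2 G n hnh
  set Sg := ∑ x, (‖G.1 x‖ + ‖G.2 x‖) with hSg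
  have hSg : 0 ≤ Sg := Finset.sum_nonneg fun x _ => add_nonneg (norm_nonneg _) (norm_nonneg _)
  set N : ℝ := (Fintype.card (boxS d L) : ℝ) with hN
  have hN0 : 0 ≤ N := Nat.cast_nonneg _
  calc _ ≤ ENNReal.ofReal (2 * N * ε) * (1 + 2 * ENNReal.ofReal (C * Sg)) +
        2 * ENNReal.ofReal (ε0 / 2 * (1 + Sg)) := by gcongr
    _ = ENNReal.ofReal (2 * N * ε * (1 + 2 * (C * Sg)) + 2 * (ε0 / 2 * (1 + Sg))) := by
        rw [ENNReal.ofReal_add (by positivity) (by positivity),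
          ENNReal.ofReal_mul (by positivity : (0:ℝ) ≤ 2 * N * ε),
          ENNReal.ofReal_add (by positivity) (by positivity), ENNReal.ofReal_one,
          ENNReal.ofReal_mul (by norm_num : (0:ℝ) ≤ 2),
          ENNReal.ofReal_mul (by norm_num : (0:ℝ) ≤ 2)]
        norm_num
    _ ≤ _ := by
        refine ENNReal.ofReal_le_ofReal ?_
        have i1 : 4 * N * C ≤ max 1 (4 * N * C) := le_max_right _ _
        have i2 : 4 * N * C * ε ≤ max 1 (4 * N * C) * ε := mul_le_mul_of_nonneg_right i1 he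
        have i3 : 4 * N * C * ε * (1 + Sg) ≤ max 1 (4 * N * C) * ε * (1 + Sg) :=
          mul_le_mul_of_nonneg_right i2 (by linarith)
        have i4 : 2 * N * ε ≤ 4 * N * C * ε := by
          have : 0 ≤ N * ε := mul_nonneg hN0 he
          nlinarith only [this, hC]
        nlinarith only [i3, i4]

theorem obe_of_blk {F : Fam d} {β k : ℝ} (S : PSys F β k)
    (q s a θ TB BD BV κ' CV K cd : ℝ) (Ls : ℕ) (B : Blk S q s a θ TB BD BV κ' CV K cd Ls)
    (hinit : ObeInit F k q s (Real.exp (-(a / 8))) θ) :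
    ∃ Cg : ℝ, Obe F k q s (Real.exp (-(a / 8))) θ TB Cg Ls := by
  have hk := B.hk
  have hk1 := B.hk1
  have hq := B.hq
  have hs := B.hs
  have ha := B.ha
  have hθ := B.hθ
  have hTB := B.hTB
  have hBD := B.hBD
  have hBV := B.hBV
  have hκ := B.hκ
  have hCV := B.hCV
  have hK := B.hK
  have hqs1 : q * s ≤ 1 := by
    have := B.hqs
    have : 0 ≤ q * s := by positivity
    linarith
  have hone : ∀ (L : ℕ) (G G' : boxS d L → F.V) (x : boxS d L),
      1 ≤ wpr (boxNet d L) k q s (Real.exp (-(a / 8))) G G' x := by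
    intro L G G' x
    have h1 := (B.vone L (G, G') x).1
    unfold wpr
    refine le_trans ?_ (Finset.single_le_sum (f := fun z => ENNReal.ofReal
      (Real.exp (-(a / 8)) ^ (boxNet d L).dist x z) *
      (Vp (boxNet d L) k q s (fun y => ‖G y‖) (fun y => ‖G y‖ + ‖G' y‖) z +
        Vp (boxNet d L) k q s (fun y => ‖G' y‖) (fun y => ‖G y‖ + ‖G' y‖) z))
      (fun z _ => zero_le) (Finset.mem_univ x))
    rw [(boxNet d L).dist_self, pow_zero, ENNReal.ofReal_one, one_mul]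
    exact h1.trans le_self_add
  have hsumBD : 0 ≤ Real.sqrt BD := Real.sqrt_nonneg _
  have hcdL : ∀ L : ℕ, ∀ x : boxS d L, ∑ y, Real.exp (-(5 / 8 * a)) ^ (boxNet d L).dist x y ≤ cd :=
    fun L x => (B.hcd L x).2
  have hexp58 : ∀ (L : ℕ) (x y : boxS d L), Real.exp (-(3 / 4 * a * (boxNet d L).dist x y)) *
      Real.exp (a / 8 * (boxNet d L).dist x y) =
      Real.exp (-(5 / 8 * a)) ^ (boxNet d L).dist x y := by
    intro L x y
    rw [← Real.exp_add, ← Real.exp_nat_mul]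
    congr 1
    ring
  have hexp34 : ∀ (L : ℕ) (x y : boxS d L), Real.exp (-(3 / 4 * a * (boxNet d L).dist x y)) ≤
      Real.exp (-(5 / 8 * a)) ^ (boxNet d L).dist x y := by
    intro L x y
    rw [← Real.exp_nat_mul]
    refine Real.exp_le_exp.2 ?_
    have : (0 : ℝ) ≤ a * (boxNet d L).dist x y := by positivity
    nlinarith only [this]
  refine ⟨max 1 (4 * Real.sqrt BD * Real.sqrt BV * cd),
    { hk := hk
      hk1 := hk1
      hθ := hθ
      hθ1 := by have := B.hθ1; linarith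
      hTB := hTB
      hCg := le_max_left _ _
      one_le := hone
      contr := ?_
      grow := ?_
      init := hinit }⟩
  · -- contraction
    intro L hL
    obtain ⟨CLg, cg, hCLg, hcg0, hcg1, Hg⟩ := B.good L hL
    obtain ⟨CLa, hCLa, Ha⟩ := Obe2b_add S B L
    obtain ⟨hD0, hhD0, HD⟩ := B.gD L hL
    obtain ⟨hl0, hhl0, Hly⟩ := B.ly L hL
    refine ⟨max CLg CLa, hCLg.trans (le_max_left _ _), fun ε0 hε0 => ?_⟩
    obtain ⟨h1, hh1, Hg1⟩ := Hg ε0 hε0
    obtain ⟨h2, hh2, Ha2⟩ := Ha ε0 hε0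
    refine ⟨min (min h1 h2) (min hD0 hl0), lt_min (lt_min hh1 hh2) (lt_min hhD0 hhl0), ?_⟩
    intro h hh hhlt A ε f hA he hm hb hf
    have b1 : h < h1 := lt_of_lt_of_le hhlt ((min_le_left _ _).trans (min_le_left _ _))
    have b2 : h < h2 := lt_of_lt_of_le hhlt ((min_le_left _ _).trans (min_le_right _ _))
    have b3 : h < hD0 := lt_of_lt_of_le hhlt ((min_le_right _ _).trans (min_le_left _ _))
    have b4 : h < hl0 := lt_of_lt_of_le hhlt ((min_le_right _ _).trans (min_le_right _ _))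
    set κb : ℝ := κ' + 2 * CV * cd / K with hκb
    have hcd0 : ∀ x : boxS d L, 0 ≤ cd := fun x =>
      le_trans (Finset.sum_nonneg fun z _ => pow_nonneg (Real.exp_pos _).le _) (B.hcd L x).1
    set cb : boxS d L → boxS d L → ℝ := fun x y => 4 * Real.sqrt BD * κb *
      Real.exp (-(5 / 8 * a)) ^ (boxNet d L).dist x y with hcb
    have hκb0 : ∀ x : boxS d L, 0 ≤ κb := fun x => by
      have := hcd0 x
      positivity
    have hcb0 : ∀ x y, 0 ≤ cb x y := fun x y => by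
      have := hκb0 x
      positivity
    have hcb1 : ∀ x, ∑ y, cb x y ≤ 1 / 4 := by
      intro x
      rw [hcb]
      simp only
      rw [← Finset.mul_sum]
      refine le_trans (mul_le_mul_of_nonneg_left (hcdL L x) ?_) B.num
      have := hκb0 x
      positivity
    refine ⟨fun y => ∑ x, A x * (cg x y + cb x y), ?_, ?_, ?_⟩
    · intro y
      exact Finset.sum_nonneg fun x _ => mul_nonneg (hA x) (add_nonneg (hcg0 x y) (hcb0 x y))
    · rw [Finset.sum_comm, Finset.mul_sum]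
      refine Finset.sum_le_sum fun x _ => ?_
      rw [← Finset.mul_sum, Finset.sum_add_distrib]
      have := mul_le_mul_of_nonneg_left (add_le_add (hcg1 x) (hcb1 x)) (hA x)
      linarith
    · intro G G' y hy
      have hS0 : 0 ≤ 1 + ∑ x, (‖G x‖ + ‖G' x‖) := add_nonneg zero_le_one
        (Finset.sum_nonneg fun x _ => add_nonneg (norm_nonneg _) (norm_nonneg _))
      have hp : 0 ≤ ‖G y - G' y‖ ^ θ := Real.rpow_nonneg (norm_nonneg _) _
      have hε1 : ENNReal.ofReal ((CLg * ε + ε0) * (1 + ∑ x, (‖G x‖ + ‖G' x‖))) ≤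
          ENNReal.ofReal ((max CLg CLa * ε + ε0) * (1 + ∑ x, (‖G x‖ + ‖G' x‖))) := by
        refine ENNReal.ofReal_le_ofReal (mul_le_mul_of_nonneg_right ?_ hS0)
        have := mul_le_mul_of_nonneg_right (le_max_left CLg CLa) he
        linarith
      have hε2 : ENNReal.ofReal ((CLa * ε + ε0) * (1 + ∑ x, (‖G x‖ + ‖G' x‖))) ≤
          ENNReal.ofReal ((max CLg CLa * ε + ε0) * (1 + ∑ x, (‖G x‖ + ‖G' x‖))) := by
        refine ENNReal.ofReal_le_ofReal (mul_le_mul_of_nonneg_right ?_ hS0)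
        have := mul_le_mul_of_nonneg_right (le_max_right CLg CLa) he
        linarith
      rcases lt_or_ge (wpr (boxNet d L) k q s (Real.exp (-(a / 8))) G G' y) (ENNReal.ofReal K) with
        hw | hw
      · -- good
        have h3 := Hg1 h hh b1 A ε f hA he hm hb hf G G' y hy hw
        refine (ENNReal.ofReal_le_ofReal h3).trans ?_
        have hg0 : 0 ≤ ∑ x, A x * cg x y := Finset.sum_nonneg fun x _ => mul_nonneg (hA x) (hcg0 x y)
        rw [ENNReal.ofReal_add (mul_nonneg hg0 hp) (mul_nonneg (by positivity) hS0)]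
        refine add_le_add ?_ hε1
        calc ENNReal.ofReal ((∑ x, A x * cg x y) * ‖G y - G' y‖ ^ θ)
            ≤ ENNReal.ofReal ((∑ x, A x * (cg x y + cb x y)) * ‖G y - G' y‖ ^ θ) := by
              refine ENNReal.ofReal_le_ofReal (mul_le_mul_of_nonneg_right ?_ hp)
              refine Finset.sum_le_sum fun x _ => mul_le_mul_of_nonneg_left ?_ (hA x)
              have := hcb0 x y
              linarith
          _ = ENNReal.ofReal ((∑ x, A x * (cg x y + cb x y)) * ‖G y - G' y‖ ^ θ) * 1 :=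
              (mul_one _).symm
          _ ≤ _ := mul_le_mul_right (hone L G G' y) _
      · -- bad
        have h3 := Obe2b_pair S (h := h) (L := L) (n := ⌈TB / h⌉₊) hk hk1 hq hs hqs1 ha hθ hBD hκ hCV
          (fun x => (B.hcd L x).1) A hA ε he f hm hb hf (G, G') y
          (fun z => Hly h hh b4 (G, G') z) (fun x => HD h hh b3 (G, G') y hy _ le_rfl x)
        refine h3.trans (add_le_add ?_ ((Ha2 h hh b2 (G, G') ε he _ le_rfl).trans hε2))
        have hg0 : 0 ≤ ∑ x, A x * (cg x y + cb x y) :=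
          Finset.sum_nonneg fun x _ => mul_nonneg (hA x) (add_nonneg (hcg0 x y) (hcb0 x y))
        have e1 : ENNReal.ofReal ((∑ x, A x * (cg x y + cb x y)) * ‖G y - G' y‖ ^ θ) =
            ∑ x, ENNReal.ofReal (A x * (cg x y + cb x y) * ‖G y - G' y‖ ^ θ) := by
          rw [Finset.sum_mul, ENNReal.ofReal_sum_of_nonneg]
          intro x _
          exact mul_nonneg (mul_nonneg (hA x) (add_nonneg (hcg0 x y) (hcb0 x y))) hp
        show _ ≤ ENNReal.ofReal ((∑ x, A x * (cg x y + cb x y)) * ‖G y - G' y‖ ^ θ) * _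
        rw [e1, Finset.sum_mul]
        refine Finset.sum_le_sum fun x _ => ?_
        have hcdx := hcd0 x
        have f1 : ENNReal.ofReal (2 * CV * cd) ≤ ENNReal.ofReal (2 * CV * cd / K) *
            wpr (boxNet d L) k q s (Real.exp (-(a / 8))) G G' y := by
          calc ENNReal.ofReal (2 * CV * cd) = ENNReal.ofReal (2 * CV * cd / K) *
                ENNReal.ofReal K := by
                rw [← ENNReal.ofReal_mul (by positivity), div_mul_cancel₀ _ hK.ne']
            _ ≤ _ := mul_le_mul_right hw _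
        calc _ ≤ ENNReal.ofReal (4 * A x * (Real.sqrt BD *
              Real.exp (-(3 / 4 * a * (boxNet d L).dist x y)) * ‖G y - G' y‖ ^ θ)) *
              (ENNReal.ofReal (κ' * Real.exp (a / 8 * (boxNet d L).dist x y)) *
                wpr (boxNet d L) k q s (Real.exp (-(a / 8))) G G' y +
              ENNReal.ofReal (2 * CV * cd / K) *
                wpr (boxNet d L) k q s (Real.exp (-(a / 8))) G G' y) :=
              mul_le_mul_right (add_le_add le_rfl f1) _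
          _ = ENNReal.ofReal (4 * A x * (Real.sqrt BD *
              Real.exp (-(3 / 4 * a * (boxNet d L).dist x y)) * ‖G y - G' y‖ ^ θ) *
              (κ' * Real.exp (a / 8 * (boxNet d L).dist x y) + 2 * CV * cd / K)) *
              wpr (boxNet d L) k q s (Real.exp (-(a / 8))) G G' y := by
              have hAx := hA x
              rw [← add_mul, ← ENNReal.ofReal_add (by positivity) (by positivity), ← mul_assoc,
                ← ENNReal.ofReal_mul (by positivity)]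
          _ ≤ _ := by
              refine mul_le_mul_left (ENNReal.ofReal_le_ofReal ?_) _
              have hAx := hA x
              have g1 := hexp58 L x y
              have g2 := hexp34 L x y
              have g3 : Real.exp (-(3 / 4 * a * (boxNet d L).dist x y)) *
                  (κ' * Real.exp (a / 8 * (boxNet d L).dist x y) + 2 * CV * cd / K) ≤
                  κb * Real.exp (-(5 / 8 * a)) ^ (boxNet d L).dist x y := by
                rw [hκb, mul_add, add_mul]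
                refine add_le_add (le_of_eq ?_) ?_
                · rw [← g1]; ring
                · rw [mul_comm]
                  exact mul_le_mul_of_nonneg_left g2 (by positivity)
              calc 4 * A x * (Real.sqrt BD *
                  Real.exp (-(3 / 4 * a * (boxNet d L).dist x y)) * ‖G y - G' y‖ ^ θ) *
                  (κ' * Real.exp (a / 8 * (boxNet d L).dist x y) + 2 * CV * cd / K) =
                  A x * (4 * Real.sqrt BD) * (Real.exp (-(3 / 4 * a * (boxNet d L).dist x y)) *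
                  (κ' * Real.exp (a / 8 * (boxNet d L).dist x y) + 2 * CV * cd / K)) *
                  ‖G y - G' y‖ ^ θ := by ring
                _ ≤ A x * (4 * Real.sqrt BD) *
                  (κb * Real.exp (-(5 / 8 * a)) ^ (boxNet d L).dist x y) *
                  ‖G y - G' y‖ ^ θ :=
                    mul_le_mul_of_nonneg_right (mul_le_mul_of_nonneg_left g3 (by positivity)) hp
                _ = A x * cb x y * ‖G y - G' y‖ ^ θ := by rw [hcb]; ring
                _ ≤ A x * (cg x y + cb x y) * ‖G y - G' y‖ ^ θ := by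
                    refine mul_le_mul_of_nonneg_right (mul_le_mul_of_nonneg_left ?_ hAx) hp
                    have := hcg0 x y
                    linarith
  · -- growth
    intro L hL
    obtain ⟨CLa, hCLa, Ha⟩ := Obe2b_add S B L
    obtain ⟨hD0, hhD0, HD⟩ := B.gD L hL
    obtain ⟨hV0, hhV0, HV⟩ := B.gV L hL
    refine ⟨CLa, hCLa, fun ε0 hε0 => ?_⟩
    obtain ⟨h2, hh2, Ha2⟩ := Ha ε0 hε0
    refine ⟨min h2 (min hD0 hV0), lt_min hh2 (lt_min hhD0 hhV0), ?_⟩
    intro h hh hhlt A ε f hA he hm hb hf n hn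
    have b2 : h < h2 := lt_of_lt_of_le hhlt (min_le_left _ _)
    have b3 : h < hD0 := lt_of_lt_of_le hhlt ((min_le_right _ _).trans (min_le_left _ _))
    have b4 : h < hV0 := lt_of_lt_of_le hhlt ((min_le_right _ _).trans (min_le_right _ _))
    set cb : boxS d L → boxS d L → ℝ := fun x y => 4 * Real.sqrt BD * Real.sqrt BV *
      Real.exp (-(5 / 8 * a)) ^ (boxNet d L).dist x y with hcb
    have hcb0 : ∀ x y, 0 ≤ cb x y := fun x y => by positivity
    have hcb1 : ∀ x, ∑ y, cb x y ≤ max 1 (4 * Real.sqrt BD * Real.sqrt BV * cd) := by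
      intro x
      rw [hcb]
      simp only
      rw [← Finset.mul_sum]
      exact (mul_le_mul_of_nonneg_left (hcdL L x) (by positivity)).trans (le_max_right _ _)
    refine ⟨fun y => ∑ x, A x * cb x y, ?_, ?_, ?_⟩
    · intro y
      exact Finset.sum_nonneg fun x _ => mul_nonneg (hA x) (hcb0 x y)
    · rw [Finset.sum_comm, Finset.mul_sum]
      refine Finset.sum_le_sum fun x _ => ?_
      rw [← Finset.mul_sum]
      have := mul_le_mul_of_nonneg_left (hcb1 x) (hA x)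
      linarith
    · intro G G' y hy
      have hp : 0 ≤ ‖G y - G' y‖ ^ θ := Real.rpow_nonneg (norm_nonneg _) _
      have hV : ∀ z, ∫⁻ ω in S.alv h L (G, G') n, V1 k q s (S.tr h L (G, G') ω n) z ^ 2
            ∂(PI (S.mu L)) ≤
          (ENNReal.ofReal (Real.sqrt BV) * V1 k q s (G, G') z + ENNReal.ofReal 0) ^ 2 ∧
        ∫⁻ ω in S.alv h L (G, G') n, V2 k q s (S.tr h L (G, G') ω n) z ^ 2 ∂(PI (S.mu L)) ≤
          (ENNReal.ofReal (Real.sqrt BV) * V2 k q s (G, G') z + ENNReal.ofReal 0) ^ 2 := by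
        intro z
        obtain ⟨v1, v2⟩ := HV h hh b4 (G, G') n hn z
        have hsq : ENNReal.ofReal (Real.sqrt BV) ^ 2 = ENNReal.ofReal BV := by
          rw [← ENNReal.ofReal_pow (Real.sqrt_nonneg _), Real.sq_sqrt (by linarith)]
        rw [ENNReal.ofReal_zero, add_zero, add_zero, mul_pow, mul_pow, hsq]
        exact ⟨v1, v2⟩
      have h3 := Obe2b_pair S (h := h) (L := L) (n := n) hk hk1 hq hs hqs1 ha hθ hBD
        (Real.sqrt_nonneg BV) le_rfl
        (fun x => (B.hcd L x).1) A hA ε he f hm hb hf (G, G') y hV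
        (fun x => HD h hh b3 (G, G') y hy n hn x)
      refine h3.trans (add_le_add ?_ (Ha2 h hh b2 (G, G') ε he n hn))
      have e1 : ENNReal.ofReal ((∑ x, A x * cb x y) * ‖G y - G' y‖ ^ θ) =
          ∑ x, ENNReal.ofReal (A x * cb x y * ‖G y - G' y‖ ^ θ) := by
        rw [Finset.sum_mul, ENNReal.ofReal_sum_of_nonneg]
        intro x _
        exact mul_nonneg (mul_nonneg (hA x) (hcb0 x y)) hp
      show _ ≤ ENNReal.ofReal ((∑ x, A x * cb x y) * ‖G y - G' y‖ ^ θ) * _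
      rw [e1, Finset.sum_mul]
      refine Finset.sum_le_sum fun x _ => ?_
      have hAx := hA x
      rw [mul_zero, zero_mul, ENNReal.ofReal_zero, add_zero, ← mul_assoc,
        ← ENNReal.ofReal_mul (by positivity)]
      refine mul_le_mul_left (ENNReal.ofReal_le_ofReal (le_of_eq ?_)) _
      rw [hcb]
      simp only
      rw [← hexp58 L x y]
      ring

end DynC

end

/-! ### from `Lib_MP_36b788g.FSplit` -/

section

/-!
# The weighted expectation of a difference at one site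

`D = ‖(tr n).1 x - (tr n).2 x‖`, `D0 = ‖G.1 y - G.2 y‖`, `w = wpr(tr n) x`, `r = dist x y`.

PROOF of `split3`. `W = (∫_{alv} w²)^{1/2} ≤ κ' wpr(G) x + 2 CV cd` (`wpr_l2`), `wpr(G) x ≤ e^{(a/8) r} K` (`wpr_shift`, `hw`), so `W ≤ κ' K e^{(a/8) r} + 2 CV cd`.
* `r > Rb`: Cauchy-Schwarz (`ENNReal.lintegral_mul_le_Lp_mul_Lq` with `2, 2`): `∫_{alv} D^θ w ≤ (∫ D^{2θ})^{1/2} W ≤ √BD e^{-(3/4) a r} D0^θ W`, and `κ' K ≤ κ' K e^{(a/8) Rb} ≤ 2 CV cd` gives `W ≤ 4 CV cd e^{(a/8) r}`; `-(3/4) + 1/8 = -5/8`.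
* `r ≤ Rb`: `W ≤ κ' K e^{(a/8) Rb} + 2 CV cd ≤ 4 CV cd`. Let `Z` be the set `{γ D0 < D}`. `∫_{alv \ Z} D^θ w ≤ (γ D0)^θ ∫_{alv} w ≤ γ^θ D0^θ W` (Cauchy-Schwarz, probability measure: `PI (S.mu L)` is a probability measure). `∫_{alv ∩ Z} D^θ w ≤ (∫_{alv ∩ Z} D^{2θ})^{1/2} W` and
  `∫_{alv ∩ Z} D^{2θ} ≤ (∫ D^{4θ})^{1/2} μ(alv ∩ Z)^{1/2} ≤ BD D0^{2θ} p^{1/2}` (`hg4`, `e^{-3ar} ≤ 1`), so the square root is `√BD D0^θ p^{1/4}`.
-/

open MeasureTheory ProbabilityTheory
open scoped ENNReal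

namespace DynG

open Dyn DynC

variable {d L : ℕ}

private theorem FSplit_cs {Ω : Type} [MeasurableSpace Ω] (ν : Measure Ω) {f g : Ω → ℝ≥0∞}
    (hf : Measurable f) (hg : Measurable g) :
    ∫⁻ ω, f ω * g ω ∂ν ≤ (∫⁻ ω, f ω ^ 2 ∂ν) ^ (1 / 2 : ℝ) * (∫⁻ ω, g ω ^ 2 ∂ν) ^ (1 / 2 : ℝ) := by
  have h := ENNReal.lintegral_mul_le_Lp_mul_Lq ν (p := 2) (q := 2)
    Real.HolderConjugate.two_two hf.aemeasurable hg.aemeasurable
  simpa [Pi.mul_apply] using h

private theorem FSplit_int {Ω : Type} [MeasurableSpace Ω] (ν : Measure Ω) (hν : ν Set.univ ≤ 1)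
    {g : Ω → ℝ≥0∞} (hg : Measurable g) :
    ∫⁻ ω, g ω ∂ν ≤ (∫⁻ ω, g ω ^ 2 ∂ν) ^ (1 / 2 : ℝ) := by
  have h := FSplit_cs ν (f := fun _ => 1) measurable_const hg
  simp only [one_mul, one_pow, lintegral_one] at h
  refine h.trans ?_
  calc (ν Set.univ) ^ (1 / 2 : ℝ) * (∫⁻ ω, g ω ^ 2 ∂ν) ^ (1 / 2 : ℝ)
      ≤ 1 * (∫⁻ ω, g ω ^ 2 ∂ν) ^ (1 / 2 : ℝ) :=
        mul_le_mul_left (ENNReal.rpow_le_one hν (by norm_num)) _
    _ = _ := one_mul _

private theorem FSplit_sq {D θ : ℝ} (hD : 0 ≤ D) :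
    ENNReal.ofReal (D ^ θ) ^ 2 = ENNReal.ofReal (D ^ (2 * θ)) := by
  rw [← ENNReal.ofReal_pow (Real.rpow_nonneg hD θ)]
  congr 1
  rw [← Real.rpow_natCast, ← Real.rpow_mul hD]
  congr 1
  push_cast
  ring

private theorem FSplit_half {X Y : ℝ} (hY : 0 ≤ Y) (hX : X = Y ^ 2) :
    ENNReal.ofReal X ^ (1 / 2 : ℝ) = ENNReal.ofReal Y := by
  subst hX
  rw [ENNReal.ofReal_rpow_of_nonneg (by positivity) (by norm_num), ← Real.sqrt_eq_rpow,
    Real.sqrt_sq hY]

theorem split3 {F : Fam d} {β k : ℝ} (S : PSys F β k) (h : ℝ) (n : ℕ)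
    (q s a θ κ' CV K cd BD p γ : ℝ) (Rb : ℕ) (ha : 0 < a) (hθ : 0 < θ) (hκ : 0 ≤ κ')
    (hCV : 0 ≤ CV) (hK : 0 ≤ K) (hBD : 1 ≤ BD) (hp : 0 ≤ p) (hγ : 0 ≤ γ)
    (hcd : ∀ x : boxS d L, ∑ z, Real.exp (-(a / 8)) ^ (boxNet d L).dist x z ≤ cd)
    (hκK : κ' * K * Real.exp (a / 8 * Rb) ≤ 2 * CV * cd)
    (G : (boxS d L → F.V) × (boxS d L → F.V)) (y : boxS d L)
    (hw : wpr (boxNet d L) k q s (Real.exp (-(a / 8))) G.1 G.2 y < ENNReal.ofReal K)
    (hly : ∀ z, ∫⁻ ω in S.alv h L G n, V1 k q s (S.tr h L G ω n) z ^ 2 ∂(PI (S.mu L)) ≤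
        (ENNReal.ofReal κ' * V1 k q s G z + ENNReal.ofReal CV) ^ 2 ∧
      ∫⁻ ω in S.alv h L G n, V2 k q s (S.tr h L G ω n) z ^ 2 ∂(PI (S.mu L)) ≤
        (ENNReal.ofReal κ' * V2 k q s G z + ENNReal.ofReal CV) ^ 2)
    (hg2 : ∀ x, ∫⁻ ω, ENNReal.ofReal (‖(S.tr h L G ω n).1 x - (S.tr h L G ω n).2 x‖ ^ (2 * θ))
        ∂(PI (S.mu L)) ≤
      ENNReal.ofReal (BD * Real.exp (-(3 / 2 * a * (boxNet d L).dist x y)) *
        ‖G.1 y - G.2 y‖ ^ (2 * θ)))
    (hg4 : ∀ x, ∫⁻ ω, ENNReal.ofReal (‖(S.tr h L G ω n).1 x - (S.tr h L G ω n).2 x‖ ^ (4 * θ))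
        ∂(PI (S.mu L)) ≤
      ENNReal.ofReal (BD ^ 2 * Real.exp (-(3 * a * (boxNet d L).dist x y)) *
        ‖G.1 y - G.2 y‖ ^ (4 * θ)))
    (hcore : ∀ x, (boxNet d L).dist x y ≤ Rb →
      PI (S.mu L) (S.alv h L G n ∩ {ω | γ * ‖G.1 y - G.2 y‖ <
        ‖(S.tr h L G ω n).1 x - (S.tr h L G ω n).2 x‖}) ≤ ENNReal.ofReal p) (x : boxS d L) :
    ∫⁻ ω in S.alv h L G n,
        ENNReal.ofReal (‖(S.tr h L G ω n).1 x - (S.tr h L G ω n).2 x‖ ^ θ) *
          wpr (boxNet d L) k q s (Real.exp (-(a / 8))) (S.tr h L G ω n).1 (S.tr h L G ω n).2 x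
        ∂(PI (S.mu L)) ≤
      ENNReal.ofReal (4 * CV * cd * (if (boxNet d L).dist x y ≤ Rb then
        γ ^ θ + Real.sqrt BD * p ^ (1 / 4 : ℝ) else
        Real.sqrt BD * Real.exp (-(5 / 8 * a * (boxNet d L).dist x y))) *
        ‖G.1 y - G.2 y‖ ^ θ) := by
  -- notation
  set μ := PI (S.mu L) with hμ
  set E := S.alv h L G n with hE
  have hEm : MeasurableSet E := measurableSet_alv S h L G n
  have hHm : Measurable fun ω : ℕ → boxS d L → S.Ωp => S.tr h L G ω n :=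
    (measurable_tr S h L n).comp (measurable_const.prodMk measurable_id :
      Measurable fun ω : ℕ → boxS d L → S.Ωp => (G, ω))
  have hDm : Measurable fun ω : ℕ → boxS d L → S.Ωp =>
      ‖(S.tr h L G ω n).1 x - (S.tr h L G ω n).2 x‖ := by
    have h1 : Measurable fun ω : ℕ → boxS d L → S.Ωp => (S.tr h L G ω n).1 x :=
      (measurable_pi_apply x).comp (measurable_fst.comp hHm)
    have h2 : Measurable fun ω : ℕ → boxS d L → S.Ωp => (S.tr h L G ω n).2 x :=
      (measurable_pi_apply x).comp (measurable_snd.comp hHm)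
    exact (h1.sub h2).norm
  have hwm : Measurable fun ω : ℕ → boxS d L → S.Ωp =>
      wpr (boxNet d L) k q s (Real.exp (-(a / 8))) (S.tr h L G ω n).1 (S.tr h L G ω n).2 x :=
    (measurable_wpr k q s (Real.exp (-(a / 8))) x).comp hHm
  set D : (ℕ → boxS d L → S.Ωp) → ℝ := fun ω =>
    ‖(S.tr h L G ω n).1 x - (S.tr h L G ω n).2 x‖ with hD
  set w : (ℕ → boxS d L → S.Ωp) → ℝ≥0∞ := fun ω =>
    wpr (boxNet d L) k q s (Real.exp (-(a / 8))) (S.tr h L G ω n).1 (S.tr h L G ω n).2 x with hwd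
  set D0 : ℝ := ‖G.1 y - G.2 y‖ with hD0
  set r : ℕ := (boxNet d L).dist x y with hr
  have hD0n : 0 ≤ D0 := norm_nonneg _
  have hDn : ∀ ω, 0 ≤ D ω := fun ω => norm_nonneg _
  have hcd0 : 0 ≤ cd := (Finset.sum_nonneg fun z _ => by positivity).trans (hcd x)
  have hBD0 : 0 ≤ BD := zero_le_one.trans hBD
  have hfm : Measurable fun ω => ENNReal.ofReal (D ω ^ θ) :=
    (hDm.pow_const θ).ennreal_ofReal
  have hf2m : Measurable fun ω => ENNReal.ofReal (D ω ^ (2 * θ)) :=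
    (hDm.pow_const (2 * θ)).ennreal_ofReal
  set W : ℝ≥0∞ := (∫⁻ ω in E, w ω ^ 2 ∂μ) ^ (1 / 2 : ℝ) with hW
  have hW1 : W ≤ ENNReal.ofReal (κ' * (Real.exp (a / 8 * r) * K) + 2 * CV * cd) := by
    have h1 := wpr_l2 μ E hEm (fun ω => S.tr h L G ω n) hHm k q s a κ' CV cd hκ hCV hcd G hly x
    have h2 : wpr (boxNet d L) k q s (Real.exp (-(a / 8))) G.1 G.2 x ≤
        ENNReal.ofReal (Real.exp (a / 8 * r) * K) := by
      refine (wpr_shift k q s a ha.le G.1 G.2 x y).trans ?_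
      rw [ENNReal.ofReal_mul (Real.exp_nonneg _)]
      exact mul_le_mul_right hw.le _
    refine h1.trans ?_
    rw [ENNReal.ofReal_add (by positivity) (by positivity), ENNReal.ofReal_mul hκ]
    exact add_le_add (mul_le_mul_right h2 _) le_rfl
  have hprob : μ Set.univ ≤ 1 := prob_le_one
  have hrest : ∀ A : Set (ℕ → boxS d L → S.Ωp), (μ.restrict A) Set.univ ≤ 1 := fun A => by
    rw [Measure.restrict_apply_univ]; exact prob_le_one
  have hsub : ∀ A : Set (ℕ → boxS d L → S.Ωp), A ⊆ E →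
      (∫⁻ ω in A, w ω ^ 2 ∂μ) ^ (1 / 2 : ℝ) ≤ W := fun A hA =>
    ENNReal.rpow_le_rpow (lintegral_mono_set hA) (by norm_num)
  by_cases hrR : r ≤ Rb
  · -- near
    rw [if_pos hrR]
    have hW2 : W ≤ ENNReal.ofReal (4 * CV * cd) := by
      refine hW1.trans (ENNReal.ofReal_le_ofReal ?_)
      have h1 : Real.exp (a / 8 * r) ≤ Real.exp (a / 8 * Rb) := by
        refine Real.exp_le_exp.mpr (mul_le_mul_of_nonneg_left ?_ (by positivity))
        exact_mod_cast hrR
      have h2 : κ' * (Real.exp (a / 8 * r) * K) ≤ κ' * K * Real.exp (a / 8 * Rb) := by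
        have := mul_le_mul_of_nonneg_left h1 (mul_nonneg hκ hK)
        linarith
      linarith
    set Z : Set (ℕ → boxS d L → S.Ωp) := {ω | γ * D0 < D ω} with hZ
    have hZm : MeasurableSet Z := measurableSet_lt measurable_const hDm
    have hμZ : μ (E ∩ Z) ≤ ENNReal.ofReal p := hcore x hrR
    rw [← lintegral_inter_add_diff (fun ω => ENNReal.ofReal (D ω ^ θ) * w ω) E hZm]
    -- the part outside `Z`
    have hout : ∫⁻ ω in E \ Z, ENNReal.ofReal (D ω ^ θ) * w ω ∂μ ≤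
        ENNReal.ofReal (γ ^ θ * D0 ^ θ) * W := by
      have h1 : ∫⁻ ω in E \ Z, ENNReal.ofReal (D ω ^ θ) * w ω ∂μ ≤
          ∫⁻ ω in E \ Z, ENNReal.ofReal (γ ^ θ * D0 ^ θ) * w ω ∂μ := by
        refine setLIntegral_mono' (hEm.diff hZm) fun ω hω => ?_
        refine mul_le_mul_left (ENNReal.ofReal_le_ofReal ?_) _
        have h2 : D ω ≤ γ * D0 := not_lt.mp hω.2
        calc D ω ^ θ ≤ (γ * D0) ^ θ := Real.rpow_le_rpow (hDn ω) h2 hθ.le
          _ = γ ^ θ * D0 ^ θ := Real.mul_rpow hγ hD0n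
      refine h1.trans ?_
      rw [lintegral_const_mul _ hwm]
      refine mul_le_mul_right ?_ _
      exact (FSplit_int (μ.restrict (E \ Z)) (hrest _) hwm).trans (hsub _ Set.diff_subset)
    -- the part in `Z`
    have hin2 : ∫⁻ ω in E ∩ Z, ENNReal.ofReal (D ω ^ (2 * θ)) ∂μ ≤
        ENNReal.ofReal (p ^ (1 / 2 : ℝ)) * ENNReal.ofReal (BD * D0 ^ (2 * θ)) := by
      have h1 := FSplit_cs (μ.restrict (E ∩ Z)) (f := fun _ => 1) measurable_const hf2m
      simp only [one_mul, one_pow, lintegral_one, Measure.restrict_apply_univ] at h1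
      refine h1.trans (mul_le_mul' ?_ ?_)
      · refine (ENNReal.rpow_le_rpow hμZ (by norm_num)).trans ?_
        rw [ENNReal.ofReal_rpow_of_nonneg hp (by norm_num)]
      · have h2 : ∫⁻ ω in E ∩ Z, ENNReal.ofReal (D ω ^ (2 * θ)) ^ 2 ∂μ ≤
            ENNReal.ofReal (BD ^ 2 * D0 ^ (4 * θ)) := by
          calc ∫⁻ ω in E ∩ Z, ENNReal.ofReal (D ω ^ (2 * θ)) ^ 2 ∂μ
              ≤ ∫⁻ ω, ENNReal.ofReal (D ω ^ (2 * θ)) ^ 2 ∂μ := setLIntegral_le_lintegral _ _
            _ = ∫⁻ ω, ENNReal.ofReal (D ω ^ (4 * θ)) ∂μ := by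
                refine lintegral_congr fun ω => ?_
                rw [FSplit_sq (hDn ω)]
                congr 2
                ring
            _ ≤ ENNReal.ofReal (BD ^ 2 * Real.exp (-(3 * a * r)) * D0 ^ (4 * θ)) := hg4 x
            _ ≤ ENNReal.ofReal (BD ^ 2 * D0 ^ (4 * θ)) := by
                refine ENNReal.ofReal_le_ofReal ?_
                have h3 : Real.exp (-(3 * a * r)) ≤ 1 := by
                  rw [Real.exp_le_one_iff]
                  have : (0 : ℝ) ≤ 3 * a * r := by positivity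
                  linarith
                have h4 : BD ^ 2 * Real.exp (-(3 * a * r)) ≤ BD ^ 2 * 1 :=
                  mul_le_mul_of_nonneg_left h3 (by positivity)
                have h5 := mul_le_mul_of_nonneg_right h4 (Real.rpow_nonneg hD0n (4 * θ))
                linarith
        refine (ENNReal.rpow_le_rpow h2 (by norm_num)).trans ?_
        rw [FSplit_half (Y := BD * D0 ^ (2 * θ)) (by positivity) ?_]
        rw [mul_pow, ← Real.rpow_natCast (D0 ^ (2 * θ)) 2, ← Real.rpow_mul hD0n]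
        congr 2
        push_cast
        ring
    have hin : ∫⁻ ω in E ∩ Z, ENNReal.ofReal (D ω ^ θ) * w ω ∂μ ≤
        ENNReal.ofReal (Real.sqrt BD * p ^ (1 / 4 : ℝ) * D0 ^ θ) * W := by
      refine (FSplit_cs (μ.restrict (E ∩ Z)) hfm hwm).trans
        (mul_le_mul' ?_ (hsub _ Set.inter_subset_left))
      have h1 : ∫⁻ ω in E ∩ Z, ENNReal.ofReal (D ω ^ θ) ^ 2 ∂μ ≤
          ENNReal.ofReal (p ^ (1 / 2 : ℝ) * (BD * D0 ^ (2 * θ))) := by
        rw [ENNReal.ofReal_mul (Real.rpow_nonneg hp _)]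
        refine le_trans (le_of_eq ?_) hin2
        exact lintegral_congr fun ω => FSplit_sq (hDn ω)
      refine (ENNReal.rpow_le_rpow h1 (by norm_num)).trans ?_
      rw [FSplit_half (Y := Real.sqrt BD * p ^ (1 / 4 : ℝ) * D0 ^ θ) (by positivity) ?_]
      rw [mul_pow, mul_pow, Real.sq_sqrt hBD0, ← Real.rpow_natCast (D0 ^ θ) 2,
        ← Real.rpow_mul hD0n, ← Real.rpow_natCast (p ^ (1 / 4 : ℝ)) 2, ← Real.rpow_mul hp]
      have e1 : (1 / 4 : ℝ) * ((2 : ℕ) : ℝ) = 1 / 2 := by norm_num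
      have e2 : θ * ((2 : ℕ) : ℝ) = 2 * θ := by push_cast; ring
      rw [e1, e2]
      ring
    calc ∫⁻ ω in E ∩ Z, ENNReal.ofReal (D ω ^ θ) * w ω ∂μ +
          ∫⁻ ω in E \ Z, ENNReal.ofReal (D ω ^ θ) * w ω ∂μ
        ≤ ENNReal.ofReal (Real.sqrt BD * p ^ (1 / 4 : ℝ) * D0 ^ θ) * W +
          ENNReal.ofReal (γ ^ θ * D0 ^ θ) * W := add_le_add hin hout
      _ = ENNReal.ofReal ((γ ^ θ + Real.sqrt BD * p ^ (1 / 4 : ℝ)) * D0 ^ θ) * W := by
          rw [← add_mul, ← ENNReal.ofReal_add (by positivity) (by positivity)]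
          congr 2
          ring
      _ ≤ ENNReal.ofReal ((γ ^ θ + Real.sqrt BD * p ^ (1 / 4 : ℝ)) * D0 ^ θ) *
          ENNReal.ofReal (4 * CV * cd) := mul_le_mul_right hW2 _
      _ = _ := by
          rw [← ENNReal.ofReal_mul (by positivity)]
          congr 1
          ring
  · -- far
    rw [if_neg hrR]
    have hW2 : W ≤ ENNReal.ofReal (4 * CV * cd * Real.exp (a / 8 * r)) := by
      refine hW1.trans (ENNReal.ofReal_le_ofReal ?_)
      have h0 : 1 ≤ Real.exp (a / 8 * Rb) := Real.one_le_exp (by positivity)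
      have h0' : 1 ≤ Real.exp (a / 8 * r) := Real.one_le_exp (by positivity)
      have h1 : κ' * K ≤ 2 * CV * cd := by
        have := mul_le_mul_of_nonneg_left h0 (mul_nonneg hκ hK)
        linarith
      have h2 : κ' * (Real.exp (a / 8 * r) * K) ≤ 2 * CV * cd * Real.exp (a / 8 * r) := by
        have := mul_le_mul_of_nonneg_right h1 (zero_le_one.trans h0')
        linarith
      have h3 : 2 * CV * cd ≤ 2 * CV * cd * Real.exp (a / 8 * r) :=
        le_mul_of_one_le_right (by positivity) h0'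
      linarith
    have hf : (∫⁻ ω in E, ENNReal.ofReal (D ω ^ θ) ^ 2 ∂μ) ^ (1 / 2 : ℝ) ≤
        ENNReal.ofReal (Real.sqrt BD * Real.exp (-(3 / 4 * a * r)) * D0 ^ θ) := by
      have h1 : ∫⁻ ω in E, ENNReal.ofReal (D ω ^ θ) ^ 2 ∂μ ≤
          ENNReal.ofReal (BD * Real.exp (-(3 / 2 * a * r)) * D0 ^ (2 * θ)) := by
        refine (setLIntegral_le_lintegral _ _).trans (le_trans (le_of_eq ?_) (hg2 x))
        exact lintegral_congr fun ω => FSplit_sq (hDn ω)
      refine (ENNReal.rpow_le_rpow h1 (by norm_num)).trans ?_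
      rw [FSplit_half (Y := Real.sqrt BD * Real.exp (-(3 / 4 * a * r)) * D0 ^ θ)
        (by positivity) ?_]
      rw [mul_pow, mul_pow, Real.sq_sqrt hBD0, ← Real.rpow_natCast (D0 ^ θ) 2,
        ← Real.rpow_mul hD0n, ← Real.exp_nat_mul]
      have e2 : θ * ((2 : ℕ) : ℝ) = 2 * θ := by push_cast; ring
      have e1 : ((2 : ℕ) : ℝ) * -(3 / 4 * a * r) = -(3 / 2 * a * r) := by push_cast; ring
      rw [e1, e2]
    calc ∫⁻ ω in E, ENNReal.ofReal (D ω ^ θ) * w ω ∂μ
        ≤ (∫⁻ ω in E, ENNReal.ofReal (D ω ^ θ) ^ 2 ∂μ) ^ (1 / 2 : ℝ) *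
          (∫⁻ ω in E, w ω ^ 2 ∂μ) ^ (1 / 2 : ℝ) := FSplit_cs (μ.restrict E) hfm hwm
      _ ≤ ENNReal.ofReal (Real.sqrt BD * Real.exp (-(3 / 4 * a * r)) * D0 ^ θ) *
          ENNReal.ofReal (4 * CV * cd * Real.exp (a / 8 * r)) := mul_le_mul' hf hW2
      _ = _ := by
          rw [← ENNReal.ofReal_mul (by positivity)]
          congr 1
          have e : Real.exp (-(3 / 4 * a * r)) * Real.exp (a / 8 * r) =
              Real.exp (-(5 / 8 * a * r)) := by
            rw [← Real.exp_add]; congr 1; ring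
          rw [← e]
          ring

end DynG

end
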