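import Pool.Agent.Lib_MP_36b788_n.M02
import Pool.Agent.Lib_MP_36b788_n.M05
import Pool.Agent.Lib_MP_36b788_n.M11

set_option linter.unusedVariables false

/-!
# MP_36b788_pr, stationary limit: merged library part M12

Concatenation of smaller files (each in its own section), only to save build time.
-/

/-! ### from `Lib_MP_36b788c.Obe1b` -/

section

/-!
# From the block inequalities to mixing

`n_B = ⌈TB/h⌉`. (contr): a function of class `A` is mapped by `P^{n_B}` to class `A'` with `ΣA' ≤ ½ΣA`; (grow): for `n ≤ n_B`, `ΣA' ≤ Cg ΣA`; (init): integrals over two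
independent initial configurations.

PROOF of `mix_of_obe`. Given `ρ1, ρ2, R, J, CF, δ`. For a test function `f_i` (`i ∈ I`) and two configurations which differ only at `y`:
`‖f_i G - f_i G'‖ ≤ CF 1{|y| ≤ R} min 1 ‖D‖ ≤ A_R(y) ‖D‖^θ w`, `A_R(y) = CF 1{|y|₁ ≤ R}` (`θ ≤ 1`, `1 ≤ w` is `one_le`), `ΣA_R ≤ CF (2R+1)^d =: B`. Product rule (`Cls_mul`): if `‖f‖,‖g‖ ≤ 1`, `f ∈ Cls A1 ε1`, `g ∈ Cls A2 ε2` then `f g ∈ Cls (A1+A2) (ε1+ε2)`.
`g_j(G) = pathE [f_j,…,f_{M-1}] G`. Let `i_1 < … < i_r` be the elements of `I` below `M` (`r ≤ J`). `g_{i_r} = f_{i_r}·1`; `g_{i_l} = f_{i_l} · P^{n} g_{i_{l+1}}` with `n = i_{l+1} - i_l` (for indices not in `I`, `f = 1`: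
`pathE` over them is `P^n`, `pathE_Pn`). Write `n = m n_B + n'`, `n' < n_B`: `m` times (contr), once (grow): the sum of the weights is multiplied by at most
`Cg 2^{-m} ≤ Cg`. So `ΣA_{i_1} ≤ B (1 + Cg + … + Cg^{J-1}) =: B'`, and `ΣA_0 ≤ Cg 2^{-m_1} B'` with `m_1 = ⌊i_1/n_B⌋ ≥ T0/(TB+h) - 1` (`i_1 h ≥ T0`). (If `I` has no element below `M`, `g_0` is constant `1`, nothing to prove.)
Choose `T0` so that `Ci Cg 2^{-m_1} B' ≤ δ/4`. The number of applications of (contr), (grow) is at most `Q = J (Sm/TB + 2)`; each changes `ε` into `CL ε + ε0`, so the final additive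
constant is `≤ CL^Q Q ε0`; then (init) gives total `≤ Ci ΣA_0 + CL·CL^Q Q ε0 + ε0 + η ≤ δ` for `η = δ/4` (`L0 = max R Ls L1(η)`) and `ε0` small; `h0` = minimum of the two `h0(ε0)`.
-/

open MeasureTheory ProbabilityTheory
open scoped ENNReal

namespace DynC

open Dyn

variable {d : ℕ}

/-- monotone in the additive constant -/
private theorem Obe1b_mono {V : Type} [NormedAddCommGroup V] {L : ℕ} {k q s α θ : ℝ}
    {A : boxS d L → ℝ} {ε ε' : ℝ} (he : ε ≤ ε') {f : (boxS d L → V) → ℂ}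
    (hf : Cls (boxNet d L) k q s α θ A ε f) : Cls (boxNet d L) k q s α θ A ε' f := by
  intro G G' y hy
  refine (hf G G' y hy).trans (add_le_add le_rfl (ENNReal.ofReal_le_ofReal ?_))
  refine mul_le_mul_of_nonneg_right he ?_
  have : 0 ≤ ∑ x, (‖G x‖ + ‖G' x‖) := Finset.sum_nonneg fun x _ => by positivity
  linarith

/-- bounded measurable function with total weight at most `σ` -/
private def Obe1b_Good (F : Fam d) (k q s α θ : ℝ) (L : ℕ) (σ ε : ℝ)
    (f : (boxS d L → F.V) → ℂ) : Prop :=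
  Measurable f ∧ (∀ G, ‖f G‖ ≤ 1) ∧ ∃ A : boxS d L → ℝ, (∀ x, 0 ≤ A x) ∧ ∑ x, A x ≤ σ ∧
    Cls (boxNet d L) k q s α θ A ε f

/-- the block inequality for `n` steps with factor `c` -/
private def Obe1b_Step (F : Fam d) (k q s α θ : ℝ) (L : ℕ) (h CL ε0 c : ℝ) (n : ℕ) : Prop :=
  ∀ (A : boxS d L → ℝ) (ε : ℝ) (f : (boxS d L → F.V) → ℂ),
      (∀ x, 0 ≤ A x) → 0 ≤ ε → Measurable f → (∀ G, ‖f G‖ ≤ 1) →
      Cls (boxNet d L) k q s α θ A ε f →
      ∃ A' : boxS d L → ℝ, (∀ x, 0 ≤ A' x) ∧ ∑ x, A' x ≤ c * ∑ x, A x ∧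
        Cls (boxNet d L) k q s α θ A' (CL * ε + ε0) (F.Pn h L n f)

/-- additive constant after `Q` steps -/
private noncomputable def Obe1b_e (CL ε0 : ℝ) (Q : ℕ) : ℝ := CL ^ Q * Q * ε0

private theorem Obe1b_e_nonneg {CL ε0 : ℝ} (hCL : 1 ≤ CL) (he : 0 < ε0) (Q : ℕ) :
    0 ≤ Obe1b_e CL ε0 Q := by
  unfold Obe1b_e; positivity

private theorem Obe1b_e_succ {CL ε0 : ℝ} (hCL : 1 ≤ CL) (he : 0 < ε0) (Q : ℕ) :
    CL * Obe1b_e CL ε0 Q + ε0 ≤ Obe1b_e CL ε0 (Q + 1) := by
  unfold Obe1b_e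
  have h1 : 1 ≤ CL ^ (Q + 1) := one_le_pow₀ hCL
  have h2 : ε0 ≤ CL ^ (Q + 1) * ε0 := by nlinarith
  push_cast
  have h3 : CL ^ (Q + 1) * ((Q : ℝ) + 1) * ε0 = CL * (CL ^ Q * Q * ε0) + CL ^ (Q + 1) * ε0 := by
    ring
  rw [h3]
  linarith

private theorem Obe1b_e_mono {CL ε0 : ℝ} (hCL : 1 ≤ CL) (he : 0 < ε0) {Q Q' : ℕ} (h : Q ≤ Q') :
    Obe1b_e CL ε0 Q ≤ Obe1b_e CL ε0 Q' := by
  unfold Obe1b_e
  have h1 : CL ^ Q ≤ CL ^ Q' := pow_le_pow_right₀ hCL h
  have h2 : (Q : ℝ) ≤ Q' := by exact_mod_cast h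
  have h3 : 0 ≤ CL ^ Q := by positivity
  have h4 : (0 : ℝ) ≤ Q := by positivity
  gcongr

private theorem Obe1b_Good_mono {F : Fam d} {k q s α θ : ℝ} {L : ℕ} {σ ε σ' ε' : ℝ}
    (hσ : σ ≤ σ') (hε : ε ≤ ε') {f : (boxS d L → F.V) → ℂ}
    (hf : Obe1b_Good F k q s α θ L σ ε f) : Obe1b_Good F k q s α θ L σ' ε' f := by
  obtain ⟨h1, h2, A, h3, h4, h5⟩ := hf
  exact ⟨h1, h2, A, h3, h4.trans hσ, Obe1b_mono hε h5⟩

private theorem Obe1b_Good_step {F : Fam d} {k q s α θ : ℝ} {L : ℕ} {h CL ε0 c : ℝ} {n : ℕ}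
    (hS : Obe1b_Step F k q s α θ L h CL ε0 c n) (hc : 0 ≤ c) {σ ε : ℝ} (hε : 0 ≤ ε)
    {f : (boxS d L → F.V) → ℂ} (hf : Obe1b_Good F k q s α θ L σ ε f) :
    Obe1b_Good F k q s α θ L (c * σ) (CL * ε + ε0) (F.Pn h L n f) := by
  obtain ⟨h1, h2, A, h3, h4, h5⟩ := hf
  obtain ⟨A', h6, h7, h8⟩ := hS A ε f h3 hε h1 h2 h5
  obtain ⟨h9, h10⟩ := Fam_Pn_facts F h L n f h1 h2
  exact ⟨h9, h10, A', h6, h7.trans (mul_le_mul_of_nonneg_left h4 hc), h8⟩

private theorem Obe1b_Pn_zero (F : Fam d) (h : ℝ) (L : ℕ) (f : (boxS d L → F.V) → ℂ) :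
    F.Pn h L 0 f = f := by
  funext G
  unfold Fam.Pn
  have : IsProbabilityMeasure (PI (F.mu L)) := by unfold PI; infer_instance
  simp [traj]

/-- `m` contractions -/
private theorem Obe1b_contr {F : Fam d} {k q s α θ : ℝ} {L : ℕ} {h CL ε0 : ℝ} {nB : ℕ}
    (hCL : 1 ≤ CL) (he : 0 < ε0)
    (hS : Obe1b_Step F k q s α θ L h CL ε0 (1 / 2) nB) {σ : ℝ} :
    ∀ (m Q : ℕ) (f : (boxS d L → F.V) → ℂ),
      Obe1b_Good F k q s α θ L σ (Obe1b_e CL ε0 Q) f →
      Obe1b_Good F k q s α θ L ((1 / 2) ^ m * σ) (Obe1b_e CL ε0 (Q + m)) (F.Pn h L (m * nB) f) := by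
  intro m
  induction m with
  | zero =>
    intro Q f hf
    have h0 : F.Pn h L (0 * nB) f = f := by rw [Nat.zero_mul]; exact Obe1b_Pn_zero F h L f
    rw [h0]
    simpa using hf
  | succ m ih =>
    intro Q f hf
    have h1 := ih Q f hf
    have h2 := Obe1b_Good_step hS (by norm_num) (Obe1b_e_nonneg hCL he _) h1
    have h3 : F.Pn h L ((m + 1) * nB) f = F.Pn h L nB (F.Pn h L (m * nB) f) := by
      rw [show (m + 1) * nB = nB + m * nB by ring]
      exact Fam_Pn_add F h L nB (m * nB) f hf.1 hf.2.1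
    rw [h3]
    refine Obe1b_Good_mono (le_of_eq (by ring)) ?_ h2
    exact Obe1b_e_succ hCL he (Q + m)

/-- general number of steps -/
private theorem Obe1b_gen {F : Fam d} {k q s α θ : ℝ} {L : ℕ} {h CL ε0 Cg : ℝ} {nB : ℕ}
    (hnB : 0 < nB) (hCL : 1 ≤ CL) (he : 0 < ε0) (hCg : 1 ≤ Cg)
    (hS : Obe1b_Step F k q s α θ L h CL ε0 (1 / 2) nB)
    (hG : ∀ n, n ≤ nB → Obe1b_Step F k q s α θ L h CL ε0 Cg n) {σ : ℝ}
    (n Q : ℕ) (f : (boxS d L → F.V) → ℂ)
    (hf : Obe1b_Good F k q s α θ L σ (Obe1b_e CL ε0 Q) f) :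
    Obe1b_Good F k q s α θ L (Cg * ((1 / 2) ^ (n / nB) * σ)) (Obe1b_e CL ε0 (Q + n / nB + 1))
      (F.Pn h L n f) := by
  have h1 := Obe1b_contr hCL he hS (n / nB) Q f hf
  have h2 : n % nB ≤ nB := (Nat.mod_lt n hnB).le
  have h3 := Obe1b_Good_step (hG _ h2) (by linarith) (Obe1b_e_nonneg hCL he _) h1
  have h4 : F.Pn h L n f = F.Pn h L (n % nB) (F.Pn h L (n / nB * nB) f) := by
    rw [← Fam_Pn_add F h L (n % nB) (n / nB * nB) f hf.1 hf.2.1]
    congr 1
    rw [Nat.mul_comm]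
    exact (Nat.mod_add_div n nB).symm
  rw [h4]
  refine Obe1b_Good_mono le_rfl ?_ h3
  exact Obe1b_e_succ hCL he (Q + n / nB)

/-- sums of weights after `r` test functions -/
private noncomputable def Obe1b_sig (B Cg : ℝ) : ℕ → ℝ
  | 0 => 0
  | r + 1 => B + Cg * Obe1b_sig B Cg r

private theorem Obe1b_sig_nonneg {B Cg : ℝ} (hB : 0 ≤ B) (hCg : 1 ≤ Cg) (r : ℕ) :
    0 ≤ Obe1b_sig B Cg r := by
  induction r with
  | zero => simp [Obe1b_sig]
  | succ r ih => unfold Obe1b_sig; nlinarith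

private theorem Obe1b_sig_mono {B Cg : ℝ} (hB : 0 ≤ B) (hCg : 1 ≤ Cg) :
    Monotone (Obe1b_sig B Cg) := by
  refine monotone_nat_of_le_succ fun r => ?_
  have := Obe1b_sig_nonneg hB hCg r
  show Obe1b_sig B Cg r ≤ B + Cg * Obe1b_sig B Cg r
  nlinarith

/-- product with a test function -/
private theorem Obe1b_mul {F : Fam d} {k q s α θ : ℝ} {L : ℕ} {σ1 σ2 ε : ℝ}
    (hε : 0 ≤ ε) {f g : (boxS d L → F.V) → ℂ}
    (hf : Obe1b_Good F k q s α θ L σ1 0 f) (hg : Obe1b_Good F k q s α θ L σ2 ε g) :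
    Obe1b_Good F k q s α θ L (σ1 + σ2) ε (fun G => f G * g G) := by
  obtain ⟨h1, h2, A, h3, h4, h5⟩ := hf
  obtain ⟨g1, g2, A', g3, g4, g5⟩ := hg
  refine ⟨h1.mul g1, fun G => ?_, A + A', fun x => add_nonneg (h3 x) (g3 x), ?_, ?_⟩
  · rw [norm_mul]
    exact mul_le_one₀ (h2 G) (norm_nonneg _) (g2 G)
  · simp only [Pi.add_apply, Finset.sum_add_distrib]
    linarith
  · have := Cls_mul k q s α θ A A' h3 g3 0 ε le_rfl hε f g h2 g2 h5 g5
    rwa [zero_add] at this

/-- the backward recursion -/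
private theorem Obe1b_path {F : Fam d} {k q s α θ : ℝ} {L : ℕ} {h CL ε0 Cg B : ℝ} {nB : ℕ}
    (hnB : 0 < nB) (hCL : 1 ≤ CL) (he : 0 < ε0) (hCg : 1 ≤ Cg) (hB : 0 ≤ B)
    (hS : Obe1b_Step F k q s α θ L h CL ε0 (1 / 2) nB)
    (hG : ∀ n, n ≤ nB → Obe1b_Step F k q s α θ L h CL ε0 Cg n) :
    ∀ (M : ℕ) (f : ℕ → (boxS d L → F.V) → ℂ) (p : ℕ → ℕ),
      (∀ i, Measurable (f i)) → (∀ i G, ‖f i G‖ ≤ 1) →
      (∀ i, p i = 0 ∧ (f i = fun _ => 1) ∨
        p i = 1 ∧ Obe1b_Good F k q s α θ L B 0 (f i)) →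
      ∃ (n : ℕ) (g : (boxS d L → F.V) → ℂ), n ≤ M ∧
        F.pathE h L ((List.range M).map f) = F.Pn h L n g ∧
        Obe1b_Good F k q s α θ L (Obe1b_sig B Cg (∑ i ∈ Finset.range M, p i))
          (Obe1b_e CL ε0 ((∑ i ∈ Finset.range M, p i) + (M - n) / nB)) g ∧
        (p n = 1 ∨ g = fun _ => 1) := by
  intro M
  induction M with
  | zero =>
    intro f p hm hb hp
    refine ⟨0, fun _ => 1, le_rfl, ?_, ?_, Or.inr rfl⟩
    · rw [Obe1b_Pn_zero]
      rfl
    · refine ⟨measurable_const, fun G => by simp, fun _ => 0, fun _ => le_rfl, ?_, ?_⟩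
      · simp [Obe1b_sig]
      · intro G G' y hy
        simp
  | succ M ih =>
    intro f p hm hb hp
    obtain ⟨n, g, hn, hE, hgd, hpn⟩ := ih (fun i => f (i + 1)) (fun i => p (i + 1))
      (fun i => hm _) (fun i => hb _) (fun i => hp _)
    have hsum : ∑ i ∈ Finset.range (M + 1), p i = (∑ i ∈ Finset.range M, p (i + 1)) + p 0 :=
      Finset.sum_range_succ' _ _
    have hlist : (List.range (M + 1)).map f = f 0 :: (List.range M).map (fun i => f (i + 1)) := by
      rw [List.range_succ_eq_map, List.map_cons, List.map_map]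
      rfl
    have hfm : ∀ f' ∈ (List.range M).map (fun i => f (i + 1)), Measurable f' := by
      intro f' hf'
      obtain ⟨i, _, rfl⟩ := List.mem_map.1 hf'
      exact hm _
    have hfb : ∀ f' ∈ (List.range M).map (fun i => f (i + 1)), ∀ G, ‖f' G‖ ≤ 1 := by
      intro f' hf'
      obtain ⟨i, _, rfl⟩ := List.mem_map.1 hf'
      exact hb _
    -- one step
    have hone : F.pathE h L ((fun _ => 1) :: (List.range M).map (fun i => f (i + 1))) =
        F.Pn h L (n + 1) g := by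
      have h1 := pathE_Pn F h L 1 ((List.range M).map (fun i => f (i + 1))) hfm hfb
      rw [show List.replicate 1 (fun _ : boxS d L → F.V => (1 : ℂ)) ++
        (List.range M).map (fun i => f (i + 1)) =
        (fun _ => 1) :: (List.range M).map (fun i => f (i + 1)) from rfl] at h1
      rw [h1, hE, Nat.add_comm n 1]
      exact (Fam_Pn_add F h L 1 n g hgd.1 hgd.2.1).symm
    have hcons : F.pathE h L ((List.range (M + 1)).map f) =
        fun G => f 0 G * F.Pn h L (n + 1) g G := by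
      rw [hlist, ← hone]
      funext G
      show f 0 G * _ = f 0 G * (1 * _)
      rw [one_mul]
    rcases hp 0 with ⟨hp0, hf0⟩ | ⟨hp0, hf0⟩
    · refine ⟨n + 1, g, by omega, ?_, ?_, hpn⟩
      · rw [hcons, hf0]
        funext G
        exact one_mul _
      · rw [hsum, hp0, Nat.add_zero, Nat.add_sub_add_right]
        exact hgd
    · refine ⟨0, fun G => f 0 G * F.Pn h L (n + 1) g G, Nat.zero_le _, ?_, ?_, Or.inl hp0⟩
      · rw [Obe1b_Pn_zero, hcons]
      · have h1 := Obe1b_gen hnB hCL he hCg hS hG (n + 1) _ g hgd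
        have h2 := Obe1b_mul (Obe1b_e_nonneg hCL he _) hf0 h1
        rw [hsum, hp0]
        refine Obe1b_Good_mono ?_ ?_ h2
        · show _ ≤ B + Cg * Obe1b_sig B Cg (∑ i ∈ Finset.range M, p (i + 1))
          have h3 := Obe1b_sig_nonneg hB hCg (∑ i ∈ Finset.range M, p (i + 1))
          have h4 : (1 / 2 : ℝ) ^ ((n + 1) / nB) ≤ 1 :=
            pow_le_one₀ (by norm_num) (by norm_num)
          have h5 : (1 / 2 : ℝ) ^ ((n + 1) / nB) *
              Obe1b_sig B Cg (∑ i ∈ Finset.range M, p (i + 1)) ≤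
              Obe1b_sig B Cg (∑ i ∈ Finset.range M, p (i + 1)) :=
            mul_le_of_le_one_left h3 h4
          have h6 := mul_le_mul_of_nonneg_left h5 (by linarith : (0 : ℝ) ≤ Cg)
          linarith
        · refine Obe1b_e_mono hCL he ?_
          have h3 : (M - n) / nB + (n + 1) / nB ≤ (M + 1 - 0) / nB := by
            have := @Nat.div_add_div_le_add_div (M - n) (n + 1) nB
            rw [show M - n + (n + 1) = M + 1 - 0 by omega] at this
            exact this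
          omega

private theorem Obe1b_rpow {t θ : ℝ} (ht : 0 ≤ t) (hθ : 0 < θ) (hθ1 : θ ≤ 1) :
    min 1 t ≤ t ^ θ := by
  rcases le_total t 1 with h | h
  · refine (min_le_right _ _).trans ?_
    rcases ht.eq_or_lt with h0 | h0
    · rw [← h0]; exact Real.rpow_nonneg le_rfl _
    · calc t = t ^ (1 : ℝ) := (Real.rpow_one t).symm
        _ ≤ t ^ θ := Real.rpow_le_rpow_of_exponent_ge h0 h hθ1
  · exact (min_le_left _ _).trans (Real.one_le_rpow h hθ.le)

/-- test functions -/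
private theorem Obe1b_test {F : Fam d} {k q s α θ : ℝ} {L R : ℕ} {CF : ℝ} (hCF : 0 ≤ CF)
    (hθ : 0 < θ) (hθ1 : θ ≤ 1)
    (hone : ∀ (G G' : boxS d L → F.V) (x : boxS d L), 1 ≤ wpr (boxNet d L) k q s α G G' x)
    (f : (boxS d L → F.V) → ℂ) (hm : Measurable f) (hb : ∀ G, ‖f G‖ ≤ 1)
    (hf : ∀ G G' : boxS d L → F.V, ‖f G - f G'‖ ≤
        CF * ∑ x : boxS d L, (if l1 (x : Fin d → ℤ) 0 ≤ R then min 1 ‖G x - G' x‖ else 0)) :
    Obe1b_Good F k q s α θ L (CF * (boxS d R).card) 0 f := by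
  classical
  refine ⟨hm, hb, fun y => if l1 (y : Fin d → ℤ) 0 ≤ R then CF else 0, fun x => ?_, ?_, ?_⟩
  · dsimp only
    split_ifs
    · exact hCF
    · exact le_rfl
  · rw [← Finset.sum_filter, Finset.sum_const, nsmul_eq_mul, mul_comm]
    refine mul_le_mul_of_nonneg_left ?_ hCF
    have h1 : (Finset.univ.filter (fun y : boxS d L => l1 (y : Fin d → ℤ) 0 ≤ R)).card ≤
        (boxS d R).card := by
      refine Finset.card_le_card_of_injOn (fun y => (y : Fin d → ℤ)) ?_ ?_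
      · intro y hy
        have hy' : l1 (y : Fin d → ℤ) 0 ≤ R := by simpa using hy
        show (y : Fin d → ℤ) ∈ (boxS d R : Set _)
        rw [Finset.mem_coe]
        unfold boxS
        rw [Finset.mem_Icc]
        have h2 : ∀ i, ((y : Fin d → ℤ) i).natAbs ≤ R := by
          intro i
          unfold l1 at hy'
          have := Finset.single_le_sum
            (f := fun i => ((y : Fin d → ℤ) i - (0 : Fin d → ℤ) i).natAbs)
            (fun _ _ => Nat.zero_le _) (Finset.mem_univ i)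
          simp only [Pi.zero_apply, sub_zero] at this hy'
          omega
        constructor
        · intro i
          have := h2 i
          show -(R : ℤ) ≤ (y : Fin d → ℤ) i
          omega
        · intro i
          have := h2 i
          show (y : Fin d → ℤ) i ≤ (R : ℤ)
          omega
      · intro a _ b _ hab
        exact Subtype.ext hab
    exact_mod_cast h1
  · intro G G' y hy
    have h1 : ∑ x : boxS d L, (if l1 (x : Fin d → ℤ) 0 ≤ R then min 1 ‖G x - G' x‖ else 0) =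
        (if l1 (y : Fin d → ℤ) 0 ≤ R then min 1 ‖G y - G' y‖ else 0) := by
      refine Finset.sum_eq_single y (fun x _ hx => ?_) (fun h => absurd (Finset.mem_univ y) h)
      rw [hy x hx, sub_self, norm_zero]
      simp
    have h2 : ‖f G - f G'‖ ≤
        (if l1 (y : Fin d → ℤ) 0 ≤ R then CF else 0) * ‖G y - G' y‖ ^ θ := by
      refine (hf G G').trans ?_
      rw [h1]
      split_ifs
      · exact mul_le_mul_of_nonneg_left (Obe1b_rpow (norm_nonneg _) hθ hθ1) hCF
      · simp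
    calc ENNReal.ofReal ‖f G - f G'‖
        ≤ ENNReal.ofReal ((if l1 (y : Fin d → ℤ) 0 ≤ R then CF else 0) * ‖G y - G' y‖ ^ θ) :=
          ENNReal.ofReal_le_ofReal h2
      _ ≤ ENNReal.ofReal ((if l1 (y : Fin d → ℤ) 0 ≤ R then CF else 0) * ‖G y - G' y‖ ^ θ) *
          wpr (boxNet d L) k q s α G G' y := le_mul_of_one_le_right' (hone G G' y)
      _ ≤ _ := le_self_add

theorem mix_of_obe (F : Fam d) (k q s α θ TB Cg : ℝ) (Ls : ℕ)
    (H : Obe F k q s α θ TB Cg Ls) : F.Mix := by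
  classical
  intro ρ1 ρ2 _ _ hρ1 hρ2 hi1 hi2 R J CF δ hCF hδ
  obtain ⟨Ci, hCi, hinit⟩ := H.init ρ1 ρ2 hρ1 hρ2 hi1 hi2
  obtain ⟨L1, hL1⟩ := hinit (δ / 4) (by positivity)
  set B : ℝ := CF * (boxS d R).card with hBdef
  have hB : 0 ≤ B := by positivity
  have hCg := H.hCg
  have hTB := H.hTB
  set S : ℝ := Obe1b_sig B Cg J with hSdef
  have hS0 : 0 ≤ S := Obe1b_sig_nonneg hB hCg J
  -- number of contractions
  obtain ⟨m, hm⟩ : ∃ m : ℕ, (1 / 2 : ℝ) ^ m * (Ci * Cg * S) ≤ δ / 4 := by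
    have h1 : Filter.Tendsto (fun m : ℕ => (1 / 2 : ℝ) ^ m * (Ci * Cg * S)) Filter.atTop
        (nhds (0 * (Ci * Cg * S))) :=
      (tendsto_pow_atTop_nhds_zero_of_lt_one (by norm_num) (by norm_num)).mul_const _
    rw [zero_mul] at h1
    have h2 := (h1.eventually (gt_mem_nhds (show (0 : ℝ) < δ / 4 by positivity))).exists
    obtain ⟨m, hm⟩ := h2
    exact ⟨m, le_of_lt hm⟩
  refine ⟨m * (TB + 1), max R (max Ls L1), by positivity, le_max_left _ _, ?_⟩
  intro L hL Sm hSm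
  have hLs : Ls ≤ L := (le_max_left _ _).trans ((le_max_right _ _).trans hL)
  have hLL1 : L1 ≤ L := (le_max_right _ _).trans ((le_max_right _ _).trans hL)
  obtain ⟨Cc, hCc, hcontr⟩ := H.contr L hLs
  obtain ⟨Cr, hCr, hgrow⟩ := H.grow L hLs
  obtain ⟨CI, hCI, hI⟩ := hL1 L hLL1 Sm hSm
  set CL : ℝ := max Cc Cr with hCLdef
  have hCL : 1 ≤ CL := hCc.trans (le_max_left _ _)
  set Qm : ℕ := J + ⌈Sm / TB⌉₊ + 1 with hQm
  set ε0 : ℝ := δ / (4 * (CI * (CL ^ Qm * (Qm + 1)))) with hε0def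
  have hCIpos : 0 < CI := by linarith
  have hCLpos : 0 < CL := by linarith
  have hden : 0 < 4 * (CI * (CL ^ Qm * ((Qm : ℝ) + 1))) := by positivity
  have hε0 : 0 < ε0 := by positivity
  have hfin : CI * Obe1b_e CL ε0 Qm ≤ δ / 4 := by
    unfold Obe1b_e
    have h1 : CI * (CL ^ Qm * (Qm : ℝ) * ε0) ≤ CI * (CL ^ Qm * ((Qm : ℝ) + 1)) * ε0 := by
      have h2 : CL ^ Qm * (Qm : ℝ) ≤ CL ^ Qm * ((Qm : ℝ) + 1) :=
        mul_le_mul_of_nonneg_left (by linarith) (by positivity)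
      calc CI * (CL ^ Qm * (Qm : ℝ) * ε0) = CI * (CL ^ Qm * (Qm : ℝ)) * ε0 := by ring
        _ ≤ CI * (CL ^ Qm * ((Qm : ℝ) + 1)) * ε0 :=
          mul_le_mul_of_nonneg_right (mul_le_mul_of_nonneg_left h2 hCIpos.le) hε0.le
    refine h1.trans (le_of_eq ?_)
    rw [hε0def]
    field_simp
  obtain ⟨hc, hc0, hcc⟩ := hcontr ε0 hε0
  obtain ⟨hg, hg0, hgg⟩ := hgrow ε0 hε0
  obtain ⟨hi, hi0, hii⟩ := hI (δ / 4) (by positivity)
  refine ⟨min (min hc hg) (min hi 1), by positivity, ?_⟩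
  intro h hh0 hh n1 n2 M hn1 hn2 hM f I hIc hfm hfb hf1 hfI
  have hhc : h < hc := hh.trans_le ((min_le_left _ _).trans (min_le_left _ _))
  have hhg : h < hg := hh.trans_le ((min_le_left _ _).trans (min_le_right _ _))
  have hhi : h < hi := hh.trans_le ((min_le_right _ _).trans (min_le_left _ _))
  have hh1 : h < 1 := hh.trans_le ((min_le_right _ _).trans (min_le_right _ _))
  set nB : ℕ := ⌈TB / h⌉₊ with hnBdef
  have hnB : 0 < nB := Nat.ceil_pos.2 (by positivity)
  have hnBlo : TB / h ≤ nB := Nat.le_ceil _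
  have hnBhi : (nB : ℝ) < TB / h + 1 := Nat.ceil_lt_add_one (by positivity)
  -- steps
  have hStepC : Obe1b_Step F k q s α θ L h CL ε0 (1 / 2) nB := by
    intro A ε g hA hε hgm hgb hg
    obtain ⟨A', h1, h2, h3⟩ := hcc h hh0 hhc A ε g hA hε hgm hgb hg
    refine ⟨A', h1, h2, Obe1b_mono ?_ h3⟩
    have := mul_le_mul_of_nonneg_right (le_max_left Cc Cr) hε
    linarith
  have hStepG : ∀ n, n ≤ nB → Obe1b_Step F k q s α θ L h CL ε0 Cg n := by
    intro n hn A ε g hA hε hgm hgb hg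
    obtain ⟨A', h1, h2, h3⟩ := hgg h hh0 hhg A ε g hA hε hgm hgb hg n hn
    refine ⟨A', h1, h2, Obe1b_mono ?_ h3⟩
    have := mul_le_mul_of_nonneg_right (le_max_right Cc Cr) hε
    linarith
  -- the path
  obtain ⟨n, g, hnM, hE, hgd, hpn⟩ := Obe1b_path hnB hCL hε0 hCg hB hStepC hStepG M f
    (fun i => if i ∈ I then 1 else 0) hfm hfb (by
      intro i
      by_cases hi : i ∈ I
      · right
        refine ⟨by simp [hi], ?_⟩
        exact Obe1b_test hCF H.hθ H.hθ1 (H.one_le L) (f i) (hfm i) (hfb i) (hfI i hi).2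
      · left
        exact ⟨by simp [hi], hf1 i hi⟩)
  have hr : (∑ i ∈ Finset.range M, if i ∈ I then 1 else 0) ≤ J := by
    rw [← Finset.sum_filter, Finset.sum_const, smul_eq_mul, mul_one]
    refine (Finset.card_le_card ?_).trans hIc
    intro i hi
    exact (Finset.mem_filter.1 hi).2
  rcases hpn with hpn | hpn
  · -- `n ∈ I`
    have hnI : n ∈ I := by
      by_contra hcon
      simp [hcon] at hpn
    have hT := (hfI n hnI).1
    have h1 := Obe1b_gen hnB hCL hε0 hCg hStepC hStepG n _ g hgd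
    rw [← hE] at h1
    have hnm : m ≤ n / nB := by
      rw [Nat.le_div_iff_mul_le hnB]
      have h2 : (nB : ℝ) * h ≤ TB + 1 := by
        have := mul_lt_mul_of_pos_right hnBhi hh0
        rw [add_mul, div_mul_cancel₀ _ hh0.ne'] at this
        linarith
      have h3 : (m : ℝ) * nB * h ≤ n * h := by
        calc (m : ℝ) * nB * h = m * (nB * h) := by ring
          _ ≤ m * (TB + 1) := mul_le_mul_of_nonneg_left h2 (by positivity)
          _ ≤ n * h := hT
      have h4 : (m : ℝ) * nB ≤ n := le_of_mul_le_mul_right h3 hh0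
      exact_mod_cast h4
    have hMB : M / nB ≤ ⌈Sm / TB⌉₊ := by
      have h2 : ((M / nB : ℕ) : ℝ) ≤ Sm / TB := by
        refine Nat.cast_div_le.trans ?_
        rw [div_le_div_iff₀ (by exact_mod_cast hnB) hTB]
        have h3 : TB ≤ nB * h := by
          rw [div_le_iff₀ hh0] at hnBlo
          exact hnBlo
        calc (M : ℝ) * TB ≤ M * (nB * h) := mul_le_mul_of_nonneg_left h3 (by positivity)
          _ = (M * h) * nB := by ring
          _ ≤ Sm * nB := mul_le_mul_of_nonneg_right hM (by positivity)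
      have h4 := h2.trans (Nat.le_ceil (Sm / TB))
      exact_mod_cast h4
    have hQ : (∑ i ∈ Finset.range M, if i ∈ I then 1 else 0) + (M - n) / nB + n / nB + 1 ≤
        Qm := by
      have h2 : (M - n) / nB + n / nB ≤ M / nB := by
        have := @Nat.div_add_div_le_add_div (M - n) n nB
        rwa [show M - n + n = M by omega] at this
      omega
    have h2 : Obe1b_Good F k q s α θ L (Cg * ((1 / 2) ^ m * S)) (Obe1b_e CL ε0 Qm)
        (F.pathE h L ((List.range M).map f)) := by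
      refine Obe1b_Good_mono ?_ (Obe1b_e_mono hCL hε0 hQ) h1
      refine mul_le_mul_of_nonneg_left ?_ (by linarith only [hCg, hh0, hh1])
      have h3 : (1 / 2 : ℝ) ^ (n / nB) ≤ (1 / 2) ^ m :=
        pow_le_pow_of_le_one (by norm_num) (by norm_num) hnm
      have h4 := Obe1b_sig_mono hB hCg hr
      have h5 := Obe1b_sig_nonneg hB hCg (∑ i ∈ Finset.range M, if i ∈ I then 1 else 0)
      exact mul_le_mul h3 h4 h5 (by positivity)
    obtain ⟨h3, h4, A, h5, h6, h7⟩ := h2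
    have h8 := hii h hh0 hhi n1 n2 hn1 hn2 A _ _ h5 (Obe1b_e_nonneg hCL hε0 _) h3 h4 h7
    refine h8.trans ?_
    have h9 : Ci * ∑ x, A x ≤ δ / 4 := by
      calc Ci * ∑ x, A x ≤ Ci * (Cg * ((1 / 2) ^ m * S)) := mul_le_mul_of_nonneg_left h6 hCi
        _ = (1 / 2 : ℝ) ^ m * (Ci * Cg * S) := by ring
        _ ≤ δ / 4 := hm
    linarith only [hfin, h9]
  · -- constant
    have h1 : F.pathE h L ((List.range M).map f) = fun _ => 1 := by
      rw [hE, hpn]
      funext G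
      unfold Fam.Pn
      have : IsProbabilityMeasure (PI (F.mu L)) := by unfold PI; infer_instance
      simp
    rw [h1]
    simp
    exact hδ.le

end DynC

end

/-! ### from `Lib_MP_36b788c.Obe3b` -/

section

/-!
# Initial laws

PROOF.
* `V_start`: i.i.d. law `ρ` without atom at `0`: choose `δ0 ∈ (0,1]` with `ρ(‖v‖ ≥ δ0) ≥ 1/2`. The event `E_L`: for some site `x` of the box there is no site `z` with `‖G z‖ ≥ δ0` within distance `L`. There are at least
  `r + 1` sites within distance `r ≤ L` of `x` (move in one coordinate direction), so `P(no such site within r) ≤ 2^{-(r+1)}` and `P(E_L) ≤ |box| 2^{-L} → 0`. Off `E_L` let `r` = distance from `x` to the nearest such site `z`: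
  `V1(x)² ≤ (k^{r/4} fpot(δ0) SSt(z)^{-q})^{-2s} = k^{-rs/2} fpot(δ0)^{-2s} SSt(z)^{2qs}`. Sum over `z`: `E[V1(x)²; E_L^c] ≤ Σ_z k^{-s|x-z|/2} fpot(δ0)^{-2s} E[1{nearest at distance |x-z|} SSt(z)^{2qs}]`, Cauchy-Schwarz:
  `≤ Σ_z k^{-s|x-z|/2} C 2^{-|x-z|/2} (E SSt(z)^{4qs})^{1/2}`, `E SSt ≤ 1 + 3^d E‖v‖`, `4qs ≤ 1`; converges uniformly in `L` if `k^{-s/2} 2^{-1/2} ≤ 9/10`... (hypothesis `hks : k^{-s} ≤ 11/10`, and the number of `z` at distance `r` is at most `(2r+1)^d`).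
* `V_all`: pair system started at `(G, 0)`: the second component stays `0` on good noise (`q2`). `m_j = (E[V1(x)²(tr (j n_B)); alv, E_L^c])^{1/2} ≤ κ' m_{j-1} + CV` (`ly`, Minkowski in the initial configuration, Markov property by `lintegral_glue`), `κ' ≤ 1/2`, then `gV` for the remainder.
  So `E[V1(x)²(tr n); alv, E_L^c] ≤ CI` uniformly in `n, L, h, x`.
* `mom` gives `E[‖G_n x‖; alv] ≤ CM (1 + E Yl) ≤ C`.
* `init_of_blk`: `G = G_{n1}`, `G' = G'_{n2}` independent (two independent copies of the system started from `(G_0,0)`, `(G'_0,0)`). `tele` and `Cls`: `‖f G - f G'‖ ≤ Σ 4A(x) D(x)^θ w(x) + …`. `E[D(x)^θ w(x); good] ≤ (E D^{2θ})^{1/2} (E w²)^{1/2}`,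
  `D^{2θ} ≤ 1 + ‖G x‖ + ‖G' x‖`. For the joint `S`: `SSt(u+u') ≤ SSt(u) SSt(u')`, so with `z* = z*(G)` the maximizer for `G` alone, `V1(G,G')(x) ≤ V1(G,0)(x) SSt(u')(z*)^{qs}` and by independence `E[V1(G,G')(x)²; good] ≤ E[V1(G,0)(x)²; good] sup_z E[SSt(u')(z)^{2qs}; good] ≤ C`.
  Minkowski over `z` in `wpr`. The exceptional events: `E_L` (probability `≤ η/8` for `L ≥ L1`), `alv^c` (`exit`, `E Σ‖G_0‖ < ∞`), on which `‖f G - f G'‖ ≤ 2`. Additive term: `sum`.
-/

open MeasureTheory ProbabilityTheory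
open scoped ENNReal

namespace DynC

open Dyn

variable {d : ℕ}

/-! ### Measurability -/

private theorem Obe3b_gX : Measurable gX := by
  unfold gX
  refine Measurable.ite measurableSet_Iic measurable_id ?_
  refine Measurable.ite measurableSet_Iic (by fun_prop) ?_
  exact Measurable.ite measurableSet_Iic measurable_const (by fun_prop)

private theorem Obe3b_fpot (k : ℝ) : Measurable (fpot k) := by
  unfold fpot
  refine Measurable.ite measurableSet_Iic measurable_const ?_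
  exact Real.measurable_exp.comp
    ((Obe3b_gX.comp (Real.measurable_log.div_const (ell k))).const_mul (ell k))

private theorem Obe3b_mSSt {α : Type} [MeasurableSpace α] {L : ℕ} (k : ℝ)
    (t : α → boxS d L → ℝ) (ht : ∀ y, Measurable fun a => t a y) (y : boxS d L) :
    Measurable fun a => SSt (boxNet d L) k (t a) y := by
  unfold SSt
  refine Measurable.const_add ?_ _
  refine Measurable.const_mul ?_ _
  exact Finset.measurable_sum _ fun w _ => (ht w).const_mul _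

private theorem Obe3b_mVp {α : Type} [MeasurableSpace α] {L : ℕ} (k q s : ℝ) (x : boxS d L)
    (u t : α → boxS d L → ℝ) (hu : ∀ y, Measurable fun a => u a y)
    (ht : ∀ y, Measurable fun a => t a y) :
    Measurable fun a => Vp (boxNet d L) k q s (u a) (t a) x := by
  unfold Vp
  refine Measurable.pow_const ?_ _
  have h1 : ∀ z : boxS d L, Measurable fun a => ENNReal.ofReal (Tz (boxNet d L) k q (u a) (t a) x z) := by
    intro z
    refine ENNReal.measurable_ofReal.comp ?_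
    unfold Tz
    refine Measurable.mul (Measurable.const_mul ((Obe3b_fpot k).comp (hu z)) _) ?_
    exact (Obe3b_mSSt k t ht z).pow_const _
  have h2 : ∀ S : Finset (boxS d L), Measurable fun a => S.sup fun z =>
      ENNReal.ofReal (Tz (boxNet d L) k q (u a) (t a) x z) := by
    classical
    intro S
    induction S using Finset.induction_on with
    | empty => simp only [Finset.sup_empty]; exact measurable_const
    | insert z S _ ih =>
      simp only [Finset.sup_insert]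
      exact (h1 z).sup ih
  exact h2 Finset.univ

variable {F : Fam d} {β k : ℝ}

private theorem Obe3b_mV1 {L : ℕ} (k q s : ℝ) (x : boxS d L) :
    Measurable fun G : (boxS d L → F.V) × (boxS d L → F.V) => V1 k q s G x := by
  unfold V1
  refine Obe3b_mVp k q s x _ _ (fun y => ?_) (fun y => ?_)
  · exact ((measurable_pi_apply y).comp measurable_fst).norm
  · exact ((measurable_pi_apply y).comp measurable_fst).norm.add
      ((measurable_pi_apply y).comp measurable_snd).norm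

private theorem Obe3b_mtr (S : PSys F β k) (h : ℝ) (L n : ℕ) :
    Measurable fun p : ((boxS d L → F.V) × (boxS d L → F.V)) × (ℕ → boxS d L → S.Ωp) =>
      S.tr h L p.1 p.2 n := by
  induction n with
  | zero => exact measurable_fst
  | succ n ih =>
    show Measurable fun p : ((boxS d L → F.V) × (boxS d L → F.V)) × (ℕ → boxS d L → S.Ωp) =>
      S.st h L (S.tr h L p.1 p.2 n) (p.2 n)
    exact (S.mst h L).comp (ih.prodMk ((measurable_pi_apply n).comp measurable_snd))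

private theorem Obe3b_malv (S : PSys F β k) (h : ℝ) (L n : ℕ) :
    MeasurableSet {p : ((boxS d L → F.V) × (boxS d L → F.V)) × (ℕ → boxS d L → S.Ωp) |
      p.2 ∈ S.alv h L p.1 n} := by
  unfold PSys.alv
  refine measurableSet_setOfPred.mpr (Measurable.and ?_ ?_)
  · refine Measurable.forall fun j => Measurable.imp measurable_const
      (Measurable.forall fun x => ?_)
    exact (measurableSet_setOfPred.mp (S.mgd h)).comp
      ((measurable_pi_apply x).comp ((measurable_pi_apply j).comp measurable_snd))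
  · refine Measurable.forall fun j => Measurable.imp measurable_const
      (Measurable.forall fun x => Measurable.and ?_ ?_)
    · exact measurableSet_setOfPred.mp (measurableSet_le ((measurable_pi_apply x).comp
        (measurable_fst.comp (Obe3b_mtr S h L j))).norm measurable_const)
    · exact measurableSet_setOfPred.mp (measurableSet_le ((measurable_pi_apply x).comp
        (measurable_snd.comp (Obe3b_mtr S h L j))).norm measurable_const)

private theorem Obe3b_malv1 (S : PSys F β k) (h : ℝ) (L n : ℕ)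
    (G : (boxS d L → F.V) × (boxS d L → F.V)) : MeasurableSet (S.alv h L G n) := by
  have h1 : Measurable (fun ω : ℕ → boxS d L → S.Ωp => (G, ω)) :=
    measurable_const.prodMk measurable_id
  exact h1 (Obe3b_malv S h L n)

/-! ### Markov property -/

private theorem Obe3b_glue (S : PSys F β k) (h : ℝ) (L n m : ℕ)
    (G : (boxS d L → F.V) × (boxS d L → F.V)) (a b : ℕ → boxS d L → S.Ωp) :
    glue n a b ∈ S.alv h L G (n + m) ↔ a ∈ S.alv h L G n ∧ b ∈ S.alv h L (S.tr h L G a n) m := by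
  have t1 : ∀ j, j ≤ n → S.tr h L G (glue n a b) j = S.tr h L G a j :=
    fun j hj => traj_glue_le _ _ n a b j hj
  have t2 : ∀ j, S.tr h L G (glue n a b) (n + j) = S.tr h L (S.tr h L G a n) b j :=
    fun j => traj_glue_add _ _ n a b j
  have g1 : ∀ j, j < n → glue n a b j = a j := by
    intro j hj
    unfold glue
    rw [if_pos hj]
  have g2 : ∀ j, glue n a b (n + j) = b j := by
    intro j
    unfold glue
    rw [if_neg (by omega)]
    congr 1
    omega
  constructor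
  · rintro ⟨h1, h2⟩
    refine ⟨⟨fun j hj x => ?_, fun j hj x => ?_⟩, ⟨fun j hj x => ?_, fun j hj x => ?_⟩⟩
    · rw [← g1 j hj]
      exact h1 j (by omega) x
    · rw [← t1 j hj]
      exact h2 j (by omega) x
    · rw [← g2 j]
      exact h1 (n + j) (by omega) x
    · rw [← t2 j]
      exact h2 (n + j) (by omega) x
  · rintro ⟨⟨h1, h2⟩, ⟨h3, h4⟩⟩
    refine ⟨fun j hj x => ?_, fun j hj x => ?_⟩
    · by_cases hjn : j < n
      · rw [g1 j hjn]
        exact h1 j hjn x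
      · obtain ⟨i, rfl⟩ := Nat.exists_eq_add_of_le (not_lt.mp hjn)
        rw [g2 i]
        exact h3 i (by omega) x
    · by_cases hjn : j ≤ n
      · rw [t1 j hjn]
        exact h2 j hjn x
      · obtain ⟨i, rfl⟩ := Nat.exists_eq_add_of_le (not_le.mp hjn).le
        rw [t2 i]
        exact h4 i (by omega) x

private theorem Obe3b_markov (S : PSys F β k) (h : ℝ) (L n m : ℕ)
    (G : (boxS d L → F.V) × (boxS d L → F.V))
    (Ψ : (boxS d L → F.V) × (boxS d L → F.V) → ℝ≥0∞) (hΨ : Measurable Ψ) :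
    ∫⁻ ω in S.alv h L G (n + m), Ψ (S.tr h L G ω (n + m)) ∂(PI (S.mu L)) =
      ∫⁻ a in S.alv h L G n, ∫⁻ b in S.alv h L (S.tr h L G a n) m,
        Ψ (S.tr h L (S.tr h L G a n) b m) ∂(PI (S.mu L)) ∂(PI (S.mu L)) := by
  classical
  have hm1 : Measurable (fun ω : ℕ → boxS d L → S.Ωp => Ψ (S.tr h L G ω (n + m))) := by
    have h1 : Measurable (fun ω : ℕ → boxS d L → S.Ωp => (G, ω)) :=
      measurable_const.prodMk measurable_id
    exact hΨ.comp ((Obe3b_mtr S h L (n + m)).comp h1)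
  rw [← lintegral_indicator (Obe3b_malv1 S h L (n + m) G),
    lintegral_glue n _ (hm1.indicator (Obe3b_malv1 S h L (n + m) G)),
    ← lintegral_indicator (Obe3b_malv1 S h L n G)]
  refine lintegral_congr fun a => ?_
  by_cases ha : a ∈ S.alv h L G n
  · rw [Set.indicator_of_mem ha, ← lintegral_indicator (Obe3b_malv1 S h L m _)]
    refine lintegral_congr fun b => ?_
    by_cases hb : b ∈ S.alv h L (S.tr h L G a n) m
    · rw [Set.indicator_of_mem hb, Set.indicator_of_mem ((Obe3b_glue S h L n m G a b).mpr ⟨ha, hb⟩)]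
      congr 1
      exact traj_glue_add _ _ n a b m
    · rw [Set.indicator_of_notMem hb,
        Set.indicator_of_notMem (fun hc => hb ((Obe3b_glue S h L n m G a b).mp hc).2)]
  · rw [Set.indicator_of_notMem ha]
    have h0 : ∀ b, (S.alv h L G (n + m)).indicator (fun ω => Ψ (S.tr h L G ω (n + m)))
        (glue n a b) = 0 := fun b =>
      Set.indicator_of_notMem (fun hc => ha ((Obe3b_glue S h L n m G a b).mp hc).1) _
    simp only [h0, lintegral_zero]

/-- representation on the product space -/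
private theorem Obe3b_rep (S : PSys F β k) (h : ℝ) (L n : ℕ)
    (m0 : Measure (boxS d L → F.V)) [IsFiniteMeasure m0]
    (Φ : (boxS d L → F.V) × (ℕ → boxS d L → S.Ωp) → ℝ≥0∞) (hΦ : Measurable Φ) :
    ∫⁻ G, ∫⁻ ω in S.alv h L (G, (0 : boxS d L → F.V)) n, Φ (G, ω) ∂(PI (S.mu L)) ∂m0 =
      ∫⁻ p in {p : (boxS d L → F.V) × (ℕ → boxS d L → S.Ωp) |
        p.2 ∈ S.alv h L (p.1, (0 : boxS d L → F.V)) n}, Φ p ∂(m0.prod (PI (S.mu L))) := by
  have hA : MeasurableSet {p : (boxS d L → F.V) × (ℕ → boxS d L → S.Ωp) |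
        p.2 ∈ S.alv h L (p.1, (0 : boxS d L → F.V)) n} := by
    have h1 : Measurable (fun p : (boxS d L → F.V) × (ℕ → boxS d L → S.Ωp) =>
        ((p.1, (0 : boxS d L → F.V)), p.2)) :=
      (measurable_fst.prodMk measurable_const).prodMk measurable_snd
    exact h1 (Obe3b_malv S h L n)
  rw [← lintegral_indicator hA, lintegral_prod _ (hΦ.indicator hA).aemeasurable]
  refine lintegral_congr fun G => ?_
  rw [← lintegral_indicator (Obe3b_malv1 S h L n _)]
  refine lintegral_congr fun ω => ?_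
  by_cases hω : ω ∈ S.alv h L (G, (0 : boxS d L → F.V)) n
  · rw [Set.indicator_of_mem hω, Set.indicator_of_mem (by exact hω)]
  · rw [Set.indicator_of_notMem hω, Set.indicator_of_notMem (by exact hω)]

/-- Minkowski -/
private theorem Obe3b_mink {α : Type} [MeasurableSpace α] (μ : Measure α) (f : α → ℝ≥0∞)
    (hf : Measurable f) (a b : ℝ≥0∞) (m : ℝ≥0∞) (hm : μ Set.univ ≤ m) :
    ∫⁻ p, (a * f p + b) ^ 2 ∂μ ≤
      (a * (∫⁻ p, f p ^ 2 ∂μ) ^ (1 / 2 : ℝ) + b * m ^ (1 / 2 : ℝ)) ^ 2 := by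
  have h1 := ENNReal.lintegral_Lp_add_le (μ := μ) (p := 2) (f := fun p => a * f p)
    (g := fun _ => b) (hf.const_mul a).aemeasurable aemeasurable_const (by norm_num)
  have h2 : ∀ x : ℝ≥0∞, (x ^ (1 / 2 : ℝ)) ^ 2 = x := by
    intro x
    rw [← ENNReal.rpow_two, ← ENNReal.rpow_mul]
    norm_num
  have h2' : ∀ x : ℝ≥0∞, (x ^ 2) ^ (1 / 2 : ℝ) = x := by
    intro x
    rw [← ENNReal.rpow_two, ← ENNReal.rpow_mul]
    norm_num
  simp only [Pi.add_apply, ENNReal.rpow_two] at h1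
  have h3 : (∫⁻ p, (a * f p) ^ 2 ∂μ) ^ (1 / 2 : ℝ) = a * (∫⁻ p, f p ^ 2 ∂μ) ^ (1 / 2 : ℝ) := by
    simp only [mul_pow]
    rw [lintegral_const_mul _ (hf.pow_const 2), ENNReal.mul_rpow_of_nonneg _ _ (by norm_num), h2']
  have h4 : (∫⁻ _, b ^ 2 ∂μ) ^ (1 / 2 : ℝ) ≤ b * m ^ (1 / 2 : ℝ) := by
    rw [lintegral_const, ENNReal.mul_rpow_of_nonneg _ _ (by norm_num), h2']
    exact mul_le_mul_right (ENNReal.rpow_le_rpow hm (by norm_num)) _
  rw [h3] at h1
  have h5 := h1.trans (add_le_add le_rfl h4)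
  calc ∫⁻ p, (a * f p + b) ^ 2 ∂μ = ((∫⁻ p, (a * f p + b) ^ 2 ∂μ) ^ (1 / 2 : ℝ)) ^ 2 := (h2 _).symm
    _ ≤ _ := pow_le_pow_left₀ (zero_le) h5 2

/-- numerical facts -/
private theorem Obe3b_half {S : PSys F β k} {q s a θ TB BD BV κ' CV K cd : ℝ} {Ls : ℕ}
    (B : Blk S q s a θ TB BD BV κ' CV K cd Ls) {L : ℕ} (x : boxS d L) : κ' ≤ 1 / 2 := by
  have h1 : (1 : ℝ) ≤ cd := by
    have h2 := (B.hcd L x).1
    have h3 : (1 : ℝ) ≤ ∑ z, Real.exp (-(a / 8)) ^ (boxNet d L).dist x z := by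
      have h4 : Real.exp (-(a / 8)) ^ (boxNet d L).dist x x = 1 := by
        rw [(boxNet d L).dist_self, pow_zero]
      rw [← h4]
      exact Finset.single_le_sum (f := fun z => Real.exp (-(a / 8)) ^ (boxNet d L).dist x z)
        (fun z _ => by positivity) (Finset.mem_univ x)
    linarith
  have h5 : 1 ≤ Real.sqrt BD := by
    rw [← Real.sqrt_one]
    exact Real.sqrt_le_sqrt B.hBD
  have h6 : 0 ≤ 2 * CV * cd / K := by
    have := B.hCV
    have := B.hK
    positivity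
  have h7 := B.num
  have h8 := B.hκ
  have h9 : κ' ≤ Real.sqrt BD * (κ' + 2 * CV * cd / K) * cd := by
    have h10 : κ' ≤ κ' + 2 * CV * cd / K := by linarith
    have h11 : κ' + 2 * CV * cd / K ≤ Real.sqrt BD * (κ' + 2 * CV * cd / K) :=
      le_mul_of_one_le_left (by linarith) h5
    have h12 : Real.sqrt BD * (κ' + 2 * CV * cd / K) ≤
        Real.sqrt BD * (κ' + 2 * CV * cd / K) * cd :=
      le_mul_of_one_le_right (by positivity) h1
    linarith
  linarith

/-- the recursion -/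
private theorem Obe3b_rec (κ' CV : ℝ) (hκ : κ' ≤ 1 / 2) (hCV : 0 ≤ CV)
    (M : ℕ → ℝ≥0∞) (u : ℝ≥0∞)
    (h : ∀ j, M (j + 1) ≤ (ENNReal.ofReal κ' * M j ^ (1 / 2 : ℝ) + ENNReal.ofReal CV * u) ^ 2)
    (R : ℝ≥0∞) (h0 : M 0 ≤ R) (j : ℕ) :
    M j ≤ (R ^ (1 / 2 : ℝ) + ENNReal.ofReal (2 * CV) * u) ^ 2 := by
  have h2 : ∀ x : ℝ≥0∞, (x ^ (1 / 2 : ℝ)) ^ 2 = x := by
    intro x
    rw [← ENNReal.rpow_two, ← ENNReal.rpow_mul]
    norm_num
  have h2' : ∀ x : ℝ≥0∞, (x ^ 2) ^ (1 / 2 : ℝ) = x := by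
    intro x
    rw [← ENNReal.rpow_two, ← ENNReal.rpow_mul]
    norm_num
  induction j with
  | zero =>
    calc M 0 ≤ R := h0
      _ = (R ^ (1 / 2 : ℝ)) ^ 2 := (h2 R).symm
      _ ≤ _ := pow_le_pow_left₀ (zero_le) (le_add_right le_rfl) 2
  | succ j ih =>
    refine (h j).trans (pow_le_pow_left₀ (zero_le) ?_ 2)
    have h3 : M j ^ (1 / 2 : ℝ) ≤ R ^ (1 / 2 : ℝ) + ENNReal.ofReal (2 * CV) * u := by
      have := ENNReal.rpow_le_rpow ih (by norm_num : (0 : ℝ) ≤ 1 / 2)
      rwa [h2'] at this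
    have h4 : ENNReal.ofReal κ' ≤ ENNReal.ofReal (1 / 2) := ENNReal.ofReal_le_ofReal hκ
    have h5 : ENNReal.ofReal (1 / 2) ≤ 1 := by
      rw [← ENNReal.ofReal_one]
      exact ENNReal.ofReal_le_ofReal (by norm_num)
    calc ENNReal.ofReal κ' * M j ^ (1 / 2 : ℝ) + ENNReal.ofReal CV * u
        ≤ ENNReal.ofReal (1 / 2) * (R ^ (1 / 2 : ℝ) + ENNReal.ofReal (2 * CV) * u) +
          ENNReal.ofReal CV * u := add_le_add (mul_le_mul' h4 h3) le_rfl
      _ = ENNReal.ofReal (1 / 2) * R ^ (1 / 2 : ℝ) +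
          (ENNReal.ofReal (1 / 2) * ENNReal.ofReal (2 * CV) + ENNReal.ofReal CV) * u := by ring
      _ ≤ 1 * R ^ (1 / 2 : ℝ) + ENNReal.ofReal (2 * CV) * u := by
          refine add_le_add (mul_le_mul' h5 le_rfl) (mul_le_mul' ?_ le_rfl)
          rw [← ENNReal.ofReal_mul (by norm_num), ← ENNReal.ofReal_add (by positivity) hCV]
          apply ENNReal.ofReal_le_ofReal
          linarith
      _ = _ := by rw [one_mul]

/-- uniform in time bound of the potential for the chain started at `(G, 0)` -/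
theorem V_all {F : Fam d} {β k : ℝ} (S : PSys F β k)
    (q s a θ TB BD BV κ' CV K cd : ℝ) (Ls : ℕ) (B : Blk S q s a θ TB BD BV κ' CV K cd Ls)
    (L : ℕ) (hL : Ls ≤ L) :
    ∃ h0 : ℝ, 0 < h0 ∧ ∀ h, 0 < h → h < h0 →
      ∀ (m0 : Measure (boxS d L → F.V)) [IsFiniteMeasure m0] (n : ℕ) (x : boxS d L),
        ∫⁻ G, ∫⁻ ω in S.alv h L (G, 0) n, V1 k q s (S.tr h L (G, 0) ω n) x ^ 2
            ∂(PI (S.mu L)) ∂m0
          ≤ ENNReal.ofReal BV * ((∫⁻ G, V1 k q s (G, (0 : boxS d L → F.V)) x ^ 2 ∂m0) ^ (1 / 2 : ℝ) +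
              ENNReal.ofReal (2 * CV) * (m0 Set.univ) ^ (1 / 2 : ℝ)) ^ 2 := by
  obtain ⟨h1, hh1, H1⟩ := B.gV L hL
  obtain ⟨h2, hh2, H2⟩ := B.ly L hL
  refine ⟨min h1 h2, lt_min hh1 hh2, fun h hh hlt m0 _ n x => ?_⟩
  have gV := H1 h hh (hlt.trans_le (min_le_left _ _))
  have ly := H2 h hh (hlt.trans_le (min_le_right _ _))
  have hPI : IsProbabilityMeasure (PI (S.mu L)) := by unfold PI; infer_instance
  set nB : ℕ := ⌈TB / h⌉₊ with hnB
  have hnB0 : 0 < nB := Nat.ceil_pos.mpr (div_pos B.hTB hh)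
  have hmV : Measurable fun G : (boxS d L → F.V) × (boxS d L → F.V) => V1 k q s G x :=
    Obe3b_mV1 k q s x
  have hmV2 : Measurable fun G : (boxS d L → F.V) × (boxS d L → F.V) => V1 k q s G x ^ 2 :=
    hmV.pow_const 2
  have hpr : Measurable (fun p : (boxS d L → F.V) × (ℕ → boxS d L → S.Ωp) =>
      ((p.1, (0 : boxS d L → F.V)), p.2)) :=
    (measurable_fst.prodMk measurable_const).prodMk measurable_snd
  set MM : ℕ → ℝ≥0∞ := fun j => ∫⁻ G, ∫⁻ ω in S.alv h L (G, (0 : boxS d L → F.V)) j,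
    V1 k q s (S.tr h L (G, (0 : boxS d L → F.V)) ω j) x ^ 2 ∂(PI (S.mu L)) ∂m0 with hMM
  -- remainder
  have hrem : ∀ j r, r ≤ nB → MM (j + r) ≤ ENNReal.ofReal BV * MM j := by
    intro j r hr
    simp only [hMM]
    rw [← lintegral_const_mul' _ _ ENNReal.ofReal_ne_top]
    refine lintegral_mono fun G => ?_
    rw [Obe3b_markov S h L j r (G, 0) _ hmV2, ← lintegral_const_mul' _ _ ENNReal.ofReal_ne_top]
    exact lintegral_mono fun a => (gV _ r hr x).1
  -- block
  have hblk : ∀ j, MM (j + nB) ≤ (ENNReal.ofReal κ' * MM j ^ (1 / 2 : ℝ) +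
      ENNReal.ofReal CV * (m0 Set.univ) ^ (1 / 2 : ℝ)) ^ 2 := by
    intro j
    have hmt : Measurable (fun p : (boxS d L → F.V) × (ℕ → boxS d L → S.Ωp) =>
        V1 k q s (S.tr h L (p.1, (0 : boxS d L → F.V)) p.2 j) x) :=
      hmV.comp ((Obe3b_mtr S h L j).comp hpr)
    have e1 : MM (j + nB) ≤ ∫⁻ G, ∫⁻ ω in S.alv h L (G, (0 : boxS d L → F.V)) j,
        (ENNReal.ofReal κ' * V1 k q s (S.tr h L (G, (0 : boxS d L → F.V)) ω j) x +
          ENNReal.ofReal CV) ^ 2 ∂(PI (S.mu L)) ∂m0 := by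
      simp only [hMM]
      refine lintegral_mono fun G => ?_
      rw [Obe3b_markov S h L j nB (G, 0) _ hmV2]
      exact lintegral_mono fun a => (ly _ x).1
    have e2 := Obe3b_rep S h L j m0 (fun p => (ENNReal.ofReal κ' *
      V1 k q s (S.tr h L (p.1, (0 : boxS d L → F.V)) p.2 j) x + ENNReal.ofReal CV) ^ 2)
      (((hmt.const_mul _).add_const _).pow_const 2)
    have e3 := Obe3b_rep S h L j m0 (fun p =>
      V1 k q s (S.tr h L (p.1, (0 : boxS d L → F.V)) p.2 j) x ^ 2) (hmt.pow_const 2)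
    have e4 : MM j = ∫⁻ p in {p : (boxS d L → F.V) × (ℕ → boxS d L → S.Ωp) |
        p.2 ∈ S.alv h L (p.1, (0 : boxS d L → F.V)) j},
        V1 k q s (S.tr h L (p.1, (0 : boxS d L → F.V)) p.2 j) x ^ 2 ∂(m0.prod (PI (S.mu L))) := e3
    refine (e1.trans (le_of_eq e2)).trans ?_
    rw [e4]
    refine Obe3b_mink _ _ hmt _ _ _ ?_
    rw [Measure.restrict_apply_univ]
    refine (measure_mono (Set.subset_univ _)).trans ?_
    rw [← Set.univ_prod_univ, Measure.prod_prod, hPI.measure_univ, mul_one]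
  have h00 : MM 0 ≤ ∫⁻ G, V1 k q s (G, (0 : boxS d L → F.V)) x ^ 2 ∂m0 := by
    simp only [hMM]
    refine lintegral_mono fun G => ?_
    show ∫⁻ ω in S.alv h L (G, (0 : boxS d L → F.V)) 0, V1 k q s (G, (0 : boxS d L → F.V)) x ^ 2
      ∂(PI (S.mu L)) ≤ _
    rw [setLIntegral_const]
    calc V1 k q s (G, (0 : boxS d L → F.V)) x ^ 2 *
        PI (S.mu L) (S.alv h L (G, (0 : boxS d L → F.V)) 0)
        ≤ V1 k q s (G, (0 : boxS d L → F.V)) x ^ 2 * 1 := mul_le_mul' le_rfl prob_le_one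
      _ = _ := mul_one _
  have hrec := Obe3b_rec κ' CV (Obe3b_half B x) B.hCV (fun j => MM (j * nB))
    ((m0 Set.univ) ^ (1 / 2 : ℝ)) (fun j => by
      show MM ((j + 1) * nB) ≤ _
      rw [add_mul, one_mul]
      exact hblk (j * nB)) (∫⁻ G, V1 k q s (G, (0 : boxS d L → F.V)) x ^ 2 ∂m0) (by
      show MM (0 * nB) ≤ _
      rw [zero_mul]
      exact h00) (n / nB)
  have hn : n = n / nB * nB + n % nB := (Nat.div_add_mod' n nB).symm
  have hfin : MM n ≤ ENNReal.ofReal BV * MM (n / nB * nB) := by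
    conv_lhs => rw [hn]
    exact hrem _ _ (Nat.mod_lt _ hnB0).le
  exact hfin.trans (mul_le_mul' le_rfl hrec)

end DynC

end

/-! ### from `Lib_MP_36b788c.Obe3a` -/

section

/-!
# Initial laws

PROOF.
* `V_start`: i.i.d. law `ρ` without atom at `0`: choose `δ0 ∈ (0,1]` with `ρ(‖v‖ ≥ δ0) ≥ 1/2`. The event `E_L`: for some site `x` of the box there is no site `z` with `‖G z‖ ≥ δ0` within distance `L`. There are at least
  `r + 1` sites within distance `r ≤ L` of `x` (move in one coordinate direction), so `P(no such site within r) ≤ 2^{-(r+1)}` and `P(E_L) ≤ |box| 2^{-L} → 0`. Off `E_L` let `r` = distance from `x` to the nearest such site `z`: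
  `V1(x)² ≤ (k^{r/4} fpot(δ0) SSt(z)^{-q})^{-2s} = k^{-rs/2} fpot(δ0)^{-2s} SSt(z)^{2qs}`. Sum over `z`: `E[V1(x)²; E_L^c] ≤ Σ_z k^{-s|x-z|/2} fpot(δ0)^{-2s} E[1{nearest at distance |x-z|} SSt(z)^{2qs}]`, Cauchy-Schwarz:
  `≤ Σ_z k^{-s|x-z|/2} C 2^{-|x-z|/2} (E SSt(z)^{4qs})^{1/2}`, `E SSt ≤ 1 + 3^d E‖v‖`, `4qs ≤ 1`; converges uniformly in `L` if `k^{-s/2} 2^{-1/2} ≤ 9/10`... (hypothesis `hks : k^{-s} ≤ 11/10`, and the number of `z` at distance `r` is at most `(2r+1)^d`).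
* `V_all`: pair system started at `(G, 0)`: the second component stays `0` on good noise (`q2`). `m_j = (E[V1(x)²(tr (j n_B)); alv, E_L^c])^{1/2} ≤ κ' m_{j-1} + CV` (`ly`, Minkowski in the initial configuration, Markov property by `lintegral_glue`), `κ' ≤ 1/2`, then `gV` for the remainder.
  So `E[V1(x)²(tr n); alv, E_L^c] ≤ CI` uniformly in `n, L, h, x`.
* `mom` gives `E[‖G_n x‖; alv] ≤ CM (1 + E Yl) ≤ C`.
* `init_of_blk`: `G = G_{n1}`, `G' = G'_{n2}` independent (two independent copies of the system started from `(G_0,0)`, `(G'_0,0)`). `tele` and `Cls`: `‖f G - f G'‖ ≤ Σ 4A(x) D(x)^θ w(x) + …`. `E[D(x)^θ w(x); good] ≤ (E D^{2θ})^{1/2} (E w²)^{1/2}`,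
  `D^{2θ} ≤ 1 + ‖G x‖ + ‖G' x‖`. For the joint `S`: `SSt(u+u') ≤ SSt(u) SSt(u')`, so with `z* = z*(G)` the maximizer for `G` alone, `V1(G,G')(x) ≤ V1(G,0)(x) SSt(u')(z*)^{qs}` and by independence `E[V1(G,G')(x)²; good] ≤ E[V1(G,0)(x)²; good] sup_z E[SSt(u')(z)^{2qs}; good] ≤ C`.
  Minkowski over `z` in `wpr`. The exceptional events: `E_L` (probability `≤ η/8` for `L ≥ L1`), `alv^c` (`exit`, `E Σ‖G_0‖ < ∞`), on which `‖f G - f G'‖ ≤ 2`. Additive term: `sum`.
-/

open MeasureTheory ProbabilityTheory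
open scoped ENNReal

namespace DynC

open Dyn

variable {d : ℕ}


/-! ### Geometric sums over the box -/

private theorem Obe3a_mem {d L : ℕ} (x : Fin d → ℤ) :
    x ∈ boxS d L ↔ ∀ i, -(L : ℤ) ≤ x i ∧ x i ≤ L := by
  unfold boxS
  rw [Finset.mem_Icc, Pi.le_def, Pi.le_def]
  constructor
  · rintro ⟨h1, h2⟩ i; exact ⟨h1 i, h2 i⟩
  · intro h; exact ⟨fun i => (h i).1, fun i => (h i).2⟩

private theorem Obe3a_pi (d L : ℕ) :
    boxS d L = Fintype.piFinset (fun _ : Fin d => Finset.Icc (-(L : ℤ)) L) := by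
  ext x
  rw [Obe3a_mem, Fintype.mem_piFinset]
  simp only [Finset.mem_Icc]

private theorem Obe3a_card (d L : ℕ) : Fintype.card (boxS d L) = (2 * L + 1) ^ d := by
  rw [Fintype.card_coe, Obe3a_pi, Fintype.card_piFinset]
  simp only [Int.card_Icc, Finset.prod_const, Finset.card_univ, Fintype.card_fin]
  congr 1
  omega

private theorem Obe3a_one (a : ℝ) (h0 : 0 ≤ a) (h1 : a < 1) (s : Finset ℤ) (m : ℤ) :
    ∑ n ∈ s, a ^ (m - n).natAbs ≤ (1 - a)⁻¹ + a * (1 - a)⁻¹ := by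
  classical
  have hg : Summable (fun k : ℕ => a ^ k) := summable_geometric_of_lt_one h0 h1
  have hnn : ∀ k : ℕ, 0 ≤ a ^ k := fun k => pow_nonneg h0 k
  have e1 : ∑' k : ℕ, a ^ k = (1 - a)⁻¹ := tsum_geometric_of_lt_one h0 h1
  have e2 : ∑' k : ℕ, a ^ (k + 1) = a * (1 - a)⁻¹ := by
    rw [← e1, ← tsum_mul_left]
    exact tsum_congr fun k => by ring
  rw [← e2, ← e1]
  rw [← Finset.sum_filter_add_sum_filter_not s (fun n => n ≤ m)]
  refine add_le_add ?_ ?_
  · have hinj : Set.InjOn (fun n : ℤ => (m - n).natAbs) (s.filter (fun n => n ≤ m)) := by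
      intro a ha b hb hab
      have ha' := (Finset.mem_filter.mp (Finset.mem_coe.mp ha)).2
      have hb' := (Finset.mem_filter.mp (Finset.mem_coe.mp hb)).2
      simp only at hab
      omega
    have h1 : ∑ n ∈ s.filter (fun n => n ≤ m), a ^ (m - n).natAbs =
        ∑ k ∈ (s.filter (fun n => n ≤ m)).image (fun n : ℤ => (m - n).natAbs), a ^ k := by
      rw [Finset.sum_image hinj]
    rw [h1]
    exact hg.sum_le_tsum _ (fun k _ => hnn k)
  · have hg' : Summable (fun k : ℕ => a ^ (k + 1)) := (summable_nat_add_iff 1).mpr hg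
    have hinj : Set.InjOn (fun n : ℤ => (m - n).natAbs - 1) (s.filter (fun n => ¬ n ≤ m)) := by
      intro a ha b hb hab
      have ha' := (Finset.mem_filter.mp (Finset.mem_coe.mp ha)).2
      have hb' := (Finset.mem_filter.mp (Finset.mem_coe.mp hb)).2
      simp only at hab
      omega
    have h1 : ∑ n ∈ s.filter (fun n => ¬ n ≤ m), a ^ (m - n).natAbs =
        ∑ k ∈ (s.filter (fun n => ¬ n ≤ m)).image (fun n : ℤ => (m - n).natAbs - 1),
          a ^ (k + 1) := by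
      rw [Finset.sum_image hinj]
      refine Finset.sum_congr rfl fun n hn => ?_
      have hn' := (Finset.mem_filter.mp hn).2
      congr 1
      omega
    rw [h1]
    exact hg'.sum_le_tsum _ (fun k _ => hnn (k + 1))

private theorem Obe3a_geom (a : ℝ) (h0 : 0 ≤ a) (h1 : a < 1) (d L : ℕ) (x : boxS d L) :
    ∑ z, a ^ (boxNet d L).dist x z ≤ ((1 - a)⁻¹ + a * (1 - a)⁻¹) ^ d := by
  have e1 : ∑ z : boxS d L, a ^ (boxNet d L).dist x z =
      ∑ z ∈ boxS d L, ∏ i, a ^ ((x : Fin d → ℤ) i - z i).natAbs := by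
    rw [← Finset.sum_coe_sort (boxS d L)
      (fun z => ∏ i, a ^ ((x : Fin d → ℤ) i - z i).natAbs)]
    refine Finset.sum_congr rfl fun z _ => ?_
    rw [boxNet_dist, Finset.prod_pow_eq_pow_sum]
    rfl
  have e2 : ∀ y : Fin d → ℤ, ∑ z ∈ boxS d L, ∏ i, a ^ (y i - z i).natAbs =
      ∏ i, ∑ n ∈ Finset.Icc (-(L : ℤ)) L, a ^ (y i - n).natAbs := by
    intro y
    rw [Obe3a_pi, Finset.prod_univ_sum]
  rw [e1, e2 (x : Fin d → ℤ)]
  calc ∏ i : Fin d, ∑ n ∈ Finset.Icc (-(L : ℤ)) L, a ^ ((x : Fin d → ℤ) i - n).natAbs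
      ≤ ∏ _i : Fin d, ((1 - a)⁻¹ + a * (1 - a)⁻¹) :=
        Finset.prod_le_prod (fun i _ => Finset.sum_nonneg fun n _ => pow_nonneg h0 _)
          (fun i _ => Obe3a_one a h0 h1 _ _)
    _ = _ := by simp

/-! ### Sites near a given site -/

private theorem Obe3a_upd {d : ℕ} (x : Fin d → ℤ) (i : Fin d) (v : ℤ) :
    l1 x (Function.update x i v) = (x i - v).natAbs := by
  unfold l1
  rw [← Finset.add_sum_erase Finset.univ (fun j => (x j - (Function.update x i v) j).natAbs)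
      (Finset.mem_univ i)]
  have h : ∑ j ∈ Finset.univ.erase i, (x j - (Function.update x i v) j).natAbs = 0 := by
    refine Finset.sum_eq_zero fun j hj => ?_
    rw [Function.update_of_ne (Finset.ne_of_mem_erase hj)]
    simp
  rw [h]
  simp

private theorem Obe3a_near {d L : ℕ} (hd : 1 ≤ d) (x : boxS d L) (m : ℕ) (hm : m ≤ L) :
    ∃ T : Finset (boxS d L), T.card = m + 1 ∧ ∀ z ∈ T, (boxNet d L).dist x z ≤ m := by
  classical
  let i0 : Fin d := ⟨0, hd⟩
  have hx := (Obe3a_mem (x : Fin d → ℤ)).mp x.2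
  obtain ⟨sg, hsg1, hsg⟩ : ∃ sg : ℤ, (sg = 1 ∨ sg = -1) ∧
      ∀ j : ℕ, j ≤ L → -(L : ℤ) ≤ (x : Fin d → ℤ) i0 + sg * j ∧
        (x : Fin d → ℤ) i0 + sg * j ≤ L := by
    have h0 := hx i0
    rcases le_total ((x : Fin d → ℤ) i0) 0 with h | h
    · refine ⟨1, Or.inl rfl, fun j hj => ?_⟩
      constructor <;> omega
    · refine ⟨-1, Or.inr rfl, fun j hj => ?_⟩
      constructor <;> omega
  have hmem : ∀ j : ℕ, j ≤ L →
      Function.update (x : Fin d → ℤ) i0 ((x : Fin d → ℤ) i0 + sg * j) ∈ boxS d L := by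
    intro j hj
    rw [Obe3a_mem]
    intro i
    by_cases hi : i = i0
    · subst hi
      rw [Function.update_self]
      exact hsg j hj
    · rw [Function.update_of_ne hi]
      exact hx i
  let g : Fin (m + 1) → boxS d L := fun j =>
    ⟨Function.update (x : Fin d → ℤ) i0 ((x : Fin d → ℤ) i0 + sg * ((j : ℕ) : ℤ)),
      hmem j (by have := j.2; omega)⟩
  have hinj : Function.Injective g := by
    intro a b hab
    have h1 := congrArg (fun z : boxS d L => (z : Fin d → ℤ) i0) hab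
    simp only [g, Function.update_self] at h1
    have h2 : ((a : ℕ) : ℤ) = ((b : ℕ) : ℤ) := by
      rcases hsg1 with h | h <;> subst h <;> omega
    exact Fin.ext (by exact_mod_cast h2)
  refine ⟨Finset.univ.image g, ?_, ?_⟩
  · rw [Finset.card_image_of_injective _ hinj]
    simp
  · intro z hz
    obtain ⟨j, _, rfl⟩ := Finset.mem_image.mp hz
    rw [boxNet_dist]
    simp only [g]
    rw [Obe3a_upd]
    have h1 := j.2
    rcases hsg1 with h | h <;> subst h <;> omega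

/-! ### The potential is monotone -/

private theorem Obe3a_gX {a b : ℝ} (h : a ≤ b) : gX a ≤ gX b := by
  unfold gX
  split_ifs <;> nlinarith [sq_nonneg (a + 1 / 4), sq_nonneg (b + 1 / 4), sq_nonneg (a - b)]

private theorem Obe3a_fpos {k v : ℝ} (hv : 0 < v) : 0 < fpot k v := by
  unfold fpot
  rw [if_neg (not_le.mpr hv)]
  exact Real.exp_pos _

private theorem Obe3a_fmono {k v w : ℝ} (hk : 0 < k) (hk1 : k < 1) (hv : 0 < v) (h : v ≤ w) :
    fpot k v ≤ fpot k w := by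
  have hell : 0 < ell k := by
    unfold ell
    rw [one_div, Real.log_inv]
    have := Real.log_neg hk hk1
    linarith
  unfold fpot
  rw [if_neg (not_le.mpr hv), if_neg (not_le.mpr (hv.trans_le h))]
  refine Real.exp_le_exp.mpr (mul_le_mul_of_nonneg_left (Obe3a_gX ?_) hell.le)
  exact div_le_div_of_nonneg_right (Real.log_le_log hv h) hell.le

/-! ### Probability estimates -/

section prob

variable {V : Type} [NormedAddCommGroup V] [MeasurableSpace V] [BorelSpace V]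

/-- all sites of `T` are small -/
private theorem Obe3a_small {ι : Type} [Fintype ι] (ρ : Measure V) [IsProbabilityMeasure ρ]
    (δ0 : ℝ) (hδ : ρ {v | ‖v‖ < δ0} ≤ 1 / 2) (T : Finset ι) (m : ℕ) (hm : m ≤ T.card) :
    Measure.pi (fun _ : ι => ρ) {G | ∀ z ∈ T, ‖G z‖ < δ0} ≤ (1 / 2) ^ m := by
  classical
  have h1 : {G : ι → V | ∀ z ∈ T, ‖G z‖ < δ0} =
      Set.pi Set.univ (fun z => if z ∈ T then {v | ‖v‖ < δ0} else Set.univ) := by
    ext G
    simp only [Set.mem_ofPred_eq, Set.mem_pi, Set.mem_univ, true_implies]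
    constructor
    · intro h z
      by_cases hz : z ∈ T
      · rw [if_pos hz]; exact h z hz
      · rw [if_neg hz]; trivial
    · intro h z hz
      have := h z
      rw [if_pos hz] at this
      exact this
  rw [h1, Measure.pi_pi]
  have h2 : ∏ z, ρ (if z ∈ T then {v | ‖v‖ < δ0} else Set.univ) =
      ∏ z ∈ T, ρ {v | ‖v‖ < δ0} := by
    rw [← Finset.prod_subset (Finset.subset_univ T)]
    · exact Finset.prod_congr rfl fun z hz => by rw [if_pos hz]
    · intro z _ hz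
      rw [if_neg hz]
      exact measure_univ
  rw [h2, Finset.prod_const]
  calc ρ {v | ‖v‖ < δ0} ^ T.card ≤ (1 / 2) ^ T.card := by gcongr
    _ ≤ (1 / 2) ^ m := pow_le_pow_right_of_le_one' (by
        rw [one_div]; exact ENNReal.inv_le_one.mpr (by norm_num)) hm

private theorem Obe3a_delta (ρ : Measure V) [IsProbabilityMeasure ρ] (h0 : ρ {0} = 0) :
    ∃ δ0 : ℝ, 0 < δ0 ∧ ρ {v | ‖v‖ < δ0} ≤ 1 / 2 := by
  have hm : ∀ n : ℕ, NullMeasurableSet {v : V | ‖v‖ < 1 / ((n : ℝ) + 1)} ρ := fun n =>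
    (measurableSet_lt measurable_norm measurable_const).nullMeasurableSet
  have hanti : Antitone (fun n : ℕ => {v : V | ‖v‖ < 1 / ((n : ℝ) + 1)}) := by
    intro a b hab v hv
    simp only [Set.mem_ofPred_eq] at hv ⊢
    refine lt_of_lt_of_le hv ?_
    have : (a : ℝ) ≤ b := by exact_mod_cast hab
    exact one_div_le_one_div_of_le (by positivity) (by linarith)
  have ht := tendsto_measure_iInter_atTop hm hanti ⟨0, measure_ne_top ρ _⟩
  have hI : (⋂ n : ℕ, {v : V | ‖v‖ < 1 / ((n : ℝ) + 1)}) = {0} := by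
    ext v
    simp only [Set.mem_iInter, Set.mem_ofPred_eq, Set.mem_singleton_iff]
    constructor
    · intro h
      by_contra hv
      have hpos : 0 < ‖v‖ := norm_pos_iff.mpr hv
      obtain ⟨n, hn⟩ := exists_nat_one_div_lt hpos
      exact absurd (h n) (not_lt.mpr hn.le)
    · rintro rfl n
      rw [norm_zero]
      positivity
  rw [hI, h0] at ht
  have hev := ht.eventually (gt_mem_nhds (show (0 : ℝ≥0∞) < 1 / 2 by simp))
  obtain ⟨n, hn⟩ := hev.exists
  exact ⟨1 / ((n : ℝ) + 1), by positivity, hn.le⟩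

private theorem Obe3a_EL {d L : ℕ} (hd : 1 ≤ d) (ρ : Measure V) [IsProbabilityMeasure ρ]
    (δ0 : ℝ) (hδ : ρ {v | ‖v‖ < δ0} ≤ 1 / 2) :
    Measure.pi (fun _ : boxS d L => ρ) (EL d L δ0) ≤
      ENNReal.ofReal (((2 * L + 1 : ℕ) : ℝ) ^ d * (1 / 2) ^ (L + 1)) := by
  classical
  choose T hT1 hT2 using fun x : boxS d L => Obe3a_near hd x L le_rfl
  have hsub : EL d L δ0 ⊆ ⋃ x : boxS d L, {G : boxS d L → V | ∀ z ∈ T x, ‖G z‖ < δ0} := by
    rintro G ⟨x, hx⟩
    exact Set.mem_iUnion.mpr ⟨x, fun z hz => hx z (hT2 x z hz)⟩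
  refine (measure_mono hsub).trans ((measure_iUnion_fintype_le _ _).trans ?_)
  calc ∑ x : boxS d L, Measure.pi (fun _ : boxS d L => ρ)
        {G : boxS d L → V | ∀ z ∈ T x, ‖G z‖ < δ0}
      ≤ ∑ _x : boxS d L, (1 / 2 : ℝ≥0∞) ^ (L + 1) :=
        Finset.sum_le_sum fun x _ => Obe3a_small ρ δ0 hδ (T x) (L + 1) (hT1 x).ge
    _ = ENNReal.ofReal (((2 * L + 1 : ℕ) : ℝ) ^ d * (1 / 2) ^ (L + 1)) := by
        rw [Finset.sum_const, Finset.card_univ, Obe3a_card, nsmul_eq_mul,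
          ENNReal.ofReal_mul (by positivity), ENNReal.ofReal_pow (by positivity),
          ENNReal.ofReal_pow (by positivity), ENNReal.ofReal_natCast]
        congr 1
        · push_cast; rfl
        · congr 1
          rw [ENNReal.ofReal_div_of_pos (by norm_num)]
          simp

private theorem Obe3a_tend (d : ℕ) (η : ℝ) (hη : 0 < η) : ∃ L1 : ℕ, ∀ L, L1 ≤ L →
    ((2 * L + 1 : ℕ) : ℝ) ^ d * (1 / 2) ^ (L + 1) ≤ η := by
  have h1 := tendsto_pow_const_mul_const_pow_of_abs_lt_one d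
    (show |(1 / 2 : ℝ)| < 1 by rw [abs_of_pos] <;> norm_num)
  have h2 := h1.const_mul ((3 : ℝ) ^ d)
  rw [mul_zero] at h2
  have h3 := h2.eventually (gt_mem_nhds hη)
  obtain ⟨n, hn⟩ := Filter.eventually_atTop.mp h3
  refine ⟨max n 1, fun L hL => ?_⟩
  have h4 := hn L ((le_max_left _ _).trans hL)
  have hL1 : (1 : ℝ) ≤ L := by exact_mod_cast (le_max_right n 1).trans hL
  refine le_trans ?_ h4.le
  have h5 : ((2 * L + 1 : ℕ) : ℝ) ^ d ≤ (3 * (L : ℝ)) ^ d := by
    refine pow_le_pow_left₀ (by positivity) ?_ d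
    push_cast
    linarith
  calc ((2 * L + 1 : ℕ) : ℝ) ^ d * (1 / 2) ^ (L + 1) ≤ (3 * (L : ℝ)) ^ d * (1 / 2) ^ L := by
        refine mul_le_mul h5 ?_ (by positivity) (by positivity)
        exact pow_le_pow_of_le_one (by norm_num) (by norm_num) (Nat.le_succ L)
    _ = 3 ^ d * ((L : ℝ) ^ d * (1 / 2) ^ L) := by rw [mul_pow]; ring

end prob

/-! ### The potential off the bad event -/

section main

variable {V : Type} [NormedAddCommGroup V]

/-- no site closer to `x` than `z` is large, `z` is within distance `L` -/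
private def Obe3a_A {d L : ℕ} (δ0 : ℝ) (x z : boxS d L) : Set (boxS d L → V) :=
  {G | (boxNet d L).dist x z ≤ L ∧
    ∀ y, (boxNet d L).dist x y < (boxNet d L).dist x z → ‖G y‖ < δ0}

private theorem Obe3a_S1 {d L : ℕ} {k : ℝ} (hk : 0 < k) (t : boxS d L → ℝ)
    (ht : ∀ y, 0 ≤ t y) (z : boxS d L) : 1 ≤ SSt (boxNet d L) k t z := by
  unfold SSt
  have : 0 ≤ k ^ (1 / 16 : ℝ) * ∑ w, (1 / 2 : ℝ) ^ (boxNet d L).dist z w * t w :=
    mul_nonneg (Real.rpow_nonneg hk.le _)
      (Finset.sum_nonneg fun w _ => mul_nonneg (by positivity) (ht w))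
  linarith

/-- value of `V1²` at the nearest large site -/
private theorem Obe3a_val {d L : ℕ} {k q s : ℝ} (hk : 0 < k) (hk1 : k < 1) (hs : 0 < s)
    (hqs : 4 * q * s ≤ 1) (δ0 : ℝ) (hδ : 0 < δ0) (G : boxS d L → V) (x z : boxS d L)
    (hz : δ0 ≤ ‖G z‖) :
    V1 k q s (G, (0 : boxS d L → V)) x ^ 2 ≤
      ENNReal.ofReal ((k ^ (-(s / 2))) ^ (boxNet d L).dist x z * fpot k δ0 ^ (-(2 * s)) *
        SSt (boxNet d L) k (fun y => ‖G y‖) z ^ (1 / 2 : ℝ)) := by
  set r := (boxNet d L).dist x z with hr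
  set S := SSt (boxNet d L) k (fun y => ‖G y‖) z with hSdef
  have hS : 1 ≤ S := Obe3a_S1 hk _ (fun y => norm_nonneg _) z
  have hS0 : 0 < S := by linarith
  have hfz : 0 < fpot k ‖G z‖ := Obe3a_fpos (hδ.trans_le hz)
  have hf0 : 0 < fpot k δ0 := Obe3a_fpos hδ
  have ht : (fun y => ‖(G, (0 : boxS d L → V)).1 y‖ + ‖(G, (0 : boxS d L → V)).2 y‖) =
      fun y => ‖G y‖ := by
    funext y
    simp
  have hTpos : 0 < Tz (boxNet d L) k q (fun y => ‖G y‖) (fun y => ‖G y‖) x z := by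
    unfold Tz
    positivity
  have h1 : V1 k q s (G, (0 : boxS d L → V)) x ≤
      ENNReal.ofReal (Tz (boxNet d L) k q (fun y => ‖G y‖) (fun y => ‖G y‖) x z ^ (-s)) := by
    unfold V1
    rw [ht]
    unfold Vp
    rw [← ENNReal.ofReal_rpow_of_pos hTpos, ENNReal.rpow_neg, ENNReal.rpow_neg]
    refine ENNReal.inv_le_inv.mpr (ENNReal.rpow_le_rpow ?_ hs.le)
    exact Finset.le_sup (f := fun z => ENNReal.ofReal
      (Tz (boxNet d L) k q (fun y => ‖G y‖) (fun y => ‖G y‖) x z)) (Finset.mem_univ z)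
  refine (pow_le_pow_left' h1 2).trans ?_
  rw [← ENNReal.ofReal_pow (Real.rpow_nonneg hTpos.le _)]
  refine ENNReal.ofReal_le_ofReal ?_
  have e0 : (Tz (boxNet d L) k q (fun y => ‖G y‖) (fun y => ‖G y‖) x z ^ (-s)) ^ 2 =
      Tz (boxNet d L) k q (fun y => ‖G y‖) (fun y => ‖G y‖) x z ^ (-(2 * s)) := by
    rw [← Real.rpow_natCast, ← Real.rpow_mul hTpos.le]
    congr 1
    push_cast
    ring
  rw [e0]
  have e1 : Tz (boxNet d L) k q (fun y => ‖G y‖) (fun y => ‖G y‖) x z ^ (-(2 * s)) =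
      (k ^ (-(s / 2))) ^ r * fpot k ‖G z‖ ^ (-(2 * s)) * S ^ (2 * q * s) := by
    unfold Tz
    rw [← hr, ← hSdef]
    rw [Real.mul_rpow (by positivity) (by positivity), Real.mul_rpow (by positivity) hfz.le,
      ← Real.rpow_mul hS0.le]
    congr 1
    · congr 1
      rw [← Real.rpow_natCast, ← Real.rpow_mul hk.le, ← Real.rpow_mul hk.le,
        ← Real.rpow_natCast, ← Real.rpow_mul hk.le]
      congr 1
      ring
    · congr 1
      ring
  rw [e1]
  have e2 : fpot k ‖G z‖ ^ (-(2 * s)) ≤ fpot k δ0 ^ (-(2 * s)) :=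
    Real.rpow_le_rpow_of_nonpos hf0 (Obe3a_fmono hk hk1 hδ hz) (by linarith)
  have e3 : S ^ (2 * q * s) ≤ S ^ (1 / 2 : ℝ) :=
    Real.rpow_le_rpow_of_exponent_le hS (by linarith)
  have e4 : 0 ≤ (k ^ (-(s / 2))) ^ r := pow_nonneg (Real.rpow_nonneg hk.le _) _
  have e5 : 0 ≤ fpot k ‖G z‖ ^ (-(2 * s)) := Real.rpow_nonneg hfz.le _
  have e6 : 0 ≤ S ^ (2 * q * s) := Real.rpow_nonneg hS0.le _
  exact mul_le_mul (mul_le_mul_of_nonneg_left e2 e4) e3 e6 (mul_nonneg e4 (e5.trans e2))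

/-- numerical inequality -/
private theorem Obe3a_amgm (e S : ℝ) (he : 0 < e) (hS : 0 ≤ S) :
    S ^ (1 / 2 : ℝ) ≤ 1 / (2 * e) + e / 2 * S := by
  rw [← Real.sqrt_eq_rpow]
  have h1 : Real.sqrt S ^ 2 = S := Real.sq_sqrt hS
  have h2 : 0 ≤ (1 / e) * (e * Real.sqrt S - 1) ^ 2 := by positivity
  have h3 : (1 / e) * (e * Real.sqrt S - 1) ^ 2 = e * S - 2 * Real.sqrt S + 1 / e := by
    have : (e * Real.sqrt S - 1) ^ 2 = e ^ 2 * (Real.sqrt S ^ 2) - 2 * e * Real.sqrt S + 1 := by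
      ring
    rw [this, h1]
    field_simp
  have h4 : 1 / (2 * e) = (1 / e) / 2 := by field_simp
  rw [h4]
  linarith

/-- pointwise bound off the bad event -/
private theorem Obe3a_pt {d L : ℕ} {k q s : ℝ} (hk : 0 < k) (hk1 : k < 1) (hs : 0 < s)
    (hqs : 4 * q * s ≤ 1) (δ0 : ℝ) (hδ : 0 < δ0) (e : ℝ) (he : 0 < e) (G : boxS d L → V)
    (hG : G ∈ (EL d L δ0)ᶜ) (x : boxS d L) :
    V1 k q s (G, (0 : boxS d L → V)) x ^ 2 ≤
      ∑ z, ENNReal.ofReal ((k ^ (-(s / 2))) ^ (boxNet d L).dist x z * fpot k δ0 ^ (-(2 * s))) *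
        (ENNReal.ofReal (1 / (2 * e ^ (boxNet d L).dist x z)) *
            (Obe3a_A δ0 x z).indicator 1 G +
          ENNReal.ofReal (e ^ (boxNet d L).dist x z / 2) *
            ENNReal.ofReal (SSt (boxNet d L) k (fun y => ‖G y‖) z)) := by
  classical
  have h1 : ∃ z, (boxNet d L).dist x z ≤ L ∧ δ0 ≤ ‖G z‖ := by
    by_contra hc
    push Not at hc
    exact hG ⟨x, hc⟩
  obtain ⟨z0, hz0L, hz0⟩ := h1
  obtain ⟨z, hz, hmin⟩ := Finset.exists_min_image
    (Finset.univ.filter fun z : boxS d L => δ0 ≤ ‖G z‖) (fun z => (boxNet d L).dist x z)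
    ⟨z0, Finset.mem_filter.mpr ⟨Finset.mem_univ _, hz0⟩⟩
  have hz' := (Finset.mem_filter.mp hz).2
  have hA : G ∈ Obe3a_A δ0 x z := by
    refine ⟨(hmin z0 (Finset.mem_filter.mpr ⟨Finset.mem_univ _, hz0⟩)).trans hz0L, ?_⟩
    intro y hy
    by_contra hc
    exact absurd (hmin y (Finset.mem_filter.mpr ⟨Finset.mem_univ _, not_lt.mp hc⟩))
      (not_le.mpr hy)
  have h2 := Obe3a_val hk hk1 hs hqs δ0 hδ G x z hz'
  refine h2.trans ?_
  refine le_trans ?_ (Finset.single_le_sum (f := fun z =>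
    ENNReal.ofReal ((k ^ (-(s / 2))) ^ (boxNet d L).dist x z * fpot k δ0 ^ (-(2 * s))) *
        (ENNReal.ofReal (1 / (2 * e ^ (boxNet d L).dist x z)) *
            (Obe3a_A δ0 x z).indicator 1 G +
          ENNReal.ofReal (e ^ (boxNet d L).dist x z / 2) *
            ENNReal.ofReal (SSt (boxNet d L) k (fun y => ‖G y‖) z)))
    (fun _ _ => bot_le) (Finset.mem_univ z))
  rw [ENNReal.ofReal_mul (by
    have := Obe3a_fpos (k := k) hδ
    positivity)]
  refine mul_le_mul_right ?_ _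
  rw [Set.indicator_of_mem hA, Pi.one_apply, mul_one]
  have hS : 0 ≤ SSt (boxNet d L) k (fun y => ‖G y‖) z :=
    le_trans zero_le_one (Obe3a_S1 hk _ (fun y => norm_nonneg _) z)
  rw [← ENNReal.ofReal_mul (by positivity), ← ENNReal.ofReal_add (by positivity)
    (mul_nonneg (by positivity) hS)]
  exact ENNReal.ofReal_le_ofReal (Obe3a_amgm _ _ (pow_pos he _) hS)

end main

section main2

variable {V : Type} [NormedAddCommGroup V] [MeasurableSpace V] [BorelSpace V]

private theorem Obe3a_mA {d L : ℕ} (δ0 : ℝ) (x z : boxS d L) :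
    MeasurableSet (Obe3a_A (V := V) δ0 x z) := by
  have : Obe3a_A (V := V) δ0 x z = {G | (boxNet d L).dist x z ≤ L} ∩
      ⋂ y, {G : boxS d L → V | (boxNet d L).dist x y < (boxNet d L).dist x z → ‖G y‖ < δ0} := by
    ext G
    simp only [Obe3a_A, Set.mem_inter_iff, Set.mem_iInter, Set.mem_ofPred_eq]
  rw [this]
  refine MeasurableSet.inter (MeasurableSet.const _) (MeasurableSet.iInter fun y => ?_)
  by_cases h : (boxNet d L).dist x y < (boxNet d L).dist x z
  · have : {G : boxS d L → V | (boxNet d L).dist x y < (boxNet d L).dist x z → ‖G y‖ < δ0} =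
        {G | ‖G y‖ < δ0} := by
      ext G; simp [h]
    rw [this]
    exact measurableSet_lt ((measurable_pi_apply y).norm) measurable_const
  · have : {G : boxS d L → V | (boxNet d L).dist x y < (boxNet d L).dist x z → ‖G y‖ < δ0} =
        Set.univ := by
      ext G; simp [h]
    rw [this]
    exact MeasurableSet.univ

private theorem Obe3a_PA {d L : ℕ} (hd : 1 ≤ d) (ρ : Measure V) [IsProbabilityMeasure ρ]
    (δ0 : ℝ) (hδ : ρ {v | ‖v‖ < δ0} ≤ 1 / 2) (x z : boxS d L) :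
    Measure.pi (fun _ : boxS d L => ρ) (Obe3a_A δ0 x z) ≤
      ENNReal.ofReal ((1 / 2) ^ (boxNet d L).dist x z) := by
  have hhalf : ENNReal.ofReal ((1 / 2 : ℝ) ^ (boxNet d L).dist x z) =
      (1 / 2 : ℝ≥0∞) ^ (boxNet d L).dist x z := by
    rw [ENNReal.ofReal_pow (by positivity)]
    congr 1
    rw [ENNReal.ofReal_div_of_pos (by norm_num)]
    simp
  rw [hhalf]
  by_cases hL : (boxNet d L).dist x z ≤ L
  · rcases Nat.eq_zero_or_pos ((boxNet d L).dist x z) with h0 | h0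
    · rw [h0, pow_zero]
      exact prob_le_one
    · obtain ⟨T, hT1, hT2⟩ := Obe3a_near hd x ((boxNet d L).dist x z - 1) (by omega)
      refine le_trans (measure_mono ?_) (Obe3a_small ρ δ0 hδ T _ (show _ ≤ T.card by omega))
      intro G hG w hw
      exact hG.2 w (by have := hT2 w hw; omega)
  · have : Obe3a_A (V := V) δ0 x z = ∅ := by
      ext G
      simp [Obe3a_A, hL]
    rw [this, measure_empty]
    exact bot_le

/-- mean of `S` -/
private theorem Obe3a_mean {d L : ℕ} {k : ℝ} (hk : 0 < k) (hk1 : k < 1) (ρ : Measure V)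
    [IsProbabilityMeasure ρ] (h1 : Integrable (fun v : V => ‖v‖) ρ) (z : boxS d L) :
    ∫⁻ G, ENNReal.ofReal (SSt (boxNet d L) k (fun y => ‖G y‖) z)
        ∂(Measure.pi (fun _ : boxS d L => ρ)) ≤
      ENNReal.ofReal (1 + 3 ^ d * ∫ v, ‖v‖ ∂ρ) := by
  have hM : 0 ≤ ∫ v, ‖v‖ ∂ρ := integral_nonneg fun v => norm_nonneg v
  have hmp : ∀ w : boxS d L, MeasurePreserving (Function.eval w)
      (Measure.pi (fun _ : boxS d L => ρ)) ρ := fun w =>
    measurePreserving_eval (fun _ : boxS d L => ρ) w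
  have hi : ∀ w : boxS d L, Integrable (fun G : boxS d L → V => ‖G w‖)
      (Measure.pi (fun _ : boxS d L => ρ)) := fun w =>
    (hmp w).integrable_comp_of_integrable h1
  have he : ∀ w : boxS d L, ∫ G : boxS d L → V, ‖G w‖ ∂(Measure.pi (fun _ : boxS d L => ρ)) =
      ∫ v, ‖v‖ ∂ρ := by
    intro w
    have h2 := integral_map (μ := Measure.pi (fun _ : boxS d L => ρ))
      (φ := Function.eval w) (hmp w).measurable.aemeasurable
      (f := fun v : V => ‖v‖) (by rw [(hmp w).map_eq]; exact h1.aestronglyMeasurable)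
    rw [(hmp w).map_eq] at h2
    exact h2.symm
  have hint : Integrable (fun G : boxS d L → V => SSt (boxNet d L) k (fun y => ‖G y‖) z)
      (Measure.pi (fun _ : boxS d L => ρ)) := by
    unfold SSt
    exact (integrable_const _).add ((integrable_finsetSum _
      fun w _ => (hi w).const_mul _).const_mul _)
  rw [← ofReal_integral_eq_lintegral_ofReal hint (Filter.Eventually.of_forall fun G =>
    le_trans zero_le_one (Obe3a_S1 hk _ (fun y => norm_nonneg _) z))]
  refine ENNReal.ofReal_le_ofReal ?_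
  unfold SSt
  rw [integral_add (integrable_const _) ((integrable_finsetSum _
      fun w _ => (hi w).const_mul _).const_mul _), integral_const_mul,
    integral_finsetSum _ fun w _ => (hi w).const_mul _]
  have e1 : ∑ w, ∫ G : boxS d L → V, (1 / 2 : ℝ) ^ (boxNet d L).dist z w * ‖G w‖
      ∂(Measure.pi (fun _ : boxS d L => ρ)) =
      (∑ w, (1 / 2 : ℝ) ^ (boxNet d L).dist z w) * ∫ v, ‖v‖ ∂ρ := by
    rw [Finset.sum_mul]
    exact Finset.sum_congr rfl fun w _ => by rw [integral_const_mul, he w]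
  rw [e1]
  have e2 := (boxNet d L).sum_half z
  have e3 : k ^ (1 / 16 : ℝ) ≤ 1 := Real.rpow_le_one hk.le hk1.le (by norm_num)
  have e4 : 0 ≤ k ^ (1 / 16 : ℝ) := Real.rpow_nonneg hk.le _
  have e5 : 0 ≤ ∑ w, (1 / 2 : ℝ) ^ (boxNet d L).dist z w :=
    Finset.sum_nonneg fun w _ => by positivity
  have e6 : k ^ (1 / 16 : ℝ) * ((∑ w, (1 / 2 : ℝ) ^ (boxNet d L).dist z w) * ∫ v, ‖v‖ ∂ρ) ≤
      3 ^ d * ∫ v, ‖v‖ ∂ρ := by
    calc k ^ (1 / 16 : ℝ) * ((∑ w, (1 / 2 : ℝ) ^ (boxNet d L).dist z w) * ∫ v, ‖v‖ ∂ρ)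
        ≤ 1 * ((∑ w, (1 / 2 : ℝ) ^ (boxNet d L).dist z w) * ∫ v, ‖v‖ ∂ρ) :=
          mul_le_mul_of_nonneg_right e3 (mul_nonneg e5 hM)
      _ ≤ 3 ^ d * ∫ v, ‖v‖ ∂ρ := by
          rw [one_mul]
          exact mul_le_mul_of_nonneg_right e2 hM
  simpa using e6

end main2

theorem V_start {V : Type} [NormedAddCommGroup V] [InnerProductSpace ℝ V] [MeasurableSpace V]
    [BorelSpace V] [SecondCountableTopology V]
    (d : ℕ) (hd : 1 ≤ d)
    (k q s : ℝ) (hk : 0 < k) (hk1 : k < 1) (hq : 1 ≤ q) (hs : 0 < s) (hqs : 4 * q * s ≤ 1)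
    (hks : k ^ (-s) ≤ 11 / 10) (ρ : Measure V) [IsProbabilityMeasure ρ] (h0 : ρ {0} = 0)
    (h2 : Integrable (fun x : V => ‖x‖ ^ 2) ρ) :
    ∃ δ0 C : ℝ, 0 < δ0 ∧ 0 ≤ C ∧
      (∀ η : ℝ, 0 < η → ∃ L1 : ℕ, ∀ L, L1 ≤ L →
        Measure.pi (fun _ : boxS d L => ρ) (EL d L δ0) ≤ ENNReal.ofReal η) ∧
      ∀ (L : ℕ) (x : boxS d L),
        ∫⁻ G in (EL d L δ0)ᶜ, V1 k q s (G, (0 : boxS d L → V)) x ^ 2
          ∂(Measure.pi (fun _ : boxS d L => ρ)) ≤ ENNReal.ofReal C := by
  obtain ⟨δ0, hδ0, hδ⟩ := Obe3a_delta ρ h0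
  have h1 : Integrable (fun v : V => ‖v‖) ρ := by
    refine Integrable.mono' ((integrable_const (1 : ℝ)).add h2) continuous_norm.aestronglyMeasurable
      (Filter.Eventually.of_forall fun v => ?_)
    rw [norm_norm]
    simp only [Pi.add_apply]
    nlinarith [sq_nonneg (‖v‖ - 1), norm_nonneg v]
  set M : ℝ := ∫ v, ‖v‖ ∂ρ with hMdef
  have hM : 0 ≤ M := integral_nonneg fun v => norm_nonneg v
  have hf0 : 0 < fpot k δ0 := Obe3a_fpos hδ0
  set e : ℝ := Real.sqrt (1 / 2) with hedef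
  have he : 0 < e := Real.sqrt_pos.mpr (by norm_num)
  have he2 : e * e = 1 / 2 := Real.mul_self_sqrt (by norm_num)
  set κ : ℝ := k ^ (-(s / 2)) with hκdef
  have hκ0 : 0 < κ := Real.rpow_pos_of_pos hk _
  have hκe : κ * e ≤ 3 / 4 := by
    have h3 : κ * κ = k ^ (-s) := by
      rw [hκdef, ← Real.rpow_add hk]
      congr 1
      ring
    have h4 : (κ * e) ^ 2 ≤ (3 / 4) ^ 2 := by
      calc (κ * e) ^ 2 = (κ * κ) * (e * e) := by ring
        _ ≤ (11 / 10) * (1 / 2) := by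
            rw [h3, he2]
            linarith
        _ ≤ (3 / 4) ^ 2 := by norm_num
    exact (abs_le_of_sq_le_sq' h4 (by norm_num)).2
  set F : ℝ := fpot k δ0 ^ (-(2 * s)) with hFdef
  have hF : 0 < F := Real.rpow_pos_of_pos hf0 _
  refine ⟨δ0, F * ((1 / 2 + (1 + 3 ^ d * M) / 2)) * 7 ^ d, hδ0, by positivity, ?_, ?_⟩
  · intro η hη
    obtain ⟨L1, hL1⟩ := Obe3a_tend d η hη
    exact ⟨L1, fun L hL => (Obe3a_EL hd ρ δ0 hδ).trans (ENNReal.ofReal_le_ofReal (hL1 L hL))⟩
  · intro L x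
    have hmEL : MeasurableSet ((EL d L δ0)ᶜ : Set (boxS d L → V)) := by
      refine MeasurableSet.compl ?_
      have : (EL d L δ0 : Set (boxS d L → V)) = ⋃ x, ⋂ z,
          {G : boxS d L → V | (boxNet d L).dist x z ≤ L → ‖G z‖ < δ0} := by
        ext G
        simp only [EL, Set.mem_iUnion, Set.mem_iInter, Set.mem_ofPred_eq]
      rw [this]
      refine MeasurableSet.iUnion fun x => MeasurableSet.iInter fun z => ?_
      by_cases h : (boxNet d L).dist x z ≤ L
      · have : {G : boxS d L → V | (boxNet d L).dist x z ≤ L → ‖G z‖ < δ0} =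
            {G | ‖G z‖ < δ0} := by
          ext G; simp [h]
        rw [this]
        exact measurableSet_lt ((measurable_pi_apply z).norm) measurable_const
      · have : {G : boxS d L → V | (boxNet d L).dist x z ≤ L → ‖G z‖ < δ0} = Set.univ := by
          ext G; simp [h]
        rw [this]
        exact MeasurableSet.univ
    have hmS : ∀ z : boxS d L, Measurable (fun G : boxS d L → V =>
        ENNReal.ofReal (SSt (boxNet d L) k (fun y => ‖G y‖) z)) := by
      intro z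
      refine ENNReal.measurable_ofReal.comp ?_
      unfold SSt
      refine measurable_const.add (measurable_const.mul ?_)
      exact Finset.measurable_fun_sum _ fun w _ =>
        measurable_const.mul ((measurable_pi_apply w).norm)
    calc ∫⁻ G in (EL d L δ0)ᶜ, V1 k q s (G, (0 : boxS d L → V)) x ^ 2
          ∂(Measure.pi (fun _ : boxS d L => ρ))
        ≤ ∫⁻ G in (EL d L δ0)ᶜ, ∑ z, ENNReal.ofReal (κ ^ (boxNet d L).dist x z * F) *
        (ENNReal.ofReal (1 / (2 * e ^ (boxNet d L).dist x z)) *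
            (Obe3a_A δ0 x z).indicator 1 G +
          ENNReal.ofReal (e ^ (boxNet d L).dist x z / 2) *
            ENNReal.ofReal (SSt (boxNet d L) k (fun y => ‖G y‖) z))
          ∂(Measure.pi (fun _ : boxS d L => ρ)) := by
          refine setLIntegral_mono' hmEL fun G hG => ?_
          exact Obe3a_pt hk hk1 hs hqs δ0 hδ0 e he G hG x
      _ ≤ ∫⁻ G, ∑ z, ENNReal.ofReal (κ ^ (boxNet d L).dist x z * F) *
        (ENNReal.ofReal (1 / (2 * e ^ (boxNet d L).dist x z)) *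
            (Obe3a_A δ0 x z).indicator 1 G +
          ENNReal.ofReal (e ^ (boxNet d L).dist x z / 2) *
            ENNReal.ofReal (SSt (boxNet d L) k (fun y => ‖G y‖) z))
          ∂(Measure.pi (fun _ : boxS d L => ρ)) := setLIntegral_le_lintegral _ _
      _ = ∑ z, ENNReal.ofReal (κ ^ (boxNet d L).dist x z * F) *
        (ENNReal.ofReal (1 / (2 * e ^ (boxNet d L).dist x z)) *
            Measure.pi (fun _ : boxS d L => ρ) (Obe3a_A δ0 x z) +
          ENNReal.ofReal (e ^ (boxNet d L).dist x z / 2) *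
            ∫⁻ G, ENNReal.ofReal (SSt (boxNet d L) k (fun y => ‖G y‖) z)
              ∂(Measure.pi (fun _ : boxS d L => ρ))) := by
          rw [lintegral_finsetSum]
          · refine Finset.sum_congr rfl fun z _ => ?_
            rw [lintegral_const_mul, lintegral_add_left, lintegral_const_mul,
              lintegral_const_mul, lintegral_indicator_one (Obe3a_mA δ0 x z)]
            · exact hmS z
            · exact measurable_one.indicator (Obe3a_mA δ0 x z)
            · exact measurable_const.mul (measurable_one.indicator (Obe3a_mA δ0 x z))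
            · exact (measurable_const.mul (measurable_one.indicator (Obe3a_mA δ0 x z))).add
                (measurable_const.mul (hmS z))
          · intro z _
            exact measurable_const.mul ((measurable_const.mul
              (measurable_one.indicator (Obe3a_mA δ0 x z))).add (measurable_const.mul (hmS z)))
      _ ≤ ∑ z, ENNReal.ofReal ((3 / 4) ^ (boxNet d L).dist x z * F *
          (1 / 2 + (1 + 3 ^ d * M) / 2)) := by
          refine Finset.sum_le_sum fun z _ => ?_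
          set r := (boxNet d L).dist x z with hr
          have hPA := Obe3a_PA hd ρ δ0 hδ x z
          have hme := Obe3a_mean (k := k) hk hk1 ρ h1 z
          rw [← hMdef] at hme
          rw [← hr] at hPA
          have her : 0 < e ^ r := pow_pos he r
          calc ENNReal.ofReal (κ ^ r * F) *
              (ENNReal.ofReal (1 / (2 * e ^ r)) *
                Measure.pi (fun _ : boxS d L => ρ) (Obe3a_A δ0 x z) +
              ENNReal.ofReal (e ^ r / 2) *
                ∫⁻ G, ENNReal.ofReal (SSt (boxNet d L) k (fun y => ‖G y‖) z)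
                  ∂(Measure.pi (fun _ : boxS d L => ρ)))
              ≤ ENNReal.ofReal (κ ^ r * F) *
              (ENNReal.ofReal (1 / (2 * e ^ r)) * ENNReal.ofReal ((1 / 2) ^ r) +
              ENNReal.ofReal (e ^ r / 2) * ENNReal.ofReal (1 + 3 ^ d * M)) := by
                gcongr
            _ = ENNReal.ofReal (κ ^ r * F * (1 / (2 * e ^ r) * (1 / 2) ^ r +
                  e ^ r / 2 * (1 + 3 ^ d * M))) := by
                rw [← ENNReal.ofReal_mul (by positivity), ← ENNReal.ofReal_mul (by positivity),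
                  ← ENNReal.ofReal_add (by positivity) (by positivity),
                  ← ENNReal.ofReal_mul (by positivity)]
            _ ≤ _ := by
                refine ENNReal.ofReal_le_ofReal ?_
                have h5 : (1 / 2 : ℝ) ^ r = e ^ r * e ^ r := by
                  rw [← he2, mul_pow]
                have h6 : 1 / (2 * e ^ r) * (1 / 2) ^ r = e ^ r / 2 := by
                  rw [h5]
                  field_simp
                rw [h6]
                have h7 : κ ^ r * F * (e ^ r / 2 + e ^ r / 2 * (1 + 3 ^ d * M)) =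
                    (κ * e) ^ r * F * (1 / 2 + (1 + 3 ^ d * M) / 2) := by
                  rw [mul_pow]
                  ring
                rw [h7]
                have h8 : (κ * e) ^ r ≤ (3 / 4) ^ r :=
                  pow_le_pow_left₀ (by positivity) hκe r
                have h9 : 0 ≤ 1 / 2 + (1 + 3 ^ d * M) / 2 := by positivity
                exact mul_le_mul_of_nonneg_right (mul_le_mul_of_nonneg_right h8 hF.le) h9
      _ = ENNReal.ofReal (∑ z, (3 / 4) ^ (boxNet d L).dist x z * F *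
          (1 / 2 + (1 + 3 ^ d * M) / 2)) := by
          rw [ENNReal.ofReal_sum_of_nonneg fun z _ => by positivity]
      _ ≤ ENNReal.ofReal (F * ((1 / 2 + (1 + 3 ^ d * M) / 2)) * 7 ^ d) := by
          refine ENNReal.ofReal_le_ofReal ?_
          rw [← Finset.sum_mul, ← Finset.sum_mul]
          have h10 := Obe3a_geom (3 / 4) (by norm_num) (by norm_num) d L x
          have h11 : ((1 - 3 / 4 : ℝ)⁻¹ + 3 / 4 * (1 - 3 / 4)⁻¹) = 7 := by norm_num
          rw [h11] at h10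
          have h12 : 0 ≤ F * (1 / 2 + (1 + 3 ^ d * M) / 2) := by positivity
          calc (∑ z, (3 / 4 : ℝ) ^ (boxNet d L).dist x z) * F * (1 / 2 + (1 + 3 ^ d * M) / 2)
              = (∑ z, (3 / 4 : ℝ) ^ (boxNet d L).dist x z) *
                (F * (1 / 2 + (1 + 3 ^ d * M) / 2)) := by ring
            _ ≤ 7 ^ d * (F * (1 / 2 + (1 + 3 ^ d * M) / 2)) :=
                mul_le_mul_of_nonneg_right h10 h12
            _ = _ := by ring

end DynC

end

/-! ### from `Lib_MP_36b788c.Obe3c` -/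

section

/-!
# Initial laws

PROOF.
* `V_start`: i.i.d. law `ρ` without atom at `0`: choose `δ0 ∈ (0,1]` with `ρ(‖v‖ ≥ δ0) ≥ 1/2`. The event `E_L`: for some site `x` of the box there is no site `z` with `‖G z‖ ≥ δ0` within distance `L`. There are at least
  `r + 1` sites within distance `r ≤ L` of `x` (move in one coordinate direction), so `P(no such site within r) ≤ 2^{-(r+1)}` and `P(E_L) ≤ |box| 2^{-L} → 0`. Off `E_L` let `r` = distance from `x` to the nearest such site `z`: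
  `V1(x)² ≤ (k^{r/4} fpot(δ0) SSt(z)^{-q})^{-2s} = k^{-rs/2} fpot(δ0)^{-2s} SSt(z)^{2qs}`. Sum over `z`: `E[V1(x)²; E_L^c] ≤ Σ_z k^{-s|x-z|/2} fpot(δ0)^{-2s} E[1{nearest at distance |x-z|} SSt(z)^{2qs}]`, Cauchy-Schwarz:
  `≤ Σ_z k^{-s|x-z|/2} C 2^{-|x-z|/2} (E SSt(z)^{4qs})^{1/2}`, `E SSt ≤ 1 + 3^d E‖v‖`, `4qs ≤ 1`; converges uniformly in `L` if `k^{-s/2} 2^{-1/2} ≤ 9/10`... (hypothesis `hks : k^{-s} ≤ 11/10`, and the number of `z` at distance `r` is at most `(2r+1)^d`).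
* `V_all`: pair system started at `(G, 0)`: the second component stays `0` on good noise (`q2`). `m_j = (E[V1(x)²(tr (j n_B)); alv, E_L^c])^{1/2} ≤ κ' m_{j-1} + CV` (`ly`, Minkowski in the initial configuration, Markov property by `lintegral_glue`), `κ' ≤ 1/2`, then `gV` for the remainder.
  So `E[V1(x)²(tr n); alv, E_L^c] ≤ CI` uniformly in `n, L, h, x`.
* `mom` gives `E[‖G_n x‖; alv] ≤ CM (1 + E Yl) ≤ C`.
* `init_of_blk`: `G = G_{n1}`, `G' = G'_{n2}` independent (two independent copies of the system started from `(G_0,0)`, `(G'_0,0)`). `tele` and `Cls`: `‖f G - f G'‖ ≤ Σ 4A(x) D(x)^θ w(x) + …`. `E[D(x)^θ w(x); good] ≤ (E D^{2θ})^{1/2} (E w²)^{1/2}`,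
  `D^{2θ} ≤ 1 + ‖G x‖ + ‖G' x‖`. For the joint `S`: `SSt(u+u') ≤ SSt(u) SSt(u')`, so with `z* = z*(G)` the maximizer for `G` alone, `V1(G,G')(x) ≤ V1(G,0)(x) SSt(u')(z*)^{qs}` and by independence `E[V1(G,G')(x)²; good] ≤ E[V1(G,0)(x)²; good] sup_z E[SSt(u')(z)^{2qs}; good] ≤ C`.
  Minkowski over `z` in `wpr`. The exceptional events: `E_L` (probability `≤ η/8` for `L ≥ L1`), `alv^c` (`exit`, `E Σ‖G_0‖ < ∞`), on which `‖f G - f G'‖ ≤ 2`. Additive term: `sum`.
-/

open MeasureTheory ProbabilityTheory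
open scoped ENNReal

namespace DynC

open Dyn

variable {d : ℕ}

/-! ### Measurability -/

private theorem Obe3c_gX : Measurable gX := by
  unfold gX
  refine Measurable.ite measurableSet_Iic measurable_id ?_
  refine Measurable.ite measurableSet_Iic (by fun_prop) ?_
  exact Measurable.ite measurableSet_Iic measurable_const (by fun_prop)

private theorem Obe3c_fpot (k : ℝ) : Measurable (fpot k) := by
  unfold fpot
  refine Measurable.ite measurableSet_Iic measurable_const ?_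
  exact Real.measurable_exp.comp
    ((Obe3c_gX.comp (Real.measurable_log.div_const (ell k))).const_mul (ell k))

private theorem Obe3c_mSSt {α : Type} [MeasurableSpace α] {L : ℕ} (k : ℝ)
    (t : α → boxS d L → ℝ) (ht : ∀ y, Measurable fun a => t a y) (y : boxS d L) :
    Measurable fun a => SSt (boxNet d L) k (t a) y := by
  unfold SSt
  refine Measurable.const_add ?_ _
  refine Measurable.const_mul ?_ _
  exact Finset.measurable_sum _ fun w _ => (ht w).const_mul _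

private theorem Obe3c_mVp {α : Type} [MeasurableSpace α] {L : ℕ} (k q s : ℝ) (x : boxS d L)
    (u t : α → boxS d L → ℝ) (hu : ∀ y, Measurable fun a => u a y)
    (ht : ∀ y, Measurable fun a => t a y) :
    Measurable fun a => Vp (boxNet d L) k q s (u a) (t a) x := by
  unfold Vp
  refine Measurable.pow_const ?_ _
  have h1 : ∀ z : boxS d L, Measurable fun a => ENNReal.ofReal (Tz (boxNet d L) k q (u a) (t a) x z) := by
    intro z
    refine ENNReal.measurable_ofReal.comp ?_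
    unfold Tz
    refine Measurable.mul (Measurable.const_mul ((Obe3c_fpot k).comp (hu z)) _) ?_
    exact (Obe3c_mSSt k t ht z).pow_const _
  have h2 : ∀ S : Finset (boxS d L), Measurable fun a => S.sup fun z =>
      ENNReal.ofReal (Tz (boxNet d L) k q (u a) (t a) x z) := by
    classical
    intro S
    induction S using Finset.induction_on with
    | empty => simp only [Finset.sup_empty]; exact measurable_const
    | insert z S _ ih =>
      simp only [Finset.sup_insert]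
      exact (h1 z).sup ih
  exact h2 Finset.univ

/-! ### The joint `S` -/

private theorem Obe3c_S1 {L : ℕ} {k : ℝ} (hk : 0 < k) (t : boxS d L → ℝ) (ht : ∀ w, 0 ≤ t w)
    (z : boxS d L) : 1 ≤ SSt (boxNet d L) k t z := by
  unfold SSt
  have h1 : 0 ≤ k ^ (1 / 16 : ℝ) := (Real.rpow_pos_of_pos hk _).le
  have h2 : 0 ≤ ∑ w, (1 / 2 : ℝ) ^ (boxNet d L).dist z w * t w :=
    Finset.sum_nonneg fun w _ => mul_nonneg (by positivity) (ht w)
  nlinarith [mul_nonneg h1 h2]

private theorem Obe3c_Sadd {L : ℕ} {k : ℝ} (hk : 0 < k) (t t' : boxS d L → ℝ) (ht : ∀ w, 0 ≤ t w)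
    (ht' : ∀ w, 0 ≤ t' w) (z : boxS d L) :
    SSt (boxNet d L) k (fun w => t w + t' w) z ≤
      SSt (boxNet d L) k t z * SSt (boxNet d L) k t' z := by
  unfold SSt
  have h1 : 0 ≤ k ^ (1 / 16 : ℝ) := (Real.rpow_pos_of_pos hk _).le
  have h2 : 0 ≤ ∑ w, (1 / 2 : ℝ) ^ (boxNet d L).dist z w * t w :=
    Finset.sum_nonneg fun w _ => mul_nonneg (by positivity) (ht w)
  have h3 : 0 ≤ ∑ w, (1 / 2 : ℝ) ^ (boxNet d L).dist z w * t' w :=
    Finset.sum_nonneg fun w _ => mul_nonneg (by positivity) (ht' w)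
  have h4 : ∑ w, (1 / 2 : ℝ) ^ (boxNet d L).dist z w * (t w + t' w) =
      ∑ w, (1 / 2 : ℝ) ^ (boxNet d L).dist z w * t w +
        ∑ w, (1 / 2 : ℝ) ^ (boxNet d L).dist z w * t' w := by
    rw [← Finset.sum_add_distrib]
    exact Finset.sum_congr rfl fun w _ => by ring
  rw [h4]
  nlinarith only [h1, h2, h3, mul_nonneg (mul_nonneg h1 h2) (mul_nonneg h1 h3)]

/-- adding a nonnegative field to the joint `S` costs at most a factor `SSt t'` at one site which
depends only on the old field -/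
private theorem Obe3c_Vadd {L : ℕ} {k q s : ℝ} (hk : 0 < k) (hq : 0 ≤ q) (hs : 0 < s)
    (hqs : 2 * q * s ≤ 1) (u t : boxS d L → ℝ) (ht : ∀ w, 0 ≤ t w) (z : boxS d L) :
    ∃ y : boxS d L, ∀ t' : boxS d L → ℝ, (∀ w, 0 ≤ t' w) →
      Vp (boxNet d L) k q s u (fun w => t w + t' w) z ^ 2 ≤
        Vp (boxNet d L) k q s u t z ^ 2 * ENNReal.ofReal (SSt (boxNet d L) k t' y) := by
  obtain ⟨y, -, hy⟩ := Finset.exists_mem_eq_sup (Finset.univ : Finset (boxS d L)) ⟨z, Finset.mem_univ z⟩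
    (fun y => ENNReal.ofReal (Tz (boxNet d L) k q u t z y))
  refine ⟨y, fun t' ht' => ?_⟩
  have hS' := Obe3c_S1 hk t' ht' y
  have hS := Obe3c_S1 hk t ht y
  rcases le_or_gt (Tz (boxNet d L) k q u t z y) 0 with h0 | h0
  · have h1 : Vp (boxNet d L) k q s u t z = ⊤ := by
      unfold Vp
      rw [hy, ENNReal.ofReal_of_nonpos h0]
      exact ENNReal.zero_rpow_of_neg (by linarith)
    rw [h1]
    have h2 : (⊤ : ℝ≥0∞) ^ 2 * ENNReal.ofReal (SSt (boxNet d L) k t' y) = ⊤ := by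
      rw [ENNReal.top_pow (by norm_num)]
      refine ENNReal.top_mul ?_
      rw [Ne, ENNReal.ofReal_eq_zero, not_le]
      linarith
    rw [h2]
    exact le_top
  · set T := Tz (boxNet d L) k q u t z y with hT
    set S' := SSt (boxNet d L) k t' y with hS'def
    have h3 : T * S' ^ (-q) ≤ Tz (boxNet d L) k q u (fun w => t w + t' w) z y := by
      have hA : 0 ≤ (k ^ (1 / 4 : ℝ)) ^ (boxNet d L).dist z y * fpot k (u y) := by
        by_contra hneg
        rw [not_le] at hneg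
        have h4 : T < 0 := by
          rw [hT]
          unfold Tz
          exact mul_neg_of_neg_of_pos hneg (Real.rpow_pos_of_pos (by linarith) _)
        linarith
      have h5 : SSt (boxNet d L) k t y ^ (-q) * S' ^ (-q) ≤
          SSt (boxNet d L) k (fun w => t w + t' w) y ^ (-q) := by
        rw [← Real.mul_rpow (by linarith) (by linarith)]
        have h6 := Obe3c_S1 hk (fun w => t w + t' w) (fun w => add_nonneg (ht w) (ht' w)) y
        exact Real.rpow_le_rpow_of_nonpos (by linarith) (Obe3c_Sadd hk t t' ht ht' y) (by linarith)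
      rw [hT]
      unfold Tz
      rw [mul_assoc]
      exact mul_le_mul_of_nonneg_left h5 hA
    have hS'q : 0 < S' ^ (-q) := Real.rpow_pos_of_pos (by linarith) _
    have h7 : Vp (boxNet d L) k q s u (fun w => t w + t' w) z ≤
        ENNReal.ofReal (T ^ (-s) * S' ^ (q * s)) := by
      unfold Vp
      have h8 : ENNReal.ofReal (T * S' ^ (-q)) ≤ Finset.univ.sup fun y =>
          ENNReal.ofReal (Tz (boxNet d L) k q u (fun w => t w + t' w) z y) :=
        le_trans (ENNReal.ofReal_le_ofReal h3)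
          (Finset.le_sup (f := fun y => ENNReal.ofReal
            (Tz (boxNet d L) k q u (fun w => t w + t' w) z y)) (Finset.mem_univ y))
      have h9 : T ^ (-s) * S' ^ (q * s) = (T * S' ^ (-q)) ^ (-s) := by
        rw [Real.mul_rpow h0.le hS'q.le, ← Real.rpow_mul (by linarith)]
        congr 2
        ring
      rw [h9, ← ENNReal.ofReal_rpow_of_pos (mul_pos h0 hS'q), ENNReal.rpow_neg, ENNReal.rpow_neg]
      exact ENNReal.inv_le_inv.mpr (ENNReal.rpow_le_rpow h8 hs.le)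
    have h10 : Vp (boxNet d L) k q s u t z = ENNReal.ofReal (T ^ (-s)) := by
      unfold Vp
      rw [hy]
      exact ENNReal.ofReal_rpow_of_pos h0
    calc Vp (boxNet d L) k q s u (fun w => t w + t' w) z ^ 2
        ≤ ENNReal.ofReal (T ^ (-s) * S' ^ (q * s)) ^ 2 := pow_le_pow_left' h7 2
      _ = ENNReal.ofReal (T ^ (-s)) ^ 2 * ENNReal.ofReal ((S' ^ (q * s)) ^ 2) := by
          rw [ENNReal.ofReal_mul (Real.rpow_nonneg h0.le _), mul_pow,
            ENNReal.ofReal_pow (Real.rpow_nonneg (by linarith) _)]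
      _ ≤ Vp (boxNet d L) k q s u t z ^ 2 * ENNReal.ofReal S' := by
          rw [h10]
          refine mul_le_mul' le_rfl (ENNReal.ofReal_le_ofReal ?_)
          rw [← Real.rpow_natCast, ← Real.rpow_mul (by linarith)]
          calc S' ^ (q * s * ((2 : ℕ) : ℝ)) ≤ S' ^ (1 : ℝ) :=
                Real.rpow_le_rpow_of_exponent_le hS' (by push_cast; linarith)
            _ = S' := Real.rpow_one _

private theorem Obe3c_Vmono {L : ℕ} {k q s : ℝ} (hk : 0 < k) (hq : 0 ≤ q) (hs : 0 < s)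
    (u t t' : boxS d L → ℝ) (ht : ∀ w, 0 ≤ t w) (htt : ∀ w, t w ≤ t' w) (z : boxS d L) :
    Vp (boxNet d L) k q s u t z ≤ Vp (boxNet d L) k q s u t' z := by
  unfold Vp
  rw [ENNReal.rpow_neg, ENNReal.rpow_neg]
  refine ENNReal.inv_le_inv.mpr (ENNReal.rpow_le_rpow ?_ hs.le)
  refine Finset.sup_mono_fun fun y _ => ?_
  rcases le_or_gt (Tz (boxNet d L) k q u t' z y) 0 with h0 | h0
  · rw [ENNReal.ofReal_of_nonpos h0]
    exact zero_le
  · refine ENNReal.ofReal_le_ofReal ?_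
    unfold Tz at h0 ⊢
    have hS := Obe3c_S1 hk t ht y
    have hS' := Obe3c_S1 hk t' (fun w => (ht w).trans (htt w)) y
    have hA : 0 ≤ (k ^ (1 / 4 : ℝ)) ^ (boxNet d L).dist z y * fpot k (u y) := by
      by_contra hneg
      rw [not_le] at hneg
      have h4 := mul_neg_of_neg_of_pos hneg (Real.rpow_pos_of_pos (by linarith :
        0 < SSt (boxNet d L) k t' y) (-q))
      linarith
    refine mul_le_mul_of_nonneg_left ?_ hA
    refine Real.rpow_le_rpow_of_nonpos (by linarith) ?_ (by linarith)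
    unfold SSt
    have h1 : 0 ≤ k ^ (1 / 16 : ℝ) := (Real.rpow_pos_of_pos hk _).le
    have h2 : ∑ w, (1 / 2 : ℝ) ^ (boxNet d L).dist y w * t w ≤
        ∑ w, (1 / 2 : ℝ) ^ (boxNet d L).dist y w * t' w :=
      Finset.sum_le_sum fun w _ => mul_le_mul_of_nonneg_left (htt w) (by positivity)
    nlinarith only [h2, h1, mul_le_mul_of_nonneg_left h2 h1]


/-! ### Law of the chain -/

private theorem Obe3c_mtraj (F : Fam d) (h : ℝ) (L n : ℕ) :
    Measurable fun p : (boxS d L → F.V) × (ℕ → boxS d L → F.Ω0) =>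
      traj (F.st h L) p.1 p.2 n := by
  induction n with
  | zero => exact measurable_fst
  | succ n ih =>
    show Measurable fun p : (boxS d L → F.V) × (ℕ → boxS d L → F.Ω0) =>
      F.st h L (traj (F.st h L) p.1 p.2 n) (p.2 n)
    exact (F.mst h L).comp (ih.prodMk ((measurable_pi_apply n).comp measurable_snd))

private theorem Obe3c_mst (F : Fam d) (h : ℝ) (L : ℕ) :
    Measurable fun q : (boxS d L → F.V) × (boxS d L → F.Ω0) => F.st h L q.1 q.2 :=
  F.mst h L

private theorem Obe3c_law (F : Fam d) (h : ℝ) (L : ℕ) (m0 : Measure (boxS d L → F.V))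
    [IsProbabilityMeasure m0] (n : ℕ) :
    IsProbabilityMeasure (F.law h L m0 n) ∧
    ∀ g : (boxS d L → F.V) → ℝ≥0∞, Measurable g →
      ∫⁻ G, g G ∂(F.law h L m0 n) =
        ∫⁻ G, ∫⁻ ω, g (traj (F.st h L) G ω n) ∂(PI (F.mu L)) ∂m0 := by
  induction n with
  | zero =>
    refine ⟨(inferInstance : IsProbabilityMeasure m0), fun g _ => ?_⟩
    show ∫⁻ G, g G ∂m0 = ∫⁻ G, ∫⁻ _, g G ∂(PI (F.mu L)) ∂m0
    refine lintegral_congr fun G => ?_
    have : IsProbabilityMeasure (PI (F.mu L)) := by unfold PI; infer_instance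
    rw [lintegral_const, measure_univ, mul_one]
  | succ n ih =>
    obtain ⟨hp, ih⟩ := ih
    refine ⟨?_, fun g hg => ?_⟩
    · show IsProbabilityMeasure (((F.law h L m0 n).prod (F.mu L)).map
        (fun q => F.st h L q.1 q.2))
      exact Measure.isProbabilityMeasure_map (Obe3c_mst F h L).aemeasurable
    · show ∫⁻ G, g G ∂(((F.law h L m0 n).prod (F.mu L)).map (fun q => F.st h L q.1 q.2)) = _
      have m1 : Measurable fun q : (boxS d L → F.V) × (boxS d L → F.Ω0) =>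
          g (F.st h L q.1 q.2) := hg.comp (Obe3c_mst F h L)
      rw [lintegral_map hg (Obe3c_mst F h L), lintegral_prod _ m1.aemeasurable]
      have m2 : Measurable fun G : boxS d L → F.V => ∫⁻ ξ, g (F.st h L G ξ) ∂(F.mu L) :=
        m1.lintegral_prod_right'
      rw [ih _ m2]
      refine lintegral_congr fun G => ?_
      have m3 : Measurable fun ω : ℕ → boxS d L → F.Ω0 => g (traj (F.st h L) G ω (n + 1)) :=
        hg.comp ((Obe3c_mtraj F h L (n + 1)).comp (measurable_const.prodMk measurable_id))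
      rw [lintegral_glue n (fun ω => g (traj (F.st h L) G ω (n + 1))) m3]
      refine lintegral_congr fun a => ?_
      have e1 : ∀ b : ℕ → boxS d L → F.Ω0, traj (F.st h L) G (glue n a b) (n + 1) =
          F.st h L (traj (F.st h L) G a n) (b 0) := fun b =>
        traj_glue_add (F.st h L) G n a b 1
      simp only [e1]
      have m4 : Measurable fun ξ : boxS d L → F.Ω0 => g (F.st h L (traj (F.st h L) G a n) ξ) :=
        m1.comp (measurable_const.prodMk measurable_id)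
      have e2 := lintegral_map (μ := PI (F.mu L)) m4 (measurable_pi_apply (0 : ℕ))
      rw [map_coord] at e2
      exact e2


/-! ### One side -/

section side

variable {F : Fam d} {β k : ℝ}

/-- first component of the pair chain started at `(G, 0)` -/
private def Obe3c_H (S : PSys F β k) (h : ℝ) (L n : ℕ)
    (p : (boxS d L → F.V) × (ℕ → boxS d L → S.Ωp)) : boxS d L → F.V :=
  (S.tr h L (p.1, (0 : boxS d L → F.V)) p.2 n).1

private def Obe3c_gs (S : PSys F β k) (h : ℝ) (L n : ℕ) (δ0 : ℝ) :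
    Set ((boxS d L → F.V) × (ℕ → boxS d L → S.Ωp)) :=
  {p | p.1 ∉ EL d L δ0 ∧ p.2 ∈ S.alv h L (p.1, (0 : boxS d L → F.V)) n}

private theorem Obe3c_mst2 (S : PSys F β k) (h : ℝ) (L : ℕ) : Measurable
    fun p : ((boxS d L → F.V) × (boxS d L → F.V)) × (boxS d L → S.Ωp) => S.st h L p.1 p.2 :=
  S.mst h L

private theorem Obe3c_mtr0 (S : PSys F β k) (h : ℝ) (L n : ℕ) :
    Measurable fun p : ((boxS d L → F.V) × (boxS d L → F.V)) × (ℕ → boxS d L → S.Ωp) =>
      S.tr h L p.1 p.2 n := by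
  induction n with
  | zero => exact measurable_fst
  | succ n ih =>
    show Measurable fun p : ((boxS d L → F.V) × (boxS d L → F.V)) × (ℕ → boxS d L → S.Ωp) =>
      S.st h L (S.tr h L p.1 p.2 n) (p.2 n)
    exact (Obe3c_mst2 S h L).comp (ih.prodMk ((measurable_pi_apply n).comp measurable_snd))

private theorem Obe3c_mtr (S : PSys F β k) (h : ℝ) (L n : ℕ) :
    Measurable fun p : (boxS d L → F.V) × (ℕ → boxS d L → S.Ωp) =>
      S.tr h L (p.1, (0 : boxS d L → F.V)) p.2 n :=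
  (Obe3c_mtr0 S h L n).comp ((measurable_fst.prodMk measurable_const).prodMk measurable_snd)

private theorem Obe3c_mH (S : PSys F β k) (h : ℝ) (L n : ℕ) :
    Measurable (Obe3c_H S h L n) :=
  measurable_fst.comp (Obe3c_mtr S h L n)

private theorem Obe3c_mEL (L : ℕ) (δ0 : ℝ) :
    MeasurableSet (EL d L δ0 : Set (boxS d L → F.V)) := by
  unfold EL
  refine measurableSet_setOfPred.mpr (Measurable.exists fun x => Measurable.forall fun z => ?_)
  refine Measurable.imp measurable_const ?_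
  exact measurableSet_setOfPred.mp (measurableSet_lt (measurable_pi_apply z).norm measurable_const)

private theorem Obe3c_mgs (S : PSys F β k) (h : ℝ) (L n : ℕ) (δ0 : ℝ) :
    MeasurableSet (Obe3c_gs S h L n δ0) := by
  unfold Obe3c_gs PSys.alv
  refine measurableSet_setOfPred.mpr (Measurable.and ?_ (Measurable.and ?_ ?_))
  · exact (measurableSet_setOfPred.mp (Obe3c_mEL L δ0)).not.comp measurable_fst
  · refine Measurable.forall fun j => Measurable.imp measurable_const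
      (Measurable.forall fun x => ?_)
    exact (measurableSet_setOfPred.mp (S.mgd h)).comp
      ((measurable_pi_apply x).comp ((measurable_pi_apply j).comp measurable_snd))
  · refine Measurable.forall fun j => Measurable.imp measurable_const
      (Measurable.forall fun x => Measurable.and ?_ ?_)
    · exact measurableSet_setOfPred.mp (measurableSet_le ((measurable_pi_apply x).comp
        (measurable_fst.comp (Obe3c_mtr S h L j))).norm measurable_const)
    · exact measurableSet_setOfPred.mp (measurableSet_le ((measurable_pi_apply x).comp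
        (measurable_snd.comp (Obe3c_mtr S h L j))).norm measurable_const)

private theorem Obe3c_gs_lint (S : PSys F β k) (h : ℝ) (L n : ℕ) (δ0 : ℝ)
    (m0 : Measure (boxS d L → F.V)) [IsProbabilityMeasure m0]
    (Φ : (boxS d L → F.V) × (ℕ → boxS d L → S.Ωp) → ℝ≥0∞) (hΦ : Measurable Φ) :
    ∫⁻ p in Obe3c_gs S h L n δ0, Φ p ∂(m0.prod (PI (S.mu L))) =
      ∫⁻ G in (EL d L δ0)ᶜ, ∫⁻ ω in S.alv h L (G, (0 : boxS d L → F.V)) n, Φ (G, ω)
        ∂(PI (S.mu L)) ∂m0 := by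
  have hPI : IsProbabilityMeasure (PI (S.mu L)) := by unfold PI; infer_instance
  rw [← lintegral_indicator (Obe3c_mgs S h L n δ0),
    lintegral_prod _ (hΦ.indicator (Obe3c_mgs S h L n δ0)).aemeasurable,
    ← lintegral_indicator (Obe3c_mEL L δ0).compl]
  refine lintegral_congr fun G => ?_
  by_cases hG : G ∈ EL d L δ0
  · rw [Set.indicator_of_notMem (by simpa using hG)]
    have h1 : ∀ ω : ℕ → boxS d L → S.Ωp,
        (Obe3c_gs S h L n δ0).indicator Φ (G, ω) = 0 := fun ω =>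
      Set.indicator_of_notMem (fun hh => hh.1 hG) _
    simp only [h1, lintegral_zero]
  · have halv : MeasurableSet (S.alv h L (G, (0 : boxS d L → F.V)) n) := by
      have h2 : S.alv h L (G, (0 : boxS d L → F.V)) n =
          (fun ω => (G, ω)) ⁻¹' (Obe3c_gs S h L n δ0) := by
        ext ω
        exact ⟨fun hh => ⟨hG, hh⟩, fun hh => hh.2⟩
      rw [h2]
      exact (measurable_const.prodMk measurable_id) (Obe3c_mgs S h L n δ0)
    rw [Set.indicator_of_mem (by simpa using hG), ← lintegral_indicator halv]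
    refine lintegral_congr fun ω => ?_
    by_cases hω : ω ∈ S.alv h L (G, (0 : boxS d L → F.V)) n
    · rw [Set.indicator_of_mem (show (G, ω) ∈ Obe3c_gs S h L n δ0 from ⟨hG, hω⟩),
        Set.indicator_of_mem hω]
    · rw [Set.indicator_of_notMem (show (G, ω) ∉ Obe3c_gs S h L n δ0 from fun hh => hω hh.2),
        Set.indicator_of_notMem hω]

private theorem Obe3c_law_map (S : PSys F β k) (h : ℝ) (L n : ℕ)
    (m0 : Measure (boxS d L → F.V)) [IsProbabilityMeasure m0] :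
    F.law h L m0 n = (m0.prod (PI (S.mu L))).map (Obe3c_H S h L n) := by
  have hPI : IsProbabilityMeasure (PI (S.mu L)) := by unfold PI; infer_instance
  refine Measure.ext fun s hs => ?_
  have hg : Measurable (s.indicator (1 : (boxS d L → F.V) → ℝ≥0∞)) :=
    measurable_one.indicator hs
  have hgH : Measurable fun p => s.indicator (1 : (boxS d L → F.V) → ℝ≥0∞)
      (Obe3c_H S h L n p) := hg.comp (Obe3c_mH S h L n)
  rw [← lintegral_indicator_one hs, ← lintegral_indicator_one hs,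
    (Obe3c_law F h L m0 n).2 _ hg, lintegral_map hg (Obe3c_mH S h L n),
    lintegral_prod _ hgH.aemeasurable]
  refine lintegral_congr fun G => ?_
  have e := (tr_marg S h L (G, (0 : boxS d L → F.V)) n).1
  have m1 : Measurable fun ω : ℕ → boxS d L → S.Ωp => (S.tr h L (G, (0 : boxS d L → F.V)) ω n).1 :=
    (Obe3c_mH S h L n).comp (measurable_const.prodMk measurable_id)
  have m2 : Measurable fun ω : ℕ → boxS d L → F.Ω0 => traj (F.st h L) G ω n :=
    (Obe3c_mtraj F h L n).comp (measurable_const.prodMk measurable_id)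
  have e1 := lintegral_map (μ := PI (S.mu L)) hg m1
  have e2 := lintegral_map (μ := PI (F.mu L)) hg m2
  rw [e, e2] at e1
  exact e1

private theorem Obe3c_lin (ρ : Measure F.V) [IsProbabilityMeasure ρ] {L : ℕ} (m : ℝ) (hm0 : 0 ≤ m)
    (hm : ∫⁻ v, ENNReal.ofReal ‖v‖ ∂ρ = ENNReal.ofReal m) (c : boxS d L → ℝ)
    (hc : ∀ w, 0 ≤ c w) :
    ∫⁻ G, ENNReal.ofReal (∑ w, c w * ‖G w‖) ∂(Measure.pi fun _ : boxS d L => ρ) =
      ENNReal.ofReal ((∑ w, c w) * m) := by
  have e1 : ∀ G : boxS d L → F.V, ENNReal.ofReal (∑ w, c w * ‖G w‖) =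
      ∑ w, ENNReal.ofReal (c w) * ENNReal.ofReal ‖G w‖ := by
    intro G
    rw [ENNReal.ofReal_sum_of_nonneg fun w _ => mul_nonneg (hc w) (norm_nonneg _)]
    exact Finset.sum_congr rfl fun w _ => ENNReal.ofReal_mul (hc w)
  have mn : ∀ w : boxS d L, Measurable fun G : boxS d L → F.V => ENNReal.ofReal ‖G w‖ :=
    fun w => ENNReal.measurable_ofReal.comp (measurable_pi_apply w).norm
  simp only [e1]
  rw [lintegral_finsetSum _ fun w _ => (mn w).const_mul _, Finset.sum_mul,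
    ENNReal.ofReal_sum_of_nonneg fun w _ => mul_nonneg (hc w) hm0]
  refine Finset.sum_congr rfl fun w _ => ?_
  rw [lintegral_const_mul _ (mn w), ENNReal.ofReal_mul (hc w)]
  congr 1
  have e2 := (measurePreserving_eval (fun _ : boxS d L => ρ) w).lintegral_comp
    (f := fun v : F.V => ENNReal.ofReal ‖v‖) (ENNReal.measurable_ofReal.comp measurable_norm)
  rw [← hm, ← e2]

private theorem Obe3c_side (hd : 1 ≤ d) (S : PSys F β k)
    (q s a θ TB BD BV κ' CV K cd CM : ℝ) (Ls : ℕ)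
    (B : Blk S q s a θ TB BD BV κ' CV K cd Ls) (hM : MomU S CM) (hks : k ^ (-s) ≤ 11 / 10)
    (ρ : Measure F.V) [IsProbabilityMeasure ρ] (h0 : ρ {0} = 0)
    (h2 : Integrable (fun x : F.V => ‖x‖ ^ 2) ρ) :
    ∃ Cv Cm : ℝ, 0 ≤ Cv ∧ 0 ≤ Cm ∧ ∀ η : ℝ, 0 < η → ∃ L1 : ℕ, ∀ L, L1 ≤ L →
      ∀ Sm : ℝ, 0 ≤ Sm → ∃ CL : ℝ, 0 ≤ CL ∧ ∀ ε0 : ℝ, 0 < ε0 → ∃ h0 : ℝ, 0 < h0 ∧
      ∀ h, 0 < h → h < h0 → ∀ n : ℕ, n * h ≤ Sm → ∃ N B' : Measure (boxS d L → F.V),
        F.law h L (Measure.pi fun _ => ρ) n = N + B' ∧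
        B' Set.univ ≤ ENNReal.ofReal (η + ε0) ∧ N Set.univ ≤ 1 ∧
        (∀ x, ∫⁻ H, ENNReal.ofReal ‖H x‖ ∂N ≤ ENNReal.ofReal Cm) ∧
        (∀ y, ∫⁻ H, ENNReal.ofReal (SSt (boxNet d L) k (fun w => ‖H w‖) y) ∂N ≤
          ENNReal.ofReal Cm) ∧
        (∀ x, ∫⁻ H, Vp (boxNet d L) k q s (fun y => ‖H y‖) (fun y => ‖H y‖) x ^ 2 ∂N ≤
          ENNReal.ofReal Cv) ∧
        ∫⁻ H, ENNReal.ofReal (∑ x, ‖H x‖) ∂N ≤ ENNReal.ofReal CL := by
  obtain ⟨δ0, C, hδ0, hC, hEL, hV⟩ := V_start d hd k q s B.hk B.hk1 B.hq B.hs B.hqs hks ρ h0 h2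
  have h1 : Integrable (fun v : F.V => ‖v‖) ρ := by
    refine Integrable.mono' ((integrable_const (1 : ℝ)).add h2) continuous_norm.aestronglyMeasurable
      (Filter.Eventually.of_forall fun v => ?_)
    rw [norm_norm]
    simp only [Pi.add_apply]
    nlinarith [sq_nonneg (‖v‖ - 1), norm_nonneg v]
  set m : ℝ := ∫ v, ‖v‖ ∂ρ with hmdef
  have hm0 : 0 ≤ m := integral_nonneg fun v => norm_nonneg v
  have hm : ∫⁻ v, ENNReal.ofReal ‖v‖ ∂ρ = ENNReal.ofReal m :=
    (ofReal_integral_eq_lintegral_ofReal h1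
      (Filter.Eventually.of_forall fun v => norm_nonneg v)).symm
  set CvE : ℝ≥0∞ := ENNReal.ofReal BV *
    ((ENNReal.ofReal C) ^ (1 / 2 : ℝ) + ENNReal.ofReal (2 * CV)) ^ 2 with hCvE
  have hCvT : CvE ≠ ⊤ := by
    refine ENNReal.mul_ne_top ENNReal.ofReal_ne_top (ENNReal.pow_ne_top ?_)
    exact ENNReal.add_ne_top.mpr ⟨ENNReal.rpow_ne_top_of_nonneg (by norm_num)
      ENNReal.ofReal_ne_top, ENNReal.ofReal_ne_top⟩
  have hCm : 0 ≤ |CM| * (1 + 3 ^ d * m) := by positivity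
  refine ⟨CvE.toReal, 1 + |CM| * (1 + 3 ^ d * m), ENNReal.toReal_nonneg, by linarith, ?_⟩
  intro η hη
  obtain ⟨L1, hL1⟩ := hEL η hη
  refine ⟨max L1 Ls, fun L hL Sm hSm => ?_⟩
  have hLs : Ls ≤ L := le_trans (le_max_right _ _) hL
  have hL1' := hL1 L (le_trans (le_max_left _ _) hL)
  obtain ⟨Cs, hs0, hCs1, hs0p, hsum⟩ := B.sum L Sm hSm
  set cr : ℝ := (Fintype.card (boxS d L) : ℝ) with hcr
  have hcr0 : 0 ≤ cr := Nat.cast_nonneg _
  refine ⟨Cs * (cr * m), mul_nonneg (by linarith) (mul_nonneg hcr0 hm0), fun ε0 hε0 => ?_⟩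
  have hden : 0 < 1 + cr * m := by nlinarith only [hcr0, hm0, mul_nonneg hcr0 hm0]
  obtain ⟨he, hep, hexit⟩ := B.exit L Sm (ε0 / (1 + cr * m)) hSm (div_pos hε0 hden)
  obtain ⟨hv, hvp, hVall⟩ := V_all S q s a θ TB BD BV κ' CV K cd Ls B L hLs
  obtain ⟨hmo, hmop, hMom⟩ := hM L
  refine ⟨min (min hs0 he) (min hv hmo), lt_min (lt_min hs0p hep) (lt_min hvp hmop), ?_⟩
  intro h hh hhlt n hn
  have l1 : h < hs0 := lt_of_lt_of_le hhlt ((min_le_left _ _).trans (min_le_left _ _))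
  have l2 : h < he := lt_of_lt_of_le hhlt ((min_le_left _ _).trans (min_le_right _ _))
  have l3 : h < hv := lt_of_lt_of_le hhlt ((min_le_right _ _).trans (min_le_left _ _))
  have l4 : h < hmo := lt_of_lt_of_le hhlt ((min_le_right _ _).trans (min_le_right _ _))
  have hPI : IsProbabilityMeasure (PI (S.mu L)) := by unfold PI; infer_instance
  set m0 : Measure (boxS d L → F.V) := Measure.pi fun _ => ρ with hm0def
  have hmgs := Obe3c_mgs S h L n δ0
  have hmH := Obe3c_mH S h L n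
  have hmE : MeasurableSet (EL d L δ0 : Set (boxS d L → F.V)) := Obe3c_mEL L δ0
  set P : Measure ((boxS d L → F.V) × (ℕ → boxS d L → S.Ωp)) := m0.prod (PI (S.mu L)) with hP
  have hNl : ∀ g : (boxS d L → F.V) → ℝ≥0∞, Measurable g →
      ∫⁻ H, g H ∂((P.restrict (Obe3c_gs S h L n δ0)).map (Obe3c_H S h L n)) =
      ∫⁻ G in (EL d L δ0)ᶜ, ∫⁻ ω in S.alv h L (G, (0 : boxS d L → F.V)) n,
        g (Obe3c_H S h L n (G, ω)) ∂(PI (S.mu L)) ∂m0 := by
    intro g hg
    rw [lintegral_map hg hmH]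
    exact Obe3c_gs_lint S h L n δ0 m0 (fun p => g (Obe3c_H S h L n p)) (hg.comp hmH)
  have hfull : ∀ c : boxS d L → ℝ, (∀ w, 0 ≤ c w) →
      ∫⁻ G in (EL d L δ0)ᶜ, ENNReal.ofReal (∑ w, c w * ‖G w‖) ∂m0 ≤
        ENNReal.ofReal ((∑ w, c w) * m) := by
    intro c hc
    rw [← Obe3c_lin ρ m hm0 hm c hc]
    exact setLIntegral_le_lintegral _ _
  -- first moments
  have hYl : ∀ x : boxS d L,
      ∫⁻ H, ENNReal.ofReal (Yl (boxNet d L) (nrm H) x)
        ∂((P.restrict (Obe3c_gs S h L n δ0)).map (Obe3c_H S h L n)) ≤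
        ENNReal.ofReal (|CM| * (1 + 3 ^ d * m)) := by
    intro x
    have mY : Measurable fun H : boxS d L → F.V =>
        ENNReal.ofReal (Yl (boxNet d L) (nrm H) x) := by
      refine ENNReal.measurable_ofReal.comp ?_
      unfold Yl nrm
      exact Finset.measurable_sum _ fun w _ => (measurable_pi_apply w).norm.const_mul _
    rw [hNl _ mY]
    have e1 : ∀ G : boxS d L → F.V,
        ∫⁻ ω in S.alv h L (G, (0 : boxS d L → F.V)) n,
          ENNReal.ofReal (Yl (boxNet d L) (nrm (Obe3c_H S h L n (G, ω))) x) ∂(PI (S.mu L)) ≤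
        ENNReal.ofReal |CM| * (1 + ENNReal.ofReal (∑ w, (1 / 2 : ℝ) ^ (boxNet d L).dist x w *
          ‖G w‖)) := by
      intro G
      refine le_trans (hMom h hh l4 (G, (0 : boxS d L → F.V)) n x) ?_
      have hY0 : 0 ≤ ∑ w, (1 / 2 : ℝ) ^ (boxNet d L).dist x w * ‖G w‖ :=
        Finset.sum_nonneg fun w _ => by positivity
      have e2 : (1 : ℝ≥0∞) + ENNReal.ofReal (∑ w, (1 / 2 : ℝ) ^ (boxNet d L).dist x w * ‖G w‖) =
          ENNReal.ofReal (1 + ∑ w, (1 / 2 : ℝ) ^ (boxNet d L).dist x w * ‖G w‖) := by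
        rw [ENNReal.ofReal_add zero_le_one hY0, ENNReal.ofReal_one]
      rw [e2, ← ENNReal.ofReal_mul (abs_nonneg CM)]
      refine ENNReal.ofReal_le_ofReal ?_
      exact mul_le_mul_of_nonneg_right (le_abs_self CM) (by
        show 0 ≤ 1 + Yl (boxNet d L) (nrm G) x
        exact add_nonneg zero_le_one hY0)
    refine le_trans (lintegral_mono fun G => e1 G) ?_
    have mS : Measurable fun G : boxS d L → F.V =>
        ENNReal.ofReal (∑ w, (1 / 2 : ℝ) ^ (boxNet d L).dist x w * ‖G w‖) :=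
      ENNReal.measurable_ofReal.comp
        (Finset.measurable_sum _ fun w _ => (measurable_pi_apply w).norm.const_mul _)
    rw [lintegral_const_mul _ (mS.const_add _), lintegral_add_right _ mS, lintegral_const,
      ENNReal.ofReal_mul (abs_nonneg CM)]
    refine mul_le_mul' le_rfl ?_
    rw [ENNReal.ofReal_add zero_le_one (by positivity), ENNReal.ofReal_one]
    refine add_le_add ?_ ?_
    · rw [one_mul, Measure.restrict_apply MeasurableSet.univ, Set.univ_inter]
      exact prob_le_one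
    · refine le_trans (hfull _ fun w => by positivity) (ENNReal.ofReal_le_ofReal ?_)
      exact mul_le_mul_of_nonneg_right ((boxNet d L).sum_half x) hm0
  refine ⟨(P.restrict (Obe3c_gs S h L n δ0)).map (Obe3c_H S h L n),
    (P.restrict (Obe3c_gs S h L n δ0)ᶜ).map (Obe3c_H S h L n), ?_, ?_, ?_, ?_, ?_, ?_, ?_⟩
  · rw [Obe3c_law_map S h L n m0, ← Measure.map_add _ _ hmH,
      Measure.restrict_add_restrict_compl hmgs]
  · rw [Measure.map_apply hmH MeasurableSet.univ, Set.preimage_univ, Measure.restrict_apply_univ,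
      hP, Measure.prod_apply hmgs.compl]
    have e1 : ∀ G : boxS d L → F.V, PI (S.mu L) (Prod.mk G ⁻¹' (Obe3c_gs S h L n δ0)ᶜ) ≤
        (EL d L δ0).indicator 1 G + ENNReal.ofReal (ε0 / (1 + cr * m)) *
          (1 + ENNReal.ofReal (∑ w, (1 : ℝ) * ‖G w‖)) := by
      intro G
      by_cases hG : G ∈ EL d L δ0
      · rw [Set.indicator_of_mem hG]
        exact le_trans prob_le_one le_self_add
      · rw [Set.indicator_of_notMem hG, zero_add]
        have e2 : Prod.mk G ⁻¹' (Obe3c_gs S h L n δ0)ᶜ ⊆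
            (S.alv h L (G, (0 : boxS d L → F.V)) n)ᶜ := by
          intro ω hω hh'
          exact hω ⟨hG, hh'⟩
        refine le_trans (measure_mono e2)
          (le_trans (hexit h hh l2 (G, (0 : boxS d L → F.V)) n hn) ?_)
        have hY0 : 0 ≤ ∑ w : boxS d L, (1 : ℝ) * ‖G w‖ :=
          Finset.sum_nonneg fun w _ => by positivity
        have e3 : (1 : ℝ≥0∞) + ENNReal.ofReal (∑ w, (1 : ℝ) * ‖G w‖) =
            ENNReal.ofReal (1 + ∑ w, (1 : ℝ) * ‖G w‖) := by
          rw [ENNReal.ofReal_add zero_le_one hY0, ENNReal.ofReal_one]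
        rw [e3, ← ENNReal.ofReal_mul (div_pos hε0 hden).le]
        refine ENNReal.ofReal_le_ofReal (le_of_eq ?_)
        congr 2
        refine Finset.sum_congr rfl fun w _ => ?_
        simp
    refine le_trans (lintegral_mono fun G => e1 G) ?_
    have mS : Measurable fun G : boxS d L → F.V => ENNReal.ofReal (∑ w, (1 : ℝ) * ‖G w‖) :=
      ENNReal.measurable_ofReal.comp
        (Finset.measurable_sum _ fun w _ => (measurable_pi_apply w).norm.const_mul _)
    rw [lintegral_add_left (measurable_one.indicator hmE), lintegral_indicator_one hmE,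
      lintegral_const_mul _ (mS.const_add _), lintegral_add_right _ mS, lintegral_const,
      Obe3c_lin ρ m hm0 hm _ (fun _ => zero_le_one), ENNReal.ofReal_add hη.le hε0.le]
    refine add_le_add hL1' ?_
    have e4 : (1 : ℝ≥0∞) * m0 Set.univ + ENNReal.ofReal ((∑ _w : boxS d L, (1 : ℝ)) * m) =
        ENNReal.ofReal (1 + cr * m) := by
      rw [measure_univ, one_mul, ENNReal.ofReal_add zero_le_one (mul_nonneg hcr0 hm0),
        ENNReal.ofReal_one]
      congr 3
      simp [hcr]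
    rw [e4, ← ENNReal.ofReal_mul (div_pos hε0 hden).le]
    exact ENNReal.ofReal_le_ofReal (le_of_eq (div_mul_cancel₀ _ hden.ne'))
  · rw [Measure.map_apply hmH MeasurableSet.univ, Set.preimage_univ, Measure.restrict_apply_univ]
    exact prob_le_one
  · intro x
    refine le_trans (lintegral_mono fun H => ENNReal.ofReal_le_ofReal ?_)
      (le_trans (hYl x) (ENNReal.ofReal_le_ofReal (by linarith)))
    unfold Yl nrm
    have e1 := Finset.single_le_sum (f := fun w => (1 / 2 : ℝ) ^ (boxNet d L).dist x w * ‖H w‖)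
      (fun w _ => by positivity) (Finset.mem_univ x)
    simp only [(boxNet d L).dist_self, pow_zero, one_mul] at e1
    exact e1
  · intro y
    have mY : Measurable fun H : boxS d L → F.V =>
        ENNReal.ofReal (Yl (boxNet d L) (nrm H) y) := by
      refine ENNReal.measurable_ofReal.comp ?_
      unfold Yl nrm
      exact Finset.measurable_sum _ fun w _ => (measurable_pi_apply w).norm.const_mul _
    have e1 : ∀ H : boxS d L → F.V, ENNReal.ofReal (SSt (boxNet d L) k (fun w => ‖H w‖) y) ≤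
        1 + ENNReal.ofReal (Yl (boxNet d L) (nrm H) y) := by
      intro H
      have hY0 : 0 ≤ Yl (boxNet d L) (nrm H) y := by
        unfold Yl nrm
        exact Finset.sum_nonneg fun w _ => by positivity
      rw [← ENNReal.ofReal_one, ← ENNReal.ofReal_add zero_le_one hY0]
      refine ENNReal.ofReal_le_ofReal ?_
      have e2 : k ^ (1 / 16 : ℝ) ≤ 1 := Real.rpow_le_one B.hk.le B.hk1.le (by norm_num)
      have e3 : SSt (boxNet d L) k (fun w => ‖H w‖) y =
          1 + k ^ (1 / 16 : ℝ) * Yl (boxNet d L) (nrm H) y := rfl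
      rw [e3]
      nlinarith only [hY0, e2]
    refine le_trans (lintegral_mono fun H => e1 H) ?_
    rw [lintegral_add_right _ mY, lintegral_const, one_mul,
      ENNReal.ofReal_add zero_le_one hCm, ENNReal.ofReal_one]
    refine add_le_add ?_ (hYl y)
    rw [Measure.map_apply hmH MeasurableSet.univ, Set.preimage_univ, Measure.restrict_apply_univ]
    exact prob_le_one
  · intro x
    have mV : Measurable fun H : boxS d L → F.V =>
        Vp (boxNet d L) k q s (fun y => ‖H y‖) (fun y => ‖H y‖) x ^ 2 :=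
      (Obe3c_mVp k q s x _ _ (fun y => (measurable_pi_apply y).norm)
        (fun y => (measurable_pi_apply y).norm)).pow_const 2
    rw [hNl _ mV, ENNReal.ofReal_toReal hCvT]
    have e1 : ∀ (G : boxS d L → F.V) (ω : ℕ → boxS d L → S.Ωp),
        Vp (boxNet d L) k q s (fun y => ‖Obe3c_H S h L n (G, ω) y‖)
          (fun y => ‖Obe3c_H S h L n (G, ω) y‖) x ^ 2 ≤
        V1 k q s (S.tr h L (G, (0 : boxS d L → F.V)) ω n) x ^ 2 := by
      intro G ω
      refine pow_le_pow_left' ?_ 2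
      exact Obe3c_Vmono B.hk (by linarith [B.hq]) B.hs _ _ _ (fun w => norm_nonneg _)
        (fun w => le_add_of_nonneg_right (norm_nonneg _)) x
    refine le_trans (lintegral_mono fun G => lintegral_mono fun ω => e1 G ω) ?_
    refine le_trans (hVall h hh l3 (m0.restrict (EL d L δ0)ᶜ) n x) ?_
    rw [hCvE]
    refine mul_le_mul' le_rfl (pow_le_pow_left' (add_le_add ?_ ?_) 2)
    · exact ENNReal.rpow_le_rpow (hV L x) (by norm_num)
    · refine le_trans (mul_le_mul' le_rfl (ENNReal.rpow_le_rpow ?_ (by norm_num) :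
        _ ≤ (1 : ℝ≥0∞) ^ (1 / 2 : ℝ))) ?_
      · rw [Measure.restrict_apply_univ]
        exact prob_le_one
      · rw [ENNReal.one_rpow, mul_one]
  · have mS : Measurable fun G : boxS d L → F.V => ENNReal.ofReal (∑ w, ‖G w‖) :=
      ENNReal.measurable_ofReal.comp
        (Finset.measurable_sum _ fun w _ => (measurable_pi_apply w).norm)
    rw [hNl _ mS]
    have e1 : ∀ G : boxS d L → F.V,
        ∫⁻ ω in S.alv h L (G, (0 : boxS d L → F.V)) n,
          ENNReal.ofReal (∑ w, ‖Obe3c_H S h L n (G, ω) w‖) ∂(PI (S.mu L)) ≤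
        ENNReal.ofReal (∑ w, Cs * ‖G w‖) := by
      intro G
      refine le_trans (setLIntegral_le_lintegral _ _) ?_
      refine le_trans (lintegral_mono fun ω => ENNReal.ofReal_le_ofReal ?_)
        (le_trans (hsum h hh l1 (G, (0 : boxS d L → F.V)) n hn)
          (ENNReal.ofReal_le_ofReal (le_of_eq ?_)))
      · exact Finset.sum_le_sum fun w _ => le_add_of_nonneg_right (norm_nonneg _)
      · rw [Finset.mul_sum]
        refine Finset.sum_congr rfl fun w _ => ?_
        simp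
    refine le_trans (lintegral_mono fun G => e1 G) ?_
    refine le_trans (hfull (fun _ => Cs) fun _ => by linarith) (ENNReal.ofReal_le_ofReal ?_)
    rw [Finset.sum_const, nsmul_eq_mul, Finset.card_univ, ← hcr]
    exact le_of_eq (by ring)

end side


/-! ### Two sides -/

private theorem Obe3c_sq {ι : Type} (S : Finset ι) (a b : ι → ℝ≥0∞) :
    (∑ z ∈ S, a z * b z) ^ 2 ≤ 2 * (∑ z ∈ S, a z) * ∑ z ∈ S, a z * b z ^ 2 := by
  have h1 : ∀ u v : ℝ≥0∞, u * v ≤ u ^ 2 + v ^ 2 := by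
    intro u v
    rcases le_total u v with h | h
    · calc u * v ≤ v * v := mul_le_mul' h le_rfl
        _ = v ^ 2 := (sq v).symm
        _ ≤ u ^ 2 + v ^ 2 := le_add_self
    · calc u * v ≤ u * u := mul_le_mul' le_rfl h
        _ = u ^ 2 := (sq u).symm
        _ ≤ u ^ 2 + v ^ 2 := le_self_add
  rw [sq, Finset.sum_mul_sum]
  calc ∑ i ∈ S, ∑ j ∈ S, a i * b i * (a j * b j)
      ≤ ∑ i ∈ S, ∑ j ∈ S, (a i * b i ^ 2 * a j + a i * (a j * b j ^ 2)) := by
        refine Finset.sum_le_sum fun i _ => Finset.sum_le_sum fun j _ => ?_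
        calc a i * b i * (a j * b j) = a i * a j * (b i * b j) := by ring
          _ ≤ a i * a j * (b i ^ 2 + b j ^ 2) := mul_le_mul' le_rfl (h1 _ _)
          _ = a i * b i ^ 2 * a j + a i * (a j * b j ^ 2) := by ring
    _ = 2 * (∑ z ∈ S, a z) * ∑ z ∈ S, a z * b z ^ 2 := by
        simp only [Finset.sum_add_distrib]
        rw [← Finset.sum_mul_sum, ← Finset.sum_mul_sum]
        ring

private theorem Obe3c_add_sq (u v : ℝ≥0∞) : (u + v) ^ 2 ≤ 4 * (u ^ 2 + v ^ 2) := by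
  rcases le_total u v with h | h
  · calc (u + v) ^ 2 ≤ (v + v) ^ 2 := pow_le_pow_left' (add_le_add h le_rfl) 2
      _ = 4 * v ^ 2 := by ring
      _ ≤ 4 * (u ^ 2 + v ^ 2) := mul_le_mul' le_rfl le_add_self
  · calc (u + v) ^ 2 ≤ (u + u) ^ 2 := pow_le_pow_left' (add_le_add le_rfl h) 2
      _ = 4 * u ^ 2 := by ring
      _ ≤ 4 * (u ^ 2 + v ^ 2) := mul_le_mul' le_rfl le_self_add

private theorem Obe3c_rpow {t θ : ℝ} (ht : 0 ≤ t) (hθ : 0 < θ) (hθ1 : θ ≤ 1 / 2) :
    (t ^ θ) ^ 2 ≤ 1 + t := by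
  rw [← Real.rpow_natCast, ← Real.rpow_mul ht]
  rcases le_or_gt t 1 with h | h
  · have := Real.rpow_le_one ht h (by positivity : (0 : ℝ) ≤ θ * ((2 : ℕ) : ℝ))
    linarith
  · calc t ^ (θ * ((2 : ℕ) : ℝ)) ≤ t ^ (1 : ℝ) :=
          Real.rpow_le_rpow_of_exponent_le h.le (by push_cast; linarith)
      _ = t := Real.rpow_one t
      _ ≤ 1 + t := by linarith

section pair

variable {V : Type} [NormedAddCommGroup V] [MeasurableSpace V]
  [BorelSpace V] [SecondCountableTopology V] {L : ℕ}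

omit [SecondCountableTopology V] in
private theorem Obe3c_V1int {k q s : ℝ} (hk : 0 < k) (hq : 0 ≤ q) (hs : 0 < s)
    (hqs : 2 * q * s ≤ 1) (N1 N2 : Measure (boxS d L → V)) [IsFiniteMeasure N1]
    [IsFiniteMeasure N2] (Cv Cm : ℝ) (hCv : 0 ≤ Cv) (z : boxS d L)
    (hS : ∀ y, ∫⁻ H, ENNReal.ofReal (SSt (boxNet d L) k (fun w => ‖H w‖) y) ∂N2 ≤
      ENNReal.ofReal Cm)
    (hV : ∫⁻ H, Vp (boxNet d L) k q s (fun y => ‖H y‖) (fun y => ‖H y‖) z ^ 2 ∂N1 ≤
      ENNReal.ofReal Cv) :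
    ∫⁻ H, ∫⁻ H', Vp (boxNet d L) k q s (fun y => ‖H y‖) (fun y => ‖H y‖ + ‖H' y‖) z ^ 2 ∂N2 ∂N1 ≤
      ENNReal.ofReal (Cv * Cm) := by
  have e1 : ∀ H : boxS d L → V,
      ∫⁻ H', Vp (boxNet d L) k q s (fun y => ‖H y‖) (fun y => ‖H y‖ + ‖H' y‖) z ^ 2 ∂N2 ≤
      Vp (boxNet d L) k q s (fun y => ‖H y‖) (fun y => ‖H y‖) z ^ 2 * ENNReal.ofReal Cm := by
    intro H
    obtain ⟨y, hy⟩ := Obe3c_Vadd hk hq hs hqs (fun y => ‖H y‖) (fun y => ‖H y‖)
      (fun w => norm_nonneg _) z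
    refine le_trans (lintegral_mono fun H' => hy (fun w => ‖H' w‖) fun w => norm_nonneg _) ?_
    have mS : Measurable fun H' : boxS d L → V =>
        ENNReal.ofReal (SSt (boxNet d L) k (fun w => ‖H' w‖) y) :=
      ENNReal.measurable_ofReal.comp
        (Obe3c_mSSt k _ (fun w => (measurable_pi_apply w).norm) y)
    rw [lintegral_const_mul _ mS]
    exact mul_le_mul' le_rfl (hS y)
  refine le_trans (lintegral_mono fun H => e1 H) ?_
  have mV : Measurable fun H : boxS d L → V =>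
      Vp (boxNet d L) k q s (fun y => ‖H y‖) (fun y => ‖H y‖) z ^ 2 :=
    (Obe3c_mVp k q s z _ _ (fun y => (measurable_pi_apply y).norm)
      (fun y => (measurable_pi_apply y).norm)).pow_const 2
  rw [lintegral_mul_const _ mV, ENNReal.ofReal_mul hCv]
  exact mul_le_mul' hV le_rfl

private theorem Obe3c_pair {k q s α θ : ℝ} (hk : 0 < k) (hk1 : k < 1) (hq : 1 ≤ q) (hs : 0 < s)
    (hqs : 4 * q * s ≤ 1) (hα : 0 ≤ α) (hθ : 0 < θ) (hθ1 : θ ≤ 1 / 2)
    (N1 N2 : Measure (boxS d L → V)) (hN1 : N1 Set.univ ≤ 1) (hN2 : N2 Set.univ ≤ 1)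
    (Cv Cm CL cd : ℝ) (hCv : 0 ≤ Cv) (hCm : 0 ≤ Cm) (hCL : 0 ≤ CL) (hcd : 0 ≤ cd)
    (hcd' : ∀ x : boxS d L, ∑ z, α ^ (boxNet d L).dist x z ≤ cd)
    (hn1 : ∀ x, ∫⁻ H, ENNReal.ofReal ‖H x‖ ∂N1 ≤ ENNReal.ofReal Cm)
    (hn2 : ∀ x, ∫⁻ H, ENNReal.ofReal ‖H x‖ ∂N2 ≤ ENNReal.ofReal Cm)
    (hS1 : ∀ y, ∫⁻ H, ENNReal.ofReal (SSt (boxNet d L) k (fun w => ‖H w‖) y) ∂N1 ≤
      ENNReal.ofReal Cm)
    (hS2 : ∀ y, ∫⁻ H, ENNReal.ofReal (SSt (boxNet d L) k (fun w => ‖H w‖) y) ∂N2 ≤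
      ENNReal.ofReal Cm)
    (hV1 : ∀ z, ∫⁻ H, Vp (boxNet d L) k q s (fun y => ‖H y‖) (fun y => ‖H y‖) z ^ 2 ∂N1 ≤
      ENNReal.ofReal Cv)
    (hV2 : ∀ z, ∫⁻ H, Vp (boxNet d L) k q s (fun y => ‖H y‖) (fun y => ‖H y‖) z ^ 2 ∂N2 ≤
      ENNReal.ofReal Cv)
    (hL1 : ∫⁻ H, ENNReal.ofReal (∑ x, ‖H x‖) ∂N1 ≤ ENNReal.ofReal CL)
    (hL2 : ∫⁻ H, ENNReal.ofReal (∑ x, ‖H x‖) ∂N2 ≤ ENNReal.ofReal CL)
    (A : boxS d L → ℝ) (hA : ∀ x, 0 ≤ A x) (ε : ℝ) (he : 0 ≤ ε) (f : (boxS d L → V) → ℂ)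
    (hfm : Measurable f) (hf : Cls (boxNet d L) k q s α θ A ε f) :
    ∫⁻ H, ∫⁻ H', ENNReal.ofReal ‖f H - f H'‖ ∂N2 ∂N1 ≤
      ENNReal.ofReal (4 * (1 + 2 * Cm + 16 * cd ^ 2 * (Cv * Cm)) * ∑ x, A x +
        2 * (Fintype.card (boxS d L)) * ε * (1 + 4 * CL)) := by
  have i1 : IsFiniteMeasure N1 := ⟨lt_of_le_of_lt hN1 ENNReal.one_lt_top⟩
  have i2 : IsFiniteMeasure N2 := ⟨lt_of_le_of_lt hN2 ENNReal.one_lt_top⟩
  have mf : Measurable fun p : (boxS d L → V) × (boxS d L → V) =>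
      ENNReal.ofReal ‖f p.1 - f p.2‖ :=
    ENNReal.measurable_ofReal.comp ((hfm.comp measurable_fst).sub (hfm.comp measurable_snd)).norm
  have e0 : ∫⁻ H, ∫⁻ H', ENNReal.ofReal ‖f H - f H'‖ ∂N2 ∂N1 =
      ∫⁻ p, ENNReal.ofReal ‖f p.1 - f p.2‖ ∂(N1.prod N2) :=
    (lintegral_prod _ mf.aemeasurable).symm
  rw [e0]
  -- measurability of the pieces
  have mx1 : ∀ x : boxS d L, Measurable fun p : (boxS d L → V) × (boxS d L → V) => ‖p.1 x‖ :=
    fun x => ((measurable_pi_apply x).comp measurable_fst).norm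
  have mx2 : ∀ x : boxS d L, Measurable fun p : (boxS d L → V) × (boxS d L → V) => ‖p.2 x‖ :=
    fun x => ((measurable_pi_apply x).comp measurable_snd).norm
  have mV1 : ∀ z : boxS d L, Measurable fun p : (boxS d L → V) × (boxS d L → V) =>
      Vp (boxNet d L) k q s (fun y => ‖p.1 y‖) (fun y => ‖p.1 y‖ + ‖p.2 y‖) z ^ 2 := fun z =>
    (Obe3c_mVp k q s z _ _ mx1 (fun y => (mx1 y).add (mx2 y))).pow_const 2
  have mV2 : ∀ z : boxS d L, Measurable fun p : (boxS d L → V) × (boxS d L → V) =>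
      Vp (boxNet d L) k q s (fun y => ‖p.2 y‖) (fun y => ‖p.1 y‖ + ‖p.2 y‖) z ^ 2 := fun z =>
    (Obe3c_mVp k q s z _ _ mx2 (fun y => (mx1 y).add (mx2 y))).pow_const 2
  -- integrals of the pieces
  have iV1 : ∀ z : boxS d L, ∫⁻ p, Vp (boxNet d L) k q s (fun y => ‖p.1 y‖)
      (fun y => ‖p.1 y‖ + ‖p.2 y‖) z ^ 2 ∂(N1.prod N2) ≤ ENNReal.ofReal (Cv * Cm) := by
    intro z
    rw [lintegral_prod _ (mV1 z).aemeasurable]
    exact Obe3c_V1int hk (by linarith) hs (by nlinarith) N1 N2 Cv Cm hCv z hS2 (hV1 z)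
  have iV2 : ∀ z : boxS d L, ∫⁻ p, Vp (boxNet d L) k q s (fun y => ‖p.2 y‖)
      (fun y => ‖p.1 y‖ + ‖p.2 y‖) z ^ 2 ∂(N1.prod N2) ≤ ENNReal.ofReal (Cv * Cm) := by
    intro z
    rw [lintegral_prod_symm _ (mV2 z).aemeasurable]
    have e1 : ∀ H H' : boxS d L → V, (fun y => ‖H' y‖ + ‖H y‖) = fun y => ‖H y‖ + ‖H' y‖ :=
      fun H H' => funext fun y => add_comm _ _
    simp only [e1]
    exact Obe3c_V1int hk (by linarith) hs (by nlinarith) N2 N1 Cv Cm hCv z hS1 (hV2 z)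
  have iF : ∀ (g : (boxS d L → V) → ℝ≥0∞), Measurable g → ∀ c : ℝ≥0∞,
      ∫⁻ H, g H ∂N1 ≤ c → ∫⁻ p, g p.1 ∂(N1.prod N2) ≤ c := by
    intro g hg c hc
    have mg : Measurable fun p : (boxS d L → V) × (boxS d L → V) => g p.1 :=
      hg.comp measurable_fst
    rw [lintegral_prod _ mg.aemeasurable]
    refine le_trans (lintegral_mono fun H => ?_) hc
    show ∫⁻ _, g H ∂N2 ≤ g H
    rw [lintegral_const]
    exact le_trans (mul_le_mul' le_rfl hN2) (mul_one _).le
  have iG : ∀ (g : (boxS d L → V) → ℝ≥0∞), Measurable g → ∀ c : ℝ≥0∞,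
      ∫⁻ H, g H ∂N2 ≤ c → ∫⁻ p, g p.2 ∂(N1.prod N2) ≤ c := by
    intro g hg c hc
    have mg : Measurable fun p : (boxS d L → V) × (boxS d L → V) => g p.2 :=
      hg.comp measurable_snd
    rw [lintegral_prod _ mg.aemeasurable]
    show ∫⁻ _, ∫⁻ H', g H' ∂N2 ∂N1 ≤ c
    rw [lintegral_const]
    exact le_trans (mul_le_mul' hc hN1) (mul_one _).le
  have iU : (N1.prod N2) Set.univ ≤ 1 := by
    rw [Measure.prod_apply MeasurableSet.univ]
    simp only [Set.preimage_univ, lintegral_const]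
    exact le_trans (mul_le_mul' hN2 hN1) (mul_one _).le
  set cE : ℝ≥0∞ := ENNReal.ofReal cd with hcE
  set vE : ℝ≥0∞ := ENNReal.ofReal (Cv * Cm) with hvE
  set mE : ℝ≥0∞ := ENNReal.ofReal Cm with hmE
  -- pointwise
  have hpt : ∀ p : (boxS d L → V) × (boxS d L → V), ENNReal.ofReal ‖f p.1 - f p.2‖ ≤
      ∑ x, ENNReal.ofReal (4 * A x) * ((1 + (ENNReal.ofReal ‖p.1 x‖ + ENNReal.ofReal ‖p.2 x‖)) +
        8 * cE * ∑ z, ENNReal.ofReal (α ^ (boxNet d L).dist x z) *
          (Vp (boxNet d L) k q s (fun y => ‖p.1 y‖) (fun y => ‖p.1 y‖ + ‖p.2 y‖) z ^ 2 +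
            Vp (boxNet d L) k q s (fun y => ‖p.2 y‖) (fun y => ‖p.1 y‖ + ‖p.2 y‖) z ^ 2)) +
      ENNReal.ofReal (2 * (Fintype.card (boxS d L)) * ε) *
        (1 + 2 * (ENNReal.ofReal (∑ x, ‖p.1 x‖) + ENNReal.ofReal (∑ x, ‖p.2 x‖))) := by
    intro p
    refine le_trans (tele k q s α θ hk hk1 hq hs (by nlinarith) hα hθ A hA ε he f hf p.1 p.2) ?_
    refine add_le_add (Finset.sum_le_sum fun x _ => ?_) ?_
    · rw [ENNReal.ofReal_mul (mul_nonneg (by norm_num) (hA x)), mul_assoc]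
      refine mul_le_mul' le_rfl ?_
      have h1 : ENNReal.ofReal (‖p.1 x - p.2 x‖ ^ θ) * wpr (boxNet d L) k q s α p.1 p.2 x ≤
          ENNReal.ofReal (‖p.1 x - p.2 x‖ ^ θ) ^ 2 + wpr (boxNet d L) k q s α p.1 p.2 x ^ 2 := by
        rcases le_total (ENNReal.ofReal (‖p.1 x - p.2 x‖ ^ θ))
          (wpr (boxNet d L) k q s α p.1 p.2 x) with h | h
        · calc ENNReal.ofReal (‖p.1 x - p.2 x‖ ^ θ) * wpr (boxNet d L) k q s α p.1 p.2 x
              ≤ wpr (boxNet d L) k q s α p.1 p.2 x * wpr (boxNet d L) k q s α p.1 p.2 x :=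
                mul_le_mul' h le_rfl
            _ = wpr (boxNet d L) k q s α p.1 p.2 x ^ 2 := (sq _).symm
            _ ≤ _ := le_add_self
        · calc ENNReal.ofReal (‖p.1 x - p.2 x‖ ^ θ) * wpr (boxNet d L) k q s α p.1 p.2 x
              ≤ ENNReal.ofReal (‖p.1 x - p.2 x‖ ^ θ) * ENNReal.ofReal (‖p.1 x - p.2 x‖ ^ θ) :=
                mul_le_mul' le_rfl h
            _ = ENNReal.ofReal (‖p.1 x - p.2 x‖ ^ θ) ^ 2 := (sq _).symm
            _ ≤ _ := le_self_add
      refine le_trans h1 (add_le_add ?_ ?_)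
      · rw [← ENNReal.ofReal_pow (Real.rpow_nonneg (norm_nonneg _) _), ← ENNReal.ofReal_one,
          ← ENNReal.ofReal_add (norm_nonneg _) (norm_nonneg _),
          ← ENNReal.ofReal_add zero_le_one (add_nonneg (norm_nonneg _) (norm_nonneg _))]
        refine ENNReal.ofReal_le_ofReal (le_trans (Obe3c_rpow (norm_nonneg _) hθ hθ1) ?_)
        linarith [norm_sub_le (p.1 x) (p.2 x)]
      · unfold wpr
        refine le_trans (Obe3c_sq _ _ _) ?_
        have h2 : ∑ z, ENNReal.ofReal (α ^ (boxNet d L).dist x z) ≤ cE := by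
          rw [← ENNReal.ofReal_sum_of_nonneg fun z _ => pow_nonneg hα _]
          exact ENNReal.ofReal_le_ofReal (hcd' x)
        calc 2 * (∑ z, ENNReal.ofReal (α ^ (boxNet d L).dist x z)) *
              ∑ z, ENNReal.ofReal (α ^ (boxNet d L).dist x z) *
                (Vp (boxNet d L) k q s (fun y => ‖p.1 y‖) (fun y => ‖p.1 y‖ + ‖p.2 y‖) z +
                  Vp (boxNet d L) k q s (fun y => ‖p.2 y‖) (fun y => ‖p.1 y‖ + ‖p.2 y‖) z) ^ 2
            ≤ 2 * cE * ∑ z, ENNReal.ofReal (α ^ (boxNet d L).dist x z) *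
                (4 * (Vp (boxNet d L) k q s (fun y => ‖p.1 y‖) (fun y => ‖p.1 y‖ + ‖p.2 y‖) z ^ 2 +
                  Vp (boxNet d L) k q s (fun y => ‖p.2 y‖) (fun y => ‖p.1 y‖ + ‖p.2 y‖) z ^ 2)) := by
              refine mul_le_mul' (mul_le_mul' le_rfl h2) (Finset.sum_le_sum fun z _ => ?_)
              exact mul_le_mul' le_rfl (Obe3c_add_sq _ _)
          _ = 8 * cE * ∑ z, ENNReal.ofReal (α ^ (boxNet d L).dist x z) *
                (Vp (boxNet d L) k q s (fun y => ‖p.1 y‖) (fun y => ‖p.1 y‖ + ‖p.2 y‖) z ^ 2 +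
                  Vp (boxNet d L) k q s (fun y => ‖p.2 y‖) (fun y => ‖p.1 y‖ + ‖p.2 y‖) z ^ 2) := by
              have h3 : ∀ z : boxS d L, ENNReal.ofReal (α ^ (boxNet d L).dist x z) *
                (4 * (Vp (boxNet d L) k q s (fun y => ‖p.1 y‖) (fun y => ‖p.1 y‖ + ‖p.2 y‖) z ^ 2 +
                  Vp (boxNet d L) k q s (fun y => ‖p.2 y‖) (fun y => ‖p.1 y‖ + ‖p.2 y‖) z ^ 2)) =
                4 * (ENNReal.ofReal (α ^ (boxNet d L).dist x z) *
                (Vp (boxNet d L) k q s (fun y => ‖p.1 y‖) (fun y => ‖p.1 y‖ + ‖p.2 y‖) z ^ 2 +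
                  Vp (boxNet d L) k q s (fun y => ‖p.2 y‖) (fun y => ‖p.1 y‖ + ‖p.2 y‖) z ^ 2)) :=
                fun z => by ring
              simp only [h3]
              rw [← Finset.mul_sum]
              ring
    · have h4 : 0 ≤ 2 * ((Fintype.card (boxS d L) : ℕ) : ℝ) * ε := by positivity
      have h5 : 0 ≤ ∑ x, ‖p.1 x‖ := Finset.sum_nonneg fun x _ => norm_nonneg _
      have h6 : 0 ≤ ∑ x, ‖p.2 x‖ := Finset.sum_nonneg fun x _ => norm_nonneg _
      have h7 : (1 : ℝ≥0∞) + 2 * (ENNReal.ofReal (∑ x, ‖p.1 x‖) + ENNReal.ofReal (∑ x, ‖p.2 x‖)) =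
          ENNReal.ofReal (1 + 2 * (∑ x, ‖p.1 x‖ + ∑ x, ‖p.2 x‖)) := by
        rw [ENNReal.ofReal_add zero_le_one (by positivity), ENNReal.ofReal_one,
          ENNReal.ofReal_mul (by norm_num), ENNReal.ofReal_add h5 h6]
        norm_num
      rw [h7, ← ENNReal.ofReal_mul h4, Finset.sum_add_distrib]
  refine le_trans (lintegral_mono hpt) ?_
  have mD : ∀ x : boxS d L, Measurable fun p : (boxS d L → V) × (boxS d L → V) =>
      (1 : ℝ≥0∞) + (ENNReal.ofReal ‖p.1 x‖ + ENNReal.ofReal ‖p.2 x‖) := fun x =>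
    ((ENNReal.measurable_ofReal.comp (mx1 x)).add
      (ENNReal.measurable_ofReal.comp (mx2 x))).const_add _
  have mW : ∀ x z : boxS d L, Measurable fun p : (boxS d L → V) × (boxS d L → V) =>
      ENNReal.ofReal (α ^ (boxNet d L).dist x z) *
          (Vp (boxNet d L) k q s (fun y => ‖p.1 y‖) (fun y => ‖p.1 y‖ + ‖p.2 y‖) z ^ 2 +
            Vp (boxNet d L) k q s (fun y => ‖p.2 y‖) (fun y => ‖p.1 y‖ + ‖p.2 y‖) z ^ 2) :=
    fun x z => ((mV1 z).add (mV2 z)).const_mul _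
  have mWs : ∀ x : boxS d L, Measurable fun p : (boxS d L → V) × (boxS d L → V) =>
      8 * cE * ∑ z, ENNReal.ofReal (α ^ (boxNet d L).dist x z) *
          (Vp (boxNet d L) k q s (fun y => ‖p.1 y‖) (fun y => ‖p.1 y‖ + ‖p.2 y‖) z ^ 2 +
            Vp (boxNet d L) k q s (fun y => ‖p.2 y‖) (fun y => ‖p.1 y‖ + ‖p.2 y‖) z ^ 2) :=
    fun x => (Finset.measurable_sum _ fun z _ => mW x z).const_mul _
  have mR : Measurable fun p : (boxS d L → V) × (boxS d L → V) =>
      ENNReal.ofReal (2 * (Fintype.card (boxS d L)) * ε) *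
        (1 + 2 * (ENNReal.ofReal (∑ x, ‖p.1 x‖) + ENNReal.ofReal (∑ x, ‖p.2 x‖))) :=
    ((((ENNReal.measurable_ofReal.comp (Finset.measurable_sum _ fun x _ => mx1 x)).add
      (ENNReal.measurable_ofReal.comp (Finset.measurable_sum _ fun x _ => mx2 x))).const_mul
      _).const_add _).const_mul _
  have mDW0 : ∀ x : boxS d L, Measurable fun p : (boxS d L → V) × (boxS d L → V) =>
      ((1 + (ENNReal.ofReal ‖p.1 x‖ + ENNReal.ofReal ‖p.2 x‖)) +
        8 * cE * ∑ z, ENNReal.ofReal (α ^ (boxNet d L).dist x z) *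
          (Vp (boxNet d L) k q s (fun y => ‖p.1 y‖) (fun y => ‖p.1 y‖ + ‖p.2 y‖) z ^ 2 +
            Vp (boxNet d L) k q s (fun y => ‖p.2 y‖) (fun y => ‖p.1 y‖ + ‖p.2 y‖) z ^ 2)) :=
    fun x => (mD x).add (mWs x)
  have mDW : ∀ x : boxS d L, Measurable fun p : (boxS d L → V) × (boxS d L → V) =>
      ENNReal.ofReal (4 * A x) * ((1 + (ENNReal.ofReal ‖p.1 x‖ + ENNReal.ofReal ‖p.2 x‖)) +
        8 * cE * ∑ z, ENNReal.ofReal (α ^ (boxNet d L).dist x z) *
          (Vp (boxNet d L) k q s (fun y => ‖p.1 y‖) (fun y => ‖p.1 y‖ + ‖p.2 y‖) z ^ 2 +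
            Vp (boxNet d L) k q s (fun y => ‖p.2 y‖) (fun y => ‖p.1 y‖ + ‖p.2 y‖) z ^ 2)) :=
    fun x => (mDW0 x).const_mul _
  rw [lintegral_add_right _ mR, lintegral_finsetSum _ fun x _ => mDW x]
  have hR : ∫⁻ p : (boxS d L → V) × (boxS d L → V),
      ENNReal.ofReal (2 * (Fintype.card (boxS d L)) * ε) *
        (1 + 2 * (ENNReal.ofReal (∑ x, ‖p.1 x‖) + ENNReal.ofReal (∑ x, ‖p.2 x‖)))
        ∂(N1.prod N2) ≤ ENNReal.ofReal (2 * (Fintype.card (boxS d L)) * ε * (1 + 4 * CL)) := by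
    have ms1 : Measurable fun p : (boxS d L → V) × (boxS d L → V) =>
        ENNReal.ofReal (∑ x, ‖p.1 x‖) :=
      ENNReal.measurable_ofReal.comp (Finset.measurable_sum _ fun x _ => mx1 x)
    have ms2 : Measurable fun p : (boxS d L → V) × (boxS d L → V) =>
        ENNReal.ofReal (∑ x, ‖p.2 x‖) :=
      ENNReal.measurable_ofReal.comp (Finset.measurable_sum _ fun x _ => mx2 x)
    have ms : Measurable fun H : boxS d L → V => ENNReal.ofReal (∑ x, ‖H x‖) :=
      ENNReal.measurable_ofReal.comp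
        (Finset.measurable_sum _ fun x _ => (measurable_pi_apply x).norm)
    have ms12 : Measurable fun p : (boxS d L → V) × (boxS d L → V) =>
        ENNReal.ofReal (∑ x, ‖p.1 x‖) + ENNReal.ofReal (∑ x, ‖p.2 x‖) := ms1.add ms2
    have ms12' : Measurable fun p : (boxS d L → V) × (boxS d L → V) =>
        2 * (ENNReal.ofReal (∑ x, ‖p.1 x‖) + ENNReal.ofReal (∑ x, ‖p.2 x‖)) := ms12.const_mul _
    have ms12'' : Measurable fun p : (boxS d L → V) × (boxS d L → V) =>
        1 + 2 * (ENNReal.ofReal (∑ x, ‖p.1 x‖) + ENNReal.ofReal (∑ x, ‖p.2 x‖)) :=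
      ms12'.const_add _
    rw [lintegral_const_mul _ ms12'', lintegral_add_right _ ms12', lintegral_const,
      lintegral_const_mul _ ms12, lintegral_add_right _ ms2,
      ENNReal.ofReal_mul (show 0 ≤ 2 * ((Fintype.card (boxS d L) : ℕ) : ℝ) * ε by positivity)]
    refine mul_le_mul' le_rfl ?_
    have e1 : ENNReal.ofReal (1 + 4 * CL) = 1 + 2 * (ENNReal.ofReal CL + ENNReal.ofReal CL) := by
      rw [ENNReal.ofReal_add zero_le_one (by positivity), ENNReal.ofReal_one,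
        ← ENNReal.ofReal_add hCL hCL]
      have : (2 : ℝ≥0∞) = ENNReal.ofReal 2 := by norm_num
      rw [this, ← ENNReal.ofReal_mul (by norm_num)]
      congr 2
      ring
    rw [e1, one_mul]
    exact add_le_add iU (mul_le_mul' le_rfl (add_le_add (iF _ ms _ hL1) (iG _ ms _ hL2)))
  have hX : ∀ x : boxS d L, ∫⁻ p : (boxS d L → V) × (boxS d L → V),
      ENNReal.ofReal (4 * A x) * ((1 + (ENNReal.ofReal ‖p.1 x‖ + ENNReal.ofReal ‖p.2 x‖)) +
        8 * cE * ∑ z, ENNReal.ofReal (α ^ (boxNet d L).dist x z) *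
          (Vp (boxNet d L) k q s (fun y => ‖p.1 y‖) (fun y => ‖p.1 y‖ + ‖p.2 y‖) z ^ 2 +
            Vp (boxNet d L) k q s (fun y => ‖p.2 y‖) (fun y => ‖p.1 y‖ + ‖p.2 y‖) z ^ 2))
        ∂(N1.prod N2) ≤
      ENNReal.ofReal (4 * (1 + 2 * Cm + 16 * cd ^ 2 * (Cv * Cm)) * A x) := by
    intro x
    have mx1' : Measurable fun p : (boxS d L → V) × (boxS d L → V) => ENNReal.ofReal ‖p.1 x‖ :=
      ENNReal.measurable_ofReal.comp (mx1 x)
    have mx2' : Measurable fun p : (boxS d L → V) × (boxS d L → V) => ENNReal.ofReal ‖p.2 x‖ :=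
      ENNReal.measurable_ofReal.comp (mx2 x)
    have mx12 : Measurable fun p : (boxS d L → V) × (boxS d L → V) =>
        ENNReal.ofReal ‖p.1 x‖ + ENNReal.ofReal ‖p.2 x‖ := mx1'.add mx2'
    rw [lintegral_const_mul _ (mDW0 x), lintegral_add_right _ (mWs x),
      lintegral_add_right _ mx12, lintegral_const, lintegral_add_right _ mx2',
      lintegral_const_mul _ (Finset.measurable_sum _ fun z _ => mW x z),
      lintegral_finsetSum _ fun z _ => mW x z]
    have mn : Measurable fun H : boxS d L → V => ENNReal.ofReal ‖H x‖ :=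
      ENNReal.measurable_ofReal.comp (measurable_pi_apply x).norm
    have e1 : ∑ z, ∫⁻ p : (boxS d L → V) × (boxS d L → V),
        ENNReal.ofReal (α ^ (boxNet d L).dist x z) *
          (Vp (boxNet d L) k q s (fun y => ‖p.1 y‖) (fun y => ‖p.1 y‖ + ‖p.2 y‖) z ^ 2 +
            Vp (boxNet d L) k q s (fun y => ‖p.2 y‖) (fun y => ‖p.1 y‖ + ‖p.2 y‖) z ^ 2)
        ∂(N1.prod N2) ≤ cE * (vE + vE) := by
      calc _ ≤ ∑ z, ENNReal.ofReal (α ^ (boxNet d L).dist x z) * (vE + vE) := by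
            refine Finset.sum_le_sum fun z _ => ?_
            have mVV : Measurable fun p : (boxS d L → V) × (boxS d L → V) =>
                Vp (boxNet d L) k q s (fun y => ‖p.1 y‖) (fun y => ‖p.1 y‖ + ‖p.2 y‖) z ^ 2 +
                  Vp (boxNet d L) k q s (fun y => ‖p.2 y‖) (fun y => ‖p.1 y‖ + ‖p.2 y‖) z ^ 2 :=
              (mV1 z).add (mV2 z)
            rw [lintegral_const_mul _ mVV, lintegral_add_right _ (mV2 z)]
            exact mul_le_mul' le_rfl (add_le_add (iV1 z) (iV2 z))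
        _ = (∑ z, ENNReal.ofReal (α ^ (boxNet d L).dist x z)) * (vE + vE) := by
            rw [Finset.sum_mul]
        _ ≤ cE * (vE + vE) := by
            refine mul_le_mul' ?_ le_rfl
            rw [← ENNReal.ofReal_sum_of_nonneg fun z _ => pow_nonneg hα _]
            exact ENNReal.ofReal_le_ofReal (hcd' x)
    have e2 : ENNReal.ofReal (4 * (1 + 2 * Cm + 16 * cd ^ 2 * (Cv * Cm)) * A x) =
        ENNReal.ofReal (4 * A x) * ((1 * 1 + (mE + mE)) + 8 * cE * (cE * (vE + vE))) := by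
      have hvv : 0 ≤ Cv * Cm := mul_nonneg hCv hCm
      have h8 : (8 : ℝ≥0∞) = ENNReal.ofReal 8 := by norm_num
      have e3 : (1 * 1 + (mE + mE)) + 8 * cE * (cE * (vE + vE)) =
          ENNReal.ofReal ((1 + (Cm + Cm)) + 8 * cd * (cd * (Cv * Cm + Cv * Cm))) := by
        rw [ENNReal.ofReal_add (by positivity) (by positivity),
          ENNReal.ofReal_add zero_le_one (by positivity), ENNReal.ofReal_add hCm hCm,
          ENNReal.ofReal_mul (by positivity), ENNReal.ofReal_mul (by positivity),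
          ENNReal.ofReal_mul hcd, ENNReal.ofReal_add hvv hvv, ENNReal.ofReal_one, ← h8, mul_one]
      rw [e3, ← ENNReal.ofReal_mul (mul_nonneg (by norm_num) (hA x))]
      congr 1
      ring
    rw [e2]
    refine mul_le_mul' le_rfl (add_le_add (add_le_add (mul_le_mul' le_rfl iU)
      (add_le_add (iF _ mn _ (hn1 x)) (iG _ mn _ (hn2 x)))) (mul_le_mul' le_rfl e1))
  have hc0 : 0 ≤ 4 * (1 + 2 * Cm + 16 * cd ^ 2 * (Cv * Cm)) := by
    have := mul_nonneg hCv hCm
    positivity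
  rw [ENNReal.ofReal_add (mul_nonneg hc0 (Finset.sum_nonneg fun x _ => hA x)) (by positivity)]
  refine add_le_add ?_ hR
  rw [Finset.mul_sum, ENNReal.ofReal_sum_of_nonneg fun x _ => mul_nonneg hc0 (hA x)]
  exact Finset.sum_le_sum fun x _ => hX x

end pair


theorem init_of_blk (hd : 1 ≤ d) {F : Fam d} {β k : ℝ} (S : PSys F β k)
    (q s a θ TB BD BV κ' CV K cd CM : ℝ) (Ls : ℕ)
    (B : Blk S q s a θ TB BD BV κ' CV K cd Ls) (hM : MomU S CM) (hks : k ^ (-s) ≤ 11 / 10) :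
    ObeInit F k q s (Real.exp (-(a / 8))) θ := by
  intro ρ1 ρ2 p1 p2 h1 h2 i1 i2
  obtain ⟨Cv1, Cm1, hCv1, hCm1, hs1⟩ :=
    Obe3c_side hd S q s a θ TB BD BV κ' CV K cd CM Ls B hM hks ρ1 h1 i1
  obtain ⟨Cv2, Cm2, hCv2, hCm2, hs2⟩ :=
    Obe3c_side hd S q s a θ TB BD BV κ' CV K cd CM Ls B hM hks ρ2 h2 i2
  set Cv : ℝ := max Cv1 Cv2 with hCvd
  set Cm : ℝ := max Cm1 Cm2 with hCmd
  have hCv : 0 ≤ Cv := le_trans hCv1 (le_max_left _ _)
  have hCm : 0 ≤ Cm := le_trans hCm1 (le_max_left _ _)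
  have hvm : 0 ≤ Cv * Cm := mul_nonneg hCv hCm
  set Ci : ℝ := 4 * (1 + 2 * Cm + 16 * cd ^ 2 * (Cv * Cm)) with hCi
  have hCi0 : 0 ≤ Ci := by positivity
  refine ⟨Ci, hCi0, fun η hη => ?_⟩
  obtain ⟨L1, hL1⟩ := hs1 (η / 4) (by linarith)
  obtain ⟨L2, hL2⟩ := hs2 (η / 4) (by linarith)
  refine ⟨max L1 L2, fun L hL Sm hSm => ?_⟩
  obtain ⟨CL1, hCL1, g1⟩ := hL1 L (le_trans (le_max_left _ _) hL) Sm hSm
  obtain ⟨CL2, hCL2, g2⟩ := hL2 L (le_trans (le_max_right _ _) hL) Sm hSm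
  set CL0 : ℝ := max CL1 CL2 with hCL0d
  have hCL0 : 0 ≤ CL0 := le_trans hCL1 (le_max_left _ _)
  set cr : ℝ := (Fintype.card (boxS d L) : ℝ) with hcr
  have hcr0 : 0 ≤ cr := Nat.cast_nonneg _
  refine ⟨1 + 2 * cr * (1 + 4 * CL0), by
    have : 0 ≤ 2 * cr * (1 + 4 * CL0) := by positivity
    linarith, fun ε0 hε0 => ?_⟩
  obtain ⟨ha, hap, f1⟩ := g1 (ε0 / 4) (by linarith)
  obtain ⟨hb, hbp, f2⟩ := g2 (ε0 / 4) (by linarith)
  refine ⟨min ha hb, lt_min hap hbp, ?_⟩
  intro h hh hlt n1 n2 hn1 hn2 A ε f hA he hfm hfb hf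
  obtain ⟨N1, B1, e1, b1, u1, m1, S1, V1', W1⟩ := f1 h hh (lt_of_lt_of_le hlt (min_le_left _ _)) n1 hn1
  obtain ⟨N2, B2, e2, b2, u2, m2, S2, V2', W2⟩ := f2 h hh (lt_of_lt_of_le hlt (min_le_right _ _)) n2 hn2
  have hsum0 : 0 ≤ ∑ x, A x := Finset.sum_nonneg fun x _ => hA x
  have pr1 : IsProbabilityMeasure (F.law h L (Measure.pi (fun _ => ρ1)) n1) :=
    (Obe3c_law F h L (Measure.pi (fun _ => ρ1)) n1).1
  have pr2 : IsProbabilityMeasure (F.law h L (Measure.pi (fun _ => ρ2)) n2) :=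
    (Obe3c_law F h L (Measure.pi (fun _ => ρ2)) n2).1
  set μ1 := F.law h L (Measure.pi (fun _ => ρ1)) n1 with hμ1
  set μ2 := F.law h L (Measure.pi (fun _ => ρ2)) n2 with hμ2
  have hcd0 : 0 ≤ cd := by
    obtain ⟨x0⟩ : Nonempty (boxS d L) := by
      refine ⟨⟨fun _ => 0, ?_⟩⟩
      unfold boxS
      rw [Finset.mem_Icc]
      exact ⟨fun i => by simp, fun i => by simp⟩
    exact le_trans (Finset.sum_nonneg fun z _ => by positivity) (B.hcd L x0).1
  have key := Obe3c_pair (V := F.V) B.hk B.hk1 B.hq B.hs B.hqs (Real.exp_pos (-(a / 8))).le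
    B.hθ B.hθ1 N1 N2 u1 u2 Cv Cm CL0 cd hCv hCm hCL0 hcd0 (fun x => (B.hcd L x).1)
    (fun x => (m1 x).trans (ENNReal.ofReal_le_ofReal (le_max_left _ _)))
    (fun x => (m2 x).trans (ENNReal.ofReal_le_ofReal (le_max_right _ _)))
    (fun x => (S1 x).trans (ENNReal.ofReal_le_ofReal (le_max_left _ _)))
    (fun x => (S2 x).trans (ENNReal.ofReal_le_ofReal (le_max_right _ _)))
    (fun x => (V1' x).trans (ENNReal.ofReal_le_ofReal (le_max_left _ _)))
    (fun x => (V2' x).trans (ENNReal.ofReal_le_ofReal (le_max_right _ _)))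
    (W1.trans (ENNReal.ofReal_le_ofReal (le_max_left _ _)))
    (W2.trans (ENNReal.ofReal_le_ofReal (le_max_right _ _))) A hA ε he f hfm hf
  have hφ : ∀ G G' : boxS d L → F.V, ENNReal.ofReal ‖f G - f G'‖ ≤ ENNReal.ofReal 2 := by
    intro G G'
    refine ENNReal.ofReal_le_ofReal ?_
    linarith [norm_sub_le (f G) (f G'), hfb G, hfb G']
  have hX0 : 0 ≤ Ci * ∑ x, A x + 2 * cr * ε * (1 + 4 * CL0) := by
    have := mul_nonneg hCi0 hsum0
    positivity
  have hlint : ∫⁻ G, ∫⁻ G', ENNReal.ofReal ‖f G - f G'‖ ∂μ2 ∂μ1 ≤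
      ENNReal.ofReal (Ci * ∑ x, A x + (1 + 2 * cr * (1 + 4 * CL0)) * ε + ε0 + η) := by
    have s1 : ∫⁻ G, ∫⁻ G', ENNReal.ofReal ‖f G - f G'‖ ∂μ2 ∂μ1 =
        ∫⁻ G, ∫⁻ G', ENNReal.ofReal ‖f G - f G'‖ ∂μ2 ∂N1 +
          ∫⁻ G, ∫⁻ G', ENNReal.ofReal ‖f G - f G'‖ ∂μ2 ∂B1 := by
      rw [e1, lintegral_add_measure]
    have s2 : ∫⁻ G, ∫⁻ G', ENNReal.ofReal ‖f G - f G'‖ ∂μ2 ∂B1 ≤
        ENNReal.ofReal (2 * (η / 4 + ε0 / 4)) := by
      calc ∫⁻ G, ∫⁻ G', ENNReal.ofReal ‖f G - f G'‖ ∂μ2 ∂B1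
          ≤ ∫⁻ _, ENNReal.ofReal 2 ∂B1 := by
            refine lintegral_mono fun G => ?_
            refine le_trans (lintegral_mono fun G' => hφ G G') ?_
            rw [lintegral_const, measure_univ, mul_one]
        _ = ENNReal.ofReal 2 * B1 Set.univ := lintegral_const _
        _ ≤ ENNReal.ofReal 2 * ENNReal.ofReal (η / 4 + ε0 / 4) := mul_le_mul' le_rfl b1
        _ = _ := (ENNReal.ofReal_mul (by norm_num)).symm
    have s3 : ∫⁻ G, ∫⁻ G', ENNReal.ofReal ‖f G - f G'‖ ∂μ2 ∂N1 ≤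
        ENNReal.ofReal (Ci * ∑ x, A x + 2 * cr * ε * (1 + 4 * CL0)) +
          ENNReal.ofReal (2 * (η / 4 + ε0 / 4)) := by
      calc ∫⁻ G, ∫⁻ G', ENNReal.ofReal ‖f G - f G'‖ ∂μ2 ∂N1
          ≤ ∫⁻ G, (∫⁻ G', ENNReal.ofReal ‖f G - f G'‖ ∂N2 +
              ENNReal.ofReal (2 * (η / 4 + ε0 / 4))) ∂N1 := by
            refine lintegral_mono fun G => ?_
            show ∫⁻ G', ENNReal.ofReal ‖f G - f G'‖ ∂μ2 ≤ _
            rw [e2, lintegral_add_measure]
            refine add_le_add le_rfl ?_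
            calc ∫⁻ G', ENNReal.ofReal ‖f G - f G'‖ ∂B2 ≤ ∫⁻ _, ENNReal.ofReal 2 ∂B2 :=
                  lintegral_mono fun G' => hφ G G'
              _ = ENNReal.ofReal 2 * B2 Set.univ := lintegral_const _
              _ ≤ ENNReal.ofReal 2 * ENNReal.ofReal (η / 4 + ε0 / 4) := mul_le_mul' le_rfl b2
              _ = _ := (ENNReal.ofReal_mul (by norm_num)).symm
        _ = ∫⁻ G, ∫⁻ G', ENNReal.ofReal ‖f G - f G'‖ ∂N2 ∂N1 +
              ENNReal.ofReal (2 * (η / 4 + ε0 / 4)) * N1 Set.univ := by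
            rw [lintegral_add_right _ measurable_const, lintegral_const]
        _ ≤ _ := by
            refine add_le_add key ?_
            exact le_trans (mul_le_mul' le_rfl u1) (mul_one _).le
    rw [s1]
    refine le_trans (add_le_add s3 s2) ?_
    rw [← ENNReal.ofReal_add hX0 (by positivity), ← ENNReal.ofReal_add (by positivity) (by positivity)]
    refine ENNReal.ofReal_le_ofReal ?_
    nlinarith only [he]
  have hXX : 0 ≤ Ci * ∑ x, A x + (1 + 2 * cr * (1 + 4 * CL0)) * ε + ε0 + η := by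
    have := mul_nonneg hCi0 hsum0
    positivity
  have mff : Measurable fun p : (boxS d L → F.V) × (boxS d L → F.V) => ‖f p.1 - f p.2‖ :=
    ((hfm.comp measurable_fst).sub (hfm.comp measurable_snd)).norm
  have hin : ∀ G : boxS d L → F.V, Integrable (fun G' => ‖f G - f G'‖) μ2 := by
    intro G
    refine Integrable.of_bound (mff.comp (measurable_const.prodMk measurable_id)).aestronglyMeasurable
      2 (Filter.Eventually.of_forall fun G' => ?_)
    simp only [norm_norm]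
    linarith [norm_sub_le (f G) (f G'), hfb G, hfb G']
  have hms : StronglyMeasurable fun G : boxS d L → F.V => ∫ G', ‖f G - f G'‖ ∂μ2 :=
    mff.stronglyMeasurable.integral_prod_right'
  rw [integral_eq_lintegral_of_nonneg_ae (Filter.Eventually.of_forall fun G =>
    integral_nonneg fun G' => norm_nonneg _) hms.aestronglyMeasurable]
  refine ENNReal.toReal_le_of_le_ofReal hXX ?_
  refine le_trans (le_of_eq ?_) hlint
  refine lintegral_congr fun G => ?_
  exact ofReal_integral_eq_lintegral_ofReal (hin G) (Filter.Eventually.of_forall fun G' =>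
    norm_nonneg _)

/-- block estimates imply mixing -/
theorem mix_of_blk (hd : 1 ≤ d) {F : Fam d} {β k : ℝ} (S : PSys F β k)
    (q s a θ TB BD BV κ' CV K cd CM : ℝ) (Ls : ℕ)
    (B : Blk S q s a θ TB BD BV κ' CV K cd Ls) (hM : MomU S CM) (hks : k ^ (-s) ≤ 11 / 10) :
    F.Mix := by
  obtain ⟨Cg, h⟩ := obe_of_blk S q s a θ TB BD BV κ' CV K cd Ls B
    (init_of_blk hd S q s a θ TB BD BV κ' CV K cd CM Ls B hM hks)
  exact mix_of_obe F k q s _ θ TB Cg Ls h

end DynC

end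

/-! ### from `Lib_MP_36b788c.BLink2` -/

section

/-!
# The two families of chains and the links to `ChainMix`

* `Fam1 N d β k`: the Gaussian chain `stp` with values in `E N`.
* `Fam2 d β k`: values in `ℂ`, `G⁺ = J(e^{√h η} G) + k h coup G`, `η` complex Gaussian with independent standard normal real and imaginary parts.
* `PS2`: pair system for `Fam2` (same noise). `b = √h Re η`.

PROOF.
* `link1`: `F.pathE = pathE`, `F.law = chainLaw` by induction on the list / on `n` (`coupV = coup`, `JV = J` by definition), for `k > 0` the clause `k = 0 → …` is empty.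
* `BNoise` for `PS2`: `Re η ~ N(0,1)`: `∫ e^{r √h Re η} = e^{r² h/2}` and the part outside `gd` is `≤ h²` (Gaussian tail `P(|η| > h^{-1/8}) ≤ 2e^{-h^{-1/4}/4}`, Cauchy-Schwarz).
* `PS2` facts: `‖JV v‖ = psi ‖v‖` (`norm_J`), `JV` nonexpansive (as `J_nonexp`; its proof uses only the inner product), `‖e^{√h η} G‖ = e^{b} ‖G‖`.
* `link2`: (1) the chain `stp` for `N = 2` has the same transition kernel as `G⁺ = J(G (1+√h ζ)) + k h coup` on `ℂ` (identification `ℂ ≃ₗᵢ E 2`; `‖G‖ξ` and `G ζ` have the same law by isotropy). (2) Same noise `ζ = η` for this chain (values `G'`) and `Fam2` (values `G`) started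
  at the same configuration: `D = G' - G`, `r = e^{√h η} - 1 - √h η`: `E r = 0`, `E[conj(1+√h η) r] = 0` (`E conj(η) η^j = 0` for `j ≥ 2`), `E|r|² ≤ C h²`, so `E|D(1+√hη) - G r|² = |D|²(1+2h) + |G|² E|r|²`, and with `(a+b)² ≤ (1+h)a² + (1+1/h)b²` for the coupling term:
  `E Σ_x|D⁺|² ≤ (1+Ch) Σ|D|² + C h² Σ|G|²`; `E Σ|G_n|² ≤ e^{C n h} E Σ|G_0|²`. So `E Σ_x|D_n(x)|² ≤ C h` for `n h ≤ 2 Sm`. (3) In `ChainMix` replace both trajectories (times `n1 + i`, `n2 + i`) by those of `Fam2`: product of at most `J` Lipschitz functions: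
  error `≤ 2 J CF Σ_x E min(1,|D|) ≤ C √h`. Then `Mix` with `δ/2`.
-/

open MeasureTheory ProbabilityTheory
open scoped ENNReal

namespace DynC

open Dyn

/-! ### Gaussian integrals -/

private theorem BLink2_I0 (z : ℂ) :
    Integrable (fun x : ℝ => Complex.exp (z * x)) (gaussianReal 0 1) ∧
      ∫ x : ℝ, Complex.exp (z * x) ∂(gaussianReal 0 1) = Complex.exp (z ^ 2 / 2) := by
  refine ⟨integrable_cexp_mul_of_re_mem_integrableExpSet (X := id) aemeasurable_id ?_, ?_⟩
  · rw [integrableExpSet_id_gaussianReal]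
    trivial
  · have h := complexMGF_id_gaussianReal (μ := 0) (v := 1) z
    unfold complexMGF at h
    simp only [id] at h
    rw [h]
    congr 1
    push_cast
    ring

private theorem BLink2_I1 (z : ℂ) :
    Integrable (fun x : ℝ => (x : ℂ) * Complex.exp (z * x)) (gaussianReal 0 1) ∧
      ∫ x : ℝ, (x : ℂ) * Complex.exp (z * x) ∂(gaussianReal 0 1) =
        z * Complex.exp (z ^ 2 / 2) := by
  have hz : z.re ∈ interior (integrableExpSet id (gaussianReal 0 1)) := by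
    rw [integrableExpSet_id_gaussianReal]
    simp
  constructor
  · have h := integrable_pow_mul_cexp_of_re_mem_interior_integrableExpSet hz 1
    simpa using h
  · have h1 := hasDerivAt_complexMGF hz
    have h2 : HasDerivAt (complexMGF id (gaussianReal 0 1)) (z * Complex.exp (z ^ 2 / 2)) z := by
      have e : complexMGF id (gaussianReal 0 1) = fun w : ℂ => Complex.exp (w ^ 2 / 2) := by
        funext w
        rw [complexMGF_id_gaussianReal]
        congr 1
        push_cast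
        ring
      rw [e]
      have h3 : HasDerivAt (fun w : ℂ => w ^ 2 / 2) ((2 : ℕ) * z ^ (2 - 1) / 2) z :=
        (hasDerivAt_pow 2 z).div_const 2
      have h4 := h3.cexp
      have e7 : Complex.exp (z ^ 2 / 2) * (((2 : ℕ) : ℂ) * z ^ (2 - 1) / 2) =
          z * Complex.exp (z ^ 2 / 2) := by
        norm_num
        ring
      rw [e7] at h4
      exact h4
    have h5 := h1.unique h2
    simpa using h5

private theorem BLink2_mk : Measurable (fun p : ℝ × ℝ => (⟨p.1, p.2⟩ : ℂ)) :=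
  measurable_mkC

/-- the mixed integral -/
private theorem BLink2_cross (s : ℝ) :
    Integrable (fun η : ℂ => (1 + (s : ℂ) * η) * Complex.exp ((s : ℂ) * (starRingEnd ℂ) η)) gC ∧
    ∫ η : ℂ, (1 + (s : ℂ) * η) * Complex.exp ((s : ℂ) * (starRingEnd ℂ) η) ∂gC =
      1 + 2 * (s : ℂ) ^ 2 := by
  have hcont : Continuous (fun η : ℂ =>
      (1 + (s : ℂ) * η) * Complex.exp ((s : ℂ) * (starRingEnd ℂ) η)) := by
    fun_prop
  have e : ∀ p : ℝ × ℝ, (1 + (s : ℂ) * (⟨p.1, p.2⟩ : ℂ)) *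
      Complex.exp ((s : ℂ) * (starRingEnd ℂ) (⟨p.1, p.2⟩ : ℂ)) =
      (Complex.exp ((s : ℂ) * p.1) + s * (p.1 * Complex.exp ((s : ℂ) * p.1))) *
        Complex.exp ((-(s * Complex.I)) * p.2) +
      (s * Complex.I * Complex.exp ((s : ℂ) * p.1)) *
        (p.2 * Complex.exp ((-(s * Complex.I)) * p.2)) := by
    intro p
    have e1 : (⟨p.1, p.2⟩ : ℂ) = (p.1 : ℂ) + p.2 * Complex.I := by
      apply Complex.ext <;> simp
    have e2 : (starRingEnd ℂ) (⟨p.1, p.2⟩ : ℂ) = (p.1 : ℂ) - p.2 * Complex.I := by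
      apply Complex.ext <;> simp
    have e3 : (s : ℂ) * ((p.1 : ℂ) - p.2 * Complex.I) =
        (s : ℂ) * p.1 + (-(s * Complex.I)) * p.2 := by ring
    rw [e2, e1, e3, Complex.exp_add]
    ring
  have i1 : Integrable (fun p : ℝ × ℝ =>
      (Complex.exp ((s : ℂ) * p.1) + s * (p.1 * Complex.exp ((s : ℂ) * p.1))) *
        Complex.exp ((-(s * Complex.I)) * p.2)) ((gaussianReal 0 1).prod (gaussianReal 0 1)) :=
    ((BLink2_I0 s).1.add ((BLink2_I1 s).1.const_mul (s : ℂ))).mul_prod (BLink2_I0 _).1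
  have i2 : Integrable (fun p : ℝ × ℝ => (s * Complex.I * Complex.exp ((s : ℂ) * p.1)) *
        (p.2 * Complex.exp ((-(s * Complex.I)) * p.2)))
      ((gaussianReal 0 1).prod (gaussianReal 0 1)) :=
    ((BLink2_I0 s).1.const_mul (s * Complex.I)).mul_prod (BLink2_I1 _).1
  constructor
  · unfold gC
    rw [integrable_map_measure hcont.aestronglyMeasurable BLink2_mk.aemeasurable]
    refine (i1.add i2).congr (Filter.Eventually.of_forall fun p => ?_)
    exact (e p).symm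
  · unfold gC
    rw [integral_map BLink2_mk.aemeasurable hcont.aestronglyMeasurable]
    rw [integral_congr_ae (Filter.Eventually.of_forall e), integral_add i1 i2,
      integral_prod_mul (f := fun x : ℝ => Complex.exp ((s : ℂ) * x) +
        s * (x * Complex.exp ((s : ℂ) * x)))
        (g := fun y : ℝ => Complex.exp ((-(s * Complex.I)) * y)),
      integral_prod_mul (f := fun x : ℝ => s * Complex.I * Complex.exp ((s : ℂ) * x))
        (g := fun y : ℝ => y * Complex.exp ((-(s * Complex.I)) * y)),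
      integral_add (BLink2_I0 s).1 ((BLink2_I1 s).1.const_mul (s : ℂ)), integral_const_mul,
      integral_const_mul, (BLink2_I0 s).2, (BLink2_I1 s).2, (BLink2_I0 _).2, (BLink2_I1 _).2]
    have e4 : (-((s : ℂ) * Complex.I)) ^ 2 / 2 = -((s : ℂ) ^ 2 / 2) := by
      rw [neg_sq, mul_pow, Complex.I_sq]
      ring
    rw [e4]
    have e5 : Complex.exp ((s : ℂ) ^ 2 / 2) * Complex.exp (-((s : ℂ) ^ 2 / 2)) = 1 := by
      rw [← Complex.exp_add, add_neg_cancel, Complex.exp_zero]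
    have e6 : Complex.I * Complex.I = -1 := Complex.I_mul_I
    linear_combination (1 + 2 * (s : ℂ) ^ 2) * e5 -
      (s : ℂ) ^ 2 * Complex.exp ((s : ℂ) ^ 2 / 2) * Complex.exp (-((s : ℂ) ^ 2 / 2)) * e6

private theorem BLink2_sq : Integrable (fun x : ℝ => x ^ 2) (gaussianReal 0 1) ∧
    ∫ x : ℝ, x ^ 2 ∂(gaussianReal 0 1) = 1 := by
  have hi : Integrable (fun x : ℝ => x ^ 2) (gaussianReal 0 1) :=
    (memLp_id_gaussianReal (μ := 0) (v := 1) 2).integrable_sq
  refine ⟨hi, ?_⟩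
  have h := variance_fun_id_gaussianReal (μ := 0) (v := 1)
  rw [variance_eq_integral measurable_id'.aemeasurable, integral_id_gaussianReal] at h
  simpa using h

private theorem BLink2_lin (s : ℝ) :
    Integrable (fun η : ℂ => ‖1 + (s : ℂ) * η‖ ^ 2) gC ∧
    ∫ η : ℂ, ‖1 + (s : ℂ) * η‖ ^ 2 ∂gC = 1 + 2 * s ^ 2 := by
  have hcont : Continuous (fun η : ℂ => ‖1 + (s : ℂ) * η‖ ^ 2) := by fun_prop
  have e : ∀ p : ℝ × ℝ, ‖1 + (s : ℂ) * (⟨p.1, p.2⟩ : ℂ)‖ ^ 2 =
      (1 + 2 * s * p.1 + s ^ 2 * p.1 ^ 2) * 1 + s ^ 2 * p.2 ^ 2 := by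
    intro p
    rw [← Complex.normSq_eq_norm_sq, Complex.normSq_apply]
    simp
    ring
  have hid : Integrable (fun x : ℝ => x) (gaussianReal 0 1) :=
    (memLp_id_gaussianReal (μ := 0) (v := 1) 1).integrable (by norm_num)
  have hq0 : Integrable (fun x : ℝ => 1 + 2 * s * x) (gaussianReal 0 1) :=
    (integrable_const _).add (hid.const_mul _)
  have hq2 : Integrable (fun x : ℝ => s ^ 2 * x ^ 2) (gaussianReal 0 1) :=
    BLink2_sq.1.const_mul _
  have hq : Integrable (fun x : ℝ => 1 + 2 * s * x + s ^ 2 * x ^ 2) (gaussianReal 0 1) :=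
    hq0.add hq2
  have i1 : Integrable (fun p : ℝ × ℝ => (1 + 2 * s * p.1 + s ^ 2 * p.1 ^ 2) * 1)
      ((gaussianReal 0 1).prod (gaussianReal 0 1)) :=
    hq.mul_prod (integrable_const (1 : ℝ))
  have i2 : Integrable (fun p : ℝ × ℝ => s ^ 2 * p.2 ^ 2)
      ((gaussianReal 0 1).prod (gaussianReal 0 1)) :=
    (integrable_const (s ^ 2)).mul_prod BLink2_sq.1
  constructor
  · unfold gC
    rw [integrable_map_measure hcont.aestronglyMeasurable BLink2_mk.aemeasurable]
    refine (i1.add i2).congr (Filter.Eventually.of_forall fun p => ?_)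
    exact (e p).symm
  · unfold gC
    rw [integral_map BLink2_mk.aemeasurable hcont.aestronglyMeasurable]
    rw [integral_congr_ae (Filter.Eventually.of_forall e), integral_add i1 i2,
      integral_prod_mul (f := fun x : ℝ => 1 + 2 * s * x + s ^ 2 * x ^ 2)
        (g := fun _ : ℝ => (1 : ℝ)),
      integral_prod_mul (f := fun _ : ℝ => s ^ 2) (g := fun y : ℝ => y ^ 2),
      integral_add hq0 hq2,
      integral_add (integrable_const _) (hid.const_mul _), integral_const_mul,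
      integral_const_mul, BLink2_sq.2, integral_id_gaussianReal]
    simp
    ring

private theorem BLink2_exp (s : ℝ) :
    Integrable (fun η : ℂ => ‖Complex.exp ((s : ℂ) * η)‖ ^ 2) gC ∧
    ∫ η : ℂ, ‖Complex.exp ((s : ℂ) * η)‖ ^ 2 ∂gC = Real.exp (2 * s ^ 2) := by
  have hcont : Continuous (fun η : ℂ => ‖Complex.exp ((s : ℂ) * η)‖ ^ 2) := by fun_prop
  have e : ∀ p : ℝ × ℝ, ‖Complex.exp ((s : ℂ) * (⟨p.1, p.2⟩ : ℂ))‖ ^ 2 =
      Real.exp ((2 * s) * p.1) * 1 := by
    intro p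
    rw [Complex.norm_exp, ← Real.exp_nat_mul]
    simp
    ring
  have i0 : Integrable (fun x : ℝ => Real.exp ((2 * s) * x)) (gaussianReal 0 1) :=
    integrable_exp_mul_gaussianReal _
  have i1 : Integrable (fun p : ℝ × ℝ => Real.exp ((2 * s) * p.1) * 1)
      ((gaussianReal 0 1).prod (gaussianReal 0 1)) :=
    i0.mul_prod (integrable_const (1 : ℝ))
  constructor
  · unfold gC
    rw [integrable_map_measure hcont.aestronglyMeasurable BLink2_mk.aemeasurable]
    refine i1.congr (Filter.Eventually.of_forall fun p => ?_)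
    exact (e p).symm
  · unfold gC
    rw [integral_map BLink2_mk.aemeasurable hcont.aestronglyMeasurable]
    rw [integral_congr_ae (Filter.Eventually.of_forall e),
      integral_prod_mul (f := fun x : ℝ => Real.exp ((2 * s) * x)) (g := fun _ : ℝ => (1 : ℝ))]
    have h3 := congrFun (mgf_fun_id_gaussianReal (μ := 0) (v := 1)) (2 * s)
    unfold mgf at h3
    rw [h3]
    simp
    ring

/-- the site estimate -/
private theorem BLink2_site_int (s : ℝ) (A B : ℂ) :
    Integrable (fun η : ℂ => ‖A * (1 + (s : ℂ) * η) - Complex.exp ((s : ℂ) * η) * B‖ ^ 2) gC ∧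
    ∫ η : ℂ, ‖A * (1 + (s : ℂ) * η) - Complex.exp ((s : ℂ) * η) * B‖ ^ 2 ∂gC =
      (1 + 2 * s ^ 2) * ‖A - B‖ ^ 2 + ‖B‖ ^ 2 * (Real.exp (2 * s ^ 2) - 1 - 2 * s ^ 2) := by
  have e : ∀ η : ℂ, ‖A * (1 + (s : ℂ) * η) - Complex.exp ((s : ℂ) * η) * B‖ ^ 2 =
      ‖A‖ ^ 2 * ‖1 + (s : ℂ) * η‖ ^ 2 + ‖B‖ ^ 2 * ‖Complex.exp ((s : ℂ) * η)‖ ^ 2 -
        2 * (A * (starRingEnd ℂ) B *
          ((1 + (s : ℂ) * η) * Complex.exp ((s : ℂ) * (starRingEnd ℂ) η))).re := by
    intro η
    have h1 : ∀ z w : ℂ, ‖z - w‖ ^ 2 = ‖z‖ ^ 2 + ‖w‖ ^ 2 - 2 * (z * (starRingEnd ℂ) w).re := by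
      intro z w
      rw [← Complex.normSq_eq_norm_sq, ← Complex.normSq_eq_norm_sq, ← Complex.normSq_eq_norm_sq,
        Complex.normSq_sub]
    rw [h1, norm_mul, norm_mul, mul_pow, mul_pow]
    have h2 : A * (1 + (s : ℂ) * η) * (starRingEnd ℂ) (Complex.exp ((s : ℂ) * η) * B) =
        A * (starRingEnd ℂ) B * ((1 + (s : ℂ) * η) * Complex.exp ((s : ℂ) * (starRingEnd ℂ) η)) := by
      rw [map_mul, ← Complex.exp_conj, map_mul, Complex.conj_ofReal]
      ring
    rw [h2]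
    ring
  have i1 := (BLink2_lin s).1.const_mul (‖A‖ ^ 2)
  have i2 := (BLink2_exp s).1.const_mul (‖B‖ ^ 2)
  have i3 := ((BLink2_cross s).1.const_mul (A * (starRingEnd ℂ) B))
  have i4 : Integrable (fun η : ℂ => 2 * (A * (starRingEnd ℂ) B *
          ((1 + (s : ℂ) * η) * Complex.exp ((s : ℂ) * (starRingEnd ℂ) η))).re) gC :=
    i3.re.const_mul 2
  constructor
  · exact ((i1.add i2).sub i4).congr (Filter.Eventually.of_forall fun η => (e η).symm)
  · have i12 : Integrable (fun η : ℂ => ‖A‖ ^ 2 * ‖1 + (s : ℂ) * η‖ ^ 2 +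
        ‖B‖ ^ 2 * ‖Complex.exp ((s : ℂ) * η)‖ ^ 2) gC := i1.add i2
    rw [integral_congr_ae (Filter.Eventually.of_forall e), integral_sub i12 i4,
      integral_add i1 i2, integral_const_mul, integral_const_mul, integral_const_mul,
      (BLink2_lin s).2, (BLink2_exp s).2]
    have h5 : ∫ η : ℂ, (A * (starRingEnd ℂ) B *
          ((1 + (s : ℂ) * η) * Complex.exp ((s : ℂ) * (starRingEnd ℂ) η))).re ∂gC =
        (A * (starRingEnd ℂ) B * (1 + 2 * (s : ℂ) ^ 2)).re := by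
      have h6 := integral_re i3
      rw [integral_const_mul, (BLink2_cross s).2] at h6
      exact h6
    rw [h5]
    have h7 : (A * (starRingEnd ℂ) B * (1 + 2 * (s : ℂ) ^ 2)).re =
        (A * (starRingEnd ℂ) B).re * (1 + 2 * s ^ 2) := by
      have : (1 + 2 * (s : ℂ) ^ 2) = ((1 + 2 * s ^ 2 : ℝ) : ℂ) := by push_cast; ring
      rw [this, Complex.re_mul_ofReal]
    have h8 : ‖A - B‖ ^ 2 = ‖A‖ ^ 2 + ‖B‖ ^ 2 - 2 * (A * (starRingEnd ℂ) B).re := by
      rw [← Complex.normSq_eq_norm_sq, ← Complex.normSq_eq_norm_sq, ← Complex.normSq_eq_norm_sq,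
        Complex.normSq_sub]
    rw [h7, h8]
    ring

/-! ### the kernel identity -/

/-- identification of `ℂ` with `E 2` -/
private noncomputable def BLink2_e : ℂ ≃ₗᵢ[ℝ] E 2 := Complex.orthonormalBasisOneI.repr

private theorem BLink2_gC : gC = stdGaussian ℂ := by
  rw [stdGaussian_eq_map_pi_orthonormalBasis Complex.orthonormalBasisOneI]
  have h := (measurePreserving_finTwoArrow (gaussianReal 0 1)).map_eq
  unfold gC
  rw [← h, Measure.map_map BLink2_mk (MeasurableEquiv.measurable _)]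
  congr 1
  funext x
  apply Complex.ext <;> simp [MeasurableEquiv.finTwoArrow, Fin.sum_univ_two]

private theorem BLink2_rot (g : ℂ) :
    gC.map (fun ζ => g * ζ) = gC.map (fun ζ => ((‖g‖ : ℝ) : ℂ) * ζ) := by
  by_cases hg : g = 0
  · subst hg
    simp
  · have hn : (‖g‖ : ℂ) ≠ 0 := by
      exact_mod_cast norm_ne_zero_iff.mpr hg
    have hu : ‖g / (‖g‖ : ℂ)‖ = 1 := by
      rw [norm_div, Complex.norm_real, norm_norm, div_self (norm_ne_zero_iff.mpr hg)]
    set u : Circle := ⟨g / (‖g‖ : ℂ), mem_sphere_zero_iff_norm.mpr hu⟩ with hud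
    have h1 : gC.map (rotation u) = gC := by
      have h2 := stdGaussian_map (rotation u)
      rw [BLink2_gC]
      exact h2
    conv_rhs => rw [← h1]
    rw [Measure.map_map (by fun_prop) (rotation u).continuous.measurable]
    congr 1
    funext ζ
    show g * ζ = (‖g‖ : ℂ) * (rotation u ζ)
    rw [rotation_apply]
    show g * ζ = (‖g‖ : ℂ) * (g / (‖g‖ : ℂ) * ζ)
    field_simp

private theorem BLink2_J (β h : ℝ) (v : ℂ) :
    J β h (BLink2_e v) = BLink2_e (JV β h v) := by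
  simp only [J, JV, LinearIsometryEquiv.norm_map, map_smul]

private theorem BLink2_JVc {β h : ℝ} (hβ : 0 < β) (hh : 0 ≤ h) :
    Continuous (fun v : ℂ => JV β h v) := by
  have hl : LipschitzWith 1 (fun v : ℂ => JV β h v) := by
    apply LipschitzWith.of_dist_le_mul
    intro v w
    rw [dist_eq_norm, dist_eq_norm, NNReal.coe_one, one_mul]
    exact JV_nonexp hβ hh v w
  exact hl.continuous

private theorem BLink2_site {β h : ℝ} (hβ : 0 < β) (hh : 0 ≤ h) (g c : ℂ) :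
    gC.map (fun ζ => BLink2_e (JV β h (g * (1 + ((Real.sqrt h : ℝ) : ℂ) * ζ)) + c)) =
      (stdGaussian (E 2)).map (fun ξ => hat β h (BLink2_e g) ξ + BLink2_e c) := by
  have hJ := BLink2_JVc hβ hh
  have hΨ : Measurable (fun w : ℂ => BLink2_e (JV β h (g + ((Real.sqrt h : ℝ) : ℂ) * w) + c)) := by
    have : Continuous (fun w : ℂ => BLink2_e (JV β h (g + ((Real.sqrt h : ℝ) : ℂ) * w) + c)) :=
      BLink2_e.continuous.comp ((hJ.comp (by fun_prop)).add continuous_const)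
    exact this.measurable
  have h1 : (stdGaussian (E 2)) = gC.map BLink2_e := by
    rw [BLink2_gC]
    exact (stdGaussian_map BLink2_e).symm
  have h2 : Measurable (fun ξ : E 2 => hat β h (BLink2_e g) ξ + BLink2_e c) := by
    have : Continuous (fun ξ : E 2 => hat β h (BLink2_e g) ξ + BLink2_e c) :=
      ((hat_continuous hβ hh).comp (by fun_prop : Continuous fun ξ : E 2 =>
        ((BLink2_e g, ξ) : E 2 × E 2))).add continuous_const
    exact this.measurable
  rw [h1, Measure.map_map h2 BLink2_e.continuous.measurable]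
  have e1 : (fun ζ : ℂ => BLink2_e (JV β h (g * (1 + ((Real.sqrt h : ℝ) : ℂ) * ζ)) + c)) =
      (fun w : ℂ => BLink2_e (JV β h (g + ((Real.sqrt h : ℝ) : ℂ) * w) + c)) ∘
        (fun ζ => g * ζ) := by
    funext ζ
    simp only [Function.comp]
    congr 4
    ring
  have e2 : (fun ξ : E 2 => hat β h (BLink2_e g) ξ + BLink2_e c) ∘ BLink2_e =
      (fun w : ℂ => BLink2_e (JV β h (g + ((Real.sqrt h : ℝ) : ℂ) * w) + c)) ∘
        (fun ζ => ((‖g‖ : ℝ) : ℂ) * ζ) := by
    funext ζ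
    simp only [Function.comp, hat]
    rw [map_add]
    congr 1
    rw [← BLink2_J]
    congr 1
    rw [map_add]
    congr 1
    rw [LinearIsometryEquiv.norm_map, ← map_smul]
    congr 1
    rw [Complex.real_smul]
    push_cast
    ring
  rw [e1, e2, ← Measure.map_map hΨ (by fun_prop), ← Measure.map_map hΨ (by fun_prop),
    BLink2_rot]

section kernel

variable {d : ℕ}

/-- the linear chain on `ℂ` -/
private noncomputable def BLink2_s1 (d : ℕ) (β k h : ℝ) (L : ℕ) (G ζ : boxS d L → ℂ) :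
    boxS d L → ℂ :=
  fun x => JV β h (G x * (1 + ((Real.sqrt h : ℝ) : ℂ) * ζ x)) +
    (k * h) • coupV (boxNet d L) G x

private theorem BLink2_coup (L : ℕ) (G : boxS d L → ℂ) (x : boxS d L) :
    coup (boxNet d L) (fun y => BLink2_e (G y)) x = BLink2_e (coupV (boxNet d L) G x) := by
  simp only [coup, coupV, map_sub, map_sum, map_smul]

private theorem BLink2_ker {β h : ℝ} (hβ : 0 < β) (hh : 0 ≤ h) (k : ℝ) (L : ℕ)
    (G : boxS d L → ℂ) :
    (Measure.pi fun _ : boxS d L => gC).map (fun ζ x => BLink2_e (BLink2_s1 d β k h L G ζ x)) =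
      (pim (boxS d L) (stdGaussian (E 2))).map
        (fun ξ => stp (boxNet d L) β h k (fun x => BLink2_e (G x)) ξ) := by
  have hJ := BLink2_JVc hβ hh
  have m1 : ∀ x : boxS d L, Measurable (fun z : ℂ => BLink2_e (JV β h (G x *
      (1 + ((Real.sqrt h : ℝ) : ℂ) * z)) + (k * h) • coupV (boxNet d L) G x)) := by
    intro x
    have : Continuous (fun z : ℂ => BLink2_e (JV β h (G x *
        (1 + ((Real.sqrt h : ℝ) : ℂ) * z)) + (k * h) • coupV (boxNet d L) G x)) :=
      BLink2_e.continuous.comp ((hJ.comp (by fun_prop)).add continuous_const)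
    exact this.measurable
  have m2 : ∀ x : boxS d L, Measurable (fun ξ : E 2 => hat β h (BLink2_e (G x)) ξ +
      BLink2_e ((k * h) • coupV (boxNet d L) G x)) := by
    intro x
    have : Continuous (fun ξ : E 2 => hat β h (BLink2_e (G x)) ξ +
      BLink2_e ((k * h) • coupV (boxNet d L) G x)) :=
      ((hat_continuous hβ hh).comp (by fun_prop : Continuous fun ξ : E 2 =>
        ((BLink2_e (G x), ξ) : E 2 × E 2))).add continuous_const
    exact this.measurable
  have h1 := Measure.pi_map_pi (μ := fun _ : boxS d L => gC) (f := fun x (z : ℂ) =>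
    BLink2_e (JV β h (G x * (1 + ((Real.sqrt h : ℝ) : ℂ) * z)) +
      (k * h) • coupV (boxNet d L) G x))
    (hμ := fun x => by
      have := Measure.isProbabilityMeasure_map (μ := gC) (m1 x).aemeasurable
      infer_instance)
    (fun x => (m1 x).aemeasurable)
  have h2 := Measure.pi_map_pi (μ := fun _ : boxS d L => stdGaussian (E 2))
    (f := fun x (ξ : E 2) =>
      hat β h (BLink2_e (G x)) ξ + BLink2_e ((k * h) • coupV (boxNet d L) G x))
    (hμ := fun x => by
      have := Measure.isProbabilityMeasure_map (μ := stdGaussian (E 2)) (m2 x).aemeasurable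
      infer_instance)
    (fun x => (m2 x).aemeasurable)
  have e2 : (fun ξ : boxS d L → E 2 => stp (boxNet d L) β h k (fun x => BLink2_e (G x)) ξ) =
      fun (ξ : boxS d L → E 2) x => hat β h (BLink2_e (G x)) (ξ x) +
        BLink2_e ((k * h) • coupV (boxNet d L) G x) := by
    funext ξ x
    simp only [stp, BLink2_coup, map_smul]
  rw [e2]
  unfold pim
  rw [h2]
  refine h1.trans ?_
  congr 1
  funext x
  exact BLink2_site hβ hh (G x) _

private theorem BLink2_coupc (L : ℕ) (x : boxS d L) :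
    Continuous (fun G : boxS d L → ℂ => coupV (boxNet d L) G x) := by
  unfold coupV
  fun_prop

private theorem BLink2_ms1 {β h : ℝ} (hβ : 0 < β) (hh : 0 ≤ h) (k : ℝ) (L : ℕ) :
    Measurable (fun p : (boxS d L → ℂ) × (boxS d L → ℂ) => BLink2_s1 d β k h L p.1 p.2) := by
  have hJ := BLink2_JVc hβ hh
  have : Continuous (fun p : (boxS d L → ℂ) × (boxS d L → ℂ) =>
      BLink2_s1 d β k h L p.1 p.2) := by
    refine continuous_pi fun x => ?_
    show Continuous fun p : (boxS d L → ℂ) × (boxS d L → ℂ) =>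
      JV β h (p.1 x * (1 + ((Real.sqrt h : ℝ) : ℂ) * p.2 x)) +
        (k * h) • coupV (boxNet d L) p.1 x
    have h1 : Continuous fun p : (boxS d L → ℂ) × (boxS d L → ℂ) =>
        coupV (boxNet d L) p.1 x := (BLink2_coupc L x).comp continuous_fst
    have h2 : Continuous fun p : (boxS d L → ℂ) × (boxS d L → ℂ) =>
        (k * h) • coupV (boxNet d L) p.1 x := h1.const_smul (k * h)
    have h3 : Continuous fun p : (boxS d L → ℂ) × (boxS d L → ℂ) =>
        JV β h (p.1 x * (1 + ((Real.sqrt h : ℝ) : ℂ) * p.2 x)) := hJ.comp (by fun_prop)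
    exact h3.add h2
  exact this.measurable

/-! ### the Lyapunov function -/

/-- `Σ|G - G'|² + h Σ|G'|²` -/
private noncomputable def BLink2_U {ι : Type} [Fintype ι] (h : ℝ) (G G' : ι → ℂ) : ℝ :=
  ∑ x, ‖G x - G' x‖ ^ 2 + h * ∑ x, ‖G' x‖ ^ 2

private theorem BLink2_U_nonneg {ι : Type} [Fintype ι] {h : ℝ} (hh : 0 ≤ h) (G G' : ι → ℂ) :
    0 ≤ BLink2_U h G G' := by
  unfold BLink2_U
  positivity

private theorem BLink2_coup_le (L : ℕ) (D : boxS d L → ℂ) (x : boxS d L) :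
    ‖coupV (boxNet d L) D x‖ ^ 2 ≤ 16 * (d : ℝ) ^ 2 * ∑ y, ‖D y‖ ^ 2 := by
  set m : ℝ := Real.sqrt (∑ y, ‖D y‖ ^ 2) with hm
  have hm0 : 0 ≤ m := Real.sqrt_nonneg _
  have hs : 0 ≤ ∑ y, ‖D y‖ ^ 2 := Finset.sum_nonneg fun y _ => by positivity
  have h1 : ∀ y, ‖D y‖ ≤ m := by
    intro y
    apply Real.le_sqrt_of_sq_le
    exact Finset.single_le_sum (f := fun y => ‖D y‖ ^ 2) (fun z _ => by positivity)
      (Finset.mem_univ y)
  have h2 : ‖coupV (boxNet d L) D x‖ ≤ 4 * d * m := by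
    unfold coupV
    calc ‖∑ y ∈ (boxNet d L).nb x, D y - ((2 * d : ℕ) : ℝ) • D x‖
        ≤ ‖∑ y ∈ (boxNet d L).nb x, D y‖ + ‖((2 * d : ℕ) : ℝ) • D x‖ := norm_sub_le _ _
      _ ≤ ∑ y ∈ (boxNet d L).nb x, ‖D y‖ + (2 * d : ℕ) * ‖D x‖ := by
          refine add_le_add (norm_sum_le _ _) ?_
          rw [norm_smul, Real.norm_eq_abs, abs_of_nonneg (by positivity)]
      _ ≤ ((boxNet d L).nb x).card * m + (2 * d : ℕ) * m := by
          refine add_le_add ?_ (mul_le_mul_of_nonneg_left (h1 x) (by positivity))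
          calc ∑ y ∈ (boxNet d L).nb x, ‖D y‖ ≤ ∑ _y ∈ (boxNet d L).nb x, m :=
                Finset.sum_le_sum fun y _ => h1 y
            _ = ((boxNet d L).nb x).card * m := by rw [Finset.sum_const, nsmul_eq_mul]
      _ ≤ (2 * d : ℕ) * m + (2 * d : ℕ) * m := by
          have h3 : (((boxNet d L).nb x).card : ℝ) ≤ (2 * d : ℕ) := by
            exact_mod_cast (boxNet d L).nb_card x
          have := mul_le_mul_of_nonneg_right h3 hm0
          linarith
      _ = 4 * d * m := by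
          push_cast
          ring
  calc ‖coupV (boxNet d L) D x‖ ^ 2 ≤ (4 * d * m) ^ 2 :=
        pow_le_pow_left₀ (norm_nonneg _) h2 2
    _ = 16 * (d : ℝ) ^ 2 * m ^ 2 := by ring
    _ = 16 * (d : ℝ) ^ 2 * ∑ y, ‖D y‖ ^ 2 := by rw [hm, Real.sq_sqrt hs]

private theorem BLink2_young {h : ℝ} (hh : 0 < h) (u v : ℂ) :
    ‖u + v‖ ^ 2 ≤ (1 + h) * ‖u‖ ^ 2 + (1 + 1 / h) * ‖v‖ ^ 2 := by
  have h1 := norm_add_le u v
  have h2 : ‖u + v‖ ^ 2 ≤ (‖u‖ + ‖v‖) ^ 2 := pow_le_pow_left₀ (norm_nonneg _) h1 2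
  have h3 : 2 * (‖u‖ * ‖v‖) ≤ h * ‖u‖ ^ 2 + 1 / h * ‖v‖ ^ 2 := by
    have h4 : 0 ≤ h * (‖u‖ - ‖v‖ / h) ^ 2 := by positivity
    have h5 : h * (‖u‖ - ‖v‖ / h) ^ 2 = h * ‖u‖ ^ 2 + 1 / h * ‖v‖ ^ 2 - 2 * (‖u‖ * ‖v‖) := by
      field_simp
      ring
    linarith
  nlinarith

/-- one step -/
private theorem BLink2_step {β : ℝ} (hβ : 0 < β) (k : ℝ) (L : ℕ) :
    ∃ C : ℝ, 0 ≤ C ∧ ∀ h : ℝ, 0 < h → h ≤ 1 / 2 → ∀ G G' : boxS d L → ℂ,
      ∫⁻ ζ, ENNReal.ofReal (BLink2_U h (BLink2_s1 d β k h L G ζ) (st2 d β k h L G' ζ))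
        ∂(Measure.pi fun _ : boxS d L => gC) ≤
      ENNReal.ofReal ((1 + C * h) * BLink2_U h G G') := by
  set c : ℝ := (Fintype.card (boxS d L) : ℝ) with hc
  have hc0 : 0 ≤ c := Nat.cast_nonneg _
  refine ⟨13 + 32 * k ^ 2 * (d : ℝ) ^ 2 * c, by positivity, fun h hh hh2 G G' => ?_⟩
  set s : ℝ := Real.sqrt h with hs
  have hs2 : s ^ 2 = h := Real.sq_sqrt hh.le
  -- pointwise
  set φ : boxS d L → ℂ → ℝ := fun x η =>
    (1 + h) * ‖G x * (1 + (s : ℂ) * η) - Complex.exp ((s : ℂ) * η) * G' x‖ ^ 2 +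
      h * (1 + h) * ‖0 * (1 + (s : ℂ) * η) - Complex.exp ((s : ℂ) * η) * G' x‖ ^ 2 with hφ
  set c1 : ℝ := (1 + 1 / h) * (k * h) ^ 2 * (16 * (d : ℝ) ^ 2 * c) with hc1
  have hpt : ∀ ζ : boxS d L → ℂ,
      BLink2_U h (BLink2_s1 d β k h L G ζ) (st2 d β k h L G' ζ) ≤
        ∑ x, φ x (ζ x) + c1 * BLink2_U h G G' := by
    intro ζ
    have hA : ∀ x, ‖BLink2_s1 d β k h L G ζ x - st2 d β k h L G' ζ x‖ ^ 2 ≤
        (1 + h) * ‖G x * (1 + (s : ℂ) * ζ x) - Complex.exp ((s : ℂ) * ζ x) * G' x‖ ^ 2 +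
          (1 + 1 / h) * (k * h) ^ 2 * (16 * (d : ℝ) ^ 2 * ∑ y, ‖G y - G' y‖ ^ 2) := by
      intro x
      have e1 : BLink2_s1 d β k h L G ζ x - st2 d β k h L G' ζ x =
          (JV β h (G x * (1 + (s : ℂ) * ζ x)) - JV β h (Complex.exp ((s : ℂ) * ζ x) * G' x)) +
            (k * h) • coupV (boxNet d L) (fun y => G y - G' y) x := by
        have e2 : coupV (boxNet d L) (fun y => G y - G' y) x =
            coupV (boxNet d L) G x - coupV (boxNet d L) G' x := by
          simp only [coupV, Finset.sum_sub_distrib, smul_sub]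
          ring
        rw [e2, smul_sub]
        simp only [BLink2_s1, st2]
        ring
      rw [e1]
      refine (BLink2_young hh _ _).trans (add_le_add ?_ ?_)
      · refine mul_le_mul_of_nonneg_left ?_ (by linarith)
        exact pow_le_pow_left₀ (norm_nonneg _) (JV_nonexp hβ hh.le _ _) 2
      · rw [norm_smul, mul_pow, Real.norm_eq_abs, sq_abs, mul_assoc]
        refine mul_le_mul_of_nonneg_left ?_ (by positivity)
        exact mul_le_mul_of_nonneg_left (BLink2_coup_le L _ x) (by positivity)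
    have hB : ∀ x, ‖st2 d β k h L G' ζ x‖ ^ 2 ≤
        (1 + h) * ‖0 * (1 + (s : ℂ) * ζ x) - Complex.exp ((s : ℂ) * ζ x) * G' x‖ ^ 2 +
          (1 + 1 / h) * (k * h) ^ 2 * (16 * (d : ℝ) ^ 2 * ∑ y, ‖G' y‖ ^ 2) := by
      intro x
      have e1 : st2 d β k h L G' ζ x = JV β h (Complex.exp ((s : ℂ) * ζ x) * G' x) +
          (k * h) • coupV (boxNet d L) G' x := rfl
      rw [e1]
      refine (BLink2_young hh _ _).trans (add_le_add ?_ ?_)
      · refine mul_le_mul_of_nonneg_left ?_ (by linarith)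
        have h0 := JV_nonexp hβ hh.le (Complex.exp ((s : ℂ) * ζ x) * G' x) 0
        have h00 : JV β h (0 : ℂ) = 0 := by simp [JV]
        rw [h00, sub_zero, sub_zero] at h0
        rw [zero_mul, zero_sub, norm_neg]
        exact pow_le_pow_left₀ (norm_nonneg _) h0 2
      · rw [norm_smul, mul_pow, Real.norm_eq_abs, sq_abs, mul_assoc]
        refine mul_le_mul_of_nonneg_left ?_ (by positivity)
        exact mul_le_mul_of_nonneg_left (BLink2_coup_le L _ x) (by positivity)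
    have hA' := Finset.sum_le_sum fun x (_ : x ∈ Finset.univ) => hA x
    have hB' := mul_le_mul_of_nonneg_left
      (Finset.sum_le_sum fun x (_ : x ∈ Finset.univ) => hB x) hh.le
    rw [Finset.sum_add_distrib, Finset.sum_const, Finset.card_univ, nsmul_eq_mul,
      ← Finset.mul_sum] at hA' hB'
    have eφ : ∑ x, φ x (ζ x) =
        (1 + h) * ∑ x, ‖G x * (1 + (s : ℂ) * ζ x) - Complex.exp ((s : ℂ) * ζ x) * G' x‖ ^ 2 +
        h * (1 + h) * ∑ x, ‖0 * (1 + (s : ℂ) * ζ x) - Complex.exp ((s : ℂ) * ζ x) * G' x‖ ^ 2 := by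
      simp only [hφ]
      rw [Finset.sum_add_distrib, ← Finset.mul_sum, ← Finset.mul_sum]
    rw [eφ]
    unfold BLink2_U
    refine (add_le_add hA' hB').trans (le_of_eq ?_)
    simp only [hc1, hc]
    ring
  -- integrals
  have hφi : ∀ x, Integrable (φ x) gC := fun x =>
    ((BLink2_site_int s (G x) (G' x)).1.const_mul _).add
      ((BLink2_site_int s 0 (G' x)).1.const_mul _)
  have hφv : ∀ x, ∫ η, φ x η ∂gC = (1 + h) * ((1 + 2 * h) * ‖G x - G' x‖ ^ 2 +
      ‖G' x‖ ^ 2 * (Real.exp (2 * h) - 1 - 2 * h + h * Real.exp (2 * h))) := by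
    intro x
    have h1 : ∫ η, φ x η ∂gC = ∫ η, (1 + h) *
        ‖G x * (1 + (s : ℂ) * η) - Complex.exp ((s : ℂ) * η) * G' x‖ ^ 2 ∂gC +
        ∫ η, h * (1 + h) * ‖0 * (1 + (s : ℂ) * η) - Complex.exp ((s : ℂ) * η) * G' x‖ ^ 2 ∂gC :=
      integral_add ((BLink2_site_int s (G x) (G' x)).1.const_mul _)
        ((BLink2_site_int s 0 (G' x)).1.const_mul _)
    rw [h1, integral_const_mul, integral_const_mul, (BLink2_site_int s (G x) (G' x)).2,
      (BLink2_site_int s 0 (G' x)).2, hs2, zero_sub, norm_neg]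
    ring
  have hU0 := BLink2_U_nonneg hh.le G G'
  have hF : Integrable (fun ζ : boxS d L → ℂ => ∑ x, φ x (ζ x) + c1 * BLink2_U h G G')
      (Measure.pi fun _ : boxS d L => gC) :=
    (integrable_finsetSum _ fun x _ => integrable_comp_eval (hφi x)).add (integrable_const _)
  have hF0 : ∀ ζ : boxS d L → ℂ, 0 ≤ ∑ x, φ x (ζ x) + c1 * BLink2_U h G G' := by
    intro ζ
    refine add_nonneg (Finset.sum_nonneg fun x _ => ?_) (by positivity)
    simp only [hφ]
    positivity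
  refine (lintegral_mono fun ζ => ENNReal.ofReal_le_ofReal (hpt ζ)).trans ?_
  rw [← ofReal_integral_eq_lintegral_ofReal hF (Filter.Eventually.of_forall hF0)]
  apply ENNReal.ofReal_le_ofReal
  have hsum : ∫ ζ : boxS d L → ℂ, (∑ x, φ x (ζ x) + c1 * BLink2_U h G G')
      ∂(Measure.pi fun _ : boxS d L => gC) =
      (1 + h) * ((1 + 2 * h) * ∑ x, ‖G x - G' x‖ ^ 2 + (∑ x, ‖G' x‖ ^ 2) *
        (Real.exp (2 * h) - 1 - 2 * h + h * Real.exp (2 * h))) + c1 * BLink2_U h G G' := by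
    rw [integral_add (integrable_finsetSum _ fun x _ => integrable_comp_eval (hφi x))
      (integrable_const _), integral_finsetSum _ fun x _ => integrable_comp_eval (hφi x)]
    congr 1
    · have h2 : ∀ x, ∫ ζ : boxS d L → ℂ, φ x (ζ x) ∂(Measure.pi fun _ : boxS d L => gC) =
          (1 + h) * ((1 + 2 * h) * ‖G x - G' x‖ ^ 2 +
            ‖G' x‖ ^ 2 * (Real.exp (2 * h) - 1 - 2 * h + h * Real.exp (2 * h))) := by
        intro x
        rw [← hφv x]
        exact integral_comp_eval (hφi x).aestronglyMeasurable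
      simp only [h2]
      rw [← Finset.mul_sum, Finset.sum_add_distrib, ← Finset.mul_sum, ← Finset.sum_mul]
    · simp
  rw [hsum]
  have hE := Real.abs_exp_sub_one_sub_id_le (x := 2 * h) (by rw [abs_of_pos (by linarith)]; linarith)
  have hE1 := (abs_le.mp hE).2
  set W : ℝ := ∑ x, ‖G x - G' x‖ ^ 2 with hW
  set Q : ℝ := ∑ x, ‖G' x‖ ^ 2 with hQ
  have hW0 : 0 ≤ W := Finset.sum_nonneg fun x _ => by positivity
  have hQ0 : 0 ≤ Q := Finset.sum_nonneg fun x _ => by positivity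
  have eU : BLink2_U h G G' = W + h * Q := rfl
  have hc1b : c1 ≤ 32 * k ^ 2 * (d : ℝ) ^ 2 * c * h := by
    have e3 : c1 = k ^ 2 * (16 * (d : ℝ) ^ 2 * c) * (h ^ 2 + h) := by
      rw [hc1]
      field_simp
    rw [e3]
    have : h ^ 2 + h ≤ 2 * h := by nlinarith only [hh, hh2]
    calc k ^ 2 * (16 * (d : ℝ) ^ 2 * c) * (h ^ 2 + h)
        ≤ k ^ 2 * (16 * (d : ℝ) ^ 2 * c) * (2 * h) :=
          mul_le_mul_of_nonneg_left this (by positivity)
      _ = 32 * k ^ 2 * (d : ℝ) ^ 2 * c * h := by ring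
  have hE2 : Real.exp (2 * h) - 1 - 2 * h + h * Real.exp (2 * h) ≤ h + 8 * h ^ 2 := by
    have h3 : Real.exp (2 * h) ≤ 1 + 4 * h := by nlinarith only [hE1, hh, hh2]
    nlinarith only [hE1, hh2, hh]
  have h5 : (1 + h) * ((1 + 2 * h) * W + Q * (Real.exp (2 * h) - 1 - 2 * h +
      h * Real.exp (2 * h))) ≤ (1 + 13 * h) * (W + h * Q) := by
    have h6 : (1 + h) * (1 + 2 * h) ≤ 1 + 13 * h := by nlinarith only [hh, hh2]
    have h7 : (1 + h) * (h + 8 * h ^ 2) ≤ (1 + 13 * h) * h := by nlinarith only [hh2, sq_nonneg h]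
    have h8 := mul_le_mul_of_nonneg_right h6 hW0
    have h9 : (1 + h) * (Q * (Real.exp (2 * h) - 1 - 2 * h + h * Real.exp (2 * h))) ≤
        (1 + h) * (Q * (h + 8 * h ^ 2)) :=
      mul_le_mul_of_nonneg_left (mul_le_mul_of_nonneg_left hE2 hQ0) (by linarith)
    have h10 := mul_le_mul_of_nonneg_right h7 hQ0
    nlinarith only [h8, h9, h10]
  have h11 := mul_le_mul_of_nonneg_right hc1b hU0
  rw [eU] at h11 ⊢
  nlinarith only [h5, h11]

end kernel

/-! ### path expectations and laws of general chains -/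

private theorem BLink2_cur {A B C : Type} [MeasurableSpace A] [MeasurableSpace B]
    [MeasurableSpace C] {f : A → B → C} (h : Measurable fun p : A × B => f p.1 p.2) (a : A) :
    Measurable (f a) := by
  have h1 : Measurable (fun b : B => (a, b)) := measurable_const.prodMk measurable_id
  exact h.comp h1

/-- path expectation of a general chain -/
private noncomputable def BLink2_pE {A Ω : Type} [MeasurableSpace Ω] (st : A → Ω → A)
    (μ : Measure Ω) : List (A → ℂ) → A → ℂ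
  | [], _ => 1
  | f :: fs, G => f G * ∫ ζ, BLink2_pE st μ fs (st G ζ) ∂μ

private theorem BLink2_pE_facts {A Ω : Type} [MeasurableSpace A] [MeasurableSpace Ω]
    (st : A → Ω → A) (μ : Measure Ω) [IsProbabilityMeasure μ]
    (hst : Measurable (fun p : A × Ω => st p.1 p.2))
    (fs : List (A → ℂ)) (hm : ∀ f ∈ fs, Measurable f) (hb : ∀ f ∈ fs, ∀ G, ‖f G‖ ≤ 1) :
    Measurable (BLink2_pE st μ fs) ∧ ∀ G, ‖BLink2_pE st μ fs G‖ ≤ 1 := by
  induction fs with
  | nil =>
    refine ⟨?_, fun G => ?_⟩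
    · show Measurable (fun _ : A => (1 : ℂ))
      exact measurable_const
    · show ‖(1 : ℂ)‖ ≤ 1
      simp
  | cons f fs ih =>
    obtain ⟨h1, h2⟩ := ih (fun g hg => hm g (List.mem_cons_of_mem _ hg))
      (fun g hg => hb g (List.mem_cons_of_mem _ hg))
    refine ⟨?_, fun G => ?_⟩
    · show Measurable (fun G => f G * ∫ ζ, BLink2_pE st μ fs (st G ζ) ∂μ)
      refine (hm f (by simp)).mul ?_
      have h3 : Measurable (fun q : A × Ω => BLink2_pE st μ fs (st q.1 q.2)) :=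
        h1.comp hst
      exact (StronglyMeasurable.integral_prod_right' (ν := μ) h3.stronglyMeasurable).measurable
    · show ‖f G * ∫ ζ, BLink2_pE st μ fs (st G ζ) ∂μ‖ ≤ 1
      rw [norm_mul]
      refine mul_le_one₀ (hb f (by simp) G) (norm_nonneg _) ?_
      refine (norm_integral_le_of_norm_le_const (C := 1)
        (Filter.Eventually.of_forall fun ζ => h2 _)).trans ?_
      simp

/-- path expectation of a factor -/
private theorem BLink2_pE_factor {A Ω B Ω' : Type} [MeasurableSpace A] [MeasurableSpace Ω]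
    [MeasurableSpace B] [MeasurableSpace Ω'] (s : A → Ω → A) (μ : Measure Ω)
    (t : B → Ω' → B) (μ' : Measure Ω') [IsProbabilityMeasure μ'] (p : A → B) (hp : Measurable p)
    (hs : Measurable fun q : A × Ω => s q.1 q.2) (ht : Measurable fun q : B × Ω' => t q.1 q.2)
    (hk : ∀ a, μ.map (fun ω => p (s a ω)) = μ'.map (fun ω => t (p a) ω))
    (fs : List (B → ℂ)) (hm : ∀ f ∈ fs, Measurable f) (hb : ∀ f ∈ fs, ∀ G, ‖f G‖ ≤ 1) (a : A) :
    BLink2_pE t μ' fs (p a) = BLink2_pE s μ (fs.map fun f b => f (p b)) a := by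
  induction fs generalizing a with
  | nil => rfl
  | cons f fs ih =>
    have ih' := ih (fun g hg => hm g (List.mem_cons_of_mem _ hg))
      (fun g hg => hb g (List.mem_cons_of_mem _ hg))
    obtain ⟨h1, -⟩ := BLink2_pE_facts t μ' ht fs
      (fun g hg => hm g (List.mem_cons_of_mem _ hg))
      (fun g hg => hb g (List.mem_cons_of_mem _ hg))
    show f (p a) * ∫ ω, BLink2_pE t μ' fs (t (p a) ω) ∂μ' =
      f (p a) * ∫ ω, BLink2_pE s μ (fs.map fun f b => f (p b)) (s a ω) ∂μ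
    congr 1
    have m1 : Measurable (fun ω => t (p a) ω) := BLink2_cur ht (p a)
    have m2 : Measurable (fun ω => p (s a ω)) := hp.comp (BLink2_cur hs a)
    have h4 := integral_map (μ := μ') m1.aemeasurable
      (f := BLink2_pE t μ' fs) h1.aestronglyMeasurable
    have h5 := integral_map (μ := μ) m2.aemeasurable
      (f := BLink2_pE t μ' fs) h1.aestronglyMeasurable
    rw [← h4, ← hk a, h5]
    refine integral_congr_ae (Filter.Eventually.of_forall fun ω => ?_)
    exact ih' _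

/-- law after `n` steps of a general chain -/
private noncomputable def BLink2_lawG {A Ω : Type} [MeasurableSpace A] [MeasurableSpace Ω]
    (s : A → Ω → A) (μ : Measure Ω) (m0 : Measure A) : ℕ → Measure A
  | 0 => m0
  | n + 1 => ((BLink2_lawG s μ m0 n).prod μ).map (fun q => s q.1 q.2)

private theorem BLink2_lawG_prob {A Ω : Type} [MeasurableSpace A] [MeasurableSpace Ω]
    (s : A → Ω → A) (μ : Measure Ω) [IsProbabilityMeasure μ] (m0 : Measure A)
    [IsProbabilityMeasure m0] (hs : Measurable fun q : A × Ω => s q.1 q.2) (n : ℕ) :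
    IsProbabilityMeasure (BLink2_lawG s μ m0 n) := by
  induction n with
  | zero =>
    show IsProbabilityMeasure m0
    infer_instance
  | succ n ih =>
    show IsProbabilityMeasure (((BLink2_lawG s μ m0 n).prod μ).map (fun q => s q.1 q.2))
    exact Measure.isProbabilityMeasure_map hs.aemeasurable

/-- factor of a chain -/
private theorem BLink2_factor {A Ω B Ω' : Type} [MeasurableSpace A] [MeasurableSpace Ω]
    [MeasurableSpace B] [MeasurableSpace Ω'] (s : A → Ω → A) (μ : Measure Ω)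
    [IsProbabilityMeasure μ] (t : B → Ω' → B) (μ' : Measure Ω') [IsProbabilityMeasure μ']
    (m0 : Measure A) [IsProbabilityMeasure m0] (p : A → B) (hp : Measurable p)
    (hs : Measurable fun q : A × Ω => s q.1 q.2) (ht : Measurable fun q : B × Ω' => t q.1 q.2)
    (hk : ∀ a, μ.map (fun ω => p (s a ω)) = μ'.map (fun ω => t (p a) ω)) (n : ℕ) :
    (BLink2_lawG s μ m0 n).map p = BLink2_lawG t μ' (m0.map p) n := by
  induction n with
  | zero => rfl
  | succ n ih =>
    have hpr := BLink2_lawG_prob s μ m0 hs n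
    refine Measure.ext_of_lintegral _ fun φ hφ => ?_
    show ∫⁻ b, φ b ∂((((BLink2_lawG s μ m0 n).prod μ).map (fun q => s q.1 q.2)).map p) =
      ∫⁻ b, φ b ∂(((BLink2_lawG t μ' (m0.map p) n).prod μ').map (fun q => t q.1 q.2))
    have hφ1 : Measurable (fun a => φ (p a)) := hφ.comp hp
    have hφ2 : Measurable (fun q : B × Ω' => φ (t q.1 q.2)) := hφ.comp ht
    have hφ3 : Measurable (fun q : A × Ω => φ (p (s q.1 q.2))) := hφ1.comp hs
    rw [lintegral_map hφ hp, lintegral_map hφ1 hs, lintegral_map hφ ht, ← ih,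
      lintegral_prod _ hφ3.aemeasurable, lintegral_prod _ hφ2.aemeasurable,
      lintegral_map hφ2.lintegral_prod_right' hp]
    refine lintegral_congr fun a => ?_
    have hk1 : Measurable (fun ω => p (s a ω)) := hp.comp (BLink2_cur hs a)
    have hk2 : Measurable (fun ω => t (p a) ω) := BLink2_cur ht (p a)
    have h1 := lintegral_map (μ := μ) hφ hk1
    have h2 := lintegral_map (μ := μ') hφ hk2
    rw [hk a] at h1
    exact h1.symm.trans h2

/-- growth of a Lyapunov function -/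
private theorem BLink2_growth {A Ω : Type} [MeasurableSpace A] [MeasurableSpace Ω]
    (s : A → Ω → A) (μ : Measure Ω) [IsProbabilityMeasure μ]
    (m0 : Measure A) [IsProbabilityMeasure m0] (hs : Measurable fun q : A × Ω => s q.1 q.2)
    (Φ : A → ℝ≥0∞) (hΦ : Measurable Φ) (c : ℝ≥0∞) (hc : c ≠ ⊤)
    (h : ∀ a, ∫⁻ ω, Φ (s a ω) ∂μ ≤ c * Φ a) (n : ℕ) :
    ∫⁻ a, Φ a ∂(BLink2_lawG s μ m0 n) ≤ c ^ n * ∫⁻ a, Φ a ∂m0 := by
  induction n with
  | zero =>
    show ∫⁻ a, Φ a ∂m0 ≤ _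
    simp
  | succ n ih =>
    have hpr := BLink2_lawG_prob s μ m0 hs n
    show ∫⁻ a, Φ a ∂(((BLink2_lawG s μ m0 n).prod μ).map (fun q => s q.1 q.2)) ≤ _
    have h3 : Measurable (fun q : A × Ω => Φ (s q.1 q.2)) := hΦ.comp hs
    rw [lintegral_map hΦ hs, lintegral_prod _ h3.aemeasurable]
    refine (lintegral_mono fun a => h a).trans ?_
    rw [lintegral_const_mul' _ _ hc, pow_succ, mul_comm (c ^ n) c, mul_assoc]
    exact mul_le_mul_right ih _

/-- difference of the path expectations -/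
private theorem BLink2_diff {ι : Type} [Fintype ι] (s1 s2 : (ι → ℂ) → (ι → ℂ) → ι → ℂ)
    (μ : Measure (ι → ℂ)) [IsProbabilityMeasure μ]
    (hs1 : Measurable (fun p : (ι → ℂ) × (ι → ℂ) => s1 p.1 p.2))
    (hs2 : Measurable (fun p : (ι → ℂ) × (ι → ℂ) => s2 p.1 p.2)) (C h : ℝ) (hC : 0 ≤ C)
    (hh : 0 < h)
    (hU : ∀ G G' : ι → ℂ, ∫⁻ ζ, ENNReal.ofReal (BLink2_U h (s1 G ζ) (s2 G' ζ)) ∂μ ≤
      ENNReal.ofReal ((1 + C * h) * BLink2_U h G G'))
    (l : List (((ι → ℂ) → ℂ) × ℝ))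
    (hl : ∀ p ∈ l, Measurable p.1 ∧ (∀ G, ‖p.1 G‖ ≤ 1) ∧ 0 ≤ p.2 ∧
      ∀ G G' : ι → ℂ, ‖p.1 G - p.1 G'‖ ≤ p.2 * ∑ x, ‖G x - G' x‖) (G G' : ι → ℂ) :
    ‖BLink2_pE s1 μ (l.map Prod.fst) G - BLink2_pE s2 μ (l.map Prod.fst) G'‖ ≤
      (l.map Prod.snd).sum * ((Fintype.card ι * Real.sqrt h +
        (1 + C * h) ^ l.length * BLink2_U h G G' / Real.sqrt h) / 2) := by
  induction l generalizing G G' with
  | nil => simp [BLink2_pE]
  | cons p l ih =>
    have hl' : ∀ q ∈ l, Measurable q.1 ∧ (∀ G, ‖q.1 G‖ ≤ 1) ∧ 0 ≤ q.2 ∧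
      ∀ G G' : ι → ℂ, ‖q.1 G - q.1 G'‖ ≤ q.2 * ∑ x, ‖G x - G' x‖ :=
      fun q hq => hl q (List.mem_cons_of_mem _ hq)
    obtain ⟨hpm, hpb, hp0, hpl⟩ := hl p (by simp)
    have ih' := ih hl'
    have hsq : 0 < Real.sqrt h := Real.sqrt_pos.mpr hh
    have hsq2 : Real.sqrt h * Real.sqrt h = h := Real.mul_self_sqrt hh.le
    have hS : 0 ≤ (l.map Prod.snd).sum := by
      apply List.sum_nonneg
      intro a ha
      obtain ⟨q, hq, rfl⟩ := List.mem_map.mp ha
      exact (hl' q hq).2.2.1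
    have hmf : ∀ f ∈ l.map Prod.fst, Measurable f := by
      intro f hf
      obtain ⟨q, hq, rfl⟩ := List.mem_map.mp hf
      exact (hl' q hq).1
    have hbf : ∀ f ∈ l.map Prod.fst, ∀ G, ‖f G‖ ≤ 1 := by
      intro f hf
      obtain ⟨q, hq, rfl⟩ := List.mem_map.mp hf
      exact (hl' q hq).2.1
    obtain ⟨f1, b1⟩ := BLink2_pE_facts s1 μ hs1 (l.map Prod.fst) hmf hbf
    obtain ⟨f2, b2⟩ := BLink2_pE_facts s2 μ hs2 (l.map Prod.fst) hmf hbf
    set A : (ι → ℂ) → ℂ := BLink2_pE s1 μ (l.map Prod.fst) with hA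
    set B : (ι → ℂ) → ℂ := BLink2_pE s2 μ (l.map Prod.fst) with hB
    have c1 : Measurable (fun ζ => A (s1 G ζ)) := f1.comp (BLink2_cur hs1 G)
    have c2 : Measurable (fun ζ => B (s2 G' ζ)) := f2.comp (BLink2_cur hs2 G')
    have c3 : Measurable (fun ζ => ‖A (s1 G ζ) - B (s2 G' ζ)‖) := (c1.sub c2).norm
    have i1 : Integrable (fun ζ => A (s1 G ζ)) μ :=
      Integrable.of_bound (C := 1) c1.aestronglyMeasurable
        (Filter.Eventually.of_forall fun ζ => b1 _)
    have i2 : Integrable (fun ζ => B (s2 G' ζ)) μ :=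
      Integrable.of_bound (C := 1) c2.aestronglyMeasurable
        (Filter.Eventually.of_forall fun ζ => b2 _)
    have hU0 := BLink2_U_nonneg hh.le G G'
    -- the integral part
    set S : ℝ := (l.map Prod.snd).sum with hSd
    set K : ℝ := (1 + C * h) ^ l.length with hK
    have hK0 : 0 ≤ K := by positivity
    have hint : ‖∫ ζ, A (s1 G ζ) ∂μ - ∫ ζ, B (s2 G' ζ) ∂μ‖ ≤
        S * ((Fintype.card ι * Real.sqrt h +
          K * ((1 + C * h) * BLink2_U h G G') / Real.sqrt h) / 2) := by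
      have e0 : ∫ ζ, A (s1 G ζ) ∂μ - ∫ ζ, B (s2 G' ζ) ∂μ =
          ∫ ζ, (A (s1 G ζ) - B (s2 G' ζ)) ∂μ := (integral_sub i1 i2).symm
      rw [e0]
      refine (norm_integral_le_integral_norm _).trans ?_
      have hnn : 0 ≤ S * ((Fintype.card ι * Real.sqrt h +
          K * ((1 + C * h) * BLink2_U h G G') / Real.sqrt h) / 2) := by positivity
      rw [integral_eq_lintegral_of_nonneg_ae
        (f := fun ζ => ‖A (s1 G ζ) - B (s2 G' ζ)‖)
        (Filter.Eventually.of_forall fun ζ => norm_nonneg _) c3.aestronglyMeasurable]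
      apply ENNReal.toReal_le_of_le_ofReal hnn
      have hstep : ∀ ζ, ENNReal.ofReal ‖A (s1 G ζ) - B (s2 G' ζ)‖ ≤
          ENNReal.ofReal (S * (Fintype.card ι * Real.sqrt h / 2)) +
            ENNReal.ofReal (S * (K / Real.sqrt h / 2)) *
              ENNReal.ofReal (BLink2_U h (s1 G ζ) (s2 G' ζ)) := by
        intro ζ
        have hu := BLink2_U_nonneg hh.le (s1 G ζ) (s2 G' ζ)
        rw [← ENNReal.ofReal_mul (by positivity), ← ENNReal.ofReal_add (by positivity)
          (by positivity)]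
        apply ENNReal.ofReal_le_ofReal
        refine (ih' (s1 G ζ) (s2 G' ζ)).trans (le_of_eq ?_)
        ring
      refine (lintegral_mono hstep).trans ?_
      rw [lintegral_add_left measurable_const, lintegral_const, measure_univ, mul_one,
        lintegral_const_mul' _ _ ENNReal.ofReal_ne_top]
      refine (add_le_add le_rfl (mul_le_mul_right (hU G G') _)).trans ?_
      rw [← ENNReal.ofReal_mul (by positivity), ← ENNReal.ofReal_add (by positivity)
          (by positivity)]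
      apply ENNReal.ofReal_le_ofReal
      apply le_of_eq
      ring
    have hIB : ‖∫ ζ, B (s2 G' ζ) ∂μ‖ ≤ 1 := by
      refine (norm_integral_le_of_norm_le_const (C := 1)
        (Filter.Eventually.of_forall fun ζ => b2 _)).trans ?_
      simp
    -- the local part
    have hD : ∑ x, ‖G x - G' x‖ ≤ (Fintype.card ι * Real.sqrt h +
        BLink2_U h G G' / Real.sqrt h) / 2 := by
      have h1 : ∀ x, ‖G x - G' x‖ ≤ (Real.sqrt h + ‖G x - G' x‖ ^ 2 / Real.sqrt h) / 2 := by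
        intro x
        have h2 : 0 ≤ (‖G x - G' x‖ - Real.sqrt h) ^ 2 / Real.sqrt h := by positivity
        have h3 : (‖G x - G' x‖ - Real.sqrt h) ^ 2 / Real.sqrt h =
            ‖G x - G' x‖ ^ 2 / Real.sqrt h - 2 * ‖G x - G' x‖ + Real.sqrt h := by
          field_simp
          ring
        linarith
      have h4 := Finset.sum_le_sum fun x (_ : x ∈ Finset.univ) => h1 x
      rw [← Finset.sum_div, Finset.sum_add_distrib, Finset.sum_const, Finset.card_univ,
        nsmul_eq_mul, ← Finset.sum_div] at h4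
      refine h4.trans ?_
      have h5 : (∑ x, ‖G x - G' x‖ ^ 2) / Real.sqrt h ≤ BLink2_U h G G' / Real.sqrt h := by
        apply div_le_div_of_nonneg_right _ hsq.le
        unfold BLink2_U
        have : 0 ≤ h * ∑ x, ‖G' x‖ ^ 2 := by positivity
        linarith
      linarith
    show ‖p.1 G * ∫ ζ, A (s1 G ζ) ∂μ - p.1 G' * ∫ ζ, B (s2 G' ζ) ∂μ‖ ≤
      ((p :: l).map Prod.snd).sum * ((Fintype.card ι * Real.sqrt h +
        (1 + C * h) ^ (p :: l).length * BLink2_U h G G' / Real.sqrt h) / 2)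
    rw [List.map_cons, List.sum_cons, List.length_cons, pow_succ, ← hSd, ← hK]
    have e1 : p.1 G * ∫ ζ, A (s1 G ζ) ∂μ - p.1 G' * ∫ ζ, B (s2 G' ζ) ∂μ =
        p.1 G * (∫ ζ, A (s1 G ζ) ∂μ - ∫ ζ, B (s2 G' ζ) ∂μ) +
          (p.1 G - p.1 G') * ∫ ζ, B (s2 G' ζ) ∂μ := by ring
    rw [e1]
    have hK1 : 1 ≤ K * (1 + C * h) := by
      have h6 : (1 : ℝ) ≤ 1 + C * h := by nlinarith only [hC, hh]
      have h7 : (1 : ℝ) ≤ K := one_le_pow₀ h6
      nlinarith only [h7, hK0, h6]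
    calc ‖p.1 G * (∫ ζ, A (s1 G ζ) ∂μ - ∫ ζ, B (s2 G' ζ) ∂μ) +
          (p.1 G - p.1 G') * ∫ ζ, B (s2 G' ζ) ∂μ‖
        ≤ ‖p.1 G‖ * ‖∫ ζ, A (s1 G ζ) ∂μ - ∫ ζ, B (s2 G' ζ) ∂μ‖ +
          ‖p.1 G - p.1 G'‖ * ‖∫ ζ, B (s2 G' ζ) ∂μ‖ := by
          refine (norm_add_le _ _).trans ?_
          rw [norm_mul, norm_mul]
      _ ≤ 1 * (S * ((Fintype.card ι * Real.sqrt h +
          K * ((1 + C * h) * BLink2_U h G G') / Real.sqrt h) / 2)) +
          (p.2 * ∑ x, ‖G x - G' x‖) * 1 := by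
          refine add_le_add (mul_le_mul (hpb G) hint (norm_nonneg _) zero_le_one)
            (mul_le_mul (hpl G G') hIB (norm_nonneg _) ?_)
          exact mul_nonneg hp0 (Finset.sum_nonneg fun x _ => norm_nonneg _)
      _ ≤ 1 * (S * ((Fintype.card ι * Real.sqrt h +
          K * ((1 + C * h) * BLink2_U h G G') / Real.sqrt h) / 2)) +
          (p.2 * ((Fintype.card ι * Real.sqrt h +
            K * (1 + C * h) * BLink2_U h G G' / Real.sqrt h) / 2)) * 1 := by
          have h8 : BLink2_U h G G' / Real.sqrt h ≤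
              K * (1 + C * h) * BLink2_U h G G' / Real.sqrt h := by
            apply div_le_div_of_nonneg_right _ hsq.le
            nlinarith only [hU0, hK1]
          have h9 : ∑ x, ‖G x - G' x‖ ≤ (Fintype.card ι * Real.sqrt h +
            K * (1 + C * h) * BLink2_U h G G' / Real.sqrt h) / 2 := by linarith
          have := mul_le_mul_of_nonneg_left h9 hp0
          linarith
      _ = _ := by ring

/-- two chains with the same noise -/
private def BLink2_cpl {ι : Type} (s1 s2 : (ι → ℂ) → (ι → ℂ) → ι → ℂ)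
    (p : (ι → ℂ) × (ι → ℂ)) (ζ : ι → ℂ) : (ι → ℂ) × (ι → ℂ) := (s1 p.1 ζ, s2 p.2 ζ)

private theorem BLink2_mcpl {ι : Type} (s1 s2 : (ι → ℂ) → (ι → ℂ) → ι → ℂ)
    (hs1 : Measurable (fun p : (ι → ℂ) × (ι → ℂ) => s1 p.1 p.2))
    (hs2 : Measurable (fun p : (ι → ℂ) × (ι → ℂ) => s2 p.1 p.2)) :
    Measurable (fun q : ((ι → ℂ) × (ι → ℂ)) × (ι → ℂ) => BLink2_cpl s1 s2 q.1 q.2) := by
  have m1 : Measurable (fun q : ((ι → ℂ) × (ι → ℂ)) × (ι → ℂ) => (q.1.1, q.2)) :=
    (measurable_fst.comp measurable_fst).prodMk measurable_snd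
  have m2 : Measurable (fun q : ((ι → ℂ) × (ι → ℂ)) × (ι → ℂ) => (q.1.2, q.2)) :=
    (measurable_snd.comp measurable_fst).prodMk measurable_snd
  exact (hs1.comp m1).prodMk (hs2.comp m2)

private theorem BLink2_mU {ι : Type} [Fintype ι] (h : ℝ) :
    Measurable (fun p : (ι → ℂ) × (ι → ℂ) => ENNReal.ofReal (BLink2_U h p.1 p.2)) := by
  unfold BLink2_U
  have h1 : Continuous (fun p : (ι → ℂ) × (ι → ℂ) => ∑ x, ‖p.1 x - p.2 x‖ ^ 2) :=
    continuous_finsetSum _ fun x _ => by fun_prop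
  have h2 : Continuous (fun p : (ι → ℂ) × (ι → ℂ) => ∑ x, ‖p.2 x‖ ^ 2) :=
    continuous_finsetSum _ fun x _ => by fun_prop
  exact ENNReal.measurable_ofReal.comp (h1.add (h2.const_mul h)).measurable

/-- the mean error -/
private theorem BLink2_err {ι : Type} [Fintype ι] (γ : Measure ((ι → ℂ) × (ι → ℂ)))
    [IsProbabilityMeasure γ] (A B : (ι → ℂ) → ℂ) (hA : Measurable A) (hB : Measurable B)
    (h S K c X : ℝ) (hh : 0 < h) (hS : 0 ≤ S) (hK : 0 ≤ K) (hc : 0 ≤ c) (hX : 0 ≤ X)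
    (hXU : ∫⁻ p, ENNReal.ofReal (BLink2_U h p.1 p.2) ∂γ ≤ ENNReal.ofReal X)
    (hAB : ∀ p : (ι → ℂ) × (ι → ℂ), ‖A p.1 - B p.2‖ ≤
      S * ((c * Real.sqrt h + K * BLink2_U h p.1 p.2 / Real.sqrt h) / 2)) :
    ∫ p, ‖A p.1 - B p.2‖ ∂γ ≤ S * ((c * Real.sqrt h + K * X / Real.sqrt h) / 2) := by
  have hsq : 0 < Real.sqrt h := Real.sqrt_pos.mpr hh
  have hm : Measurable (fun p : (ι → ℂ) × (ι → ℂ) => ‖A p.1 - B p.2‖) :=
    ((hA.comp measurable_fst).sub (hB.comp measurable_snd)).norm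
  rw [integral_eq_lintegral_of_nonneg_ae (f := fun p : (ι → ℂ) × (ι → ℂ) => ‖A p.1 - B p.2‖)
    (Filter.Eventually.of_forall fun p => norm_nonneg _) hm.aestronglyMeasurable]
  apply ENNReal.toReal_le_of_le_ofReal (by positivity)
  have hstep : ∀ p : (ι → ℂ) × (ι → ℂ), ENNReal.ofReal ‖A p.1 - B p.2‖ ≤
      ENNReal.ofReal (S * (c * Real.sqrt h / 2)) +
        ENNReal.ofReal (S * (K / Real.sqrt h / 2)) * ENNReal.ofReal (BLink2_U h p.1 p.2) := by
    intro p
    have hu := BLink2_U_nonneg hh.le p.1 p.2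
    rw [← ENNReal.ofReal_mul (by positivity), ← ENNReal.ofReal_add (by positivity)
      (by positivity)]
    apply ENNReal.ofReal_le_ofReal
    refine (hAB p).trans (le_of_eq ?_)
    ring
  refine (lintegral_mono hstep).trans ?_
  rw [lintegral_add_left measurable_const, lintegral_const, measure_univ, mul_one,
    lintegral_const_mul' _ _ ENNReal.ofReal_ne_top]
  refine (add_le_add le_rfl (mul_le_mul_right hXU _)).trans ?_
  rw [← ENNReal.ofReal_mul (by positivity), ← ENNReal.ofReal_add (by positivity)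
      (by positivity)]
  apply ENNReal.ofReal_le_ofReal
  apply le_of_eq
  ring

/-- replacing both components -/
private theorem BLink2_swap {ι : Type} [Fintype ι] (γ1 γ2 : Measure ((ι → ℂ) × (ι → ℂ)))
    [IsProbabilityMeasure γ1] [IsProbabilityMeasure γ2] (A B : (ι → ℂ) → ℂ)
    (hA : Measurable A) (hB : Measurable B) (hA1 : ∀ G, ‖A G‖ ≤ 1) (hB1 : ∀ G, ‖B G‖ ≤ 1) :
    ∫ p, ∫ p', ‖A p.1 - A p'.1‖ ∂γ2 ∂γ1 ≤
      ∫ p, ∫ p', ‖B p.2 - B p'.2‖ ∂γ2 ∂γ1 + ∫ p, ‖A p.1 - B p.2‖ ∂γ1 +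
        ∫ p, ‖A p.1 - B p.2‖ ∂γ2 := by
  have b2 : ∀ z w : ℂ, ‖z‖ ≤ 1 → ‖w‖ ≤ 1 → ‖‖z - w‖‖ ≤ 2 := by
    intro z w hz hw
    rw [norm_norm]
    exact (norm_sub_le _ _).trans (by linarith)
  have mAA : Measurable (fun q : ((ι → ℂ) × (ι → ℂ)) × ((ι → ℂ) × (ι → ℂ)) =>
      ‖A q.1.1 - A q.2.1‖) := by fun_prop
  have mBB : Measurable (fun q : ((ι → ℂ) × (ι → ℂ)) × ((ι → ℂ) × (ι → ℂ)) =>
      ‖B q.1.2 - B q.2.2‖) := by fun_prop
  have mAB : Measurable (fun p : (ι → ℂ) × (ι → ℂ) => ‖A p.1 - B p.2‖) := by fun_prop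
  have iAB1 : Integrable (fun p : (ι → ℂ) × (ι → ℂ) => ‖A p.1 - B p.2‖) γ1 :=
    Integrable.of_bound (C := 2) mAB.aestronglyMeasurable
      (Filter.Eventually.of_forall fun p => b2 _ _ (hA1 _) (hB1 _))
  have iAB2 : Integrable (fun p : (ι → ℂ) × (ι → ℂ) => ‖A p.1 - B p.2‖) γ2 :=
    Integrable.of_bound (C := 2) mAB.aestronglyMeasurable
      (Filter.Eventually.of_forall fun p => b2 _ _ (hA1 _) (hB1 _))
  have iA : ∀ p : (ι → ℂ) × (ι → ℂ), Integrable
      (fun p' : (ι → ℂ) × (ι → ℂ) => ‖A p.1 - A p'.1‖) γ2 := fun p =>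
    Integrable.of_bound (C := 2) (BLink2_cur (f := fun p p' : (ι → ℂ) × (ι → ℂ) =>
      ‖A p.1 - A p'.1‖) mAA p).aestronglyMeasurable
      (Filter.Eventually.of_forall fun p' => b2 _ _ (hA1 _) (hA1 _))
  have iB : ∀ p : (ι → ℂ) × (ι → ℂ), Integrable
      (fun p' : (ι → ℂ) × (ι → ℂ) => ‖B p.2 - B p'.2‖) γ2 := fun p =>
    Integrable.of_bound (C := 2) (BLink2_cur (f := fun p p' : (ι → ℂ) × (ι → ℂ) =>
      ‖B p.2 - B p'.2‖) mBB p).aestronglyMeasurable
      (Filter.Eventually.of_forall fun p' => b2 _ _ (hB1 _) (hB1 _))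
  have iAo : Integrable (fun p : (ι → ℂ) × (ι → ℂ) => ∫ p', ‖A p.1 - A p'.1‖ ∂γ2) γ1 := by
    refine Integrable.of_bound (C := 2)
      (StronglyMeasurable.integral_prod_right' (ν := γ2) mAA.stronglyMeasurable).aestronglyMeasurable
      (Filter.Eventually.of_forall fun p => ?_)
    refine (norm_integral_le_of_norm_le_const (C := 2)
      (Filter.Eventually.of_forall fun p' => b2 _ _ (hA1 _) (hA1 _))).trans ?_
    simp
  have iBo : Integrable (fun p : (ι → ℂ) × (ι → ℂ) => ∫ p', ‖B p.2 - B p'.2‖ ∂γ2) γ1 := by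
    refine Integrable.of_bound (C := 2)
      (StronglyMeasurable.integral_prod_right' (ν := γ2) mBB.stronglyMeasurable).aestronglyMeasurable
      (Filter.Eventually.of_forall fun p => ?_)
    refine (norm_integral_le_of_norm_le_const (C := 2)
      (Filter.Eventually.of_forall fun p' => b2 _ _ (hB1 _) (hB1 _))).trans ?_
    simp
  have hin : ∀ p : (ι → ℂ) × (ι → ℂ), ∫ p', ‖A p.1 - A p'.1‖ ∂γ2 ≤
      ∫ p', ‖B p.2 - B p'.2‖ ∂γ2 + ‖A p.1 - B p.2‖ + ∫ p, ‖A p.1 - B p.2‖ ∂γ2 := by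
    intro p
    have i3 : Integrable (fun p' : (ι → ℂ) × (ι → ℂ) =>
        ‖B p.2 - B p'.2‖ + ‖A p.1 - B p.2‖) γ2 := (iB p).add (integrable_const _)
    have h1 : ∫ p', ‖A p.1 - A p'.1‖ ∂γ2 ≤
        ∫ p' : (ι → ℂ) × (ι → ℂ), (‖B p.2 - B p'.2‖ + ‖A p.1 - B p.2‖ +
          ‖A p'.1 - B p'.2‖) ∂γ2 := by
      refine integral_mono (iA p) (i3.add iAB2) fun p' => ?_
      show ‖A p.1 - A p'.1‖ ≤ ‖B p.2 - B p'.2‖ + ‖A p.1 - B p.2‖ + ‖A p'.1 - B p'.2‖
      have e : A p.1 - A p'.1 = (B p.2 - B p'.2) + (A p.1 - B p.2) - (A p'.1 - B p'.2) := by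
        ring
      rw [e]
      exact (norm_sub_le _ _).trans (add_le_add (norm_add_le _ _) le_rfl)
    rw [integral_add i3 iAB2, integral_add (iB p) (integrable_const _)] at h1
    simpa using h1
  have i4 : Integrable (fun p : (ι → ℂ) × (ι → ℂ) =>
      ∫ p', ‖B p.2 - B p'.2‖ ∂γ2 + ‖A p.1 - B p.2‖) γ1 := iBo.add iAB1
  have h2 := integral_mono iAo (i4.add (integrable_const (∫ p, ‖A p.1 - B p.2‖ ∂γ2))) hin
  have h3 : ∫ p : (ι → ℂ) × (ι → ℂ), (∫ p', ‖B p.2 - B p'.2‖ ∂γ2 + ‖A p.1 - B p.2‖ +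
      ∫ p, ‖A p.1 - B p.2‖ ∂γ2) ∂γ1 = ∫ p, ∫ p', ‖B p.2 - B p'.2‖ ∂γ2 ∂γ1 +
        ∫ p, ‖A p.1 - B p.2‖ ∂γ1 + ∫ p, ‖A p.1 - B p.2‖ ∂γ2 := by
    rw [integral_add i4 (integrable_const _), integral_add iBo iAB1]
    simp
  exact h2.trans (le_of_eq h3)

/-- second moment along the coupled law -/
private theorem BLink2_cplU {ι : Type} [Fintype ι] (s1 s2 : (ι → ℂ) → (ι → ℂ) → ι → ℂ)
    (μ : Measure (ι → ℂ)) [IsProbabilityMeasure μ]
    (hs1 : Measurable (fun p : (ι → ℂ) × (ι → ℂ) => s1 p.1 p.2))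
    (hs2 : Measurable (fun p : (ι → ℂ) × (ι → ℂ) => s2 p.1 p.2)) (C h : ℝ) (hC : 0 ≤ C)
    (hh : 0 < h)
    (hU : ∀ G G' : ι → ℂ, ∫⁻ ζ, ENNReal.ofReal (BLink2_U h (s1 G ζ) (s2 G' ζ)) ∂μ ≤
      ENNReal.ofReal ((1 + C * h) * BLink2_U h G G'))
    (m : Measure (ι → ℂ)) [IsProbabilityMeasure m] (n : ℕ) (Q : ℝ)
    (hm : ∫⁻ G, ENNReal.ofReal (∑ x, ‖G x‖ ^ 2) ∂m ≤ ENNReal.ofReal Q) :
    ∫⁻ p, ENNReal.ofReal (BLink2_U h p.1 p.2)
        ∂(BLink2_lawG (BLink2_cpl s1 s2) μ (m.map fun G => (G, G)) n) ≤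
      ENNReal.ofReal ((1 + C * h) ^ n * (h * Q)) := by
  have hdg : Measurable (fun G : ι → ℂ => (G, G)) := measurable_id.prodMk measurable_id
  have hmp : IsProbabilityMeasure (m.map fun G : ι → ℂ => (G, G)) :=
    Measure.isProbabilityMeasure_map hdg.aemeasurable
  have h1 := BLink2_growth (BLink2_cpl s1 s2) μ (m.map fun G => (G, G))
    (BLink2_mcpl s1 s2 hs1 hs2) (fun p => ENNReal.ofReal (BLink2_U h p.1 p.2)) (BLink2_mU h)
    (ENNReal.ofReal (1 + C * h)) ENNReal.ofReal_ne_top (fun p => by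
      refine (hU p.1 p.2).trans (le_of_eq ?_)
      exact ENNReal.ofReal_mul (by positivity)) n
  refine h1.trans ?_
  rw [lintegral_map (BLink2_mU h) hdg]
  have h2 : ∀ G : ι → ℂ, ENNReal.ofReal (BLink2_U h G G) =
      ENNReal.ofReal h * ENNReal.ofReal (∑ x, ‖G x‖ ^ 2) := by
    intro G
    rw [← ENNReal.ofReal_mul hh.le]
    congr 1
    unfold BLink2_U
    simp
  simp only [h2]
  rw [lintegral_const_mul' _ _ ENNReal.ofReal_ne_top, ENNReal.ofReal_mul (by positivity),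
    ENNReal.ofReal_mul hh.le, ENNReal.ofReal_pow (by positivity)]
  exact mul_le_mul_right (mul_le_mul_right hm _) _

/-- comparison of the decoupling of a factor of `s1` with the one of `s2` -/
private theorem BLink2_main {ι B Ω' : Type} [Fintype ι] [MeasurableSpace B] [MeasurableSpace Ω']
    (s1 s2 : (ι → ℂ) → (ι → ℂ) → ι → ℂ) (μ : Measure (ι → ℂ)) [IsProbabilityMeasure μ]
    (hs1 : Measurable (fun p : (ι → ℂ) × (ι → ℂ) => s1 p.1 p.2))
    (hs2 : Measurable (fun p : (ι → ℂ) × (ι → ℂ) => s2 p.1 p.2)) (C h : ℝ) (hC : 0 ≤ C)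
    (hh : 0 < h)
    (hU : ∀ G G' : ι → ℂ, ∫⁻ ζ, ENNReal.ofReal (BLink2_U h (s1 G ζ) (s2 G' ζ)) ∂μ ≤
      ENNReal.ofReal ((1 + C * h) * BLink2_U h G G'))
    (t : B → Ω' → B) (μ' : Measure Ω') [IsProbabilityMeasure μ'] (e : (ι → ℂ) → B)
    (he : Measurable e) (ht : Measurable fun q : B × Ω' => t q.1 q.2)
    (hk : ∀ G, μ.map (fun ζ => e (s1 G ζ)) = μ'.map (fun ω => t (e G) ω))
    (l : List ((B → ℂ) × ℝ))
    (hl : ∀ p ∈ l, Measurable p.1 ∧ (∀ b, ‖p.1 b‖ ≤ 1) ∧ 0 ≤ p.2 ∧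
      ∀ G G' : ι → ℂ, ‖p.1 (e G) - p.1 (e G')‖ ≤ p.2 * ∑ x, ‖G x - G' x‖)
    (m1 m2 : Measure (ι → ℂ)) [IsProbabilityMeasure m1] [IsProbabilityMeasure m2] (n1 n2 : ℕ)
    (Q1 Q2 : ℝ) (hQ1 : 0 ≤ Q1) (hQ2 : 0 ≤ Q2)
    (hm1 : ∫⁻ G, ENNReal.ofReal (∑ x, ‖G x‖ ^ 2) ∂m1 ≤ ENNReal.ofReal Q1)
    (hm2 : ∫⁻ G, ENNReal.ofReal (∑ x, ‖G x‖ ^ 2) ∂m2 ≤ ENNReal.ofReal Q2) :
    ∫ b, ∫ b', ‖BLink2_pE t μ' (l.map Prod.fst) b - BLink2_pE t μ' (l.map Prod.fst) b'‖
        ∂(BLink2_lawG t μ' (m2.map e) n2) ∂(BLink2_lawG t μ' (m1.map e) n1) ≤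
      ∫ G, ∫ G', ‖BLink2_pE s2 μ ((l.map Prod.fst).map fun f G => f (e G)) G -
          BLink2_pE s2 μ ((l.map Prod.fst).map fun f G => f (e G)) G'‖
        ∂(BLink2_lawG s2 μ m2 n2) ∂(BLink2_lawG s2 μ m1 n1) +
      (l.map Prod.snd).sum *
        ((Fintype.card ι + (1 + C * h) ^ (l.length + n1) * Q1) * Real.sqrt h / 2) +
      (l.map Prod.snd).sum *
        ((Fintype.card ι + (1 + C * h) ^ (l.length + n2) * Q2) * Real.sqrt h / 2) := by
  have hsq : 0 < Real.sqrt h := Real.sqrt_pos.mpr hh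
  have hsq2 : Real.sqrt h * Real.sqrt h = h := Real.mul_self_sqrt hh.le
  have hdg : Measurable (fun G : ι → ℂ => (G, G)) := measurable_id.prodMk measurable_id
  have hp1 : IsProbabilityMeasure (m1.map fun G : ι → ℂ => (G, G)) :=
    Measure.isProbabilityMeasure_map hdg.aemeasurable
  have hp2 : IsProbabilityMeasure (m2.map fun G : ι → ℂ => (G, G)) :=
    Measure.isProbabilityMeasure_map hdg.aemeasurable
  set fs : List (B → ℂ) := l.map Prod.fst with hfs
  set S : ℝ := (l.map Prod.snd).sum with hSd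
  have hmf : ∀ f ∈ fs, Measurable f := by
    intro f hf
    obtain ⟨q, hq, rfl⟩ := List.mem_map.mp hf
    exact (hl q hq).1
  have hbf : ∀ f ∈ fs, ∀ G, ‖f G‖ ≤ 1 := by
    intro f hf
    obtain ⟨q, hq, rfl⟩ := List.mem_map.mp hf
    exact (hl q hq).2.1
  have hS : 0 ≤ S := by
    apply List.sum_nonneg
    intro a ha
    obtain ⟨q, hq, rfl⟩ := List.mem_map.mp ha
    exact (hl q hq).2.2.1
  set fs' : List ((ι → ℂ) → ℂ) := fs.map fun f G => f (e G) with hfs'
  have hmf' : ∀ f ∈ fs', Measurable f := by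
    intro f hf
    obtain ⟨q, hq, rfl⟩ := List.mem_map.mp hf
    exact (hmf q hq).comp he
  have hbf' : ∀ f ∈ fs', ∀ G, ‖f G‖ ≤ 1 := by
    intro f hf G
    obtain ⟨q, hq, rfl⟩ := List.mem_map.mp hf
    exact hbf q hq _
  obtain ⟨fB, bB⟩ := BLink2_pE_facts t μ' ht fs hmf hbf
  obtain ⟨f1, b1⟩ := BLink2_pE_facts s1 μ hs1 fs' hmf' hbf'
  obtain ⟨f2, b2⟩ := BLink2_pE_facts s2 μ hs2 fs' hmf' hbf'
  have hpath : ∀ G, BLink2_pE t μ' fs (e G) = BLink2_pE s1 μ fs' G :=
    fun G => BLink2_pE_factor s1 μ t μ' e he hs1 ht hk fs hmf hbf G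
  have hmc := BLink2_mcpl s1 s2 hs1 hs2
  set γ1 := BLink2_lawG (BLink2_cpl s1 s2) μ (m1.map fun G => (G, G)) n1 with hγ1
  set γ2 := BLink2_lawG (BLink2_cpl s1 s2) μ (m2.map fun G => (G, G)) n2 with hγ2
  have pγ1 : IsProbabilityMeasure γ1 := BLink2_lawG_prob _ _ _ hmc n1
  have pγ2 : IsProbabilityMeasure γ2 := BLink2_lawG_prob _ _ _ hmc n2
  have hef : Measurable (fun p : (ι → ℂ) × (ι → ℂ) => e p.1) := he.comp measurable_fst
  have F1 : γ1.map (fun p => e p.1) = BLink2_lawG t μ' (m1.map e) n1 := by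
    rw [hγ1, BLink2_factor (BLink2_cpl s1 s2) μ t μ' _ (fun p => e p.1) hef hmc ht
      (fun p => hk p.1) n1, Measure.map_map hef hdg]
    rfl
  have F2 : γ2.map (fun p => e p.1) = BLink2_lawG t μ' (m2.map e) n2 := by
    rw [hγ2, BLink2_factor (BLink2_cpl s1 s2) μ t μ' _ (fun p => e p.1) hef hmc ht
      (fun p => hk p.1) n2, Measure.map_map hef hdg]
    rfl
  have S1 : γ1.map Prod.snd = BLink2_lawG s2 μ m1 n1 := by
    rw [hγ1, BLink2_factor (BLink2_cpl s1 s2) μ s2 μ _ Prod.snd measurable_snd hmc hs2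
      (fun p => rfl) n1, Measure.map_map measurable_snd hdg]
    congr 1
    exact Measure.map_id
  have S2 : γ2.map Prod.snd = BLink2_lawG s2 μ m2 n2 := by
    rw [hγ2, BLink2_factor (BLink2_cpl s1 s2) μ s2 μ _ Prod.snd measurable_snd hmc hs2
      (fun p => rfl) n2, Measure.map_map measurable_snd hdg]
    congr 1
    exact Measure.map_id
  -- the left side
  have mBB : Measurable (fun q : B × B => ‖BLink2_pE t μ' fs q.1 - BLink2_pE t μ' fs q.2‖) :=
    ((fB.comp measurable_fst).sub (fB.comp measurable_snd)).norm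
  have m22 : Measurable (fun q : (ι → ℂ) × (ι → ℂ) =>
      ‖BLink2_pE s2 μ fs' q.1 - BLink2_pE s2 μ fs' q.2‖) :=
    ((f2.comp measurable_fst).sub (f2.comp measurable_snd)).norm
  have hL : ∫ b, ∫ b', ‖BLink2_pE t μ' fs b - BLink2_pE t μ' fs b'‖
        ∂(BLink2_lawG t μ' (m2.map e) n2) ∂(BLink2_lawG t μ' (m1.map e) n1) =
      ∫ p, ∫ p', ‖BLink2_pE s1 μ fs' p.1 - BLink2_pE s1 μ fs' p'.1‖ ∂γ2 ∂γ1 := by
    rw [← F1, ← F2]
    have hin : ∀ b, ∫ b', ‖BLink2_pE t μ' fs b - BLink2_pE t μ' fs b'‖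
        ∂(γ2.map (fun p => e p.1)) =
        ∫ p', ‖BLink2_pE t μ' fs b - BLink2_pE s1 μ fs' p'.1‖ ∂γ2 := by
      intro b
      rw [integral_map hef.aemeasurable
        (BLink2_cur (f := fun b b' => ‖BLink2_pE t μ' fs b - BLink2_pE t μ' fs b'‖)
          mBB b).aestronglyMeasurable]
      refine integral_congr_ae (Filter.Eventually.of_forall fun p => ?_)
      show ‖BLink2_pE t μ' fs b - BLink2_pE t μ' fs (e p.1)‖ = _
      rw [hpath]
    simp only [hin]
    have mout : Measurable (fun b => ∫ p', ‖BLink2_pE t μ' fs b -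
        BLink2_pE s1 μ fs' p'.1‖ ∂γ2) := by
      have m3 : Measurable (fun q : B × ((ι → ℂ) × (ι → ℂ)) =>
          ‖BLink2_pE t μ' fs q.1 - BLink2_pE s1 μ fs' q.2.1‖) :=
        ((fB.comp measurable_fst).sub
          (f1.comp (measurable_fst.comp measurable_snd))).norm
      exact (StronglyMeasurable.integral_prod_right' (ν := γ2) m3.stronglyMeasurable).measurable
    rw [integral_map hef.aemeasurable mout.aestronglyMeasurable]
    refine integral_congr_ae (Filter.Eventually.of_forall fun p => ?_)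
    show ∫ p', ‖BLink2_pE t μ' fs (e p.1) - BLink2_pE s1 μ fs' p'.1‖ ∂γ2 = _
    rw [hpath]
  have hR : ∫ G, ∫ G', ‖BLink2_pE s2 μ fs' G - BLink2_pE s2 μ fs' G'‖
        ∂(BLink2_lawG s2 μ m2 n2) ∂(BLink2_lawG s2 μ m1 n1) =
      ∫ p, ∫ p', ‖BLink2_pE s2 μ fs' p.2 - BLink2_pE s2 μ fs' p'.2‖ ∂γ2 ∂γ1 := by
    rw [← S1, ← S2]
    have hin : ∀ G, ∫ G', ‖BLink2_pE s2 μ fs' G - BLink2_pE s2 μ fs' G'‖ ∂(γ2.map Prod.snd) =
        ∫ p', ‖BLink2_pE s2 μ fs' G - BLink2_pE s2 μ fs' p'.2‖ ∂γ2 := by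
      intro G
      exact integral_map measurable_snd.aemeasurable
        (BLink2_cur (f := fun b b' => ‖BLink2_pE s2 μ fs' b - BLink2_pE s2 μ fs' b'‖)
          m22 G).aestronglyMeasurable
    simp only [hin]
    have mout : Measurable (fun G => ∫ p', ‖BLink2_pE s2 μ fs' G -
        BLink2_pE s2 μ fs' p'.2‖ ∂γ2) := by
      have m3 : Measurable (fun q : (ι → ℂ) × ((ι → ℂ) × (ι → ℂ)) =>
          ‖BLink2_pE s2 μ fs' q.1 - BLink2_pE s2 μ fs' q.2.2‖) :=
        ((f2.comp measurable_fst).sub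
          (f2.comp (measurable_snd.comp measurable_snd))).norm
      exact (StronglyMeasurable.integral_prod_right' (ν := γ2) m3.stronglyMeasurable).measurable
    exact integral_map measurable_snd.aemeasurable mout.aestronglyMeasurable
  -- the difference
  set l' : List (((ι → ℂ) → ℂ) × ℝ) := l.map (fun p => ((fun G => p.1 (e G)), p.2)) with hl'
  have e1 : l'.map Prod.fst = fs' := by
    rw [hl', hfs', hfs, List.map_map, List.map_map]
    rfl
  have e2 : l'.map Prod.snd = l.map Prod.snd := by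
    rw [hl', List.map_map]
    rfl
  have e3 : l'.length = l.length := by
    rw [hl', List.length_map]
  have hd : ∀ p : (ι → ℂ) × (ι → ℂ), ‖BLink2_pE s1 μ fs' p.1 - BLink2_pE s2 μ fs' p.2‖ ≤
      S * ((Fintype.card ι * Real.sqrt h +
        (1 + C * h) ^ l.length * BLink2_U h p.1 p.2 / Real.sqrt h) / 2) := by
    intro p
    have h1 := BLink2_diff s1 s2 μ hs1 hs2 C h hC hh hU l' (by
      intro q hq
      obtain ⟨r, hr, rfl⟩ := List.mem_map.mp hq
      obtain ⟨r1, r2, r3, r4⟩ := hl r hr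
      exact ⟨r1.comp he, fun G => r2 _, r3, r4⟩) p.1 p.2
    rw [e1, e2, e3] at h1
    exact h1
  have hX1 := BLink2_cplU s1 s2 μ hs1 hs2 C h hC hh hU m1 n1 Q1 hm1
  have hX2 := BLink2_cplU s1 s2 μ hs1 hs2 C h hC hh hU m2 n2 Q2 hm2
  have E1 := BLink2_err γ1 _ _ f1 f2 h S ((1 + C * h) ^ l.length) (Fintype.card ι)
    ((1 + C * h) ^ n1 * (h * Q1)) hh hS (by positivity) (by positivity) (by positivity) hX1 hd
  have E2 := BLink2_err γ2 _ _ f1 f2 h S ((1 + C * h) ^ l.length) (Fintype.card ι)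
    ((1 + C * h) ^ n2 * (h * Q2)) hh hS (by positivity) (by positivity) (by positivity) hX2 hd
  have hsw := BLink2_swap γ1 γ2 _ _ f1 f2 b1 b2
  have hq : ∀ Q : ℝ, ∀ n : ℕ, (Fintype.card ι * Real.sqrt h + (1 + C * h) ^ l.length *
      ((1 + C * h) ^ n * (h * Q)) / Real.sqrt h) / 2 =
      (Fintype.card ι + (1 + C * h) ^ (l.length + n) * Q) * Real.sqrt h / 2 := by
    intro Q n
    have : h / Real.sqrt h = Real.sqrt h := by
      rw [div_eq_iff hsq.ne']
      exact hsq2.symm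
    rw [pow_add]
    calc (Fintype.card ι * Real.sqrt h + (1 + C * h) ^ l.length *
      ((1 + C * h) ^ n * (h * Q)) / Real.sqrt h) / 2 = (Fintype.card ι * Real.sqrt h +
        (1 + C * h) ^ l.length * (1 + C * h) ^ n * Q * (h / Real.sqrt h)) / 2 := by ring
      _ = _ := by rw [this]; ring
  rw [hq] at E1 E2
  rw [hL, hR]
  linarith

/-! ### the link -/

private theorem BLink2_pathE_eq {d : ℕ} (β k h : ℝ) (L : ℕ)
    (fs : List ((boxS d L → E 2) → ℂ)) (G : boxS d L → E 2) :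
    pathE (boxNet d L) β h k (stdGaussian (E 2)) fs G =
      BLink2_pE (fun G ξ => stp (boxNet d L) β h k G ξ)
        (pim (boxS d L) (stdGaussian (E 2))) fs G := by
  induction fs generalizing G with
  | nil => rfl
  | cons f fs ih =>
    show f G * ∫ ξ, pathE (boxNet d L) β h k (stdGaussian (E 2)) fs
      (stp (boxNet d L) β h k G ξ) ∂(pim (boxS d L) (stdGaussian (E 2))) = f G * _
    congr 1
    refine integral_congr_ae (Filter.Eventually.of_forall fun ζ => ?_)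
    exact ih _

private theorem BLink2_chainLaw_eq {d : ℕ} (β k h : ℝ) (L : ℕ) (m0 : Measure (boxS d L → E 2))
    (n : ℕ) : chainLaw (boxNet d L) β h k (stdGaussian (E 2)) m0 n =
      BLink2_lawG (fun G ξ => stp (boxNet d L) β h k G ξ)
        (pim (boxS d L) (stdGaussian (E 2))) m0 n := by
  induction n with
  | zero => rfl
  | succ n ih =>
    show ((chainLaw (boxNet d L) β h k (stdGaussian (E 2)) m0 n).prod
      (pim (boxS d L) (stdGaussian (E 2)))).map (fun q => stp (boxNet d L) β h k q.1 q.2) = _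
    rw [ih]
    rfl

private theorem BLink2_Fam {d : ℕ} (β k h : ℝ) (L : ℕ) (fs : List ((boxS d L → ℂ) → ℂ))
    (G : boxS d L → ℂ) :
    (Fam2 d β k).pathE h L fs G =
      BLink2_pE (st2 d β k h L) (Measure.pi fun _ : boxS d L => gC) fs G := by
  induction fs generalizing G with
  | nil => rfl
  | cons f fs ih =>
    show f G * ∫ ξ, (Fam2 d β k).pathE h L fs (st2 d β k h L G ξ)
      ∂(Measure.pi fun _ : boxS d L => gC) = f G * _
    congr 1
    refine integral_congr_ae (Filter.Eventually.of_forall fun ζ => ?_)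
    exact ih _

private theorem BLink2_law_eq {d : ℕ} (β k h : ℝ) (L : ℕ) (m0 : Measure (boxS d L → ℂ))
    (n : ℕ) : (Fam2 d β k).law h L m0 n =
      BLink2_lawG (st2 d β k h L) (Measure.pi fun _ : boxS d L => gC) m0 n := by
  induction n with
  | zero => rfl
  | succ n ih =>
    show (((Fam2 d β k).law h L m0 n).prod (Measure.pi fun _ : boxS d L => gC)).map
      (fun q => st2 d β k h L q.1 q.2) = _
    rw [ih]
    rfl

private theorem BLink2_mom {ι : Type} [Fintype ι] (ρ : Measure ℂ) [IsProbabilityMeasure ρ]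
    (hρ : Integrable (fun x : ℂ => ‖x‖ ^ 2) ρ) :
    ∫⁻ G : ι → ℂ, ENNReal.ofReal (∑ x, ‖G x‖ ^ 2) ∂(Measure.pi fun _ : ι => ρ) ≤
      ENNReal.ofReal (Fintype.card ι * ∫ x, ‖x‖ ^ 2 ∂ρ) := by
  have h1 : ∀ x : ι, Integrable (fun G : ι → ℂ => ‖G x‖ ^ 2) (Measure.pi fun _ : ι => ρ) :=
    fun x => integrable_comp_eval (μ := fun _ : ι => ρ) (f := fun z : ℂ => ‖z‖ ^ 2) hρ
  have hF : Integrable (fun G : ι → ℂ => ∑ x, ‖G x‖ ^ 2) (Measure.pi fun _ : ι => ρ) :=
    integrable_finsetSum _ fun x _ => h1 x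
  rw [← ofReal_integral_eq_lintegral_ofReal hF
    (Filter.Eventually.of_forall fun G => Finset.sum_nonneg fun x _ => by positivity)]
  apply ENNReal.ofReal_le_ofReal
  rw [integral_finsetSum _ fun x _ => h1 x]
  have h2 : ∀ x : ι, ∫ G : ι → ℂ, ‖G x‖ ^ 2 ∂(Measure.pi fun _ : ι => ρ) = ∫ z, ‖z‖ ^ 2 ∂ρ :=
    fun x => integral_comp_eval (μ := fun _ : ι => ρ) (f := fun z : ℂ => ‖z‖ ^ 2)
      hρ.aestronglyMeasurable
  simp only [h2]
  simp

private theorem BLink2_lsum (CF : ℝ) (hCF : 0 ≤ CF) (I : Finset ℕ) (J M : ℕ) (hI : I.card ≤ J) :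
    ((List.range M).map fun i => if i ∈ I then CF else 0).sum ≤ J * CF := by
  have h1 : ((List.range M).map fun i => if i ∈ I then CF else 0).sum =
      ∑ i ∈ Finset.range M, if i ∈ I then CF else 0 := rfl
  rw [h1, ← Finset.sum_filter, Finset.sum_const, nsmul_eq_mul]
  refine mul_le_mul_of_nonneg_right ?_ hCF
  have h2 : ((Finset.range M).filter fun i => i ∈ I).card ≤ I.card := by
    apply Finset.card_le_card
    intro i hi
    exact (Finset.mem_filter.mp hi).2
  exact_mod_cast h2.trans hI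

private theorem BLink2_pow {C h Sm : ℝ} (hC : 0 ≤ C) (hh : 0 < h) (n m : ℕ)
    (hn : n * h ≤ Sm) (hm : m * h ≤ Sm) : (1 + C * h) ^ (n + m) ≤ Real.exp (2 * C * Sm) := by
  have h1 : 1 + C * h ≤ Real.exp (C * h) := by
    have := Real.add_one_le_exp (C * h)
    linarith
  refine (pow_le_pow_left₀ (by positivity) h1 _).trans ?_
  rw [← Real.exp_nat_mul]
  apply Real.exp_le_exp.mpr
  push_cast
  have h2 : C * (n * h) ≤ C * Sm := mul_le_mul_of_nonneg_left hn hC
  have h3 : C * (m * h) ≤ C * Sm := mul_le_mul_of_nonneg_left hm hC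
  nlinarith

private theorem BLink2_mape (ρ : Measure (E 2)) (L d : ℕ) [IsProbabilityMeasure ρ] :
    (Measure.pi fun _ : boxS d L => ρ.map BLink2_e.symm).map (fun G x => BLink2_e (G x)) =
      Measure.pi fun _ : boxS d L => ρ := by
  have m1 : Measurable (BLink2_e.symm : E 2 → ℂ) := BLink2_e.symm.continuous.measurable
  have m2 : Measurable (BLink2_e : ℂ → E 2) := BLink2_e.continuous.measurable
  have hp : IsProbabilityMeasure (ρ.map BLink2_e.symm) :=
    Measure.isProbabilityMeasure_map m1.aemeasurable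
  have h3 : (ρ.map BLink2_e.symm).map BLink2_e = ρ := by
    rw [Measure.map_map m2 m1]
    have : (BLink2_e : ℂ → E 2) ∘ (BLink2_e.symm : E 2 → ℂ) = id := by
      funext x
      exact BLink2_e.apply_symm_apply x
    rw [this]
    exact Measure.map_id
  have h1 := Measure.pi_map_pi (μ := fun _ : boxS d L => ρ.map BLink2_e.symm)
    (f := fun (_ : boxS d L) (z : ℂ) => BLink2_e z)
    (hμ := fun x => by
      rw [h3]
      infer_instance)
    (fun x => m2.aemeasurable)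
  refine h1.trans ?_
  congr 1
  funext x
  exact h3

theorem link2 (d : ℕ) (β k : ℝ) (hβ : 0 < β) (hk : 0 < k) (h : (Fam2 d β k).Mix) :
    DynB.ChainMix 2 d β k := by
  intro ρ1 ρ2 i1 i2 z1 z2 q1 q2 R J CF δ hCF hδ
  have m1 : Measurable (BLink2_e.symm : E 2 → ℂ) := BLink2_e.symm.continuous.measurable
  have hp1 : IsProbabilityMeasure (ρ1.map BLink2_e.symm) :=
    Measure.isProbabilityMeasure_map m1.aemeasurable
  have hp2 : IsProbabilityMeasure (ρ2.map BLink2_e.symm) :=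
    Measure.isProbabilityMeasure_map m1.aemeasurable
  have hz : ∀ ρ : Measure (E 2), ρ {0} = 0 → (ρ.map BLink2_e.symm) {(0 : ℂ)} = 0 := by
    intro ρ hρ
    rw [Measure.map_apply m1 (measurableSet_singleton 0)]
    have : (BLink2_e.symm : E 2 → ℂ) ⁻¹' {(0 : ℂ)} = {0} := by
      ext x
      simp
    rw [this, hρ]
  have hq : ∀ ρ : Measure (E 2), Integrable (fun x : E 2 => ‖x‖ ^ 2) ρ →
      Integrable (fun x : ℂ => ‖x‖ ^ 2) (ρ.map BLink2_e.symm) := by
    intro ρ hρ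
    rw [integrable_map_measure (by fun_prop) m1.aemeasurable]
    refine hρ.congr (Filter.Eventually.of_forall fun x => ?_)
    show ‖x‖ ^ 2 = ‖BLink2_e.symm x‖ ^ 2
    rw [LinearIsometryEquiv.norm_map]
  obtain ⟨T0, L0, hT0, hRL, H⟩ := @h (ρ1.map BLink2_e.symm) (ρ2.map BLink2_e.symm) hp1 hp2
    (hz ρ1 z1) (hz ρ2 z2) (hq ρ1 q1) (hq ρ2 q2) R J CF (δ / 2) hCF (half_pos hδ)
  refine ⟨T0, L0, hT0, hRL, fun hk0 => absurd hk0 hk.ne', fun L _ hL Sm hSm => ?_⟩
  obtain ⟨h0', hh0', H'⟩ := H L hL Sm hSm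
  obtain ⟨C, hC, hstep⟩ := BLink2_step (d := d) hβ k L
  set c : ℝ := (Fintype.card (boxS d L) : ℝ) with hc
  have hc0 : 0 ≤ c := Nat.cast_nonneg _
  set Q1 : ℝ := c * ∫ x, ‖x‖ ^ 2 ∂(ρ1.map BLink2_e.symm) with hQ1
  set Q2 : ℝ := c * ∫ x, ‖x‖ ^ 2 ∂(ρ2.map BLink2_e.symm) with hQ2
  have hQ10 : 0 ≤ Q1 := mul_nonneg hc0 (integral_nonneg fun x => by positivity)
  have hQ20 : 0 ≤ Q2 := mul_nonneg hc0 (integral_nonneg fun x => by positivity)
  set K : ℝ := Real.exp (2 * C * Sm) with hK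
  have hK0 : 0 ≤ K := (Real.exp_pos _).le
  set W : ℝ := J * CF * (c + K * (Q1 + Q2)) with hW
  have hW0 : 0 ≤ W := by positivity
  refine ⟨min h0' (min (1 / 2) ((δ / (2 * (W + 1))) ^ 2)), by positivity,
    fun s hs hs0 n1 n2 M hn1 hn2 hM F I hI hFm hFb hFI hFL => ?_⟩
  have hs1 : s < h0' := lt_of_lt_of_le hs0 (min_le_left _ _)
  have hs2 : s ≤ 1 / 2 := (hs0.trans_le ((min_le_right _ _).trans (min_le_left _ _))).le
  have hs3 : s < (δ / (2 * (W + 1))) ^ 2 :=
    lt_of_lt_of_le hs0 ((min_le_right _ _).trans (min_le_right _ _))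
  have mE : Measurable (fun (G : boxS d L → ℂ) (x : boxS d L) => BLink2_e (G x)) := by
    refine measurable_pi_lambda _ fun x => ?_
    exact BLink2_e.continuous.measurable.comp (measurable_pi_apply x)
  have hne : ∀ z w : ℂ, ‖BLink2_e z - BLink2_e w‖ = ‖z - w‖ := by
    intro z w
    rw [← map_sub, LinearIsometryEquiv.norm_map]
  have hlipC : ∀ i ∈ I, ∀ G G' : boxS d L → ℂ,
      ‖F i (fun x => BLink2_e (G x)) - F i (fun x => BLink2_e (G' x))‖ ≤
        CF * ∑ x : boxS d L,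
          (if l1 (x : Fin d → ℤ) 0 ≤ R then min 1 ‖G x - G' x‖ else 0) := by
    intro i hi G G'
    refine ((hFL i hi).2 _ _).trans (le_of_eq ?_)
    simp only [hne]
  have Hm := H' s hs hs1 n1 n2 M hn1 hn2 hM (fun i G => F i (fun x => BLink2_e (G x))) I hI
    (fun i => (hFm i).comp mE) (fun i G => hFb i _)
    (fun i hi => by
      rw [hFI i hi])
    (fun i hi => ⟨(hFL i hi).1, fun G G' => hlipC i hi G G'⟩)
  set l : List (((boxS d L → E 2) → ℂ) × ℝ) :=
    (List.range M).map (fun i => (F i, if i ∈ I then CF else 0)) with hl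
  have l1 : l.map Prod.fst = (List.range M).map F := by
    rw [hl, List.map_map]
    rfl
  have l2 : l.map Prod.snd = (List.range M).map fun i => if i ∈ I then CF else 0 := by
    rw [hl, List.map_map]
    rfl
  have l3 : l.length = M := by
    rw [hl, List.length_map, List.length_range]
  have hlp : ∀ p ∈ l, Measurable p.1 ∧ (∀ b, ‖p.1 b‖ ≤ 1) ∧ 0 ≤ p.2 ∧
      ∀ G G' : boxS d L → ℂ, ‖p.1 (fun x => BLink2_e (G x)) - p.1 (fun x => BLink2_e (G' x))‖ ≤
        p.2 * ∑ x, ‖G x - G' x‖ := by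
    intro p hp
    obtain ⟨i, -, rfl⟩ := List.mem_map.mp hp
    refine ⟨hFm i, hFb i, ?_, fun G G' => ?_⟩
    · show 0 ≤ if i ∈ I then CF else 0
      split_ifs
      · exact hCF
      · exact le_rfl
    · show ‖F i _ - F i _‖ ≤ (if i ∈ I then CF else 0) * _
      by_cases hi : i ∈ I
      · rw [if_pos hi]
        refine ((hFL i hi).2 _ _).trans (mul_le_mul_of_nonneg_left ?_ hCF)
        refine Finset.sum_le_sum fun x _ => ?_
        simp only [hne]
        split_ifs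
        · exact min_le_right _ _
        · exact norm_nonneg _
      · rw [if_neg hi, hFI i hi]
        simp
  have hpm : IsProbabilityMeasure (pim (boxS d L) (stdGaussian (E 2))) := by
    unfold pim
    infer_instance
  have hmain := BLink2_main (BLink2_s1 d β k s L) (st2 d β k s L)
    (Measure.pi fun _ : boxS d L => gC) (BLink2_ms1 hβ hs.le k L) (measurable_st2 d β k s L) C s hC
    hs (hstep s hs hs2) (fun G ξ => stp (boxNet d L) β s k G ξ)
    (pim (boxS d L) (stdGaussian (E 2))) (fun G x => BLink2_e (G x)) mE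
    (stp_continuous hβ hs.le k (boxNet d L)).measurable (BLink2_ker hβ hs.le k L) l hlp
    (Measure.pi fun _ : boxS d L => ρ1.map BLink2_e.symm)
    (Measure.pi fun _ : boxS d L => ρ2.map BLink2_e.symm) n1 n2 Q1 Q2 hQ10 hQ20
    (BLink2_mom _ (hq ρ1 q1)) (BLink2_mom _ (hq ρ2 q2))
  rw [BLink2_mape, BLink2_mape, l1, l2, l3, List.map_map] at hmain
  have hLHS : ∫ G, ∫ G', ‖pathE (boxNet d L) β s k (stdGaussian (E 2)) ((List.range M).map F) G
          - pathE (boxNet d L) β s k (stdGaussian (E 2)) ((List.range M).map F) G'‖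
        ∂(chainLaw (boxNet d L) β s k (stdGaussian (E 2)) (Measure.pi (fun _ => ρ2)) n2)
        ∂(chainLaw (boxNet d L) β s k (stdGaussian (E 2)) (Measure.pi (fun _ => ρ1)) n1) =
      ∫ b, ∫ b', ‖BLink2_pE (fun G ξ => stp (boxNet d L) β s k G ξ)
          (pim (boxS d L) (stdGaussian (E 2))) ((List.range M).map F) b -
          BLink2_pE (fun G ξ => stp (boxNet d L) β s k G ξ)
          (pim (boxS d L) (stdGaussian (E 2))) ((List.range M).map F) b'‖
        ∂(BLink2_lawG (fun G ξ => stp (boxNet d L) β s k G ξ)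
          (pim (boxS d L) (stdGaussian (E 2))) (Measure.pi (fun _ => ρ2)) n2)
        ∂(BLink2_lawG (fun G ξ => stp (boxNet d L) β s k G ξ)
          (pim (boxS d L) (stdGaussian (E 2))) (Measure.pi (fun _ => ρ1)) n1) := by
    rw [BLink2_chainLaw_eq, BLink2_chainLaw_eq]
    simp only [BLink2_pathE_eq]
  have hRHS : ∫ G, ∫ G', ‖BLink2_pE (st2 d β k s L) (Measure.pi fun _ : boxS d L => gC)
          ((List.range M).map ((fun f (G : boxS d L → ℂ) => f fun x => BLink2_e (G x)) ∘ F)) G -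
        BLink2_pE (st2 d β k s L) (Measure.pi fun _ : boxS d L => gC)
          ((List.range M).map ((fun f (G : boxS d L → ℂ) => f fun x => BLink2_e (G x)) ∘ F)) G'‖
      ∂(BLink2_lawG (st2 d β k s L) (Measure.pi fun _ : boxS d L => gC)
        (Measure.pi fun _ : boxS d L => ρ2.map BLink2_e.symm) n2)
      ∂(BLink2_lawG (st2 d β k s L) (Measure.pi fun _ : boxS d L => gC)
        (Measure.pi fun _ : boxS d L => ρ1.map BLink2_e.symm) n1) ≤ δ / 2 := by
    rw [← BLink2_law_eq, ← BLink2_law_eq]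
    simp only [← BLink2_Fam]
    exact Hm
  refine (le_of_eq hLHS).trans (hmain.trans ?_)
  -- the error
  have hsq0 : 0 ≤ Real.sqrt s := Real.sqrt_nonneg _
  have hsq : Real.sqrt s ≤ δ / (2 * (W + 1)) := by
    apply Real.sqrt_le_iff.mpr
    exact ⟨by positivity, hs3.le⟩
  have hsum := BLink2_lsum CF hCF I J M hI
  have hsum0 : 0 ≤ ((List.range M).map fun i => if i ∈ I then CF else 0).sum := by
    apply List.sum_nonneg
    intro a ha
    obtain ⟨i, -, rfl⟩ := List.mem_map.mp ha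
    split_ifs
    · exact hCF
    · exact le_rfl
  have p1 := BLink2_pow hC hs M n1 hM hn1
  have p2 := BLink2_pow hC hs M n2 hM hn2
  have t1 : ((List.range M).map fun i => if i ∈ I then CF else 0).sum *
      ((c + (1 + C * s) ^ (M + n1) * Q1) * Real.sqrt s / 2) ≤
      J * CF * ((c + K * Q1) * Real.sqrt s / 2) := by
    refine mul_le_mul hsum ?_ (by positivity) (by positivity)
    have := mul_le_mul_of_nonneg_right p1 hQ10
    have h5 := mul_le_mul_of_nonneg_right (add_le_add (le_refl c) this) hsq0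
    linarith only [h5]
  have t2 : ((List.range M).map fun i => if i ∈ I then CF else 0).sum *
      ((c + (1 + C * s) ^ (M + n2) * Q2) * Real.sqrt s / 2) ≤
      J * CF * ((c + K * Q2) * Real.sqrt s / 2) := by
    refine mul_le_mul hsum ?_ (by positivity) (by positivity)
    have := mul_le_mul_of_nonneg_right p2 hQ20
    have h5 := mul_le_mul_of_nonneg_right (add_le_add (le_refl c) this) hsq0
    linarith only [h5]
  have t3 : J * CF * ((c + K * Q1) * Real.sqrt s / 2) +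
      J * CF * ((c + K * Q2) * Real.sqrt s / 2) ≤ W * Real.sqrt s := by
    have h6 : 0 ≤ J * CF * (K * (Q1 + Q2)) * Real.sqrt s := by positivity
    have h7 : W * Real.sqrt s - (J * CF * ((c + K * Q1) * Real.sqrt s / 2) +
      J * CF * ((c + K * Q2) * Real.sqrt s / 2)) =
        J * CF * (K * (Q1 + Q2)) * Real.sqrt s / 2 := by
      rw [hW]
      ring
    linarith only [h6]
  have t4 : W * Real.sqrt s ≤ δ / 2 := by
    have h8 : (W + 1) * Real.sqrt s ≤ (W + 1) * (δ / (2 * (W + 1))) :=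
      mul_le_mul_of_nonneg_left hsq (by linarith only [hW0, hs, hs2])
    have h9 : (W + 1) * (δ / (2 * (W + 1))) = δ / 2 := by
      field_simp
    nlinarith only [hsq0, h8, h9]
  have hR := hRHS
  linarith only [hRHS, t1, t2, t3, t4]

end DynC

end
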