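import Pool.Agent.Lib_MP_36b788_n.M05
import Pool.Agent.Lib_MP_36b788_n.M06

set_option linter.unusedVariables false

/-!
# MP_36b788_pr, stationary limit: merged library part M14

Concatenation of smaller files (each in its own section), only to save build time.
-/

/-! ### from `Lib_MP_36b788c.FMo` -/

section

/-!
# First moments with shifted noise, maximal inequality

`shz M z n1`: unit size shift at the single site `z` during the first `n1` steps. `trs … φ ω n` is the state after `n` steps with the noise `ω + φ • shz`.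

PROOF.
* `shz_sum`: `n1 · (‖e0‖/(C √n1))² ≤ 1`.
* `fm1`: `a = √h/√n1 ≤ 1`... (`a = h/√(n1 h)`). `E‖A h ω v‖ ≤ (1 + C h)‖v‖` (`int`, `mean`, `var`: `(E‖A v‖)² ≤ E‖A v‖² = ‖v‖² + E‖A v - v‖²`), with the shift `‖A(ω + c e0) v‖ ≤ ‖A ω v‖ + C √h |c|(‖v‖ + ‖A ω v‖)`, `|c| ≤ 1/(C √n1)`: `E ≤ (1 + C h + 3 C a) ‖v‖`. `‖J v‖ ≤ ‖v‖` (`norm_JV`).
  So `E‖G_{j+1} x‖ ≤ (1 + C h + 3C a 1{x = z, j < n1}) E‖G_j x‖ + k h cpl(E‖G_j‖) x` (independence of `ω_j` and `G_j`), and by induction `E‖G_n x‖ ≤ exp(C n h + 3 C a min(n,n1) + r n h) U x`; `a n1 = √(n1 h) ≤ 1`.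
* `fm2`: `D = ‖G^{φ'} - G^φ‖`: `E D_{j+1} x ≤ (1 + C h + 3 C a 1{x=z,j<n1}) E D_j x + k h cpl(E D_j) x + 1{x=z,j<n1} C a |φ'-φ| E‖G^φ_j z‖` (`JV_nonexp`, `sh2` with base noise `ω + φ c e0`), `E‖G_j z‖ ≤ C e^{r j h} U z`. Induction: `E D_n x ≤ exp(C n h + 3 C a min(n,n1) + (r + r') n h) · C a |φ'-φ| min(n,n1) U z · W x`.
* `cap_max`: `Φ_j = Σ_v w v ‖(tr j).1 v‖`. One step: `E Φ_{j+1} ≤ (1 + C h + r h) Φ_j` (`u1`, `E e^b ≤ (E e^{2b})^{1/2}`, `Σ_v w v cpl u v = Σ_v u v cpl w v` by symmetry of `nb`). Maximal inequality by induction on `n` (`lintegral_cons`): `P(∃ j ≤ n, y ≤ Φ_j) ≤ (1+(C+r)h)^n Φ_0/y`.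
-/

open MeasureTheory ProbabilityTheory
open scoped ENNReal

namespace DynC

open Dyn

section

variable {V H : Type} [NormedAddCommGroup V] [InnerProductSpace ℝ V] [MeasurableSpace V]
  [BorelSpace V] [SecondCountableTopology V]
  [NormedAddCommGroup H] [InnerProductSpace ℝ H] [MeasurableSpace H] [BorelSpace H]
  [SecondCountableTopology H]

/-! ### coupling -/

private theorem FMo_coup_norm {ι : Type} [Fintype ι] {d : ℕ} (net : Net ι d) (G : ι → V) (x : ι) :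
    ‖coupV net G x‖ ≤ cpl net (nrm G) x := by
  unfold coupV cpl nrm
  refine (norm_sub_le _ _).trans ?_
  refine add_le_add (norm_sum_le _ _) ?_
  rw [norm_smul, Real.norm_of_nonneg (Nat.cast_nonneg _)]

private theorem FMo_coup_sub {ι : Type} [Fintype ι] {d : ℕ} (net : Net ι d) (G G' : ι → V) (x : ι) :
    coupV net G x - coupV net G' x = coupV net (fun y => G y - G' y) x := by
  unfold coupV
  rw [Finset.sum_sub_distrib, smul_sub]
  abel

/-! ### one site -/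

private theorem FMo_complete (M : MN V H) : CompleteSpace V := by
  by_contra hV
  have h0 : ∀ v : V, v = 0 := by
    intro v
    have h1 := M.mean (1 / 2) v (by norm_num) (by norm_num)
    rw [integral, dif_neg hV] at h1
    exact h1.symm
  apply hV
  haveI : Subsingleton V := ⟨fun a b => by rw [h0 a, h0 b]⟩
  infer_instance

private theorem FMo_mAv (M : MN V H) (h : ℝ) (v : V) : Measurable fun ω : H => M.A h ω v :=
  (M.mA h).comp (measurable_id.prodMk measurable_const)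

private theorem FMo_pt (v w : V) (hv : 0 < ‖v‖) :
    ‖w‖ ≤ ‖v‖ + inner ℝ v (w - v) / ‖v‖ + ‖w - v‖ ^ 2 / (2 * ‖v‖) := by
  have h1 : ‖w‖ ^ 2 = ‖v‖ ^ 2 + 2 * inner ℝ v (w - v) + ‖w - v‖ ^ 2 := by
    have := norm_add_sq_real v (w - v)
    rw [add_sub_cancel] at this
    exact this
  have h2 : ‖v‖ + inner ℝ v (w - v) / ‖v‖ + ‖w - v‖ ^ 2 / (2 * ‖v‖) =
      (‖v‖ ^ 2 + ‖w‖ ^ 2) / (2 * ‖v‖) := by
    rw [h1]
    field_simp
    ring
  rw [h2, le_div_iff₀ (by positivity)]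
  nlinarith [sq_nonneg (‖v‖ - ‖w‖)]

private theorem FMo_m1 (M : MN V H) (h : ℝ) (h0 : 0 < h) (h1 : h < 1) (v : V) :
    ∫⁻ ω, ENNReal.ofReal ‖M.A h ω v‖ ∂M.γ ≤ ENNReal.ofReal ((1 + M.C * h) * ‖v‖) := by
  haveI := FMo_complete M
  rcases eq_or_ne v 0 with rfl | hv
  · simp
  have hv0 : 0 < ‖v‖ := norm_pos_iff.mpr hv
  have hC := M.C1
  have hint := M.int h v h0 h1
  have hm := FMo_mAv M h v
  have hi1 : Integrable (fun ω => M.A h ω v - v) M.γ := hint.sub (integrable_const v)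
  have hvar := M.var h v h0 h1
  have hi2 : Integrable (fun ω => ‖M.A h ω v - v‖ ^ 2) M.γ := by
    refine ⟨((hm.sub_const v).norm.pow_const 2).aestronglyMeasurable, ?_⟩
    rw [hasFiniteIntegral_iff_ofReal (Filter.Eventually.of_forall fun ω => sq_nonneg _)]
    exact lt_of_le_of_lt hvar ENNReal.ofReal_lt_top
  have hi3 : Integrable (fun ω => inner ℝ v (M.A h ω v - v)) M.γ := hi1.const_inner v
  have hmean : ∫ ω, inner ℝ v (M.A h ω v - v) ∂M.γ = 0 := by
    rw [integral_inner hi1, integral_sub hint (integrable_const v), M.mean h v h0 h1]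
    simp
  have hsq : ∫ ω, ‖M.A h ω v - v‖ ^ 2 ∂M.γ ≤ M.C * h * ‖v‖ ^ 2 := by
    rw [integral_eq_lintegral_of_nonneg_ae (Filter.Eventually.of_forall fun ω => sq_nonneg _) hi2.1]
    exact ENNReal.toReal_le_of_le_ofReal (by positivity) hvar
  have hle : ∫ ω, ‖M.A h ω v‖ ∂M.γ ≤ (1 + M.C * h) * ‖v‖ := by
    have h2 : ∫ ω, ‖M.A h ω v‖ ∂M.γ ≤ ∫ ω, (‖v‖ + inner ℝ v (M.A h ω v - v) / ‖v‖ +
        ‖M.A h ω v - v‖ ^ 2 / (2 * ‖v‖)) ∂M.γ := by
      refine integral_mono hint.norm (((integrable_const _).add (hi3.div_const _)).add (hi2.div_const _)) ?_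
      intro ω
      exact FMo_pt v _ hv0
    refine h2.trans ?_
    have e1 : ∫ ω, (‖v‖ + inner ℝ v (M.A h ω v - v) / ‖v‖ +
        ‖M.A h ω v - v‖ ^ 2 / (2 * ‖v‖)) ∂M.γ =
        ‖v‖ + (∫ ω, ‖M.A h ω v - v‖ ^ 2 ∂M.γ) / (2 * ‖v‖) := by
      have f1 : ∫ ω, (‖v‖ + inner ℝ v (M.A h ω v - v) / ‖v‖ +
          ‖M.A h ω v - v‖ ^ 2 / (2 * ‖v‖)) ∂M.γ =
          ∫ ω, (‖v‖ + inner ℝ v (M.A h ω v - v) / ‖v‖) ∂M.γ +
            ∫ ω, ‖M.A h ω v - v‖ ^ 2 / (2 * ‖v‖) ∂M.γ :=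
        integral_add ((integrable_const _).add (hi3.div_const _)) (hi2.div_const _)
      have f2 : ∫ ω, (‖v‖ + inner ℝ v (M.A h ω v - v) / ‖v‖) ∂M.γ =
          ∫ _ω, ‖v‖ ∂M.γ + ∫ ω, inner ℝ v (M.A h ω v - v) / ‖v‖ ∂M.γ :=
        integral_add (integrable_const _) (hi3.div_const _)
      rw [f1, f2, integral_div, integral_div, hmean]
      simp
    rw [e1]
    have h3 : (∫ ω, ‖M.A h ω v - v‖ ^ 2 ∂M.γ) / (2 * ‖v‖) ≤ M.C * h * ‖v‖ ^ 2 / (2 * ‖v‖) :=
      div_le_div_of_nonneg_right hsq (by positivity)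
    have h4 : M.C * h * ‖v‖ ^ 2 / (2 * ‖v‖) = M.C * h * ‖v‖ / 2 := by
      field_simp
    rw [h4] at h3
    have h5 : 0 ≤ M.C * h * ‖v‖ := by positivity
    nlinarith only [h3, h5]
  rw [← ofReal_integral_eq_lintegral_ofReal hint.norm (Filter.Eventually.of_forall fun ω => norm_nonneg _)]
  exact ENNReal.ofReal_le_ofReal hle

private theorem FMo_m2 (M : MN V H) (h : ℝ) (h0 : 0 < h) (h1 : h < 1) (v : V) (c a : ℝ)
    (hc : |c| ≤ 1) (ha : M.C * Real.sqrt h * |c| ≤ a) :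
    ∫⁻ ω, ENNReal.ofReal ‖M.A h (ω + c • M.e0) v‖ ∂M.γ ≤
      ENNReal.ofReal ((1 + M.C * h + a * (2 + M.C)) * ‖v‖) := by
  have hC := M.C1
  have hC0 : 0 ≤ M.C := by linarith
  have ha0 : 0 ≤ a := le_trans (by positivity) ha
  have hn := norm_nonneg v
  have hpt : ∀ ω : H, ENNReal.ofReal ‖M.A h (ω + c • M.e0) v‖ ≤
      ENNReal.ofReal (1 + a) * ENNReal.ofReal ‖M.A h ω v‖ + ENNReal.ofReal (a * ‖v‖) := by
    intro ω
    rw [← ENNReal.ofReal_mul (by linarith), ← ENNReal.ofReal_add (by positivity) (by positivity)]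
    refine ENNReal.ofReal_le_ofReal ?_
    have h2 := M.sh2 h ω c v h0 h1 hc
    have h3 : ‖M.A h (ω + c • M.e0) v‖ ≤ ‖M.A h ω v‖ + ‖M.A h (ω + c • M.e0) v - M.A h ω v‖ := by
      have := norm_add_le (M.A h ω v) (M.A h (ω + c • M.e0) v - M.A h ω v)
      rwa [add_sub_cancel] at this
    have h4 : M.C * Real.sqrt h * |c| * (‖v‖ + ‖M.A h ω v‖) ≤ a * (‖v‖ + ‖M.A h ω v‖) :=
      mul_le_mul_of_nonneg_right ha (by positivity)
    nlinarith
  refine (lintegral_mono hpt).trans ?_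
  rw [lintegral_add_right _ measurable_const, lintegral_const_mul' _ _ ENNReal.ofReal_ne_top,
    lintegral_const, measure_univ, mul_one]
  have h5 := FMo_m1 M h h0 h1 v
  refine (add_le_add_left (mul_le_mul_right h5 _) _).trans ?_
  rw [← ENNReal.ofReal_mul (by linarith), ← ENNReal.ofReal_add (by positivity) (by positivity)]
  refine ENNReal.ofReal_le_ofReal ?_
  have h6 : 0 ≤ a * M.C * ‖v‖ * (1 - h) := by
    have : 0 ≤ 1 - h := by linarith
    positivity
  nlinarith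

private theorem FMo_m3 (M : MN V H) (h : ℝ) (h0 : 0 < h) (h1 : h < 1) (v : V) (c0 c a0 a : ℝ)
    (hc0 : |c0| ≤ 1) (ha0 : M.C * Real.sqrt h * |c0| ≤ a0) (ha1 : a0 ≤ 1)
    (hc : |c| ≤ 1) (ha : M.C * Real.sqrt h * |c| ≤ a) :
    ∫⁻ ω, ENNReal.ofReal ‖M.A h (ω + (c0 + c) • M.e0) v - M.A h (ω + c0 • M.e0) v‖ ∂M.γ ≤
      ENNReal.ofReal (a * (4 + 2 * M.C) * ‖v‖) := by
  have hC := M.C1
  have hC0 : 0 ≤ M.C := by linarith
  have haa : 0 ≤ a := le_trans (by positivity) ha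
  have ha00 : 0 ≤ a0 := le_trans (by positivity) ha0
  have hn := norm_nonneg v
  have hpt : ∀ ω : H, ENNReal.ofReal ‖M.A h (ω + (c0 + c) • M.e0) v - M.A h (ω + c0 • M.e0) v‖ ≤
      ENNReal.ofReal a * ENNReal.ofReal ‖M.A h (ω + c0 • M.e0) v‖ + ENNReal.ofReal (a * ‖v‖) := by
    intro ω
    rw [← ENNReal.ofReal_mul (by linarith), ← ENNReal.ofReal_add (by positivity) (by positivity)]
    refine ENNReal.ofReal_le_ofReal ?_
    have h2 := M.sh2 h (ω + c0 • M.e0) c v h0 h1 hc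
    rw [add_assoc, ← add_smul] at h2
    have h4 : M.C * Real.sqrt h * |c| * (‖v‖ + ‖M.A h (ω + c0 • M.e0) v‖) ≤
        a * (‖v‖ + ‖M.A h (ω + c0 • M.e0) v‖) :=
      mul_le_mul_of_nonneg_right ha (by positivity)
    nlinarith
  refine (lintegral_mono hpt).trans ?_
  rw [lintegral_add_right _ measurable_const, lintegral_const_mul' _ _ ENNReal.ofReal_ne_top,
    lintegral_const, measure_univ, mul_one]
  have h5 := FMo_m2 M h h0 h1 v c0 a0 hc0 ha0
  refine (add_le_add_left (mul_le_mul_right h5 _) _).trans ?_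
  rw [← ENNReal.ofReal_mul haa, ← ENNReal.ofReal_add (by positivity) (by positivity)]
  refine ENNReal.ofReal_le_ofReal ?_
  have h6 : a * ((1 + M.C * h + a0 * (2 + M.C)) * ‖v‖) ≤ a * ((1 + M.C * 1 + 1 * (2 + M.C)) * ‖v‖) := by
    gcongr
  nlinarith

/-! ### Markov property in mean -/

private theorem FMo_markov {St X : Type} [MeasurableSpace St] [MeasurableSpace X] {μ : Measure X}
    [IsProbabilityMeasure μ] (g : (ℕ → X) → St) (hg : Measurable g) (n : ℕ) (hd : Dep n g)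
    (Ψ : St × X → ℝ≥0∞) (hΨ : Measurable Ψ) :
    ∫⁻ ω, Ψ (g ω, ω n) ∂(PI μ) = ∫⁻ ω, ∫⁻ ξ, Ψ (g ω, ξ) ∂μ ∂(PI μ) := by
  have h0 := lintegral_glue (μ := μ) n (fun ω => Ψ (g ω, ω n)) (hΨ.comp (hg.prodMk (measurable_pi_apply n)))
  rw [h0]
  refine lintegral_congr fun a => ?_
  have h1 : ∀ b : ℕ → X, Ψ (g (glue n a b), glue n a b n) = Ψ (g a, b 0) := by
    intro b
    have e1 : g (glue n a b) = g a := by
      refine hd _ _ fun i hi => ?_
      unfold glue
      rw [if_pos hi]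
    have e2 : glue n a b n = b 0 := by
      unfold glue
      rw [if_neg (lt_irrefl n), Nat.sub_self]
    rw [e1, e2]
  rw [lintegral_congr h1]
  have h2 := lintegral_map (μ := PI μ) (f := fun ξ => Ψ (g a, ξ))
    (hΨ.comp (measurable_const.prodMk measurable_id)) (measurable_pi_apply (0 : ℕ))
  rw [map_coord] at h2
  exact h2.symm

private theorem FMo_site (M : MN V H) (d L : ℕ) (x : boxS d L) (f : H → ℝ≥0∞) (hf : Measurable f) :
    ∫⁻ ξ, f (ξ x) ∂(M.mu d L) = ∫⁻ η, f η ∂M.γ :=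
  (measurePreserving_eval (fun _ : boxS d L => M.γ) x).lintegral_comp hf

/-! ### recursion -/

private theorem FMo_rec {ι : Type} [Fintype ι] {d : ℕ} (net : Net ι d) (k h r : ℝ) (hk : 0 ≤ k)
    (hh : 0 ≤ h) (hr : 0 ≤ r) (τ κ : ℕ → ℝ) (hτ : ∀ n, 0 ≤ τ n) (hκ : ∀ n, 0 ≤ κ n) (U : ι → ℝ)
    (hU : ∀ x, 0 ≤ U x) (hU2 : ∀ x, k * cpl net U x ≤ r * U x) (e : ℕ → ι → ℝ≥0∞) (B : ℝ)
    (hB : 0 ≤ B) (he0 : ∀ x, e 0 x ≤ ENNReal.ofReal (B * U x))
    (he : ∀ n x, e (n + 1) x ≤ ENNReal.ofReal (1 + τ n) * e n x + ENNReal.ofReal (k * h) *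
      (∑ y ∈ net.nb x, e n y + ((2 * d : ℕ) : ℝ≥0∞) * e n x) + ENNReal.ofReal (κ n * U x))
    (b : ℕ → ℝ) (hb0 : B ≤ b 0) (hb : ∀ n, (1 + τ n + r * h) * b n + κ n ≤ b (n + 1)) :
    ∀ n x, e n x ≤ ENNReal.ofReal (b n * U x) := by
  have hbn : ∀ n, 0 ≤ b n := by
    intro n
    induction n with
    | zero => exact hB.trans hb0
    | succ n ih =>
      refine le_trans ?_ (hb n)
      have := hτ n
      have := hκ n
      positivity
  intro n
  induction n with
  | zero =>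
    intro x
    exact (he0 x).trans (ENNReal.ofReal_le_ofReal (mul_le_mul_of_nonneg_right hb0 (hU x)))
  | succ n ih =>
    intro x
    refine (he n x).trans ?_
    have hτn := hτ n
    have hκn := hκ n
    have hbb := hbn n
    have h1 : ∑ y ∈ net.nb x, e n y + ((2 * d : ℕ) : ℝ≥0∞) * e n x ≤ ENNReal.ofReal (b n * cpl net U x) := by
      have h2 : ∑ y ∈ net.nb x, e n y ≤ ENNReal.ofReal (∑ y ∈ net.nb x, b n * U y) := by
        rw [ENNReal.ofReal_sum_of_nonneg fun y _ => mul_nonneg hbb (hU y)]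
        exact Finset.sum_le_sum fun y _ => ih y
      have h3 : ((2 * d : ℕ) : ℝ≥0∞) * e n x ≤ ENNReal.ofReal (((2 * d : ℕ) : ℝ) * (b n * U x)) := by
        rw [ENNReal.ofReal_mul (Nat.cast_nonneg _), ENNReal.ofReal_natCast]
        exact mul_le_mul_right (ih x) _
      refine (add_le_add h2 h3).trans ?_
      rw [← ENNReal.ofReal_add (Finset.sum_nonneg fun y _ => mul_nonneg hbb (hU y))
        (mul_nonneg (Nat.cast_nonneg _) (mul_nonneg hbb (hU x)))]
      refine ENNReal.ofReal_le_ofReal (le_of_eq ?_)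
      unfold cpl
      rw [← Finset.mul_sum]
      ring
    have hUx := hU x
    have hc : 0 ≤ cpl net U x := by
      unfold cpl
      exact add_nonneg (Finset.sum_nonneg fun y _ => hU y) (mul_nonneg (Nat.cast_nonneg _) (hU x))
    refine (add_le_add (add_le_add (mul_le_mul_right (ih x) _) (mul_le_mul_right h1 _)) le_rfl).trans ?_
    rw [← ENNReal.ofReal_mul (by linarith), ← ENNReal.ofReal_mul (by positivity),
      ← ENNReal.ofReal_add (by positivity) (by positivity), ← ENNReal.ofReal_add (by positivity) (by positivity)]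
    refine ENNReal.ofReal_le_ofReal ?_
    have h4 := mul_le_mul_of_nonneg_right (hb n) hUx
    have h5 := mul_le_mul_of_nonneg_left (hU2 x) (mul_nonneg hh hbb)
    nlinarith

/-- shift at the site `z`, first `n1` steps -/
noncomputable def shz (M : MN V H) {d L : ℕ} (z : boxS d L) (n1 : ℕ) : ℕ → boxS d L → H :=
  fun j x => open Classical in
    if x = z ∧ j < n1 then (1 / (M.C * Real.sqrt n1)) • M.e0 else 0

private theorem FMo_meas_shift {ι : Type} [Fintype ι] (s : ℕ → ι → H) :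
    Measurable (fun ω : ℕ → ι → H => ω + s) := by
  rw [measurable_pi_iff]
  intro j
  rw [measurable_pi_iff]
  intro x
  have h1 : Measurable fun ω : ℕ → ι → H => ω j x := (measurable_pi_apply x).comp (measurable_pi_apply j)
  exact h1.add_const (s j x)

private theorem FMo_sum_if (n n1 : ℕ) (c : ℝ) :
    ∑ j ∈ Finset.range n, (if j < n1 then c else 0) = (min n n1 : ℕ) * c := by
  induction n with
  | zero => simp
  | succ n ih =>
    rw [Finset.sum_range_succ, ih]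
    by_cases h : n < n1
    · rw [if_pos h, min_eq_left h.le, min_eq_left (Nat.succ_le_of_lt h)]
      push_cast
      ring
    · rw [if_neg h, min_eq_right (not_lt.1 h), min_eq_right (le_trans (not_lt.1 h) (Nat.le_succ n)), add_zero]

/-- state with shifted noise -/
noncomputable def trs (M : MN V H) {d : ℕ} (β k h : ℝ) (L : ℕ) (G : boxS d L → V)
    (z : boxS d L) (n1 : ℕ) (φ : ℝ) (ω : ℕ → boxS d L → H) : ℕ → boxS d L → V :=
  traj (M.st β k h L) G (ω + φ • shz M z n1)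

theorem shz_sum (M : MN V H) {d L : ℕ} (z : boxS d L) (n1 : ℕ) :
    ∑ j ∈ Finset.range n1, ∑ x, ‖shz M z n1 j x‖ ^ 2 ≤ 1 := by
  classical
  have hC := M.C1
  have h1 : ∀ j ∈ Finset.range n1, ∑ x, ‖shz M z n1 j x‖ ^ 2 ≤ 1 / (n1 : ℝ) := by
    intro j hj
    have hj' := Finset.mem_range.1 hj
    have hn : (0 : ℝ) < n1 := by exact_mod_cast lt_of_le_of_lt (Nat.zero_le j) hj'
    rw [Finset.sum_eq_single z]
    · unfold shz
      rw [if_pos ⟨rfl, hj'⟩, norm_smul, mul_pow, Real.norm_eq_abs, sq_abs, div_pow, mul_pow,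
        Real.sq_sqrt hn.le, one_pow, div_mul_eq_mul_div, one_mul, div_le_div_iff₀ (by positivity) hn]
      have h2 : ‖M.e0‖ ^ 2 ≤ M.C ^ 2 := pow_le_pow_left₀ (norm_nonneg _) M.e0n 2
      nlinarith
    · intro x _ hx
      unfold shz
      rw [if_neg fun h => hx h.1]
      simp
    · intro h
      exact absurd (Finset.mem_univ z) h
  refine (Finset.sum_le_sum h1).trans ?_
  rw [Finset.sum_const, Finset.card_range, nsmul_eq_mul]
  by_cases hn : n1 = 0
  · subst hn; simp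
  · rw [mul_one_div_cancel (by exact_mod_cast hn)]

theorem measurable_trs (M : MN V H) {d : ℕ} (β k h : ℝ) (L : ℕ) (G : boxS d L → V)
    (z : boxS d L) (n1 : ℕ) (φ : ℝ) (n : ℕ) :
    Measurable (fun ω : ℕ → boxS d L → H => trs M β k h L G z n1 φ ω n) := by
  unfold trs
  exact (measurable_traj (M.st β k h L) (M.measurable_st β k h L) n).comp
    (measurable_const.prodMk (FMo_meas_shift (φ • shz M z n1)))

/-- size of the shift -/
private noncomputable def FMo_s (M : MN V H) {d L : ℕ} (z : boxS d L) (n1 j : ℕ) (x : boxS d L) : ℝ :=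
  open Classical in if x = z ∧ j < n1 then 1 / (M.C * Real.sqrt n1) else 0

open Classical in
/-- bound of the effect of the shift -/
private noncomputable def FMo_a {d L : ℕ} (h : ℝ) (z : boxS d L) (n1 j : ℕ) (x : boxS d L) : ℝ :=
  if x = z ∧ j < n1 then Real.sqrt h / Real.sqrt n1 else 0

private theorem FMo_shz_eq (M : MN V H) {d L : ℕ} (z : boxS d L) (n1 j : ℕ) (x : boxS d L) :
    shz M z n1 j x = FMo_s M z n1 j x • M.e0 := by
  unfold shz FMo_s
  split_ifs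
  · rfl
  · rw [zero_smul]

private theorem FMo_a_le {d L : ℕ} {h : ℝ} (h0 : 0 < h) (h1 : h < 1) (z : boxS d L) {n1 : ℕ} (hn : 1 ≤ n1)
    (j : ℕ) (x : boxS d L) : 0 ≤ FMo_a h z n1 j x ∧ FMo_a h z n1 j x ≤ 1 ∧
      FMo_a h z n1 j x ≤ if j < n1 then Real.sqrt h / Real.sqrt n1 else 0 := by
  have hn' : (1 : ℝ) ≤ n1 := by exact_mod_cast hn
  have h2 : 0 ≤ Real.sqrt h / Real.sqrt n1 := by positivity
  have h3 : Real.sqrt h / Real.sqrt n1 ≤ 1 := by
    rw [div_le_one (Real.sqrt_pos.2 (by linarith))]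
    exact Real.sqrt_le_sqrt (by linarith)
  unfold FMo_a
  split_ifs with h4 h5 h5
  · exact ⟨h2, h3, le_refl _⟩
  · exact absurd h4.2 h5
  · exact ⟨le_refl _, zero_le_one, h2⟩
  · exact ⟨le_refl _, zero_le_one, le_refl _⟩

private theorem FMo_s_le (M : MN V H) {d L : ℕ} {h : ℝ} (z : boxS d L) {n1 : ℕ}
    (hn : 1 ≤ n1) (j : ℕ) (x : boxS d L) (φ : ℝ) (hφ : 0 ≤ φ) :
    |φ * FMo_s M z n1 j x| ≤ φ ∧
      M.C * Real.sqrt h * |φ * FMo_s M z n1 j x| = φ * FMo_a h z n1 j x := by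
  have hC := M.C1
  have hn' : (1 : ℝ) ≤ n1 := by exact_mod_cast hn
  have h2 : 1 ≤ Real.sqrt n1 := by rw [Real.one_le_sqrt]; exact hn'
  unfold FMo_s FMo_a
  split_ifs with h4
  · have h3 : 0 < M.C * Real.sqrt n1 := by positivity
    have h5 : 0 ≤ 1 / (M.C * Real.sqrt n1) := by positivity
    have h6 : 1 / (M.C * Real.sqrt n1) ≤ 1 := by
      rw [div_le_one h3]
      nlinarith only [hC, h2]
    rw [abs_of_nonneg (mul_nonneg hφ h5)]
    refine ⟨by nlinarith only [hφ, h6], ?_⟩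
    have h7 : Real.sqrt n1 ≠ 0 := by positivity
    have h8 : M.C ≠ 0 := by positivity
    field_simp
  · rw [mul_zero, abs_zero, mul_zero]
    exact ⟨hφ, rfl⟩

/-! ### one step in mean -/

private theorem FMo_ofReal_cpl {d L : ℕ} (T : boxS d L → V) (x : boxS d L) :
    ENNReal.ofReal (cpl (boxNet d L) (nrm T) x) =
      ∑ y ∈ (boxNet d L).nb x, ENNReal.ofReal ‖T y‖ + ((2 * d : ℕ) : ℝ≥0∞) * ENNReal.ofReal ‖T x‖ := by
  unfold cpl nrm
  rw [ENNReal.ofReal_add (Finset.sum_nonneg fun y _ => norm_nonneg _)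
    (mul_nonneg (Nat.cast_nonneg _) (norm_nonneg _)),
    ENNReal.ofReal_sum_of_nonneg fun y _ => norm_nonneg _, ENNReal.ofReal_mul (Nat.cast_nonneg _),
    ENNReal.ofReal_natCast]

private theorem FMo_cpl_nonneg {d L : ℕ} (T : boxS d L → V) (x : boxS d L) :
    0 ≤ cpl (boxNet d L) (nrm T) x := by
  unfold cpl nrm
  exact add_nonneg (Finset.sum_nonneg fun y _ => norm_nonneg _)
    (mul_nonneg (Nat.cast_nonneg _) (norm_nonneg _))

private theorem FMo_step1 (M : MN V H) {d : ℕ} {β : ℝ} (hβ : 0 < β) (k h : ℝ) (hk : 0 < k) (h0 : 0 < h)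
    (h1 : h < 1) (L : ℕ) (T : boxS d L → V) (s : boxS d L → ℝ) (x : boxS d L) (a : ℝ)
    (hs : |s x| ≤ 1) (ha : M.C * Real.sqrt h * |s x| ≤ a) :
    ∫⁻ ξ, ENNReal.ofReal ‖M.st β k h L T (fun y => ξ y + s y • M.e0) x‖ ∂(M.mu d L) ≤
      ENNReal.ofReal (1 + M.C * h + a * (2 + M.C)) * ENNReal.ofReal ‖T x‖ + ENNReal.ofReal (k * h) *
        (∑ y ∈ (boxNet d L).nb x, ENNReal.ofReal ‖T y‖ + ((2 * d : ℕ) : ℝ≥0∞) * ENNReal.ofReal ‖T x‖) := by
  have hC := M.C1
  have haa : 0 ≤ a := le_trans (by positivity) ha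
  rw [← FMo_ofReal_cpl, ← ENNReal.ofReal_mul (by positivity)]
  have hpt : ∀ ξ : boxS d L → H, ENNReal.ofReal ‖M.st β k h L T (fun y => ξ y + s y • M.e0) x‖ ≤
      ENNReal.ofReal ‖M.A h (ξ x + s x • M.e0) (T x)‖ +
        ENNReal.ofReal (k * h * cpl (boxNet d L) (nrm T) x) := by
    intro ξ
    rw [← ENNReal.ofReal_add (norm_nonneg _) (mul_nonneg (by positivity) (FMo_cpl_nonneg T x))]
    refine ENNReal.ofReal_le_ofReal ?_
    unfold MN.st
    refine (norm_add_le _ _).trans (add_le_add ?_ ?_)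
    · rw [norm_JV hβ h0.le]
      exact psi_le hβ h0.le (norm_nonneg _)
    · rw [norm_smul, Real.norm_of_nonneg (by positivity)]
      exact mul_le_mul_of_nonneg_left (FMo_coup_norm _ _ _) (by positivity)
  refine (lintegral_mono hpt).trans ?_
  rw [lintegral_add_right _ measurable_const, lintegral_const, measure_univ, mul_one]
  refine add_le_add ?_ (ENNReal.ofReal_mul (by positivity)).le
  have hmeas : Measurable fun η : H => ENNReal.ofReal ‖M.A h (η + s x • M.e0) (T x)‖ :=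
    ((FMo_mAv M h (T x)).comp (measurable_id.add_const (s x • M.e0))).norm.ennreal_ofReal
  rw [FMo_site M d L x (fun η => ENNReal.ofReal ‖M.A h (η + s x • M.e0) (T x)‖) hmeas]
  exact FMo_m2 M h h0 h1 (T x) (s x) a hs ha

private theorem FMo_step2 (M : MN V H) {d : ℕ} {β : ℝ} (hβ : 0 < β) (k h : ℝ) (hk : 0 < k) (h0 : 0 < h)
    (h1 : h < 1) (L : ℕ) (T' T : boxS d L → V) (s c : boxS d L → ℝ) (x : boxS d L) (a a0 a' : ℝ)
    (hs' : |s x + c x| ≤ 1) (ha : M.C * Real.sqrt h * |s x + c x| ≤ a)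
    (hs : |s x| ≤ 1) (ha0 : M.C * Real.sqrt h * |s x| ≤ a0) (ha1 : a0 ≤ 1)
    (hc : |c x| ≤ 1) (ha' : M.C * Real.sqrt h * |c x| ≤ a') :
    ∫⁻ ξ, ENNReal.ofReal ‖M.st β k h L T' (fun y => ξ y + (s y + c y) • M.e0) x -
        M.st β k h L T (fun y => ξ y + s y • M.e0) x‖ ∂(M.mu d L) ≤
      ENNReal.ofReal (1 + M.C * h + a * (2 + M.C)) * ENNReal.ofReal ‖T' x - T x‖ + ENNReal.ofReal (k * h) *
        (∑ y ∈ (boxNet d L).nb x, ENNReal.ofReal ‖T' y - T y‖ +
          ((2 * d : ℕ) : ℝ≥0∞) * ENNReal.ofReal ‖T' x - T x‖) +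
        ENNReal.ofReal (a' * (4 + 2 * M.C)) * ENNReal.ofReal ‖T x‖ := by
  have hC := M.C1
  have haa : 0 ≤ a := le_trans (by positivity) ha
  have haa' : 0 ≤ a' := le_trans (by positivity) ha'
  set D : boxS d L → V := fun y => T' y - T y with hD
  have e0 := FMo_ofReal_cpl D x
  rw [hD] at e0
  simp only at e0
  rw [← e0, ← hD, ← ENNReal.ofReal_mul (by positivity)]
  have hpt : ∀ ξ : boxS d L → H, ENNReal.ofReal ‖M.st β k h L T' (fun y => ξ y + (s y + c y) • M.e0) x -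
        M.st β k h L T (fun y => ξ y + s y • M.e0) x‖ ≤
      ENNReal.ofReal ‖M.A h (ξ x + (s x + c x) • M.e0) (D x)‖ +
        ENNReal.ofReal (k * h * cpl (boxNet d L) (nrm D) x) +
        ENNReal.ofReal ‖M.A h (ξ x + (s x + c x) • M.e0) (T x) - M.A h (ξ x + s x • M.e0) (T x)‖ := by
    intro ξ
    have hcn := FMo_cpl_nonneg D x
    rw [← ENNReal.ofReal_add (norm_nonneg _) (mul_nonneg (by positivity) hcn),
      ← ENNReal.ofReal_add (add_nonneg (norm_nonneg _) (mul_nonneg (by positivity) hcn)) (norm_nonneg _)]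
    refine ENNReal.ofReal_le_ofReal ?_
    unfold MN.st
    have e1 : JV β h (M.A h (ξ x + (s x + c x) • M.e0) (T' x)) + (k * h) • coupV (boxNet d L) T' x -
        (JV β h (M.A h (ξ x + s x • M.e0) (T x)) + (k * h) • coupV (boxNet d L) T x) =
        (JV β h (M.A h (ξ x + (s x + c x) • M.e0) (T' x)) - JV β h (M.A h (ξ x + s x • M.e0) (T x))) +
          (k * h) • coupV (boxNet d L) D x := by
      rw [← FMo_coup_sub, smul_sub]
      abel
    rw [e1]
    refine (norm_add_le _ _).trans ?_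
    have h2 : ‖JV β h (M.A h (ξ x + (s x + c x) • M.e0) (T' x)) - JV β h (M.A h (ξ x + s x • M.e0) (T x))‖ ≤
        ‖M.A h (ξ x + (s x + c x) • M.e0) (D x)‖ +
          ‖M.A h (ξ x + (s x + c x) • M.e0) (T x) - M.A h (ξ x + s x • M.e0) (T x)‖ := by
      refine (JV_nonexp hβ h0.le _ _).trans ?_
      have e2 : M.A h (ξ x + (s x + c x) • M.e0) (T' x) - M.A h (ξ x + s x • M.e0) (T x) =
          M.A h (ξ x + (s x + c x) • M.e0) (D x) +
            (M.A h (ξ x + (s x + c x) • M.e0) (T x) - M.A h (ξ x + s x • M.e0) (T x)) := by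
        rw [hD]
        simp only
        rw [map_sub]
        abel
      rw [e2]
      exact norm_add_le _ _
    have h3 : ‖(k * h) • coupV (boxNet d L) D x‖ ≤ k * h * cpl (boxNet d L) (nrm D) x := by
      rw [norm_smul, Real.norm_of_nonneg (by positivity)]
      exact mul_le_mul_of_nonneg_left (FMo_coup_norm _ _ _) (by positivity)
    linarith
  refine (lintegral_mono hpt).trans ?_
  have hm1 : Measurable fun η : H => ENNReal.ofReal ‖M.A h (η + (s x + c x) • M.e0) (D x)‖ :=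
    ((FMo_mAv M h (D x)).comp (measurable_id.add_const ((s x + c x) • M.e0))).norm.ennreal_ofReal
  have hm2 : Measurable fun η : H =>
      ENNReal.ofReal ‖M.A h (η + (s x + c x) • M.e0) (T x) - M.A h (η + s x • M.e0) (T x)‖ :=
    (((FMo_mAv M h (T x)).comp (measurable_id.add_const ((s x + c x) • M.e0))).sub
      ((FMo_mAv M h (T x)).comp (measurable_id.add_const (s x • M.e0)))).norm.ennreal_ofReal
  have hm2' : Measurable fun ξ : boxS d L → H =>
      ENNReal.ofReal ‖M.A h (ξ x + (s x + c x) • M.e0) (T x) - M.A h (ξ x + s x • M.e0) (T x)‖ :=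
    hm2.comp (measurable_pi_apply x)
  rw [lintegral_add_right _ hm2', lintegral_add_right _ measurable_const, lintegral_const, measure_univ, mul_one,
    FMo_site M d L x (fun η => ENNReal.ofReal ‖M.A h (η + (s x + c x) • M.e0) (D x)‖) hm1,
    FMo_site M d L x (fun η =>
      ENNReal.ofReal ‖M.A h (η + (s x + c x) • M.e0) (T x) - M.A h (η + s x • M.e0) (T x)‖) hm2]
  refine add_le_add (add_le_add ?_ (ENNReal.ofReal_mul (by positivity)).le) ?_
  · exact FMo_m2 M h h0 h1 (D x) (s x + c x) a hs' ha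
  · rw [← ENNReal.ofReal_mul (by positivity)]
    exact FMo_m3 M h h0 h1 (T x) (s x) (c x) a0 a' hs ha0 ha1 hc ha'

private theorem FMo_trs_succ (M : MN V H) {d : ℕ} (β k h : ℝ) (L : ℕ) (G : boxS d L → V)
    (z : boxS d L) (n1 : ℕ) (φ : ℝ) (ω : ℕ → boxS d L → H) (n : ℕ) :
    trs M β k h L G z n1 φ ω (n + 1) = M.st β k h L (trs M β k h L G z n1 φ ω n)
      (fun y => ω n y + (φ * FMo_s M z n1 n y) • M.e0) := by
  unfold trs
  show M.st β k h L _ _ = _
  congr 1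
  funext y
  rw [Pi.add_apply, Pi.smul_apply, Pi.add_apply, Pi.smul_apply, FMo_shz_eq, smul_smul]

private theorem FMo_trs_dep (M : MN V H) {d : ℕ} (β k h : ℝ) (L : ℕ) (G : boxS d L → V)
    (z : boxS d L) (n1 : ℕ) (φ : ℝ) (n : ℕ) :
    Dep n (fun ω : ℕ → boxS d L → H => trs M β k h L G z n1 φ ω n) := by
  intro a b hab
  unfold trs
  refine dep_traj (M.st β k h L) G n _ _ fun i hi => ?_
  rw [Pi.add_apply, Pi.add_apply, hab i hi]

private theorem FMo_meas_st (M : MN V H) {d : ℕ} (β k h : ℝ) (L : ℕ) (s : boxS d L → H) (x : boxS d L) :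
    Measurable fun p : (boxS d L → V) × (boxS d L → H) => M.st β k h L p.1 (fun y => p.2 y + s y) x := by
  have h1 : Measurable fun p : (boxS d L → V) × (boxS d L → H) => (fun y => p.2 y + s y : boxS d L → H) := by
    rw [measurable_pi_iff]
    intro y
    have h2 : Measurable fun p : (boxS d L → V) × (boxS d L → H) => p.2 y :=
      (measurable_pi_apply y).comp measurable_snd
    exact h2.add_const (s y)
  exact (measurable_pi_apply x).comp ((M.measurable_st β k h L).comp (measurable_fst.prodMk h1))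

private theorem FMo_lint {Ω ι : Type} [MeasurableSpace Ω] (μ : Measure Ω) (nb : Finset ι) (f : ι → Ω → ℝ≥0∞)
    (hf : ∀ y, Measurable (f y)) (A B D : ℝ≥0∞) (x : ι) :
    ∫⁻ ω, (A * f x ω + B * (∑ y ∈ nb, f y ω + D * f x ω)) ∂μ =
      A * ∫⁻ ω, f x ω ∂μ + B * (∑ y ∈ nb, ∫⁻ ω, f y ω ∂μ + D * ∫⁻ ω, f x ω ∂μ) := by
  have h1 : ∫⁻ ω, B * (∑ y ∈ nb, f y ω + D * f x ω) ∂μ = B * ∫⁻ ω, (∑ y ∈ nb, f y ω + D * f x ω) ∂μ :=
    lintegral_const_mul B ((Finset.measurable_fun_sum _ fun y _ => hf y).add ((hf x).const_mul D))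
  rw [lintegral_add_left ((hf x).const_mul A), lintegral_const_mul A (hf x), h1,
    lintegral_add_left (Finset.measurable_fun_sum _ fun y _ => hf y), lintegral_finsetSum _ fun y _ => hf y,
    lintegral_const_mul D (hf x)]

/-- bound for all times -/
private theorem FMo_fm1 (M : MN V H) (d : ℕ) (β : ℝ) (hβ : 0 < β) (k h : ℝ) (hk : 0 < k) (h0 : 0 < h)
    (h1 : h < 1) (L : ℕ) (z : boxS d L) (n1 : ℕ) (hn1 : 1 ≤ n1) (φ : ℝ) (hφ0 : 0 ≤ φ) (hφ1 : φ ≤ 1)
    (G : boxS d L → V) (U : boxS d L → ℝ) (r : ℝ) (hr : 0 ≤ r) (hU : ∀ x, 0 ≤ U x)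
    (hU2 : ∀ x, k * cpl (boxNet d L) U x ≤ r * U x) (hG : ∀ x, ‖G x‖ ≤ U x) (n : ℕ) (x : boxS d L) :
    ∫⁻ ω, ENNReal.ofReal ‖trs M β k h L G z n1 φ ω n x‖ ∂(PI (M.mu d L)) ≤
      ENNReal.ofReal (Real.exp (∑ j ∈ Finset.range n, (M.C * h +
        (if j < n1 then Real.sqrt h / Real.sqrt n1 else 0) * (2 + M.C)) + r * (n * h)) * U x) := by
  have hC := M.C1
  set τ : ℕ → ℝ := fun j => M.C * h + (if j < n1 then Real.sqrt h / Real.sqrt n1 else 0) * (2 + M.C) with hτ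
  have hτ0 : ∀ j, 0 ≤ τ j := by
    intro j
    rw [hτ]
    simp only
    split_ifs <;> positivity
  have hstep : ∀ (m : ℕ) (y : boxS d L),
      ∫⁻ ω, ENNReal.ofReal ‖trs M β k h L G z n1 φ ω (m + 1) y‖ ∂(PI (M.mu d L)) ≤
      ENNReal.ofReal (1 + τ m) * ∫⁻ ω, ENNReal.ofReal ‖trs M β k h L G z n1 φ ω m y‖ ∂(PI (M.mu d L)) +
        ENNReal.ofReal (k * h) * (∑ y' ∈ (boxNet d L).nb y,
          ∫⁻ ω, ENNReal.ofReal ‖trs M β k h L G z n1 φ ω m y'‖ ∂(PI (M.mu d L)) +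
            ((2 * d : ℕ) : ℝ≥0∞) * ∫⁻ ω, ENNReal.ofReal ‖trs M β k h L G z n1 φ ω m y‖ ∂(PI (M.mu d L))) +
          ENNReal.ofReal (0 * U y) := by
    intro m y
    rw [zero_mul, ENNReal.ofReal_zero, add_zero]
    have hmt : ∀ y' : boxS d L, Measurable fun ω => ENNReal.ofReal ‖trs M β k h L G z n1 φ ω m y'‖ :=
      fun y' => ((measurable_pi_apply y').comp (measurable_trs M β k h L G z n1 φ m)).norm.ennreal_ofReal
    have e1 : ∀ ω : ℕ → boxS d L → H, ENNReal.ofReal ‖trs M β k h L G z n1 φ ω (m + 1) y‖ =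
        (fun p : (boxS d L → V) × (boxS d L → H) => ENNReal.ofReal
          ‖M.st β k h L p.1 (fun y' => p.2 y' + (φ * FMo_s M z n1 m y') • M.e0) y‖)
          (trs M β k h L G z n1 φ ω m, ω m) := fun ω => by rw [FMo_trs_succ]
    rw [lintegral_congr e1, FMo_markov (fun ω => trs M β k h L G z n1 φ ω m)
      (measurable_trs M β k h L G z n1 φ m) m (FMo_trs_dep M β k h L G z n1 φ m) _
      (FMo_meas_st M β k h L (fun y' => (φ * FMo_s M z n1 m y') • M.e0) y).norm.ennreal_ofReal]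
    have hs := FMo_s_le M (h := h) z hn1 m y φ hφ0
    have ha := FMo_a_le h0 h1 z hn1 m y
    refine (lintegral_mono fun ω => FMo_step1 M hβ k h hk h0 h1 L (trs M β k h L G z n1 φ ω m)
      (fun y' => φ * FMo_s M z n1 m y') y (if m < n1 then Real.sqrt h / Real.sqrt n1 else 0)
      (hs.1.trans hφ1) (hs.2.le.trans (le_trans (by nlinarith only [h0, h1, hφ1, ha, ha.1]) ha.2.2))).trans ?_
    rw [FMo_lint (PI (M.mu d L)) ((boxNet d L).nb y)
      (fun y' ω => ENNReal.ofReal ‖trs M β k h L G z n1 φ ω m y'‖) hmt, hτ]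
    simp only
    rw [← add_assoc]
  have hrec := FMo_rec (boxNet d L) k h r hk.le h0.le hr τ (fun _ => 0) hτ0 (fun _ => le_refl _) U hU hU2
    (fun m y => ∫⁻ ω, ENNReal.ofReal ‖trs M β k h L G z n1 φ ω m y‖ ∂(PI (M.mu d L))) 1 zero_le_one
    (fun y => by
      have e2 : ∀ ω : ℕ → boxS d L → H, trs M β k h L G z n1 φ ω 0 y = G y := fun ω => rfl
      simp only [e2]
      rw [lintegral_const, measure_univ, mul_one, one_mul]
      exact ENNReal.ofReal_le_ofReal (hG y)) hstep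
    (fun m => Real.exp (∑ j ∈ Finset.range m, τ j + r * (m * h))) (by simp)
    (fun m => by
      have e3 : ∑ j ∈ Finset.range (m + 1), τ j + r * ((m + 1 : ℕ) * h) =
          (τ m + r * h) + (∑ j ∈ Finset.range m, τ j + r * (m * h)) := by
        rw [Finset.sum_range_succ]; push_cast; ring
      have e4 : Real.exp (∑ j ∈ Finset.range (m + 1), τ j + r * ((m + 1 : ℕ) * h)) =
          Real.exp (τ m + r * h) * Real.exp (∑ j ∈ Finset.range m, τ j + r * (m * h)) := by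
        rw [e3, Real.exp_add]
      refine le_trans ?_ e4.symm.le
      rw [add_zero]
      refine mul_le_mul_of_nonneg_right ?_ (Real.exp_pos _).le
      have := Real.add_one_le_exp (τ m + r * h)
      linarith)
  exact hrec n x

private theorem FMo_T_le {C h : ℝ} (hC : 1 ≤ C) (h0 : 0 < h) (n n1 : ℕ) (hn1 : 1 ≤ n1)
    (hn1h : n1 * h ≤ 1) (hnh : n * h ≤ 1) :
    ∑ j ∈ Finset.range n, (C * h + (if j < n1 then Real.sqrt h / Real.sqrt n1 else 0) * (2 + C)) ≤
      2 * C + 2 ∧ Real.sqrt h / Real.sqrt n1 * (min n n1 : ℕ) ≤ Real.sqrt (n1 * h) ∧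
      Real.sqrt (n1 * h) ≤ 1 := by
  have hn' : (1 : ℝ) ≤ n1 := by exact_mod_cast hn1
  have hsq : 0 < Real.sqrt n1 := Real.sqrt_pos.2 (by linarith)
  have e1 : Real.sqrt h / Real.sqrt n1 * n1 = Real.sqrt (n1 * h) := by
    rw [Real.sqrt_mul (by linarith), div_mul_eq_mul_div, div_eq_iff hsq.ne']
    have e0 : Real.sqrt n1 * Real.sqrt n1 = n1 := Real.mul_self_sqrt (by linarith)
    calc Real.sqrt h * n1 = Real.sqrt h * (Real.sqrt n1 * Real.sqrt n1) := by rw [e0]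
      _ = Real.sqrt n1 * Real.sqrt h * Real.sqrt n1 := by ring
  have h2 : Real.sqrt h / Real.sqrt n1 * (min n n1 : ℕ) ≤ Real.sqrt (n1 * h) := by
    rw [← e1]
    refine mul_le_mul_of_nonneg_left ?_ (by positivity)
    exact_mod_cast min_le_right n n1
  have h3 : Real.sqrt (n1 * h) ≤ 1 := by
    rw [← Real.sqrt_one]
    exact Real.sqrt_le_sqrt hn1h
  refine ⟨?_, h2, h3⟩
  have e5 : ∑ j ∈ Finset.range n, (C * h + (if j < n1 then Real.sqrt h / Real.sqrt n1 else 0) * (2 + C)) =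
      n * (C * h) + ((min n n1 : ℕ) * (Real.sqrt h / Real.sqrt n1)) * (2 + C) := by
    rw [Finset.sum_add_distrib, ← FMo_sum_if, Finset.sum_mul, Finset.sum_const, Finset.card_range, nsmul_eq_mul]
  rw [e5]
  have h4 : (min n n1 : ℕ) * (Real.sqrt h / Real.sqrt n1) ≤ 1 := by
    rw [mul_comm]
    exact h2.trans h3
  nlinarith only [hnh, h2, h3, hC]

/-- the difference of two steps -/
private noncomputable def FMo_P (M : MN V H) {d : ℕ} (β k h : ℝ) (L : ℕ) (t t' : boxS d L → H) (y : boxS d L)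
    (p : ((boxS d L → V) × (boxS d L → V)) × (boxS d L → H)) : ℝ≥0∞ :=
  ENNReal.ofReal ‖M.st β k h L p.1.1 (fun y' => p.2 y' + t' y') y -
    M.st β k h L p.1.2 (fun y' => p.2 y' + t y') y‖

private theorem FMo_P_meas (M : MN V H) {d : ℕ} (β k h : ℝ) (L : ℕ) (t t' : boxS d L → H) (y : boxS d L) :
    Measurable (FMo_P M β k h L t t' y) := by
  have f1 : Measurable fun p : ((boxS d L → V) × (boxS d L → V)) × (boxS d L → H) => (p.1.1, p.2) :=
    (measurable_fst.comp measurable_fst).prodMk measurable_snd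
  have f2 : Measurable fun p : ((boxS d L → V) × (boxS d L → V)) × (boxS d L → H) => (p.1.2, p.2) :=
    (measurable_snd.comp measurable_fst).prodMk measurable_snd
  have g1 := (FMo_meas_st M β k h L t' y).comp f1
  have g2 := (FMo_meas_st M β k h L t y).comp f2
  have g3 := (g1.sub g2).norm.ennreal_ofReal
  exact g3

private theorem FMo_pair_dep (M : MN V H) {d : ℕ} (β k h : ℝ) (L : ℕ) (G : boxS d L → V)
    (z : boxS d L) (n1 : ℕ) (φ φ' : ℝ) (m : ℕ) :
    Dep m (fun ω : ℕ → boxS d L → H => (trs M β k h L G z n1 φ' ω m, trs M β k h L G z n1 φ ω m)) := by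
  intro b b' hbb
  exact Prod.ext (FMo_trs_dep M β k h L G z n1 φ' m b b' hbb) (FMo_trs_dep M β k h L G z n1 φ m b b' hbb)

private theorem FMo_step3 (M : MN V H) (d : ℕ) (β : ℝ) (hβ : 0 < β) (k h : ℝ) (hk : 0 < k) (h0 : 0 < h)
    (h1 : h < 1) (L : ℕ) (z : boxS d L) (n1 : ℕ) (hn1 : 1 ≤ n1) (φ φ' : ℝ) (hφ0 : 0 ≤ φ) (hφφ : φ ≤ φ')
    (hφ1 : φ' ≤ 1) (G : boxS d L → V) (m : ℕ) (y : boxS d L) :
    ∫⁻ ω, ENNReal.ofReal ‖trs M β k h L G z n1 φ' ω (m + 1) y - trs M β k h L G z n1 φ ω (m + 1) y‖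
        ∂(PI (M.mu d L)) ≤
      ENNReal.ofReal (1 + M.C * h + (if m < n1 then Real.sqrt h / Real.sqrt n1 else 0) * (2 + M.C)) *
        ∫⁻ ω, ENNReal.ofReal
          ‖trs M β k h L G z n1 φ' ω m y - trs M β k h L G z n1 φ ω m y‖ ∂(PI (M.mu d L)) +
        ENNReal.ofReal (k * h) * (∑ y' ∈ (boxNet d L).nb y,
          ∫⁻ ω, ENNReal.ofReal ‖trs M β k h L G z n1 φ' ω m y' - trs M β k h L G z n1 φ ω m y'‖
            ∂(PI (M.mu d L)) +
            ((2 * d : ℕ) : ℝ≥0∞) * ∫⁻ ω, ENNReal.ofReal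
              ‖trs M β k h L G z n1 φ' ω m y - trs M β k h L G z n1 φ ω m y‖ ∂(PI (M.mu d L))) +
        ENNReal.ofReal ((φ' - φ) * FMo_a h z n1 m y * (4 + 2 * M.C)) *
          ∫⁻ ω, ENNReal.ofReal ‖trs M β k h L G z n1 φ ω m y‖ ∂(PI (M.mu d L)) := by
  have hC := M.C1
  have hd0 : 0 ≤ φ' - φ := by linarith
  have hmp : Measurable fun ω : ℕ → boxS d L → H =>
      (trs M β k h L G z n1 φ' ω m, trs M β k h L G z n1 φ ω m) :=
    (measurable_trs M β k h L G z n1 φ' m).prodMk (measurable_trs M β k h L G z n1 φ m)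
  have hmt : ∀ y' : boxS d L, Measurable fun ω => ENNReal.ofReal
      ‖trs M β k h L G z n1 φ' ω m y' - trs M β k h L G z n1 φ ω m y'‖ :=
    fun y' => (((measurable_pi_apply y').comp (measurable_trs M β k h L G z n1 φ' m)).sub
      ((measurable_pi_apply y').comp (measurable_trs M β k h L G z n1 φ m))).norm.ennreal_ofReal
  have hmz : Measurable fun ω => ENNReal.ofReal ‖trs M β k h L G z n1 φ ω m y‖ :=
    ((measurable_pi_apply y).comp (measurable_trs M β k h L G z n1 φ m)).norm.ennreal_ofReal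
  have e1 : ∀ ω : ℕ → boxS d L → H, ENNReal.ofReal
      ‖trs M β k h L G z n1 φ' ω (m + 1) y - trs M β k h L G z n1 φ ω (m + 1) y‖ =
      FMo_P M β k h L (fun y' => (φ * FMo_s M z n1 m y') • M.e0) (fun y' => (φ' * FMo_s M z n1 m y') • M.e0) y
        ((trs M β k h L G z n1 φ' ω m, trs M β k h L G z n1 φ ω m), ω m) :=
    fun ω => by rw [FMo_trs_succ, FMo_trs_succ]; rfl
  rw [lintegral_congr e1, FMo_markov _ hmp m (FMo_pair_dep M β k h L G z n1 φ φ' m) _ (FMo_P_meas M β k h L _ _ y)]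
  have ha3 := FMo_a_le h0 h1 z hn1 m y
  have hs' := FMo_s_le M (h := h) z hn1 m y φ' (hφ0.trans hφφ)
  have hs := FMo_s_le M (h := h) z hn1 m y φ hφ0
  have hc := FMo_s_le M (h := h) z hn1 m y (φ' - φ) hd0
  have hsum : ∀ y' : boxS d L, φ' * FMo_s M z n1 m y' = φ * FMo_s M z n1 m y' + (φ' - φ) * FMo_s M z n1 m y' :=
    fun y' => by ring
  have hbd : ∀ ω : ℕ → boxS d L → H, ∫⁻ ξ, FMo_P M β k h L (fun y' => (φ * FMo_s M z n1 m y') • M.e0)
      (fun y' => (φ' * FMo_s M z n1 m y') • M.e0) y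
        ((trs M β k h L G z n1 φ' ω m, trs M β k h L G z n1 φ ω m), ξ) ∂(M.mu d L) ≤
      ENNReal.ofReal (1 + M.C * h + (if m < n1 then Real.sqrt h / Real.sqrt n1 else 0) * (2 + M.C)) *
        ENNReal.ofReal ‖trs M β k h L G z n1 φ' ω m y - trs M β k h L G z n1 φ ω m y‖ +
        ENNReal.ofReal (k * h) * (∑ y' ∈ (boxNet d L).nb y,
          ENNReal.ofReal ‖trs M β k h L G z n1 φ' ω m y' - trs M β k h L G z n1 φ ω m y'‖ +
            ((2 * d : ℕ) : ℝ≥0∞) * ENNReal.ofReal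
              ‖trs M β k h L G z n1 φ' ω m y - trs M β k h L G z n1 φ ω m y‖) +
        ENNReal.ofReal ((φ' - φ) * FMo_a h z n1 m y * (4 + 2 * M.C)) *
          ENNReal.ofReal ‖trs M β k h L G z n1 φ ω m y‖ := by
    intro ω
    have g := FMo_step2 M hβ k h hk h0 h1 L (trs M β k h L G z n1 φ' ω m) (trs M β k h L G z n1 φ ω m)
      (fun y' => φ * FMo_s M z n1 m y') (fun y' => (φ' - φ) * FMo_s M z n1 m y') y
      (if m < n1 then Real.sqrt h / Real.sqrt n1 else 0) (FMo_a h z n1 m y) ((φ' - φ) * FMo_a h z n1 m y)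
      (by rw [← hsum]; exact hs'.1.trans hφ1)
      (by rw [← hsum]; exact hs'.2.le.trans (le_trans (by nlinarith only [h0, h1, hφ1, ha3, ha3.1]) ha3.2.2))
      (hs.1.trans (hφφ.trans hφ1)) (hs.2.le.trans (by nlinarith only [h0, h1, hφφ, ha3, hφ1, ha3.1])) ha3.2.1
      (hc.1.trans (by linarith)) hc.2.le
    refine le_trans (le_of_eq ?_) g
    refine lintegral_congr fun ξ => ?_
    have e5 : (fun y' => ξ y' + (φ' * FMo_s M z n1 m y') • M.e0) =
        fun y' => ξ y' + (φ * FMo_s M z n1 m y' + (φ' - φ) * FMo_s M z n1 m y') • M.e0 :=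
      funext fun y' => by rw [hsum y']
    change ENNReal.ofReal ‖M.st β k h L _ (fun y' => ξ y' + (φ' * FMo_s M z n1 m y') • M.e0) y - _‖ = _
    rw [e5]
  refine (lintegral_mono hbd).trans (le_of_eq ?_)
  rw [lintegral_add_right _ (hmz.const_mul _), lintegral_const_mul _ hmz,
    FMo_lint (PI (M.mu d L)) ((boxNet d L).nb y)
      (fun y' ω => ENNReal.ofReal ‖trs M β k h L G z n1 φ' ω m y' - trs M β k h L G z n1 φ ω m y'‖) hmt]

theorem fm1 (M : MN V H) (d : ℕ) (β : ℝ) (hβ : 0 < β) : ∃ C : ℝ, 1 ≤ C ∧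
    ∀ k h : ℝ, 0 < k → k < 1 → 0 < h → h < 1 → ∀ (L : ℕ) (z : boxS d L) (n1 : ℕ), 1 ≤ n1 →
    n1 * h ≤ 1 → ∀ φ : ℝ, 0 ≤ φ → φ ≤ 1 → ∀ (G : boxS d L → V) (U : boxS d L → ℝ) (r : ℝ),
      0 ≤ r → (∀ x, 0 ≤ U x) → (∀ x, k * cpl (boxNet d L) U x ≤ r * U x) → (∀ x, ‖G x‖ ≤ U x) →
      ∀ (n : ℕ) (x : boxS d L), n * h ≤ 1 →
        ∫⁻ ω, ENNReal.ofReal ‖trs M β k h L G z n1 φ ω n x‖ ∂(PI (M.mu d L)) ≤
          ENNReal.ofReal (C * Real.exp (r * (n * h)) * U x) := by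
  have hC := M.C1
  refine ⟨Real.exp (2 * M.C + 2), Real.one_le_exp (by linarith), ?_⟩
  intro k h hk _ h0 h1 L z n1 hn1 hn1h φ hφ0 hφ1 G U r hr hU hU2 hG n x hnh
  refine (FMo_fm1 M d β hβ k h hk h0 h1 L z n1 hn1 φ hφ0 hφ1 G U r hr hU hU2 hG n x).trans ?_
  refine ENNReal.ofReal_le_ofReal (mul_le_mul_of_nonneg_right ?_ (hU x))
  rw [← Real.exp_add]
  refine Real.exp_le_exp.2 ?_
  have := (FMo_T_le hC h0 n n1 hn1 hn1h hnh).1
  linarith

theorem fm2 (M : MN V H) (d : ℕ) (β : ℝ) (hβ : 0 < β) : ∃ C : ℝ, 1 ≤ C ∧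
    ∀ k h : ℝ, 0 < k → k < 1 → 0 < h → h < 1 → ∀ (L : ℕ) (z : boxS d L) (n1 : ℕ), 1 ≤ n1 →
    n1 * h ≤ 1 → ∀ φ φ' : ℝ, 0 ≤ φ → φ ≤ φ' → φ' ≤ 1 → ∀ (G : boxS d L → V)
      (U W : boxS d L → ℝ) (r r' : ℝ),
      0 ≤ r → 0 ≤ r' → (∀ x, 0 ≤ U x) → (∀ x, k * cpl (boxNet d L) U x ≤ r * U x) →
      (∀ x, ‖G x‖ ≤ U x) → (∀ x, 0 ≤ W x) → 1 ≤ W z →
      (∀ x, k * cpl (boxNet d L) W x ≤ r' * W x) →
      ∀ (n : ℕ) (x : boxS d L), n * h ≤ 1 →
        ∫⁻ ω, ENNReal.ofReal ‖trs M β k h L G z n1 φ' ω n x - trs M β k h L G z n1 φ ω n x‖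
          ∂(PI (M.mu d L)) ≤
          ENNReal.ofReal (C * Real.exp ((r + r') * (n * h)) * (φ' - φ) * Real.sqrt (n1 * h) *
            U z * W x) := by
  have hC := M.C1
  refine ⟨Real.exp (2 * M.C + 2) * (4 + 2 * M.C), ?_, ?_⟩
  · have h1 : (1 : ℝ) ≤ Real.exp (2 * M.C + 2) := Real.one_le_exp (by linarith)
    nlinarith
  intro k h hk _ h0 h1 L z n1 hn1 hn1h φ φ' hφ0 hφφ hφ1 G U W r r' hr hr' hU hU2 hG hW hWz hW2 n x hnh
  set a : ℝ := Real.sqrt h / Real.sqrt n1 with ha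
  have ha0 : 0 ≤ a := by positivity
  set τ : ℕ → ℝ := fun j => M.C * h + (if j < n1 then a else 0) * (2 + M.C) with hτ
  have hτ0 : ∀ j, 0 ≤ τ j := by
    intro j
    rw [hτ]
    simp only
    split_ifs <;> positivity
  set K : ℝ := a * (φ' - φ) * (4 + 2 * M.C) * U z with hK
  have hd0 : 0 ≤ φ' - φ := by linarith
  have hUz := hU z
  have hK0 : 0 ≤ K := by positivity
  set κ : ℕ → ℝ := fun m => if m < n1 then
    K * Real.exp (∑ j ∈ Finset.range m, τ j + r * (m * h)) else 0 with hκ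
  have hκ0 : ∀ m, 0 ≤ κ m := by
    intro m
    rw [hκ]
    simp only
    split_ifs <;> positivity
  have hstep : ∀ (m : ℕ) (y : boxS d L),
      ∫⁻ ω, ENNReal.ofReal ‖trs M β k h L G z n1 φ' ω (m + 1) y - trs M β k h L G z n1 φ ω (m + 1) y‖
        ∂(PI (M.mu d L)) ≤
      ENNReal.ofReal (1 + τ m) * ∫⁻ ω, ENNReal.ofReal
          ‖trs M β k h L G z n1 φ' ω m y - trs M β k h L G z n1 φ ω m y‖ ∂(PI (M.mu d L)) +
        ENNReal.ofReal (k * h) * (∑ y' ∈ (boxNet d L).nb y,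
          ∫⁻ ω, ENNReal.ofReal ‖trs M β k h L G z n1 φ' ω m y' - trs M β k h L G z n1 φ ω m y'‖
            ∂(PI (M.mu d L)) +
            ((2 * d : ℕ) : ℝ≥0∞) * ∫⁻ ω, ENNReal.ofReal
              ‖trs M β k h L G z n1 φ' ω m y - trs M β k h L G z n1 φ ω m y‖ ∂(PI (M.mu d L))) +
          ENNReal.ofReal (κ m * W y) := by
    intro m y
    have g := FMo_step3 M d β hβ k h hk h0 h1 L z n1 hn1 φ φ' hφ0 hφφ hφ1 G m y
    have e1 : 1 + M.C * h + (if m < n1 then Real.sqrt h / Real.sqrt n1 else 0) * (2 + M.C) = 1 + τ m := by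
      rw [hτ, ha]
      ring
    rw [e1] at g
    refine g.trans (add_le_add le_rfl ?_)
    by_cases hy : y = z ∧ m < n1
    · have e2 : κ m = K * Real.exp (∑ j ∈ Finset.range m, τ j + r * (m * h)) := by
        rw [hκ]
        simp only
        rw [if_pos hy.2]
      have g2 := FMo_fm1 M d β hβ k h hk h0 h1 L z n1 hn1 φ hφ0 (hφφ.trans hφ1) G U r hr hU hU2 hG m y
      refine (mul_le_mul_right g2 _).trans ?_
      have ha3 := FMo_a_le h0 h1 z hn1 m y
      rw [← ENNReal.ofReal_mul (by have := ha3.1; positivity)]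
      refine ENNReal.ofReal_le_ofReal ?_
      have e3 : FMo_a h z n1 m y = a := by
        unfold FMo_a
        rw [if_pos hy]
      rw [e2, e3, hy.1, hK]
      have e4 : (φ' - φ) * a * (4 + 2 * M.C) * (Real.exp (∑ j ∈ Finset.range m, (M.C * h +
          (if j < n1 then Real.sqrt h / Real.sqrt n1 else 0) * (2 + M.C)) + r * (m * h)) * U z) =
          a * (φ' - φ) * (4 + 2 * M.C) * U z * Real.exp (∑ j ∈ Finset.range m, τ j + r * (m * h)) * 1 := by
        rw [hτ, ha]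
        ring
      rw [e4]
      exact mul_le_mul_of_nonneg_left hWz (by positivity)
    · have e3 : FMo_a h z n1 m y = 0 := by
        unfold FMo_a
        rw [if_neg hy]
      rw [e3]
      simp
  have hrec := FMo_rec (boxNet d L) k h r' hk.le h0.le hr' τ κ hτ0 hκ0 W hW hW2
    (fun m y => ∫⁻ ω, ENNReal.ofReal ‖trs M β k h L G z n1 φ' ω m y - trs M β k h L G z n1 φ ω m y‖
      ∂(PI (M.mu d L))) 0 (le_refl _)
    (fun y => by
      have e2 : ∀ ω : ℕ → boxS d L → H,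
          trs M β k h L G z n1 φ' ω 0 y - trs M β k h L G z n1 φ ω 0 y = G y - G y := fun ω => rfl
      simp only [e2, sub_self, norm_zero, ENNReal.ofReal_zero, lintegral_zero]
      exact zero_le) hstep
    (fun m => Real.exp (∑ j ∈ Finset.range m, τ j + (r + r') * (m * h)) * K * (min m n1 : ℕ))
    (by simp) (fun m => ?_) n x
  · refine hrec.trans (ENNReal.ofReal_le_ofReal ?_)
    have hT := FMo_T_le hC h0 n n1 hn1 hn1h hnh
    have hWx := hW x
    have e5 : Real.exp (∑ j ∈ Finset.range n, τ j + (r + r') * (n * h)) ≤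
        Real.exp (2 * M.C + 2) * Real.exp ((r + r') * (n * h)) := by
      rw [← Real.exp_add]
      refine Real.exp_le_exp.2 ?_
      have := hT.1
      linarith
    calc Real.exp (∑ j ∈ Finset.range n, τ j + (r + r') * (n * h)) * K * (min n n1 : ℕ) * W x
        = Real.exp (∑ j ∈ Finset.range n, τ j + (r + r') * (n * h)) * ((φ' - φ) * (4 + 2 * M.C) * U z * W x) *
          (a * (min n n1 : ℕ)) := by rw [hK]; ring
      _ ≤ (Real.exp (2 * M.C + 2) * Real.exp ((r + r') * (n * h))) * ((φ' - φ) * (4 + 2 * M.C) * U z * W x) *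
          Real.sqrt (n1 * h) :=
        mul_le_mul (mul_le_mul_of_nonneg_right e5 (by positivity)) hT.2.1 (by positivity) (by positivity)
      _ = Real.exp (2 * M.C + 2) * (4 + 2 * M.C) * Real.exp ((r + r') * (n * h)) * (φ' - φ) *
          Real.sqrt (n1 * h) * U z * W x := by ring
  · set E : ℝ := Real.exp (∑ j ∈ Finset.range m, τ j + (r + r') * (m * h)) with hE
    have hE0 : 0 < E := Real.exp_pos _
    have e6 : Real.exp (∑ j ∈ Finset.range (m + 1), τ j + (r + r') * ((m + 1 : ℕ) * h)) =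
        Real.exp (τ m + (r + r') * h) * E := by
      rw [hE, ← Real.exp_add, Finset.sum_range_succ]
      congr 1
      push_cast
      ring
    have hτm := hτ0 m
    have e7 : 1 + τ m + r' * h ≤ Real.exp (τ m + (r + r') * h) := by
      have := Real.add_one_le_exp (τ m + (r + r') * h)
      have h5 : 0 ≤ r * h := by positivity
      nlinarith only [this, h5]
    have e8 : 1 ≤ Real.exp (τ m + (r + r') * h) := Real.one_le_exp (by positivity)
    have e9 : Real.exp (∑ j ∈ Finset.range m, τ j + r * (m * h)) ≤ E := by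
      refine Real.exp_le_exp.2 ?_
      have h5 : 0 ≤ r' * (m * h) := by positivity
      nlinarith only [h5]
    have e10 : ((min (m + 1) n1 : ℕ) : ℝ) = (min m n1 : ℕ) + (if m < n1 then (1 : ℝ) else 0) := by
      by_cases h : m < n1
      · rw [if_pos h, min_eq_left h.le, min_eq_left (Nat.succ_le_of_lt h)]
        push_cast
        ring
      · rw [if_neg h, min_eq_right (not_lt.1 h), min_eq_right (le_trans (not_lt.1 h) (Nat.le_succ m)), add_zero]
    rw [e6, e10]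
    have hmin : (0 : ℝ) ≤ (min m n1 : ℕ) := Nat.cast_nonneg _
    have f1 : (1 + τ m + r' * h) * (E * K * (min m n1 : ℕ)) ≤
        Real.exp (τ m + (r + r') * h) * (E * K * (min m n1 : ℕ)) :=
      mul_le_mul_of_nonneg_right e7 (by positivity)
    have f2 : κ m ≤ Real.exp (τ m + (r + r') * h) * E * K * (if m < n1 then (1 : ℝ) else 0) := by
      rw [hκ]
      simp only
      split_ifs
      · have f3 : K * Real.exp (∑ j ∈ Finset.range m, τ j + r * (m * h)) ≤ K * E :=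
          mul_le_mul_of_nonneg_left e9 hK0
        have f4 : 1 * (K * E) ≤ Real.exp (τ m + (r + r') * h) * (K * E) :=
          mul_le_mul_of_nonneg_right e8 (by positivity)
        calc K * Real.exp (∑ j ∈ Finset.range m, τ j + r * (m * h)) ≤ 1 * (K * E) := by rw [one_mul]; exact f3
          _ ≤ Real.exp (τ m + (r + r') * h) * (K * E) := f4
          _ = Real.exp (τ m + (r + r') * h) * E * K * 1 := by ring
      · rw [mul_zero]
    calc (1 + τ m + r' * h) * (E * K * (min m n1 : ℕ)) + κ m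
        ≤ Real.exp (τ m + (r + r') * h) * (E * K * (min m n1 : ℕ)) +
          Real.exp (τ m + (r + r') * h) * E * K * (if m < n1 then (1 : ℝ) else 0) := add_le_add f1 f2
      _ = Real.exp (τ m + (r + r') * h) * E * K * ((min m n1 : ℕ) + if m < n1 then (1 : ℝ) else 0) := by ring

end

/-! ### maximal inequality -/

section

variable {d : ℕ} {F : Fam d} {β k : ℝ}

private theorem FMo_symm {ι : Type} [Fintype ι] (net : Net ι d) (w u : ι → ℝ) :
    ∑ x, w x * cpl net u x = ∑ x, u x * cpl net w x := by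
  classical
  unfold cpl
  simp only [mul_add, Finset.sum_add_distrib]
  congr 1
  · have h1 : ∀ (f g : ι → ℝ), ∑ x, f x * ∑ y ∈ net.nb x, g y =
        ∑ x, ∑ y, if y ∈ net.nb x then f x * g y else 0 := by
      intro f g
      refine Finset.sum_congr rfl fun x _ => ?_
      rw [Finset.mul_sum, Finset.sum_ite_mem, Finset.univ_inter]
    rw [h1, h1, Finset.sum_comm]
    refine Finset.sum_congr rfl fun x _ => Finset.sum_congr rfl fun y _ => ?_
    have h2 : x ∈ net.nb y ↔ y ∈ net.nb x := ⟨net.nb_symm y x, net.nb_symm x y⟩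
    by_cases h : y ∈ net.nb x
    · rw [if_pos h, if_pos (h2.2 h), mul_comm]
    · rw [if_neg h, if_neg fun h' => h (h2.1 h')]
  · refine Finset.sum_congr rfl fun x _ => ?_
    ring

private theorem FMo_traj_cons {St X : Type} (f : St → X → St) (s : St) (a : X) (ω : ℕ → X) (j : ℕ) :
    traj f s (fun i => Nat.casesOn i a ω) (j + 1) = traj f (f s a) ω j := by
  induction j with
  | zero => rfl
  | succ j ih =>
    show f (traj f s (fun i => Nat.casesOn i a ω) (j + 1)) (ω j) = f (traj f (f s a) ω j) (ω j)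
    rw [ih]

/-- the weighted sum -/
private noncomputable def FMo_Φ {L : ℕ} (F : Fam d) (w : boxS d L → ℝ)
    (G : (boxS d L → F.V) × (boxS d L → F.V)) : ℝ := ∑ x, w x * ‖G.1 x‖

private theorem FMo_Φ_meas {L : ℕ} (w : boxS d L → ℝ) : Measurable (FMo_Φ F w) := by
  unfold FMo_Φ
  exact Finset.measurable_fun_sum _ fun x _ =>
    (((measurable_pi_apply x).comp measurable_fst).norm).const_mul (w x)

private theorem FMo_Φ_nonneg {L : ℕ} (w : boxS d L → ℝ) (hw : ∀ x, 0 ≤ w x)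
    (G : (boxS d L → F.V) × (boxS d L → F.V)) : 0 ≤ FMo_Φ F w G :=
  Finset.sum_nonneg fun x _ => mul_nonneg (hw x) (norm_nonneg _)

/-- one step of the weighted sum, in mean -/
private theorem FMo_one (S : PSys F β k) (hk : 0 < k) (h : ℝ) (h0 : 0 < h) (C : ℝ) (hC : 0 < C)
    (hE : ∫⁻ a, ENNReal.ofReal (Real.exp (S.b h a)) ∂S.ν ≤ ENNReal.ofReal (1 + C * h))
    (L : ℕ) (w : boxS d L → ℝ) (r : ℝ) (hr : 0 ≤ r) (hw : ∀ x, 0 ≤ w x)
    (hw2 : ∀ x, k * cpl (boxNet d L) w x ≤ r * w x) (G : (boxS d L → F.V) × (boxS d L → F.V)) :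
    ∫⁻ ω, ENNReal.ofReal (FMo_Φ F w (S.st h L G ω)) ∂(S.mu L) ≤
      ENNReal.ofReal ((1 + (C + r) * h) * FMo_Φ F w G) := by
  have hcpl : 0 ≤ ∑ x, w x * cpl (boxNet d L) (nrm G.1) x :=
    Finset.sum_nonneg fun x _ => mul_nonneg (hw x) (FMo_cpl_nonneg G.1 x)
  have hpt : ∀ ω : boxS d L → S.Ωp, ENNReal.ofReal (FMo_Φ F w (S.st h L G ω)) ≤
      ∑ x, ENNReal.ofReal (w x * ‖G.1 x‖) * ENNReal.ofReal (Real.exp (S.b h (ω x))) +
        ENNReal.ofReal (k * h * ∑ x, w x * cpl (boxNet d L) (nrm G.1) x) := by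
    intro ω
    have h1 : ∀ x, ENNReal.ofReal (w x * ‖G.1 x‖) * ENNReal.ofReal (Real.exp (S.b h (ω x))) =
        ENNReal.ofReal (w x * ‖G.1 x‖ * Real.exp (S.b h (ω x))) := fun x =>
      (ENNReal.ofReal_mul (mul_nonneg (hw x) (norm_nonneg _))).symm
    rw [Finset.sum_congr rfl fun x _ => h1 x, ← ENNReal.ofReal_sum_of_nonneg fun x _ =>
      mul_nonneg (mul_nonneg (hw x) (norm_nonneg _)) (Real.exp_pos _).le,
      ← ENNReal.ofReal_add (Finset.sum_nonneg fun x _ =>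
        mul_nonneg (mul_nonneg (hw x) (norm_nonneg _)) (Real.exp_pos _).le) (mul_nonneg (by positivity) hcpl)]
    refine ENNReal.ofReal_le_ofReal ?_
    unfold FMo_Φ
    rw [Finset.mul_sum, ← Finset.sum_add_distrib]
    refine Finset.sum_le_sum fun x _ => ?_
    have h2 := S.u1 h L G ω h0 x
    have h3 := mul_le_mul_of_nonneg_left h2 (hw x)
    unfold nrm at h3
    calc w x * ‖(S.st h L G ω).1 x‖ ≤ _ := h3
      _ = _ := by unfold nrm; ring
  refine (lintegral_mono hpt).trans ?_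
  have hmb : ∀ x : boxS d L, Measurable fun ω : boxS d L → S.Ωp =>
      ENNReal.ofReal (Real.exp (S.b h (ω x))) := fun x =>
    (Real.measurable_exp.comp ((S.mb h).comp (measurable_pi_apply x))).ennreal_ofReal
  rw [lintegral_add_right _ measurable_const, lintegral_const, measure_univ, mul_one,
    lintegral_finsetSum _ fun x _ => (hmb x).const_mul _]
  have h4 : ∀ x : boxS d L, ∫⁻ ω, ENNReal.ofReal (w x * ‖G.1 x‖) *
      ENNReal.ofReal (Real.exp (S.b h (ω x))) ∂(S.mu L) ≤ ENNReal.ofReal (w x * ‖G.1 x‖ * (1 + C * h)) := by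
    intro x
    rw [lintegral_const_mul _ (hmb x), ENNReal.ofReal_mul (mul_nonneg (hw x) (norm_nonneg _))]
    refine mul_le_mul_right ?_ _
    have h5 : ∫⁻ ω, ENNReal.ofReal (Real.exp (S.b h (ω x))) ∂(S.mu L) =
        ∫⁻ a, ENNReal.ofReal (Real.exp (S.b h a)) ∂S.ν :=
      (measurePreserving_eval (fun _ : boxS d L => S.ν) x).lintegral_comp
        (Real.measurable_exp.comp (S.mb h)).ennreal_ofReal
    rw [h5]
    exact hE
  refine (add_le_add (Finset.sum_le_sum fun x _ => h4 x) le_rfl).trans ?_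
  have hn : ∀ x : boxS d L, 0 ≤ w x * ‖G.1 x‖ := fun x => mul_nonneg (hw x) (norm_nonneg _)
  rw [← ENNReal.ofReal_sum_of_nonneg fun x _ => mul_nonneg (hn x) (by positivity),
    ← ENNReal.ofReal_add (Finset.sum_nonneg fun x _ => mul_nonneg (hn x) (by positivity))
      (mul_nonneg (by positivity) hcpl)]
  refine ENNReal.ofReal_le_ofReal ?_
  rw [FMo_symm, ← Finset.sum_mul]
  have h6 : k * h * ∑ x, nrm G.1 x * cpl (boxNet d L) w x ≤ h * r * FMo_Φ F w G := by
    unfold FMo_Φ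
    rw [Finset.mul_sum, Finset.mul_sum]
    refine Finset.sum_le_sum fun x _ => ?_
    have h7 := mul_le_mul_of_nonneg_left (hw2 x) (mul_nonneg h0.le (norm_nonneg (G.1 x)))
    unfold nrm
    calc k * h * (‖G.1 x‖ * cpl (boxNet d L) w x) = h * ‖G.1 x‖ * (k * cpl (boxNet d L) w x) := by ring
      _ ≤ h * ‖G.1 x‖ * (r * w x) := h7
      _ = h * r * (w x * ‖G.1 x‖) := by ring
  have h8 : (∑ x, w x * ‖G.1 x‖) = FMo_Φ F w G := rfl
  rw [h8]
  nlinarith

private theorem FMo_max (S : PSys F β k) (h : ℝ) (L : ℕ) (w : boxS d L → ℝ) (hw : ∀ x, 0 ≤ w x)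
    (ρ : ℝ) (hρ : 1 ≤ ρ) (y : ℝ) (hy : 0 < y)
    (h1 : ∀ G : (boxS d L → F.V) × (boxS d L → F.V),
      ∫⁻ ω, ENNReal.ofReal (FMo_Φ F w (S.st h L G ω)) ∂(S.mu L) ≤ ENNReal.ofReal (ρ * FMo_Φ F w G)) (n : ℕ) :
    ∀ G : (boxS d L → F.V) × (boxS d L → F.V),
      PI (S.mu L) {ω | ∃ j, j ≤ n ∧ y ≤ FMo_Φ F w (S.tr h L G ω j)} ≤
        ENNReal.ofReal (ρ ^ n * FMo_Φ F w G / y) := by
  have hbig : ∀ (n : ℕ) (G : (boxS d L → F.V) × (boxS d L → F.V)), y ≤ FMo_Φ F w G →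
      (1 : ℝ≥0∞) ≤ ENNReal.ofReal (ρ ^ n * FMo_Φ F w G / y) := by
    intro n G hG
    rw [ENNReal.one_le_ofReal, le_div_iff₀ hy, one_mul]
    have := one_le_pow₀ hρ (n := n)
    nlinarith
  have hms : ∀ (n : ℕ) (G : (boxS d L → F.V) × (boxS d L → F.V)),
      MeasurableSet {ω : ℕ → boxS d L → S.Ωp | ∃ j, j ≤ n ∧ y ≤ FMo_Φ F w (S.tr h L G ω j)} := by
    intro n G
    have e : {ω : ℕ → boxS d L → S.Ωp | ∃ j, j ≤ n ∧ y ≤ FMo_Φ F w (S.tr h L G ω j)} =
        ⋃ j : ℕ, {ω : ℕ → boxS d L → S.Ωp | j ≤ n ∧ y ≤ FMo_Φ F w (S.tr h L G ω j)} := by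
      ext ω
      simp
    rw [e]
    refine MeasurableSet.iUnion fun j => ?_
    have g1 : Measurable fun ω : ℕ → boxS d L → S.Ωp => (G, ω) := measurable_const.prodMk measurable_id
    have g2 : Measurable fun ω : ℕ → boxS d L → S.Ωp => FMo_Φ F w (S.tr h L G ω j) :=
      (FMo_Φ_meas w).comp ((measurable_tr S h L j).comp g1)
    exact (MeasurableSet.const _).inter
      (measurableSet_le (f := fun _ : ℕ → boxS d L → S.Ωp => y) measurable_const g2)
  induction n with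
  | zero =>
    intro G
    rcases le_or_gt y (FMo_Φ F w G) with hG | hG
    · exact prob_le_one.trans (hbig 0 G hG)
    · have e : {ω : ℕ → boxS d L → S.Ωp | ∃ j, j ≤ 0 ∧ y ≤ FMo_Φ F w (S.tr h L G ω j)} = ∅ := by
        rw [Set.eq_empty_iff_forall_notMem]
        rintro ω ⟨j, hj, hle⟩
        obtain rfl : j = 0 := Nat.le_zero.mp hj
        exact absurd hle (not_le.2 hG)
      rw [e, measure_empty]
      exact zero_le
  | succ n ih =>
    intro G
    rcases le_or_gt y (FMo_Φ F w G) with hG | hG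
    · exact prob_le_one.trans (hbig (n + 1) G hG)
    · rw [← lintegral_indicator_one (hms (n + 1) G),
        lintegral_cons _ (measurable_one.indicator (hms (n + 1) G))]
      have h2 : ∀ a : boxS d L → S.Ωp, ∫⁻ ω, Set.indicator
          {ω : ℕ → boxS d L → S.Ωp | ∃ j, j ≤ n + 1 ∧ y ≤ FMo_Φ F w (S.tr h L G ω j)} (1 : (ℕ → boxS d L → S.Ωp) → ℝ≥0∞)
          (fun i => Nat.casesOn i a ω) ∂(PI (S.mu L)) ≤
          ENNReal.ofReal (ρ ^ n / y) * ENNReal.ofReal (FMo_Φ F w (S.st h L G a)) := by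
        intro a
        refine le_trans (lintegral_mono (g := Set.indicator
          {ω : ℕ → boxS d L → S.Ωp | ∃ j, j ≤ n ∧ y ≤ FMo_Φ F w (S.tr h L (S.st h L G a) ω j)} 1) ?_) ?_
        · intro ω
          beta_reduce
          by_cases hω : (fun i => Nat.casesOn i a ω : ℕ → boxS d L → S.Ωp) ∈
              {ω : ℕ → boxS d L → S.Ωp | ∃ j, j ≤ n + 1 ∧ y ≤ FMo_Φ F w (S.tr h L G ω j)}
          · rw [Set.indicator_of_mem hω]
            have hω' : ω ∈ {ω : ℕ → boxS d L → S.Ωp |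
                ∃ j, j ≤ n ∧ y ≤ FMo_Φ F w (S.tr h L (S.st h L G a) ω j)} := by
              obtain ⟨j, hj, hle⟩ := hω
              rcases j with _ | j
              · exact absurd hle (not_le.2 hG)
              · refine ⟨j, Nat.le_of_succ_le_succ hj, ?_⟩
                unfold PSys.tr at hle ⊢
                rwa [FMo_traj_cons] at hle
            rw [Set.indicator_of_mem hω']
            simp
          · rw [Set.indicator_of_notMem hω]
            exact zero_le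
        · rw [lintegral_indicator_one (hms n _)]
          refine (ih (S.st h L G a)).trans (le_of_eq ?_)
          rw [← ENNReal.ofReal_mul (by positivity)]
          congr 1
          ring
      refine (lintegral_mono h2).trans ?_
      rw [lintegral_const_mul' _ _ ENNReal.ofReal_ne_top]
      refine (mul_le_mul_right (h1 G) _).trans (le_of_eq ?_)
      rw [← ENNReal.ofReal_mul (by positivity)]
      congr 1
      ring

/-- mean of the exponential of the noise -/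
private theorem FMo_exp (N : ℕ) (S : PSys F β k) (hB : BNoise N S.ν S.b S.gd) : ∃ h0 : ℝ, 0 < h0 ∧
    ∀ h, 0 < h → h < h0 → ∫⁻ a, ENNReal.ofReal (Real.exp (S.b h a)) ∂S.ν ≤
      ENNReal.ofReal (1 + (|lamN N| + 3) * h) := by
  obtain ⟨h1, hh1, ht⟩ := hB.tail
  obtain ⟨h2, hh2, hm⟩ := hB.mgf 1 1 one_pos one_pos
  obtain ⟨C3, h3, hC3, hh3, hm2⟩ := hB.mgf2
  refine ⟨min (min h1 h2) (min (min h3 (1 / (2 * C3))) (1 / 2)), by positivity, ?_⟩
  intro h h0 hlt
  have g1 : h < h1 := lt_of_lt_of_le hlt ((min_le_left _ _).trans (min_le_left _ _))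
  have g2 : h < h2 := lt_of_lt_of_le hlt ((min_le_left _ _).trans (min_le_right _ _))
  have g3 : h < h3 := lt_of_lt_of_le hlt ((min_le_right _ _).trans ((min_le_left _ _).trans (min_le_left _ _)))
  have g4 : h < 1 / (2 * C3) :=
    lt_of_lt_of_le hlt ((min_le_right _ _).trans ((min_le_left _ _).trans (min_le_right _ _)))
  have g5 : h < 1 / 2 := lt_of_lt_of_le hlt ((min_le_right _ _).trans (min_le_right _ _))
  have g6 : C3 * h < 1 / 2 := by
    rw [lt_div_iff₀ (by positivity)] at g4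
    linarith
  rw [← lintegral_add_compl _ (S.mgd h)]
  have e1 : ∫⁻ a in S.gd h, ENNReal.ofReal (Real.exp (S.b h a)) ∂S.ν ≤
      ENNReal.ofReal (1 + (lamN N * 1 + 1 ^ 2 / 2 + 1) * h) := by
    have := (hm h h0 g2 1 (by norm_num)).1
    simpa only [one_mul] using this
  have hmb : Measurable fun a => ENNReal.ofReal (Real.exp (2 * S.b h a)) :=
    (Real.measurable_exp.comp ((S.mb h).const_mul 2)).ennreal_ofReal
  have e2 : ∫⁻ a in (S.gd h)ᶜ, ENNReal.ofReal (Real.exp (S.b h a)) ∂S.ν ≤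
      ENNReal.ofReal (h / 2 * (1 + C3 * h) + 1 / (2 * h) * h ^ 3) := by
    have hpt : ∀ a, ENNReal.ofReal (Real.exp (S.b h a)) ≤
        ENNReal.ofReal (h / 2) * ENNReal.ofReal (Real.exp (2 * S.b h a)) + ENNReal.ofReal (1 / (2 * h)) := by
      intro a
      rw [← ENNReal.ofReal_mul (by positivity), ← ENNReal.ofReal_add (by positivity) (by positivity)]
      refine ENNReal.ofReal_le_ofReal ?_
      have f1 : Real.exp (2 * S.b h a) = Real.exp (S.b h a) ^ 2 := by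
        rw [two_mul, Real.exp_add, sq]
      rw [f1]
      have f2 : h / 2 * Real.exp (S.b h a) ^ 2 + 1 / (2 * h) - Real.exp (S.b h a) =
          (h * Real.exp (S.b h a) - 1) ^ 2 / (2 * h) := by
        field_simp
        ring
      have f3 : 0 ≤ (h * Real.exp (S.b h a) - 1) ^ 2 / (2 * h) := by positivity
      linarith
    refine (lintegral_mono hpt).trans ?_
    rw [lintegral_add_right _ measurable_const, lintegral_const_mul _ hmb, setLIntegral_const]
    have f4 : ∫⁻ a in (S.gd h)ᶜ, ENNReal.ofReal (Real.exp (2 * S.b h a)) ∂S.ν ≤ ENNReal.ofReal (1 + C3 * h) :=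
      (setLIntegral_le_lintegral _ _).trans (hm2 h h0 g3)
    have f5 := ht h h0 g1
    refine (add_le_add (mul_le_mul_right f4 _) (mul_le_mul_right f5 _)).trans ?_
    rw [← ENNReal.ofReal_mul (by positivity), ← ENNReal.ofReal_mul (by positivity),
      ← ENNReal.ofReal_add (by positivity) (by positivity)]
  have e3 : h / 2 * (1 + C3 * h) + 1 / (2 * h) * h ^ 3 ≤ h := by
    have f1 : 1 / (2 * h) * h ^ 3 = h ^ 2 / 2 := by
      field_simp
    rw [f1]
    nlinarith only [h0, g5, g6]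
  have hlam := le_abs_self (lamN N)
  have hlam2 := neg_abs_le (lamN N)
  rcases le_or_gt 0 (1 + (lamN N * 1 + 1 ^ 2 / 2 + 1) * h) with hp | hp
  · refine (add_le_add e1 e2).trans ?_
    rw [← ENNReal.ofReal_add hp (by positivity)]
    refine ENNReal.ofReal_le_ofReal ?_
    nlinarith only [h0, e3, hlam]
  · rw [ENNReal.ofReal_of_nonpos hp.le] at e1
    refine (add_le_add e1 e2).trans ?_
    rw [zero_add]
    refine ENNReal.ofReal_le_ofReal ?_
    have := abs_nonneg (lamN N)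
    nlinarith only [h0, e3, hlam, hlam2]

end

theorem cap_max (N d : ℕ) (β : ℝ) (hβ : 0 < β) : ∃ C : ℝ, 0 < C ∧
    ∀ (F : Fam d) (k : ℝ) (S : PSys F β k), 0 < k → k < 1 → BNoise N S.ν S.b S.gd →
    ∃ h0 : ℝ, 0 < h0 ∧ ∀ h, 0 < h → h < h0 → ∀ (L : ℕ) (G : (boxS d L → F.V) × (boxS d L → F.V))
      (w : boxS d L → ℝ) (r y : ℝ), 0 ≤ r → 0 < y → (∀ x, 0 ≤ w x) →
      (∀ x, k * cpl (boxNet d L) w x ≤ r * w x) → ∀ n : ℕ,
      PI (S.mu L) {ω | ∃ j, j ≤ n ∧ y ≤ ∑ x, w x * ‖(S.tr h L G ω j).1 x‖} ≤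
        ENNReal.ofReal (Real.exp ((C + r) * (n * h)) * (∑ x, w x * ‖G.1 x‖) / y) := by
  refine ⟨|lamN N| + 3, by positivity, ?_⟩
  intro F k S hk0 _ hB
  obtain ⟨h0, hh0, hE⟩ := FMo_exp N S hB
  refine ⟨h0, hh0, ?_⟩
  intro h h1 h2 L G w r y hr hy hw hw2 n
  have hC : 0 < |lamN N| + 3 := by positivity
  have hρ : 1 ≤ 1 + (|lamN N| + 3 + r) * h := by
    have : 0 ≤ (|lamN N| + 3 + r) * h := by positivity
    linarith
  have hm := FMo_max S h L w hw (1 + (|lamN N| + 3 + r) * h) hρ y hy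
    (fun G => FMo_one S hk0 h h1 (|lamN N| + 3) hC (hE h h1 h2) L w r hr hw hw2 G) n G
  refine hm.trans (ENNReal.ofReal_le_ofReal ?_)
  have hΦ := FMo_Φ_nonneg (F := F) w hw G
  have e1 : (1 + (|lamN N| + 3 + r) * h) ^ n ≤ Real.exp ((|lamN N| + 3 + r) * (n * h)) := by
    have e2 : (|lamN N| + 3 + r) * (n * h) = n * ((|lamN N| + 3 + r) * h) := by ring
    rw [e2, Real.exp_nat_mul]
    refine pow_le_pow_left₀ (by linarith) ?_ n
    have := Real.add_one_le_exp ((|lamN N| + 3 + r) * h)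
    linarith
  have e3 : (∑ x, w x * ‖G.1 x‖) = FMo_Φ F w G := rfl
  rw [e3]
  exact div_le_div_of_nonneg_right (mul_le_mul_of_nonneg_right e1 hΦ) hy.le

end DynC

end
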