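import Pool.Agent.Lib_MP_36b788_n.M16
import Pool.Agent.Lib_MP_36b788_n.M24

set_option linter.unusedVariables false

/-!
# MP_36b788_pr, stationary limit: merged library part M32

Concatenation of smaller files (each in its own section), only to save build time.
-/

/-! ### from `Lib_MP_36b788c.OL2` -/

section

/-!
# One window, one site, `N = 2`: no cancellation over a long time

`ol2`: `u = ‖G x‖`, `‖G v‖ ≤ k^{-e/4-(1+e/16) dist v x} u`, `u ≤ k^{-e/(4β)}`, `n1 = ⌈k^e/h⌉ ≤ n`, `n h ≤ ell³`. The event {`Reg2` at `x`, `‖G_j x‖ < k^κ` for `n1 ≤ j ≤ n`, `‖G_n x‖ < k^{2e} exp(Σ_{j<n} b_j x) u`} has probability `≤ k^{e/100}`.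

PROOF. `M = MN2`, `st2 = MN2.st`, `C = M.C`, `u > 0`. `b_j x = √h Re ω_j x`, `a_j = e^{√h ω_j x}`. `U = prof k (-e/4) (1+e/16) x · u`, `W = prof k 0 (-(1+15e/16)) x`, `r = 4dk^{-e/16}`, `r' = 4dk^{-15e/16}`. `δ = k^{e/8}`.
Regular set `Reg` (path `ω`): `RegS M … x n1 δ` (`regS_prob` with `z = x`, `a = -e/4`), `ω_j x ∈ gdC` for `j < n` (`n h³ → 0`), `Reg2 κ (gz k h ω) n x`, `‖G_j x‖ < k^κ` for `n1 ≤ j ≤ n`.
`sbs` with `v = shz M x n1`, `F ω = exp(-Σ_{n1 ≤ j < n} b_j x) • traj … G ω n x` (the factor does not see the shift), `η = k^{e/16}`, `ρ = (1/8C) √(n1 h) η u ≥ k^{e} u`.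
Let `φ' - φ ≥ η`, both shifted paths in `Reg`, `D_j = trs φ' ω j - trs φ ω j`. Outside an event of probability `≤ C k^{1/8}`: (1) `Σ_{j<n1} k h cpl D_j x ≤ k^{1/4} √(n1 h) u` (`fm2`: `E ≤ 2k^{1+e} C √(n1 h) U x (2d k + 2d)`); (2) for all `v`: `‖D_{n1} v‖ ≤ A k^{(3/4) dist x v}`, `A = √(n1 h) k^{-1/4} u`
(`E‖D_{n1} v‖ ≤ C √(n1 h) U x W v`, `U x = k^{-e/4} u`, Markov, `Σ_v k^{(1/4) dist} ≤ 3^d`).
`site_shift` (`z = x`, `m = n1`, `j = n1`): `‖D_{n1} x - (θ-1) G x‖ ≤ (50δ√(n1 h)(φ'-φ) + ς0 + 20 k^{1/4} √(n1 h)) u`, `θ - 1 ≥ √(n1 h)(φ'-φ)/C`, so `‖D_{n1} x‖ ≥ √(n1 h)(φ'-φ) u/(2C) ≥ k^{1/8+…} A` : precisely `A ≤ 2C k^{-1/4-e/16} ‖D_{n1} x‖`.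
Growth on `[n1, n)`: `reg2_growth` for the shifted sequence (`reg2_sub`), `ρ = 3/4`, `H v = -(3/4) dist x v`: `‖D_j v‖ ≤ 2A k^{-κ(1+dist x v) + (3/4) dist x v}`; for `v ∈ nb x`: `≤ 2A k^{3/4-2κ}`.
At `x`: `Q_j = Π_{n1 ≤ i < j} a_i`, `|Q_j| = exp(Σ b) ∈ [k^κ, k^{-κ}]`, `Y_j = D_j x/Q_j`: `|Y_{j+1} - Y_j| ≤ h(1+β)(2k^κ)^β |Y_j| + k^{-κ} k h (Σ_{y ∈ nb x}‖D_j y‖) + 2dkh·2|Y_j|` (`JV_lip`, norms `≤ 2k^κ`, `|a_j| ≤ 2`). With `n h ≤ ell³`: `|Y_n - Y_{n1}| ≤ (1/4)|Y_{n1}| + ell³ 4d k^{7/4-3κ} A ≤ (1/2)|Y_{n1}|`.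
So `‖F^{φ'} - F^φ‖ = |Y_n| ≥ ‖D_{n1} x‖/2 > 2ρ`; `p2 ≤ C k^{1/8}`. Result: `P(Reg, ‖F‖ ≤ ρ) ≤ 2(2k^{e/16} + Ck^{1/8})^{1/4}`. On `Reg`, `|Σ_{j<n1} b_j x| ≤ log 2` (`PNear`), so `‖G_n x‖ < k^{2e} exp(Σ_{j<n} b) u` implies `‖F‖ ≤ 2k^{2e} u ≤ ρ`. (`e ≤ 1/16`, `k` small.)
-/

open MeasureTheory ProbabilityTheory
open scoped ENNReal

namespace DynC

open Dyn

private theorem OL2_pow (a : ℝ) (ha : 0 < a) (c : ℝ) (hc : 0 < c) :
    ∃ k0 : ℝ, 0 < k0 ∧ k0 < 1 ∧ ∀ k, 0 < k → k < k0 → k ^ a ≤ c := by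
  refine ⟨min (1 / 2) (c ^ (1 / a)), lt_min (by norm_num) (Real.rpow_pos_of_pos hc _),
    (min_le_left _ _).trans_lt (by norm_num), fun k hk hk0 => ?_⟩
  have h1 : k ≤ c ^ (1 / a) := hk0.le.trans (min_le_right _ _)
  have h2 := Real.rpow_le_rpow hk.le h1 ha.le
  rw [← Real.rpow_mul hc.le, one_div, inv_mul_cancel₀ ha.ne', Real.rpow_one] at h2
  exact h2

private theorem OL2_ell0 {k : ℝ} (hk : 0 < k) (hk1 : k < 1) : 0 < ell k := by
  unfold ell
  apply Real.log_pos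
  rw [lt_div_iff₀ hk]
  linarith

private theorem OL2_kexp {k : ℝ} (hk : 0 < k) (a : ℝ) : Real.exp (ell k * a) = k ^ (-a) := by
  rw [Real.rpow_def_of_pos hk]
  congr 1
  unfold ell
  rw [one_div, Real.log_inv]
  ring

private theorem OL2_ell (a : ℝ) (ha : 0 < a) (c : ℝ) (hc : 0 < c) :
    ∃ k0 : ℝ, 0 < k0 ∧ k0 < 1 ∧ ∀ k, 0 < k → k < k0 → ell k ^ 3 * k ^ a ≤ c := by
  obtain ⟨k0, h0, h1, h2⟩ := OL2_pow (a / 2) (by positivity) (c / (6 / a) ^ 3) (by positivity)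
  refine ⟨k0, h0, h1, fun k hk hkk => ?_⟩
  have h3 := h2 k hk hkk
  have hk1 : k < 1 := hkk.trans h1
  have h4 : ell k ≤ (6 / a) * k ^ (-(a / 6)) := by
    have h5 := Real.log_le_rpow_div (x := 1 / k) (by positivity) (ε := a / 6) (by positivity)
    unfold ell
    refine h5.trans (le_of_eq ?_)
    rw [one_div, Real.inv_rpow hk.le, Real.rpow_neg hk.le]
    field_simp
  have h5 : ell k ^ 3 ≤ (6 / a) ^ 3 * k ^ (-(a / 2)) := by
    have h6 := pow_le_pow_left₀ (OL2_ell0 hk hk1).le h4 3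
    refine h6.trans (le_of_eq ?_)
    rw [mul_pow, ← Real.rpow_natCast (k ^ (-(a / 6))), ← Real.rpow_mul hk.le]
    congr 2
    push_cast
    ring
  calc ell k ^ 3 * k ^ a ≤ (6 / a) ^ 3 * k ^ (-(a / 2)) * k ^ a := by gcongr
    _ = (6 / a) ^ 3 * k ^ (a / 2) := by
        rw [mul_assoc, ← Real.rpow_add hk]
        congr 2
        ring
    _ ≤ (6 / a) ^ 3 * (c / (6 / a) ^ 3) := by gcongr
    _ = c := by field_simp

private theorem OL2_gron (N : ℕ) (h c0 c1 : ℝ) (hh : 0 ≤ h) (hc0 : 0 ≤ c0) (hc1 : 0 ≤ c1)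
    (Y : ℕ → ℂ) (hY : ∀ j, j < N → ‖Y (j + 1) - Y j‖ ≤ h * (c0 * ‖Y j‖ + c1))
    (h0 : N * h * (3 / 2 * c0) ≤ 1 / 4) (h1 : N * h * c1 ≤ 1 / 4 * ‖Y 0‖) :
    1 / 2 * ‖Y 0‖ ≤ ‖Y N‖ := by
  have key : ∀ j : ℕ, j ≤ N → ‖Y j - Y 0‖ ≤ j * h * (3 / 2 * c0 * ‖Y 0‖ + c1) := by
    intro j
    induction j with
    | zero => intro _; simp
    | succ j ih =>
      intro hj
      have i1 := ih (by omega)
      have i2 := hY j (by omega)
      have hjN : (j : ℝ) ≤ N := by exact_mod_cast (by omega : j ≤ N)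
      have i3 : (j : ℝ) * h * (3 / 2 * c0 * ‖Y 0‖ + c1) ≤ 1 / 2 * ‖Y 0‖ := by
        calc (j : ℝ) * h * (3 / 2 * c0 * ‖Y 0‖ + c1) ≤ N * h * (3 / 2 * c0 * ‖Y 0‖ + c1) := by
              have : 0 ≤ 3 / 2 * c0 * ‖Y 0‖ + c1 := by positivity
              gcongr
          _ = (N * h * (3 / 2 * c0)) * ‖Y 0‖ + N * h * c1 := by ring
          _ ≤ 1 / 4 * ‖Y 0‖ + 1 / 4 * ‖Y 0‖ := by gcongr
          _ = 1 / 2 * ‖Y 0‖ := by ring
      have i4 : ‖Y j‖ ≤ 3 / 2 * ‖Y 0‖ := by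
        have := norm_le_norm_add_norm_sub' (Y j) (Y 0)
        linarith
      have i5 : ‖Y (j + 1) - Y 0‖ ≤ ‖Y (j + 1) - Y j‖ + ‖Y j - Y 0‖ := by
        have := norm_add_le (Y (j + 1) - Y j) (Y j - Y 0)
        rwa [sub_add_sub_cancel] at this
      have i6 : h * (c0 * ‖Y j‖ + c1) ≤ h * (c0 * (3 / 2 * ‖Y 0‖) + c1) := by gcongr
      push_cast
      nlinarith only [i1, i2, i5, i6]
  have i1 := key N le_rfl
  have i3 : (N : ℝ) * h * (3 / 2 * c0 * ‖Y 0‖ + c1) ≤ 1 / 2 * ‖Y 0‖ := by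
    calc (N : ℝ) * h * (3 / 2 * c0 * ‖Y 0‖ + c1)
        = (N * h * (3 / 2 * c0)) * ‖Y 0‖ + N * h * c1 := by ring
      _ ≤ 1 / 4 * ‖Y 0‖ + 1 / 4 * ‖Y 0‖ := by gcongr
      _ = 1 / 2 * ‖Y 0‖ := by ring
  have i5 := norm_le_norm_add_norm_sub' (Y 0) (Y N)
  rw [norm_sub_rev] at i5
  linarith

/-- lower bound at the site after the shift window -/
private theorem OL2_low {d L : ℕ} {β k h κ Bn : ℝ} (hβ : 0 < β) (hk : 0 < k) (hk1 : k < 1)
    (hh : 0 < h) (hh1 : h ^ (3 / 8 : ℝ) ≤ 1 / 2)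
    (N : ℕ) (G G' ω : ℕ → boxS d L → ℂ) (x : boxS d L) (hBn : 0 ≤ Bn)
    (hG : ∀ j, G (j + 1) = st2 d β k h L (G j) (ω j))
    (hG' : ∀ j, G' (j + 1) = st2 d β k h L (G' j) (ω j))
    (hgd : ∀ j, j < N → ω j x ∈ gdC h)
    (hs : ∀ j, j ≤ N → |∑ l ∈ Finset.range j, Real.sqrt h * (ω l x).re| ≤ ell k * κ)
    (hn : ∀ j, j ≤ N → ‖G j x‖ ≤ k ^ κ) (hn' : ∀ j, j ≤ N → ‖G' j x‖ ≤ k ^ κ)
    (hnb : ∀ j, j ≤ N → ∀ y ∈ (boxNet d L).nb x, ‖G' j y - G j y‖ ≤ Bn)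
    (h0 : N * h * (3 / 2 * ((1 + β) * (2 * k ^ κ) ^ β + 4 * d * k)) ≤ 1 / 4)
    (h1 : N * h * (k ^ (1 - κ) * (2 * d * Bn)) ≤ 1 / 4 * ‖G' 0 x - G 0 x‖) :
    1 / 2 * ‖G' 0 x - G 0 x‖ ≤
      Real.exp (-∑ l ∈ Finset.range N, Real.sqrt h * (ω l x).re) * ‖G' N x - G N x‖ := by
  set Y : ℕ → ℂ := fun j => Complex.exp (-∑ l ∈ Finset.range j,
    ((Real.sqrt h : ℝ) : ℂ) * ω l x) * (G' j x - G j x) with hY
  have hYn : ∀ j, ‖Y j‖ = Real.exp (-∑ l ∈ Finset.range j, Real.sqrt h * (ω l x).re) *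
      ‖G' j x - G j x‖ := by
    intro j
    rw [hY]
    show ‖Complex.exp (-∑ l ∈ Finset.range j, ((Real.sqrt h : ℝ) : ℂ) * ω l x) *
      (G' j x - G j x)‖ = _
    rw [norm_mul, Complex.norm_exp]
    congr 2
    rw [Complex.neg_re, Complex.re_sum]
    congr 1
    refine Finset.sum_congr rfl fun l _ => ?_
    simp
  have hY0 : ‖Y 0‖ = ‖G' 0 x - G 0 x‖ := by
    rw [hYn 0]
    simp
  rw [← hY0, ← hYn N]
  rw [← hY0] at h1
  have hkκ : 0 < k ^ κ := Real.rpow_pos_of_pos hk _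
  refine OL2_gron N h ((1 + β) * (2 * k ^ κ) ^ β + 4 * d * k) (k ^ (1 - κ) * (2 * d * Bn)) hh.le
    (by positivity) (by positivity) Y ?_ h0 h1
  intro j hj
  set a : ℂ := Complex.exp (((Real.sqrt h : ℝ) : ℂ) * ω j x) with ha
  set E : ℂ := Complex.exp (-∑ l ∈ Finset.range (j + 1), ((Real.sqrt h : ℝ) : ℂ) * ω l x) with hE
  have hEa : Complex.exp (-∑ l ∈ Finset.range j, ((Real.sqrt h : ℝ) : ℂ) * ω l x) = E * a := by
    rw [hE, ha, ← Complex.exp_add, Finset.sum_range_succ]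
    congr 1
    ring
  have hYj : Y j = E * (a * (G' j x - G j x)) := by
    rw [hY]
    show Complex.exp (-∑ l ∈ Finset.range j, ((Real.sqrt h : ℝ) : ℂ) * ω l x) *
      (G' j x - G j x) = _
    rw [hEa]
    ring
  have hYj1 : Y (j + 1) = E * (G' (j + 1) x - G (j + 1) x) := rfl
  -- norm of `a`
  have hre : |Real.sqrt h * (ω j x).re| ≤ 1 / 2 := by
    rw [abs_mul, abs_of_nonneg (Real.sqrt_nonneg h)]
    have e1 := Complex.abs_re_le_norm (ω j x)
    have e2 : Real.sqrt h * ‖ω j x‖ ≤ h ^ (3 / 8 : ℝ) := hgd j hj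
    calc Real.sqrt h * |(ω j x).re| ≤ Real.sqrt h * ‖ω j x‖ := by
          have := Real.sqrt_nonneg h
          gcongr
      _ ≤ 1 / 2 := e2.trans hh1
  have han : ‖a‖ = Real.exp (Real.sqrt h * (ω j x).re) := by
    rw [ha, Complex.norm_exp]
    congr 1
    simp
  have ha2 : ‖a‖ ≤ 2 := by
    rw [han]
    have e1 : Real.sqrt h * (ω j x).re ≤ 1 / 2 := (le_abs_self _).trans hre
    have e2 : Real.exp (Real.sqrt h * (ω j x).re) ≤ Real.exp (1 / 2) := Real.exp_le_exp.2 e1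
    have e3 : Real.exp (1 / 2) ≤ 2 := by
      have e4 : Real.exp (1 / 2) * Real.exp (1 / 2) = Real.exp 1 := by
        rw [← Real.exp_add]; norm_num
      have e5 := Real.exp_one_lt_d9
      nlinarith only [e4, e5, hk, hk1, Real.exp_pos (1 / 2)]
    linarith
  have ha1 : 1 / 2 ≤ ‖a‖ := by
    rw [han]
    have e1 : -(1 / 2) ≤ Real.sqrt h * (ω j x).re := (abs_le.1 hre).1
    have e2 := Real.add_one_le_exp (Real.sqrt h * (ω j x).re)
    linarith
  have hEn : ‖E‖ ≤ k ^ (-κ) := by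
    rw [hE, Complex.norm_exp]
    have e1 : (-∑ l ∈ Finset.range (j + 1), ((Real.sqrt h : ℝ) : ℂ) * ω l x).re =
        -∑ l ∈ Finset.range (j + 1), Real.sqrt h * (ω l x).re := by
      rw [Complex.neg_re, Complex.re_sum]
      congr 1
      refine Finset.sum_congr rfl fun l _ => ?_
      simp
    rw [e1, ← OL2_kexp hk κ]
    refine Real.exp_le_exp.2 ?_
    have e2 := (abs_le.1 (hs (j + 1) (by omega))).1
    linarith
  -- one step
  set D : ℂ := G' j x - G j x with hD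
  have hstep : ‖(G' (j + 1) x - G (j + 1) x) - a * D‖ ≤
      h * (1 + β) * (2 * k ^ κ) ^ β * ‖a * D‖ + k * h * (2 * d * Bn + 2 * d * ‖D‖) := by
    have e1 : (G' (j + 1) x - G (j + 1) x) - a * D =
        ((JV β h (a * G' j x) - JV β h (a * G j x)) - (a * G' j x - a * G j x)) +
        (k * h) • (∑ y ∈ (boxNet d L).nb x, (G' j y - G j y) - ((2 * d : ℕ) : ℝ) • D) := by
      rw [hG j, hG' j, hD]
      show (JV β h (a * G' j x) + (k * h) • coupV (boxNet d L) (G' j) x) -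
        (JV β h (a * G j x) + (k * h) • coupV (boxNet d L) (G j) x) - _ = _
      unfold coupV
      rw [Finset.sum_sub_distrib]
      simp only [smul_sub]
      ring
    rw [e1]
    refine (norm_add_le _ _).trans (add_le_add ?_ ?_)
    · have e2 := JV_lip hβ hh.le (a * G' j x) (a * G j x)
      have e3 : max ‖a * G' j x‖ ‖a * G j x‖ ≤ 2 * k ^ κ := by
        rw [norm_mul, norm_mul]
        have f1 := hn j hj.le
        have f2 := hn' j hj.le
        refine max_le ?_ ?_ <;> gcongr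
      have e4 : (max ‖a * G' j x‖ ‖a * G j x‖) ^ β ≤ (2 * k ^ κ) ^ β :=
        Real.rpow_le_rpow (le_max_of_le_left (norm_nonneg _)) e3 hβ.le
      have e5 : a * G' j x - a * G j x = a * D := by rw [hD]; ring
      rw [e5] at e2 ⊢
      refine e2.trans ?_
      gcongr
    · rw [norm_smul, Real.norm_of_nonneg (by positivity)]
      refine mul_le_mul_of_nonneg_left ?_ (by positivity)
      refine (norm_sub_le _ _).trans (add_le_add ?_ ?_)
      · refine (norm_sum_le _ _).trans ?_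
        refine (Finset.sum_le_sum fun y hy => hnb j hj.le y hy).trans ?_
        rw [Finset.sum_const, nsmul_eq_mul]
        have f1 : (((boxNet d L).nb x).card : ℝ) ≤ 2 * d := by
          exact_mod_cast (boxNet d L).nb_card x
        gcongr
      · rw [norm_smul, Real.norm_of_nonneg (Nat.cast_nonneg _)]
        push_cast
        exact le_rfl
  have e1 : Y (j + 1) - Y j = E * ((G' (j + 1) x - G (j + 1) x) - a * D) := by
    rw [hYj1, hYj, hD]; ring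
  rw [e1, norm_mul]
  have hYjn : ‖Y j‖ = ‖E‖ * ‖a * D‖ := by rw [hYj, norm_mul]
  have hED : ‖E‖ * ‖D‖ ≤ 2 * ‖Y j‖ := by
    rw [hYjn, norm_mul]
    have f1 : 0 ≤ ‖E‖ * ‖D‖ := by positivity
    nlinarith only [hk, hk1, ha1, f1]
  have hkk : k ^ (1 - κ) = k * k ^ (-κ) := by
    rw [sub_eq_add_neg, Real.rpow_add hk, Real.rpow_one]
  calc ‖E‖ * ‖(G' (j + 1) x - G (j + 1) x) - a * D‖
      ≤ ‖E‖ * (h * (1 + β) * (2 * k ^ κ) ^ β * ‖a * D‖ + k * h * (2 * d * Bn + 2 * d * ‖D‖)) := by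
        gcongr
    _ = h * ((1 + β) * (2 * k ^ κ) ^ β * ‖Y j‖ + 2 * d * k * (‖E‖ * ‖D‖) +
          ‖E‖ * k * (2 * d * Bn)) := by rw [hYjn]; ring
    _ ≤ h * ((1 + β) * (2 * k ^ κ) ^ β * ‖Y j‖ + 2 * d * k * (2 * ‖Y j‖) +
          k ^ (-κ) * k * (2 * d * Bn)) := by gcongr
    _ = _ := by rw [hkk]; ring


private theorem OL2_markov {Ω : Type} [MeasurableSpace Ω] (μ : Measure Ω) (f : Ω → ℝ)
    (hf : Measurable f) (t B : ℝ) (ht : 0 < t)
    (h : ∫⁻ ω, ENNReal.ofReal (f ω) ∂μ ≤ ENNReal.ofReal B) :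
    μ {ω | t < f ω} ≤ ENNReal.ofReal (B / t) := by
  have h1 : μ {ω | t < f ω} ≤ μ {ω | ENNReal.ofReal t ≤ ENNReal.ofReal (f ω)} :=
    measure_mono fun ω hω => ENNReal.ofReal_le_ofReal (le_of_lt hω)
  refine h1.trans ?_
  have ht' : ENNReal.ofReal t ≠ 0 := by
    rw [Ne, ENNReal.ofReal_eq_zero, not_le]
    exact ht
  have h2 := meas_ge_le_lintegral_div (μ := μ) (f := fun ω => ENNReal.ofReal (f ω))
    hf.ennreal_ofReal.aemeasurable ht' ENNReal.ofReal_ne_top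
  refine h2.trans ?_
  rw [ENNReal.ofReal_div_of_pos ht]
  exact ENNReal.div_le_div_right h _

private theorem OL2_n1 {k h e : ℝ} (hk : 0 < k) (hh : 0 < h) (hke : h ≤ k ^ e) :
    1 ≤ ⌈k ^ e / h⌉₊ ∧ k ^ e ≤ (⌈k ^ e / h⌉₊ : ℝ) * h ∧ (⌈k ^ e / h⌉₊ : ℝ) * h ≤ 2 * k ^ e := by
  have hp : 0 < k ^ e := Real.rpow_pos_of_pos hk _
  have h1 : 0 < k ^ e / h := by positivity
  refine ⟨Nat.ceil_pos.2 h1, ?_, ?_⟩
  · have h2 := Nat.le_ceil (k ^ e / h)
    rwa [div_le_iff₀ hh] at h2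
  · have h2 := (Nat.ceil_lt_add_one h1.le).le
    have h3 : (⌈k ^ e / h⌉₊ : ℝ) * h ≤ (k ^ e / h + 1) * h := by gcongr
    have h4 : (k ^ e / h + 1) * h = k ^ e + h := by field_simp
    linarith

private theorem OL2_fm (d : ℕ) (β : ℝ) (hβ : 0 < β) (e : ℝ) (he : 0 < e) (he1 : e ≤ 1 / 16) :
    ∃ C k0 : ℝ, 1 ≤ C ∧ 0 < k0 ∧ k0 < 1 ∧ ∀ k, 0 < k → k < k0 → ∀ h, 0 < h → h < 1 →
    h ≤ k ^ e → ∀ (L : ℕ) (G : boxS d L → ℂ) (x : boxS d L),
    (∀ v, ‖G v‖ ≤ k ^ (-(e / 4) - (1 + e / 16) * (boxNet d L).dist v x) * ‖G x‖) →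
    ∀ φ φ' : ℝ, 0 ≤ φ → φ ≤ φ' → φ' ≤ 1 → ∀ i : ℕ, i ≤ ⌈k ^ e / h⌉₊ → ∀ y : boxS d L,
      ∫⁻ ω, ENNReal.ofReal ‖trs MN2 β k h L G x ⌈k ^ e / h⌉₊ φ' ω i y -
          trs MN2 β k h L G x ⌈k ^ e / h⌉₊ φ ω i y‖ ∂(PI (MN2.mu d L)) ≤
        ENNReal.ofReal (2 * C * Real.sqrt ((⌈k ^ e / h⌉₊ : ℝ) * h) * (k ^ (-(e / 4)) * ‖G x‖) *
          k ^ ((1 + 15 * e / 16) * (boxNet d L).dist y x)) := by
  obtain ⟨C, hC1, hC⟩ := fm2 MN2 d β hβ
  obtain ⟨k1, p1, q1, r1⟩ := OL2_pow e he (1 / 2) (by norm_num)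
  obtain ⟨k2, p2, q2, r2⟩ := OL2_pow (e / 16) (by positivity) (1 / (32 * (d + 1)))
    (by positivity)
  refine ⟨C, min k1 k2, hC1, lt_min p1 p2, (min_le_left _ _).trans_lt q1, ?_⟩
  intro k hk hk0 h hh hh1 hke L G x hG φ φ' hφ hφφ hφ1 i hi y
  have hk1 : k < 1 := hk0.trans ((min_le_left _ _).trans_lt q1)
  have s1 := r1 k hk (hk0.trans_le (min_le_left _ _))
  have s2 := r2 k hk (hk0.trans_le (min_le_right _ _))
  obtain ⟨n0, nl, nu⟩ := OL2_n1 hk hh hke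
  set n1 : ℕ := ⌈k ^ e / h⌉₊ with hn1
  have hn1h : (n1 : ℝ) * h ≤ 1 := by linarith
  have hih : (i : ℝ) * h ≤ n1 * h := by
    have : (i : ℝ) ≤ n1 := by exact_mod_cast hi
    gcongr
  set u : ℝ := ‖G x‖ with hu
  have hu0 : 0 ≤ u := norm_nonneg _
  set U : boxS d L → ℝ := fun v => prof k (-(e / 4)) (1 + e / 16) x v * u with hU
  set W : boxS d L → ℝ := fun v => prof k 0 (-(1 + 15 * e / 16)) x v with hW
  have hm1 : max |1 + e / 16| 0 = 1 + e / 16 := by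
    rw [abs_of_nonneg (by positivity)]
    exact max_eq_left (by positivity)
  have hm2 : max |(-(1 + 15 * e / 16))| 0 = 1 + 15 * e / 16 := by
    rw [abs_neg, abs_of_nonneg (by positivity)]
    exact max_eq_left (by positivity)
  have hpp : ∀ a b : ℝ, ∀ v : boxS d L, 0 ≤ prof k a b x v := fun a b v => by
    unfold prof
    exact Real.rpow_nonneg hk.le _
  have hUc : ∀ v, k * cpl (boxNet d L) U v ≤ 4 * d * k ^ (1 - (1 + e / 16)) * U v := by
    intro v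
    have e1 := prof_cpl (d := d) (L := L) k (-(e / 4)) (1 + e / 16) hk hk1 x v
    rw [hm1] at e1
    have e2 : cpl (boxNet d L) U v =
        cpl (boxNet d L) (prof k (-(e / 4)) (1 + e / 16) x) v * u := by
      unfold cpl
      rw [hU, add_mul, Finset.sum_mul]
      ring
    rw [e2, ← mul_assoc, hU]
    show _ ≤ 4 * d * k ^ (1 - (1 + e / 16)) * (prof k (-(e / 4)) (1 + e / 16) x v * u)
    rw [← mul_assoc]
    exact mul_le_mul_of_nonneg_right e1 hu0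
  have hWc : ∀ v, k * cpl (boxNet d L) W v ≤ 4 * d * k ^ (1 - (1 + 15 * e / 16)) * W v := by
    intro v
    have e1 := prof_cpl (d := d) (L := L) k 0 (-(1 + 15 * e / 16)) hk hk1 x v
    rw [hm2] at e1
    exact e1
  have hxx : (boxNet d L).dist x x = 0 := (boxNet d L).dist_self x
  have hUx : U x = k ^ (-(e / 4)) * u := by
    show k ^ (-(e / 4) - (1 + e / 16) * ((boxNet d L).dist x x : ℝ)) * u = _
    rw [hxx]
    simp
  have hWx : 1 ≤ W x := by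
    show 1 ≤ k ^ ((0 : ℝ) - (-(1 + 15 * e / 16)) * ((boxNet d L).dist x x : ℝ))
    rw [hxx]
    simp
  have hWy : W y = k ^ ((1 + 15 * e / 16) * ((boxNet d L).dist y x : ℝ)) := by
    show k ^ ((0 : ℝ) - (-(1 + 15 * e / 16)) * ((boxNet d L).dist y x : ℝ)) = _
    congr 1
    ring
  have key := hC k h hk hk1 hh hh1 L x n1 n0 hn1h φ φ' hφ hφφ hφ1 G U W
    (4 * d * k ^ (1 - (1 + e / 16))) (4 * d * k ^ (1 - (1 + 15 * e / 16)))
    (by positivity) (by positivity) (fun v => mul_nonneg (hpp _ _ v) hu0) hUc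
    (fun v => hG v) (fun v => hpp _ _ v) hWx hWc i y (hih.trans hn1h)
  refine key.trans (ENNReal.ofReal_le_ofReal ?_)
  rw [hUx, hWy]
  have hexp : Real.exp ((4 * d * k ^ (1 - (1 + e / 16)) + 4 * d * k ^ (1 - (1 + 15 * e / 16))) *
      (i * h)) ≤ 2 := by
    have f1 : (4 * d * k ^ (1 - (1 + e / 16)) + 4 * d * k ^ (1 - (1 + 15 * e / 16))) *
        (i * h) ≤ 1 / 2 := by
      have g1 : k ^ (1 - (1 + e / 16)) ≤ k ^ (1 - (1 + 15 * e / 16)) :=
        Real.rpow_le_rpow_of_exponent_ge hk hk1.le (by linarith)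
      have g2 : k ^ (1 - (1 + 15 * e / 16)) * (2 * k ^ e) = 2 * k ^ (e / 16) := by
        rw [show k ^ (1 - (1 + 15 * e / 16)) * (2 * k ^ e) =
          2 * (k ^ (1 - (1 + 15 * e / 16)) * k ^ e) by ring, ← Real.rpow_add hk]
        congr 2
        ring
      have g0 : 0 ≤ k ^ (1 - (1 + 15 * e / 16)) := Real.rpow_nonneg hk.le _
      calc (4 * d * k ^ (1 - (1 + e / 16)) + 4 * d * k ^ (1 - (1 + 15 * e / 16))) * (i * h)
          ≤ (4 * d * k ^ (1 - (1 + 15 * e / 16)) + 4 * d * k ^ (1 - (1 + 15 * e / 16))) *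
            (2 * k ^ e) := by
              have : (i : ℝ) * h ≤ 2 * k ^ e := hih.trans nu
              gcongr
        _ = 8 * d * (k ^ (1 - (1 + 15 * e / 16)) * (2 * k ^ e)) := by ring
        _ = 16 * d * k ^ (e / 16) := by rw [g2]; ring
        _ ≤ 16 * d * (1 / (32 * (d + 1))) := by gcongr
        _ ≤ 1 / 2 := by
          rw [mul_one_div, div_le_iff₀ (by positivity)]
          nlinarith only [he, he1]
    have f2 : Real.exp (1 / 2) ≤ 2 := by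
      have e4 : Real.exp (1 / 2) * Real.exp (1 / 2) = Real.exp 1 := by
        rw [← Real.exp_add]; norm_num
      have e5 := Real.exp_one_lt_d9
      nlinarith only [he1, e4, e5, he, Real.exp_pos (1 / 2)]
    exact (Real.exp_le_exp.2 f1).trans f2
  have hd1 : φ' - φ ≤ 1 := by linarith
  have hd0 : 0 ≤ φ' - φ := by linarith
  have hsq := Real.sqrt_nonneg ((n1 : ℝ) * h)
  have hW0 : 0 ≤ k ^ ((1 + 15 * e / 16) * ((boxNet d L).dist y x : ℝ)) := Real.rpow_nonneg hk.le _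
  have hUU : 0 ≤ k ^ (-(e / 4)) * u := mul_nonneg (Real.rpow_nonneg hk.le _) hu0
  calc C * Real.exp ((4 * d * k ^ (1 - (1 + e / 16)) + 4 * d * k ^ (1 - (1 + 15 * e / 16))) *
        (i * h)) * (φ' - φ) * Real.sqrt (n1 * h) * (k ^ (-(e / 4)) * u) *
        k ^ ((1 + 15 * e / 16) * ((boxNet d L).dist y x : ℝ))
      ≤ C * 2 * 1 * Real.sqrt (n1 * h) * (k ^ (-(e / 4)) * u) *
        k ^ ((1 + 15 * e / 16) * ((boxNet d L).dist y x : ℝ)) := by
          have : 0 ≤ C := by linarith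
          gcongr
    _ = _ := by ring


/-- the good event of a pair of shifts -/
private def OL2_Good {d L : ℕ} (k h u : ℝ) (n1 : ℕ) (x : boxS d L)
    (T T' : (ℕ → boxS d L → ℂ) → ℕ → boxS d L → ℂ) : Set (ℕ → boxS d L → ℂ) :=
  {ω | ∑ i ∈ Finset.range n1, k * h * cpl (boxNet d L) (dif (T' ω i) (T ω i)) x ≤
      k ^ (1 / 4 : ℝ) * Real.sqrt (n1 * h) * u ∧
    ∀ v, ‖T' ω n1 v - T ω n1 v‖ ≤
      Real.sqrt (n1 * h) * k ^ (-(1 / 4) : ℝ) * u * k ^ (3 / 4 * ((boxNet d L).dist x v : ℝ))}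

private theorem OL2_good (d : ℕ) (β : ℝ) (hβ : 0 < β) (e : ℝ) (he : 0 < e) (he1 : e ≤ 1 / 16) :
    ∃ C k0 : ℝ, 1 ≤ C ∧ 0 < k0 ∧ k0 < 1 ∧ ∀ k, 0 < k → k < k0 → ∀ h, 0 < h → h < 1 →
    h ≤ k ^ e → ∀ (L : ℕ) (G : boxS d L → ℂ) (x : boxS d L), 0 < ‖G x‖ →
    (∀ v, ‖G v‖ ≤ k ^ (-(e / 4) - (1 + e / 16) * (boxNet d L).dist v x) * ‖G x‖) →
    ∀ φ φ' : ℝ, 0 ≤ φ → φ ≤ φ' → φ' ≤ 1 →
      PI (MN2.mu d L) (OL2_Good k h ‖G x‖ ⌈k ^ e / h⌉₊ x
        (trs MN2 β k h L G x ⌈k ^ e / h⌉₊ φ) (trs MN2 β k h L G x ⌈k ^ e / h⌉₊ φ'))ᶜ ≤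
        ENNReal.ofReal (C * k ^ (1 / 8 : ℝ)) := by
  obtain ⟨C, k1, hC1, p1, q1, hfm⟩ := OL2_fm d β hβ e he he1
  obtain ⟨k2, p2, q2, r2⟩ := OL2_pow (1 / 4) (by norm_num) (1 / 2) (by norm_num)
  obtain ⟨k3, p3, q3, r3⟩ := OL2_pow e he (1 / 2) (by norm_num)
  refine ⟨8 * d * C + 2 * C * 3 ^ d, min k1 (min k2 k3), ?_, lt_min p1 (lt_min p2 p3),
    (min_le_left _ _).trans_lt q1, ?_⟩
  · have : (1 : ℝ) ≤ 3 ^ d := one_le_pow₀ (by norm_num)
    have h2 : (0 : ℝ) ≤ 8 * d * C := by positivity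
    nlinarith
  intro k hk hk0 h hh hh1 hke L G x hu hG φ φ' hφ hφφ hφ1
  have hk1 : k < 1 := hk0.trans ((min_le_left _ _).trans_lt q1)
  have s2 := r2 k hk (hk0.trans_le ((min_le_right _ _).trans (min_le_left _ _)))
  have s3 := r3 k hk (hk0.trans_le ((min_le_right _ _).trans (min_le_right _ _)))
  obtain ⟨n0, nl, nu⟩ := OL2_n1 hk hh hke
  have hf := hfm k hk (hk0.trans_le (min_le_left _ _)) h hh hh1 hke L G x hG φ φ' hφ hφφ hφ1
  set n1 : ℕ := ⌈k ^ e / h⌉₊ with hn1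
  set u : ℝ := ‖G x‖ with hudef
  set T : (ℕ → boxS d L → ℂ) → ℕ → boxS d L → ℂ := trs MN2 β k h L G x n1 φ with hT
  set T' : (ℕ → boxS d L → ℂ) → ℕ → boxS d L → ℂ := trs MN2 β k h L G x n1 φ' with hT'
  set μ := PI (MN2.mu d L) with hμ
  have hn1h : (n1 : ℝ) * h ≤ 1 := by linarith
  have hke0 : 0 < k ^ e := Real.rpow_pos_of_pos hk _
  have hsq : 0 < Real.sqrt ((n1 : ℝ) * h) := Real.sqrt_pos.2 (by linarith)
  have hmT : ∀ i y, Measurable fun ω : ℕ → boxS d L → ℂ => T ω i y := fun i y =>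
    (measurable_pi_apply y).comp (measurable_trs MN2 β k h L G x n1 φ i)
  have hmT' : ∀ i y, Measurable fun ω : ℕ → boxS d L → ℂ => T' ω i y := fun i y =>
    (measurable_pi_apply y).comp (measurable_trs MN2 β k h L G x n1 φ' i)
  have hmD : ∀ i y, Measurable fun ω : ℕ → boxS d L → ℂ => ‖T' ω i y - T ω i y‖ := fun i y =>
    ((hmT' i y).sub (hmT i y)).norm
  set B1 : ℝ := 2 * C * Real.sqrt ((n1 : ℝ) * h) * (k ^ (-(e / 4)) * u) with hB1
  have hk4 : 0 < k ^ (-(e / 4)) := Real.rpow_pos_of_pos hk _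
  have hB10 : 0 ≤ B1 := by positivity
  have hD1 : ∀ i, i ≤ n1 → ∀ y, ∫⁻ ω, ENNReal.ofReal ‖T' ω i y - T ω i y‖ ∂μ ≤
      ENNReal.ofReal B1 := by
    intro i hi y
    refine (hf i hi y).trans (ENNReal.ofReal_le_ofReal ?_)
    have g1 : k ^ ((1 + 15 * e / 16) * ((boxNet d L).dist y x : ℝ)) ≤ 1 :=
      Real.rpow_le_one hk.le hk1.le (by positivity)
    calc B1 * k ^ ((1 + 15 * e / 16) * ((boxNet d L).dist y x : ℝ)) ≤ B1 * 1 := by gcongr
      _ = B1 := mul_one _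
  -- the sum
  set S : (ℕ → boxS d L → ℂ) → ℝ := fun ω =>
    ∑ i ∈ Finset.range n1, k * h * cpl (boxNet d L) (dif (T' ω i) (T ω i)) x with hS
  have hmc : ∀ i, Measurable fun ω : ℕ → boxS d L → ℂ =>
      cpl (boxNet d L) (dif (T' ω i) (T ω i)) x := by
    intro i
    unfold cpl
    exact (Finset.measurable_fun_sum _ fun y _ => hmD i y).add ((hmD i x).const_mul _)
  have hmS : Measurable S :=
    Finset.measurable_fun_sum _ fun i _ => (hmc i).const_mul _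
  have hSi : ∫⁻ ω, ENNReal.ofReal (S ω) ∂μ ≤ ENNReal.ofReal (8 * d * C * k ^ (3 / 8 : ℝ) *
      (Real.sqrt (n1 * h) * u)) := by
    have e1 : ∀ i ∈ Finset.range n1, ∫⁻ ω, ENNReal.ofReal (k * h *
        cpl (boxNet d L) (dif (T' ω i) (T ω i)) x) ∂μ ≤
        ENNReal.ofReal (k * h * (4 * d * B1)) := by
      intro i hi
      have hi' : i ≤ n1 := (Finset.mem_range.1 hi).le
      have e2 : ∀ ω, ENNReal.ofReal (k * h * cpl (boxNet d L) (dif (T' ω i) (T ω i)) x) =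
          ENNReal.ofReal (k * h) * (∑ y ∈ (boxNet d L).nb x, ENNReal.ofReal ‖T' ω i y - T ω i y‖ +
            ENNReal.ofReal ((2 * d : ℕ) : ℝ) * ENNReal.ofReal ‖T' ω i x - T ω i x‖) := by
        intro ω
        rw [ENNReal.ofReal_mul (by positivity)]
        congr 1
        unfold cpl dif
        rw [ENNReal.ofReal_add (Finset.sum_nonneg fun _ _ => norm_nonneg _) (by positivity),
          ENNReal.ofReal_sum_of_nonneg fun _ _ => norm_nonneg _,
          ENNReal.ofReal_mul (Nat.cast_nonneg _)]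
      rw [lintegral_congr e2, lintegral_const_mul _ (by
        refine Measurable.add ?_ ?_
        · exact Finset.measurable_fun_sum _ fun y _ => (hmD i y).ennreal_ofReal
        · exact (hmD i x).ennreal_ofReal.const_mul _)]
      rw [ENNReal.ofReal_mul (p := k * h) (by positivity)]
      refine mul_le_mul' le_rfl ?_
      rw [lintegral_add_left (Finset.measurable_fun_sum _ fun y _ => (hmD i y).ennreal_ofReal),
        lintegral_finsetSum _ fun y _ => (hmD i y).ennreal_ofReal,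
        lintegral_const_mul _ (hmD i x).ennreal_ofReal]
      have e3 : ∑ y ∈ (boxNet d L).nb x, ∫⁻ ω, ENNReal.ofReal ‖T' ω i y - T ω i y‖ ∂μ ≤
          ENNReal.ofReal (2 * d * B1) := by
        refine (Finset.sum_le_sum fun y _ => hD1 i hi' y).trans ?_
        rw [Finset.sum_const, nsmul_eq_mul]
        rw [ENNReal.ofReal_mul (p := 2 * (d : ℝ)) (by positivity)]
        refine mul_le_mul' ?_ le_rfl
        rw [← ENNReal.ofReal_natCast]
        refine ENNReal.ofReal_le_ofReal ?_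
        exact_mod_cast (boxNet d L).nb_card x
      have e4 : ENNReal.ofReal ((2 * d : ℕ) : ℝ) * ∫⁻ ω, ENNReal.ofReal ‖T' ω i x - T ω i x‖ ∂μ ≤
          ENNReal.ofReal (2 * d * B1) := by
        rw [ENNReal.ofReal_mul (p := 2 * (d : ℝ)) (by positivity)]
        refine mul_le_mul' (le_of_eq ?_) (hD1 i hi' x)
        push_cast
        rfl
      refine (add_le_add e3 e4).trans ?_
      rw [← ENNReal.ofReal_add (by positivity) (by positivity)]
      refine ENNReal.ofReal_le_ofReal (le_of_eq ?_)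
      ring
    have e5 : ∀ ω, ENNReal.ofReal (S ω) = ∑ i ∈ Finset.range n1,
        ENNReal.ofReal (k * h * cpl (boxNet d L) (dif (T' ω i) (T ω i)) x) := by
      intro ω
      rw [hS]
      refine ENNReal.ofReal_sum_of_nonneg fun i _ => ?_
      have : 0 ≤ cpl (boxNet d L) (dif (T' ω i) (T ω i)) x := by
        unfold cpl dif
        exact add_nonneg (Finset.sum_nonneg fun _ _ => norm_nonneg _) (by positivity)
      positivity
    rw [lintegral_congr e5, lintegral_finsetSum _ fun i _ =>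
      ((hmc i).const_mul _).ennreal_ofReal]
    refine (Finset.sum_le_sum e1).trans ?_
    rw [Finset.sum_const, Finset.card_range, nsmul_eq_mul, ← ENNReal.ofReal_natCast,
      ← ENNReal.ofReal_mul (Nat.cast_nonneg _)]
    refine ENNReal.ofReal_le_ofReal ?_
    have e6 : (n1 : ℝ) * (k * h * (4 * d * B1)) = ((n1 : ℝ) * h) * k * (4 * d * B1) := by ring
    rw [e6]
    calc ((n1 : ℝ) * h) * k * (4 * d * B1) ≤ 1 * k * (4 * d * B1) := by gcongr
      _ = 8 * d * C * (k * k ^ (-(e / 4))) * (Real.sqrt (n1 * h) * u) := by rw [hB1]; ring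
      _ ≤ 8 * d * C * k ^ (3 / 8 : ℝ) * (Real.sqrt (n1 * h) * u) := by
          have g1 : k * k ^ (-(e / 4)) ≤ k ^ (3 / 8 : ℝ) := by
            have g2 : k * k ^ (-(e / 4)) = k ^ (1 + -(e / 4)) := by
              rw [Real.rpow_add hk, Real.rpow_one]
            rw [g2]
            exact Real.rpow_le_rpow_of_exponent_ge hk hk1.le (by linarith)
          gcongr
  have hP1 : μ {ω | k ^ (1 / 4 : ℝ) * Real.sqrt (n1 * h) * u < S ω} ≤
      ENNReal.ofReal (8 * d * C * k ^ (1 / 8 : ℝ)) := by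
    have hk14 : 0 < k ^ (1 / 4 : ℝ) := Real.rpow_pos_of_pos hk _
    refine (OL2_markov μ S hmS _ _ (by positivity) hSi).trans (ENNReal.ofReal_le_ofReal ?_)
    have g1 : k ^ (3 / 8 : ℝ) = k ^ (1 / 4 : ℝ) * k ^ (1 / 8 : ℝ) := by
      rw [← Real.rpow_add hk]
      norm_num
    rw [g1]
    apply le_of_eq
    field_simp
  -- the final differences
  have hP2 : ∀ v, μ {ω | Real.sqrt (n1 * h) * k ^ (-(1 / 4) : ℝ) * u *
      k ^ (3 / 4 * ((boxNet d L).dist x v : ℝ)) < ‖T' ω n1 v - T ω n1 v‖} ≤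
      ENNReal.ofReal (2 * C * k ^ (1 / 8 : ℝ)) *
        ENNReal.ofReal ((1 / 2 : ℝ) ^ (boxNet d L).dist x v) := by
    intro v
    have hk14 : 0 < k ^ (-(1 / 4) : ℝ) := Real.rpow_pos_of_pos hk _
    have hk34 : 0 < k ^ (3 / 4 * ((boxNet d L).dist x v : ℝ)) := Real.rpow_pos_of_pos hk _
    refine (OL2_markov μ _ (hmD n1 v) _ _ (by positivity) (hf n1 le_rfl v)).trans ?_
    rw [← ENNReal.ofReal_mul (by have := Real.rpow_nonneg hk.le (1 / 8 : ℝ); positivity)]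
    refine ENNReal.ofReal_le_ofReal ?_
    rw [(boxNet d L).dist_comm v x]
    set D : ℕ := (boxNet d L).dist x v with hD
    rw [div_le_iff₀ (by positivity)]
    have g1 : k ^ (-(e / 4)) * k ^ ((1 + 15 * e / 16) * (D : ℝ)) ≤
        k ^ (1 / 8 : ℝ) * (1 / 2) ^ D * (k ^ (-(1 / 4) : ℝ) * k ^ (3 / 4 * (D : ℝ))) := by
      have g2 : (k ^ (1 / 4 : ℝ)) ^ D ≤ (1 / 2 : ℝ) ^ D :=
        pow_le_pow_left₀ (Real.rpow_nonneg hk.le _) s2 _
      have g3 : (k ^ (1 / 4 : ℝ)) ^ D = k ^ (1 / 4 * (D : ℝ)) := by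
        rw [← Real.rpow_natCast, ← Real.rpow_mul hk.le]
      calc k ^ (-(e / 4)) * k ^ ((1 + 15 * e / 16) * (D : ℝ))
          = k ^ (-(e / 4) + (1 + 15 * e / 16) * (D : ℝ)) := by rw [← Real.rpow_add hk]
        _ ≤ k ^ ((1 / 8 : ℝ) + 1 / 4 * (D : ℝ) + (-(1 / 4) + 3 / 4 * (D : ℝ))) := by
            apply Real.rpow_le_rpow_of_exponent_ge hk hk1.le
            have : 0 ≤ e * (D : ℝ) := by positivity
            nlinarith only [he, he1, this]
        _ = k ^ (1 / 8 : ℝ) * (k ^ (1 / 4 : ℝ)) ^ D *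
            (k ^ (-(1 / 4) : ℝ) * k ^ (3 / 4 * (D : ℝ))) := by
            rw [g3, ← Real.rpow_add hk, ← Real.rpow_add hk, ← Real.rpow_add hk]
        _ ≤ _ := by
            have := Real.rpow_nonneg hk.le (1 / 8 : ℝ)
            gcongr
    calc 2 * C * Real.sqrt (n1 * h) * (k ^ (-(e / 4)) * u) * k ^ ((1 + 15 * e / 16) * (D : ℝ))
        = 2 * C * Real.sqrt (n1 * h) * u *
          (k ^ (-(e / 4)) * k ^ ((1 + 15 * e / 16) * (D : ℝ))) := by ring
      _ ≤ 2 * C * Real.sqrt (n1 * h) * u *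
          (k ^ (1 / 8 : ℝ) * (1 / 2) ^ D * (k ^ (-(1 / 4) : ℝ) * k ^ (3 / 4 * (D : ℝ)))) := by
          gcongr
      _ = _ := by ring
  -- union
  have hsub : (OL2_Good k h u n1 x T T')ᶜ ⊆
      {ω | k ^ (1 / 4 : ℝ) * Real.sqrt (n1 * h) * u < S ω} ∪
      ⋃ v, {ω | Real.sqrt (n1 * h) * k ^ (-(1 / 4) : ℝ) * u *
        k ^ (3 / 4 * ((boxNet d L).dist x v : ℝ)) < ‖T' ω n1 v - T ω n1 v‖} := by
    intro ω hω
    by_contra hcon
    rw [Set.mem_union, not_or] at hcon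
    refine hω ⟨not_lt.1 hcon.1, fun v => ?_⟩
    by_contra hv
    exact hcon.2 (Set.mem_iUnion.2 ⟨v, not_le.1 hv⟩)
  refine (measure_mono hsub).trans ((measure_union_le _ _).trans ?_)
  have hk18 : 0 ≤ k ^ (1 / 8 : ℝ) := Real.rpow_nonneg hk.le _
  have hU2 : μ (⋃ v, {ω | Real.sqrt (n1 * h) * k ^ (-(1 / 4) : ℝ) * u *
        k ^ (3 / 4 * ((boxNet d L).dist x v : ℝ)) < ‖T' ω n1 v - T ω n1 v‖}) ≤
      ENNReal.ofReal (2 * C * k ^ (1 / 8 : ℝ) * 3 ^ d) := by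
    refine (measure_iUnion_fintype_le _ _).trans ?_
    refine (Finset.sum_le_sum fun v _ => hP2 v).trans ?_
    rw [← Finset.mul_sum, ← ENNReal.ofReal_sum_of_nonneg fun v _ => by positivity,
      ← ENNReal.ofReal_mul (by positivity)]
    refine ENNReal.ofReal_le_ofReal ?_
    have := (boxNet d L).sum_half x
    gcongr
  refine (add_le_add hP1 hU2).trans ?_
  rw [← ENNReal.ofReal_add (by positivity) (by positivity)]
  refine ENNReal.ofReal_le_ofReal (le_of_eq ?_)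
  ring


/-- regular paths -/
private def OL2_Reg {d L : ℕ} (β k h κ e : ℝ) (G : boxS d L → ℂ) (x : boxS d L) (n1 n : ℕ) :
    Set (ℕ → boxS d L → ℂ) :=
  {ω | ω ∈ RegS MN2 β k h L G x n1 (k ^ (e / 8)) ∧ (∀ j, j < n → ω j x ∈ gdC h) ∧
    Reg2 κ (gz k h ω) n x ∧
    ∀ j, n1 ≤ j → j ≤ n → ‖traj (MN2.st β k h L) G ω j x‖ < k ^ κ}

private noncomputable def OL2_F {d L : ℕ} (β k h : ℝ) (G : boxS d L → ℂ) (x : boxS d L)
    (n1 n : ℕ) (ω : ℕ → boxS d L → ℂ) : ℂ :=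
  Real.exp (-∑ j ∈ Finset.Ico n1 n, Real.sqrt h * (ω j x).re) •
    traj (MN2.st β k h L) G ω n x

private theorem OL2_shz {d L : ℕ} (x : boxS d L) (n1 j : ℕ) (hj : n1 ≤ j) (φ : ℝ)
    (ω : ℕ → boxS d L → ℂ) : (ω + φ • shz MN2 x n1) j = ω j := by
  funext y
  show ω j y + φ • shz MN2 x n1 j y = ω j y
  have h1 : shz MN2 x n1 j y = 0 := by
    unfold shz
    rw [if_neg]
    rintro ⟨_, h⟩
    omega
  rw [h1, smul_zero, add_zero]

private theorem OL2_pair (d : ℕ) (β : ℝ) (hβ : 0 < β) (e : ℝ) (he : 0 < e) (he1 : e ≤ 1 / 16)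
    (κ : ℝ) (hκ : 0 < κ) (hκ1 : κ ≤ 1 / 16) :
    ∃ k0 : ℝ, 0 < k0 ∧ k0 < 1 ∧ ∀ k, 0 < k → k < k0 → ∃ h0 : ℝ, 0 < h0 ∧
    ∀ h, 0 < h → h < h0 → ∀ (L : ℕ) (G : boxS d L → ℂ) (x : boxS d L), 0 < ‖G x‖ →
    ‖G x‖ ≤ k ^ (-(e / (4 * β))) → ∀ n : ℕ, ⌈k ^ e / h⌉₊ ≤ n → n * h ≤ ell k ^ 3 →
    ∀ φ φ' : ℝ, 0 ≤ φ → φ' ≤ 1 → k ^ (e / 16) ≤ φ' - φ → ∀ ω : ℕ → boxS d L → ℂ,
      (ω + φ • shz MN2 x ⌈k ^ e / h⌉₊) ∈ OL2_Reg β k h κ e G x ⌈k ^ e / h⌉₊ n →
      (ω + φ' • shz MN2 x ⌈k ^ e / h⌉₊) ∈ OL2_Reg β k h κ e G x ⌈k ^ e / h⌉₊ n →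
      ω ∈ OL2_Good k h ‖G x‖ ⌈k ^ e / h⌉₊ x
        (trs MN2 β k h L G x ⌈k ^ e / h⌉₊ φ) (trs MN2 β k h L G x ⌈k ^ e / h⌉₊ φ') →
      2 * (1 / 128 * Real.sqrt ((⌈k ^ e / h⌉₊ : ℝ) * h) * k ^ (e / 16) * ‖G x‖) <
        ‖OL2_F β k h G x ⌈k ^ e / h⌉₊ n (ω + φ' • shz MN2 x ⌈k ^ e / h⌉₊) -
          OL2_F β k h G x ⌈k ^ e / h⌉₊ n (ω + φ • shz MN2 x ⌈k ^ e / h⌉₊)‖ := by
  obtain ⟨k1, p1, q1, hss⟩ := site_shift MN2 d β hβ e he he1
  obtain ⟨k2, p2, q2, hrg⟩ := reg2_growth d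
  obtain ⟨k3, p3, q3, r3⟩ := OL2_pow (e / 8) (by positivity) (1 / 2400) (by norm_num)
  obtain ⟨k4, p4, q4, r4⟩ := OL2_pow (7 * e / 16) (by positivity) (1 / 48) (by norm_num)
  obtain ⟨k5, p5, q5, r5⟩ := OL2_pow (1 / 4 - e / 16) (by linarith) (1 / 960) (by norm_num)
  obtain ⟨k6, p6, q6, r6⟩ := OL2_ell 1 (by norm_num) (1 / (256 * (d + 1))) (by positivity)
  obtain ⟨k7, p7, q7, r7⟩ := OL2_ell (κ * β) (by positivity) (1 / (12 * (1 + β) * 2 ^ β))
    (by positivity)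
  refine ⟨min k1 (min k2 (min k3 (min k4 (min k5 (min k6 k7))))),
    lt_min p1 (lt_min p2 (lt_min p3 (lt_min p4 (lt_min p5 (lt_min p6 p7))))),
    (min_le_left _ _).trans_lt q1, ?_⟩
  intro k hk hk0
  simp only [lt_min_iff] at hk0
  obtain ⟨t1, t2, t3, t4, t5, t6, t7⟩ := hk0
  have hk1 : k < 1 := t1.trans q1
  obtain ⟨h1, hh1, hss1⟩ := hss k hk t1 (k ^ e) (Real.rpow_pos_of_pos hk _)
  refine ⟨min h1 (min (k ^ e) ((1 / 2) ^ (8 / 3 : ℝ))), lt_min hh1 (lt_min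
    (Real.rpow_pos_of_pos hk _) (by positivity)), ?_⟩
  intro h hh hh0 L G x hu hux n hn1n hnh φ φ' hφ hφ1 hΔ ω hR hR' hgood
  simp only [lt_min_iff] at hh0
  obtain ⟨w1, w2, w3⟩ := hh0
  have hh38 : h ^ (3 / 8 : ℝ) ≤ 1 / 2 := by
    have e1 := Real.rpow_le_rpow hh.le w3.le (by norm_num : (0 : ℝ) ≤ 3 / 8)
    rwa [← Real.rpow_mul (by norm_num), show (8 / 3 : ℝ) * (3 / 8) = 1 by norm_num,
      Real.rpow_one] at e1
  obtain ⟨n0, nl, nu⟩ := OL2_n1 hk hh w2.le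
  have hss2 := hss1 h hh w1 L G x hux ⌈k ^ e / h⌉₊ ⌈k ^ e / h⌉₊ rfl (by omega) φ φ' hφ
    (by have := Real.rpow_nonneg hk.le (e / 16); linarith) hφ1 ω hR.1 hR'.1 ⌈k ^ e / h⌉₊ le_rfl
  set n1 : ℕ := ⌈k ^ e / h⌉₊ with hn1
  set u : ℝ := ‖G x‖ with hudef
  set T : ℕ → boxS d L → ℂ := trs MN2 β k h L G x n1 φ ω with hT
  set T' : ℕ → boxS d L → ℂ := trs MN2 β k h L G x n1 φ' ω with hT'
  have hke0 : 0 < k ^ e := Real.rpow_pos_of_pos hk _
  have hn1h : 0 < (n1 : ℝ) * h := by linarith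
  set sq : ℝ := Real.sqrt ((n1 : ℝ) * h) with hsq
  have hsq0 : 0 < sq := Real.sqrt_pos.2 hn1h
  have hsqk : k ^ (e / 2) ≤ sq := by
    rw [hsq]
    apply Real.le_sqrt_of_sq_le
    rw [← Real.rpow_natCast, ← Real.rpow_mul hk.le]
    rw [show e / 2 * ((2 : ℕ) : ℝ) = e by push_cast; ring]
    exact nl
  set Δ : ℝ := φ' - φ with hΔdef
  have hk16 : 0 < k ^ (e / 16) := Real.rpow_pos_of_pos hk _
  have hΔ0 : 0 < Δ := hk16.trans_le hΔ
  obtain ⟨g1, g2⟩ := hgood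
  have g1' : ∑ i ∈ Finset.range n1, k * h * cpl (boxNet d L) (dif (T' i) (T i)) x ≤
      k ^ (1 / 4 : ℝ) * sq * u := g1
  have g2' : ∀ v, ‖T' n1 v - T n1 v‖ ≤
      sq * k ^ (-(1 / 4) : ℝ) * u * k ^ (3 / 4 * ((boxNet d L).dist x v : ℝ)) := g2
  -- lower bound at time `n1`
  have hlow : 1 / 16 * (sq * Δ * u) ≤ ‖T' n1 x - T n1 x‖ := by
    have e1 := hss2.2
    rw [min_self] at e1
    set τ : ℝ := (1 + Real.sqrt h * (Δ / (MN2.C * Real.sqrt n1))) ^ n1 - 1 with hτ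
    have hC8 : MN2.C = 8 := rfl
    have hτ1 : sq * Δ / 8 ≤ τ := by
      have e2 : (0 : ℝ) ≤ Real.sqrt h * (Δ / (MN2.C * Real.sqrt n1)) := by
        rw [hC8]; positivity
      have e3 := one_add_mul_le_pow (a := Real.sqrt h * (Δ / (MN2.C * Real.sqrt n1)))
        (by linarith only [he, he1, e2]) n1
      have e4 : (n1 : ℝ) * (Real.sqrt h * (Δ / (MN2.C * Real.sqrt n1))) = sq * Δ / 8 := by
        have e5 : (0 : ℝ) < n1 := by exact_mod_cast n0
        have e6 : 0 < Real.sqrt n1 := Real.sqrt_pos.2 e5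
        have e7 : (n1 : ℝ) = Real.sqrt n1 * Real.sqrt n1 := (Real.mul_self_sqrt e5.le).symm
        rw [hC8, hsq, Real.sqrt_mul e5.le]
        calc (n1 : ℝ) * (Real.sqrt h * (Δ / (8 * Real.sqrt n1)))
            = (Real.sqrt n1 * Real.sqrt n1) * (Real.sqrt h * (Δ / (8 * Real.sqrt n1))) := by
              rw [← e7]
          _ = _ := by field_simp
      rw [hτ]
      linarith only [e3, e4]
    have e2 : ‖τ • G x‖ = τ * u := by
      rw [norm_smul, Real.norm_of_nonneg]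
      have : 0 ≤ sq * Δ / 8 := by positivity
      linarith only [hτ1, this]
    have e3 : τ * u ≤ ‖T' n1 x - T n1 x‖ + ‖T' n1 x - T n1 x - τ • G x‖ := by
      rw [← e2]
      have := norm_sub_le (T' n1 x - T n1 x) (T' n1 x - T n1 x - τ • G x)
      rwa [sub_sub_cancel] at this
    have f1 : k ^ e ≤ 1 / 48 * (sq * Δ) := by
      have : k ^ e = k ^ (7 * e / 16) * (k ^ (e / 2) * k ^ (e / 16)) := by
        rw [← Real.rpow_add hk, ← Real.rpow_add hk]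
        congr 1
        ring
      rw [this]
      have h4 := r4 k hk t4
      have := Real.rpow_nonneg hk.le (7 * e / 16)
      have := Real.rpow_nonneg hk.le (e / 2)
      gcongr
    have f2 : 50 * k ^ (e / 8) * sq * Δ ≤ 1 / 48 * (sq * Δ) := by
      have h4 := r3 k hk t3
      have f0 : 0 < sq * Δ := by positivity
      nlinarith only [he, he1, hh, h4, w2, f1]
    have f3 : 20 * (k ^ (1 / 4 : ℝ) * sq * u) ≤ 1 / 48 * (sq * Δ) * u := by
      have h4 := r5 k hk t5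
      have h5 : k ^ (1 / 4 : ℝ) = k ^ (1 / 4 - e / 16) * k ^ (e / 16) := by
        rw [← Real.rpow_add hk]
        congr 1
        ring
      rw [h5]
      have h6 : k ^ (1 / 4 - e / 16) * k ^ (e / 16) ≤ 1 / 960 * Δ := by
        have := Real.rpow_nonneg hk.le (1 / 4 - e / 16)
        gcongr
      calc 20 * (k ^ (1 / 4 - e / 16) * k ^ (e / 16) * sq * u) ≤
            20 * (1 / 960 * Δ * sq * u) := by gcongr
        _ = _ := by ring
    have f4 : (50 * k ^ (e / 8) * sq * Δ + k ^ e) * u ≤ (1 / 24 * (sq * Δ)) * u := by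
      apply mul_le_mul_of_nonneg_right _ hu.le
      linarith only [f1, f2]
    have f5 : sq * Δ / 8 * u ≤ τ * u := by gcongr
    nlinarith only [g1, e1, e3, f3, f4, f5, e1, e3, f3, f4, f5, g1']
  -- growth after time `n1`
  set N : ℕ := n - n1 with hN
  have hNn : n1 + N = n := by omega
  have hNh : (N : ℝ) * h ≤ ell k ^ 3 := by
    have : (N : ℝ) ≤ n := by exact_mod_cast (by omega : N ≤ n)
    calc (N : ℝ) * h ≤ n * h := by gcongr
      _ ≤ _ := hnh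
  have hN0 : 0 ≤ (N : ℝ) * h := by positivity
  have hωs : ∀ j, (ω + φ • shz MN2 x n1) (n1 + j) = ω (n1 + j) := fun j =>
    OL2_shz x n1 (n1 + j) (by omega) φ ω
  have hωs' : ∀ j, (ω + φ' • shz MN2 x n1) (n1 + j) = ω (n1 + j) := fun j =>
    OL2_shz x n1 (n1 + j) (by omega) φ' ω
  have hTs : ∀ j, T (n1 + (j + 1)) = st2 d β k h L (T (n1 + j)) (ω (n1 + j)) := by
    intro j
    show MN2.st β k h L (traj (MN2.st β k h L) G (ω + φ • shz MN2 x n1) (n1 + j))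
      ((ω + φ • shz MN2 x n1) (n1 + j)) = _
    rw [hωs, st2_eq]
    rfl
  have hTs' : ∀ j, T' (n1 + (j + 1)) = st2 d β k h L (T' (n1 + j)) (ω (n1 + j)) := by
    intro j
    show MN2.st β k h L (traj (MN2.st β k h L) G (ω + φ' • shz MN2 x n1) (n1 + j))
      ((ω + φ' • shz MN2 x n1) (n1 + j)) = _
    rw [hωs', st2_eq]
    rfl
  have hDS : ∀ j, DStep (boxNet d L) h k (fun y => Real.sqrt h * (ω (n1 + j) y).re)
      (dif (T' (n1 + j)) (T (n1 + j))) (dif (T' (n1 + (j + 1))) (T (n1 + (j + 1)))) := by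
    intro j
    have e1 := (PS2 d β k hβ hk.le).dd h L (T' (n1 + j), T (n1 + j)) (ω (n1 + j)) hh
    rw [hTs j, hTs' j]
    exact e1
  have hR2 : Reg2 κ (fun j y => Real.sqrt h * (ω (n1 + j) y).re / ell k) N x := by
    have e1 := reg2_sub κ (gz k h (ω + φ • shz MN2 x n1)) n n1 hn1n x hR.2.2.1
    have e2 : (fun j => gz k h (ω + φ • shz MN2 x n1) (n1 + j)) =
        fun j y => Real.sqrt h * (ω (n1 + j) y).re / ell k := by
      funext j y
      unfold gz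
      rw [hωs]
    rwa [e2] at e1
  set A : ℝ := sq * k ^ (-(1 / 4) : ℝ) * u with hA
  have hk14 : 0 < k ^ (-(1 / 4) : ℝ) := Real.rpow_pos_of_pos hk _
  have hA0 : 0 ≤ A := by positivity
  have hgr := hrg k hk t2 L h κ (3 / 4) A hh (by norm_num) le_rfl hA0
    (fun j y => Real.sqrt h * (ω (n1 + j) y).re)
    (fun j => dif (T' (n1 + j)) (T (n1 + j))) N hNh hDS x hR2
    (fun v => -(3 / 4 * ((boxNet d L).dist x v : ℝ))) (by
      intro v y hy
      have e1 := (boxNet d L).dist_tri x y v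
      have e2 := (boxNet d L).dist_nb v y hy
      rw [(boxNet d L).dist_comm v y] at e2
      rw [e2] at e1
      have e3 : ((boxNet d L).dist x v : ℝ) ≤ (boxNet d L).dist x y + 1 := by exact_mod_cast e1
      show -(3 / 4 * ((boxNet d L).dist x y : ℝ)) ≤
        -(3 / 4 * ((boxNet d L).dist x v : ℝ)) + 3 / 4
      linarith only [e3]) (by
      intro v
      show ‖T' (n1 + 0) v - T (n1 + 0) v‖ ≤ A * Real.exp (ell k *
        (-(3 / 4 * ((boxNet d L).dist x v : ℝ))))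
      rw [OL2_kexp hk, neg_neg]
      exact g2' v)
  -- apply the lower bound
  have hkκ : 0 < k ^ κ := Real.rpow_pos_of_pos hk _
  have hfin := OL2_low (d := d) (L := L) (β := β) (k := k) (h := h) (κ := κ)
    (Bn := 2 * A * k ^ (3 / 4 - 2 * κ)) hβ hk hk1 hh hh38 N (fun j => T (n1 + j))
    (fun j => T' (n1 + j)) (fun j => ω (n1 + j)) x
    (by have := Real.rpow_nonneg hk.le (3 / 4 - 2 * κ); positivity) hTs hTs'
    (by
      intro j hj
      have e1 := hR.2.1 (n1 + j) (by omega)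
      rw [hωs] at e1
      exact e1)
    (by
      intro j hj
      have e1 := hR2.2 0 j (Nat.zero_le _) hj
      rw [← Finset.range_eq_Ico] at e1
      have hl := OL2_ell0 hk hk1
      have e2 : ∑ l ∈ Finset.range j, Real.sqrt h * (ω (n1 + l) x).re =
          ell k * ∑ l ∈ Finset.range j, Real.sqrt h * (ω (n1 + l) x).re / ell k := by
        rw [Finset.mul_sum]
        refine Finset.sum_congr rfl fun l _ => ?_
        field_simp
      rw [e2, abs_mul, abs_of_pos hl]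
      exact mul_le_mul_of_nonneg_left e1 hl.le)
    (fun j hj => (hR.2.2.2 (n1 + j) (by omega) (by omega)).le)
    (fun j hj => (hR'.2.2.2 (n1 + j) (by omega) (by omega)).le)
    (by
      intro j hj y hy
      have e1 := hgr j hj y
      have e2 : (boxNet d L).dist x y = 1 := (boxNet d L).dist_nb x y hy
      refine e1.trans (le_of_eq ?_)
      rw [e2, OL2_kexp hk]
      congr 2
      push_cast
      ring)
    (by
      have h7 := r7 k hk t7
      have h6 := r6 k hk t6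
      rw [Real.rpow_one] at h6
      have e1 : (2 * k ^ κ) ^ β = 2 ^ β * k ^ (κ * β) := by
        rw [Real.mul_rpow (by norm_num) hkκ.le, ← Real.rpow_mul hk.le]
      rw [e1]
      have h2β : 0 < (2 : ℝ) ^ β := by positivity
      calc (N : ℝ) * h * (3 / 2 * ((1 + β) * (2 ^ β * k ^ (κ * β)) + 4 * d * k))
          ≤ ell k ^ 3 * (3 / 2 * ((1 + β) * (2 ^ β * k ^ (κ * β)) + 4 * d * k)) := by
            have := Real.rpow_nonneg hk.le (κ * β)
            gcongr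
        _ = 3 / 2 * (1 + β) * 2 ^ β * (ell k ^ 3 * k ^ (κ * β)) +
            6 * d * (ell k ^ 3 * k) := by ring
        _ ≤ 3 / 2 * (1 + β) * 2 ^ β * (1 / (12 * (1 + β) * 2 ^ β)) +
            6 * d * (1 / (256 * (d + 1))) := by gcongr
        _ = 1 / 8 + 6 * d * (1 / (256 * (d + 1))) := by
            congr 1
            field_simp
            norm_num
        _ ≤ 1 / 8 + 1 / 8 := by
            gcongr
            rw [mul_one_div, div_le_iff₀ (by positivity)]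
            nlinarith only [he, he1]
        _ = 1 / 4 := by norm_num)
    (by
      show (N : ℝ) * h * (k ^ (1 - κ) * (2 * d * (2 * A * k ^ (3 / 4 - 2 * κ)))) ≤
        1 / 4 * ‖T' n1 x - T n1 x‖
      refine le_trans ?_ (mul_le_mul_of_nonneg_left hlow (by norm_num))
      have h6 := r6 k hk t6
      rw [Real.rpow_one] at h6
      have e1 : k ^ (1 - κ) * (2 * d * (2 * A * k ^ (3 / 4 - 2 * κ))) =
          4 * d * (sq * u) * (k ^ (3 / 2 - 3 * κ - e / 16) * k ^ (e / 16)) := by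
        rw [hA]
        have e2 : k ^ (1 - κ) * k ^ (-(1 / 4) : ℝ) * k ^ (3 / 4 - 2 * κ) =
            k ^ (3 / 2 - 3 * κ - e / 16) * k ^ (e / 16) := by
          rw [← Real.rpow_add hk, ← Real.rpow_add hk, ← Real.rpow_add hk]
          congr 1
          ring
        rw [← e2]
        ring
      have e3 : k ^ (3 / 2 - 3 * κ - e / 16) ≤ k := by
        calc k ^ (3 / 2 - 3 * κ - e / 16) ≤ k ^ (1 : ℝ) :=
              Real.rpow_le_rpow_of_exponent_ge hk hk1.le (by linarith only [he, he1, hκ1])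
          _ = k := Real.rpow_one k
      rw [e1]
      calc (N : ℝ) * h * (4 * d * (sq * u) * (k ^ (3 / 2 - 3 * κ - e / 16) * k ^ (e / 16)))
          ≤ ell k ^ 3 * (4 * d * (sq * u) * (k * Δ)) := by
            have := Real.rpow_nonneg hk.le (3 / 2 - 3 * κ - e / 16)
            have hl3 : 0 ≤ ell k ^ 3 := pow_nonneg (OL2_ell0 hk hk1).le 3
            gcongr
        _ = 4 * d * (sq * u * Δ) * (ell k ^ 3 * k) := by ring
        _ ≤ 4 * d * (sq * u * Δ) * (1 / (256 * (d + 1))) := by gcongr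
        _ = (4 * d * (1 / (256 * (d + 1)))) * (sq * u * Δ) := by ring
        _ ≤ (1 / 64) * (sq * u * Δ) := by
            gcongr
            rw [mul_one_div, div_le_iff₀ (by positivity)]
            nlinarith only [he, he1]
        _ = _ := by ring)
  have hF : ‖OL2_F β k h G x n1 n (ω + φ' • shz MN2 x n1) -
      OL2_F β k h G x n1 n (ω + φ • shz MN2 x n1)‖ =
      Real.exp (-∑ l ∈ Finset.range N, Real.sqrt h * (ω (n1 + l) x).re) *
        ‖T' (n1 + N) x - T (n1 + N) x‖ := by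
    have e1 : ∀ φ'' : ℝ, ∑ j ∈ Finset.Ico n1 n,
        Real.sqrt h * ((ω + φ'' • shz MN2 x n1) j x).re =
        ∑ l ∈ Finset.range N, Real.sqrt h * (ω (n1 + l) x).re := by
      intro φ''
      rw [Finset.sum_Ico_eq_sum_range]
      refine Finset.sum_congr rfl fun l _ => ?_
      rw [OL2_shz x n1 (n1 + l) (by omega) φ'' ω]
    unfold OL2_F
    rw [e1 φ', e1 φ, ← smul_sub, norm_smul, Real.norm_of_nonneg (Real.exp_pos _).le, hNn]
    rfl
  rw [hF]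
  have hfin' : 1 / 2 * ‖T' n1 x - T n1 x‖ ≤
      Real.exp (-∑ l ∈ Finset.range N, Real.sqrt h * (ω (n1 + l) x).re) *
        ‖T' (n1 + N) x - T (n1 + N) x‖ := hfin
  have e1 : sq * k ^ (e / 16) * u ≤ sq * Δ * u := by gcongr
  have e2 : 0 < sq * k ^ (e / 16) * u := by positivity
  linarith only [hlow, hfin', e1, e2]


private theorem OL2_pr (h : ℝ) (a : ℕ → ℂ) (n : ℕ) (w : ℂ) :
    ‖pr (fun j => MN2.A h (a j)) 0 n w‖ =
      Real.exp (∑ j ∈ Finset.range n, Real.sqrt h * (a j).re) * ‖w‖ := by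
  induction n with
  | zero =>
    rw [pr_self]
    simp
  | succ n ih =>
    rw [pr_succ _ (Nat.zero_le n)]
    show ‖Complex.exp (((Real.sqrt h : ℝ) : ℂ) * a n) *
      pr (fun j => MN2.A h (a j)) 0 n w‖ = _
    rw [norm_mul, ih, Complex.norm_exp, Finset.sum_range_succ, Real.exp_add]
    have e1 : (((Real.sqrt h : ℝ) : ℂ) * a n).re = Real.sqrt h * (a n).re := by simp
    rw [e1]
    ring

private theorem OL2_coord {d L : ℕ} (j : ℕ) (x : boxS d L) (S : Set ℂ) (hS : MeasurableSet S) :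
    PI (Measure.pi fun _ : boxS d L => gC) {ω | ω j x ∈ S} = gC S := by
  have h1 : MeasurableSet {ξ : boxS d L → ℂ | ξ x ∈ S} := (measurable_pi_apply x) hS
  have h2 := map_coord (μ := (Measure.pi fun _ : boxS d L => gC)) j
  have h3 : PI (Measure.pi fun _ : boxS d L => gC) {ω | ω j x ∈ S} =
      ((PI (Measure.pi fun _ : boxS d L => gC)).map (fun ω => ω j)) {ξ | ξ x ∈ S} := by
    rw [Measure.map_apply (measurable_pi_apply j) h1]
    rfl
  rw [h3, h2]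
  exact (measurePreserving_eval (fun _ : boxS d L => gC) x).measure_preimage
    hS.nullMeasurableSet

private theorem OL2_RegM {d L : ℕ} (β k h κ e : ℝ) (hk : 0 < k) (hk1 : k < 1) (hh : 0 < h)
    (hh1 : h < 1) (he : 0 < e) (G : boxS d L → ℂ) (x : boxS d L) (n1 n : ℕ) :
    MeasurableSet (OL2_Reg β k h κ e G x n1 n) := by
  have h0 : OL2_Reg β k h κ e G x n1 n =
      RegS MN2 β k h L G x n1 (k ^ (e / 8)) ∩ ({ω | ∀ j, j < n → ω j x ∈ gdC h} ∩
        ({ω | Reg2 κ (gz k h ω) n x} ∩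
          {ω | ∀ j, n1 ≤ j → j ≤ n → ‖traj (MN2.st β k h L) G ω j x‖ < k ^ κ})) := rfl
  rw [h0]
  refine MeasurableSet.inter (measurableSet_RegS MN2 β k h hh hh1 L G x n1 _
    (Real.rpow_pos_of_pos hk _) (Real.rpow_le_one hk.le hk1.le (by positivity)))
    (MeasurableSet.inter ?_ (MeasurableSet.inter ?_ ?_))
  · have h1 : {ω : ℕ → boxS d L → ℂ | ∀ j, j < n → ω j x ∈ gdC h} =
        ⋂ j, ⋂ (_ : j < n), {ω | ω j x ∈ gdC h} := by
      ext ω
      simp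
    rw [h1]
    refine MeasurableSet.iInter fun j => MeasurableSet.iInter fun _ => ?_
    exact ((measurable_pi_apply x).comp (measurable_pi_apply j)) (MN2.mgd h)
  · have h1 : Measurable fun ω : ℕ → boxS d L → ℂ => gz k h ω := by
      refine measurable_pi_lambda _ fun j => measurable_pi_lambda _ fun y => ?_
      have h2 : Measurable fun ω : ℕ → boxS d L → ℂ => ω j y :=
        (measurable_pi_apply y).comp (measurable_pi_apply j)
      exact ((Complex.measurable_re.comp h2).const_mul _).div_const _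
    exact h1 (measurableSet_Reg2 κ n x)
  · have h1 : {ω : ℕ → boxS d L → ℂ | ∀ j, n1 ≤ j → j ≤ n →
        ‖traj (MN2.st β k h L) G ω j x‖ < k ^ κ} =
        ⋂ j, ⋂ (_ : n1 ≤ j), ⋂ (_ : j ≤ n),
          {ω | ‖traj (MN2.st β k h L) G ω j x‖ < k ^ κ} := by
      ext ω
      simp
    rw [h1]
    refine MeasurableSet.iInter fun j => MeasurableSet.iInter fun _ =>
      MeasurableSet.iInter fun _ => ?_
    have h2 : Measurable fun ω : ℕ → boxS d L → ℂ => traj (MN2.st β k h L) G ω j x :=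
      (measurable_pi_apply x).comp ((measurable_traj (MN2.st β k h L)
        (MN2.measurable_st β k h L) j).comp (measurable_const.prodMk measurable_id))
    exact measurableSet_lt h2.norm measurable_const

private theorem OL2_FM {d L : ℕ} (β k h : ℝ) (G : boxS d L → ℂ) (x : boxS d L) (n1 n : ℕ) :
    Measurable (OL2_F β k h G x n1 n) := by
  have h1 : Measurable fun ω : ℕ → boxS d L → ℂ =>
      Real.exp (-∑ j ∈ Finset.Ico n1 n, Real.sqrt h * (ω j x).re) := by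
    refine Real.measurable_exp.comp (Measurable.neg ?_)
    refine Finset.measurable_fun_sum _ fun j _ => ?_
    have h2 : Measurable fun ω : ℕ → boxS d L → ℂ => ω j x :=
      (measurable_pi_apply x).comp (measurable_pi_apply j)
    exact (Complex.measurable_re.comp h2).const_mul _
  have h2 : Measurable fun ω : ℕ → boxS d L → ℂ => traj (MN2.st β k h L) G ω n x :=
    (measurable_pi_apply x).comp ((measurable_traj (MN2.st β k h L)
      (MN2.measurable_st β k h L) n).comp (measurable_const.prodMk measurable_id))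
  exact h1.smul h2

theorem ol2 (d : ℕ) (β : ℝ) (hβ : 0 < β) : ∃ e1 : ℝ, 0 < e1 ∧
    ∀ e, 0 < e → e ≤ e1 → ∀ κ, 0 < κ → κ ≤ 1 / 16 → ∃ k0 : ℝ, 0 < k0 ∧ k0 < 1 ∧
    ∀ k, 0 < k → k < k0 → ∃ h0 : ℝ, 0 < h0 ∧ ∀ h, 0 < h → h < h0 →
    ∀ (L : ℕ) (G : boxS d L → ℂ) (x : boxS d L),
    (∀ v, ‖G v‖ ≤ k ^ (-(e / 4) - (1 + e / 16) * (boxNet d L).dist v x) * ‖G x‖) →
    ‖G x‖ ≤ k ^ (-(e / (4 * β))) →
    ∀ n : ℕ, ⌈k ^ e / h⌉₊ ≤ n → n * h ≤ ell k ^ 3 →
      PI (Measure.pi fun _ : boxS d L => gC) {ω | Reg2 κ (gz k h ω) n x ∧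
          (∀ j, ⌈k ^ e / h⌉₊ ≤ j → j ≤ n → ‖traj (st2 d β k h L) G ω j x‖ < k ^ κ) ∧
          ‖traj (st2 d β k h L) G ω n x‖ <
            k ^ (2 * e) * Real.exp (ell k * ∑ j ∈ Finset.range n, gz k h ω j x) * ‖G x‖}
        ≤ ENNReal.ofReal (k ^ (e / 100)) := by
  refine ⟨1 / 16, by norm_num, fun e he he1 κ hκ hκ1 => ?_⟩
  obtain ⟨C2, k1, hC2, p1, q1, hgood⟩ := OL2_good d β hβ e he he1
  obtain ⟨k2, p2, q2, hpair⟩ := OL2_pair d β hβ e he he1 κ hκ hκ1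
  obtain ⟨C3, k3, hC3, p3, q3, hreg⟩ := regS_prob MN2 d β hβ e he he1
  obtain ⟨k4, p4, q4, r4⟩ := OL2_pow (23 * e / 16) (by positivity) (1 / 256) (by norm_num)
  obtain ⟨k5, p5, q5, r5⟩ := OL2_pow (e / 64 - e / 100) (by linarith)
    (1 / (C3 + 1 + 2 * (2 + C2))) (by positivity)
  refine ⟨min k1 (min k2 (min k3 (min k4 k5))), lt_min p1 (lt_min p2 (lt_min p3
    (lt_min p4 p5))), (min_le_left _ _).trans_lt q1, ?_⟩
  intro k hk hk0
  simp only [lt_min_iff] at hk0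
  obtain ⟨t1, t2, t3, t4, t5⟩ := hk0
  have hk1 : k < 1 := t1.trans q1
  obtain ⟨h2, hh2, hpair2⟩ := hpair k hk t2
  obtain ⟨h3, hh3, hreg3⟩ := hreg k hk t3
  obtain ⟨h4, hh4, htail⟩ := MN2.tail
  have hl0 := OL2_ell0 hk hk1
  have hke0 : 0 < k ^ e := Real.rpow_pos_of_pos hk _
  have hke2 : 0 < k ^ (e / 2) := Real.rpow_pos_of_pos hk _
  refine ⟨min h2 (min h3 (min h4 (min 1 (min (k ^ e) (k ^ (e / 2) / (ell k ^ 3 + 1)))))),
    lt_min hh2 (lt_min hh3 (lt_min hh4 (lt_min one_pos (lt_min hke0 (by positivity))))), ?_⟩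
  intro h hh hh0 L G x hG hux n hn1n hnh
  simp only [lt_min_iff] at hh0
  obtain ⟨w2, w3, w4, w5, w6, w7⟩ := hh0
  rcases (norm_nonneg (G x)).eq_or_lt with hu0 | hu
  · -- no event
    have hemp : {ω : ℕ → boxS d L → ℂ | Reg2 κ (gz k h ω) n x ∧
          (∀ j, ⌈k ^ e / h⌉₊ ≤ j → j ≤ n → ‖traj (st2 d β k h L) G ω j x‖ < k ^ κ) ∧
          ‖traj (st2 d β k h L) G ω n x‖ <
            k ^ (2 * e) * Real.exp (ell k * ∑ j ∈ Finset.range n, gz k h ω j x) * ‖G x‖} = ∅ := by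
      ext ω
      simp only [Set.mem_ofPred_eq, Set.mem_empty_iff_false, iff_false]
      rintro ⟨_, _, h3⟩
      rw [← hu0, mul_zero] at h3
      exact absurd h3 (not_lt.2 (norm_nonneg _))
    rw [hemp, measure_empty]
    exact zero_le
  obtain ⟨n0, nl, nu⟩ := OL2_n1 hk hh w6.le
  have hP2 := fun φ φ' (a1 : 0 ≤ φ) (a2 : φ ≤ φ') (a3 : φ' ≤ 1) =>
    hgood k hk t1 h hh w5 w6.le L G x hu hG φ φ' a1 a2 a3
  have hP3 := hpair2 h hh w2 L G x hu hux n hn1n hnh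
  have hP1 := hreg3 h hh w3 L G x x hux hu (-(e / 4)) (by
    rw [(boxNet d L).dist_self x]
    apply Real.rpow_le_rpow_of_exponent_ge hk hk1.le
    push_cast
    linarith) (fun v => hG v) ⌈k ^ e / h⌉₊ (by omega)
  set n1 : ℕ := ⌈k ^ e / h⌉₊ with hn1
  set u : ℝ := ‖G x‖ with hudef
  set μ := PI (Measure.pi fun _ : boxS d L => gC) with hμ
  have hP1' : μ (RegS MN2 β k h L G x n1 (k ^ (e / 8)))ᶜ ≤ ENNReal.ofReal (C3 * k ^ (e / 2)) :=
    hP1
  set ρ : ℝ := 1 / 128 * Real.sqrt ((n1 : ℝ) * h) * k ^ (e / 16) * u with hρ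
  have hk16 : 0 < k ^ (e / 16) := Real.rpow_pos_of_pos hk _
  have hk18 : 0 < k ^ (1 / 8 : ℝ) := Real.rpow_pos_of_pos hk _
  have hρ0 : 0 ≤ ρ := by positivity
  -- small ball estimate
  have hSB : μ {ω | ω ∈ OL2_Reg β k h κ e G x n1 n ∧ ‖OL2_F β k h G x n1 n ω‖ ≤ ρ} ≤
      ENNReal.ofReal (2 * (2 * k ^ (e / 16) + C2 * k ^ (1 / 8 : ℝ)) ^ (1 / 4 : ℝ)) := by
    refine sbs gC cmart_gC n1 (shz MN2 x n1) ?_ (shz_sum MN2 x n1) _ (OL2_FM β k h G x n1 n) _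
      (OL2_RegM β k h κ e hk hk1 hh w5 he G x n1 n) ρ (k ^ (e / 16))
      (C2 * k ^ (1 / 8 : ℝ)) hρ0 hk16.le (by positivity) ?_
    · intro j hj
      funext y
      unfold shz
      rw [if_neg]
      · rfl
      · rintro ⟨_, h⟩
        omega
    · intro φ φ' a1 a2 a3
      refine (measure_mono ?_).trans (hP2 φ φ' a1 (by linarith) a2)
      rintro ω ⟨b1, b2, b3⟩ hcon
      exact absurd (hP3 φ φ' a1 a2 a3 ω b1 b2 hcon) (not_lt.2 b3)
  -- bad noise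
  have hgdP : μ {ω | ∃ j, j < n ∧ ω j x ∉ gdC h} ≤ ENNReal.ofReal (k ^ (e / 2)) := by
    have e1 : {ω : ℕ → boxS d L → ℂ | ∃ j, j < n ∧ ω j x ∉ gdC h} ⊆
        ⋃ j ∈ Finset.range n, {ω | ω j x ∈ (gdC h)ᶜ} := by
      rintro ω ⟨j, hj, hj2⟩
      simp only [Set.mem_iUnion, Finset.mem_range]
      exact ⟨j, hj, hj2⟩
    refine (measure_mono e1).trans ((measure_biUnion_finset_le _ _).trans ?_)
    have e2 : ∀ j ∈ Finset.range n, μ {ω | ω j x ∈ (gdC h)ᶜ} ≤ ENNReal.ofReal (h ^ 3) := by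
      intro j _
      have e3 : MeasurableSet (gdC h)ᶜ := (MN2.mgd h).compl
      rw [hμ, OL2_coord j x _ e3]
      exact htail h hh w4
    refine (Finset.sum_le_sum e2).trans ?_
    rw [Finset.sum_const, Finset.card_range, nsmul_eq_mul, ← ENNReal.ofReal_natCast,
      ← ENNReal.ofReal_mul (Nat.cast_nonneg _)]
    refine ENNReal.ofReal_le_ofReal ?_
    have e3 : h * (ell k ^ 3 + 1) ≤ k ^ (e / 2) := by
      rw [← le_div_iff₀ (by positivity)]
      exact w7.le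
    have e4 : h ^ 2 ≤ h := by nlinarith only [he, he1, hh, w5]
    calc (n : ℝ) * h ^ 3 = (n * h) * h ^ 2 := by ring
      _ ≤ ell k ^ 3 * h := by gcongr
      _ ≤ h * (ell k ^ 3 + 1) := by nlinarith only [hh]
      _ ≤ _ := e3
  -- inclusion
  have hsub : {ω : ℕ → boxS d L → ℂ | Reg2 κ (gz k h ω) n x ∧
          (∀ j, n1 ≤ j → j ≤ n → ‖traj (st2 d β k h L) G ω j x‖ < k ^ κ) ∧
          ‖traj (st2 d β k h L) G ω n x‖ <
            k ^ (2 * e) * Real.exp (ell k * ∑ j ∈ Finset.range n, gz k h ω j x) * u} ⊆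
      ((RegS MN2 β k h L G x n1 (k ^ (e / 8)))ᶜ ∪ {ω | ∃ j, j < n ∧ ω j x ∉ gdC h}) ∪
        {ω | ω ∈ OL2_Reg β k h κ e G x n1 n ∧ ‖OL2_F β k h G x n1 n ω‖ ≤ ρ} := by
    rintro ω ⟨b1, b2, b3⟩
    by_cases c1 : ω ∈ RegS MN2 β k h L G x n1 (k ^ (e / 8))
    swap
    · exact Or.inl (Or.inl c1)
    by_cases c2 : ∃ j, j < n ∧ ω j x ∉ gdC h
    · exact Or.inl (Or.inr c2)
    refine Or.inr ⟨⟨c1, fun j hj => ?_, b1, ?_⟩, ?_⟩
    · by_contra hcon
      exact c2 ⟨j, hj, hcon⟩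
    · rw [st2_eq] at b2
      exact b2
    · rw [st2_eq] at b3
      unfold OL2_F
      rw [norm_smul, Real.norm_of_nonneg (Real.exp_pos _).le]
      have d1 : ell k * ∑ j ∈ Finset.range n, gz k h ω j x =
          ∑ j ∈ Finset.range n1, Real.sqrt h * (ω j x).re +
            ∑ j ∈ Finset.Ico n1 n, Real.sqrt h * (ω j x).re := by
        rw [Finset.range_eq_Ico, Finset.range_eq_Ico,
          Finset.sum_Ico_consecutive _ (Nat.zero_le n1) hn1n, Finset.mul_sum]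
        refine Finset.sum_congr rfl fun j _ => ?_
        unfold gz
        field_simp
      have d2 : Real.exp (∑ j ∈ Finset.range n1, Real.sqrt h * (ω j x).re) ≤ 2 := by
        have f1 := c1.2.1 0 n1 (Nat.zero_le _) le_rfl 1
        have f2 := OL2_pr h (fun j => ω j x) n1 1
        rw [norm_one, mul_one] at f1 f2
        have f3 : k ^ (e / 8) ≤ 1 := Real.rpow_le_one hk.le hk1.le (by positivity)
        have f4 := norm_le_norm_add_norm_sub' (pr (fun j => MN2.A h (ω j x)) 0 n1 1) 1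
        rw [norm_one] at f4
        linarith
      set S1 : ℝ := ∑ j ∈ Finset.range n1, Real.sqrt h * (ω j x).re with hS1
      set S2 : ℝ := ∑ j ∈ Finset.Ico n1 n, Real.sqrt h * (ω j x).re with hS2
      rw [d1, Real.exp_add] at b3
      have hk2e : 0 < k ^ (2 * e) := Real.rpow_pos_of_pos hk _
      calc Real.exp (-S2) * ‖traj (MN2.st β k h L) G ω n x‖
          ≤ Real.exp (-S2) * (k ^ (2 * e) * (Real.exp S1 * Real.exp S2) * u) := by
            gcongr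
        _ = k ^ (2 * e) * Real.exp S1 * u * (Real.exp (-S2) * Real.exp S2) := by ring
        _ = k ^ (2 * e) * Real.exp S1 * u := by
            rw [← Real.exp_add, neg_add_cancel, Real.exp_zero, mul_one]
        _ ≤ k ^ (2 * e) * 2 * u := by gcongr
        _ = 2 * (k ^ (23 * e / 16) * (k ^ (e / 2) * k ^ (e / 16))) * u := by
            rw [← Real.rpow_add hk, ← Real.rpow_add hk,
              show 23 * e / 16 + (e / 2 + e / 16) = 2 * e by ring]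
            ring
        _ ≤ 2 * (1 / 256 * (Real.sqrt ((n1 : ℝ) * h) * k ^ (e / 16))) * u := by
            have g1 := r4 k hk t4
            have g2 : k ^ (e / 2) ≤ Real.sqrt ((n1 : ℝ) * h) := by
              apply Real.le_sqrt_of_sq_le
              rw [← Real.rpow_natCast, ← Real.rpow_mul hk.le,
                show e / 2 * ((2 : ℕ) : ℝ) = e by push_cast; ring]
              exact nl
            gcongr
        _ = ρ := by rw [hρ]; ring
  refine (measure_mono hsub).trans ((measure_union_le _ _).trans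
    ((add_le_add ((measure_union_le _ _).trans (add_le_add hP1' hgdP)) hSB).trans ?_))
  rw [← ENNReal.ofReal_add (by positivity) hke2.le, ← ENNReal.ofReal_add (by positivity)
    (by positivity)]
  refine ENNReal.ofReal_le_ofReal ?_
  have g1 : 2 * k ^ (e / 16) + C2 * k ^ (1 / 8 : ℝ) ≤ (2 + C2) * k ^ (e / 16) := by
    have : k ^ (1 / 8 : ℝ) ≤ k ^ (e / 16) :=
      Real.rpow_le_rpow_of_exponent_ge hk hk1.le (by linarith)
    nlinarith only [this, he, he1, hC2]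
  have g2 : (2 * k ^ (e / 16) + C2 * k ^ (1 / 8 : ℝ)) ^ (1 / 4 : ℝ) ≤ (2 + C2) * k ^ (e / 64) := by
    calc (2 * k ^ (e / 16) + C2 * k ^ (1 / 8 : ℝ)) ^ (1 / 4 : ℝ)
        ≤ ((2 + C2) * k ^ (e / 16)) ^ (1 / 4 : ℝ) :=
          Real.rpow_le_rpow (by positivity) g1 (by norm_num)
      _ = (2 + C2) ^ (1 / 4 : ℝ) * k ^ (e / 64) := by
          rw [Real.mul_rpow (by positivity) hk16.le, ← Real.rpow_mul hk.le]
          congr 2
          ring
      _ ≤ (2 + C2) ^ (1 : ℝ) * k ^ (e / 64) := by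
          have := Real.rpow_nonneg hk.le (e / 64)
          have h5 : (2 + C2) ^ (1 / 4 : ℝ) ≤ (2 + C2) ^ (1 : ℝ) :=
            Real.rpow_le_rpow_of_exponent_le (by linarith) (by norm_num)
          gcongr
      _ = _ := by rw [Real.rpow_one]
  have g3 : k ^ (e / 2) ≤ k ^ (e / 64) :=
    Real.rpow_le_rpow_of_exponent_ge hk hk1.le (by linarith)
  have g4 : k ^ (e / 64) = k ^ (e / 64 - e / 100) * k ^ (e / 100) := by
    rw [← Real.rpow_add hk]
    congr 1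
    ring
  have g5 := r5 k hk t5
  have hk100 : 0 < k ^ (e / 100) := Real.rpow_pos_of_pos hk _
  calc C3 * k ^ (e / 2) + k ^ (e / 2) + 2 * (2 * k ^ (e / 16) + C2 * k ^ (1 / 8 : ℝ)) ^ (1 / 4 : ℝ)
      ≤ C3 * k ^ (e / 64) + k ^ (e / 64) + 2 * ((2 + C2) * k ^ (e / 64)) := by gcongr
    _ = (C3 + 1 + 2 * (2 + C2)) * (k ^ (e / 64 - e / 100) * k ^ (e / 100)) := by
        rw [← g4]; ring
    _ ≤ (C3 + 1 + 2 * (2 + C2)) * (1 / (C3 + 1 + 2 * (2 + C2)) * k ^ (e / 100)) := by gcongr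
    _ = k ^ (e / 100) := by field_simp

end DynC

end
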