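import Pool.Agent.Lib_MP_36b788_n.M07

set_option linter.unusedVariables false

/-!
# MP_36b788_pr, stationary limit: merged library part M33

Concatenation of smaller files (each in its own section), only to save build time.
-/

/-! ### from `Lib_MP_36b788c.Brg2a` -/

section

/-!
# The bridge: one field near a gapped site (deterministic)

PROOF of `brg_one`. `H v = (1 - κ2) dist x v - κ` for `v ≠ x`, `H x = 0`: `H` grows by at most `1 - κ2` along an edge (`κ ≤ 1/8`, `κ2 ≤ 1/8`; between two sites different from `x` it changes by at most `1 - κ2`, from `x` to a neighbour by `1 - κ2 - κ`, from a neighbour to `x` by `κ - (1 - κ2) < 0`). `u 0 v ≤ u 0 x exp(ell H v)`. `u (j+1) v ≤ e^{b} u j v + k h cpl (u j) v` (`ψ(w) ≤ w`), extend `b`, `u` for `j ≥ n` by stopping (e.g. `u j := u n`, `b j := 0`; `DStep` holds trivially) so that `grow_path` applies with `q' = κ2/2`, `ρ = 1 - κ2`, `ε = κ2/2`, `A = u 0 x`: `u j v ≤ 2 u 0 x exp ell(lpp + H v)`,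 `(1 + 4d k^ε h)^n ≤ exp(4 d k^ε ell³) ≤ 2`.
At `x`: `≤ 2 k^{-κ/16} u 0 x ≤ k^{-κ/8} u 0 x`. At a neighbour `v`: `k u j v ≤ 2 u 0 x exp(-ell(κ + κ2 - κ/16 - κ2/8)) ≤ k^{7κ/8} u 0 x`.
Lower bound: `u (j+1) x ≥ ψ(e^{b} u j x) - k h cpl (u j) x ≥ e^{b} u j x (1 - h(2k^{κ/2})^β) - h k^{3κ/4} u 0 x` (`psi_lower`, `u j x ≤ k^{κ - κ/8}`; `k cpl (u j) x ≤ 2d k^{7κ/8} u 0 x + 2 d k u j x`). Iterate: `u j x ≥ exp(Σ b)(1 - h(2k^{κ/2})^β)^n u 0 x - Σ_i h k^{3κ/4} exp(Σ_{(i,j)} b) u 0 x ≥ (3/4) k^{κ/16} u 0 x - ell³ k^{3κ/4 - κ/16} u 0 x ≥ k^{κ/8} u 0 x`.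
-/

open MeasureTheory ProbabilityTheory
open scoped ENNReal

namespace DynC

open Dyn

private theorem Brg2a_rp {k : ℝ} (hk : 0 < k) (a : ℝ) : k ^ a = Real.exp (-(a * ell k)) := by
  unfold ell
  rw [Real.rpow_def_of_pos hk, one_div, Real.log_inv]
  congr 1
  ring

/-- `l ^ 3 exp (-(a l)) ≤ c` for large `l` -/
private theorem Brg2a_cube (a c : ℝ) (ha : 0 < a) (hc : 0 < c) :
    ∃ l0 : ℝ, 0 < l0 ∧ ∀ l, l0 ≤ l → l ^ 3 * Real.exp (-(a * l)) ≤ c := by
  have h1 := Real.tendsto_pow_mul_exp_neg_atTop_nhds_zero 3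
  have h2 : Filter.Tendsto (fun l : ℝ => a * l) Filter.atTop Filter.atTop :=
    Filter.tendsto_id.const_mul_atTop ha
  have h3 := h1.comp h2
  have h4 : 0 < c * a ^ 3 := by positivity
  have h5 := (h3.eventually (gt_mem_nhds h4)).and (Filter.eventually_ge_atTop (1 : ℝ))
  rw [Filter.eventually_atTop] at h5
  obtain ⟨l0, hl0⟩ := h5
  refine ⟨max l0 1, lt_max_of_lt_right one_pos, fun l hl => ?_⟩
  have h6 := (hl0 l (le_trans (le_max_left _ _) hl)).1
  simp only [Function.comp] at h6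
  have h7 : (a * l) ^ 3 * Real.exp (-(a * l)) = (l ^ 3 * Real.exp (-(a * l))) * a ^ 3 := by ring
  rw [h7] at h6
  exact le_of_lt (lt_of_mul_lt_mul_right h6 (by positivity))

/-- all smallness conditions on `k` -/
private theorem Brg2a_small (d : ℕ) (β κ κ2 : ℝ) (hβ : 0 < β) (hκ : 0 < κ) (hκ1 : κ ≤ 1 / 8)
    (hκ2 : 0 < κ2) : ∃ k0 : ℝ, 0 < k0 ∧ k0 < 1 ∧ ∀ k, 0 < k → k < k0 →
      4 * d * k ^ (κ2 / 2) * ell k ^ 3 ≤ 1 / 2 ∧ k ^ (κ / 16) ≤ 1 / 2 ∧
      4 * d * k ^ (κ / 8) ≤ 1 ∧ 1 ≤ ell k ∧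
      ell k ^ 3 * ((2 * k ^ (7 / 8 * κ)) ^ β + k ^ (3 / 4 * κ - κ / 16)) ≤ 1 / 2 := by
  obtain ⟨l1, hl1, H1⟩ := Brg2a_cube (κ2 / 2) (1 / (8 * d + 1)) (by linarith) (by positivity)
  obtain ⟨l2, hl2, H2⟩ := Brg2a_cube (κ / 16) (1 / 2) (by linarith) (by norm_num)
  obtain ⟨l3, hl3, H3⟩ := Brg2a_cube (κ / 8) (1 / (4 * d + 1)) (by linarith) (by positivity)
  obtain ⟨l4, hl4, H4⟩ := Brg2a_cube (7 / 8 * κ * β) (1 / 4 * 2⁻¹ ^ β) (by positivity)
    (by positivity)
  obtain ⟨l5, hl5, H5⟩ := Brg2a_cube (3 / 4 * κ - κ / 16) (1 / 4) (by linarith) (by norm_num)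
  set l0 := max 1 (max l1 (max l2 (max l3 (max l4 l5)))) with hl0
  have hl0p : 0 < l0 := lt_of_lt_of_le one_pos (le_max_left _ _)
  refine ⟨Real.exp (-l0), Real.exp_pos _, by rw [Real.exp_lt_one_iff]; linarith, ?_⟩
  intro k hk hkk
  have hl : l0 < ell k := by
    unfold ell
    rw [one_div, Real.log_inv]
    have h1 := Real.log_lt_log hk hkk
    rw [Real.log_exp] at h1
    linarith
  have e1 : 1 ≤ ell k := le_trans (le_max_left _ _) hl.le
  have e2 : l1 ≤ ell k := le_trans (le_trans (le_max_left _ _) (le_max_right _ _)) hl.le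
  have e3 : l2 ≤ ell k := le_trans (le_trans (le_trans (le_max_left _ _) (le_max_right _ _))
    (le_max_right _ _)) hl.le
  have e4 : l3 ≤ ell k := le_trans (le_trans (le_trans (le_trans (le_max_left _ _)
    (le_max_right _ _)) (le_max_right _ _)) (le_max_right _ _)) hl.le
  have e5 : l4 ≤ ell k := le_trans (le_trans (le_trans (le_trans (le_trans (le_max_left _ _)
    (le_max_right _ _)) (le_max_right _ _)) (le_max_right _ _)) (le_max_right _ _)) hl.le
  have e6 : l5 ≤ ell k := le_trans (le_trans (le_trans (le_trans (le_trans (le_max_right _ _)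
    (le_max_right _ _)) (le_max_right _ _)) (le_max_right _ _)) (le_max_right _ _)) hl.le
  have c1 : (1 : ℝ) ≤ ell k ^ 3 := one_le_pow₀ e1
  have c0 : 0 < ell k ^ 3 := by linarith
  have hd : (0 : ℝ) ≤ d := Nat.cast_nonneg d
  refine ⟨?_, ?_, ?_, e1, ?_⟩
  · have h1 := H1 _ e2
    rw [Brg2a_rp hk]
    have h2 : 4 * (d : ℝ) * Real.exp (-(κ2 / 2 * ell k)) * ell k ^ 3 =
        4 * d * (ell k ^ 3 * Real.exp (-(κ2 / 2 * ell k))) := by ring
    rw [h2]
    calc 4 * (d : ℝ) * (ell k ^ 3 * Real.exp (-(κ2 / 2 * ell k)))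
        ≤ 4 * d * (1 / (8 * d + 1)) := mul_le_mul_of_nonneg_left h1 (by positivity)
      _ ≤ 1 / 2 := by
        rw [mul_one_div, div_le_iff₀ (by positivity)]
        linarith
  · have h1 := H2 _ e3
    rw [Brg2a_rp hk]
    have h2 : 0 < Real.exp (-(κ / 16 * ell k)) := Real.exp_pos _
    nlinarith only [h1, hκ, hκ1, c1, h2]
  · have h1 := H3 _ e4
    rw [Brg2a_rp hk]
    have h2 : 0 < Real.exp (-(κ / 8 * ell k)) := Real.exp_pos _
    have h3 : Real.exp (-(κ / 8 * ell k)) ≤ 1 / (4 * d + 1) := by nlinarith only [h1, hκ, hκ1, c1, h2]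
    calc 4 * (d : ℝ) * Real.exp (-(κ / 8 * ell k))
        ≤ 4 * d * (1 / (4 * d + 1)) := mul_le_mul_of_nonneg_left h3 (by positivity)
      _ ≤ 1 := by
        rw [mul_one_div, div_le_iff₀ (by positivity)]
        linarith
  · have h1 := H4 _ e5
    have h2 := H5 _ e6
    have h3 : (2 * k ^ (7 / 8 * κ)) ^ β = 2 ^ β * Real.exp (-(7 / 8 * κ * β * ell k)) := by
      rw [Real.mul_rpow (by norm_num) (Real.rpow_nonneg hk.le _), ← Real.rpow_mul hk.le,
        Brg2a_rp hk]
    have h4 : (2 : ℝ) ^ β * 2⁻¹ ^ β = 1 := by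
      rw [← Real.mul_rpow (by norm_num) (by norm_num)]
      norm_num
    have h5 : 0 < (2 : ℝ) ^ β := Real.rpow_pos_of_pos (by norm_num) _
    rw [h3, Brg2a_rp hk]
    have h6 : ell k ^ 3 * (2 ^ β * Real.exp (-(7 / 8 * κ * β * ell k))) ≤ 1 / 4 := by
      calc ell k ^ 3 * (2 ^ β * Real.exp (-(7 / 8 * κ * β * ell k)))
          = 2 ^ β * (ell k ^ 3 * Real.exp (-(7 / 8 * κ * β * ell k))) := by ring
        _ ≤ 2 ^ β * (1 / 4 * 2⁻¹ ^ β) := mul_le_mul_of_nonneg_left h1 h5.le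
        _ = 1 / 4 * (2 ^ β * 2⁻¹ ^ β) := by ring
        _ = 1 / 4 := by rw [h4, mul_one]
    rw [mul_add]
    linarith

/-- smallness of the step -/
private theorem Brg2a_h {h : ℝ} (hh : 0 < h) (hh0 : h < 1 / 1000) :
    h < 1 ∧ Real.exp (3 * h ^ (3 / 8 : ℝ)) ≤ 2 := by
  refine ⟨by linarith, ?_⟩
  have h1 : h ^ (3 / 8 : ℝ) ≤ (1 / 1000 : ℝ) ^ (3 / 8 : ℝ) :=
    Real.rpow_le_rpow hh.le hh0.le (by norm_num)
  have h2 : (1 / 1000 : ℝ) ^ (3 / 8 : ℝ) = (1 / 10 : ℝ) ^ (9 / 8 : ℝ) := by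
    have h3 : (1 / 1000 : ℝ) = (1 / 10 : ℝ) ^ (3 : ℝ) := by
      norm_num
    rw [h3, ← Real.rpow_mul (by norm_num)]
    norm_num
  have h3 : (1 / 10 : ℝ) ^ (9 / 8 : ℝ) ≤ (1 / 10 : ℝ) ^ (1 : ℝ) :=
    Real.rpow_le_rpow_of_exponent_ge (by norm_num) (by norm_num) (by norm_num)
  rw [Real.rpow_one] at h3
  have h4 : 3 * h ^ (3 / 8 : ℝ) ≤ 3 / 10 := by linarith
  have h5 := Real.exp_bound' (x := 3 / 10) (by norm_num) (by norm_num) (n := 2) (by norm_num)
  refine le_trans (Real.exp_le_exp.mpr h4) (le_trans h5 ?_)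
  norm_num [Finset.sum_range_succ]

theorem brg_one (d : ℕ) (β κ κ2 : ℝ) (hβ : 0 < β) (hκ : 0 < κ) (hκ1 : κ ≤ 1 / 8)
    (hκ2 : 0 < κ2) (hκ21 : κ2 ≤ 1 / 8) :
    ∃ k0 : ℝ, 0 < k0 ∧ k0 < 1 ∧ ∀ k, 0 < k → k < k0 → ∃ h0 : ℝ, 0 < h0 ∧ ∀ h, 0 < h → h < h0 →
    ∀ (L : ℕ) (b u : ℕ → boxS d L → ℝ) (x : boxS d L) (n : ℕ), n * h ≤ ell k ^ 3 →
      (∀ v, 0 ≤ u 0 v) →
      (∀ j, j < n → QStep (boxNet d L) β h k (b j) (u j) (u (j + 1))) →
      (∀ j, j < n → |b j x| ≤ 3 * h ^ (3 / 8 : ℝ)) →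
      (∀ v, (boxMSet d L).lppM (κ2 / 2) (fun _ => 0) (fun j y => b j y / ell k) n v ≤
        κ / 16 + κ2 / 8 * (boxNet d L).dist x v) →
      (∀ i j, i ≤ j → j ≤ n → |∑ l ∈ Finset.Ico i j, b l x| ≤ κ / 16 * ell k) →
      u 0 x ≤ k ^ κ →
      (∀ v, v ≠ x → u 0 v ≤ k ^ (κ - (1 - κ2) * (boxNet d L).dist x v) * u 0 x) →
      ∀ j, j ≤ n → k ^ (κ / 8) * u 0 x ≤ u j x ∧ u j x ≤ k ^ (-(κ / 8)) * u 0 x ∧
        ∀ v ∈ (boxNet d L).nb x, k * u j v ≤ k ^ (7 / 8 * κ) * u 0 x := by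
  classical
  obtain ⟨k0, hk0, hk01, Hk⟩ := Brg2a_small d β κ κ2 hβ hκ hκ1 hκ2
  refine ⟨k0, hk0, hk01, fun k hk hkk => ⟨1 / 1000, by norm_num, ?_⟩⟩
  intro h hh hh0 L b u x n hn hu0 hQ hb hlpp hsum hux hgap
  obtain ⟨s1, s2, s3, s4, s5⟩ := Hk k hk hkk
  obtain ⟨hh1, hexp2⟩ := Brg2a_h hh hh0
  have hk1 : k < 1 := hkk.trans hk01
  have hd : (0 : ℝ) ≤ d := Nat.cast_nonneg d
  have hl0 : 0 < ell k := by linarith
  -- nonnegativity
  have hun : ∀ j, j ≤ n → ∀ v, 0 ≤ u j v := by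
    intro j hj v
    rcases Nat.eq_zero_or_pos j with h1 | h1
    · subst h1
      exact hu0 v
    · have h2 := (hQ (j - 1) (by omega)).n1 v
      rwa [Nat.sub_add_cancel h1] at h2
  have hcpl : ∀ (w : boxS d L → ℝ), (∀ v, 0 ≤ w v) → ∀ v, 0 ≤ cpl (boxNet d L) w v := by
    intro w hw v
    unfold cpl
    exact add_nonneg (Finset.sum_nonneg fun y _ => hw y) (mul_nonneg (Nat.cast_nonneg _) (hw v))
  -- the stopped sequences
  set D : ℕ → boxS d L → ℝ := fun j => u (min j n) with hDdef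
  set b' : ℕ → boxS d L → ℝ := fun j => if j < n then b j else fun _ => 0 with hb'
  have hDS : ∀ j, DStep (boxNet d L) h k (b' j) (D j) (D (j + 1)) := by
    intro j
    by_cases hj : j < n
    · have e1 : D j = u j := by
        simp only [hDdef]
        rw [min_eq_left hj.le]
      have e2 : D (j + 1) = u (j + 1) := by
        simp only [hDdef]
        rw [min_eq_left (by omega : j + 1 ≤ n)]
      have e3 : b' j = b j := by
        simp only [hb', hj, if_true]
      rw [e1, e2, e3]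
      have q := hQ j hj
      refine ⟨q.n0, q.n1, fun v => le_trans (q.up v) ?_⟩
      have h1 := psi_le (h := h) hβ hh.le (mul_nonneg (Real.exp_pos (b j v)).le (q.n0 v))
      linarith
    · have e1 : D j = u n := by
        simp only [hDdef]
        rw [min_eq_right (by omega : n ≤ j)]
      have e2 : D (j + 1) = u n := by
        simp only [hDdef]
        rw [min_eq_right (by omega : n ≤ j + 1)]
      have e3 : b' j = fun _ => 0 := by
        simp only [hb', hj, if_false]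
      rw [e1, e2, e3]
      refine ⟨hun n le_rfl, hun n le_rfl, fun v => ?_⟩
      have h1 := hcpl (u n) (hun n le_rfl) v
      have h2 : 0 ≤ k * h * cpl (boxNet d L) (u n) v := by positivity
      simp only [Real.exp_zero, one_mul]
      linarith
  set H : boxS d L → ℝ := fun v => if v = x then 0 else (1 - κ2) * (boxNet d L).dist x v - κ
    with hHdef
  have hH : ∀ v, ∀ y ∈ (boxNet d L).nb v, H y ≤ H v + (1 - κ2) := by
    intro v y hy
    have hdd := (boxNet d L).dist_nb v y hy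
    have htri := (boxNet d L).dist_tri x v y
    have hvy : v ≠ y := by
      intro hvy
      rw [hvy, (boxNet d L).dist_self] at hdd
      exact absurd hdd (by norm_num)
    simp only [hHdef]
    have ht : ((boxNet d L).dist x y : ℝ) ≤ (boxNet d L).dist x v + 1 := by
      have h1 : (boxNet d L).dist x y ≤ (boxNet d L).dist x v + 1 := by omega
      exact_mod_cast h1
    by_cases hyx : y = x
    · rw [if_pos hyx]
      by_cases hvx : v = x
      · exact absurd (hvx.trans hyx.symm) hvy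
      · rw [if_neg hvx]
        have h1 : (1 : ℝ) ≤ (boxNet d L).dist x v := by
          exact_mod_cast (boxNet d L).dist_pos x v (fun hh => hvx hh.symm)
        nlinarith only [hκ1, hκ21, hh, hh0, h1]
    · rw [if_neg hyx]
      by_cases hvx : v = x
      · rw [if_pos hvx]
        rw [hvx, (boxNet d L).dist_self] at ht
        push_cast at ht
        nlinarith only [ht, hκ, hh, hh0, hκ1, hκ21]
      · rw [if_neg hvx]
        nlinarith only [ht, hκ, hκ1, hκ21]
  have h0H : ∀ v, D 0 v ≤ u 0 x * Real.exp (ell k * H v) := by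
    intro v
    have e1 : D 0 = u 0 := by
      simp only [hDdef]
      rw [Nat.zero_min]
    rw [e1]
    by_cases hvx : v = x
    · simp only [hHdef, hvx, if_true, mul_zero, Real.exp_zero, mul_one]
      exact le_refl _
    · have h1 := hgap v hvx
      rw [Brg2a_rp hk] at h1
      simp only [hHdef, if_neg hvx]
      have h2 : ell k * ((1 - κ2) * (boxNet d L).dist x v - κ) =
          -((κ - (1 - κ2) * (boxNet d L).dist x v) * ell k) := by ring
      rw [h2, mul_comm (u 0 x)]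
      exact h1
  have hfac : ∀ j, j ≤ n → (1 + 4 * (d : ℝ) * k ^ (κ2 / 2) * h) ^ j ≤ 2 := by
    intro j hj
    have hkp : 0 ≤ k ^ (κ2 / 2) := Real.rpow_nonneg hk.le _
    have h1 : (0 : ℝ) ≤ 4 * (d : ℝ) * k ^ (κ2 / 2) * h := by positivity
    have h2 : (1 + 4 * (d : ℝ) * k ^ (κ2 / 2) * h) ^ j ≤
        Real.exp (4 * (d : ℝ) * k ^ (κ2 / 2) * h) ^ j := by
      refine pow_le_pow_left₀ (by linarith) ?_ j
      have := Real.add_one_le_exp (4 * (d : ℝ) * k ^ (κ2 / 2) * h)
      linarith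
    rw [← Real.exp_nat_mul] at h2
    have h3 : (j : ℝ) * (4 * (d : ℝ) * k ^ (κ2 / 2) * h) ≤ 1 / 2 := by
      have h4 : (j : ℝ) * h ≤ ell k ^ 3 := by
        have h5 : (j : ℝ) ≤ n := by exact_mod_cast hj
        nlinarith only [hn, hκ, hκ1, hh, h5]
      have h6 : (j : ℝ) * (4 * (d : ℝ) * k ^ (κ2 / 2) * h) =
          4 * (d : ℝ) * k ^ (κ2 / 2) * (j * h) := by ring
      rw [h6]
      exact le_trans (mul_le_mul_of_nonneg_left h4 (by positivity)) s1
    have h7 := Real.exp_bound' (x := 1 / 2) (by norm_num) (by norm_num) (n := 2) (by norm_num)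
    refine le_trans h2 (le_trans (Real.exp_le_exp.mpr h3) (le_trans h7 ?_))
    norm_num [Finset.sum_range_succ]
  -- upper bound at all sites
  have hup : ∀ j, j ≤ n → ∀ v, u j v ≤ 2 * u 0 x *
      Real.exp (ell k * (κ / 16 + κ2 / 8 * (boxNet d L).dist x v + H v)) := by
    intro j hj v
    have g := grow_path d L k h (κ2 / 2) (κ2 / 2) (1 - κ2) (u 0 x) hk hk1 hh (hu0 x)
      (by linarith) (by linarith) (by linarith) (by linarith) b' D hDS H hH h0H j v
    have e1 : D j = u j := by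
      simp only [hDdef]
      rw [min_eq_left hj]
    rw [e1] at g
    have hc : (boxMSet d L).lpp (κ2 / 2) (fun _ => 0) (fun j y => b' j y / ell k) j =
        (boxMSet d L).lpp (κ2 / 2) (fun _ => 0) (fun j y => b j y / ell k) j := by
      refine lpp_congr _ _ _ _ _ _ fun i hi => ?_
      funext y
      simp only [hb']
      rw [if_pos (by omega : i < n)]
    rw [hc] at g
    have hM : (boxMSet d L).lpp (κ2 / 2) (fun _ => 0) (fun j y => b j y / ell k) j v ≤
        κ / 16 + κ2 / 8 * (boxNet d L).dist x v := by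
      refine le_trans ?_ (hlpp v)
      unfold MSet.lppM
      exact Finset.le_sup' (fun m => (boxMSet d L).lpp (κ2 / 2) (fun _ => 0)
        (fun j y => b j y / ell k) m v) (Finset.mem_range.mpr (by omega))
    refine le_trans g ?_
    have hE : Real.exp (ell k * ((boxMSet d L).lpp (κ2 / 2) (fun _ => 0)
        (fun j y => b j y / ell k) j v + H v)) ≤
        Real.exp (ell k * (κ / 16 + κ2 / 8 * (boxNet d L).dist x v + H v)) := by
      refine Real.exp_le_exp.mpr (mul_le_mul_of_nonneg_left ?_ hl0.le)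
      linarith only [hM]
    have hA : u 0 x * (1 + 4 * (d : ℝ) * k ^ (κ2 / 2) * h) ^ j ≤ 2 * u 0 x := by
      have := mul_le_mul_of_nonneg_left (hfac j hj) (hu0 x)
      linarith
    exact mul_le_mul hA hE (Real.exp_pos _).le (by have := hu0 x; linarith)
  have h2le : (2 : ℝ) ≤ Real.exp (ell k * (κ / 16)) := by
    rw [Brg2a_rp hk] at s2
    have h1 : Real.exp (ell k * (κ / 16)) * Real.exp (-(κ / 16 * ell k)) = 1 := by
      rw [← Real.exp_add, ← Real.exp_zero]
      congr 1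
      ring
    have h2 : 0 < Real.exp (ell k * (κ / 16)) := Real.exp_pos _
    nlinarith only [h1, s2, h2]
  have hupx : ∀ j, j ≤ n → u j x ≤ k ^ (-(κ / 8)) * u 0 x := by
    intro j hj
    have h1 := hup j hj x
    have h2 : H x = 0 := by simp only [hHdef, if_true]
    rw [h2, (boxNet d L).dist_self] at h1
    have h3 : ell k * (κ / 16 + κ2 / 8 * ((0 : ℕ) : ℝ) + 0) = ell k * (κ / 16) := by
      push_cast; ring
    rw [h3] at h1
    rw [Brg2a_rp hk]
    have h4 : Real.exp (-(-(κ / 8) * ell k)) =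
        Real.exp (ell k * (κ / 16)) * Real.exp (ell k * (κ / 16)) := by
      rw [← Real.exp_add]
      congr 1
      ring
    rw [h4]
    have h5 : 0 < Real.exp (ell k * (κ / 16)) := Real.exp_pos _
    have h6 : 0 ≤ u 0 x * Real.exp (ell k * (κ / 16)) := mul_nonneg (hu0 x) h5.le
    nlinarith only [h1, h2le, h6, mul_le_mul_of_nonneg_right h2le h6]
  have hupn : ∀ j, j ≤ n → ∀ v ∈ (boxNet d L).nb x, k * u j v ≤ k ^ (7 / 8 * κ) * u 0 x := by
    intro j hj v hv
    have h1 := hup j hj v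
    have hdd := (boxNet d L).dist_nb x v hv
    have hvx : v ≠ x := by
      intro hvx
      rw [hvx, (boxNet d L).dist_self] at hdd
      exact absurd hdd (by norm_num)
    have h2 : H v = (1 - κ2) - κ := by
      simp only [hHdef, if_neg hvx, hdd]
      push_cast; ring
    rw [h2, hdd] at h1
    have hkk : k = Real.exp (-ell k) := by
      have := Brg2a_rp hk 1
      rw [Real.rpow_one, one_mul] at this
      exact this
    rw [Brg2a_rp hk]
    have h3 : k * u j v ≤ Real.exp (-ell k) * (2 * u 0 x *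
        Real.exp (ell k * (κ / 16 + κ2 / 8 * ((1 : ℕ) : ℝ) + (1 - κ2 - κ)))) := by
      calc k * u j v = Real.exp (-ell k) * u j v := by rw [← hkk]
        _ ≤ _ := mul_le_mul_of_nonneg_left h1 (Real.exp_pos _).le
    refine le_trans h3 ?_
    have h4 : Real.exp (-ell k) * (2 * u 0 x *
        Real.exp (ell k * (κ / 16 + κ2 / 8 * ((1 : ℕ) : ℝ) + (1 - κ2 - κ)))) =
        2 * u 0 x * Real.exp (-ell k + ell k * (κ / 16 + κ2 / 8 * ((1 : ℕ) : ℝ) +
          (1 - κ2 - κ))) := by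
      rw [Real.exp_add]; ring
    rw [h4]
    have h5 : Real.exp (-ell k + ell k * (κ / 16 + κ2 / 8 * ((1 : ℕ) : ℝ) + (1 - κ2 - κ))) ≤
        Real.exp (-(7 / 8 * κ * ell k)) * Real.exp (-(ell k * (κ / 16))) := by
      rw [← Real.exp_add]
      refine Real.exp_le_exp.mpr ?_
      push_cast
      nlinarith only [hl0, hκ2, mul_pos hl0 hκ2]
    have h6 : 2 * Real.exp (-(ell k * (κ / 16))) ≤ 1 := by
      have h7 : Real.exp (ell k * (κ / 16)) * Real.exp (-(ell k * (κ / 16))) = 1 := by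
        rw [← Real.exp_add, add_neg_cancel, Real.exp_zero]
      have h8 : 0 < Real.exp (-(ell k * (κ / 16))) := Real.exp_pos _
      nlinarith only [h7, hh, hh0, h2le, h8]
    have h9 : 0 ≤ u 0 x * Real.exp (-(7 / 8 * κ * ell k)) :=
      mul_nonneg (hu0 x) (Real.exp_pos _).le
    calc 2 * u 0 x * Real.exp (-ell k + ell k * (κ / 16 + κ2 / 8 * ((1 : ℕ) : ℝ) +
          (1 - κ2 - κ)))
        ≤ 2 * u 0 x * (Real.exp (-(7 / 8 * κ * ell k)) * Real.exp (-(ell k * (κ / 16)))) :=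
          mul_le_mul_of_nonneg_left h5 (by have := hu0 x; linarith only [this])
      _ = (u 0 x * Real.exp (-(7 / 8 * κ * ell k))) * (2 * Real.exp (-(ell k * (κ / 16)))) := by
          ring
      _ ≤ (u 0 x * Real.exp (-(7 / 8 * κ * ell k))) * 1 := mul_le_mul_of_nonneg_left h6 h9
      _ = Real.exp (-(7 / 8 * κ * ell k)) * u 0 x := by ring
  -- lower bound at `x`
  set θ : ℝ := (2 * k ^ (7 / 8 * κ)) ^ β with hθ
  set η : ℝ := k ^ (3 / 4 * κ - κ / 16) with hη
  have hθ0 : 0 ≤ θ := Real.rpow_nonneg (mul_nonneg (by norm_num) (Real.rpow_nonneg hk.le _)) _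
  have hη0 : 0 ≤ η := Real.rpow_nonneg hk.le _
  have c1 : (1 : ℝ) ≤ ell k ^ 3 := one_le_pow₀ s4
  have hθ1 : θ ≤ 1 / 2 := by nlinarith only [s5, hη0, hh, hh0, hθ0, c1]
  have hhθ : h * θ ≤ 1 := by nlinarith only [hκ, hh0, hκ1, hh, hθ1]
  have hcx : ∀ j, j ≤ n → k * cpl (boxNet d L) (u j) x ≤ k ^ (3 / 4 * κ) * u 0 x := by
    intro j hj
    unfold cpl
    rw [mul_add, Finset.mul_sum]
    have h1 : ∑ y ∈ (boxNet d L).nb x, k * u j y ≤ 2 * d * (k ^ (7 / 8 * κ) * u 0 x) := by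
      calc ∑ y ∈ (boxNet d L).nb x, k * u j y
          ≤ ∑ y ∈ (boxNet d L).nb x, k ^ (7 / 8 * κ) * u 0 x :=
            Finset.sum_le_sum fun y hy => hupn j hj y hy
        _ = ((boxNet d L).nb x).card * (k ^ (7 / 8 * κ) * u 0 x) := by
            rw [Finset.sum_const, nsmul_eq_mul]
        _ ≤ 2 * d * (k ^ (7 / 8 * κ) * u 0 x) := by
            refine mul_le_mul_of_nonneg_right ?_
              (mul_nonneg (Real.rpow_nonneg hk.le _) (hu0 x))
            exact_mod_cast (boxNet d L).nb_card x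
    have h2 : k * (((2 * d : ℕ) : ℝ) * u j x) ≤ 2 * d * (k ^ (1 - κ / 8) * u 0 x) := by
      have h3 := hupx j hj
      have h4 : k * k ^ (-(κ / 8)) = k ^ (1 - κ / 8) := by
        rw [show (1 - κ / 8 : ℝ) = 1 + -(κ / 8) by ring, Real.rpow_add hk, Real.rpow_one]
      have h5 : k * u j x ≤ k ^ (1 - κ / 8) * u 0 x := by
        rw [← h4, mul_assoc]
        exact mul_le_mul_of_nonneg_left h3 hk.le
      have h6 : k * (((2 * d : ℕ) : ℝ) * u j x) = 2 * d * (k * u j x) := by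
        push_cast; ring
      rw [h6]
      exact mul_le_mul_of_nonneg_left h5 (by positivity)
    have h3 : k ^ (7 / 8 * κ) = k ^ (3 / 4 * κ) * k ^ (κ / 8) := by
      rw [← Real.rpow_add hk]
      congr 1
      ring
    have h4 : k ^ (1 - κ / 8) ≤ k ^ (3 / 4 * κ) * k ^ (κ / 8) := by
      rw [← Real.rpow_add hk]
      refine Real.rpow_le_rpow_of_exponent_ge hk hk1.le ?_
      linarith
    have h5 : 0 ≤ k ^ (3 / 4 * κ) := Real.rpow_nonneg hk.le _
    have h6 : 0 ≤ k ^ (κ / 8) := Real.rpow_nonneg hk.le _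
    have h7 := hu0 x
    have h8 : 2 * (d : ℝ) * (k ^ (1 - κ / 8) * u 0 x) ≤
        2 * d * (k ^ (3 / 4 * κ) * k ^ (κ / 8) * u 0 x) :=
      mul_le_mul_of_nonneg_left (mul_le_mul_of_nonneg_right h4 h7) (by positivity)
    have h9 : 4 * (d : ℝ) * k ^ (κ / 8) * (k ^ (3 / 4 * κ) * u 0 x) ≤
        1 * (k ^ (3 / 4 * κ) * u 0 x) :=
      mul_le_mul_of_nonneg_right s3 (mul_nonneg h5 h7)
    rw [h3] at h1
    nlinarith only [h1, h2, h8, h9]
  set S : ℕ → ℝ := fun j => ∑ l ∈ Finset.range j, b l x with hS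
  have hSb : ∀ j, j ≤ n → |S j| ≤ κ / 16 * ell k := by
    intro j hj
    have h1 := hsum 0 j (Nat.zero_le _) hj
    rw [← Finset.range_eq_Ico] at h1
    exact h1
  have hlow : ∀ j, j ≤ n → u 0 x * ((1 - h * θ) ^ j - j * (h * η)) ≤
      Real.exp (-S j) * u j x := by
    intro j
    induction j with
    | zero =>
      intro _
      simp [hS]
    | succ j ih =>
      intro hj
      have ih' := ih (by omega)
      have q := hQ j (by omega)
      have hlo := q.lo x
      have hcj := hcx j (by omega)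
      have huj := hun j (by omega) x
      have hv0 : 0 ≤ Real.exp (b j x) * u j x := mul_nonneg (Real.exp_pos _).le huj
      have hψ := psi_lower (h := h) hβ hh.le hv0
      -- size of the argument
      have hbj : Real.exp (b j x) ≤ 2 := by
        refine le_trans (Real.exp_le_exp.mpr ?_) hexp2
        exact (abs_le.mp (hb j (by omega))).2
      have hvu : Real.exp (b j x) * u j x ≤ 2 * k ^ (7 / 8 * κ) := by
        have h1 := hupx j (by omega)
        have h2 : k ^ (-(κ / 8)) * u 0 x ≤ k ^ (7 / 8 * κ) := by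
          have h3 : k ^ (7 / 8 * κ) = k ^ (-(κ / 8)) * k ^ κ := by
            rw [← Real.rpow_add hk]
            congr 1
            ring
          rw [h3]
          exact mul_le_mul_of_nonneg_left hux (Real.rpow_nonneg hk.le _)
        exact mul_le_mul hbj (le_trans h1 h2) huj (by norm_num)
      have hvβ : (Real.exp (b j x) * u j x) ^ β ≤ θ := Real.rpow_le_rpow hv0 hvu hβ.le
      have h1 : (Real.exp (b j x) * u j x) * (1 - h * θ) ≤ psi β h (Real.exp (b j x) * u j x) := by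
        refine le_trans (mul_le_mul_of_nonneg_left ?_ hv0) hψ
        have := mul_le_mul_of_nonneg_left hvβ hh.le
        linarith only [this]
      have h2 : (Real.exp (b j x) * u j x) * (1 - h * θ) - h * (k ^ (3 / 4 * κ) * u 0 x) ≤
          u (j + 1) x := by
        have h3 : k * h * cpl (boxNet d L) (u j) x ≤ h * (k ^ (3 / 4 * κ) * u 0 x) := by
          have := mul_le_mul_of_nonneg_left hcj hh.le
          calc k * h * cpl (boxNet d L) (u j) x = h * (k * cpl (boxNet d L) (u j) x) := by ring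
            _ ≤ _ := this
        linarith only [hlo, h1, h3]
      have hSs : S (j + 1) = S j + b j x := by
        simp only [hS]
        rw [Finset.sum_range_succ]
      have hE1 : Real.exp (-S (j + 1)) * Real.exp (b j x) = Real.exp (-S j) := by
        rw [← Real.exp_add, hSs]
        congr 1
        ring
      have hE2 : Real.exp (-S (j + 1)) * k ^ (3 / 4 * κ) ≤ η := by
        rw [hη, Brg2a_rp hk, Brg2a_rp hk, ← Real.exp_add]
        refine Real.exp_le_exp.mpr ?_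
        have := (abs_le.mp (hSb (j + 1) hj)).1
        nlinarith only [this]
      have h4 := mul_le_mul_of_nonneg_left h2 (Real.exp_pos (-S (j + 1))).le
      have h5 : Real.exp (-S (j + 1)) * ((Real.exp (b j x) * u j x) * (1 - h * θ) -
          h * (k ^ (3 / 4 * κ) * u 0 x)) =
          (Real.exp (-S j) * u j x) * (1 - h * θ) -
            h * u 0 x * (Real.exp (-S (j + 1)) * k ^ (3 / 4 * κ)) := by
        rw [← hE1]; ring
      rw [h5] at h4
      have h6 : u 0 x * ((1 - h * θ) ^ j - j * (h * η)) * (1 - h * θ) ≤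
          (Real.exp (-S j) * u j x) * (1 - h * θ) :=
        mul_le_mul_of_nonneg_right ih' (by linarith only [hhθ])
      have h7 : h * u 0 x * (Real.exp (-S (j + 1)) * k ^ (3 / 4 * κ)) ≤ h * u 0 x * η :=
        mul_le_mul_of_nonneg_left hE2 (mul_nonneg hh.le (hu0 x))
      have h8 : u 0 x * ((1 - h * θ) ^ (j + 1) - ((j + 1 : ℕ) : ℝ) * (h * η)) ≤
          u 0 x * ((1 - h * θ) ^ j - j * (h * η)) * (1 - h * θ) - h * u 0 x * η := by
        have h9 : u 0 x * ((1 - h * θ) ^ j - j * (h * η)) * (1 - h * θ) - h * u 0 x * η -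
            u 0 x * ((1 - h * θ) ^ (j + 1) - ((j + 1 : ℕ) : ℝ) * (h * η)) =
            u 0 x * (j * (h * η) * (h * θ)) := by
          push_cast; ring
        have h10 : 0 ≤ u 0 x * (j * (h * η) * (h * θ)) := by
          have := hu0 x
          positivity
        linarith only [h9, h10]
      linarith only [h4, h6, h7, h8]
  have hlowx : ∀ j, j ≤ n → k ^ (κ / 8) * u 0 x ≤ u j x := by
    intro j hj
    have h1 := hlow j hj
    have h2 : 1 + (j : ℝ) * (-(h * θ)) ≤ (1 + -(h * θ)) ^ j :=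
      one_add_mul_le_pow (by linarith) j
    have h3 : (j : ℝ) * h ≤ ell k ^ 3 := by
      have h5 : (j : ℝ) ≤ n := by exact_mod_cast hj
      nlinarith only [hn, hκ, hκ1, hh, h5]
    have h4 : (1 : ℝ) / 2 ≤ (1 - h * θ) ^ j - j * (h * η) := by
      have h5 : (1 - h * θ) ^ j = (1 + -(h * θ)) ^ j := by ring
      rw [h5]
      have h6 : (j : ℝ) * h * (θ + η) ≤ ell k ^ 3 * (θ + η) :=
        mul_le_mul_of_nonneg_right h3 (by linarith)
      nlinarith only [s5, h2, h6]
    have h5 : u 0 x * (1 / 2) ≤ Real.exp (-S j) * u j x :=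
      le_trans (mul_le_mul_of_nonneg_left h4 (hu0 x)) h1
    have h6 : Real.exp (-(κ / 16 * ell k)) ≤ Real.exp (S j) :=
      Real.exp_le_exp.mpr (abs_le.mp (hSb j hj)).1
    have h7 : Real.exp (S j) * Real.exp (-S j) = 1 := by
      rw [← Real.exp_add, add_neg_cancel, Real.exp_zero]
    have h8 : u j x = Real.exp (S j) * (Real.exp (-S j) * u j x) := by
      rw [← mul_assoc, h7, one_mul]
    rw [h8]
    have h9 : k ^ (κ / 8) = Real.exp (-(κ / 16 * ell k)) * k ^ (κ / 16) := by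
      rw [← Brg2a_rp hk, ← Real.rpow_add hk]
      congr 1
      ring
    rw [h9]
    calc Real.exp (-(κ / 16 * ell k)) * k ^ (κ / 16) * u 0 x
        ≤ Real.exp (-(κ / 16 * ell k)) * (1 / 2) * u 0 x :=
          mul_le_mul_of_nonneg_right (mul_le_mul_of_nonneg_left s2 (Real.exp_pos _).le) (hu0 x)
      _ = Real.exp (-(κ / 16 * ell k)) * (u 0 x * (1 / 2)) := by ring
      _ ≤ Real.exp (S j) * (Real.exp (-S j) * u j x) :=
          mul_le_mul h6 h5 (mul_nonneg (hu0 x) (by norm_num)) (Real.exp_pos _).le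
  exact fun j hj => ⟨hlowx j hj, hupx j hj, hupn j hj⟩

end DynC

end
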