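import Mathlib.Analysis.SpecialFunctions.Pow.Asymptotics
import Mathlib.Analysis.SpecialFunctions.Exp
import Mathlib.Analysis.SpecialFunctions.Log.Basic
import Mathlib.Analysis.SpecialFunctions.Sqrt
import Pool.Agent.Lib_MP_36b788_n.M13
import Pool.Agent.Lib_MP_36b788_n.M24
import Pool.Agent.Lib_MP_36b788_n.M33

set_option linter.unusedVariables false

/-!
# MP_36b788_pr, stationary limit: merged library part M34

Concatenation of smaller files (each in its own section), only to save build time.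
-/

/-! ### from `Lib_MP_36b788g.FNum` -/

section

/-!
# Choice of the constants of a block (`N ≥ 3`)

PROOF of `fin_num`. Put `u = log(64 CV cd²) ≥ 0`, `w = log(256 CV cd²) ≥ 0`. For given `T`: `K = 64 e^{CD a T/2} CV cd²`, `log K = CD a T/2 + u`; `M = max 1 (16 log K) ≤ 1 + 8 CD a T + 16 u`;
`Rb = ⌈CD T + (2/a) w⌉₊`, so `CD T + (2/a) w ≤ Rb ≤ CD T + (2/a) w + 1`.
* fourth claim (`256 CV cd² e^{CD a T/2} e^{-(a/2) Rb} ≤ 1`): `256 CV cd² = e^w`, the exponent is `w + CD a T/2 - (a/2) Rb ≤ 0`.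
* last claim: `32 cd B e^{CD a T/2 - c T} ≤ 32 cd B e^{-c T/2} ≤ 1` for `T` large (`CD a ≤ c`).
* third claim: it is `32 B cd e^{-cT + CD a T/2 + (a/8) Rb} ≤ 1`; the exponent is `≤ -cT + (5/8) CD a T + w/4 + a/8 ≤ -(3/8) c T + w/4 + a/8`: `T` large.
* fifth claim: `-(a(c5 T - C5 M)) ≤ -a c5 T + a C5 (1 + 16 u) + 8 C5 CD a² T ≤ -(a c5/2) T + a C5 (1 + 16 u)` (`16 C5 CD a ≤ c5`), `2 Rb + 1 ≤ 2 CD T + (4/a) w + 3 ≤ C' T` for `T ≥ 1`: `256 CV cd (C' T)^d e^{a C5(1+16u)} e^{-(a c5/2) T} → 0`.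
All three conditions hold eventually as `T → ∞` (`Filter.Tendsto`, `Filter.Eventually.and`, `.exists`), e.g. `tendsto_pow_mul_exp_neg_atTop_nhds_zero` with `T ↦ (a c5/2) T`.
-/

namespace DynG

theorem fin_num (d : ℕ) (CD c c5 C5 a B cd CV : ℝ) (hCD : 0 < CD) (hc : 0 < c) (hc5 : 0 < c5)
    (hC5 : 0 < C5) (ha : 0 < a) (h1 : CD * a ≤ c) (h2 : 16 * C5 * CD * a ≤ c5) (hB : 1 ≤ B)
    (hcd : 1 ≤ cd) (hCV : 1 ≤ CV) :
    ∃ (T M K : ℝ) (Rb : ℕ), 80 ≤ T ∧ 1 ≤ M ∧ 1 ≤ K ∧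
      K = 64 * Real.exp (CD * a * T / 2) * CV * cd ^ 2 ∧ Real.log K ≤ M / 16 ∧
      B * Real.exp (-(c * T)) * K * Real.exp (a / 8 * Rb) ≤ 2 * CV * cd ∧
      256 * CV * cd ^ 2 * Real.exp (CD * a * T / 2) * Real.exp (-(a / 2 * Rb)) ≤ 1 ∧
      256 * CV * cd * (2 * (Rb : ℝ) + 1) ^ d * Real.exp (-(a * (c5 * T - C5 * M))) ≤ 1 ∧
      32 * Real.exp (CD * a * T / 2) * cd * (B * Real.exp (-(c * T))) ≤ 1 := by
  set u : ℝ := Real.log (64 * CV * cd ^ 2) with hu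
  set w : ℝ := Real.log (256 * CV * cd ^ 2) with hw
  have hcd0 : 0 < cd := by linarith
  have hCV0 : 0 < CV := by linarith
  have hB0 : 0 < B := by linarith
  have hcd2 : 1 ≤ cd ^ 2 := one_le_pow₀ hcd
  have hCVcd : 1 ≤ CV * cd ^ 2 := by nlinarith
  have hpu : 0 < 64 * CV * cd ^ 2 := by positivity
  have hpw : 0 < 256 * CV * cd ^ 2 := by positivity
  have hu0 : 0 ≤ u := Real.log_nonneg (by nlinarith only [hCVcd])
  have hw0 : 0 ≤ w := Real.log_nonneg (by nlinarith only [hCVcd])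
  have hexpw : Real.exp w = 256 * CV * cd ^ 2 := Real.exp_log hpw
  have hexpu : Real.exp u = 64 * CV * cd ^ 2 := Real.exp_log hpu
  set C' : ℝ := 2 * CD + 4 / a * w + 3 with hC'
  have hC'0 : 0 < C' := by positivity
  -- the four eventual conditions
  have t2 : Filter.Tendsto (fun T : ℝ => 32 * cd * B * Real.exp (-(c / 2 * T))) Filter.atTop
      (nhds 0) := by
    have h0 : Filter.Tendsto (fun T : ℝ => Real.exp (-(c / 2 * T))) Filter.atTop (nhds 0) := by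
      refine Real.tendsto_exp_neg_atTop_nhds_zero.comp ?_
      exact Filter.tendsto_id.const_mul_atTop (by positivity)
    simpa using h0.const_mul (32 * cd * B)
  have t3 : Filter.Tendsto (fun T : ℝ => 32 * B * cd * Real.exp (w / 4 + a / 8) *
      Real.exp (-(3 / 8 * c * T))) Filter.atTop (nhds 0) := by
    have h0 : Filter.Tendsto (fun T : ℝ => Real.exp (-(3 / 8 * c * T))) Filter.atTop (nhds 0) := by
      refine Real.tendsto_exp_neg_atTop_nhds_zero.comp ?_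
      exact Filter.tendsto_id.const_mul_atTop (by positivity)
    simpa using h0.const_mul (32 * B * cd * Real.exp (w / 4 + a / 8))
  have t4 : Filter.Tendsto (fun T : ℝ => 256 * CV * cd * (C' * T) ^ d *
      Real.exp (a * C5 * (1 + 16 * u)) * Real.exp (-(a * c5 / 2 * T))) Filter.atTop
      (nhds 0) := by
    have h0 : Filter.Tendsto (fun T : ℝ => (a * c5 / 2 * T) ^ d * Real.exp (-(a * c5 / 2 * T)))
        Filter.atTop (nhds 0) := by
      refine (Real.tendsto_pow_mul_exp_neg_atTop_nhds_zero d).comp ?_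
      exact Filter.tendsto_id.const_mul_atTop (by positivity)
    have h1 := h0.const_mul (256 * CV * cd * (C' / (a * c5 / 2)) ^ d *
      Real.exp (a * C5 * (1 + 16 * u)))
    rw [mul_zero] at h1
    refine h1.congr (fun T => ?_)
    have hne : a * c5 / 2 ≠ 0 := by positivity
    have h2 : (C' * T) ^ d = (C' / (a * c5 / 2)) ^ d * (a * c5 / 2 * T) ^ d := by
      rw [← mul_pow]
      congr 1
      field_simp
    rw [h2]
    ring
  have e1 : ∀ᶠ T : ℝ in Filter.atTop, 80 ≤ T := Filter.eventually_ge_atTop 80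
  have e2 := t2.eventually (ge_mem_nhds (show (0 : ℝ) < 1 by norm_num))
  have e3 := t3.eventually (ge_mem_nhds (show (0 : ℝ) < 1 by norm_num))
  have e4 := t4.eventually (ge_mem_nhds (show (0 : ℝ) < 1 by norm_num))
  obtain ⟨T, hT80, hT2, hT3, hT4⟩ := (e1.and (e2.and (e3.and e4))).exists
  have hT0 : 0 < T := by linarith
  have hT1 : 1 ≤ T := by linarith
  have hK0 : 0 < 64 * Real.exp (CD * a * T / 2) * CV * cd ^ 2 := by positivity
  have hlogK : Real.log (64 * Real.exp (CD * a * T / 2) * CV * cd ^ 2) = CD * a * T / 2 + u := by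
    have h3 : 64 * Real.exp (CD * a * T / 2) * CV * cd ^ 2 = Real.exp (CD * a * T / 2 + u) := by
      rw [Real.exp_add, hexpu]; ring
    rw [h3, Real.log_exp]
  have hCDaT : 0 ≤ CD * a * T := by positivity
  -- the bounds of `Rb`
  have hR0 : 0 ≤ CD * T + 2 / a * w := by positivity
  have hRle : CD * T + 2 / a * w ≤ (⌈CD * T + 2 / a * w⌉₊ : ℝ) := Nat.le_ceil _
  have hRlt : (⌈CD * T + 2 / a * w⌉₊ : ℝ) < CD * T + 2 / a * w + 1 := Nat.ceil_lt_add_one hR0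
  generalize ⌈CD * T + 2 / a * w⌉₊ = Rb at hRle hRlt
  have hcaT : CD * a * T ≤ c * T := mul_le_mul_of_nonneg_right h1 hT0.le
  refine ⟨T, 1 + 8 * (CD * a * T) + 16 * u, 64 * Real.exp (CD * a * T / 2) * CV * cd ^ 2, Rb,
    hT80, by linarith, ?_, rfl, ?_, ?_, ?_, ?_, ?_⟩
  · -- `1 ≤ K`
    have h3 : 1 ≤ Real.exp (CD * a * T / 2) := Real.one_le_exp (by linarith)
    have h4 : 1 * 1 ≤ Real.exp (CD * a * T / 2) * (CV * cd ^ 2) :=
      mul_le_mul h3 hCVcd zero_le_one (by linarith)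
    have h5 : 64 * Real.exp (CD * a * T / 2) * CV * cd ^ 2 =
      64 * (Real.exp (CD * a * T / 2) * (CV * cd ^ 2)) := by ring
    rw [h5]
    linarith
  · rw [hlogK]
    linarith
  · -- third claim
    have h3 : a / 8 * (Rb : ℝ) ≤ CD * a * T / 8 + w / 4 + a / 8 := by
      have h4 : a / 8 * (Rb : ℝ) ≤ a / 8 * (CD * T + 2 / a * w + 1) :=
        mul_le_mul_of_nonneg_left hRlt.le (by positivity)
      have h5 : a / 8 * (CD * T + 2 / a * w + 1) = CD * a * T / 8 + w / 4 + a / 8 := by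
        field_simp
        ring
      linarith only [h4, h5]
    have h6 : Real.exp (-(c * T)) * Real.exp (CD * a * T / 2) * Real.exp (a / 8 * Rb) ≤
        Real.exp (w / 4 + a / 8) * Real.exp (-(3 / 8 * c * T)) := by
      rw [← Real.exp_add, ← Real.exp_add, ← Real.exp_add]
      apply Real.exp_le_exp.mpr
      linarith
    calc B * Real.exp (-(c * T)) * (64 * Real.exp (CD * a * T / 2) * CV * cd ^ 2) *
          Real.exp (a / 8 * Rb)
        = (2 * CV * cd) * (32 * B * cd * (Real.exp (-(c * T)) * Real.exp (CD * a * T / 2) *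
            Real.exp (a / 8 * Rb))) := by ring
      _ ≤ (2 * CV * cd) * (32 * B * cd * (Real.exp (w / 4 + a / 8) *
            Real.exp (-(3 / 8 * c * T)))) := by
          apply mul_le_mul_of_nonneg_left _ (by positivity)
          exact mul_le_mul_of_nonneg_left h6 (by positivity)
      _ = (2 * CV * cd) * (32 * B * cd * Real.exp (w / 4 + a / 8) *
            Real.exp (-(3 / 8 * c * T))) := by ring
      _ ≤ (2 * CV * cd) * 1 := mul_le_mul_of_nonneg_left hT3 (by positivity)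
      _ = 2 * CV * cd := by ring
  · -- fourth claim
    have h3 : CD * a * T / 2 + w ≤ a / 2 * (Rb : ℝ) := by
      have h4 : a / 2 * (CD * T + 2 / a * w) ≤ a / 2 * (Rb : ℝ) :=
        mul_le_mul_of_nonneg_left hRle (by positivity)
      have h5 : a / 2 * (CD * T + 2 / a * w) = CD * a * T / 2 + w := by
        field_simp
      linarith only [h4, h5]
    rw [← hexpw, ← Real.exp_add, ← Real.exp_add]
    rw [← Real.exp_zero]
    apply Real.exp_le_exp.mpr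
    linarith
  · -- fifth claim
    have h3 : 2 * (Rb : ℝ) + 1 ≤ C' * T := by
      have h4 : 2 * (Rb : ℝ) + 1 ≤ 2 * CD * T + 4 / a * w + 3 := by
        have h5 : 2 * (CD * T + 2 / a * w + 1) = 2 * CD * T + 4 / a * w + 2 := by ring
        linarith
      have h6 : 0 ≤ 4 / a * w := by positivity
      have h7 : 4 / a * w ≤ 4 / a * w * T := le_mul_of_one_le_right h6 hT1
      have h8 : C' * T = 2 * CD * T + 4 / a * w * T + 3 * T := by rw [hC']; ring
      linarith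
    have h4 : (2 * (Rb : ℝ) + 1) ^ d ≤ (C' * T) ^ d := pow_le_pow_left₀ (by positivity) h3 d
    have h5 : Real.exp (-(a * (c5 * T - C5 * (1 + 8 * (CD * a * T) + 16 * u)))) ≤
        Real.exp (a * C5 * (1 + 16 * u)) * Real.exp (-(a * c5 / 2 * T)) := by
      rw [← Real.exp_add]
      apply Real.exp_le_exp.mpr
      have h6 : 16 * C5 * CD * a * (a * T) ≤ c5 * (a * T) :=
        mul_le_mul_of_nonneg_right h2 (by positivity)
      nlinarith only [h6, h6]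
    calc 256 * CV * cd * (2 * (Rb : ℝ) + 1) ^ d *
          Real.exp (-(a * (c5 * T - C5 * (1 + 8 * (CD * a * T) + 16 * u))))
        ≤ 256 * CV * cd * (C' * T) ^ d *
          (Real.exp (a * C5 * (1 + 16 * u)) * Real.exp (-(a * c5 / 2 * T))) := by
          apply mul_le_mul _ h5 (Real.exp_pos _).le (by positivity)
          exact mul_le_mul_of_nonneg_left h4 (by positivity)
      _ = 256 * CV * cd * (C' * T) ^ d *
          Real.exp (a * C5 * (1 + 16 * u)) * Real.exp (-(a * c5 / 2 * T)) := by ring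
      _ ≤ 1 := hT4
  · -- last claim
    have h3 : Real.exp (CD * a * T / 2) * Real.exp (-(c * T)) ≤ Real.exp (-(c / 2 * T)) := by
      rw [← Real.exp_add]
      apply Real.exp_le_exp.mpr
      linarith
    calc 32 * Real.exp (CD * a * T / 2) * cd * (B * Real.exp (-(c * T)))
        = 32 * cd * B * (Real.exp (CD * a * T / 2) * Real.exp (-(c * T))) := by ring
      _ ≤ 32 * cd * B * Real.exp (-(c / 2 * T)) :=
          mul_le_mul_of_nonneg_left h3 (by positivity)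
      _ ≤ 1 := hT2

end DynG

end

/-! ### from `Lib_MP_36b788c.Brg1b` -/

section

/-!
# The bridge: finer one step estimate of the logarithmic difference

PROOF (the computations in the docstring of `Brg1.lean`, proof of `brg_step`; copy its private lemmas). `δ = log(G.2 z/G.1 z)`, `c = ctl`, `√h c = -δ/(ns+1-j)`, `|√h c| ≤ bd j/(ns+1-j) = m0/(ns+1) + ς lamS ≤ 1/100` for small `h`. `w = e^{√h ξ} G.1 z`, `w' = e^{√h(ξ+c)} G.2 z`, `G⁺.2 z/G⁺.1 z = exp(δ + √h c) (t'+r')/(t+r)`, `(t'+r')/(t+r) = e^ϵ` with `|ϵ| ≤ (5/4)(|t'-t| + |r'-r|)/|t+r| ≤ (3/2)(|t'-t| + |r'-r|)`.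
`|t'-t| ≤ h(1+β)(2k^{κ/2})^β |log(|w'|/|w|)| ≤ h(1+β)(2k^{κ/2})^β |δ|`.
`r' - r = kh[Σ(G.2 v - G.1 v)/w' + Σ G.1 v (1/w' - 1/w)] - 2d k h[e^{-√h(ξ+c)} - e^{-√hξ}]`. First term: `≤ (5/4) k h Σ‖G.1 v - G.2 v‖/‖G.2 z‖`. Second: `k‖G.1 v‖ ≤ k^{κ/2}‖G.1 z‖` for the neighbours, `|w/w' - 1| = |e^{-(δ+√hc)} - 1| ≤ |δ| e^{|δ|} ≤ |δ| k^{-κ/16} e^5`, so `≤ h k^{κ/4}|δ|`. Third `≤ 2d k h 4|√h c| ≤ h k^{1/2}|δ|`.
Total: `‖log(G⁺.2 z/G⁺.1 z)‖ ≤ ‖δ + √h c + ϵ‖ ≤ (1 - 1/(ns+1-j))‖δ‖ + |ϵ|`.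
-/

open MeasureTheory ProbabilityTheory
open scoped ENNReal

namespace DynC

open Dyn

private theorem Brg1b_norm_log_exp (y : ℂ) : ‖Complex.log (Complex.exp y)‖ ≤ ‖y‖ := by
  by_cases h : -Real.pi < y.im ∧ y.im ≤ Real.pi
  · rw [Complex.log_exp h.1 h.2]
  · have hre : (Complex.log (Complex.exp y)).re = y.re := by
      rw [Complex.log_re, Complex.norm_exp, Real.log_exp]
    have him : |(Complex.log (Complex.exp y)).im| ≤ |y.im| := by
      rw [Complex.log_im]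
      have h1 : |(Complex.exp y).arg| ≤ Real.pi := Complex.abs_arg_le_pi _
      have h2 : Real.pi ≤ |y.im| := by
        by_contra hc
        rw [not_le, abs_lt] at hc
        exact h ⟨hc.1, hc.2.le⟩
      exact h1.trans h2
    rw [Complex.norm_def, Complex.norm_def]
    refine Real.sqrt_le_sqrt ?_
    rw [Complex.normSq_apply, Complex.normSq_apply, hre]
    have := pow_le_pow_left₀ (abs_nonneg _) him 2
    rw [sq_abs, sq_abs] at this
    nlinarith

private theorem Brg1b_exp_sub (x : ℂ) : ‖Complex.exp x - 1‖ ≤ ‖x‖ * Real.exp ‖x‖ := by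
  have := Complex.norm_exp_sub_sum_le_norm_mul_exp x 1
  simpa using this

/-- `t = psi/m` as a function of `log m` -/
private theorem Brg1b_tt1 {β h : ℝ} (hβ : 0 < β) (hh : 0 < h) {m m' M : ℝ} (hm : 0 < m)
    (hmm : m ≤ m') (hM : m' ≤ M) :
    psi β h m / m - psi β h m' / m' ≤ h * β * M ^ β * Real.log (m' / m) := by
  have hm' : 0 < m' := hm.trans_le hmm
  have hMp : 0 < M := hm'.trans_le hM
  have p1 := psi_pos hβ hh.le hm
  have p2 := psi_pos hβ hh.le hm'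
  have e1 := psi_eq hβ hh.le hm.le
  have e2 := psi_eq hβ hh.le hm'.le
  have hr := psi_ratio hβ hh.le hm hmm
  rw [Real.rpow_add p1, Real.rpow_one] at e1
  rw [Real.rpow_add p2, Real.rpow_one] at e2
  set p := psi β h m with hp
  set p' := psi β h m' with hp'
  have q1 : 0 < p ^ β := Real.rpow_pos_of_pos p1 _
  have q2 : 0 < p' ^ β := Real.rpow_pos_of_pos p2 _
  have t1 : p / m = 1 / (1 + h * p ^ β) := by
    rw [div_eq_div_iff hm.ne' (by positivity)]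
    linarith
  have t2 : p' / m' = 1 / (1 + h * p' ^ β) := by
    rw [div_eq_div_iff hm'.ne' (by positivity)]
    linarith
  have hpp : p ^ β ≤ p' ^ β := Real.rpow_le_rpow p1.le (psi_mono hβ hh.le hmm) hβ.le
  have s1 : p / m - p' / m' ≤ h * (p' ^ β - p ^ β) := by
    rw [t1, t2, div_sub_div _ _ (by positivity) (by positivity), div_le_iff₀ (by positivity)]
    have a1 : 1 ≤ (1 + h * p ^ β) * (1 + h * p' ^ β) := by
      have : 0 ≤ h * p ^ β := by positivity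
      have : 0 ≤ h * p' ^ β := by positivity
      nlinarith
    have a2 : 0 ≤ h * (p' ^ β - p ^ β) := mul_nonneg hh.le (by linarith)
    nlinarith only [a1, a2]
  have s2 : p' / p ≤ m' / m := by
    rw [div_le_div_iff₀ p1 hm]
    rw [div_le_div_iff₀ hm' hm] at hr
    linarith
  have s3 : p' ^ β - p ^ β ≤ β * M ^ β * Real.log (m' / m) := by
    have b1 : p ^ β = p' ^ β * Real.exp (-(β * Real.log (p' / p))) := by
      rw [Real.log_div p2.ne' p1.ne', Real.rpow_def_of_pos p1, Real.rpow_def_of_pos p2,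
        ← Real.exp_add]
      congr 1
      ring
    have b2 : 1 - β * Real.log (p' / p) ≤ Real.exp (-(β * Real.log (p' / p))) := by
      have := Real.add_one_le_exp (-(β * Real.log (p' / p)))
      linarith
    have b3 : Real.log (p' / p) ≤ Real.log (m' / m) :=
      Real.log_le_log (by positivity) s2
    have b4 : 0 ≤ Real.log (m' / m) := Real.log_nonneg (by rw [le_div_iff₀ hm]; linarith)
    have b5 : p' ^ β ≤ M ^ β :=
      Real.rpow_le_rpow p2.le ((psi_le hβ hh.le hm'.le).trans hM) hβ.le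
    calc p' ^ β - p ^ β = p' ^ β * (1 - Real.exp (-(β * Real.log (p' / p)))) := by
          rw [b1]; ring
      _ ≤ p' ^ β * (β * Real.log (m' / m)) := by
          refine mul_le_mul_of_nonneg_left ?_ q2.le
          have := mul_le_mul_of_nonneg_left b3 hβ.le
          linarith
      _ ≤ M ^ β * (β * Real.log (m' / m)) := by
          refine mul_le_mul_of_nonneg_right b5 (by positivity)
      _ = β * M ^ β * Real.log (m' / m) := by ring
  calc p / m - p' / m' ≤ h * (p' ^ β - p ^ β) := s1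
    _ ≤ h * (β * M ^ β * Real.log (m' / m)) := mul_le_mul_of_nonneg_left s3 hh.le
    _ = _ := by ring

private theorem Brg1b_tt {β h : ℝ} (hβ : 0 < β) (hh : 0 < h) {m m' M : ℝ} (hm : 0 < m)
    (hm' : 0 < m') (hM : m ≤ M) (hM' : m' ≤ M) :
    |psi β h m' / m' - psi β h m / m| ≤ h * β * M ^ β * |Real.log (m' / m)| := by
  rcases le_total m m' with hc | hc
  · have h1 := Brg1b_tt1 hβ hh hm hc hM'
    have h2 := psi_ratio hβ hh.le hm hc
    have h3 : 0 ≤ Real.log (m' / m) := Real.log_nonneg (by rw [le_div_iff₀ hm]; linarith)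
    rw [abs_of_nonpos (by linarith), abs_of_nonneg h3]
    linarith
  · have h1 := Brg1b_tt1 hβ hh hm' hc hM
    have h2 := psi_ratio hβ hh.le hm' hc
    have h3 : 0 ≤ Real.log (m / m') := Real.log_nonneg (by rw [le_div_iff₀ hm']; linarith)
    have h4 : Real.log (m' / m) = -Real.log (m / m') := by
      rw [← Real.log_inv, inv_div]
    rw [abs_of_nonneg (by linarith), h4, abs_neg, abs_of_nonneg h3]
    exact h1

private theorem Brg1b_JV (β h : ℝ) (w : ℂ) :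
    JV β h w = ((psi β h ‖w‖ / ‖w‖ : ℝ) : ℂ) * w := by
  unfold JV
  rw [Complex.real_smul]

private theorem Brg1b_exp_hi {A : ℂ} {a : ℝ} (hA : ‖A‖ ≤ a) (ha : a ≤ 1 / 20) :
    ‖Complex.exp A‖ ≤ 10 / 9 := by
  rw [Complex.norm_exp]
  have h1 : A.re ≤ 1 / 20 := (le_abs_self _).trans ((Complex.abs_re_le_norm A).trans (hA.trans ha))
  have h2 := Real.add_one_le_exp (-A.re)
  have h3 : Real.exp A.re * Real.exp (-A.re) = 1 := by
    rw [← Real.exp_add]; simp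
  have h4 := Real.exp_pos A.re
  nlinarith

private theorem Brg1b_exp_lo {A : ℂ} {a : ℝ} (hA : ‖A‖ ≤ a) (ha : a ≤ 1 / 20) :
    9 / 10 ≤ ‖Complex.exp A‖ := by
  rw [Complex.norm_exp]
  have h1 : -(1 / 20) ≤ A.re := by
    have := (neg_abs_le A.re)
    have := (Complex.abs_re_le_norm A).trans (hA.trans ha)
    linarith
  have h2 := Real.add_one_le_exp A.re
  linarith

/-- the one step estimate for complex numbers -/
private theorem Brg1b_core {β h k : ℝ} (hβ : 0 < β) (hh : 0 < h) (hk : 0 < k) (hk1 : k ≤ 1)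
    {ι : Type} (s : Finset ι) (d : ℕ) (hs : s.card ≤ 2 * d) (f1 f2 : ι → ℂ) (g1 g2 A : ℂ)
    (a K E : ℝ) (hg1 : g1 ≠ 0) (hg2 : g2 ≠ 0) (ha0 : 0 ≤ a) (ha1 : a ≤ 1) (hA : ‖A‖ ≤ 1 / 40)
    (hB : a * ‖Complex.log (g2 / g1)‖ ≤ 1 / 40) (hK0 : 0 ≤ K) (hK1 : K ≤ 1) (hm1 : ‖g1‖ ≤ K)
    (hm2 : ‖g2‖ ≤ K) (hf1 : ∀ v ∈ s, k * ‖f1 v‖ ≤ K * ‖g1‖) (hf2 : ∀ v ∈ s, k * ‖f2 v‖ ≤ K * ‖g2‖)
    (hE : Real.exp ‖Complex.log (g2 / g1)‖ ≤ E) (h3 : h * 2 ^ β ≤ 1 / 40)
    (h4 : h * (8 * d) ≤ 1 / 40) :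
    ‖Complex.log ((JV β h (Complex.exp (A - a * Complex.log (g2 / g1)) * g2) +
        (k * h) • (∑ v ∈ s, f2 v - ((2 * d : ℕ) : ℝ) • g2)) /
      (JV β h (Complex.exp A * g1) + (k * h) • (∑ v ∈ s, f1 v - ((2 * d : ℕ) : ℝ) • g1)))‖ ≤
      (1 - a + h * (2 * β * (2 * K) ^ β + 8 * d * K * E + 8 * d * k)) *
        ‖Complex.log (g2 / g1)‖ + 4 * h * k * (∑ v ∈ s, ‖f1 v - f2 v‖) / ‖g2‖ := by
  set δ := Complex.log (g2 / g1) with hδ
  have hexp : Complex.exp δ = g2 / g1 := Complex.exp_log (div_ne_zero hg2 hg1)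
  have hg1p : 0 < ‖g1‖ := norm_pos_iff.2 hg1
  have hg2p : 0 < ‖g2‖ := norm_pos_iff.2 hg2
  set w := Complex.exp A * g1 with hw
  set w' := Complex.exp (A - a * δ) * g2 with hw'
  have hg2e : g2 = Complex.exp δ * g1 := by
    rw [hexp, div_mul_cancel₀ _ hg1]
  have hww : w' = Complex.exp ((1 - a : ℝ) * δ) * w := by
    rw [hw', hw]
    conv_lhs => rw [hg2e]
    rw [← mul_assoc, ← mul_assoc, ← Complex.exp_add, ← Complex.exp_add]
    congr 2
    push_cast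
    ring
  have hw0 : w ≠ 0 := mul_ne_zero (Complex.exp_ne_zero _) hg1
  have hw'0 : w' ≠ 0 := mul_ne_zero (Complex.exp_ne_zero _) hg2
  have hwp : 0 < ‖w‖ := norm_pos_iff.2 hw0
  have hw'p : 0 < ‖w'‖ := norm_pos_iff.2 hw'0
  have hAB : ‖A - a * δ‖ ≤ 1 / 20 := by
    have h1 : ‖(a : ℂ) * δ‖ = a * ‖δ‖ := by
      rw [norm_mul, Complex.norm_real, Real.norm_of_nonneg ha0]
    have h2 := norm_sub_le A (a * δ)
    rw [h1] at h2
    linarith
  -- sizes of `w`, `w'`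
  have e1 := Brg1b_exp_hi hA (by norm_num)
  have e2 := Brg1b_exp_lo hA (by norm_num)
  have e3 := Brg1b_exp_hi hAB le_rfl
  have e4 := Brg1b_exp_lo hAB le_rfl
  have nw : ‖w‖ = ‖Complex.exp A‖ * ‖g1‖ := norm_mul _ _
  have nw' : ‖w'‖ = ‖Complex.exp (A - a * δ)‖ * ‖g2‖ := norm_mul _ _
  have w1 : ‖w‖ ≤ 2 * K := by
    rw [nw]
    calc _ ≤ 10 / 9 * K := mul_le_mul e1 hm1 hg1p.le (by norm_num)
      _ ≤ 2 * K := by linarith
  have w1' : ‖w'‖ ≤ 2 * K := by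
    rw [nw']
    calc _ ≤ 10 / 9 * K := mul_le_mul e3 hm2 hg2p.le (by norm_num)
      _ ≤ 2 * K := by linarith only [hm1, hg1p]
  have w2 : 9 / 10 * ‖g1‖ ≤ ‖w‖ := by
    rw [nw]
    exact mul_le_mul_of_nonneg_right e2 hg1p.le
  have w2' : 9 / 10 * ‖g2‖ ≤ ‖w'‖ := by
    rw [nw']
    exact mul_le_mul_of_nonneg_right e4 hg2p.le
  -- the factors `t`
  set t := psi β h ‖w‖ / ‖w‖ with ht
  set t' := psi β h ‖w'‖ / ‖w'‖ with ht'
  have tb : ∀ m : ℝ, 0 < m → m ≤ 2 → 39 / 40 ≤ psi β h m / m ∧ psi β h m / m ≤ 1 := by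
    intro m hm hm2
    have a1 := psi_lower hβ hh.le hm.le
    have a2 := psi_le hβ hh.le hm.le
    have a3 : h * m ^ β ≤ 1 / 40 :=
      (mul_le_mul_of_nonneg_left (Real.rpow_le_rpow hm.le hm2 hβ.le) hh.le).trans h3
    constructor
    · rw [le_div_iff₀ hm]
      nlinarith only [a1, hm, a3]
    · rw [div_le_one hm]
      exact a2
  have tb1 := tb ‖w‖ hwp (by linarith)
  have tb2 := tb ‖w'‖ hw'p (by linarith only [hK1, w1'])
  rw [← ht] at tb1
  rw [← ht'] at tb2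
  -- the remainders `r`
  set c1 : ℂ := ∑ v ∈ s, f1 v - ((2 * d : ℕ) : ℝ) • g1 with hc1
  set c2 : ℂ := ∑ v ∈ s, f2 v - ((2 * d : ℕ) : ℝ) • g2 with hc2
  have hdn : (0 : ℝ) ≤ d := Nat.cast_nonneg d
  have hcard : (s.card : ℝ) ≤ 2 * d := by exact_mod_cast hs
  have cb : ∀ (f : ι → ℂ) (g w : ℂ), (∀ v ∈ s, k * ‖f v‖ ≤ K * ‖g‖) → 9 / 10 * ‖g‖ ≤ ‖w‖ →
      0 < ‖g‖ → ‖((k * h : ℝ) : ℂ) * (∑ v ∈ s, f v - ((2 * d : ℕ) : ℝ) • g) / w‖ ≤ 1 / 40 := by
    intro f g w hf hgw hg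
    have b1 : k * ‖∑ v ∈ s, f v‖ ≤ 2 * d * ‖g‖ := by
      calc k * ‖∑ v ∈ s, f v‖ ≤ k * ∑ v ∈ s, ‖f v‖ :=
            mul_le_mul_of_nonneg_left (norm_sum_le _ _) hk.le
        _ = ∑ v ∈ s, k * ‖f v‖ := Finset.mul_sum _ _ _
        _ ≤ ∑ v ∈ s, K * ‖g‖ := Finset.sum_le_sum hf
        _ = s.card * (K * ‖g‖) := by rw [Finset.sum_const, nsmul_eq_mul]
        _ ≤ 2 * d * (1 * ‖g‖) := by
            refine mul_le_mul hcard ?_ (by positivity) (by positivity)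
            exact mul_le_mul_of_nonneg_right hK1 hg.le
        _ = 2 * d * ‖g‖ := by ring
    have b2 : ‖(((2 * d : ℕ) : ℝ) • g : ℂ)‖ = 2 * d * ‖g‖ := by
      rw [norm_smul, Real.norm_of_nonneg (Nat.cast_nonneg _)]
      push_cast
      ring
    have b3 : k * ‖∑ v ∈ s, f v - ((2 * d : ℕ) : ℝ) • g‖ ≤ 4 * d * ‖g‖ := by
      have := norm_sub_le (∑ v ∈ s, f v) (((2 * d : ℕ) : ℝ) • g)
      rw [b2] at this
      have c1 := mul_le_mul_of_nonneg_left this hk.le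
      have c2 : k * (2 * d * ‖g‖) ≤ 1 * (2 * d * ‖g‖) :=
        mul_le_mul_of_nonneg_right hk1 (by positivity)
      linarith only [b1, c1, c2]
    have hwp : 0 < ‖w‖ := lt_of_lt_of_le (by positivity) hgw
    rw [norm_div, norm_mul, Complex.norm_real, Real.norm_of_nonneg (by positivity),
      div_le_iff₀ hwp]
    calc k * h * ‖∑ v ∈ s, f v - ((2 * d : ℕ) : ℝ) • g‖
        = h * (k * ‖∑ v ∈ s, f v - ((2 * d : ℕ) : ℝ) • g‖) := by ring
      _ ≤ h * (4 * d * ‖g‖) := mul_le_mul_of_nonneg_left b3 hh.le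
      _ = (h * (8 * d)) * (1 / 2 * ‖g‖) := by ring
      _ ≤ 1 / 40 * (9 / 10 * ‖g‖) :=
          mul_le_mul h4 (by linarith only [hg]) (by positivity) (by norm_num)
      _ ≤ 1 / 40 * ‖w‖ := by linarith only [hgw]
  set r : ℂ := ((k * h : ℝ) : ℂ) * c1 / w with hr
  set r' : ℂ := ((k * h : ℝ) : ℂ) * c2 / w' with hr'
  have rb1 : ‖r‖ ≤ 1 / 40 := cb f1 g1 w hf1 w2 hg1p
  have rb2 : ‖r'‖ ≤ 1 / 40 := cb f2 g2 w' hf2 w2' hg2p
  have X1 : JV β h w + (k * h) • c1 = w * ((t : ℂ) + r) := by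
    rw [Brg1b_JV, Complex.real_smul, hr, ← ht, mul_add, mul_div_cancel₀ _ hw0]
    ring
  have X2 : JV β h w' + (k * h) • c2 = w' * ((t' : ℂ) + r') := by
    rw [Brg1b_JV, Complex.real_smul, hr', ← ht', mul_add, mul_div_cancel₀ _ hw'0]
    ring
  rw [X1, X2]
  have den : 19 / 20 ≤ ‖(t : ℂ) + r‖ := by
    have b1 : ‖(t : ℂ)‖ = t := by
      rw [Complex.norm_real, Real.norm_of_nonneg (by linarith only [tb1, tb1.1])]
    have b2 : ‖(t : ℂ)‖ - ‖r‖ ≤ ‖(t : ℂ) + r‖ := by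
      have := norm_sub_norm_le (t : ℂ) (-r)
      rwa [norm_neg, sub_neg_eq_add] at this
    rw [b1] at b2
    linarith only [tb1, rb1, b2, tb1.1]
  have den0 : (t : ℂ) + r ≠ 0 := by
    intro hc
    rw [hc, norm_zero] at den
    linarith only [den]
  set q := ((t' : ℂ) + r') / ((t : ℂ) + r) with hq
  have q1 : ‖q - 1‖ ≤ 20 / 19 * (|t' - t| + ‖r' - r‖) := by
    have b1 : q - 1 = (((t' - t : ℝ) : ℂ) + (r' - r)) / ((t : ℂ) + r) := by
      rw [hq]
      field_simp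
      push_cast
      ring
    rw [b1, norm_div, div_le_iff₀ (by linarith only [den])]
    have b2 := norm_add_le ((t' - t : ℝ) : ℂ) (r' - r)
    rw [Complex.norm_real, Real.norm_eq_abs] at b2
    have b3 : 0 ≤ |t' - t| + ‖r' - r‖ := by positivity
    nlinarith only [b2, den, b3]
  have q2 : |t' - t| ≤ 1 / 40 := by
    rw [abs_le]
    constructor <;> linarith [tb1.1, tb1.2, tb2.1, tb2.2]
  have q3 : ‖r' - r‖ ≤ 1 / 20 := (norm_sub_le _ _).trans (by linarith only [rb1, rb2])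
  have q4 : ‖q - 1‖ ≤ 1 / 2 := q1.trans (by linarith only [q2, q3])
  have q5 : ‖Complex.log q‖ ≤ 3 / 2 * ‖q - 1‖ := by
    have := Complex.norm_log_one_add_half_le_self q4
    rwa [show 1 + (q - 1) = q by ring] at this
  have q0 : q ≠ 0 := by
    intro hc
    rw [hc] at q4
    norm_num at q4
  have hfr : w' * ((t' : ℂ) + r') / (w * ((t : ℂ) + r)) =
      Complex.exp ((1 - a : ℝ) * δ + Complex.log q) := by
    rw [Complex.exp_add, Complex.exp_log q0, hq, hww]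
    field_simp
  rw [hfr]
  refine (Brg1b_norm_log_exp _).trans ?_
  have main1 : ‖((1 - a : ℝ) : ℂ) * δ + Complex.log q‖ ≤ (1 - a) * ‖δ‖ + ‖Complex.log q‖ := by
    refine (norm_add_le _ _).trans ?_
    rw [norm_mul, Complex.norm_real, Real.norm_of_nonneg (by linarith only [ha1])]
  -- bound of `t' - t`
  have T : |t' - t| ≤ h * β * (2 * K) ^ β * ‖δ‖ := by
    refine (Brg1b_tt hβ hh hwp hw'p w1 w1').trans ?_
    refine mul_le_mul_of_nonneg_left ?_ (by positivity)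
    have b1 : ‖w'‖ / ‖w‖ = Real.exp ((1 - a) * δ.re) := by
      rw [hww, norm_mul, mul_div_assoc, div_self hwp.ne', mul_one, Complex.norm_exp]
      congr 1
      rw [Complex.re_ofReal_mul]
    rw [b1, Real.log_exp, abs_mul, abs_of_nonneg (by linarith only [ha1] : (0 : ℝ) ≤ 1 - a)]
    calc (1 - a) * |δ.re| ≤ 1 * ‖δ‖ :=
          mul_le_mul (by linarith only [ha0]) (Complex.abs_re_le_norm δ) (abs_nonneg _) zero_le_one
      _ = ‖δ‖ := one_mul _
  -- bound of `r' - r`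
  have R : ‖r' - r‖ ≤ 2 * (h * k * (∑ v ∈ s, ‖f1 v - f2 v‖) / ‖g2‖) +
      h * (4 * d * K * E + 4 * d * k) * ‖δ‖ := by
    have hw'i : w'⁻¹ = Complex.exp (-((1 - a : ℝ) * δ)) * w⁻¹ := by
      rw [hww, mul_inv, Complex.exp_neg]
    have hg1i : g1 * w⁻¹ = Complex.exp (-A) := by
      rw [hw, mul_inv, Complex.exp_neg]
      field_simp
    have hg2i : g2 * w'⁻¹ = Complex.exp (-A) * Complex.exp (a * δ) := by
      have : Complex.exp (-A) * Complex.exp (a * δ) = (Complex.exp (A - a * δ))⁻¹ := by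
        rw [← Complex.exp_neg, ← Complex.exp_add]
        congr 1
        ring
      rw [this, hw', mul_inv]
      field_simp
    have key : r' - r = ((k * h : ℝ) : ℂ) * (∑ v ∈ s, (f2 v - f1 v)) * w'⁻¹ +
        ((k * h : ℝ) : ℂ) * (∑ v ∈ s, f1 v) * (Complex.exp (-((1 - a : ℝ) * δ)) - 1) * w⁻¹ -
        ((k * h : ℝ) : ℂ) * ((2 * d : ℕ) : ℂ) * (Complex.exp (-A) * (Complex.exp (a * δ) - 1)) := by
      rw [hr', hr, hc1, hc2, div_eq_mul_inv, div_eq_mul_inv, Finset.sum_sub_distrib,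
        Complex.real_smul, Complex.real_smul]
      have k1 : Complex.exp (-A) * (Complex.exp (a * δ) - 1) = g2 * w'⁻¹ - g1 * w⁻¹ := by
        rw [hg2i, hg1i]
        ring
      have k2 : (∑ v ∈ s, f1 v) * (Complex.exp (-((1 - a : ℝ) * δ)) - 1) * w⁻¹ =
          (∑ v ∈ s, f1 v) * (w'⁻¹ - w⁻¹) := by
        rw [hw'i]
        ring
      rw [mul_assoc, mul_assoc (((k * h : ℝ) : ℂ) * (∑ v ∈ s, f1 v)), mul_assoc ((k * h : ℝ) : ℂ)
        (∑ v ∈ s, f1 v), ← mul_assoc (∑ v ∈ s, f1 v), k2, k1]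
      push_cast
      ring
    have hex : Real.exp (1 / 40) ≤ 10 / 9 := by
      have b1 := Real.add_one_le_exp (-(1 / 40) : ℝ)
      have b2 : Real.exp (1 / 40) * Real.exp (-(1 / 40)) = 1 := by
        rw [← Real.exp_add]; simp
      have b3 := Real.exp_pos (1 / 40 : ℝ)
      nlinarith only [b2, b1, b3]
    have hS0 : 0 ≤ ∑ v ∈ s, ‖f1 v - f2 v‖ := Finset.sum_nonneg fun _ _ => norm_nonneg _
    have N1 : ‖((k * h : ℝ) : ℂ) * (∑ v ∈ s, (f2 v - f1 v)) * w'⁻¹‖ ≤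
        2 * (h * k * (∑ v ∈ s, ‖f1 v - f2 v‖) / ‖g2‖) := by
      rw [norm_mul, norm_mul, norm_inv, Complex.norm_real, Real.norm_of_nonneg (by positivity)]
      have b1 : ‖∑ v ∈ s, (f2 v - f1 v)‖ ≤ ∑ v ∈ s, ‖f1 v - f2 v‖ := by
        refine (norm_sum_le _ _).trans (le_of_eq ?_)
        exact Finset.sum_congr rfl fun v _ => norm_sub_rev _ _
      have b2 : ‖w'‖⁻¹ ≤ 2 * ‖g2‖⁻¹ := by
        rw [← div_eq_mul_inv, inv_eq_one_div, div_le_div_iff₀ hw'p hg2p]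
        linarith only [hw'p, w2']
      calc k * h * ‖∑ v ∈ s, (f2 v - f1 v)‖ * ‖w'‖⁻¹
          ≤ k * h * (∑ v ∈ s, ‖f1 v - f2 v‖) * (2 * ‖g2‖⁻¹) :=
            mul_le_mul (mul_le_mul_of_nonneg_left b1 (by positivity)) b2 (by positivity)
              (by positivity)
        _ = _ := by rw [div_eq_mul_inv]; ring
    have hx1 : ‖-(((1 - a : ℝ) : ℂ) * δ)‖ ≤ ‖δ‖ := by
      rw [norm_neg, norm_mul, Complex.norm_real, Real.norm_of_nonneg (by linarith only [ha1])]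
      calc (1 - a) * ‖δ‖ ≤ 1 * ‖δ‖ := mul_le_mul_of_nonneg_right (by linarith only [ha0]) (norm_nonneg _)
        _ = ‖δ‖ := one_mul _
    have N2 : ‖((k * h : ℝ) : ℂ) * (∑ v ∈ s, f1 v) * (Complex.exp (-((1 - a : ℝ) * δ)) - 1) *
        w⁻¹‖ ≤ h * (4 * d * K * E) * ‖δ‖ := by
      rw [norm_mul, norm_mul, norm_mul, norm_inv, Complex.norm_real,
        Real.norm_of_nonneg (by positivity)]
      have b1 : k * ‖∑ v ∈ s, f1 v‖ ≤ 2 * d * (K * ‖g1‖) := by
        calc k * ‖∑ v ∈ s, f1 v‖ ≤ k * ∑ v ∈ s, ‖f1 v‖ :=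
              mul_le_mul_of_nonneg_left (norm_sum_le _ _) hk.le
          _ = ∑ v ∈ s, k * ‖f1 v‖ := Finset.mul_sum _ _ _
          _ ≤ ∑ v ∈ s, K * ‖g1‖ := Finset.sum_le_sum hf1
          _ = s.card * (K * ‖g1‖) := by rw [Finset.sum_const, nsmul_eq_mul]
          _ ≤ 2 * d * (K * ‖g1‖) := mul_le_mul_of_nonneg_right hcard (by positivity)
      have b2 : ‖Complex.exp (-((1 - a : ℝ) * δ)) - 1‖ ≤ ‖δ‖ * E := by
        refine (Brg1b_exp_sub _).trans ?_
        exact mul_le_mul hx1 ((Real.exp_le_exp.2 hx1).trans hE) (Real.exp_pos _).le (norm_nonneg _)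
      have hE0 : 0 ≤ E := (Real.exp_pos _).le.trans hE
      have b3 : ‖w‖⁻¹ ≤ 2 * ‖g1‖⁻¹ := by
        rw [← div_eq_mul_inv, inv_eq_one_div, div_le_div_iff₀ hwp hg1p]
        linarith only [hwp, w2]
      calc k * h * ‖∑ v ∈ s, f1 v‖ * ‖Complex.exp (-((1 - a : ℝ) * δ)) - 1‖ * ‖w‖⁻¹
          = h * (k * ‖∑ v ∈ s, f1 v‖) * ‖Complex.exp (-((1 - a : ℝ) * δ)) - 1‖ * ‖w‖⁻¹ := by ring
        _ ≤ h * (2 * d * (K * ‖g1‖)) * (‖δ‖ * E) * (2 * ‖g1‖⁻¹) := by
            refine mul_le_mul (mul_le_mul (mul_le_mul_of_nonneg_left b1 hh.le) b2 (norm_nonneg _)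
              (by positivity)) b3 (by positivity) (by positivity)
        _ = h * (4 * d * K * E) * ‖δ‖ * (‖g1‖ * ‖g1‖⁻¹) := by ring
        _ = _ := by rw [mul_inv_cancel₀ hg1p.ne', mul_one]
    have N3 : ‖((k * h : ℝ) : ℂ) * ((2 * d : ℕ) : ℂ) *
        (Complex.exp (-A) * (Complex.exp (a * δ) - 1))‖ ≤ h * (4 * d * k) * ‖δ‖ := by
      rw [norm_mul, norm_mul, norm_mul, Complex.norm_real, Real.norm_of_nonneg (by positivity),
        Complex.norm_natCast]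
      have b1 : ‖Complex.exp (-A)‖ ≤ 10 / 9 :=
        Brg1b_exp_hi (A := -A) (a := 1 / 40) (by rw [norm_neg]; exact hA) (by norm_num)
      have b0 : ‖(a : ℂ) * δ‖ = a * ‖δ‖ := by
        rw [norm_mul, Complex.norm_real, Real.norm_of_nonneg ha0]
      have b2 : ‖Complex.exp (a * δ) - 1‖ ≤ ‖δ‖ * (10 / 9) := by
        refine (Brg1b_exp_sub _).trans ?_
        rw [b0]
        refine mul_le_mul ?_ ((Real.exp_le_exp.2 hB).trans hex) (Real.exp_pos _).le (norm_nonneg _)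
        calc a * ‖δ‖ ≤ 1 * ‖δ‖ := mul_le_mul_of_nonneg_right ha1 (norm_nonneg _)
          _ = ‖δ‖ := one_mul _
      calc k * h * ((2 * d : ℕ) : ℝ) * (‖Complex.exp (-A)‖ * ‖Complex.exp (a * δ) - 1‖)
          ≤ k * h * ((2 * d : ℕ) : ℝ) * (10 / 9 * (‖δ‖ * (10 / 9))) := by
            refine mul_le_mul_of_nonneg_left ?_ (by positivity)
            exact mul_le_mul b1 b2 (norm_nonneg _) (by norm_num)
        _ = h * (200 / 81 * d * k) * ‖δ‖ := by push_cast; ring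
        _ ≤ h * (4 * d * k) * ‖δ‖ := by
            refine mul_le_mul_of_nonneg_right ?_ (norm_nonneg _)
            refine mul_le_mul_of_nonneg_left ?_ hh.le
            have : 0 ≤ d * k := by positivity
            nlinarith only [this]
    rw [key]
    refine (norm_sub_le _ _).trans ?_
    refine (add_le_add (norm_add_le _ _) le_rfl).trans ?_
    calc _ ≤ 2 * (h * k * (∑ v ∈ s, ‖f1 v - f2 v‖) / ‖g2‖) + h * (4 * d * K * E) * ‖δ‖ +
          h * (4 * d * k) * ‖δ‖ := add_le_add (add_le_add N1 N2) N3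
      _ = _ := by ring
  refine main1.trans ?_
  have hq5 : ‖Complex.log q‖ ≤ 2 * (|t' - t| + ‖r' - r‖) := by
    have b1 : 0 ≤ |t' - t| + ‖r' - r‖ := by positivity
    linarith only [q1, q5, b1]
  calc (1 - a) * ‖δ‖ + ‖Complex.log q‖
      ≤ (1 - a) * ‖δ‖ + 2 * (h * β * (2 * K) ^ β * ‖δ‖ +
        (2 * (h * k * (∑ v ∈ s, ‖f1 v - f2 v‖) / ‖g2‖) +
          h * (4 * d * K * E + 4 * d * k) * ‖δ‖)) := by linarith only [T, R, hq5]
    _ = _ := by ring

private theorem Brg1b_small (c e η : ℝ) (he : 0 < e) (hη : 0 < η) :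
    ∃ k1 : ℝ, 0 < k1 ∧ ∀ k : ℝ, 0 < k → k < k1 → c * k ^ e ≤ η := by
  have h0 : 0 < η / (|c| + 1) := by positivity
  refine ⟨(η / (|c| + 1)) ^ (1 / e), Real.rpow_pos_of_pos h0 _, fun k hk hkk => ?_⟩
  have h1 : k ^ e ≤ η / (|c| + 1) := by
    have h2 := Real.rpow_le_rpow hk.le hkk.le he.le
    rwa [← Real.rpow_mul h0.le, one_div_mul_cancel he.ne', Real.rpow_one] at h2
  have h3 : 0 ≤ k ^ e := Real.rpow_nonneg hk.le _
  calc c * k ^ e ≤ (|c| + 1) * k ^ e :=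
        mul_le_mul_of_nonneg_right (by linarith [le_abs_self c]) h3
    _ ≤ (|c| + 1) * (η / (|c| + 1)) := mul_le_mul_of_nonneg_left h1 (by positivity)
    _ = η := by field_simp

private theorem Brg1b_k0 (d : ℕ) {β κ : ℝ} (hβ : 0 < β) (hκ : 0 < κ) (hκ1 : κ ≤ 1 / 8) :
    ∃ k0 : ℝ, 0 < k0 ∧ k0 < 1 ∧ ∀ k, 0 < k → k < k0 →
      2 * β * (2 * k ^ (κ / 2)) ^ β + 8 * d * k ^ (κ / 2) * (Real.exp 5 * k ^ (-(κ / 16))) +
        8 * d * k ≤ k ^ (min 1 β * κ / 8) ∧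
      k ^ (min 1 β * κ / 8) * ell k ^ 3 ≤ 1 := by
  set κ' := min 1 β * κ / 8 with hκ'
  have hmin : 0 < min 1 β := lt_min one_pos hβ
  have hκ'0 : 0 < κ' := by positivity
  have hκ'1 : κ' ≤ κ / 8 := by
    have := mul_le_mul_of_nonneg_right (min_le_left 1 β) hκ.le
    rw [hκ']
    linarith
  have hκ'2 : κ' ≤ β * κ / 8 := by
    have := mul_le_mul_of_nonneg_right (min_le_right 1 β) hκ.le
    rw [hκ']
    linarith
  obtain ⟨k1, hk1, H1⟩ := Brg1b_small (2 * β * 2 ^ β) (3 * (β * κ) / 8) (1 / 3) (by positivity)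
    (by norm_num)
  obtain ⟨k2, hk2, H2⟩ := Brg1b_small (8 * d * Real.exp 5) (5 * κ / 16) (1 / 3) (by positivity)
    (by norm_num)
  obtain ⟨k3, hk3, H3⟩ := Brg1b_small (8 * d) (1 / 2) (1 / 3) (by norm_num) (by norm_num)
  obtain ⟨k4, hk4, H4⟩ := Brg1b_small (1 / (κ' / 6) ^ 3) (κ' / 2) 1 (by positivity) one_pos
  refine ⟨min (min k1 k2) (min (min k3 k4) (1 / 2)), by positivity, ?_, fun k hk hkk => ?_⟩
  · exact (min_le_right _ _).trans_lt ((min_le_right _ _).trans_lt (by norm_num))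
  have a1 : k < k1 := hkk.trans_le ((min_le_left _ _).trans (min_le_left _ _))
  have a2 : k < k2 := hkk.trans_le ((min_le_left _ _).trans (min_le_right _ _))
  have a3 : k < k3 := hkk.trans_le
    ((min_le_right _ _).trans ((min_le_left _ _).trans (min_le_left _ _)))
  have a4 : k < k4 := hkk.trans_le
    ((min_le_right _ _).trans ((min_le_left _ _).trans (min_le_right _ _)))
  have a5 : k < 1 := (hkk.trans_le ((min_le_right _ _).trans (min_le_right _ _))).trans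
    (by norm_num)
  have b1 := H1 k hk a1
  have b2 := H2 k hk a2
  have b3 := H3 k hk a3
  have b4 := H4 k hk a4
  have hp : 0 < k ^ κ' := Real.rpow_pos_of_pos hk _
  have hmono : ∀ e : ℝ, κ' ≤ e → k ^ e ≤ k ^ κ' := fun e he =>
    Real.rpow_le_rpow_of_exponent_ge hk a5.le he
  constructor
  · have t1 : 2 * β * (2 * k ^ (κ / 2)) ^ β ≤ 1 / 3 * k ^ κ' := by
      have c1 : 2 * β * (2 * k ^ (κ / 2)) ^ β =
          2 * β * 2 ^ β * k ^ (3 * (β * κ) / 8) * k ^ (β * κ / 8) := by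
        rw [Real.mul_rpow (by norm_num) (Real.rpow_nonneg hk.le _), ← Real.rpow_mul hk.le,
          mul_assoc (2 * β * 2 ^ β), ← Real.rpow_add hk]
        rw [show κ / 2 * β = 3 * (β * κ) / 8 + β * κ / 8 by ring]
        ring
      rw [c1]
      exact mul_le_mul b1 (hmono _ hκ'2) (Real.rpow_nonneg hk.le _) (by norm_num)
    have t2 : 8 * d * k ^ (κ / 2) * (Real.exp 5 * k ^ (-(κ / 16))) ≤ 1 / 3 * k ^ κ' := by
      have c1 : 8 * d * k ^ (κ / 2) * (Real.exp 5 * k ^ (-(κ / 16))) =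
          8 * d * Real.exp 5 * k ^ (5 * κ / 16) * k ^ (κ / 8) := by
        have c2 : k ^ (κ / 2) * k ^ (-(κ / 16)) = k ^ (5 * κ / 16) * k ^ (κ / 8) := by
          rw [← Real.rpow_add hk, ← Real.rpow_add hk]
          congr 1
          ring
        calc _ = 8 * d * Real.exp 5 * (k ^ (κ / 2) * k ^ (-(κ / 16))) := by ring
          _ = _ := by rw [c2]; ring
      rw [c1]
      exact mul_le_mul b2 (hmono _ hκ'1) (Real.rpow_nonneg hk.le _) (by norm_num)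
    have t3 : 8 * d * k ≤ 1 / 3 * k ^ κ' := by
      have c1 : 8 * (d : ℝ) * k = 8 * d * k ^ (1 / 2 : ℝ) * k ^ (1 / 2 : ℝ) := by
        rw [mul_assoc (8 * (d : ℝ)), ← Real.rpow_add hk]
        norm_num
      rw [c1]
      exact mul_le_mul b3 (hmono _ (by linarith only [hκ1, hκ'0, hκ'1])) (Real.rpow_nonneg hk.le _) (by norm_num)
    linarith only [t1, t2, t3]
  · have hell : 0 ≤ ell k := by
      unfold ell
      exact Real.log_nonneg (by rw [le_div_iff₀ hk]; linarith)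
    have c1 : ell k ≤ k ^ (-(κ' / 6)) / (κ' / 6) := by
      have c2 := Real.log_le_rpow_div (x := 1 / k) (ε := κ' / 6) (by positivity) (by positivity)
      rwa [one_div, Real.inv_rpow hk.le, ← Real.rpow_neg hk.le, ← one_div] at c2
    have c2 : ell k ^ 3 ≤ k ^ (-(κ' / 2)) / (κ' / 6) ^ 3 := by
      refine (pow_le_pow_left₀ hell c1 3).trans (le_of_eq ?_)
      rw [div_pow, ← Real.rpow_natCast (k ^ (-(κ' / 6))), ← Real.rpow_mul hk.le]
      congr 2
      push_cast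
      ring
    calc k ^ κ' * ell k ^ 3 ≤ k ^ κ' * (k ^ (-(κ' / 2)) / (κ' / 6) ^ 3) :=
          mul_le_mul_of_nonneg_left c2 hp.le
      _ = 1 / (κ' / 6) ^ 3 * (k ^ κ' * k ^ (-(κ' / 2))) := by ring
      _ = 1 / (κ' / 6) ^ 3 * k ^ (κ' / 2) := by
          rw [← Real.rpow_add hk]
          congr 2
          ring
      _ ≤ 1 := b4

private theorem Brg1b_h0 (d : ℕ) (β κ : ℝ) (Y : ℝ) : ∃ h0 : ℝ, 0 < h0 ∧ ∀ h, 0 < h → h < h0 →
    h ≤ 1 ∧ h ^ (3 / 8 : ℝ) ≤ 1 / 40 ∧ h * (κ / 16 * Y + 5) ≤ 1 / 120 ∧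
      h * (Y ^ 3 + 1) ≤ (1 / 240) ^ 2 ∧ h * 2 ^ β ≤ 1 / 40 ∧ h * (8 * d) ≤ 1 / 40 := by
  obtain ⟨k1, hk1, H1⟩ := Brg1b_small 1 (3 / 8) (1 / 40) (by norm_num) (by norm_num)
  obtain ⟨k2, hk2, H2⟩ := Brg1b_small (κ / 16 * Y + 5) 1 (1 / 120) one_pos (by norm_num)
  obtain ⟨k3, hk3, H3⟩ := Brg1b_small (Y ^ 3 + 1) 1 ((1 / 240) ^ 2) one_pos (by norm_num)
  obtain ⟨k4, hk4, H4⟩ := Brg1b_small (2 ^ β) 1 (1 / 40) one_pos (by norm_num)
  obtain ⟨k5, hk5, H5⟩ := Brg1b_small (8 * d) 1 (1 / 40) one_pos (by norm_num)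
  refine ⟨min (min (min k1 k2) (min k3 k4)) (min k5 1), by positivity, fun h hh hhh => ?_⟩
  have a1 : h < k1 := hhh.trans_le
    ((min_le_left _ _).trans ((min_le_left _ _).trans (min_le_left _ _)))
  have a2 : h < k2 := hhh.trans_le
    ((min_le_left _ _).trans ((min_le_left _ _).trans (min_le_right _ _)))
  have a3 : h < k3 := hhh.trans_le
    ((min_le_left _ _).trans ((min_le_right _ _).trans (min_le_left _ _)))
  have a4 : h < k4 := hhh.trans_le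
    ((min_le_left _ _).trans ((min_le_right _ _).trans (min_le_right _ _)))
  have a5 : h < k5 := hhh.trans_le ((min_le_right _ _).trans (min_le_left _ _))
  have a6 : h < 1 := hhh.trans_le ((min_le_right _ _).trans (min_le_right _ _))
  have b1 := H1 h hh a1
  have b2 := H2 h hh a2
  have b3 := H3 h hh a3
  have b4 := H4 h hh a4
  have b5 := H5 h hh a5
  rw [Real.rpow_one] at b2 b3 b4 b5
  rw [one_mul] at b1
  exact ⟨a6.le, b1, by linarith, by linarith, by linarith, by linarith⟩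

theorem brg_step2 (d : ℕ) (β : ℝ) (hβ : 0 < β) (κ M6 M8 : ℝ) (hκ : 0 < κ) :
    ∃ k0 : ℝ, 0 < k0 ∧ k0 < 1 ∧ ∀ k, 0 < k → k < k0 → ∃ h0 : ℝ, 0 < h0 ∧ ∀ h, 0 < h → h < h0 →
    ∀ (L : ℕ) (P : BPar d L), P.κ = κ → P.M6 = M6 → P.M8 = M8 → P.OK β k h →
    ∀ j, j < P.ns → ∀ (G : (boxS d L → ℂ) × (boxS d L → ℂ)), P.RegSt k j G →
    ∀ ξ : boxS d L → ℂ, ∀ z, P.Bs z → Real.sqrt h * ‖ξ z‖ ≤ h ^ (3 / 8 : ℝ) →
      ‖Complex.log ((P.bst β k h j G ξ).2 z / (P.bst β k h j G ξ).1 z)‖ ≤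
        (1 - 1 / ((P.ns : ℝ) + 1 - j) + h * k ^ (min 1 β * κ / 8)) *
            ‖Complex.log (G.2 z / G.1 z)‖ +
          4 * h * k * (∑ v ∈ (boxNet d L).nb z, ‖G.1 v - G.2 v‖) / ‖G.2 z‖ := by
  by_cases hκ1 : κ ≤ 1 / 8
  swap
  · refine ⟨1 / 2, by norm_num, by norm_num, fun k _ _ => ⟨1, one_pos, ?_⟩⟩
    intro h _ _ L P e1 _ _ hOK
    exact absurd (e1 ▸ hOK.hκ1) hκ1
  obtain ⟨k0, hk0, hk01, HK⟩ := Brg1b_k0 d hβ hκ hκ1
  refine ⟨k0, hk0, hk01, fun k hk hkk => ?_⟩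
  obtain ⟨K1, K2⟩ := HK k hk hkk
  obtain ⟨h0, hh0, HH⟩ := Brg1b_h0 d β κ (ell k)
  refine ⟨h0, hh0, fun h hh hhh => ?_⟩
  obtain ⟨q1, q2, q3, q4, q5, q6⟩ := HH h hh hhh
  intro L P e1 e2 e3 hOK j hj G hreg ξ z hz hξ
  have hk1 : k ≤ 1 := (hkk.trans hk01).le
  obtain ⟨n1, n2, n3, n4, n5, n6, n7, n8⟩ := hreg.1 z hz
  rw [e1] at n5 n7 n8
  have hell : 0 ≤ ell k := by
    unfold ell
    exact Real.log_nonneg (by rw [le_div_iff₀ hk]; linarith)
  have hm := hOK.hm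
  have hm0 := hOK.hm0
  have hς := hOK.hς
  have hns := hOK.hns
  have hns1 := hOK.hns1
  have hA := hOK.hA
  rw [e1] at hm hς
  have hς0 : 0 ≤ P.ς := by
    rw [hς]
    exact mul_nonneg hh.le (le_min (Real.rpow_nonneg hk.le _)
      (mul_nonneg (Real.rpow_nonneg hk.le _) hA))
  have hς1 : P.ς ≤ h * k ^ (min 1 β * κ / 8) := by
    rw [hς]
    exact mul_le_mul_of_nonneg_left (min_le_left _ _) hh.le
  have hkκ1 : k ^ (min 1 β * κ / 8) ≤ 1 := by
    have hmin : 0 < min 1 β := lt_min one_pos hβ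
    exact Real.rpow_le_one hk.le hk1 (by positivity)
  have hς2 : P.ς ≤ h := hς1.trans (by nlinarith only [hh, hkκ1])
  have hjr : (j : ℝ) + 1 ≤ P.ns := by exact_mod_cast hj
  have hj0 : (0 : ℝ) ≤ j := Nat.cast_nonneg j
  have hnsp : (0 : ℝ) < P.ns + 1 := by positivity
  have hden : 0 < (P.ns : ℝ) + 1 - j := by linarith
  obtain ⟨l1, l2⟩ := lamS_le P.ns j hj.le
  -- `|δ|` at the time `j`
  have hbd : P.bd j ≤ κ / 16 * ell k + 5 := by
    have l3 : lamS P.ns j * ((P.ns : ℝ) + 1 - j) ≤ P.ns := by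
      unfold lamS
      rw [Finset.sum_mul]
      calc ∑ i ∈ Finset.range j, 1 / ((P.ns : ℝ) - i) * ((P.ns : ℝ) + 1 - j)
          ≤ ∑ i ∈ Finset.range j, (1 : ℝ) := by
            refine Finset.sum_le_sum fun i hi => ?_
            have hi' : (i : ℝ) + 1 ≤ j := by exact_mod_cast Finset.mem_range.1 hi
            rw [one_div_mul_eq_div, div_le_one (by linarith)]
            linarith
        _ = j := by simp
        _ ≤ P.ns := by linarith
    have l4 : P.m0 / (P.ns + 1) * ((P.ns : ℝ) + 1 - j) ≤ P.m0 := by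
      rw [div_mul_eq_mul_div, div_le_iff₀ hnsp]
      exact mul_le_mul_of_nonneg_left (by linarith) hm0
    have l5 : P.ς * P.ns ≤ 1 := by
      calc P.ς * P.ns ≤ h * k ^ (min 1 β * κ / 8) * P.ns :=
            mul_le_mul_of_nonneg_right hς1 (Nat.cast_nonneg _)
        _ = k ^ (min 1 β * κ / 8) * (P.ns * h) := by ring
        _ ≤ k ^ (min 1 β * κ / 8) * ell k ^ 3 :=
            mul_le_mul_of_nonneg_left hns1 (Real.rpow_nonneg hk.le _)
        _ ≤ 1 := K2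
    calc P.bd j = P.m0 / (P.ns + 1) * ((P.ns : ℝ) + 1 - j) +
          P.ς * (lamS P.ns j * ((P.ns : ℝ) + 1 - j)) := by
          unfold BPar.bd
          ring
      _ ≤ P.m0 + P.ς * P.ns := add_le_add l4 (mul_le_mul_of_nonneg_left l3 hς0)
      _ ≤ κ / 16 * ell k + 5 := by linarith only [hm, l5]
  -- `|√h c|`
  have hsm : P.m0 / (P.ns + 1) + P.ς * lamS P.ns j ≤ 1 / 40 := by
    have l3 : P.m0 / (P.ns + 1) ≤ h * (κ / 16 * ell k + 4) := by
      rw [div_le_iff₀ hnsp]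
      have c1 : 1 ≤ h * ((P.ns : ℝ) + 1) := by nlinarith only [hh, hns]
      calc P.m0 ≤ P.m0 * (h * ((P.ns : ℝ) + 1)) := le_mul_of_one_le_right hm0 c1
        _ ≤ (κ / 16 * ell k + 4) * (h * ((P.ns : ℝ) + 1)) :=
            mul_le_mul_of_nonneg_right hm (by positivity)
        _ = _ := by ring
    have l4 : h * Real.sqrt (P.ns + 1) ≤ 1 / 240 := by
      refine abs_le_of_sq_le_sq' ?_ (by norm_num) |>.2
      rw [mul_pow, Real.sq_sqrt hnsp.le]
      calc h ^ 2 * ((P.ns : ℝ) + 1) = h * (P.ns * h + h) := by ring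
        _ ≤ h * (ell k ^ 3 + 1) := mul_le_mul_of_nonneg_left (by linarith only [q1, hns1]) hh.le
        _ ≤ (1 / 240) ^ 2 := q4
    have l5 : Real.log (P.ns + 1) ≤ 2 * Real.sqrt (P.ns + 1) := by
      have c1 := Real.log_le_sub_one_of_pos (Real.sqrt_pos.2 hnsp)
      rw [Real.log_sqrt hnsp.le] at c1
      linarith only [hκ, hκ1, c1]
    have l6 : P.ς * lamS P.ns j ≤ h + 2 * (h * Real.sqrt (P.ns + 1)) := by
      calc P.ς * lamS P.ns j ≤ h * (1 + 2 * Real.sqrt (P.ns + 1)) :=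
            mul_le_mul hς2 (by linarith only [l2, l5]) l1 hh.le
        _ = _ := by ring
    linarith only [hκ, hκ1, q3, l3, l4, l6]
  set δ := Complex.log (G.2 z / G.1 z) with hδ
  set a : ℝ := 1 / ((P.ns : ℝ) + 1 - j) with ha
  have ha0 : 0 ≤ a := by positivity
  have ha1 : a ≤ 1 := by
    rw [ha, div_le_one hden]
    linarith
  have haδ : a * ‖δ‖ ≤ 1 / 40 := by
    refine le_trans ?_ hsm
    rw [ha, one_div_mul_eq_div, div_le_iff₀ hden]
    exact n3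
  have hE : Real.exp ‖δ‖ ≤ Real.exp 5 * k ^ (-(κ / 16)) := by
    have c1 : k ^ (-(κ / 16)) = Real.exp (κ / 16 * ell k) := by
      unfold ell
      rw [Real.rpow_def_of_pos hk, one_div, Real.log_inv]
      congr 1
      ring
    rw [c1, ← Real.exp_add]
    exact Real.exp_le_exp.2 (by linarith only [hbd, n3])
  have hctl : P.ctl k h j G z = -δ / ((Real.sqrt h * (P.ns + 1 - j) : ℝ) : ℂ) := by
    unfold BPar.ctl
    rw [if_pos ⟨hz, hj, hreg⟩]
  have hsq : 0 < Real.sqrt h := Real.sqrt_pos.2 hh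
  have hA2 : ‖((Real.sqrt h : ℝ) : ℂ) * ξ z‖ ≤ 1 / 40 := by
    rw [norm_mul, Complex.norm_real, Real.norm_of_nonneg hsq.le]
    exact hξ.trans q2
  have harg : ((Real.sqrt h : ℝ) : ℂ) * (ξ z + P.ctl k h j G z) =
      ((Real.sqrt h : ℝ) : ℂ) * ξ z - (a : ℂ) * δ := by
    have c1 : ((Real.sqrt h : ℝ) : ℂ) ≠ 0 := by
      exact_mod_cast hsq.ne'
    have c2 : (((P.ns : ℝ) + 1 - j : ℝ) : ℂ) ≠ 0 := by
      exact_mod_cast hden.ne'
    rw [hctl, ha]
    push_cast at c2 ⊢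
    field_simp
    ring
  have e4 : (P.bst β k h j G ξ).1 z = JV β h (Complex.exp (((Real.sqrt h : ℝ) : ℂ) * ξ z) * G.1 z) +
      (k * h) • (∑ v ∈ (boxNet d L).nb z, G.1 v - ((2 * d : ℕ) : ℝ) • G.1 z) := rfl
  have e5 : (P.bst β k h j G ξ).2 z =
      JV β h (Complex.exp (((Real.sqrt h : ℝ) : ℂ) * ξ z - (a : ℂ) * δ) * G.2 z) +
      (k * h) • (∑ v ∈ (boxNet d L).nb z, G.2 v - ((2 * d : ℕ) : ℝ) • G.2 z) := by
    rw [← harg]
    rfl
  rw [e4, e5]
  refine (Brg1b_core hβ hh hk hk1 ((boxNet d L).nb z) d ((boxNet d L).nb_card z) G.1 G.2 (G.1 z)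
    (G.2 z) (((Real.sqrt h : ℝ) : ℂ) * ξ z) a (k ^ (κ / 2)) (Real.exp 5 * k ^ (-(κ / 16))) n1 n2 ha0
    ha1 hA2 haδ (Real.rpow_nonneg hk.le _) (Real.rpow_le_one hk.le hk1 (by positivity)) n5 n7
    (fun v hv => (n8 v hv).1) (fun v hv => (n8 v hv).2) hE q5 q6).trans ?_
  refine add_le_add (mul_le_mul_of_nonneg_right ?_ (norm_nonneg _)) le_rfl
  have := mul_le_mul_of_nonneg_left K1 hh.le
  linarith only [this]

end DynC

end

/-! ### from `Lib_MP_36b788c.Brg2b` -/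

section

/-!
# The bridge: profile of the difference (deterministic)

PROOF of `brg_dif`. `M8' = M8 - 1`, `Z j` the trajectory, `D j v = ‖(Z j).1 v - (Z j).2 v‖`, `W j v = lpp (1/8) 0 (gz k h ω) j v`. CLAIM, by induction on `j ≤ n` (all `v`): `D j v ≤ A0 (1 + 4d k^{5/16} h)^j exp(ell(M8' + 1/4 + W j v - (9/16) dist y v))`. This is `grow_path2` with `q' = 1/8`, `ρ = 9/16`, `ε = 5/16`, `A = A0 exp(ell(M8'+1/4))`, `H v = -(9/16) dist y v`, used inside a strong induction: for `v` outside the ball the control vanishes and `D (j+1) v ≤ e^{b} D j v + k h cpl (D j) v` (`st2_d1` in `St2.lean`).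
For `z` in the ball and `1 ≤ j ≤ n`: `D j z ≤ A0 exp(ell(M8' + 1/4 - (9/16) dist y z))`. `δ_i = log((Z i).2 z/(Z i).1 z)`. `brg_step`, `brg_step2` (all states before `n` are regular): `‖δ_j‖ ≤ bd j`, `‖δ_j‖ ≤ Π(1 + h k^{κ'}) (‖δ_0‖ + Σ_{i<j} 4 h k Σ_{v ∈ nb z} D i v/‖(Z i).2 z‖)`, the product is `≤ exp(ell³ k^{κ'}) ≤ 2`.
`D j z = ‖(Z j).2 z‖ |1 - e^{-δ_j}| ≤ ‖(Z j).2 z‖ ‖δ_j‖ e^{‖δ_j‖}`, `e^{‖δ_j‖} ≤ e^{bd j} ≤ e^5 k^{-κ/16}` (`bd j ≤ m0 + ς ns ≤ (κ/16) ell + 5`). `‖(Z 0).2 z‖ ‖δ_0‖ ≤ C(1 + ell) D 0 z` (`|e^{-δ} - 1| ≥ |δ|/(C(1+|δ|))` for `|Im δ| ≤ π`). Ratios `‖(Z j).2 z‖ ≤ k^{-κ/4}‖(Z i).2 z‖`. So `D j z ≤ k^{-κ/2}(D 0 z + k Σ_{i<j} h Σ_{v ∈ nb z} D i v)`.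
`D 0 z ≤ A0 exp(ell(M8' - (5/8) dist)) ≤ k^{1/4} A0 exp(ell(M8' + 1/4 - (9/16) dist y z))`, `κ/2 < 1/4`. Neighbours: claim at `i < j`, `W i v ≤ κ/8` (hypothesis): `D i v ≤ 2 A0 exp(ell(M8' + 1/4 + κ/8 - (9/16)(dist y z - 1)))`, total factor `4 d ell³ k^{1 - κ/2 - κ/8 - 9/16} ≤ 1/2`.
Conclusion from the claim at `n` and `W n v ≤ 1/4 + dist y v/16`: exponent `M8' + 1/2 + o(1) - dist/2 ≤ M8 - dist/2`.
-/

open MeasureTheory ProbabilityTheory
open scoped ENNReal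

namespace DynC

open Dyn

private theorem Brg2b_ell0 {k : ℝ} (hk : 0 < k) (hk1 : k < 1) : 0 < ell k := by
  unfold ell
  apply Real.log_pos
  rw [lt_div_iff₀ hk]
  linarith

private theorem Brg2b_kexp {k : ℝ} (hk : 0 < k) (a : ℝ) : Real.exp (ell k * a) = k ^ (-a) := by
  rw [Real.rpow_def_of_pos hk]
  congr 1
  unfold ell
  rw [one_div, Real.log_inv]
  ring

private theorem Brg2b_ell (a : ℝ) (ha : 0 < a) (c : ℝ) (hc : 0 < c) :
    ∃ k0 : ℝ, 0 < k0 ∧ k0 < 1 ∧ ∀ k, 0 < k → k < k0 → ell k ^ 3 * k ^ a ≤ c := by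
  obtain ⟨k0, h0, h1, h2⟩ : ∃ k0 : ℝ, 0 < k0 ∧ k0 < 1 ∧ ∀ k, 0 < k → k < k0 →
      k ^ (a / 2) ≤ c / (6 / a) ^ 3 := by
    refine ⟨min (1 / 2) ((c / (6 / a) ^ 3) ^ (1 / (a / 2))), by positivity,
      (min_le_left _ _).trans_lt (by norm_num), fun k hk hk0 => ?_⟩
    have hc' : 0 < c / (6 / a) ^ 3 := by positivity
    have ha' : 0 < a / 2 := by positivity
    have h1 : k ≤ (c / (6 / a) ^ 3) ^ (1 / (a / 2)) := hk0.le.trans (min_le_right _ _)
    have h2 := Real.rpow_le_rpow hk.le h1 ha'.le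
    rw [← Real.rpow_mul hc'.le, one_div, inv_mul_cancel₀ ha'.ne', Real.rpow_one] at h2
    exact h2
  refine ⟨k0, h0, h1, fun k hk hkk => ?_⟩
  have h3 := h2 k hk hkk
  have hk1 : k < 1 := hkk.trans h1
  have h4 : ell k ≤ (6 / a) * k ^ (-(a / 6)) := by
    have h5 := Real.log_le_rpow_div (x := 1 / k) (by positivity) (ε := a / 6) (by positivity)
    unfold ell
    refine h5.trans (le_of_eq ?_)
    rw [one_div, Real.inv_rpow hk.le, Real.rpow_neg hk.le]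
    field_simp
  have h5 : ell k ^ 3 ≤ (6 / a) ^ 3 * k ^ (-(a / 2)) := by
    have h6 := pow_le_pow_left₀ (Brg2b_ell0 hk hk1).le h4 3
    refine h6.trans (le_of_eq ?_)
    rw [mul_pow, ← Real.rpow_natCast (k ^ (-(a / 6))), ← Real.rpow_mul hk.le]
    congr 2
    push_cast
    ring
  calc ell k ^ 3 * k ^ a ≤ (6 / a) ^ 3 * k ^ (-(a / 2)) * k ^ a := by gcongr
    _ = (6 / a) ^ 3 * k ^ (a / 2) := by
        rw [mul_assoc, ← Real.rpow_add hk]
        congr 2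
        ring
    _ ≤ (6 / a) ^ 3 * (c / (6 / a) ^ 3) := by gcongr
    _ = c := by field_simp

private theorem Brg2b_exp1 (x : ℂ) : ‖Complex.exp x - 1‖ ≤ ‖x‖ * Real.exp ‖x‖ := by
  have h1 := Complex.norm_exp_sub_sum_le_norm_mul_exp x 1
  simpa using h1

private theorem Brg2b_log (w : ℂ) :
    ‖Complex.log w‖ ≤ 2 * (1 + ‖Complex.log w‖) * ‖w - 1‖ := by
  have hl := norm_nonneg (Complex.log w)
  have hx := norm_nonneg (w - 1)
  rcases le_or_gt ‖w - 1‖ (1 / 2) with h | h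
  · have h1 := Complex.norm_log_one_add_half_le_self h
    rw [add_sub_cancel] at h1
    nlinarith
  · nlinarith

private theorem Brg2b_dif (a b : ℂ) (ha : a ≠ 0) (hb : b ≠ 0) :
    ‖a - b‖ ≤ ‖b‖ * (‖Complex.log (b / a)‖ * Real.exp ‖Complex.log (b / a)‖) := by
  have h1 : Complex.exp (-Complex.log (b / a)) = a / b := by
    rw [Complex.exp_neg, Complex.exp_log (div_ne_zero hb ha), inv_div]
  have h2 := Brg2b_exp1 (-Complex.log (b / a))
  rw [norm_neg, h1] at h2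
  have h3 : a - b = b * (a / b - 1) := by
    field_simp
  rw [h3, norm_mul]
  exact mul_le_mul_of_nonneg_left h2 (norm_nonneg _)

private theorem Brg2b_low (a b : ℂ) (hb : b ≠ 0) :
    ‖b‖ * ‖Complex.log (b / a)‖ ≤ 2 * (1 + ‖Complex.log (b / a)‖) * ‖a - b‖ := by
  have h0 : ‖Complex.log (a / b)‖ = ‖Complex.log (b / a)‖ := by
    rw [← inv_div, Complex.log_inv_eq_ite]
    split_ifs
    · rw [norm_neg, RCLike.norm_conj]
    · rw [norm_neg]
  have h1 := Brg2b_log (a / b)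
  rw [h0] at h1
  have h3 : a - b = b * (a / b - 1) := by
    field_simp
  rw [h3, norm_mul]
  have h4 := norm_nonneg b
  nlinarith [mul_le_mul_of_nonneg_left h1 h4]

private theorem Brg2b_bd {d L : ℕ} (P : BPar d L) (hm : 0 ≤ P.m0) (hς : 0 ≤ P.ς) (j : ℕ)
    (hj : j ≤ P.ns) : P.bd j ≤ P.m0 + P.ς * P.ns := by
  unfold BPar.bd
  have hjn : (j : ℝ) ≤ P.ns := by exact_mod_cast hj
  have hn1 : (0 : ℝ) < P.ns + 1 := by positivity
  have h1 : P.m0 / (P.ns + 1) * (P.ns + 1 - j) ≤ P.m0 := by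
    rw [div_mul_eq_mul_div, div_le_iff₀ hn1]
    have : (0 : ℝ) ≤ j := Nat.cast_nonneg j
    nlinarith
  have h2 : lamS P.ns j * (P.ns + 1 - j) ≤ P.ns := by
    unfold lamS
    rw [Finset.sum_mul]
    calc ∑ i ∈ Finset.range j, 1 / ((P.ns : ℝ) - i) * (P.ns + 1 - j)
        ≤ ∑ i ∈ Finset.range j, (1 : ℝ) := by
          refine Finset.sum_le_sum fun i hi => ?_
          have hi' : (i : ℝ) + 1 ≤ j := by exact_mod_cast Finset.mem_range.1 hi
          have h3 : 0 < (P.ns : ℝ) - i := by linarith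
          rw [one_div_mul_eq_div, div_le_one h3]
          linarith
      _ = j := by simp
      _ ≤ P.ns := hjn
  calc (P.m0 / (P.ns + 1) + P.ς * lamS P.ns j) * (P.ns + 1 - j)
      = P.m0 / (P.ns + 1) * (P.ns + 1 - j) + P.ς * (lamS P.ns j * (P.ns + 1 - j)) := by ring
    _ ≤ P.m0 + P.ς * P.ns := add_le_add h1 (mul_le_mul_of_nonneg_left h2 hς)

private theorem Brg2b_gron (a : ℝ) (ha : 0 ≤ a) (x s : ℕ → ℝ) (n : ℕ)
    (hs : ∀ i, i < n → 0 ≤ s i)
    (hx : ∀ i, i < n → x (i + 1) ≤ (1 + a) * x i + s i) :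
    x n ≤ (1 + a) ^ n * (x 0 + ∑ i ∈ Finset.range n, s i) := by
  induction n with
  | zero => simp
  | succ n ih =>
    have h1 := ih (fun i hi => hs i (by omega)) (fun i hi => hx i (by omega))
    have h2 := hx n (by omega)
    have h3 := hs n (by omega)
    have h4 : 1 ≤ (1 + a) ^ (n + 1) := one_le_pow₀ (by linarith)
    rw [Finset.sum_range_succ]
    calc x (n + 1) ≤ (1 + a) * x n + s n := h2
      _ ≤ (1 + a) * ((1 + a) ^ n * (x 0 + ∑ i ∈ Finset.range n, s i)) +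
          (1 + a) ^ (n + 1) * s n := by
        apply add_le_add (mul_le_mul_of_nonneg_left h1 (by linarith))
        nlinarith
      _ = (1 + a) ^ (n + 1) * (x 0 + (∑ i ∈ Finset.range n, s i + s n)) := by ring

private theorem Brg2b_in (d : ℕ) (κ k h l T a D0 : ℝ) (N2 δ S : ℕ → ℝ) (m : ℕ)
    (hκ : 0 < κ) (hκ1 : κ ≤ 1 / 8) (hk : 0 < k) (hh : 0 < h) (hl : 1 ≤ l) (hT : 0 ≤ T)
    (ha : 0 ≤ a) (hδn : ∀ i, 0 ≤ δ i) (hSn : ∀ i, 0 ≤ S i) (hD0 : 0 ≤ D0)
    (hE : Real.exp (κ / 16 * l) = k ^ (-(κ / 16)))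
    (h0 : N2 0 * δ 0 ≤ 2 * (1 + δ 0) * D0) (h0' : δ 0 ≤ κ / 16 * l + 5)
    (hm : δ m ≤ κ / 16 * l + 5)
    (hstep : ∀ i, i < m → δ (i + 1) ≤ (1 + a) * δ i + 4 * h * k * S i / N2 i)
    (hpos : ∀ i, i < m → 0 < N2 i) (hNm : 0 ≤ N2 m)
    (hN : ∀ i, i ≤ m → N2 m ≤ k ^ (-(κ / 4)) * N2 i)
    (ha2 : (1 + a) ^ m ≤ 2) (hD : D0 ≤ k ^ (1 / 4 : ℝ) * T)
    (hS : ∀ i, i < m → S i ≤ 2 * d * (2 * T * k ^ (-(κ / 8 + 9 / 16))))
    (hmh : m * h ≤ l ^ 3)
    (c3 : l ^ 3 * k ^ (1 / 4 - 5 * κ / 16) ≤ 1 / (56 * Real.exp 5))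
    (c4 : l ^ 3 * k ^ (7 / 16 - 7 * κ / 16) ≤ 1 / (64 * Real.exp 5 * (d + 1))) :
    N2 m * (δ m * Real.exp (δ m)) ≤ T := by
  have hl3 : l ≤ l ^ 3 := by nlinarith only [hl, hκ, hκ1, mul_nonneg (by linarith : (0:ℝ) ≤ l - 1) (by linarith : (0:ℝ) ≤ l), sq_nonneg (l - 1), mul_nonneg (mul_nonneg (by linarith : (0:ℝ) ≤ l - 1) (by linarith : (0:ℝ) ≤ l)) (by linarith : (0:ℝ) ≤ l)]
  have hl31 : 1 ≤ l ^ 3 := one_le_pow₀ hl
  have hkq : 0 ≤ k ^ (-(κ / 4)) := Real.rpow_nonneg hk.le _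
  have hk16 : 0 ≤ k ^ (-(κ / 16)) := Real.rpow_nonneg hk.le _
  -- exponential of `δ m`
  have hexp : Real.exp (δ m) ≤ Real.exp 5 * k ^ (-(κ / 16)) := by
    rw [← hE, ← Real.exp_add]
    exact Real.exp_le_exp.2 (by linarith)
  have hgr := Brg2b_gron a ha δ (fun i => 4 * h * k * S i / N2 i) m
    (fun i hi => div_nonneg (mul_nonneg (by positivity) (hSn i)) (hpos i hi).le) hstep
  have hsn : 0 ≤ δ 0 + ∑ i ∈ Finset.range m, 4 * h * k * S i / N2 i :=
    add_nonneg (hδn 0) (Finset.sum_nonneg fun i hi =>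
      div_nonneg (mul_nonneg (by positivity) (hSn i)) (hpos i (Finset.mem_range.1 hi)).le)
  have hδm : δ m ≤ 2 * (δ 0 + ∑ i ∈ Finset.range m, 4 * h * k * S i / N2 i) :=
    hgr.trans (mul_le_mul_of_nonneg_right ha2 hsn)
  -- first term
  have t0 : N2 m * δ 0 ≤ k ^ (-(κ / 4)) * (2 * (6 + κ / 16 * l) * (k ^ (1 / 4 : ℝ) * T)) := by
    calc N2 m * δ 0 ≤ k ^ (-(κ / 4)) * N2 0 * δ 0 :=
          mul_le_mul_of_nonneg_right (hN 0 (Nat.zero_le _)) (hδn 0)
      _ = k ^ (-(κ / 4)) * (N2 0 * δ 0) := by ring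
      _ ≤ k ^ (-(κ / 4)) * (2 * (6 + κ / 16 * l) * (k ^ (1 / 4 : ℝ) * T)) := by
          refine mul_le_mul_of_nonneg_left (h0.trans ?_) hkq
          have h1 : 0 ≤ k ^ (1 / 4 : ℝ) * T := hD0.trans hD
          have h2 : 2 * (1 + δ 0) ≤ 2 * (6 + κ / 16 * l) := by linarith
          exact mul_le_mul h2 hD hD0 (by positivity)
  have t1 : ∀ i ∈ Finset.range m, N2 m * (4 * h * k * S i / N2 i) ≤
      k ^ (-(κ / 4)) * (4 * h * k * (2 * d * (2 * T * k ^ (-(κ / 8 + 9 / 16))))) := by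
    intro i hi
    have hi' := Finset.mem_range.1 hi
    have hp := hpos i hi'
    calc N2 m * (4 * h * k * S i / N2 i)
        ≤ k ^ (-(κ / 4)) * N2 i * (4 * h * k * S i / N2 i) := by
          refine mul_le_mul_of_nonneg_right (hN i hi'.le) ?_
          exact div_nonneg (mul_nonneg (by positivity) (hSn i)) hp.le
      _ = k ^ (-(κ / 4)) * (4 * h * k * S i) := by
          field_simp
      _ ≤ k ^ (-(κ / 4)) * (4 * h * k * (2 * d * (2 * T * k ^ (-(κ / 8 + 9 / 16))))) := by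
          have := hS i hi'
          gcongr
  have t2 : N2 m * ∑ i ∈ Finset.range m, 4 * h * k * S i / N2 i ≤
      16 * d * (m * h) * T * k ^ (7 / 16 - 3 * κ / 8) := by
    rw [Finset.mul_sum]
    refine (Finset.sum_le_sum t1).trans (le_of_eq ?_)
    rw [Finset.sum_const, Finset.card_range, nsmul_eq_mul]
    have e1 : k ^ (7 / 16 - 3 * κ / 8) = k ^ (-(κ / 4)) * (k * k ^ (-(κ / 8 + 9 / 16))) := by
      nth_rewrite 3 [← Real.rpow_one k]
      rw [← Real.rpow_add hk, ← Real.rpow_add hk]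
      congr 1
      ring
    rw [e1]
    ring
  have t3 : N2 m * δ m ≤ 2 * (k ^ (-(κ / 4)) * (2 * (6 + κ / 16 * l) * (k ^ (1 / 4 : ℝ) * T)) +
      16 * d * l ^ 3 * T * k ^ (7 / 16 - 3 * κ / 8)) := by
    have h5 : 16 * d * (m * h) * T * k ^ (7 / 16 - 3 * κ / 8) ≤
        16 * d * l ^ 3 * T * k ^ (7 / 16 - 3 * κ / 8) := by
      gcongr
    calc N2 m * δ m ≤ N2 m * (2 * (δ 0 + ∑ i ∈ Finset.range m, 4 * h * k * S i / N2 i)) :=
          mul_le_mul_of_nonneg_left hδm hNm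
      _ = 2 * (N2 m * δ 0 + N2 m * ∑ i ∈ Finset.range m, 4 * h * k * S i / N2 i) := by ring
      _ ≤ _ := by
          refine mul_le_mul_of_nonneg_left (add_le_add t0 (t2.trans h5)) (by norm_num)
  have h6 : 6 + κ / 16 * l ≤ 7 * l ^ 3 := by nlinarith only [hκ1, hl, hl3, hκ]
  have e2 : k ^ (-(κ / 16)) * (k ^ (-(κ / 4)) * k ^ (1 / 4 : ℝ)) = k ^ (1 / 4 - 5 * κ / 16) := by
    rw [← Real.rpow_add hk, ← Real.rpow_add hk]
    congr 1
    ring
  have e3 : k ^ (-(κ / 16)) * k ^ (7 / 16 - 3 * κ / 8) = k ^ (7 / 16 - 7 * κ / 16) := by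
    rw [← Real.rpow_add hk]
    congr 1
    ring
  have hE5 := Real.exp_pos 5
  have c3' : 4 * Real.exp 5 * (6 + κ / 16 * l) * k ^ (1 / 4 - 5 * κ / 16) ≤ 1 / 2 := by
    have hp : 0 ≤ k ^ (1 / 4 - 5 * κ / 16) := Real.rpow_nonneg hk.le _
    calc 4 * Real.exp 5 * (6 + κ / 16 * l) * k ^ (1 / 4 - 5 * κ / 16)
        ≤ 4 * Real.exp 5 * (7 * l ^ 3) * k ^ (1 / 4 - 5 * κ / 16) := by gcongr
      _ = 28 * Real.exp 5 * (l ^ 3 * k ^ (1 / 4 - 5 * κ / 16)) := by ring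
      _ ≤ 28 * Real.exp 5 * (1 / (56 * Real.exp 5)) := by gcongr
      _ = 1 / 2 := by field_simp; norm_num
  have c4' : 32 * Real.exp 5 * d * (l ^ 3 * k ^ (7 / 16 - 7 * κ / 16)) ≤ 1 / 2 := by
    calc 32 * Real.exp 5 * d * (l ^ 3 * k ^ (7 / 16 - 7 * κ / 16))
        ≤ 32 * Real.exp 5 * (d + 1) * (1 / (64 * Real.exp 5 * (d + 1))) := by
          gcongr
          linarith only [hκ, hκ1]
      _ = 1 / 2 := by field_simp; norm_num
  calc N2 m * (δ m * Real.exp (δ m)) = N2 m * δ m * Real.exp (δ m) := by ring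
    _ ≤ 2 * (k ^ (-(κ / 4)) * (2 * (6 + κ / 16 * l) * (k ^ (1 / 4 : ℝ) * T)) +
      16 * d * l ^ 3 * T * k ^ (7 / 16 - 3 * κ / 8)) * (Real.exp 5 * k ^ (-(κ / 16))) := by
        refine mul_le_mul t3 hexp (Real.exp_pos _).le ?_
        exact (mul_nonneg hNm (hδn m)).trans t3
    _ = (4 * Real.exp 5 * (6 + κ / 16 * l) *
          (k ^ (-(κ / 16)) * (k ^ (-(κ / 4)) * k ^ (1 / 4 : ℝ)))) * T +
        (32 * Real.exp 5 * d * (l ^ 3 * (k ^ (-(κ / 16)) * k ^ (7 / 16 - 3 * κ / 8)))) * T := by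
        ring
    _ = (4 * Real.exp 5 * (6 + κ / 16 * l) * k ^ (1 / 4 - 5 * κ / 16)) * T +
        (32 * Real.exp 5 * d * (l ^ 3 * k ^ (7 / 16 - 7 * κ / 16))) * T := by
        rw [e2, e3]
    _ ≤ 1 / 2 * T + 1 / 2 * T :=
        add_le_add (mul_le_mul_of_nonneg_right c3' hT) (mul_le_mul_of_nonneg_right c4' hT)
    _ = T := by ring

private theorem Brg2b_pow {a c : ℝ} (ha : 0 ≤ a) (m : ℕ) (hc : m * a ≤ c) (hc2 : c ≤ 1 / 2) :
    (1 + a) ^ m ≤ 2 := by
  have h1 : (1 + a) ^ m ≤ Real.exp (m * a) := by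
    have h2 : 1 + a ≤ Real.exp a := by
      have := Real.add_one_le_exp a
      linarith
    calc (1 + a) ^ m ≤ Real.exp a ^ m := pow_le_pow_left₀ (by linarith) h2 m
      _ = Real.exp (m * a) := by rw [← Real.exp_nat_mul]
  have h3 : Real.exp (m * a) ≤ Real.exp (1 / 2) := Real.exp_le_exp.2 (hc.trans hc2)
  have h4 : Real.exp (1 / 2) ≤ 2 := by
    have h5 : Real.exp (1 / 2) ^ 2 ≤ 2 ^ 2 := by
      rw [← Real.exp_nat_mul]
      have h6 := Real.exp_one_lt_d9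
      norm_num
      linarith
    exact (abs_le_of_sq_le_sq' h5 (by norm_num)).2
  exact h1.trans (h3.trans h4)

theorem brg_dif (d : ℕ) (β : ℝ) (hβ : 0 < β) (κ M6 M8 : ℝ) (hκ : 0 < κ) (hκ1 : κ ≤ 1 / 8)
    (hM8 : 1 ≤ M8) :
    ∃ k0 : ℝ, 0 < k0 ∧ k0 < 1 ∧ ∀ k, 0 < k → k < k0 → ∃ h0 : ℝ, 0 < h0 ∧ ∀ h, 0 < h → h < h0 →
    ∀ (L : ℕ) (P : BPar d L), P.κ = κ → P.M6 = M6 → P.M8 = M8 → P.OK β k h →
    ∀ (G : (boxS d L → ℂ) × (boxS d L → ℂ)) (ω : ℕ → boxS d L → ℂ) (n : ℕ), n ≤ P.ns →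
      (∀ j, j < P.ns → ∀ x, ω j x ∈ gdC h) →
      (∀ j, j < n → P.RegSt k j (trajT (P.bst β k h) G ω j)) →
      (∀ z, P.Bs z → ∀ i j, i ≤ j → j ≤ n → ‖(trajT (P.bst β k h) G ω j).2 z‖ ≤
        k ^ (-(κ / 4)) * ‖(trajT (P.bst β k h) G ω i).2 z‖) →
      (∀ v, (boxMSet d L).lppM (1 / 8) (fun _ => 0) (gz k h ω) P.ns v ≤
        1 / 4 + (boxNet d L).dist P.y v / 16) →
      (∀ z, P.Bs z → ∀ v, (boxNet d L).dist z v ≤ 1 →
        (boxMSet d L).lppM (1 / 8) (fun _ => 0) (gz k h ω) P.ns v ≤ κ / 8) →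
      (∀ v, ‖G.1 v - G.2 v‖ ≤ P.A0 * k ^ (-(P.M8 - 1) + 5 / 8 * (boxNet d L).dist P.y v)) →
      ∀ v, ‖(trajT (P.bst β k h) G ω n).1 v - (trajT (P.bst β k h) G ω n).2 v‖ ≤
        P.A0 * k ^ (-P.M8 + (boxNet d L).dist P.y v / 2) := by
  have hβm : 0 < min 1 β * κ / 8 := by
    have : 0 < min 1 β := lt_min one_pos hβ
    positivity
  obtain ⟨k1, hk1, hk11, H1⟩ := brg_step d β hβ κ M6 M8 hκ
  obtain ⟨k2, hk2, hk21, H2⟩ := brg_step2 d β hβ κ M6 M8 hκ
  obtain ⟨k3, hk3, hk31, H3⟩ := Brg2b_ell (min 1 β * κ / 8) hβm (1 / 2) (by norm_num)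
  obtain ⟨k4, hk4, hk41, H4⟩ := Brg2b_ell (5 / 16) (by norm_num) (1 / (8 * (d + 1)))
    (by positivity)
  obtain ⟨k5, hk5, hk51, H5⟩ := Brg2b_ell (1 / 4 - 5 * κ / 16) (by linarith)
    (1 / (56 * Real.exp 5)) (by positivity)
  obtain ⟨k6, hk6, hk61, H6⟩ := Brg2b_ell (7 / 16 - 7 * κ / 16) (by linarith)
    (1 / (64 * Real.exp 5 * (d + 1))) (by positivity)
  refine ⟨min (min (min k1 k2) (min k3 k4)) (min (min k5 k6) (Real.exp (-2))), ?_, ?_, ?_⟩
  · have := Real.exp_pos (-2)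
    simp only [lt_min_iff]
    exact ⟨⟨⟨hk1, hk2⟩, hk3, hk4⟩, ⟨hk5, hk6⟩, this⟩
  · exact ((min_le_left _ _).trans ((min_le_left _ _).trans (min_le_left _ _))).trans_lt hk11
  intro k hk hk0
  simp only [lt_min_iff] at hk0
  obtain ⟨⟨⟨a1, a2⟩, a3, a4⟩, ⟨a5, a6⟩, a7⟩ := hk0
  have hklt : k < 1 := a1.trans hk11
  have hl2 : 2 ≤ ell k := by
    unfold ell
    rw [one_div, Real.log_inv]
    have := Real.log_le_log hk a7.le
    rw [Real.log_exp] at this
    linarith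
  have hl1 : 1 ≤ ell k := by linarith
  have hl0 : 0 < ell k := by linarith
  obtain ⟨h1, hh1, F1⟩ := H1 k hk a1
  obtain ⟨h2, hh2, F2⟩ := H2 k hk a2
  have c1 := H3 k hk a3
  have c2 := H4 k hk a4
  have c3 := H5 k hk a5
  have c4 := H6 k hk a6
  refine ⟨min h1 h2, lt_min hh1 hh2, ?_⟩
  intro h hh hh0 L P hPκ hPM6 hPM8 hOK G ω n hn hω hreg hrat hW hWb hG
  have hh01 := hh0.trans_le (min_le_left _ _)
  have hh02 := hh0.trans_le (min_le_right _ _)
  have hA0 := hOK.hA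
  have hm0 := hOK.hm0
  have hκ'0 : 0 ≤ k ^ (min 1 β * κ / 8) := Real.rpow_nonneg hk.le _
  have hς0 : 0 ≤ P.ς := by
    rw [hOK.hς]
    refine mul_nonneg hh.le (le_min (Real.rpow_nonneg hk.le _) ?_)
    exact mul_nonneg (Real.rpow_nonneg hk.le _) hA0
  have hςn : P.ς * P.ns ≤ 1 := by
    have e1 : P.ς ≤ h * k ^ (min 1 β * κ / 8) := by
      rw [hOK.hς, hPκ]
      exact mul_le_mul_of_nonneg_left (min_le_left _ _) hh.le
    have e2 := hOK.hns1
    have e3 : (0 : ℝ) ≤ P.ns := Nat.cast_nonneg _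
    calc P.ς * P.ns ≤ h * k ^ (min 1 β * κ / 8) * P.ns := mul_le_mul_of_nonneg_right e1 e3
      _ = P.ns * h * k ^ (min 1 β * κ / 8) := by ring
      _ ≤ ell k ^ 3 * k ^ (min 1 β * κ / 8) := mul_le_mul_of_nonneg_right e2 hκ'0
      _ ≤ 1 := by linarith
  have hbd : ∀ j, j ≤ P.ns → P.bd j ≤ κ / 16 * ell k + 5 := by
    intro j hj
    have e1 := Brg2b_bd P hm0 hς0 j hj
    have e2 := hOK.hm
    rw [hPκ] at e2
    linarith
  have hmh : ∀ j, j ≤ P.ns → (j : ℝ) * h ≤ ell k ^ 3 := by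
    intro j hj
    have e1 : (j : ℝ) ≤ P.ns := by exact_mod_cast hj
    exact (mul_le_mul_of_nonneg_right e1 hh.le).trans hOK.hns1
  set Z := trajT (P.bst β k h) G ω with hZ
  have hZs : ∀ j, Z (j + 1) = P.bst β k h j (Z j) (ω j) := fun j => rfl
  have hZ0 : Z 0 = G := rfl
  set A : ℝ := P.A0 * Real.exp (ell k * (P.M8 - 1 + 1 / 4)) with hAdef
  have hA : 0 ≤ A := mul_nonneg hA0 (Real.exp_pos _).le
  set H : boxS d L → ℝ := fun v => -(9 / 16 * ((boxNet d L).dist P.y v : ℝ)) with hHdef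
  set W := (boxMSet d L).lpp (1 / 8) (fun _ => 0) (gz k h ω) with hWdef
  have hk516 : 0 ≤ k ^ (5 / 16 : ℝ) := Real.rpow_nonneg hk.le _
  have hfac : ∀ m : ℕ, m ≤ P.ns → (1 + 4 * (d : ℝ) * k ^ (5 / 16 : ℝ) * h) ^ m ≤ 2 := by
    intro m hm
    have e1 : (m : ℝ) * (4 * (d : ℝ) * k ^ (5 / 16 : ℝ) * h) ≤ 1 / 2 := by
      calc (m : ℝ) * (4 * (d : ℝ) * k ^ (5 / 16 : ℝ) * h)
          = 4 * d * k ^ (5 / 16 : ℝ) * (m * h) := by ring
        _ ≤ 4 * d * k ^ (5 / 16 : ℝ) * ell k ^ 3 := by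
            have := hmh m hm
            gcongr
        _ = 4 * d * (ell k ^ 3 * k ^ (5 / 16 : ℝ)) := by ring
        _ ≤ 4 * (d + 1) * (1 / (8 * (d + 1))) := by
            gcongr
            linarith
        _ = 1 / 2 := by field_simp; norm_num
    exact Brg2b_pow (by positivity) m e1 le_rfl
  -- starting bound
  have hD0 : ∀ x, dif (Z 0).1 (Z 0).2 x ≤ A * Real.exp (ell k * H x) := by
    intro x
    have e1 := hG x
    have e2 : k ^ (-(P.M8 - 1) + 5 / 8 * ((boxNet d L).dist P.y x : ℝ)) =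
        Real.exp (ell k * (P.M8 - 1 - 5 / 8 * (boxNet d L).dist P.y x)) := by
      rw [Brg2b_kexp hk]
      congr 1
      ring
    have e3 : (0 : ℝ) ≤ (boxNet d L).dist P.y x := Nat.cast_nonneg _
    rw [e2] at e1
    refine e1.trans ?_
    rw [hAdef, mul_assoc, ← Real.exp_add]
    refine mul_le_mul_of_nonneg_left (Real.exp_le_exp.2 ?_) hA0
    rw [← mul_add]
    refine mul_le_mul_of_nonneg_left ?_ hl0.le
    show _ ≤ P.M8 - 1 + 1 / 4 + -(9 / 16 * ((boxNet d L).dist P.y x : ℝ))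
    linarith only [hκ, hκ1]
  have hHn : ∀ x v, (boxNet d L).dist x v ≤ 1 → H v ≤ H x + 9 / 16 := by
    intro x v hv
    have e1 := (boxNet d L).dist_tri P.y v x
    rw [(boxNet d L).dist_comm v x] at e1
    have e2 : ((boxNet d L).dist P.y x : ℝ) ≤ (boxNet d L).dist P.y v + 1 := by
      exact_mod_cast (by omega : (boxNet d L).dist P.y x ≤ (boxNet d L).dist P.y v + 1)
    show -(9 / 16 * ((boxNet d L).dist P.y v : ℝ)) ≤
      -(9 / 16 * ((boxNet d L).dist P.y x : ℝ)) + 9 / 16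
    linarith only [e2]
  -- claim
  have key : ∀ m, m ≤ n → ∀ v, dif (Z m).1 (Z m).2 v ≤
      A * (1 + 4 * (d : ℝ) * k ^ (5 / 16 : ℝ) * h) ^ m * Real.exp (ell k * (W m v + H v)) := by
    intro m
    induction m using Nat.strong_induction_on with
    | _ m ih =>
      intro hmn v
      refine grow_path2 d L k h (5 / 16) (1 / 8) (9 / 16) A hk hklt hh hA (by norm_num)
        (by norm_num) (by norm_num) (by norm_num) (fun j y => Real.sqrt h * (ω j y).re)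
        (fun j => dif (Z j).1 (Z j).2) H
        (fun x y hy => hHn x y (le_of_eq ((boxNet d L).dist_nb x y hy))) hD0 m ?_ v
      intro j hj x
      have hjn : j < n := lt_of_lt_of_le hj hmn
      have hjs : j < P.ns := lt_of_lt_of_le hjn hn
      by_cases hx : P.Bs x
      · right
        -- inside the ball
        set T : ℝ := A * Real.exp (ell k * H x) with hT
        have hT0 : 0 ≤ T := mul_nonneg hA (Real.exp_pos _).le
        have hR : ∀ i, i ≤ j → P.RegSt k i (Z i) := fun i hi => hreg i (by omega)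
        have hgd : ∀ i, i ≤ j → Real.sqrt h * ‖ω i x‖ ≤ h ^ (3 / 8 : ℝ) :=
          fun i hi => hω i (by omega) x
        obtain ⟨b1, b2, b3⟩ := F1 h hh hh01 L P hPκ hPM6 hPM8 hOK j hjs (Z j) (hR j le_rfl)
          (ω j) x hx (hgd j le_rfl)
        rw [← hZs j] at b1 b2 b3
        have q1 : dif (Z (j + 1)).1 (Z (j + 1)).2 x ≤ ‖(Z (j + 1)).2 x‖ *
            (‖Complex.log ((Z (j + 1)).2 x / (Z (j + 1)).1 x)‖ *
              Real.exp ‖Complex.log ((Z (j + 1)).2 x / (Z (j + 1)).1 x)‖) :=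
          Brg2b_dif _ _ b1 b2
        refine q1.trans ?_
        refine Brg2b_in d κ k h (ell k) T (h * k ^ (min 1 β * κ / 8)) (dif (Z 0).1 (Z 0).2 x)
          (fun i => ‖(Z i).2 x‖) (fun i => ‖Complex.log ((Z i).2 x / (Z i).1 x)‖)
          (fun i => ∑ v ∈ (boxNet d L).nb x, ‖(Z i).1 v - (Z i).2 v‖) (j + 1) hκ hκ1 hk hh hl1
          hT0 (mul_nonneg hh.le hκ'0) (fun i => norm_nonneg _)
          (fun i => Finset.sum_nonneg fun v _ => norm_nonneg _) (norm_nonneg _) ?_ ?_ ?_ ?_ ?_ ?_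
          (norm_nonneg _) ?_ ?_ ?_ ?_ ?_ c3 c4
        · rw [mul_comm (κ / 16) (ell k), Brg2b_kexp hk]
        · exact Brg2b_low _ _ ((hR 0 (Nat.zero_le _)).1 x hx).2.1
        · exact ((hR 0 (Nat.zero_le _)).1 x hx).2.2.1.trans (hbd 0 (Nat.zero_le _))
        · exact b3.trans (hbd (j + 1) (by omega))
        · intro i hi
          have e1 := F2 h hh hh02 L P hPκ hPM6 hPM8 hOK i (by omega) (Z i) (hR i (by omega))
            (ω i) x hx (hgd i (by omega))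
          rw [← hZs i] at e1
          refine e1.trans ?_
          have e2 : (0 : ℝ) < (P.ns : ℝ) + 1 - i := by
            have : (i : ℝ) ≤ P.ns := by exact_mod_cast (by omega : i ≤ P.ns)
            linarith only [hκ, hκ1, this]
          have e3 : 0 ≤ 1 / ((P.ns : ℝ) + 1 - i) := by positivity
          have e4 : (1 - 1 / ((P.ns : ℝ) + 1 - i) + h * k ^ (min 1 β * κ / 8)) *
              ‖Complex.log ((Z i).2 x / (Z i).1 x)‖ ≤ (1 + h * k ^ (min 1 β * κ / 8)) *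
              ‖Complex.log ((Z i).2 x / (Z i).1 x)‖ :=
            mul_le_mul_of_nonneg_right (by linarith only [e3]) (norm_nonneg _)
          exact add_le_add e4 le_rfl
        · intro i hi
          exact norm_pos_iff.2 ((hR i (by omega)).1 x hx).2.1
        · intro i hi
          exact hrat x hx i (j + 1) hi (by omega)
        · have e1 : ((j + 1 : ℕ) : ℝ) * (h * k ^ (min 1 β * κ / 8)) ≤ 1 / 2 := by
            calc ((j + 1 : ℕ) : ℝ) * (h * k ^ (min 1 β * κ / 8))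
                = ((j + 1 : ℕ) : ℝ) * h * k ^ (min 1 β * κ / 8) := by ring
              _ ≤ ell k ^ 3 * k ^ (min 1 β * κ / 8) :=
                  mul_le_mul_of_nonneg_right (hmh (j + 1) (by omega)) hκ'0
              _ ≤ 1 / 2 := c1
          exact Brg2b_pow (mul_nonneg hh.le hκ'0) (j + 1) e1 le_rfl
        · have e1 := hG x
          have e2 : k ^ (-(P.M8 - 1) + 5 / 8 * ((boxNet d L).dist P.y x : ℝ)) =
              Real.exp (ell k * (P.M8 - 1 - 5 / 8 * (boxNet d L).dist P.y x)) := by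
            rw [Brg2b_kexp hk]
            congr 1
            ring
          have e3 : (0 : ℝ) ≤ (boxNet d L).dist P.y x := Nat.cast_nonneg _
          have e4 : k ^ (1 / 4 : ℝ) = Real.exp (ell k * (-(1 / 4))) := by
            rw [Brg2b_kexp hk, neg_neg]
          rw [e2] at e1
          refine e1.trans ?_
          rw [hT, hAdef, e4]
          have e5 : Real.exp (ell k * (-(1 / 4))) * (P.A0 *
              Real.exp (ell k * (P.M8 - 1 + 1 / 4)) * Real.exp (ell k * H x)) =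
              P.A0 * Real.exp (ell k * (P.M8 - 1 + H x)) := by
            have e6 : ell k * (P.M8 - 1 + H x) = ell k * (-(1 / 4)) +
                ell k * (P.M8 - 1 + 1 / 4) + ell k * H x := by ring
            rw [e6, Real.exp_add, Real.exp_add]
            ring
          rw [e5]
          refine mul_le_mul_of_nonneg_left (Real.exp_le_exp.2 ?_) hA0
          refine mul_le_mul_of_nonneg_left ?_ hl0.le
          show _ ≤ P.M8 - 1 + -(9 / 16 * ((boxNet d L).dist P.y x : ℝ))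
          linarith
        · intro i hi
          have hterm : ∀ v ∈ (boxNet d L).nb x, ‖(Z i).1 v - (Z i).2 v‖ ≤
              2 * T * k ^ (-(κ / 8 + 9 / 16)) := by
            intro v hv
            have hdv : (boxNet d L).dist x v ≤ 1 := le_of_eq ((boxNet d L).dist_nb x v hv)
            have e1 := ih i (by omega) (by omega) v
            have e2 : W i v ≤ κ / 8 :=
              (le_lppM (boxMSet d L) (1 / 8) (fun _ => 0) (gz k h ω)
                (by omega : i ≤ P.ns) v).trans (hWb x hx v hdv)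
            have e3 := hHn x v hdv
            have e4 := hfac i (by omega)
            have e5 : Real.exp (ell k * (W i v + H v)) ≤
                Real.exp (ell k * (κ / 8 + 9 / 16)) * Real.exp (ell k * H x) := by
              rw [← Real.exp_add, ← mul_add]
              exact Real.exp_le_exp.2 (mul_le_mul_of_nonneg_left (by linarith only [e2, e3]) hl0.le)
            refine e1.trans ?_
            rw [← Brg2b_kexp hk]
            calc A * (1 + 4 * (d : ℝ) * k ^ (5 / 16 : ℝ) * h) ^ i *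
                  Real.exp (ell k * (W i v + H v))
                ≤ A * 2 * (Real.exp (ell k * (κ / 8 + 9 / 16)) * Real.exp (ell k * H x)) := by
                  gcongr
              _ = 2 * T * Real.exp (ell k * (κ / 8 + 9 / 16)) := by
                  rw [hT]
                  ring
          have hQ0 : 0 ≤ 2 * T * k ^ (-(κ / 8 + 9 / 16)) :=
            mul_nonneg (by linarith only [hT0]) (Real.rpow_nonneg hk.le _)
          calc ∑ v ∈ (boxNet d L).nb x, ‖(Z i).1 v - (Z i).2 v‖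
              ≤ ∑ _v ∈ (boxNet d L).nb x, 2 * T * k ^ (-(κ / 8 + 9 / 16)) :=
                Finset.sum_le_sum hterm
            _ = ((boxNet d L).nb x).card * (2 * T * k ^ (-(κ / 8 + 9 / 16))) := by
                rw [Finset.sum_const, nsmul_eq_mul]
            _ ≤ 2 * d * (2 * T * k ^ (-(κ / 8 + 9 / 16))) := by
                apply mul_le_mul_of_nonneg_right _ hQ0
                exact_mod_cast (boxNet d L).nb_card x
        · exact hmh (j + 1) (by omega)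
      · left
        have hc : P.ctl k h j (Z j) x = 0 := by
          unfold BPar.ctl
          rw [if_neg (fun q => hx q.1)]
        have e1 := st2_d1 d hβ hk.le hh L (Z j).1 (Z j).2 (ω j)
          (fun z => ω j z + P.ctl k h j (Z j) z) x (by simp only [hc, add_zero])
        exact e1
  -- conclusion
  intro v
  have e1 := key n le_rfl v
  have e2 := hfac n hn
  have e3 : W n v ≤ 1 / 4 + (boxNet d L).dist P.y v / 16 :=
    (le_lppM (boxMSet d L) (1 / 8) (fun _ => 0) (gz k h ω) hn v).trans (hW v)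
  have e4 : Real.exp (ell k * (W n v + H v)) ≤
      Real.exp (ell k * (1 / 4 - (boxNet d L).dist P.y v / 2)) := by
    refine Real.exp_le_exp.2 (mul_le_mul_of_nonneg_left ?_ hl0.le)
    show W n v + -(9 / 16 * ((boxNet d L).dist P.y v : ℝ)) ≤ _
    linarith only [e3]
  have e5 : (2 : ℝ) ≤ Real.exp (ell k * (1 / 2)) := by
    have := Real.add_one_le_exp (ell k * (1 / 2))
    linarith only [hl2, this]
  have e6 : k ^ (-P.M8 + ((boxNet d L).dist P.y v : ℝ) / 2) =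
      Real.exp (ell k * (P.M8 - (boxNet d L).dist P.y v / 2)) := by
    rw [Brg2b_kexp hk]
    congr 1
    ring
  rw [e6]
  refine e1.trans ?_
  calc A * (1 + 4 * (d : ℝ) * k ^ (5 / 16 : ℝ) * h) ^ n * Real.exp (ell k * (W n v + H v))
      ≤ A * 2 * Real.exp (ell k * (1 / 4 - (boxNet d L).dist P.y v / 2)) := by gcongr
    _ ≤ A * Real.exp (ell k * (1 / 2)) *
        Real.exp (ell k * (1 / 4 - (boxNet d L).dist P.y v / 2)) := by gcongr
    _ = P.A0 * Real.exp (ell k * (P.M8 - (boxNet d L).dist P.y v / 2)) := by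
        rw [hAdef]
        have e7 : ell k * (P.M8 - (boxNet d L).dist P.y v / 2) =
            ell k * (P.M8 - 1 + 1 / 4) + ell k * (1 / 2) +
              ell k * (1 / 4 - (boxNet d L).dist P.y v / 2) := by ring
        rw [e7, Real.exp_add, Real.exp_add]
        ring

end DynC

end

/-! ### from `Lib_MP_36b788c.Brg2` -/

section

/-!
# The bridge: regular noise keeps all states regular (deterministic)

PROOF of `brg_reg`. Write `Z j` for the trajectory. By strong induction on `j ≤ ns`: `RegSt k j (Z j)`. Suppose it holds for all `i < j`.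
(0) `j = 0`: `δ_0 = log(G.2 z/G.1 z)`, `|Re δ_0| ≤ κd ell`, `|Im| ≤ π`: `‖δ_0‖ ≤ κd ell + 4`; linear bound: `‖δ_0‖ ≤ C(1 + ‖δ_0‖)|e^{δ_0} - 1|`, `|e^{δ_0} - 1| ≤ ‖G.1 z - G.2 z‖/‖G.1 z‖ ≤ A0 k^{-(M8-1) - M6}`: so `‖δ_0‖ ≤ k^{-(M8+M6)} A0`; hence `‖δ_0‖ ≤ m0 = bd 0`. The other conditions from `GCfg` (neighbours: `k ‖G.1 v‖ ≤ k^{κ + κ2}‖G.1 z‖`), the profile from the hypothesis.
(1) Noise of the second component: `b' i v = √h Re(ω i v + ctl i v)`, `|√h ctl| ≤ m0/(ns+1) + ς lamS ns i` (`ctl_le`), sum over `i < ns` `≤ m0 + ς ns ≤ κd ell + 5 ≤ (κ/64 + κ/64) ell` (`lamS_sum`, `ς ns ≤ k^{min(1,β)κ/8} ell³ ≤ 1`). `lpp` is Lipschitz: `lpp q 0 (g + c) n v ≤ lpp q 0 g n v + Σ_{i<n} sup |c_i|` (induction). So `lppM (κ2/2)` for `b'/ell` is `≤ κ3 (1 + dist z v) + κ/32 ≤ κ/16 + (κ2/8) dist z v`, block sums `≤ κ3 + κ/32 ≤ κ/16`; the same for the first component.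
`brg_one` for both components (`QStep` from `st2_q` in `St2.lean` with the noise `ω`, `ω + ctl`; `|b'| ≤ 2 h^{3/8} + small ≤ 3 h^{3/8}`), center `z` in the ball, up to time `j`: `k^{κ/8}‖G.i z‖ ≤ ‖(Z j).i z‖ ≤ k^{-κ/8}‖G.i z‖`, neighbours `k‖(Z j).i v‖ ≤ k^{7κ/8}‖G.i z‖ ≤ k^{3κ/4}‖(Z j).i z‖`. Gives the size and neighbour conditions of `RegSt`, and the ratio hypothesis of `brg_dif`.
(2) log bound at `j ≥ 1`: `brg_step` for the step `j - 1`. (3) profile: `brg_dif` (`lppM (1/8) ≤ lppM (κ2/2) ≤ 2 κ3 ≤ κ/8` near the ball; `κ2/2 ≤ 1/8`).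
Final profile: for `v` outside the ball from `RegSt`; for `v` in the ball `D_ns v ≤ ‖(Z ns).1 v‖ |e^{δ} - 1| ≤ 2 bd ns`, `bd ns = m0/(ns+1) + ς lamS ns ns ≤ A0 (k^{-(M8+M6)} h + h k^{-(M8+2M6+4)}(1 + log(ns+1)))`, `ns ≤ ell³/h`, so for small `h` (depending on `k`, `Rb`) it is `≤ A0 k^{Rb/2}/2`.
-/

open MeasureTheory ProbabilityTheory
open scoped ENNReal

namespace DynC

open Dyn

/-- good configuration of a pair on a ball -/
structure GCfg {d L : ℕ} (k κ κ2 κd M6 : ℝ) (y : boxS d L) (Rb : ℕ)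
    (G : (boxS d L → ℂ) × (boxS d L → ℂ)) : Prop where
  low : ∀ x, (boxNet d L).dist y x ≤ Rb → k ^ M6 ≤ ‖G.1 x‖ ∧ k ^ M6 ≤ ‖G.2 x‖
  top : ∀ x, (boxNet d L).dist y x ≤ Rb → ‖G.1 x‖ ≤ k ^ κ ∧ ‖G.2 x‖ ≤ k ^ κ
  rat : ∀ x, (boxNet d L).dist y x ≤ Rb →
    ‖G.1 x‖ ≤ k ^ (-κd) * ‖G.2 x‖ ∧ ‖G.2 x‖ ≤ k ^ (-κd) * ‖G.1 x‖
  gap : ∀ x, (boxNet d L).dist y x ≤ Rb → ∀ v, v ≠ x →
    ‖G.1 v‖ ≤ k ^ (κ - (1 - κ2) * (boxNet d L).dist x v) * ‖G.1 x‖ ∧
      ‖G.2 v‖ ≤ k ^ (κ - (1 - κ2) * (boxNet d L).dist x v) * ‖G.2 x‖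
  cap : ∀ v, ‖G.1 v‖ ≤ k ^ (-((1 + (boxNet d L).dist y v : ℝ) / 8)) ∧
    ‖G.2 v‖ ≤ k ^ (-((1 + (boxNet d L).dist y v : ℝ) / 8))

/-- regular noise on a bridge -/
def RegB {d L : ℕ} (κ2 κ3 k h : ℝ) (ns : ℕ) (y : boxS d L) (Rb : ℕ) (ω : ℕ → boxS d L → ℂ) :
    Prop :=
  (∀ j, j < ns → ∀ x, ω j x ∈ gdC h) ∧
  (∀ x, (boxNet d L).dist y x ≤ Rb → (∀ v, (boxMSet d L).lppM (κ2 / 2) (fun _ => 0) (gz k h ω) ns v
      ≤ κ3 * (1 + (boxNet d L).dist x v)) ∧
    ∀ i j, i ≤ j → j ≤ ns → |∑ l ∈ Finset.Ico i j, gz k h ω l x| ≤ κ3) ∧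
  ∀ v, (boxMSet d L).lppM (1 / 8) (fun _ => 0) (gz k h ω) ns v ≤
    1 / 4 + (boxNet d L).dist y v / 16

/-- the parameters of the bridge -/
noncomputable def bpar {d L : ℕ} (β k h κ κd M6 M8 A0 : ℝ) (ns Rb : ℕ) (y : boxS d L) :
    BPar d L where
  y := y
  Rb := Rb
  ns := ns
  κ := κ
  M6 := M6
  M8 := M8
  A0 := A0
  m0 := min (κd * ell k + 4) (k ^ (-(M8 + M6)) * A0)
  ς := h * min (k ^ (min 1 β * κ / 8)) (k ^ (-(M8 + 2 * M6 + 4)) * A0)

open Filter Topology in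
private theorem Brg2_ev {P : ℝ → Prop} (h : ∀ᶠ x in 𝓝[>] (0 : ℝ), P x) :
    ∃ x0 : ℝ, 0 < x0 ∧ ∀ x, 0 < x → x < x0 → P x := by
  obtain ⟨u, hu, hs⟩ := mem_nhdsGT_iff_exists_Ioo_subset.1 h
  exact ⟨u, hu, fun x h1 h2 => hs ⟨h1, h2⟩⟩

open Filter Topology in
private theorem Brg2_pow (C : ℝ) {a δ : ℝ} (ha : 0 < a) (hδ : 0 < δ) :
    ∀ᶠ x in 𝓝[>] (0 : ℝ), C * x ^ a ≤ δ := by
  have h1 : Tendsto (fun x : ℝ => C * x ^ a) (𝓝[>] 0) (𝓝 (C * 0)) := by
    refine Tendsto.const_mul C ?_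
    have h2 : ContinuousAt (fun x : ℝ => x ^ a) 0 := Real.continuousAt_rpow_const 0 a (Or.inr ha.le)
    have h3 := h2.tendsto
    rw [Real.zero_rpow ha.ne'] at h3
    exact h3.mono_left nhdsWithin_le_nhds
  rw [mul_zero] at h1
  exact (h1.eventually (gt_mem_nhds hδ)).mono fun x hx => hx.le

private theorem Brg2_elk (k : ℝ) : ell k = -Real.log k := by
  unfold ell; rw [one_div, Real.log_inv]

open Filter Topology in
private theorem Brg2_ell (C : ℝ) : ∀ᶠ k in 𝓝[>] (0 : ℝ), C ≤ ell k := by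
  have h1 : Tendsto (fun k : ℝ => -Real.log k) (𝓝[>] 0) atTop :=
    tendsto_neg_atBot_atTop.comp Real.tendsto_log_nhdsGT_zero
  refine (h1.eventually_ge_atTop C).mono fun k hk => ?_
  rw [Brg2_elk]
  exact hk

open Filter Topology in
private theorem Brg2_powell (C : ℝ) {a δ : ℝ} (ha : 0 < a) (hδ : 0 < δ) :
    ∀ᶠ k in 𝓝[>] (0 : ℝ), C * k ^ a * ell k ≤ δ := by
  have h1 : Tendsto (fun k : ℝ => -C * (Real.log k * k ^ a)) (𝓝[>] 0) (𝓝 (-C * 0)) :=
    (tendsto_log_mul_rpow_nhdsGT_zero ha).const_mul (-C)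
  rw [mul_zero] at h1
  refine (h1.eventually (gt_mem_nhds hδ)).mono fun k hk => ?_
  rw [Brg2_elk]
  refine le_trans (le_of_eq ?_) hk.le
  ring

/-- `lpp` is Lipschitz in the increments -/
private theorem Brg2_lpp_add {S : Type} [Fintype S] {D : ℕ} (M : MSet S D) (q : ℝ)
    (g g' : ℕ → S → ℝ) (c : ℕ → ℝ) (hc : ∀ j, 0 ≤ c j) (N : ℕ)
    (h : ∀ j, j < N → ∀ x, g' j x ≤ g j x + c j) (n : ℕ) (hn : n ≤ N) (x : S) :
    M.lpp q (fun _ => 0) g' n x ≤ M.lpp q (fun _ => 0) g n x + ∑ i ∈ Finset.range n, c i := by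
  induction n generalizing x with
  | zero => simp [MSet.lpp]
  | succ n ih =>
    have ih' := ih (Nat.le_of_succ_le hn)
    have hS : 0 ≤ ∑ i ∈ Finset.range (n + 1), c i := Finset.sum_nonneg fun i _ => hc i
    have hg := h n (Nat.lt_of_succ_le hn) x
    have e1 : M.lpp q (fun _ => 0) g' (n + 1) x =
      max 0 (max (M.lpp q (fun _ => 0) g' n x + g' n x)
      (M.Rq1 q (M.lpp q (fun _ => 0) g' n) x + max (g' n x) 0)) := rfl
    have e2 : M.lpp q (fun _ => 0) g (n + 1) x =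
      max 0 (max (M.lpp q (fun _ => 0) g n x + g n x)
      (M.Rq1 q (M.lpp q (fun _ => 0) g n) x + max (g n x) 0)) := rfl
    have f0 : 0 ≤ M.lpp q (fun _ => 0) g (n + 1) x := by
      rw [e2]; exact le_max_left _ _
    have f1 : M.lpp q (fun _ => 0) g n x + g n x ≤ M.lpp q (fun _ => 0) g (n + 1) x := by
      rw [e2]; exact (le_max_left _ _).trans (le_max_right _ _)
    have f2 : M.Rq1 q (M.lpp q (fun _ => 0) g n) x + max (g n x) 0 ≤
        M.lpp q (fun _ => 0) g (n + 1) x := by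
      rw [e2]; exact (le_max_right _ _).trans (le_max_right _ _)
    rw [Finset.sum_range_succ] at hS ⊢
    rw [e1]
    refine max_le (by linarith) (max_le ?_ ?_)
    · have := ih' x
      linarith
    · have g1 : M.Rq1 q (M.lpp q (fun _ => 0) g' n) x ≤
          M.Rq1 q (M.lpp q (fun _ => 0) g n) x + ∑ i ∈ Finset.range n, c i := by
        refine Rq1_le M q _ x _ fun z => ?_
        have g2 := le_Rq1 M q (M.lpp q (fun _ => 0) g n) x z
        have g3 := ih' z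
        linarith
      have g4 : max (g' n x) 0 ≤ max (g n x) 0 + c n := by
        refine max_le ?_ ?_
        · exact hg.trans (add_le_add (le_max_left _ _) le_rfl)
        · have := le_max_right (g n x) 0
          have := hc n
          linarith
      linarith

private theorem Brg2_lppM_add {S : Type} [Fintype S] {D : ℕ} (M : MSet S D) (q : ℝ)
    (g g' : ℕ → S → ℝ) (c : ℕ → ℝ) (hc : ∀ j, 0 ≤ c j) (N : ℕ)
    (h : ∀ j, j < N → ∀ x, g' j x ≤ g j x + c j) (x : S) :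
    M.lppM q (fun _ => 0) g' N x ≤ M.lppM q (fun _ => 0) g N x + ∑ i ∈ Finset.range N, c i := by
  show (Finset.range (N + 1)).sup' _ _ ≤ _
  refine Finset.sup'_le _ _ fun m hm => ?_
  have hm' : m ≤ N := Nat.lt_succ_iff.mp (Finset.mem_range.mp hm)
  have h1 := Brg2_lpp_add M q g g' c hc N h m hm' x
  have h2 := le_lppM M q (fun _ => 0) g hm' x
  have h3 : ∑ i ∈ Finset.range m, c i ≤ ∑ i ∈ Finset.range N, c i :=
    Finset.sum_le_sum_of_subset_of_nonneg (Finset.range_mono hm') fun i _ _ => hc i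
  linarith

/-- `lpp` decreases in the cost of the jumps -/
private theorem Brg2_lpp_anti {S : Type} [Fintype S] {D : ℕ} (M : MSet S D) {q q' : ℝ}
    (hq : q ≤ q') (g : ℕ → S → ℝ) (n : ℕ) (x : S) :
    M.lpp q' (fun _ => 0) g n x ≤ M.lpp q (fun _ => 0) g n x := by
  induction n generalizing x with
  | zero => exact le_rfl
  | succ n ih =>
    show max 0 (max (M.lpp q' (fun _ => 0) g n x + g n x)
      (M.Rq1 q' (M.lpp q' (fun _ => 0) g n) x + max (g n x) 0)) ≤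
      max 0 (max (M.lpp q (fun _ => 0) g n x + g n x)
      (M.Rq1 q (M.lpp q (fun _ => 0) g n) x + max (g n x) 0))
    refine max_le_max le_rfl (max_le_max (add_le_add (ih x) le_rfl) (add_le_add ?_ le_rfl))
    refine Rq1_le M q' _ x _ fun z => ?_
    refine le_trans ?_ (le_Rq1 M q (M.lpp q (fun _ => 0) g n) x z)
    have h1 := ih z
    have h2 : 0 ≤ max (M.dd x z : ℝ) 1 := zero_le_one.trans (le_max_right _ _)
    have h3 := mul_le_mul_of_nonneg_right hq h2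
    linarith

private theorem Brg2_lppM_anti {S : Type} [Fintype S] {D : ℕ} (M : MSet S D) {q q' : ℝ}
    (hq : q ≤ q') (g : ℕ → S → ℝ) (N : ℕ) (x : S) :
    M.lppM q' (fun _ => 0) g N x ≤ M.lppM q (fun _ => 0) g N x := by
  show (Finset.range (N + 1)).sup' _ _ ≤ _
  refine Finset.sup'_le _ _ fun m hm => ?_
  have hm' : m ≤ N := Nat.lt_succ_iff.mp (Finset.mem_range.mp hm)
  exact (Brg2_lpp_anti M hq g m x).trans (le_lppM M q (fun _ => 0) g hm' x)

/-- the logarithm is bounded linearly by the distance to one -/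
private theorem Brg2_log (z : ℂ) :
    ‖Complex.log z‖ ≤ 2 * (1 + ‖Complex.log z‖) * ‖z - 1‖ := by
  have h0 := norm_nonneg (Complex.log z)
  have h2 := norm_nonneg (z - 1)
  rcases le_or_gt ‖z - 1‖ (1 / 2) with h | h
  · have h1 := Complex.norm_log_one_add_half_le_self h
    rw [add_sub_cancel] at h1
    nlinarith
  · nlinarith

/-- crude bound of the logarithm of a quotient -/
private theorem Brg2_logq {a b : ℂ} {e : ℝ} (ha : a ≠ 0) (hb : b ≠ 0)
    (h1 : ‖a‖ ≤ Real.exp e * ‖b‖) (h2 : ‖b‖ ≤ Real.exp e * ‖a‖) :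
    ‖Complex.log (b / a)‖ ≤ e + 4 := by
  have ha' : 0 < ‖a‖ := norm_pos_iff.2 ha
  have hb' : 0 < ‖b‖ := norm_pos_iff.2 hb
  have h3 : |(Complex.log (b / a)).re| ≤ e := by
    rw [Complex.log_re, norm_div, Real.log_div hb'.ne' ha'.ne', abs_le]
    constructor
    · have g1 := Real.log_le_log ha' h1
      rw [Real.log_mul (Real.exp_pos _).ne' hb'.ne', Real.log_exp] at g1
      linarith
    · have g1 := Real.log_le_log hb' h2
      rw [Real.log_mul (Real.exp_pos _).ne' ha'.ne', Real.log_exp] at g1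
      linarith
  have h4 : |(Complex.log (b / a)).im| ≤ 4 := by
    rw [Complex.log_im]
    exact (Complex.abs_arg_le_pi _).trans Real.pi_le_four
  exact (Complex.norm_le_abs_re_add_abs_im _).trans (add_le_add h3 h4)

/-- `h (1 + log (ns + 1))` is small -/
private theorem Brg2_hlog {h T : ℝ} {ns : ℕ} (hh : 0 < h) (hh1 : h ≤ 1) (h1 : 1 ≤ ns * h)
    (h2 : ns * h ≤ T) : h * (1 + Real.log (ns + 1)) ≤ (1 + 2 * Real.sqrt (2 * T)) * h ^ (1 / 2 : ℝ) := by
  rw [← Real.sqrt_eq_rpow]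
  set sh : ℝ := Real.sqrt h with hsh
  have hs0 : 0 < sh := Real.sqrt_pos.2 hh
  have hsq : sh * sh = h := Real.mul_self_sqrt hh.le
  have hs1 : sh ≤ 1 := by
    rw [hsh]
    exact Real.sqrt_le_one.2 hh1
  have hT : 0 ≤ T := by linarith
  have hx : (ns : ℝ) + 1 ≤ 2 * T / h := by
    rw [le_div_iff₀ hh]
    linarith
  have hx0 : (0 : ℝ) ≤ (ns : ℝ) + 1 := by positivity
  have h3 : Real.log (ns + 1) ≤ 2 * Real.sqrt (ns + 1) := by
    have g1 := Real.log_le_rpow_div hx0 (show (0 : ℝ) < 1 / 2 by norm_num)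
    rw [← Real.sqrt_eq_rpow] at g1
    linarith
  have h4 : Real.sqrt (ns + 1) ≤ Real.sqrt (2 * T) / sh := by
    rw [hsh, ← Real.sqrt_div (by positivity)]
    exact Real.sqrt_le_sqrt hx
  have h5 : h * Real.sqrt (ns + 1) ≤ sh * Real.sqrt (2 * T) := by
    have g1 := mul_le_mul_of_nonneg_left h4 hh.le
    refine g1.trans (le_of_eq ?_)
    rw [← hsq]
    field_simp
  have h6 : h ≤ sh := by nlinarith only [hsq, hs0, hs1]
  nlinarith only [h5, h6, hh, h3]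

/-- the parameters of the bridge are consistent -/
private theorem Brg2_OK {d L : ℕ} {β k h κ κd M6 M8 A0 : ℝ} {ns Rb : ℕ} (y : boxS d L)
    (hk : 0 < k) (hell : 0 ≤ ell k) (hκ : 0 < κ) (hκ1 : κ ≤ 1 / 8)
    (hκd : 0 < κd) (hκdk : κd ≤ κ / 64) (hM6 : 0 ≤ M6) (hM8 : 1 ≤ M8) (hA0 : 0 ≤ A0)
    (hns : 1 ≤ ns * h) (hns1 : ns * h ≤ ell k ^ 3) :
    (bpar β k h κ κd M6 M8 A0 ns Rb y : BPar d L).OK β k h := by
  refine ⟨hκ, hκ1, hM6, ?_, hA0, ?_, ?_, rfl, hns, hns1⟩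
  · show 0 ≤ M8
    linarith
  · show min (κd * ell k + 4) (k ^ (-(M8 + M6)) * A0) ≤ κ / 16 * ell k + 4
    refine (min_le_left _ _).trans ?_
    have : κd * ell k ≤ κ / 16 * ell k := mul_le_mul_of_nonneg_right (by linarith) hell
    linarith
  · show 0 ≤ min (κd * ell k + 4) (k ^ (-(M8 + M6)) * A0)
    refine le_min (by positivity) ?_
    have := Real.rpow_nonneg hk.le (-(M8 + M6))
    positivity

/-- the statement of `brg_one` for fixed parameters -/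
private def Brg2_O (d L : ℕ) (β κ κ2 k h : ℝ) : Prop :=
    ∀ (b u : ℕ → boxS d L → ℝ) (x : boxS d L) (n : ℕ), n * h ≤ ell k ^ 3 →
      (∀ v, 0 ≤ u 0 v) →
      (∀ j, j < n → QStep (boxNet d L) β h k (b j) (u j) (u (j + 1))) →
      (∀ j, j < n → |b j x| ≤ 3 * h ^ (3 / 8 : ℝ)) →
      (∀ v, (boxMSet d L).lppM (κ2 / 2) (fun _ => 0) (fun j y => b j y / ell k) n v ≤
        κ / 16 + κ2 / 8 * (boxNet d L).dist x v) →
      (∀ i j, i ≤ j → j ≤ n → |∑ l ∈ Finset.Ico i j, b l x| ≤ κ / 16 * ell k) →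
      u 0 x ≤ k ^ κ →
      (∀ v, v ≠ x → u 0 v ≤ k ^ (κ - (1 - κ2) * (boxNet d L).dist x v) * u 0 x) →
      ∀ j, j ≤ n → k ^ (κ / 8) * u 0 x ≤ u j x ∧ u j x ≤ k ^ (-(κ / 8)) * u 0 x ∧
        ∀ v ∈ (boxNet d L).nb x, k * u j v ≤ k ^ (7 / 8 * κ) * u 0 x

/-- growth of one component at a site of the ball -/
private theorem Brg2_comp {d L : ℕ} {β κ κ2 κ3 k h : ℝ} {ns Rb : ℕ} {y : boxS d L}
    (HA : Brg2_O d L β κ κ2 k h) (hell : 0 < ell k) (hκ : 0 < κ)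
    (hκ3 : 0 < κ3) (hκ32 : κ3 ≤ κ2 / 16) (hκ3k : κ3 ≤ κ / 64) (hns1 : ns * h ≤ ell k ^ 3)
    {ω : ℕ → boxS d L → ℂ} (hω : RegB κ2 κ3 k h ns y Rb ω)
    (b u : ℕ → boxS d L → ℝ) (c : ℕ → ℝ) (hc : ∀ j, 0 ≤ c j)
    (hb : ∀ j, j < ns → ∀ x, |b j x| ≤ 3 * h ^ (3 / 8 : ℝ))
    (hbc : ∀ j, j < ns → ∀ x, |b j x - ell k * gz k h ω j x| ≤ c j)
    (hcs : ∑ j ∈ Finset.range ns, c j ≤ κ / 32 * ell k)
    (hQ : ∀ j, j < ns → QStep (boxNet d L) β h k (b j) (u j) (u (j + 1)))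
    (z : boxS d L) (hz : (boxNet d L).dist y z ≤ Rb) (hu0 : ∀ v, 0 ≤ u 0 v) (h0 : u 0 z ≤ k ^ κ)
    (hgap : ∀ v, v ≠ z → u 0 v ≤ k ^ (κ - (1 - κ2) * (boxNet d L).dist z v) * u 0 z) :
    ∀ j, j ≤ ns → k ^ (κ / 8) * u 0 z ≤ u j z ∧ u j z ≤ k ^ (-(κ / 8)) * u 0 z ∧
        ∀ v ∈ (boxNet d L).nb z, k * u j v ≤ k ^ (7 / 8 * κ) * u 0 z := by
  obtain ⟨_, hω2, _⟩ := hω
  obtain ⟨hω3, hω4⟩ := hω2 z hz
  refine HA b u z ns hns1 hu0 hQ (fun j hj => hb j hj z) (fun v => ?_) (fun i j hij hj => ?_) h0 hgap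
  · have h1 := Brg2_lppM_add (boxMSet d L) (κ2 / 2) (gz k h ω) (fun j y => b j y / ell k)
      (fun j => c j / ell k) (fun j => div_nonneg (hc j) hell.le) ns (fun j hj x => ?_) v
    · have h2 := hω3 v
      have h3 : ∑ j ∈ Finset.range ns, c j / ell k ≤ κ / 32 := by
        rw [← Finset.sum_div, div_le_iff₀ hell]
        exact hcs
      have h4 : (0 : ℝ) ≤ (boxNet d L).dist z v := Nat.cast_nonneg _
      have h5 : κ3 * (boxNet d L).dist z v ≤ κ2 / 8 * (boxNet d L).dist z v :=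
        mul_le_mul_of_nonneg_right (by linarith) h4
      have h6 : κ3 * (1 + (boxNet d L).dist z v) = κ3 + κ3 * (boxNet d L).dist z v := by ring
      rw [h6] at h2
      linarith
    · have g1 := (abs_le.1 (hbc j hj x)).2
      rw [div_le_iff₀ hell, add_mul, div_mul_cancel₀ _ hell.ne']
      linarith
  · have h1 := hω4 i j hij hj
    have e1 : ∑ l ∈ Finset.Ico i j, b l z = ell k * ∑ l ∈ Finset.Ico i j, gz k h ω l z +
        ∑ l ∈ Finset.Ico i j, (b l z - ell k * gz k h ω l z) := by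
      rw [Finset.mul_sum, ← Finset.sum_add_distrib]
      exact Finset.sum_congr rfl fun l _ => by ring
    rw [e1]
    have h2 : |∑ l ∈ Finset.Ico i j, (b l z - ell k * gz k h ω l z)| ≤
        ∑ l ∈ Finset.range ns, c l := by
      refine (Finset.abs_sum_le_sum_abs _ _).trans ?_
      have h3 : ∑ l ∈ Finset.Ico i j, |b l z - ell k * gz k h ω l z| ≤
          ∑ l ∈ Finset.Ico i j, c l := by
        refine Finset.sum_le_sum fun l hl => hbc l ?_ z
        exact (Finset.mem_Ico.1 hl).2.trans_le hj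
      refine h3.trans (Finset.sum_le_sum_of_subset_of_nonneg ?_ fun l _ _ => hc l)
      intro l hl
      exact Finset.mem_range.2 ((Finset.mem_Ico.1 hl).2.trans_le hj)
    have h3 : |ell k * ∑ l ∈ Finset.Ico i j, gz k h ω l z| ≤ ell k * κ3 := by
      rw [abs_mul, abs_of_pos hell]
      exact mul_le_mul_of_nonneg_left h1 hell.le
    refine (abs_add_le _ _).trans ?_
    have h4 : ell k * κ3 ≤ κ / 64 * ell k := by
      rw [mul_comm]
      exact mul_le_mul_of_nonneg_right hκ3k hell.le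
    have h5 : 0 ≤ κ / 64 * ell k := by positivity
    linarith

/-- logarithmic difference and sizes of the initial configuration -/
private theorem Brg2_init {d L : ℕ} {κ κ2 κd M6 M8 A0 k : ℝ} {Rb : ℕ} {y : boxS d L}
    (hk : 0 < k) (hk1 : k < 1) (hA0 : 0 ≤ A0)
    (hkC : 2 * (5 + κd * ell k) * k ≤ 1) (hκd : 0 ≤ κd * ell k)
    {G : (boxS d L → ℂ) × (boxS d L → ℂ)} (hG : GCfg k κ κ2 κd M6 y Rb G)
    (hprof : ∀ v, ‖G.1 v - G.2 v‖ ≤ A0 * k ^ (-(M8 - 1) + 5 / 8 * (boxNet d L).dist y v))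
    (z : boxS d L) (hz : (boxNet d L).dist y z ≤ Rb) :
    G.1 z ≠ 0 ∧ G.2 z ≠ 0 ∧
      ‖Complex.log (G.2 z / G.1 z)‖ ≤ min (κd * ell k + 4) (k ^ (-(M8 + M6)) * A0) := by
  have hkM : 0 < k ^ M6 := Real.rpow_pos_of_pos hk _
  obtain ⟨hl1, hl2⟩ := hG.low z hz
  obtain ⟨hr1, hr2⟩ := hG.rat z hz
  have n1 : 0 < ‖G.1 z‖ := hkM.trans_le hl1
  have n2 : 0 < ‖G.2 z‖ := hkM.trans_le hl2
  have z1 : G.1 z ≠ 0 := norm_pos_iff.1 n1
  have z2 : G.2 z ≠ 0 := norm_pos_iff.1 n2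
  have hke : k ^ (-κd) = Real.exp (κd * ell k) := by
    rw [Real.rpow_def_of_pos hk, Brg2_elk]
    congr 1
    ring
  rw [hke] at hr1 hr2
  have h1 : ‖Complex.log (G.2 z / G.1 z)‖ ≤ κd * ell k + 4 := Brg2_logq z1 z2 hr1 hr2
  refine ⟨z1, z2, le_min h1 ?_⟩
  have h2 := Brg2_log (G.2 z / G.1 z)
  have h3 : ‖G.2 z / G.1 z - 1‖ ≤ A0 * (k * k ^ (-(M8 + M6))) := by
    have e1 : G.2 z / G.1 z - 1 = (G.2 z - G.1 z) / G.1 z := by
      field_simp
    rw [e1, norm_div, norm_sub_rev, div_le_iff₀ n1]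
    refine (hprof z).trans ?_
    have g1 : k ^ (-(M8 - 1) + 5 / 8 * ((boxNet d L).dist y z : ℝ)) ≤ k ^ (-(M8 - 1)) := by
      refine Real.rpow_le_rpow_of_exponent_ge hk hk1.le ?_
      have : (0 : ℝ) ≤ (boxNet d L).dist y z := Nat.cast_nonneg _
      linarith
    have g2 : k ^ (-(M8 - 1)) = k * k ^ (-(M8 + M6)) * k ^ M6 := by
      nth_rw 2 [← Real.rpow_one k]
      rw [← Real.rpow_add hk, ← Real.rpow_add hk]
      congr 1
      ring
    have g3 : k * k ^ (-(M8 + M6)) * k ^ M6 ≤ k * k ^ (-(M8 + M6)) * ‖G.1 z‖ := by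
      have : 0 < k ^ (-(M8 + M6)) := Real.rpow_pos_of_pos hk _
      exact mul_le_mul_of_nonneg_left hl1 (by positivity)
    calc A0 * k ^ (-(M8 - 1) + 5 / 8 * ((boxNet d L).dist y z : ℝ))
        ≤ A0 * (k * k ^ (-(M8 + M6)) * ‖G.1 z‖) :=
          mul_le_mul_of_nonneg_left ((g1.trans g2.le).trans g3) hA0
      _ = _ := by ring
  have hkp : 0 < k ^ (-(M8 + M6)) := Real.rpow_pos_of_pos hk _
  have h4 : 2 * (1 + ‖Complex.log (G.2 z / G.1 z)‖) ≤ 2 * (5 + κd * ell k) := by linarith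
  calc ‖Complex.log (G.2 z / G.1 z)‖
      ≤ 2 * (1 + ‖Complex.log (G.2 z / G.1 z)‖) * ‖G.2 z / G.1 z - 1‖ := h2
    _ ≤ 2 * (5 + κd * ell k) * (A0 * (k * k ^ (-(M8 + M6)))) :=
        mul_le_mul h4 h3 (norm_nonneg _) (by positivity)
    _ = (2 * (5 + κd * ell k) * k) * (k ^ (-(M8 + M6)) * A0) := by ring
    _ ≤ 1 * (k ^ (-(M8 + M6)) * A0) := mul_le_mul_of_nonneg_right hkC (by positivity)
    _ = _ := one_mul _

private theorem Brg2_size {k κ M6 u0 uj : ℝ} (hk : 0 < k) (hk1 : k < 1) (hκ : 0 < κ)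
    (hκ1 : κ ≤ 1 / 8) (hlow : k ^ M6 ≤ u0) (htop : u0 ≤ k ^ κ) (h1 : k ^ (κ / 8) * u0 ≤ uj)
    (h2 : uj ≤ k ^ (-(κ / 8)) * u0) :
    0 < uj ∧ k ^ (M6 + 1) ≤ uj ∧ uj ≤ k ^ (κ / 2) ∧
      ∀ w, w ≤ k ^ (7 / 8 * κ) * u0 → w ≤ k ^ (κ / 2) * uj := by
  have p1 : 0 < k ^ M6 := Real.rpow_pos_of_pos hk _
  have hu0 : 0 < u0 := p1.trans_le hlow
  have p2 : 0 < k ^ (κ / 8) := Real.rpow_pos_of_pos hk _
  have p3 : 0 < k ^ (-(κ / 8)) := Real.rpow_pos_of_pos hk _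
  have p4 : 0 < k ^ (3 / 4 * κ) := Real.rpow_pos_of_pos hk _
  have huj : 0 < uj := lt_of_lt_of_le (by positivity) h1
  refine ⟨huj, ?_, ?_, ?_⟩
  · have g1 : k ^ (M6 + 1) = k ^ (1 : ℝ) * k ^ M6 := by
      rw [← Real.rpow_add hk]; congr 1; ring
    have g2 : k ^ (1 : ℝ) ≤ k ^ (κ / 8) :=
      Real.rpow_le_rpow_of_exponent_ge hk hk1.le (by linarith)
    rw [g1]
    exact (mul_le_mul g2 hlow p1.le p2.le).trans h1
  · have g1 : k ^ (-(κ / 8)) * k ^ κ = k ^ (7 / 8 * κ) := by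
      rw [← Real.rpow_add hk]; congr 1; ring
    have g2 : k ^ (7 / 8 * κ) ≤ k ^ (κ / 2) :=
      Real.rpow_le_rpow_of_exponent_ge hk hk1.le (by linarith)
    exact (h2.trans (mul_le_mul_of_nonneg_left htop p3.le)).trans (g1.le.trans g2)
  · intro w hw
    have g1 : k ^ (7 / 8 * κ) = k ^ (3 / 4 * κ) * k ^ (κ / 8) := by
      rw [← Real.rpow_add hk]; congr 1; ring
    have g2 : k ^ (3 / 4 * κ) ≤ k ^ (κ / 2) :=
      Real.rpow_le_rpow_of_exponent_ge hk hk1.le (by linarith)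
    rw [g1, mul_assoc] at hw
    exact hw.trans ((mul_le_mul_of_nonneg_left h1 p4.le).trans
      (mul_le_mul_of_nonneg_right g2 huj.le))

/-- bounds of the control -/
private theorem Brg2_cb {k h κ κd κ' A0 m0 ς K1 K2 : ℝ} {ns : ℕ} (hk : 0 < k) (hk1 : k < 1)
    (hell : 0 < ell k) (hκ : 0 < κ) (hκ' : 0 < κ') (hκdk : κd ≤ κ / 64)
    (hh : 0 < h) (hh1 : h ≤ 1) (hns : 1 ≤ ns * h) (hns1 : ns * h ≤ ell k ^ 3)
    (hkl : 320 / κ ≤ ell k) (hk3 : k ^ κ' * ell k ^ 3 ≤ 1)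
    (hm0 : 0 ≤ m0) (hm1 : m0 ≤ κd * ell k + 4) (hm2 : m0 ≤ K1 * A0) (hς0 : 0 ≤ ς)
    (hς1 : ς ≤ h * k ^ κ') (hς2 : ς ≤ h * (K2 * A0)) (hK2 : 0 ≤ K2 * A0) :
    (∀ j, j ≤ ns → 0 ≤ m0 / (ns + 1) + ς * lamS ns j ∧
      m0 / (ns + 1) + ς * lamS ns j ≤
        (κd * ell k + 4 + (1 + 2 * Real.sqrt (2 * ell k ^ 3))) * h ^ (1 / 2 : ℝ) ∧
      m0 / (ns + 1) + ς * lamS ns j ≤
        A0 * ((K1 + (1 + 2 * Real.sqrt (2 * ell k ^ 3)) * K2) * h ^ (1 / 2 : ℝ))) ∧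
    ∑ j ∈ Finset.range ns, (m0 / (ns + 1) + ς * lamS ns j) ≤ κ / 32 * ell k := by
  set Cl : ℝ := 1 + 2 * Real.sqrt (2 * ell k ^ 3) with hCl
  have hns0 : (0 : ℝ) ≤ ns := Nat.cast_nonneg _
  have hns2 : (0 : ℝ) < (ns : ℝ) + 1 := by positivity
  have hlog := Brg2_hlog hh hh1 hns hns1
  rw [← hCl] at hlog
  have hhh : h ≤ h ^ (1 / 2 : ℝ) := by
    have := Real.rpow_le_rpow_of_exponent_ge hh hh1 (show (1 / 2 : ℝ) ≤ 1 by norm_num)
    rwa [Real.rpow_one] at this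
  have hkk : k ^ κ' ≤ 1 := Real.rpow_le_one hk.le hk1.le hκ'.le
  have hm3 : m0 / (ns + 1) ≤ m0 * h := by
    rw [div_le_iff₀ hns2]
    have : m0 * 1 ≤ m0 * (h * (ns + 1)) := by
      refine mul_le_mul_of_nonneg_left ?_ hm0
      have : h * (ns + 1) = ns * h + h := by ring
      linarith
    linarith
  constructor
  · intro j hj
    obtain ⟨l0, l1⟩ := lamS_le ns j hj
    refine ⟨by positivity, ?_, ?_⟩
    · have g1 : m0 * h ≤ (κd * ell k + 4) * h ^ (1 / 2 : ℝ) :=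
        mul_le_mul hm1 hhh hh.le (hm0.trans hm1)
      have g2 : ς * lamS ns j ≤ h * (1 + Real.log (ns + 1)) := by
        refine mul_le_mul (hς1.trans ?_) l1 l0 hh.le
        have := mul_le_mul_of_nonneg_left hkk hh.le
        linarith
      have g3 : (κd * ell k + 4 + Cl) * h ^ (1 / 2 : ℝ) =
        (κd * ell k + 4) * h ^ (1 / 2 : ℝ) + Cl * h ^ (1 / 2 : ℝ) := by ring
      rw [g3]
      linarith
    · have g1 : m0 * h ≤ (K1 * A0) * h ^ (1 / 2 : ℝ) :=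
        mul_le_mul hm2 hhh hh.le (hm0.trans hm2)
      have g2 : ς * lamS ns j ≤ h * (K2 * A0) * (1 + Real.log (ns + 1)) :=
        mul_le_mul hς2 l1 l0 (by positivity)
      have g4 := mul_le_mul_of_nonneg_left hlog hK2
      have g3 : A0 * ((K1 + Cl * K2) * h ^ (1 / 2 : ℝ)) =
        (K1 * A0) * h ^ (1 / 2 : ℝ) + (K2 * A0) * (Cl * h ^ (1 / 2 : ℝ)) := by ring
      rw [g3]
      linarith
  · rw [Finset.sum_add_distrib, ← Finset.mul_sum, Finset.sum_const, Finset.card_range,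
      nsmul_eq_mul]
    have g1 : (ns : ℝ) * (m0 / (ns + 1)) ≤ m0 := by
      rw [mul_div_assoc', div_le_iff₀ hns2]
      linarith
    have g2 : ς * ∑ j ∈ Finset.range ns, lamS ns j ≤ 1 := by
      have g3 : ς * ∑ j ∈ Finset.range ns, lamS ns j ≤ ς * ns :=
        mul_le_mul_of_nonneg_left (lamS_sum ns) hς0
      have g4 : ς * ns ≤ h * k ^ κ' * ns := mul_le_mul_of_nonneg_right hς1 hns0
      have g5 : h * k ^ κ' * ns = k ^ κ' * (ns * h) := by ring
      have g6 : k ^ κ' * (ns * h) ≤ k ^ κ' * ell k ^ 3 :=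
        mul_le_mul_of_nonneg_left hns1 (Real.rpow_nonneg hk.le _)
      linarith
    have g3 : κd * ell k ≤ κ / 64 * ell k := mul_le_mul_of_nonneg_right hκdk hell.le
    have g4 : 5 ≤ κ / 64 * ell k := by
      rw [div_le_iff₀ hκ] at hkl
      linarith
    linarith

/-- difference at a site of the ball from the logarithmic difference -/
private theorem Brg2_dlog {a b : ℂ} {e : ℝ} (ha : a ≠ 0) (hb : b ≠ 0) (ha1 : ‖a‖ ≤ 1)
    (h1 : ‖Complex.log (b / a)‖ ≤ e) (he : e ≤ 1) : ‖a - b‖ ≤ 2 * e := by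
  have h2 : b = a * Complex.exp (Complex.log (b / a)) := by
    rw [Complex.exp_log (div_ne_zero hb ha)]
    field_simp
  have h3 : a - b = -(a * (Complex.exp (Complex.log (b / a)) - 1)) := by
    have e1 : -(a * (Complex.exp (Complex.log (b / a)) - 1)) =
        a - a * Complex.exp (Complex.log (b / a)) := by ring
    rw [e1, ← h2]
  rw [h3, norm_neg, norm_mul]
  have h4 := Complex.norm_exp_sub_one_le (h1.trans he)
  have h5 : ‖a‖ * ‖Complex.exp (Complex.log (b / a)) - 1‖ ≤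
      1 * ‖Complex.exp (Complex.log (b / a)) - 1‖ :=
    mul_le_mul_of_nonneg_right ha1 (norm_nonneg _)
  linarith

theorem brg_reg (d : ℕ) (β : ℝ) (hβ : 0 < β) (κ κ2 κ3 κd M6 M8 : ℝ) (Rb : ℕ) (hκ : 0 < κ)
    (hκ1 : κ ≤ 1 / 8) (hκ2 : 0 < κ2) (hκ21 : κ2 ≤ 1 / 8) (hκ3 : 0 < κ3) (hκ32 : κ3 ≤ κ2 / 16)
    (hκ3k : κ3 ≤ κ / 64) (hκd : 0 < κd) (hκdk : κd ≤ κ / 64) (hM6 : 0 ≤ M6) (hM8 : 1 ≤ M8) :
    ∃ k0 : ℝ, 0 < k0 ∧ k0 < 1 ∧ ∀ k, 0 < k → k < k0 → ∃ h0 : ℝ, 0 < h0 ∧ ∀ h, 0 < h → h < h0 →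
    ∀ (L : ℕ) (y : boxS d L) (A0 : ℝ) (ns : ℕ), 0 ≤ A0 → 1 ≤ ns * h → ns * h ≤ ell k ^ 3 →
    ∀ (G : (boxS d L → ℂ) × (boxS d L → ℂ)), GCfg k κ κ2 κd M6 y Rb G →
      (∀ v, ‖G.1 v - G.2 v‖ ≤ A0 * k ^ (-(M8 - 1) + 5 / 8 * (boxNet d L).dist y v)) →
    ∀ ω : ℕ → boxS d L → ℂ, RegB κ2 κ3 k h ns y Rb ω →
      (∀ j, j ≤ ns → (bpar β k h κ κd M6 M8 A0 ns Rb y).RegSt k j
        (trajT ((bpar β k h κ κd M6 M8 A0 ns Rb y).bst β k h) G ω j)) ∧
      ∀ v, ‖(trajT ((bpar β k h κ κd M6 M8 A0 ns Rb y).bst β k h) G ω ns).1 v -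
          (trajT ((bpar β k h κ κd M6 M8 A0 ns Rb y).bst β k h) G ω ns).2 v‖ ≤
        A0 * Real.exp (ell k * (M8 - max ((boxNet d L).dist y v : ℝ) Rb / 2)) := by
  have hκ' : 0 < min 1 β * κ / 8 := by
    have := lt_min one_pos hβ
    positivity
  obtain ⟨ka, ka0, ka1, HA⟩ := brg_one d β κ κ2 hβ hκ hκ1 hκ2 hκ21
  obtain ⟨kb, kb0, kb1, HB⟩ := brg_step d β hβ κ M6 M8 hκ
  obtain ⟨kc, kc0, kc1, HC⟩ := brg_dif d β hβ κ M6 M8 hκ hκ1 hM8
  obtain ⟨kd, kd0, HK⟩ := Brg2_ev ((Brg2_ell (320 / κ)).and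
    ((Brg2_powell 1 (a := min 1 β * κ / 8 / 3) (δ := 1) (by positivity) one_pos).and
    ((Brg2_powell (2 * κd) (a := 1) (δ := 1 / 2) one_pos (by norm_num)).and
    (Brg2_pow 10 (a := 1) (δ := 1 / 2) one_pos (by norm_num)))))
  refine ⟨min (min ka kb) (min kc kd), lt_min (lt_min ka0 kb0) (lt_min kc0 kd0),
    (min_le_left _ _).trans_lt ((min_le_left _ _).trans_lt ka1), ?_⟩
  intro k hk hkk
  have hka : k < ka := hkk.trans_le ((min_le_left _ _).trans (min_le_left _ _))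
  have hkb : k < kb := hkk.trans_le ((min_le_left _ _).trans (min_le_right _ _))
  have hkc : k < kc := hkk.trans_le ((min_le_right _ _).trans (min_le_left _ _))
  have hkd : k < kd := hkk.trans_le ((min_le_right _ _).trans (min_le_right _ _))
  have hk1 : k < 1 := hka.trans ka1
  obtain ⟨K1, K2, K3, K4⟩ := HK k hk hkd
  rw [Real.rpow_one] at K3 K4
  have hell : 0 < ell k := by
    rw [Brg2_elk]
    have := Real.log_neg hk hk1
    linarith
  have hk3 : k ^ (min 1 β * κ / 8) * ell k ^ 3 ≤ 1 := by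
    have e1 : k ^ (min 1 β * κ / 8) * ell k ^ 3 = (1 * k ^ (min 1 β * κ / 8 / 3) * ell k) ^ 3 := by
      rw [one_mul, mul_pow, ← Real.rpow_natCast (k ^ (min 1 β * κ / 8 / 3)) 3,
        ← Real.rpow_mul hk.le]
      congr 2
      push_cast
      ring
    rw [e1]
    refine pow_le_one₀ ?_ K2
    have := Real.rpow_nonneg hk.le (min 1 β * κ / 8 / 3)
    positivity
  have hkC : 2 * (5 + κd * ell k) * k ≤ 1 := by
    have e1 : 2 * (5 + κd * ell k) * k = 10 * k + 2 * κd * k * ell k := by ring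
    rw [e1]
    linarith
  obtain ⟨ha, ha0, HA⟩ := HA k hk hka
  obtain ⟨hb, hb0, HB⟩ := HB k hk hkb
  obtain ⟨hc, hc0, HC⟩ := HC k hk hkc
  set Cl : ℝ := 1 + 2 * Real.sqrt (2 * ell k ^ 3) with hCl
  set q1 : ℝ := k ^ (-(M8 + M6)) with hq1
  set q2 : ℝ := k ^ (-(M8 + 2 * M6 + 4)) with hq2
  have hq10 : 0 < q1 := Real.rpow_pos_of_pos hk _
  have hq20 : 0 < q2 := Real.rpow_pos_of_pos hk _
  have hRp : 0 < k ^ (-M8 + (Rb : ℝ) / 2) := Real.rpow_pos_of_pos hk _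
  obtain ⟨hd, hd0, HH⟩ := Brg2_ev ((Brg2_pow (κd * ell k + 4 + Cl) (a := 1 / 8) (δ := 1)
    (by norm_num) one_pos).and (Brg2_pow (2 * (q1 + Cl * q2)) (a := 1 / 2)
    (δ := k ^ (-M8 + (Rb : ℝ) / 2)) (by norm_num) hRp))
  refine ⟨min (min ha hb) (min hc (min hd 1)), lt_min (lt_min ha0 hb0)
    (lt_min hc0 (lt_min hd0 one_pos)), ?_⟩
  intro h hh hhh L y A0 ns hA0 hns hns1 G hG hprof ω hω
  have hha : h < ha := hhh.trans_le ((min_le_left _ _).trans (min_le_left _ _))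
  have hhb : h < hb := hhh.trans_le ((min_le_left _ _).trans (min_le_right _ _))
  have hhc : h < hc := hhh.trans_le ((min_le_right _ _).trans (min_le_left _ _))
  have hhd : h < hd := hhh.trans_le ((min_le_right _ _).trans ((min_le_right _ _).trans
    (min_le_left _ _)))
  have hh1 : h < 1 := hhh.trans_le ((min_le_right _ _).trans ((min_le_right _ _).trans
    (min_le_right _ _)))
  obtain ⟨H1, H2⟩ := HH h hh hhd
  have HA' : Brg2_O d L β κ κ2 k h := HA h hh hha L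
  have HB' := HB h hh hhb L
  have HC' := HC h hh hhc L
  obtain ⟨P, hP⟩ : ∃ P : BPar d L, P = bpar β k h κ κd M6 M8 A0 ns Rb y := ⟨_, rfl⟩
  rw [← hP]
  have hOK : P.OK β k h := by
    rw [hP]
    exact Brg2_OK y hk hell.le hκ hκ1 hκd hκdk hM6 hM8 hA0 hns hns1
  have eκ : P.κ = κ := by rw [hP]; rfl
  have eM6 : P.M6 = M6 := by rw [hP]; rfl
  have eM8 : P.M8 = M8 := by rw [hP]; rfl
  have eA0 : P.A0 = A0 := by rw [hP]; rfl
  have ens : P.ns = ns := by rw [hP]; rfl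
  have ey : P.y = y := by rw [hP]; rfl
  have eRb : P.Rb = Rb := by rw [hP]; rfl
  have em0 : P.m0 = min (κd * ell k + 4) (q1 * A0) := by rw [hP]; rfl
  have eς : P.ς = h * min (k ^ (min 1 β * κ / 8)) (q2 * A0) := by rw [hP]; rfl
  have hm0 := hOK.hm0
  have hq2A : 0 ≤ q2 * A0 := by positivity
  have hς0 : 0 ≤ P.ς := by
    rw [eς]
    exact mul_nonneg hh.le (le_min (Real.rpow_nonneg hk.le _) hq2A)
  -- bounds of the control
  obtain ⟨hcb, hcs⟩ := Brg2_cb (m0 := P.m0) (ς := P.ς) (K1 := q1) (K2 := q2) (A0 := A0)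
    (κd := κd) (ns := ns) (κ' := min 1 β * κ / 8) hk hk1 hell hκ hκ' hκdk hh hh1.le hns hns1
    K1 hk3 hm0 (by rw [em0]; exact min_le_left _ _) (by rw [em0]; exact min_le_right _ _) hς0
    (by rw [eς]; exact mul_le_mul_of_nonneg_left (min_le_left _ _) hh.le)
    (by rw [eς]; exact mul_le_mul_of_nonneg_left (min_le_right _ _) hh.le) hq2A
  rw [← hCl] at hcb
  have hC1 : (κd * ell k + 4 + Cl) * h ^ (1 / 2 : ℝ) ≤ h ^ (3 / 8 : ℝ) := by
    have e1 : h ^ (1 / 2 : ℝ) = h ^ (1 / 8 : ℝ) * h ^ (3 / 8 : ℝ) := by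
      rw [← Real.rpow_add hh]; norm_num
    rw [e1, ← mul_assoc]
    have := mul_le_mul_of_nonneg_right H1 (Real.rpow_nonneg hh.le (3 / 8 : ℝ))
    linarith only [this]
  have hh38 : h ^ (3 / 8 : ℝ) ≤ 1 := Real.rpow_le_one hh.le hh1.le (by norm_num)
  -- the trajectory
  obtain ⟨Z, hZ⟩ : ∃ Z : ℕ → (boxS d L → ℂ) × (boxS d L → ℂ),
      Z = trajT (P.bst β k h) G ω := ⟨_, rfl⟩
  have hZ0 : Z 0 = G := by rw [hZ]; rfl
  have hZs : ∀ j, Z (j + 1) = P.bst β k h j (Z j) (ω j) := fun j => by rw [hZ]; rfl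
  rw [← hZ]
  have hgd : ∀ j, j < ns → ∀ x, Real.sqrt h * ‖ω j x‖ ≤ h ^ (3 / 8 : ℝ) := fun j hj x =>
    hω.1 j hj x
  have hb1 : ∀ j, j < ns → ∀ x, |bC h (ω j x)| ≤ h ^ (3 / 8 : ℝ) := by
    intro j hj x
    unfold bC
    rw [abs_mul, abs_of_nonneg (Real.sqrt_nonneg h)]
    exact (mul_le_mul_of_nonneg_left (Complex.abs_re_le_norm _) (Real.sqrt_nonneg h)).trans
      (hgd j hj x)
  have hgz : ∀ j x, ell k * gz k h ω j x = bC h (ω j x) := by
    intro j x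
    unfold gz bC
    rw [mul_div_cancel₀ _ hell.ne']
  have hctl : ∀ j, j < ns → ∀ x, |bC h (ω j x + P.ctl k h j (Z j) x) - bC h (ω j x)| ≤
      P.m0 / (ns + 1) + P.ς * lamS ns j := by
    intro j hj x
    have g1 := ctl_le P k h hh hm0 hς0 j (Z j) x
    rw [ens, if_pos hj] at g1
    refine le_trans ?_ g1
    have e1 : bC h (ω j x + P.ctl k h j (Z j) x) - bC h (ω j x) =
        Real.sqrt h * (P.ctl k h j (Z j) x).re := by
      unfold bC
      rw [Complex.add_re]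
      ring
    rw [e1, abs_mul, abs_of_nonneg (Real.sqrt_nonneg h)]
    exact mul_le_mul_of_nonneg_left (Complex.abs_re_le_norm _) (Real.sqrt_nonneg h)
  have h3p : 0 ≤ h ^ (3 / 8 : ℝ) := Real.rpow_nonneg hh.le _
  -- growth of the two components
  have F1 : ∀ z, P.Bs z → ∀ j, j ≤ ns → k ^ (κ / 8) * ‖G.1 z‖ ≤ ‖(Z j).1 z‖ ∧
      ‖(Z j).1 z‖ ≤ k ^ (-(κ / 8)) * ‖G.1 z‖ ∧
      ∀ v ∈ (boxNet d L).nb z, k * ‖(Z j).1 v‖ ≤ k ^ (7 / 8 * κ) * ‖G.1 z‖ := by
    intro z hz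
    have hz' : (boxNet d L).dist y z ≤ Rb := by rw [← ey, ← eRb]; exact hz
    have g := Brg2_comp HA' hell hκ hκ3 hκ32 hκ3k hns1 hω (fun j x => bC h (ω j x))
      (fun j => nrm (Z j).1) (fun _ => 0) (fun _ => le_rfl)
      (fun j hj x => (hb1 j hj x).trans (by linarith only [h3p]))
      (fun j _ x => by rw [hgz, sub_self, abs_zero]) (by
        rw [Finset.sum_const_zero]
        positivity)
      (fun j _ => by
        have := st2_q d hβ hk.le hh L (Z j).1 (ω j)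
        have e1 : (Z (j + 1)).1 = st2 d β k h L (Z j).1 (ω j) := by rw [hZs]; rfl
        rw [e1]
        exact this) z hz' (fun v => norm_nonneg _)
      (by
        show ‖(Z 0).1 z‖ ≤ k ^ κ
        rw [hZ0]
        exact (hG.top z hz').1)
      (by
        intro v hv
        show ‖(Z 0).1 v‖ ≤ _ * ‖(Z 0).1 z‖
        rw [hZ0]
        exact (hG.gap z hz' v hv).1)
    intro j hj
    have g' := g j hj
    simp only [nrm, hZ0] at g'
    exact g'
  have F2 : ∀ z, P.Bs z → ∀ j, j ≤ ns → k ^ (κ / 8) * ‖G.2 z‖ ≤ ‖(Z j).2 z‖ ∧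
      ‖(Z j).2 z‖ ≤ k ^ (-(κ / 8)) * ‖G.2 z‖ ∧
      ∀ v ∈ (boxNet d L).nb z, k * ‖(Z j).2 v‖ ≤ k ^ (7 / 8 * κ) * ‖G.2 z‖ := by
    intro z hz
    have hz' : (boxNet d L).dist y z ≤ Rb := by rw [← ey, ← eRb]; exact hz
    have g := Brg2_comp HA' hell hκ hκ3 hκ32 hκ3k hns1 hω
      (fun j x => bC h (ω j x + P.ctl k h j (Z j) x))
      (fun j => nrm (Z j).2)
      (fun j => if j < ns then P.m0 / (ns + 1) + P.ς * lamS ns j else 0)
      (fun j => by
        by_cases hj : j < ns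
        · rw [if_pos hj]
          exact (hcb j hj.le).1
        · rw [if_neg hj])
      (fun j hj x => by
        have g1 := hctl j hj x
        have g2 := hb1 j hj x
        have g3 := (hcb j hj.le).2.1
        have g4 : |bC h (ω j x + P.ctl k h j (Z j) x)| ≤ |bC h (ω j x)| +
            |bC h (ω j x + P.ctl k h j (Z j) x) - bC h (ω j x)| := by
          have := abs_add_le (bC h (ω j x)) (bC h (ω j x + P.ctl k h j (Z j) x) - bC h (ω j x))
          rwa [add_sub_cancel] at this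
        linarith only [hC1, h3p, g1, g2, g3, g4])
      (fun j hj x => by rw [hgz, if_pos hj]; exact hctl j hj x) (by
        refine le_trans (le_of_eq ?_) hcs
        exact Finset.sum_congr rfl fun j hj => if_pos (Finset.mem_range.1 hj))
      (fun j _ => by
        have := st2_q d hβ hk.le hh L (Z j).2 (fun z => ω j z + P.ctl k h j (Z j) z)
        have e1 : (Z (j + 1)).2 = st2 d β k h L (Z j).2 (fun z => ω j z + P.ctl k h j (Z j) z) := by
          rw [hZs]; rfl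
        rw [e1]
        exact this) z hz' (fun v => norm_nonneg _)
      (by
        show ‖(Z 0).2 z‖ ≤ k ^ κ
        rw [hZ0]
        exact (hG.top z hz').2)
      (by
        intro v hv
        show ‖(Z 0).2 v‖ ≤ _ * ‖(Z 0).2 z‖
        rw [hZ0]
        exact (hG.gap z hz' v hv).2)
    intro j hj
    have g' := g j hj
    simp only [nrm, hZ0] at g'
    exact g'
  have hreg : ∀ j, j ≤ ns → P.RegSt k j (Z j) := by
    intro j
    induction j using Nat.strong_induction_on with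
    | _ j IH =>
      intro hj
      -- profile
      have hpr := HC' P eκ eM6 eM8 hOK G ω j (by rw [ens]; exact hj)
        (fun i hi x => hω.1 i (by rw [← ens]; exact hi) x)
        (fun i hi => by rw [← hZ]; exact IH i hi (hi.le.trans hj))
        (fun z hz i i' hii' hi'j => by
          rw [← hZ]
          have g1 := (F2 z hz i' (hi'j.trans hj)).2.1
          have g2 := (F2 z hz i (hii'.trans (hi'j.trans hj))).1
          have g3 : k ^ (-(κ / 8)) * ‖G.2 z‖ =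
              k ^ (-(κ / 4)) * (k ^ (κ / 8) * ‖G.2 z‖) := by
            rw [← mul_assoc, ← Real.rpow_add hk]
            congr 2
            ring
          rw [g3] at g1
          exact g1.trans (mul_le_mul_of_nonneg_left g2 (Real.rpow_nonneg hk.le _)))
        (fun v => by rw [ens, ey]; exact hω.2.2 v)
        (fun z hz v hv => by
          have hz' : (boxNet d L).dist y z ≤ Rb := by rw [← ey, ← eRb]; exact hz
          rw [ens]
          refine (Brg2_lppM_anti (boxMSet d L) (show κ2 / 2 ≤ 1 / 8 by linarith only [hκ1, hκ21, hκ3, hκ3k]) _ ns v).trans ?_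
          refine ((hω.2.1 z hz').1 v).trans ?_
          have : ((boxNet d L).dist z v : ℝ) ≤ 1 := by exact_mod_cast hv
          have g1 : κ3 * (1 + ((boxNet d L).dist z v : ℝ)) ≤ κ3 * 2 :=
            mul_le_mul_of_nonneg_left (by linarith only [this]) hκ3.le
          linarith only [hκ3, hκ3k, g1])
        (fun v => by rw [eA0, eM8, ey]; exact hprof v)
      rw [← hZ] at hpr
      refine ⟨fun z hz => ?_, hpr⟩
      have hz' : (boxNet d L).dist y z ≤ Rb := by rw [← ey, ← eRb]; exact hz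
      obtain ⟨a1, a2, a3⟩ := F1 z hz j hj
      obtain ⟨b1, b2, b3⟩ := F2 z hz j hj
      obtain ⟨s1, s2, s3, s4⟩ := Brg2_size hk hk1 hκ hκ1 (hG.low z hz').1 (hG.top z hz').1 a1 a2
      obtain ⟨t1, t2, t3, t4⟩ := Brg2_size hk hk1 hκ hκ1 (hG.low z hz').2 (hG.top z hz').2 b1 b2
      rw [eM6, eκ]
      refine ⟨norm_pos_iff.1 s1, norm_pos_iff.1 t1, ?_, s2, s3, t2, t3,
        fun v hv => ⟨s4 _ (a3 v hv), t4 _ (b3 v hv)⟩⟩
      rcases Nat.eq_zero_or_pos j with h0 | h0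
      · subst h0
        rw [hZ0]
        have g1 := (Brg2_init hk hk1 hA0 hkC (by positivity) hG hprof z hz').2.2
        have e1 : P.bd 0 = min (κd * ell k + 4) (q1 * A0) := by
          unfold BPar.bd
          rw [em0, ens]
          have : (0 : ℝ) < (ns : ℝ) + 1 := by positivity
          unfold lamS
          simp only [Finset.range_zero, Finset.sum_empty, mul_zero, add_zero, Nat.cast_zero,
            sub_zero]
          rw [div_mul_cancel₀ _ this.ne']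
        rw [e1]
        exact g1
      · obtain ⟨i, rfl⟩ : ∃ i, j = i + 1 := ⟨j - 1, by omega⟩
        have g1 := HB' P eκ eM6 eM8 hOK i (by rw [ens]; omega) (Z i)
          (IH i (Nat.lt_succ_self i) (by omega)) (ω i) z hz (hgd i (by omega) z)
        rw [hZs]
        exact g1.2.2
  refine ⟨fun j hj => hreg j hj, fun v => ?_⟩
  have hR := hreg ns le_rfl
  have hkexp : ∀ a : ℝ, k ^ a = Real.exp (ell k * (-a)) := by
    intro a
    rw [Real.rpow_def_of_pos hk, Brg2_elk]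
    congr 1
    ring
  rcases le_or_gt ((boxNet d L).dist y v) Rb with hv | hv
  · have hBv : P.Bs v := by
      show (boxNet d L).dist P.y v ≤ P.Rb
      rw [ey, eRb]
      exact hv
    obtain ⟨r1, r2, r3, r4, r5, _⟩ := hR.1 v hBv
    obtain ⟨c0, c1, c2⟩ := hcb ns le_rfl
    have e1 : P.bd ns = P.m0 / (ns + 1) + P.ς * lamS ns ns := by
      unfold BPar.bd
      rw [ens]
      ring
    rw [e1] at r3
    have g1 : ‖(Z ns).1 v‖ ≤ 1 := by
      refine r5.trans (Real.rpow_le_one hk.le hk1.le ?_)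
      rw [eκ]
      linarith only [hκ3, hκ3k]
    have g2 := Brg2_dlog r1 r2 g1 r3 (c1.trans (hC1.trans hh38))
    refine g2.trans ?_
    have e2 : max ((boxNet d L).dist y v : ℝ) Rb = Rb := max_eq_right (by exact_mod_cast hv)
    rw [e2]
    have e3 : Real.exp (ell k * (M8 - (Rb : ℝ) / 2)) = k ^ (-M8 + (Rb : ℝ) / 2) := by
      rw [hkexp]
      congr 2
      ring
    rw [e3]
    have g3 := mul_le_mul_of_nonneg_left H2 hA0
    have e4 : A0 * (2 * (q1 + Cl * q2) * h ^ (1 / 2 : ℝ)) =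
        2 * (A0 * ((q1 + Cl * q2) * h ^ (1 / 2 : ℝ))) := by ring
    rw [e4] at g3
    linarith only [c2, g3]
  · have e2 : max ((boxNet d L).dist y v : ℝ) Rb = (boxNet d L).dist y v :=
      max_eq_left (by exact_mod_cast hv.le)
    rw [e2]
    refine (hR.2 v).trans ?_
    rw [eA0, eM8, ey, hkexp]
    refine mul_le_mul_of_nonneg_left (Real.exp_le_exp.2 (le_of_eq ?_)) hA0
    ring

end DynC

end
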