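import Pool.Agent.Lib_MP_36b788_n.M13
import Pool.Agent.Lib_MP_36b788_n.M20
import Pool.Agent.Lib_MP_36b788_n.M24

set_option linter.unusedVariables false

/-!
# MP_36b788_pr, stationary limit: merged library part M43

Concatenation of smaller files (each in its own section), only to save build time.
-/

/-! ### from `Lib_MP_36b788c.VM0` -/

section

/-!
# Controlled pair and resampled pair: basic facts

PROOF.
* `PI_prod`: the image of `PI μ ⊗ PI ν` under `(ω, ω') ↦ (j ↦ (ω j, ω' j))` is `PI (μ ⊗ ν)` (check on boxes, uniqueness of the infinite product), then Tonelli.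
* `rst`: step of the resampled pair with noise `(p.1, p.2)`; `rst_traj`: induction on `n`.
* `measurableSet_alvC`, `measurableSet_alvR`: `measurable_trajT`, `measurable_bst`, `measurable_traj`, `measurable_res`.
* `lin_ctl`: `λ_j = m0/(ns+1) + ς lamS ns j` for `j < ns`, `0` otherwise; `‖√h ctl‖ ≤ λ_j` (`ctl_le`). `‖(Z (j+1)).i x‖ ≤ e^{b x + λ_j}‖(Z j).i x‖ + k h cpl` (`st2_u`), so `E Σ_x ≤ e^{λ_j}(1 + C h)` times the previous value (`E e^{b} = e^{h/2}`), `Σ λ_j ≤ m0 + ς ns ≤ (κ/16) ell + 5` (`lamS_sum`, `OK`): the constant `CL` depends on `k`.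
-/

open MeasureTheory ProbabilityTheory
open scoped ENNReal

namespace DynC

open Dyn

private theorem VM0_lint_prod {X : Type} [MeasurableSpace X] (μ : Measure X)
    [IsProbabilityMeasure μ] (s : Finset ℕ) (g : ℕ → X → ℝ≥0∞) (hg : ∀ i, Measurable (g i)) :
    ∫⁻ ω, ∏ i ∈ s, g i (ω i) ∂(PI μ) = ∏ i ∈ s, ∫⁻ x, g i x ∂μ := by
  have h1 : iIndepFun (fun (i : ℕ) (ω : ℕ → X) => g i (ω i)) (PI μ) := by
    unfold PI
    exact iIndepFun_infinitePi (X := g) (fun i => hg i)
  rw [lintegral_prod_eq_prod_lintegral_of_indepFun s _ h1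
    (fun i => (hg i).comp (measurable_pi_apply i))]
  refine Finset.prod_congr rfl fun i _ => ?_
  rw [← lintegral_map (hg i) (measurable_pi_apply i), map_coord]

private theorem VM0_meas_pair {X Y : Type} [MeasurableSpace X] [MeasurableSpace Y] :
    Measurable fun q : (ℕ → X) × (ℕ → Y) => fun j : ℕ => (q.1 j, q.2 j) := by
  refine measurable_pi_iff.mpr fun j => ?_
  exact ((measurable_pi_apply j).comp measurable_fst).prodMk
    ((measurable_pi_apply j).comp measurable_snd)

private theorem VM0_map {X Y : Type} [MeasurableSpace X] [MeasurableSpace Y] (μ : Measure X)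
    (ν : Measure Y) [IsProbabilityMeasure μ] [IsProbabilityMeasure ν] :
    ((PI μ).prod (PI ν)).map (fun q : (ℕ → X) × (ℕ → Y) => fun j : ℕ => (q.1 j, q.2 j)) =
      PI (μ.prod ν) := by
  conv_rhs => unfold PI
  refine Measure.eq_infinitePi _ ?_
  intro s t ht
  have hbox := MeasurableSet.pi s.countable_toSet (fun i _ => ht i)
  rw [Measure.map_apply VM0_meas_pair hbox, Measure.prod_apply (VM0_meas_pair hbox)]
  have h1 : ∀ ω : ℕ → X, (PI ν) (Prod.mk ω ⁻¹'
      ((fun q : (ℕ → X) × (ℕ → Y) => fun j : ℕ => (q.1 j, q.2 j)) ⁻¹' ((s : Set ℕ).pi t))) =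
      ∏ i ∈ s, ν (Prod.mk (ω i) ⁻¹' t i) := by
    intro ω
    have h2 : (Prod.mk ω ⁻¹'
      ((fun q : (ℕ → X) × (ℕ → Y) => fun j : ℕ => (q.1 j, q.2 j)) ⁻¹' ((s : Set ℕ).pi t))) =
      (s : Set ℕ).pi (fun i => Prod.mk (ω i) ⁻¹' t i) := by
      ext ω'
      simp only [Set.mem_preimage, Set.mem_pi]
    rw [h2]
    unfold PI
    exact Measure.infinitePi_pi _ (fun i _ => measurable_prodMk_left (ht i))
  rw [lintegral_congr h1]
  rw [VM0_lint_prod μ s (fun i x => ν (Prod.mk x ⁻¹' t i))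
    (fun i => measurable_measure_prodMk_left (ht i))]
  refine Finset.prod_congr rfl fun i _ => ?_
  rw [Measure.prod_apply (ht i)]

theorem PI_prod {X Y : Type} [MeasurableSpace X] [MeasurableSpace Y] (μ : Measure X)
    (ν : Measure Y) [IsProbabilityMeasure μ] [IsProbabilityMeasure ν]
    (F : (ℕ → X) → (ℕ → Y) → ℝ≥0∞)
    (hF : Measurable fun p : (ℕ → X) × (ℕ → Y) => F p.1 p.2) :
    ∫⁻ ω, ∫⁻ ω', F ω ω' ∂(PI ν) ∂(PI μ) =
      ∫⁻ p, F (fun j => (p j).1) (fun j => (p j).2) ∂(PI (μ.prod ν)) := by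
  have hm : Measurable fun p : ℕ → X × Y =>
      ((fun j => (p j).1, fun j => (p j).2) : (ℕ → X) × (ℕ → Y)) := by
    refine Measurable.prodMk ?_ ?_
    · exact measurable_pi_iff.mpr fun j => measurable_fst.comp (measurable_pi_apply j)
    · exact measurable_pi_iff.mpr fun j => measurable_snd.comp (measurable_pi_apply j)
  have hc : Measurable fun p : ℕ → X × Y => F (fun j => (p j).1) (fun j => (p j).2) :=
    hF.comp hm
  rw [← VM0_map μ ν, lintegral_map hc VM0_meas_pair]
  rw [lintegral_lintegral hF.aemeasurable]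

private theorem VM0_mgd (h : ℝ) : MeasurableSet (gdC h) :=
  measurableSet_le (measurable_norm.const_mul _) measurable_const

/-- step of the resampled pair -/
noncomputable def rst (d : ℕ) (β k h : ℝ) (L : ℕ) (Bs : boxS d L → Prop) (ns : ℕ) (j : ℕ)
    (G : (boxS d L → ℂ) × (boxS d L → ℂ)) (p : (boxS d L → ℂ) × (boxS d L → ℂ)) :
    (boxS d L → ℂ) × (boxS d L → ℂ) :=
  (st2 d β k h L G.1 p.1,
    st2 d β k h L G.2 (fun z => open Classical in if j < ns ∧ Bs z then p.2 z else p.1 z))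

theorem rst_traj (d : ℕ) (β k h : ℝ) (L : ℕ) (Bs : boxS d L → Prop) (ns : ℕ)
    (G : (boxS d L → ℂ) × (boxS d L → ℂ)) (ω ω' : ℕ → boxS d L → ℂ) (n : ℕ) :
    trajT (rst d β k h L Bs ns) G (fun j => (ω j, ω' j)) n =
      (traj (st2 d β k h L) G.1 ω n, traj (st2 d β k h L) G.2 (res Bs ns ω ω') n) := by
  induction n with
  | zero => rfl
  | succ n ih =>
    show rst d β k h L Bs ns n (trajT (rst d β k h L Bs ns) G (fun j => (ω j, ω' j)) n)
      (ω n, ω' n) = (st2 d β k h L (traj (st2 d β k h L) G.1 ω n) (ω n),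
        st2 d β k h L (traj (st2 d β k h L) G.2 (res Bs ns ω ω') n) (res Bs ns ω ω' n))
    rw [ih]
    rfl

/-- alive controlled pair -/
def alvC {d L : ℕ} (P : BPar d L) (β k h : ℝ) (G : (boxS d L → ℂ) × (boxS d L → ℂ)) (n : ℕ) :
    Set (ℕ → boxS d L → ℂ) :=
  {ω | (∀ j, j < n → ∀ x, ω j x ∈ gdC h) ∧
    ∀ j, j ≤ n → ∀ x, ‖(trajT (P.bst β k h) G ω j).1 x‖ ≤ rad β h ∧
      ‖(trajT (P.bst β k h) G ω j).2 x‖ ≤ rad β h}

theorem measurableSet_alvC {d L : ℕ} (P : BPar d L) (β k h : ℝ)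
    (G : (boxS d L → ℂ) × (boxS d L → ℂ)) (n : ℕ) : MeasurableSet (alvC P β k h G n) := by
  have ht : ∀ j, Measurable fun ω : ℕ → boxS d L → ℂ => trajT (P.bst β k h) G ω j := fun j =>
    (measurable_trajT (P.bst β k h) (fun j => measurable_bst P β k h j) j).comp
      (measurable_const.prodMk measurable_id)
  have e : alvC P β k h G n = (⋂ j : ℕ, ⋂ (_ : j < n), ⋂ x : boxS d L,
      {ω : ℕ → boxS d L → ℂ | ω j x ∈ gdC h}) ∩
      (⋂ j : ℕ, ⋂ (_ : j ≤ n), ⋂ x : boxS d L,
        ({ω : ℕ → boxS d L → ℂ | ‖(trajT (P.bst β k h) G ω j).1 x‖ ≤ rad β h} ∩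
          {ω | ‖(trajT (P.bst β k h) G ω j).2 x‖ ≤ rad β h})) := by
    ext ω
    simp only [alvC, Set.mem_setOf_eq, Set.mem_inter_iff, Set.mem_iInter]
  rw [e]
  refine MeasurableSet.inter ?_ ?_
  · refine MeasurableSet.iInter fun j => MeasurableSet.iInter fun _ =>
      MeasurableSet.iInter fun x => ?_
    exact ((measurable_pi_apply x).comp (measurable_pi_apply j)) (VM0_mgd h)
  · refine MeasurableSet.iInter fun j => MeasurableSet.iInter fun _ =>
      MeasurableSet.iInter fun x => MeasurableSet.inter ?_ ?_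
    · exact measurableSet_le (((measurable_pi_apply x).comp (measurable_fst.comp (ht j))).norm)
        measurable_const
    · exact measurableSet_le (((measurable_pi_apply x).comp (measurable_snd.comp (ht j))).norm)
        measurable_const

/-- alive resampled pair -/
def alvR (d : ℕ) (β k h : ℝ) (L : ℕ) (Bs : boxS d L → Prop) (ns : ℕ) (G : boxS d L → ℂ) (n : ℕ) :
    Set ((ℕ → boxS d L → ℂ) × (ℕ → boxS d L → ℂ)) :=
  {p | (∀ j, j < n → ∀ x, p.1 j x ∈ gdC h ∧ p.2 j x ∈ gdC h) ∧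
    ∀ j, j ≤ n → ∀ x, ‖traj (st2 d β k h L) G p.1 j x‖ ≤ rad β h ∧
      ‖traj (st2 d β k h L) G (res Bs ns p.1 p.2) j x‖ ≤ rad β h}

theorem measurableSet_alvR (d : ℕ) (β k h : ℝ) (L : ℕ) (Bs : boxS d L → Prop) (ns : ℕ)
    (G : boxS d L → ℂ) (n : ℕ) : MeasurableSet (alvR d β k h L Bs ns G n) := by
  have ht : ∀ j, Measurable fun ω : ℕ → boxS d L → ℂ => traj (st2 d β k h L) G ω j := fun j =>
    (measurable_traj (st2 d β k h L) (measurable_st2 d β k h L) j).comp
      (measurable_const.prodMk measurable_id)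
  have hr : Measurable fun p : (ℕ → boxS d L → ℂ) × (ℕ → boxS d L → ℂ) =>
      res Bs ns p.1 p.2 := measurable_res Bs ns
  have e : alvR d β k h L Bs ns G n = (⋂ j : ℕ, ⋂ (_ : j < n), ⋂ x : boxS d L,
      ({p : (ℕ → boxS d L → ℂ) × (ℕ → boxS d L → ℂ) | p.1 j x ∈ gdC h} ∩
        {p | p.2 j x ∈ gdC h})) ∩
      (⋂ j : ℕ, ⋂ (_ : j ≤ n), ⋂ x : boxS d L,
        ({p : (ℕ → boxS d L → ℂ) × (ℕ → boxS d L → ℂ) |
            ‖traj (st2 d β k h L) G p.1 j x‖ ≤ rad β h} ∩
          {p | ‖traj (st2 d β k h L) G (res Bs ns p.1 p.2) j x‖ ≤ rad β h})) := by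
    ext p
    simp only [alvR, Set.mem_setOf_eq, Set.mem_inter_iff, Set.mem_iInter]
  rw [e]
  refine MeasurableSet.inter ?_ ?_
  · refine MeasurableSet.iInter fun j => MeasurableSet.iInter fun _ =>
      MeasurableSet.iInter fun x => MeasurableSet.inter ?_ ?_
    · exact ((measurable_pi_apply x).comp ((measurable_pi_apply j).comp measurable_fst))
        (VM0_mgd h)
    · exact ((measurable_pi_apply x).comp ((measurable_pi_apply j).comp measurable_snd))
        (VM0_mgd h)
  · refine MeasurableSet.iInter fun j => MeasurableSet.iInter fun _ =>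
      MeasurableSet.iInter fun x => MeasurableSet.inter ?_ ?_
    · exact measurableSet_le
        (((measurable_pi_apply x).comp ((ht j).comp measurable_fst)).norm) measurable_const
    · exact measurableSet_le
        (((measurable_pi_apply x).comp ((ht j).comp hr)).norm) measurable_const

private theorem VM0_cpl_sum {ι : Type} [Fintype ι] {d : ℕ} (net : Net ι d) (u : ι → ℝ)
    (hu : ∀ x, 0 ≤ u x) : ∑ x, cpl net u x ≤ 4 * d * ∑ x, u x := by
  classical
  unfold cpl
  rw [Finset.sum_add_distrib, ← Finset.mul_sum]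
  have h1 : ∑ x, ∑ y ∈ net.nb x, u y = ∑ y, ((net.nb y).card : ℝ) * u y := by
    have h2 : ∀ x, ∑ y ∈ net.nb x, u y = ∑ y, if y ∈ net.nb x then u y else 0 := by
      intro x
      rw [Finset.sum_ite_mem, Finset.univ_inter]
    simp_rw [h2]
    rw [Finset.sum_comm]
    refine Finset.sum_congr rfl fun y _ => ?_
    have h3 : ∀ x, (if y ∈ net.nb x then u y else 0) = if x ∈ net.nb y then u y else 0 := by
      intro x
      by_cases h4 : y ∈ net.nb x
      · rw [if_pos h4, if_pos (net.nb_symm x y h4)]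
      · rw [if_neg h4, if_neg (fun h5 => h4 (net.nb_symm y x h5))]
    simp_rw [h3]
    rw [Finset.sum_ite_mem, Finset.univ_inter, Finset.sum_const, nsmul_eq_mul]
  have h4 : ∑ y, ((net.nb y).card : ℝ) * u y ≤ ∑ y, (2 * d : ℝ) * u y := by
    refine Finset.sum_le_sum fun y _ => mul_le_mul_of_nonneg_right ?_ (hu y)
    have := net.nb_card y
    exact_mod_cast this
  rw [← Finset.mul_sum] at h4
  rw [h1]
  push_cast
  linarith

/-- the shift of the control -/
private noncomputable def VM0_lam {d L : ℕ} (P : BPar d L) (j : ℕ) : ℝ :=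
  if j < P.ns then P.m0 / (P.ns + 1) + P.ς * lamS P.ns j else 0

private theorem VM0_lam_sum {d L : ℕ} (P : BPar d L) (hm : 0 ≤ P.m0) (hς : 0 ≤ P.ς) (m : ℕ) :
    ∑ j ∈ Finset.range m, VM0_lam P j ≤ P.m0 + P.ς * P.ns := by
  have hn : ∀ j, 0 ≤ VM0_lam P j := by
    intro j
    unfold VM0_lam
    by_cases hj : j < P.ns
    · rw [if_pos hj]
      have := (lamS_le P.ns j hj.le).1
      positivity
    · rw [if_neg hj]
  have h1 : ∑ j ∈ Finset.range m, VM0_lam P j ≤
      ∑ j ∈ Finset.range P.ns, VM0_lam P j := by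
    have h2 : ∑ j ∈ Finset.range m, VM0_lam P j ≤
        ∑ j ∈ Finset.range (max m P.ns), VM0_lam P j :=
      Finset.sum_le_sum_of_subset_of_nonneg (Finset.range_mono (le_max_left _ _))
        (fun i _ _ => hn i)
    have h3 : ∑ j ∈ Finset.range (max m P.ns), VM0_lam P j =
        ∑ j ∈ Finset.range P.ns, VM0_lam P j := by
      symm
      refine Finset.sum_subset (Finset.range_mono (le_max_right _ _)) fun j _ hj => ?_
      unfold VM0_lam
      rw [if_neg (fun h => hj (Finset.mem_range.2 h))]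
    rw [← h3]
    exact h2
  refine h1.trans ?_
  have h2 : ∑ j ∈ Finset.range P.ns, VM0_lam P j =
      ∑ j ∈ Finset.range P.ns, (P.m0 / (P.ns + 1) + P.ς * lamS P.ns j) := by
    refine Finset.sum_congr rfl fun j hj => ?_
    unfold VM0_lam
    rw [if_pos (Finset.mem_range.1 hj)]
  rw [h2, Finset.sum_add_distrib, ← Finset.mul_sum, Finset.sum_const, Finset.card_range,
    nsmul_eq_mul]
  refine add_le_add ?_ (mul_le_mul_of_nonneg_left (lamS_sum P.ns) hς)
  have h3 : (0 : ℝ) < P.ns + 1 := by positivity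
  rw [mul_div_assoc', div_le_iff₀ h3]
  nlinarith

/-- the sum of the moduli -/
private noncomputable def VM0_S {d L : ℕ} (G : (boxS d L → ℂ) × (boxS d L → ℂ)) : ℝ :=
  ∑ x, (‖G.1 x‖ + ‖G.2 x‖)

private theorem VM0_pt (d : ℕ) {β k h : ℝ} (hβ : 0 < β) (hk : 0 < k) (hh : 0 < h) (L : ℕ)
    (P : BPar d L) (hm : 0 ≤ P.m0) (hς : 0 ≤ P.ς) (j : ℕ)
    (G : (boxS d L → ℂ) × (boxS d L → ℂ)) (ξ : boxS d L → ℂ) :
    VM0_S (P.bst β k h j G ξ) ≤
      ∑ x, Real.exp (bC h (ξ x)) * (Real.exp (VM0_lam P j) * (‖G.1 x‖ + ‖G.2 x‖)) +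
        k * h * (4 * d * VM0_S G) := by
  have hl0 : 0 ≤ VM0_lam P j := by
    unfold VM0_lam
    by_cases hj : j < P.ns
    · rw [if_pos hj]
      have := (lamS_le P.ns j hj.le).1
      positivity
    · rw [if_neg hj]
  have h1 : ∀ x, ‖(P.bst β k h j G ξ).1 x‖ + ‖(P.bst β k h j G ξ).2 x‖ ≤
      Real.exp (bC h (ξ x)) * (Real.exp (VM0_lam P j) * (‖G.1 x‖ + ‖G.2 x‖)) +
        k * h * (cpl (boxNet d L) (nrm G.1) x + cpl (boxNet d L) (nrm G.2) x) := by
    intro x
    have h2 := st2_u d hβ hk.le hh L G.1 ξ x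
    have h3 := st2_u d hβ hk.le hh L G.2 (fun z => ξ z + P.ctl k h j G z) x
    have h4 : bC h (ξ x + P.ctl k h j G x) ≤ bC h (ξ x) + VM0_lam P j := by
      have h5 := ctl_le P k h hh hm hς j G x
      have h6 : Real.sqrt h * (P.ctl k h j G x).re ≤ Real.sqrt h * ‖P.ctl k h j G x‖ :=
        mul_le_mul_of_nonneg_left (Complex.re_le_norm _) (Real.sqrt_nonneg h)
      have h7 : Real.sqrt h * ‖P.ctl k h j G x‖ ≤ VM0_lam P j := h5
      unfold bC
      rw [Complex.add_re, mul_add]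
      linarith
    have h5 : Real.exp (bC h (ξ x + P.ctl k h j G x)) ≤
        Real.exp (bC h (ξ x)) * Real.exp (VM0_lam P j) := by
      rw [← Real.exp_add]
      exact Real.exp_le_exp.mpr h4
    have h6 : Real.exp (bC h (ξ x)) * 1 ≤ Real.exp (bC h (ξ x)) * Real.exp (VM0_lam P j) :=
      mul_le_mul_of_nonneg_left (Real.one_le_exp hl0) (Real.exp_pos _).le
    have h7 : Real.exp (bC h (ξ x)) * ‖G.1 x‖ ≤
        Real.exp (bC h (ξ x)) * Real.exp (VM0_lam P j) * ‖G.1 x‖ := by
      rw [mul_one] at h6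
      exact mul_le_mul_of_nonneg_right h6 (norm_nonneg _)
    have h8 : Real.exp (bC h (ξ x + P.ctl k h j G x)) * ‖G.2 x‖ ≤
        Real.exp (bC h (ξ x)) * Real.exp (VM0_lam P j) * ‖G.2 x‖ :=
      mul_le_mul_of_nonneg_right h5 (norm_nonneg _)
    have h9 : ‖(P.bst β k h j G ξ).1 x‖ ≤ Real.exp (bC h (ξ x)) * ‖G.1 x‖ +
        k * h * cpl (boxNet d L) (nrm G.1) x := h2
    have h10 : ‖(P.bst β k h j G ξ).2 x‖ ≤
        Real.exp (bC h (ξ x + P.ctl k h j G x)) * ‖G.2 x‖ +
        k * h * cpl (boxNet d L) (nrm G.2) x := h3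
    nlinarith only [h7, h8, h9, h10]
  unfold VM0_S
  refine (Finset.sum_le_sum fun x _ => h1 x).trans ?_
  rw [Finset.sum_add_distrib, ← Finset.mul_sum, Finset.sum_add_distrib]
  refine add_le_add le_rfl (mul_le_mul_of_nonneg_left ?_ (by positivity))
  have h2 := VM0_cpl_sum (boxNet d L) (nrm G.1) (fun x => norm_nonneg _)
  have h3 := VM0_cpl_sum (boxNet d L) (nrm G.2) (fun x => norm_nonneg _)
  rw [Finset.sum_add_distrib]
  unfold nrm at h2 h3 ⊢
  linarith

private theorem VM0_one (C h : ℝ) (hC : 0 ≤ C) (hh : 0 < h)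
    (hb : ∫⁻ a, ENNReal.ofReal (Real.exp (2 * bC h a)) ∂gC ≤ ENNReal.ofReal (1 + C * h)) :
    ∫⁻ a, ENNReal.ofReal (Real.exp (bC h a)) ∂gC ≤ ENNReal.ofReal (1 + C * h) := by
  have hmb : Measurable (bC h) := Complex.measurable_re.const_mul _
  have h1 : ∀ a, ENNReal.ofReal (Real.exp (bC h a)) ≤
      ENNReal.ofReal (1 / 2) + ENNReal.ofReal (1 / 2) * ENNReal.ofReal (Real.exp (2 * bC h a)) := by
    intro a
    rw [← ENNReal.ofReal_mul (by norm_num), ← ENNReal.ofReal_add (by norm_num) (by positivity)]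
    refine ENNReal.ofReal_le_ofReal ?_
    have h2 : Real.exp (2 * bC h a) = Real.exp (bC h a) * Real.exp (bC h a) := by
      rw [← Real.exp_add]
      congr 1
      ring
    rw [h2]
    nlinarith [sq_nonneg (Real.exp (bC h a) - 1)]
  refine (lintegral_mono h1).trans ?_
  have hme : Measurable fun a : ℂ => ENNReal.ofReal (Real.exp (2 * bC h a)) :=
    ENNReal.measurable_ofReal.comp (Real.measurable_exp.comp (hmb.const_mul 2))
  rw [lintegral_add_left measurable_const, lintegral_const, measure_univ, mul_one,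
    lintegral_const_mul _ hme]
  refine (add_le_add le_rfl (mul_le_mul_right hb _)).trans ?_
  rw [← ENNReal.ofReal_mul (by norm_num), ← ENNReal.ofReal_add (by norm_num) (by positivity)]
  refine ENNReal.ofReal_le_ofReal ?_
  nlinarith [mul_nonneg hC hh.le]

private theorem VM0_step (d : ℕ) {β k h C : ℝ} (hβ : 0 < β) (hk : 0 < k) (hk1 : k < 1)
    (hh : 0 < h) (hC : 0 ≤ C)
    (hb : ∫⁻ a, ENNReal.ofReal (Real.exp (2 * bC h a)) ∂gC ≤ ENNReal.ofReal (1 + C * h)) (L : ℕ)
    (P : BPar d L) (hm : 0 ≤ P.m0) (hς : 0 ≤ P.ς) (j : ℕ)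
    (G : (boxS d L → ℂ) × (boxS d L → ℂ)) :
    ∫⁻ ξ, ENNReal.ofReal (VM0_S (P.bst β k h j G ξ)) ∂(Measure.pi fun _ : boxS d L => gC) ≤
      ENNReal.ofReal (Real.exp (VM0_lam P j) * (1 + (C + 4 * d) * h)) *
        ENNReal.ofReal (VM0_S G) := by
  have hl0 : 0 ≤ VM0_lam P j := by
    unfold VM0_lam
    by_cases hj : j < P.ns
    · rw [if_pos hj]
      have := (lamS_le P.ns j hj.le).1
      positivity
    · rw [if_neg hj]
  have hS : 0 ≤ VM0_S G := by
    unfold VM0_S
    exact Finset.sum_nonneg fun x _ => add_nonneg (norm_nonneg _) (norm_nonneg _)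
  have hmb : Measurable (bC h) := Complex.measurable_re.const_mul _
  have h1 : ∀ ξ : boxS d L → ℂ, ENNReal.ofReal (VM0_S (P.bst β k h j G ξ)) ≤
      ∑ x, ENNReal.ofReal (Real.exp (bC h (ξ x))) *
        ENNReal.ofReal (Real.exp (VM0_lam P j) * (‖G.1 x‖ + ‖G.2 x‖)) +
        ENNReal.ofReal (k * h * (4 * d * VM0_S G)) := by
    intro ξ
    refine (ENNReal.ofReal_le_ofReal (VM0_pt d hβ hk hh L P hm hς j G ξ)).trans ?_
    refine (ENNReal.ofReal_add_le).trans (add_le_add (le_of_eq ?_) le_rfl)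
    rw [ENNReal.ofReal_sum_of_nonneg (fun x _ => by positivity)]
    refine Finset.sum_congr rfl fun x _ => ?_
    rw [ENNReal.ofReal_mul (Real.exp_pos _).le]
  refine (lintegral_mono h1).trans ?_
  have hmx : ∀ x : boxS d L, Measurable fun ξ : boxS d L → ℂ =>
      ENNReal.ofReal (Real.exp (bC h (ξ x))) := fun x =>
    ENNReal.measurable_ofReal.comp (Real.measurable_exp.comp (hmb.comp (measurable_pi_apply x)))
  rw [lintegral_add_right _ measurable_const, lintegral_const, measure_univ, mul_one,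
    lintegral_finsetSum _ (fun x _ => (hmx x).mul_const _)]
  have h2 : ∀ x : boxS d L, ∫⁻ ξ, ENNReal.ofReal (Real.exp (bC h (ξ x))) *
        ENNReal.ofReal (Real.exp (VM0_lam P j) * (‖G.1 x‖ + ‖G.2 x‖))
        ∂(Measure.pi fun _ : boxS d L => gC) ≤
      ENNReal.ofReal ((1 + C * h) * (Real.exp (VM0_lam P j) * (‖G.1 x‖ + ‖G.2 x‖))) := by
    intro x
    rw [lintegral_mul_const _ (hmx x),
      ENNReal.ofReal_mul (p := 1 + C * h) (q := Real.exp (VM0_lam P j) * (‖G.1 x‖ + ‖G.2 x‖))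
        (by positivity)]
    refine mul_le_mul' ?_ le_rfl
    have h3 := (measurePreserving_eval (fun _ : boxS d L => gC) x).lintegral_comp
      (ENNReal.measurable_ofReal.comp (Real.measurable_exp.comp hmb))
    exact (le_of_eq h3).trans (VM0_one C h hC hh hb)
  refine (add_le_add (Finset.sum_le_sum fun x _ => h2 x) le_rfl).trans ?_
  rw [← ENNReal.ofReal_sum_of_nonneg (fun x _ => by positivity),
    ← ENNReal.ofReal_add (Finset.sum_nonneg fun x _ => by positivity) (by positivity),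
    ← ENNReal.ofReal_mul (by positivity)]
  refine ENNReal.ofReal_le_ofReal ?_
  rw [← Finset.mul_sum, ← Finset.mul_sum]
  have h4 : ∑ x, (‖G.1 x‖ + ‖G.2 x‖) = VM0_S G := rfl
  rw [h4]
  have h5 : 1 ≤ Real.exp (VM0_lam P j) := Real.one_le_exp hl0
  have h6 : k * h * (4 * d * VM0_S G) ≤ Real.exp (VM0_lam P j) * (4 * d * h * VM0_S G) := by
    have h7 : 0 ≤ 4 * d * h * VM0_S G := by positivity
    have h8 : k * h * (4 * d * VM0_S G) = k * (4 * d * h * VM0_S G) := by ring
    rw [h8]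
    exact mul_le_mul_of_nonneg_right (hk1.le.trans h5) h7
  nlinarith

theorem lin_ctl (d : ℕ) (β : ℝ) (hβ : 0 < β) (k : ℝ) (hk : 0 < k) (hk1 : k < 1) (L : ℕ) :
    ∃ CL h0 : ℝ, 1 ≤ CL ∧ 0 < h0 ∧ ∀ h, 0 < h → h < h0 →
    ∀ (P : BPar d L), P.OK β k h → ∀ (G : (boxS d L → ℂ) × (boxS d L → ℂ)) (m : ℕ),
      m * h ≤ 8 * ell k ^ 2 →
      ∫⁻ ω, ENNReal.ofReal (∑ x, (‖(trajT (P.bst β k h) G ω m).1 x‖ +
          ‖(trajT (P.bst β k h) G ω m).2 x‖)) ∂(PI (Measure.pi fun _ : boxS d L => gC)) ≤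
        ENNReal.ofReal (CL * ∑ x, (‖G.1 x‖ + ‖G.2 x‖)) := by
  obtain ⟨C, h0, hC, hh0, hmgf⟩ := bnoise2.mgf2
  have hl : 0 ≤ ell k := by
    unfold ell
    exact Real.log_nonneg (by rw [one_div]; exact (one_le_inv₀ hk).mpr hk1.le)
  refine ⟨Real.exp (ell k + 4 + ell k ^ 3 + (C + 4 * d) * (8 * ell k ^ 2)), h0, ?_, hh0, ?_⟩
  · exact Real.one_le_exp (by positivity)
  intro h hh hhh P hP G m hm
  have hβκ : 0 ≤ min 1 β * P.κ / 8 := by
    have h1 : 0 ≤ min 1 β := le_min zero_le_one hβ.le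
    have h2 := hP.hκ.le
    positivity
  have hς0 : 0 ≤ P.ς := by
    rw [hP.hς]
    refine mul_nonneg hh.le (le_min (Real.rpow_nonneg hk.le _) ?_)
    exact mul_nonneg (Real.rpow_nonneg hk.le _) hP.hA
  have hςh : P.ς ≤ h := by
    rw [hP.hς]
    have h1 : min (k ^ (min 1 β * P.κ / 8)) (k ^ (-(P.M8 + 2 * P.M6 + 4)) * P.A0) ≤ 1 :=
      (min_le_left _ _).trans (Real.rpow_le_one hk.le hk1.le hβκ)
    nlinarith
  have hb := hmgf h hh hhh
  set A : ℕ → ℝ≥0∞ := fun j =>
    ENNReal.ofReal (Real.exp (VM0_lam P j) * (1 + (C + 4 * d) * h)) with hA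
  have hmS : Measurable fun q : (boxS d L → ℂ) × (boxS d L → ℂ) =>
      ENNReal.ofReal (VM0_S q) := by
    refine ENNReal.measurable_ofReal.comp ?_
    unfold VM0_S
    exact Finset.measurable_sum _ fun x _ =>
      ((measurable_pi_apply x).comp measurable_fst).norm.add
        ((measurable_pi_apply x).comp measurable_snd).norm
  have h1 := iter_gen (μ := Measure.pi fun _ : boxS d L => gC) (P.bst β k h)
    (fun j => measurable_bst P β k h j) (fun _ => Set.univ) (fun _ => MeasurableSet.univ)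
    (fun q => ENNReal.ofReal (VM0_S q)) hmS A m
    (by
      intro j _ s
      have h2 : {a : boxS d L → ℂ | (s, a) ∈ (Set.univ : Set
          (((boxS d L → ℂ) × (boxS d L → ℂ)) × (boxS d L → ℂ)))} = Set.univ := by
        ext a
        simp
      rw [h2, Measure.restrict_univ]
      exact VM0_step d hβ hk hk1 hh hC.le hb L P hP.hm0 hς0 j s) G
  have h2 : {ω : ℕ → boxS d L → ℂ | ∀ j, j < m → (trajT (P.bst β k h) G ω j, ω j) ∈
      (Set.univ : Set (((boxS d L → ℂ) × (boxS d L → ℂ)) × (boxS d L → ℂ)))} = Set.univ := by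
    ext ω
    simp
  rw [h2, Measure.restrict_univ] at h1
  have h3 : ∏ j ∈ Finset.range m, A j ≤
      ENNReal.ofReal (Real.exp (ell k + 4 + ell k ^ 3 + (C + 4 * d) * (8 * ell k ^ 2))) := by
    rw [hA, ← ENNReal.ofReal_prod_of_nonneg (fun j _ => by positivity)]
    refine ENNReal.ofReal_le_ofReal ?_
    rw [Finset.prod_mul_distrib, ← Real.exp_sum, Finset.prod_const, Finset.card_range]
    have h4 : (1 + (C + 4 * d) * h) ^ m ≤ Real.exp ((C + 4 * d) * (8 * ell k ^ 2)) := by
      have h5 : (1 + (C + 4 * d) * h) ≤ Real.exp ((C + 4 * d) * h) := by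
        have := Real.add_one_le_exp ((C + 4 * d) * h)
        linarith
      have h6 : (1 + (C + 4 * d) * h) ^ m ≤ Real.exp ((C + 4 * d) * h) ^ m :=
        pow_le_pow_left₀ (by positivity) h5 m
      refine h6.trans ?_
      rw [← Real.exp_nat_mul]
      refine Real.exp_le_exp.mpr ?_
      have h7 : (m : ℝ) * ((C + 4 * d) * h) = (C + 4 * d) * (m * h) := by ring
      rw [h7]
      exact mul_le_mul_of_nonneg_left hm (by positivity)
    have h5 : ∑ j ∈ Finset.range m, VM0_lam P j ≤ ell k + 4 + ell k ^ 3 := by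
      refine (VM0_lam_sum P hP.hm0 hς0 m).trans ?_
      have h6 := hP.hm
      have h7 : P.κ / 16 * ell k ≤ ell k := by
        have h8 : P.κ / 16 ≤ 1 := by
          have := hP.hκ1
          linarith
        nlinarith only [hk, hk1, hl, h8]
      have h8 : P.ς * P.ns ≤ ell k ^ 3 := by
        have h9 : P.ς * P.ns ≤ h * P.ns := mul_le_mul_of_nonneg_right hςh (Nat.cast_nonneg _)
        have h10 := hP.hns1
        linarith
      linarith
    calc Real.exp (∑ j ∈ Finset.range m, VM0_lam P j) * (1 + (C + 4 * d) * h) ^ m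
        ≤ Real.exp (ell k + 4 + ell k ^ 3) * Real.exp ((C + 4 * d) * (8 * ell k ^ 2)) :=
          mul_le_mul (Real.exp_le_exp.mpr h5) h4 (by positivity) (Real.exp_pos _).le
      _ = _ := by rw [← Real.exp_add]
  refine h1.trans ?_
  refine (mul_le_mul' h3 le_rfl).trans (le_of_eq ?_)
  rw [← ENNReal.ofReal_mul (Real.exp_pos _).le]
  rfl

end DynC

end

/-! ### from `Lib_MP_36b788c.ResD` -/

section

/-!
# Difference of a field and the field with resampled noise on a block

`Mhat`: upper bound of the heights on the ball (both fields). `DbR`: bound of the difference to the power `θ = a/ell`.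

PROOF.
* `res_dif`: `D j = ‖X1 j - X2 j‖`, `X1 j = traj G ω j`, `X2 j = traj G (res ..) j`. Upper bound of one field: `grow_path2` (or `grow_path`) with `q' = 1/8`, `ρ = 1/8`, `H v = (1 + dist y v)/8`, `A = 1`, growth from `st2_u`: `‖Xi j z‖ ≤ 2 exp(ell(lpp + (1 + dist y z)/8)) ≤ 2 exp(ell Mhat)` for `z` in the ball, `(1 + 4 d k^ε h)^m ≤ exp(4 d k^ε ell³) ≤ 2` for small `k`.
  Then `grow_path2` for `D` with `b j z = √h Re ω j z`, `A = 4 exp(ell Mhat)`, `H v = -(3/4) max(dist y v - Rb, 0)` (`ρ = 3/4`, `q' = ε = 1/8`), `D 0 = 0`: for `z` outside the ball or `j ≥ ns` the noises agree (`st2_d1`), for `z` in the ball and `j < ns` `D (j+1) z ≤ ‖X1‖ + ‖X2‖ ≤ 4 exp(ell Mhat)`.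
* `res_mom`: `8^{4θ} ≤ 2` for small `k`. `E e^{4a(Mhat + W)} ≤ (E e^{8a Mhat})^{1/2}(E e^{8aW})^{1/2}`, `e^{8a Mhat} ≤ e^{a(1+Rb)} Σ_{z ∈ ball}(e^{8a lppM(ω) z} + e^{8a lppM(res) z})`, `re_law` (or `re_map`), `res_map`, `lpp_exp` with `lam = 8a ≤ lam0`, `n v = m h/ell² ≤ 8`, ball has at most `(2Rb+1)^d` sites.
-/

open MeasureTheory ProbabilityTheory
open scoped ENNReal

namespace DynC

open Dyn

/-- upper bound of the heights on the ball -/
noncomputable def Mhat {d L : ℕ} (k h : ℝ) (y : boxS d L) (Rb ns m : ℕ)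
    (p : (ℕ → boxS d L → ℂ) × (ℕ → boxS d L → ℂ)) : ℝ :=
  (1 + Rb : ℝ) / 8 + Finset.univ.sup' ⟨y, Finset.mem_univ y⟩ fun z : boxS d L =>
    open Classical in if (boxNet d L).dist y z ≤ Rb then
      max ((boxMSet d L).lppM (1 / 8) (fun _ => 0) (gz k h p.1) m z)
        ((boxMSet d L).lppM (1 / 8) (fun _ => 0)
          (gz k h (res (fun z => (boxNet d L).dist y z ≤ Rb) ns p.1 p.2)) m z)
    else 0

/-- bound of the difference to the power `θ` -/
noncomputable def DbR {d L : ℕ} (k h a : ℝ) (y : boxS d L) (Rb ns m : ℕ) (x : boxS d L)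
    (p : (ℕ → boxS d L → ℂ) × (ℕ → boxS d L → ℂ)) : ℝ≥0∞ :=
  ENNReal.ofReal ((8 * Real.exp (ell k * (Mhat k h y Rb ns m p +
    (boxMSet d L).lppM (1 / 8) (fun _ => 0) (gz k h p.1) m x -
      3 / 4 * max ((boxNet d L).dist y x - Rb : ℝ) 0))) ^ (a / ell k))

private theorem ResD_ell {k : ℝ} (hk : 0 < k) (hk1 : k < 1) : 0 < ell k := by
  unfold ell
  apply Real.log_pos
  rw [lt_div_iff₀ hk]
  linarith

private theorem ResD_exp_ell {k : ℝ} (hk : 0 < k) : k = Real.exp (-ell k) := by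
  unfold ell
  rw [one_div, Real.log_inv, neg_neg, Real.exp_log hk]

private theorem ResD_meas_gz {d L : ℕ} (k h : ℝ) :
    Measurable fun ω : ℕ → boxS d L → ℂ => gz k h ω := by
  refine measurable_pi_lambda _ fun j => measurable_pi_lambda _ fun z => ?_
  unfold gz
  exact ((Complex.measurable_re.comp
    ((measurable_pi_apply z).comp (measurable_pi_apply j))).const_mul _).div_const _

private theorem ResD_meas_W {d L : ℕ} (k h : ℝ) (m : ℕ) (z : boxS d L) :
    Measurable fun ω : ℕ → boxS d L → ℂ =>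
      (boxMSet d L).lppM (1 / 8) (fun _ => 0) (gz k h ω) m z :=
  (measurable_lppM (boxMSet d L) (1 / 8) (fun _ => 0) m z).comp (ResD_meas_gz k h)

private theorem ResD_meas_Mhat {d L : ℕ} (k h : ℝ) (y : boxS d L) (Rb ns m : ℕ) :
    Measurable (Mhat k h y Rb ns m) := by
  classical
  have hf : ∀ z : boxS d L, Measurable fun p : (ℕ → boxS d L → ℂ) × (ℕ → boxS d L → ℂ) =>
      (open Classical in if (boxNet d L).dist y z ≤ Rb then
        max ((boxMSet d L).lppM (1 / 8) (fun _ => 0) (gz k h p.1) m z)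
          ((boxMSet d L).lppM (1 / 8) (fun _ => 0)
            (gz k h (res (fun z => (boxNet d L).dist y z ≤ Rb) ns p.1 p.2)) m z)
        else (0 : ℝ)) := by
    intro z
    by_cases hz : (boxNet d L).dist y z ≤ Rb
    · simp only [if_pos hz]
      exact ((ResD_meas_W k h m z).comp measurable_fst).max
        ((ResD_meas_W k h m z).comp (measurable_res _ ns))
    · simp only [if_neg hz]
      exact measurable_const
  have h2 := Finset.measurable_sup' (s := (Finset.univ : Finset (boxS d L)))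
    ⟨y, Finset.mem_univ y⟩ (fun z _ => hf z)
  have h3 : Mhat k h y Rb ns m = fun p => (1 + Rb : ℝ) / 8 +
      (Finset.univ.sup' ⟨y, Finset.mem_univ y⟩
        (fun (z : boxS d L) (p : (ℕ → boxS d L → ℂ) × (ℕ → boxS d L → ℂ)) =>
      (open Classical in if (boxNet d L).dist y z ≤ Rb then
        max ((boxMSet d L).lppM (1 / 8) (fun _ => 0) (gz k h p.1) m z)
          ((boxMSet d L).lppM (1 / 8) (fun _ => 0)
            (gz k h (res (fun z => (boxNet d L).dist y z ≤ Rb) ns p.1 p.2)) m z)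
        else (0 : ℝ)))) p := by
    funext p
    unfold Mhat
    rw [Finset.sup'_apply]
  rw [h3]
  exact h2.const_add _

theorem measurable_DbR {d L : ℕ} (k h a : ℝ) (y : boxS d L) (Rb ns m : ℕ) (x : boxS d L) :
    Measurable (DbR k h a y Rb ns m x) := by
  unfold DbR
  refine ENNReal.measurable_ofReal.comp ?_
  refine Measurable.pow_const ?_ _
  refine Measurable.const_mul ?_ _
  refine Real.measurable_exp.comp ?_
  refine Measurable.const_mul ?_ _
  exact (((ResD_meas_Mhat k h y Rb ns m).add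
    ((ResD_meas_W k h m x).comp measurable_fst)).sub_const _)

private theorem ResD_le_Mhat {d L : ℕ} (k h : ℝ) (y : boxS d L) (Rb ns m : ℕ)
    (p : (ℕ → boxS d L → ℂ) × (ℕ → boxS d L → ℂ)) (z : boxS d L)
    (hz : (boxNet d L).dist y z ≤ Rb) :
    (1 + Rb : ℝ) / 8 + max ((boxMSet d L).lppM (1 / 8) (fun _ => 0) (gz k h p.1) m z)
        ((boxMSet d L).lppM (1 / 8) (fun _ => 0)
          (gz k h (res (fun z => (boxNet d L).dist y z ≤ Rb) ns p.1 p.2)) m z) ≤
      Mhat k h y Rb ns m p := by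
  classical
  unfold Mhat
  have h1 := Finset.le_sup' (f := fun z : boxS d L =>
    (open Classical in if (boxNet d L).dist y z ≤ Rb then
      max ((boxMSet d L).lppM (1 / 8) (fun _ => 0) (gz k h p.1) m z)
        ((boxMSet d L).lppM (1 / 8) (fun _ => 0)
          (gz k h (res (fun z => (boxNet d L).dist y z ≤ Rb) ns p.1 p.2)) m z)
    else (0 : ℝ))) (Finset.mem_univ z)
  simp only [if_pos hz] at h1
  linarith

/-- upper bound of one field -/
private theorem ResD_field (d : ℕ) {β k h : ℝ} (hβ : 0 < β) (hk : 0 < k) (hk1 : k < 1)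
    (hh : 0 < h) (L : ℕ) (y : boxS d L) (G : boxS d L → ℂ)
    (hG : ∀ v, ‖G v‖ ≤ k ^ (-((1 + (boxNet d L).dist y v : ℝ) / 8)))
    (η : ℕ → boxS d L → ℂ) (n : ℕ) (x : boxS d L) :
    ‖traj (st2 d β k h L) G η n x‖ ≤ (1 + 4 * d * k ^ (1 / 8 : ℝ) * h) ^ n *
      Real.exp (ell k * ((boxMSet d L).lpp (1 / 8) (fun _ => 0) (gz k h η) n x +
        (1 + (boxNet d L).dist y x : ℝ) / 8)) := by
  have h1 := grow_path2 d L k h (1 / 8) (1 / 8) (1 / 8) 1 hk hk1 hh zero_le_one (by norm_num)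
    (by norm_num) (by norm_num) (by norm_num) (fun j x => bC h (η j x))
    (fun j x => ‖traj (st2 d β k h L) G η j x‖)
    (fun x => (1 + (boxNet d L).dist y x : ℝ) / 8) ?_ ?_ n
    (fun j _ x => Or.inl (st2_u d hβ hk.le hh L (traj (st2 d β k h L) G η j) (η j) x)) x
  · rw [one_mul] at h1
    exact h1
  · intro x y' hy'
    have h2 := (boxNet d L).dist_tri y x y'
    rw [(boxNet d L).dist_nb x y' hy'] at h2
    have h3 : ((boxNet d L).dist y y' : ℝ) ≤ (boxNet d L).dist y x + 1 := by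
      exact_mod_cast h2
    linarith
  · intro x
    show ‖G x‖ ≤ 1 * Real.exp (ell k * ((1 + (boxNet d L).dist y x : ℝ) / 8))
    rw [one_mul]
    refine (hG x).trans (le_of_eq ?_)
    conv_lhs => rw [ResD_exp_ell hk]
    rw [← Real.exp_mul]
    congr 1
    ring

private theorem ResD_half : Real.exp (1 / 2) ≤ 2 := by
  have h1 : Real.exp (1 / 2) ^ 2 = Real.exp 1 := by
    rw [← Real.exp_nat_mul]
    norm_num
  have h2 := Real.exp_one_lt_d9
  have h3 : 0 < Real.exp (1 / 2 : ℝ) := Real.exp_pos _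
  nlinarith

private theorem ResD_k0 (d : ℕ) : ∃ k0 : ℝ, 0 < k0 ∧ k0 < 1 ∧
    ∀ k, 0 < k → k < k0 → 4 * (d : ℝ) * k ^ (1 / 8 : ℝ) * ell k ^ 3 ≤ 1 / 2 := by
  set B : ℝ := 2 * (4 * d * 110592) + 1 with hB
  have hd : (0 : ℝ) ≤ d := Nat.cast_nonneg d
  have hB1 : 1 ≤ B := by
    have : 0 ≤ 2 * (4 * (d : ℝ) * 110592) := by positivity
    linarith
  have hB0 : 0 < B := by linarith
  refine ⟨min (Real.exp (-1)) ((1 / B) ^ 16), by positivity, ?_, ?_⟩
  · refine (min_le_left _ _).trans_lt ?_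
    rw [Real.exp_lt_one_iff]
    norm_num
  · intro k hk hk0
    have hk1 : k < 1 := by
      refine (hk0.trans_le (min_le_left _ _)).trans ?_
      rw [Real.exp_lt_one_iff]
      norm_num
    have hell := ResD_ell hk hk1
    set z : ℝ := k ^ (1 / 16 : ℝ) with hz
    have hz0 : 0 < z := Real.rpow_pos_of_pos hk _
    have hz8 : k ^ (1 / 8 : ℝ) = z ^ 2 := by
      rw [hz, ← Real.rpow_natCast, ← Real.rpow_mul hk.le]
      norm_num
    have hzB : z ≤ 1 / B := by
      have h1 : k ≤ (1 / B) ^ 16 := (hk0.trans_le (min_le_right _ _)).le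
      have h2 : z ≤ ((1 / B) ^ 16) ^ (1 / 16 : ℝ) := Real.rpow_le_rpow hk.le h1 (by norm_num)
      rwa [← Real.rpow_natCast, ← Real.rpow_mul (by positivity),
        show ((16 : ℕ) : ℝ) * (1 / 16) = 1 by norm_num, Real.rpow_one] at h2
    have hell3 : ell k ^ 3 * z ≤ 110592 := by
      have h1 : ell k ≤ (1 / k) ^ (1 / 48 : ℝ) / (1 / 48) := by
        unfold ell
        exact Real.log_le_rpow_div (by positivity) (by norm_num)
      have h2 : ell k ^ 3 ≤ ((1 / k) ^ (1 / 48 : ℝ) / (1 / 48)) ^ 3 :=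
        pow_le_pow_left₀ hell.le h1 3
      have h3 : ((1 / k) ^ (1 / 48 : ℝ) / (1 / 48)) ^ 3 = 110592 * z⁻¹ := by
        have h4 : ((1 / k) ^ (1 / 48 : ℝ)) ^ 3 = z⁻¹ := by
          rw [← Real.rpow_natCast, ← Real.rpow_mul (by positivity), one_div k,
            Real.inv_rpow hk.le, hz]
          norm_num
        rw [div_pow, h4]
        norm_num
        ring
      rw [h3] at h2
      calc ell k ^ 3 * z ≤ 110592 * z⁻¹ * z := mul_le_mul_of_nonneg_right h2 hz0.le
        _ = 110592 := by rw [mul_assoc, inv_mul_cancel₀ hz0.ne', mul_one]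
    rw [hz8]
    have h5 : 4 * (d : ℝ) * z ^ 2 * ell k ^ 3 = 4 * d * z * (ell k ^ 3 * z) := by ring
    rw [h5]
    have h6 : 4 * (d : ℝ) * z * (ell k ^ 3 * z) ≤ 4 * d * z * 110592 :=
      mul_le_mul_of_nonneg_left hell3 (by positivity)
    have h7 : 4 * (d : ℝ) * z * 110592 ≤ 4 * d * 110592 * (1 / B) := by
      have := mul_le_mul_of_nonneg_left hzB (by positivity : (0 : ℝ) ≤ 4 * d * 110592)
      linarith
    have h8 : 4 * (d : ℝ) * 110592 * (1 / B) ≤ 1 / 2 := by
      rw [mul_one_div, div_le_iff₀ hB0]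
      linarith
    linarith

theorem res_dif (d : ℕ) (β : ℝ) (hβ : 0 < β) : ∃ k0 : ℝ, 0 < k0 ∧ k0 < 1 ∧
    ∀ k, 0 < k → k < k0 → ∀ h, 0 < h → ∀ (L : ℕ) (y : boxS d L) (Rb ns m : ℕ),
      m * h ≤ ell k ^ 3 → ∀ (G : boxS d L → ℂ),
      (∀ v, ‖G v‖ ≤ k ^ (-((1 + (boxNet d L).dist y v : ℝ) / 8))) →
    ∀ (a : ℝ), 0 < a → ∀ (p : (ℕ → boxS d L → ℂ) × (ℕ → boxS d L → ℂ)) (x : boxS d L),
      ENNReal.ofReal (‖traj (st2 d β k h L) G p.1 m x -
          traj (st2 d β k h L) G (res (fun z => (boxNet d L).dist y z ≤ Rb) ns p.1 p.2) m x‖ ^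
            (a / ell k)) ≤ DbR k h a y Rb ns m x p := by
  classical
  obtain ⟨k0, hk0, hk01, hkk⟩ := ResD_k0 d
  refine ⟨k0, hk0, hk01, ?_⟩
  intro k hk hkk0 h hh L y Rb ns m hm G hG a ha p x
  have hk1 : k < 1 := hkk0.trans hk01
  have hell := ResD_ell hk hk1
  have hkd := hkk k hk hkk0
  set Bs : boxS d L → Prop := fun z => (boxNet d L).dist y z ≤ Rb with hBs
  set ω' : ℕ → boxS d L → ℂ := res Bs ns p.1 p.2 with hω'
  set M : ℝ := Mhat k h y Rb ns m p with hM
  have hkpos : 0 ≤ k ^ (1 / 8 : ℝ) := Real.rpow_nonneg hk.le _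
  have hbase : 1 ≤ 1 + 4 * (d : ℝ) * k ^ (1 / 8 : ℝ) * h := by
    have : 0 ≤ 4 * (d : ℝ) * k ^ (1 / 8 : ℝ) * h := by positivity
    linarith
  have hpow : ∀ n, n ≤ m → (1 + 4 * (d : ℝ) * k ^ (1 / 8 : ℝ) * h) ^ n ≤ 2 := by
    intro n hn
    refine (pow_le_pow_right₀ hbase hn).trans ?_
    have h1 : 1 + 4 * (d : ℝ) * k ^ (1 / 8 : ℝ) * h ≤
        Real.exp (4 * (d : ℝ) * k ^ (1 / 8 : ℝ) * h) := by
      have := Real.add_one_le_exp (4 * (d : ℝ) * k ^ (1 / 8 : ℝ) * h)
      linarith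
    refine (pow_le_pow_left₀ (by linarith) h1 m).trans ?_
    rw [← Real.exp_nat_mul]
    refine le_trans (Real.exp_le_exp.mpr ?_) ResD_half
    have h2 : (m : ℝ) * (4 * (d : ℝ) * k ^ (1 / 8 : ℝ) * h) =
        4 * (d : ℝ) * k ^ (1 / 8 : ℝ) * (m * h) := by ring
    rw [h2]
    exact (mul_le_mul_of_nonneg_left hm (by positivity)).trans hkd
  -- bound of both fields on the ball
  have hfield : ∀ (η : ℕ → boxS d L → ℂ) (z : boxS d L),
      (1 + Rb : ℝ) / 8 + (boxMSet d L).lppM (1 / 8) (fun _ => 0) (gz k h η) m z ≤ M →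
      (boxNet d L).dist y z ≤ Rb → ∀ n, n ≤ m →
      ‖traj (st2 d β k h L) G η n z‖ ≤ 2 * Real.exp (ell k * M) := by
    intro η z hz hzR n hn
    refine (ResD_field d hβ hk hk1 hh L y G hG η n z).trans ?_
    refine mul_le_mul (hpow n hn) ?_ (Real.exp_pos _).le (by norm_num)
    apply Real.exp_le_exp.mpr
    apply mul_le_mul_of_nonneg_left _ hell.le
    have h1 := le_lppM (boxMSet d L) (1 / 8) (fun _ => 0) (gz k h η) hn z
    have h2 : ((boxNet d L).dist y z : ℝ) ≤ Rb := by exact_mod_cast hzR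
    linarith
  have hball : ∀ z, (boxNet d L).dist y z ≤ Rb → ∀ n, n ≤ m →
      ‖traj (st2 d β k h L) G p.1 n z - traj (st2 d β k h L) G ω' n z‖ ≤
        4 * Real.exp (ell k * M) := by
    intro z hz n hn
    have h1 := ResD_le_Mhat k h y Rb ns m p z hz
    have hml := le_max_left ((boxMSet d L).lppM (1 / 8) (fun _ => 0) (gz k h p.1) m z)
      ((boxMSet d L).lppM (1 / 8) (fun _ => 0) (gz k h ω') m z)
    have hmr := le_max_right ((boxMSet d L).lppM (1 / 8) (fun _ => 0) (gz k h p.1) m z)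
      ((boxMSet d L).lppM (1 / 8) (fun _ => 0) (gz k h ω') m z)
    have h2 := hfield p.1 z ((add_le_add le_rfl hml).trans h1) hz n hn
    have h3 := hfield ω' z ((add_le_add le_rfl hmr).trans h1) hz n hn
    have h4 := norm_sub_le (traj (st2 d β k h L) G p.1 n z) (traj (st2 d β k h L) G ω' n z)
    linarith
  have hmain := grow_path2 d L k h (1 / 8) (1 / 8) (3 / 4) (4 * Real.exp (ell k * M)) hk hk1 hh
    (by positivity) (by norm_num) (by norm_num) (by norm_num) (by norm_num)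
    (fun j x => bC h (p.1 j x))
    (fun j x => ‖traj (st2 d β k h L) G p.1 j x - traj (st2 d β k h L) G ω' j x‖)
    (fun x => -(3 / 4 * max ((boxNet d L).dist y x - Rb : ℝ) 0)) ?_ ?_ m ?_ x
  · have h1 : ‖traj (st2 d β k h L) G p.1 m x - traj (st2 d β k h L) G ω' m x‖ ≤
        8 * Real.exp (ell k * (M + (boxMSet d L).lppM (1 / 8) (fun _ => 0) (gz k h p.1) m x -
          3 / 4 * max ((boxNet d L).dist y x - Rb : ℝ) 0)) := by
      refine hmain.trans ?_
      have h2 : 4 * Real.exp (ell k * M) * (1 + 4 * (d : ℝ) * k ^ (1 / 8 : ℝ) * h) ^ m ≤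
          8 * Real.exp (ell k * M) := by
        have h3 := mul_le_mul_of_nonneg_left (hpow m le_rfl)
          (by positivity : 0 ≤ 4 * Real.exp (ell k * M))
        linarith
      refine (mul_le_mul_of_nonneg_right h2 (Real.exp_pos _).le).trans ?_
      rw [mul_assoc, ← Real.exp_add]
      apply mul_le_mul_of_nonneg_left _ (by norm_num)
      apply Real.exp_le_exp.mpr
      rw [← mul_add]
      apply mul_le_mul_of_nonneg_left _ hell.le
      have h4 := le_lppM (boxMSet d L) (1 / 8) (fun _ => 0) (gz k h p.1) (le_refl m) x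
      have h5 : (boxMSet d L).lpp (1 / 8) (fun _ => 0) (fun j y => bC h (p.1 j y) / ell k) m x ≤
          (boxMSet d L).lppM (1 / 8) (fun _ => 0) (gz k h p.1) m x := h4
      linarith
    unfold DbR
    apply ENNReal.ofReal_le_ofReal
    exact Real.rpow_le_rpow (norm_nonneg _) h1 (by positivity)
  · intro x y' hy'
    have h2 := (boxNet d L).dist_tri y y' x
    rw [(boxNet d L).dist_comm y' x, (boxNet d L).dist_nb x y' hy'] at h2
    have h3 : ((boxNet d L).dist y x : ℝ) ≤ (boxNet d L).dist y y' + 1 := by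
      exact_mod_cast h2
    have h4 : max ((boxNet d L).dist y x - Rb : ℝ) 0 ≤
        max ((boxNet d L).dist y y' - Rb : ℝ) 0 + 1 := by
      apply max_le
      · have := le_max_left ((boxNet d L).dist y y' - Rb : ℝ) 0
        linarith
      · have := le_max_right ((boxNet d L).dist y y' - Rb : ℝ) 0
        linarith
    linarith
  · intro x
    show ‖G x - G x‖ ≤ _
    rw [sub_self, norm_zero]
    positivity
  · intro j hj x
    by_cases hx : j < ns ∧ Bs x
    · right
      have h1 : max ((boxNet d L).dist y x - Rb : ℝ) 0 = 0 := by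
        apply max_eq_right
        have h2 : ((boxNet d L).dist y x : ℝ) ≤ Rb := by exact_mod_cast hx.2
        linarith
      rw [h1, mul_zero, neg_zero, mul_zero, Real.exp_zero, mul_one]
      exact hball x hx.2 (j + 1) hj
    · left
      have h1 : ω' j x = p.1 j x := by
        rw [hω']
        unfold res
        rw [if_neg hx]
      exact st2_d1 d hβ hk.le hh L (traj (st2 d β k h L) G p.1 j)
        (traj (st2 d β k h L) G ω' j) (p.1 j) (ω' j) x h1

/-- exponential moment of the heights for the complex noise -/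
private theorem ResD_exp (d : ℕ) : ∃ lam0 C : ℝ, 0 < lam0 ∧ 0 < C ∧
    ∀ (L : ℕ) (k h : ℝ), 0 < k → k < Real.exp (-1) → 0 < h → h < 1 / lam0 ^ 2 →
      ∀ (m : ℕ), m * h ≤ 8 * ell k ^ 2 → ∀ (z : boxS d L) (lam : ℝ), 0 ≤ lam → lam ≤ lam0 →
        ∫⁻ ω, ENNReal.ofReal (Real.exp (lam *
          (boxMSet d L).lppM (1 / 8) (fun _ => 0) (gz k h ω) m z))
            ∂(PI (Measure.pi fun _ : boxS d L => gC)) ≤
          ENNReal.ofReal (Real.exp (9 * C * lam)) := by
  obtain ⟨lam0, C, hlam0, hC, hlpp⟩ := lpp_exp d (1 / 8) (by norm_num)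
  refine ⟨lam0, C, hlam0, hC, ?_⟩
  intro L k h hk hke hh hh0 m hm z lam hl hl0
  have hk1 : k < 1 := hke.trans (by rw [Real.exp_lt_one_iff]; norm_num)
  have hell := ResD_ell hk hk1
  have hell1 : 1 ≤ ell k := by
    unfold ell
    rw [one_div, Real.log_inv]
    have h1 : Real.log k ≤ -1 := by
      rw [← Real.log_exp (-1)]
      exact Real.log_le_log hk hke.le
    linarith
  set v : ℝ := h / ell k ^ 2 with hv
  have hv0 : 0 < v := by positivity
  have hv1 : v ≤ 1 / lam0 ^ 2 := by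
    refine le_trans ?_ hh0.le
    rw [hv]
    apply div_le_self hh.le
    nlinarith only [hell1, hell]
  have h1 := hlpp (boxS d L) (boxMSet d L) v hv0 hv1 m z lam hl hl0
  set F : (ℕ → boxS d L → ℝ) → ℝ≥0∞ := fun ω => ENNReal.ofReal (Real.exp (lam *
    (boxMSet d L).lppM (1 / 8) (fun _ => 0) (sc v ω) m z)) with hF
  have hscm : Measurable fun ω : ℕ → boxS d L → ℝ => sc v ω := by
    refine measurable_pi_lambda _ fun j => measurable_pi_lambda _ fun x => ?_
    unfold sc
    have h0 : Measurable (fun ω : ℕ → boxS d L → ℝ => ω j x) :=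
      (measurable_pi_apply x).comp (measurable_pi_apply j)
    exact h0.const_mul _
  have hFm : Measurable F := by
    refine ENNReal.measurable_ofReal.comp (Real.measurable_exp.comp (Measurable.const_mul ?_ _))
    exact (measurable_lppM (boxMSet d L) (1 / 8) (fun _ => 0) m z).comp hscm
  have hrem : Measurable (fun (ω : ℕ → boxS d L → ℂ) (j : ℕ) (x : boxS d L) => (ω j x).re) := by
    refine measurable_pi_lambda _ fun j => measurable_pi_lambda _ fun x => ?_
    exact Complex.measurable_re.comp ((measurable_pi_apply x).comp (measurable_pi_apply j))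
  have h2 : ∫⁻ ω, ENNReal.ofReal (Real.exp (lam *
          (boxMSet d L).lppM (1 / 8) (fun _ => 0) (gz k h ω) m z))
            ∂(PI (Measure.pi fun _ : boxS d L => gC)) = ∫⁻ ω, F ω ∂(PI (nz (boxS d L))) := by
    rw [← re_map d L, lintegral_map hFm hrem]
    refine lintegral_congr fun ω => ?_
    have e1 : gz k h ω = sc v (fun j x => (ω j x).re) := by
      funext j y
      unfold gz sc
      rw [hv, Real.sqrt_div hh.le, Real.sqrt_sq hell.le]
      ring
    rw [hF]
    simp only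
    rw [e1]
  rw [h2]
  refine h1.trans ?_
  apply ENNReal.ofReal_le_ofReal
  apply Real.exp_le_exp.mpr
  have h3 : (m : ℝ) * v ≤ 8 := by
    rw [hv, ← mul_div_assoc, div_le_iff₀ (by positivity)]
    exact hm
  have h4 : C * (m * v + 1) * lam ≤ C * 9 * lam :=
    mul_le_mul_of_nonneg_right (mul_le_mul_of_nonneg_left (by linarith) hC.le) hl
  linarith

theorem res_mom (d : ℕ) : ∃ C a0 : ℝ, 1 ≤ C ∧ 0 < a0 ∧ ∀ a, 0 < a → a ≤ a0 →
    ∃ k0 : ℝ, 0 < k0 ∧ k0 < 1 ∧ ∀ k, 0 < k → k < k0 → ∃ h0 : ℝ, 0 < h0 ∧ ∀ h, 0 < h → h < h0 →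
    ∀ (L : ℕ) (y : boxS d L) (Rb ns m : ℕ), m * h ≤ 8 * ell k ^ 2 → ∀ x,
      ∫⁻ p, DbR k h a y Rb ns m x p ^ 4 ∂((PI (Measure.pi fun _ : boxS d L => gC)).prod
          (PI (Measure.pi fun _ : boxS d L => gC))) ≤
        ENNReal.ofReal (C * (2 * Rb + 1) ^ d * Real.exp (C * a * (1 + Rb)) *
          Real.exp (-(3 * a * max ((boxNet d L).dist y x - Rb : ℝ) 0))) := by
  classical
  obtain ⟨lam0, C1, hlam0, hC1, hexp⟩ := ResD_exp d
  refine ⟨3 + 72 * C1, lam0 / 8, by linarith, by positivity, ?_⟩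
  intro a ha ha0
  refine ⟨Real.exp (-(1 + 12 * a)), Real.exp_pos _, ?_, ?_⟩
  · rw [Real.exp_lt_one_iff]
    linarith
  intro k hk hkk0
  have hke : k < Real.exp (-1) := by
    refine hkk0.trans_le (Real.exp_le_exp.mpr ?_)
    linarith
  have hk1 : k < 1 := hke.trans (by rw [Real.exp_lt_one_iff]; norm_num)
  have hell := ResD_ell hk hk1
  have hella : 12 * a ≤ ell k := by
    unfold ell
    rw [one_div, Real.log_inv]
    have h1 : Real.log k ≤ -(1 + 12 * a) := by
      rw [← Real.log_exp (-(1 + 12 * a))]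
      exact Real.log_le_log hk hkk0.le
    linarith
  refine ⟨1 / lam0 ^ 2, by positivity, ?_⟩
  intro h hh hh0 L y Rb ns m hm x
  set P : Measure (ℕ → boxS d L → ℂ) := PI (Measure.pi fun _ : boxS d L => gC) with hP
  haveI hPp : IsProbabilityMeasure P := by rw [hP]; infer_instance
  set W : (ℕ → boxS d L → ℂ) → boxS d L → ℝ := fun ω z =>
    (boxMSet d L).lppM (1 / 8) (fun _ => 0) (gz k h ω) m z with hW
  set Bs : boxS d L → Prop := fun z => (boxNet d L).dist y z ≤ Rb with hBs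
  set mx : ℝ := max ((boxNet d L).dist y x - Rb : ℝ) 0 with hmx
  set K : ℝ≥0∞ := ENNReal.ofReal (Real.exp (9 * C1 * (8 * a))) with hK
  have hWm : ∀ z, Measurable fun ω => W ω z := fun z => ResD_meas_W k h m z
  have hE : ∀ z, Measurable fun ω => ENNReal.ofReal (Real.exp (8 * a * W ω z)) := fun z =>
    ENNReal.measurable_ofReal.comp (Real.measurable_exp.comp ((hWm z).const_mul _))
  have hI : ∀ z, ∫⁻ ω, ENNReal.ofReal (Real.exp (8 * a * W ω z)) ∂P ≤ K := fun z =>
    hexp L k h hk hke hh hh0 m hm z (8 * a) (by positivity) (by linarith)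
  have hI1 : ∀ z, ∫⁻ p, ENNReal.ofReal (Real.exp (8 * a * W p.1 z)) ∂(P.prod P) ≤ K := by
    intro z
    have h1 : ∫⁻ p : (ℕ → boxS d L → ℂ) × (ℕ → boxS d L → ℂ),
        ENNReal.ofReal (Real.exp (8 * a * W p.1 z)) ∂(P.prod P) =
        ∫⁻ ω, ENNReal.ofReal (Real.exp (8 * a * W ω z)) ∂((P.prod P).map Prod.fst) :=
      (lintegral_map (hE z) measurable_fst).symm
    rw [h1, Measure.map_fst_prod, measure_univ, one_smul]
    exact hI z
  have hI2 : ∀ z, ∫⁻ p, ENNReal.ofReal (Real.exp (8 * a * W (res Bs ns p.1 p.2) z)) ∂(P.prod P) ≤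
      K := by
    intro z
    have h1 : ∫⁻ p : (ℕ → boxS d L → ℂ) × (ℕ → boxS d L → ℂ),
        ENNReal.ofReal (Real.exp (8 * a * W (res Bs ns p.1 p.2) z)) ∂(P.prod P) =
        ∫⁻ ω, ENNReal.ofReal (Real.exp (8 * a * W ω z))
          ∂((P.prod P).map (fun p => res Bs ns p.1 p.2)) :=
      (lintegral_map (hE z) (measurable_res Bs ns)).symm
    rw [h1, hP, res_map]
    exact hI z
  -- pointwise bound
  have hcard : ((Finset.univ.filter Bs).card : ℝ) ≤ (2 * Rb + 1 : ℝ) ^ d := by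
    have h1 := (boxMSet d L).growth y Rb (Finset.univ.filter Bs)
      (fun z hz => (Finset.mem_filter.1 hz).2)
    exact_mod_cast h1
  have hsup : ∀ p : (ℕ → boxS d L → ℂ) × (ℕ → boxS d L → ℂ),
      Real.exp (8 * a * Mhat k h y Rb ns m p) ≤ Real.exp (a * (1 + Rb)) *
        ∑ z ∈ Finset.univ.filter Bs, (Real.exp (8 * a * W p.1 z) +
          Real.exp (8 * a * W (res Bs ns p.1 p.2) z)) := by
    intro p
    obtain ⟨z, _, hz⟩ := Finset.exists_mem_eq_sup' ⟨y, Finset.mem_univ y⟩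
      (fun z : boxS d L => (open Classical in if (boxNet d L).dist y z ≤ Rb then
        max ((boxMSet d L).lppM (1 / 8) (fun _ => 0) (gz k h p.1) m z)
        ((boxMSet d L).lppM (1 / 8) (fun _ => 0)
          (gz k h (res (fun z => (boxNet d L).dist y z ≤ Rb) ns p.1 p.2)) m z)
        else (0 : ℝ)))
    have h1 : Mhat k h y Rb ns m p = (1 + Rb : ℝ) / 8 +
        (open Classical in if (boxNet d L).dist y z ≤ Rb then
        max ((boxMSet d L).lppM (1 / 8) (fun _ => 0) (gz k h p.1) m z)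
        ((boxMSet d L).lppM (1 / 8) (fun _ => 0)
          (gz k h (res (fun z => (boxNet d L).dist y z ≤ Rb) ns p.1 p.2)) m z)
        else (0 : ℝ)) := by
      unfold Mhat
      rw [hz]
    have h2 : 8 * a * Mhat k h y Rb ns m p = a * (1 + Rb) + 8 * a *
        (open Classical in if (boxNet d L).dist y z ≤ Rb then
        max ((boxMSet d L).lppM (1 / 8) (fun _ => 0) (gz k h p.1) m z)
        ((boxMSet d L).lppM (1 / 8) (fun _ => 0)
          (gz k h (res (fun z => (boxNet d L).dist y z ≤ Rb) ns p.1 p.2)) m z)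
        else (0 : ℝ)) := by
      rw [h1]
      ring
    rw [h2, Real.exp_add]
    apply mul_le_mul_of_nonneg_left _ (Real.exp_pos _).le
    have hterm : ∀ z ∈ Finset.univ.filter Bs, Real.exp (8 * a * W p.1 z) +
          Real.exp (8 * a * W (res Bs ns p.1 p.2) z) ≤
        ∑ z ∈ Finset.univ.filter Bs, (Real.exp (8 * a * W p.1 z) +
          Real.exp (8 * a * W (res Bs ns p.1 p.2) z)) := fun z hz =>
      Finset.single_le_sum (f := fun z => Real.exp (8 * a * W p.1 z) +
          Real.exp (8 * a * W (res Bs ns p.1 p.2) z))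
        (fun z _ => by positivity) hz
    by_cases hzR : (boxNet d L).dist y z ≤ Rb
    · rw [if_pos hzR]
      refine le_trans ?_ (hterm z (Finset.mem_filter.2 ⟨Finset.mem_univ z, hzR⟩))
      rcases max_choice ((boxMSet d L).lppM (1 / 8) (fun _ => 0) (gz k h p.1) m z)
        ((boxMSet d L).lppM (1 / 8) (fun _ => 0)
          (gz k h (res (fun z => (boxNet d L).dist y z ≤ Rb) ns p.1 p.2)) m z) with hc | hc
      · rw [hc]
        have := Real.exp_pos (8 * a * W (res Bs ns p.1 p.2) z)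
        have e1 : W p.1 z = (boxMSet d L).lppM (1 / 8) (fun _ => 0) (gz k h p.1) m z := rfl
        rw [← e1]
        linarith
      · rw [hc]
        have := Real.exp_pos (8 * a * W p.1 z)
        have e1 : W (res Bs ns p.1 p.2) z = (boxMSet d L).lppM (1 / 8) (fun _ => 0)
          (gz k h (res (fun z => (boxNet d L).dist y z ≤ Rb) ns p.1 p.2)) m z := rfl
        rw [← e1]
        linarith
    · rw [if_neg hzR, mul_zero, Real.exp_zero]
      have hyB : Bs y := by
        show (boxNet d L).dist y y ≤ Rb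
        rw [(boxNet d L).dist_self]
        exact Nat.zero_le _
      refine le_trans ?_ (hterm y (Finset.mem_filter.2 ⟨Finset.mem_univ y, hyB⟩))
      have h3 : 0 ≤ W p.1 y :=
        lppM_nonneg (boxMSet d L) (1 / 8) (fun _ => 0) (fun _ => le_rfl) _ m y
      have h4 : 1 ≤ Real.exp (8 * a * W p.1 y) := Real.one_le_exp (by positivity)
      have := Real.exp_pos (8 * a * W (res Bs ns p.1 p.2) y)
      linarith
  have hpt : ∀ p : (ℕ → boxS d L → ℂ) × (ℕ → boxS d L → ℂ),
      DbR k h a y Rb ns m x p ^ 4 ≤ ENNReal.ofReal (Real.exp (-(3 * a * mx))) *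
        (ENNReal.ofReal (Real.exp (a * (1 + Rb))) *
          ∑ z ∈ Finset.univ.filter Bs, (ENNReal.ofReal (Real.exp (8 * a * W p.1 z)) +
            ENNReal.ofReal (Real.exp (8 * a * W (res Bs ns p.1 p.2) z))) +
          ENNReal.ofReal (Real.exp (8 * a * W p.1 x))) := by
    intro p
    set Mh : ℝ := Mhat k h y Rb ns m p with hMh
    unfold DbR
    rw [← hMh, ← hmx]
    have hb0 : 0 ≤ 8 * Real.exp (ell k * (Mh + (boxMSet d L).lppM (1 / 8) (fun _ => 0)
        (gz k h p.1) m x - 3 / 4 * mx)) := by positivity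
    rw [← ENNReal.ofReal_pow (Real.rpow_nonneg hb0 _)]
    have h1 : ((8 * Real.exp (ell k * (Mh + (boxMSet d L).lppM (1 / 8) (fun _ => 0)
        (gz k h p.1) m x - 3 / 4 * mx))) ^ (a / ell k)) ^ 4 ≤
        Real.exp (-(3 * a * mx)) * (Real.exp (8 * a * Mh) + Real.exp (8 * a * W p.1 x)) := by
      have e1 : W p.1 x = (boxMSet d L).lppM (1 / 8) (fun _ => 0) (gz k h p.1) m x := rfl
      rw [← e1]
      rw [← Real.rpow_natCast, ← Real.rpow_mul hb0,
        Real.mul_rpow (by norm_num) (Real.exp_pos _).le, ← Real.exp_mul]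
      have h2 : (8 : ℝ) ^ (a / ell k * ((4 : ℕ) : ℝ)) ≤ 2 := by
        have h3 : a / ell k * ((4 : ℕ) : ℝ) ≤ 1 / 3 := by
          rw [div_mul_eq_mul_div, div_le_iff₀ hell]
          push_cast
          linarith
        refine (Real.rpow_le_rpow_of_exponent_le (by norm_num) h3).trans (le_of_eq ?_)
        rw [show (8 : ℝ) = 2 ^ (3 : ℝ) by norm_num, ← Real.rpow_mul (by norm_num)]
        norm_num
      have h4 : ell k * (Mh + W p.1 x - 3 / 4 * mx) * (a / ell k * ((4 : ℕ) : ℝ)) =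
          4 * a * Mh + 4 * a * W p.1 x + -(3 * a * mx) := by
        field_simp
        push_cast
        ring
      rw [h4, Real.exp_add, Real.exp_add]
      have h5 : 2 * (Real.exp (4 * a * Mh) * Real.exp (4 * a * W p.1 x)) ≤
          Real.exp (8 * a * Mh) + Real.exp (8 * a * W p.1 x) := by
        have h6 : Real.exp (8 * a * Mh) = Real.exp (4 * a * Mh) ^ 2 := by
          rw [← Real.exp_nat_mul]
          congr 1
          push_cast
          ring
        have h7 : Real.exp (8 * a * W p.1 x) = Real.exp (4 * a * W p.1 x) ^ 2 := by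
          rw [← Real.exp_nat_mul]
          congr 1
          push_cast
          ring
        rw [h6, h7]
        nlinarith only [sq_nonneg (Real.exp (4 * a * Mh) - Real.exp (4 * a * W p.1 x))]
      have h8 : 0 ≤ Real.exp (4 * a * Mh) * Real.exp (4 * a * W p.1 x) *
          Real.exp (-(3 * a * mx)) := by positivity
      calc (8 : ℝ) ^ (a / ell k * ((4 : ℕ) : ℝ)) * (Real.exp (4 * a * Mh) *
            Real.exp (4 * a * W p.1 x) * Real.exp (-(3 * a * mx)))
          ≤ 2 * (Real.exp (4 * a * Mh) * Real.exp (4 * a * W p.1 x) *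
            Real.exp (-(3 * a * mx))) := mul_le_mul_of_nonneg_right h2 h8
        _ = Real.exp (-(3 * a * mx)) *
            (2 * (Real.exp (4 * a * Mh) * Real.exp (4 * a * W p.1 x))) := by ring
        _ ≤ _ := mul_le_mul_of_nonneg_left h5 (Real.exp_pos _).le
    refine (ENNReal.ofReal_le_ofReal h1).trans ?_
    rw [ENNReal.ofReal_mul (Real.exp_pos _).le]
    refine mul_le_mul_right ?_ _
    rw [ENNReal.ofReal_add (Real.exp_pos _).le (Real.exp_pos _).le]
    refine add_le_add ?_ le_rfl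
    refine (ENNReal.ofReal_le_ofReal (hsup p)).trans (le_of_eq ?_)
    rw [ENNReal.ofReal_mul (Real.exp_pos _).le, ENNReal.ofReal_sum_of_nonneg
      (fun z _ => by positivity)]
    congr 1
    refine Finset.sum_congr rfl fun z _ => ?_
    rw [ENNReal.ofReal_add (Real.exp_pos _).le (Real.exp_pos _).le]
  have hm1 : ∀ z, Measurable fun p : (ℕ → boxS d L → ℂ) × (ℕ → boxS d L → ℂ) =>
      ENNReal.ofReal (Real.exp (8 * a * W p.1 z)) := fun z => (hE z).comp measurable_fst
  have hm2 : ∀ z, Measurable fun p : (ℕ → boxS d L → ℂ) × (ℕ → boxS d L → ℂ) =>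
      ENNReal.ofReal (Real.exp (8 * a * W (res Bs ns p.1 p.2) z)) :=
    fun z => (hE z).comp (measurable_res Bs ns)
  have hms : Measurable fun p : (ℕ → boxS d L → ℂ) × (ℕ → boxS d L → ℂ) =>
      ∑ z ∈ Finset.univ.filter Bs, (ENNReal.ofReal (Real.exp (8 * a * W p.1 z)) +
            ENNReal.ofReal (Real.exp (8 * a * W (res Bs ns p.1 p.2) z))) :=
    Finset.measurable_fun_sum _ fun z _ => (hm1 z).add (hm2 z)
  refine (lintegral_mono hpt).trans ?_
  have hmt : Measurable fun p : (ℕ → boxS d L → ℂ) × (ℕ → boxS d L → ℂ) =>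
      ENNReal.ofReal (Real.exp (a * (1 + Rb))) *
      ∑ z ∈ Finset.univ.filter Bs, (ENNReal.ofReal (Real.exp (8 * a * W p.1 z)) +
            ENNReal.ofReal (Real.exp (8 * a * W (res Bs ns p.1 p.2) z))) +
      ENNReal.ofReal (Real.exp (8 * a * W p.1 x)) := (hms.const_mul _).add (hm1 x)
  have hm3 : ∀ z ∈ Finset.univ.filter Bs,
      Measurable fun p : (ℕ → boxS d L → ℂ) × (ℕ → boxS d L → ℂ) =>
      (ENNReal.ofReal (Real.exp (8 * a * W p.1 z)) +
            ENNReal.ofReal (Real.exp (8 * a * W (res Bs ns p.1 p.2) z))) :=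
    fun z _ => (hm1 z).add (hm2 z)
  rw [lintegral_const_mul _ hmt, lintegral_add_right _ (hm1 x),
    lintegral_const_mul _ hms, lintegral_finsetSum _ hm3]
  have hsum : ∑ z ∈ Finset.univ.filter Bs, ∫⁻ p : (ℕ → boxS d L → ℂ) × (ℕ → boxS d L → ℂ),
      (ENNReal.ofReal (Real.exp (8 * a * W p.1 z)) +
        ENNReal.ofReal (Real.exp (8 * a * W (res Bs ns p.1 p.2) z))) ∂(P.prod P) ≤
      ENNReal.ofReal ((2 * Rb + 1 : ℝ) ^ d) * (2 * K) := by
    calc _ ≤ ∑ z ∈ Finset.univ.filter Bs, 2 * K := by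
          refine Finset.sum_le_sum fun z _ => ?_
          rw [lintegral_add_right _ (hm2 z), two_mul]
          exact add_le_add (hI1 z) (hI2 z)
      _ = ((Finset.univ.filter Bs).card : ℝ≥0∞) * (2 * K) := by
          rw [Finset.sum_const, nsmul_eq_mul]
      _ ≤ _ := by
          refine mul_le_mul_left ?_ _
          rw [← ENNReal.ofReal_natCast]
          exact ENNReal.ofReal_le_ofReal hcard
  calc ENNReal.ofReal (Real.exp (-(3 * a * mx))) *
        (ENNReal.ofReal (Real.exp (a * (1 + Rb))) * (∑ z ∈ Finset.univ.filter Bs,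
          ∫⁻ p : (ℕ → boxS d L → ℂ) × (ℕ → boxS d L → ℂ),
          (ENNReal.ofReal (Real.exp (8 * a * W p.1 z)) +
          ENNReal.ofReal (Real.exp (8 * a * W (res Bs ns p.1 p.2) z))) ∂(P.prod P)) +
          ∫⁻ p : (ℕ → boxS d L → ℂ) × (ℕ → boxS d L → ℂ),
            ENNReal.ofReal (Real.exp (8 * a * W p.1 x)) ∂(P.prod P))
      ≤ ENNReal.ofReal (Real.exp (-(3 * a * mx))) *
        (ENNReal.ofReal (Real.exp (a * (1 + Rb))) *
          (ENNReal.ofReal ((2 * Rb + 1 : ℝ) ^ d) * (2 * K)) + K) := by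
        refine mul_le_mul_right ?_ _
        exact add_le_add (mul_le_mul_right hsum _) (hI1 x)
    _ ≤ ENNReal.ofReal ((3 + 72 * C1) * (2 * Rb + 1) ^ d *
          Real.exp ((3 + 72 * C1) * a * (1 + Rb)) * Real.exp (-(3 * a * mx))) := by
        have hKe : K = ENNReal.ofReal (Real.exp (72 * C1 * a)) := by
          rw [hK]
          congr 2
          ring
        have h2K : 2 * K = ENNReal.ofReal (2 * Real.exp (72 * C1 * a)) := by
          rw [hKe, ENNReal.ofReal_mul (by norm_num)]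
          norm_num
        rw [h2K, hKe, ← ENNReal.ofReal_mul (by positivity), ← ENNReal.ofReal_mul (by positivity),
          ← ENNReal.ofReal_add (by positivity) (by positivity),
          ← ENNReal.ofReal_mul (by positivity)]
        apply ENNReal.ofReal_le_ofReal
        rw [mul_comm (Real.exp (-(3 * a * mx)))]
        apply mul_le_mul_of_nonneg_right _ (Real.exp_pos _).le
        set Q : ℝ := (2 * Rb + 1 : ℝ) ^ d with hQ
        have hQ1 : 1 ≤ Q := by
          apply one_le_pow₀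
          have : (0 : ℝ) ≤ Rb := Nat.cast_nonneg _
          linarith
        have hRb : (0 : ℝ) ≤ Rb := Nat.cast_nonneg _
        set E1 : ℝ := Real.exp (a * (1 + Rb)) with hE1
        have hE11 : 1 ≤ E1 := Real.one_le_exp (by positivity)
        set E2 : ℝ := Real.exp (72 * C1 * a) with hE2
        have hE20 : 0 < E2 := Real.exp_pos _
        have h3 : E1 * E2 ≤ Real.exp ((3 + 72 * C1) * a * (1 + Rb)) := by
          rw [hE1, hE2, ← Real.exp_add]
          apply Real.exp_le_exp.mpr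
          have h4 : 72 * C1 * a ≤ 72 * C1 * a * (1 + Rb) := by
            have : 0 ≤ 72 * C1 * a * Rb := by positivity
            linarith
          have h5 : 0 ≤ a * (1 + Rb) := by positivity
          nlinarith only [h4, h5]
        have h6 : E1 * (Q * (2 * E2)) + E2 ≤ 3 * Q * (E1 * E2) := by
          have h7 : E2 ≤ Q * (E1 * E2) := by
            have h8 : 1 * 1 ≤ Q * E1 := mul_le_mul hQ1 hE11 (by norm_num) (by linarith)
            nlinarith only [hk, hk1, hE20, h8]
          nlinarith only [h7]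
        have h9 : 3 * Q * (E1 * E2) ≤ 3 * Q * Real.exp ((3 + 72 * C1) * a * (1 + Rb)) :=
          mul_le_mul_of_nonneg_left h3 (by positivity)
        have h10 : 3 * Q * Real.exp ((3 + 72 * C1) * a * (1 + Rb)) ≤
            (3 + 72 * C1) * Q * Real.exp ((3 + 72 * C1) * a * (1 + Rb)) := by
          apply mul_le_mul_of_nonneg_right _ (Real.exp_pos _).le
          apply mul_le_mul_of_nonneg_right _ (by linarith)
          linarith
        linarith

end DynC

end
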