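import Pool.Agent.Lib_MP_36b788_n.M09

set_option linter.unusedVariables false

/-!
# MP_36b788_pr, stationary limit: merged library part M45

Concatenation of smaller files (each in its own section), only to save build time.
-/

/-! ### from `Lib_MP_36b788c.SmG` -/

section

/-!
# The potential: one step, general coupling of two fields

The two fields are driven by arbitrary (dependent) noises `b1`, `b2`; only the one-site exponential moments enter.

PROOF. Exactly the proof of `sm_step` (file `Sm2.lean`, lemmas `Sm2_low`, `Sm2_comb`, `Sm2_ES`, `Sm2_core`; copy and adapt): (1) at a maximizer `z` for `x`: `up1 z ≥ u1 z exp(b1 z - r)`, `r = h(Cr v^β + k^{1/4})`; (2) `V⁺ ≤ V exp(-s g'(b1 z - r) + 4 s (b1 z - r)²/ell)(S⁺/S)^{qs}`, Hoelder over `Gd`; (3) exponential moment of `b1 z`: the error is `(ε + |r| η) h` instead of `ε h`, giving the extra factor `exp(C(s η + ε) h)`;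
(4) `∫_{Gd} S⁺`: the two fields are estimated separately, `∫_{Gd} up_i w ≤ u_i w (1 + (C + Cη + Cε) h) - h c u_i w^{1+β} + k h cpl u_i w`, so `S⁺` gets the extra term `C(η+ε) h S`, and `(E S⁺/S)^{qs}` the extra factor `exp(C q s (η+ε) h)`; (5) as before. `h η ≤ h^{3/8}` is used where `e^{x} ≤ 1 + 2x` is applied.
-/

open MeasureTheory ProbabilityTheory
open scoped ENNReal

namespace DynC

open Dyn

/-- one-site exponential moments of a noise on an event -/
def BMom {Ω : Type} [MeasurableSpace Ω] (N : ℕ) (P : Measure Ω) (Gd : Set Ω) (b : Ω → ℝ)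
    (rm h η ε : ℝ) : Prop :=
  ∀ r : ℝ, |r| ≤ rm →
    ∫⁻ ω in Gd, ENNReal.ofReal (Real.exp (r * b ω)) ∂P ≤
      ENNReal.ofReal (1 + (lamN N * r + r ^ 2 / 2 + |r| * η + ε) * h) ∧
    ENNReal.ofReal (1 + (lamN N * r + r ^ 2 / 2 - |r| * η - ε) * h) ≤
      ∫⁻ ω in Gd, ENNReal.ofReal (Real.exp (r * b ω)) ∂P

private theorem SmG_exp2 {y : ℝ} (h0 : 0 ≤ y) (h1 : y ≤ 1 / 2) : Real.exp (-(2 * y)) ≤ 1 - y := by
  have h2 : 1 + 2 * y ≤ Real.exp (2 * y) := by
    have := Real.add_one_le_exp (2 * y)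
    linarith
  rw [Real.exp_neg]
  have h3 : 0 < 1 - y := by linarith
  rw [inv_le_comm₀ (Real.exp_pos _) h3]
  refine le_trans ?_ h2
  rw [inv_le_iff_one_le_mul₀ h3]
  nlinarith

private theorem SmG_log2 {b : ℝ} (hb : |b| ≤ Real.log 2) :
    Real.exp b ≤ 2 ∧ 1 ≤ 2 * Real.exp b := by
  have h1 := abs_le.1 hb
  constructor
  · calc Real.exp b ≤ Real.exp (Real.log 2) := Real.exp_le_exp.2 h1.2
      _ = 2 := Real.exp_log two_pos
  · have h2 : Real.exp (-Real.log 2) ≤ Real.exp b := Real.exp_le_exp.2 h1.1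
    rw [Real.exp_neg, Real.exp_log two_pos] at h2
    linarith

private theorem SmG_low {ι : Type} [Fintype ι] {d : ℕ} (net : Net ι d) {β h k q : ℝ} (hβ : 0 < β)
    (hh : 0 < h) (hh1 : h < 1) (hk : 0 < k) (hk1 : k < 1) (hq : 0 ≤ q)
    (hkq : 4 * d * (2 ^ q * k ^ (1 / 4 : ℝ) + k ^ (3 / 4 : ℝ)) ≤ 1 / 2)
    (hhs : 2 ^ β * h ^ (3 / 4 : ℝ) + h / 2 ≤ 1 / 2)
    (b u u' t : ι → ℝ) (Q : QStep net β h k b u u')
    (hu : ∀ x, u x ≤ rad β h) (ht : ∀ x, 0 ≤ t x) (x z : ι)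
    (hz : ∀ y, Tz net k q u t x y ≤ Tz net k q u t x z) (hb : |b z| ≤ Real.log 2) :
    u z * Real.exp (b z - h * (2 * 2 ^ β * u z ^ β + k ^ (1 / 4 : ℝ))) ≤ u' z := by
  obtain ⟨he1, he2⟩ := SmG_log2 hb
  have he0 := Real.exp_pos (b z)
  have hv : 0 ≤ u z := Q.n0 z
  have h2β : (0 : ℝ) < 2 ^ β := Real.rpow_pos_of_pos two_pos _
  have h2q : (0 : ℝ) < 2 ^ q := Real.rpow_pos_of_pos two_pos _
  have hk4 : (0 : ℝ) < k ^ (1 / 4 : ℝ) := Real.rpow_pos_of_pos hk _
  have hk34 : (0 : ℝ) < k ^ (3 / 4 : ℝ) := Real.rpow_pos_of_pos hk _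
  have hk41 : k ^ (1 / 4 : ℝ) ≤ 1 := Real.rpow_le_one hk.le hk1.le (by norm_num)
  have e1 : k ^ (1 / 2 : ℝ) = k ^ (1 / 4 : ℝ) * k ^ (1 / 4 : ℝ) := by
    rw [← Real.rpow_add hk]; norm_num
  have e2 : k = k ^ (1 / 4 : ℝ) * k ^ (3 / 4 : ℝ) := by
    rw [← Real.rpow_add hk]; norm_num
  -- interaction
  have hcpl : k * cpl net u z ≤ u z * k ^ (1 / 4 : ℝ) / 4 := by
    have h1 : ∑ y ∈ net.nb z, k * u y ≤ ∑ _y ∈ net.nb z, k ^ (1 / 2 : ℝ) * 2 ^ q * u z :=
      Finset.sum_le_sum fun y hy => nb_small net hk hk1 hq u t Q.n0 ht x z hz y hy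
    rw [Finset.sum_const, nsmul_eq_mul] at h1
    have h2 : ((net.nb z).card : ℝ) ≤ 2 * d := by exact_mod_cast net.nb_card z
    have h3 : ((net.nb z).card : ℝ) * (k ^ (1 / 2 : ℝ) * 2 ^ q * u z) ≤
        2 * d * (k ^ (1 / 2 : ℝ) * 2 ^ q * u z) := by
      refine mul_le_mul_of_nonneg_right h2 ?_
      rw [e1]
      positivity
    have h4 : k * cpl net u z = ∑ y ∈ net.nb z, k * u y + k * (2 * d * u z) := by
      unfold cpl
      rw [mul_add, Finset.mul_sum]
      push_cast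
      ring
    rw [h4]
    have h5 : k * (2 * d * u z) = k ^ (1 / 4 : ℝ) * k ^ (3 / 4 : ℝ) * (2 * d * u z) := by
      rw [← e2]
    rw [h5]
    rw [e1] at h1 h3
    have h6 : u z * k ^ (1 / 4 : ℝ) * (4 * d * (2 ^ q * k ^ (1 / 4 : ℝ) + k ^ (3 / 4 : ℝ))) ≤
        u z * k ^ (1 / 4 : ℝ) * (1 / 2) := mul_le_mul_of_nonneg_left hkq (by positivity)
    nlinarith only [h1, h3, h6]
  have hrf := rad_facts hβ hh hh1 hv (hu z)
  -- damping
  have hpsi := psi_lower hβ hh.le (v := Real.exp (b z) * u z) (by positivity)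
  have h7 : (Real.exp (b z) * u z) ^ β ≤ 2 ^ β * u z ^ β := by
    rw [Real.mul_rpow he0.le hv]
    exact mul_le_mul_of_nonneg_right (Real.rpow_le_rpow he0.le he1 hβ.le)
      (Real.rpow_nonneg hv _)
  have hub : 0 ≤ u z ^ β := Real.rpow_nonneg hv _
  have hlo := Q.lo z
  set y : ℝ := h * (2 ^ β * u z ^ β + k ^ (1 / 4 : ℝ) / 2) with hy
  have hy0 : 0 ≤ y := by positivity
  have hy1 : y ≤ 1 / 2 := by
    have h8 : 2 ^ β * (h * u z ^ β) ≤ 2 ^ β * h ^ (3 / 4 : ℝ) :=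
      mul_le_mul_of_nonneg_left hrf.2.2.1 h2β.le
    have h9 : h * k ^ (1 / 4 : ℝ) ≤ h := by nlinarith only [hh, hk41]
    rw [hy]
    nlinarith only [hhs, h8, h9]
  have h10 : Real.exp (b z) * u z * (1 - y) ≤ u' z := by
    have h11 : Real.exp (b z) * u z * (1 - h * (Real.exp (b z) * u z) ^ β) ≥
        Real.exp (b z) * u z * (1 - h * (2 ^ β * u z ^ β)) := by
      refine mul_le_mul_of_nonneg_left ?_ (by positivity)
      have := mul_le_mul_of_nonneg_left h7 hh.le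
      linarith only [this]
    have h12 : k * h * cpl net u z ≤ h * (u z * k ^ (1 / 4 : ℝ) / 4) := by
      have := mul_le_mul_of_nonneg_left hcpl hh.le
      linarith only [this]
    have h13 : h * (u z * k ^ (1 / 4 : ℝ) / 4) * 1 ≤
        h * (u z * k ^ (1 / 4 : ℝ) / 4) * (2 * Real.exp (b z)) :=
      mul_le_mul_of_nonneg_left he2 (by positivity)
    rw [hy]
    nlinarith only [hpsi, hlo, h11, h12, h13]
  refine le_trans ?_ h10
  have h14 : b z - h * (2 * 2 ^ β * u z ^ β + k ^ (1 / 4 : ℝ)) = b z + -(2 * y) := by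
    rw [hy]; ring
  rw [h14, Real.exp_add]
  have h15 := mul_le_mul_of_nonneg_left (SmG_exp2 hy0 hy1)
    (by positivity : 0 ≤ Real.exp (b z) * u z)
  linarith only [h15]

private theorem SmG_up {β h u b : ℝ} (hβ : 0 < β) (hh : 0 < h) (hh1 : h < 1)
    (hhs : 2 ^ β * h ^ (3 / 4 : ℝ) + h / 2 ≤ 1 / 2) (hu0 : 0 ≤ u) (hu : u ≤ rad β h)
    (hb : |b| ≤ Real.log 2) :
    psi β h (Real.exp b * u) ≤
      Real.exp b * (u - h * (1 / 2 * (1 / 4) ^ (1 + β) * u ^ (1 + β))) := by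
  obtain ⟨he1, he2⟩ := SmG_log2 hb
  have he0 := Real.exp_pos b
  have hrf := rad_facts hβ hh hh1 hu0 hu
  have h2β : (0 : ℝ) < 2 ^ β := Real.rpow_pos_of_pos two_pos _
  have hy : 0 ≤ Real.exp b * u := by positivity
  have h7 : (Real.exp b * u) ^ β ≤ 2 ^ β * u ^ β := by
    rw [Real.mul_rpow he0.le hu0]
    exact mul_le_mul_of_nonneg_right (Real.rpow_le_rpow he0.le he1 hβ.le)
      (Real.rpow_nonneg hu0 _)
  have h8 : h * (Real.exp b * u) ^ β ≤ 1 := by
    have h9 := mul_le_mul_of_nonneg_left h7 hh.le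
    have h10 := mul_le_mul_of_nonneg_left hrf.2.2.1 h2β.le
    nlinarith only [hh, hh1, hhs, h9, h10]
  have h9 := psi_half hβ hh.le hy h8
  have h10 := psi_eq hβ hh.le hy
  have h11 : 1 / 4 * u ≤ psi β h (Real.exp b * u) := by
    have : 1 / 2 * u ≤ Real.exp b * u := mul_le_mul_of_nonneg_right (by linarith) hu0
    linarith
  have h12 : (1 / 4 * u) ^ (1 + β) ≤ psi β h (Real.exp b * u) ^ (1 + β) :=
    Real.rpow_le_rpow (by positivity) h11 (by linarith)
  rw [Real.mul_rpow (by norm_num) hu0] at h12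
  have h13 : 0 ≤ (1 / 4 : ℝ) ^ (1 + β) * u ^ (1 + β) := by positivity
  have h14 := mul_le_mul_of_nonneg_left h12 hh.le
  have h15 : Real.exp b * (h * ((1 / 4 : ℝ) ^ (1 + β) * u ^ (1 + β))) ≤
      2 * (h * ((1 / 4 : ℝ) ^ (1 + β) * u ^ (1 + β))) :=
    mul_le_mul_of_nonneg_right he1 (by positivity)
  nlinarith only [h10, h14, h15]

private theorem SmG_exp1 {x : ℝ} (h0 : 0 ≤ x) (h1 : x ≤ 1 / 2) : Real.exp x ≤ 1 + 2 * x := by
  have h2 : 1 - x ≤ Real.exp (-x) := by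
    have := Real.add_one_le_exp (-x)
    linarith
  have h3 : Real.exp x * Real.exp (-x) = 1 := by
    rw [← Real.exp_add]; simp
  have h4 := Real.exp_pos x
  have h5 : Real.exp x * (1 - x) ≤ 1 := (mul_le_mul_of_nonneg_left h2 h4.le).trans h3.le
  by_contra hc
  push Not at hc
  have h6 : (1 + 2 * x) * (1 - x) < Real.exp x * (1 - x) :=
    mul_lt_mul_of_pos_right hc (by linarith)
  nlinarith

private theorem SmG_sq (b : ℝ) : b ^ 2 ≤ Real.exp b + Real.exp (-b) - 2 := by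
  have h1 : Real.exp b + Real.exp (-b) - 2 = (2 * Real.sinh (b / 2)) ^ 2 := by
    rw [Real.sinh_eq]
    have e1 : Real.exp b = Real.exp (b / 2) * Real.exp (b / 2) := by
      rw [← Real.exp_add]; ring_nf
    have e2 : Real.exp (-b) = Real.exp (-(b / 2)) * Real.exp (-(b / 2)) := by
      rw [← Real.exp_add]; ring_nf
    have e3 : Real.exp (b / 2) * Real.exp (-(b / 2)) = 1 := by
      rw [← Real.exp_add]; simp
    rw [e1, e2]
    nlinarith only [e3]
  rw [h1]
  have h2 : |b / 2| ≤ |Real.sinh (b / 2)| := by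
    rcases le_total 0 (b / 2) with hb | hb
    · rw [abs_of_nonneg hb, abs_of_nonneg (Real.sinh_nonneg_iff.2 hb)]
      exact Real.self_le_sinh_iff.2 hb
    · rw [abs_of_nonpos hb, abs_of_nonpos (Real.sinh_nonpos_iff.2 hb)]
      exact neg_le_neg (Real.sinh_le_self_iff.2 hb)
  have h3 := sq_le_sq' (by have := abs_nonneg (Real.sinh (b / 2)); have := abs_nonneg (b / 2); linarith) h2
  rw [sq_abs, sq_abs] at h3
  nlinarith

private theorem SmG_E1 {N : ℕ} (hN : 2 ≤ N) {Ω0 : Type} [MeasurableSpace Ω0] (ν : Measure Ω0)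
    (b : Ω0 → ℝ) (hb : Measurable b) (gd : Set Ω0) (hgd : MeasurableSet gd)
    {h ε η s' g' el r : ℝ} (hh : 0 < h) (hNh : N * h ≤ 1) (hel : 0 < el) (hs' : 0 < s')
    (hs1 : s' ≤ 1) (hg0 : 0 ≤ g') (hg1 : g' ≤ 1) (hκ : 32 * s' ≤ el) (hε : 0 ≤ ε) (hη : 0 ≤ η)
    (hbd : ∀ a ∈ gd, 16 * s' * b a ^ 2 ≤ el)
    (mgf : ∀ r, |r| ≤ 2 → ∫⁻ a in gd, ENNReal.ofReal (Real.exp (r * b a)) ∂ν ≤
      ENNReal.ofReal (1 + (lamN N * r + r ^ 2 / 2 + |r| * η + ε) * h)) :
    ∫⁻ a in gd, ENNReal.ofReal (Real.exp (-(s' * g' * (b a - r)) + 4 * s' * (b a - r) ^ 2 / el)) ∂ν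
      ≤ ENNReal.ofReal (Real.exp ((s' ^ 2 / 2 + 16 * s' / el + ε + (s' + 32 * s' / el) * η) * h +
        s' * g' * r + 8 * s' * r ^ 2 / el)) := by
  set K : ℝ := Real.exp (s' * g' * r + 8 * s' * r ^ 2 / el) with hK
  have hK0 : 0 < K := Real.exp_pos _
  set κ : ℝ := 16 * s' / el with hκd
  have hκ0 : 0 ≤ κ := by positivity
  have hκ1 : 2 * κ ≤ 1 := by
    rw [hκd, ← mul_div_assoc, div_le_one hel]
    linarith
  set ρ : ℝ := -(s' * g') with hρ
  have hsg : s' * g' ≤ s' := by nlinarith only [hs', hg1]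
  have hsg0 : 0 ≤ s' * g' := by positivity
  have hmE : ∀ c : ℝ, Measurable (fun a => ENNReal.ofReal (Real.exp (c * b a))) := fun c =>
    (Real.measurable_exp.comp (hb.const_mul c)).ennreal_ofReal
  have hpt : ∀ a ∈ gd,
      ENNReal.ofReal (Real.exp (-(s' * g' * (b a - r)) + 4 * s' * (b a - r) ^ 2 / el)) ≤
      ENNReal.ofReal (K * (1 - 2 * κ)) * ENNReal.ofReal (Real.exp (ρ * b a)) +
        (ENNReal.ofReal (K * κ) * ENNReal.ofReal (Real.exp ((ρ + 1) * b a)) +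
        ENNReal.ofReal (K * κ) * ENNReal.ofReal (Real.exp ((ρ - 1) * b a))) := by
    intro a ha
    have hKk : 0 ≤ K * (1 - 2 * κ) := mul_nonneg hK0.le (by linarith)
    rw [← ENNReal.ofReal_mul hKk, ← ENNReal.ofReal_mul (by positivity),
      ← ENNReal.ofReal_mul (by positivity), ← ENNReal.ofReal_add (by positivity) (by positivity),
      ← ENNReal.ofReal_add (by positivity) (by positivity)]
    refine ENNReal.ofReal_le_ofReal ?_
    have h1 : -(s' * g' * (b a - r)) + 4 * s' * (b a - r) ^ 2 / el ≤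
        (s' * g' * r + 8 * s' * r ^ 2 / el) + (ρ * b a + 8 * s' * b a ^ 2 / el) := by
      have h2 : (b a - r) ^ 2 ≤ 2 * b a ^ 2 + 2 * r ^ 2 := by nlinarith only [sq_nonneg (b a + r)]
      have h3 : 4 * s' * (b a - r) ^ 2 / el ≤ 4 * s' * (2 * b a ^ 2 + 2 * r ^ 2) / el := by
        gcongr
      have h4 : 4 * s' * (2 * b a ^ 2 + 2 * r ^ 2) / el =
          8 * s' * b a ^ 2 / el + 8 * s' * r ^ 2 / el := by ring
      rw [hρ]
      linarith
    refine (Real.exp_le_exp.2 h1).trans ?_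
    rw [Real.exp_add, Real.exp_add (ρ * b a), ← hK]
    have h5 : Real.exp (8 * s' * b a ^ 2 / el) ≤ 1 + 2 * (8 * s' * b a ^ 2 / el) := by
      refine SmG_exp1 (by positivity) ?_
      rw [div_le_iff₀ hel]
      have := hbd a ha
      linarith
    have h6 : 1 + 2 * (8 * s' * b a ^ 2 / el) = 1 + κ * b a ^ 2 := by rw [hκd]; ring
    have h7 : Real.exp (8 * s' * b a ^ 2 / el) ≤ 1 + κ * (Real.exp (b a) + Real.exp (-b a) - 2) := by
      have := mul_le_mul_of_nonneg_left (SmG_sq (b a)) hκ0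
      linarith
    have h8 : Real.exp ((ρ + 1) * b a) = Real.exp (ρ * b a) * Real.exp (b a) := by
      rw [← Real.exp_add]; ring_nf
    have h9 : Real.exp ((ρ - 1) * b a) = Real.exp (ρ * b a) * Real.exp (-b a) := by
      rw [← Real.exp_add]; ring_nf
    rw [h8, h9]
    have h10 : K * (Real.exp (ρ * b a) * Real.exp (8 * s' * b a ^ 2 / el)) ≤
        K * (Real.exp (ρ * b a) * (1 + κ * (Real.exp (b a) + Real.exp (-b a) - 2))) := by
      gcongr
    refine h10.trans (le_of_eq ?_)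
    ring
  calc ∫⁻ a in gd, ENNReal.ofReal
        (Real.exp (-(s' * g' * (b a - r)) + 4 * s' * (b a - r) ^ 2 / el)) ∂ν
      ≤ ∫⁻ a in gd, (ENNReal.ofReal (K * (1 - 2 * κ)) * ENNReal.ofReal (Real.exp (ρ * b a)) +
        (ENNReal.ofReal (K * κ) * ENNReal.ofReal (Real.exp ((ρ + 1) * b a)) +
        ENNReal.ofReal (K * κ) * ENNReal.ofReal (Real.exp ((ρ - 1) * b a)))) ∂ν :=
        setLIntegral_mono' hgd hpt
    _ = ENNReal.ofReal (K * (1 - 2 * κ)) * ∫⁻ a in gd, ENNReal.ofReal (Real.exp (ρ * b a)) ∂ν +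
        (ENNReal.ofReal (K * κ) * ∫⁻ a in gd, ENNReal.ofReal (Real.exp ((ρ + 1) * b a)) ∂ν +
        ENNReal.ofReal (K * κ) * ∫⁻ a in gd, ENNReal.ofReal (Real.exp ((ρ - 1) * b a)) ∂ν) := by
        rw [lintegral_add_left ((hmE ρ).const_mul _), lintegral_add_left ((hmE (ρ + 1)).const_mul _),
          lintegral_const_mul _ (hmE ρ), lintegral_const_mul _ (hmE (ρ + 1)),
          lintegral_const_mul _ (hmE (ρ - 1))]
    _ ≤ ENNReal.ofReal (K * (1 - 2 * κ)) *
          ENNReal.ofReal (1 + (lamN N * ρ + ρ ^ 2 / 2 + |ρ| * η + ε) * h) +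
        (ENNReal.ofReal (K * κ) *
          ENNReal.ofReal (1 + (lamN N * (ρ + 1) + (ρ + 1) ^ 2 / 2 + |ρ + 1| * η + ε) * h) +
        ENNReal.ofReal (K * κ) *
          ENNReal.ofReal (1 + (lamN N * (ρ - 1) + (ρ - 1) ^ 2 / 2 + |ρ - 1| * η + ε) * h)) := by
        gcongr
        · exact mgf ρ (by rw [hρ, abs_le]; constructor <;> linarith)
        · exact mgf (ρ + 1) (by rw [hρ, abs_le]; constructor <;> linarith)
        · exact mgf (ρ - 1) (by rw [hρ, abs_le]; constructor <;> linarith)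
    _ ≤ _ := by
        have hl0 : 0 ≤ lamN N := by
          unfold lamN
          have : (2 : ℝ) ≤ N := by exact_mod_cast hN
          linarith
        have hl1 : 2 * lamN N * h ≤ 1 := by
          unfold lamN
          nlinarith only [hh, hNh]
        have hnn : ∀ p : ℝ, -2 ≤ p → 0 ≤ 1 + (lamN N * p + p ^ 2 / 2 + |p| * η + ε) * h := by
          intro p hp
          have h1 : lamN N * (-2) ≤ lamN N * p := mul_le_mul_of_nonneg_left hp hl0
          have h2 : 0 ≤ (p ^ 2 / 2 + |p| * η + ε) * h := by positivity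
          nlinarith only [hl1, h2, hh, h1]
        have hKk : 0 ≤ K * (1 - 2 * κ) := mul_nonneg hK0.le (by linarith)
        have n1 := hnn ρ (by rw [hρ]; linarith)
        have n2 := hnn (ρ + 1) (by rw [hρ]; linarith)
        have n3 := hnn (ρ - 1) (by rw [hρ]; linarith)
        rw [← ENNReal.ofReal_mul hKk, ← ENNReal.ofReal_mul (by positivity),
          ← ENNReal.ofReal_mul (by positivity), ← ENNReal.ofReal_add (by positivity) (by positivity),
          ← ENNReal.ofReal_add (mul_nonneg hKk n1) (by positivity)]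
        refine ENNReal.ofReal_le_ofReal ?_
        have e1 : (s' ^ 2 / 2 + 16 * s' / el + ε + (s' + 32 * s' / el) * η) * h + s' * g' * r +
            8 * s' * r ^ 2 / el =
            (s' * g' * r + 8 * s' * r ^ 2 / el) + (s' ^ 2 / 2 + κ + ε + (s' + 2 * κ) * η) * h := by
          rw [hκd]; ring
        rw [e1, Real.exp_add, ← hK]
        have a1 : |ρ| = s' * g' := by rw [hρ, abs_neg, abs_of_nonneg hsg0]
        have a2 : |ρ + 1| = ρ + 1 := abs_of_nonneg (by rw [hρ]; linarith)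
        have a3 : |ρ - 1| = 1 - ρ := by
          rw [abs_sub_comm]
          exact abs_of_nonneg (by rw [hρ]; linarith)
        have e2 : K * (1 - 2 * κ) * (1 + (lamN N * ρ + ρ ^ 2 / 2 + |ρ| * η + ε) * h) +
            (K * κ * (1 + (lamN N * (ρ + 1) + (ρ + 1) ^ 2 / 2 + |ρ + 1| * η + ε) * h) +
            K * κ * (1 + (lamN N * (ρ - 1) + (ρ - 1) ^ 2 / 2 + |ρ - 1| * η + ε) * h)) =
            K * (1 + (lamN N * ρ + ρ ^ 2 / 2 + κ + ε +
              ((1 - 2 * κ) * (s' * g') + 2 * κ) * η) * h) := by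
          rw [a1, a2, a3]; ring
        rw [e2]
        refine mul_le_mul_of_nonneg_left ?_ hK0.le
        refine le_trans ?_ (Real.add_one_le_exp _)
        have h1 : lamN N * ρ ≤ 0 := by
          rw [hρ]
          have := mul_nonneg hl0 hsg0
          linarith only [this]
        have h2 : ρ ^ 2 ≤ s' ^ 2 := by
          rw [hρ]
          nlinarith only [hg1, hsg, hsg0]
        have h3 : ((1 - 2 * κ) * (s' * g') + 2 * κ) * η ≤ (s' + 2 * κ) * η := by
          refine mul_le_mul_of_nonneg_right ?_ hη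
          have : (1 - 2 * κ) * (s' * g') ≤ 1 * s' :=
            mul_le_mul (by linarith only [hκ0]) hsg hsg0 zero_le_one
          linarith only [this]
        have h4 : lamN N * ρ + ρ ^ 2 / 2 + κ + ε + ((1 - 2 * κ) * (s' * g') + 2 * κ) * η ≤
            s' ^ 2 / 2 + κ + ε + (s' + 2 * κ) * η := by linarith only [h1, h2, h3]
        have h5 := mul_le_mul_of_nonneg_right h4 hh.le
        linarith only [h5]

/-- good noise everywhere -/

private theorem SmG_site {ι : Type} [Fintype ι] {d : ℕ} (net : Net ι d) {Ω : Type}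
    [MeasurableSpace Ω] (P : Measure Ω) [IsProbabilityMeasure P]
    (b : Ω → ι → ℝ) (hb : Measurable b) (Gd : Set Ω) (hgd : MeasurableSet Gd) {β h k C1 : ℝ}
    (hβ : 0 < β) (hh : 0 < h) (hh1 : h < 1) (hk : 0 < k) (hC1 : 0 ≤ C1)
    (hhs : 2 ^ β * h ^ (3 / 4 : ℝ) + h / 2 ≤ 1 / 2)
    (hbd : ∀ ω ∈ Gd, ∀ x, |b ω x| ≤ Real.log 2) (w : ι)
    (hm : ∫⁻ ω in Gd, ENNReal.ofReal (Real.exp (b ω w)) ∂P ≤ ENNReal.ofReal (1 + C1 * h))
    (u : ι → ℝ) (hu0 : ∀ x, 0 ≤ u x) (hu : ∀ x, u x ≤ rad β h) (up : Ω → ι → ℝ)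
    (Q : ∀ ω ∈ Gd, QStep net β h k (b ω) u (up ω)) :
    0 ≤ u w - h * (1 / 2 * (1 / 4) ^ (1 + β) * u w ^ (1 + β)) ∧
    ∫⁻ ω in Gd, ENNReal.ofReal (up ω w) ∂P ≤
      ENNReal.ofReal ((1 + C1 * h) * (u w - h * (1 / 2 * (1 / 4) ^ (1 + β) * u w ^ (1 + β))) +
        k * h * cpl net u w) := by
  have hrf := rad_facts hβ hh hh1 (hu0 w) (hu w)
  have hA : 0 ≤ u w - h * (1 / 2 * (1 / 4) ^ (1 + β) * u w ^ (1 + β)) := by
    rcases (hu0 w).lt_or_eq with h0 | h0
    · have h1 : u w ^ (1 + β) = u w * u w ^ β := by rw [Real.rpow_add h0, Real.rpow_one]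
      have h2 : (1 / 4 : ℝ) ^ (1 + β) ≤ 1 :=
        Real.rpow_le_one (by norm_num) (by norm_num) (by linarith)
      have h3 : h ^ (3 / 4 : ℝ) ≤ 1 := Real.rpow_le_one hh.le hh1.le (by norm_num)
      have h4 : (0 : ℝ) < (1 / 4 : ℝ) ^ (1 + β) := Real.rpow_pos_of_pos (by norm_num) _
      have h5 : 0 ≤ h * u w ^ β := by positivity
      have h6 : (1 / 4 : ℝ) ^ (1 + β) * (h * u w ^ β) ≤ 1 := by nlinarith only [hrf, h3, hh, hh1, h2, h5]
      rw [h1]
      nlinarith only [hh, h0, hh1, h6]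
    · rw [← h0, Real.zero_rpow (by linarith)]
      simp
  refine ⟨hA, ?_⟩
  set A : ℝ := u w - h * (1 / 2 * (1 / 4) ^ (1 + β) * u w ^ (1 + β)) with hAd
  set B : ℝ := k * h * cpl net u w with hB
  have hB0 : 0 ≤ B := by
    rw [hB]
    unfold cpl
    have : 0 ≤ ∑ y ∈ net.nb w, u y := Finset.sum_nonneg fun y _ => hu0 y
    have := hu0 w
    positivity
  have hpt : ∀ ω ∈ Gd, ENNReal.ofReal (up ω w) ≤
      ENNReal.ofReal A * ENNReal.ofReal (Real.exp (b ω w)) + ENNReal.ofReal B := by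
    intro ω hω
    rw [← ENNReal.ofReal_mul hA, ← ENNReal.ofReal_add (by positivity) hB0]
    refine ENNReal.ofReal_le_ofReal ?_
    have h1 := (Q ω hω).up w
    have h2 := SmG_up hβ hh hh1 hhs (hu0 w) (hu w) (hbd _ hω w)
    rw [← hAd] at h2
    rw [← hB] at h1
    rw [mul_comm A]
    exact h1.trans (add_le_add_left h2 B)
  have hmE' : Measurable (fun ω : Ω => ENNReal.ofReal (Real.exp (b ω w))) :=
    (Real.measurable_exp.comp ((measurable_pi_apply w).comp hb)).ennreal_ofReal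
  calc ∫⁻ ω in Gd, ENNReal.ofReal (up ω w) ∂P
      ≤ ∫⁻ ω in Gd, (ENNReal.ofReal A * ENNReal.ofReal (Real.exp (b ω w)) +
          ENNReal.ofReal B) ∂P :=
        setLIntegral_mono' hgd hpt
    _ = ENNReal.ofReal A * ∫⁻ ω in Gd, ENNReal.ofReal (Real.exp (b ω w)) ∂P +
          ENNReal.ofReal B * P Gd := by
        rw [lintegral_add_right _ measurable_const, lintegral_const_mul _ hmE',
          setLIntegral_const]
    _ ≤ ENNReal.ofReal A * ENNReal.ofReal (1 + C1 * h) + ENNReal.ofReal B * 1 := by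
        gcongr
        exact prob_le_one
    _ = _ := by
        rw [mul_one, ← ENNReal.ofReal_mul hA, ← ENNReal.ofReal_add (by positivity) hB0]
        congr 1
        ring

private theorem SmG_pm2 {p a b : ℝ} (hp : 1 ≤ p) (ha : 0 ≤ a) (hb : 0 ≤ b) :
    (2 : ℝ) ^ (-(p - 1)) * (a + b) ^ p ≤ a ^ p + b ^ p := by
  have h1 := NNReal.rpow_add_le_mul_rpow_add_rpow ⟨a, ha⟩ ⟨b, hb⟩ hp
  have h2 : (a + b) ^ p ≤ 2 ^ (p - 1) * (a ^ p + b ^ p) := by exact_mod_cast h1
  have h3 : (0 : ℝ) < 2 ^ (p - 1) := Real.rpow_pos_of_pos two_pos _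
  rw [Real.rpow_neg two_pos.le, inv_mul_le_iff₀ h3]
  exact h2

private theorem SmG_cpl {ι : Type} [Fintype ι] {d : ℕ} (net : Net ι d) (t : ι → ℝ)
    (ht : ∀ x, 0 ≤ t x) (z : ι) :
    ∑ w, (1 / 2 : ℝ) ^ net.dist z w * cpl net t w ≤
      6 * d * ∑ w, (1 / 2 : ℝ) ^ net.dist z w * t w := by
  classical
  have h1 : ∑ w, (1 / 2 : ℝ) ^ net.dist z w * ∑ y ∈ net.nb w, t y ≤
      4 * d * ∑ w, (1 / 2 : ℝ) ^ net.dist z w * t w := by
    calc ∑ w, (1 / 2 : ℝ) ^ net.dist z w * ∑ y ∈ net.nb w, t y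
        ≤ ∑ w, ∑ y ∈ net.nb w, 2 * ((1 / 2 : ℝ) ^ net.dist z y * t y) := by
          refine Finset.sum_le_sum fun w _ => ?_
          rw [Finset.mul_sum]
          refine Finset.sum_le_sum fun y hy => ?_
          have h2 : net.dist z y ≤ net.dist z w + 1 := by
            have h3 := net.dist_tri z w y
            rw [net.dist_nb w y hy] at h3
            exact h3
          have h3 : (1 / 2 : ℝ) ^ (net.dist z w + 1) ≤ (1 / 2 : ℝ) ^ net.dist z y :=
            pow_le_pow_of_le_one (by norm_num) (by norm_num) h2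
          rw [pow_succ] at h3
          have h4 := mul_le_mul_of_nonneg_right h3 (ht y)
          linarith
      _ = ∑ y, ∑ _w ∈ net.nb y, 2 * ((1 / 2 : ℝ) ^ net.dist z y * t y) := by
          refine Finset.sum_comm' ?_
          intro x y
          constructor
          · rintro ⟨_, h⟩
            exact ⟨net.nb_symm _ _ h, Finset.mem_univ _⟩
          · rintro ⟨h, _⟩
            exact ⟨Finset.mem_univ _, net.nb_symm _ _ h⟩
      _ ≤ ∑ y, 2 * d * (2 * ((1 / 2 : ℝ) ^ net.dist z y * t y)) := by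
          refine Finset.sum_le_sum fun y _ => ?_
          rw [Finset.sum_const, nsmul_eq_mul]
          have h2 : ((net.nb y).card : ℝ) ≤ 2 * d := by exact_mod_cast net.nb_card y
          refine mul_le_mul_of_nonneg_right h2 ?_
          have := ht y
          positivity
      _ = 4 * d * ∑ w, (1 / 2 : ℝ) ^ net.dist z w * t w := by
          rw [← Finset.mul_sum, ← Finset.mul_sum]
          ring
  have h2 : ∑ w, (1 / 2 : ℝ) ^ net.dist z w * cpl net t w =
      ∑ w, (1 / 2 : ℝ) ^ net.dist z w * ∑ y ∈ net.nb w, t y +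
        2 * d * ∑ w, (1 / 2 : ℝ) ^ net.dist z w * t w := by
    rw [Finset.mul_sum, ← Finset.sum_add_distrib]
    refine Finset.sum_congr rfl fun w _ => ?_
    unfold cpl
    push_cast
    ring
  rw [h2]
  linarith

private theorem SmG_pmean {ι : Type} [Fintype ι] {d : ℕ} (net : Net ι d) {β : ℝ} (hβ : 0 < β)
    (t : ι → ℝ) (ht : ∀ x, 0 ≤ t x) (z : ι) :
    ((3 : ℝ) ^ d) ^ (-β) * (∑ w, (1 / 2 : ℝ) ^ net.dist z w * t w) ^ (1 + β) ≤
      ∑ w, (1 / 2 : ℝ) ^ net.dist z w * t w ^ (1 + β) := by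
  set P : ℝ := ∑ w, (1 / 2 : ℝ) ^ net.dist z w with hP
  have hP1 : P ≤ 3 ^ d := net.sum_half z
  have hP0 : 0 < P := by
    have h1 : (1 / 2 : ℝ) ^ net.dist z z ≤ P :=
      Finset.single_le_sum (f := fun w => (1 / 2 : ℝ) ^ net.dist z w)
        (fun w _ => by positivity) (Finset.mem_univ z)
    rw [net.dist_self, pow_zero] at h1
    linarith
  set X : ℝ := ∑ w, (1 / 2 : ℝ) ^ net.dist z w * t w with hX
  have hX0 : 0 ≤ X := Finset.sum_nonneg fun w _ => mul_nonneg (by positivity) (ht w)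
  set Y : ℝ := ∑ w, (1 / 2 : ℝ) ^ net.dist z w * t w ^ (1 + β) with hY
  have h1 := Real.rpow_arith_mean_le_arith_mean_rpow Finset.univ
    (fun w => (1 / 2 : ℝ) ^ net.dist z w / P) t (fun w _ => by positivity)
    (by rw [← Finset.sum_div, ← hP, div_self hP0.ne']) (fun w _ => ht w)
    (p := 1 + β) (by linarith)
  have e1 : ∑ w, (1 / 2 : ℝ) ^ net.dist z w / P * t w = X / P := by
    rw [hX, Finset.sum_div]
    exact Finset.sum_congr rfl fun w _ => by ring
  have e2 : ∑ w, (1 / 2 : ℝ) ^ net.dist z w / P * t w ^ (1 + β) = Y / P := by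
    rw [hY, Finset.sum_div]
    exact Finset.sum_congr rfl fun w _ => by ring
  rw [e1, e2, Real.div_rpow hX0 hP0.le, Real.rpow_add hP0, Real.rpow_one] at h1
  have h2 : 0 ≤ X ^ (1 + β) := Real.rpow_nonneg hX0 _
  have hPβ : 0 < P ^ β := Real.rpow_pos_of_pos hP0 _
  have h3 : X ^ (1 + β) ≤ Y * P ^ β := by
    rw [div_le_div_iff₀ (by positivity) hP0] at h1
    have h4 : X ^ (1 + β) * P ≤ (Y * P ^ β) * P := by linarith
    exact le_of_mul_le_mul_right h4 hP0
  have h5 : ((3 : ℝ) ^ d) ^ (-β) ≤ (P ^ β)⁻¹ := by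
    rw [Real.rpow_neg (by positivity)]
    exact inv_anti₀ hPβ (Real.rpow_le_rpow hP0.le hP1 hβ.le)
  calc ((3 : ℝ) ^ d) ^ (-β) * X ^ (1 + β) ≤ (P ^ β)⁻¹ * X ^ (1 + β) :=
        mul_le_mul_of_nonneg_right h5 h2
    _ ≤ Y := by
        rw [inv_mul_le_iff₀ hPβ]
        linarith

private theorem SmG_det (d : ℕ) {β C1 : ℝ} (hβ : 0 < β) (hC1 : 0 ≤ C1) :
    ∃ A c' : ℝ, 0 < A ∧ 0 < c' ∧ ∀ {ι : Type} [Fintype ι] (net : Net ι d) (h k : ℝ)
      (u u' t : ι → ℝ) (z : ι), 0 < h → 0 < k → k ≤ 1 → (∀ x, 0 ≤ u x) → (∀ x, 0 ≤ u' x) →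
      (∀ x, t x = u x + u' x) →
      ∑ w, (1 / 2 : ℝ) ^ net.dist z w *
        (((1 + C1 * h) * (u w - h * (1 / 2 * (1 / 4) ^ (1 + β) * u w ^ (1 + β))) +
          k * h * cpl net u w) +
        ((1 + C1 * h) * (u' w - h * (1 / 2 * (1 / 4) ^ (1 + β) * u' w ^ (1 + β))) +
          k * h * cpl net u' w)) ≤
      (∑ w, (1 / 2 : ℝ) ^ net.dist z w * t w) +
        h * (A - c' * (∑ w, (1 / 2 : ℝ) ^ net.dist z w * t w) ^ (1 + β)) := by
  set c0 : ℝ := 1 / 2 * (1 / 4) ^ (1 + β) with hc0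
  have hc00 : 0 < c0 := by
    have : (0 : ℝ) < (1 / 4 : ℝ) ^ (1 + β) := Real.rpow_pos_of_pos (by norm_num) _
    positivity
  set c2 : ℝ := c0 * 2 ^ (-(1 + β - 1)) * ((3 : ℝ) ^ d) ^ (-β) with hc2
  have h2p : (0 : ℝ) < 2 ^ (-(1 + β - 1)) := Real.rpow_pos_of_pos two_pos _
  have h3p : (0 : ℝ) < ((3 : ℝ) ^ d) ^ (-β) := Real.rpow_pos_of_pos (by positivity) _
  have hc20 : 0 < c2 := by positivity
  set C2 : ℝ := C1 + 6 * d + 1 with hC2
  have hC20 : 0 < C2 := by positivity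
  refine ⟨C2 * (2 * C2 / c2) ^ (1 / β), c2 / 2, ?_, by positivity, ?_⟩
  · have : 0 < (2 * C2 / c2) ^ (1 / β) := Real.rpow_pos_of_pos (by positivity) _
    positivity
  intro ι _ net h k u u' t z hh hk hk1 hu hu' htu
  have ht : ∀ x, 0 ≤ t x := fun x => by rw [htu]; have := hu x; have := hu' x; linarith
  set X : ℝ := ∑ w, (1 / 2 : ℝ) ^ net.dist z w * t w with hX
  have hX0 : 0 ≤ X := Finset.sum_nonneg fun w _ => mul_nonneg (by positivity) (ht w)
  -- pointwise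
  have hp : ∀ w, (1 / 2 : ℝ) ^ net.dist z w *
        (((1 + C1 * h) * (u w - h * (c0 * u w ^ (1 + β))) + k * h * cpl net u w) +
        ((1 + C1 * h) * (u' w - h * (c0 * u' w ^ (1 + β))) + k * h * cpl net u' w)) ≤
      (1 + C1 * h) * ((1 / 2 : ℝ) ^ net.dist z w * t w) -
        h * (c0 * 2 ^ (-(1 + β - 1))) * ((1 / 2 : ℝ) ^ net.dist z w * t w ^ (1 + β)) +
        k * h * ((1 / 2 : ℝ) ^ net.dist z w * cpl net t w) := by
    intro w
    have h1 : cpl net t w = cpl net u w + cpl net u' w := by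
      unfold cpl
      rw [htu w, Finset.sum_congr rfl (fun y _ => htu y), Finset.sum_add_distrib]
      ring
    have h2 := SmG_pm2 (p := 1 + β) (by linarith) (hu w) (hu' w)
    rw [← htu w] at h2
    have hp0 : (0 : ℝ) < (1 / 2 : ℝ) ^ net.dist z w := by positivity
    have hur : 0 ≤ u w ^ (1 + β) := Real.rpow_nonneg (hu w) _
    have hur' : 0 ≤ u' w ^ (1 + β) := Real.rpow_nonneg (hu' w) _
    have h3 : 0 ≤ C1 * h * (h * (c0 * u w ^ (1 + β))) := by positivity
    have h4 : 0 ≤ C1 * h * (h * (c0 * u' w ^ (1 + β))) := by positivity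
    have h5 := mul_le_mul_of_nonneg_left h2 (by positivity : 0 ≤ h * c0)
    have h6 : ((1 + C1 * h) * (u w - h * (c0 * u w ^ (1 + β))) + k * h * cpl net u w) +
        ((1 + C1 * h) * (u' w - h * (c0 * u' w ^ (1 + β))) + k * h * cpl net u' w) ≤
        (1 + C1 * h) * t w - h * (c0 * 2 ^ (-(1 + β - 1))) * t w ^ (1 + β) +
          k * h * cpl net t w := by
      rw [h1, htu w] at *
      nlinarith only [h3, h4, h5]
    have h7 := mul_le_mul_of_nonneg_left h6 hp0.le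
    refine h7.trans (le_of_eq ?_)
    ring
  have hs := Finset.sum_le_sum (fun w (_ : w ∈ Finset.univ) => hp w)
  rw [Finset.sum_add_distrib, Finset.sum_sub_distrib, ← Finset.mul_sum, ← Finset.mul_sum,
    ← Finset.mul_sum, ← hX] at hs
  have h8 := SmG_cpl net t ht z
  rw [← hX] at h8
  have h9 := SmG_pmean net hβ t ht z
  rw [← hX] at h9
  have h10 : k * h * ∑ w, (1 / 2 : ℝ) ^ net.dist z w * cpl net t w ≤ h * (6 * d * X) := by
    have h11 : k * h * ∑ w, (1 / 2 : ℝ) ^ net.dist z w * cpl net t w ≤ k * h * (6 * d * X) :=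
      mul_le_mul_of_nonneg_left h8 (by positivity)
    have h12 : k * (h * (6 * d * X)) ≤ 1 * (h * (6 * d * X)) :=
      mul_le_mul_of_nonneg_right hk1 (by positivity)
    linarith only [h11, h12]
  have h13 := mul_le_mul_of_nonneg_left h9 (by positivity : 0 ≤ h * (c0 * 2 ^ (-(1 + β - 1))))
  have h14 : C2 * X - c2 * X ^ (1 + β) ≤
      C2 * (2 * C2 / c2) ^ (1 / β) - c2 / 2 * X ^ (1 + β) := by
    rcases le_total X ((2 * C2 / c2) ^ (1 / β)) with hc | hc
    · have h15 := mul_le_mul_of_nonneg_left hc hC20.le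
      have h16 : 0 ≤ X ^ (1 + β) := Real.rpow_nonneg hX0 _
      nlinarith only [h15, hc20, h16]
    · have hr0 : 0 < (2 * C2 / c2) ^ (1 / β) := Real.rpow_pos_of_pos (by positivity) _
      have hXp : 0 < X := hr0.trans_le hc
      have h15 := Real.rpow_le_rpow hr0.le hc hβ.le
      rw [← Real.rpow_mul (by positivity), one_div, inv_mul_cancel₀ hβ.ne', Real.rpow_one,
        div_le_iff₀ hc20] at h15
      have h16 : X ^ (1 + β) = X * X ^ β := by rw [Real.rpow_add hXp, Real.rpow_one]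
      have h17 := mul_le_mul_of_nonneg_left h15 hXp.le
      rw [h16]
      have h18 : 0 < C2 * (2 * C2 / c2) ^ (1 / β) := by positivity
      rw [one_div] at h18 ⊢
      nlinarith only [h17, h18]
  have h19 := mul_le_mul_of_nonneg_left h14 hh.le
  refine hs.trans ?_
  have e : h * (c0 * 2 ^ (-(1 + β - 1))) * (((3 : ℝ) ^ d) ^ (-β) * X ^ (1 + β)) =
      h * (c2 * X ^ (1 + β)) := by rw [hc2]; ring
  rw [e] at h13
  have h20 : h * (C2 * X) = h * (C1 * X) + h * (6 * d * X) + h * X := by rw [hC2]; ring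
  have h21 : 0 ≤ h * X := by positivity
  nlinarith only [h10, h13, h19, h21]

private theorem SmG_cpl0 {ι : Type} [Fintype ι] {d : ℕ} (net : Net ι d) (u : ι → ℝ)
    (hu : ∀ x, 0 ≤ u x) (w : ι) : 0 ≤ cpl net u w := by
  unfold cpl
  have h1 : 0 ≤ ∑ y ∈ net.nb w, u y := Finset.sum_nonneg fun y _ => hu y
  have h2 := hu w
  positivity

private theorem SmG_ES (d : ℕ) {β C0 : ℝ} (hβ : 0 < β) (hC0 : 0 ≤ C0) :
    ∃ A c' : ℝ, 0 < A ∧ 0 < c' ∧ ∀ {ι : Type} [Fintype ι] (net : Net ι d) {Ω : Type}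
      [MeasurableSpace Ω] (P : Measure Ω) [IsProbabilityMeasure P]
      (b b' : Ω → ι → ℝ) (_ : Measurable b) (_ : Measurable b') (Gd : Set Ω)
      (_ : MeasurableSet Gd) {h k e0 : ℝ}
      (_ : 0 < h) (_ : h < 1) (_ : 0 < k) (_ : k ≤ 1) (_ : 0 ≤ e0)
      (_ : 2 ^ β * h ^ (3 / 4 : ℝ) + h / 2 ≤ 1 / 2)
      (_ : ∀ ω ∈ Gd, ∀ x, |b ω x| ≤ Real.log 2) (_ : ∀ ω ∈ Gd, ∀ x, |b' ω x| ≤ Real.log 2)
      (_ : ∀ w, ∫⁻ ω in Gd, ENNReal.ofReal (Real.exp (b ω w)) ∂P ≤
        ENNReal.ofReal (1 + (C0 + e0) * h))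
      (_ : ∀ w, ∫⁻ ω in Gd, ENNReal.ofReal (Real.exp (b' ω w)) ∂P ≤
        ENNReal.ofReal (1 + (C0 + e0) * h))
      (u u' t : ι → ℝ) (_ : ∀ x, 0 ≤ u x) (_ : ∀ x, u x ≤ rad β h) (_ : ∀ x, 0 ≤ u' x)
      (_ : ∀ x, u' x ≤ rad β h) (_ : ∀ x, t x = u x + u' x)
      (up up' tp : Ω → ι → ℝ) (_ : ∀ ω x, tp ω x = up ω x + up' ω x)
      (_ : ∀ x, Measurable fun ω => up ω x) (_ : ∀ x, Measurable fun ω => up' ω x)
      (_ : ∀ ω ∈ Gd, QStep net β h k (b ω) u (up ω))
      (_ : ∀ ω ∈ Gd, QStep net β h k (b' ω) u' (up' ω)) (z : ι),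
      ∫⁻ ω in Gd, ENNReal.ofReal (SSt net k (tp ω) z / SSt net k t z) ∂P ≤
        ENNReal.ofReal (Real.exp (h * k ^ (1 / 16 : ℝ) * A + e0 * h)) ∧
      (1 ≤ k ^ (1 / 16 : ℝ) * ∑ w, (1 / 2 : ℝ) ^ net.dist z w * t w →
        ∫⁻ ω in Gd, ENNReal.ofReal (SSt net k (tp ω) z / SSt net k t z) ∂P ≤
        ENNReal.ofReal (Real.exp (h * k ^ (1 / 16 : ℝ) * A -
          h * (c' / 2) * (∑ w, (1 / 2 : ℝ) ^ net.dist z w * t w) ^ β + e0 * h))) := by
  obtain ⟨A, c', hA, hc', hdet⟩ := SmG_det d hβ hC0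
  refine ⟨A, c', hA, hc', ?_⟩
  intro ι _ net Ω _ P _ b b' hb hb' Gd hgd h k e0 hh hh1 hk hk1 he0 hhs hbd hbd' hm hm' u u' t hu0
    hu hu0' hu' htu up up' tp htp mup mup' Q Q' z
  have ht : ∀ x, 0 ≤ t x := fun x => by rw [htu]; have := hu0 x; have := hu0' x; linarith
  have hC1 : 0 ≤ C0 + e0 := by linarith
  set k16 : ℝ := k ^ (1 / 16 : ℝ) with hk16
  have hk160 : 0 < k16 := Real.rpow_pos_of_pos hk _
  set X : ℝ := ∑ w, (1 / 2 : ℝ) ^ net.dist z w * t w with hX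
  have hX0 : 0 ≤ X := Finset.sum_nonneg fun w _ => mul_nonneg (by positivity) (ht w)
  set S : ℝ := SSt net k t z with hS
  have hSX : S = 1 + k16 * X := rfl
  have hS1 : 1 ≤ S := by rw [hSX]; have := mul_nonneg hk160.le hX0; linarith
  have hS0 : 0 < S := by linarith
  set U : ι → ℝ := fun w => (1 + (C0 + e0) * h) *
    (u w - h * (1 / 2 * (1 / 4) ^ (1 + β) * u w ^ (1 + β))) + k * h * cpl net u w with hU
  set U' : ι → ℝ := fun w => (1 + (C0 + e0) * h) *
    (u' w - h * (1 / 2 * (1 / 4) ^ (1 + β) * u' w ^ (1 + β))) + k * h * cpl net u' w with hU'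
  have hs1 := fun w => SmG_site net P b hb Gd hgd hβ hh hh1 hk hC1 hhs hbd w (hm w) u hu0 hu up Q
  have hs2 := fun w => SmG_site net P b' hb' Gd hgd hβ hh hh1 hk hC1 hhs hbd' w (hm' w) u' hu0'
    hu' up' Q'
  have hU0 : ∀ w, 0 ≤ U w := fun w => by
    have h1 := (hs1 w).1
    have h2 := SmG_cpl0 net u hu0 w
    simp only [hU]
    positivity
  have hU0' : ∀ w, 0 ≤ U' w := fun w => by
    have h1 := (hs2 w).1
    have h2 := SmG_cpl0 net u' hu0' w
    simp only [hU']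
    positivity
  have hd0 := hdet net h k u u' t z hh hk hk1 hu0 hu0' htu
  rw [← hX] at hd0
  have hd : ∑ w, (1 / 2 : ℝ) ^ net.dist z w * (U w + U' w) ≤
      X + h * (A - c' * X ^ (1 + β)) + e0 * h * X := by
    have g1 : ∀ w ∈ Finset.univ, (1 / 2 : ℝ) ^ net.dist z w * (U w + U' w) ≤
        (1 / 2 : ℝ) ^ net.dist z w *
        (((1 + C0 * h) * (u w - h * (1 / 2 * (1 / 4) ^ (1 + β) * u w ^ (1 + β))) +
          k * h * cpl net u w) +
        ((1 + C0 * h) * (u' w - h * (1 / 2 * (1 / 4) ^ (1 + β) * u' w ^ (1 + β))) +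
          k * h * cpl net u' w)) + e0 * h * ((1 / 2 : ℝ) ^ net.dist z w * t w) := by
      intro w _
      have g2 : 0 ≤ (1 / 2 : ℝ) ^ net.dist z w := by positivity
      have g3 : 0 ≤ h * (1 / 2 * (1 / 4) ^ (1 + β) * u w ^ (1 + β)) := by
        have := Real.rpow_nonneg (hu0 w) (1 + β)
        positivity
      have g4 : 0 ≤ h * (1 / 2 * (1 / 4) ^ (1 + β) * u' w ^ (1 + β)) := by
        have := Real.rpow_nonneg (hu0' w) (1 + β)
        positivity
      have g5 : e0 * h * ((u w - h * (1 / 2 * (1 / 4) ^ (1 + β) * u w ^ (1 + β))) +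
          (u' w - h * (1 / 2 * (1 / 4) ^ (1 + β) * u' w ^ (1 + β)))) ≤ e0 * h * t w := by
        refine mul_le_mul_of_nonneg_left ?_ (by positivity)
        rw [htu]
        linarith only [g3, g4]
      have g6 : U w + U' w ≤
          (((1 + C0 * h) * (u w - h * (1 / 2 * (1 / 4) ^ (1 + β) * u w ^ (1 + β))) +
          k * h * cpl net u w) +
        ((1 + C0 * h) * (u' w - h * (1 / 2 * (1 / 4) ^ (1 + β) * u' w ^ (1 + β))) +
          k * h * cpl net u' w)) + e0 * h * t w := by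
        simp only [hU, hU']
        linarith only [g5]
      have g7 := mul_le_mul_of_nonneg_left g6 g2
      refine g7.trans (le_of_eq ?_)
      ring
    have g8 := Finset.sum_le_sum g1
    rw [Finset.sum_add_distrib, ← Finset.mul_sum, ← hX] at g8
    linarith only [hd0, g8]
  -- integral of SSt
  have hI : ∫⁻ ω in Gd, ENNReal.ofReal (SSt net k (tp ω) z) ∂P ≤
      ENNReal.ofReal (S + (h * k16 * (A - c' * X ^ (1 + β)) + e0 * h * (k16 * X))) := by
    have hpt : ∀ ω ∈ Gd, ENNReal.ofReal (SSt net k (tp ω) z) ≤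
        1 + ∑ w, ENNReal.ofReal (k16 * (1 / 2 : ℝ) ^ net.dist z w) *
          (ENNReal.ofReal (up ω w) + ENNReal.ofReal (up' ω w)) := by
      intro ω hω
      have q1 := (Q ω hω).n1
      have q2 := (Q' ω hω).n1
      have e1 : SSt net k (tp ω) z = 1 + ∑ w, k16 * (1 / 2 : ℝ) ^ net.dist z w *
          (up ω w + up' ω w) := by
        unfold SSt
        rw [Finset.mul_sum]
        congr 1
        refine Finset.sum_congr rfl fun w _ => ?_
        rw [htp]
        ring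
      have hn : ∀ w ∈ Finset.univ, 0 ≤ k16 * (1 / 2 : ℝ) ^ net.dist z w * (up ω w + up' ω w) :=
        fun w _ => mul_nonneg (by positivity) (add_nonneg (q1 w) (q2 w))
      rw [e1, ENNReal.ofReal_add zero_le_one (Finset.sum_nonneg hn), ENNReal.ofReal_one,
        ENNReal.ofReal_sum_of_nonneg hn]
      refine add_le_add_right (Finset.sum_le_sum fun w _ => ?_) 1
      rw [ENNReal.ofReal_mul (by positivity), ENNReal.ofReal_add (q1 w) (q2 w)]
    have m1 : ∀ w, Measurable fun ω : Ω => ENNReal.ofReal (up ω w) :=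
      fun w => (mup w).ennreal_ofReal
    have m2 : ∀ w, Measurable fun ω : Ω => ENNReal.ofReal (up' ω w) :=
      fun w => (mup' w).ennreal_ofReal
    have m12 : ∀ w, Measurable fun ω : Ω => ENNReal.ofReal (up ω w) +
        ENNReal.ofReal (up' ω w) := fun w => (m1 w).add (m2 w)
    have m13 : ∀ w, Measurable fun ω : Ω => ENNReal.ofReal (k16 * (1 / 2 : ℝ) ^ net.dist z w) *
        (ENNReal.ofReal (up ω w) + ENNReal.ofReal (up' ω w)) := fun w => (m12 w).const_mul _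
    calc ∫⁻ ω in Gd, ENNReal.ofReal (SSt net k (tp ω) z) ∂P
        ≤ ∫⁻ ω in Gd, (1 + ∑ w, ENNReal.ofReal (k16 * (1 / 2 : ℝ) ^ net.dist z w) *
          (ENNReal.ofReal (up ω w) + ENNReal.ofReal (up' ω w))) ∂P :=
          setLIntegral_mono' hgd hpt
      _ = P Gd +
          ∑ w, ENNReal.ofReal (k16 * (1 / 2 : ℝ) ^ net.dist z w) *
            (∫⁻ ω in Gd, ENNReal.ofReal (up ω w) ∂P +
            ∫⁻ ω in Gd, ENNReal.ofReal (up' ω w) ∂P) := by
          rw [lintegral_add_left measurable_const, lintegral_finsetSum _ (fun w _ => m13 w)]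
          congr 1
          · rw [setLIntegral_const, one_mul]
          · refine Finset.sum_congr rfl fun w _ => ?_
            rw [lintegral_const_mul _ (m12 w), lintegral_add_left (m1 w)]
      _ ≤ 1 + ∑ w, ENNReal.ofReal (k16 * (1 / 2 : ℝ) ^ net.dist z w) *
            (ENNReal.ofReal (U w) + ENNReal.ofReal (U' w)) := by
          gcongr with w _
          · exact prob_le_one
          · exact (hs1 w).2
          · exact (hs2 w).2
      _ = ENNReal.ofReal (1 + ∑ w, k16 * (1 / 2 : ℝ) ^ net.dist z w * (U w + U' w)) := by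
          have hn : ∀ w ∈ Finset.univ, 0 ≤ k16 * (1 / 2 : ℝ) ^ net.dist z w * (U w + U' w) :=
            fun w _ => mul_nonneg (by positivity) (add_nonneg (hU0 w) (hU0' w))
          rw [ENNReal.ofReal_add zero_le_one (Finset.sum_nonneg hn), ENNReal.ofReal_one,
            ENNReal.ofReal_sum_of_nonneg hn]
          congr 1
          refine Finset.sum_congr rfl fun w _ => ?_
          rw [← ENNReal.ofReal_add (hU0 w) (hU0' w), ← ENNReal.ofReal_mul (by positivity)]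
      _ ≤ _ := by
          refine ENNReal.ofReal_le_ofReal ?_
          have e2 : ∑ w, k16 * (1 / 2 : ℝ) ^ net.dist z w * (U w + U' w) =
              k16 * ∑ w, (1 / 2 : ℝ) ^ net.dist z w * (U w + U' w) := by
            rw [Finset.mul_sum]
            exact Finset.sum_congr rfl fun w _ => by ring
          rw [e2, hSX]
          have h3 := mul_le_mul_of_nonneg_left hd hk160.le
          linarith only [h3]
  have hI2 : ∫⁻ ω in Gd, ENNReal.ofReal (SSt net k (tp ω) z / S) ∂P ≤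
      ENNReal.ofReal ((S + (h * k16 * (A - c' * X ^ (1 + β)) + e0 * h * (k16 * X))) / S) := by
    have m3 : Measurable fun ω : Ω => ENNReal.ofReal (SSt net k (tp ω) z) := by
      refine Measurable.ennreal_ofReal ?_
      unfold SSt
      refine measurable_const.add (Measurable.const_mul (Finset.measurable_sum _ fun w _ => ?_) _)
      refine Measurable.const_mul ?_ _
      have : (fun ω : Ω => tp ω w) = fun ω => up ω w + up' ω w := funext fun ω => htp ω w
      rw [this]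
      exact (mup w).add (mup' w)
    have e3 : ∀ ω : Ω, ENNReal.ofReal (SSt net k (tp ω) z / S) =
        ENNReal.ofReal S⁻¹ * ENNReal.ofReal (SSt net k (tp ω) z) := by
      intro ω
      rw [← ENNReal.ofReal_mul (by positivity)]
      congr 1
      ring
    simp only [e3]
    rw [lintegral_const_mul _ m3]
    refine (mul_le_mul_right hI _).trans (le_of_eq ?_)
    rw [← ENNReal.ofReal_mul (by positivity)]
    congr 1
    ring
  have hXβ : 0 ≤ X ^ (1 + β) := Real.rpow_nonneg hX0 _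
  have e4 : (S + (h * k16 * (A - c' * X ^ (1 + β)) + e0 * h * (k16 * X))) / S =
      (h * k16 * (A - c' * X ^ (1 + β)) / S + e0 * h * (k16 * X) / S) + 1 := by
    field_simp
    ring
  have e5 : e0 * h * (k16 * X) / S ≤ e0 * h := by
    rw [div_le_iff₀ hS0]
    refine mul_le_mul_of_nonneg_left ?_ (by positivity)
    rw [hSX]
    linarith only [hh, hh1]
  rw [e4] at hI2
  constructor
  · refine hI2.trans (ENNReal.ofReal_le_ofReal ?_)
    refine le_trans ?_ (Real.add_one_le_exp _)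
    have h1 : h * k16 * (A - c' * X ^ (1 + β)) / S ≤ h * k16 * A := by
      rw [div_le_iff₀ hS0]
      have h2 : 0 ≤ h * k16 * (c' * X ^ (1 + β)) := by positivity
      have h3 : h * k16 * A * 1 ≤ h * k16 * A * S := mul_le_mul_of_nonneg_left hS1 (by positivity)
      linarith only [h2, h3]
    linarith only [e5, h1]
  · intro hX1
    refine hI2.trans (ENNReal.ofReal_le_ofReal ?_)
    refine le_trans ?_ (Real.add_one_le_exp _)
    have hXp : 0 < X := by
      by_contra hc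
      have : X = 0 := le_antisymm (not_lt.1 hc) hX0
      rw [this] at hX1
      norm_num at hX1
    have h1 : h * k16 * (A - c' * X ^ (1 + β)) / S ≤ h * k16 * A - h * (c' / 2) * X ^ β := by
      rw [div_le_iff₀ hS0]
      have h2 : X ^ (1 + β) = X * X ^ β := by rw [Real.rpow_add hXp, Real.rpow_one]
      have h3 : h * k16 * A * 1 ≤ h * k16 * A * S := mul_le_mul_of_nonneg_left hS1 (by positivity)
      have h4 : S ≤ 2 * (k16 * X) := by rw [hSX]; linarith only [hX1]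
      have h5 : 0 ≤ h * (c' / 2) * X ^ β := by positivity
      have h6 := mul_le_mul_of_nonneg_left h4 h5
      rw [h2]
      nlinarith only [h3, h6]
    linarith only [e5, h1]

private theorem SmG_rneg {a b : ℝ≥0∞} {s : ℝ} (hs : 0 < s) (hab : a ≤ b) : b ^ (-s) ≤ a ^ (-s) := by
  rw [ENNReal.rpow_neg, ENNReal.rpow_neg, ENNReal.inv_le_inv]
  exact ENNReal.rpow_le_rpow hab hs.le

private theorem SmG_comb {ι : Type} [Fintype ι] {d : ℕ} (net : Net ι d) {Ω : Type}
    [MeasurableSpace Ω] (P : Measure Ω) [IsProbabilityMeasure P] (b : Ω → ℝ)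
    (hb : Measurable b) (Gd : Set Ω) (hgd : MeasurableSet Gd) {k q s r E X2 : ℝ} (hk : 0 < k)
    (hk1 : k < 1) (hq : 0 ≤ q) (hs : 0 < s) (hqs : q * s < 1)
    (u t : ι → ℝ) (up tp : Ω → ι → ℝ) (ht0 : ∀ x, 0 ≤ t x)
    (mtp : ∀ x, Measurable fun ω => tp ω x) (x z : ι)
    (hz : ∀ y, Tz net k q u t x y ≤ Tz net k q u t x z) (hv : 0 < u z)
    (htp0 : ∀ ω ∈ Gd, ∀ x, 0 ≤ tp ω x)
    (hlow : ∀ ω ∈ Gd, u z * Real.exp (b ω - r) ≤ up ω z)
    (hE : ∫⁻ a in Gd, ENNReal.ofReal (Real.exp (-(s / (1 - q * s) *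
      gX' (Real.log (u z) / ell k) * (b a - r)) + 4 * (s / (1 - q * s)) * (b a - r) ^ 2 / ell k)) ∂P
      ≤ ENNReal.ofReal (Real.exp E))
    (hS : ∫⁻ ω in Gd, ENNReal.ofReal (SSt net k (tp ω) z / SSt net k t z)
          ∂P ≤ ENNReal.ofReal (Real.exp X2)) :
    ∫⁻ ω in Gd, Vp net k q s (up ω) (tp ω) x ∂P ≤
      ENNReal.ofReal (Real.exp ((1 - q * s) * E + q * s * X2)) * Vp net k q s u t x := by
  set g' : ℝ := gX' (Real.log (u z) / ell k) with hg'
  set s' : ℝ := s / (1 - q * s) with hs'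
  have h1qs : 0 < 1 - q * s := by linarith
  have hs's : s' * (1 - q * s) = s := by rw [hs', div_mul_cancel₀ _ h1qs.ne']
  have hell : 0 < ell k := ell_pos hk hk1
  have hqs0 : 0 ≤ q * s := by positivity
  set S : ℝ := SSt net k t z with hSd
  have hS1 : 1 ≤ S := SSt_one net hk t ht0 z
  have hS0 : 0 < S := by linarith
  have hk4 : (0 : ℝ) < (k ^ (1 / 4 : ℝ)) ^ net.dist x z := pow_pos (Real.rpow_pos_of_pos hk _) _
  have hf0 : 0 < fpot k (u z) := fpot_pos hv
  set T : ℝ := Tz net k q u t x z with hT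
  have hT0 : 0 < T := by
    rw [hT]
    unfold Tz
    rw [← hSd]
    have : 0 < S ^ (-q) := Real.rpow_pos_of_pos hS0 _
    positivity
  have hV : Vp net k q s u t x = ENNReal.ofReal (T ^ (-s)) := by
    rw [Vp_argmax net k q s u t x z hz, ← hT, ENNReal.ofReal_rpow_of_pos hT0]
  have hpt : ∀ ω ∈ Gd, Vp net k q s (up ω) (tp ω) x ≤
      ENNReal.ofReal (T ^ (-s)) *
      (ENNReal.ofReal (Real.exp (-(s' * g' * (b ω - r)) +
        4 * s' * (b ω - r) ^ 2 / ell k)) ^ (1 - q * s) *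
        ENNReal.ofReal (SSt net k (tp ω) z / S) ^ (q * s)) := by
    intro ω hω
    have h1 : 1 ≤ SSt net k (tp ω) z := SSt_one net hk (tp ω) (htp0 ω hω) z
    set S' : ℝ := SSt net k (tp ω) z with hS'
    have hS'0 : 0 < S' := by linarith
    set c : ℝ := b ω - r with hc
    have h2 := fpot_inc hk hk1 hv (hlow ω hω)
    rw [← hg'] at h2
    set e : ℝ := g' * c - 4 * c ^ 2 / ell k with he
    have hR0 : 0 < S' / S := by positivity
    set L : ℝ := T * Real.exp e * (S' / S) ^ (-q) with hL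
    have hL0 : 0 < L := by
      have : 0 < (S' / S) ^ (-q) := Real.rpow_pos_of_pos hR0 _
      positivity
    have h3 : L ≤ Tz net k q (up ω) (tp ω) x z := by
      rw [hL, hT]
      unfold Tz
      rw [← hS', ← hSd]
      have h4 : S' ^ (-q) = S ^ (-q) * (S' / S) ^ (-q) := by
        rw [← Real.mul_rpow hS0.le hR0.le]
        congr 1
        field_simp
      rw [h4]
      have h5 : 0 < S ^ (-q) * (S' / S) ^ (-q) := by
        have := Real.rpow_pos_of_pos hS0 (-q)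
        have := Real.rpow_pos_of_pos hR0 (-q)
        positivity
      have h6 := mul_le_mul_of_nonneg_left h2 hk4.le
      have h7 := mul_le_mul_of_nonneg_right h6 h5.le
      refine le_trans (le_of_eq ?_) h7
      ring
    have h8 : ENNReal.ofReal L ≤
        Finset.univ.sup fun y => ENNReal.ofReal (Tz net k q (up ω) (tp ω) x y) :=
      (ENNReal.ofReal_le_ofReal h3).trans
        (Finset.le_sup (f := fun y => ENNReal.ofReal (Tz net k q (up ω) (tp ω) x y))
          (Finset.mem_univ z))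
    have h9 : Vp net k q s (up ω) (tp ω) x ≤ ENNReal.ofReal L ^ (-s) := by
      unfold Vp
      exact SmG_rneg hs h8
    refine h9.trans (le_of_eq ?_)
    rw [ENNReal.ofReal_rpow_of_pos hL0, ENNReal.ofReal_rpow_of_pos (Real.exp_pos _),
      ENNReal.ofReal_rpow_of_pos hR0, ← ENNReal.ofReal_mul (by positivity),
      ← ENNReal.ofReal_mul (by positivity)]
    congr 1
    rw [hL, Real.mul_rpow (by positivity) (by positivity), Real.mul_rpow hT0.le (by positivity),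
      ← Real.exp_mul, ← Real.exp_mul, ← Real.rpow_mul hR0.le, mul_assoc]
    have e1 : e * -s = (-(s' * g' * c) + 4 * s' * c ^ 2 / ell k) * (1 - q * s) := by
      have : (-(s' * g' * c) + 4 * s' * c ^ 2 / ell k) * (1 - q * s) =
        (-(g' * c) + 4 * c ^ 2 / ell k) * (s' * (1 - q * s)) := by ring
      rw [this, hs's, he]
      ring
    have e2 : -q * -s = q * s := by ring
    rw [e1, e2]
  have mF : Measurable fun a : Ω => ENNReal.ofReal (Real.exp (-(s' * g' * (b a - r)) +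
        4 * s' * (b a - r) ^ 2 / ell k)) := by
    refine Measurable.ennreal_ofReal (Real.measurable_exp.comp ?_)
    exact ((((hb.sub_const r).const_mul (s' * g')).neg).add
      ((((hb.sub_const r).pow_const 2).const_mul (4 * s')).div_const (ell k)))
  have mF' : Measurable fun ω : Ω => ENNReal.ofReal (Real.exp (-(s' * g' * (b ω - r)) +
        4 * s' * (b ω - r) ^ 2 / ell k)) := mF
  have mR : Measurable fun ω : Ω => ENNReal.ofReal (SSt net k (tp ω) z / S) := by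
    refine Measurable.ennreal_ofReal (Measurable.div_const ?_ S)
    unfold SSt
    refine measurable_const.add (Measurable.const_mul (Finset.measurable_sum _ fun w _ => ?_) _)
    exact (mtp w).const_mul _
  have mP : Measurable fun ω : Ω =>
      (ENNReal.ofReal (Real.exp (-(s' * g' * (b ω - r)) +
        4 * s' * (b ω - r) ^ 2 / ell k)) ^ (1 - q * s) *
        ENNReal.ofReal (SSt net k (tp ω) z / S) ^ (q * s)) :=
    (mF'.pow_const _).mul (mR.pow_const _)
  calc ∫⁻ ω in Gd, Vp net k q s (up ω) (tp ω) x ∂P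
      ≤ ∫⁻ ω in Gd, ENNReal.ofReal (T ^ (-s)) *
      (ENNReal.ofReal (Real.exp (-(s' * g' * (b ω - r)) +
        4 * s' * (b ω - r) ^ 2 / ell k)) ^ (1 - q * s) *
        ENNReal.ofReal (SSt net k (tp ω) z / S) ^ (q * s)) ∂P :=
        setLIntegral_mono' hgd hpt
    _ = ENNReal.ofReal (T ^ (-s)) * ∫⁻ ω in Gd,
      (ENNReal.ofReal (Real.exp (-(s' * g' * (b ω - r)) +
        4 * s' * (b ω - r) ^ 2 / ell k)) ^ (1 - q * s) *
        ENNReal.ofReal (SSt net k (tp ω) z / S) ^ (q * s)) ∂P :=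
        lintegral_const_mul _ mP
    _ ≤ ENNReal.ofReal (T ^ (-s)) *
        ((∫⁻ ω in Gd, ENNReal.ofReal (Real.exp (-(s' * g' * (b ω - r)) +
        4 * s' * (b ω - r) ^ 2 / ell k)) ∂P) ^ (1 - q * s) *
        (∫⁻ ω in Gd, ENNReal.ofReal (SSt net k (tp ω) z / S)
          ∂P) ^ (q * s)) := by
        gcongr
        exact ENNReal.lintegral_mul_norm_pow_le mF'.aemeasurable mR.aemeasurable h1qs.le hqs0
          (by ring)
    _ ≤ ENNReal.ofReal (T ^ (-s)) *
        (ENNReal.ofReal (Real.exp E) ^ (1 - q * s) *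
        ENNReal.ofReal (Real.exp X2) ^ (q * s)) := by
        gcongr
    _ = _ := by
        rw [ENNReal.ofReal_rpow_of_pos (Real.exp_pos _), ENNReal.ofReal_rpow_of_pos (Real.exp_pos _),
          ← ENNReal.ofReal_mul (by positivity), ← Real.exp_mul, ← Real.exp_mul, ← Real.exp_add,
          hV, mul_comm]
        congr 3
        ring

open Filter Topology in
private theorem SmG_ev {P : ℝ → Prop} (h : ∀ᶠ x in 𝓝[>] (0 : ℝ), P x) :
    ∃ x0 : ℝ, 0 < x0 ∧ ∀ x, 0 < x → x < x0 → P x := by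
  obtain ⟨u, hu, hs⟩ := mem_nhdsGT_iff_exists_Ioo_subset.1 h
  exact ⟨u, hu, fun x h1 h2 => hs ⟨h1, h2⟩⟩

open Filter Topology in
private theorem SmG_pow (C : ℝ) {a δ : ℝ} (ha : 0 < a) (hδ : 0 < δ) :
    ∀ᶠ x in 𝓝[>] (0 : ℝ), C * x ^ a ≤ δ := by
  have h1 : Tendsto (fun x : ℝ => C * x ^ a) (𝓝[>] 0) (𝓝 (C * 0)) := by
    refine Tendsto.const_mul C ?_
    have h2 : ContinuousAt (fun x : ℝ => x ^ a) 0 := Real.continuousAt_rpow_const 0 a (Or.inr ha.le)
    have h3 := h2.tendsto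
    rw [Real.zero_rpow ha.ne'] at h3
    exact h3.mono_left nhdsWithin_le_nhds
  rw [mul_zero] at h1
  exact (h1.eventually (gt_mem_nhds hδ)).mono fun x hx => hx.le

open Filter Topology in
private theorem SmG_ell (C : ℝ) : ∀ᶠ k in 𝓝[>] (0 : ℝ), C ≤ ell k := by
  have h1 : Tendsto (fun k : ℝ => -Real.log k) (𝓝[>] 0) atTop :=
    tendsto_neg_atBot_atTop.comp Real.tendsto_log_nhdsGT_zero
  refine (h1.eventually_ge_atTop C).mono fun k hk => ?_
  unfold ell
  rw [one_div, Real.log_inv]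
  exact hk

open Filter Topology in
private theorem SmG_powell (C : ℝ) {a δ : ℝ} (ha : 0 < a) (hδ : 0 < δ) :
    ∀ᶠ k in 𝓝[>] (0 : ℝ), C * k ^ a * ell k ≤ δ := by
  have h1 : Tendsto (fun k : ℝ => -C * (Real.log k * k ^ a)) (𝓝[>] 0) (𝓝 (-C * 0)) :=
    (tendsto_log_mul_rpow_nhdsGT_zero ha).const_mul (-C)
  rw [mul_zero] at h1
  refine (h1.eventually (gt_mem_nhds hδ)).mono fun k hk => ?_
  unfold ell
  rw [one_div, Real.log_inv]
  refine le_trans (le_of_eq ?_) hk.le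
  ring

private theorem SmG_elk (k : ℝ) : ell k = -Real.log k := by
  unfold ell; rw [one_div, Real.log_inv]

private theorem SmG_drift {β k h v Cr : ℝ} (hβ : 0 < β) (hk : 0 < k) (hk1 : k < 1) (hh : 0 < h)
    (hel0 : 0 < ell k) (hCr1 : 1 ≤ Cr) (hv : 0 < v) (K4 : Cr * k ^ (β / 8) * ell k ≤ 1 / 2)
    (K5 : 1 * k ^ (1 / 4 : ℝ) * ell k ≤ 1 / 2) :
    (gX' (Real.log v / ell k) * (h * (Cr * v ^ β + k ^ (1 / 4 : ℝ))) ≤ h / ell k) ∨
    (1 ≤ k ^ (1 / 16 : ℝ) * v ∧
      gX' (Real.log v / ell k) * (h * (Cr * v ^ β + k ^ (1 / 4 : ℝ))) ≤ 2 * Cr * h * v ^ β) := by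
  have hk4 : (0 : ℝ) < k ^ (1 / 4 : ℝ) := Real.rpow_pos_of_pos hk _
  have hk41 : k ^ (1 / 4 : ℝ) ≤ 1 := Real.rpow_le_one hk.le hk1.le (by norm_num)
  have hvβ : 0 < v ^ β := Real.rpow_pos_of_pos hv _
  obtain ⟨hg0, hg1⟩ := gX'_mem (Real.log v / ell k)
  set g' : ℝ := gX' (Real.log v / ell k) with hg'
  set r : ℝ := h * (Cr * v ^ β + k ^ (1 / 4 : ℝ)) with hr
  have hr0 : 0 ≤ r := by positivity
  have hlk := SmG_elk k
  have hgle : g' * r ≤ r := mul_le_of_le_one_left hr0 hg1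
  rcases le_or_gt (Real.log v / ell k) (-(1 / 8)) with hc | hc
  · left
    refine hgle.trans ?_
    rw [div_le_iff₀ hel0] at hc
    have g1 : v ≤ k ^ (1 / 8 : ℝ) := by
      rw [← Real.exp_log hv, Real.rpow_def_of_pos hk]
      refine Real.exp_le_exp.2 ?_
      rw [hlk] at hc
      linarith
    have g2 : v ^ β ≤ k ^ (β / 8) := by
      have g3 := Real.rpow_le_rpow hv.le g1 hβ.le
      rw [← Real.rpow_mul hk.le] at g3
      have g4 : (1 / 8 : ℝ) * β = β / 8 := by ring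
      rwa [g4] at g3
    rw [le_div_iff₀ hel0, hr]
    have g5 : Cr * v ^ β * ell k ≤ Cr * k ^ (β / 8) * ell k := by gcongr
    have g6 : Cr * v ^ β * ell k + 1 * k ^ (1 / 4 : ℝ) * ell k ≤ 1 := by linarith
    have g7 := mul_le_mul_of_nonneg_left g6 hh.le
    linarith
  · rcases le_or_gt (Real.log v / ell k) (1 / 16) with hc2 | hc2
    · left
      have g1 : g' = 0 := by
        rw [hg']
        unfold gX'
        rw [if_neg (by linarith), if_neg (by linarith), if_pos hc2]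
      rw [g1, zero_mul]
      positivity
    · right
      rw [lt_div_iff₀ hel0] at hc2
      have g1 : 1 ≤ k ^ (1 / 16 : ℝ) * v := by
        rw [Real.rpow_def_of_pos hk]
        nth_rw 1 [← Real.exp_log hv]
        rw [← Real.exp_add]
        refine Real.one_le_exp ?_
        rw [hlk] at hc2
        linarith
      refine ⟨g1, hgle.trans ?_⟩
      have g2 : k ^ (1 / 16 : ℝ) ≤ 1 := Real.rpow_le_one hk.le hk1.le (by norm_num)
      have g3 : 1 ≤ v := by
        have := mul_le_mul_of_nonneg_right g2 hv.le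
        linarith
      have g4 : 1 ≤ v ^ β := Real.one_le_rpow g3 hβ.le
      have g5 : k ^ (1 / 4 : ℝ) ≤ Cr * v ^ β := by
        have : 1 * 1 ≤ Cr * v ^ β := mul_le_mul hCr1 g4 zero_le_one (by linarith)
        linarith only [hk41, this]
      have g6 := mul_le_mul_of_nonneg_left g5 hh.le
      rw [hr]
      linarith only [g6]

private theorem SmG_r2 {β k h v Cr : ℝ} (hβ : 0 < β) (hk : 0 < k) (hk1 : k < 1) (hh : 0 < h)
    (hh1 : h < 1) (hCr1 : 1 ≤ Cr) (hv : 0 < v) (hvr : v ≤ rad β h)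
    (H4 : 8 * (Cr + 1) ^ 2 * h ^ (1 / 2 : ℝ) ≤ 1) :
    8 * (h * (Cr * v ^ β + k ^ (1 / 4 : ℝ))) ^ 2 ≤ h := by
  have hk4 : (0 : ℝ) < k ^ (1 / 4 : ℝ) := Real.rpow_pos_of_pos hk _
  have hk41 : k ^ (1 / 4 : ℝ) ≤ 1 := Real.rpow_le_one hk.le hk1.le (by norm_num)
  have hvβ : 0 < v ^ β := Real.rpow_pos_of_pos hv _
  have hrf := rad_facts hβ hh hh1 hv.le hvr
  have hr0 : 0 ≤ h * (Cr * v ^ β + k ^ (1 / 4 : ℝ)) := by positivity
  have g1 : h * (Cr * v ^ β + k ^ (1 / 4 : ℝ)) ≤ (Cr + 1) * h ^ (3 / 4 : ℝ) := by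
    have g2 : Cr * (h * v ^ β) ≤ Cr * h ^ (3 / 4 : ℝ) :=
      mul_le_mul_of_nonneg_left hrf.2.2.1 (by linarith)
    have g3 : h ≤ h ^ (3 / 4 : ℝ) := by
      have := Real.rpow_le_rpow_of_exponent_ge hh hh1.le (show (3 / 4 : ℝ) ≤ 1 by norm_num)
      rwa [Real.rpow_one] at this
    have g4 : h * k ^ (1 / 4 : ℝ) ≤ h * 1 := mul_le_mul_of_nonneg_left hk41 hh.le
    linarith
  have g5 := pow_le_pow_left₀ hr0 g1 2
  have g6 : ((Cr + 1) * h ^ (3 / 4 : ℝ)) ^ 2 = (Cr + 1) ^ 2 * h ^ (1 / 2 : ℝ) * h := by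
    have g7 : h ^ (3 / 4 : ℝ) * h ^ (3 / 4 : ℝ) = h ^ (1 / 2 : ℝ) * h := by
      nth_rw 4 [← Real.rpow_one h]
      rw [← Real.rpow_add hh, ← Real.rpow_add hh]
      norm_num
    rw [mul_pow, sq (h ^ (3 / 4 : ℝ)), g7]
    ring
  have g8 : 8 * (Cr + 1) ^ 2 * h ^ (1 / 2 : ℝ) * h ≤ 1 * h := mul_le_mul_of_nonneg_right H4 hh.le
  linarith only [g5, g6, g8]

private theorem SmG_hE1 {q s s' el ε η h g' r : ℝ} (hh : 0 < h) (hel0 : 0 < el) (hel5 : 5 ≤ el)
    (hs : 0 < s) (hqs0 : 0 ≤ q * s) (hs's : s' * (1 - q * s) = s)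
    (hs'2 : s' ≤ 2 * s) (hε0 : 0 ≤ ε) (hη : 0 ≤ η) (hr2 : 8 * r ^ 2 ≤ h) :
    (1 - q * s) * ((s' ^ 2 / 2 + 16 * s' / el + ε + (s' + 32 * s' / el) * η) * h + s' * g' * r +
      8 * s' * r ^ 2 / el) ≤
      (s ^ 2 + 18 * s / el) * h + (8 * (s * η) + ε) * h + s * (g' * r) := by
  have e1 : (1 - q * s) * ((s' ^ 2 / 2 + 16 * s' / el + ε + (s' + 32 * s' / el) * η) * h +
      s' * g' * r +
      8 * s' * r ^ 2 / el) = (s' * (1 - q * s)) * (s' / 2) * h +
      16 * (s' * (1 - q * s)) / el * h + (1 - q * s) * ε * h +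
      ((s' * (1 - q * s)) + 32 * (s' * (1 - q * s)) / el) * η * h + (s' * (1 - q * s)) * (g' * r) +
      (s' * (1 - q * s)) * (8 * r ^ 2) / el := by ring
  rw [e1, hs's]
  have g1 : s * (s' / 2) * h ≤ s ^ 2 * h := by
    have : s * (s' / 2) ≤ s ^ 2 := by nlinarith only [hs, hs'2]
    exact mul_le_mul_of_nonneg_right this hh.le
  have g2 : (1 - q * s) * ε * h ≤ ε * h := by
    have : (1 - q * s) * ε ≤ 1 * ε := mul_le_mul_of_nonneg_right (by linarith) hε0
    have := mul_le_mul_of_nonneg_right this hh.le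
    linarith
  have g3 : s * (8 * r ^ 2) / el ≤ s * h / el := by gcongr
  have g4 : (s + 32 * s / el) * η * h ≤ 8 * (s * η) * h := by
    have g5 : 32 * s / el ≤ 7 * s := by
      rw [div_le_iff₀ hel0]
      nlinarith only [hs, hel5]
    have g6 : s + 32 * s / el ≤ 8 * s := by linarith
    have g7 := mul_le_mul_of_nonneg_right (mul_le_mul_of_nonneg_right g6 hη) hh.le
    linarith
  have g8 : 0 ≤ s / el * h := by positivity
  have e2 : (s ^ 2 + 18 * s / el) * h = s ^ 2 * h + 16 * s / el * h + s / el * h + s * h / el := by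
    ring
  linarith only [g1, g2, g3, g4, g8, e2]

private theorem SmG_strong {β q s el h A c' X v E G Cr k16 R e0 : ℝ} (hβ : 0 < β) (hh : 0 < h)
    (hel0 : 0 < el) (hs : 0 < s) (hq0 : 0 < q) (hc' : 0 < c') (hXp : 0 < X) (hv : 0 < v)
    (hvX : v ≤ X) (hq2 : 8 * Cr ≤ q * c')
    (hgr : G ≤ h / el ∨ G ≤ 2 * Cr * h * v ^ β)
    (hE1 : (1 - q * s) * E ≤ (s ^ 2 + 18 * s / el) * h + R + s * G)
    (hqA' : q * s * (h * k16 * A) ≤ s / el * h) :
    (1 - q * s) * E + q * s * (h * k16 * A - h * (c' / 2) * X ^ β + e0 * h) ≤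
        (s ^ 2 + 20 * s / el) * h + R + q * s * (e0 * h) := by
  have hXβ : 0 < X ^ β := Real.rpow_pos_of_pos hXp _
  have hvβ : 0 < v ^ β := Real.rpow_pos_of_pos hv _
  have g0 : 0 ≤ s * h * (q * c' / 4 * X ^ β) := by positivity
  have g1 : s * G ≤ s / el * h + s * h * (q * c' / 4 * X ^ β) := by
    rcases hgr with hc | hc
    · have g2 := mul_le_mul_of_nonneg_left hc hs.le
      have g3 : 0 ≤ s * h * (q * c' / 4 * X ^ β) := by positivity
      have e1 : s * (h / el) = s / el * h := by ring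
      linarith
    · have g2 := mul_le_mul_of_nonneg_left hc hs.le
      have g3 : v ^ β ≤ X ^ β := Real.rpow_le_rpow hv.le hvX hβ.le
      have g4 : s * (2 * Cr * h * v ^ β) ≤ s * h * (q * c' / 4 * X ^ β) := by
        have g5 : 2 * Cr * v ^ β ≤ q * c' / 4 * X ^ β :=
          mul_le_mul (by linarith) g3 hvβ.le (by positivity)
        have g6 := mul_le_mul_of_nonneg_left g5 (by positivity : 0 ≤ s * h)
        linarith
      have g5 : 0 ≤ s / el * h := by positivity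
      linarith
  have e2 : q * s * (h * k16 * A - h * (c' / 2) * X ^ β + e0 * h) =
      q * s * (h * k16 * A) - 2 * (s * h * (q * c' / 4 * X ^ β)) + q * s * (e0 * h) := by ring
  have e3 : (s ^ 2 + 20 * s / el) * h = (s ^ 2 + 18 * s / el) * h + s / el * h + s / el * h := by
    ring
  linarith only [hE1, hqA', g0, g1, e3]

theorem smG_step (N d : ℕ) (β : ℝ) (hN : 2 ≤ N) (hβ : 0 < β) : ∃ q0 : ℝ, 1 ≤ q0 ∧
    ∀ q, q0 ≤ q → ∃ C9 k0 : ℝ, 0 < C9 ∧ 0 < k0 ∧ k0 < 1 ∧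
    ∀ k : ℝ, 0 < k → k < k0 → ∀ s : ℝ, 0 < s → 8 * q * s ≤ 1 →
    ∃ h0 : ℝ, 0 < h0 ∧ ∀ h, 0 < h → h < h0 → ∀ (ι : Type) [Fintype ι] (net : Net ι d)
      (Ω : Type) [MeasurableSpace Ω] (P : Measure Ω) [IsProbabilityMeasure P] (Gd : Set Ω)
      (b1 b2 up1 up2 : Ω → ι → ℝ) (u1 u2 : ι → ℝ) (η ε : ℝ), MeasurableSet Gd →
      Measurable b1 → Measurable b2 → Measurable up1 → Measurable up2 →
      0 ≤ η → η * h ≤ h ^ (3 / 8 : ℝ) → 0 ≤ ε → ε ≤ 1 →
      (∀ x, u1 x ≤ rad β h ∧ u2 x ≤ rad β h) →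
      (∀ ω ∈ Gd, QStep net β h k (b1 ω) u1 (up1 ω) ∧ QStep net β h k (b2 ω) u2 (up2 ω) ∧
        ∀ x, |b1 ω x| ≤ 3 * h ^ (3 / 8 : ℝ) ∧ |b2 ω x| ≤ 3 * h ^ (3 / 8 : ℝ)) →
      (∀ x, BMom N P Gd (fun ω => b1 ω x) (2 + β) h η ε ∧
        BMom N P Gd (fun ω => b2 ω x) (2 + β) h η ε) → ∀ x,
      ∫⁻ ω in Gd, Vp net k q s (up1 ω) (fun y => up1 ω y + up2 ω y) x ∂P ≤
        ENNReal.ofReal (Real.exp (C9 * (s / ell k + s ^ 2 + s * η + ε) * h)) *
          Vp net k q s u1 (fun y => u1 y + u2 y) x := by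
  have hC1 : (0 : ℝ) ≤ (N : ℝ) + 1 := by positivity
  obtain ⟨A, c', hA, hc', hES⟩ := SmG_ES d hβ hC1
  have h2β : (0 : ℝ) < 2 ^ β := Real.rpow_pos_of_pos two_pos _
  have h2β1 : (1 : ℝ) ≤ 2 ^ β := Real.one_le_rpow one_le_two hβ.le
  set Cr : ℝ := 2 * 2 ^ β with hCr
  have hCr1 : 1 ≤ Cr := by linarith
  refine ⟨max 1 (8 * Cr / c'), le_max_left _ _, ?_⟩
  intro q hq
  have hq1 : 1 ≤ q := (le_max_left _ _).trans hq
  have hq2 : 8 * Cr ≤ q * c' := by
    have h1 := (le_max_right _ _).trans hq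
    rwa [div_le_iff₀ hc'] at h1
  have hq0 : 0 < q := by linarith
  have h2q : (0 : ℝ) < 2 ^ q := Real.rpow_pos_of_pos two_pos _
  -- choice of k0
  obtain ⟨k1, hk1, hK⟩ := SmG_ev ((SmG_ell 5).and ((SmG_pow (4 * d * 2 ^ q) (a := 1 / 4)
    (δ := 1 / 4) (by norm_num) (by norm_num)).and ((SmG_pow (4 * d) (a := 3 / 4)
    (δ := 1 / 4) (by norm_num) (by norm_num)).and ((SmG_powell Cr (a := β / 8) (δ := 1 / 2)
    (by positivity) (by norm_num)).and ((SmG_powell 1 (a := 1 / 4) (δ := 1 / 2)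
    (by norm_num) (by norm_num)).and (SmG_powell (q * A) (a := 1 / 16) (δ := 1)
    (by norm_num) (by norm_num)))))))
  refine ⟨20 + q, min k1 (1 / 2), by positivity,
    lt_min hk1 (by norm_num), (min_le_right _ _).trans_lt (by norm_num), ?_⟩
  intro k hk hkk s hs hqs
  have hk11 : k < 1 := hkk.trans_le ((min_le_right _ _).trans (by norm_num))
  obtain ⟨K1, K2, K3, K4, K5, K6⟩ := hK k hk (hkk.trans_le (min_le_left _ _))
  set el : ℝ := ell k with hel
  have hel0 : 0 < el := by linarith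
  set k16 : ℝ := k ^ (1 / 16 : ℝ) with hk16
  have hk160 : 0 < k16 := Real.rpow_pos_of_pos hk _
  have hqs0 : 0 < q * s := by positivity
  have hqs1 : q * s ≤ 1 / 8 := by linarith
  have hs1 : s ≤ 1 / 8 := by nlinarith only [hqs, hq1, hs]
  have h1qs : 0 < 1 - q * s := by linarith
  set s' : ℝ := s / (1 - q * s) with hs'
  have hs's : s' * (1 - q * s) = s := by rw [hs', div_mul_cancel₀ _ h1qs.ne']
  have hs'0 : 0 < s' := by positivity
  have hs'2 : s' ≤ 2 * s := by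
    rw [hs', div_le_iff₀ h1qs]
    nlinarith only [hs, hqs]
  have hss' : s' ≤ 1 / 7 := by
    rw [hs', div_le_iff₀ h1qs]
    linarith
  have hlog2 : 0 < Real.log 2 := Real.log_pos one_lt_two
  -- choice of h0
  obtain ⟨h1, hh1, hH⟩ := SmG_ev ((SmG_pow 3 (a := 3 / 8) (δ := Real.log 2) (by norm_num) hlog2).and
    ((SmG_pow (2 ^ β) (a := 3 / 4) (δ := 1 / 4) (by norm_num) (by norm_num)).and
    ((SmG_pow 144 (a := 3 / 4) (δ := 1) (by norm_num) (by norm_num)).and
    ((SmG_pow (8 * (Cr + 1) ^ 2) (a := 1 / 2) (δ := 1) (by norm_num) (by norm_num)).and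
    (SmG_pow (N : ℝ) (a := 1) (δ := 1) (by norm_num) (by norm_num))))))
  refine ⟨min h1 (1 / 2), lt_min hh1 (by norm_num), ?_⟩
  intro h hh hhh ι _ net Ω _ P _ Gd b1 b2 up1 up2 u1 u2 η ε hgd hb1 hb2 mup1 mup2 hη _ hε0 hε1 hrad
    hG hM x
  have hh2 : h < 1 / 2 := hhh.trans_le (min_le_right _ _)
  have hh1' : h < 1 := by linarith
  obtain ⟨H1, H2, H3, H4, H5⟩ := hH h hh (hhh.trans_le (min_le_left _ _))
  rw [Real.rpow_one] at H5
  -- empty event
  rcases Gd.eq_empty_or_nonempty with hGe | ⟨ω0, hω0⟩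
  · rw [hGe]
    simp
  have hu0 : ∀ x, 0 ≤ u1 x := (hG ω0 hω0).1.n0
  have hu0' : ∀ x, 0 ≤ u2 x := (hG ω0 hω0).2.1.n0
  have hu : ∀ x, u1 x ≤ rad β h := fun x => (hrad x).1
  have hu' : ∀ x, u2 x ≤ rad β h := fun x => (hrad x).2
  have hhs : 2 ^ β * h ^ (3 / 4 : ℝ) + h / 2 ≤ 1 / 2 := by linarith only [hh2, H2]
  have hbd : ∀ ω ∈ Gd, ∀ x, |b1 ω x| ≤ Real.log 2 := fun ω hω x =>
    ((hG ω hω).2.2 x).1.trans H1
  have hbd' : ∀ ω ∈ Gd, ∀ x, |b2 ω x| ≤ Real.log 2 := fun ω hω x =>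
    ((hG ω hω).2.2 x).2.trans H1
  obtain ⟨t, htd⟩ : ∃ t : ι → ℝ, t = fun y => u1 y + u2 y := ⟨_, rfl⟩
  have htu : ∀ x, t x = u1 x + u2 x := fun x => by rw [htd]
  rw [← htd]
  have hbd2 : ∀ (z : ι), ∀ ω ∈ Gd, 16 * s' * b1 ω z ^ 2 ≤ el := by
    intro z ω hω
    have g1 := ((hG ω hω).2.2 z).1
    have g2 : b1 ω z ^ 2 ≤ 9 * h ^ (3 / 4 : ℝ) := by
      have g3 : h ^ (3 / 4 : ℝ) = h ^ (3 / 8 : ℝ) * h ^ (3 / 8 : ℝ) := by
        rw [← Real.rpow_add hh]; norm_num
      rw [g3, ← sq_abs]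
      nlinarith only [hqs, hqs0, g1, abs_nonneg (b1 ω z)]
    have g4 : 16 * s' * b1 ω z ^ 2 ≤ 16 * 1 * (9 * h ^ (3 / 4 : ℝ)) := by
      have := sq_nonneg (b1 ω z)
      gcongr
      linarith only [hqs, hqs0, hs1, hs'2]
    linarith only [hqs, K1, hqs0, H3, g4]
  have hm0 : ∀ (b : Ω → ℝ), BMom N P Gd b (2 + β) h η ε →
      ∫⁻ ω in Gd, ENNReal.ofReal (Real.exp (b ω)) ∂P ≤
      ENNReal.ofReal (1 + (((N : ℝ) + 1) + (η + ε)) * h) := by
    intro b hb
    have g1 := (hb 1 (by rw [abs_one]; linarith only [hβ, hqs, hqs0])).1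
    simp only [one_mul] at g1
    refine g1.trans (ENNReal.ofReal_le_ofReal ?_)
    have g2 : lamN N * 1 + 1 ^ 2 / 2 + |1| * η + ε ≤ ((N : ℝ) + 1) + (η + ε) := by
      unfold lamN
      rw [abs_one]
      have : (0 : ℝ) ≤ N := by positivity
      linarith only [hqs, hqs0]
    have := mul_le_mul_of_nonneg_right g2 hh.le
    linarith only [this]
  have ht : ∀ x, 0 ≤ t x := fun x => by rw [htu]; have := hu0 x; have := hu0' x; linarith
  obtain ⟨z, hz⟩ := exists_argmax net k q u1 t x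
  have he0 : 0 ≤ η + ε := by linarith only [hη, hε0]
  have mu1 : ∀ x, Measurable fun ω => up1 ω x := fun x => (measurable_pi_apply x).comp mup1
  have mu2 : ∀ x, Measurable fun ω => up2 ω x := fun x => (measurable_pi_apply x).comp mup2
  have hES' := hES net P b1 b2 hb1 hb2 Gd hgd hh hh1' hk hk11.le he0 hhs hbd hbd'
    (fun w => hm0 _ (hM w).1) (fun w => hm0 _ (hM w).2) u1 u2 t hu0 hu
    hu0' hu' htu up1 up2 (fun ω y => up1 ω y + up2 ω y) (fun _ _ => rfl) mu1 mu2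
    (fun ω hω => (hG ω hω).1) (fun ω hω => (hG ω hω).2.1) z
  set X : ℝ := ∑ w, (1 / 2 : ℝ) ^ net.dist z w * t w with hX
  have hX0 : 0 ≤ X := Finset.sum_nonneg fun w _ => mul_nonneg (by positivity) (ht w)
  have hvX : u1 z ≤ X := by
    have g1 : (1 / 2 : ℝ) ^ net.dist z z * t z ≤ X :=
      Finset.single_le_sum (f := fun w => (1 / 2 : ℝ) ^ net.dist z w * t w)
        (fun w _ => mul_nonneg (by positivity) (ht w)) (Finset.mem_univ z)
    rw [net.dist_self, pow_zero, one_mul, htu] at g1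
    have := hu0' z
    linarith only [g1, this]
  rcases (hu0 z).lt_or_eq with hv | hv
  swap
  · -- everything vanishes
    have g0 : Vp net k q s u1 t x = ⊤ := by
      rw [Vp_argmax net k q s u1 t x z hz]
      have g1 : Tz net k q u1 t x z = 0 := by
        unfold Tz fpot
        rw [if_pos (le_of_eq hv.symm)]
        ring
      rw [g1, ENNReal.ofReal_zero, ENNReal.zero_rpow_of_neg (by linarith only [hs])]
    rw [g0, ENNReal.mul_top (by simpa using Real.exp_pos _)]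
    exact le_top
  set r : ℝ := h * (Cr * u1 z ^ β + k ^ (1 / 4 : ℝ)) with hr
  have hk4 : (0 : ℝ) < k ^ (1 / 4 : ℝ) := Real.rpow_pos_of_pos hk _
  have hr2 : 8 * r ^ 2 ≤ h :=
    SmG_r2 hβ hk hk11 hh hh1' hCr1 hv (hu z) H4
  set g' : ℝ := gX' (Real.log (u1 z) / el) with hg'
  obtain ⟨hg0, hg1⟩ := gX'_mem (Real.log (u1 z) / el)
  rw [← hg'] at hg0 hg1
  -- the drift term
  have hgr : (g' * r ≤ h / el) ∨ (1 ≤ k16 * u1 z ∧ g' * r ≤ 2 * Cr * h * u1 z ^ β) :=
    SmG_drift hβ hk hk11 hh hel0 hCr1 hv K4 K5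
  -- first factor
  have mb1 : ∀ z, Measurable fun ω => b1 ω z := fun z => (measurable_pi_apply z).comp hb1
  have hE := SmG_E1 hN P (fun ω => b1 ω z) (mb1 z) Gd hgd (r := r) (g' := g') (s' := s')
    (el := el) (ε := ε) (η := η) hh H5 hel0 hs'0 (by linarith only [hqs, hqs0, hs1, hs'2]) hg0 hg1 (by linarith only [hqs, K1, hqs0, hss']) hε0 hη
    (hbd2 z) (fun p hp => ((hM z).1 p (hp.trans (by linarith only [hβ]))).1)
  have hlow : ∀ ω ∈ Gd, u1 z * Real.exp (b1 ω z - r) ≤ up1 ω z := by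
    intro ω hω
    exact SmG_low net hβ hh hh1' hk hk11 hq0.le (by linarith only [K2, K3]) hhs (b1 ω) u1 (up1 ω) t
      (hG ω hω).1 hu ht x z hz (hbd ω hω z)
  have mtp : ∀ x, Measurable fun ω => up1 ω x + up2 ω x := fun y => (mu1 y).add (mu2 y)
  have htp0 : ∀ ω ∈ Gd, ∀ x, 0 ≤ up1 ω x + up2 ω x := by
    intro ω hω y
    exact add_nonneg ((hG ω hω).1.n1 y) ((hG ω hω).2.1.n1 y)
  set E : ℝ := (s' ^ 2 / 2 + 16 * s' / el + ε + (s' + 32 * s' / el) * η) * h + s' * g' * r +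
    8 * s' * r ^ 2 / el with hEd
  have hE1 : (1 - q * s) * E ≤ (s ^ 2 + 18 * s / el) * h + (8 * (s * η) + ε) * h + s * (g' * r) :=
    SmG_hE1 hh hel0 K1 hs hqs0.le hs's hs'2 hε0 hη hr2
  have hqA : q * k16 * A ≤ 1 / el := by
    rw [le_div_iff₀ hel0]
    linarith only [K6]
  have hqA' : q * s * (h * k16 * A) ≤ s / el * h := by
    have := mul_le_mul_of_nonneg_left hqA (by positivity : 0 ≤ s * h)
    calc q * s * (h * k16 * A) = s * h * (q * k16 * A) := by ring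
      _ ≤ s * h * (1 / el) := this
      _ = s / el * h := by ring
  have hmono : ∀ p p' : ℝ, p ≤ p' → ENNReal.ofReal (Real.exp p) * Vp net k q s u1 t x ≤
      ENNReal.ofReal (Real.exp p') * Vp net k q s u1 t x := by
    intro p p' hpp
    gcongr
  have hfin : (s ^ 2 + 20 * s / el) * h + (8 * (s * η) + ε) * h + q * s * ((η + ε) * h) ≤
      (20 + q) * (s / el + s ^ 2 + s * η + ε) * h := by
    have f1 : q * s * ((η + ε) * h) = q * (s * η) * h + q * s * (ε * h) := by ring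
    have f2 : q * s * (ε * h) ≤ 1 / 8 * (ε * h) :=
      mul_le_mul_of_nonneg_right hqs1 (by positivity)
    have f3 : 0 ≤ s / el * h := by positivity
    have f4 : 0 ≤ s ^ 2 * h := by positivity
    have f5 : 0 ≤ s * η * h := by positivity
    have f6 : 0 ≤ ε * h := by positivity
    have f7 : 0 ≤ q * (s / el * h) := by positivity
    have f8 : 0 ≤ q * (s ^ 2 * h) := by positivity
    have f9 : 0 ≤ q * (ε * h) := by positivity
    have f10 : (20 + q) * (s / el + s ^ 2 + s * η + ε) * h = 20 * (s / el * h) +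
      20 * (s ^ 2 * h) + 20 * (s * η * h) + 20 * (ε * h) + q * (s / el * h) + q * (s ^ 2 * h) +
      q * (s * η) * h + q * (ε * h) := by ring
    have f11 : (s ^ 2 + 20 * s / el) * h = s ^ 2 * h + 20 * (s / el * h) := by ring
    rw [f10, f11, f1]
    linarith only [f2, f4, f5, f6, f7, f8, f9]
  rcases hgr with hc | ⟨hc1, hc2⟩
  · have hcomb := SmG_comb net P (fun ω => b1 ω z) (mb1 z) Gd hgd hk hk11 hq0.le hs (by linarith only [hqs, hqs0])
      u1 t up1 (fun ω y => up1 ω y + up2 ω y) ht mtp x z hz hv htp0 hlow hE hES'.1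
    refine hcomb.trans (hmono _ _ (le_trans ?_ hfin))
    have g2 := mul_le_mul_of_nonneg_left hc hs.le
    have e1 : s * (h / el) = s / el * h := by ring
    have e2 : (s ^ 2 + 20 * s / el) * h = (s ^ 2 + 18 * s / el) * h + s / el * h + s / el * h := by
      ring
    rw [mul_add (q * s)]
    linarith only [hE1, hqA', g2, e1, e2]
  · have hX1 : 1 ≤ k16 * X := hc1.trans (mul_le_mul_of_nonneg_left hvX hk160.le)
    have hXp : 0 < X := hv.trans_le hvX
    have hcomb := SmG_comb net P (fun ω => b1 ω z) (mb1 z) Gd hgd hk hk11 hq0.le hs (by linarith only [hqs, hqs0])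
      u1 t up1 (fun ω y => up1 ω y + up2 ω y) ht mtp x z hz hv htp0 hlow hE (hES'.2 hX1)
    refine hcomb.trans (hmono _ _ (le_trans ?_ hfin))
    exact SmG_strong hβ hh hel0 hs hq0 hc' hXp hv hvX hq2 (Or.inr hc2) hE1 hqA'

end DynC

end
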