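import Pool.Agent.Lib_MP_36b788_n.M50

set_option linter.unusedVariables false

/-!
# MP_36b788_pr, stationary limit: merged library part M52

Concatenation of smaller files (each in its own section), only to save build time.
-/

/-! ### from `Lib_MP_36b788c.Num2` -/

section

/-!
# Choice of the constants, `N = 2` (real analysis only)

PROOF of `num2`. `δ = min 1 (c3/12)`. First `a' ≤ min a1 1, δ/(16 C)`; then `a ≤ a0`, `a ≤ s1 a'`, `CD a ≤ c a'`, (A1) `C5 · 7 CD a/(2a') ≤ c3/24`, (A2) `C5 (a/a') 32 C5 ≤ c3/24`, (A3) `C a + CD a/2 ≤ δ/8`, (A4) `C a (4 C5 + C5 · 7CD/2 + 64 C5²) ≤ c3/24` (use `a/a' ≤ 1`). `ρ = log(16 C (2 + 2 Ca cd) cd)`, `Rb = ⌈16 (2 C5 T + 1 + ρ/a)⌉`, `ρ ≥ 0`. As `T → ∞`, with `p = e^{-T}` so `log(1/p) = T`: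
* `log K = log 64 + CD a (T+2)/2 + log CV + 2 log cd`, so `M ≤ (7 CD a/(2a')) T + const`; `Rb ≤ 32 C5 T + const`; `B' = T + M + Rb + T` is at most linear in `T`.
* `C5 M ≤ c3 T/24 + const`, `C5 (a/a') Rb ≤ c3 T/24 + const`: `pPr ≤ e^{-T} + poly(T) e^{-(7/12) c3 T} + poly(T) e^{-c3 T/12}`, so `KE2 K ≤ poly(T) e^{(C(a+a') + CD a/2 - δ/2) T} → 0`.
* `KB2 = C (E1 + E2 + E3)`: `E1 = exp(a(2 C5 T + 1 - Rb/16)) ≤ e^{-ρ}`. `E2 = e^{a(2C5T+1)} pBr^{1/2}`, `pBr = (2Rb+1)^d exp(-κ3/(C√sw)) + exp(-1/(C√sw))`, `κ3/(C √sw) = e^{c3 T/24}/(512 C C5 B')`: tends to `0` faster than every exponential. `E3 = (2Rb+1)^{3d} (κd/√sw) exp(C a (M8 + M6 + Rb))`, `κd/√sw = e^{-5 c3 T/24}`, `C a(M8+M6+Rb) ≤ c3 T/24 + const` (A4): `→ 0`.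
* `2 (B e^{-c a' T}) K ≤ const e^{(CD a/2 - c a') T} → 0`, so it is `≤ 2`; the last inequality: `C e^{-ρ} (2 + 2 Ca cd) cd ≤ 1/16`, the other terms are `≤ 1/16` for `T` large.
* third condition: `4√BD (2 CV cd/K) cd = 1/8` exactly, `4 √BD κ' cd ≤ const e^{(CD a/2 - c a')T} ≤ 1/8`.
* `Par2`: all conditions hold for `T` large (`κ/(512 C5 B') ≤ κ/(8 C5 B')/16`, `C e^{-c3T/8} ≤ e^{-c3T/12}/(512 C5 B')`, `16 (2Rb+1)^d e^{-2c3T/3} ≤ e^{-c3T/4}`, `e^{-c3T/3} ≤ e^{-c3T/12}/64`).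
Technique: prove each statement as `∀ᶠ T in atTop` (`Real.tendsto_pow_mul_exp_neg_atTop_nhds_zero`, linear bounds for `M`, `Rb`), then combine.
-/

open MeasureTheory ProbabilityTheory
open scoped ENNReal

namespace DynC

/-- the constant `K` of the blocks -/
noncomputable def KN2 (CD a T Ca cd : ℝ) : ℝ :=
  64 * Real.sqrt (Real.exp (CD * a * (T + 2))) * Real.sqrt Ca * cd ^ 2

/-- the constant `M` of the blocks -/
noncomputable def MN2' (CD a a' T Ca cd : ℝ) : ℝ := 7 * Real.log (KN2 CD a T Ca cd) / a' + 3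

private theorem Num2_poly (A lam ε η : ℝ) (n : ℕ) (hε : 0 < ε) (hη : 0 < η) :
    ∀ᶠ T : ℝ in Filter.atTop, A * (lam * (1 + T)) ^ n * Real.exp (-(ε * T)) ≤ η := by
  have h1 : Filter.Tendsto (fun T : ℝ => ε * (1 + T)) Filter.atTop Filter.atTop :=
    (Filter.tendsto_atTop_add_const_left _ _ Filter.tendsto_id).const_mul_atTop hε
  have h2 := ((Real.tendsto_pow_mul_exp_neg_atTop_nhds_zero n).comp h1).const_mul
    (A * lam ^ n * Real.exp ε / ε ^ n)
  rw [mul_zero] at h2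
  filter_upwards [h2.eventually_le_const hη] with T hT
  refine le_trans (le_of_eq ?_) hT
  have h3 : Real.exp (-(ε * (1 + T))) = Real.exp (-(ε * T)) * Real.exp (-ε) := by
    rw [← Real.exp_add]; congr 1; ring
  have h4 : Real.exp ε * Real.exp (-ε) = 1 := by rw [← Real.exp_add]; simp
  simp only [Function.comp]
  rw [h3, mul_pow, mul_pow]
  have h5 : ε ^ n ≠ 0 := (pow_pos hε n).ne'
  field_simp
  rw [mul_assoc _ (Real.exp ε), h4, mul_one]

/-- the constant `K0` -/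
private noncomputable def K0Num2 (CD a Ca cd : ℝ) : ℝ :=
  64 * Real.exp (CD * a) * Real.sqrt Ca * cd ^ 2

private theorem Num2_sqrt (CD a T : ℝ) : Real.sqrt (Real.exp (CD * a * (T + 2))) =
    Real.exp (CD * a) * Real.exp (CD * a / 2 * T) := by
  rw [← Real.exp_half, ← Real.exp_add]; congr 1; ring

private theorem Num2_K (CD a T Ca cd : ℝ) :
    KN2 CD a T Ca cd = K0Num2 CD a Ca cd * Real.exp (CD * a / 2 * T) := by
  unfold KN2 K0Num2
  rw [Num2_sqrt]; ring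

private theorem Num2_K0 {CD a Ca cd : ℝ} (hCD : 0 < CD) (ha : 0 < a) (hCa : 1 ≤ Ca)
    (hcd : 1 ≤ cd) : 64 ≤ K0Num2 CD a Ca cd := by
  unfold K0Num2
  have h1 : 1 ≤ Real.exp (CD * a) := Real.one_le_exp (by positivity)
  have h2 : 1 ≤ Real.sqrt Ca := Real.one_le_sqrt.2 hCa
  have h3 : 1 ≤ cd ^ 2 := one_le_pow₀ hcd
  have h4 : 1 ≤ Real.exp (CD * a) * Real.sqrt Ca := one_le_mul_of_one_le_of_one_le h1 h2
  have h5 := one_le_mul_of_one_le_of_one_le h4 h3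
  nlinarith

private theorem Num2_M {CD a a' T Ca cd : ℝ} (hCD : 0 < CD) (ha : 0 < a)
    (hCa : 1 ≤ Ca) (hcd : 1 ≤ cd) : MN2' CD a a' T Ca cd =
      (7 * Real.log (K0Num2 CD a Ca cd) / a' + 3) + 7 * CD * a / (2 * a') * T := by
  unfold MN2'
  have h := Num2_K0 hCD ha hCa hcd
  rw [Num2_K, Real.log_mul (by linarith) (Real.exp_ne_zero _), Real.log_exp]
  by_cases h0 : a' = 0
  · subst h0; simp
  · field_simp; ring

/-- the conditions on the parameters -/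
private theorem Num2_par {d : ℕ} {C C5 a0 s1 a a' T M s0 L c3 : ℝ} {Rb : ℕ}
    (hC5 : 1 ≤ C5) (ha : 0 < a) (haa : a ≤ a0) (ha' : 0 < a') (ha1 : a' ≤ 1) (hT : 2 ≤ T)
    (hM : 1 ≤ M) (hs0 : 0 ≤ s0) (hs1 : s0 ≤ s1)
    (hL1 : 512 * C * C5 * (T + M + Rb + T) ≤ L) (hL2 : 2 * (Rb : ℝ) + 1 ≤ L)
    (e2 : Real.exp (-(c3 / 12 * T)) ≤ 1 / 8) (e3 : Real.exp (-(c3 / 4 * T)) ≤ 1 / 64)
    (e4 : L * Real.exp (-(c3 / 24 * T)) ≤ 1) (e5 : 16 * L ^ d * Real.exp (-(5 * c3 / 12 * T)) ≤ 1)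
    (e6 : Real.exp (-T) ≤ 1 / 2) :
    Par2 d C C5 a0 s1 a a' T M s0 (Real.exp (-(c3 / 12 * T)))
      (Real.exp (-(c3 / 12 * T)) / (512 * C5 * (T + M + Rb + T))) (Real.exp (-(c3 / 3 * T)))
      (Real.exp (-(c3 / 4 * T))) (Real.exp (-T)) Rb := by
  have hRb : (0 : ℝ) ≤ Rb := Nat.cast_nonneg _
  have hlog : Real.log (1 / Real.exp (-T)) = T := by
    rw [one_div, Real.log_inv, Real.log_exp, neg_neg]
  have hB0 : 5 ≤ T + M + Rb + T := by linarith
  set Bp : ℝ := T + M + Rb + T with hBp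
  have hCB : 1 ≤ C5 * Bp := one_le_mul_of_one_le_of_one_le hC5 (by linarith)
  have hsq : Real.sqrt (Real.exp (-(c3 / 4 * T))) = Real.exp (-(c3 / 8 * T)) := by
    rw [← Real.exp_half]; congr 1; ring
  have hk : 0 < Real.exp (-(c3 / 12 * T)) := Real.exp_pos _
  have hk8 : Real.exp (-(c3 / 8 * T)) = Real.exp (-(c3 / 12 * T)) * Real.exp (-(c3 / 24 * T)) := by
    rw [← Real.exp_add]; congr 1; ring
  have h8 : C * Real.exp (-(c3 / 8 * T)) ≤ Real.exp (-(c3 / 12 * T)) / (512 * C5 * Bp) := by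
    rw [le_div_iff₀ (by positivity), hk8]
    have h1 : C * (512 * C5 * Bp) * Real.exp (-(c3 / 24 * T)) ≤ 1 := by
      refine le_trans (mul_le_mul_of_nonneg_right ?_ (Real.exp_pos _).le) e4
      linarith
    nlinarith only [hk, h1]
  have h9 : Real.exp (-(c3 / 12 * T)) / (512 * C5 * Bp) ≤
      Real.exp (-(c3 / 12 * T)) / (8 * C5 * Bp) / 16 := by
    rw [div_div]
    exact div_le_div_of_nonneg_left hk.le (by positivity) (by nlinarith only [e2, hCB, hk])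
  have h10 : Real.exp (-(c3 / 12 * T)) / (8 * C5 * Bp) / 16 ≤
      Real.exp (-(c3 / 12 * T)) / (8 * C5 * Bp) := by
    have : 0 < Real.exp (-(c3 / 12 * T)) / (8 * C5 * Bp) := by positivity
    linarith
  refine ⟨ha, haa, ha', ha1, hT, hM, hs0, hs1, hk, e2, by positivity, ?_, ?_, Real.exp_pos _, ?_,
    Real.exp_pos _, by linarith, ?_, ?_, ?_, Real.exp_pos _, e6⟩
  · rw [hlog]; exact h9
  · exact div_le_div_of_nonneg_left hk.le (by norm_num) (by nlinarith only [e2, hCB, hk])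
  · have h1 : Real.exp (-(c3 / 3 * T)) =
        Real.exp (-(c3 / 12 * T)) * Real.exp (-(c3 / 4 * T)) := by
      rw [← Real.exp_add]; congr 1; ring
    rw [h1]
    nlinarith only [e3, hk]
  · rw [hlog, hsq]; exact h8.trans (h9.trans h10)
  · rw [hsq]; exact h8
  · have h1 : Real.exp (-(c3 / 3 * T)) ^ 2 =
        Real.exp (-(5 * c3 / 12 * T)) * Real.exp (-(c3 / 4 * T)) := by
      rw [← Real.exp_nat_mul, ← Real.exp_add]; congr 1; push_cast; ring
    rw [h1, ← mul_assoc]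
    have h2 : (2 * (Rb : ℝ) + 1) ^ d ≤ L ^ d := pow_le_pow_left₀ (by positivity) hL2 d
    have h3 : 16 * (2 * (Rb : ℝ) + 1) ^ d * Real.exp (-(5 * c3 / 12 * T)) ≤ 1 :=
      le_trans (mul_le_mul_of_nonneg_right (by linarith) (Real.exp_pos _).le) e5
    have := mul_le_mul_of_nonneg_right h3 (Real.exp_pos (-(c3 / 4 * T))).le
    linarith

/-- the noise term -/
private theorem Num2_pBr {d : ℕ} {C C5 T M L c3 : ℝ} {Rb : ℕ} (hC : 1 ≤ C)
    (hC5 : 1 ≤ C5) (hT : 2 ≤ T) (hM : 1 ≤ M) (hc3 : 0 < c3)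
    (hL1 : 512 * C * C5 * (T + M + Rb + T) ≤ L) (hL2 : 2 * (Rb : ℝ) + 1 ≤ L) (hL3 : C ≤ L) :
    pBr d C (Real.exp (-(c3 / 12 * T)) / (512 * C5 * (T + M + Rb + T)))
      (Real.exp (-(c3 / 4 * T))) Rb ^ (1 / 2 : ℝ) ≤
      (L ^ d + 1) * Real.exp (-(Real.exp (c3 / 24 * T) / (2 * L))) := by
  have hRb : (0 : ℝ) ≤ Rb := Nat.cast_nonneg _
  have hL : 1 ≤ L := hC.trans hL3
  have hB0 : 5 ≤ T + M + Rb + T := by linarith
  set Bp : ℝ := T + M + Rb + T with hBp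
  have hsq : Real.sqrt (Real.exp (-(c3 / 4 * T))) = Real.exp (-(c3 / 8 * T)) := by
    rw [← Real.exp_half]; congr 1; ring
  have hE : 0 < Real.exp (c3 / 24 * T) := Real.exp_pos _
  have h1 : Real.exp (c3 / 24 * T) / L ≤
      Real.exp (-(c3 / 12 * T)) / (512 * C5 * Bp) / (C * Real.exp (-(c3 / 8 * T))) := by
    have h2 : Real.exp (-(c3 / 12 * T)) / (512 * C5 * Bp) / (C * Real.exp (-(c3 / 8 * T))) =
        Real.exp (c3 / 24 * T) / (512 * C * C5 * Bp) := by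
      have h3 : Real.exp (-(c3 / 12 * T)) = Real.exp (c3 / 24 * T) * Real.exp (-(c3 / 8 * T)) := by
        rw [← Real.exp_add]; congr 1; ring
      rw [h3]
      have h4 : Real.exp (-(c3 / 8 * T)) ≠ 0 := Real.exp_ne_zero _
      field_simp
    rw [h2]
    exact div_le_div_of_nonneg_left hE.le (by positivity) hL1
  have h2 : Real.exp (c3 / 24 * T) / L ≤ 1 / (C * Real.exp (-(c3 / 8 * T))) := by
    rw [div_le_div_iff₀ (by linarith) (by positivity), one_mul]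
    have h3 : Real.exp (c3 / 24 * T) * Real.exp (-(c3 / 8 * T)) ≤ 1 := by
      rw [← Real.exp_add, Real.exp_le_one_iff]
      nlinarith only [hc3, hT]
    calc Real.exp (c3 / 24 * T) * (C * Real.exp (-(c3 / 8 * T))) =
        C * (Real.exp (c3 / 24 * T) * Real.exp (-(c3 / 8 * T))) := by ring
      _ ≤ C * 1 := mul_le_mul_of_nonneg_left h3 (by linarith)
      _ ≤ L := by linarith
  have h3 : pBr d C (Real.exp (-(c3 / 12 * T)) / (512 * C5 * Bp))
      (Real.exp (-(c3 / 4 * T))) Rb ≤ (L ^ d + 1) * Real.exp (-(Real.exp (c3 / 24 * T) / L)) := by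
    unfold pBr
    rw [hsq, add_mul, one_mul]
    refine add_le_add (mul_le_mul ?_ ?_ (Real.exp_pos _).le (by positivity)) ?_
    · exact pow_le_pow_left₀ (by positivity) hL2 d
    · rw [Real.exp_le_exp]; linarith
    · rw [Real.exp_le_exp]; linarith
  have h4 : 0 ≤ pBr d C (Real.exp (-(c3 / 12 * T)) / (512 * C5 * Bp))
      (Real.exp (-(c3 / 4 * T))) Rb := by
    unfold pBr; positivity
  have h5 : (1 : ℝ) ≤ L ^ d + 1 := by
    have : 0 ≤ L ^ d := by positivity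
    linarith
  rw [← Real.sqrt_eq_rpow]
  refine (Real.sqrt_le_sqrt h3).trans ?_
  rw [Real.sqrt_mul (by linarith)]
  have h6 : Real.sqrt (Real.exp (-(Real.exp (c3 / 24 * T) / L))) =
      Real.exp (-(Real.exp (c3 / 24 * T) / (2 * L))) := by
    rw [← Real.exp_half]; congr 1; field_simp
  rw [h6]
  refine mul_le_mul_of_nonneg_right ?_ (Real.exp_pos _).le
  calc Real.sqrt (L ^ d + 1) ≤ Real.sqrt ((L ^ d + 1) ^ 2) := Real.sqrt_le_sqrt (by nlinarith only [h5])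
    _ = L ^ d + 1 := Real.sqrt_sq (by linarith)

/-- the coefficient of the bridge -/
private theorem Num2_KB {d : ℕ} {C C5 a T M L c3 c2 ρ Q : ℝ} {Rb : ℕ} (hC : 1 ≤ C)
    (hC5 : 1 ≤ C5) (ha : 0 < a) (hT : 2 ≤ T) (hM : 1 ≤ M) (hc3 : 0 < c3) (hQ : 0 < Q)
    (hL1 : 512 * C * C5 * (T + M + Rb + T) ≤ L) (hL2 : 2 * (Rb : ℝ) + 1 ≤ L) (hL3 : C ≤ L)
    (hL4 : T ≤ L) (hρ : C * Real.exp (-ρ) * Q ≤ 1 / 16)
    (hRb : 16 * (2 * C5 * T + 1 + ρ / a) ≤ Rb)
    (hX : C * a * ((C5 * (T + T) + 1) + C5 * (T + M + Rb + T) + Rb) ≤ c2 + c3 / 24 * T)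
    (e9 : C * Q * Real.exp a * (L ^ d + 1) * Real.exp (-T) ≤ 1 / 32)
    (e9' : 2 * (2 * a * C5 + 1) * L ^ 2 * Real.exp (-(c3 / 24 * T)) ≤ 1)
    (e10 : C * Q * Real.exp c2 * L ^ (3 * d) * Real.exp (-(c3 / 6 * T)) ≤ 1 / 32) :
    KB2 d C C5 a T M (Real.exp (-(c3 / 12 * T)) / (512 * C5 * (T + M + Rb + T)))
      (Real.exp (-(c3 / 3 * T))) (Real.exp (-(c3 / 4 * T))) (Real.exp (-T)) Rb * Q ≤ 1 / 8 := by
  have hlog : Real.log (1 / Real.exp (-T)) = T := by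
    rw [one_div, Real.log_inv, Real.log_exp, neg_neg]
  have hL : 1 ≤ L := hC.trans hL3
  have hsq : Real.sqrt (Real.exp (-(c3 / 4 * T))) = Real.exp (-(c3 / 8 * T)) := by
    rw [← Real.exp_half]; congr 1; ring
  unfold KB2 KBr
  rw [hlog, hsq]
  set Bp : ℝ := T + M + Rb + T with hBp
  have hE1 : Real.exp (a * (C5 * (T + T) + 1 - Rb / 16)) ≤ Real.exp (-ρ) := by
    rw [Real.exp_le_exp]
    have h1 : 2 * C5 * T + 1 - Rb / 16 ≤ -(ρ / a) := by linarith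
    have h2 := mul_le_mul_of_nonneg_left h1 ha.le
    have h3 : a * (-(ρ / a)) = -ρ := by field_simp
    rw [h3] at h2
    refine le_trans (le_of_eq ?_) h2
    ring
  have hE2 : Real.exp (a * (C5 * (T + T) + 1)) *
      pBr d C (Real.exp (-(c3 / 12 * T)) / (512 * C5 * Bp)) (Real.exp (-(c3 / 4 * T))) Rb ^
        (1 / 2 : ℝ) ≤ Real.exp a * (L ^ d + 1) * Real.exp (-T) := by
    have h1 := Num2_pBr (d := d) hC hC5 hT hM hc3 hL1 hL2 hL3
    refine (mul_le_mul_of_nonneg_left h1 (Real.exp_pos _).le).trans ?_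
    have h2 : (2 * a * C5 + 1) * T ≤ Real.exp (c3 / 24 * T) / (2 * L) := by
      rw [le_div_iff₀ (by linarith)]
      have h3 : Real.exp (c3 / 24 * T) * Real.exp (-(c3 / 24 * T)) = 1 := by
        rw [← Real.exp_add]; simp
      have h4 := mul_le_mul_of_nonneg_left e9' (Real.exp_pos (c3 / 24 * T)).le
      have h5 : Real.exp (c3 / 24 * T) *
          (2 * (2 * a * C5 + 1) * L ^ 2 * Real.exp (-(c3 / 24 * T))) =
          2 * (2 * a * C5 + 1) * L ^ 2 := by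
        calc _ = (Real.exp (c3 / 24 * T) * Real.exp (-(c3 / 24 * T))) *
            (2 * (2 * a * C5 + 1) * L ^ 2) := by ring
          _ = _ := by rw [h3, one_mul]
      rw [h5, mul_one] at h4
      refine le_trans ?_ h4
      have h6 : T * L ≤ L ^ 2 := by nlinarith only [hL4, hL2]
      have h7 : 0 ≤ 2 * (2 * a * C5 + 1) := by positivity
      have := mul_le_mul_of_nonneg_left h6 h7
      linarith
    have h8 : Real.exp (a * (C5 * (T + T) + 1)) * Real.exp (-(Real.exp (c3 / 24 * T) / (2 * L))) ≤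
        Real.exp a * Real.exp (-T) := by
      rw [← Real.exp_add, ← Real.exp_add, Real.exp_le_exp]
      linarith
    have h9 : 0 ≤ L ^ d + 1 := by positivity
    have := mul_le_mul_of_nonneg_right h8 h9
    calc _ = Real.exp (a * (C5 * (T + T) + 1)) *
          Real.exp (-(Real.exp (c3 / 24 * T) / (2 * L))) * (L ^ d + 1) := by ring
      _ ≤ Real.exp a * Real.exp (-T) * (L ^ d + 1) := this
      _ = _ := by ring
  have hE3 : (2 * (Rb : ℝ) + 1) ^ (3 * d) *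
      (Real.exp (-(c3 / 3 * T)) / Real.exp (-(c3 / 8 * T))) *
      Real.exp (C * a * (C5 * (T + T) + 1 + C5 * Bp + Rb)) ≤
      Real.exp c2 * L ^ (3 * d) * Real.exp (-(c3 / 6 * T)) := by
    have h1 : (2 * (Rb : ℝ) + 1) ^ (3 * d) ≤ L ^ (3 * d) :=
      pow_le_pow_left₀ (by positivity) hL2 _
    have h2 : Real.exp (-(c3 / 3 * T)) / Real.exp (-(c3 / 8 * T)) =
        Real.exp (-(5 * c3 / 24 * T)) := by
      rw [← Real.exp_sub]; congr 1; ring
    have h3 : Real.exp (C * a * (C5 * (T + T) + 1 + C5 * Bp + Rb)) ≤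
        Real.exp (c2 + c3 / 24 * T) := Real.exp_le_exp.2 hX
    rw [h2]
    calc _ ≤ L ^ (3 * d) * Real.exp (-(5 * c3 / 24 * T)) * Real.exp (c2 + c3 / 24 * T) := by
          gcongr
      _ = Real.exp c2 * L ^ (3 * d) *
          (Real.exp (-(5 * c3 / 24 * T)) * Real.exp (c3 / 24 * T)) := by
          rw [Real.exp_add]; ring
      _ = _ := by rw [← Real.exp_add]; congr 2; ring
  have hCQ : 0 ≤ C * Q := by positivity
  have f1 := mul_le_mul_of_nonneg_left hE1 hCQ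
  have f2 := mul_le_mul_of_nonneg_left hE2 hCQ
  have f3 := mul_le_mul_of_nonneg_left hE3 hCQ
  nlinarith only [hρ, e9, e10, f1, f2, f3, f1, f2, f3]

/-- the coefficient of the bad event -/
private theorem Num2_KE {d : ℕ} {C C5 c3 a a' T M s0 L c1 δ D : ℝ} {Rb : ℕ} (hC : 1 ≤ C)
    (hC5 : 1 ≤ C5) (hT : 2 ≤ T) (hM : 1 ≤ M)
    (hL1 : C5 * (T + M + Rb + T) ≤ L) (hL2 : 2 * (Rb : ℝ) + 1 ≤ L) (hL3 : 1 ≤ L)
    (hX : C5 * (M + s0 * Rb + 1) ≤ c1 + c3 / 12 * T) (hδ1 : δ ≤ 1) (hδ2 : δ ≤ c3 / 12)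
    (hδ : 0 ≤ δ) (hD : C * (a + a') + D ≤ δ / 4) :
    KE2 d C C5 c3 a a' T M s0 (Real.exp (-(c3 / 12 * T))) (Real.exp (-(c3 / 3 * T)))
      (Real.exp (-T)) Rb * Real.exp (D * T) ≤
      C * (2 + Real.exp c1) * L ^ (4 * d + 4) * Real.exp (-(δ / 4 * T)) := by
  have hlog : Real.log (1 / Real.exp (-T)) = T := by
    rw [one_div, Real.log_inv, Real.log_exp, neg_neg]
  have hRb : (0 : ℝ) ≤ Rb := Nat.cast_nonneg _
  unfold KE2
  have hp0 : 0 ≤ pPr d c3 C5 T M s0 (Real.exp (-(c3 / 12 * T))) (Real.exp (-(c3 / 3 * T)))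
      (Real.exp (-T)) Rb := by
    unfold pPr; rw [hlog]
    have : 0 ≤ C5 * (T + M + Rb + T) := by positivity
    positivity
  have hp : pPr d c3 C5 T M s0 (Real.exp (-(c3 / 12 * T))) (Real.exp (-(c3 / 3 * T)))
      (Real.exp (-T)) Rb ≤ (2 + Real.exp c1) * L ^ (4 * d + 4) * Real.exp (-(δ * T)) := by
    unfold pPr; rw [hlog]
    have hLp : 1 ≤ L ^ (4 * d + 4) := one_le_pow₀ hL3
    have hLd : L ^ d ≤ L ^ (4 * d + 4) := pow_le_pow_right₀ hL3 (by omega)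
    have g1 : Real.exp (-T) ≤ Real.exp (-(δ * T)) := by
      rw [Real.exp_le_exp]; nlinarith only [hδ1, hT]
    have g2 : Real.exp (-(c3 / 12 * T)) ≤ Real.exp (-(δ * T)) := by
      rw [Real.exp_le_exp]; nlinarith only [hδ2, hT]
    have g3 : (C5 * (T + M + Rb + T)) ^ (4 * d + 4) ≤ L ^ (4 * d + 4) :=
      pow_le_pow_left₀ (by positivity) hL1 _
    have g4 : (2 * (Rb : ℝ) + 1) ^ d ≤ L ^ (4 * d + 4) :=
      (pow_le_pow_left₀ (by positivity) hL2 _).trans hLd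
    have g5 : Real.exp (C5 * (M + s0 * Rb + 1) - c3 * T) / Real.exp (-(c3 / 3 * T)) ≤
        Real.exp c1 * Real.exp (-(δ * T)) := by
      rw [← Real.exp_sub, ← Real.exp_add, Real.exp_le_exp]
      nlinarith only [hX, hδ2, hδ, hT]
    have g6 : (2 * (Rb : ℝ) + 1) ^ d / Real.exp (-(c3 / 3 * T)) *
        Real.exp (C5 * (M + s0 * Rb + 1) - c3 * T) ≤
        L ^ (4 * d + 4) * (Real.exp c1 * Real.exp (-(δ * T))) := by
      rw [div_mul_eq_mul_div, mul_div_assoc]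
      exact mul_le_mul g4 g5 (by positivity) (by positivity)
    have g7 : Real.exp (-(c3 / 12 * T)) * (C5 * (T + M + Rb + T)) ^ (4 * d + 4) ≤
        Real.exp (-(δ * T)) * L ^ (4 * d + 4) :=
      mul_le_mul g2 g3 (by positivity) (Real.exp_pos _).le
    have g8 : Real.exp (-T) ≤ Real.exp (-(δ * T)) * L ^ (4 * d + 4) :=
      g1.trans (le_mul_of_one_le_right (Real.exp_pos _).le hLp)
    nlinarith only [g6, g7, g8, g6, g7, g8]
  have hs : pPr d c3 C5 T M s0 (Real.exp (-(c3 / 12 * T))) (Real.exp (-(c3 / 3 * T)))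
      (Real.exp (-T)) Rb ^ (1 / 2 : ℝ) ≤
      (2 + Real.exp c1) * L ^ (4 * d + 4) * Real.exp (-(δ / 2 * T)) := by
    rw [← Real.sqrt_eq_rpow]
    refine (Real.sqrt_le_sqrt hp).trans ?_
    have hU : 1 ≤ (2 + Real.exp c1) * L ^ (4 * d + 4) :=
      one_le_mul_of_one_le_of_one_le (by linarith [Real.exp_pos c1]) (one_le_pow₀ hL3)
    rw [Real.sqrt_mul (by linarith)]
    have h6 : Real.sqrt (Real.exp (-(δ * T))) = Real.exp (-(δ / 2 * T)) := by
      rw [← Real.exp_half]; congr 1; ring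
    rw [h6]
    refine mul_le_mul_of_nonneg_right ?_ (Real.exp_pos _).le
    calc Real.sqrt ((2 + Real.exp c1) * L ^ (4 * d + 4)) ≤
        Real.sqrt (((2 + Real.exp c1) * L ^ (4 * d + 4)) ^ 2) :=
          Real.sqrt_le_sqrt (by nlinarith only [hU])
      _ = _ := Real.sqrt_sq (by linarith)
  have hU0 : 0 ≤ C * ((2 + Real.exp c1) * L ^ (4 * d + 4)) := by positivity
  calc _ ≤ C * Real.exp (C * (a + a') * T) *
        ((2 + Real.exp c1) * L ^ (4 * d + 4) * Real.exp (-(δ / 2 * T))) * Real.exp (D * T) := by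
        gcongr
    _ = C * ((2 + Real.exp c1) * L ^ (4 * d + 4)) *
        (Real.exp (C * (a + a') * T) * Real.exp (-(δ / 2 * T)) * Real.exp (D * T)) := by ring
    _ ≤ C * ((2 + Real.exp c1) * L ^ (4 * d + 4)) * Real.exp (-(δ / 4 * T)) := by
        refine mul_le_mul_of_nonneg_left ?_ hU0
        rw [← Real.exp_add, ← Real.exp_add, Real.exp_le_exp]
        nlinarith only [hD, hT]
    _ = _ := by ring

private theorem Num2_small (k e : ℝ) (he : 0 < e) : ∀ᶠ a : ℝ in nhdsWithin 0 (Set.Ioi 0),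
    k * a ≤ e := by
  have h : Filter.Tendsto (fun a : ℝ => k * a) (nhdsWithin 0 (Set.Ioi 0)) (nhds 0) := by
    have : Filter.Tendsto (fun a : ℝ => k * a) (nhds 0) (nhds (k * 0)) :=
      (continuous_const.mul continuous_id).tendsto 0
    rw [mul_zero] at this
    exact this.mono_left nhdsWithin_le_nhds
  exact h.eventually_le_const he

private theorem Num2_a (a0 a' s1 c CD c3 C C5 δ : ℝ) (ha0 : 0 < a0) (ha' : 0 < a') (hs1 : 0 < s1)
    (hc : 0 < c) (hc3 : 0 < c3) (hδ : 0 < δ) :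
    ∃ a : ℝ, 0 < a ∧ a ≤ a0 ∧ a ≤ a' ∧ a ≤ s1 * a' ∧ CD * a ≤ c * a' ∧
      C5 * (7 * CD * a / (2 * a')) ≤ c3 / 24 ∧ C5 * (a / a' * (32 * C5)) ≤ c3 / 24 ∧
      C * a + CD * a / 2 ≤ δ / 8 ∧ C * a * (4 * C5 + C5 * (7 * CD / 2) + 64 * C5 ^ 2) ≤ c3 / 24 := by
  have h := ((((((((Num2_small 1 a0 ha0).and (Num2_small 1 a' ha')).and
    (Num2_small 1 (s1 * a') (by positivity))).and (Num2_small CD (c * a') (by positivity))).and
    (Num2_small (C5 * (7 * CD / (2 * a'))) (c3 / 24) (by positivity))).and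
    (Num2_small (C5 * (32 * C5 / a')) (c3 / 24) (by positivity))).and
    (Num2_small (C + CD / 2) (δ / 8) (by positivity))).and
    (Num2_small (C * (4 * C5 + C5 * (7 * CD / 2) + 64 * C5 ^ 2)) (c3 / 24) (by positivity))).and
    (self_mem_nhdsWithin (a := (0 : ℝ)) (s := Set.Ioi 0))
  obtain ⟨a, ⟨⟨⟨⟨⟨⟨⟨h1, h2⟩, h3⟩, h4⟩, h5⟩, h6⟩, h7⟩, h8⟩, h9⟩ := h.exists
  refine ⟨a, h9, by linarith, by linarith, by linarith, h4, ?_, ?_, by linarith, ?_⟩
  · refine le_trans (le_of_eq ?_) h5; ring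
  · refine le_trans (le_of_eq ?_) h6; ring
  · refine le_trans (le_of_eq ?_) h8; ring

private theorem Num2_L {C C5 T M0 m r0 Rb lam : ℝ} (hC : 1 ≤ C) (hC5 : 1 ≤ C5) (hT : 2 ≤ T)
    (hM0 : 3 ≤ M0) (hm : 0 ≤ m) (hr0 : 17 ≤ r0) (hRb0 : 0 ≤ Rb) (hRb : Rb ≤ r0 + 32 * C5 * T)
    (hlam : lam = 512 * C * C5 * ((M0 + r0) + (2 + m + 32 * C5))) :
    512 * C * C5 * (T + (M0 + m * T) + Rb + T) ≤ lam * (1 + T) ∧ 2 * Rb + 1 ≤ lam * (1 + T) ∧
      C ≤ lam * (1 + T) ∧ T ≤ lam * (1 + T) ∧ C5 * (T + (M0 + m * T) + Rb + T) ≤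
      lam * (1 + T) := by
  have hmT : 0 ≤ m * T := by positivity
  have hBp : T + (M0 + m * T) + Rb + T ≤ ((M0 + r0) + (2 + m + 32 * C5)) * (1 + T) := by
    have h1 : 0 ≤ (M0 + r0) * T := by positivity
    linarith
  have hCC5 : 1 ≤ C * C5 := one_le_mul_of_one_le_of_one_le hC hC5
  set Bp := T + (M0 + m * T) + Rb + T with hBpd
  have hBp5 : 5 ≤ Bp := by linarith
  have h0 : 512 * C * C5 * Bp ≤ lam * (1 + T) := by
    have := mul_le_mul_of_nonneg_left hBp (show 0 ≤ 512 * C * C5 by positivity)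
    rw [hlam]
    linarith
  have h1 : Bp ≤ C * C5 * Bp := le_mul_of_one_le_left (by linarith) hCC5
  have h2 : 1 ≤ C5 * Bp := one_le_mul_of_one_le_of_one_le hC5 (by linarith)
  have h3 : C ≤ C * (C5 * Bp) := le_mul_of_one_le_right (by linarith) h2
  have h4 : C5 * Bp ≤ C * (C5 * Bp) := le_mul_of_one_le_left (by linarith) hC
  refine ⟨h0, by linarith, by linarith, by linarith, by linarith⟩

private theorem Num2_XE {C5 T M0 m r0 Rb s0 c3 : ℝ} (hC5 : 1 ≤ C5) (hT : 2 ≤ T)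
    (hs0 : 0 ≤ s0) (hRb : Rb ≤ r0 + 32 * C5 * T) (hA1 : C5 * m ≤ c3 / 24)
    (hA2 : C5 * (s0 * (32 * C5)) ≤ c3 / 24) :
    C5 * ((M0 + m * T) + s0 * Rb + 1) ≤ C5 * (M0 + s0 * r0 + 1) + c3 / 12 * T := by
  have h1 : s0 * Rb ≤ s0 * (r0 + 32 * C5 * T) := mul_le_mul_of_nonneg_left hRb hs0
  have h4 := mul_le_mul_of_nonneg_left h1 (show 0 ≤ C5 by linarith)
  have h2 := mul_le_mul_of_nonneg_right hA1 (show 0 ≤ T by linarith)
  have h3 := mul_le_mul_of_nonneg_right hA2 (show 0 ≤ T by linarith)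
  linarith

private theorem Num2_XB {C C5 T M0 m r0 Rb a c3 CD : ℝ} (hC : 1 ≤ C) (hC5 : 1 ≤ C5) (hT : 2 ≤ T)
    (ha : 0 < a) (hm1 : m ≤ 7 * CD / 2) (hRb : Rb ≤ r0 + 32 * C5 * T)
    (hA4 : C * a * (4 * C5 + C5 * (7 * CD / 2) + 64 * C5 ^ 2) ≤ c3 / 24) :
    C * a * ((C5 * (T + T) + 1) + C5 * (T + (M0 + m * T) + Rb + T) + Rb) ≤
      C * a * (1 + C5 * (M0 + r0) + r0) + c3 / 24 * T := by
  have hT0 : 0 ≤ T := by linarith
  have h5 : C5 * (m * T) ≤ C5 * (7 * CD / 2 * T) :=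
    mul_le_mul_of_nonneg_left (mul_le_mul_of_nonneg_right hm1 hT0) (by linarith)
  have h6 : Rb ≤ r0 + 32 * C5 ^ 2 * T := by
    have : C5 * T ≤ C5 ^ 2 * T := mul_le_mul_of_nonneg_right (by nlinarith) hT0
    linarith
  have h7 : C5 * Rb ≤ C5 * (r0 + 32 * C5 * T) := mul_le_mul_of_nonneg_left hRb (by linarith)
  have h8 : (C5 * (T + T) + 1) + C5 * (T + (M0 + m * T) + Rb + T) + Rb ≤
      (1 + C5 * (M0 + r0) + r0) + (4 * C5 + C5 * (7 * CD / 2) + 64 * C5 ^ 2) * T := by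
    linarith
  have h9 := mul_le_mul_of_nonneg_left h8 (show 0 ≤ C * a by positivity)
  have h2 := mul_le_mul_of_nonneg_right hA4 hT0
  linarith

theorem num2 (d : ℕ) (C C5 CD c3 c B s1 a0 a1 : ℝ) (hC : 1 ≤ C) (hC5 : 1 ≤ C5) (hCD : 0 < CD)
    (hc3 : 0 < c3) (hc : 0 < c) (hB : 1 ≤ B) (hs1 : 0 < s1) (ha0 : 0 < a0) (ha1 : 0 < a1)
    (Caf cdf : ℝ → ℝ) (hCa : ∀ a, 1 ≤ Caf a) (hcd : ∀ a, 1 ≤ cdf a) :
    ∃ a' a T0 : ℝ, 0 < a' ∧ a' ≤ a1 ∧ a' ≤ 1 ∧ 0 < a ∧ a ≤ a0 ∧ a / a' ≤ s1 ∧ ∀ T, T0 ≤ T →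
    ∃ (Rb : ℕ) (κ κ3 κd sw p : ℝ),
      Par2 d C C5 a0 s1 a a' T (MN2' CD a a' T (Caf a') (cdf a)) (a / a') κ κ3 κd sw p Rb ∧
      1 ≤ KN2 CD a T (Caf a') (cdf a) ∧
      4 * Real.sqrt (Real.exp (CD * a * (T + 2))) *
        (Real.sqrt B * Real.exp (-(c * a' * T)) +
          2 * Real.sqrt (Caf a') * cdf a / KN2 CD a T (Caf a') (cdf a)) * cdf a ≤ 1 / 4 ∧
      (KB2 d C C5 a T (MN2' CD a a' T (Caf a') (cdf a)) κ3 κd sw p Rb *
          (2 * (B * Real.exp (-(c * a' * T))) * KN2 CD a T (Caf a') (cdf a) +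
            2 * Caf a' * cdf a) +
        4 * KE2 d C C5 c3 a a' T (MN2' CD a a' T (Caf a') (cdf a)) (a / a') κ κd p Rb *
          KN2 CD a T (Caf a') (cdf a)) * cdf a ≤ 1 / 4 := by
  set δ : ℝ := min 1 (c3 / 12) with hδ
  have hδ0 : 0 < δ := lt_min one_pos (by positivity)
  have hδ1 : δ ≤ 1 := min_le_left _ _
  have hδ2 : δ ≤ c3 / 12 := min_le_right _ _
  have hC0 : 0 < C := by linarith
  obtain ⟨a', ha', ha'1, ha'2, ha'3⟩ : ∃ a' : ℝ, 0 < a' ∧ a' ≤ a1 ∧ a' ≤ 1 ∧ C * a' ≤ δ / 16 := by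
    refine ⟨min (min a1 1) (δ / (16 * C)), lt_min (lt_min ha1 one_pos) (by positivity),
      (min_le_left _ _).trans (min_le_left _ _), (min_le_left _ _).trans (min_le_right _ _), ?_⟩
    calc C * min (min a1 1) (δ / (16 * C)) ≤ C * (δ / (16 * C)) :=
          mul_le_mul_of_nonneg_left (min_le_right _ _) hC0.le
      _ = δ / 16 := by field_simp
  obtain ⟨a, ha, haa0, haa', hsa, hca, hA1, hA2, hA3, hA4⟩ :=
    Num2_a a0 a' s1 c CD c3 C C5 δ ha0 ha' hs1 hc hc3 hδ0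
  have hs : a / a' ≤ s1 := by rwa [div_le_iff₀ ha']
  have hs0 : 0 ≤ a / a' := by positivity
  refine ⟨a', a, ?_⟩
  have hCa1 := hCa a'
  have hcd1 := hcd a
  generalize Caf a' = Ca at hCa1 ⊢
  generalize cdf a = cd at hcd1 ⊢
  set K0 := K0Num2 CD a Ca cd with hK0d
  have hK0 : 64 ≤ K0 := Num2_K0 hCD ha hCa1 hcd1
  set M0 : ℝ := 7 * Real.log K0 / a' + 3 with hM0
  have hM03 : 3 ≤ M0 := by
    have h1 : 0 ≤ Real.log K0 := Real.log_nonneg (by linarith)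
    have : 0 ≤ 7 * Real.log K0 / a' := by positivity
    linarith
  set m : ℝ := 7 * CD * a / (2 * a') with hm
  have hm0 : 0 ≤ m := by positivity
  have hm1 : m ≤ 7 * CD / 2 := by
    rw [hm, div_le_div_iff₀ (by positivity) (by norm_num)]
    have := mul_le_mul_of_nonneg_left haa' hCD.le
    linarith
  set Q : ℝ := (2 + 2 * Ca * cd) * cd with hQd
  have hQ : 1 ≤ Q := by
    have h1 : 1 ≤ Ca * cd := one_le_mul_of_one_le_of_one_le hCa1 hcd1
    exact one_le_mul_of_one_le_of_one_le (by linarith) hcd1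
  have hCQ : 1 ≤ 16 * C * Q := one_le_mul_of_one_le_of_one_le (by linarith) hQ
  set ρ : ℝ := Real.log (16 * C * Q) with hρd
  have hρ0 : 0 ≤ ρ := Real.log_nonneg hCQ
  have hρe : C * Real.exp (-ρ) * Q ≤ 1 / 16 := by
    rw [hρd, Real.exp_neg, Real.exp_log (by linarith)]
    have : Q ≠ 0 := by linarith
    apply le_of_eq
    field_simp
  set r0 : ℝ := 17 + 16 * ρ / a with hr0
  have hr01 : 17 ≤ r0 := by
    have : 0 ≤ 16 * ρ / a := by positivity
    linarith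
  set lam : ℝ := 512 * C * C5 * ((M0 + r0) + (2 + m + 32 * C5)) with hlam
  set c1 : ℝ := C5 * (M0 + a / a' * r0 + 1) with hc1
  set c2 : ℝ := C * a * (1 + C5 * (M0 + r0) + r0) with hc2
  have E1 := Filter.eventually_ge_atTop (2 : ℝ)
  have E2 := Num2_poly 1 1 (c3 / 12) (1 / 8) 0 (by positivity) (by norm_num)
  have E3 := Num2_poly 1 1 (c3 / 4) (1 / 64) 0 (by positivity) (by norm_num)
  have E4 := Num2_poly 1 lam (c3 / 24) 1 1 (by positivity) (by norm_num)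
  have E5 := Num2_poly 16 lam (5 * c3 / 12) 1 d (by positivity) (by norm_num)
  have E6 := Num2_poly 1 1 1 (1 / 2) 0 (by norm_num) (by norm_num)
  have E7 := Num2_poly (B * K0) 1 (c * a' / 2) 1 0 (by positivity) (by norm_num)
  have E8 := Num2_poly (4 * Real.exp (CD * a) * Real.sqrt B * cd) 1 (c * a' / 2) (1 / 8) 0
    (by positivity) (by norm_num)
  have E9 := Num2_poly (C * Q * Real.exp a) lam 1 (1 / 64) d (by norm_num) (by norm_num)
  have E9a := Num2_poly (C * Q * Real.exp a) 1 1 (1 / 64) 0 (by norm_num) (by norm_num)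
  have E9' := Num2_poly (2 * (2 * a * C5 + 1)) lam (c3 / 24) 1 2 (by positivity) (by norm_num)
  have E10 := Num2_poly (C * Q * Real.exp c2) lam (c3 / 6) (1 / 32) (3 * d) (by positivity)
    (by norm_num)
  have E11 := Num2_poly (4 * K0 * cd * (C * (2 + Real.exp c1))) lam (δ / 4) (1 / 8) (4 * d + 4)
    (by positivity) (by norm_num)
  obtain ⟨T0, hT0⟩ := Filter.eventually_atTop.1 (E1.and (E2.and (E3.and (E4.and (E5.and
    (E6.and (E7.and (E8.and (E9.and (E9a.and (E9'.and (E10.and E11))))))))))))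
  refine ⟨T0, ha', ha'1, ha'2, ha, haa0, hs, fun T hT => ?_⟩
  obtain ⟨e1, e2, e3, e4, e5, e6, e7, e8, e9, e9a, e9', e10, e11⟩ := hT0 T hT
  simp only [pow_zero, mul_one, one_mul, pow_one] at e2 e3 e4 e6 e7 e8 e9 e9a
  have hT0' : 0 ≤ T := by linarith only [e1]
  set Rb : ℕ := ⌈16 * (2 * C5 * T + 1 + ρ / a)⌉₊ with hRbd
  have hRb1 : 16 * (2 * C5 * T + 1 + ρ / a) ≤ Rb := Nat.le_ceil _
  have hRb2 : (Rb : ℝ) ≤ r0 + 32 * C5 * T := by
    have h1 := Nat.ceil_lt_add_one (show 0 ≤ 16 * (2 * C5 * T + 1 + ρ / a) by positivity)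
    rw [← hRbd] at h1
    have h2 : 16 * (ρ / a) = 16 * ρ / a := by ring
    rw [hr0]
    linarith only [h1, h2]
  have hRb0 : (0 : ℝ) ≤ Rb := Nat.cast_nonneg _
  have hMe : MN2' CD a a' T Ca cd = M0 + m * T := Num2_M hCD ha hCa1 hcd1
  have hKe : KN2 CD a T Ca cd = K0 * Real.exp (CD * a / 2 * T) := Num2_K _ _ _ _ _
  rw [hMe, hKe]
  have hM1 : 1 ≤ M0 + m * T := by
    have : 0 ≤ m * T := by positivity
    linarith only [hM03, this]
  obtain ⟨hL1, hL2, hL3, hL4, hL5⟩ := Num2_L hC hC5 e1 hM03 hm0 hr01 hRb0 hRb2 hlam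
  have hL6 : 1 ≤ lam * (1 + T) := hC.trans hL3
  have hXE := Num2_XE (M0 := M0) (c3 := c3) hC5 e1 hs0 hRb2 hA1 hA2
  have hXB := Num2_XB (M0 := M0) (c3 := c3) hC hC5 e1 ha hm1 hRb2 hA4
  rw [← hc1] at hXE
  rw [← hc2] at hXB
  refine ⟨Rb, Real.exp (-(c3 / 12 * T)),
    Real.exp (-(c3 / 12 * T)) / (512 * C5 * (T + (M0 + m * T) + Rb + T)),
    Real.exp (-(c3 / 3 * T)), Real.exp (-(c3 / 4 * T)), Real.exp (-T), ?_, ?_, ?_, ?_⟩
  · exact Num2_par hC5 ha haa0 ha' ha'2 e1 hM1 hs0 hs hL1 hL2 e2 e3 e4 e5 e6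
  · have : 1 ≤ Real.exp (CD * a / 2 * T) := Real.one_le_exp (by positivity)
    exact one_le_mul_of_one_le_of_one_le (by linarith only [hK0]) this
  · rw [Num2_sqrt, hK0d]
    unfold K0Num2
    have hCs : 0 < Real.sqrt Ca := Real.sqrt_pos.2 (by linarith only [hCa1])
    have hx : 0 < Real.exp (CD * a) := Real.exp_pos _
    have hy : 0 < Real.exp (CD * a / 2 * T) := Real.exp_pos _
    have hcd0 : 0 < cd := by linarith only [hcd1]
    have h1 : 4 * (Real.exp (CD * a) * Real.exp (CD * a / 2 * T)) *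
        (2 * Real.sqrt Ca * cd / (64 * Real.exp (CD * a) * Real.sqrt Ca * cd ^ 2 *
          Real.exp (CD * a / 2 * T))) * cd = 1 / 8 := by
      field_simp
      norm_num
    have h2 : 4 * (Real.exp (CD * a) * Real.exp (CD * a / 2 * T)) *
        (Real.sqrt B * Real.exp (-(c * a' * T))) * cd ≤ 1 / 8 := by
      refine le_trans ?_ e8
      have h3 : Real.exp (CD * a / 2 * T) * Real.exp (-(c * a' * T)) ≤
          Real.exp (-(c * a' / 2 * T)) := by
        rw [← Real.exp_add, Real.exp_le_exp]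
        have := mul_le_mul_of_nonneg_right hca hT0'
        linarith only [this]
      have h4 : 0 ≤ 4 * Real.exp (CD * a) * Real.sqrt B * cd := by positivity
      have := mul_le_mul_of_nonneg_left h3 h4
      linarith only [this]
    linarith only [h1, h2]
  · have hKB := Num2_KB (d := d) hC hC5 ha e1 hM1 hc3 (by linarith only [hQ]) hL1 hL2 hL3 hL4 hρe hRb1 hXB
      (by linarith only [e9, e9a]) e9' e10
    have hKE := Num2_KE (d := d) (δ := δ) (a := a) (a' := a') (D := CD * a / 2) hC hC5 e1 hM1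
      hL5 hL2 hL6 hXE hδ1 hδ2 hδ0.le (by linarith only [hδ0, ha'3, hA3])
    have hKB0 : 0 ≤ KB2 d C C5 a T (M0 + m * T)
        (Real.exp (-(c3 / 12 * T)) / (512 * C5 * (T + (M0 + m * T) + Rb + T)))
        (Real.exp (-(c3 / 3 * T))) (Real.exp (-(c3 / 4 * T))) (Real.exp (-T)) Rb := by
      unfold KB2 KBr pBr; positivity
    have h1 : B * Real.exp (-(c * a' * T)) * (K0 * Real.exp (CD * a / 2 * T)) ≤ 1 := by
      refine le_trans ?_ e7
      have h3 : Real.exp (CD * a / 2 * T) * Real.exp (-(c * a' * T)) ≤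
          Real.exp (-(c * a' / 2 * T)) := by
        rw [← Real.exp_add, Real.exp_le_exp]
        have := mul_le_mul_of_nonneg_right hca hT0'
        linarith only [this]
      have h4 : 0 ≤ B * K0 := by positivity
      have := mul_le_mul_of_nonneg_left h3 h4
      linarith only [this]
    have hcd0 : 0 < cd := by linarith only [hcd1]
    have h2 := mul_le_mul_of_nonneg_left (show (2 * (B * Real.exp (-(c * a' * T))) *
        (K0 * Real.exp (CD * a / 2 * T)) + 2 * Ca * cd) * cd ≤ Q by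
      rw [hQd]; exact mul_le_mul_of_nonneg_right (by linarith only [h1]) hcd0.le) hKB0
    have h5 : 0 ≤ 4 * K0 * cd := by positivity
    have h6 := mul_le_mul_of_nonneg_left hKE h5
    have h7 : 4 * K0 * cd * (C * (2 + Real.exp c1) * (lam * (1 + T)) ^ (4 * d + 4) *
        Real.exp (-(δ / 4 * T))) ≤ 1 / 8 := by
      refine le_trans (le_of_eq ?_) e11; ring
    have h8 := h6.trans h7
    have h9 := h2.trans hKB
    rw [add_mul]
    have h10 := add_le_add h9 h8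
    refine le_trans (le_of_eq ?_) (h10.trans (by norm_num))
    ring

end DynC

end
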