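import Pool.Agent.Lib_MP_36b788_n.M27
import Pool.Agent.Lib_MP_36b788_n.M35
import Pool.Agent.Lib_MP_36b788_n.M53

set_option linter.unusedVariables false

/-!
# MP_36b788_pr, stationary limit: merged library part M54

Concatenation of smaller files (each in its own section), only to save build time.
-/

/-! ### from `Lib_MP_36b788c.Top` -/

section

/-!
# All cases together
-/

open MeasureTheory ProbabilityTheory Filter
open scoped NNReal ENNReal Topology BoundedContinuousFunction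

namespace DynC

open Dyn DynB

theorem chain_all (N d : ℕ) (hN : 1 ≤ N) (hd : 1 ≤ d) (β : ℝ) (hβ : 0 < β) :
    ∃ k1 : ℝ, 0 < k1 ∧ ∀ k, 0 ≤ k → k ≤ k1 → DynB.ChainMix N d β k := by
  rcases Nat.lt_or_ge N 3 with h3 | h3
  · rcases Nat.lt_or_ge N 2 with h2 | h2
    · have h1 : N = 1 := by omega
      subst h1
      exact DynS.small_N1 d β hβ
    · have h1 : N = 2 := by omega
      subst h1
      obtain ⟨k1, hk1, h⟩ := large_N2 d hd β hβ
      refine ⟨k1, hk1, fun k hk hk' => ?_⟩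
      rcases hk.eq_or_lt with h0 | h0
      · rw [← h0]
        exact DynS.small_N2 d β hβ
      · exact h k h0 hk'
  · obtain ⟨k1, hk1, h⟩ := DynG.large_N3 N d h3 hd β hβ
    refine ⟨k1, hk1, fun k hk hk' => ?_⟩
    rcases hk.eq_or_lt with h0 | h0
    · rw [← h0]
      exact DynS.small_N3 N d β h3 hβ
    · exact h k h0 hk'

theorem mix_all (N d : ℕ) (hN : 1 ≤ N) (hd : 1 ≤ d) (β : ℝ) (hβ : 0 < β) :
    ∃ k1 : ℝ, 0 < k1 ∧ ∀ k, 0 ≤ k → k ≤ k1 → MixProp N d k β := by
  obtain ⟨k1, hk1, h⟩ := chain_all N d hN hd β hβ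
  exact ⟨k1, hk1, fun k hk hk' => mix_of_chain N d β k hβ hk (h k hk hk')⟩

end DynC

end
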