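import Pool.Agent.Lib_MP_36b788_n.M26
import Pool.Agent.Lib_MP_36b788_n.X1
import Pool.Agent.Lib_MP_36b788_n.X2

set_option linter.unusedVariables false

/-!
# MP_36b788_pr, stationary limit: merged library part X4

Concatenation of smaller files (each in its own section), only to save build time.
-/

/-! ### from `Lib_MP_36b788x.XS` -/

section

/-!
# One step `h` against two steps `h/2`

PROOF. `F = ac h n`, `G = ac (h/2) (2n)`, `G' = ac (h/2) (2n+1)`, `G'' = ac (h/2) (2n+2)` (fields), `e = F - G`, `M = M' + M''` the increments on the two halves of the step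
(`mulv` is additive in the matrix, `mulv_add_left`; `(2n+1)·(h/2)` is the middle), `b v = ‖v‖^β v`, `J = J β (ε h)`, `J' = J β (ε h/2)`. By `J_eq`
`G'' = G + M'G + M''G' - (εh/2)(b1 + b2) + (kh/2)(lap G + lap G')`, `b1 = b(J'(G+M'G))`, `b2 = b(J'(G'+M''G'))`, and `J(G+MG) = G + MG - εh b0`.
`F⁺ - G'' = [J(F+MF) - J(G+MG)] + kh lap e + R_M + R_D`, `R_M = -M''(G'-G)`, `R_D = (εh/2)((b1-b0)+(b2-b0)) - (kh/2) lap(G'-G)`.
* `E‖R_M‖² = N (h/2) E‖G'-G‖² ≤ C h²` (`mulv_sq` at the time `(2n+1)h/2`; `ac_inc` and Cauchy-Schwarz), and `E⟪Z, R_M⟫ = 0` for `Z` measurable for `ℱ (n h)`.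
* `E‖R_D‖² ≤ C h² h^{1/2}`: `b_L2` (file `Lib_MP_36b788b/SdeB.lean`, moments from `ac_mom`, `mulv_pow`): `E‖b u - b v‖² ≤ C √(E‖u-v‖²)`, and the differences of the arguments are
  `O(√h)` in `L²` (`‖J v - v‖ ≤ ε h ‖b(J v)‖`); `√(O(h)) = O(h^{1/2})`.
* `Q = J(F+MF) - J(G+MG)`: `‖Q‖ ≤ ‖e + Me‖` (`J_nonexp`), `E‖e+Me‖² = (1+Nh)E‖e‖²` (`mulv_sq`). `Q = e + Me - εh(b(J(F+MF)) - b0)`,
  `E⟪Q,R_M⟫ = E⟪Me,R_M⟫ - εh E⟪b.. - b0, R_M⟫ ≤ h E‖e‖² + C h²` (Cauchy-Schwarz, bounded moments). So `E‖Q + R_M‖² ≤ (1 + C h)E‖e‖² + C h²`.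
* `‖a + c‖² ≤ (1+h)‖a‖² + (1+1/h)‖c‖²` with `c = kh lap e + R_D`, `E‖lap e x‖² ≤ (4d)² S`: total `≤ (1 + C h) S + C h^{3/2}` (`h ≤ 1`; case `h = 0` trivial since then both
  chains are constant).
-/

open MeasureTheory ProbabilityTheory Filter Dyn
open scoped NNReal ENNReal Topology

namespace DynX

open DynB

/-! ### moments of sums -/

section mom

variable {Ω : Type} [MeasurableSpace Ω] {P : Measure Ω} {N d : ℕ}

private theorem XS_add {f g : Ω → E N} {p : ℕ} (hp : p ≠ 0) (hf : MemLp f p P) (hg : MemLp g p P)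
    {a b : ℝ} (ha : ∫ ω, ‖f ω‖ ^ p ∂P ≤ a) (hb : ∫ ω, ‖g ω‖ ^ p ∂P ≤ b) :
    ∫ ω, ‖f ω + g ω‖ ^ p ∂P ≤ 2 ^ p * (a + b) := by
  have i1 := hf.integrable_norm_pow hp
  have i2 := hg.integrable_norm_pow hp
  have h1 : ∫ ω, ‖f ω + g ω‖ ^ p ∂P ≤ ∫ ω, 2 ^ p * (‖f ω‖ ^ p + ‖g ω‖ ^ p) ∂P := by
    refine integral_mono_of_nonneg (Eventually.of_forall fun ω => by positivity)
      ((i1.add i2).const_mul _) (Eventually.of_forall fun ω => ?_)
    have h2 := add_pow_le (norm_nonneg (f ω)) (norm_nonneg (g ω)) p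
    have h3 : (2 : ℝ) ^ (p - 1) * (‖f ω‖ ^ p + ‖g ω‖ ^ p) ≤ 2 ^ p * (‖f ω‖ ^ p + ‖g ω‖ ^ p) :=
      mul_le_mul_of_nonneg_right (pow_le_pow_right₀ (by norm_num) (Nat.sub_le _ _)) (by positivity)
    exact (pow_le_pow_left₀ (norm_nonneg _) (norm_add_le _ _) p).trans (h2.trans h3)
  rw [integral_const_mul, integral_add i1 i2] at h1
  refine h1.trans (mul_le_mul_of_nonneg_left (add_le_add ha hb) (by positivity))

private theorem XS_smul {f : Ω → E N} {p : ℕ} {a c K : ℝ} (hc : 0 ≤ c) (hcK : c ≤ K)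
    (ha : ∫ ω, ‖f ω‖ ^ p ∂P ≤ a) (ha0 : 0 ≤ a) :
    ∫ ω, ‖c • f ω‖ ^ p ∂P ≤ K ^ p * a := by
  have h1 : ∀ ω, ‖c • f ω‖ ^ p = c ^ p * ‖f ω‖ ^ p := by
    intro ω
    rw [norm_smul, Real.norm_of_nonneg hc, mul_pow]
  simp only [h1]
  rw [integral_const_mul]
  exact (mul_le_mul_of_nonneg_left ha (by positivity)).trans
    (mul_le_mul_of_nonneg_right (pow_le_pow_left₀ hc hcK p) ha0)

private theorem XS_neg {f : Ω → E N} {p : ℕ} {a : ℝ} (ha : ∫ ω, ‖f ω‖ ^ p ∂P ≤ a) :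
    ∫ ω, ‖-f ω‖ ^ p ∂P ≤ a := by
  simpa only [norm_neg] using ha

private theorem XS_sub {f g : Ω → E N} {p : ℕ} (hp : p ≠ 0) (hf : MemLp f p P) (hg : MemLp g p P)
    {a b : ℝ} (ha : ∫ ω, ‖f ω‖ ^ p ∂P ≤ a) (hb : ∫ ω, ‖g ω‖ ^ p ∂P ≤ b) :
    ∫ ω, ‖f ω - g ω‖ ^ p ∂P ≤ 2 ^ p * (a + b) := by
  have h := XS_add hp hf hg.neg ha (XS_neg hb)
  simpa only [sub_eq_add_neg, Pi.neg_apply] using h

/-- constant of `XS_lap` -/
private noncomputable def XS_cl (d p : ℕ) : ℝ := d ^ p * (2 ^ p * (2 ^ p * 2 + 2 ^ p * 2))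

private theorem XS_cl_nonneg (d p : ℕ) : 0 ≤ XS_cl d p := by
  unfold XS_cl
  positivity

private theorem XS_lap {f : Site d → Ω → E N} {p : ℕ} (hp : p ≠ 0) (hf : ∀ y, MemLp (f y) p P)
    {a : ℝ} (ha : ∀ y, ∫ ω, ‖f y ω‖ ^ p ∂P ≤ a) (x : Site d) :
    MemLp (fun ω => lap (fun y => f y ω) x) p P ∧
    ∫ ω, ‖lap (fun y => f y ω) x‖ ^ p ∂P ≤ XS_cl d p * a := by
  obtain ⟨q, rfl⟩ : ∃ q, p = q + 1 := ⟨p - 1, by omega⟩
  have m1 : ∀ i : Fin d, MemLp (fun ω => (f (x + Pi.single i 1) ω - f x ω) +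
      (f (x - Pi.single i 1) ω - f x ω)) ((q + 1 : ℕ) : ℝ≥0∞) P := fun i =>
    ((hf _).sub (hf _)).add ((hf _).sub (hf _))
  have b1 : ∀ i : Fin d, ∫ ω, ‖(f (x + Pi.single i 1) ω - f x ω) +
      (f (x - Pi.single i 1) ω - f x ω)‖ ^ (q + 1) ∂P ≤
      2 ^ (q + 1) * (2 ^ (q + 1) * (a + a) + 2 ^ (q + 1) * (a + a)) := fun i =>
    XS_add hp ((hf _).sub (hf _)) ((hf _).sub (hf _)) (XS_sub hp (hf _) (hf _) (ha _) (ha _))
      (XS_sub hp (hf _) (hf _) (ha _) (ha _))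
  constructor
  · unfold lap
    exact memLp_finsetSum _ fun i _ => m1 i
  · have i1 : ∀ i : Fin d, Integrable (fun ω => ‖(f (x + Pi.single i 1) ω - f x ω) +
      (f (x - Pi.single i 1) ω - f x ω)‖ ^ (q + 1)) P := fun i => (m1 i).integrable_norm_pow hp
    have h1 : ∫ ω, ‖lap (fun y => f y ω) x‖ ^ (q + 1) ∂P ≤ ∫ ω, (d : ℝ) ^ q * ∑ i : Fin d,
        ‖(f (x + Pi.single i 1) ω - f x ω) + (f (x - Pi.single i 1) ω - f x ω)‖ ^ (q + 1) ∂P := by
      refine integral_mono_of_nonneg (Eventually.of_forall fun ω => by positivity)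
        ((integrable_finsetSum _ fun i _ => i1 i).const_mul _) (Eventually.of_forall fun ω => ?_)
      have h2 := pow_sum_le_card_mul_sum_pow (s := (Finset.univ : Finset (Fin d)))
        (f := fun i => ‖(f (x + Pi.single i 1) ω - f x ω) + (f (x - Pi.single i 1) ω - f x ω)‖)
        (fun i _ => norm_nonneg _) q
      rw [Finset.card_univ, Fintype.card_fin] at h2
      refine le_trans (pow_le_pow_left₀ (norm_nonneg _) ?_ _) h2
      exact norm_sum_le _ _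
    refine h1.trans ?_
    rw [integral_const_mul, integral_finsetSum _ fun i _ => i1 i]
    have h3 : ∑ i : Fin d, ∫ ω, ‖(f (x + Pi.single i 1) ω - f x ω) +
        (f (x - Pi.single i 1) ω - f x ω)‖ ^ (q + 1) ∂P ≤
        ∑ _i : Fin d, 2 ^ (q + 1) * (2 ^ (q + 1) * (a + a) + 2 ^ (q + 1) * (a + a)) :=
      Finset.sum_le_sum fun i _ => b1 i
    rw [Finset.sum_const, Finset.card_univ, Fintype.card_fin, nsmul_eq_mul] at h3
    refine (mul_le_mul_of_nonneg_left h3 (by positivity)).trans (le_of_eq ?_)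
    unfold XS_cl
    ring

private theorem XS_L4 [IsProbabilityMeasure P] {f : Ω → E N} (hf : MemLp f (4 : ℕ) P) {c h : ℝ}
    (hh : 0 < h) (h4 : ∫ ω, ‖f ω‖ ^ 4 ∂P ≤ c * h ^ 2) : ∫ ω, ‖f ω‖ ^ 2 ∂P ≤ (c + 1) * h := by
  have i4 := hf.integrable_norm_pow (by norm_num)
  have h1 : ∫ ω, ‖f ω‖ ^ 2 ∂P ≤ ∫ ω, (h⁻¹ * ‖f ω‖ ^ 4 + h) ∂P := by
    refine integral_mono_of_nonneg (Eventually.of_forall fun ω => by positivity)
      ((i4.const_mul _).add (integrable_const _)) (Eventually.of_forall fun ω => ?_)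
    show ‖f ω‖ ^ 2 ≤ h⁻¹ * ‖f ω‖ ^ 4 + h
    have h2 : 0 ≤ h⁻¹ * ((‖f ω‖ ^ 2 - h / 2) ^ 2 + 3 / 4 * h ^ 2) := by positivity
    have h3 : h⁻¹ * ((‖f ω‖ ^ 2 - h / 2) ^ 2 + 3 / 4 * h ^ 2) =
        h⁻¹ * ‖f ω‖ ^ 4 - ‖f ω‖ ^ 2 + h := by
      field_simp
      ring
    linarith
  rw [integral_add (i4.const_mul _) (integrable_const _), integral_const_mul] at h1
  simp only [integral_const, probReal_univ, smul_eq_mul, one_mul] at h1
  have h5 : h⁻¹ * ∫ ω, ‖f ω‖ ^ 4 ∂P ≤ h⁻¹ * (c * h ^ 2) :=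
    mul_le_mul_of_nonneg_left h4 (by positivity)
  have h6 : h⁻¹ * (c * h ^ 2) = c * h := by
    field_simp
  linarith

end mom

/-! ### real inequalities -/

private theorem XS_r1 {h : ℝ} (hh : 0 < h) (hh1 : h ≤ 1) : h ^ 2 ≤ h := by nlinarith

private theorem XS_r2 {h : ℝ} (hh : 0 < h) (hh1 : h ≤ 1) : h ≤ Real.sqrt h := by
  have h1 := Real.sq_sqrt hh.le
  have h3 : Real.sqrt h ≤ 1 := Real.sqrt_le_one.2 hh1
  have h2 : 0 ≤ Real.sqrt h := Real.sqrt_nonneg _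
  nlinarith

private theorem XS_r3 {k h c : ℝ} (hc : 0 ≤ c) (hh : 0 < h) (hh1 : h ≤ 1) :
    (k * h) ^ 2 * c ≤ k ^ 2 * c * h := by
  have := mul_le_mul_of_nonneg_left (XS_r1 hh hh1) (mul_nonneg (sq_nonneg k) hc)
  calc (k * h) ^ 2 * c = k ^ 2 * c * h ^ 2 := by ring
    _ ≤ k ^ 2 * c * h := this

private theorem XS_r4 {k h c a : ℝ} (hc : 0 ≤ c) (hh : 0 < h) (hh1 : h ≤ 1) :
    2 ^ 2 * (a * h + (k * h) ^ 2 * c) ≤
      (2 ^ 2 * (a + k ^ 2 * c) + 2 ^ 2 * (k ^ 2 * c + k ^ 2 * c)) * h := by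
  have h1 := XS_r3 (k := k) hc hh hh1
  have h2 : 0 ≤ k ^ 2 * c * h := by positivity
  linarith

private theorem XS_r5 {k h c a : ℝ} (ha : 0 ≤ a) (hc : 0 ≤ c) (hh : 0 < h) (hh1 : h ≤ 1) :
    2 ^ 2 * ((k * h) ^ 2 * c + (k * h) ^ 2 * c) ≤
      (2 ^ 2 * (a + k ^ 2 * c) + 2 ^ 2 * (k ^ 2 * c + k ^ 2 * c)) * h := by
  have h1 := XS_r3 (k := k) hc hh hh1
  have h2 : 0 ≤ k ^ 2 * c * h := by positivity
  have h3 : 0 ≤ a * h := by positivity
  linarith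

private theorem XS_r6 {k h c a ε D : ℝ} (ha : 0 ≤ a) (hc : 0 ≤ c) (hh : 0 < h) (hh1 : h ≤ 1) :
    2 ^ 2 * ((k * h) ^ 2 * (c * (a * h)) + (ε * h) ^ 2 *
      (2 ^ 2 * (D * Real.sqrt h + D * Real.sqrt h))) ≤
    (2 ^ 2 * (k ^ 2 * (c * a) + ε ^ 2 * (2 ^ 2 * (D + D)))) * (h ^ 2 * Real.sqrt h) := by
  have s4 : 0 ≤ k ^ 2 * (c * a) * h ^ 2 := by positivity
  have h1 := mul_le_mul_of_nonneg_left (XS_r2 hh hh1) s4
  have e1 : 2 ^ 2 * ((k * h) ^ 2 * (c * (a * h)) + (ε * h) ^ 2 *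
      (2 ^ 2 * (D * Real.sqrt h + D * Real.sqrt h))) = 4 * (k ^ 2 * (c * a) * h ^ 2 * h) +
      4 * (ε ^ 2 * (2 ^ 2 * (D + D)) * (h ^ 2 * Real.sqrt h)) := by ring
  have e2 : (2 ^ 2 * (k ^ 2 * (c * a) + ε ^ 2 * (2 ^ 2 * (D + D)))) * (h ^ 2 * Real.sqrt h) =
      4 * (k ^ 2 * (c * a) * h ^ 2 * Real.sqrt h) +
      4 * (ε ^ 2 * (2 ^ 2 * (D + D)) * (h ^ 2 * Real.sqrt h)) := by ring
  rw [e1, e2]
  linarith

private theorem XS_r7 {N a g h : ℝ} (hN : 0 ≤ N) (ha : 0 ≤ a) (hh : 0 < h)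
    (hg : g ≤ a * (h / 2)) : N * (h / 2) * g ≤ N * a * h ^ 2 := by
  have h1 := mul_le_mul_of_nonneg_left hg (by positivity : (0 : ℝ) ≤ N * (h / 2))
  have h2 : N * (h / 2) * (a * (h / 2)) = N * a * h ^ 2 / 4 := by ring
  have h3 : 0 ≤ N * a * h ^ 2 := by positivity
  linarith

private theorem XS_r8 {h : ℝ} (hh : 0 < h) : (1 + h⁻¹) * h ^ 2 = h ^ 2 + h := by
  field_simp

private theorem XS_r9 {h : ℝ} (hh : 0 < h) (hh1 : h ≤ 1) :
    (1 + h) ^ 2 ≤ 1 + 3 * h ∧ (1 + h) ^ 2 ≤ 4 ∧ (1 + h) * (h ^ 2 + h) ≤ 4 * h := by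
  have h2 := XS_r1 hh hh1
  refine ⟨by nlinarith, by nlinarith, ?_⟩
  have h3 : h ^ 2 * h ≤ h ^ 2 * 1 := mul_le_mul_of_nonneg_left hh1 (sq_nonneg h)
  nlinarith

private theorem XS_t1 {N h S a I : ℝ} (hN : 0 ≤ N) (hS : 0 ≤ S) (ha : 0 ≤ a) (hh : 0 < h)
    (hh1 : h ≤ 1) (hI : I ≤ (1 + 2 * (N * h)) * S + 2 * (N * a * h ^ 2)) :
    (1 + h) ^ 2 * I ≤ (1 + (3 + 8 * N) * h) * S + 8 * N * a * h * Real.sqrt h := by
  obtain ⟨s2, s3, -⟩ := XS_r9 hh hh1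
  have hle := XS_r2 hh hh1
  have s4 : (1 + h) ^ 2 * (1 + 2 * (N * h)) ≤ 1 + (3 + 8 * N) * h := by
    have s5 : (1 + h) ^ 2 * (1 + 2 * (N * h)) ≤ (1 + 3 * h) * (1 + 2 * (N * h)) :=
      mul_le_mul_of_nonneg_right s2 (by positivity)
    have s6 : N * h * h ≤ N * h := mul_le_of_le_one_right (by positivity) hh1
    nlinarith
  have s7 := mul_le_mul_of_nonneg_left hI (by positivity : (0 : ℝ) ≤ (1 + h) ^ 2)
  have s8 := mul_le_mul_of_nonneg_right s4 hS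
  have s9 : (1 + h) ^ 2 * (2 * (N * a * h ^ 2)) ≤ 4 * (2 * (N * a * h ^ 2)) :=
    mul_le_mul_of_nonneg_right s3 (by positivity)
  have s10 := mul_le_mul_of_nonneg_left hle (by positivity : (0 : ℝ) ≤ 8 * N * a * h)
  calc (1 + h) ^ 2 * I ≤ (1 + h) ^ 2 * ((1 + 2 * (N * h)) * S + 2 * (N * a * h ^ 2)) := s7
    _ = (1 + h) ^ 2 * (1 + 2 * (N * h)) * S + (1 + h) ^ 2 * (2 * (N * a * h ^ 2)) := by ring
    _ ≤ (1 + (3 + 8 * N) * h) * S + 4 * (2 * (N * a * h ^ 2)) := add_le_add s8 s9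
    _ = (1 + (3 + 8 * N) * h) * S + 8 * N * a * h * h := by ring
    _ ≤ _ := by linarith

private theorem XS_t2 {h C I : ℝ} (hC : 0 ≤ C) (hh : 0 < h) (hh1 : h ≤ 1)
    (hI : I ≤ C * (h ^ 2 * Real.sqrt h)) :
    (1 + h) * (1 + h⁻¹) * I ≤ 4 * C * h * Real.sqrt h := by
  have s1 := mul_le_mul_of_nonneg_left hI (by positivity : (0 : ℝ) ≤ (1 + h) * (1 + h⁻¹))
  have s4 := mul_le_mul_of_nonneg_left (XS_r9 hh hh1).2.2
    (mul_nonneg hC (Real.sqrt_nonneg h))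
  calc (1 + h) * (1 + h⁻¹) * I ≤ (1 + h) * (1 + h⁻¹) * (C * (h ^ 2 * Real.sqrt h)) := s1
    _ = C * Real.sqrt h * ((1 + h) * (h ^ 2 + h)) := by
      rw [← XS_r8 hh]
      ring
    _ ≤ C * Real.sqrt h * (4 * h) := s4
    _ = _ := by ring

private theorem XS_t3 {k h c S I : ℝ} (hc : 0 ≤ c) (hS : 0 ≤ S) (hh : 0 < h) (hh1 : h ≤ 1)
    (hI : I ≤ c * S) : (1 + h⁻¹) * (k * h) ^ 2 * I ≤ 2 * k ^ 2 * c * h * S := by
  have s3 : h ^ 2 + h ≤ 2 * h := by linarith [XS_r1 hh hh1]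
  have s1 : (1 + h⁻¹) * (k * h) ^ 2 = k ^ 2 * (h ^ 2 + h) := by
    rw [← XS_r8 hh]
    ring
  rw [s1]
  have s2 := mul_le_mul_of_nonneg_left hI (by positivity : (0 : ℝ) ≤ k ^ 2 * (h ^ 2 + h))
  have s4 := mul_le_mul_of_nonneg_left s3 (mul_nonneg (sq_nonneg k) (mul_nonneg hc hS))
  calc k ^ 2 * (h ^ 2 + h) * I ≤ k ^ 2 * (h ^ 2 + h) * (c * S) := s2
    _ = k ^ 2 * (c * S) * (h ^ 2 + h) := by ring
    _ ≤ k ^ 2 * (c * S) * (2 * h) := s4
    _ = _ := by ring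

private theorem XS_t4 {N k h c a C S r I1 I2 I3 : ℝ} (hN : 0 ≤ N) (ha : 0 ≤ a) (hc : 0 ≤ c)
    (hC : 0 ≤ C) (hS : 0 ≤ S) (hh : 0 < h) (hr : 0 ≤ r)
    (h1 : I1 ≤ (1 + (3 + 8 * N) * h) * S + 8 * N * a * h * r) (h2 : I2 ≤ 4 * C * h * r)
    (h3 : I3 ≤ 2 * k ^ 2 * c * h * S) :
    I1 + I2 + I3 ≤ (1 + (3 + 8 * N + 2 * k ^ 2 * c + 8 * N * a + 4 * C) * h) * S +
      (3 + 8 * N + 2 * k ^ 2 * c + 8 * N * a + 4 * C) * h * r := by
  have u1 : 0 ≤ (3 + 8 * N + 2 * k ^ 2 * c) * h * r := by positivity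
  have u2 : 0 ≤ (8 * N * a + 4 * C) * h * S := by positivity
  linarith

/-! ### algebra of the step -/

/-- chain value minus a multiple of the Laplacian -/
private noncomputable def XS_w {Ω : Type} {N d : ℕ} (k ε β : ℝ) (h : ℝ≥0)
    (B : Site d → Fin N → Fin N → ℝ≥0 → Ω → ℝ) (H0 : Site d → Ω → E N) (c : ℝ) (n m : ℕ)
    (x : Site d) (ω : Ω) : E N :=
  ac k ε β h B H0 m ω x - c • lap (ac k ε β h B H0 n ω) x

/-- increment matrix -/
private noncomputable def XS_b {Ω : Type} {N d : ℕ} (B : Site d → Fin N → Fin N → ℝ≥0 → Ω → ℝ)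
    (x : Site d) (s t : ℝ≥0) (ω : Ω) : Fin N → Fin N → ℝ :=
  fun a b => B x a b t ω - B x a b s ω

section pt

variable {Ω : Type} [MeasurableSpace Ω] {N d : ℕ} {B : Site d → Fin N → Fin N → ℝ≥0 → Ω → ℝ}
    {H0 : Site d → Ω → E N} {k ε β : ℝ}

private theorem XS_step (hβ : 0 < β) (hε : 0 < ε) (h : ℝ≥0) (n : ℕ) (ω : Ω) (x : Site d)
    {s t : ℝ≥0} (hs : (n : ℝ≥0) * h = s) (ht : ((n : ℝ≥0) + 1) * h = t) :
    ac k ε β h B H0 (n + 1) ω x = ac k ε β h B H0 n ω x +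
      mulv (XS_b B x s t ω) (ac k ε β h B H0 n ω x) +
      (h : ℝ) • (k • lap (ac k ε β h B H0 n ω) x -
        (ε * ‖XS_w k ε β h B H0 (k * h) n (n + 1) x ω‖ ^ β) •
          XS_w k ε β h B H0 (k * h) n (n + 1) x ω) := by
  have e : XS_w k ε β h B H0 (k * h) n (n + 1) x ω = J β (ε * h) (ac k ε β h B H0 n ω x +
        mulv (fun a b => B x a b ((n + 1) * h) ω - B x a b (n * h) ω)
          (ac k ε β h B H0 n ω x)) := by
    unfold XS_w
    simp only [ac]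
    rw [add_sub_cancel_right]
  rw [e, ac_step_eq hβ hε, ← hs, ← ht]
  rfl

private theorem XS_c1 (n : ℕ) (h : ℝ≥0) : ((2 * n : ℕ) : ℝ≥0) * (h / 2) = n * h := by
  push_cast
  rw [mul_comm (2 : ℝ≥0), mul_assoc, mul_div_cancel₀ h (two_ne_zero' ℝ≥0)]

private theorem XS_c3 (n : ℕ) (h : ℝ≥0) :
    (((2 * n + 1 : ℕ) : ℝ≥0) + 1) * (h / 2) = (n + 1) * h := by
  have := XS_c1 (n + 1) h
  push_cast at this ⊢
  rw [← this]
  ring

private theorem XS_alg {V : Type*} [AddCommGroup V] [Module ℝ V] (F G G1 G2 L0 L1 b0 b1 bw mF mG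
    m0G m1G m1G1 : V) (k ε h : ℝ) (hG1 : G1 = G + m0G + (h / 2) • (k • L0 - ε • b0))
    (hG2 : G2 = G1 + m1G1 + (h / 2) • (k • L1 - ε • b1)) (hm : mG = m0G + m1G) :
    (F + mF) - ((G2 - (k * h) • L0) + (ε * h) • bw) = ((F - G) + (mF - mG) + (m1G - m1G1)) +
      ((k * (h / 2)) • (L0 - L1) + (ε * (h / 2)) • ((b0 - bw) + (b1 - bw))) := by
  subst hm
  subst hG2
  subst hG1
  module

private theorem XS_lap_sub (f g : Site d → E N) (x : Site d) :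
    lap (fun y => f y - g y) x = lap f x - lap g x := by
  unfold lap
  rw [← Finset.sum_sub_distrib]
  refine Finset.sum_congr rfl fun i _ => ?_
  exact SdeSt_ab _ _ _ _ _ _

private theorem XS_msub (b : Fin N → Fin N → ℝ) (v w : E N) :
    mulv b (v - w) = mulv b v - mulv b w := by
  have h2 := mulv_add b (v - w) w
  rw [sub_add_cancel] at h2
  rw [h2, add_sub_cancel_right]

/-- the nonlinearity -/
private noncomputable def XS_n {N : ℕ} (β : ℝ) (u : E N) : E N := (‖u‖ ^ β) • u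

/-- the deterministic part of the local error -/
private noncomputable def XS_rd {Ω : Type} {N d : ℕ} (k ε β : ℝ) (h : ℝ≥0)
    (B : Site d → Fin N → Fin N → ℝ≥0 → Ω → ℝ) (H0 : Site d → Ω → E N) (n : ℕ)
    (x : Site d) (ω : Ω) : E N :=
  (k * (h / 2)) • lap (fun y => ac k ε β (h / 2) B H0 (2 * n) ω y -
      ac k ε β (h / 2) B H0 (2 * n + 1) ω y) x +
    (ε * (h / 2)) • ((XS_n β (XS_w k ε β (h / 2) B H0 (k * (h / 2)) (2 * n) (2 * n + 1) x ω) -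
        XS_n β (XS_w k ε β (h / 2) B H0 (k * h) (2 * n) (2 * n + 2) x ω)) +
      (XS_n β (XS_w k ε β (h / 2) B H0 (k * (h / 2)) (2 * n + 1) (2 * n + 2) x ω) -
        XS_n β (XS_w k ε β (h / 2) B H0 (k * h) (2 * n) (2 * n + 2) x ω)))

private theorem XS_pt (hβ : 0 < β) (hε : 0 < ε) (hk : 0 ≤ k) (h : ℝ≥0) (n : ℕ) (ω : Ω)
    (x : Site d) {s0 s1 s2 : ℝ≥0} (hs0 : s0 = n * h) (hs1 : s1 = ((2 * n + 1 : ℕ) : ℝ≥0) * (h / 2))
    (hs2 : s2 = (n + 1) * h) :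
    ‖ac k ε β h B H0 (n + 1) ω x - ac k ε β (h / 2) B H0 (2 * n + 2) ω x‖ ≤
      ‖(ac k ε β h B H0 n ω x - ac k ε β (h / 2) B H0 (2 * n) ω x) +
        mulv (XS_b B x s0 s2 ω) (ac k ε β h B H0 n ω x - ac k ε β (h / 2) B H0 (2 * n) ω x) +
        mulv (XS_b B x s1 s2 ω) (ac k ε β (h / 2) B H0 (2 * n) ω x -
          ac k ε β (h / 2) B H0 (2 * n + 1) ω x)‖ + ‖XS_rd k ε β h B H0 n x ω‖ +
      (k * h) * ‖lap (fun y => ac k ε β h B H0 n ω y - ac k ε β (h / 2) B H0 (2 * n) ω y) x‖ := by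
  have hh : (0 : ℝ) ≤ h := h.2
  have c : ((h / 2 : ℝ≥0) : ℝ) = (h : ℝ) / 2 := by push_cast; rfl
  have e1 := XS_step (B := B) (H0 := H0) (k := k) hβ hε (h / 2) (2 * n) ω x (s := s0) (t := s1)
    (by rw [hs0, XS_c1]) (by rw [hs1]; push_cast; rfl)
  have e2 := XS_step (B := B) (H0 := H0) (k := k) hβ hε (h / 2) (2 * n + 1) ω x (s := s1) (t := s2)
    hs1.symm (by rw [hs2, XS_c3])
  rw [c] at e1 e2
  rw [mul_smul ε] at e1 e2
  set F := ac k ε β h B H0 n ω x with hF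
  set G := ac k ε β (h / 2) B H0 (2 * n) ω x with hG
  set G1 := ac k ε β (h / 2) B H0 (2 * n + 1) ω x with hG1
  have e3 : ac k ε β (h / 2) B H0 (2 * n + 1 + 1) ω x = ac k ε β (h / 2) B H0 (2 * n + 2) ω x := rfl
  rw [e3] at e2
  set G2 := ac k ε β (h / 2) B H0 (2 * n + 2) ω x with hG2
  have e4 : mulv (XS_b B x s0 s2 ω) G = mulv (XS_b B x s0 s1 ω) G + mulv (XS_b B x s1 s2 ω) G := by
    rw [← mulv_add_left]
    congr 1
    funext a b
    unfold XS_b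
    ring
  have e5 := XS_alg F G G1 G2 (lap (ac k ε β (h / 2) B H0 (2 * n) ω) x)
    (lap (ac k ε β (h / 2) B H0 (2 * n + 1) ω) x) _ _
    (XS_n β (XS_w k ε β (h / 2) B H0 (k * h) (2 * n) (2 * n + 2) x ω)) (mulv (XS_b B x s0 s2 ω) F)
    _ _ _ _ k ε h e1 e2 e4
  have e6 : ac k ε β h B H0 (n + 1) ω x = J β (ε * h) (F + mulv (XS_b B x s0 s2 ω) F) +
      (k * h) • lap (ac k ε β h B H0 n ω) x := by
    rw [hs0, hs2]
    rfl
  have e7 : J β (ε * h) ((G2 - (k * h) • lap (ac k ε β (h / 2) B H0 (2 * n) ω) x) + (ε * h) •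
      XS_n β (XS_w k ε β (h / 2) B H0 (k * h) (2 * n) (2 * n + 2) x ω)) =
      G2 - (k * h) • lap (ac k ε β (h / 2) B H0 (2 * n) ω) x := by
    refine J_unique hβ (by positivity) ?_
    rw [mul_smul (ε * (h : ℝ))]
    rfl
  have e8 : ac k ε β h B H0 (n + 1) ω x - G2 = (J β (ε * h) (F + mulv (XS_b B x s0 s2 ω) F) -
      J β (ε * h) ((G2 - (k * h) • lap (ac k ε β (h / 2) B H0 (2 * n) ω) x) + (ε * h) •
      XS_n β (XS_w k ε β (h / 2) B H0 (k * h) (2 * n) (2 * n + 2) x ω))) + (k * h) •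
      lap (fun y => ac k ε β h B H0 n ω y - ac k ε β (h / 2) B H0 (2 * n) ω y) x := by
    rw [e6, e7, XS_lap_sub, smul_sub]
    abel
  rw [e8]
  refine (norm_add_le _ _).trans (add_le_add ?_ (le_of_eq ?_))
  · refine (J_nonexp hβ (by positivity) _ _).trans ?_
    rw [e5]
    refine (norm_add_le _ _).trans (add_le_add (le_of_eq ?_) (le_of_eq ?_))
    · rw [XS_msub, XS_msub]
    · unfold XS_rd
      rw [XS_lap_sub]
      rfl
  · rw [norm_smul, Real.norm_eq_abs, abs_of_nonneg (mul_nonneg hk hh)]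

end pt

section main

variable {Ω : Type} [mΩ : MeasurableSpace Ω] {P : Measure Ω} {N d : ℕ}
    {ℱ : Filtration ℝ≥0 mΩ} {B : Site d → Fin N → Fin N → ℝ≥0 → Ω → ℝ}
    {H0 : Site d → Ω → E N} {k ε β : ℝ}

private theorem XS_mem (hN : Noise P ℱ B H0) (hβ : 0 < β) (hε : 0 < ε) (h : ℝ≥0) (n : ℕ) {p : ℕ}
    (hp : p ≠ 0) (x : Site d) : MemLp (fun ω => ac k ε β h B H0 n ω x) p P := by
  have hm := ((ac_meas (k := k) hN hβ hε h n x).mono (ℱ.le _) le_rfl).aestronglyMeasurable (μ := P)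
  have h1 := ac_mem (k := k) hN hβ hε h n p x
  refine (integrable_norm_rpow_iff hm (by exact_mod_cast hp) (ENNReal.natCast_ne_top p)).1 ?_
  simpa using h1

private theorem XS_w_mem (hN : Noise P ℱ B H0) (hβ : 0 < β) (hε : 0 < ε) {p : ℕ} (hp : p ≠ 0)
    {T h : ℝ≥0} (h1 : h ≤ 1) {Cm : ℝ} (hC : 0 ≤ Cm)
    (hm : ∀ h : ℝ≥0, h ≤ 1 → ∀ n : ℕ, n * h ≤ T → ∀ x : Site d,
      ∫ ω, ‖ac k ε β h B H0 n ω x‖ ^ p ∂P ≤ Cm) {n m : ℕ} (hn : n * h ≤ T) (hm' : m * h ≤ T)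
    {c K : ℝ} (hc : 0 ≤ c) (hcK : c ≤ K) (x : Site d) :
    MemLp (XS_w k ε β h B H0 c n m x) p P ∧
      ∫ ω, ‖XS_w k ε β h B H0 c n m x ω‖ ^ p ∂P ≤ 2 ^ p * (Cm + K ^ p * (XS_cl d p * Cm)) := by
  have hl := XS_lap (P := P) (f := fun y ω => ac k ε β h B H0 n ω y) hp
    (fun y => XS_mem hN hβ hε h n hp y) (hm h h1 n hn) x
  have ha := XS_mem (k := k) hN hβ hε h m hp x
  constructor
  · exact ha.sub (hl.1.const_smul c)
  · exact XS_sub hp ha (hl.1.const_smul c) (hm h h1 m hm' x)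
      (XS_smul hc hcK hl.2 (mul_nonneg (XS_cl_nonneg d p) hC))

private theorem XS_inc (hN : Noise P ℱ B H0) (hβ : 0 < β) (hε : 0 < ε) {T : ℝ≥0} {C : ℝ}
    (hi : ∀ h : ℝ≥0, h ≤ 1 → ∀ n m : ℕ, n ≤ m → m * h ≤ T → ∀ x : Site d,
      ∫ ω, ‖ac k ε β h B H0 m ω x - ac k ε β h B H0 n ω x‖ ^ 4 ∂P ≤ C * (((m : ℝ) - n) * h) ^ 2)
    {h : ℝ≥0} (h0 : 0 < h) (h1 : h ≤ 1) (n : ℕ) (hn : ((n + 1 : ℕ) : ℝ≥0) * h ≤ T) (x : Site d) :
    ∫ ω, ‖ac k ε β h B H0 n ω x - ac k ε β h B H0 (n + 1) ω x‖ ^ 2 ∂P ≤ (C + 1) * h := by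
  haveI := hN.prob
  have h2 := hi h h1 n (n + 1) (Nat.le_succ n) hn x
  have h3 := XS_L4 (P := P) (c := C) (h := h)
    ((XS_mem (k := k) hN hβ hε h (n + 1) (by norm_num) x).sub (XS_mem (k := k) hN hβ hε h n
      (by norm_num) x)) (by exact_mod_cast h0) (by
      refine h2.trans (le_of_eq ?_)
      push_cast
      ring)
  have e : ∀ ω, ‖ac k ε β h B H0 n ω x - ac k ε β h B H0 (n + 1) ω x‖ =
      ‖ac k ε β h B H0 (n + 1) ω x - ac k ε β h B H0 n ω x‖ := fun ω => norm_sub_rev _ _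
  simp only [e]
  exact h3

/-- the deterministic part of the local error is small -/
private theorem XS_rd_le (hN : Noise P ℱ B H0) (hβ : 0 < β) (hε : 0 < ε) (hk : 0 ≤ k) (T : ℝ≥0) :
    ∃ C : ℝ, 0 ≤ C ∧ ∀ h : ℝ≥0, 0 < h → h ≤ 1 → ∀ n : ℕ, (n + 1) * h ≤ T → ∀ x : Site d,
      MemLp (XS_rd k ε β h B H0 n x) 2 P ∧
      ∫ ω, ‖XS_rd k ε β h B H0 n x ω‖ ^ 2 ∂P ≤ C * (h ^ 2 * Real.sqrt h) := by
  haveI := hN.prob
  have hp0 : ⌈4 * β + 2⌉₊ ≠ 0 := by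
    have : 0 < ⌈4 * β + 2⌉₊ := Nat.ceil_pos.2 (by linarith)
    omega
  obtain ⟨Cm, hCm, hm⟩ := ac_mom hN hβ hε hk ⌈4 * β + 2⌉₊ T
  obtain ⟨C2, hC2, h2⟩ := ac_mom hN hβ hε hk 2 T
  obtain ⟨Ci, hCi, hi⟩ := ac_inc hN hβ hε hk T
  obtain ⟨Cb, hCb, hb⟩ := b_L2 N β hβ
    (2 ^ ⌈4 * β + 2⌉₊ * (Cm + k ^ ⌈4 * β + 2⌉₊ * (XS_cl d ⌈4 * β + 2⌉₊ * Cm)))
    (by have := XS_cl_nonneg d ⌈4 * β + 2⌉₊; positivity)
  have hcl := XS_cl_nonneg d 2
  set D0 : ℝ := 2 ^ 2 * ((Ci + 1) + k ^ 2 * (XS_cl d 2 * C2)) +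
    2 ^ 2 * (k ^ 2 * (XS_cl d 2 * C2) + k ^ 2 * (XS_cl d 2 * C2)) with hD0
  have hD00 : 0 ≤ D0 := by positivity
  refine ⟨2 ^ 2 * (k ^ 2 * (XS_cl d 2 * (Ci + 1)) +
    ε ^ 2 * (2 ^ 2 * (Cb * Real.sqrt D0 + Cb * Real.sqrt D0))), by positivity, ?_⟩
  intro h h0 h1 n hn x
  have hh : (0 : ℝ) < h := by exact_mod_cast h0
  have hh1 : (h : ℝ) ≤ 1 := by exact_mod_cast h1
  have h0' : (0 : ℝ≥0) < h / 2 := by positivity
  have h1' : h / 2 ≤ 1 := (NNReal.half_le_self h).trans h1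
  have c : ((h / 2 : ℝ≥0) : ℝ) = (h : ℝ) / 2 := by push_cast; rfl
  have t2 : ((2 * n + 2 : ℕ) : ℝ≥0) * (h / 2) ≤ T := by
    have e := XS_c1 (n + 1) h
    have e' : 2 * (n + 1) = 2 * n + 2 := by ring
    rw [e'] at e
    rw [e]
    push_cast
    exact hn
  have t1 : ((2 * n + 1 : ℕ) : ℝ≥0) * (h / 2) ≤ T := by
    refine le_trans (mul_le_mul_of_nonneg_right ?_ h0'.le) t2
    exact_mod_cast Nat.le_succ (2 * n + 1)
  have t0 : ((2 * n : ℕ) : ℝ≥0) * (h / 2) ≤ T := by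
    refine le_trans (mul_le_mul_of_nonneg_right ?_ h0'.le) t1
    exact_mod_cast Nat.le_succ (2 * n)
  -- the three arguments
  have kh : k * (h : ℝ) ≤ k := mul_le_of_le_one_right hk hh1
  have kh' : k * ((h : ℝ) / 2) ≤ k := mul_le_of_le_one_right hk (by linarith)
  have A0 := XS_w_mem (k := k) hN hβ hε hp0 h1' hCm hm t0 t1 (c := k * (h / 2)) (K := k)
    (by positivity) kh' x
  have A1 := XS_w_mem (k := k) hN hβ hε hp0 h1' hCm hm t1 t2 (c := k * (h / 2)) (K := k)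
    (by positivity) kh' x
  have AW := XS_w_mem (k := k) hN hβ hε hp0 h1' hCm hm t0 t2 (c := k * h) (K := k)
    (by positivity) kh x
  have B0 := hb P _ _ A0.1.1 AW.1.1 (A0.1.integrable_norm_pow hp0) (AW.1.integrable_norm_pow hp0)
    A0.2 AW.2
  have B1 := hb P _ _ A1.1.1 AW.1.1 (A1.1.integrable_norm_pow hp0) (AW.1.integrable_norm_pow hp0)
    A1.2 AW.2
  have BW := hb P _ _ AW.1.1 AW.1.1 (AW.1.integrable_norm_pow hp0) (AW.1.integrable_norm_pow hp0)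
    AW.2 AW.2
  -- Laplacians
  have n2 : (2 : ℕ) ≠ 0 := by norm_num
  have l0 := XS_lap (P := P) (f := fun y ω => ac k ε β (h / 2) B H0 (2 * n) ω y) n2
    (fun y => XS_mem hN hβ hε (h / 2) (2 * n) n2 y) (h2 (h / 2) h1' (2 * n) t0) x
  have l1 := XS_lap (P := P) (f := fun y ω => ac k ε β (h / 2) B H0 (2 * n + 1) ω y) n2
    (fun y => XS_mem hN hβ hε (h / 2) (2 * n + 1) n2 y) (h2 (h / 2) h1' (2 * n + 1) t1) x
  have i0 : ∀ y : Site d, ∫ ω, ‖ac k ε β (h / 2) B H0 (2 * n) ω y -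
      ac k ε β (h / 2) B H0 (2 * n + 1) ω y‖ ^ 2 ∂P ≤ (Ci + 1) * h := by
    intro y
    refine (XS_inc hN hβ hε hi h0' h1' (2 * n) t1 y).trans ?_
    rw [c]
    exact mul_le_mul_of_nonneg_left (by linarith only [h0]) (by linarith only [hCi])
  have i1 : ∀ y : Site d, ∫ ω, ‖ac k ε β (h / 2) B H0 (2 * n + 1) ω y -
      ac k ε β (h / 2) B H0 (2 * n + 2) ω y‖ ^ 2 ∂P ≤ (Ci + 1) * h := by
    intro y
    refine (XS_inc hN hβ hε hi h0' h1' (2 * n + 1) t2 y).trans ?_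
    rw [c]
    exact mul_le_mul_of_nonneg_left (by linarith only [h0]) (by linarith only [hCi])
  have ld := XS_lap (P := P) (f := fun y ω => ac k ε β (h / 2) B H0 (2 * n) ω y -
      ac k ε β (h / 2) B H0 (2 * n + 1) ω y) n2
    (fun y => (XS_mem hN hβ hε (h / 2) (2 * n) n2 y).sub
      (XS_mem hN hβ hε (h / 2) (2 * n + 1) n2 y)) i0 x
  have cC2 : 0 ≤ XS_cl d 2 * C2 := mul_nonneg hcl hC2
  have khh : k * ((h : ℝ) / 2) ≤ k * h := mul_le_mul_of_nonneg_left (by linarith only [h0]) hk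
  -- differences of the arguments
  have d0 : ∫ ω, ‖XS_w k ε β (h / 2) B H0 (k * (h / 2)) (2 * n) (2 * n + 1) x ω -
      XS_w k ε β (h / 2) B H0 (k * h) (2 * n) (2 * n + 2) x ω‖ ^ 2 ∂P ≤ D0 * h := by
    have e : ∀ ω, XS_w k ε β (h / 2) B H0 (k * (h / 2)) (2 * n) (2 * n + 1) x ω -
      XS_w k ε β (h / 2) B H0 (k * h) (2 * n) (2 * n + 2) x ω =
      (ac k ε β (h / 2) B H0 (2 * n + 1) ω x - ac k ε β (h / 2) B H0 (2 * n + 2) ω x) +
      (k * (h / 2)) • lap (fun y => ac k ε β (h / 2) B H0 (2 * n) ω y) x := by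
      intro ω
      unfold XS_w
      module
    simp only [e]
    have m1 := (XS_mem (k := k) hN hβ hε (h / 2) (2 * n + 1) n2 x).sub
      (XS_mem (k := k) hN hβ hε (h / 2) (2 * n + 2) n2 x)
    refine (XS_add n2 m1 (l0.1.const_smul (k * ((h : ℝ) / 2))) (i1 x)
      (XS_smul (K := k * h) (by positivity) khh l0.2 cC2)).trans ?_
    exact XS_r4 cC2 hh hh1
  have d1 : ∫ ω, ‖XS_w k ε β (h / 2) B H0 (k * (h / 2)) (2 * n + 1) (2 * n + 2) x ω -
      XS_w k ε β (h / 2) B H0 (k * h) (2 * n) (2 * n + 2) x ω‖ ^ 2 ∂P ≤ D0 * h := by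
    have e : ∀ ω, XS_w k ε β (h / 2) B H0 (k * (h / 2)) (2 * n + 1) (2 * n + 2) x ω -
      XS_w k ε β (h / 2) B H0 (k * h) (2 * n) (2 * n + 2) x ω =
      (k * h) • lap (fun y => ac k ε β (h / 2) B H0 (2 * n) ω y) x -
      (k * (h / 2)) • lap (fun y => ac k ε β (h / 2) B H0 (2 * n + 1) ω y) x := by
      intro ω
      unfold XS_w
      module
    simp only [e]
    refine (XS_sub n2 (l0.1.const_smul (k * (h : ℝ))) (l1.1.const_smul (k * ((h : ℝ) / 2)))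
      (XS_smul (K := k * h) (by positivity) le_rfl l0.2 cC2)
      (XS_smul (K := k * h) (by positivity) khh l1.2 cC2)).trans ?_
    exact XS_r5 (by linarith only [hCi]) cC2 hh hh1
  have sq0 : ∀ z : ℝ, z ≤ D0 * h → Cb * Real.sqrt z ≤ Cb * Real.sqrt D0 * Real.sqrt h := by
    intro z hz
    have h5 := Real.sqrt_le_sqrt hz
    rw [Real.sqrt_mul hD00] at h5
    rw [mul_assoc]
    exact mul_le_mul_of_nonneg_left h5 hCb.le
  have b0 := B0.2.2.trans (sq0 _ d0)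
  have b1 := B1.2.2.trans (sq0 _ d1)
  have mB0 := B0.1.sub BW.1
  have mB1 := B1.1.sub BW.1
  have hb0 := XS_add (p := 2) n2 mB0 mB1 b0 b1
  have mB := (mB0.add mB1).const_smul (ε * ((h : ℝ) / 2))
  have hsq0 : 0 ≤ Real.sqrt (h : ℝ) := Real.sqrt_nonneg _
  have ehh : ε * ((h : ℝ) / 2) ≤ ε * h := mul_le_mul_of_nonneg_left (by linarith only [h0]) hε.le
  have hb1 := XS_smul (K := ε * h) (c := ε * ((h : ℝ) / 2)) (by positivity) ehh hb0
    (by positivity)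
  have hl1 := XS_smul (K := k * h) (c := k * ((h : ℝ) / 2)) (by positivity) khh ld.2
    (by positivity)
  refine ⟨(ld.1.const_smul (k * ((h : ℝ) / 2))).add mB, ?_⟩
  refine (XS_add (p := 2) n2 (ld.1.const_smul (k * ((h : ℝ) / 2))) mB hl1 hb1).trans ?_
  exact XS_r6 (by linarith only [hCi]) hcl hh hh1

end main

variable {Ω : Type} [mΩ : MeasurableSpace Ω] {P : Measure Ω} {N d : ℕ}
    {ℱ : Filtration ℝ≥0 mΩ} {B : Site d → Fin N → Fin N → ℝ≥0 → Ω → ℝ}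
    {H0 : Site d → Ω → E N} {k ε β : ℝ}

theorem ac_two (hN : Noise P ℱ B H0) (hβ : 0 < β) (hε : 0 < ε) (hk : 0 ≤ k) (T : ℝ≥0) :
    ∃ C : ℝ, 0 ≤ C ∧ ∀ h : ℝ≥0, 0 < h → h ≤ 1 → ∀ n : ℕ, (n + 1) * h ≤ T → ∀ S : ℝ, 0 ≤ S →
      (∀ x : Site d, ∫ ω, ‖ac k ε β h B H0 n ω x - ac k ε β (h / 2) B H0 (2 * n) ω x‖ ^ 2 ∂P ≤ S) →
      ∀ x : Site d,
        ∫ ω, ‖ac k ε β h B H0 (n + 1) ω x - ac k ε β (h / 2) B H0 (2 * (n + 1)) ω x‖ ^ 2 ∂P ≤
          (1 + C * h) * S + C * h * Real.sqrt h := by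
  haveI := hN.prob
  obtain ⟨Cd, hCd, hrd⟩ := XS_rd_le (k := k) hN hβ hε hk T
  obtain ⟨Ci, hCi, hi⟩ := ac_inc hN hβ hε hk T
  have hcl := XS_cl_nonneg d 2
  have n2 : (2 : ℕ) ≠ 0 := by norm_num
  have hN0 : (0 : ℝ) ≤ N := Nat.cast_nonneg N
  refine ⟨3 + 8 * N + 2 * k ^ 2 * XS_cl d 2 + 8 * N * (Ci + 1) + 4 * Cd, by positivity, ?_⟩
  intro h h0 h1 n hn S hS hx x
  have hh : (0 : ℝ) < h := by exact_mod_cast h0
  have hh1 : (h : ℝ) ≤ 1 := by exact_mod_cast h1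
  have h0' : (0 : ℝ≥0) < h / 2 := by positivity
  have h1' : h / 2 ≤ 1 := (NNReal.half_le_self h).trans h1
  have c : ((h / 2 : ℝ≥0) : ℝ) = (h : ℝ) / 2 := by push_cast; rfl
  obtain ⟨pD, hD⟩ := hrd h h0 h1 n hn x
  set s0 : ℝ≥0 := n * h with hs0
  set s1 : ℝ≥0 := ((2 * n + 1 : ℕ) : ℝ≥0) * (h / 2) with hs1
  set s2 : ℝ≥0 := (n + 1) * h with hs2
  have c0 : ((2 * n : ℕ) : ℝ≥0) * (h / 2) = s0 := XS_c1 n h
  have e1 : s1 = s0 + h / 2 := by
    rw [← c0, hs1]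
    push_cast
    ring
  have e2 : s2 = s1 + h / 2 := by
    rw [hs1, hs2, ← XS_c3]
    ring
  have l1 : s0 ≤ s1 := by rw [e1]; exact le_self_add
  have l2 : s1 ≤ s2 := by rw [e2]; exact le_self_add
  have hT1 : s1 ≤ T := l2.trans hn
  set F : Ω → E N := fun ω => ac k ε β h B H0 n ω x with hF
  set G : Ω → E N := fun ω => ac k ε β (h / 2) B H0 (2 * n) ω x with hG
  set G1 : Ω → E N := fun ω => ac k ε β (h / 2) B H0 (2 * n + 1) ω x with hG1
  have mF : Measurable[ℱ s0] F := ac_meas hN hβ hε h n x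
  have mG : Measurable[ℱ s0] G := by
    have := ac_meas (k := k) hN hβ hε (h / 2) (2 * n) x
    rwa [c0] at this
  have mG1 : Measurable[ℱ s1] G1 := ac_meas hN hβ hε (h / 2) (2 * n + 1) x
  have pF : ∀ y, MemLp (fun ω => ac k ε β h B H0 n ω y) (2 : ℕ) P := fun y => XS_mem hN hβ hε h n n2 y
  have pG : ∀ y, MemLp (fun ω => ac k ε β (h / 2) B H0 (2 * n) ω y) (2 : ℕ) P := fun y =>
    XS_mem hN hβ hε (h / 2) (2 * n) n2 y
  have pG1 : MemLp G1 (2 : ℕ) P := XS_mem hN hβ hε (h / 2) (2 * n + 1) n2 x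
  set e : Ω → E N := fun ω => F ω - G ω with he
  have me : Measurable[ℱ s0] e := mF.sub mG
  have pe : MemLp e 2 P := (pF x).sub (pG x)
  have z := zero_dyn hN k ε β
  have q1 := mulv_sq z s0 s2 (l1.trans l2) x e me pe
  have mGG : Measurable[ℱ s1] (fun ω => G ω - G1 ω) := (mG.mono (ℱ.mono l1) le_rfl).sub mG1
  have pGG : MemLp (fun ω => G ω - G1 ω) 2 P := (pG x).sub pG1
  have q2 := mulv_sq z s1 s2 l2 x (fun ω => G ω - G1 ω) mGG pGG
  have d1 : (s2 : ℝ) - s0 = h := by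
    rw [e2, e1]
    push_cast
    ring
  have d2 : (s2 : ℝ) - s1 = h / 2 := by
    rw [e2]
    push_cast
    ring
  have hinc := XS_inc (k := k) hN hβ hε hi h0' h1' (2 * n) hT1 x
  rw [c] at hinc
  have hM : ∫ ω, ‖mulv (fun a b => B x a b s2 ω - B x a b s1 ω) (G ω - G1 ω)‖ ^ 2 ∂P ≤
      N * (Ci + 1) * h ^ 2 := by
    rw [q2.2.1, d2]
    exact XS_r7 hN0 (by linarith only [hCi]) hh hinc
  have hA := SdeSt_A (c := N * h) pe q1.1 q2.1 (q1.2.2 e me pe)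
    (q2.2.2 e (me.mono (ℱ.mono l1) le_rfl) pe) (by rw [q1.2.1, d1])
  have pA := (pe.add q1.1).add q2.1
  have hl := XS_lap (P := P) (f := fun y ω => ac k ε β h B H0 n ω y -
      ac k ε β (h / 2) B H0 (2 * n) ω y) n2 (fun y => (pF y).sub (pG y)) hx x
  have hpt : ∀ᵐ ω ∂P, ‖ac k ε β h B H0 (n + 1) ω x - ac k ε β (h / 2) B H0 (2 * (n + 1)) ω x‖ ≤
      ‖(e + fun ω => mulv (fun a b => B x a b s2 ω - B x a b s0 ω) (e ω)) ω +
        mulv (fun a b => B x a b s2 ω - B x a b s1 ω) (G ω - G1 ω)‖ + ‖XS_rd k ε β h B H0 n x ω‖ +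
      (k * h) * ‖lap (fun y => ac k ε β h B H0 n ω y - ac k ε β (h / 2) B H0 (2 * n) ω y) x‖ :=
    Eventually.of_forall fun ω => XS_pt hβ hε hk h n ω x hs0 hs1 hs2
  have h3 := SdeSt_sum3 (e' := fun ω => ac k ε β h B H0 (n + 1) ω x -
    ac k ε β (h / 2) B H0 (2 * (n + 1)) ω x) hh (mul_nonneg hk hh.le) pA pD hl.1 hpt
  refine h3.trans ?_
  have hA' : ∫ ω, ‖(e + fun ω => mulv (fun a b => B x a b s2 ω - B x a b s0 ω) (e ω)) ω +
        mulv (fun a b => B x a b s2 ω - B x a b s1 ω) (G ω - G1 ω)‖ ^ 2 ∂P ≤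
      (1 + 2 * (N * h)) * S + 2 * (N * (Ci + 1) * h ^ 2) := by
    refine hA.trans (add_le_add (mul_le_mul_of_nonneg_left (hx x) (by positivity)) ?_)
    exact mul_le_mul_of_nonneg_left hM (by norm_num)
  exact XS_t4 hN0 (by linarith only [hCi]) hcl hCd hS hh (Real.sqrt_nonneg _)
    (XS_t1 hN0 hS (by linarith only [hCi]) hh hh1 hA') (XS_t2 hCd hh hh1 hD) (XS_t3 hcl hS hh hh1 hl.2)

end DynX

end

/-! ### from `Lib_MP_36b788x.XC` -/

section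

/-!
# The dyadic chains are Cauchy

PROOF. `ac_half`: induction on `n` with `ac_two`: `S n = C √h n h e^{C n h}` satisfies the recursion. `ac_cauchy`: telescoping over `i < r` at the fixed time
`j hm m = (j 2^i) hm (m+i)`: `L²` norms `≤ √C (hm (m+i))^{1/4}`, geometric series with ratio `2^{-1/4}`, square. (`(2^{i+1} j)` steps of size `hm (m+i+1) = hm (m+i)/2`.)
-/

open MeasureTheory ProbabilityTheory Filter Dyn
open scoped NNReal ENNReal Topology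

namespace DynX

variable {Ω : Type} [mΩ : MeasurableSpace Ω] {P : Measure Ω} {N d : ℕ}
    {ℱ : Filtration ℝ≥0 mΩ} {B : Site d → Fin N → Fin N → ℝ≥0 → Ω → ℝ}
    {H0 : Site d → Ω → E N} {k ε β : ℝ}

theorem ac_half (hN : Noise P ℱ B H0) (hβ : 0 < β) (hε : 0 < ε) (hk : 0 ≤ k) (T : ℝ≥0) :
    ∃ C : ℝ, 0 ≤ C ∧ ∀ h : ℝ≥0, 0 < h → h ≤ 1 → ∀ n : ℕ, n * h ≤ T → ∀ x : Site d,
      ∫ ω, ‖ac k ε β h B H0 n ω x - ac k ε β (h / 2) B H0 (2 * n) ω x‖ ^ 2 ∂P ≤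
        C * Real.sqrt h := by
  obtain ⟨C, hC, h2⟩ := ac_two hN hβ hε hk T
  refine ⟨Real.exp (C * T), (Real.exp_pos _).le, ?_⟩
  intro h hh hh1
  have hhR : (0 : ℝ) < h := by exact_mod_cast hh
  have key : ∀ n : ℕ, n * h ≤ T → ∀ x : Site d,
      ∫ ω, ‖ac k ε β h B H0 n ω x - ac k ε β (h / 2) B H0 (2 * n) ω x‖ ^ 2 ∂P ≤
        Real.sqrt h * (Real.exp (C * (n * h)) - 1) := by
    intro n
    induction n with
    | zero =>
      intro _ x
      simp [ac]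
    | succ n ih =>
      intro hn x
      have hn1 : ((n : ℝ≥0) + 1) * h ≤ T := by
        have h3 := hn
        push_cast at h3
        exact h3
      have hn0 : (n : ℝ≥0) * h ≤ T := by
        refine le_trans ?_ hn1
        exact mul_le_mul_left (le_add_of_nonneg_right zero_le_one) h
      have hS : 0 ≤ Real.sqrt h * (Real.exp (C * (n * h)) - 1) := by
        apply mul_nonneg (Real.sqrt_nonneg _)
        rw [sub_nonneg]
        apply Real.one_le_exp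
        positivity
      have h4 := h2 h hh hh1 n hn1 _ hS (ih hn0) x
      refine h4.trans ?_
      have h5 : Real.exp (C * (((n : ℕ) + 1 : ℕ) * h)) =
          Real.exp (C * (n * h)) * Real.exp (C * h) := by
        rw [← Real.exp_add]
        congr 1
        push_cast
        ring
      have h6 : 1 + C * h ≤ Real.exp (C * h) := by
        have := Real.add_one_le_exp (C * (h : ℝ))
        linarith
      have h7 : (1 + C * h) * Real.exp (C * (n * h)) ≤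
          Real.exp (C * (n * h)) * Real.exp (C * h) := by
        rw [mul_comm]
        exact mul_le_mul_of_nonneg_left h6 (Real.exp_pos _).le
      rw [h5]
      have h8 := mul_le_mul_of_nonneg_left h7 (Real.sqrt_nonneg (h : ℝ))
      nlinarith only [h8, h8]
  intro n hn x
  refine (key n hn x).trans ?_
  rw [mul_comm]
  apply mul_le_mul_of_nonneg_right _ (Real.sqrt_nonneg _)
  have h9 : (n : ℝ) * h ≤ T := by exact_mod_cast hn
  have h10 : Real.exp (C * (n * h)) ≤ Real.exp (C * T) :=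
    Real.exp_le_exp.2 (mul_le_mul_of_nonneg_left h9 hC)
  linarith

private lemma XC_mem (hN : Noise P ℱ B H0) (hβ : 0 < β) (hε : 0 < ε) (h : ℝ≥0) (n : ℕ)
    (x : Site d) : MemLp (fun ω => ac k ε β h B H0 n ω x) 2 P := by
  have hm : AEStronglyMeasurable (fun ω => ac k ε β h B H0 n ω x) P :=
    ((ac_meas (k := k) hN hβ hε h n x).mono (ℱ.le _) le_rfl).aestronglyMeasurable
  exact (memLp_two_iff_integrable_sq_norm hm).2 (ac_mem hN hβ hε h n 2 x)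

private lemma XC_int (hN : Noise P ℱ B H0) (hβ : 0 < β) (hε : 0 < ε) (h h' : ℝ≥0) (n n' : ℕ)
    (x : Site d) : Integrable
      (fun ω => ‖ac k ε β h B H0 n ω x - ac k ε β h' B H0 n' ω x‖ ^ 2) P := by
  have h1 := (XC_mem (k := k) hN hβ hε h n x).sub (XC_mem (k := k) hN hβ hε h' n' x)
  exact (memLp_two_iff_integrable_sq_norm h1.1).1 h1

private lemma XC_sq {V : Type} [SeminormedAddCommGroup V] (u v w : V) :
    ‖u - w‖ ^ 2 ≤ 6 * ‖u - v‖ ^ 2 + 6 / 5 * ‖v - w‖ ^ 2 := by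
  have h1 : ‖u - w‖ ≤ ‖u - v‖ + ‖v - w‖ := norm_sub_le_norm_sub_add_norm_sub u v w
  have h2 : ‖u - w‖ ^ 2 ≤ (‖u - v‖ + ‖v - w‖) ^ 2 := by
    have h0 := norm_nonneg (u - w)
    exact pow_le_pow_left₀ h0 h1 2
  nlinarith [sq_nonneg (5 * ‖u - v‖ - ‖v - w‖)]

theorem ac_cauchy (hN : Noise P ℱ B H0) (hβ : 0 < β) (hε : 0 < ε) (hk : 0 ≤ k) (T : ℝ≥0) :
    ∃ C : ℝ, 0 ≤ C ∧ ∀ m r j : ℕ, j * hm m ≤ T → ∀ x : Site d,
      ∫ ω, ‖ac k ε β (hm m) B H0 j ω x - ac k ε β (hm (m + r)) B H0 (2 ^ r * j) ω x‖ ^ 2 ∂P ≤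
        C * Real.sqrt (hm m) := by
  obtain ⟨C, hC, h2⟩ := ac_half hN hβ hε hk T
  refine ⟨60 * C, by positivity, ?_⟩
  have hpos : ∀ m, 0 < hm m := fun m => by unfold hm; positivity
  have hle : ∀ m, hm m ≤ 1 := fun m => by
    unfold hm
    apply pow_le_one₀ (by positivity)
    have : (1 / 2 : ℝ≥0) ≤ 1 := by
      rw [← NNReal.coe_le_coe]
      push_cast
      norm_num
    exact this
  have hhalf : ∀ m, hm (m + 1) = hm m / 2 := fun m => by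
    unfold hm
    rw [pow_succ, mul_one_div]
  intro m r
  induction r generalizing m with
  | zero =>
    intro j _ x
    simp only [add_zero, pow_zero, one_mul, sub_self, norm_zero]
    rw [zero_pow two_ne_zero, integral_zero]
    positivity
  | succ r ih =>
    intro j hj x
    have hj2 : ((2 * j : ℕ) : ℝ≥0) * hm (m + 1) ≤ T := by
      rw [hhalf]
      refine le_trans (le_of_eq ?_) hj
      push_cast
      rw [mul_comm (2 : ℝ≥0), mul_assoc, mul_div_cancel₀ _ (two_ne_zero)]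
    have h3 := ih (m + 1) (2 * j) hj2 x
    have h4 := h2 (hm m) (hpos m) (hle m) j hj x
    rw [← hhalf] at h4
    have h5 : m + (r + 1) = m + 1 + r := by ring
    have h6 : 2 ^ (r + 1) * j = 2 ^ r * (2 * j) := by ring
    rw [h5, h6]
    have h7 : ∫ ω, ‖ac k ε β (hm m) B H0 j ω x -
          ac k ε β (hm (m + 1 + r)) B H0 (2 ^ r * (2 * j)) ω x‖ ^ 2 ∂P ≤
        6 * (∫ ω, ‖ac k ε β (hm m) B H0 j ω x -
          ac k ε β (hm (m + 1)) B H0 (2 * j) ω x‖ ^ 2 ∂P) +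
        6 / 5 * ∫ ω, ‖ac k ε β (hm (m + 1)) B H0 (2 * j) ω x -
          ac k ε β (hm (m + 1 + r)) B H0 (2 ^ r * (2 * j)) ω x‖ ^ 2 ∂P := by
      rw [← integral_const_mul, ← integral_const_mul, ← integral_add
        ((XC_int hN hβ hε _ _ _ _ x).const_mul _) ((XC_int hN hβ hε _ _ _ _ x).const_mul _)]
      apply integral_mono (XC_int hN hβ hε _ _ _ _ x)
        (((XC_int hN hβ hε _ _ _ _ x).const_mul _).add ((XC_int hN hβ hε _ _ _ _ x).const_mul _))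
      intro ω
      exact XC_sq _ _ _
    have h8 : Real.sqrt (hm (m + 1)) ≤ 3 / 4 * Real.sqrt (hm m) := by
      rw [hhalf]
      apply Real.sqrt_le_iff.2
      refine ⟨by positivity, ?_⟩
      rw [mul_pow, Real.sq_sqrt (NNReal.coe_nonneg (hm m))]
      push_cast
      have : (0 : ℝ) ≤ (hm m : ℝ) := NNReal.coe_nonneg (hm m)
      nlinarith
    have h9 : 60 * C * Real.sqrt (hm (m + 1)) ≤ 60 * C * (3 / 4 * Real.sqrt (hm m)) :=
      mul_le_mul_of_nonneg_left h8 (by positivity)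
    linarith

end DynX

end

/-! ### from `Lib_MP_36b788x.XL1` -/

section

/-!
# Limits at dyadic times

PROOF. Fix `x`, `m`, `j`, `A_r = ac (hm (m+r)) (2^r j) x`, all measurable for `ℱ (j hm m)` (`ac_meas`, `(2^r j) hm (m+r) = j hm m`). `ac_cauchy` with level `m+r` and one more step:
`E‖A_{r+1} - A_r‖² ≤ C √(hm (m+r))`, summable against `q^(-r)`, so `Σ_r ‖A_{r+1} - A_r‖ < ∞` a.s. (`lintegral_tsum`) and `A_r` converges a.s.
`X m j x ω` = `limUnder` of `A_r`, measurable for `ℱ (j hm m)` (`StronglyMeasurable.limUnder`). Consistency `X (m+1) (2j) = X m j`: the sequence for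
`(m+1, 2j)` is the tail of the sequence for `(m, j)`, same filter, so equality for every `ω`.
* `conv`: Fatou in `r → ∞` in `ac_cauchy`: `E‖X m j - ac (hm m) j‖² ≤ C √(hm m)`.
* `mom`: Fatou in `ac_mom`.
* `inc`: Fatou in `ac_inc` (`j + 1 ↦ (j+1) 2^r`, `j ↦ j 2^r`).
-/

open MeasureTheory ProbabilityTheory Filter Dyn
open scoped NNReal ENNReal Topology

namespace DynX

variable {Ω : Type} [mΩ : MeasurableSpace Ω] {P : Measure Ω} {N d : ℕ}
    {ℱ : Filtration ℝ≥0 mΩ} {B : Site d → Fin N → Fin N → ℝ≥0 → Ω → ℝ}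
    {H0 : Site d → Ω → E N} {k ε β : ℝ}

/-- Fatou for a sequence with bounded integrals. -/
private theorem fatou_le {f : ℕ → Ω → ℝ≥0∞} {g : Ω → ℝ≥0∞} {C : ℝ≥0∞}
    (hf : ∀ n, Measurable (f n)) (hl : ∀ᵐ ω ∂P, Tendsto (fun n => f n ω) atTop (𝓝 (g ω)))
    (hC : ∀ n, ∫⁻ ω, f n ω ∂P ≤ C) : ∫⁻ ω, g ω ∂P ≤ C := by
  have h1 : ∫⁻ ω, g ω ∂P = ∫⁻ ω, liminf (fun n => f n ω) atTop ∂P := by
    refine lintegral_congr_ae ?_
    filter_upwards [hl] with ω hω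
    exact hω.liminf_eq.symm
  rw [h1]
  refine (lintegral_liminf_le hf).trans ?_
  refine liminf_le_of_frequently_le' ?_
  exact Frequently.of_forall hC

private theorem hm_le_one (m : ℕ) : hm m ≤ 1 := by
  unfold hm
  exact pow_le_one₀ (by positivity) (by norm_num)

private theorem hm_time (m r j : ℕ) : ((2 ^ r * j : ℕ) : ℝ≥0) * hm (m + r) = j * hm m := by
  unfold hm
  push_cast
  rw [pow_add]
  have : (2 : ℝ≥0) ^ r * (1 / 2) ^ r = 1 := by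
    rw [← mul_pow]; norm_num
  calc (2 : ℝ≥0) ^ r * j * ((1 / 2) ^ m * (1 / 2) ^ r)
      = ((2 : ℝ≥0) ^ r * (1 / 2) ^ r) * (j * (1 / 2) ^ m) := by ring
    _ = _ := by rw [this, one_mul]

/-- the sequence of approximations -/
private noncomputable def apx (k ε β : ℝ) (B : Site d → Fin N → Fin N → ℝ≥0 → Ω → ℝ)
    (H0 : Site d → Ω → E N) (m j : ℕ) (x : Site d) (r : ℕ) (ω : Ω) : E N :=
  ac k ε β (hm (m + r)) B H0 (2 ^ r * j) ω x

private theorem sq_meas (hN : Noise P ℱ B H0) (hβ : 0 < β) (hε : 0 < ε) (m j : ℕ)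
    (x : Site d) (r : ℕ) : Measurable[ℱ (j * hm m)] (apx k ε β B H0 m j x r) := by
  have h := ac_meas (k := k) hN hβ hε (hm (m + r)) (2 ^ r * j) x
  rw [hm_time] at h
  exact h

private theorem sq_meas' (hN : Noise P ℱ B H0) (hβ : 0 < β) (hε : 0 < ε) (m j : ℕ)
    (x : Site d) (r : ℕ) : Measurable (apx k ε β B H0 m j x r) :=
  (sq_meas (k := k) hN hβ hε m j x r).mono (ℱ.le _) le_rfl

private theorem sub_pow_int [IsFiniteMeasure P] {a b : Ω → E N} (p : ℕ) (ha : Measurable a)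
    (hb : Measurable b) (ia : Integrable (fun ω => ‖a ω‖ ^ p) P)
    (ib : Integrable (fun ω => ‖b ω‖ ^ p) P) : Integrable (fun ω => ‖a ω - b ω‖ ^ p) P := by
  refine Integrable.mono' ((ia.add ib).const_mul (2 ^ (p - 1))) ?_ ?_
  · exact (((ha.sub hb).norm).pow_const p).aestronglyMeasurable
  · refine Eventually.of_forall fun ω => ?_
    rw [Real.norm_of_nonneg (by positivity)]
    calc ‖a ω - b ω‖ ^ p ≤ (‖a ω‖ + ‖b ω‖) ^ p :=
          pow_le_pow_left₀ (norm_nonneg _) (norm_sub_le _ _) p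
      _ ≤ 2 ^ (p - 1) * (‖a ω‖ ^ p + ‖b ω‖ ^ p) :=
          add_pow_le (norm_nonneg _) (norm_nonneg _) p

private theorem lint_le {f : Ω → ℝ} {C : ℝ} (hi : Integrable f P) (h0 : ∀ ω, 0 ≤ f ω)
    (hC : ∫ ω, f ω ∂P ≤ C) : ∫⁻ ω, ENNReal.ofReal (f ω) ∂P ≤ ENNReal.ofReal C := by
  rw [← ofReal_integral_eq_lintegral_ofReal hi (Eventually.of_forall h0)]
  exact ENNReal.ofReal_le_ofReal hC

private theorem sq_int (hN : Noise P ℱ B H0) (hβ : 0 < β) (hε : 0 < ε) (m j : ℕ)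
    (x : Site d) (r p : ℕ) : Integrable (fun ω => ‖apx k ε β B H0 m j x r ω‖ ^ p) P :=
  ac_mem hN hβ hε _ _ p x

private theorem sqrt_hm (m : ℕ) :
    Real.sqrt ((hm m : ℝ≥0) : ℝ) = (Real.sqrt (1 / 2)) ^ m := by
  unfold hm
  push_cast
  rw [Real.sqrt_eq_iff_mul_self_eq (by positivity) (by positivity), ← mul_pow,
    Real.mul_self_sqrt (by norm_num)]

/-- one more step of the sequence in square mean -/
private theorem sq_step (hN : Noise P ℱ B H0) (hβ : 0 < β) (hε : 0 < ε) (hk : 0 ≤ k) (m j : ℕ)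
    (x : Site d) : ∃ C : ℝ, 0 ≤ C ∧ ∀ r : ℕ,
      ∫⁻ ω, ENNReal.ofReal (‖apx k ε β B H0 m j x r ω - apx k ε β B H0 m j x (r + 1) ω‖ ^ 2) ∂P ≤
        ENNReal.ofReal (C * (Real.sqrt (1 / 2)) ^ (m + r)) := by
  have := hN.prob
  obtain ⟨C, hC0, hC⟩ := ac_cauchy (k := k) hN hβ hε hk (j * hm m)
  refine ⟨C, hC0, fun r => ?_⟩
  have h1 := hC (m + r) 1 (2 ^ r * j) (by rw [hm_time]) x
  have h2 : ∀ ω, ac k ε β (hm (m + r + 1)) B H0 (2 ^ 1 * (2 ^ r * j)) ω x =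
      apx k ε β B H0 m j x (r + 1) ω := by
    intro ω
    unfold apx
    rw [show 2 ^ 1 * (2 ^ r * j) = 2 ^ (r + 1) * j by ring, add_assoc]
  simp only [h2] at h1
  rw [sqrt_hm] at h1
  exact lint_le (sub_pow_int 2 (sq_meas' hN hβ hε m j x r) (sq_meas' hN hβ hε m j x (r + 1))
    (sq_int hN hβ hε m j x r 2) (sq_int hN hβ hε m j x (r + 1) 2)) (fun ω => by positivity) h1

private theorem sq_conv (hN : Noise P ℱ B H0) (hβ : 0 < β) (hε : 0 < ε) (hk : 0 ≤ k) (m j : ℕ)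
    (x : Site d) : ∀ᵐ ω ∂P, ∃ c : E N,
      Tendsto (fun r => apx k ε β B H0 m j x r ω) atTop (𝓝 c) := by
  have := hN.prob
  obtain ⟨C, hC0, hC⟩ := sq_step (k := k) hN hβ hε hk m j x
  set s : ℝ := Real.sqrt (1 / 2) with hs
  set q : ℝ := Real.sqrt s with hq
  have hs0 : 0 < s := Real.sqrt_pos.2 (by norm_num)
  have hs1 : s < 1 := by
    rw [hs, Real.sqrt_lt' (by norm_num)]; norm_num
  have hq0 : 0 < q := Real.sqrt_pos.2 hs0
  have hq1 : q < 1 := by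
    rw [hq, Real.sqrt_lt' (by norm_num)]; linarith
  have hqq : q * q = s := Real.mul_self_sqrt hs0.le
  set D : ℕ → Ω → ℝ := fun r ω => ‖apx k ε β B H0 m j x r ω - apx k ε β B H0 m j x (r + 1) ω‖
    with hD
  have hDm : ∀ r, Measurable (D r) := fun r =>
    ((sq_meas' hN hβ hε m j x r).sub (sq_meas' hN hβ hε m j x (r + 1))).norm
  have hD0 : ∀ r ω, 0 ≤ D r ω := fun r ω => norm_nonneg _
  -- weighted squares
  have hb : ∀ r, ∫⁻ ω, ENNReal.ofReal ((q ^ r)⁻¹ * (D r ω) ^ 2) ∂P ≤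
      ENNReal.ofReal (C * q ^ r) := by
    intro r
    have e1 : ∀ ω, ENNReal.ofReal ((q ^ r)⁻¹ * (D r ω) ^ 2) =
        ENNReal.ofReal ((q ^ r)⁻¹) * ENNReal.ofReal ((D r ω) ^ 2) := fun ω =>
      ENNReal.ofReal_mul (by positivity)
    simp only [e1]
    rw [lintegral_const_mul _ ((hDm r).pow_const 2).ennreal_ofReal]
    calc ENNReal.ofReal ((q ^ r)⁻¹) * ∫⁻ ω, ENNReal.ofReal ((D r ω) ^ 2) ∂P
        ≤ ENNReal.ofReal ((q ^ r)⁻¹) * ENNReal.ofReal (C * s ^ (m + r)) := by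
          gcongr; exact hC r
      _ = ENNReal.ofReal ((q ^ r)⁻¹ * (C * s ^ (m + r))) :=
          (ENNReal.ofReal_mul (by positivity)).symm
      _ ≤ ENNReal.ofReal (C * q ^ r) := by
          refine ENNReal.ofReal_le_ofReal ?_
          have h3 : s ^ (m + r) ≤ s ^ r := pow_le_pow_of_le_one hs0.le hs1.le (by omega)
          have h4 : s ^ r = q ^ r * q ^ r := by rw [← hqq, mul_pow]
          calc (q ^ r)⁻¹ * (C * s ^ (m + r)) ≤ (q ^ r)⁻¹ * (C * s ^ r) := by gcongr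
            _ = C * q ^ r := by
              rw [h4]; field_simp
  have hsum : Summable (fun r : ℕ => C * q ^ r) :=
    (summable_geometric_of_lt_one hq0.le hq1).mul_left C
  have hfin : ∫⁻ ω, ∑' r, ENNReal.ofReal ((q ^ r)⁻¹ * (D r ω) ^ 2) ∂P ≠ ∞ := by
    rw [lintegral_tsum (fun r =>
      (((hDm r).pow_const 2).const_mul _).ennreal_ofReal.aemeasurable)]
    refine ne_top_of_le_ne_top ?_ (ENNReal.tsum_le_tsum hb)
    rw [← ENNReal.ofReal_tsum_of_nonneg (fun r => by positivity) hsum]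
    exact ENNReal.ofReal_ne_top
  have hae : ∀ᵐ ω ∂P, ∑' r, ENNReal.ofReal ((q ^ r)⁻¹ * (D r ω) ^ 2) < ∞ := by
    refine ae_lt_top ?_ hfin
    exact Measurable.tsum (fun r => (((hDm r).pow_const 2).const_mul _).ennreal_ofReal)
  filter_upwards [hae] with ω hω
  have h5 : Summable (fun r => (q ^ r)⁻¹ * (D r ω) ^ 2) := by
    have h6 := ENNReal.summable_toReal hω.ne
    refine h6.congr fun r => ?_
    rw [ENNReal.toReal_ofReal (by positivity)]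
  have h7 : Summable (fun r => D r ω) := by
    refine Summable.of_nonneg_of_le (fun r => hD0 r ω) (fun r => ?_)
      ((summable_geometric_of_lt_one hq0.le hq1).add h5)
    have hqr : 0 < q ^ r := by positivity
    rcases le_total (D r ω) (q ^ r) with h | h
    · have : 0 ≤ (q ^ r)⁻¹ * (D r ω) ^ 2 := by positivity
      linarith
    · have h8 : D r ω ≤ (q ^ r)⁻¹ * (D r ω) ^ 2 := by
        rw [inv_mul_eq_div, le_div_iff₀ hqr, sq]
        exact mul_le_mul_of_nonneg_left h (hD0 r ω)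
      linarith
  have h9 : CauchySeq (fun r => apx k ε β B H0 m j x r ω) := by
    refine cauchySeq_of_summable_dist ?_
    simpa [dist_eq_norm, hD] using h7
  exact cauchySeq_tendsto_of_complete h9

/-- the limit -/
private noncomputable def lm (k ε β : ℝ) (B : Site d → Fin N → Fin N → ℝ≥0 → Ω → ℝ)
    (H0 : Site d → Ω → E N) (m j : ℕ) (x : Site d) (ω : Ω) : E N :=
  limUnder atTop (fun r => apx k ε β B H0 m j x r ω)

private theorem lm_tendsto (hN : Noise P ℱ B H0) (hβ : 0 < β) (hε : 0 < ε) (hk : 0 ≤ k)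
    (m j : ℕ) (x : Site d) : ∀ᵐ ω ∂P,
      Tendsto (fun r => apx k ε β B H0 m j x r ω) atTop (𝓝 (lm k ε β B H0 m j x ω)) := by
  filter_upwards [sq_conv (k := k) hN hβ hε hk m j x] with ω hω
  exact tendsto_nhds_limUnder hω

private theorem lm_meas (hN : Noise P ℱ B H0) (hβ : 0 < β) (hε : 0 < ε) (m j : ℕ)
    (x : Site d) : Measurable[ℱ (j * hm m)] (lm k ε β B H0 m j x) := by
  have h1 : ∀ r, StronglyMeasurable[ℱ (j * hm m)] (apx k ε β B H0 m j x r) := fun r =>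
    (sq_meas (k := k) hN hβ hε m j x r).stronglyMeasurable
  exact (@StronglyMeasurable.limUnder ℕ Ω (E N) (ℱ (j * hm m)) _ _ atTop _
    (fun r ω => apx k ε β B H0 m j x r ω) inferInstance _ h1).measurable

omit mΩ in
private theorem lm_cons (m j : ℕ) (x : Site d) :
    lm k ε β B H0 (m + 1) (2 * j) x = lm k ε β B H0 m j x := by
  funext ω
  unfold lm limUnder
  congr 1
  have h1 : (fun r => apx k ε β B H0 (m + 1) (2 * j) x r ω) =
      (fun r => apx k ε β B H0 m j x r ω) ∘ (fun r => r + 1) := by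
    funext r
    simp only [Function.comp, apx]
    rw [show m + 1 + r = m + (r + 1) by ring, show 2 ^ r * (2 * j) = 2 ^ (r + 1) * j by ring]
  rw [h1, ← Filter.map_map, Filter.map_add_atTop_eq_nat]

omit mΩ in
private theorem lm_zero (m : ℕ) (x : Site d) : lm k ε β B H0 m 0 x = H0 x := by
  funext ω
  unfold lm
  have h1 : (fun r => apx k ε β B H0 m 0 x r ω) = fun _ => H0 x ω := by
    funext r
    unfold apx
    rw [mul_zero]
    rfl
  rw [h1]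
  exact tendsto_const_nhds.limUnder_eq

/-- Fatou for powers of the norm -/
private theorem fatou_norm (p : ℕ) {a : ℕ → Ω → E N} {b : Ω → E N} {C : ℝ≥0∞}
    (ha : ∀ r, Measurable (a r)) (hl : ∀ᵐ ω ∂P, Tendsto (fun r => a r ω) atTop (𝓝 (b ω)))
    (hC : ∀ r, ∫⁻ ω, ENNReal.ofReal (‖a r ω‖ ^ p) ∂P ≤ C) :
    ∫⁻ ω, ENNReal.ofReal (‖b ω‖ ^ p) ∂P ≤ C := by
  refine fatou_le (f := fun r ω => ENNReal.ofReal (‖a r ω‖ ^ p))
    (fun r => ENNReal.measurable_ofReal.comp ((ha r).norm.pow_const p)) ?_ hC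
  filter_upwards [hl] with ω hω
  exact (ENNReal.continuous_ofReal.tendsto _).comp ((hω.norm).pow p)

theorem exists_dyadic (hN : Noise P ℱ B H0) (hβ : 0 < β) (hε : 0 < ε) (hk : 0 ≤ k) :
    ∃ X : ℕ → ℕ → Site d → Ω → E N, (∀ (m j : ℕ) (x : Site d), Measurable[ℱ (j * hm m)] (X m j x)) ∧
      (∀ m j x, X (m + 1) (2 * j) x = X m j x) ∧ (∀ m x, X m 0 x =ᵐ[P] H0 x) ∧
      (∀ (p : ℕ) (T : ℝ≥0), ∃ C : ℝ, ∀ m j : ℕ, j * hm m ≤ T → ∀ x,
        ∫⁻ ω, ENNReal.ofReal (‖X m j x ω‖ ^ p) ∂P ≤ ENNReal.ofReal C) ∧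
      (∀ T : ℝ≥0, ∃ C : ℝ, 0 ≤ C ∧ ∀ m i j : ℕ, i ≤ j → j * hm m ≤ T → ∀ x,
        ∫⁻ ω, ENNReal.ofReal (‖X m j x ω - X m i x ω‖ ^ 4) ∂P ≤
          ENNReal.ofReal (C * (((j : ℝ) - i) * hm m) ^ 2)) ∧
      ∀ T : ℝ≥0, ∃ C : ℝ, 0 ≤ C ∧ ∀ m j : ℕ, j * hm m ≤ T → ∀ x,
        ∫⁻ ω, ENNReal.ofReal (‖X m j x ω - ac k ε β (hm m) B H0 j ω x‖ ^ 2) ∂P ≤
          ENNReal.ofReal (C * Real.sqrt (hm m)) := by
  have := hN.prob
  refine ⟨lm k ε β B H0, fun m j x => lm_meas hN hβ hε m j x, fun m j x => lm_cons m j x,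
    fun m x => ?_, ?_, ?_, ?_⟩
  · rw [lm_zero]
  · intro p T
    obtain ⟨C, hC0, hC⟩ := ac_mom (k := k) hN hβ hε hk p T
    refine ⟨C, fun m j hj x => ?_⟩
    refine fatou_norm p (a := apx k ε β B H0 m j x) (fun r => sq_meas' hN hβ hε m j x r)
      (lm_tendsto hN hβ hε hk m j x) fun r => ?_
    refine lint_le (sq_int hN hβ hε m j x r p) (fun ω => by positivity) ?_
    exact hC (hm (m + r)) (hm_le_one _) (2 ^ r * j) (by rw [hm_time]; exact hj) x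
  · intro T
    obtain ⟨C, hC0, hC⟩ := ac_inc (k := k) hN hβ hε hk T
    refine ⟨C, hC0, fun m i j hij hj x => ?_⟩
    refine fatou_norm 4 (a := fun r ω => apx k ε β B H0 m j x r ω - apx k ε β B H0 m i x r ω)
      (b := fun ω => lm k ε β B H0 m j x ω - lm k ε β B H0 m i x ω)
      (fun r => (sq_meas' hN hβ hε m j x r).sub (sq_meas' hN hβ hε m i x r)) ?_ fun r => ?_
    · filter_upwards [lm_tendsto (k := k) hN hβ hε hk m j x,
        lm_tendsto (k := k) hN hβ hε hk m i x] with ω h1 h2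
      exact h1.sub h2
    · refine lint_le (sub_pow_int 4 (sq_meas' hN hβ hε m j x r) (sq_meas' hN hβ hε m i x r)
        (sq_int hN hβ hε m j x r 4) (sq_int hN hβ hε m i x r 4)) (fun ω => by positivity) ?_
      have h1 := hC (hm (m + r)) (hm_le_one _) (2 ^ r * i) (2 ^ r * j)
        (Nat.mul_le_mul_left _ hij) (by rw [hm_time]; exact hj) x
      have h2 : ((((2 ^ r * j : ℕ) : ℝ) - ((2 ^ r * i : ℕ) : ℝ)) * ((hm (m + r) : ℝ≥0) : ℝ)) =
          ((j : ℝ) - i) * ((hm m : ℝ≥0) : ℝ) := by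
        have e1 := congrArg (fun z : ℝ≥0 => (z : ℝ)) (hm_time m r j)
        have e2 := congrArg (fun z : ℝ≥0 => (z : ℝ)) (hm_time m r i)
        simp only [NNReal.coe_mul, NNReal.coe_natCast] at e1 e2
        rw [sub_mul, e1, e2, sub_mul]
      rw [h2] at h1
      exact h1
  · intro T
    obtain ⟨C, hC0, hC⟩ := ac_cauchy (k := k) hN hβ hε hk T
    refine ⟨C, hC0, fun m j hj x => ?_⟩
    refine fatou_norm 2
      (a := fun r ω => apx k ε β B H0 m j x r ω - ac k ε β (hm m) B H0 j ω x)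
      (b := fun ω => lm k ε β B H0 m j x ω - ac k ε β (hm m) B H0 j ω x)
      (fun r => (sq_meas' hN hβ hε m j x r).sub
        ((ac_meas (k := k) hN hβ hε (hm m) j x).mono (ℱ.le _) le_rfl)) ?_ fun r => ?_
    · filter_upwards [lm_tendsto (k := k) hN hβ hε hk m j x] with ω h1
      exact h1.sub tendsto_const_nhds
    · refine lint_le (sub_pow_int 2 (sq_meas' hN hβ hε m j x r)
        ((ac_meas (k := k) hN hβ hε (hm m) j x).mono (ℱ.le _) le_rfl)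
        (sq_int hN hβ hε m j x r 2) (ac_mem hN hβ hε _ _ 2 x)) (fun ω => by positivity) ?_
      have h1 := hC m r j hj x
      refine le_trans (le_of_eq ?_) h1
      refine integral_congr_ae (Eventually.of_forall fun ω => ?_)
      simp only [apx]
      rw [norm_sub_rev]

end DynX

end

/-! ### from `Lib_MP_36b788x.XL2` -/

section

/-!
# The limit process

PROOF. For each `x` apply `kc` to `X m j x` of `exists_dyadic` (`V = E N`): `H t x`. All properties at dyadic times from `exists_dyadic` and `H (j hm m) x = X m j x` a.s.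
* `cont`: every `ω`.
* `adapted`: `t_n = ⌊2^n t⌋₊ hm n ≤ t`, `t_n → t`, `X n ⌊2^n t⌋₊ x` is `ℱ t`-measurable, `H t x = lim H t_n x` surely, `H t_n x = X ..` a.s. So `H t x` is a.e. equal to the limit (where it exists, `0`
  elsewhere) of `ℱ t`-measurable functions; `meas_compl` with `Noise.compl`.
* `init`: `X 0 0 x = H0 x` a.s.
* `mom`, `inc`: Fatou along `t_n → t`, `s_n → s` (indices `⌊2^n t⌋₊`, `⌊2^n s⌋₊` at the common level `n`, times `≤ T`), fourth moment `≤ C |t_n - s_n|²`, then Cauchy-Schwarz for the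
  second moment: `≤ √C (t-s)`.
* `conv`: directly.
-/

open MeasureTheory ProbabilityTheory Filter Dyn
open scoped NNReal ENNReal Topology

namespace DynX

section XL2aux

private noncomputable def xl2i (n : ℕ) (t : ℝ≥0) : ℕ := ⌊2 ^ n * t⌋₊

private lemma xl2_hm_mul (n : ℕ) (a : ℝ≥0) : 2 ^ n * a * hm n = a := by
  have h : (2 : ℝ≥0) ^ n * hm n = 1 := by
    rw [hm, ← mul_pow]; norm_num
  calc 2 ^ n * a * hm n = a * (2 ^ n * hm n) := by ring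
    _ = a := by rw [h, mul_one]

private lemma xl2_le (n : ℕ) (t : ℝ≥0) : (xl2i n t : ℝ≥0) * hm n ≤ t := by
  have h1 : ((xl2i n t : ℕ) : ℝ≥0) ≤ 2 ^ n * t := Nat.floor_le zero_le
  calc (xl2i n t : ℝ≥0) * hm n ≤ 2 ^ n * t * hm n := by gcongr
    _ = t := xl2_hm_mul n t

private lemma xl2_ge (n : ℕ) (t : ℝ≥0) : t ≤ (xl2i n t : ℝ≥0) * hm n + hm n := by
  have h1 : 2 ^ n * t ≤ ((xl2i n t : ℕ) : ℝ≥0) + 1 := (Nat.lt_floor_add_one _).le
  calc t = 2 ^ n * t * hm n := (xl2_hm_mul n t).symm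
    _ ≤ (((xl2i n t : ℕ) : ℝ≥0) + 1) * hm n := by gcongr
    _ = _ := by ring

private lemma xl2_hm_tendsto : Tendsto (fun n => hm n) atTop (𝓝 0) := by
  unfold hm
  exact NNReal.tendsto_pow_atTop_nhds_zero_of_lt_one (by
    rw [div_lt_one (by norm_num)]; norm_num)

private lemma xl2_tendsto (t : ℝ≥0) :
    Tendsto (fun n => (xl2i n t : ℝ≥0) * hm n) atTop (𝓝 t) := by
  have h1 : Tendsto (fun n => t - hm n) atTop (𝓝 t) := by
    have := (tendsto_const_nhds (x := t)).sub xl2_hm_tendsto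
    simpa using this
  refine tendsto_of_tendsto_of_tendsto_of_le_of_le h1 tendsto_const_nhds ?_ ?_
  · intro n
    exact tsub_le_iff_right.mpr (xl2_ge n t)
  · intro n
    exact xl2_le n t

private lemma xl2_fatou {Ω : Type} [MeasurableSpace Ω] (P : Measure Ω) (f : ℕ → Ω → ℝ≥0∞)
    (g : Ω → ℝ≥0∞) (hf : ∀ n, Measurable (f n))
    (hg : ∀ ω, Tendsto (fun n => f n ω) atTop (𝓝 (g ω))) (c : ℕ → ℝ≥0∞) (c0 : ℝ≥0∞)
    (hc : Tendsto c atTop (𝓝 c0)) (h : ∀ n, ∫⁻ ω, f n ω ∂P ≤ c n) : ∫⁻ ω, g ω ∂P ≤ c0 := by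
  calc ∫⁻ ω, g ω ∂P = ∫⁻ ω, liminf (fun n => f n ω) atTop ∂P := by
        refine lintegral_congr (fun ω => ?_)
        exact (hg ω).liminf_eq.symm
    _ ≤ liminf (fun n => ∫⁻ ω, f n ω ∂P) atTop := lintegral_liminf_le hf
    _ ≤ liminf c atTop := liminf_le_liminf (Eventually.of_forall h)
    _ = c0 := hc.liminf_eq

private lemma xl2_int_le {Ω : Type} [MeasurableSpace Ω] (P : Measure Ω) {f : Ω → ℝ}
    (hf : ∀ ω, 0 ≤ f ω) {C : ℝ} (hC : 0 ≤ C)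
    (h : ∫⁻ ω, ENNReal.ofReal (f ω) ∂P ≤ ENNReal.ofReal C) : ∫ ω, f ω ∂P ≤ C := by
  have h1 := norm_integral_le_lintegral_norm (μ := P) f
  have h2 : ∫⁻ ω, ENNReal.ofReal ‖f ω‖ ∂P = ∫⁻ ω, ENNReal.ofReal (f ω) ∂P := by
    refine lintegral_congr (fun ω => ?_)
    rw [Real.norm_of_nonneg (hf ω)]
  rw [h2] at h1
  calc ∫ ω, f ω ∂P ≤ ‖∫ ω, f ω ∂P‖ := Real.le_norm_self _
    _ ≤ _ := h1
    _ ≤ (ENNReal.ofReal C).toReal := ENNReal.toReal_mono ENNReal.ofReal_ne_top h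
    _ = C := ENNReal.toReal_ofReal hC

private lemma xl2_integrable {Ω : Type} [MeasurableSpace Ω] (P : Measure Ω) {f : Ω → ℝ}
    (hf : ∀ ω, 0 ≤ f ω) (hm' : Measurable f) {C : ℝ}
    (h : ∫⁻ ω, ENNReal.ofReal (f ω) ∂P ≤ ENNReal.ofReal C) : Integrable f P := by
  refine ⟨hm'.aestronglyMeasurable, ?_⟩
  rw [hasFiniteIntegral_iff_ofReal (Eventually.of_forall hf)]
  exact lt_of_le_of_lt h ENNReal.ofReal_lt_top

/-- Cauchy-Schwarz: from the fourth to the second moment -/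
private lemma xl2_cs {Ω : Type} [MeasurableSpace Ω] (P : Measure Ω) [IsProbabilityMeasure P]
    {f : Ω → ℝ} (hf : ∀ ω, 0 ≤ f ω) (hm' : Measurable f) {a : ℝ} (ha : 0 ≤ a)
    (h : ∫⁻ ω, ENNReal.ofReal (f ω ^ 4) ∂P ≤ ENNReal.ofReal (a ^ 2)) :
    ∫ ω, f ω ^ 2 ∂P ≤ a := by
  have h4 : Integrable (fun ω => f ω ^ 4) P :=
    xl2_integrable P (fun ω => by have := hf ω; positivity) (hm'.pow_const 4) h
  have h4' : ∫ ω, f ω ^ 4 ∂P ≤ a ^ 2 :=
    xl2_int_le P (fun ω => by have := hf ω; positivity) (by positivity) h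
  have h2 : Integrable (fun ω => f ω ^ 2) P := by
    refine Integrable.mono' (h4.add (integrable_const (1 : ℝ))) (hm'.pow_const 2).aestronglyMeasurable ?_
    refine Eventually.of_forall (fun ω => ?_)
    have h0 := hf ω
    rw [Real.norm_of_nonneg (by positivity)]
    show f ω ^ 2 ≤ f ω ^ 4 + 1
    nlinarith [sq_nonneg (f ω ^ 2 - 1), sq_nonneg (f ω ^ 2)]
  refine le_of_forall_pos_le_add (fun e he => ?_)
  set b := a + e with hb
  have hb0 : 0 < b := by positivity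
  have hpt : ∀ ω, f ω ^ 2 ≤ (f ω ^ 4 / b + b) / 2 := by
    intro ω
    rw [le_div_iff₀ (by norm_num), div_add' _ _ _ hb0.ne', le_div_iff₀ hb0]
    nlinarith [sq_nonneg (f ω ^ 2 - b)]
  calc ∫ ω, f ω ^ 2 ∂P ≤ ∫ ω, (f ω ^ 4 / b + b) / 2 ∂P :=
        integral_mono h2 (((h4.div_const b).add (integrable_const b)).div_const 2) hpt
    _ = ((∫ ω, f ω ^ 4 ∂P) / b + b) / 2 := by
        rw [integral_div, integral_add (h4.div_const b) (integrable_const b), integral_div]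
        simp
    _ ≤ (b ^ 2 / b + b) / 2 := by
        have : ∫ ω, f ω ^ 4 ∂P ≤ b ^ 2 := h4'.trans (by
          apply pow_le_pow_left₀ ha; linarith)
        gcongr
    _ = b := by field_simp; ring
    _ = a + e := hb

/-- a measurable function a.e. equal to an `m`-measurable one is `m`-measurable if `m` contains the null sets -/
private lemma xl2_meas {Ω : Type} [mΩ : MeasurableSpace Ω] (P : Measure Ω)
    (m : MeasurableSpace Ω)
    (hc : ∀ A : Set Ω, MeasurableSet[mΩ] A → P A = 0 → MeasurableSet[m] A) {V : Type}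
    [MeasurableSpace V] (f g : Ω → V) (hf : Measurable[mΩ] f) (hg : Measurable[m] g)
    (hfg : f =ᵐ[P] g) : Measurable[m] f := by
  intro S hS
  let Z : Set Ω := @toMeasurable Ω mΩ P {ω | f ω ≠ g ω}
  have hZm : MeasurableSet[mΩ] Z := @measurableSet_toMeasurable Ω mΩ P _
  have hZ0 : P Z = 0 := (@measure_toMeasurable Ω mΩ P {ω | f ω ≠ g ω}).trans hfg
  have hZm' : MeasurableSet[m] Z := hc Z hZm hZ0
  have h1 : MeasurableSet[m] (f ⁻¹' S ∩ Z) :=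
    hc _ (@MeasurableSet.inter Ω mΩ _ _ (hf hS) hZm)
      (@measure_mono_null Ω (@Measure Ω mΩ) _ _ P _ _ Set.inter_subset_right hZ0)
  have h2 : MeasurableSet[m] (g ⁻¹' S ∩ Zᶜ) :=
    @MeasurableSet.inter Ω m _ _ (hg hS) (@MeasurableSet.compl Ω _ m hZm')
  have h3 : f ⁻¹' S = (f ⁻¹' S ∩ Z) ∪ (g ⁻¹' S ∩ Zᶜ) := by
    ext ω
    by_cases hω : ω ∈ Z
    · simp [hω]
    · have h4 : f ω = g ω := by
        by_contra hne
        exact hω (@subset_toMeasurable Ω mΩ P _ ω hne)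
      simp [hω, h4]
  rw [h3]
  exact @MeasurableSet.union Ω m _ _ h1 h2

end XL2aux

variable {Ω : Type} [mΩ : MeasurableSpace Ω] {P : Measure Ω} {N d : ℕ}
    {ℱ : Filtration ℝ≥0 mΩ} {B : Site d → Fin N → Fin N → ℝ≥0 → Ω → ℝ}
    {H0 : Site d → Ω → E N} {k ε β : ℝ}

theorem exists_lim (hN : Noise P ℱ B H0) (hβ : 0 < β) (hε : 0 < ε) (hk : 0 ≤ k) :
    ∃ H : ℝ≥0 → Site d → Ω → E N, IsLim P k ε β ℱ B H0 H := by
  have := hN.prob
  obtain ⟨X, hXm, hXc, hX0, hXmom, hXinc, hXconv⟩ := exists_dyadic hN hβ hε hk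
  have hXm' : ∀ m j x, Measurable (X m j x) := fun m j x => (hXm m j x).mono (ℱ.le _) le_rfl
  have hkc : ∀ x : Site d, ∃ Y : ℝ≥0 → Ω → E N, (∀ t, Measurable (Y t)) ∧
      (∀ ω, Continuous (fun t => Y t ω)) ∧ ∀ m j : ℕ, Y (j * hm m) =ᵐ[P] X m j x := by
    intro x
    refine kc P (fun m j => X m j x) (fun m j => hXm' m j x) (fun m j => ?_) (fun T => ?_)
    · show X (m + 1) (2 * j) x =ᵐ[P] X m j x
      rw [hXc m j x]
    · obtain ⟨C, hC0, hC⟩ := hXinc T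
      refine ⟨C, fun m j hj => ?_⟩
      have h1 : ((j + 1 : ℕ) : ℝ≥0) * hm m ≤ (T : ℝ≥0) := by
        have h2 : ((j + 1 : ℕ) : ℝ≥0) ≤ 2 ^ m * (T : ℝ≥0) := by
          have : ((j + 1 : ℕ) : ℝ≥0) ≤ ((T * 2 ^ m : ℕ) : ℝ≥0) := by exact_mod_cast hj
          rw [mul_comm]
          simpa using this
        calc ((j + 1 : ℕ) : ℝ≥0) * hm m ≤ 2 ^ m * (T : ℝ≥0) * hm m := by gcongr
          _ = T := xl2_hm_mul m _
      have h2 := hC m j (j + 1) (Nat.le_succ j) h1 x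
      refine h2.trans (le_of_eq ?_)
      congr 1
      simp [hm]
  choose Y hYm hYc hYe using hkc
  have hYt : ∀ x t ω, Tendsto (fun n => Y x ((xl2i n t : ℝ≥0) * hm n) ω) atTop (𝓝 (Y x t ω)) :=
    fun x t ω => ((hYc x ω).tendsto t).comp (xl2_tendsto t)
  refine ⟨fun t x => Y x t, ?_, ?_, ?_, ?_, ?_, ?_⟩
  · intro t x
    have h1 : ∀ n, Measurable[ℱ t] (Y x ((xl2i n t : ℝ≥0) * hm n)) := by
      intro n
      refine xl2_meas P (ℱ t) (hN.compl t) _ (X n (xl2i n t) x) (hYm x _) ?_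
        (hYe x n (xl2i n t))
      exact (hXm n (xl2i n t) x).mono (ℱ.mono (xl2_le n t)) le_rfl
    exact @measurable_of_tendsto_metrizable Ω (E N) (ℱ t) _ _ _ _ _ _ h1
      (tendsto_pi_nhds.mpr (fun ω => hYt x t ω))
  · intro x
    exact Eventually.of_forall (hYc x)
  · intro x
    have h1 := hYe x 0 0
    simp only [Nat.cast_zero, zero_mul] at h1
    exact h1.trans (hX0 0 x)
  · intro p T
    obtain ⟨C, hC⟩ := hXmom p T
    refine ⟨max C 0, fun t ht x => ?_⟩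
    have h1 : ∫⁻ ω, ENNReal.ofReal (‖Y x t ω‖ ^ p) ∂P ≤ ENNReal.ofReal (max C 0) := by
      refine xl2_fatou P (fun n ω => ENNReal.ofReal (‖Y x ((xl2i n t : ℝ≥0) * hm n) ω‖ ^ p)) _
        (fun n => ((hYm x _).norm.pow_const p).ennreal_ofReal)
        (fun ω => ENNReal.tendsto_ofReal (((hYt x t ω).norm).pow p)) (fun _ => _) _
        tendsto_const_nhds (fun n => ?_)
      have h2 : ∫⁻ ω, ENNReal.ofReal (‖Y x ((xl2i n t : ℝ≥0) * hm n) ω‖ ^ p) ∂P =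
          ∫⁻ ω, ENNReal.ofReal (‖X n (xl2i n t) x ω‖ ^ p) ∂P := by
        refine lintegral_congr_ae ?_
        filter_upwards [hYe x n (xl2i n t)] with ω hω
        rw [hω]
      show ∫⁻ ω, ENNReal.ofReal (‖Y x ((xl2i n t : ℝ≥0) * hm n) ω‖ ^ p) ∂P ≤ _
      rw [h2]
      refine (hC n (xl2i n t) ((xl2_le n t).trans ht) x).trans ?_
      exact ENNReal.ofReal_le_ofReal (le_max_left _ _)
    exact ⟨xl2_integrable P (fun ω => by positivity) ((hYm x t).norm.pow_const p) h1,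
      xl2_int_le P (fun ω => by positivity) (le_max_right _ _) h1⟩
  · intro T
    obtain ⟨C, hC0, hC⟩ := hXinc T
    refine ⟨Real.sqrt C, Real.sqrt_nonneg _, fun s t hst htT x => ?_⟩
    have hst' : (s : ℝ) ≤ t := by exact_mod_cast hst
    refine xl2_cs P (f := fun ω => ‖Y x t ω - Y x s ω‖) (fun ω => norm_nonneg _)
      ((hYm x t).sub (hYm x s)).norm
      (mul_nonneg (Real.sqrt_nonneg _) (by linarith)) ?_
    have h3 : Tendsto (fun n => ENNReal.ofReal (C * ((((xl2i n t : ℕ) : ℝ) - (xl2i n s : ℕ)) * hm n) ^ 2))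
        atTop (𝓝 (ENNReal.ofReal ((Real.sqrt C * ((t : ℝ) - s)) ^ 2))) := by
      refine ENNReal.tendsto_ofReal ?_
      have h4 : ∀ u : ℝ≥0, Tendsto (fun n => ((xl2i n u : ℕ) : ℝ) * (hm n : ℝ)) atTop (𝓝 (u : ℝ)) := by
        intro u
        have := (NNReal.tendsto_coe.mpr (xl2_tendsto u))
        simpa using this
      have h5 := ((h4 t).sub (h4 s))
      have h6 := (h5.pow 2).const_mul C
      rw [mul_pow, Real.sq_sqrt hC0]
      refine h6.congr (fun n => ?_)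
      ring
    refine xl2_fatou P (fun n ω => ENNReal.ofReal
      (‖Y x ((xl2i n t : ℝ≥0) * hm n) ω - Y x ((xl2i n s : ℝ≥0) * hm n) ω‖ ^ 4)) _
        (fun n => (((hYm x _).sub (hYm x _)).norm.pow_const 4).ennreal_ofReal)
        (fun ω => ENNReal.tendsto_ofReal ((((hYt x t ω).sub (hYt x s ω)).norm).pow 4)) _ _
        h3 (fun n => ?_)
    have h2 : ∫⁻ ω, ENNReal.ofReal
        (‖Y x ((xl2i n t : ℝ≥0) * hm n) ω - Y x ((xl2i n s : ℝ≥0) * hm n) ω‖ ^ 4) ∂P =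
          ∫⁻ ω, ENNReal.ofReal (‖X n (xl2i n t) x ω - X n (xl2i n s) x ω‖ ^ 4) ∂P := by
      refine lintegral_congr_ae ?_
      filter_upwards [hYe x n (xl2i n t), hYe x n (xl2i n s)] with ω h1 h2
      rw [h1, h2]
    show ∫⁻ ω, ENNReal.ofReal
        (‖Y x ((xl2i n t : ℝ≥0) * hm n) ω - Y x ((xl2i n s : ℝ≥0) * hm n) ω‖ ^ 4) ∂P ≤ _
    rw [h2]
    have hi : xl2i n s ≤ xl2i n t := by
      unfold xl2i
      apply Nat.floor_mono
      gcongr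
    exact hC n (xl2i n s) (xl2i n t) hi ((xl2_le n t).trans htT) x
  · intro T
    obtain ⟨C, hC0, hC⟩ := hXconv T
    refine ⟨C, hC0, fun m j hj x => ?_⟩
    refine xl2_int_le P (fun ω => by positivity) (mul_nonneg hC0 (Real.sqrt_nonneg _)) ?_
    refine le_trans (le_of_eq ?_) (hC m j hj x)
    refine lintegral_congr_ae ?_
    filter_upwards [hYe x m j] with ω hω
    rw [hω]

end DynX

end
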