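import Pool.Agent.Lib_MP_36b788_n.X3
import Pool.Agent.Lib_MP_36b788_n.X4

set_option linter.unusedVariables false

/-!
# MP_36b788_pr, stationary limit: merged library part X5

Concatenation of smaller files (each in its own section), only to save build time.
-/

/-! ### from `Lib_MP_36b788x.XTop` -/

section

/-!
# Existence of solutions
-/

open MeasureTheory ProbabilityTheory Filter Dyn
open scoped NNReal ENNReal Topology

namespace DynX

/-- for every law without atom at zero and with finite moments there is a solution with i.i.d. initial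
values of this law -/
theorem exists_sol (N d : ℕ) (k ε β : ℝ) (hk : 0 ≤ k) (hε : 0 < ε) (hβ : 0 < β)
    (ρ : Measure (E N)) [IsProbabilityMeasure ρ] (hρ0 : ρ {0} = 0)
    (hρ : ∀ p : ℕ, Integrable (fun v : E N => ‖v‖ ^ p) ρ) :
    ∃ (Ω : Type) (mΩ : MeasurableSpace Ω) (P : Measure Ω) (ℱ : Filtration ℝ≥0 mΩ)
      (B : Site d → Fin N → Fin N → ℝ≥0 → Ω → ℝ) (H : ℝ≥0 → Site d → Ω → E N),
      IsDynamo P k ε β ℱ B H ∧ IsInit P (H 0) ∧ P.map (H 0 0) = ρ := by
  obtain ⟨Ω, mΩ, P, ℱ, B, H0, hN, hi, hl⟩ := exists_noise N d ρ hρ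
  obtain ⟨H, hL⟩ := exists_lim hN hβ hε hk
  have hP := hN.prob
  have hH0m : ∀ x, Measurable (H0 x) := fun x => (hN.h0 x).mono (ℱ.le 0) le_rfl
  have hHm : ∀ t x, Measurable (H t x) := fun t x => (hL.adapted t x).mono (ℱ.le t) le_rfl
  have hlaw : ∀ x, P.map (H 0 x) = ρ := fun x => by
    rw [Measure.map_congr (hL.init x), hl x]
  refine ⟨Ω, mΩ, P, ℱ, B, H, ?_, ?_, hlaw 0⟩
  · exact
      { prob := hN.prob
        brownian := hN.brownian
        indep := hN.indep
        adaptB := hN.adaptB
        indepInc := hN.indepInc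
        adapted := hL.adapted
        cont := hL.cont
        moments := hL.mom
        ito := fun x s t hst => ito_of_lim hN hβ hε hk hL x s t hst }
  · refine ⟨?_, ?_, ?_⟩
    · exact hi.congr (fun x => (hL.init x).symm)
    · intro x
      exact ⟨(hHm 0 x).aemeasurable, (hHm 0 0).aemeasurable, by rw [hlaw x, hlaw 0]⟩
    · have h1 : P {ω | H 0 0 ω = 0} = P.map (H 0 0) {0} := by
        rw [Measure.map_apply (hHm 0 0) (measurableSet_singleton 0)]
        rfl
      rw [h1, hlaw 0, hρ0]

end DynX

end
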